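import Pool.Agent.H57.GH.SDefs

/-!
Project SH: the number of copies of `J` is at most the number of copies of a star and isolated
vertices.
-/

namespace H57GH

open Finset H57LC H57LT

set_option linter.unusedSectionVars false

lemma SStar_young (a x y : ℕ) : (a + 1) * (x ^ a * y) ≤ a * x ^ (a + 1) + y ^ (a + 1) := by
  induction a with
  | zero => simp
  | succ a ih =>
    have h1 : x * ((a + 1) * (x ^ a * y)) ≤ x * (a * x ^ (a + 1) + y ^ (a + 1)) :=
      Nat.mul_le_mul_left x ih
    have h2 : x ^ (a + 1) * y + x * y ^ (a + 1) ≤ x ^ (a + 2) + y ^ (a + 2) := by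
      rcases le_total x y with h | h
      · obtain ⟨d, rfl⟩ := Nat.exists_eq_add_of_le h
        have h3 : x ^ (a + 1) ≤ (x + d) ^ (a + 1) := Nat.pow_le_pow_left h _
        have h4 : d * x ^ (a + 1) ≤ d * (x + d) ^ (a + 1) := Nat.mul_le_mul_left d h3
        have e1 : x ^ (a + 2) = x * x ^ (a + 1) := by ring
        have e2 : (x + d) ^ (a + 2) = x * (x + d) ^ (a + 1) + d * (x + d) ^ (a + 1) := by ring
        have e3 : x ^ (a + 1) * (x + d) = x * x ^ (a + 1) + d * x ^ (a + 1) := by ring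
        omega
      · obtain ⟨d, rfl⟩ := Nat.exists_eq_add_of_le h
        have h3 : y ^ (a + 1) ≤ (y + d) ^ (a + 1) := Nat.pow_le_pow_left h _
        have h4 : d * y ^ (a + 1) ≤ d * (y + d) ^ (a + 1) := Nat.mul_le_mul_left d h3
        have e1 : (y + d) ^ (a + 2) = (y + d) ^ (a + 1) * y + d * (y + d) ^ (a + 1) := by ring
        have e2 : y ^ (a + 2) = y * y ^ (a + 1) := by ring
        have e3 : (y + d) * y ^ (a + 1) = y * y ^ (a + 1) + d * y ^ (a + 1) := by ring
        omega
    have e1 : (a + 1 + 1) * (x ^ (a + 1) * y) =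
        x * ((a + 1) * (x ^ a * y)) + x ^ (a + 1) * y := by ring
    have e2 : x * (a * x ^ (a + 1) + y ^ (a + 1)) = a * x ^ (a + 2) + x * y ^ (a + 1) := by ring
    have e3 : (a + 1) * x ^ (a + 1 + 1) + y ^ (a + 1 + 1) =
        a * x ^ (a + 2) + (x ^ (a + 2) + y ^ (a + 2)) := by ring
    rw [e1, e3]
    rw [e2] at h1
    omega

/-- a vertex whose removal leaves the graph connected, different from a given one -/
lemma SStar_leaf {ι : Type} [Fintype ι] (J : SimpleGraph ι) (hJ : J.Connected) (v : ι)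
    (h2 : 1 < Fintype.card ι) :
    ∃ l p : ι, l ≠ v ∧ p ≠ l ∧ J.Adj p l ∧ (J.induce {l}ᶜ).Connected := by
  classical
  have : Nontrivial ι := Fintype.one_lt_card_iff_nontrivial.1 h2
  obtain ⟨T, hT, hTt⟩ := hJ.exists_isTree_le
  obtain ⟨x, y, hxy, hx, hy⟩ := hTt.exists_ne_and_degree_eq_one
  have key : ∀ l : ι, T.degree l = 1 →
      ∃ p : ι, p ≠ l ∧ J.Adj p l ∧ (J.induce {l}ᶜ).Connected := by
    intro l hl
    obtain ⟨p, hp, -⟩ := SimpleGraph.degree_eq_one_iff_existsUnique_adj.1 hl
    have hp' : T.Adj l p := hp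
    refine ⟨p, hp'.ne', hT hp'.symm, ?_⟩
    refine (hTt.connected.induce_compl_singleton_of_degree_eq_one hl).mono ?_
    intro a b hab
    exact hT hab
  by_cases hxv : x = v
  · obtain ⟨p, h1, h2, h3⟩ := key y hy
    exact ⟨y, p, fun h => hxy (hxv.trans h.symm), h1, h2, h3⟩
  · obtain ⟨p, h1, h2, h3⟩ := key x hx
    exact ⟨x, p, hxv, h1, h2, h3⟩

lemma SStar_aux {V : Type*} [DecidableEq V] (G : SimpleGraph V) [DecidableRel G.Adj]
    (S : Finset V) (n : ℕ) : ∀ {ι : Type} [Fintype ι] [DecidableEq ι] (J : SimpleGraph ι)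
    [DecidableRel J.Adj], Fintype.card ι = n + 1 → J.Connected → ∀ (v : ι) (a : ℕ),
    ∑ φ ∈ (Fintype.piFinset fun _ : ι => S).filter (fun φ => ∀ i j, J.Adj i j →
        G.Adj (φ i) (φ j)), dg G S (φ v) ^ a ≤ ∑ x ∈ S, dg G S x ^ (a + n) := by
  induction n with
  | zero =>
    intro ι _ _ J _ hc hJ v a
    have hsub : ∀ i : ι, i = v := fun i =>
      (Fintype.card_le_one_iff.1 (le_of_eq hc)) i v
    calc ∑ φ ∈ (Fintype.piFinset fun _ : ι => S).filter (fun φ => ∀ i j, J.Adj i j →
          G.Adj (φ i) (φ j)), dg G S (φ v) ^ a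
        = ∑ x ∈ ((Fintype.piFinset fun _ : ι => S).filter (fun φ => ∀ i j, J.Adj i j →
          G.Adj (φ i) (φ j))).image (fun φ => φ v), dg G S x ^ a := by
          rw [Finset.sum_image]
          intro φ _ ψ _ h
          funext i
          rw [hsub i]
          exact h
      _ ≤ ∑ x ∈ S, dg G S x ^ a := by
          refine Finset.sum_le_sum_of_subset ?_
          intro x hx
          obtain ⟨φ, hφ, rfl⟩ := Finset.mem_image.1 hx
          exact (Fintype.mem_piFinset.1 (Finset.mem_filter.1 hφ).1) v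
      _ = ∑ x ∈ S, dg G S x ^ (a + 0) := by simp
  | succ n ih =>
    intro ι _ _ J _ hc hJ v a
    obtain ⟨l, p, hlv, hpl, hadj, hcon⟩ := SStar_leaf J hJ v (by omega)
    classical
    have hc0 : Fintype.card ↥(({l}ᶜ : Set ι)) = n + 1 := by
      rw [Fintype.card_compl_set, Set.card_singleton]
      omega
    set ι' : Type := ↥(({l}ᶜ : Set ι)) with hι'
    have hmem : ∀ i : ι, i ≠ l → i ∈ ({l}ᶜ : Set ι) := fun i hi => by simpa using hi
    have hc' : Fintype.card ι' = n + 1 := by convert hc0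
    set v' : ι' := ⟨v, hmem v hlv.symm⟩ with hv'
    set p' : ι' := ⟨p, hmem p hpl⟩ with hp'
    have ihv := ih (J.induce {l}ᶜ) hc' hcon v' (a + 1)
    have ihp := ih (J.induce {l}ᶜ) hc' hcon p' (a + 1)
    set A' := (Fintype.piFinset fun _ : ι' => S).filter (fun φ => ∀ i j,
      (J.induce {l}ᶜ).Adj i j → G.Adj (φ i) (φ j)) with hA'
    set A := (Fintype.piFinset fun _ : ι => S).filter (fun φ => ∀ i j, J.Adj i j →
      G.Adj (φ i) (φ j)) with hA
    set e : (ι → V) → (ι' → V) × V := fun φ => (fun i => φ i.1, φ l) with he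
    have einj : Function.Injective e := by
      intro φ ψ h
      funext i
      by_cases hi : i = l
      · rw [hi]
        exact (Prod.ext_iff.1 h).2
      · exact congrFun (Prod.ext_iff.1 h).1 ⟨i, hmem i hi⟩
    have h1 : ∑ φ ∈ A, dg G S (φ v) ^ a ≤
        ∑ φ ∈ A', dg G S (φ v') ^ a * dg G S (φ p') := by
      calc ∑ φ ∈ A, dg G S (φ v) ^ a
          = ∑ b ∈ A.image e, dg G S (b.1 v') ^ a := by
            rw [Finset.sum_image einj.injOn]
        _ ≤ ∑ b ∈ (A' ×ˢ S).filter (fun b => G.Adj (b.1 p') b.2), dg G S (b.1 v') ^ a := by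
            refine Finset.sum_le_sum_of_subset ?_
            intro b hb
            obtain ⟨φ, hφ, rfl⟩ := Finset.mem_image.1 hb
            obtain ⟨hφS, hφh⟩ := Finset.mem_filter.1 hφ
            have hφS' := Fintype.mem_piFinset.1 hφS
            refine Finset.mem_filter.2 ⟨Finset.mem_product.2 ⟨?_, hφS' l⟩, hφh p l hadj⟩
            refine Finset.mem_filter.2 ⟨Fintype.mem_piFinset.2 fun i => hφS' i.1, ?_⟩
            intro i j hij
            exact hφh i.1 j.1 hij
        _ = ∑ φ ∈ A', dg G S (φ v') ^ a * dg G S (φ p') := by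
            rw [Finset.sum_filter, Finset.sum_product]
            refine Finset.sum_congr rfl fun φ _ => ?_
            rw [← Finset.sum_filter]
            simp only [Finset.sum_const, smul_eq_mul, dg]
            ring
    have h2 : (a + 1) * ∑ φ ∈ A, dg G S (φ v) ^ a ≤
        (a + 1) * ∑ x ∈ S, dg G S x ^ (a + 1 + n) := by
      calc (a + 1) * ∑ φ ∈ A, dg G S (φ v) ^ a
          ≤ (a + 1) * ∑ φ ∈ A', dg G S (φ v') ^ a * dg G S (φ p') :=
            Nat.mul_le_mul_left _ h1
        _ = ∑ φ ∈ A', (a + 1) * (dg G S (φ v') ^ a * dg G S (φ p')) := by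
            rw [Finset.mul_sum]
        _ ≤ ∑ φ ∈ A', (a * dg G S (φ v') ^ (a + 1) + dg G S (φ p') ^ (a + 1)) :=
            Finset.sum_le_sum fun φ _ => SStar_young _ _ _
        _ = a * ∑ φ ∈ A', dg G S (φ v') ^ (a + 1) + ∑ φ ∈ A', dg G S (φ p') ^ (a + 1) := by
            rw [Finset.sum_add_distrib, Finset.mul_sum]
        _ ≤ a * ∑ x ∈ S, dg G S x ^ (a + 1 + n) + ∑ x ∈ S, dg G S x ^ (a + 1 + n) :=
            Nat.add_le_add (Nat.mul_le_mul_left _ ihv) ihp
        _ = (a + 1) * ∑ x ∈ S, dg G S x ^ (a + 1 + n) := by ring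
    have h3 := Nat.le_of_mul_le_mul_left h2 (Nat.succ_pos a)
    have h4 : a + 1 + n = a + (n + 1) := by omega
    rwa [h4] at h3

/-- homomorphisms of a connected graph, with a weight at the vertex `v` -/
theorem hom_star {ι : Type} [Fintype ι] [DecidableEq ι] (J : SimpleGraph ι) [DecidableRel J.Adj]
    (hJ : J.Connected) {V : Type*} [DecidableEq V] (G : SimpleGraph V) [DecidableRel G.Adj]
    (S : Finset V) (v : ι) (a : ℕ) :
    ∑ φ ∈ (Fintype.piFinset fun _ : ι => S).filter (fun φ => ∀ i j, J.Adj i j →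
        G.Adj (φ i) (φ j)), dg G S (φ v) ^ a ≤ ∑ x ∈ S, dg G S x ^ (a + (Fintype.card ι - 1)) := by
  have hpos : 0 < Fintype.card ι := Fintype.card_pos_iff.2 ⟨v⟩
  exact SStar_aux G S (Fintype.card ι - 1) J (by omega) hJ v a

lemma SStar_cheb {V : Type*} [DecidableEq V] (S : Finset V) (d : V → ℕ) (a b : ℕ) :
    (∑ x ∈ S, d x ^ a) * ∑ x ∈ S, d x ^ b ≤ S.card * ∑ x ∈ S, d x ^ (a + b) := by
  have h : MonovaryOn (fun x => d x ^ a) (fun x => d x ^ b) (S : Set V) := by
    intro x _ y _ hxy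
    have h1 : d x < d y := lt_of_pow_lt_pow_left₀ b (Nat.zero_le _) hxy
    exact Nat.pow_le_pow_left h1.le a
  have h2 := h.sum_mul_sum_le_card_mul_sum
  simpa [pow_add] using h2

lemma SStar_prod {V : Type*} [DecidableEq V] (S : Finset V) (d : V → ℕ) {κ : Type*}
    [DecidableEq κ] (k : κ → ℕ) (F : Finset κ) (hF : F.Nonempty) :
    ∏ C ∈ F, ∑ x ∈ S, d x ^ k C ≤ S.card ^ (F.card - 1) * ∑ x ∈ S, d x ^ (∑ C ∈ F, k C) := by
  induction F using Finset.induction_on with
  | empty => exact absurd hF Finset.not_nonempty_empty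
  | insert C F hC ih =>
    rcases F.eq_empty_or_nonempty with rfl | hne
    · simp
    · rw [Finset.prod_insert hC, Finset.sum_insert hC, Finset.card_insert_of_notMem hC]
      have hpos : 0 < F.card := Finset.card_pos.2 hne
      have h1 := ih hne
      calc (∑ x ∈ S, d x ^ k C) * ∏ C ∈ F, ∑ x ∈ S, d x ^ k C
          ≤ (∑ x ∈ S, d x ^ k C) *
              (S.card ^ (F.card - 1) * ∑ x ∈ S, d x ^ (∑ C ∈ F, k C)) :=
            Nat.mul_le_mul_left _ h1
        _ = S.card ^ (F.card - 1) *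
              ((∑ x ∈ S, d x ^ k C) * ∑ x ∈ S, d x ^ (∑ C ∈ F, k C)) := by ring
        _ ≤ S.card ^ (F.card - 1) *
              (S.card * ∑ x ∈ S, d x ^ (k C + ∑ C ∈ F, k C)) :=
            Nat.mul_le_mul_left _ (SStar_cheb S d _ _)
        _ = S.card ^ (F.card + 1 - 1) * ∑ x ∈ S, d x ^ (k C + ∑ C ∈ F, k C) := by
            have e : F.card + 1 - 1 = (F.card - 1) + 1 := by omega
            rw [e, pow_succ]
            ring

theorem emb_star {ι : Type} [Fintype ι] [DecidableEq ι] [Nonempty ι] (J : SimpleGraph ι)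
    [DecidableRel J.Adj] {V : Type*} [DecidableEq V] (G : SimpleGraph V) [DecidableRel G.Adj]
    (S : Finset V) :
    (emb J G S).card ≤ S.card ^ (Fintype.card ι - 1 - rk J) * ∑ x ∈ S, dg G S x ^ rk J := by
  classical
  have : Fintype J.ConnectedComponent := Fintype.ofFinite _
  set H : (C : J.ConnectedComponent) → Finset (↥C.supp → V) := fun C =>
    (Fintype.piFinset fun _ : ↥C.supp => S).filter (fun φ => ∀ i j,
      (J.induce C.supp).Adj i j → G.Adj (φ i) (φ j)) with hH
  have h1 : (emb J G S).card ≤ (Fintype.piFinset H).card := by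
    refine Finset.card_le_card_of_injOn (fun φ C i => φ i.1) ?_ ?_
    · intro φ hφ
      obtain ⟨hφS, -, hφh⟩ := Finset.mem_filter.1 (Finset.mem_coe.1 hφ)
      have hφS' := Fintype.mem_piFinset.1 hφS
      refine Finset.mem_coe.2 (Fintype.mem_piFinset.2 fun C => ?_)
      refine Finset.mem_filter.2 ⟨Fintype.mem_piFinset.2 fun i => hφS' i.1, ?_⟩
      intro i j hij
      exact hφh i.1 j.1 hij
    · intro φ _ ψ _ h
      funext i
      exact congrFun (congrFun h (J.connectedComponentMk i)) ⟨i, rfl⟩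
  have hcard : ∀ C : J.ConnectedComponent, 0 < Fintype.card ↥C.supp := by
    intro C
    obtain ⟨v, hv⟩ := C.nonempty_supp
    exact Fintype.card_pos_iff.2 ⟨⟨v, hv⟩⟩
  have h2 : ∀ C : J.ConnectedComponent,
      (H C).card ≤ ∑ x ∈ S, dg G S x ^ (Fintype.card ↥C.supp - 1) := by
    intro C
    obtain ⟨v, hv⟩ := C.nonempty_supp
    have h := hom_star (J.induce C.supp) C.connected_toSimpleGraph G S ⟨v, hv⟩ 0
    simpa [hH] using h
  have hne : (univ : Finset J.ConnectedComponent).Nonempty :=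
    ⟨J.connectedComponentMk (Classical.arbitrary ι), mem_univ _⟩
  have h3 := SStar_prod S (dg G S) (fun C : J.ConnectedComponent =>
    Fintype.card ↥C.supp - 1) univ hne
  have hsum : ∑ C : J.ConnectedComponent, Fintype.card ↥C.supp = Fintype.card ι := by
    rw [← Fintype.card_sigma]
    refine Fintype.card_congr ?_
    exact Equiv.sigmaFiberEquiv J.connectedComponentMk
  have hcc : Fintype.card J.ConnectedComponent ≤ Fintype.card ι := by
    calc Fintype.card J.ConnectedComponent = ∑ C : J.ConnectedComponent, 1 := by simp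
      _ ≤ ∑ C : J.ConnectedComponent, Fintype.card ↥C.supp :=
        Finset.sum_le_sum fun C _ => hcard C
      _ = Fintype.card ι := hsum
  have hcpos : 0 < Fintype.card J.ConnectedComponent := Finset.card_pos.2 hne
  have hsum' : ∑ C : J.ConnectedComponent, (Fintype.card ↥C.supp - 1) = rk J := by
    have h : ∑ C : J.ConnectedComponent, (Fintype.card ↥C.supp - 1) +
        Fintype.card J.ConnectedComponent = Fintype.card ι := by
      rw [← hsum]
      have h0 : Fintype.card J.ConnectedComponent = ∑ C : J.ConnectedComponent, 1 := by simp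
      rw [h0, ← Finset.sum_add_distrib]
      refine Finset.sum_congr rfl fun C _ => ?_
      have := hcard C
      omega
    rw [rk, Nat.card_eq_fintype_card]
    omega
  have hrk : Fintype.card ι - 1 - rk J = (univ : Finset J.ConnectedComponent).card - 1 := by
    rw [rk, Nat.card_eq_fintype_card, Finset.card_univ]
    omega
  calc (emb J G S).card ≤ (Fintype.piFinset H).card := h1
    _ = ∏ C, (H C).card := Fintype.card_piFinset H
    _ ≤ ∏ C : J.ConnectedComponent, ∑ x ∈ S, dg G S x ^ (Fintype.card ↥C.supp - 1) :=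
        Finset.prod_le_prod' fun C _ => h2 C
    _ ≤ S.card ^ ((univ : Finset J.ConnectedComponent).card - 1) *
        ∑ x ∈ S, dg G S x ^ (∑ C : J.ConnectedComponent, (Fintype.card ↥C.supp - 1)) := h3
    _ = S.card ^ (Fintype.card ι - 1 - rk J) * ∑ x ∈ S, dg G S x ^ rk J := by
        rw [hsum', hrk]

end H57GH
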