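import Pool.Agent.H57.GH.BDefs
import Pool.Agent.H57.GH.SStar

/-!
Project SB: the number of copies of `J`, by components.
-/

namespace H57GH

open Finset H57LC H57LT

set_option linter.unusedSectionVars false

theorem emb_comp {ι : Type} [Fintype ι] [DecidableEq ι] (J : SimpleGraph ι)
    [DecidableRel J.Adj] {V : Type*} [DecidableEq V] (G : SimpleGraph V) [DecidableRel G.Adj]
    (S : Finset V) :
    ((emb J G S).card : ℝ) ≤ cprod J (fun c => ∑ x ∈ S, (dg G S x : ℝ) ^ (c - 1)) := by
  classical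
  have : Fintype J.ConnectedComponent := Fintype.ofFinite _
  set H : (C : J.ConnectedComponent) → Finset (↥C.supp → V) := fun C =>
    (Fintype.piFinset fun _ : ↥C.supp => S).filter (fun φ => ∀ i j,
      (J.induce C.supp).Adj i j → G.Adj (φ i) (φ j)) with hH
  have h1 : (emb J G S).card ≤ (Fintype.piFinset H).card := by
    refine Finset.card_le_card_of_injOn (fun φ C i => φ i.1) ?_ ?_
    · intro φ hφ
      obtain ⟨hφS, -, hφh⟩ := Finset.mem_filter.1 (Finset.mem_coe.1 hφ)
      have hφS' := Fintype.mem_piFinset.1 hφS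
      refine Finset.mem_coe.2 (Fintype.mem_piFinset.2 fun C => ?_)
      refine Finset.mem_filter.2 ⟨Fintype.mem_piFinset.2 fun i => hφS' i.1, ?_⟩
      intro i j hij
      exact hφh i.1 j.1 hij
    · intro φ _ ψ _ h
      funext i
      exact congrFun (congrFun h (J.connectedComponentMk i)) ⟨i, rfl⟩
  have h2 : ∀ C : J.ConnectedComponent,
      (H C).card ≤ ∑ x ∈ S, dg G S x ^ (Fintype.card ↥C.supp - 1) := by
    intro C
    obtain ⟨v, hv⟩ := C.nonempty_supp
    have h := hom_star (J.induce C.supp) C.connected_toSimpleGraph G S ⟨v, hv⟩ 0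
    simpa [hH] using h
  have h3 : (emb J G S).card ≤
      ∏ C : J.ConnectedComponent, ∑ x ∈ S, dg G S x ^ (Fintype.card ↥C.supp - 1) :=
    calc (emb J G S).card ≤ (Fintype.piFinset H).card := h1
      _ = ∏ C, (H C).card := Fintype.card_piFinset H
      _ ≤ _ := Finset.prod_le_prod' fun C _ => h2 C
  have h4 : cprod J (fun c => ∑ x ∈ S, (dg G S x : ℝ) ^ (c - 1)) =
      ((∏ C : J.ConnectedComponent, ∑ x ∈ S, dg G S x ^ (Fintype.card ↥C.supp - 1) : ℕ) : ℝ) := by
    unfold cprod
    rw [finprod_eq_prod_of_fintype]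
    push_cast
    refine Finset.prod_congr rfl fun C _ => ?_
    rw [Nat.card_eq_fintype_card]
  rw [h4]
  exact_mod_cast h3

end H57GH
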