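import Pool.Agent.H57.GH.SDefs

/-!
Project SH: the limit function and the hub condition.
-/

namespace H57GH

open Finset H57LC H57LT

set_option linter.unusedSectionVars false

theorem SHub_base_nonneg {β : ℝ} (hβ1 : β < 1) {y : ℝ} (hy : 0 ≤ y) :
    0 ≤ max (y - β) 0 / (y * (1 - β)) :=
  div_nonneg (le_max_right _ _) (mul_nonneg hy (by linarith))

theorem SHub_base_le_one {β : ℝ} (hβ : 0 < β) (hβ1 : β < 1) {y : ℝ} (hy : 0 < y)
    (hy1 : y ≤ 1) : max (y - β) 0 / (y * (1 - β)) ≤ 1 := by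
  have h1 : 0 < y * (1 - β) := mul_pos hy (by linarith)
  rw [div_le_one h1]
  refine max_le ?_ h1.le
  nlinarith only [hβ, hy1]

theorem SHub_base_mono {β : ℝ} (hβ : 0 < β) (hβ1 : β < 1) {x y : ℝ} (hx : 0 < x)
    (hxy : x ≤ y) : max (x - β) 0 / (x * (1 - β)) ≤ max (y - β) 0 / (y * (1 - β)) := by
  have hy : 0 < y := lt_of_lt_of_le hx hxy
  have h1 : 0 < 1 - β := by linarith
  rcases le_total x β with h | h
  · rw [max_eq_right (by linarith : x - β ≤ 0), zero_div]
    exact SHub_base_nonneg hβ1 hy.le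
  · rw [max_eq_left (by linarith : 0 ≤ x - β), max_eq_left (by linarith : 0 ≤ y - β),
      div_le_div_iff₀ (mul_pos hx h1) (mul_pos hy h1)]
    have h2 : (y - β) * (x * (1 - β)) - (x - β) * (y * (1 - β)) = (1 - β) * (β * (y - x)) := by
      ring
    have h3 : 0 ≤ (1 - β) * (β * (y - x)) :=
      mul_nonneg h1.le (mul_nonneg hβ.le (by linarith))
    linarith

theorem fP_nonneg {β : ℝ} (hβ1 : β < 1) (u : ℕ) {y : ℝ} (hy : 0 ≤ y) : 0 ≤ fP β u y :=
  pow_nonneg (SHub_base_nonneg hβ1 hy) u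

theorem fP_le_one {β : ℝ} (hβ : 0 < β) (hβ1 : β < 1) (u : ℕ) {y : ℝ} (hy : 0 < y)
    (hy1 : y ≤ 1) : fP β u y ≤ 1 :=
  pow_le_one₀ (SHub_base_nonneg hβ1 hy.le) (SHub_base_le_one hβ hβ1 hy hy1)

theorem fP_mono {β : ℝ} (hβ : 0 < β) (hβ1 : β < 1) (u : ℕ) {x y : ℝ} (hx : 0 < x)
    (hxy : x ≤ y) : fP β u x ≤ fP β u y :=
  pow_le_pow_left₀ (SHub_base_nonneg hβ1 hx.le) (SHub_base_mono hβ hβ1 hx hxy) u

theorem SHub_fP_cont {β : ℝ} (hβ1 : β < 1) (u : ℕ) {s : Set ℝ} (hs : ∀ y ∈ s, 0 < y) :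
    ContinuousOn (fun y => fP β u y) s := by
  unfold fP
  refine ContinuousOn.pow ?_ u
  refine ContinuousOn.div ?_ ?_ ?_
  · exact (Continuous.continuousOn (by fun_prop))
  · exact (Continuous.continuousOn (by fun_prop))
  · intro y hy
    have h1 := hs y hy
    have h2 : 0 < 1 - β := by linarith
    positivity

/-- uniform continuity -/
theorem fP_unif {β : ℝ} (hβ : 0 < β) (hβ1 : β < 1) (u : ℕ) {θ ε : ℝ} (hθ : 0 < θ)
    (hε : 0 < ε) : ∃ t : ℝ, 0 < t ∧ t ≤ θ / 2 ∧ ∀ y : ℝ, θ ≤ y → y ≤ 1 →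
      fP β u y - ε ≤ fP β u (y - t) := by
  have hc : ContinuousOn (fun y => fP β u y) (Set.Icc (θ / 2) 1) :=
    SHub_fP_cont hβ1 u (fun y hy => by have := hy.1; linarith)
  have hu := isCompact_Icc.uniformContinuousOn_of_continuous hc
  rw [Metric.uniformContinuousOn_iff] at hu
  obtain ⟨δ, hδ, hu⟩ := hu ε hε
  refine ⟨min (θ / 2) (δ / 2), by positivity, min_le_left _ _, fun y hy1 hy2 => ?_⟩
  have ht0 : 0 < min (θ / 2) (δ / 2) := by positivity
  have ht1 : min (θ / 2) (δ / 2) ≤ θ / 2 := min_le_left _ _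
  have ht2 : min (θ / 2) (δ / 2) ≤ δ / 2 := min_le_right _ _
  have h := hu y ⟨by linarith only [hy1, ht0, ht1], hy2⟩ (y - min (θ / 2) (δ / 2)) ⟨by linarith,
      by linarith⟩ (by
    rw [Real.dist_eq]
    have : y - (y - min (θ / 2) (δ / 2)) = min (θ / 2) (δ / 2) := by ring
    rw [this, abs_of_pos ht0]
    linarith)
  rw [Real.dist_eq] at h
  have := (abs_lt.mp h).2
  linarith

variable {ι : Type*} [Fintype ι] [DecidableEq ι] (J : SimpleGraph ι) [DecidableRel J.Adj]

/-- the number of components is positive -/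
theorem rk_lt [Nonempty ι] : rk J + 1 ≤ Fintype.card ι := by
  classical
  have h1 : 0 < Fintype.card ι := Fintype.card_pos
  have : Finite J.ConnectedComponent := Quot.finite _
  have : Nonempty J.ConnectedComponent := ⟨J.connectedComponentMk (Classical.arbitrary ι)⟩
  have h2 : 0 < Nat.card J.ConnectedComponent := Nat.card_pos
  unfold rk
  omega

theorem one_le_rk [Nonempty ι] (hd : ∀ v, 1 ≤ dg J univ v) : 1 ≤ rk J := by
  classical
  have : Fintype J.ConnectedComponent := Fintype.ofFinite _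
  have h1 : Fintype.card J.ConnectedComponent < Fintype.card ι := by
    refine Fintype.card_lt_of_surjective_not_injective (fun v => J.connectedComponentMk v) ?_ ?_
    · intro c
      exact c.exists_rep
    · intro hinj
      have hv := hd (Classical.arbitrary ι)
      unfold dg at hv
      obtain ⟨w, hw⟩ := Finset.card_pos.mp (by omega : 0 <
        ((univ : Finset ι).filter fun y => J.Adj (Classical.arbitrary ι) y).card)
      rw [Finset.mem_filter] at hw
      have h2 : J.connectedComponentMk (Classical.arbitrary ι) = J.connectedComponentMk w :=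
        SimpleGraph.ConnectedComponent.sound hw.2.reachable
      exact hw.2.ne (hinj h2)
  unfold rk
  rw [Nat.card_eq_fintype_card]
  omega

theorem Psi_nonneg {y : ℝ} (hy : 0 ≤ y) : 0 ≤ Psi J y :=
  Finset.sum_nonneg fun _ _ => pow_nonneg hy _

theorem Psi_mono {x y : ℝ} (hx : 0 ≤ x) (hxy : x ≤ y) : Psi J x ≤ Psi J y :=
  Finset.sum_le_sum fun _ _ => pow_le_pow_left₀ hx hxy _

theorem Psi_le (hd : ∀ v, 1 ≤ dg J univ v) {y : ℝ} (hy : 0 ≤ y) (hy1 : y ≤ 1) :
    Psi J y ≤ (Fintype.card ι : ℝ) * y := by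
  have h : Psi J y ≤ ∑ v : ι, y := by
    refine Finset.sum_le_sum fun v _ => ?_
    calc y ^ dg J univ v ≤ y ^ 1 := pow_le_pow_of_le_one hy hy1 (hd v)
      _ = y := pow_one y
  rw [Finset.sum_const, Finset.card_univ, nsmul_eq_mul] at h
  exact h

/-- the vertices in the middle range are cheaper than `card ι` -/
theorem Psi_rk_le [Nonempty ι] (hd : ∀ v, 1 ≤ dg J univ v) {y : ℝ} (hy : 0 ≤ y) (hy1 : y ≤ 1) :
    Psi J y + 1 - y ^ rk J ≤ (Fintype.card ι : ℝ) - (1 - y) := by
  have h1 := Psi_le J hd hy hy1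
  have h2 : 1 + (rk J : ℝ) * (y - 1) ≤ y ^ rk J := by
    have := one_add_mul_le_pow (a := y - 1) (by linarith) (rk J)
    have h3 : 1 + (y - 1) = y := by ring
    rwa [h3] at this
  have h4 : (rk J : ℝ) + 1 ≤ (Fintype.card ι : ℝ) := by exact_mod_cast rk_lt J
  nlinarith only [h1, h2, hy1, h4]

/-- compactness -/
theorem hub_eps [Nonempty ι] (hd : ∀ v, 1 ≤ dg J univ v) {u : ℕ} (hu : 1 ≤ u) {β : ℝ}
    (hβ : 0 < β) (hβ1 : β < 1) (hhub : HubC J u β) {θ x₀ : ℝ} (hθ : 0 < θ) (hx : 0 < x₀) :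
    ∃ ε₃ : ℝ, 0 < ε₃ ∧ ε₃ ≤ 1 ∧ ∀ y : ℝ, θ ≤ y → y ≤ 1 - x₀ →
      u * y ^ rk J + max (Psi J y - Fintype.card ι * fP β u y + ε₃) 0 ≤ u * (1 - ε₃) := by
  have hu' : (1 : ℝ) ≤ u := by exact_mod_cast hu
  have hrk := one_le_rk J hd
  by_cases hne : θ ≤ 1 - x₀
  · have hcP : Continuous (fun y : ℝ => Psi J y) := by
      unfold Psi
      fun_prop
    have hcF : ContinuousOn (fun y => fP β u y) (Set.Icc θ (1 - x₀)) :=
      SHub_fP_cont hβ1 u (fun y hy => by have := hy.1; linarith)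
    have hc : ContinuousOn (fun y : ℝ => min ((u : ℝ) - u * y ^ rk J - Psi J y +
        Fintype.card ι * fP β u y) ((u : ℝ) - u * y ^ rk J)) (Set.Icc θ (1 - x₀)) := by
      have hc1 : ContinuousOn (fun y : ℝ => (u : ℝ) - u * y ^ rk J - Psi J y +
          Fintype.card ι * fP β u y) (Set.Icc θ (1 - x₀)) := by
        refine ContinuousOn.add ?_ (ContinuousOn.mul continuousOn_const hcF)
        refine ContinuousOn.sub ?_ hcP.continuousOn
        exact (Continuous.continuousOn (by fun_prop))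
      have hc2 : ContinuousOn (fun y : ℝ => (u : ℝ) - u * y ^ rk J) (Set.Icc θ (1 - x₀)) :=
        Continuous.continuousOn (by fun_prop)
      exact fun x hx => (hc1 x hx).min (hc2 x hx)
    obtain ⟨z, hz, hmin⟩ := isCompact_Icc.exists_isMinOn ⟨θ, le_refl θ, hne⟩ hc
    have hz0 : 0 < z := lt_of_lt_of_le hθ hz.1
    have hz1 : z < 1 := by have := hz.2; linarith
    have hpos : 0 < min ((u : ℝ) - u * z ^ rk J - Psi J z +
        Fintype.card ι * fP β u z) ((u : ℝ) - u * z ^ rk J) := by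
      refine lt_min ?_ ?_
      · have := hhub z hz0 hz1
        linarith
      · have h1 : z ^ rk J < 1 := pow_lt_one₀ hz0.le hz1 (by omega)
        nlinarith only [hβ, h1, hβ1, hu']
    set M := min ((u : ℝ) - u * z ^ rk J - Psi J z +
        Fintype.card ι * fP β u z) ((u : ℝ) - u * z ^ rk J) with hM
    refine ⟨min 1 (M / (1 + u)), by positivity, min_le_left _ _, fun y hy1 hy2 => ?_⟩
    set e := min 1 (M / (1 + u)) with he
    have he1 : e * (1 + u) ≤ M := by
      have : e ≤ M / (1 + u) := min_le_right _ _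
      rwa [le_div_iff₀ (by positivity)] at this
    have he0 : 0 < e := by rw [he]; positivity
    have hy := hmin ⟨hy1, hy2⟩
    simp only [Set.mem_ofPred_eq] at hy
    have hA : M ≤ (u : ℝ) - u * y ^ rk J - Psi J y + Fintype.card ι * fP β u y :=
      le_trans hy (min_le_left _ _)
    have hB : M ≤ (u : ℝ) - u * y ^ rk J := le_trans hy (min_le_right _ _)
    rcases le_total (Psi J y - Fintype.card ι * fP β u y + e) 0 with h | h
    · rw [max_eq_right h]
      nlinarith only [he1, he0, hB]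
    · rw [max_eq_left h]
      nlinarith only [he1, hA]
  · refine ⟨1, one_pos, le_refl 1, fun y hy1 hy2 => ?_⟩
    exact absurd (le_trans hy1 hy2) hne

/-- the hub condition for `u = 1` -/
theorem hub_one {β : ℝ} (hβ : 0 < β) (hβ1 : β < 1) (h : β ^ rk J + Psi J β < 1) :
    HubC J 1 β := by
  intro y hy0 hy1
  have hs : (0 : ℝ) ≤ Fintype.card ι := Nat.cast_nonneg _
  rcases le_total y β with hyb | hyb
  · have h1 : y ^ rk J ≤ β ^ rk J := pow_le_pow_left₀ hy0.le hyb _
    have h2 := Psi_mono J hy0.le hyb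
    have h3 := fP_nonneg hβ1 1 hy0.le
    have h4 : 0 ≤ (Fintype.card ι : ℝ) * fP β 1 y := mul_nonneg hs h3
    push_cast
    linarith
  · have hb : 0 < 1 - β := by linarith
    set lam := (1 - y) / (1 - β) with hlam
    have hl0 : 0 < lam := div_pos (by linarith) hb
    have hl1 : lam ≤ 1 := by rw [hlam, div_le_one hb]; linarith
    have hy : y = lam * β + (1 - lam) * 1 := by
      rw [hlam]; field_simp; ring
    have hpow : ∀ k : ℕ, y ^ k ≤ lam * β ^ k + (1 - lam) := by
      intro k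
      have hconv := (convexOn_pow (𝕜 := ℝ) k).2 (Set.mem_Ici.mpr hβ.le)
        (Set.mem_Ici.mpr zero_le_one) hl0.le (by linarith : 0 ≤ 1 - lam) (by ring)
      simp only [smul_eq_mul, one_pow, mul_one] at hconv
      calc y ^ k = (lam * β + (1 - lam)) ^ k := by rw [hy]; ring_nf
        _ ≤ _ := hconv
    have hPsi : Psi J y ≤ lam * Psi J β + (1 - lam) * Fintype.card ι := by
      unfold Psi
      calc ∑ v, y ^ dg J univ v ≤ ∑ v, (lam * β ^ dg J univ v + (1 - lam)) :=
            Finset.sum_le_sum fun v _ => hpow _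
        _ = _ := by
            rw [Finset.sum_add_distrib, ← Finset.mul_sum, Finset.sum_const, Finset.card_univ,
              nsmul_eq_mul]
            ring
    have hf : 1 - lam ≤ fP β 1 y := by
      unfold fP
      rw [pow_one, max_eq_left (by linarith : 0 ≤ y - β)]
      have h1 : 1 - lam = (y - β) / (1 - β) := by rw [hlam]; field_simp; ring
      rw [h1]
      refine div_le_div_of_nonneg_left (by linarith) (mul_pos hy0 hb) ?_
      nlinarith only [hβ1, hy1]
    have hf2 : (Fintype.card ι : ℝ) * (1 - lam) ≤ Fintype.card ι * fP β 1 y :=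
      mul_le_mul_of_nonneg_left hf hs
    have h1 := hpow (rk J)
    have h2 : 0 < lam * (1 - (β ^ rk J + Psi J β)) := mul_pos hl0 (by linarith)
    push_cast
    nlinarith only [hPsi, hf2, h1, h2]

end H57GH
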