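import Pool.Agent.H57.GH.BDefs
import Pool.Agent.H57.GH.SHub

/-!
Project SB: the value of the partitions `(β, …, β, 1 - j β)`.
-/

namespace H57GH

open Finset H57LC H57LT

set_option linter.unusedSectionVars false

variable {ι : Type*} [Fintype ι] [DecidableEq ι] (J : SimpleGraph ι) [DecidableRel J.Adj]

theorem cprod_eq [Fintype J.ConnectedComponent] (f : ℕ → ℝ) :
    cprod J f = ∏ C : J.ConnectedComponent, f (Nat.card C.supp) := by
  rw [cprod, finprod_eq_prod_of_fintype]

theorem cprod_sum [Fintype J.ConnectedComponent] :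
    ∑ C : J.ConnectedComponent, Nat.card C.supp = Fintype.card ι := by
  rw [← Nat.card_sigma, ← Nat.card_eq_fintype_card]
  exact Nat.card_congr (Equiv.sigmaFiberEquiv J.connectedComponentMk)

theorem BConv_pos (C : J.ConnectedComponent) : 1 ≤ Nat.card C.supp := by
  obtain ⟨v, hv⟩ := C.nonempty_supp
  have : Nonempty ↥C.supp := ⟨⟨v, hv⟩⟩
  exact Nat.card_pos

theorem BConv_le (C : J.ConnectedComponent) : Nat.card C.supp ≤ Fintype.card ι := by
  rw [← Nat.card_eq_fintype_card]
  exact Nat.card_le_card_of_injective _ Subtype.val_injective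

theorem cprod_two (hd : ∀ v, 1 ≤ dg J univ v) (C : J.ConnectedComponent) :
    2 ≤ Nat.card C.supp := by
  obtain ⟨v, hv⟩ := C.nonempty_supp
  have h1 : (univ.filter fun y => J.Adj v y).Nonempty := by
    rw [← Finset.card_pos]
    exact hd v
  obtain ⟨w, hw⟩ := h1
  have hvw : J.Adj v w := (Finset.mem_filter.1 hw).2
  have hw' : w ∈ C.supp := by
    rw [SimpleGraph.ConnectedComponent.mem_supp_iff] at hv ⊢
    rw [← hv]
    exact SimpleGraph.ConnectedComponent.sound hvw.symm.reachable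
  have : Nontrivial ↥C.supp := ⟨⟨⟨v, hv⟩, ⟨w, hw'⟩, fun h => hvw.ne (congrArg Subtype.val h)⟩⟩
  exact Finite.one_lt_card

theorem cprod_mono {f g : ℕ → ℝ} (h0 : ∀ c, 1 ≤ c → c ≤ Fintype.card ι → 0 ≤ f c)
    (h : ∀ c, 1 ≤ c → c ≤ Fintype.card ι → f c ≤ g c) : cprod J f ≤ cprod J g := by
  have : Fintype J.ConnectedComponent := Fintype.ofFinite _
  rw [cprod_eq, cprod_eq]
  exact Finset.prod_le_prod (fun C _ => h0 _ (BConv_pos J C) (BConv_le J C))
    (fun C _ => h _ (BConv_pos J C) (BConv_le J C))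

/-- the chord of `x ^ p` between `a` and `1`, with a quadratic gap -/
theorem chord_gap {a x : ℝ} (ha : 0 ≤ a) (ha1 : a < 1) (hx : a ≤ x) (hx1 : x ≤ 1) {p : ℕ}
    (hp : 2 ≤ p) :
    x ^ p ≤ a ^ p + (1 - a ^ p) * ((x - a) / (1 - a)) - (x - a) * (1 - x) := by
  have h1 : 0 < 1 - a := by linarith
  set t : ℝ := (x - a) / (1 - a) with ht
  have ht1 : (1 - a) * t = x - a := by
    rw [ht]
    field_simp
  induction p, hp using Nat.le_induction with
  | base =>
    have h2 : (1 - a ^ 2) * t = (1 + a) * (x - a) := by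
      rw [← ht1]
      ring
    rw [h2]
    nlinarith only []
  | succ p hp ih =>
    have h2 : a ^ p ≤ x ^ p := pow_le_pow_left₀ ha hx p
    have h3 : 0 ≤ (1 - x) * (x ^ p - a ^ p) := mul_nonneg (by linarith) (by linarith)
    have h4 : a ^ (p + 1) + (1 - a ^ (p + 1)) * t - x ^ (p + 1) -
        (a ^ p + (1 - a ^ p) * t - x ^ p) = (1 - x) * (x ^ p - a ^ p) := by
      have h5 : a ^ (p + 1) + (1 - a ^ (p + 1)) * t - x ^ (p + 1) -
        (a ^ p + (1 - a ^ p) * t - x ^ p) =
          a ^ p * ((1 - a) * t) - a ^ p * (1 - a) + x ^ p * (1 - x) := by ring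
      rw [h5, ht1]
      ring
    linarith

/-- products of convex combinations with one -/
theorem BConv_prod_conv {κ : Type*} (S : Finset κ) (b : κ → ℝ) (h0 : ∀ i ∈ S, 0 ≤ b i)
    (h1 : ∀ i ∈ S, b i ≤ 1) {μ : ℝ} (hμ : 0 ≤ μ) (hμ1 : μ ≤ 1) :
    ∏ i ∈ S, ((1 - μ) + μ * b i) ≤ (1 - μ) + μ * ∏ i ∈ S, b i := by
  classical
  induction S using Finset.induction_on with
  | empty => simp
  | insert a S ha ih =>
    rw [Finset.prod_insert ha, Finset.prod_insert ha]
    have ih' := ih (fun i hi => h0 i (Finset.mem_insert_of_mem hi))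
      (fun i hi => h1 i (Finset.mem_insert_of_mem hi))
    have hb0 := h0 a (Finset.mem_insert_self a S)
    have hb1 := h1 a (Finset.mem_insert_self a S)
    have hB1 : ∏ i ∈ S, b i ≤ 1 := Finset.prod_le_one
      (fun i hi => h0 i (Finset.mem_insert_of_mem hi))
      (fun i hi => h1 i (Finset.mem_insert_of_mem hi))
    have hc : 0 ≤ (1 - μ) + μ * b a := add_nonneg (by linarith) (mul_nonneg hμ hb0)
    have h2 := mul_le_mul_of_nonneg_left ih' hc
    have h3 : 0 ≤ (μ * (1 - μ)) * ((1 - b a) * (1 - ∏ i ∈ S, b i)) :=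
      mul_nonneg (mul_nonneg hμ (by linarith)) (mul_nonneg (by linarith) (by linarith))
    nlinarith only [h2, h3]

/-- products of factors which are close -/
theorem BConv_prod_add {κ : Type*} (S : Finset κ) (a b δ : κ → ℝ) (ha0 : ∀ i ∈ S, 0 ≤ a i)
    (ha1 : ∀ i ∈ S, a i ≤ 1) (hb0 : ∀ i ∈ S, 0 ≤ b i) (hb1 : ∀ i ∈ S, b i ≤ 1)
    (hδ : ∀ i ∈ S, 0 ≤ δ i) (h : ∀ i ∈ S, a i ≤ b i + δ i) :
    ∏ i ∈ S, a i ≤ ∏ i ∈ S, b i + ∑ i ∈ S, δ i := by
  classical
  induction S using Finset.induction_on with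
  | empty => simp
  | insert c S hc ih =>
    rw [Finset.prod_insert hc, Finset.prod_insert hc, Finset.sum_insert hc]
    have hS : ∀ i ∈ S, i ∈ insert c S := fun i hi => Finset.mem_insert_of_mem hi
    have ih' := ih (fun i hi => ha0 i (hS i hi)) (fun i hi => ha1 i (hS i hi))
      (fun i hi => hb0 i (hS i hi)) (fun i hi => hb1 i (hS i hi)) (fun i hi => hδ i (hS i hi))
      (fun i hi => h i (hS i hi))
    have hA1 : ∏ i ∈ S, a i ≤ 1 := Finset.prod_le_one (fun i hi => ha0 i (hS i hi))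
      (fun i hi => ha1 i (hS i hi))
    have hA0 : 0 ≤ ∏ i ∈ S, a i := Finset.prod_nonneg (fun i hi => ha0 i (hS i hi))
    have hD0 : 0 ≤ ∑ i ∈ S, δ i := Finset.sum_nonneg (fun i hi => hδ i (hS i hi))
    have hm := Finset.mem_insert_self c S
    have e1 := mul_le_mul_of_nonneg_right (h c hm) hA0
    have e2 := mul_le_mul_of_nonneg_left ih' (hb0 c hm)
    have e3 : δ c * ∏ i ∈ S, a i ≤ δ c := mul_le_of_le_one_right (hδ c hm) hA1
    have e4 : b c * ∑ i ∈ S, δ i ≤ ∑ i ∈ S, δ i := mul_le_of_le_one_left hD0 (hb1 c hm)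
    nlinarith only [e1, e2, e3, e4]

theorem BConv_pow_add {x y : ℝ} (hx : 0 ≤ x) (hy : 0 ≤ y) (hxy : x + y ≤ 1) {c : ℕ}
    (hc : 2 ≤ c) : (x + y) ^ c ≤ x ^ c + y ^ c + c * (x * y) := by
  induction c, hc using Nat.le_induction with
  | base =>
    push_cast
    nlinarith
  | succ c hc ih =>
    have h1 : x ^ (c - 1) ≤ x := by
      calc x ^ (c - 1) ≤ x ^ 1 := pow_le_pow_of_le_one hx (by linarith) (by omega)
        _ = x := pow_one x
    have h2 : y ^ (c - 1) ≤ y := by
      calc y ^ (c - 1) ≤ y ^ 1 := pow_le_pow_of_le_one hy (by linarith) (by omega)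
        _ = y := pow_one y
    have h3 : x ^ c = x * x ^ (c - 1) := by
      rw [← pow_succ']
      congr 1
      omega
    have h4 : y ^ c = y * y ^ (c - 1) := by
      rw [← pow_succ']
      congr 1
      omega
    have hc0 : (0 : ℝ) ≤ c := Nat.cast_nonneg c
    have hxy0 : 0 ≤ x * y := mul_nonneg hx hy
    have h5 : (x + y) ^ (c + 1) ≤ (x ^ c + y ^ c + c * (x * y)) * (x + y) := by
      rw [pow_succ]
      exact mul_le_mul_of_nonneg_right ih (by linarith)
    have h6 : (x ^ c + y ^ c + c * (x * y)) * (x + y) =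
        x ^ (c + 1) + y ^ (c + 1) + (x ^ c * y + y ^ c * x) + c * (x * y) * (x + y) := by ring
    have h7 : x ^ c * y + y ^ c * x ≤ x * y := by
      have e1 : x ^ c * y + y ^ c * x = (x * y) * (x ^ (c - 1) + y ^ (c - 1)) := by
        rw [h3, h4]
        ring
      rw [e1]
      exact mul_le_of_le_one_right hxy0 (by linarith)
    have h8 : c * (x * y) * (x + y) ≤ c * (x * y) :=
      mul_le_of_le_one_right (mul_nonneg hc0 hxy0) hxy
    push_cast
    linarith

/-- the factor of a component -/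
noncomputable def BConv_f (β : ℝ) (j c : ℕ) : ℝ := j * β ^ c + (1 - j * β) ^ c

theorem BConv_f_nonneg {β : ℝ} (hβ : 0 < β) {j : ℕ} (hj : j * β ≤ 1) (c : ℕ) :
    0 ≤ BConv_f β j c := by
  unfold BConv_f
  have h1 : 0 ≤ 1 - j * β := by linarith
  positivity

theorem BConv_f_le_one {β : ℝ} (hβ : 0 < β) (hβ1 : β < 1) {j : ℕ} (hj : j * β ≤ 1) {c : ℕ}
    (hc : 1 ≤ c) : BConv_f β j c ≤ 1 := by
  unfold BConv_f
  have h1 : 0 ≤ 1 - j * β := by linarith
  have hj0 : (0 : ℝ) ≤ j := Nat.cast_nonneg j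
  have h2 : β ^ c ≤ β := by
    calc β ^ c ≤ β ^ 1 := pow_le_pow_of_le_one hβ.le hβ1.le hc
      _ = β := pow_one β
  have h3 : (1 - j * β) ^ c ≤ 1 - j * β := by
    calc (1 - j * β) ^ c ≤ (1 - j * β) ^ 1 := pow_le_pow_of_le_one h1
          (by nlinarith only [mul_nonneg hj0 hβ.le, hβ]) hc
      _ = 1 - j * β := pow_one _
  have h4 : (j : ℝ) * β ^ c ≤ j * β := mul_le_mul_of_nonneg_left h2 hj0
  linarith

theorem BConv_f_conv {β : ℝ} {j i : ℕ} (hi : i * β ≤ 1) {μ : ℝ} (hμ : 0 ≤ μ) (hμ1 : μ ≤ 1)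
    (hji : (j : ℝ) = μ * i) (c : ℕ) :
    BConv_f β j c ≤ (1 - μ) + μ * BConv_f β i c := by
  unfold BConv_f
  have h1 : 0 ≤ 1 - i * β := by linarith
  have h2 := (convexOn_pow (𝕜 := ℝ) c).2 (Set.mem_Ici.2 zero_le_one) (Set.mem_Ici.2 h1)
    (by linarith : (0 : ℝ) ≤ 1 - μ) hμ (by ring)
  simp only [smul_eq_mul, one_pow, mul_one] at h2
  have h3 : 1 - j * β = 1 - μ + μ * (1 - i * β) := by
    rw [hji]
    ring
  rw [h3, hji]
  have h4 : μ * i * β ^ c = μ * (i * β ^ c) := by ring
  rw [h4]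
  linarith

/-- the first step of the comparison -/
theorem BConv_P1 [Nonempty ι] {β : ℝ} (hβ : 0 < β) (hβ1 : β < 1) {j i : ℕ}
    (hi0 : 1 ≤ i) (hi : i * β ≤ 1) (hji : j ≤ i) :
    cprod J (BConv_f β j) ≤ (1 - (j : ℝ) / i) + (j : ℝ) / i * cprod J (BConv_f β i) := by
  have : Fintype J.ConnectedComponent := Fintype.ofFinite _
  have hi0' : (0 : ℝ) < i := by exact_mod_cast hi0
  have hji' : (j : ℝ) ≤ i := by exact_mod_cast hji
  have hμ : 0 ≤ (j : ℝ) / i := by positivity
  have hμ1 : (j : ℝ) / i ≤ 1 := (div_le_one hi0').2 hji'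
  have hjb : j * β ≤ 1 := le_trans (mul_le_mul_of_nonneg_right hji' hβ.le) hi
  rw [cprod_eq, cprod_eq]
  calc ∏ C : J.ConnectedComponent, BConv_f β j (Nat.card C.supp)
      ≤ ∏ C : J.ConnectedComponent, ((1 - (j : ℝ) / i) +
          (j : ℝ) / i * BConv_f β i (Nat.card C.supp)) := by
        refine Finset.prod_le_prod (fun C _ => BConv_f_nonneg hβ hjb _) fun C _ => ?_
        refine BConv_f_conv hi hμ hμ1 ?_ _
        field_simp
    _ ≤ _ := BConv_prod_conv _ _ (fun C _ => BConv_f_nonneg hβ hi _)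
        (fun C _ => BConv_f_le_one hβ hβ1 hi (BConv_pos J C)) hμ hμ1

/-- the second step of the comparison -/
theorem BConv_P3 (hd : ∀ v, 1 ≤ dg J univ v) {β : ℝ} (hβ : 0 < β) (hβ1 : β < 1) {i : ℕ}
    (hi : (i + 1) * β ≤ 1) :
    cprod J (BConv_f β i) ≤ cprod J (BConv_f β (i + 1)) +
      Fintype.card ι * (β * (1 - (i + 1) * β)) := by
  have : Fintype J.ConnectedComponent := Fintype.ofFinite _
  have hi1 : i * β ≤ 1 := by nlinarith only [hβ, hi]
  have hi2 : ((i + 1 : ℕ) : ℝ) * β ≤ 1 := by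
    push_cast
    exact hi
  rw [cprod_eq, cprod_eq]
  have h1 := BConv_prod_add (univ : Finset J.ConnectedComponent)
    (fun C => BConv_f β i (Nat.card C.supp)) (fun C => BConv_f β (i + 1) (Nat.card C.supp))
    (fun C => (Nat.card C.supp : ℝ) * (β * (1 - (i + 1) * β)))
    (fun C _ => BConv_f_nonneg hβ hi1 _)
    (fun C _ => BConv_f_le_one hβ hβ1 hi1 (BConv_pos J C))
    (fun C _ => BConv_f_nonneg hβ hi2 _)
    (fun C _ => BConv_f_le_one hβ hβ1 hi2 (BConv_pos J C))
    (fun C _ => mul_nonneg (Nat.cast_nonneg _) (mul_nonneg hβ.le (by linarith)))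
    (fun C _ => by
      have h2 := BConv_pow_add hβ.le (y := 1 - (i + 1) * β) (by linarith) (by
        nlinarith [mul_nonneg (Nat.cast_nonneg (α := ℝ) i) hβ.le]) (cprod_two J hd C)
      unfold BConv_f
      have e1 : β + (1 - (i + 1) * β) = 1 - i * β := by ring
      rw [e1] at h2
      push_cast
      linarith)
  rw [← Finset.sum_mul, ← Nat.cast_sum, cprod_sum] at h1
  exact h1

theorem Qk_lt [Nonempty ι] (hd : ∀ v, 1 ≤ dg J univ v) {β : ℝ} (hβ : 0 < β) (hβ1 : β < 1)
    (hQ : Qc J β < 1) {j : ℕ} (hj : 1 ≤ j) (hj1 : j * β ≤ 1) :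
    cprod J (fun c => j * β ^ c + (1 - j * β) ^ c) + j * (β * Psi J β) +
      vP J β (1 - j * β) < 1 := by
  set k : ℕ := ⌊1 / β⌋₊ with hk
  have hs0 : (0 : ℝ) ≤ Fintype.card ι := Nat.cast_nonneg _
  have hkb : k * β ≤ 1 := by
    have h1 : (k : ℝ) ≤ 1 / β := Nat.floor_le (by positivity)
    rwa [le_div_iff₀ hβ] at h1
  have hkb1 : 1 < (k + 1) * β := by
    have h1 : 1 / β < k + 1 := Nat.lt_floor_add_one _
    rwa [div_lt_iff₀ hβ] at h1
  have hjk : j ≤ k := by
    rw [hk]
    refine Nat.le_floor ?_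
    rw [le_div_iff₀ hβ]
    exact hj1
  have hy0 : 0 ≤ 1 - k * β := by linarith
  have hyb : 1 - k * β < β := by linarith
  have hΨb := Psi_nonneg J hβ.le
  have hΨy := Psi_nonneg J hy0
  have hQ' : cprod J (BConv_f β k) + k * (β * Psi J β) + (1 - k * β) * Psi J (1 - k * β) < 1 := hQ
  have hQ0 : 0 ≤ (1 - k * β) * Psi J (1 - k * β) := mul_nonneg hy0 hΨy
  change cprod J (BConv_f β j) + j * (β * Psi J β) + vP J β (1 - j * β) < 1
  clear_value k
  rcases hjk.eq_or_lt with hjk' | hlt
  · subst hjk'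
    have h1 : vP J β (1 - j * β) = (1 - j * β) * Psi J (1 - j * β) := by
      unfold vP
      rw [max_eq_right (by linarith : (1 - (j : ℝ) * β) - β ≤ 0), zero_div, mul_zero, sub_zero,
        max_eq_left hQ0]
    rw [h1]
    exact hQ'
  · have hj0 : (0 : ℝ) < j := by exact_mod_cast hj
    have hk2 : 2 ≤ k := by omega
    have hk0 : (0 : ℝ) < k := by
      have : 0 < k := by omega
      exact_mod_cast this
    have hjk1 : (j : ℝ) + 1 ≤ k := by exact_mod_cast hlt
    have hA0 : 0 ≤ cprod J (BConv_f β k) := by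
      have : Fintype J.ConnectedComponent := Fintype.ofFinite _
      rw [cprod_eq]
      exact Finset.prod_nonneg fun C _ => BConv_f_nonneg hβ hkb _
    have hP := mul_nonneg hk0.le (mul_nonneg hβ.le hΨb)
    have hA1 : cprod J (BConv_f β k) < 1 := by linarith
    have hYb : β ≤ 1 - j * β := by nlinarith only [hkb, hβ, hjk1]
    unfold vP
    rw [max_eq_left (by linarith : 0 ≤ (1 - (j : ℝ) * β) - β)]
    rcases max_cases ((1 - j * β) * Psi J (1 - j * β) -
      Fintype.card ι * ((1 - j * β - β) / (1 - β))) 0 with ⟨hm, -⟩ | ⟨hm, -⟩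
    · rw [hm]
      set w : ℝ := 1 - j * β - β with hw
      have hw0 : 0 ≤ w := by linarith only [hYb]
      have hb1 : 0 < 1 - β := by linarith
      -- the chord
      have hch : (1 - j * β) * Psi J (1 - j * β) ≤ β * Psi J β +
          (Fintype.card ι - β * Psi J β) * (w / (1 - β)) -
            Fintype.card ι * (w * (j * β)) := by
        have h1 : ∀ v : ι, (1 - j * β) * (1 - j * β) ^ dg J univ v ≤
            β * β ^ dg J univ v + (1 - β * β ^ dg J univ v) * (w / (1 - β)) - w * (j * β) := by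
          intro v
          have h2 := chord_gap hβ.le hβ1 hYb (by nlinarith only [hβ] : 1 - (j : ℝ) * β ≤ 1)
            (p := dg J univ v + 1) (by have := hd v; omega)
          have e1 : 1 - (1 - (j : ℝ) * β) = j * β := by ring
          rw [e1] at h2
          rw [← pow_succ', ← pow_succ']
          exact h2
        have h3 := Finset.sum_le_sum fun v (_ : v ∈ (univ : Finset ι)) => h1 v
        rw [← Finset.mul_sum] at h3
        refine le_trans h3 (le_of_eq ?_)
        rw [Finset.sum_sub_distrib, Finset.sum_add_distrib, ← Finset.mul_sum, ← Finset.sum_mul,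
          Finset.sum_sub_distrib, ← Finset.mul_sum]
        simp only [Finset.sum_const, Finset.card_univ, nsmul_eq_mul, mul_one]
        rfl
      have hk1 : (0 : ℝ) < (k : ℝ) - 1 := by
        have : (2 : ℝ) ≤ k := by exact_mod_cast hk2
        linarith only [hβ, hβ1, this]
      obtain ⟨i, rfl⟩ : ∃ i, k = i + 1 := ⟨k - 1, by omega⟩
      have hi0 : 1 ≤ i := by omega
      have hi0' : (0 : ℝ) < i := by exact_mod_cast hi0
      push_cast at hkb hkb1 hy0 hyb hQ' hQ0 hk0 hjk1 hP hk1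
      have hib : i * β ≤ 1 := by nlinarith only [hβ, hkb]
      have hji : j ≤ i := by omega
      have hji' : (j : ℝ) ≤ i := by exact_mod_cast hji
      have hAP := BConv_P1 J hβ hβ1 hi0 hib hji
      have hAP3 := BConv_P3 J hd hβ hβ1 hkb
      set μ : ℝ := (j : ℝ) / i with hμ
      have hμ0 : 0 ≤ μ := by positivity
      have hμ1 : μ ≤ 1 := (div_le_one hi0').2 hji'
      set q : ℝ := (j : ℝ) / ((i + 1) * (1 - β)) with hq
      have hq0 : 0 < q := by positivity
      have hqμ : q ≤ μ := by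
        rw [hq, hμ]
        refine div_le_div_of_nonneg_left hj0.le hi0' ?_
        nlinarith only [hkb]
      have hqe : q * ((i + 1) * (β * Psi J β)) = j * (β * Psi J β) + β * Psi J β * (j * β / (1 - β)) := by
        rw [hq]
        field_simp
        ring
      have hwe : w / (1 - β) = 1 - j * β / (1 - β) := by
        rw [hw]
        field_simp
        ring
      set A : ℝ := cprod J (BConv_f β (i + 1)) with hA
      set B : ℝ := cprod J (BConv_f β i) with hB
      set D : ℝ := cprod J (BConv_f β j) with hD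
      set P : ℝ := β * Psi J β with hPd
      set Z : ℝ := (1 - (i + 1) * β) * Psi J (1 - (i + 1) * β) with hZ
      set s : ℝ := (Fintype.card ι : ℝ) with hs
      have hyw : 1 - (i + 1) * β ≤ w := by
        rw [hw]
        nlinarith
      -- the estimate
      have e1 : (1 - j * β) * Psi J (1 - j * β) - s * (w / (1 - β)) ≤
          P * (j * β / (1 - β)) - s * (w * (j * β)) := by
        have : (s - P) * (w / (1 - β)) = s * (w / (1 - β)) - P * (1 - j * β / (1 - β)) := by
          rw [← hwe]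
          ring
        linarith only [hch, this]
      have e2 : q * ((i + 1) * P) ≤ q * (1 - A) - q * (1 - (A + (i + 1) * P + Z)) := by
        have : 0 ≤ q * Z := mul_nonneg hq0.le hQ0
        nlinarith only [this]
      have e3 : μ * B ≤ μ * (A + s * (β * (1 - (i + 1) * β))) :=
        mul_le_mul_of_nonneg_left hAP3 hμ0
      have e4 : (μ - q) * A ≤ μ - q := mul_le_of_le_one_right (by linarith only [hqμ]) hA1.le
      have e5 : μ * (s * (β * (1 - (i + 1) * β))) ≤ s * (w * (j * β)) := by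
        have hj1' : (1 : ℝ) ≤ j := by exact_mod_cast hj
        have f1 : μ * (1 - (i + 1) * β) ≤ w := by
          calc μ * (1 - (i + 1) * β) ≤ 1 * (1 - (i + 1) * β) :=
                mul_le_mul_of_nonneg_right hμ1 hy0
            _ ≤ w := by linarith only [hyw]
        have f2 : w ≤ w * j := le_mul_of_one_le_right hw0 hj1'
        have f3 : μ * (s * (β * (1 - (i + 1) * β))) = s * β * (μ * (1 - (i + 1) * β)) := by ring
        have f4 : s * (w * (j * β)) = s * β * (w * j) := by ring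
        rw [f3, f4]
        exact mul_le_mul_of_nonneg_left (f1.trans f2) (mul_nonneg hs0 hβ.le)
      have e6 : 0 < q * (1 - (A + (i + 1) * P + Z)) := mul_pos hq0 (by linarith only [hQ'])
      nlinarith only [hAP, hqe, e1, e2, e3, e4, e5, e6]
    · rw [hm, add_zero]
      have hAP := BConv_P1 J hβ hβ1 (by omega : 1 ≤ k) hkb hlt.le
      set l : ℝ := (j : ℝ) / k with hl
      have hl0 : 0 < l := by positivity
      have hle : (j : ℝ) * (β * Psi J β) = l * (k * (β * Psi J β)) := by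
        rw [hl]
        field_simp
      rw [hle]
      have h1 : l * (cprod J (BConv_f β k) + k * (β * Psi J β)) < l * 1 :=
        mul_lt_mul_of_pos_left (by linarith only [hQ', hQ0]) hl0
      nlinarith only [hAP, h1]

end H57GH
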