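import Pool.Agent.H57.GH.SDefs

/-!
Project SB (`u = 1`, sharp range of residues): definitions.
Paper proof: /team-store/h57_SB_README.txt.
-/

namespace H57GH

open Finset H57LC H57LT

set_option linter.unusedSectionVars false

section
variable {ι : Type*} [Fintype ι] [DecidableEq ι] (J : SimpleGraph ι) [DecidableRel J.Adj]

/-- product over the components of `J` of `f` (number of vertices of the component) -/
noncomputable def cprod (f : ℕ → ℝ) : ℝ := ∏ᶠ C : J.ConnectedComponent, f (Nat.card C.supp)

/-- the value of the partition `(β, …, β, 1 - k β)` -/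
noncomputable def Qk (β : ℝ) (k : ℕ) : ℝ :=
  cprod J (fun c => k * β ^ c + (1 - k * β) ^ c) + k * (β * Psi J β) +
    (1 - k * β) * Psi J (1 - k * β)

/-- the value of the partition `(β, …, β, 1 - k β)`, `k = ⌊1/β⌋` -/
noncomputable def Qc (β : ℝ) : ℝ := Qk J β ⌊1 / β⌋₊

/-- the payment for a part `Y` -/
noncomputable def vP (β Y : ℝ) : ℝ :=
  max (Y * Psi J Y - Fintype.card ι * (max (Y - β) 0 / (1 - β))) 0

end

section
variable {V : Type*} [DecidableEq V] (G : SimpleGraph V) [DecidableRel G.Adj]

/-- the neighbours of `x ∈ T` in `S` form a piece: nearly all of them have nearly the same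
neighbours in `S` as `x` -/
def PieceC (S T : Finset V) (m : ℕ) (C : ℝ) : Prop :=
  ∀ x ∈ T, ((S.filter fun y => G.Adj x y ∧
    ¬ ((S.filter fun z => G.Adj y z ∧ ¬ G.Adj x z).card ≤ 2 * m ∧
      (S.filter fun z => G.Adj x z ∧ ¬ G.Adj y z).card ≤ 2 * m)).card : ℝ) ≤ C

end

end H57GH
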