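import Pool.Agent.H57.GH.BConv
import Mathlib.Analysis.Convex.Mul

/-!
Project SB: the value of a general partition.
-/

namespace H57GH

open Finset H57LC H57LT

set_option linter.unusedSectionVars false

theorem BExt_pow_le {x : ℝ} (hx : 0 ≤ x) (hx1 : x ≤ 1) (n : ℕ) :
    (1 - x) ^ n ≤ 1 - n * x + (n * x) ^ 2 := by
  have h0 : 0 ≤ (1 - x) ^ n := pow_nonneg (by linarith) n
  have h1 : (1 - x) ^ n * (1 + n * x) ≤ 1 := by
    have h2 : 1 + (n : ℝ) * x ≤ (1 + x) ^ n := one_add_mul_le_pow (by linarith) n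
    calc (1 - x) ^ n * (1 + n * x) ≤ (1 - x) ^ n * (1 + x) ^ n :=
          mul_le_mul_of_nonneg_left h2 h0
      _ = (1 - x ^ 2) ^ n := by rw [← mul_pow]; congr 1; ring
      _ ≤ 1 := pow_le_one₀ (by nlinarith only [hx1, hx]) (by nlinarith)
  have h3 : 0 ≤ (n : ℝ) * x := by positivity
  by_contra hcon
  push Not at hcon
  have h4 : (1 - n * x + (n * x) ^ 2) * (1 + n * x) < (1 - x) ^ n * (1 + n * x) :=
    mul_lt_mul_of_pos_right hcon (by linarith)
  have h5 : (1 - n * x + (n * x) ^ 2) * (1 + n * x) = 1 + (n * x) ^ 3 := by ring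
  have h6 : 0 ≤ (n * x) ^ 3 := pow_nonneg h3 3
  linarith

theorem BExt_prod_add {κ : Type*} (s : Finset κ) (a : κ → ℝ) {b : ℝ} (hb : 0 ≤ b)
    (h0 : ∀ i ∈ s, 0 ≤ a i) (h1 : ∀ i ∈ s, a i + b ≤ 1) :
    ∏ i ∈ s, (a i + b) ≤ ∏ i ∈ s, a i + s.card * b := by
  classical
  induction s using Finset.induction_on with
  | empty => simp
  | insert i s hi ih =>
    rw [prod_insert hi, prod_insert hi, card_insert_of_notMem hi]
    have ih' := ih (fun k hk => h0 k (mem_insert_of_mem hk))
      (fun k hk => h1 k (mem_insert_of_mem hk))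
    have hai := h0 i (mem_insert_self _ _)
    have hai1 := h1 i (mem_insert_self _ _)
    have hQ0 : 0 ≤ ∏ k ∈ s, (a k + b) := prod_nonneg fun k hk => by
      have := h0 k (mem_insert_of_mem hk)
      linarith
    have hQ1 : ∏ k ∈ s, (a k + b) ≤ 1 := prod_le_one (fun k hk => by
      have := h0 k (mem_insert_of_mem hk)
      linarith) (fun k hk => h1 k (mem_insert_of_mem hk))
    have hP0 : 0 ≤ ∏ k ∈ s, a k := prod_nonneg fun k hk => h0 k (mem_insert_of_mem hk)
    have h2 : a i * ∏ k ∈ s, (a k + b) ≤ a i * (∏ k ∈ s, a k + s.card * b) :=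
      mul_le_mul_of_nonneg_left ih' hai
    have h3 : b * ∏ k ∈ s, (a k + b) ≤ b * 1 := mul_le_mul_of_nonneg_left hQ1 hb
    have h4 : a i * (s.card * b) ≤ 1 * (s.card * b) :=
      mul_le_mul_of_nonneg_right (by linarith) (by positivity)
    push_cast
    linarith

theorem BExt_good {S : ℝ} {f : ℝ → ℝ} (hf : ConvexOn ℝ (Set.Icc 0 S) f)
    (hs : ∀ t, f (S - t) = f t) {t t' : ℝ} (ht' : t' ∈ Set.Icc 0 S)
    (h : |t - S / 2| ≤ |t' - S / 2|) : f t ≤ f t' := by
  have key : ∀ r ∈ Set.Icc 0 S, S / 2 ≤ r → |t - S / 2| ≤ |r - S / 2| → f t ≤ f r := by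
    intro r hr hle h
    rw [abs_of_nonneg (by linarith : 0 ≤ r - S / 2), abs_le] at h
    have h2 : t ∈ segment ℝ (S - r) r := by
      rw [segment_eq_Icc (by linarith)]
      exact ⟨by linarith, by linarith⟩
    have h1 := hf.le_on_segment ⟨by linarith [hr.2], by linarith [hr.1]⟩ hr h2
    rw [hs, max_self] at h1
    exact h1
  rcases le_total (S / 2) t' with hle | hle
  · exact key t' ht' hle h
  · rw [← hs t']
    refine key (S - t') ⟨by linarith [ht'.2], by linarith [ht'.1]⟩ (by linarith) ?_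
    have h3 : |S - t' - S / 2| = |t' - S / 2| := by
      rw [← abs_neg]
      congr 1
      ring
    rw [h3]
    exact h

theorem BExt_conv_prod {κ : Type*} (s : Finset κ) {S : ℝ} (f : κ → ℝ → ℝ)
    (h0 : ∀ i ∈ s, ∀ t ∈ Set.Icc 0 S, 0 ≤ f i t)
    (h1 : ∀ i ∈ s, ConvexOn ℝ (Set.Icc 0 S) (f i))
    (h2 : ∀ i ∈ s, ∀ t, f i (S - t) = f i t) :
    ConvexOn ℝ (Set.Icc 0 S) (fun t => ∏ i ∈ s, f i t) := by
  classical
  induction s using Finset.induction_on with
  | empty => simpa using convexOn_const (1 : ℝ) (convex_Icc 0 S)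
  | insert i s hi ih =>
    have ih' := ih (fun k hk => h0 k (mem_insert_of_mem hk))
      (fun k hk => h1 k (mem_insert_of_mem hk)) (fun k hk => h2 k (mem_insert_of_mem hk))
    have h3 : (fun t => ∏ k ∈ insert i s, f k t) = f i * fun t => ∏ k ∈ s, f k t := by
      funext t
      rw [Pi.mul_apply, prod_insert hi]
    rw [h3]
    refine (h1 i (mem_insert_self _ _)).mul ih' (fun t ht => h0 i (mem_insert_self _ _) t ht)
      (fun t ht => prod_nonneg fun k hk => h0 k (mem_insert_of_mem hk) t ht) ?_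
    intro t ht t' ht' htt
    by_contra hcon
    push Not at hcon
    have h4 : ¬ |t - S / 2| ≤ |t' - S / 2| := fun h =>
      absurd (BExt_good (h1 i (mem_insert_self _ _)) (h2 i (mem_insert_self _ _)) ht' h)
        (not_le.mpr hcon)
    push Not at h4
    have h5 := BExt_good (f := fun t => ∏ k ∈ s, f k t) ih'
      (fun r => prod_congr rfl fun k hk => h2 k (mem_insert_of_mem hk) r) ht h4.le
    exact absurd h5 (not_le.mpr htt)

theorem BExt_conv_one {S : ℝ} (a : ℝ) (c : ℕ) :
    ConvexOn ℝ (Set.Icc 0 S) (fun t => a + t ^ c + (S - t) ^ c) := by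
  refine ⟨convex_Icc 0 S, fun x hx y hy p q hp hq hpq => ?_⟩
  have h1 := (convexOn_pow (𝕜 := ℝ) c).2 (x := x) (y := y) hx.1 hy.1 hp hq hpq
  have h2 := (convexOn_pow (𝕜 := ℝ) c).2 (x := S - x) (y := S - y)
    (by simpa using hx.2) (by simpa using hy.2) hp hq hpq
  simp only [smul_eq_mul] at h1 h2 ⊢
  have h3 : S - (p * x + q * y) = p * (S - x) + q * (S - y) := by
    have : S = (p + q) * S := by rw [hpq, one_mul]
    linear_combination this
  rw [h3]
  have h4 : a = p * a + q * a := by rw [← add_mul, hpq, one_mul]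
  linarith

variable {ι : Type*} [Fintype ι] [DecidableEq ι] (J : SimpleGraph ι) [DecidableRel J.Adj]

theorem BExt_oe : ∑ v, (dg J univ v : ℝ) = oe J := by
  classical
  unfold oe dg
  have h : ((univ : Finset (ι × ι)).filter fun p => J.Adj p.1 p.2).card =
      ∑ v : ι, ((univ : Finset ι).filter fun y => J.Adj v y).card := by
    rw [card_filter, ← univ_product_univ, sum_product]
    refine sum_congr rfl fun v _ => ?_
    rw [card_filter]
  rw [h]
  push_cast
  rfl

theorem BExt_mul_Psi (Y : ℝ) : Y * Psi J Y = ∑ v, Y ^ (dg J univ v + 1) := by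
  unfold Psi
  rw [mul_sum]
  exact sum_congr rfl fun v _ => by ring

theorem BExt_vP_low {β Y : ℝ} (h0 : 0 ≤ Y) (h : Y ≤ β) : vP J β Y = Y * Psi J Y := by
  unfold vP
  rw [max_eq_right (by linarith : Y - β ≤ 0), zero_div, mul_zero, sub_zero]
  exact max_eq_left (mul_nonneg h0 (Psi_nonneg J h0))

theorem BExt_vP_high {β Y : ℝ} (h : β ≤ Y) :
    vP J β Y = max (Y * Psi J Y - Fintype.card ι * ((Y - β) / (1 - β))) 0 := by
  unfold vP
  rw [max_eq_left (by linarith : 0 ≤ Y - β)]

theorem BExt_vP_zero {β : ℝ} (hβ : 0 < β) : vP J β 0 = 0 := by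
  rw [BExt_vP_low J le_rfl hβ.le, zero_mul]

theorem BExt_conv_Psi : ConvexOn ℝ (Set.Ici 0) (fun Y : ℝ => Y * Psi J Y) := by
  refine ⟨convex_Ici 0, fun x hx y hy p q hp hq hpq => ?_⟩
  simp only [smul_eq_mul]
  have h := fun v : ι => (convexOn_pow (𝕜 := ℝ) (dg J univ v + 1)).2 (x := x) (y := y) hx hy
    hp hq hpq
  simp only [smul_eq_mul] at h
  rw [BExt_mul_Psi, BExt_mul_Psi, BExt_mul_Psi, mul_sum, mul_sum, ← sum_add_distrib]
  exact sum_le_sum fun v _ => h v

theorem BExt_vP_conv_low {β x y p q : ℝ} (hx : 0 ≤ x) (hxβ : x ≤ β) (hy : 0 ≤ y) (hyβ : y ≤ β)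
    (hp : 0 ≤ p) (hq : 0 ≤ q) (hpq : p + q = 1) :
    vP J β (p * x + q * y) ≤ p * vP J β x + q * vP J β y := by
  have h1 : p * x + q * y ≤ β := by
    have h2 := mul_le_mul_of_nonneg_left hxβ hp
    have h3 := mul_le_mul_of_nonneg_left hyβ hq
    have h4 : p * β + q * β = β := by rw [← add_mul, hpq, one_mul]
    linarith
  rw [BExt_vP_low J (by positivity) h1, BExt_vP_low J hx hxβ, BExt_vP_low J hy hyβ]
  have := (BExt_conv_Psi J).2 (x := x) (y := y) hx hy hp hq hpq
  simpa only [smul_eq_mul] using this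

theorem BExt_vP_nonneg {β Y : ℝ} : 0 ≤ vP J β Y := le_max_right _ _

theorem BExt_vP_conv_high {β x y p q : ℝ} (hβ : 0 < β) (hxβ : β ≤ x) (hyβ : β ≤ y)
    (hp : 0 ≤ p) (hq : 0 ≤ q) (hpq : p + q = 1) :
    vP J β (p * x + q * y) ≤ p * vP J β x + q * vP J β y := by
  have h1 : β ≤ p * x + q * y := by
    have h2 := mul_le_mul_of_nonneg_left hxβ hp
    have h3 := mul_le_mul_of_nonneg_left hyβ hq
    have h4 : p * β + q * β = β := by rw [← add_mul, hpq, one_mul]
    linarith
  rw [BExt_vP_high J h1]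
  have hx0 := mul_nonneg hp (BExt_vP_nonneg J (β := β) (Y := x))
  have hy0 := mul_nonneg hq (BExt_vP_nonneg J (β := β) (Y := y))
  refine max_le ?_ (by linarith)
  have h5 := (BExt_conv_Psi J).2 (x := x) (y := y) (by simpa using hβ.le.trans hxβ)
    (by simpa using hβ.le.trans hyβ) hp hq hpq
  simp only [smul_eq_mul] at h5
  have h6 : x * Psi J x - Fintype.card ι * ((x - β) / (1 - β)) ≤ vP J β x := by
    rw [BExt_vP_high J hxβ]
    exact le_max_left _ _
  have h7 : y * Psi J y - Fintype.card ι * ((y - β) / (1 - β)) ≤ vP J β y := by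
    rw [BExt_vP_high J hyβ]
    exact le_max_left _ _
  have h8 := mul_le_mul_of_nonneg_left h6 hp
  have h9 := mul_le_mul_of_nonneg_left h7 hq
  have h10 : (Fintype.card ι : ℝ) * ((p * x + q * y - β) / (1 - β)) =
      p * (Fintype.card ι * ((x - β) / (1 - β))) + q * (Fintype.card ι * ((y - β) / (1 - β))) := by
    have h11 : p * x + q * y - β = p * (x - β) + q * (y - β) := by
      have : β = (p + q) * β := by rw [hpq, one_mul]
      linear_combination - this
    rw [h11]
    ring
  rw [h10]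
  linarith only [h5, h8, h9]

/-- the value of a partition -/
noncomputable def BExtF (β : ℝ) {n : ℕ} (Y : Fin n → ℝ) : ℝ :=
  cprod J (fun c => ∑ i, Y i ^ c) + ∑ i, vP J β (Y i)

theorem BExt_sum_upd {n : ℕ} (Y : Fin n → ℝ) {i j : Fin n} (hij : i ≠ j) (g : ℝ → ℝ) (t r : ℝ) :
    ∑ k, g (Function.update (Function.update Y i t) j r k) =
      ∑ k ∈ (univ.erase i).erase j, g (Y k) + g t + g r := by
  have hj : j ∈ (univ : Finset (Fin n)).erase i := mem_erase.mpr ⟨hij.symm, mem_univ _⟩
  rw [← add_sum_erase univ _ (mem_univ i), ← add_sum_erase _ _ hj]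
  have h1 : ∀ k ∈ (univ.erase i).erase j,
      g (Function.update (Function.update Y i t) j r k) = g (Y k) := by
    intro k hk
    rw [mem_erase, mem_erase] at hk
    rw [Function.update_of_ne hk.1, Function.update_of_ne hk.2.1]
  rw [sum_congr rfl h1, Function.update_of_ne hij, Function.update_self, Function.update_self]
  ring

theorem BExt_pair {β : ℝ} (hβ : 0 < β) {n : ℕ} (Y : Fin n → ℝ) (h0 : ∀ i, 0 ≤ Y i)
    {i j : Fin n} (hij : i ≠ j) {t₀ t₁ : ℝ} (ht₀ : 0 ≤ t₀) (h0i : t₀ ≤ Y i) (hi1 : Y i ≤ t₁)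
    (ht₁ : t₁ ≤ Y i + Y j) (hA : t₁ ≤ β ∨ β ≤ t₀)
    (hB : Y i + Y j - t₀ ≤ β ∨ β ≤ Y i + Y j - t₁) :
    BExtF J β Y ≤ max
      (BExtF J β (Function.update (Function.update Y i t₀) j (Y i + Y j - t₀)))
      (BExtF J β (Function.update (Function.update Y i t₁) j (Y i + Y j - t₁))) := by
  classical
  have : Fintype J.ConnectedComponent := Fintype.ofFinite _
  set S := Y i + Y j with hS
  set a : ℕ → ℝ := fun c => ∑ k ∈ (univ.erase i).erase j, Y k ^ c with ha
  set b : ℝ := ∑ k ∈ (univ.erase i).erase j, vP J β (Y k) with hb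
  have hF : ∀ t, BExtF J β (Function.update (Function.update Y i t) j (S - t)) =
      ∏ C : J.ConnectedComponent, (a (Nat.card C.supp) + t ^ Nat.card C.supp +
        (S - t) ^ Nat.card C.supp) + (b + vP J β t + vP J β (S - t)) := by
    intro t
    unfold BExtF
    rw [cprod_eq, BExt_sum_upd Y hij (vP J β)]
    congr 1
    refine prod_congr rfl fun C _ => ?_
    exact BExt_sum_upd Y hij (fun x => x ^ Nat.card C.supp) t (S - t)
  have hY : Function.update (Function.update Y i (Y i)) j (S - Y i) = Y := by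
    rw [Function.update_eq_self, hS, add_sub_cancel_left, Function.update_eq_self]
  have hYF : BExtF J β Y = BExtF J β (Function.update (Function.update Y i (Y i)) j (S - Y i)) := by
    rw [hY]
  have hconv := BExt_conv_prod (univ : Finset J.ConnectedComponent) (S := S)
    (fun C t => a (Nat.card C.supp) + t ^ Nat.card C.supp + (S - t) ^ Nat.card C.supp)
    (fun C _ t ht => by
      have h1 : 0 ≤ a (Nat.card C.supp) := sum_nonneg fun k _ => pow_nonneg (h0 k) _
      have h2 : 0 ≤ t ^ Nat.card C.supp := pow_nonneg ht.1 _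
      have h3 : 0 ≤ (S - t) ^ Nat.card C.supp := pow_nonneg (by linarith [ht.2]) _
      linarith)
    (fun C _ => BExt_conv_one _ _)
    (fun C _ t => by ring)
  obtain ⟨p, q, hp, hq, hpq, hpt⟩ : Y i ∈ segment ℝ t₀ t₁ := by
    rw [segment_eq_Icc (h0i.trans hi1)]
    exact ⟨h0i, hi1⟩
  rw [smul_eq_mul, smul_eq_mul] at hpt
  have hS2 : S - Y i = p * (S - t₀) + q * (S - t₁) := by
    have : S = (p + q) * S := by rw [hpq, one_mul]
    linear_combination this + hpt
  have h1 := hconv.2 (x := t₀) (y := t₁) ⟨ht₀, by linarith⟩ ⟨by linarith, ht₁⟩ hp hq hpq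
  simp only [smul_eq_mul] at h1
  rw [hpt] at h1
  have h2 : vP J β (Y i) ≤ p * vP J β t₀ + q * vP J β t₁ := by
    rw [← hpt]
    rcases hA with hA | hA
    · exact BExt_vP_conv_low J ht₀ (by linarith) (by linarith) hA hp hq hpq
    · exact BExt_vP_conv_high J hβ hA (by linarith) hp hq hpq
  have h3 : vP J β (S - Y i) ≤ p * vP J β (S - t₀) + q * vP J β (S - t₁) := by
    rw [hS2]
    rcases hB with hB | hB
    · exact BExt_vP_conv_low J (by linarith) hB (by linarith) (by linarith) hp hq hpq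
    · exact BExt_vP_conv_high J hβ (by linarith) hB hp hq hpq
  have hmain : BExtF J β Y ≤
      p * BExtF J β (Function.update (Function.update Y i t₀) j (S - t₀)) +
      q * BExtF J β (Function.update (Function.update Y i t₁) j (S - t₁)) := by
    rw [hYF, hF, hF, hF]
    have h4 : b = p * b + q * b := by rw [← add_mul, hpq, one_mul]
    nlinarith only [h1, h2, h3, h4]
  refine hmain.trans ?_
  have h5 := mul_le_mul_of_nonneg_left (le_max_left
    (BExtF J β (Function.update (Function.update Y i t₀) j (S - t₀)))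
    (BExtF J β (Function.update (Function.update Y i t₁) j (S - t₁)))) hp
  have h6 := mul_le_mul_of_nonneg_left (le_max_right
    (BExtF J β (Function.update (Function.update Y i t₀) j (S - t₀)))
    (BExtF J β (Function.update (Function.update Y i t₁) j (S - t₁)))) hq
  have h7 : ∀ M : ℝ, p * M + q * M = M := fun M => by rw [← add_mul, hpq, one_mul]
  calc _ ≤ _ := add_le_add h5 h6
    _ = _ := h7 _

theorem BExt_pow_sum {κ : Type*} (s : Finset κ) (Y : κ → ℝ) (h0 : ∀ i ∈ s, 0 ≤ Y i) {c : ℕ}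
    (hc : 1 ≤ c) : ∑ i ∈ s, Y i ^ c ≤ (∑ i ∈ s, Y i) ^ c := by
  classical
  induction s using Finset.induction_on with
  | empty => simp
  | insert i s hi ih =>
    rw [sum_insert hi, sum_insert hi]
    have h1 := ih fun k hk => h0 k (mem_insert_of_mem hk)
    have h2 : 0 ≤ ∑ k ∈ s, Y k := sum_nonneg fun k hk => h0 k (mem_insert_of_mem hk)
    have h3 := pow_add_pow_le (h0 i (mem_insert_self _ _)) h2 (n := c) (by omega)
    linarith

/-- one part is `1 - x₁` -/
theorem BExt_top [Nonempty ι] {β : ℝ} {x₁ : ℝ}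
    (hx : 0 < x₁) (hxβ : x₁ ≤ β) (hx1 : x₁ ≤ 1) {n : ℕ} (Y : Fin n → ℝ) (h0 : ∀ i, 0 ≤ Y i)
    (hs : ∑ i, Y i = 1) {j : Fin n} (hj : Y j = 1 - x₁) :
    BExtF J β Y ≤ cprod J (fun c => (1 - x₁) ^ c + x₁ ^ c) + vP J β (1 - x₁) + vP J β x₁ := by
  classical
  have hsum : ∑ i ∈ univ.erase j, Y i = x₁ := by
    have := add_sum_erase univ Y (mem_univ j)
    rw [hs, hj] at this
    linarith
  have hpow : ∀ c : ℕ, 1 ≤ c → ∑ i, Y i ^ c ≤ (1 - x₁) ^ c + x₁ ^ c := by
    intro c hc
    rw [← add_sum_erase univ (fun i => Y i ^ c) (mem_univ j), hj]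
    have := BExt_pow_sum (univ.erase j) Y (fun i _ => h0 i) hc
    rw [hsum] at this
    linarith
  have h1 : cprod J (fun c => ∑ i, Y i ^ c) ≤ cprod J (fun c => (1 - x₁) ^ c + x₁ ^ c) :=
    cprod_mono J (fun c _ _ => sum_nonneg fun i _ => pow_nonneg (h0 i) c)
      fun c hc _ => hpow c hc
  have h2 : ∑ i, vP J β (Y i) ≤ vP J β (1 - x₁) + vP J β x₁ := by
    rw [← add_sum_erase univ (fun i => vP J β (Y i)) (mem_univ j), hj]
    have h3 : ∀ i ∈ univ.erase j, vP J β (Y i) = ∑ v, Y i ^ (dg J univ v + 1) := by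
      intro i hi
      have h4 : Y i ≤ x₁ := by
        rw [← hsum]
        exact single_le_sum (fun k _ => h0 k) hi
      rw [BExt_vP_low J (h0 i) (h4.trans hxβ), BExt_mul_Psi]
    rw [sum_congr rfl h3, sum_comm, BExt_vP_low J hx.le hxβ, BExt_mul_Psi]
    have h5 : ∑ v : ι, ∑ i ∈ univ.erase j, Y i ^ (dg J univ v + 1) ≤
        ∑ v : ι, x₁ ^ (dg J univ v + 1) := by
      refine sum_le_sum fun v _ => ?_
      have := BExt_pow_sum (univ.erase j) Y (fun i _ => h0 i)
        (c := dg J univ v + 1) (by omega)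
      rwa [hsum] at this
    linarith
  unfold BExtF
  linarith

/-- all parts but one are `0` or `β` -/
theorem BExt_last [Nonempty ι] {β : ℝ} (hβ : 0 < β) (hβ1 : β < 1) {x₁ : ℝ} (hx : 0 < x₁) {B : ℝ}
    (hV : ∀ j : ℕ, 1 ≤ j → j * β ≤ 1 → cprod J (fun c => j * β ^ c + (1 - j * β) ^ c) +
      j * (β * Psi J β) + vP J β (1 - j * β) ≤ B) {n : ℕ} (Y : Fin n → ℝ) (h0 : ∀ i, 0 ≤ Y i)
    (h1 : ∀ i, Y i ≤ 1 - x₁) (hs : ∑ i, Y i = 1) (i₀ : Fin n)
    (hi : ∀ k, k ≠ i₀ → Y k = 0 ∨ Y k = β) : BExtF J β Y ≤ B := by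
  classical
  set T := (univ.erase i₀).filter fun k => Y k = β with hT
  have key : ∀ g : ℝ → ℝ, g 0 = 0 → ∑ k, g (Y k) = g (Y i₀) + T.card * g β := by
    intro g hg
    rw [← add_sum_erase univ (fun k => g (Y k)) (mem_univ i₀),
      ← sum_filter_add_sum_filter_not (univ.erase i₀) (fun k => Y k = β)]
    have h2 : ∑ k ∈ (univ.erase i₀).filter (fun k => Y k = β), g (Y k) = T.card * g β := by
      rw [sum_congr rfl (fun k hk => by rw [(mem_filter.mp hk).2] :
        ∀ k ∈ (univ.erase i₀).filter (fun k => Y k = β), g (Y k) = g β), sum_const, nsmul_eq_mul]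
    have h3 : ∑ k ∈ (univ.erase i₀).filter (fun k => ¬ Y k = β), g (Y k) = 0 := by
      refine sum_eq_zero fun k hk => ?_
      rw [mem_filter, mem_erase] at hk
      rcases hi k hk.1.1 with h | h
      · rw [h, hg]
      · exact absurd h hk.2
    rw [h2, h3, add_zero]
  have hY : Y i₀ = 1 - T.card * β := by
    have := key id rfl
    simp only [id] at this
    rw [hs] at this
    linarith
  have hj1 : 1 ≤ T.card := by
    by_contra hcon
    have h2 : T.card = 0 := by omega
    rw [h2, Nat.cast_zero, zero_mul, sub_zero] at hY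
    have := h1 i₀
    linarith
  have hj2 : (T.card : ℝ) * β ≤ 1 := by
    have := h0 i₀
    rw [hY] at this
    linarith
  refine le_trans ?_ (hV T.card hj1 hj2)
  unfold BExtF
  rw [key (vP J β) (BExt_vP_zero J hβ), hY, BExt_vP_low J hβ.le le_rfl]
  have h4 : cprod J (fun c => ∑ i, Y i ^ c) ≤
      cprod J (fun c => T.card * β ^ c + (1 - T.card * β) ^ c) :=
    cprod_mono J (fun c _ _ => sum_nonneg fun i _ => pow_nonneg (h0 i) c) fun c hc _ => by
      rw [key (fun x => x ^ c) (zero_pow (by omega)), hY]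
      linarith
  linarith

theorem BExt_card_lt {β : ℝ} {n : ℕ} (Y Z : Fin n → ℝ) {i j : Fin n}
    (hYi : Y i ≠ 0 ∧ Y i ≠ β) (hYj : Y j ≠ 0 ∧ Y j ≠ β) (hZ : ∀ k, k ≠ i → k ≠ j → Z k = Y k)
    (h : (Z i = 0 ∨ Z i = β) ∨ (Z j = 0 ∨ Z j = β)) :
    (univ.filter fun k => Z k ≠ 0 ∧ Z k ≠ β).card <
      (univ.filter fun k => Y k ≠ 0 ∧ Y k ≠ β).card := by
  classical
  refine card_lt_card ?_
  rw [ssubset_iff_of_subset]
  · rcases h with h | h
    · refine ⟨i, mem_filter.mpr ⟨mem_univ _, hYi⟩, fun h2 => ?_⟩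
      have h3 := (mem_filter.mp h2).2
      tauto
    · refine ⟨j, mem_filter.mpr ⟨mem_univ _, hYj⟩, fun h2 => ?_⟩
      have h3 := (mem_filter.mp h2).2
      tauto
  · intro k hk
    rw [mem_filter] at hk ⊢
    refine ⟨mem_univ _, ?_⟩
    by_cases hki : k = i
    · rw [hki]; exact hYi
    · by_cases hkj : k = j
      · rw [hkj]; exact hYj
      · rw [← hZ k hki hkj]; exact hk.2

theorem BExt_main [Nonempty ι] {β : ℝ} (hβ : 0 < β) (hβ1 : β < 1) {x₁ : ℝ} (hx : 0 < x₁)
    (hxβ : x₁ ≤ β) (hx1 : x₁ ≤ 1 - β) {B : ℝ}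
    (hV : ∀ j : ℕ, 1 ≤ j → j * β ≤ 1 → cprod J (fun c => j * β ^ c + (1 - j * β) ^ c) +
      j * (β * Psi J β) + vP J β (1 - j * β) ≤ B)
    (hW : cprod J (fun c => (1 - x₁) ^ c + x₁ ^ c) + vP J β (1 - x₁) + vP J β x₁ ≤ B) {n : ℕ} :
    ∀ (N : ℕ) (Y : Fin n → ℝ), (univ.filter fun k => Y k ≠ 0 ∧ Y k ≠ β).card ≤ N →
      (∀ i, 0 ≤ Y i) → (∀ i, Y i ≤ 1 - x₁) → ∑ i, Y i = 1 → BExtF J β Y ≤ B := by
  classical
  intro N
  induction N with
  | zero =>
    intro Y hN h0 h1 hs
    have hn : Nonempty (Fin n) := by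
      by_contra hcon
      rw [not_nonempty_iff] at hcon
      rw [univ_eq_empty, sum_empty] at hs
      exact zero_ne_one hs
    obtain ⟨i₀⟩ := hn
    refine BExt_last J hβ hβ1 hx hV Y h0 h1 hs i₀ fun k _ => ?_
    have h2 := card_eq_zero.mp (Nat.le_zero.mp hN)
    by_contra hcon
    push Not at hcon
    have h3 : k ∈ univ.filter fun k => Y k ≠ 0 ∧ Y k ≠ β := mem_filter.mpr ⟨mem_univ _, hcon⟩
    rw [h2] at h3
    exact absurd h3 (notMem_empty _)
  | succ N ih =>
    intro Y hN h0 h1 hs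
    by_cases htwo : ∃ i j, i ≠ j ∧ (Y i ≠ 0 ∧ Y i ≠ β) ∧ (Y j ≠ 0 ∧ Y j ≠ β)
    · -- the step for `Y i ≤ Y j`
      have step : ∀ i j, i ≠ j → (Y i ≠ 0 ∧ Y i ≠ β) → (Y j ≠ 0 ∧ Y j ≠ β) → Y i ≤ Y j →
          BExtF J β Y ≤ B := by
        intro i j hij hi hj hle
        have hsum : Y i + Y j ≤ 1 := by
          have h2 : Y i + Y j = ∑ k ∈ {i, j}, Y k := by rw [sum_pair hij]
          rw [h2, ← hs]
          exact sum_le_sum_of_subset_of_nonneg (subset_univ _) fun k _ _ => h0 k
        -- the new partition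
        have hnew : ∀ t : ℝ, 0 ≤ t → t ≤ 1 - x₁ → 0 ≤ Y i + Y j - t → Y i + Y j - t ≤ 1 - x₁ →
            ((t = 0 ∨ t = β) ∨ (Y i + Y j - t = 0 ∨ Y i + Y j - t = β)) ∨
              Y i + Y j - t = 1 - x₁ →
            BExtF J β (Function.update (Function.update Y i t) j (Y i + Y j - t)) ≤ B := by
          intro t ht0 ht1 hr0 hr1 hc
          set Z := Function.update (Function.update Y i t) j (Y i + Y j - t) with hZ
          have hZi : Z i = t := by
            rw [hZ, Function.update_of_ne hij, Function.update_self]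
          have hZj : Z j = Y i + Y j - t := by rw [hZ, Function.update_self]
          have hZk : ∀ k, k ≠ i → k ≠ j → Z k = Y k := by
            intro k hki hkj
            rw [hZ, Function.update_of_ne hkj, Function.update_of_ne hki]
          have hZ0 : ∀ k, 0 ≤ Z k := by
            intro k
            by_cases hki : k = i
            · rw [hki, hZi]; exact ht0
            · by_cases hkj : k = j
              · rw [hkj, hZj]; exact hr0
              · rw [hZk k hki hkj]; exact h0 k
          have hZ1 : ∀ k, Z k ≤ 1 - x₁ := by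
            intro k
            by_cases hki : k = i
            · rw [hki, hZi]; exact ht1
            · by_cases hkj : k = j
              · rw [hkj, hZj]; exact hr1
              · rw [hZk k hki hkj]; exact h1 k
          have hZs : ∑ k, Z k = 1 := by
            have h2 := BExt_sum_upd Y hij id t (Y i + Y j - t)
            have h3 := BExt_sum_upd Y hij id (Y i) (Y j)
            rw [Function.update_eq_self, Function.update_eq_self] at h3
            simp only [id] at h2 h3
            rw [hs] at h3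
            rw [hZ, h2]
            linarith
          rcases hc with hc | hc
          · refine ih Z ?_ hZ0 hZ1 hZs
            have h4 := BExt_card_lt Y Z hi hj hZk (by rw [hZi, hZj]; exact hc)
            omega
          · exact (BExt_top J hx hxβ (by linarith) Z hZ0 hZs (j := j) (by rw [hZj, hc])).trans hW
        have hiP : 0 < Y i := lt_of_le_of_ne (h0 i) (Ne.symm hi.1)
        have hjP : 0 < Y j := lt_of_le_of_ne (h0 j) (Ne.symm hj.1)
        rcases lt_or_gt_of_ne hj.2 with hjβ | hjβ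
        · -- both are small
          have h2 := BExt_pair J hβ Y h0 hij (t₀ := max 0 (Y i + Y j - β))
            (t₁ := min (Y i + Y j) β) (le_max_left _ _) (max_le hiP.le (by linarith))
            (le_min (by linarith) (by linarith)) (min_le_left _ _) (Or.inl (min_le_right _ _))
            (Or.inl (by have := le_max_right 0 (Y i + Y j - β); linarith))
          refine h2.trans (max_le ?_ ?_)
          · rcases le_total (Y i + Y j - β) 0 with h3 | h3
            · rw [max_eq_left h3]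
              exact hnew 0 le_rfl (by linarith) (by linarith) (by linarith)
                (Or.inl (Or.inl (Or.inl rfl)))
            · rw [max_eq_right h3]
              exact hnew _ h3 (by linarith) (by linarith) (by linarith)
                (Or.inl (Or.inr (Or.inr (by ring))))
          · rcases le_total (Y i + Y j) β with h3 | h3
            · rw [min_eq_left h3]
              exact hnew _ (by linarith) (by linarith) (by linarith) (by linarith)
                (Or.inl (Or.inr (Or.inl (by ring))))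
            · rw [min_eq_right h3]
              exact hnew _ hβ.le (by linarith) (by linarith) (by linarith)
                (Or.inl (Or.inl (Or.inr rfl)))
        · rcases lt_or_gt_of_ne hi.2 with hiβ | hiβ
          · -- mixed
            have h2 := BExt_pair J hβ Y h0 hij (t₀ := max 0 (Y i + Y j - (1 - x₁)))
              (t₁ := min β (Y i + Y j - β)) (le_max_left _ _)
              (max_le hiP.le (by have := h1 j; linarith))
              (le_min hiβ.le (by linarith))
              ((min_le_right _ _).trans (by linarith)) (Or.inl (min_le_left _ _))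
              (Or.inr (by have := min_le_right β (Y i + Y j - β); linarith))
            refine h2.trans (max_le ?_ ?_)
            · rcases le_total (Y i + Y j - (1 - x₁)) 0 with h3 | h3
              · rw [max_eq_left h3]
                exact hnew 0 le_rfl (by linarith) (by linarith) (by linarith)
                  (Or.inl (Or.inl (Or.inl rfl)))
              · rw [max_eq_right h3]
                exact hnew _ h3 (by linarith) (by linarith) (by linarith) (Or.inr (by ring))
            · have h4 := h1 j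
              rcases le_total β (Y i + Y j - β) with h3 | h3
              · rw [min_eq_left h3]
                exact hnew _ hβ.le (by linarith) (by linarith) (by linarith)
                  (Or.inl (Or.inl (Or.inr rfl)))
              · rw [min_eq_right h3]
                exact hnew _ (by linarith) (by linarith) (by linarith) (by linarith)
                  (Or.inl (Or.inr (Or.inr (by ring))))
          · -- both are large
            have h2 := BExt_pair J hβ Y h0 hij (t₀ := β) (t₁ := Y i + Y j - β) hβ.le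
              (by linarith) (by linarith) (by linarith) (Or.inr le_rfl)
              (Or.inr (by linarith))
            refine h2.trans (max_le ?_ ?_)
            · exact hnew _ hβ.le (by linarith) (by linarith) (by linarith)
                (Or.inl (Or.inl (Or.inr rfl)))
            · exact hnew _ (by linarith) (by linarith) (by linarith) (by linarith)
                (Or.inl (Or.inr (Or.inr (by ring))))
      obtain ⟨i, j, hij, hi, hj⟩ := htwo
      rcases le_total (Y i) (Y j) with h | h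
      · exact step i j hij hi hj h
      · exact step j i hij.symm hj hi h
    · push Not at htwo
      have hn : Nonempty (Fin n) := by
        by_contra hcon
        rw [not_nonempty_iff] at hcon
        rw [univ_eq_empty, sum_empty] at hs
        exact zero_ne_one hs
      by_cases hone : ∃ i, Y i ≠ 0 ∧ Y i ≠ β
      · obtain ⟨i, hi⟩ := hone
        refine BExt_last J hβ hβ1 hx hV Y h0 h1 hs i fun k hk => ?_
        by_contra hcon
        push Not at hcon
        exact hcon.2 (htwo i k (Ne.symm hk) hi hcon.1)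
      · obtain ⟨i₀⟩ := hn
        refine BExt_last J hβ hβ1 hx hV Y h0 h1 hs i₀ fun k _ => ?_
        by_contra hcon
        push Not at hcon
        exact hone ⟨k, hcon⟩

theorem BExt_finite (V : ℕ → ℝ) (P : ℕ → Prop) (h : ∀ j, P j → V j < 1) :
    ∀ M : ℕ, ∃ ε : ℝ, 0 < ε ∧ ∀ j, j ≤ M → P j → V j ≤ 1 - ε := by
  intro M
  induction M with
  | zero =>
    by_cases hP : P 0
    · refine ⟨1 - V 0, by linarith [h 0 hP], fun j hj _ => ?_⟩
      rw [Nat.le_zero.mp hj]
      linarith
    · exact ⟨1, one_pos, fun j hj hPj => absurd (Nat.le_zero.mp hj ▸ hPj) hP⟩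
  | succ M ih =>
    obtain ⟨ε, hε, h1⟩ := ih
    by_cases hP : P (M + 1)
    · refine ⟨min ε (1 - V (M + 1)), lt_min hε (by linarith [h _ hP]), fun j hj hPj => ?_⟩
      rcases Nat.lt_or_ge j (M + 1) with h2 | h2
      · have := h1 j (by omega) hPj
        have := min_le_left ε (1 - V (M + 1))
        linarith
      · have h3 : j = M + 1 := by omega
        rw [h3]
        have := min_le_right ε (1 - V (M + 1))
        linarith
    · refine ⟨ε, hε, fun j hj hPj => h1 j ?_ hPj⟩
      by_contra hcon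
      have h3 : j = M + 1 := by omega
      exact hP (h3 ▸ hPj)

/-- the partition `(1 - x, x)` for small `x` -/
theorem near_one [Nonempty ι] (hd : ∀ v, 1 ≤ dg J univ v) {β : ℝ} (hβ : 0 < β) (hβ1 : β < 1)
    (hp : PairC J 1 β) : ∃ x₂ : ℝ, 0 < x₂ ∧ ∀ x : ℝ, 0 < x → x ≤ x₂ →
      cprod J (fun c => (1 - x) ^ c + x ^ c) + vP J β (1 - x) + vP J β x < 1 := by
  classical
  have : Fintype J.ConnectedComponent := Fintype.ofFinite _
  set s : ℝ := ((Fintype.card ι : ℕ) : ℝ) with hs
  set e : ℝ := ((oe J : ℕ) : ℝ) with he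
  set N : ℕ := (univ : Finset J.ConnectedComponent).card with hN
  set Q : ℝ := ∑ v : ι, ((dg J univ v : ℝ) + 1) ^ 2 with hQ
  have hs0 : 0 ≤ s := Nat.cast_nonneg _
  have he0 : 0 ≤ e := Nat.cast_nonneg _
  have hQ0 : 0 ≤ Q := sum_nonneg fun v _ => sq_nonneg _
  have h1β : 0 < 1 - β := by linarith
  unfold PairC at hp
  rw [Nat.cast_one, mul_one, ← hs, ← he] at hp
  set D : ℝ := 2 * s + e - s / (1 - β) with hD
  have hD0 : 0 < D := by
    have h2 : s / (1 - β) < 2 * s + e := by
      rw [div_lt_iff₀ h1β]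
      have h3 : 0 < s := by rw [hs]; exact_mod_cast Fintype.card_pos
      nlinarith only [hp, h3]
    linarith
  set K : ℝ := s ^ 2 + N + Q + s + 1 with hK
  have hK0 : 0 < K := by positivity
  refine ⟨min (min (1 / 2) β) (min (1 / (s + 3)) (D / (2 * K))), by positivity, ?_⟩
  intro x hx hxx
  have hx12 : x ≤ 1 / 2 := hxx.trans ((min_le_left _ _).trans (min_le_left _ _))
  have hxβ : x ≤ β := hxx.trans ((min_le_left _ _).trans (min_le_right _ _))
  have hxs : x ≤ 1 / (s + 3) := hxx.trans ((min_le_right _ _).trans (min_le_left _ _))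
  have hxD : x ≤ D / (2 * K) := hxx.trans ((min_le_right _ _).trans (min_le_right _ _))
  have hxs' : x * (s + 3) ≤ 1 := by rwa [le_div_iff₀ (by linarith)] at hxs
  have hxD' : x * (2 * K) ≤ D := by rwa [le_div_iff₀ (by linarith)] at hxD
  have hcle : ∀ C : J.ConnectedComponent, (1 - x) ^ Nat.card C.supp + x ^ Nat.card C.supp ≤
      (1 - x) ^ Nat.card C.supp + x ^ 2 := by
    intro C
    have := pow_le_pow_of_le_one hx.le (by linarith) (cprod_two J hd C)
    linarith
  have hc2 : ∀ C : J.ConnectedComponent, (1 - x) ^ Nat.card C.supp + x ^ 2 ≤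
      (1 - x) ^ 2 + x ^ 2 := by
    intro C
    have := pow_le_pow_of_le_one (by linarith : 0 ≤ 1 - x) (by linarith) (cprod_two J hd C)
    linarith
  have hle1 : (1 - x) ^ 2 + x ^ 2 ≤ 1 := by nlinarith only [hx, hx12]
  have hc0 : ∀ C : J.ConnectedComponent, 0 ≤ (1 - x) ^ Nat.card C.supp := fun C =>
    pow_nonneg (by linarith) _
  have hcp0 : ∀ C : J.ConnectedComponent,
      0 ≤ (1 - x) ^ Nat.card C.supp + x ^ Nat.card C.supp := fun C => by
    have := pow_nonneg hx.le (Nat.card C.supp)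
    have := hc0 C
    linarith
  have hA : cprod J (fun c => (1 - x) ^ c + x ^ c) ≤ (1 - x) ^ 2 + x ^ 2 := by
    rw [cprod_eq]
    obtain ⟨C₀⟩ : Nonempty J.ConnectedComponent :=
      ⟨J.connectedComponentMk (Classical.arbitrary ι)⟩
    rw [← mul_prod_erase univ _ (mem_univ C₀)]
    have h2 : ∏ C ∈ univ.erase C₀, ((1 - x) ^ Nat.card C.supp + x ^ Nat.card C.supp) ≤ 1 :=
      prod_le_one (fun C _ => hcp0 C) fun C _ => ((hcle C).trans (hc2 C)).trans hle1
    calc _ ≤ ((1 - x) ^ Nat.card C₀.supp + x ^ Nat.card C₀.supp) * 1 :=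
          mul_le_mul_of_nonneg_left h2 (hcp0 C₀)
      _ ≤ _ := by rw [mul_one]; exact (hcle C₀).trans (hc2 C₀)
  have hB : cprod J (fun c => (1 - x) ^ c + x ^ c) ≤ 1 - s * x + (s * x) ^ 2 + N * x ^ 2 := by
    rw [cprod_eq]
    have h2 : ∏ C : J.ConnectedComponent, ((1 - x) ^ Nat.card C.supp + x ^ Nat.card C.supp) ≤
        ∏ C : J.ConnectedComponent, ((1 - x) ^ Nat.card C.supp + x ^ 2) :=
      prod_le_prod (fun C _ => hcp0 C) fun C _ => hcle C
    have h3 := BExt_prod_add (univ : Finset J.ConnectedComponent)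
      (fun C => (1 - x) ^ Nat.card C.supp) (b := x ^ 2) (sq_nonneg x) (fun C _ => hc0 C)
      (fun C _ => (hc2 C).trans hle1)
    rw [prod_pow_eq_pow_sum, cprod_sum, ← hN] at h3
    have h4 := BExt_pow_le hx.le (by linarith) (Fintype.card ι)
    rw [← hs] at h4
    linarith
  have hvx : vP J β x ≤ s * x ^ 2 := by
    rw [BExt_vP_low J hx.le hxβ]
    have h2 := Psi_le J hd hx.le (by linarith : x ≤ 1)
    rw [← hs] at h2
    nlinarith only [hβ, hβ1, hx, h2]
  have hvx0 : 0 ≤ vP J β x := BExt_vP_nonneg J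
  have hP : (1 - x) * Psi J (1 - x) ≤ s - (s + e) * x + Q * x ^ 2 := by
    rw [BExt_mul_Psi]
    have h2 : ∀ v : ι, (1 - x) ^ (dg J univ v + 1) ≤
        1 - ((dg J univ v : ℝ) + 1) * x + ((dg J univ v : ℝ) + 1) ^ 2 * x ^ 2 := by
      intro v
      have h3 := BExt_pow_le hx.le (by linarith) (dg J univ v + 1)
      push_cast at h3
      rw [mul_pow] at h3
      exact h3
    have h3 := sum_le_sum fun v (_ : v ∈ (univ : Finset ι)) => h2 v
    refine h3.trans (le_of_eq ?_)
    rw [sum_add_distrib, sum_sub_distrib, ← sum_mul, ← sum_mul, sum_add_distrib, BExt_oe J,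
      ← hQ, ← he, sum_const, card_univ, nsmul_eq_mul, mul_one, ← hs]
    ring
  have hmax : vP J β (1 - x) ≤ max ((1 - x) * Psi J (1 - x) - s * (1 - x / (1 - β))) 0 := by
    unfold vP
    refine max_le_max ?_ le_rfl
    have h2 : (1 - x - β) / (1 - β) ≤ max (1 - x - β) 0 / (1 - β) := by
      gcongr
      exact le_max_left _ _
    have h3 : (1 - x - β) / (1 - β) = 1 - x / (1 - β) := by
      field_simp
      ring
    rw [h3] at h2
    have h4 := mul_le_mul_of_nonneg_left h2 hs0
    linarith only [h4]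
  have h5 : cprod J (fun c => (1 - x) ^ c + x ^ c) + vP J β x +
      max ((1 - x) * Psi J (1 - x) - s * (1 - x / (1 - β))) 0 < 1 := by
    rw [← lt_sub_iff_add_lt']
    refine max_lt ?_ ?_
    · have h6 : s * (x / (1 - β)) = (2 * s + e - D) * x := by
        rw [hD]
        field_simp
        ring
      have h7 : K * x ^ 2 * 2 ≤ D * x := by nlinarith only [hβ, hβ1, hx, hxD']
      have h8 : 0 < D * x := by positivity
      nlinarith only [hB, hvx, hP, h6, h7, h8]
    · nlinarith only [hx, hA, hvx, hxs']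
  linarith only [hmax, h5]

theorem conf_of_Q [Nonempty ι] (hd : ∀ v, 1 ≤ dg J univ v) {β : ℝ} (hβ : 0 < β) (hβ1 : β < 1)
    (hp : PairC J 1 β) (hQ : Qc J β < 1) {x₁ : ℝ} (hx : 0 < x₁) : ∃ ε : ℝ, 0 < ε ∧
    ∀ (n : ℕ) (Y : Fin n → ℝ), (∀ i, 0 ≤ Y i) → (∀ i, Y i ≤ 1 - x₁) → ∑ i, Y i = 1 →
      cprod J (fun c => ∑ i, Y i ^ c) + ∑ i, vP J β (Y i) ≤ 1 - ε := by
  classical
  obtain ⟨x₂, hx₂, hnear⟩ := near_one J hd hβ hβ1 hp
  set x := min (min x₁ x₂) (min β (1 - β)) with hxdef
  have hx0 : 0 < x := by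
    refine lt_min (lt_min hx hx₂) (lt_min hβ (by linarith))
  have hxx₁ : x ≤ x₁ := (min_le_left _ _).trans (min_le_left _ _)
  have hxx₂ : x ≤ x₂ := (min_le_left _ _).trans (min_le_right _ _)
  have hxβ : x ≤ β := (min_le_right _ _).trans (min_le_left _ _)
  have hxβ1 : x ≤ 1 - β := (min_le_right _ _).trans (min_le_right _ _)
  have hW := hnear x hx0 hxx₂
  obtain ⟨ε, hε, hfin⟩ := BExt_finite
    (fun j => cprod J (fun c => j * β ^ c + (1 - j * β) ^ c) + j * (β * Psi J β) +
      vP J β (1 - j * β)) (fun j => 1 ≤ j ∧ j * β ≤ 1)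
    (fun j hj => Qk_lt J hd hβ hβ1 hQ hj.1 hj.2) ⌊1 / β⌋₊
  refine ⟨min ε (1 - (cprod J (fun c => (1 - x) ^ c + x ^ c) + vP J β (1 - x) + vP J β x)),
    lt_min hε (by linarith), ?_⟩
  intro n Y h0 h1 hs
  refine BExt_main J hβ hβ1 hx0 hxβ hxβ1 ?_ ?_ _ Y le_rfl h0
    (fun i => (h1 i).trans (by linarith)) hs
  · intro j hj1 hj2
    have h2 : j ≤ ⌊1 / β⌋₊ := Nat.le_floor (by rw [le_div_iff₀ hβ]; exact hj2)
    have h3 := hfin j h2 ⟨hj1, hj2⟩
    have h4 := min_le_left ε
      (1 - (cprod J (fun c => (1 - x) ^ c + x ^ c) + vP J β (1 - x) + vP J β x))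
    linarith
  · have h4 := min_le_right ε
      (1 - (cprod J (fun c => (1 - x) ^ c + x ^ c) + vP J β (1 - x) + vP J β x))
    linarith

end H57GH
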