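import Pool.Agent.H57.GH.CM

/-!
Copies of `J` using a given point or a given pair of points, constant class sizes.
-/

namespace H57GH

open Finset H57LC H57LT

set_option linter.unusedSectionVars false

variable {ι : Type*} [Fintype ι] [DecidableEq ι] (J : SimpleGraph ι) [DecidableRel J.Adj]

theorem DiffP_card {κ : Type*} (T : Finset κ) (b : ℕ) :
    (pts T (fun _ => b)).card = T.card * b := by
  simp [pts, Finset.card_sigma]

theorem DiffP_mem {κ : Type*} {T : Finset κ} {b : ℕ} {p : Σ _ : κ, ℕ} :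
    p ∈ pts T (fun _ => b) ↔ p.1 ∈ T ∧ p.2 < b := by
  simp [pts, Finset.mem_sigma]

theorem DiffP_swap_mem {α : Type*} [DecidableEq α] {S : α → Prop} {x y z : α} (hx : S x)
    (hy : S y) (hz : S z) : S (Equiv.swap x y z) := by
  rw [Equiv.swap_apply_def]
  split_ifs
  · exact hy
  · exact hx
  · exact hz

/-- the automorphism of the complete multipartite graph -/
def DiffP_aut {κ : Type*} (σ : Equiv.Perm κ) (τ : κ → Equiv.Perm ℕ) (x : Σ _ : κ, ℕ) :
    Σ _ : κ, ℕ := ⟨σ x.1, τ x.1 x.2⟩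

theorem DiffP_aut_inj {κ : Type*} (σ : Equiv.Perm κ) (τ : κ → Equiv.Perm ℕ) :
    Function.Injective (DiffP_aut σ τ) := by
  rintro ⟨k, i⟩ ⟨l, j⟩ h
  simp only [DiffP_aut, Sigma.mk.injEq, EmbeddingLike.apply_eq_iff_eq] at h
  obtain ⟨h1, h2⟩ := h
  subst h1
  simp only [heq_eq_eq, EmbeddingLike.apply_eq_iff_eq] at h2
  rw [h2]

theorem DiffP_le {κ : Type*} [DecidableEq κ] {T : Finset κ} {b : ℕ}
    (σ : Equiv.Perm κ) (τ : κ → Equiv.Perm ℕ) (hσ : ∀ k ∈ T, σ k ∈ T)
    (hτ : ∀ k ∈ T, ∀ i < b, τ k i < b) (Q Q' : (ι → Σ _ : κ, ℕ) → Prop) [DecidablePred Q]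
    [DecidablePred Q'] (hQ : ∀ φ, Q φ → Q' fun i => DiffP_aut σ τ (φ i)) :
    ((cm J (pts T (fun _ => b)) Sigma.fst).filter Q).card ≤
      ((cm J (pts T (fun _ => b)) Sigma.fst).filter Q').card := by
  refine cm_card_le' J (DiffP_aut σ τ) ?_ ((DiffP_aut_inj σ τ).injOn) ?_ Q Q' fun φ _ h => hQ φ h
  · intro x hx
    rw [DiffP_mem] at hx ⊢
    exact ⟨hσ _ hx.1, hτ _ hx.1 _ hx.2⟩
  · intro x _ y _ hxy h
    exact hxy (σ.injective h)

theorem DiffP_point_le {κ : Type*} [DecidableEq κ] {T : Finset κ} {b : ℕ} (v : ι)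
    {p q : Σ _ : κ, ℕ} (hp : p ∈ pts T (fun _ => b)) (hq : q ∈ pts T (fun _ => b)) :
    ((cm J (pts T (fun _ => b)) Sigma.fst).filter fun φ => φ v = p).card ≤
      ((cm J (pts T (fun _ => b)) Sigma.fst).filter fun φ => φ v = q).card := by
  rw [DiffP_mem] at hp hq
  refine DiffP_le J (Equiv.swap p.1 q.1) (fun _ => Equiv.swap p.2 q.2) ?_ ?_ _ _ ?_
  · intro k hk
    exact DiffP_swap_mem (S := fun k => k ∈ T) hp.1 hq.1 hk
  · intro k _ i hi
    exact DiffP_swap_mem (S := fun k => k < b) hp.2 hq.2 hi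
  · intro φ h
    simp only [h, DiffP_aut, Equiv.swap_apply_left]

/-- every point is in the same number of copies if all classes have the same size -/
theorem fJ_point {κ : Type*} [DecidableEq κ] {T : Finset κ} {R b : ℕ} (hT : T.card = R) (v : ι)
    {p : Σ _ : κ, ℕ} (hp : p ∈ pts T (fun _ => b)) :
    ((((cm J (pts T (fun _ => b)) Sigma.fst).filter fun φ => φ v = p).card : ℕ) : ℝ) *
      (R * b) = fJ J T (fun _ => b) := by
  have h1 : fJ J T (fun _ => b) = ∑ q ∈ pts T (fun _ => b),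
      ((cm J (pts T (fun _ => b)) Sigma.fst).filter fun φ => φ v = q).card := by
    rw [fJ]
    refine Finset.card_eq_sum_card_fiberwise 
      (f := fun φ : ι → Σ _ : κ, ℕ => φ v) ?_
    intro φ hφ
    have hφ' := Finset.mem_coe.1 hφ
    rw [cm, Finset.mem_filter, Fintype.mem_piFinset] at hφ'
    exact Finset.mem_coe.2 (hφ'.1 v)
  have h2 : ∀ q ∈ pts T (fun _ => b),
      ((cm J (pts T (fun _ => b)) Sigma.fst).filter fun φ => φ v = q).card =
      ((cm J (pts T (fun _ => b)) Sigma.fst).filter fun φ => φ v = p).card := fun q hq =>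
    le_antisymm (DiffP_point_le J v hq hp) (DiffP_point_le J v hp hq)
  rw [Finset.sum_congr rfl h2, Finset.sum_const, DiffP_card, hT] at h1
  rw [h1]
  push_cast [smul_eq_mul]
  ring

/-- the permutation of the classes for two pairs -/
def DiffP_perm {κ : Type*} [DecidableEq κ] (k l k' l' : κ) : Equiv.Perm κ :=
  (Equiv.swap k k').trans (Equiv.swap (Equiv.swap k k' l) l')

theorem DiffP_perm_left {κ : Type*} [DecidableEq κ] {k l k' l' : κ} (h : k ≠ l) (h' : k' ≠ l') :
    DiffP_perm k l k' l' k = k' := by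
  simp only [DiffP_perm, Equiv.trans_apply, Equiv.swap_apply_left]
  refine Equiv.swap_apply_of_ne_of_ne ?_ h'
  intro h2
  have h3 : Equiv.swap k k' k = Equiv.swap k k' l := by rw [Equiv.swap_apply_left]; exact h2
  exact h ((Equiv.swap k k').injective h3)

theorem DiffP_perm_right {κ : Type*} [DecidableEq κ] {k l k' l' : κ} :
    DiffP_perm k l k' l' l = l' := by
  simp only [DiffP_perm, Equiv.trans_apply, Equiv.swap_apply_left]

theorem DiffP_pair_le {κ : Type*} [DecidableEq κ] {T : Finset κ} {b : ℕ} (v v' : ι)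
    {p q p' q' : Σ _ : κ, ℕ} (hp : p ∈ pts T (fun _ => b)) (hq : q ∈ pts T (fun _ => b))
    (hp' : p' ∈ pts T (fun _ => b)) (hq' : q' ∈ pts T (fun _ => b)) (h : p.1 ≠ q.1)
    (h' : p'.1 ≠ q'.1) :
    ((cm J (pts T (fun _ => b)) Sigma.fst).filter fun φ => φ v = p ∧ φ v' = q).card ≤
      ((cm J (pts T (fun _ => b)) Sigma.fst).filter fun φ => φ v = p' ∧ φ v' = q').card := by
  rw [DiffP_mem] at hp hq hp' hq'
  refine DiffP_le J (DiffP_perm p.1 q.1 p'.1 q'.1)
    (fun k => if k = p.1 then Equiv.swap p.2 p'.2 else Equiv.swap q.2 q'.2) ?_ ?_ _ _ ?_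
  · intro k hk
    simp only [DiffP_perm, Equiv.trans_apply]
    exact DiffP_swap_mem (S := fun k => k ∈ T)
      (DiffP_swap_mem (S := fun k => k ∈ T) hp.1 hp'.1 hq.1) hq'.1
      (DiffP_swap_mem (S := fun k => k ∈ T) hp.1 hp'.1 hk)
  · intro k _ i hi
    split_ifs
    · exact DiffP_swap_mem (S := fun k => k < b) hp.2 hp'.2 hi
    · exact DiffP_swap_mem (S := fun k => k < b) hq.2 hq'.2 hi
  · rintro φ ⟨h1, h2⟩
    constructor
    · simp only [h1, DiffP_aut, DiffP_perm_left h h', if_true, Equiv.swap_apply_left]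
    · simp only [h2, DiffP_aut, DiffP_perm_right, if_neg h.symm, Equiv.swap_apply_left]

theorem DiffP_pairs_card {κ : Type*} [DecidableEq κ] (T : Finset κ) (b : ℕ) :
    ((((pts T (fun _ => b)) ×ˢ (pts T (fun _ => b))).filter fun x => x.1.1 ≠ x.2.1).card) =
      T.card * b * ((T.card - 1) * b) := by
  rw [Finset.card_filter, Finset.sum_product]
  have h : ∀ p ∈ pts T (fun _ => b), (∑ q ∈ pts T (fun _ => b), if p.1 ≠ q.1 then 1 else 0) =
      (T.card - 1) * b := by
    intro p hp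
    rw [DiffP_mem] at hp
    rw [← Finset.card_filter]
    have h2 : ((pts T (fun _ => b)).filter fun q => p.1 ≠ q.1) =
        pts (T.erase p.1) (fun _ => b) := by
      ext q
      rw [Finset.mem_filter, DiffP_mem, DiffP_mem, Finset.mem_erase]
      constructor
      · rintro ⟨⟨h3, h4⟩, h5⟩
        exact ⟨⟨h5.symm, h3⟩, h4⟩
      · rintro ⟨⟨h5, h3⟩, h4⟩
        exact ⟨⟨h3, h4⟩, h5.symm⟩
    rw [h2, DiffP_card, Finset.card_erase_of_mem hp.1]
  rw [Finset.sum_congr rfl h, Finset.sum_const, DiffP_card, smul_eq_mul]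

/-- every pair of points in different classes is in the same number of copies -/
theorem fJ_pair {κ : Type*} [DecidableEq κ] {T : Finset κ} {R b : ℕ} (hT : T.card = R) {v v' : ι}
    (hv : J.Adj v v') {p q : Σ _ : κ, ℕ} (hp : p ∈ pts T (fun _ => b))
    (hq : q ∈ pts T (fun _ => b)) (hpq : p.1 ≠ q.1) :
    ((((cm J (pts T (fun _ => b)) Sigma.fst).filter fun φ => φ v = p ∧ φ v' = q).card : ℕ) : ℝ) *
      ((R : ℝ) * (R - 1) * (b : ℝ) ^ 2) = fJ J T (fun _ => b) := by
  have h1 : fJ J T (fun _ => b) =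
      ∑ x ∈ ((pts T (fun _ => b)) ×ˢ (pts T (fun _ => b))).filter fun x => x.1.1 ≠ x.2.1,
      ((cm J (pts T (fun _ => b)) Sigma.fst).filter fun φ => (φ v, φ v') = x).card := by
    rw [fJ]
    refine Finset.card_eq_sum_card_fiberwise 
      (f := fun φ : ι → Σ _ : κ, ℕ => (φ v, φ v')) ?_
    intro φ hφ
    have hφ' := Finset.mem_coe.1 hφ
    rw [cm, Finset.mem_filter, Fintype.mem_piFinset] at hφ'
    refine Finset.mem_coe.2 (Finset.mem_filter.2 ⟨Finset.mem_product.2 ⟨hφ'.1 v, hφ'.1 v'⟩, ?_⟩)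
    exact hφ'.2.2 v v' hv
  have h2 : ∀ x ∈ ((pts T (fun _ => b)) ×ˢ (pts T (fun _ => b))).filter fun x => x.1.1 ≠ x.2.1,
      ((cm J (pts T (fun _ => b)) Sigma.fst).filter fun φ => (φ v, φ v') = x).card =
      ((cm J (pts T (fun _ => b)) Sigma.fst).filter fun φ => φ v = p ∧ φ v' = q).card := by
    rintro ⟨p', q'⟩ hx
    rw [Finset.mem_filter, Finset.mem_product] at hx
    have h3 : ((cm J (pts T (fun _ => b)) Sigma.fst).filter fun φ => (φ v, φ v') = (p', q')) =
        ((cm J (pts T (fun _ => b)) Sigma.fst).filter fun φ => φ v = p' ∧ φ v' = q') := by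
      refine Finset.filter_congr fun φ _ => ?_
      rw [Prod.mk.injEq]
    rw [h3]
    exact le_antisymm (DiffP_pair_le J v v' hx.1.1 hx.1.2 hp hq hx.2 hpq)
      (DiffP_pair_le J v v' hp hq hx.1.1 hx.1.2 hpq hx.2)
  rw [Finset.sum_congr rfl h2, Finset.sum_const, DiffP_pairs_card, hT] at h1
  have hR : 1 ≤ R := by
    rw [← hT]
    rw [DiffP_mem] at hp
    exact Finset.card_pos.2 ⟨_, hp.1⟩
  rw [h1]
  push_cast [smul_eq_mul, Nat.cast_sub hR]
  ring

end H57GH
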