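import Pool.Agent.H57.GH.Diff
import Pool.Agent.H57.GH.DiffP

/-!
The first difference near constant class sizes.
-/

namespace H57GH

open Finset H57LC H57LT

set_option linter.unusedSectionVars false

variable {ι : Type*} [Fintype ι] [DecidableEq ι] (J : SimpleGraph ι) [DecidableRel J.Adj]

private theorem mem_cmDE {V κ : Type*} [DecidableEq V] [DecidableEq κ] {P : Finset V} {π : V → κ}
    {φ : ι → V} :
    φ ∈ cm J P π ↔ (∀ i, φ i ∈ P) ∧ Function.Injective φ ∧
      ∀ i j, J.Adj i j → π (φ i) ≠ π (φ j) := by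
  simp [cm, Fintype.mem_piFinset]

private theorem mem_ptsDE {κ : Type*} [DecidableEq κ] {T : Finset κ} {a : κ → ℕ}
    {p : Σ _ : κ, ℕ} : p ∈ pts T a ↔ p.1 ∈ T ∧ p.2 < a p.1 := by
  simp [pts]

private theorem card_ptsDE {κ : Type*} [DecidableEq κ] (T : Finset κ) (a : κ → ℕ) :
    (pts T a).card = ∑ k ∈ T, a k := by
  simp [pts, Finset.card_sigma]

/-- the number of copies through a point if all classes have the same size -/
private theorem card_hitD (R m : ℕ) (hR : 1 ≤ R) (hm : 1 ≤ m) {κ : Type*} [DecidableEq κ]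
    {T : Finset κ} (hT : T.card = R) {p : Σ _ : κ, ℕ} (hp : p ∈ pts T (fun _ => m)) :
    ((((cm J (pts T (fun _ => m)) Sigma.fst).filter fun φ => ∃ i, φ i = p).card : ℕ) : ℝ) =
      (Fintype.card ι : ℝ) / R * M0 J R m / m := by
  classical
  have h1 : ((cm J (pts T (fun _ => m)) Sigma.fst).filter fun φ => ∃ i, φ i = p).card =
      ∑ v : ι, ((cm J (pts T (fun _ => m)) Sigma.fst).filter fun φ => φ v = p).card := by
    rw [← card_biUnion]
    · congr 1
      ext φ
      simp only [mem_filter, mem_biUnion, mem_univ, true_and]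
      constructor
      · rintro ⟨h2, i, hi⟩
        exact ⟨i, h2, hi⟩
      · rintro ⟨i, h2, hi⟩
        exact ⟨h2, i, hi⟩
    · intro i _ j _ hij
      refine disjoint_left.2 ?_
      intro φ h2 h3
      rw [mem_filter, mem_cmDE] at h2 h3
      exact hij (h2.1.2.1 (h2.2.trans h3.2.symm))
  have hR0 : (R : ℝ) ≠ 0 := by
    have : (0 : ℝ) < R := by exact_mod_cast hR
    exact this.ne'
  have hm0 : (m : ℝ) ≠ 0 := by
    have : (0 : ℝ) < m := by exact_mod_cast hm
    exact this.ne'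
  rw [h1]
  push_cast
  have h2 : ∀ v : ι, ((((cm J (pts T (fun _ => m)) Sigma.fst).filter fun φ => φ v = p).card : ℕ) : ℝ)
      = M0 J R m / (R * m) := by
    intro v
    rw [eq_div_iff (mul_ne_zero hR0 hm0), fJ_point J hT v hp, fJ_const J hT m]
  rw [sum_congr rfl fun v _ => h2 v, sum_const, card_univ, nsmul_eq_mul]
  field_simp

/-- the first difference near constant class sizes -/
theorem D_est (hcs : 2 ≤ Fintype.card ι) (R : ℕ) (hR : 1 ≤ R) : ∃ C : ℝ, 0 < C ∧
    ∀ m : ℕ, 1 ≤ m → ∀ (κ : Type) [DecidableEq κ] (T : Finset κ), T.card = R → ∀ k ∈ T,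
      ∀ (a : κ → ℕ) (x : ℝ), 0 ≤ x → x ≤ m → (∀ l ∈ T, |(a l : ℝ) - m| ≤ x) →
      |(fJ J T (up a k) : ℝ) - fJ J T a - (Fintype.card ι : ℝ) / R * M0 J R m / m| ≤
        C * (m : ℝ) ^ (Fintype.card ι - 2) * (x + 1) := by
  have hR0 : (0 : ℝ) < R := by exact_mod_cast hR
  have hs0 : (0 : ℝ) < Fintype.card ι := by
    have : 0 < Fintype.card ι := by omega
    exact_mod_cast this
  refine ⟨(Fintype.card ι : ℝ) ^ 2 * (2 * R) ^ (Fintype.card ι - 2) * R, by positivity, ?_⟩
  intro m hm κ _ T hT k hk a x hx hxm ha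
  have hm0 : (1 : ℝ) ≤ m := by exact_mod_cast hm
  -- the comparison vector
  set am : κ → ℕ := fun l => if l = k then m - 1 else m with ham
  have hup : up am k = fun _ => m := by
    funext l
    unfold up
    by_cases hlk : l = k
    · subst hlk
      simp only [ham, Function.update_self, if_true]
      omega
    · rw [Function.update_of_ne hlk]
      simp [ham, hlk]
  have hamk : am k = m - 1 := by simp [ham]
  have hD : (fJ J T (up am k) : ℝ) - fJ J T am = (Fintype.card ι : ℝ) / R * M0 J R m / m := by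
    have h1 := fJ_up J (a := am) hk
    rw [hup, hamk] at h1
    have hp : (⟨k, m - 1⟩ : Σ _ : κ, ℕ) ∈ pts T (fun _ => m) := by
      rw [mem_ptsDE]
      exact ⟨hk, by simp only; omega⟩
    have h2 := card_hitD J R m hR hm hT hp
    rw [hup, ← h2, h1]
    push_cast
    ring
  set c : κ → ℕ := fun l => max (a l) (am l) with hc
  have h1 := D_lip J hcs (T := T) (a := a) (b := c) (fun l _ => le_max_left _ _) hk
  have h2 := D_lip J hcs (T := T) (a := am) (b := c) (fun l _ => le_max_right _ _) hk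
  have ham1 : ∀ l, (m : ℝ) - 1 ≤ am l ∧ (am l : ℝ) ≤ m := by
    intro l
    by_cases hlk : l = k
    · have h3 : am l = m - 1 := by simp [ham, hlk]
      rw [h3]
      push_cast [Nat.cast_sub hm]
      constructor <;> linarith
    · have h3 : am l = m := by simp [ham, hlk]
      rw [h3]
      constructor <;> linarith
  have hcl : ∀ l, (c l : ℝ) = max (a l : ℝ) (am l) := by
    intro l
    simp [hc]
  have hd1 : ∀ l ∈ T, (c l : ℝ) - a l ≤ x + 1 := by
    intro l hl
    rw [hcl]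
    have h3 := abs_le.1 (ha l hl)
    have h4 := ham1 l
    rcases max_cases (a l : ℝ) (am l) with h5 | h5
    · rw [h5.1]
      linarith
    · rw [h5.1]
      linarith
  have hd2 : ∀ l ∈ T, (c l : ℝ) - am l ≤ x + 1 := by
    intro l hl
    rw [hcl]
    have h3 := abs_le.1 (ha l hl)
    have h4 := ham1 l
    rcases max_cases (a l : ℝ) (am l) with h5 | h5
    · rw [h5.1]
      linarith
    · rw [h5.1]
      linarith
  have hd3 : ∀ l ∈ T, (c l : ℝ) ≤ 2 * m := by
    intro l hl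
    rw [hcl]
    have h3 := abs_le.1 (ha l hl)
    have h4 := ham1 l
    exact max_le (by linarith) (by linarith)
  have hS1 : ∑ j ∈ T, (c j : ℝ) - ∑ j ∈ T, (a j : ℝ) ≤ R * (x + 1) := by
    rw [← sum_sub_distrib]
    refine (sum_le_card_nsmul T _ (x + 1) hd1).trans (le_of_eq ?_)
    rw [hT, nsmul_eq_mul]
  have hS2 : ∑ j ∈ T, (c j : ℝ) - ∑ j ∈ T, (am j : ℝ) ≤ R * (x + 1) := by
    rw [← sum_sub_distrib]
    refine (sum_le_card_nsmul T _ (x + 1) hd2).trans (le_of_eq ?_)
    rw [hT, nsmul_eq_mul]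
  have hS3 : ∑ j ∈ T, (c j : ℝ) ≤ 2 * R * m := by
    refine (sum_le_card_nsmul T _ (2 * (m : ℝ)) hd3).trans (le_of_eq ?_)
    rw [hT, nsmul_eq_mul]
    ring
  have hS0 : 0 ≤ ∑ j ∈ T, (c j : ℝ) := sum_nonneg fun j _ => Nat.cast_nonneg _
  have hP : (∑ j ∈ T, (c j : ℝ)) ^ (Fintype.card ι - 2) ≤
      (2 * R) ^ (Fintype.card ι - 2) * (m : ℝ) ^ (Fintype.card ι - 2) := by
    rw [← mul_pow]
    exact pow_le_pow_left₀ hS0 hS3 _
  have hbound : ∀ t : ℝ, 0 ≤ t → t ≤ R * (x + 1) →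
      (Fintype.card ι : ℝ) ^ 2 * (∑ j ∈ T, (c j : ℝ)) ^ (Fintype.card ι - 2) * t ≤
      (Fintype.card ι : ℝ) ^ 2 * (2 * R) ^ (Fintype.card ι - 2) * R *
        (m : ℝ) ^ (Fintype.card ι - 2) * (x + 1) := by
    intro t ht0 ht
    calc (Fintype.card ι : ℝ) ^ 2 * (∑ j ∈ T, (c j : ℝ)) ^ (Fintype.card ι - 2) * t
        ≤ (Fintype.card ι : ℝ) ^ 2 *
          ((2 * R) ^ (Fintype.card ι - 2) * (m : ℝ) ^ (Fintype.card ι - 2)) * (R * (x + 1)) := by
          gcongr
      _ = _ := by ring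
  have t1 : 0 ≤ ∑ j ∈ T, (c j : ℝ) - ∑ j ∈ T, (a j : ℝ) := by
    rw [sub_nonneg]
    exact sum_le_sum fun l _ => by rw [hcl]; exact le_max_left _ _
  have t2 : 0 ≤ ∑ j ∈ T, (c j : ℝ) - ∑ j ∈ T, (am j : ℝ) := by
    rw [sub_nonneg]
    exact sum_le_sum fun l _ => by rw [hcl]; exact le_max_right _ _
  have b1 := hbound _ t1 hS1
  have b2 := hbound _ t2 hS2
  rw [← hD, abs_le]
  constructor
  · linarith [h1.1, h1.2, h2.1, h2.2]
  · linarith [h1.1, h1.2, h2.1, h2.2]

end H57GH
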