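import Pool.Agent.H57.GH.Defs

/-!
Sequential choice.
-/

namespace H57GH

open Finset H57LC H57LT

set_option linter.unusedSectionVars false

/-- the case of the empty index set -/
theorem Seq_zero {V : Type*} [DecidableEq V] (P : Finset V)
    (bad : (i : ℕ) → (Fin 0 → V) → Finset V) :
    1 ≤ ((Fintype.piFinset fun _ : Fin 0 => P).filter
      fun φ => ∀ i : Fin 0, φ i ∉ bad i φ).card := by
  apply Finset.card_pos.mpr
  refine ⟨fun i => i.elim0, ?_⟩
  rw [Finset.mem_filter]
  refine ⟨?_, fun i => i.elim0⟩
  rw [Fintype.mem_piFinset]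
  exact fun i => i.elim0

/-- snoc of two maps agrees below the last index -/
theorem Seq_snoc_agree {V : Type*} {k : ℕ} (φ ψ : Fin k → V) (v w : V) (i : Fin (k + 1))
    (h : ∀ j : Fin k, j.castSucc < i → φ j = ψ j) :
    ∀ j : Fin (k + 1), j < i →
      (Fin.snoc φ v : Fin (k + 1) → V) j = (Fin.snoc ψ w : Fin (k + 1) → V) j := by
  intro j hj
  induction j using Fin.lastCases with
  | last => exact absurd hj (not_lt.mpr (Fin.le_last i))
  | cast j => rw [Fin.snoc_castSucc, Fin.snoc_castSucc]; exact h j hj

/-- a lower bound for the number of maps that avoid few bad values at every step -/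
theorem seq_count {V : Type*} [DecidableEq V] (P : Finset V) (k b : ℕ)
    (bad : (i : ℕ) → (Fin k → V) → Finset V)
    (hbad : ∀ (i : Fin k) (φ : Fin k → V), (bad i φ).card ≤ b)
    (hdep : ∀ (i : Fin k) (φ ψ : Fin k → V), (∀ j, j < i → φ j = ψ j) → bad i φ = bad i ψ) :
    (P.card - b) ^ k ≤
      ((Fintype.piFinset fun _ : Fin k => P).filter fun φ => ∀ i : Fin k, φ i ∉ bad i φ).card := by
  induction k with
  | zero => simp
  | succ k ih =>
    rcases P.eq_empty_or_nonempty with hP | ⟨v0, hv0⟩
    · subst hP
      simp
    · have ih' := ih (fun i φ => bad i (Fin.snoc φ v0 : Fin (k + 1) → V))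
        (fun i φ => hbad i.castSucc _)
        (fun i φ ψ h => hdep i.castSucc _ _
          (Seq_snoc_agree φ ψ v0 v0 i.castSucc
            (fun j hj => h j (Fin.castSucc_lt_castSucc_iff.mp hj))))
      set A : Finset (Fin k → V) := (Fintype.piFinset fun _ : Fin k => P).filter
        fun φ => ∀ i : Fin k, φ i ∉ bad i (Fin.snoc φ v0 : Fin (k + 1) → V) with hA
      have h1 : (P.card - b) ^ (k + 1) ≤
          (A.sigma fun φ => P \ bad k (Fin.snoc φ v0 : Fin (k + 1) → V)).card := by
        rw [Finset.card_sigma, pow_succ]
        calc (P.card - b) ^ k * (P.card - b) ≤ A.card * (P.card - b) :=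
              Nat.mul_le_mul_right _ ih'
          _ = ∑ _φ ∈ A, (P.card - b) := by rw [Finset.sum_const, smul_eq_mul]
          _ ≤ ∑ φ ∈ A, (P \ bad k (Fin.snoc φ v0 : Fin (k + 1) → V)).card := by
              apply Finset.sum_le_sum
              intro φ _
              have h2 : (bad k (Fin.snoc φ v0 : Fin (k + 1) → V)).card ≤ b := by
                simpa using hbad (Fin.last k) (Fin.snoc φ v0 : Fin (k + 1) → V)
              exact (Nat.sub_le_sub_left h2 _).trans (Finset.le_card_sdiff _ _)
      refine h1.trans (Finset.card_le_card_of_injOn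
        (fun p => (Fin.snoc p.1 p.2 : Fin (k + 1) → V)) ?_ ?_)
      · rintro ⟨φ, v⟩ hp
        have hp' := Finset.mem_sigma.mp (Finset.mem_coe.mp hp)
        have hφ := Finset.mem_filter.mp hp'.1
        have hv := Finset.mem_sdiff.mp hp'.2
        have hφ1 := Fintype.mem_piFinset.mp hφ.1
        apply Finset.mem_coe.mpr
        apply Finset.mem_filter.mpr
        constructor
        · apply Fintype.mem_piFinset.mpr
          intro j
          induction j using Fin.lastCases with
          | last => simpa using hv.1
          | cast j => simpa using hφ1 j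
        · intro i
          have key : bad (i : ℕ) (Fin.snoc φ v : Fin (k + 1) → V) =
              bad (i : ℕ) (Fin.snoc φ v0 : Fin (k + 1) → V) :=
            hdep i _ _ (Seq_snoc_agree φ φ v v0 i (fun j _ => rfl))
          show (Fin.snoc φ v : Fin (k + 1) → V) i ∉ bad (i : ℕ) (Fin.snoc φ v : Fin (k + 1) → V)
          rw [key]
          induction i using Fin.lastCases with
          | last => rw [Fin.snoc_last]; simpa using hv.2
          | cast j => rw [Fin.snoc_castSucc]; simpa using hφ.2 j
      · rintro ⟨φ, v⟩ _ ⟨ψ, w⟩ _ h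
        have h' : (Fin.snoc φ v : Fin (k + 1) → V) = (Fin.snoc ψ w : Fin (k + 1) → V) := h
        have e1 : φ = ψ := by
          funext j
          have := congrFun h' j.castSucc
          rwa [Fin.snoc_castSucc, Fin.snoc_castSucc] at this
        have e2 : v = w := by
          have := congrFun h' (Fin.last k)
          rwa [Fin.snoc_last, Fin.snoc_last] at this
        subst e1
        subst e2
        rfl

end H57GH
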