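import Pool.Agent.H57.GH.Diff
import Pool.Agent.H57.GH.Seq

/-!
Lower bounds for `fJ` and its differences when all classes are small compared to the number `n` of
points: all numbers of labelled copies with some prescribed points are `(1 ± C θ) n ^ k`.
-/

namespace H57GH

open Finset H57LC H57LT

set_option linter.unusedSectionVars false

variable {ι : Type*} [Fintype ι] [DecidableEq ι] (J : SimpleGraph ι) [DecidableRel J.Adj]

private theorem SDiff_mem_cm {V κ : Type*} [DecidableEq V] [DecidableEq κ] {P : Finset V}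
    {π : V → κ} {φ : ι → V} :
    φ ∈ cm J P π ↔ (∀ i, φ i ∈ P) ∧ Function.Injective φ ∧
      ∀ i j, J.Adj i j → π (φ i) ≠ π (φ j) := by
  simp [cm, Fintype.mem_piFinset]

private theorem SDiff_mem_pts {κ : Type*} [DecidableEq κ] {T : Finset κ} {a : κ → ℕ}
    {p : Σ _ : κ, ℕ} : p ∈ pts T a ↔ p.1 ∈ T ∧ p.2 < a p.1 := by
  simp [pts]

private theorem SDiff_card_pts {κ : Type*} [DecidableEq κ] (T : Finset κ) (a : κ → ℕ) :
    (pts T a).card = ∑ k ∈ T, a k := by
  simp [pts, Finset.card_sigma]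

private theorem SDiff_pts_up {κ : Type*} [DecidableEq κ] {T : Finset κ} {a : κ → ℕ} {k : κ}
    (hk : k ∈ T) : pts T (up a k) = insert (⟨k, a k⟩ : Σ _ : κ, ℕ) (pts T a) := by
  ext ⟨c, n⟩
  rw [mem_insert, SDiff_mem_pts, SDiff_mem_pts]
  by_cases hc : c = k
  · subst hc
    simp only [up, Function.update_self, hk, true_and, Sigma.mk.injEq, heq_eq_eq]
    omega
  · simp only [up, Function.update_of_ne hc, Sigma.mk.injEq, hc, false_and, false_or]

/-- maps with prescribed values at the points of `I` -/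
private theorem SDiff_fix {V : Type*} [DecidableEq V] (P : Finset V) (I : Finset ι) (f : ι → V)
    (A : Finset (ι → V)) (hA : ∀ φ ∈ A, (∀ i ∈ I, φ i = f i) ∧ ∀ i, i ∉ I → φ i ∈ P) :
    A.card ≤ P.card ^ (Fintype.card ι - I.card) := by
  classical
  have h1 : A.card ≤ (Fintype.piFinset fun i : ι => if i ∈ I then ({f i} : Finset V) else P).card :=
    card_le_card fun φ hφ => by
      rw [Fintype.mem_piFinset]
      intro i
      by_cases hi : i ∈ I
      · rw [if_pos hi, mem_singleton]
        exact (hA φ hφ).1 i hi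
      · rw [if_neg hi]
        exact (hA φ hφ).2 i hi
  refine h1.trans (le_of_eq ?_)
  rw [Fintype.card_piFinset]
  have h2 : ∀ i : ι, (if i ∈ I then ({f i} : Finset V) else P).card =
      if i ∈ I then 1 else P.card := by
    intro i
    by_cases hi : i ∈ I
    · simp [hi]
    · simp [hi]
  simp_rw [h2]
  rw [prod_ite]
  simp only [prod_const_one, one_mul, prod_const]
  congr 1
  rw [filter_not, card_sdiff, filter_mem_eq_inter, univ_inter, inter_univ, card_univ]

/-- sequential choice of points in different classes outside the classes `B` -/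
private theorem SDiff_seq {V κ : Type*} [DecidableEq V] [DecidableEq κ] (P : Finset V) (π : V → κ)
    (B : Finset κ) (b k : ℕ) (hb : ∀ c, (P.filter fun x => π x = c).card ≤ b) :
    (P.card - (B.card + k) * b) ^ k ≤
      ((Fintype.piFinset fun _ : Fin k => P).filter fun ψ =>
        (∀ i, π (ψ i) ∉ B) ∧ Function.Injective fun i => π (ψ i)).card := by
  classical
  have h := seq_count P k ((B.card + k) * b)
    (fun i ψ => P.filter fun x => π x ∈ B ∨ ∃ j : Fin k, j.val < i ∧ π x = π (ψ j))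
    (fun i ψ => by
      have h1 : (P.filter fun x => π x ∈ B ∨ ∃ j : Fin k, j.val < i.val ∧ π x = π (ψ j)) ⊆
          (B ∪ (univ : Finset (Fin k)).image fun j => π (ψ j)).biUnion
            fun c => P.filter fun x => π x = c := by
        intro x hx
        rw [mem_filter] at hx
        obtain ⟨hx, h2 | ⟨j, -, h2⟩⟩ := hx
        · exact mem_biUnion.2 ⟨π x, mem_union_left _ h2, mem_filter.2 ⟨hx, rfl⟩⟩
        · exact mem_biUnion.2 ⟨π x, mem_union_right _ (mem_image.2 ⟨j, mem_univ _, h2.symm⟩),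
            mem_filter.2 ⟨hx, rfl⟩⟩
      refine (card_le_card h1).trans (card_biUnion_le.trans ?_)
      refine (sum_le_card_nsmul _ _ b fun c _ => hb c).trans ?_
      rw [smul_eq_mul]
      refine Nat.mul_le_mul_right _ ?_
      refine (card_union_le _ _).trans (Nat.add_le_add_left ?_ _)
      exact card_image_le.trans (by rw [card_univ, Fintype.card_fin]))
    (fun i φ ψ h => by
      refine filter_congr fun x _ => ?_
      constructor
      · rintro (h2 | ⟨j, h2, h3⟩)
        · exact Or.inl h2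
        · exact Or.inr ⟨j, h2, by rw [h3, h j h2]⟩
      · rintro (h2 | ⟨j, h2, h3⟩)
        · exact Or.inl h2
        · exact Or.inr ⟨j, h2, by rw [h3, h j h2]⟩)
  refine h.trans (card_le_card ?_)
  intro ψ hψ
  rw [mem_filter] at hψ ⊢
  obtain ⟨h1, h2⟩ := hψ
  have h3 := Fintype.mem_piFinset.1 h1
  refine ⟨h1, fun i hi => h2 i (mem_filter.2 ⟨h3 i, Or.inl hi⟩), ?_⟩
  intro i j hij
  rcases lt_trichotomy i j with hlt | heq | hgt
  · exact absurd (mem_filter.2 ⟨h3 j, Or.inr ⟨i, hlt, hij.symm⟩⟩) (h2 j)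
  · exact heq
  · exact absurd (mem_filter.2 ⟨h3 i, Or.inr ⟨j, hgt, hij⟩⟩) (h2 i)

/-- many copies with prescribed values at the points of `I` -/
private theorem SDiff_ext {V κ : Type*} [DecidableEq V] [DecidableEq κ] {P Q : Finset V}
    {π : V → κ} (hPQ : P ⊆ Q) (I : Finset ι) (f : ι → V) (B : Finset κ) (b : ℕ)
    (hb : ∀ c, (P.filter fun x => π x = c).card ≤ b) (hfQ : ∀ i ∈ I, f i ∈ Q)
    (hfB : ∀ i ∈ I, π (f i) ∈ B) (hinj : ∀ i ∈ I, ∀ j ∈ I, f i = f j → i = j)
    (hadj : ∀ i ∈ I, ∀ j ∈ I, J.Adj i j → π (f i) ≠ π (f j)) :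
    (P.card - (B.card + (Fintype.card ι - I.card)) * b) ^ (Fintype.card ι - I.card) ≤
      ((cm J Q π).filter fun φ => ∀ i ∈ I, φ i = f i).card := by
  classical
  refine (SDiff_seq P π B b (Fintype.card ι - I.card) hb).trans ?_
  have hc : Fintype.card {i // i ∉ I} = Fintype.card ι - I.card := by
    rw [Fintype.card_subtype, filter_not, card_sdiff, filter_mem_eq_inter, univ_inter, inter_univ,
      card_univ]
  let e : {i // i ∉ I} ≃ Fin (Fintype.card ι - I.card) := Fintype.equivFinOfCardEq hc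
  refine card_le_card_of_injOn
    (fun ψ i => if h : i ∈ I then f i else ψ (e ⟨i, h⟩)) ?_ ?_
  · intro ψ hψ
    have hψ' := mem_filter.1 (mem_coe.1 hψ)
    obtain ⟨h1, h2, h3⟩ := hψ'
    rw [Fintype.mem_piFinset] at h1
    refine mem_coe.2 (mem_filter.2 ⟨(SDiff_mem_cm J).2 ⟨?_, ?_, ?_⟩, ?_⟩)
    · intro i
      by_cases hi : i ∈ I
      · simp only [dif_pos hi]
        exact hfQ i hi
      · simp only [dif_neg hi]
        exact hPQ (h1 _)
    · intro i j hij
      by_cases hi : i ∈ I
      · by_cases hj : j ∈ I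
        · simp only [dif_pos hi, dif_pos hj] at hij
          exact hinj i hi j hj hij
        · simp only [dif_pos hi, dif_neg hj] at hij
          exact absurd (hij ▸ hfB i hi) (h2 _)
      · by_cases hj : j ∈ I
        · simp only [dif_neg hi, dif_pos hj] at hij
          exact absurd (hij.symm ▸ hfB j hj) (h2 _)
        · simp only [dif_neg hi, dif_neg hj] at hij
          have h4 := e.injective (h3 (congrArg π hij))
          exact congrArg Subtype.val h4
    · intro i j hij
      by_cases hi : i ∈ I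
      · by_cases hj : j ∈ I
        · simp only [dif_pos hi, dif_pos hj]
          exact hadj i hi j hj hij
        · simp only [dif_pos hi, dif_neg hj]
          intro h4
          exact h2 _ (h4 ▸ hfB i hi)
      · by_cases hj : j ∈ I
        · simp only [dif_neg hi, dif_pos hj]
          intro h4
          exact h2 _ (h4.symm ▸ hfB j hj)
        · simp only [dif_neg hi, dif_neg hj]
          intro h4
          have h5 := e.injective (h3 h4)
          exact hij.ne (congrArg Subtype.val h5)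
    · intro i hi
      simp only [dif_pos hi]
  · intro ψ _ ψ' _ h
    funext t
    have h1 := congrFun h (e.symm t).1
    have h2 : (e.symm t).1 ∉ I := (e.symm t).2
    simp only [dif_neg h2] at h1
    have h3 : (⟨(e.symm t).1, h2⟩ : {i // i ∉ I}) = e.symm t := rfl
    rw [h3, Equiv.apply_symm_apply] at h1
    exact h1

private theorem SDiff_pow {n b s k : ℕ} {θ : ℝ} (h0 : 0 < θ) (hb : (b : ℝ) ≤ θ * n) (hk : k ≤ s)
    (hs : (s : ℝ) * θ ≤ 1) :
    (1 - (s : ℝ) ^ 2 * θ) * (n : ℝ) ^ k ≤ (((n - s * b) ^ k : ℕ) : ℝ) := by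
  have h1 : (n : ℝ) * (1 - s * θ) ≤ ((n - s * b : ℕ) : ℝ) := by
    have h2 : (n : ℝ) ≤ ((n - s * b : ℕ) : ℝ) + (s : ℝ) * b := by
      have : n ≤ (n - s * b) + s * b := by omega
      exact_mod_cast this
    have h3 : (s : ℝ) * b ≤ s * (θ * n) := mul_le_mul_of_nonneg_left hb (Nat.cast_nonneg _)
    nlinarith only [h2, h3]
  have h2 : 0 ≤ 1 - (s : ℝ) * θ := by linarith
  have h3 : ((n : ℝ) * (1 - s * θ)) ^ k ≤ ((n - s * b : ℕ) : ℝ) ^ k :=
    pow_le_pow_left₀ (mul_nonneg (Nat.cast_nonneg _) h2) h1 _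
  have h4 : 1 + (k : ℝ) * (-(s * θ)) ≤ (1 + -(s * θ)) ^ k :=
    one_add_mul_le_pow (by linarith) k
  have h5 : 1 - (s : ℝ) ^ 2 * θ ≤ (1 - s * θ) ^ k := by
    have h6 : (k : ℝ) * (s * θ) ≤ s * (s * θ) :=
      mul_le_mul_of_nonneg_right (by exact_mod_cast hk) (by positivity)
    have h7 : (1 + -((s : ℝ) * θ)) = 1 - s * θ := by ring
    rw [h7] at h4
    nlinarith only [h4, h6]
  rw [mul_pow] at h3
  push_cast
  calc (1 - (s : ℝ) ^ 2 * θ) * (n : ℝ) ^ k ≤ (1 - s * θ) ^ k * (n : ℝ) ^ k :=
        mul_le_mul_of_nonneg_right h5 (by positivity)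
    _ = (n : ℝ) ^ k * (1 - s * θ) ^ k := mul_comm _ _
    _ ≤ _ := h3

private theorem SDiff_class {κ : Type*} [DecidableEq κ] {T : Finset κ} {a : κ → ℕ} {b : ℕ}
    (h : ∀ l ∈ T, a l ≤ b) (c : κ) : ((pts T a).filter fun x => x.1 = c).card ≤ b := by
  by_cases hc : c ∈ T
  · refine le_trans ?_ (h c hc)
    have h1 : ((pts T a).filter fun x => x.1 = c).card ≤ (range (a c)).card := by
      refine card_le_card_of_injOn (fun x => x.2) ?_ ?_
      · intro x hx
        have hx' := mem_filter.1 (mem_coe.1 hx)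
        have h2 := (SDiff_mem_pts.1 hx'.1).2
        rw [hx'.2] at h2
        exact mem_coe.2 (mem_range.2 h2)
      · rintro ⟨x1, x2⟩ hx ⟨y1, y2⟩ hy hxy
        have hx' := (mem_filter.1 (mem_coe.1 hx)).2
        have hy' := (mem_filter.1 (mem_coe.1 hy)).2
        simp only at hx' hy' hxy
        subst hx' hy' hxy
        rfl
    rwa [card_range] at h1
  · rw [card_eq_zero.2]
    · exact Nat.zero_le _
    · refine filter_eq_empty_iff.2 fun x hx h1 => hc ?_
      rw [← h1]
      exact (SDiff_mem_pts.1 hx).1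

private theorem SDiff_floor {κ : Type*} [DecidableEq κ] {T : Finset κ} {a : κ → ℕ} {θ : ℝ}
    (h0 : 0 < θ) (h : ∀ l ∈ T, (a l : ℝ) ≤ θ * ∑ j ∈ T, (a j : ℝ)) :
    ∃ b : ℕ, (b : ℝ) ≤ θ * ((∑ j ∈ T, a j : ℕ) : ℝ) ∧ ∀ l ∈ T, a l ≤ b := by
  refine ⟨⌊θ * ((∑ j ∈ T, a j : ℕ) : ℝ)⌋₊, Nat.floor_le (by positivity), fun l hl => ?_⟩
  refine Nat.le_floor ?_
  have := h l hl
  push_cast
  exact this

theorem fJ_lower : ∃ C : ℝ, 0 < C ∧ ∀ (θ : ℝ), 0 < θ → ∀ (κ : Type) [DecidableEq κ]
    (T : Finset κ) (a : κ → ℕ), (∀ l ∈ T, (a l : ℝ) ≤ θ * ∑ j ∈ T, (a j : ℝ)) →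
    1 ≤ θ * ∑ j ∈ T, (a j : ℝ) →
    (1 - C * θ) * (∑ j ∈ T, (a j : ℝ)) ^ Fintype.card ι ≤ (fJ J T a : ℝ) := by
  classical
  refine ⟨(Fintype.card ι : ℝ) ^ 2 + 1, by positivity, ?_⟩
  intro θ h0 κ _ T a ha h1
  have hn : (0 : ℝ) ≤ (∑ j ∈ T, (a j : ℝ)) ^ Fintype.card ι := by positivity
  have hT : ∃ k, k ∈ T := by
    by_contra h
    push Not at h
    rw [sum_eq_zero fun j hj => absurd hj (h j)] at h1
    linarith
  obtain ⟨k, hk⟩ := hT
  by_cases hsθ : (Fintype.card ι : ℝ) * θ ≤ 1
  · obtain ⟨b, hb, hab⟩ := SDiff_floor h0 ha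
    have h2 := SDiff_ext J (subset_refl (pts T a)) (∅ : Finset ι)
      (fun _ => (⟨k, 0⟩ : Σ _ : κ, ℕ)) (∅ : Finset κ) b (π := Sigma.fst) (SDiff_class hab)
      (by simp) (by simp) (by simp) (by simp)
    rw [card_empty, card_empty, Nat.sub_zero, zero_add, SDiff_card_pts] at h2
    have h3 : ((cm J (pts T a) Sigma.fst).filter fun φ => ∀ i ∈ (∅ : Finset ι),
        φ i = (⟨k, 0⟩ : Σ _ : κ, ℕ)).card ≤ fJ J T a := card_filter_le _ _
    have h4 := SDiff_pow (k := Fintype.card ι) h0 hb le_rfl hsθ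
    have h5 : (((∑ j ∈ T, a j - Fintype.card ι * b) ^ Fintype.card ι : ℕ) : ℝ) ≤ fJ J T a := by
      exact_mod_cast h2.trans h3
    push_cast at h4 h5
    have h6 : (1 - ((Fintype.card ι : ℝ) ^ 2 + 1) * θ) *
        (∑ j ∈ T, (a j : ℝ)) ^ Fintype.card ι ≤
        (1 - (Fintype.card ι : ℝ) ^ 2 * θ) * (∑ j ∈ T, (a j : ℝ)) ^ Fintype.card ι :=
      mul_le_mul_of_nonneg_right (by nlinarith only [h0]) hn
    linarith only [h4, h5, h6]
  · push Not at hsθ
    have hs : (0 : ℝ) ≤ Fintype.card ι := Nat.cast_nonneg _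
    have h2 : (1 : ℝ) ≤ Fintype.card ι := by
      rcases Nat.eq_zero_or_pos (Fintype.card ι) with h | h
      · rw [h] at hsθ
        simp at hsθ
        linarith
      · exact_mod_cast h
    have h3 : 1 - ((Fintype.card ι : ℝ) ^ 2 + 1) * θ ≤ 0 := by nlinarith
    exact (mul_nonpos_of_nonpos_of_nonneg h3 hn).trans (Nat.cast_nonneg _)

theorem D_lower (hcs : 1 ≤ Fintype.card ι) : ∃ C : ℝ, 0 < C ∧ ∀ (θ : ℝ), 0 < θ →
    ∀ (κ : Type) [DecidableEq κ] (T : Finset κ) (a : κ → ℕ), ∀ k ∈ T,
    (∀ l ∈ T, (a l : ℝ) ≤ θ * ∑ j ∈ T, (a j : ℝ)) → 1 ≤ θ * ∑ j ∈ T, (a j : ℝ) →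
    ((Fintype.card ι : ℝ) - C * θ) * (∑ j ∈ T, (a j : ℝ)) ^ (Fintype.card ι - 1) ≤
      (fJ J T (up a k) : ℝ) - fJ J T a := by
  classical
  refine ⟨(Fintype.card ι : ℝ) ^ 3, by positivity, ?_⟩
  intro θ h0 κ _ T a k hk ha _
  have hn : (0 : ℝ) ≤ (∑ j ∈ T, (a j : ℝ)) ^ (Fintype.card ι - 1) := by positivity
  have hs1 : (1 : ℝ) ≤ Fintype.card ι := by exact_mod_cast hcs
  have e1 := fJ_up J (a := a) hk
  have e2 : (fJ J T (up a k) : ℝ) - fJ J T a =
      (((cm J (pts T (up a k)) Sigma.fst).filter fun φ => ∃ i, φ i = ⟨k, a k⟩).card : ℕ) := by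
    rw [e1]
    push_cast
    ring
  rw [e2]
  by_cases hsθ : (Fintype.card ι : ℝ) * θ ≤ 1
  · obtain ⟨b, hb, hab⟩ := SDiff_floor h0 ha
    set p : Σ _ : κ, ℕ := ⟨k, a k⟩ with hp
    have hPQ : pts T a ⊆ pts T (up a k) := by
      rw [SDiff_pts_up hk]
      exact subset_insert _ _
    have h2 : ∀ i : ι, (∑ j ∈ T, a j - Fintype.card ι * b) ^ (Fintype.card ι - 1) ≤
        ((cm J (pts T (up a k)) Sigma.fst).filter fun φ => φ i = p).card := by
      intro i
      have h3 := SDiff_ext J hPQ ({i} : Finset ι) (fun _ => p) ({k} : Finset κ) b (π := Sigma.fst)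
        (SDiff_class hab) (fun _ _ => by rw [SDiff_pts_up hk]; exact mem_insert_self _ _)
        (fun _ _ => mem_singleton_self _)
        (fun j hj j' hj' _ => by rw [mem_singleton.1 hj, mem_singleton.1 hj'])
        (fun j hj j' hj' h => by
          rw [mem_singleton.1 hj, mem_singleton.1 hj'] at h
          exact absurd rfl h.ne)
      rw [card_singleton, card_singleton, SDiff_card_pts,
        show 1 + (Fintype.card ι - 1) = Fintype.card ι by omega] at h3
      refine h3.trans (le_of_eq ?_)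
      congr 1
      refine filter_congr fun φ _ => ?_
      simp
    have h3 : ((univ : Finset ι).biUnion fun i =>
        (cm J (pts T (up a k)) Sigma.fst).filter fun φ => φ i = p) ⊆
        (cm J (pts T (up a k)) Sigma.fst).filter fun φ => ∃ i, φ i = p := by
      intro φ hφ
      obtain ⟨i, -, hi⟩ := mem_biUnion.1 hφ
      rw [mem_filter] at hi ⊢
      exact ⟨hi.1, i, hi.2⟩
    have h4 : ((univ : Finset ι).biUnion fun i =>
        (cm J (pts T (up a k)) Sigma.fst).filter fun φ => φ i = p).card =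
        ∑ i : ι, ((cm J (pts T (up a k)) Sigma.fst).filter fun φ => φ i = p).card := by
      refine card_biUnion fun i _ j _ hij => Finset.disjoint_left.2 fun φ hφ hφ' => ?_
      rw [mem_filter] at hφ hφ'
      exact hij (((SDiff_mem_cm J).1 hφ.1).2.1 (hφ.2.trans hφ'.2.symm))
    have h5 : Fintype.card ι * (∑ j ∈ T, a j - Fintype.card ι * b) ^ (Fintype.card ι - 1) ≤
        ((cm J (pts T (up a k)) Sigma.fst).filter fun φ => ∃ i, φ i = p).card := by
      refine le_trans ?_ (card_le_card h3)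
      rw [h4]
      refine le_trans (le_of_eq ?_) (sum_le_sum fun i _ => h2 i)
      rw [sum_const, card_univ, smul_eq_mul]
    have h6 := SDiff_pow (k := Fintype.card ι - 1) h0 hb (Nat.sub_le _ _) hsθ
    have h7 : (Fintype.card ι : ℝ) *
        (((∑ j ∈ T, a j - Fintype.card ι * b) ^ (Fintype.card ι - 1) : ℕ) : ℝ) ≤
        (((cm J (pts T (up a k)) Sigma.fst).filter fun φ => ∃ i, φ i = p).card : ℕ) := by
      exact_mod_cast h5
    have h8 := mul_le_mul_of_nonneg_left h6 (Nat.cast_nonneg (Fintype.card ι) (α := ℝ))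
    have h9 : ((∑ j ∈ T, a j : ℕ) : ℝ) = ∑ j ∈ T, (a j : ℝ) := by push_cast; rfl
    rw [h9] at h8
    calc ((Fintype.card ι : ℝ) - (Fintype.card ι : ℝ) ^ 3 * θ) *
          (∑ j ∈ T, (a j : ℝ)) ^ (Fintype.card ι - 1) =
        (Fintype.card ι : ℝ) * ((1 - (Fintype.card ι : ℝ) ^ 2 * θ) *
          (∑ j ∈ T, (a j : ℝ)) ^ (Fintype.card ι - 1)) := by ring
      _ ≤ _ := h8.trans h7
  · push Not at hsθ
    have h3 : (Fintype.card ι : ℝ) - (Fintype.card ι : ℝ) ^ 3 * θ ≤ 0 := by
      have : (Fintype.card ι : ℝ) ^ 3 * θ = (Fintype.card ι : ℝ) ^ 2 * (Fintype.card ι * θ) := by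
        ring
      rw [this]
      nlinarith only [hsθ, hs1]
    exact (mul_nonpos_of_nonpos_of_nonneg h3 hn).trans (Nat.cast_nonneg _)

/-- mixed second difference minus pure second difference -/
theorem sd_lower (hcs : 2 ≤ Fintype.card ι) : ∃ C : ℝ, 0 < C ∧ ∀ (θ : ℝ), 0 < θ →
    ∀ (κ : Type) [DecidableEq κ] (T : Finset κ) (a : κ → ℕ), ∀ k ∈ T, ∀ l ∈ T, k ≠ l →
    (∀ j ∈ T, (a j : ℝ) ≤ θ * ∑ j ∈ T, (a j : ℝ)) → 1 ≤ θ * ∑ j ∈ T, (a j : ℝ) →
    ((oe J : ℝ) - C * θ) * (∑ j ∈ T, (a j : ℝ)) ^ (Fintype.card ι - 2) ≤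
      ((fJ J T (up (up a k) l) : ℝ) - fJ J T (up a k) - fJ J T (up a l) + fJ J T a) -
      ((fJ J T (up (up a k) k) : ℝ) - fJ J T (up a k) - fJ J T (up a k) + fJ J T a) := by
  classical
  refine ⟨(Fintype.card ι : ℝ) ^ 4, by positivity, ?_⟩
  intro θ h0 κ _ T a k hk l hl hkl ha _
  have hs2 : (2 : ℝ) ≤ Fintype.card ι := by exact_mod_cast hcs
  rw [fJ_two J hk hl, fJ_two J hk hk]
  have hupl : up a k l = a l := by
    unfold up
    rw [Function.update_of_ne hkl.symm]
  have hupk : up a k k = a k + 1 := by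
    unfold up
    rw [Function.update_self]
  -- the number of nonadjacent pairs
  set N : Finset (ι × ι) := (univ : Finset ι).offDiag.filter fun z => ¬ J.Adj z.1 z.2 with hN
  have hNc : N.card + oe J = Fintype.card ι * Fintype.card ι - Fintype.card ι := by
    have h1 := card_filter_add_card_filter_not (s := (univ : Finset ι).offDiag)
      (fun z => J.Adj z.1 z.2)
    rw [offDiag_card, card_univ] at h1
    have h2 : ((univ : Finset ι).offDiag.filter fun z => J.Adj z.1 z.2).card = oe J := by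
      unfold oe
      congr 1
      ext z
      simp only [mem_filter, mem_offDiag, mem_univ, true_and, and_iff_right_iff_imp]
      exact fun h => h.ne
    rw [h2] at h1
    rw [add_comm, hN]
    convert h1
  have hss : Fintype.card ι ≤ Fintype.card ι * Fintype.card ι := Nat.le_mul_self _
  have hNr : (N.card : ℝ) + oe J = (Fintype.card ι : ℝ) * Fintype.card ι - Fintype.card ι := by
    have : N.card + oe J + Fintype.card ι = Fintype.card ι * Fintype.card ι := by omega
    have h2 : (N.card : ℝ) + oe J + Fintype.card ι = (Fintype.card ι : ℝ) * Fintype.card ι := by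
      exact_mod_cast this
    linarith
  -- the pure difference
  have hpure : ((cm J (pts T (up (up a k) k)) Sigma.fst).filter fun φ =>
      (∃ i, φ i = ⟨k, a k⟩) ∧ ∃ i, φ i = ⟨k, up a k k⟩).card ≤
      N.card * (∑ j ∈ T, a j) ^ (Fintype.card ι - 2) := by
    set p : Σ _ : κ, ℕ := ⟨k, a k⟩ with hp
    set q : Σ _ : κ, ℕ := ⟨k, up a k k⟩ with hq
    have hpq : p ≠ q := by
      intro h
      rw [hp, hq, hupk] at h
      simp at h
    have h2 : ((cm J (pts T (up (up a k) k)) Sigma.fst).filter fun φ =>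
        (∃ i, φ i = p) ∧ ∃ i, φ i = q) ⊆ N.biUnion fun z =>
          (cm J (pts T (up (up a k) k)) Sigma.fst).filter fun φ => φ z.1 = p ∧ φ z.2 = q := by
      intro φ hφ
      rw [mem_filter] at hφ
      obtain ⟨h, ⟨i, hi⟩, j, hj⟩ := hφ
      refine mem_biUnion.2 ⟨(i, j), ?_, mem_filter.2 ⟨h, hi, hj⟩⟩
      rw [hN, mem_filter, mem_offDiag]
      refine ⟨⟨mem_univ _, mem_univ _, fun hij => ?_⟩, fun hadj => ?_⟩
      · simp only at hij
        exact hpq (by rw [← hi, ← hj, hij])
      · refine ((SDiff_mem_cm J).1 h).2.2 i j hadj ?_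
        rw [hi, hj]
    refine (card_le_card h2).trans (card_biUnion_le.trans ?_)
    refine (sum_le_card_nsmul _ _ ((∑ j ∈ T, a j) ^ (Fintype.card ι - 2)) fun z hz => ?_).trans
      (le_of_eq (smul_eq_mul _ _))
    have hz' : z.1 ≠ z.2 := (mem_offDiag.1 (mem_filter.1 hz).1).2.2
    have h3 := SDiff_fix (pts T a) ({z.1, z.2} : Finset ι) (fun i => if i = z.1 then p else q)
      ((cm J (pts T (up (up a k) k)) Sigma.fst).filter fun φ => φ z.1 = p ∧ φ z.2 = q)
      (fun φ hφ => by
        rw [mem_filter, SDiff_mem_cm] at hφ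
        obtain ⟨⟨h3, h4, -⟩, h5, h5'⟩ := hφ
        refine ⟨fun j hj => ?_, fun j hj => ?_⟩
        · rcases mem_insert.1 hj with h | h
          · rw [h, if_pos rfl, h5]
          · rw [mem_singleton.1 h, if_neg (Ne.symm hz'), h5']
        · have h6 := h3 j
          rw [SDiff_pts_up hk, SDiff_pts_up hk] at h6
          rcases mem_insert.1 h6 with h7 | h7
          · exact absurd (mem_insert_of_mem (mem_singleton.2 (h4 (h7.trans h5'.symm)))) hj
          rcases mem_insert.1 h7 with h8 | h8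
          · exact absurd (mem_insert.2 (Or.inl (h4 (h8.trans h5.symm)))) hj
          · exact h8)
    rwa [SDiff_card_pts, card_pair hz'] at h3
  have hpureR : ((((cm J (pts T (up (up a k) k)) Sigma.fst).filter fun φ =>
      (∃ i, φ i = ⟨k, a k⟩) ∧ ∃ i, φ i = ⟨k, up a k k⟩).card : ℕ) : ℝ) ≤
      N.card * (∑ j ∈ T, (a j : ℝ)) ^ (Fintype.card ι - 2) := by
    exact_mod_cast hpure
  have hn : (0 : ℝ) ≤ (∑ j ∈ T, (a j : ℝ)) ^ (Fintype.card ι - 2) := by positivity
  by_cases hsθ : (Fintype.card ι : ℝ) * θ ≤ 1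
  · obtain ⟨b, hb, hab⟩ := SDiff_floor h0 ha
    have hmix : (Fintype.card ι * Fintype.card ι - Fintype.card ι) *
        (∑ j ∈ T, a j - Fintype.card ι * b) ^ (Fintype.card ι - 2) ≤
        ((cm J (pts T (up (up a k) l)) Sigma.fst).filter fun φ =>
          (∃ i, φ i = ⟨k, a k⟩) ∧ ∃ i, φ i = ⟨l, up a k l⟩).card := by
      set p : Σ _ : κ, ℕ := ⟨k, a k⟩ with hp
      set q : Σ _ : κ, ℕ := ⟨l, up a k l⟩ with hq
      have hpq : p ≠ q := fun h => hkl (congrArg Sigma.fst h)
      have hQ : pts T (up (up a k) l) = insert q (insert p (pts T a)) := by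
        rw [SDiff_pts_up hl, SDiff_pts_up hk]
      have hPQ : pts T a ⊆ pts T (up (up a k) l) := by
        rw [hQ]
        exact (subset_insert _ _).trans (subset_insert _ _)
      have h2 : ∀ z ∈ (univ : Finset ι).offDiag,
          (∑ j ∈ T, a j - Fintype.card ι * b) ^ (Fintype.card ι - 2) ≤
          ((cm J (pts T (up (up a k) l)) Sigma.fst).filter fun φ => φ z.1 = p ∧ φ z.2 = q).card := by
        intro z hz
        have hz' : z.1 ≠ z.2 := (mem_offDiag.1 hz).2.2
        have h3 := SDiff_ext J hPQ ({z.1, z.2} : Finset ι) (fun i => if i = z.1 then p else q)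
          ({k, l} : Finset κ) b (π := Sigma.fst) (SDiff_class hab)
          (fun i _ => by
            rw [hQ]
            by_cases hi : i = z.1
            · simp only [if_pos hi]
              exact mem_insert_of_mem (mem_insert_self _ _)
            · simp only [if_neg hi]
              exact mem_insert_self _ _)
          (fun i _ => by
            by_cases hi : i = z.1
            · simp only [if_pos hi]
              exact mem_insert_self _ _
            · simp only [if_neg hi]
              exact mem_insert_of_mem (mem_singleton_self _))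
          (fun i hi j hj hij => by
            rcases mem_insert.1 hi with h | h <;> rcases mem_insert.1 hj with h' | h'
            · rw [h, h']
            · rw [h, mem_singleton.1 h', if_pos rfl, if_neg hz'.symm] at hij
              exact absurd hij hpq
            · rw [mem_singleton.1 h, h', if_pos rfl, if_neg hz'.symm] at hij
              exact absurd hij.symm hpq
            · rw [mem_singleton.1 h, mem_singleton.1 h'])
          (fun i hi j hj hij => by
            rcases mem_insert.1 hi with h | h <;> rcases mem_insert.1 hj with h' | h'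
            · exact absurd (h.trans h'.symm) hij.ne
            · rw [h, mem_singleton.1 h', if_pos rfl, if_neg hz'.symm]
              exact hkl
            · rw [mem_singleton.1 h, h', if_pos rfl, if_neg hz'.symm]
              exact hkl.symm
            · exact absurd ((mem_singleton.1 h).trans (mem_singleton.1 h').symm) hij.ne)
        rw [card_pair hz', card_pair hkl, SDiff_card_pts,
          show 2 + (Fintype.card ι - 2) = Fintype.card ι by omega] at h3
        refine h3.trans (le_of_eq ?_)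
        congr 1
        refine filter_congr fun φ _ => ?_
        constructor
        · intro h
          have h4 := h z.1 (mem_insert_self _ _)
          have h5 := h z.2 (mem_insert_of_mem (mem_singleton_self _))
          rw [if_pos rfl] at h4
          rw [if_neg hz'.symm] at h5
          exact ⟨h4, h5⟩
        · rintro ⟨h4, h5⟩ i hi
          rcases mem_insert.1 hi with h | h
          · rw [h, if_pos rfl, h4]
          · rw [mem_singleton.1 h, if_neg hz'.symm, h5]
      have h3 : ((univ : Finset ι).offDiag.biUnion fun z =>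
          (cm J (pts T (up (up a k) l)) Sigma.fst).filter fun φ => φ z.1 = p ∧ φ z.2 = q) ⊆
          (cm J (pts T (up (up a k) l)) Sigma.fst).filter fun φ =>
            (∃ i, φ i = p) ∧ ∃ i, φ i = q := by
        intro φ hφ
        obtain ⟨z, -, hz⟩ := mem_biUnion.1 hφ
        rw [mem_filter] at hz ⊢
        exact ⟨hz.1, ⟨z.1, hz.2.1⟩, z.2, hz.2.2⟩
      have h4 : ((univ : Finset ι).offDiag.biUnion fun z =>
          (cm J (pts T (up (up a k) l)) Sigma.fst).filter fun φ => φ z.1 = p ∧ φ z.2 = q).card =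
          ∑ z ∈ (univ : Finset ι).offDiag,
            ((cm J (pts T (up (up a k) l)) Sigma.fst).filter fun φ =>
              φ z.1 = p ∧ φ z.2 = q).card := by
        refine card_biUnion fun z _ z' _ hzz => Finset.disjoint_left.2 fun φ hφ hφ' => ?_
        rw [mem_filter] at hφ hφ'
        have hi := ((SDiff_mem_cm J).1 hφ.1).2.1
        exact hzz (Prod.ext (hi (hφ.2.1.trans hφ'.2.1.symm)) (hi (hφ.2.2.trans hφ'.2.2.symm)))
      refine le_trans ?_ (card_le_card h3)
      rw [h4]
      refine le_trans (le_of_eq ?_) (sum_le_sum fun z hz => h2 z hz)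
      rw [sum_const, offDiag_card, card_univ, smul_eq_mul]
    have h6 := SDiff_pow (k := Fintype.card ι - 2) h0 hb (Nat.sub_le _ _) hsθ
    have h7 : ((Fintype.card ι : ℝ) * Fintype.card ι - Fintype.card ι) *
        (((∑ j ∈ T, a j - Fintype.card ι * b) ^ (Fintype.card ι - 2) : ℕ) : ℝ) ≤
        (((cm J (pts T (up (up a k) l)) Sigma.fst).filter fun φ =>
          (∃ i, φ i = ⟨k, a k⟩) ∧ ∃ i, φ i = ⟨l, up a k l⟩).card : ℕ) := by
      have h8 : ((Fintype.card ι : ℝ) * Fintype.card ι - Fintype.card ι) =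
          ((Fintype.card ι * Fintype.card ι - Fintype.card ι : ℕ) : ℝ) := by
        rw [Nat.cast_sub hss]
        push_cast
        ring
      rw [h8]
      exact_mod_cast hmix
    have hs0 : (0 : ℝ) ≤ (Fintype.card ι : ℝ) * Fintype.card ι - Fintype.card ι := by nlinarith only [hNr]
    have h8 := mul_le_mul_of_nonneg_left h6 hs0
    have h9 : ((∑ j ∈ T, a j : ℕ) : ℝ) = ∑ j ∈ T, (a j : ℝ) := by push_cast; rfl
    rw [h9] at h8
    set X := (∑ j ∈ T, (a j : ℝ)) ^ (Fintype.card ι - 2) with hX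
    set s : ℝ := (Fintype.card ι : ℝ) with hs
    have h10 : ((oe J : ℝ) - s ^ 4 * θ) * X ≤
        (s * s - s) * ((1 - s ^ 2 * θ) * X) - N.card * X := by
      have h11 : (s * s - s) * ((1 - s ^ 2 * θ) * X) - N.card * X =
          (s * s - s - N.card - (s * s - s) * s ^ 2 * θ) * X := by ring
      rw [h11]
      refine mul_le_mul_of_nonneg_right ?_ hn
      have h12 : s * s - s - N.card = oe J := by linarith only [hNr]
      rw [h12]
      have h13 : (s * s - s) * s ^ 2 * θ ≤ s ^ 4 * θ := by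
        refine mul_le_mul_of_nonneg_right ?_ h0.le
        have : 0 ≤ s ^ 3 := by positivity
        nlinarith only [this]
      linarith only [h13]
    linarith only [hpureR, h7, h8, h10]
  · push Not at hsθ
    have hmix0 : (0 : ℝ) ≤ (((cm J (pts T (up (up a k) l)) Sigma.fst).filter fun φ =>
          (∃ i, φ i = ⟨k, a k⟩) ∧ ∃ i, φ i = ⟨l, up a k l⟩).card : ℕ) := Nat.cast_nonneg _
    set X := (∑ j ∈ T, (a j : ℝ)) ^ (Fintype.card ι - 2) with hX
    set s : ℝ := (Fintype.card ι : ℝ) with hs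
    have h3 : ((oe J : ℝ) - s ^ 4 * θ) * X ≤ -(N.card * X) := by
      have h4 : (oe J : ℝ) - s ^ 4 * θ ≤ -(N.card : ℝ) := by
        have h5 : s ^ 3 ≤ s ^ 4 * θ := by
          have h6 : s ^ 4 * θ = s ^ 3 * (s * θ) := by ring
          rw [h6]
          have h7 : 0 ≤ s ^ 3 := by positivity
          nlinarith only [hsθ, h7]
        have h8 : s * s - s ≤ s ^ 3 := by
          have h9 : s ^ 3 = s * s * s := by ring
          rw [h9]
          nlinarith only [mul_self_nonneg s, hs2]
        linarith only [hNr, h5, h8]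
      have h5 := mul_le_mul_of_nonneg_right h4 hn
      linarith only [h5]
    linarith only [hpureR, h3]

end H57GH
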