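import Pool.Agent.H57.GH.BalE
import Pool.Agent.H57.GH.SDiff
import Pool.Agent.H57.GH.DEst

/-!
Growth of `FT`.
-/

namespace H57GH

open Finset H57LC H57LT

set_option linter.unusedSectionVars false

variable {ι : Type*} [Fintype ι] [DecidableEq ι] (J : SimpleGraph ι) [DecidableRel J.Adj]

/-- the class sizes of the balanced vector -/
private theorem BalF_bal_bounds {R : ℕ} (hR : 1 ≤ R) (n : ℕ) (i : Fin R) :
    (n : ℝ) / R - 1 ≤ (bal R n i : ℝ) ∧ (bal R n i : ℝ) ≤ (n : ℝ) / R + 1 := by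
  have hR0 : (0 : ℝ) < R := by exact_mod_cast hR
  have h6 : ((R * (n / R) + n % R : ℕ) : ℝ) = n := by rw [Nat.div_add_mod]
  push_cast at h6
  have h7 : ((n % R : ℕ) : ℝ) ≤ R := by exact_mod_cast (Nat.mod_lt n hR).le
  have h8 : (0 : ℝ) ≤ ((n % R : ℕ) : ℝ) := Nat.cast_nonneg _
  have hq : (n : ℝ) / R = ((n / R : ℕ) : ℝ) + ((n % R : ℕ) : ℝ) / R := by
    rw [← h6]
    field_simp
  have h9 : ((n % R : ℕ) : ℝ) / R ≤ 1 := by
    rw [div_le_one hR0]
    exact h7
  have h10 : 0 ≤ ((n % R : ℕ) : ℝ) / R := div_nonneg h8 hR0.le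
  rw [hq]
  unfold bal
  split_ifs
  · push_cast
    constructor <;> linarith
  · push_cast
    constructor <;> linarith

private theorem BalF_sum {R : ℕ} (hR : 1 ≤ R) (n : ℕ) :
    ∑ j ∈ (univ : Finset (Fin R)), ((bal R n j : ℕ) : ℝ) = n := by
  rw [← Nat.cast_sum, sum_bal hR]

/-- growth of `FT`, large `R` -/
theorem FT_succ (hcs : 2 ≤ Fintype.card ι) : ∃ C : ℝ, 0 < C ∧ ∀ R n : ℕ, 1 ≤ R → R ≤ n →
    ((Fintype.card ι : ℝ) - C / R) * (n : ℝ) ^ (Fintype.card ι - 1) ≤
      FT J R (n + 1) - FT J R n ∧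
    FT J R (n + 1) - FT J R n ≤ (Fintype.card ι : ℝ) * (n : ℝ) ^ (Fintype.card ι - 1) := by
  obtain ⟨C, hC, h⟩ := D_lower J (by omega : 1 ≤ Fintype.card ι)
  refine ⟨2 * C, by positivity, ?_⟩
  intro R n hR hRn
  have hR0 : (0 : ℝ) < R := by exact_mod_cast hR
  have hRn' : (R : ℝ) ≤ n := by exact_mod_cast hRn
  have hdiv : 1 ≤ (n : ℝ) / R := by
    rw [le_div_iff₀ hR0]
    linarith
  have hstep : FT J R (n + 1) =
      (fJ J (univ : Finset (Fin R)) (up (bal R n) ⟨n % R, Nat.mod_lt _ hR⟩) : ℝ) := by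
    unfold FT
    rw [bal_succ hR n]
  have hn : FT J R n = (fJ J (univ : Finset (Fin R)) (bal R n) : ℝ) := rfl
  rw [hstep, hn]
  constructor
  · have h1 := h (2 / R) (by positivity) (Fin R) (univ : Finset (Fin R)) (bal R n)
      ⟨n % R, Nat.mod_lt _ hR⟩ (mem_univ _)
      (by
        intro l _
        rw [BalF_sum hR]
        have h2 := (BalF_bal_bounds hR n l).2
        have h3 : 2 / (R : ℝ) * n = n / R + n / R := by ring
        rw [h3]
        linarith only [hdiv, h2])
      (by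
        rw [BalF_sum hR]
        have h3 : 2 / (R : ℝ) * n = n / R + n / R := by ring
        rw [h3]
        linarith only [hdiv])
    rw [BalF_sum hR] at h1
    have h4 : C * (2 / (R : ℝ)) = 2 * C / R := by ring
    rw [h4] at h1
    exact h1
  · have h1 := fJ_up_le J (T := (univ : Finset (Fin R))) (a := bal R n)
      (k := ⟨n % R, Nat.mod_lt _ hR⟩) (mem_univ _)
    rw [BalF_sum hR] at h1
    exact h1

/-- the size of `M0` -/
theorem M0_bounds : ∃ C : ℝ, 0 < C ∧ ∀ R m : ℕ, 1 ≤ R → 1 ≤ m →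
    (1 - C / R) * ((R : ℝ) * m) ^ Fintype.card ι ≤ M0 J R m ∧
    M0 J R m ≤ ((R : ℝ) * m) ^ Fintype.card ι := by
  obtain ⟨C, hC, h⟩ := fJ_lower J
  refine ⟨C, hC, ?_⟩
  intro R m hR hm
  have hR0 : (0 : ℝ) < R := by exact_mod_cast hR
  have hm1 : (1 : ℝ) ≤ m := by exact_mod_cast hm
  have hsum : ∑ j ∈ (univ : Finset (Fin R)), (((fun _ => m : Fin R → ℕ) j : ℕ) : ℝ) =
      (R : ℝ) * m := by
    simp
  constructor
  · have h1 := h (1 / R) (by positivity) (Fin R) (univ : Finset (Fin R)) (fun _ => m)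
      (by
        intro l _
        rw [hsum]
        have h3 : 1 / (R : ℝ) * (R * m) = m := by field_simp
        rw [h3])
      (by
        rw [hsum]
        have h3 : 1 / (R : ℝ) * (R * m) = m := by field_simp
        rw [h3]
        exact hm1)
    rw [hsum] at h1
    have h4 : C * (1 / (R : ℝ)) = C / R := by ring
    rw [h4] at h1
    exact h1
  · have h1 : ((fJ J (univ : Finset (Fin R)) (fun _ => m) : ℕ) : ℝ) ≤
        (((∑ _k ∈ (univ : Finset (Fin R)), m) ^ Fintype.card ι : ℕ) : ℝ) := by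
      exact_mod_cast fJ_le_pow J (univ : Finset (Fin R)) (fun _ => m)
    refine h1.trans (le_of_eq ?_)
    simp

/-- first differences of `FT` near `R * m`: relative error `C x / m` -/
theorem FT_near (hcs : 2 ≤ Fintype.card ι) (R : ℕ) (hR : 1 ≤ R) : ∃ C : ℝ, 0 < C ∧
    ∀ m : ℕ, 1 ≤ m → ∀ (n : ℕ) (x : ℝ), 1 ≤ x → 2 * x ≤ m → |(n : ℝ) - R * m| ≤ x →
      |FT J R n - M0 J R m - (Fintype.card ι : ℝ) / R * M0 J R m / m * ((n : ℝ) - R * m)| ≤
        C * (m : ℝ) ^ (Fintype.card ι - 2) * x ^ 2 := by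
  obtain ⟨C, hC, h⟩ := D_est J hcs R hR
  refine ⟨3 * C, by positivity, ?_⟩
  intro m hm n x hx hxm hn
  have hR0 : (0 : ℝ) < R := by exact_mod_cast hR
  have hR1 : (1 : ℝ) ≤ R := by exact_mod_cast hR
  have hm1 : (1 : ℝ) ≤ m := by exact_mod_cast hm
  set D : ℝ := (Fintype.card ι : ℝ) / R * M0 J R m / m with hD
  set E : ℝ := 3 * C * (m : ℝ) ^ (Fintype.card ι - 2) * x with hE
  have hE0 : 0 ≤ E := by positivity
  -- one step
  have hstep : ∀ n' : ℕ, |(n' : ℝ) - R * m| ≤ x → |FT J R (n' + 1) - FT J R n' - D| ≤ E := by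
    intro n' hn'
    have hn1 : FT J R (n' + 1) =
        (fJ J (univ : Finset (Fin R)) (up (bal R n') ⟨n' % R, Nat.mod_lt _ hR⟩) : ℝ) := by
      unfold FT
      rw [bal_succ hR n']
    have hn2 : FT J R n' = (fJ J (univ : Finset (Fin R)) (bal R n') : ℝ) := rfl
    rw [hn1, hn2]
    have h1 := h m hm (Fin R) (univ : Finset (Fin R)) (by simp) ⟨n' % R, Nat.mod_lt _ hR⟩
      (mem_univ _) (bal R n') (x + 1) (by linarith) (by linarith)
      (by
        intro l _
        have h2 := BalF_bal_bounds hR n' l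
        have h3 : |(n' : ℝ) / R - m| ≤ x := by
          have h4 : (n' : ℝ) / R - m = ((n' : ℝ) - R * m) / R := by field_simp
          rw [h4, abs_div, abs_of_pos hR0, div_le_iff₀ hR0]
          nlinarith only [hn', abs_nonneg ((n' : ℝ) - R * m), hR1, hx]
        rw [abs_le] at h3 ⊢
        constructor <;> linarith only [h2.1, h2.2, h3.1, h3.2, h2, h3])
    refine h1.trans ?_
    have h5 : x + 1 + 1 ≤ 3 * x := by linarith
    calc C * (m : ℝ) ^ (Fintype.card ι - 2) * (x + 1 + 1)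
        ≤ C * (m : ℝ) ^ (Fintype.card ι - 2) * (3 * x) := by gcongr
      _ = E := by rw [hE]; ring
  -- upwards
  have hupw : ∀ j : ℕ, (j : ℝ) ≤ x → |FT J R (R * m + j) - M0 J R m - D * j| ≤ E * j := by
    intro j
    induction j with
    | zero =>
      intro _
      rw [Nat.add_zero, FT_mul J hR m]
      simp
    | succ j ih =>
      intro hj
      push_cast at hj
      have h1 := ih (by linarith)
      have h2 := hstep (R * m + j) (by
        push_cast
        rw [add_sub_cancel_left, abs_of_nonneg (Nat.cast_nonneg j)]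
        linarith)
      rw [abs_le] at h1 h2 ⊢
      rw [← Nat.add_assoc]
      push_cast
      constructor <;> nlinarith only [h1.1, h1.2, h2.1, h2.2, h1, h2]
  -- downwards
  have hdown : ∀ j : ℕ, j ≤ R * m → (j : ℝ) ≤ x →
      |FT J R (R * m - j) - M0 J R m + D * j| ≤ E * j := by
    intro j
    induction j with
    | zero =>
      intro _ _
      rw [Nat.sub_zero, FT_mul J hR m]
      simp
    | succ j ih =>
      intro hjm hj
      push_cast at hj
      have h1 := ih (by omega) (by linarith)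
      have h2 := hstep (R * m - (j + 1)) (by
        rw [Nat.cast_sub hjm]
        push_cast
        have h3 : (R : ℝ) * m - (j + 1) - R * m = -((j : ℝ) + 1) := by ring
        rw [h3, abs_neg, abs_of_nonneg (by positivity)]
        exact hj)
      have h3 : R * m - (j + 1) + 1 = R * m - j := by omega
      rw [h3] at h2
      rw [abs_le] at h1 h2 ⊢
      push_cast
      constructor <;> nlinarith only [h1.1, h1.2, h2.1, h2.2, h1, h2]
  have hfin : ∀ j : ℝ, 0 ≤ j → j ≤ x → E * j ≤ 3 * C * (m : ℝ) ^ (Fintype.card ι - 2) * x ^ 2 := by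
    intro j _ hj
    calc E * j ≤ E * x := by gcongr
      _ = _ := by rw [hE]; ring
  rcases Nat.le_total (R * m) n with hle | hle
  · obtain ⟨j, rfl⟩ := Nat.exists_eq_add_of_le hle
    push_cast at hn ⊢
    rw [add_sub_cancel_left] at hn ⊢
    rw [abs_of_nonneg (Nat.cast_nonneg j)] at hn
    exact (hupw j hn).trans (hfin j (Nat.cast_nonneg j) hn)
  · obtain ⟨j, hj⟩ := Nat.exists_eq_add_of_le hle
    have hn' : n = R * m - j := by omega
    have hjm : j ≤ R * m := by omega
    have hcast : (n : ℝ) - R * m = -(j : ℝ) := by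
      have h1 : ((R * m : ℕ) : ℝ) = ((n + j : ℕ) : ℝ) := by rw [hj]
      push_cast at h1
      linarith only [h1]
    rw [hcast] at hn ⊢
    rw [abs_neg, abs_of_nonneg (Nat.cast_nonneg j)] at hn
    have h1 := hdown j hjm hn
    rw [← hn'] at h1
    have h2 : FT J R n - M0 J R m - D * -(j : ℝ) = FT J R n - M0 J R m + D * j := by ring
    rw [h2]
    exact h1.trans (hfin j (Nat.cast_nonneg j) hn)

end H57GH
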