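import Pool.Agent.H57.GH.SDiff

/-!
Moving a point to a smaller class.
-/

namespace H57GH

open Finset H57LC H57LT

set_option linter.unusedSectionVars false

variable {ι : Type*} [Fintype ι] [DecidableEq ι] (J : SimpleGraph ι) [DecidableRel J.Adj]

private lemma TrL_swap {κ : Type*} [DecidableEq κ] (T : Finset κ) (b : κ → ℕ) {k l : κ}
    (hk : k ∈ T) (hl : l ∈ T) (hkl : k ≠ l) (hb : b k = b l) :
    fJ J T (up b l) = fJ J T (up b k) := by
  have hmaps : ∀ j ∈ T, Equiv.swap k l j ∈ T := by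
    intro j hj
    by_cases h1 : j = k
    · subst h1
      rw [Equiv.swap_apply_left]
      exact hl
    · by_cases h2 : j = l
      · subst h2
        rw [Equiv.swap_apply_right]
        exact hk
      · rw [Equiv.swap_apply_of_ne_of_ne h1 h2]
        exact hj
  have hbij : Set.BijOn (Equiv.swap k l) (T : Set κ) (T : Set κ) :=
    ⟨fun j hj => hmaps j hj, (Equiv.injective _).injOn,
      fun j hj => ⟨Equiv.swap k l j, hmaps j hj, Equiv.swap_apply_self _ _ _⟩⟩
  rw [← fJ_map J (Equiv.swap k l) hbij (up b k)]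
  refine fJ_congr J fun j _ => ?_
  unfold up
  by_cases h1 : j = k
  · subst h1
    rw [Equiv.swap_apply_left, Function.update_of_ne hkl, Function.update_of_ne hkl.symm, hb]
  · by_cases h2 : j = l
    · subst h2
      rw [Equiv.swap_apply_right, Function.update_self, Function.update_self, hb]
    · rw [Equiv.swap_apply_of_ne_of_ne h1 h2, Function.update_of_ne h2, Function.update_of_ne h1]

/-- it is better to add a point to a smaller class -/
theorem tr_lower (hcs : 2 ≤ Fintype.card ι) : ∃ C : ℝ, 0 < C ∧ ∀ (θ : ℝ), 0 < θ → θ ≤ 1 / 4 →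
    C * θ ≤ (oe J : ℝ) →
    ∀ (κ : Type) [DecidableEq κ] (T : Finset κ) (a : κ → ℕ), ∀ k ∈ T, ∀ l ∈ T, a l ≤ a k →
    (∀ j ∈ T, (a j : ℝ) ≤ θ * ∑ j ∈ T, (a j : ℝ)) → 2 ≤ θ * ∑ j ∈ T, (a j : ℝ) →
    ((oe J : ℝ) - C * θ) * ((a k : ℝ) - a l) * (∑ j ∈ T, (a j : ℝ)) ^ (Fintype.card ι - 2) ≤
      (fJ J T (up a l) : ℝ) - fJ J T (up a k) := by
  obtain ⟨C₀, hC₀, h₀⟩ := sd_lower J hcs
  refine ⟨2 * C₀ + (Fintype.card ι : ℝ) * (oe J : ℝ) + 1, by positivity, ?_⟩
  intro θ hθ hθ4 hCe κ _ T a k hk l hl hlk hsmall hbig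
  by_cases hkl : k = l
  · subst hkl
    simp
  set n : ℝ := ∑ j ∈ T, (a j : ℝ) with hn
  set s := Fintype.card ι with hs
  set e : ℝ := (oe J : ℝ) with he
  have he0 : 0 ≤ e := by
    rw [he]
    positivity
  obtain ⟨t, ht⟩ : ∃ t, a k = a l + t := ⟨a k - a l, by omega⟩
  have hn0 : 0 ≤ n := sum_nonneg fun _ _ => Nat.cast_nonneg _
  set b : ℕ → κ → ℕ := fun i => Function.update a k (a l + i) with hb
  have hbk : ∀ i, b i k = a l + i := fun i => by
    rw [hb]
    exact Function.update_self _ _ _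
  have hbj : ∀ i j, j ≠ k → b i j = a j := fun i j hj => by
    rw [hb]
    exact Function.update_of_ne hj _ _
  have hbs : ∀ i, up (b i) k = b (i + 1) := by
    intro i
    unfold up
    rw [hbk]
    rw [hb]
    simp only [Function.update_idem]
    rfl
  have hbt : b t = a := by
    rw [hb]
    simp only
    rw [← ht]
    exact Function.update_eq_self _ _
  have hni : ∀ i, ∑ j ∈ T, (b i j : ℝ) = n - (t : ℝ) + i := by
    intro i
    rw [hn, ← add_sum_erase T _ hk, ← add_sum_erase T (fun j => (a j : ℝ)) hk, hbk, ht]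
    have : ∑ j ∈ T.erase k, (b i j : ℝ) = ∑ j ∈ T.erase k, (a j : ℝ) :=
      sum_congr rfl fun j hj => by rw [hbj i j (ne_of_mem_erase hj)]
    rw [this]
    push_cast
    ring
  have htn : (t : ℝ) ≤ θ * n := by
    have h1 := hsmall k hk
    have h2 : (t : ℝ) ≤ (a k : ℝ) := by
      rw [ht]
      push_cast
      have : (0 : ℝ) ≤ (a l : ℝ) := Nat.cast_nonneg _
      linarith only []
    linarith only [h1, h2]
  set E : ℝ := e - (2 * C₀ + (s : ℝ) * e + 1) * θ with hE
  have hE0 : 0 ≤ E := by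
    rw [hE]
    linarith
  have hstep : ∀ i, i < t → E * n ^ (s - 2) ≤
      ((fJ J T (up (b (i + 1)) l) : ℝ) - fJ J T (up (b (i + 1)) k)) -
        ((fJ J T (up (b i) l) : ℝ) - fJ J T (up (b i) k)) := by
    intro i hi
    have hit : (i : ℝ) ≤ t := by exact_mod_cast hi.le
    have hi0 : (0 : ℝ) ≤ i := Nat.cast_nonneg _
    have hnlo : (1 - θ) * n ≤ ∑ j ∈ T, (b i j : ℝ) := by
      rw [hni]
      linarith only [htn]
    have hn34 : 3 / 4 * n ≤ ∑ j ∈ T, (b i j : ℝ) := by
      refine le_trans ?_ hnlo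
      have : θ * n ≤ 1 / 4 * n := mul_le_mul_of_nonneg_right hθ4 hn0
      linarith only [this]
    have hsd := h₀ (2 * θ) (by linarith only [hθ]) κ T (b i) k hk l hl hkl ?_ ?_
    · rw [hbs] at hsd
      have hk1 : (fJ J T (up (b i) k) : ℝ) = fJ J T (b (i + 1)) := by rw [hbs]
      have hpow : ((1 - θ) * n) ^ (s - 2) ≤ (∑ j ∈ T, (b i j : ℝ)) ^ (s - 2) :=
        pow_le_pow_left₀ (mul_nonneg (by linarith only [hθ, hθ4]) hn0) hnlo _
      have hber : 1 - (s : ℝ) * θ ≤ (1 - θ) ^ (s - 2) := by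
        have h1 := one_add_mul_le_pow (a := -θ) (by linarith only [hθ, hθ4]) (s - 2)
        have h2 : ((s - 2 : ℕ) : ℝ) ≤ s := by exact_mod_cast Nat.sub_le s 2
        have h3 : ((s - 2 : ℕ) : ℝ) * θ ≤ s * θ := mul_le_mul_of_nonneg_right h2 hθ.le
        have h4 : (1 + -θ) ^ (s - 2) = (1 - θ) ^ (s - 2) := by ring_nf
        rw [h4] at h1
        linarith only [h1, h3]
      have hF0 : 0 ≤ e - 2 * C₀ * θ := by
        have h1 : 0 ≤ (s : ℝ) * e * θ := by positivity
        nlinarith only [hE0, hE, hθ, hCe, h1]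
      have hEF : E ≤ (e - 2 * C₀ * θ) * (1 - θ) ^ (s - 2) := by
        refine le_trans ?_ (mul_le_mul_of_nonneg_left hber hF0)
        have h1 : 0 ≤ C₀ * (s : ℝ) * θ ^ 2 := by positivity
        rw [hE]
        nlinarith only [h1, hθ]
      have hfin : E * n ^ (s - 2) ≤ (e - C₀ * (2 * θ)) * (∑ j ∈ T, (b i j : ℝ)) ^ (s - 2) := by
        calc E * n ^ (s - 2) ≤ ((e - 2 * C₀ * θ) * (1 - θ) ^ (s - 2)) * n ^ (s - 2) :=
              mul_le_mul_of_nonneg_right hEF (pow_nonneg hn0 _)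
          _ = (e - 2 * C₀ * θ) * ((1 - θ) * n) ^ (s - 2) := by rw [mul_pow]; ring
          _ ≤ (e - 2 * C₀ * θ) * (∑ j ∈ T, (b i j : ℝ)) ^ (s - 2) :=
              mul_le_mul_of_nonneg_left hpow hF0
          _ = _ := by ring
      rw [hk1]
      linarith only [hsd, hfin]
    · intro j hj
      have h1 : (b i j : ℝ) ≤ (a j : ℝ) := by
        by_cases hjk : j = k
        · subst hjk
          rw [hbk, ht]
          push_cast
          linarith
        · rw [hbj i j hjk]
      have h2 := hsmall j hj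
      nlinarith only [h1, h2, hn34, hθ, hn0, hθ4, hbig]
    · nlinarith only [hn34, hθ, hn0, hbig, hθ4]
  have hsum : ∀ i, i ≤ t → (i : ℝ) * (E * n ^ (s - 2)) ≤
      (fJ J T (up (b i) l) : ℝ) - fJ J T (up (b i) k) := by
    intro i
    induction i with
    | zero =>
      intro _
      have h1 : fJ J T (up (b 0) l) = fJ J T (up (b 0) k) := by
        refine TrL_swap J T (b 0) hk hl hkl ?_
        rw [hbk, hbj 0 l (Ne.symm hkl), add_zero]
      rw [h1]
      simp
    | succ i ih =>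
      intro hi
      have h1 := ih (by omega)
      have h2 := hstep i (by omega)
      push_cast
      linarith only [h1, h2]
  have hfin := hsum t le_rfl
  rw [hbt] at hfin
  refine le_trans (le_of_eq ?_) hfin
  rw [ht]
  push_cast
  ring

end H57GH
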