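import Pool.Agent.H57.GH.BalE
import Pool.Agent.H57.GH.TrL

/-!
The balanced complete multipartite graph has the most copies of `J` (classes small compared to the
number of points).
-/

namespace H57GH

open Finset H57LC H57LT

set_option linter.unusedSectionVars false

variable {ι : Type*} [Fintype ι] [DecidableEq ι] (J : SimpleGraph ι) [DecidableRel J.Adj]

private lemma BalM_one {κ : Type*} [DecidableEq κ] (T : Finset κ) (x : κ → ℝ) :
    eS T x 1 = ∑ k ∈ T, x k := by
  induction T using Finset.induction_on with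
  | empty => rw [eS, powersetCard_eq_empty.2 (by simp)]; simp
  | insert a s ha ih => rw [eS_insert ha, ih, eS_zero, sum_insert ha]; ring

private lemma BalM_sq {κ : Type*} [DecidableEq κ] (T : Finset κ) (x : κ → ℝ) :
    2 * eS T x 2 = (∑ k ∈ T, x k) ^ 2 - ∑ k ∈ T, x k ^ 2 := by
  induction T using Finset.induction_on with
  | empty => rw [eS, powersetCard_eq_empty.2 (by simp)]; simp
  | insert a s ha ih =>
    rw [eS_insert ha, BalM_one, sum_insert ha, sum_insert ha]
    linear_combination ih

private lemma BalM_e2 {κ : Type*} [DecidableEq κ] (T : Finset κ) (a : κ → ℕ) :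
    e2 T a = ((∑ k ∈ T, (a k : ℝ)) ^ 2 - ∑ k ∈ T, (a k : ℝ) ^ 2) / 2 := by
  have h := BalM_sq T fun k => (a k : ℝ)
  unfold e2
  linarith

private lemma BalM_ar (x t S : ℕ) :
    (x + 1 + t) ^ 2 + ((x + 1) ^ 2 + S) < (x + 2 + t) ^ 2 + (x ^ 2 + S) := by
  have h : (x + 2 + t) ^ 2 + (x ^ 2 + S) =
      (x + 1 + t) ^ 2 + ((x + 1) ^ 2 + S) + (2 + 2 * t) := by ring
  rw [h]
  exact Nat.lt_add_of_pos_right (by omega)

/-- nearly equal class sizes -/
private lemma BalM_perm {κ : Type} [DecidableEq κ] (T : Finset κ) (a : κ → ℕ) {R : ℕ}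
    (hR : 1 ≤ R) (hT : T.card = R) (h : ∀ k ∈ T, ∀ l ∈ T, a k ≤ a l + 1) :
    ∃ σ : Fin R → κ, Set.BijOn σ (univ : Finset (Fin R)) T ∧
      ∀ i, a (σ i) = bal R (∑ j ∈ T, a j) i := by
  classical
  have hne : T.Nonempty := by
    rw [← card_pos]
    omega
  obtain ⟨l, hl, hmin⟩ := exists_min_image T a hne
  set q := a l with hq
  set A := T.filter fun j => a j = q + 1 with hA
  set B := T.filter fun j => ¬ a j = q + 1 with hB
  have hBq : ∀ j ∈ B, a j = q := by
    intro j hj
    rw [hB, mem_filter] at hj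
    have h1 := h j hj.1 l hl
    have h2 := hmin j hj.1
    have h3 := hj.2
    omega
  have hAq : ∀ j ∈ A, a j = q + 1 := by
    intro j hj
    rw [hA, mem_filter] at hj
    exact hj.2
  have hcard : A.card + B.card = R := by
    rw [hA, hB, ← hT]
    exact card_filter_add_card_filter_not _
  have hlB : l ∈ B := by
    rw [hB, mem_filter]
    exact ⟨hl, by omega⟩
  have hBpos : 0 < B.card := card_pos.2 ⟨l, hlB⟩
  have hsum : ∑ j ∈ T, a j = R * q + A.card := by
    rw [← sum_filter_add_sum_filter_not T (fun j => a j = q + 1)]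
    rw [← hA, ← hB, sum_congr rfl hAq, sum_congr rfl hBq, sum_const, sum_const, smul_eq_mul,
      smul_eq_mul, ← hcard]
    ring
  have hdiv : (∑ j ∈ T, a j) / R = q := by
    rw [hsum, Nat.mul_add_div (by omega), Nat.div_eq_of_lt (by omega), add_zero]
  have hmod : (∑ j ∈ T, a j) % R = A.card := by
    rw [hsum, Nat.mul_add_mod, Nat.mod_eq_of_lt (by omega)]
  let eA := A.equivFin.symm
  let eB := B.equivFin.symm
  have hlt : ∀ i : Fin R, ¬ i.val < A.card → i.val - A.card < B.card := by
    intro i hi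
    have := i.2
    omega
  let σ : Fin R → κ := fun i =>
    if hi : i.val < A.card then (eA ⟨i.val, hi⟩ : κ) else (eB ⟨i.val - A.card, hlt i hi⟩ : κ)
  have hσA : ∀ i : Fin R, ∀ hi : i.val < A.card, σ i = (eA ⟨i.val, hi⟩ : κ) := fun i hi => by
    simp only [σ, dif_pos hi]
  have hσB : ∀ i : Fin R, ∀ hi : ¬ i.val < A.card,
      σ i = (eB ⟨i.val - A.card, hlt i hi⟩ : κ) := fun i hi => by
    simp only [σ, dif_neg hi]
  have hmA : ∀ i : Fin R, i.val < A.card → σ i ∈ A := fun i hi => by
    rw [hσA i hi]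
    exact (eA _).2
  have hmB : ∀ i : Fin R, ¬ i.val < A.card → σ i ∈ B := fun i hi => by
    rw [hσB i hi]
    exact (eB _).2
  have hdisj : ∀ x, x ∈ A → x ∈ B → False := by
    intro x hx hy
    rw [hA, mem_filter] at hx
    rw [hB, mem_filter] at hy
    exact hy.2 hx.2
  have hinj : Function.Injective σ := by
    intro i j hij
    by_cases hi : i.val < A.card
    · by_cases hj : j.val < A.card
      · rw [hσA i hi, hσA j hj] at hij
        have h1 := eA.injective (Subtype.ext hij)
        rw [Fin.mk.injEq] at h1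
        exact Fin.ext h1
      · exact absurd (hij ▸ hmA i hi) fun h1 => hdisj _ h1 (hmB j hj)
    · by_cases hj : j.val < A.card
      · exact absurd (hij ▸ hmB i hi) fun h1 => hdisj _ (hmA j hj) h1
      · rw [hσB i hi, hσB j hj] at hij
        have h1 := eB.injective (Subtype.ext hij)
        rw [Fin.mk.injEq] at h1
        exact Fin.ext (by omega)
  have hmem : ∀ i : Fin R, σ i ∈ T := by
    intro i
    by_cases hi : i.val < A.card
    · exact (mem_filter.1 (hmA i hi)).1
    · exact (mem_filter.1 (hmB i hi)).1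
  have himg : (univ : Finset (Fin R)).image σ = T := by
    refine eq_of_subset_of_card_le ?_ ?_
    · intro x hx
      obtain ⟨i, -, rfl⟩ := mem_image.1 hx
      exact hmem i
    · rw [card_image_of_injective _ hinj, card_univ, Fintype.card_fin, hT]
  refine ⟨σ, ⟨fun i _ => hmem i, hinj.injOn, ?_⟩, ?_⟩
  · intro x hx
    have hx' : x ∈ (univ : Finset (Fin R)).image σ := by
      rw [himg]
      exact hx
    obtain ⟨i, hi, h1⟩ := mem_image.1 hx'
    exact ⟨i, by simp, h1⟩
  · intro i
    unfold bal
    rw [hdiv, hmod]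
    by_cases hi : i.val < A.card
    · rw [hAq _ (hmA i hi), if_pos hi]
    · rw [hBq _ (hmB i hi), if_neg hi, add_zero]

/-- the balanced vector is best -/
theorem bal_max (hcs : 2 ≤ Fintype.card ι) (hJ : 1 ≤ oe J) : ∃ θ₀ : ℝ, 0 < θ₀ ∧
    ∀ (R : ℕ) (κ : Type) [DecidableEq κ] (T : Finset κ) (a : κ → ℕ), 1 ≤ R → T.card = R →
    (∀ j ∈ T, (a j : ℝ) ≤ θ₀ * ∑ j ∈ T, (a j : ℝ)) → 3 ≤ θ₀ * ∑ j ∈ T, (a j : ℝ) →
    (fJ J T a : ℝ) + 1 / 2 * (∑ j ∈ T, (a j : ℝ)) ^ (Fintype.card ι - 2) *
      (e2 univ (bal R (∑ j ∈ T, a j)) - e2 T a) ≤ FT J R (∑ j ∈ T, a j) := by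
  classical
  obtain ⟨C, hC, htr⟩ := tr_lower J hcs
  set s := Fintype.card ι with hs
  have hs0 : (2 : ℝ) ≤ s := by exact_mod_cast hcs
  have he1 : (1 : ℝ) ≤ (oe J : ℝ) := by exact_mod_cast hJ
  obtain ⟨θ₀, hθ0, hθC, hθs, hθ8⟩ : ∃ θ₀ : ℝ, 0 < θ₀ ∧ 2 * C * θ₀ ≤ 1 / 4 ∧ (s : ℝ) * θ₀ / 3 ≤ 1 / 4 ∧
      θ₀ ≤ 1 / 8 := by
    refine ⟨min (1 / (8 * C)) (min (3 / (4 * s)) (1 / 8)), by positivity, ?_, ?_, ?_⟩
    · have h1 : min (1 / (8 * C)) (min (3 / (4 * (s : ℝ))) (1 / 8)) ≤ 1 / (8 * C) := min_le_left _ _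
      calc 2 * C * min (1 / (8 * C)) (min (3 / (4 * (s : ℝ))) (1 / 8)) ≤ 2 * C * (1 / (8 * C)) :=
            mul_le_mul_of_nonneg_left h1 (by positivity)
        _ = 1 / 4 := by field_simp; norm_num
    · have h1 : min (1 / (8 * C)) (min (3 / (4 * (s : ℝ))) (1 / 8)) ≤ 3 / (4 * s) :=
        (min_le_right _ _).trans (min_le_left _ _)
      calc (s : ℝ) * min (1 / (8 * C)) (min (3 / (4 * (s : ℝ))) (1 / 8)) / 3
          ≤ (s : ℝ) * (3 / (4 * s)) / 3 := by
            refine div_le_div_of_nonneg_right (mul_le_mul_of_nonneg_left h1 (by positivity)) ?_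
            norm_num
        _ = 1 / 4 := by field_simp
    · exact (min_le_right _ _).trans (min_le_right _ _)
  refine ⟨θ₀, hθ0, ?_⟩
  intro R κ _ T a hR hT
  induction hN : ∑ j ∈ T, (a j) ^ 2 using Nat.strong_induction_on generalizing a with
  | _ N ih =>
    intro hsm hbig
    by_cases hex : ∃ k ∈ T, ∃ l ∈ T, a l + 2 ≤ a k
    · obtain ⟨k, hk, l, hl, hkl⟩ := hex
      have hne : k ≠ l := by
        rintro rfl
        omega
      set n : ℝ := ∑ j ∈ T, (a j : ℝ) with hn
      have hn0 : 0 ≤ n := sum_nonneg fun _ _ => Nat.cast_nonneg _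
      have hn24 : 24 ≤ n := by
        have h1 := mul_le_mul_of_nonneg_right hθ8 hn0
        linarith only [hbig, h1]
      -- one point removed
      set b : κ → ℕ := Function.update a k (a k - 1) with hb
      have hbk : b k = a k - 1 := by rw [hb]; exact Function.update_self _ _ _
      have hbj : ∀ j, j ≠ k → b j = a j := fun j hj => by
        rw [hb]; exact Function.update_of_ne hj _ _
      have hbk' : (b k : ℝ) = (a k : ℝ) - 1 := by
        rw [hbk, Nat.cast_sub (by omega)]
        norm_num
      have hbl : b l = a l := hbj l hne.symm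
      have hub : up b k = a := by
        unfold up
        rw [hbk, hb, Function.update_idem, Nat.sub_add_cancel (by omega)]
        exact Function.update_eq_self _ _
      set a' : κ → ℕ := up b l with ha'
      have ha'l : a' l = a l + 1 := by
        rw [ha']
        unfold up
        rw [Function.update_self, hbl]
      have ha'k : a' k = a k - 1 := by
        rw [ha']
        unfold up
        rw [Function.update_of_ne hne, hbk]
      have ha'j : ∀ j, j ≠ k → j ≠ l → a' j = a j := by
        intro j h1 h2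
        rw [ha']
        unfold up
        rw [Function.update_of_ne h2, hbj j h1]
      have hlk : l ∈ T.erase k := mem_erase.2 ⟨hne.symm, hl⟩
      have hsplit : ∀ (M : Type) [AddCommMonoid M] (f : κ → M),
          ∑ j ∈ T, f j = f k + (f l + ∑ j ∈ (T.erase k).erase l, f j) := by
        intro M _ f
        rw [← add_sum_erase T _ hk, ← add_sum_erase (T.erase k) _ hlk]
      have hrest : ∀ (M : Type) [AddCommMonoid M] (f : ℕ → M),
          ∑ j ∈ (T.erase k).erase l, f (a' j) = ∑ j ∈ (T.erase k).erase l, f (a j) := by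
        intro M _ f
        refine sum_congr rfl fun j hj => ?_
        rw [mem_erase, mem_erase] at hj
        rw [ha'j j hj.2.1 hj.1]
      have hsumN : ∑ j ∈ T, a' j = ∑ j ∈ T, a j := by
        rw [hsplit ℕ a', hsplit ℕ a, hrest ℕ (fun x => x), ha'k, ha'l]
        omega
      have hsumR : ∑ j ∈ T, (a' j : ℝ) = n := by
        rw [hn]
        exact_mod_cast hsumN
      have hsumb : ∑ j ∈ T, (b j : ℝ) = n - 1 := by
        have h1 : ∑ j ∈ (T.erase k).erase l, (b j : ℝ) = ∑ j ∈ (T.erase k).erase l, (a j : ℝ) := by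
          refine sum_congr rfl fun j hj => ?_
          rw [mem_erase, mem_erase] at hj
          rw [hbj j hj.2.1]
        rw [hn, hsplit ℝ (fun j => (b j : ℝ)), hsplit ℝ (fun j => (a j : ℝ)), h1, hbk', hbl]
        ring
      -- the squares
      have hkge : (a l : ℝ) + 2 ≤ a k := by exact_mod_cast hkl
      have hsqN : ∑ j ∈ T, (a' j) ^ 2 < N := by
        rw [← hN, hsplit ℕ (fun j => (a' j) ^ 2), hsplit ℕ (fun j => (a j) ^ 2),
          hrest ℕ (fun x => x ^ 2)]
        rw [ha'k, ha'l]
        obtain ⟨t, ht⟩ : ∃ t, a k = a l + 2 + t := ⟨a k - (a l + 2), by omega⟩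
        rw [ht, show a l + 2 + t - 1 = a l + 1 + t by omega]
        exact BalM_ar _ _ _
      have hsqR : ∑ j ∈ T, (a j : ℝ) ^ 2 - ∑ j ∈ T, (a' j : ℝ) ^ 2 =
          2 * ((a k : ℝ) - 1 - a l) := by
        rw [hsplit ℝ (fun j => (a' j : ℝ) ^ 2), hsplit ℝ (fun j => (a j : ℝ) ^ 2),
          hrest ℝ (fun x => (x : ℝ) ^ 2), ha'k, ha'l, Nat.cast_sub (by omega)]
        push_cast
        ring
      have he2 : e2 T a' - e2 T a = (a k : ℝ) - 1 - a l := by
        rw [BalM_e2, BalM_e2, hsumR, ← hn]
        linarith only [hsqR]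
      -- induction hypothesis
      have hsm' : ∀ j ∈ T, (a' j : ℝ) ≤ θ₀ * ∑ j ∈ T, (a' j : ℝ) := by
        intro j hj
        rw [hsumR]
        by_cases h1 : j = k
        · subst h1
          refine le_trans ?_ (hsm j hj)
          rw [ha'k, Nat.cast_sub (by omega)]
          push_cast
          exact sub_le_self _ zero_le_one
        · by_cases h2 : j = l
          · subst h2
            refine le_trans ?_ (hsm k hk)
            rw [ha'l]
            push_cast
            linarith only [hkge]
          · rw [ha'j j h1 h2]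
            exact hsm j hj
      have hih := ih _ hsqN a' rfl hsm' (by rw [hsumR]; exact hbig)
      rw [hsumN, hsumR] at hih
      -- the gain
      clear_value n a' b s
      have hgain := htr (2 * θ₀) (by linarith only [hθ0]) (by linarith only [hθ8])
        (by linarith only [hθC, he1]) κ T b k hk l hl
        (by rw [hbk, hbl]; omega) ?_ ?_
      · rw [hub, ← ha', hsumb, hbk', hbl] at hgain
        have hd0 : 0 ≤ (a k : ℝ) - 1 - a l := by linarith only [hkge]
        have hn1 : (0 : ℝ) < n := by linarith only [hn24]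
        have hber : 3 / 4 * n ^ (s - 2) ≤ (n - 1) ^ (s - 2) := by
          have h1 := one_add_mul_le_pow (a := -(1 / n)) (by
            have : 1 / n ≤ 1 := by
              rw [div_le_one hn1]
              linarith only [hn24]
            linarith only [this]) (s - 2)
          have h2 : ((s - 2 : ℕ) : ℝ) ≤ s := by exact_mod_cast Nat.sub_le s 2
          have h3 : (s : ℝ) / n ≤ 1 / 4 := by
            refine le_trans ?_ hθs
            rw [div_le_iff₀ hn1]
            have h6 := mul_le_mul_of_nonneg_left hbig (zero_le_two.trans hs0)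
            linarith only [h6]
          have h4 : ((s - 2 : ℕ) : ℝ) * (1 / n) ≤ 1 / 4 := by
            refine le_trans ?_ h3
            rw [mul_one_div]
            exact div_le_div_of_nonneg_right h2 hn1.le
          have h5 : (n - 1) ^ (s - 2) = (1 + -(1 / n)) ^ (s - 2) * n ^ (s - 2) := by
            rw [← mul_pow]
            congr 1
            rw [add_mul, neg_mul, one_div, inv_mul_cancel₀ hn1.ne', one_mul, sub_eq_add_neg]
          rw [h5]
          refine mul_le_mul_of_nonneg_right ?_ (pow_nonneg hn1.le _)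
          linarith only [h1, h4]
        have hE : 3 / 4 ≤ (oe J : ℝ) - C * (2 * θ₀) := by linarith only [hθC, he1]
        have hnp : 0 ≤ n ^ (s - 2) := pow_nonneg hn1.le _
        have hfin : 1 / 2 * n ^ (s - 2) * ((a k : ℝ) - 1 - a l) ≤
            (fJ J T a' : ℝ) - fJ J T a := by
          refine le_trans ?_ hgain
          calc 1 / 2 * n ^ (s - 2) * ((a k : ℝ) - 1 - a l)
              ≤ 3 / 4 * ((a k : ℝ) - 1 - a l) * (3 / 4 * n ^ (s - 2)) := by
                linarith only [mul_nonneg hd0 hnp]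
            _ ≤ ((oe J : ℝ) - C * (2 * θ₀)) * ((a k : ℝ) - 1 - a l) * (n - 1) ^ (s - 2) := by
                refine mul_le_mul (mul_le_mul_of_nonneg_right hE hd0) hber
                  (mul_nonneg (by norm_num) hnp) ?_
                exact mul_nonneg (by linarith only [hE]) hd0
        have h6 : 1 / 2 * n ^ (s - 2) * (e2 T a' - e2 T a) ≤ (fJ J T a' : ℝ) - fJ J T a := by
          rw [he2]
          exact hfin
        linarith only [hih, h6]
      · intro j hj
        rw [hsumb]
        have h1 : (b j : ℝ) ≤ a j := by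
          by_cases h2 : j = k
          · subst h2
            rw [hbk']
            exact sub_le_self _ zero_le_one
          · rw [hbj j h2]
        have h2 := hsm j hj
        linarith only [h1, h2, hbig, hθ8]
      · rw [hsumb]
        linarith only [hbig, hθ8]
    · push Not at hex
      have hnear : ∀ k ∈ T, ∀ l ∈ T, a k ≤ a l + 1 := by
        intro k hk l hl
        have := hex k hk l hl
        omega
      obtain ⟨σ, hσ, hb⟩ := BalM_perm T a hR hT hnear
      have h1 : fJ J (univ : Finset (Fin R)) (bal R (∑ j ∈ T, a j)) = fJ J T a := by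
        rw [← fJ_map J σ hσ a]
        exact fJ_congr J fun i _ => (hb i).symm
      have hsumf : ∀ f : ℕ → ℝ, ∑ i : Fin R, f (bal R (∑ j ∈ T, a j) i) = ∑ j ∈ T, f (a j) := by
        intro f
        refine sum_bij (fun i _ => σ i) (fun i _ => hσ.1 (by simp)) (fun i _ j _ hij => ?_) ?_ ?_
        · exact hσ.2.1 (by simp) (by simp) hij
        · intro x hx
          obtain ⟨i, -, hi⟩ := hσ.2.2 hx
          exact ⟨i, mem_univ i, hi⟩
        · intro i _
          rw [hb i]
      have h2 : e2 univ (bal R (∑ j ∈ T, a j)) = e2 T a := by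
        rw [BalM_e2, BalM_e2, hsumf (fun x => (x : ℝ)), hsumf (fun x => (x : ℝ) ^ 2)]
      rw [h2, sub_self, mul_zero, add_zero]
      unfold FT
      rw [h1]

end H57GH
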