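import Pool.Agent.H57.GH.BalE
import Pool.Agent.H57.GH.BalM
import Pool.Agent.H57.GH.BalF

/-!
Collects `BalE`, `BalM`, `BalF`.
-/
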