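import Pool.Agent.H57.GH.JoinH
import Pool.Agent.H57.GH.Bal
import Pool.Agent.H57.LT.Rho

/-!
Bounds for `rhoG`.
-/

namespace H57GH

open Finset H57LC H57LT

set_option linter.unusedSectionVars false

variable {ι : Type*} [Fintype ι] [DecidableEq ι] (J : SimpleGraph ι) [DecidableRel J.Adj]

theorem RhoG_xg (w r m : ℕ) (i : Fin w) : ((xg w r m i : ℕ) : ℝ) = xN w r m i := by
  unfold xg xN
  split_ifs <;> simp

theorem RhoG_mul {u R r m : ℕ} (hm : 1 ≤ m) :
    rhoG J u R r m * ∑ T ∈ powersetCard R (univ : Finset (Fin (R + u))), wN (R + u) r m T =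
      ∑ T ∈ powersetCard R (univ : Finset (Fin (R + u))),
        (fJ J T (xg (R + u) r m) : ℝ) * wN (R + u) r m T := by
  have hc : (univ : Finset (Fin (R + u))).card = R + u := by rw [card_univ, Fintype.card_fin]
  have hx : ∀ k ∈ (univ : Finset (Fin (R + u))), 0 < xN (R + u) r m k := fun k _ => xN_pos hm k
  have h2 := sum_inv_sub hc hx
  have h3 : 0 < eN (R + u) r m u := eN_pos hm (by omega)
  have hP : 0 < ∏ k : Fin (R + u), xN (R + u) r m k := prod_pos hx
  have e1 : eS (univ : Finset (Fin (R + u))) (xN (R + u) r m) u = eN (R + u) r m u := rfl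
  have h4 : ∀ T ∈ powersetCard R (univ : Finset (Fin (R + u))),
      (∏ k ∈ univ \ T, ((xg (R + u) r m k : ℕ) : ℝ)) * fJ J T (xg (R + u) r m) =
      (∏ k : Fin (R + u), xN (R + u) r m k) *
        ((fJ J T (xg (R + u) r m) : ℝ) * wN (R + u) r m T) := by
    intro T _
    have h5 : (∏ k ∈ univ \ T, xN (R + u) r m k) * ∏ k ∈ T, xN (R + u) r m k =
        ∏ k : Fin (R + u), xN (R + u) r m k := prod_sdiff (subset_univ T)
    have h6 : (∏ k ∈ T, xN (R + u) r m k) * wN (R + u) r m T = 1 := by
      unfold wN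
      rw [← prod_mul_distrib]
      exact prod_eq_one fun k _ => mul_inv_cancel₀ (xN_pos hm k).ne'
    have h7 : (∏ k ∈ univ \ T, ((xg (R + u) r m k : ℕ) : ℝ)) = ∏ k ∈ univ \ T, xN (R + u) r m k :=
      prod_congr rfl fun k _ => RhoG_xg _ _ _ _
    rw [h7, ← h5]
    linear_combination (-(∏ k ∈ univ \ T, xN (R + u) r m k) *
      (fJ J T (xg (R + u) r m) : ℝ)) * h6
  unfold rhoG
  rw [sum_congr rfl h4, ← mul_sum]
  unfold wN at h2 ⊢
  rw [h2, e1, prod_inv_distrib]
  field_simp

theorem M0_le_rhoG {u R r m : ℕ} (hm : 1 ≤ m) (hR : 1 ≤ R) (hr : r ≤ R + u) :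
    M0 J R m ≤ rhoG J u R r m := by
  have hW := sum_wN_pos (u := u) (R := R) (r := r) hm
  refine le_of_mul_le_mul_right ?_ hW
  rw [RhoG_mul J hm, mul_sum]
  refine sum_le_sum fun T hT => ?_
  refine mul_le_mul_of_nonneg_right ?_ (wN_pos hm T).le
  rw [← fJ_const J (mem_powersetCard.1 hT).2 m]
  have h := fJ_mono J (T := T) (a := fun _ => m) (b := xg (R + u) r m) fun k _ => by
    unfold xg
    omega
  exact_mod_cast h

/-- the vector with one more point in the classes of `S` -/
def RhoG_v {κ : Type} [DecidableEq κ] (m : ℕ) (S : Finset κ) (k : κ) : ℕ :=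
  m + if k ∈ S then 1 else 0

theorem RhoG_v_up {κ : Type} [DecidableEq κ] (m : ℕ) {S : Finset κ} {k : κ} (hk : k ∉ S) :
    up (RhoG_v m S) k = RhoG_v m (insert k S) := by
  funext l
  unfold up RhoG_v
  by_cases hl : l = k
  · subst hl
    rw [Function.update_self, if_neg hk, if_pos (mem_insert_self _ _)]
  · rw [Function.update_of_ne hl]
    congr 1
    simp [mem_insert, hl]

theorem RhoG_near (hcs : 2 ≤ Fintype.card ι) (R : ℕ) (hR : 1 ≤ R) : ∃ C : ℝ, 0 < C ∧
    ∀ m : ℕ, 1 ≤ m → ∀ (κ : Type) [DecidableEq κ] (T : Finset κ), T.card = R →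
      ∀ S : Finset κ, S ⊆ T →
      |(fJ J T (RhoG_v m S) : ℝ) - M0 J R m -
        (S.card : ℝ) * ((Fintype.card ι : ℝ) / R * M0 J R m / m)| ≤
        C * (m : ℝ) ^ (Fintype.card ι - 2) := by
  obtain ⟨C, hC, h⟩ := D_est J hcs R hR
  have hR0 : (0 : ℝ) < R := by exact_mod_cast hR
  refine ⟨R * (C * 2), by positivity, ?_⟩
  intro m hm κ _ T hT S hS
  have hm1 : (1 : ℝ) ≤ m := by exact_mod_cast hm
  have key : ∀ S : Finset κ, S ⊆ T →
      |(fJ J T (RhoG_v m S) : ℝ) - M0 J R m -
        (S.card : ℝ) * ((Fintype.card ι : ℝ) / R * M0 J R m / m)| ≤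
        (S.card : ℝ) * (C * 2 * (m : ℝ) ^ (Fintype.card ι - 2)) := by
    intro S
    induction S using Finset.induction_on with
    | empty =>
      intro _
      have h1 : RhoG_v m (∅ : Finset κ) = fun _ => m := by
        funext k
        simp [RhoG_v]
      rw [h1, fJ_const J hT m]
      simp
    | insert k S hk ih =>
      intro hS
      have hkT : k ∈ T := hS (mem_insert_self _ _)
      have ih' := ih ((subset_insert _ _).trans hS)
      have h1 := h m hm κ T hT k hkT (RhoG_v m S) 1 zero_le_one hm1 (fun l _ => by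
        unfold RhoG_v
        split_ifs
        · push_cast
          simp
        · simp)
      rw [RhoG_v_up m hk] at h1
      rw [card_insert_of_notMem hk]
      push_cast
      have h2 : (fJ J T (RhoG_v m (insert k S)) : ℝ) - M0 J R m -
          ((S.card : ℝ) + 1) * ((Fintype.card ι : ℝ) / R * M0 J R m / m) =
          ((fJ J T (RhoG_v m (insert k S)) : ℝ) - fJ J T (RhoG_v m S) -
            (Fintype.card ι : ℝ) / R * M0 J R m / m) +
          ((fJ J T (RhoG_v m S) : ℝ) - M0 J R m -
            (S.card : ℝ) * ((Fintype.card ι : ℝ) / R * M0 J R m / m)) := by ring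
      rw [h2]
      refine (abs_add_le _ _).trans ?_
      have h3 : C * (m : ℝ) ^ (Fintype.card ι - 2) * (1 + 1) =
        C * 2 * (m : ℝ) ^ (Fintype.card ι - 2) := by ring
      rw [h3] at h1
      linarith only [ih', h1]
  refine (key S hS).trans ?_
  have h1 : (S.card : ℝ) ≤ R := by
    rw [← hT]
    exact_mod_cast card_le_card hS
  have h2 : (0 : ℝ) ≤ C * 2 * (m : ℝ) ^ (Fintype.card ι - 2) := by positivity
  calc (S.card : ℝ) * (C * 2 * (m : ℝ) ^ (Fintype.card ι - 2))
      ≤ R * (C * 2 * (m : ℝ) ^ (Fintype.card ι - 2)) := mul_le_mul_of_nonneg_right h1 h2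
    _ = _ := by ring

theorem RhoG_xg_v {w r m : ℕ} (T : Finset (Fin w)) :
    fJ J T (xg w r m) = fJ J T (RhoG_v m (T.filter fun i => i.val < r)) := by
  refine fJ_congr J fun k hk => ?_
  unfold xg RhoG_v
  simp [mem_filter, hk]

/-- the weighted average of the number of large classes -/
theorem RhoG_avg {u R r m : ℕ} (hm : 1 ≤ m) (hR : 1 ≤ R) (hr : r ≤ R + u) :
    (r : ℝ) * R / (R + u) * (1 - R / m) *
        ∑ T ∈ powersetCard R (univ : Finset (Fin (R + u))), wN (R + u) r m T ≤
      ∑ T ∈ powersetCard R (univ : Finset (Fin (R + u))),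
        ((T.filter fun i => i.val < r).card : ℝ) * wN (R + u) r m T := by
  have hp : (0 : ℝ) < m := by exact_mod_cast hm
  have hR0 : (0 : ℝ) < R := by exact_mod_cast hR
  have hW := sum_wN_pos (u := u) (R := R) (r := r) hm
  rcases le_or_gt 0 (1 - (R : ℝ) / m) with hc | hc
  · set P := powersetCard R (univ : Finset (Fin (R + u))) with hP
    have hjT : ∀ T ∈ P, ((T.filter fun i => i.val < r).card : ℝ) ≤ R := by
      intro T hT
      have := card_filter_le T (fun i => i.val < r)
      rw [(mem_powersetCard.1 hT).2] at this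
      exact_mod_cast this
    have hw : ∀ T ∈ P, wN (R + u) r m T =
        ((1 + 1 / (m : ℝ))⁻¹) ^ (T.filter fun i => i.val < r).card / (m : ℝ) ^ R := by
      intro T hT
      have := prod_eq (r := r) hm T
      rw [(mem_powersetCard.1 hT).2] at this
      exact this
    have hx0 : (0 : ℝ) ≤ 1 / (m : ℝ) := by positivity
    have hup : ∑ T ∈ P, wN (R + u) r m T ≤ ((R + u).choose R : ℝ) / (m : ℝ) ^ R := by
      have h1 : ∀ T ∈ P, wN (R + u) r m T ≤ 1 / (m : ℝ) ^ R := by
        intro T hT
        rw [hw T hT]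
        refine div_le_div_of_nonneg_right ?_ (by positivity)
        refine pow_le_one₀ (by positivity) ?_
        exact inv_le_one_of_one_le₀ (by linarith only [hx0])
      refine (sum_le_sum h1).trans (le_of_eq ?_)
      rw [sum_const, hP, card_powersetCard, card_univ, Fintype.card_fin, nsmul_eq_mul, mul_one_div]
    have hlow : (1 - (R : ℝ) / m) / (m : ℝ) ^ R * (r * ((R + u - 1).choose (R - 1) : ℝ)) ≤
        ∑ T ∈ P, ((T.filter fun i => i.val < r).card : ℝ) * wN (R + u) r m T := by
      rw [← sum_cap hR hr, mul_sum]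
      refine sum_le_sum fun T hT => ?_
      rw [mul_comm]
      refine mul_le_mul_of_nonneg_left ?_ (Nat.cast_nonneg _)
      rw [hw T hT]
      refine div_le_div_of_nonneg_right ?_ (by positivity)
      refine le_trans ?_ (inv_pow_ge hx0 _)
      have h1 := mul_le_mul_of_nonneg_right (hjT T hT) hx0
      have h2 : (R : ℝ) * (1 / m) = R / m := by ring
      linarith only [h1, h2]
    have hchoose : ((R : ℝ) + u) * ((R + u - 1).choose (R - 1) : ℝ) =
        ((R + u).choose R : ℝ) * R := by
      obtain ⟨b, rfl⟩ : ∃ b, R = b + 1 := ⟨R - 1, by omega⟩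
      have e : b + 1 + u - 1 = b + u := by omega
      have e' : b + 1 + u = (b + u) + 1 := by omega
      have h := Nat.add_one_mul_choose_eq (b + u) b
      rw [e, Nat.add_sub_cancel, e']
      have h' : (((b + u : ℕ) : ℝ) + 1) * ((b + u).choose b : ℝ) =
          ((b + u + 1).choose (b + 1) : ℝ) * (b + 1) := by
        exact_mod_cast h
      push_cast at h' ⊢
      linarith only [h']
    have hcoef : 0 ≤ (r : ℝ) * R / (R + u) * (1 - R / m) := by positivity
    calc (r : ℝ) * R / (R + u) * (1 - R / m) * ∑ T ∈ P, wN (R + u) r m T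
        ≤ (r : ℝ) * R / (R + u) * (1 - R / m) * (((R + u).choose R : ℝ) / (m : ℝ) ^ R) :=
          mul_le_mul_of_nonneg_left hup hcoef
      _ = (1 - (R : ℝ) / m) / (m : ℝ) ^ R * (r * ((R + u - 1).choose (R - 1) : ℝ)) := by
          have e1 : ((R + u).choose R : ℝ) =
              ((R : ℝ) + u) * ((R + u - 1).choose (R - 1) : ℝ) / R := by
            rw [hchoose]
            field_simp
          rw [e1]
          field_simp
      _ ≤ _ := hlow
  · have h1 : (r : ℝ) * R / (R + u) * (1 - R / m) ≤ 0 :=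
      mul_nonpos_of_nonneg_of_nonpos (by positivity) hc.le
    exact (mul_nonpos_of_nonpos_of_nonneg h1 hW.le).trans
      (sum_nonneg fun T _ => mul_nonneg (Nat.cast_nonneg _) (wN_pos hm T).le)

theorem rhoG_bounds (hcs : 2 ≤ Fintype.card ι) (u R r : ℕ) (hR : 1 ≤ R) (hr : r ≤ R + u)
    (hM : ∀ m : ℕ, 1 ≤ m → ((R : ℝ) * m) ^ Fintype.card ι ≤ 2 * M0 J R m) :
    ∃ C : ℝ, 0 < C ∧ ∀ m : ℕ, 1 ≤ m →
      M0 J R m * (1 + (Fintype.card ι : ℝ) * r / (R + u) / m * (1 - C / m)) ≤ rhoG J u R r m ∧
      rhoG J u R r m ≤ M0 J R m * (1 + C / m) := by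
  obtain ⟨K, hK, hnear⟩ := RhoG_near J hcs R hR
  have hR0 : (0 : ℝ) < R := by exact_mod_cast hR
  have hR1 : (1 : ℝ) ≤ R := by exact_mod_cast hR
  set s := Fintype.card ι with hs
  have hs2 : (2 : ℝ) ≤ s := by exact_mod_cast hcs
  refine ⟨R + 2 * K * (R + u) + s, by positivity, ?_⟩
  intro m hm
  have hp : (0 : ℝ) < m := by exact_mod_cast hm
  have hm1 : (1 : ℝ) ≤ m := by exact_mod_cast hm
  have hM0 : 0 ≤ M0 J R m := by
    unfold M0
    exact Nat.cast_nonneg _
  -- the error term
  have herr : K * (m : ℝ) ^ (s - 2) ≤ 2 * K * M0 J R m / (m : ℝ) ^ 2 := by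
    have h1 := hM m hm
    have h2 : (m : ℝ) ^ s ≤ ((R : ℝ) * m) ^ s := by
      refine pow_le_pow_left₀ hp.le ?_ _
      nlinarith only [hR1]
    have h3 : (m : ℝ) ^ s = (m : ℝ) ^ (s - 2) * (m : ℝ) ^ 2 := by
      rw [← pow_add]
      congr 1
      omega
    rw [le_div_iff₀ (by positivity)]
    have h4 : (m : ℝ) ^ (s - 2) * (m : ℝ) ^ 2 ≤ 2 * M0 J R m := by
      rw [← h3]
      exact h2.trans h1
    have := mul_le_mul_of_nonneg_left h4 hK.le
    linarith
  have hW := sum_wN_pos (u := u) (R := R) (r := r) hm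
  have hterm : ∀ T ∈ powersetCard R (univ : Finset (Fin (R + u))),
      |(fJ J T (xg (R + u) r m) : ℝ) - M0 J R m -
        ((T.filter fun i => i.val < r).card : ℝ) * ((s : ℝ) / R * M0 J R m / m)| ≤
        2 * K * M0 J R m / (m : ℝ) ^ 2 := by
    intro T hT
    rw [RhoG_xg_v J T]
    exact (hnear m hm _ T (mem_powersetCard.1 hT).2 _ (filter_subset _ _)).trans herr
  have hn0 : 0 ≤ (s : ℝ) / R * M0 J R m / m := by positivity
  constructor
  · rcases Nat.eq_zero_or_pos r with hr0 | hr0
    · subst hr0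
      have h1 := M0_le_rhoG J (u := u) (r := 0) hm hR hr
      simpa using h1
    · have hr1 : (1 : ℝ) ≤ r := by exact_mod_cast hr0
      refine le_of_mul_le_mul_right ?_ hW
      rw [RhoG_mul J hm]
      have hlow : ∑ T ∈ powersetCard R (univ : Finset (Fin (R + u))),
          ((M0 J R m - 2 * K * M0 J R m / (m : ℝ) ^ 2) * wN (R + u) r m T +
            (s : ℝ) / R * M0 J R m / m *
              (((T.filter fun i => i.val < r).card : ℝ) * wN (R + u) r m T)) ≤
          ∑ T ∈ powersetCard R (univ : Finset (Fin (R + u))),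
            (fJ J T (xg (R + u) r m) : ℝ) * wN (R + u) r m T := by
        refine sum_le_sum fun T hT => ?_
        have h1 := (abs_le.1 (hterm T hT)).1
        have h2 : M0 J R m - 2 * K * M0 J R m / (m : ℝ) ^ 2 +
            (s : ℝ) / R * M0 J R m / m * ((T.filter fun i => i.val < r).card : ℝ) ≤
            (fJ J T (xg (R + u) r m) : ℝ) := by linarith only [h1]
        have h3 := mul_le_mul_of_nonneg_right h2 (wN_pos (r := r) hm T).le
        refine le_trans (le_of_eq ?_) h3
        ring
      rw [sum_add_distrib, ← mul_sum, ← mul_sum] at hlow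
      have havg := mul_le_mul_of_nonneg_left (RhoG_avg (u := u) (r := r) hm hR hr) hn0
      set W := ∑ T ∈ powersetCard R (univ : Finset (Fin (R + u))), wN (R + u) r m T with hWdef
      have hRu : (0 : ℝ) < (R : ℝ) + u := by positivity
      have hineq : M0 J R m *
          (1 + (s : ℝ) * r / (R + u) / m * (1 - (R + 2 * K * (R + u) + s) / m)) ≤
          (M0 J R m - 2 * K * M0 J R m / (m : ℝ) ^ 2) +
            (s : ℝ) / R * M0 J R m / m * ((r : ℝ) * R / (R + u) * (1 - R / m)) := by
        have e1 : (s : ℝ) / R * M0 J R m / m * ((r : ℝ) * R / (R + u) * (1 - R / m)) =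
            M0 J R m * ((s : ℝ) * r / (R + u) / m * (1 - R / m)) := by
          field_simp
        rw [e1]
        have e2 : 2 * K * M0 J R m / (m : ℝ) ^ 2 = M0 J R m * (2 * K / (m : ℝ) ^ 2) := by ring
        rw [e2]
        have h1 : 2 * K / (m : ℝ) ^ 2 ≤
            (s : ℝ) * r / (R + u) / m * ((2 * K * (R + u) + s) / m) := by
          have h2 : (s : ℝ) * r / (R + u) / m * ((2 * K * (R + u) + s) / m) =
              ((s : ℝ) * r * (2 * K) + (s : ℝ) * r * s / (R + u)) / (m : ℝ) ^ 2 := by
            field_simp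
          rw [h2]
          refine div_le_div_of_nonneg_right ?_ (by positivity)
          have h3 : (1 : ℝ) ≤ (s : ℝ) * r := by nlinarith only [hr1, hs2]
          have h4 : (0 : ℝ) ≤ (s : ℝ) * r * s / (R + u) := by positivity
          nlinarith only [h4, hK, h3]
        have h5 : (1 : ℝ) + (s : ℝ) * r / (R + u) / m * (1 - (R + 2 * K * (R + u) + s) / m) ≤
            1 - 2 * K / (m : ℝ) ^ 2 + (s : ℝ) * r / (R + u) / m * (1 - R / m) := by
          have e3 : (s : ℝ) * r / (R + u) / m * (1 - (R + 2 * K * (R + u) + s) / m) =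
              (s : ℝ) * r / (R + u) / m * (1 - R / m) -
                (s : ℝ) * r / (R + u) / m * ((2 * K * (R + u) + s) / m) := by ring
          rw [e3]
          linarith only [h1]
        have h6 := mul_le_mul_of_nonneg_left h5 hM0
        linarith only [h6]
      have h7 := mul_le_mul_of_nonneg_right hineq hW.le
      refine h7.trans (le_trans (le_of_eq ?_) (le_trans (add_le_add le_rfl havg) hlow))
      ring
  · refine le_of_mul_le_mul_right ?_ hW
    rw [RhoG_mul J hm, mul_sum]
    refine sum_le_sum fun T hT => ?_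
    refine mul_le_mul_of_nonneg_right ?_ (wN_pos hm T).le
    have h1 := (abs_le.1 (hterm T hT)).2
    have h2 : ((T.filter fun i => i.val < r).card : ℝ) ≤ R := by
      have := card_filter_le T (fun i => i.val < r)
      rw [(mem_powersetCard.1 hT).2] at this
      exact_mod_cast this
    have h3 := mul_le_mul_of_nonneg_right h2 hn0
    have h4 : (R : ℝ) * ((s : ℝ) / R * M0 J R m / m) = M0 J R m * ((s : ℝ) / m) := by
      field_simp
    have h5 : 2 * K * M0 J R m / (m : ℝ) ^ 2 ≤ M0 J R m * (2 * K / m) := by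
      have e : 2 * K * M0 J R m / (m : ℝ) ^ 2 = M0 J R m * (2 * K / (m : ℝ) ^ 2) := by ring
      rw [e]
      refine mul_le_mul_of_nonneg_left ?_ hM0
      refine div_le_div_of_nonneg_left (by positivity) hp ?_
      nlinarith only [hm1]
    have h6 : M0 J R m * (1 + (R + 2 * K * (R + u) + s) / m) =
        M0 J R m + M0 J R m * ((s : ℝ) / m) + M0 J R m * (2 * K / m) +
          M0 J R m * ((R + 2 * K * ((R : ℝ) + u - 1)) / m) := by
      field_simp
      ring
    rw [h6]
    have h7 : 0 ≤ M0 J R m * ((R + 2 * K * ((R : ℝ) + u - 1)) / m) := by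
      have h8 : (0 : ℝ) ≤ (R : ℝ) + u - 1 := by
        have : (0 : ℝ) ≤ u := Nat.cast_nonneg _
        linarith only [hR1]
      positivity
    linarith only [h1, h3, h4, h5, h7]

end H57GH
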