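import Pool.Agent.H57.GH.CopyA
import Pool.Agent.H57.GH.RhoG
import Pool.Agent.H57.LT.LimT

/-!
Copies of `K_u ∨ J` in the Turan graph.
-/

namespace H57GH

open Finset H57LC H57LT H57E32

set_option linter.unusedSectionVars false

/-- labelled copies in the Turan graph: the complete multipartite graph -/
theorem CopyE_emb_TG {ι' : Type*} [Fintype ι'] [DecidableEq ι'] (J' : SimpleGraph ι')
    [DecidableRel J'.Adj] {w r m : ℕ} (hw : 1 ≤ w) (hr : r < w) :
    (emb J' (TG w m r) univ).card = fJ J' (univ : Finset (Fin w)) (xg w r m) := by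
  have h1 : emb J' (TG w m r) univ = cm J' univ (tcN w m r hw) := by
    unfold emb cm
    refine Finset.filter_congr fun φ _ => ?_
    refine and_congr_right fun _ => ?_
    refine forall_congr' fun i => forall_congr' fun j => ?_
    rw [tcN_adj hw]
  rw [h1, cm_eq_fJ J' univ (tcN w m r hw) univ (fun _ _ => mem_univ _)]
  refine fJ_congr J' fun k _ => ?_
  have h2 := tcN_card (m := m) hw hr k
  unfold cls at h2
  rw [h2]
  rfl

/-- the Turan graph `L` -/
theorem emb_TG {ι : Type*} [Fintype ι] [DecidableEq ι] (J : SimpleGraph ι) [DecidableRel J.Adj]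
    {u R r m : ℕ} (hm : 1 ≤ m) (hR : 1 ≤ R) (hr : r < R + u) :
    ((emb (jn J u) (TG (R + u) m r) univ).card : ℝ) =
      u.factorial * rhoG J u R r m * kc u (TG (R + u) m r) := by
  have hw : 1 ≤ R + u := by omega
  have h0 : (0 : ℝ) < (kc u (TG (R + u) m r) : ℝ) := by
    exact_mod_cast kc_TG_pos_le hm hw hr (by omega)
  have h1 := kc_TG_eN (m := m) hw hr u
  rw [CopyE_emb_TG (jn J u) hw hr, fJ_join J (by rw [card_univ, Fintype.card_fin]) (xg (R + u) r m)]
  unfold rhoG
  rw [← h1]
  push_cast
  field_simp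

end H57GH
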