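import Pool.Agent.H57.GH.NegA
import Pool.Agent.H57.LT.LimT

/-!
The extremal function and its limit, from an upper bound attained by an allowed graph.
-/

namespace H57GH

open Finset H57E32 Filter Topology

set_option linter.unusedSectionVars false

theorem lim_gen {W : Type*} [Fintype W] (H : SimpleGraph W) {u Δ ω : ℕ} (hu : 1 ≤ u)
    (hω : u ≤ ω) (hW : 0 < Fintype.card W)
    (hcl : ∀ x : W, ∃ A : Finset W, x ∈ A ∧ H.IsNClique u A) {V : Type} [Fintype V]
    (L : SimpleGraph V) (hL : Allowed u Δ ω L) (hk : 0 < kc u L)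
    (hup : ∀ (n : ℕ) (G : SimpleGraph (Fin n)), Allowed u Δ ω G →
      G.copyCount H * kc u L ≤ kc u G * L.copyCount H) :
    (∀ p : ℕ, exH H u Δ ω p * kc u L ≤ p * L.copyCount H) ∧
      (∀ q : ℕ, exH H u Δ ω (q * kc u L) = q * L.copyCount H) ∧
      Tendsto (fun p : ℕ => (exH H u Δ ω p : ℝ) / p) atTop
        (𝓝 ((L.copyCount H : ℝ) / kc u L)) := by
  have hach : AchH H u Δ ω (kc u L) (L.copyCount H) := achH_of H L hL
  have hle : ∀ p : ℕ, exH H u Δ ω p * kc u L ≤ p * L.copyCount H := by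
    intro p
    have hbdd : BddAbove {N : ℕ | ∃ (n : ℕ) (G : SimpleGraph (Fin n)),
        Allowed u Δ ω G ∧ kc u G = p ∧ G.copyCount H = N} := by
      refine ⟨(p * u) ^ Fintype.card W, ?_⟩
      rintro N ⟨n, G', _, hp', rfl⟩
      rw [← hp']
      exact copyCount_le H G' hcl
    have hne : {N : ℕ | ∃ (n : ℕ) (G : SimpleGraph (Fin n)),
        Allowed u Δ ω G ∧ kc u G = p ∧ G.copyCount H = N}.Nonempty := by
      obtain ⟨n, G, h1, h2, _⟩ := hach.div hu hω hW p
      exact ⟨_, n, G, h1, h2, rfl⟩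
    obtain ⟨n, G, hG, hp, hN⟩ := Nat.sSup_mem hne hbdd
    have h := hup n G hG
    rw [hp, hN] at h
    exact h
  refine ⟨hle, fun q => ?_, ?_⟩
  · apply le_antisymm
    · have h := hle (q * kc u L)
      have h1 : exH H u Δ ω (q * kc u L) * kc u L ≤ (q * L.copyCount H) * kc u L := by
        calc _ ≤ _ := h
          _ = _ := by ring
      exact Nat.le_of_mul_le_mul_right h1 hk
    · exact le_exH hcl (hach.mul hu hW q)
  · refine H57LC.tendsto_of_bounds hk _ hle (fun p => ?_)
    exact le_exH hcl (hach.div hu hω hW p)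

end H57GH
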