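import Pool.Agent.H57.GH.JoinH

/-!
Copies of `K_u ∨ J` in a graph.
-/

namespace H57GH

open Finset H57LC H57LT

set_option linter.unusedSectionVars false

variable {ι : Type*} [Fintype ι] [DecidableEq ι] (J : SimpleGraph ι) [DecidableRel J.Adj]

/-- the orderings of a set with `u` elements -/
theorem JoinE_fact {V : Type*} [Fintype V] [DecidableEq V] {u : ℕ} (U : Finset V)
    (hU : U.card = u) :
    ((univ : Finset (Fin u → V)).filter fun f => Function.Injective f ∧ univ.image f = U).card =
      u.factorial := by
  classical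
  have e0 : Fin u ≃ U := (Finset.equivFinOfCardEq hU).symm
  have hc : Fintype.card (Fin u ≃ U) = u.factorial := by
    rw [Fintype.card_equiv e0, Fintype.card_fin]
  rw [← hc, ← Finset.card_univ]
  symm
  refine Finset.card_bij (fun (e : Fin u ≃ U) _ => fun i => (e i : V)) ?_ ?_ ?_
  · intro e _
    simp only [mem_filter, mem_univ, true_and]
    refine ⟨Subtype.val_injective.comp e.injective, ?_⟩
    ext v
    simp only [mem_image, mem_univ, true_and]
    constructor
    · rintro ⟨i, rfl⟩
      exact (e i).2
    · intro hv
      exact ⟨e.symm ⟨v, hv⟩, by simp⟩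
  · intro e1 _ e2 _ h
    ext i
    exact congrFun h i
  · intro f hf
    simp only [mem_filter, mem_univ, true_and] at hf
    have hm : ∀ i, f i ∈ U := fun i => hf.2 ▸ mem_image_of_mem f (mem_univ i)
    have hb : Function.Bijective (fun i : Fin u => (⟨f i, hm i⟩ : U)) := by
      constructor
      · intro i j hij
        exact hf.1 (congrArg Subtype.val hij)
      · rintro ⟨v, hv⟩
        rw [← hf.2] at hv
        obtain ⟨i, -, rfl⟩ := mem_image.1 hv
        exact ⟨i, rfl⟩
    exact ⟨Equiv.ofBijective _ hb, mem_univ _, rfl⟩

/-- in a graph `G` -/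
theorem emb_join {V : Type*} [Fintype V] [DecidableEq V] (G : SimpleGraph V) [DecidableRel G.Adj]
    (u : ℕ) :
    (emb (jn J u) G univ).card = u.factorial *
      ∑ U ∈ clq G univ u, (emb J G (cn G U)).card := by
  classical
  have key : (emb (jn J u) G univ).card =
      ((clq G univ u).sigma fun U =>
        ((univ : Finset (Fin u → V)).filter fun f =>
          Function.Injective f ∧ univ.image f = U) ×ˢ emb J G (cn G U)).card := by
    refine Finset.card_bij'
      (fun φ _ => (⟨univ.image (φ ∘ Sum.inl), (φ ∘ Sum.inl, φ ∘ Sum.inr)⟩ :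
        Σ _ : Finset V, (Fin u → V) × (ι → V)))
      (fun x _ => Sum.elim x.2.1 x.2.2) ?_ ?_ ?_ ?_
    · intro φ hφ
      simp only [emb, mem_filter, Fintype.mem_piFinset, mem_univ, implies_true, true_and] at hφ
      obtain ⟨hinj, hadj⟩ := hφ
      have hl : Function.Injective (φ ∘ Sum.inl) := hinj.comp Sum.inl_injective
      have hr : Function.Injective (φ ∘ Sum.inr) := hinj.comp Sum.inr_injective
      simp only [mem_sigma, mem_product, mem_filter, mem_univ, true_and, clq, mem_powersetCard,
        subset_univ, emb, Fintype.mem_piFinset, cn]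
      refine ⟨⟨?_, ?_⟩, ⟨hl, ?_⟩, ?_, hr, ?_⟩
      · rw [card_image_of_injective _ hl]
        simp
      · intro a ha b hb hab
        obtain ⟨i, -, rfl⟩ := mem_image.1 ha
        obtain ⟨j, -, rfl⟩ := mem_image.1 hb
        refine hadj _ _ ⟨?_, Or.inl rfl⟩
        intro h
        exact hab (congrArg φ h)
      · trivial
      · intro i a ha
        obtain ⟨j, -, rfl⟩ := mem_image.1 ha
        exact hadj _ _ ⟨Sum.inl_ne_inr, Or.inl rfl⟩
      · intro i j hij
        refine hadj _ _ ⟨?_, Or.inr (Or.inr ⟨i, j, rfl, rfl, hij⟩)⟩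
        intro h
        exact hij.ne (Sum.inr_injective h)
    · rintro ⟨U, f, g⟩ hx
      simp only [mem_sigma, mem_product, mem_filter, mem_univ, true_and, clq, mem_powersetCard,
        subset_univ, emb, Fintype.mem_piFinset, cn] at hx
      obtain ⟨⟨hU, hcl⟩, ⟨hf, hfU⟩, hg, hgi, hga⟩ := hx
      have hfm : ∀ i, f i ∈ U := fun i => hfU ▸ mem_image_of_mem f (mem_univ i)
      simp only [emb, mem_filter, Fintype.mem_piFinset, mem_univ, implies_true, true_and]
      constructor
      · rintro (i | i) (j | j) h
        · exact congrArg Sum.inl (hf h)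
        · exact absurd h (hg j _ (hfm i)).ne
        · exact absurd h (hg i _ (hfm j)).ne'
        · exact congrArg Sum.inr (hgi h)
      · rintro (i | i) (j | j) h
        · refine hcl _ (hfm i) _ (hfm j) ?_
          intro hij
          exact h.1 (congrArg Sum.inl (hf hij))
        · exact hg j _ (hfm i)
        · exact (hg i _ (hfm j)).symm
        · obtain ⟨-, h1 | h1 | ⟨i', j', h1, h2, h3⟩⟩ := h
          · simp at h1
          · simp at h1
          · have e1 := Sum.inr_injective h1
            have e2 := Sum.inr_injective h2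
            subst e1 e2
            exact hga _ _ h3
    · intro φ hφ
      ext x
      rcases x with i | i <;> rfl
    · rintro ⟨U, f, g⟩ hx
      simp only [mem_sigma, mem_product, mem_filter, mem_univ, true_and] at hx
      obtain ⟨-, ⟨-, hfU⟩, -⟩ := hx
      subst hfU
      rfl
  rw [key, card_sigma, mul_sum]
  refine sum_congr rfl fun U hU => ?_
  have hU' : U.card = u := (mem_powersetCard.1 (mem_filter.1 hU).1).2
  rw [card_product, JoinE_fact U hU']

end H57GH
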