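import Pool.Agent.H57.GH.Defs
import Pool.Agent.H57.LT.KGraphT

/-!
Translation between the clique `K` and the sets `cn G (K \ T)`.
-/

namespace H57GH

open Finset H57LC H57LT

set_option linter.unusedSectionVars false

variable {V : Type*} [Fintype V] [DecidableEq V] {G : SimpleGraph V} [DecidableRel G.Adj]

lemma KGraphG_pts_congr {κ : Type*} {T : Finset κ} {a b : κ → ℕ}
    (h : ∀ k ∈ T, a k = b k) : pts T a = pts T b := by
  unfold pts
  ext ⟨k, i⟩
  simp only [mem_sigma, mem_range]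
  constructor
  · rintro ⟨h1, h2⟩
    exact ⟨h1, by rw [← h k h1]; exact h2⟩
  · rintro ⟨h1, h2⟩
    exact ⟨h1, by rw [h k h1]; exact h2⟩

lemma KGraphG_fJ_congr {ι : Type*} [Fintype ι] [DecidableEq ι] (J : SimpleGraph ι)
    [DecidableRel J.Adj] {κ : Type*} [DecidableEq κ] {T : Finset κ} {a b : κ → ℕ}
    (h : ∀ k ∈ T, a k = b k) : fJ J T a = fJ J T b := by
  unfold fJ
  rw [KGraphG_pts_congr h]

theorem hge_cn {K T : Finset V} (hT : T ⊆ K) :
    hge G (cn G (K \ T)) T =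
      (univ.filter fun y => 2 ≤ (hs G K y).card ∧ hs G K y ⊆ T).card := by
  unfold hge
  congr 1
  ext z
  simp only [mem_filter, mem_univ, true_and]
  constructor
  · rintro ⟨h1, h2⟩
    rw [hs_of_mem_cn hT h1] at h2
    exact ⟨h2, mem_cn_sdiff.1 h1⟩
  · rintro ⟨h1, h2⟩
    have h3 : z ∈ cn G (K \ T) := mem_cn_sdiff.2 h2
    refine ⟨h3, ?_⟩
    rw [hs_of_mem_cn hT h3]
    exact h1

theorem nuG_cn {K T : Finset V} (hT : T ⊆ K) (κ₀ : ℕ) :
    nuG G (cn G (K \ T)) κ₀ T =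
      if κ₀ + 1 ≤ (univ.filter fun y => 2 ≤ (hs G K y).card ∧ hs G K y ⊆ T).card then 1
        else 0 := by
  unfold nuG
  rw [hge_cn hT]

/-- the light value in terms of `K` -/
theorem lzG_cn {ι : Type*} [Fintype ι] [DecidableEq ι] (J : SimpleGraph ι) [DecidableRel J.Adj]
    {K T : Finset V} (hT : T ⊆ K) (R m : ℕ) (θ ζ ρ : ℝ) (κ₀ : ℕ) :
    lzG G J (cn G (K \ T)) R m θ ζ ρ κ₀ T =
      ((fJ J T (aK G K) : ℝ) - ρ) * (∏ t ∈ T, ((aK G K t : ℝ))⁻¹) +
        M0 J R m / (m : ℝ) ^ R *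
          ((∑ y ∈ univ.filter (fun y => hs G K y ⊆ T),
              ktG R (Fintype.card ι) θ (hs G K y).card) +
            ζ * (if κ₀ + 1 ≤ (univ.filter fun y => 2 ≤ (hs G K y).card ∧ hs G K y ⊆ T).card
              then 1 else 0)) / m := by
  unfold lzG
  rw [KGraphG_fJ_congr J (fun t ht => aa_cn hT ht : ∀ t ∈ T, aa G (cn G (K \ T)) T t = aK G K t),
    nuG_cn hT, sum_cn_hs hT (fun j => ktG R (Fintype.card ι) θ j),
    prod_congr rfl (fun t ht => by rw [aa_cn hT ht] :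
      ∀ t ∈ T, ((aa G (cn G (K \ T)) T t : ℝ))⁻¹ = ((aK G K t : ℝ))⁻¹)]

end H57GH
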