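import Pool.Agent.H57.GH.Defs
import Pool.Agent.H57.LT.ThmPH

/-!
The cost coefficients and the coefficients of Theorem P.
-/

namespace H57GH

open Finset H57LC H57LT

set_option linter.unusedSectionVars false

theorem ktG_nonneg {R s : ℕ} {θ : ℝ} (hR : 2 ≤ R) (j : ℕ) (hj : j ≤ R) : 0 ≤ ktG R s θ j := by
  unfold ktG
  split_ifs with h
  · have h2 : (2 : ℝ) ≤ R := by exact_mod_cast hR
    have h3 : (j : ℝ) ≤ R := by exact_mod_cast hj
    have h4 : ((j : ℝ) - 1) / (4 * (R - 1)) ≤ 1 := by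
      rw [div_le_one (by linarith)]
      linarith
    have h5 : 0 ≤ 1 - ((j : ℝ) - 1) / (4 * (R - 1)) := by linarith
    positivity
  · exact le_rfl

theorem ktG_le {R s : ℕ} {θ : ℝ} (hR : 2 ≤ R) (j : ℕ) :
    ktG R s θ j ≤ (s : ℝ) / R * (1 - 1 / (4 * (R - 1))) := by
  have h2 : (2 : ℝ) ≤ R := by exact_mod_cast hR
  have h0 : (0 : ℝ) ≤ (s : ℝ) / R := by positivity
  unfold ktG
  split_ifs with h
  · have h3 : (2 : ℝ) ≤ j := by exact_mod_cast h.1
    refine mul_le_mul_of_nonneg_left ?_ h0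
    have h4 : 1 / (4 * ((R : ℝ) - 1)) ≤ ((j : ℝ) - 1) / (4 * (R - 1)) :=
      div_le_div_of_nonneg_right (by linarith) (by linarith)
    linarith
  · refine mul_nonneg h0 ?_
    have h4 : 1 / (4 * ((R : ℝ) - 1)) ≤ 1 := by
      rw [div_le_one (by linarith)]
      linarith
    linarith

/-- `(1 + 1/(16R))^k ≤ 1 + k/(8R)` -/
private theorem KtBet_pow (R : ℝ) (hR : 1 ≤ R) (k : ℕ) (hk : (k : ℝ) ≤ R) :
    (1 + 1 / (16 * R)) ^ k ≤ 1 + k / (8 * R) := by
  obtain ⟨y, hy⟩ : ∃ y : ℝ, y = 1 / (16 * R) := ⟨_, rfl⟩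
  rw [← hy]
  have hy0 : 0 < y := by
    rw [hy]
    positivity
  have hy1 : y ≤ 1 := by
    rw [hy, div_le_one (by positivity)]
    linarith only [hR]
  have hky : (k : ℝ) * y ≤ 1 / 16 := by
    rw [hy, mul_one_div, div_le_div_iff₀ (by positivity) (by norm_num)]
    linarith only [hk]
  have hk0 : (0 : ℝ) ≤ (k : ℝ) * y := by positivity
  have h1 : 1 - (k : ℝ) * y ≤ (1 - y) ^ k := by
    have := one_add_mul_le_pow (a := -y) (by linarith only [hy1]) k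
    have e : (1 : ℝ) + -y = 1 - y := by ring
    rw [e] at this
    linarith only [this]
  have h2 : (1 + y) ^ k * (1 - y) ^ k ≤ 1 := by
    rw [← mul_pow]
    exact pow_le_one₀ (mul_nonneg (by linarith only [hy0]) (by linarith only [hy1]))
      (by linarith only [mul_pos hy0 hy0])
  have h3 : (1 + y) ^ k * (1 - (k : ℝ) * y) ≤ 1 :=
    (mul_le_mul_of_nonneg_left h1 (by positivity)).trans h2
  have h4 : 1 ≤ (1 + 2 * ((k : ℝ) * y)) * (1 - (k : ℝ) * y) := by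
    linarith only [mul_nonneg hk0 (by linarith only [hky] : (0 : ℝ) ≤ 1 - 2 * ((k : ℝ) * y))]
  have h5 : (1 + y) ^ k ≤ 1 + 2 * ((k : ℝ) * y) := by
    by_contra hc
    push Not at hc
    have := mul_lt_mul_of_pos_right hc (show (0 : ℝ) < 1 - (k : ℝ) * y by linarith only [hky])
    linarith only [this, h3, h4]
  have h6 : 2 * ((k : ℝ) * y) = k / (8 * R) := by
    rw [hy]
    field_simp
    ring
  linarith only [h5, h6]

/-- comparison of the two quotients of binomial coefficients -/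
private theorem KtBet_quot (Q A u : ℕ) (hAQ : A ≤ Q) (y : ℝ) (hy : 0 ≤ y) (k : ℕ)
    (hk : ∀ i < k, i ≤ A ∧ (u : ℝ) * ((Q : ℝ) - A) ≤ y * (((Q : ℝ) + u - i) * ((A : ℝ) - i))) :
    (Q.choose k : ℝ) * ((A + u).choose k : ℝ) ≤
      (1 + y) ^ k * (((Q + u).choose k : ℝ) * (A.choose k : ℝ)) := by
  induction k with
  | zero => simp
  | succ k ih =>
    have ih' := ih fun i hi => hk i (by omega)
    obtain ⟨hkA, hku⟩ := hk k (by omega)
    have key : ∀ n : ℕ, k ≤ n → ((n.choose (k + 1) : ℕ) : ℝ) * ((k : ℝ) + 1) =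
        (n.choose k : ℝ) * ((n : ℝ) - k) := by
      intro n hn
      have := Nat.choose_succ_right_eq n k
      have h1 : ((n.choose (k + 1) * (k + 1) : ℕ) : ℝ) = ((n.choose k * (n - k) : ℕ) : ℝ) := by
        exact_mod_cast this
      rw [Nat.cast_mul, Nat.cast_mul, Nat.cast_sub hn] at h1
      push_cast at h1
      exact h1
    have e1 := key Q (hkA.trans hAQ)
    have e2 := key (A + u) (by omega)
    have e3 := key (Q + u) (by omega)
    have e4 := key A hkA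
    have hAk : (0 : ℝ) ≤ (A : ℝ) - k := by
      have : (k : ℝ) ≤ A := by exact_mod_cast hkA
      linarith
    have hQk : (0 : ℝ) ≤ (Q : ℝ) - k := by
      have : (A : ℝ) ≤ Q := by exact_mod_cast hAQ
      linarith
    have hfac : ((Q : ℝ) - k) * (((A + u : ℕ) : ℝ) - k) ≤
        (1 + y) * ((((Q + u : ℕ) : ℝ) - k) * ((A : ℝ) - k)) := by
      push_cast
      linarith only [hku]
    have hfac0 : (0 : ℝ) ≤ ((Q : ℝ) - k) * (((A + u : ℕ) : ℝ) - k) := by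
      have : (0 : ℝ) ≤ ((A + u : ℕ) : ℝ) - k := by
        push_cast
        have : (0 : ℝ) ≤ u := Nat.cast_nonneg u
        linarith
      positivity
    have hprod : ((Q.choose k : ℝ) * ((A + u).choose k : ℝ)) *
        (((Q : ℝ) - k) * (((A + u : ℕ) : ℝ) - k)) ≤
        ((1 + y) ^ k * (((Q + u).choose k : ℝ) * (A.choose k : ℝ))) *
          ((1 + y) * ((((Q + u : ℕ) : ℝ) - k) * ((A : ℝ) - k))) :=
      mul_le_mul ih' hfac hfac0 (by positivity)
    have hk1 : (0 : ℝ) < ((k : ℝ) + 1) * ((k : ℝ) + 1) := by positivity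
    refine le_of_mul_le_mul_right ?_ hk1
    calc (Q.choose (k + 1) : ℝ) * ((A + u).choose (k + 1) : ℝ) * (((k : ℝ) + 1) * ((k : ℝ) + 1))
        = ((Q.choose (k + 1) : ℝ) * ((k : ℝ) + 1)) *
            (((A + u).choose (k + 1) : ℝ) * ((k : ℝ) + 1)) := by ring
      _ = ((Q.choose k : ℝ) * ((A + u).choose k : ℝ)) *
            (((Q : ℝ) - k) * (((A + u : ℕ) : ℝ) - k)) := by rw [e1, e2]; ring
      _ ≤ _ := hprod
      _ = (1 + y) ^ (k + 1) * ((((Q + u).choose k : ℝ) * (((Q + u : ℕ) : ℝ) - k)) *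
            ((A.choose k : ℝ) * ((A : ℝ) - k))) := by rw [pow_succ]; ring
      _ = (1 + y) ^ (k + 1) * (((Q + u).choose (k + 1) : ℝ) * (A.choose (k + 1) : ℝ)) *
            (((k : ℝ) + 1) * ((k : ℝ) + 1)) := by rw [← e3, ← e4]; ring

theorem ktG_bet (u : ℕ) (θ : ℝ) (hθ : 0 < θ) (hθ1 : θ ≤ 1 / 4) : ∃ R₀ : ℕ, 2 ≤ R₀ ∧
    ∃ c₀ : ℝ, 0 < c₀ ∧ ∀ R : ℕ, R₀ ≤ R → ∀ r : ℕ, (r : ℝ) ≤ c₀ * R →
      r + 2 ≤ R ∧ r ≤ ⌊θ * R / 32⌋₊ ∧
      ∀ s j : ℕ, 2 ≤ j → j ≤ R →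
        ktG R s θ j * ((R + u - j).choose (R - j) : ℝ) ≤
          (1 - 1 / (16 * (R : ℝ))) * ((s : ℝ) / R) * ((R + u - 1).choose (R - 1) : ℝ) *
            bet (R - 1 - r) u j := by
  have hu0 : (0 : ℝ) ≤ u := Nat.cast_nonneg u
  refine ⟨4, by norm_num, θ ^ 2 / (65536 * ((u : ℝ) + 1)), by positivity, ?_⟩
  intro R hR r hr
  have hR4 : (4 : ℝ) ≤ R := by exact_mod_cast hR
  have hc1 : θ ^ 2 / (65536 * ((u : ℝ) + 1)) ≤ θ / 64 := by
    rw [div_le_div_iff₀ (by positivity) (by norm_num)]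
    linarith only [mul_nonneg hθ.le hu0, mul_le_mul_of_nonneg_left hθ1 hθ.le, hθ]
  have hR0 : (0 : ℝ) < R := by linarith only [hR4]
  have hr1 : (r : ℝ) ≤ θ * R / 64 := by
    refine hr.trans ?_
    calc θ ^ 2 / (65536 * ((u : ℝ) + 1)) * R ≤ θ / 64 * R :=
          mul_le_mul_of_nonneg_right hc1 hR0.le
      _ = θ * R / 64 := by ring
  have hr2 : r + 2 ≤ R := by
    have : ((r + 2 : ℕ) : ℝ) ≤ R := by
      push_cast
      linarith only [hr1, mul_le_mul_of_nonneg_right hθ1 hR0.le, hR4]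
    exact_mod_cast this
  refine ⟨hr2, Nat.le_floor (by linarith only [hr1, mul_pos hθ hR0]), ?_⟩
  intro s j hj2 hjR
  have h16 : (0 : ℝ) ≤ 1 - 1 / (16 * (R : ℝ)) := by
    have : 1 / (16 * (R : ℝ)) ≤ 1 := by
      rw [div_le_one (by positivity)]
      linarith only [hR4]
    linarith only [this]
  have hb0 := bet_nonneg (R - 1 - r) u j
  have hs0 : (0 : ℝ) ≤ (s : ℝ) / R := by positivity
  unfold ktG
  split_ifs with h
  swap
  · rw [zero_mul]
    positivity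
  obtain ⟨_, hjf⟩ := h
  obtain ⟨k, rfl⟩ : ∃ k, j = k + 1 := ⟨j - 1, by omega⟩
  obtain ⟨Q, rfl⟩ : ∃ Q, R = Q + 1 := ⟨R - 1, by omega⟩
  have hk1 : 1 ≤ k := by omega
  have hkQ : k ≤ Q := by omega
  have hrQ : r ≤ Q := by omega
  set A := Q - r with hA
  have eA : (A : ℝ) = (Q : ℝ) - r := by rw [hA, Nat.cast_sub hrQ]
  have e1 : Q + 1 + u - (k + 1) = Q + u - k := by omega
  have e2 : Q + 1 - (k + 1) = Q - k := by omega
  have e3 : Q + 1 + u - 1 = Q + u := by omega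
  have e4 : Q + 1 - 1 = Q := by omega
  have e5 : Q + 1 - 1 - r = A := by omega
  have hAQ : A ≤ Q := Nat.sub_le _ _
  clear_value A
  unfold bet
  rw [e1, e2, e3, e4, ← hA, Nat.add_sub_cancel]
  have hfl : θ * ((Q + 1 : ℕ) : ℝ) / 32 < (⌊θ * ((Q + 1 : ℕ) : ℝ) / 32⌋₊ : ℝ) + 1 :=
    Nat.lt_floor_add_one _
  have hjf' : ((k : ℝ) + 1) + (⌊θ * ((Q + 1 : ℕ) : ℝ) / 32⌋₊ : ℝ) ≤ (Q : ℝ) + 1 := by
    exact_mod_cast hjf
  have hkA' : (k : ℝ) ≤ A := by
    rw [eA]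
    have : (0 : ℝ) < θ * ((Q + 1 : ℕ) : ℝ) := by positivity
    have h1 : (k : ℝ) + r < (Q : ℝ) + 1 := by linarith only [hjf', hfl, hr1, this]
    have h2 : k + r < Q + 1 := by exact_mod_cast h1
    have h3 : k + r ≤ Q := by omega
    have h4 : (k : ℝ) + r ≤ Q := by exact_mod_cast h3
    linarith only [h4]
  have hkA : k ≤ A := by exact_mod_cast hkA'
  -- the comparison of the quotients
  have hquot := KtBet_quot Q A u hAQ (1 / (16 * ((Q + 1 : ℕ) : ℝ))) (by positivity) k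
    (by
      intro i hi
      have hi' : (i : ℝ) + 1 ≤ k := by exact_mod_cast hi
      refine ⟨by omega, ?_⟩
      have hL : θ * ((Q + 1 : ℕ) : ℝ) / 64 ≤ (A : ℝ) - i := by
        rw [eA]
        linarith only [hi', hjf', hfl, hr1]
      have hL0 : 0 ≤ θ * ((Q + 1 : ℕ) : ℝ) / 64 := by positivity
      have hM : θ * ((Q + 1 : ℕ) : ℝ) / 64 ≤ (Q : ℝ) + u - i := by
        have : (0 : ℝ) ≤ r := Nat.cast_nonneg r
        rw [eA] at hL
        linarith only [this, hL, hu0]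
      have hLM : (θ * ((Q + 1 : ℕ) : ℝ) / 64) * (θ * ((Q + 1 : ℕ) : ℝ) / 64) ≤
          ((Q : ℝ) + u - i) * ((A : ℝ) - i) := mul_le_mul hM hL hL0 (hL0.trans hM)
      have hQA : (Q : ℝ) - A = r := by rw [eA]; ring
      rw [hQA]
      have hur : (u : ℝ) * r ≤ θ ^ 2 * ((Q + 1 : ℕ) : ℝ) / 65536 := by
        calc (u : ℝ) * r ≤ u * (θ ^ 2 / (65536 * ((u : ℝ) + 1)) * ((Q + 1 : ℕ) : ℝ)) :=
              mul_le_mul_of_nonneg_left hr hu0
          _ = (u / ((u : ℝ) + 1)) * (θ ^ 2 * ((Q + 1 : ℕ) : ℝ) / 65536) := by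
              field_simp
          _ ≤ 1 * (θ ^ 2 * ((Q + 1 : ℕ) : ℝ) / 65536) := by
              refine mul_le_mul_of_nonneg_right ?_ (by positivity)
              rw [div_le_one (by positivity)]
              linarith only []
          _ = _ := one_mul _
      refine hur.trans ?_
      calc θ ^ 2 * ((Q + 1 : ℕ) : ℝ) / 65536 =
            1 / (16 * ((Q + 1 : ℕ) : ℝ)) * ((θ * ((Q + 1 : ℕ) : ℝ) / 64) *
              (θ * ((Q + 1 : ℕ) : ℝ) / 64)) := by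
            field_simp
            norm_num
        _ ≤ _ := mul_le_mul_of_nonneg_left hLM (by positivity))
  have hpow := KtBet_pow ((Q + 1 : ℕ) : ℝ) (by linarith only [hR4]) k (by
    have : k ≤ Q + 1 := by omega
    exact_mod_cast this)
  -- the identity of the binomial coefficients
  have hch : ((Q + u).choose k : ℝ) * ((Q + u - k).choose (Q - k) : ℝ) =
      ((Q + u).choose Q : ℝ) * (Q.choose k : ℝ) := by
    have := Nat.choose_mul (n := Q + u) (k := Q) (s := k) hkQ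
    exact_mod_cast this.symm
  have hp1 : (0 : ℝ) < ((Q + u).choose k : ℝ) := by
    exact_mod_cast Nat.choose_pos (show k ≤ Q + u by omega)
  have hp2 : (0 : ℝ) < ((A + u).choose k : ℝ) := by
    exact_mod_cast Nat.choose_pos (show k ≤ A + u by omega)
  have hco : (1 - (((k + 1 : ℕ) : ℝ) - 1) / (4 * (((Q + 1 : ℕ) : ℝ) - 1))) *
      (1 + 1 / (16 * ((Q + 1 : ℕ) : ℝ))) ^ k ≤ 1 - 1 / (16 * ((Q + 1 : ℕ) : ℝ)) := by
    have hQ0 : (0 : ℝ) < (Q : ℝ) := by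
      push_cast at hR4
      linarith only [hR4]
    have hk1' : (1 : ℝ) ≤ k := by exact_mod_cast hk1
    have hkQ' : (k : ℝ) ≤ Q := by exact_mod_cast hkQ
    have ec : (((k + 1 : ℕ) : ℝ) - 1) / (4 * (((Q + 1 : ℕ) : ℝ) - 1)) = (k : ℝ) / (4 * Q) := by
      push_cast
      ring_nf
    rw [ec]
    have g1 : (k : ℝ) / (4 * Q) ≤ 1 := by
      rw [div_le_one (by positivity)]
      linarith only [hkQ', hQ0]
    have g2 : (k : ℝ) / (4 * ((Q + 1 : ℕ) : ℝ)) ≤ (k : ℝ) / (4 * Q) := by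
      refine div_le_div_of_nonneg_left (by positivity) (by positivity) ?_
      push_cast
      linarith only []
    calc (1 - (k : ℝ) / (4 * Q)) * (1 + 1 / (16 * ((Q + 1 : ℕ) : ℝ))) ^ k
        ≤ (1 - (k : ℝ) / (4 * Q)) * (1 + k / (8 * ((Q + 1 : ℕ) : ℝ))) :=
          mul_le_mul_of_nonneg_left hpow (by linarith only [g1])
      _ ≤ (1 - (k : ℝ) / (4 * ((Q + 1 : ℕ) : ℝ))) * (1 + k / (8 * ((Q + 1 : ℕ) : ℝ))) :=
          mul_le_mul_of_nonneg_right (by linarith only [g2]) (by positivity)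
      _ ≤ 1 - 1 / (16 * ((Q + 1 : ℕ) : ℝ)) := by
          obtain ⟨w, hw⟩ : ∃ w : ℝ, w = 1 / ((Q + 1 : ℕ) : ℝ) := ⟨_, rfl⟩
          have hw0 : 0 < w := by
            rw [hw]
            positivity
          have a1 : (k : ℝ) / (4 * ((Q + 1 : ℕ) : ℝ)) = k * w / 4 := by
            rw [hw]; field_simp
          have a2 : (k : ℝ) / (8 * ((Q + 1 : ℕ) : ℝ)) = k * w / 8 := by
            rw [hw]; field_simp
          have a3 : 1 / (16 * ((Q + 1 : ℕ) : ℝ)) = w / 16 := by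
            rw [hw]; field_simp
          rw [a1, a2, a3]
          have hkw : 0 < (k : ℝ) * w := by positivity
          have hkw2 : w ≤ (k : ℝ) * w := le_mul_of_one_le_left hw0.le hk1'
          obtain ⟨x, hx⟩ : ∃ x : ℝ, x = (k : ℝ) * w := ⟨_, rfl⟩
          rw [← hx] at hkw hkw2 ⊢
          linarith only [hkw2, hkw, mul_nonneg hkw.le hkw.le]
  -- assembly
  have hX : (0 : ℝ) ≤ ((Q + u).choose Q : ℝ) := Nat.cast_nonneg _
  have hkey : (1 - (((k + 1 : ℕ) : ℝ) - 1) / (4 * (((Q + 1 : ℕ) : ℝ) - 1))) *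
      ((Q + u - k).choose (Q - k) : ℝ) ≤
      (1 - 1 / (16 * ((Q + 1 : ℕ) : ℝ))) * ((Q + u).choose Q : ℝ) *
        ((A.choose k : ℝ) / ((A + u).choose k : ℝ)) := by
    have hk0 : (0 : ℝ) ≤ 1 - (((k + 1 : ℕ) : ℝ) - 1) / (4 * (((Q + 1 : ℕ) : ℝ) - 1)) := by
      have hQ0 : (0 : ℝ) < (Q : ℝ) := by
        push_cast at hR4
        linarith only [hR4]
      have hkQ' : (k : ℝ) ≤ Q := by exact_mod_cast hkQ
      push_cast
      have : ((k : ℝ) + 1 - 1) / (4 * ((Q : ℝ) + 1 - 1)) ≤ 1 := by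
        rw [div_le_one (by linarith only [hQ0])]
        linarith only [hkQ', hQ0]
      linarith only [this]
    rw [mul_div_assoc', le_div_iff₀ hp2]
    refine le_of_mul_le_mul_right ?_ hp1
    calc (1 - (((k + 1 : ℕ) : ℝ) - 1) / (4 * (((Q + 1 : ℕ) : ℝ) - 1))) *
          ((Q + u - k).choose (Q - k) : ℝ) * ((A + u).choose k : ℝ) * ((Q + u).choose k : ℝ)
        = (1 - (((k + 1 : ℕ) : ℝ) - 1) / (4 * (((Q + 1 : ℕ) : ℝ) - 1))) *
          ((Q + u).choose Q : ℝ) * ((Q.choose k : ℝ) * ((A + u).choose k : ℝ)) := by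
          rw [show (1 - (((k + 1 : ℕ) : ℝ) - 1) / (4 * (((Q + 1 : ℕ) : ℝ) - 1))) *
            ((Q + u - k).choose (Q - k) : ℝ) * ((A + u).choose k : ℝ) *
            ((Q + u).choose k : ℝ) =
            (1 - (((k + 1 : ℕ) : ℝ) - 1) / (4 * (((Q + 1 : ℕ) : ℝ) - 1))) *
            (((Q + u).choose k : ℝ) * ((Q + u - k).choose (Q - k) : ℝ)) *
            ((A + u).choose k : ℝ) by ring, hch]
          ring
      _ ≤ (1 - (((k + 1 : ℕ) : ℝ) - 1) / (4 * (((Q + 1 : ℕ) : ℝ) - 1))) *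
          ((Q + u).choose Q : ℝ) * ((1 + 1 / (16 * ((Q + 1 : ℕ) : ℝ))) ^ k *
            (((Q + u).choose k : ℝ) * (A.choose k : ℝ))) :=
          mul_le_mul_of_nonneg_left hquot (by positivity)
      _ = ((1 - (((k + 1 : ℕ) : ℝ) - 1) / (4 * (((Q + 1 : ℕ) : ℝ) - 1))) *
          (1 + 1 / (16 * ((Q + 1 : ℕ) : ℝ))) ^ k) * (((Q + u).choose Q : ℝ) *
            (((Q + u).choose k : ℝ) * (A.choose k : ℝ))) := by ring
      _ ≤ (1 - 1 / (16 * ((Q + 1 : ℕ) : ℝ))) * (((Q + u).choose Q : ℝ) *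
            (((Q + u).choose k : ℝ) * (A.choose k : ℝ))) :=
          mul_le_mul_of_nonneg_right hco (by positivity)
      _ = _ := by ring
  calc (s : ℝ) / ((Q + 1 : ℕ) : ℝ) *
        (1 - (((k + 1 : ℕ) : ℝ) - 1) / (4 * (((Q + 1 : ℕ) : ℝ) - 1))) *
        ((Q + u - k).choose (Q - k) : ℝ)
      = (s : ℝ) / ((Q + 1 : ℕ) : ℝ) *
        ((1 - (((k + 1 : ℕ) : ℝ) - 1) / (4 * (((Q + 1 : ℕ) : ℝ) - 1))) *
        ((Q + u - k).choose (Q - k) : ℝ)) := by ring
    _ ≤ (s : ℝ) / ((Q + 1 : ℕ) : ℝ) * ((1 - 1 / (16 * ((Q + 1 : ℕ) : ℝ))) *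
        ((Q + u).choose Q : ℝ) * ((A.choose k : ℝ) / ((A + u).choose k : ℝ))) :=
        mul_le_mul_of_nonneg_left hkey hs0
    _ = _ := by ring

end H57GH
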