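import Pool.Agent.H57.GH.RhoG

/-!
The value of a light clique, upper bound.
-/

namespace H57GH

open Finset H57LC H57LT

set_option linter.unusedSectionVars false

variable {ι : Type*} [Fintype ι] [DecidableEq ι] (J : SimpleGraph ι) [DecidableRel J.Adj]

/-- the product of the inverse class sizes, upper bound -/
theorem PhiG_prod_le {κ : Type*} [DecidableEq κ] (T : Finset κ) (a : κ → ℕ) {R : ℕ} {m ε : ℝ}
    (hT : T.card = R) (hm : 0 < m) (hε : 0 < ε) (hε1 : R * ε ≤ 1 / 2) (hR : (1 : ℝ) ≤ R)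
    (ha : ∀ t ∈ T, (1 - ε) * m ≤ (a t : ℝ)) :
    (∏ t ∈ T, ((a t : ℝ))⁻¹) * m ^ R ≤ 1 + 2 * (R * ε) := by
  have hε2 : ε ≤ 1 / 2 := by nlinarith only [hε1, hε, hR]
  have h1 : 0 < 1 - ε := by linarith only [hε2]
  have h2 : (∏ t ∈ T, ((a t : ℝ))⁻¹) ≤ ∏ t ∈ T, ((1 - ε) * m)⁻¹ := by
    apply Finset.prod_le_prod
    · intro t ht; positivity
    · intro t ht
      exact inv_anti₀ (by positivity) (ha t ht)
  rw [Finset.prod_const, hT] at h2
  have h3 : (1 - R * ε : ℝ) ≤ (1 - ε) ^ R := by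
    have := one_add_mul_le_pow (a := -ε) (by linarith only [hε2]) R
    have e1 : (1 : ℝ) + (R : ℝ) * -ε = 1 - R * ε := by ring
    have e2 : (1 + -ε : ℝ) = 1 - ε := by ring
    rw [e1, e2] at this
    exact this
  have h4 : 0 < (1 - ε) ^ R := by positivity
  calc (∏ t ∈ T, ((a t : ℝ))⁻¹) * m ^ R ≤ (((1 - ε) * m)⁻¹) ^ R * m ^ R := by
        apply mul_le_mul_of_nonneg_right h2; positivity
    _ = ((1 - ε) ^ R)⁻¹ := by
        rw [← mul_pow, mul_inv, inv_mul_cancel_right₀ hm.ne', inv_pow]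
    _ ≤ (1 - R * ε)⁻¹ := inv_anti₀ (by linarith only [hε1]) h3
    _ ≤ 1 + 2 * (R * ε) := by
        rw [inv_le_iff_one_le_mul₀ (by linarith only [hε1])]
        have : 0 ≤ R * ε := by positivity
        nlinarith only [hε1, this]

/-- the product of the inverse class sizes, lower bound -/
theorem PhiG_prod_ge {κ : Type*} [DecidableEq κ] (T : Finset κ) (a : κ → ℕ) {R r : ℕ} {m : ℝ}
    (hT : T.card = R) (hm : 0 < m)
    (ha : ∀ t ∈ T, 0 < (a t : ℝ)) (hs : ∑ t ∈ T, (a t : ℝ) ≤ R * m + r) :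
    1 - r / m ≤ (∏ t ∈ T, ((a t : ℝ))⁻¹) * m ^ R := by
  have hP : 0 < ∏ t ∈ T, (a t : ℝ) := Finset.prod_pos ha
  have h1 : (∏ t ∈ T, (a t : ℝ)) ≤ m ^ R * Real.exp (r / m) := by
    have h2 : (∏ t ∈ T, (a t : ℝ)) ≤ ∏ t ∈ T, (m * Real.exp ((a t : ℝ) / m - 1)) := by
      apply Finset.prod_le_prod
      · intro t ht; exact (ha t ht).le
      · intro t ht
        have h3 := Real.add_one_le_exp ((a t : ℝ) / m - 1)
        have h4 : (a t : ℝ) / m ≤ Real.exp ((a t : ℝ) / m - 1) := by linarith only [h3]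
        calc (a t : ℝ) = m * ((a t : ℝ) / m) := by field_simp
          _ ≤ _ := mul_le_mul_of_nonneg_left h4 hm.le
    rw [Finset.prod_mul_distrib, Finset.prod_const, hT, ← Real.exp_sum] at h2
    refine h2.trans ?_
    apply mul_le_mul_of_nonneg_left _ (by positivity)
    apply Real.exp_le_exp.2
    rw [Finset.sum_sub_distrib, ← Finset.sum_div, Finset.sum_const, hT, nsmul_eq_mul, mul_one]
    rw [sub_le_iff_le_add, div_le_iff₀ hm, add_mul, div_mul_cancel₀ _ hm.ne']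
    linarith only [hs]
  have h5 : 1 - r / m ≤ Real.exp (-(r / m)) := by
    have := Real.add_one_le_exp (-(r / m) : ℝ)
    linarith only [this]
  refine h5.trans ?_
  rw [Finset.prod_inv_distrib, Real.exp_neg]
  rw [inv_mul_eq_div, le_div_iff₀ hP, inv_mul_eq_div, div_le_iff₀ (Real.exp_pos _)]
  exact h1

theorem phiG (hcs : 2 ≤ Fintype.card ι) (hJ : 1 ≤ oe J) : ∃ R₀ : ℕ, ∀ (u R r : ℕ), R₀ ≤ R →
    r ≤ R → ∀ ε' : ℝ, 0 < ε' →
    ∃ ε : ℝ, 0 < ε ∧ ε < 1 ∧ ∃ m₀ : ℕ, ∀ m : ℕ, m₀ ≤ m → ∀ (κ : Type) [DecidableEq κ]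
      (T : Finset κ) (a : κ → ℕ), T.card = R → (∀ t ∈ T, (1 - ε) * m ≤ (a t : ℝ)) →
      ∑ t ∈ T, a t ≤ R * m + r →
      ((fJ J T a : ℝ) - rhoG J u R r m) * ∏ t ∈ T, ((a t : ℝ))⁻¹ ≤
        M0 J R m / (m : ℝ) ^ R / m *
          (-((Fintype.card ι : ℝ) / R) * ((R : ℝ) * m - ∑ t ∈ T, (a t : ℝ)) -
            (Fintype.card ι : ℝ) * r / (R + u) +
            ε' * (((R : ℝ) * m + r - ∑ t ∈ T, (a t : ℝ)) + 1)) := by
  obtain ⟨θ₀, hθ, hbal⟩ := bal_max J hcs hJ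
  obtain ⟨C₀, hC₀, hM0⟩ := M0_bounds J
  obtain ⟨R₁, hR₁⟩ := exists_nat_ge (4 / θ₀ + 2 * C₀ + 1)
  refine ⟨R₁, fun u R r hR hrR ε' hε' => ?_⟩
  have hRr : (4 / θ₀ + 2 * C₀ + 1 : ℝ) ≤ R := hR₁.trans (by exact_mod_cast hR)
  have h4θ : 0 < 4 / θ₀ := by positivity
  have hR1 : (1 : ℝ) ≤ R := by linarith only [h4θ, hRr, hC₀]
  have hR0 : (0 : ℝ) < R := by linarith only [h4θ, hRr, hC₀]
  have hR1' : 1 ≤ R := by exact_mod_cast hR1
  set s : ℕ := Fintype.card ι with hs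
  have hM2 : ∀ m : ℕ, 1 ≤ m → ((R : ℝ) * m) ^ s ≤ 2 * M0 J R m := by
    intro m hm
    have h1 := (hM0 R m hR1' hm).1
    have h2 : C₀ / R ≤ 1 / 2 := by rw [div_le_iff₀ hR0]; linarith only [h4θ, hRr]
    have h3 : (0 : ℝ) ≤ ((R : ℝ) * m) ^ s := by positivity
    have h4 : 1 / 2 * ((R : ℝ) * m) ^ s ≤ (1 - C₀ / R) * ((R : ℝ) * m) ^ s :=
      mul_le_mul_of_nonneg_right (by linarith only [h2]) h3
    linarith only [h4, h1]
  obtain ⟨C₁, hC₁, hnear⟩ := FT_near J hcs R hR1'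
  obtain ⟨C₂, hC₂, hrho⟩ := rhoG_bounds J hcs u R r hR1' (by omega) hM2
  -- constants
  set K : ℝ := 2 * (s : ℝ) + 2 with hK
  have hKpos : 0 < K := by positivity
  set L : ℝ := (s : ℝ) * r * C₂ + 4 * C₁ * (r + 2) + 1 with hL
  have hLpos : 0 < L := by positivity
  -- ε
  obtain ⟨ε, hε0, hεR, hεa, hεb⟩ : ∃ ε : ℝ, 0 < ε ∧ R * ε ≤ 1 / 4 ∧ L * (R * ε) ≤ min (ε' / 4) 1 ∧
      K * (2 * (R * ε)) ≤ ε' / 4 := by
    refine ⟨min (1 / 4) (min (min (ε' / 4) 1 / L) (ε' / 4 / (2 * K))) / R, ?_, ?_, ?_, ?_⟩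
    · have : 0 < min (ε' / 4) 1 := lt_min (by linarith only [hε']) one_pos
      positivity
    · rw [mul_div_cancel₀ _ hR0.ne']; exact min_le_left _ _
    · rw [mul_div_cancel₀ _ hR0.ne']
      have h := (min_le_right (1 / 4 : ℝ) (min (min (ε' / 4) 1 / L) (ε' / 4 / (2 * K)))).trans
        (min_le_left _ _)
      calc L * _ ≤ L * (min (ε' / 4) 1 / L) := mul_le_mul_of_nonneg_left h hLpos.le
        _ = _ := by field_simp
    · rw [mul_div_cancel₀ _ hR0.ne']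
      have h := (min_le_right (1 / 4 : ℝ) (min (min (ε' / 4) 1 / L) (ε' / 4 / (2 * K)))).trans
        (min_le_right _ _)
      calc K * (2 * _) ≤ K * (2 * (ε' / 4 / (2 * K))) := by gcongr
        _ = _ := by field_simp
  have hε1 : ε ≤ 1 / 4 := by
    have : 1 * ε ≤ R * ε := mul_le_mul_of_nonneg_right hR1 hε0.le
    linarith only [this, hεR]
  obtain ⟨m₀, hm₀⟩ := exists_nat_ge (2 * (r + 2) + L * (r + 2) / (R * ε) + K * (r + 1) / (ε' / 4) +
    (r + 2) / (R * ε) + 3 : ℝ)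
  refine ⟨ε, hε0, by linarith only [hε1], m₀, fun m hm κ _ T a hT ha hsum => ?_⟩
  have hmr : (2 * (r + 2) + L * (r + 2) / (R * ε) + K * (r + 1) / (ε' / 4) +
    (r + 2) / (R * ε) + 3 : ℝ) ≤ m := hm₀.trans (by exact_mod_cast hm)
  have q1 : 0 ≤ L * (r + 2) / (R * ε) := by positivity
  have q2 : 0 ≤ K * (r + 1) / (ε' / 4) := by positivity
  have q3 : 0 ≤ ((r : ℝ) + 2) / (R * ε) := by positivity
  have q4 : (0 : ℝ) ≤ r := by positivity
  have hm3 : (3 : ℝ) ≤ m := by linarith only [q3, q2, q1, hmr, hε1, hε0, hL]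
  have hm0 : (0 : ℝ) < m := by linarith only [q3, q2, q1, hmr, hε1, hε0, hL]
  have hm1 : 1 ≤ m := by
    have : (1 : ℝ) ≤ m := by linarith only [q3, q2, q1, hmr, hε1, hε0, hL]
    exact_mod_cast this
  have hm2r : 2 * ((r : ℝ) + 2) ≤ m := by linarith only [q3, q2, q1, hmr, hε1, hε0]
  have hRε : 0 < R * ε := by positivity
  -- small quantities
  have hsm : ((r : ℝ) + 2) / m ≤ R * ε := by
    rw [div_le_iff₀ hm0]
    have : (r + 2 : ℝ) / (R * ε) ≤ m := by linarith only [q2, q1, hmr, hε1, hε0, hL]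
    rw [div_le_iff₀ hRε] at this
    linarith only [this]
  have hpos : ∀ t ∈ T, 0 < (a t : ℝ) := fun t ht => by
    have h1 := ha t ht
    have h2 : 0 < (1 - ε) * m := mul_pos (by linarith only [hε1]) hm0
    linarith only [h2, h1]
  set N : ℝ := ∑ t ∈ T, (a t : ℝ) with hN
  have hNcast : ((∑ t ∈ T, a t : ℕ) : ℝ) = N := by rw [hN]; push_cast; rfl
  have hNup : N ≤ R * m + r := by
    rw [← hNcast]; exact_mod_cast hsum
  have hNlo : R * ((1 - ε) * m) ≤ N := by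
    rw [hN]
    calc R * ((1 - ε) * m) = ∑ t ∈ T, (1 - ε) * (m : ℝ) := by
          rw [Finset.sum_const, hT, nsmul_eq_mul]
      _ ≤ _ := Finset.sum_le_sum ha
  have hRm : 0 < (R : ℝ) * m := mul_pos hR0 hm0
  have hRεm : R * ε * m ≤ m / 4 := by
    have := mul_le_mul_of_nonneg_right hεR hm0.le
    linarith only [this]
  have hNR : (R : ℝ) * m / 2 ≤ N := by
    have h1 : ε * (R * m) ≤ 1 / 4 * (R * m) := mul_le_mul_of_nonneg_right hε1 hRm.le
    have h2 : R * ((1 - ε) * m) = R * m - ε * (R * m) := by ring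
    linarith only [h1, hNlo, hNcast]
  have hθR : 4 ≤ θ₀ * R := by
    have : 4 / θ₀ ≤ R := by linarith only [hRr, hC₀]
    rw [div_le_iff₀ hθ] at this
    linarith only [this]
  have hθN : 2 * (m : ℝ) ≤ θ₀ * N := by
    have h1 : θ₀ * ((R : ℝ) * m / 2) ≤ θ₀ * N := mul_le_mul_of_nonneg_left hNR hθ.le
    have h2 : 4 * (m : ℝ) ≤ θ₀ * R * m := mul_le_mul_of_nonneg_right hθR hm0.le
    have h3 : θ₀ * ((R : ℝ) * m / 2) = θ₀ * R * m / 2 := by ring
    linarith only [h2, h1]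
  -- class sizes
  have hcl : ∀ j ∈ T, (a j : ℝ) ≤ θ₀ * N := by
    intro j hj
    have h1 : (a j : ℝ) + ∑ t ∈ T.erase j, (a t : ℝ) = N := by
      rw [hN]; exact Finset.add_sum_erase T (fun t => (a t : ℝ)) hj
    have h2 : ((R : ℝ) - 1) * ((1 - ε) * m) ≤ ∑ t ∈ T.erase j, (a t : ℝ) := by
      calc ((R : ℝ) - 1) * ((1 - ε) * m) = ∑ t ∈ T.erase j, (1 - ε) * (m : ℝ) := by
            rw [Finset.sum_const, nsmul_eq_mul, Finset.card_erase_of_mem hj, hT]
            rw [Nat.cast_sub hR1', Nat.cast_one]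
        _ ≤ _ := Finset.sum_le_sum fun t ht => ha t (Finset.mem_of_mem_erase ht)
    have h4 : 0 ≤ ε * m := by positivity
    have h5 : ((R : ℝ) - 1) * ((1 - ε) * m) = R * m - m - R * ε * m + ε * m := by ring
    linarith only [h4, h2, h1, hθN, hRεm, hNup, q3, q2, q1, hmr, hε1, hε0, hL]
  have hFT : (fJ J T a : ℝ) ≤ FT J R (∑ j ∈ T, a j) := by
    have h1 := hbal R κ T a hR1' hT (by exact hcl) (by
      have : (3 : ℝ) ≤ θ₀ * N := by linarith only [hθN, q3, q2, q1, hmr, hε1, hε0, hL]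
      exact this)
    have h2 := e2_bal_max (R := R) hR1' hT a
    have h3 : 0 ≤ 1 / 2 * (∑ j ∈ T, (a j : ℝ)) ^ (Fintype.card ι - 2) *
      (e2 univ (bal R (∑ j ∈ T, a j)) - e2 T a) := by
      apply mul_nonneg
      · have : (0 : ℝ) ≤ ∑ j ∈ T, (a j : ℝ) := Finset.sum_nonneg fun j _ => by positivity
        positivity
      · linarith only [h2]
    linarith only [h3, h1]
  -- near
  set X : ℝ := (R : ℝ) * m - N with hX
  have hXlo : -(r : ℝ) ≤ X := by linarith only [hNup]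
  have hXup : X ≤ R * ε * m := by
    rw [hX]
    have h2 : R * ((1 - ε) * m) = R * m - R * ε * m := by ring
    linarith only [hNlo]
  set Y : ℝ := (R : ℝ) * m + r - N with hY
  have hY0 : 0 ≤ Y := by linarith only [hNup]
  have hXY : X = Y - r := by rw [hX, hY]; ring
  set x : ℝ := |X| + 1 with hx
  have hXabs : |X| ≤ Y + r := by
    rw [abs_le]; constructor <;> linarith
  have hXabs2 : |X| ≤ max (r : ℝ) (R * ε * m) := by
    rw [abs_le]; constructor
    · have := le_max_left (r : ℝ) (R * ε * m); linarith only [this, hNup]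
    · exact hXup.trans (le_max_right _ _)
  have hxm : x / m ≤ 2 * (R * ε) := by
    rw [div_le_iff₀ hm0]
    have h1 : (r : ℝ) + 2 ≤ R * ε * m := by
      rw [div_le_iff₀ hm0] at hsm
      exact hsm
    have h2 : max (r : ℝ) (R * ε * m) ≤ R * ε * m := max_le (by linarith only [h1, hε1, hε0]) le_rfl
    have h3 : (1 : ℝ) ≤ R * ε * m := by linarith only [h1, hε1, hε0, hL]
    have h4 : |X| ≤ R * ε * m := hXabs2.trans h2
    rw [hx]; linarith only [h2, h1, hXabs2, hXabs, hNlo, hε1, hε0]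
  have hx1 : 1 ≤ x := by rw [hx]; linarith only [abs_nonneg X]
  have h2x : 2 * x ≤ m := by
    have h1 : x ≤ 2 * (R * ε) * m := by rwa [div_le_iff₀ hm0] at hxm
    linarith only [h1, hRεm]
  have hnr := hnear m hm1 (∑ j ∈ T, a j) x hx1 h2x (by
    rw [hNcast, abs_sub_comm]
    rw [hx]
    linarith only [])
  rw [hNcast] at hnr
  have hnr2 := (abs_le.1 hnr).2
  -- the power of m
  have hM0pos : 0 < M0 J R m := by
    have h1 := hM2 m hm1
    have h2 : 0 < ((R : ℝ) * m) ^ s := by positivity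
    linarith only [h2, h1]
  have hpow : (m : ℝ) ^ (s - 2) * (m : ℝ) ^ 2 ≤ 2 * M0 J R m := by
    rw [← pow_add, Nat.sub_add_cancel hcs]
    refine le_trans ?_ (hM2 m hm1)
    apply pow_le_pow_left₀ hm0.le
    have := mul_le_mul_of_nonneg_right hR1 hm0.le
    linarith only [this]
  set Q : ℝ := M0 J R m / m with hQ
  have hQ0 : 0 < Q := by positivity
  have hxY : x ≤ (r + 2) * (Y + 1) := by
    have h1 : 0 ≤ (r : ℝ) * Y := mul_nonneg q4 hY0
    have h2 : ((r : ℝ) + 2) * (Y + 1) = r * Y + 2 * Y + r + 2 := by ring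
    rw [hx]; linarith only [h1, hXabs, hNup, hε1, hε0]
  have hquad : C₁ * (m : ℝ) ^ (s - 2) * x ^ 2 ≤ Q * (4 * C₁ * (r + 2) * (R * ε) * (Y + 1)) := by
    have h1 : (m : ℝ) ^ (s - 2) ≤ 2 * Q / m := by
      rw [hQ, le_div_iff₀ hm0]
      rw [← mul_div_assoc, le_div_iff₀ hm0]
      have : (m : ℝ) ^ (s - 2) * m * m = (m : ℝ) ^ (s - 2) * (m : ℝ) ^ 2 := by ring
      rw [this]; exact hpow
    have h2 : C₁ * (m : ℝ) ^ (s - 2) * x ^ 2 ≤ C₁ * (2 * Q / m) * x ^ 2 := by gcongr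
    have h3 : C₁ * (2 * Q / m) * x ^ 2 = Q * (2 * C₁ * x * (x / m)) := by
      field_simp
    have h4 : 2 * C₁ * x * (x / m) ≤ 2 * C₁ * ((r + 2) * (Y + 1)) * (2 * (R * ε)) := by
      have : 0 ≤ x / m := by positivity
      gcongr
    calc C₁ * (m : ℝ) ^ (s - 2) * x ^ 2 ≤ Q * (2 * C₁ * x * (x / m)) := by rw [← h3]; exact h2
      _ ≤ Q * (2 * C₁ * ((r + 2) * (Y + 1)) * (2 * (R * ε))) :=
        mul_le_mul_of_nonneg_left h4 hQ0.le
      _ = _ := by ring
  have hrho1 := (hrho m hm1).1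
  have hrho2 : M0 J R m + Q * ((s : ℝ) * r / (R + u)) - Q * ((s : ℝ) * r * C₂ * (R * ε) * (Y + 1)) ≤
      rhoG J u R r m := by
    refine le_trans ?_ hrho1
    have h0 : M0 J R m * (1 + (s : ℝ) * r / (R + u) / m * (1 - C₂ / m)) =
        M0 J R m + Q * ((s : ℝ) * r / (R + u)) - Q * ((s : ℝ) * r / (R + u) * C₂ / m) := by
      rw [hQ]
      generalize (s : ℝ) * r / (R + u) = w
      field_simp
      ring
    rw [h0]
    have h1 : (s : ℝ) * r / (R + u) * C₂ / m ≤ (s : ℝ) * r * C₂ * (R * ε) * (Y + 1) := by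
      have e1 : (s : ℝ) * r / (R + u) ≤ s * r := by
        apply div_le_self (by positivity)
        have : (0 : ℝ) ≤ u := by positivity
        linarith only [h4θ, hRr, hC₀]
      have e2 : 1 / (m : ℝ) ≤ R * ε := by
        refine le_trans ?_ hsm
        apply div_le_div_of_nonneg_right _ hm0.le
        linarith only []
      calc (s : ℝ) * r / (R + u) * C₂ / m = (s : ℝ) * r / (R + u) * C₂ * (1 / m) := by ring
        _ ≤ (s : ℝ) * r * C₂ * (R * ε) := by gcongr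
        _ ≤ (s : ℝ) * r * C₂ * (R * ε) * (Y + 1) := by
            apply le_mul_of_one_le_right (by positivity)
            linarith only [hNup]
    have h2 := mul_le_mul_of_nonneg_left h1 hQ0.le
    linarith only [h2]
  set B0 : ℝ := -((s : ℝ) / R) * X - (s : ℝ) * r / (R + u) with hB0
  set δ₁ : ℝ := L * (R * ε) with hδ₁
  have hδ0 : 0 < δ₁ := by positivity
  have hδa : δ₁ ≤ ε' / 4 := hεa.trans (min_le_left _ _)
  have hδb : δ₁ ≤ 1 := hεa.trans (min_le_right _ _)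
  have hA : (fJ J T a : ℝ) - rhoG J u R r m ≤ Q * (B0 + δ₁ * (Y + 1)) := by
    have h1 : (s : ℝ) / R * M0 J R m / m * (N - R * m) = -(Q * ((s : ℝ) / R * X)) := by
      rw [hQ, hX]; ring
    rw [h1] at hnr2
    have h2 : Q * (B0 + δ₁ * (Y + 1)) = -(Q * ((s : ℝ) / R * X)) - Q * ((s : ℝ) * r / (R + u)) +
        Q * ((s : ℝ) * r * C₂ * (R * ε) * (Y + 1)) +
        Q * (4 * C₁ * (r + 2) * (R * ε) * (Y + 1)) + Q * ((R * ε) * (Y + 1)) := by
      rw [hB0, hδ₁, hL]; ring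
    have h3 : 0 ≤ Q * ((R * ε) * (Y + 1)) := by positivity
    rw [h2]
    linarith only [h3, hrho2, hquad, hnr2, hFT]
  -- the product
  set P : ℝ := ∏ t ∈ T, ((a t : ℝ))⁻¹ with hP
  have hP0 : 0 < P := Finset.prod_pos fun t ht => inv_pos.2 (hpos t ht)
  have hPup : P * (m : ℝ) ^ R ≤ 1 + 2 * (R * ε) :=
    PhiG_prod_le T a hT hm0 hε0 (by linarith only [hεR]) hR1 ha
  have hPlo : 1 - r / m ≤ P * (m : ℝ) ^ R := PhiG_prod_ge T a hT hm0 hpos hNup
  have hrm : (r : ℝ) / m ≤ 2 * (R * ε) := by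
    have : (r : ℝ) / m ≤ (r + 2) / m := by
      apply div_le_div_of_nonneg_right _ hm0.le
      linarith only []
    linarith only [this, hsm, hRε]
  have hPabs : |P * (m : ℝ) ^ R - 1| ≤ 2 * (R * ε) := by
    rw [abs_le]; constructor <;> linarith
  have hmR : 0 < (m : ℝ) ^ R := by positivity
  have hB1 : |B0 + δ₁ * (Y + 1)| ≤ K * (Y + 1) := by
    have hs0 : (0 : ℝ) ≤ s := by positivity
    have e1 : |(s : ℝ) / R * X| ≤ s * (Y + 1) := by
      rw [abs_mul, abs_of_nonneg (by positivity)]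
      have hrR' : (r : ℝ) ≤ R := by exact_mod_cast hrR
      have h1 : (s : ℝ) / R * |X| ≤ s / R * (Y + R) := by
        apply mul_le_mul_of_nonneg_left _ (by positivity)
        linarith only [hrR', hXabs]
      have h2 : (s : ℝ) / R * (Y + R) = s / R * Y + s := by field_simp
      have h3 : (s : ℝ) / R * Y ≤ s * Y :=
        mul_le_mul_of_nonneg_right (div_le_self hs0 hR1) hY0
      linarith only [h3, h2, h1]
    have e2 : |(s : ℝ) * r / (R + u)| ≤ s * (Y + 1) := by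
      rw [abs_of_nonneg (by positivity)]
      have h1 : (s : ℝ) * r / (R + u) ≤ s := by
        rw [div_le_iff₀ (by positivity)]
        apply mul_le_mul_of_nonneg_left _ hs0
        have h2 : (r : ℝ) ≤ R := by exact_mod_cast hrR
        have h3 : (0 : ℝ) ≤ u := by positivity
        linarith only [h2]
      have h4 : 0 ≤ (s : ℝ) * Y := by positivity
      linarith only [h4, h1]
    have e3 : |δ₁ * (Y + 1)| ≤ Y + 1 := by
      rw [abs_of_nonneg (by positivity)]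
      have := mul_le_mul_of_nonneg_right hδb (by linarith only [hNup, hε1, hε0] : (0 : ℝ) ≤ Y + 1)
      linarith only [this]
    have e4 : |B0 + δ₁ * (Y + 1)| ≤ |(s : ℝ) / R * X| + |(s : ℝ) * r / (R + u)| + |δ₁ * (Y + 1)| := by
      rw [hB0]
      calc |-((s : ℝ) / R) * X - (s : ℝ) * r / (R + u) + δ₁ * (Y + 1)| ≤
          |-((s : ℝ) / R) * X - (s : ℝ) * r / (R + u)| + |δ₁ * (Y + 1)| := abs_add_le _ _
        _ ≤ |-((s : ℝ) / R) * X| + |(s : ℝ) * r / (R + u)| + |δ₁ * (Y + 1)| := by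
            have := abs_sub (-((s : ℝ) / R) * X) ((s : ℝ) * r / (R + u))
            linarith only [this]
        _ = _ := by rw [neg_mul, abs_neg]
    have e5 : K * (Y + 1) = 2 * (s * (Y + 1)) + 2 * (Y + 1) := by rw [hK]; ring
    linarith only [e4, e3, e2, e1, hNup, hε1, hε0]
  -- conclusion
  have hfin : (B0 + δ₁ * (Y + 1)) * (P * (m : ℝ) ^ R) ≤ B0 + ε' * (Y + 1) := by
    have h1 : (B0 + δ₁ * (Y + 1)) * (P * (m : ℝ) ^ R - 1) ≤ K * (Y + 1) * (2 * (R * ε)) := by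
      refine (le_abs_self _).trans ?_
      rw [abs_mul]
      apply mul_le_mul hB1 hPabs (abs_nonneg _)
      positivity
    have h2 : K * (Y + 1) * (2 * (R * ε)) ≤ ε' / 4 * (Y + 1) := by
      have := mul_le_mul_of_nonneg_right hεb (by linarith only [hNup, hε1, hε0] : (0 : ℝ) ≤ Y + 1)
      have e : K * (2 * (R * ε)) * (Y + 1) = K * (Y + 1) * (2 * (R * ε)) := by ring
      linarith only [this]
    have h3 : δ₁ * (Y + 1) ≤ ε' / 4 * (Y + 1) :=
      mul_le_mul_of_nonneg_right hδa (by linarith only [hNup, hε1, hε0])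
    have h4 : 0 ≤ ε' * (Y + 1) := by positivity
    have h5 : (B0 + δ₁ * (Y + 1)) * (P * (m : ℝ) ^ R) =
        (B0 + δ₁ * (Y + 1)) * (P * (m : ℝ) ^ R - 1) + (B0 + δ₁ * (Y + 1)) := by ring
    rw [h5]
    linarith only [h4, h3, h2, h1]
  calc ((fJ J T a : ℝ) - rhoG J u R r m) * P ≤ Q * (B0 + δ₁ * (Y + 1)) * P :=
        mul_le_mul_of_nonneg_right hA hP0.le
    _ = Q / (m : ℝ) ^ R * ((B0 + δ₁ * (Y + 1)) * (P * (m : ℝ) ^ R)) := by field_simp
    _ ≤ Q / (m : ℝ) ^ R * (B0 + ε' * (Y + 1)) :=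
        mul_le_mul_of_nonneg_left hfin (by positivity)
    _ = M0 J R m / (m : ℝ) ^ R / m * (B0 + ε' * (Y + 1)) := by
        rw [hQ]; ring

end H57GH
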