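import Pool.Agent.H57.GH.RhoG

/-!
The tight case.
-/

namespace H57GH

open Finset H57LC H57LT

set_option linter.unusedSectionVars false

variable {ι : Type*} [Fintype ι] [DecidableEq ι] (J : SimpleGraph ι) [DecidableRel J.Adj]

/-- the number of labelled copies of `K_u ∨ J`, divided by `u!` -/
noncomputable def TightG_N (R : ℕ) {κ : Type*} [DecidableEq κ] (K : Finset κ) (a : κ → ℕ) : ℝ :=
  ∑ T ∈ powersetCard R K, (∏ k ∈ K \ T, (a k : ℝ)) * fJ J T a

lemma TightG_join {κ : Type*} [DecidableEq κ] {K : Finset κ} {u R : ℕ} (hK : K.card = R + u)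
    (a : κ → ℕ) : (fJ (jn J u) K a : ℝ) = u.factorial * TightG_N J R K a := by
  rw [fJ_join J hK a]
  unfold TightG_N
  push_cast
  rfl

lemma TightG_sum {κ : Type*} [DecidableEq κ] {K : Finset κ} {u R : ℕ} (hK : K.card = R + u)
    (a : κ → ℕ) (ha : ∀ k ∈ K, 0 < a k) (ρ : ℝ) :
    ∑ T ∈ powersetCard R K, ((fJ J T a : ℝ) - ρ) * ∏ t ∈ T, ((a t : ℝ))⁻¹ =
      (TightG_N J R K a - ρ * eS K (fun k => (a k : ℝ)) u) * ∏ k ∈ K, ((a k : ℝ))⁻¹ := by
  have ha' : ∀ k ∈ K, 0 < (a k : ℝ) := fun k hk => by exact_mod_cast ha k hk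
  have h2 := sum_inv_sub hK ha'
  have h1 : ∀ T ∈ powersetCard R K, ((fJ J T a : ℝ) - ρ) * ∏ t ∈ T, ((a t : ℝ))⁻¹ =
      (∏ k ∈ K \ T, (a k : ℝ)) * fJ J T a * ∏ k ∈ K, ((a k : ℝ))⁻¹ -
        ρ * ∏ t ∈ T, ((a t : ℝ))⁻¹ := by
    intro T hT
    rw [mem_powersetCard] at hT
    have e : ∏ t ∈ T, (a t : ℝ)⁻¹ = (∏ t ∈ K \ T, (a t : ℝ)) * ∏ k ∈ K, (a k : ℝ)⁻¹ := by
      rw [← prod_sdiff hT.1, ← mul_assoc, ← prod_mul_distrib]
      have : ∏ x ∈ K \ T, (a x : ℝ) * (a x : ℝ)⁻¹ = 1 := by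
        refine prod_eq_one fun x hx => ?_
        exact mul_inv_cancel₀ (ha' x (mem_sdiff.mp hx).1).ne'
      rw [this, one_mul]
    rw [sub_mul]
    congr 1
    rw [e]
    ring
  rw [sum_congr rfl h1, sum_sub_distrib, ← mul_sum, h2, ← sum_mul]
  unfold TightG_N
  ring

lemma TightG_eS_le {κ : Type*} [DecidableEq κ] (K : Finset κ) {x : κ → ℝ} :
    (∀ k ∈ K, 0 ≤ x k) → ∀ n : ℕ, (n.factorial : ℝ) * eS K x n ≤ (∑ k ∈ K, x k) ^ n := by
  induction K using Finset.induction_on with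
  | empty =>
    intro _ n
    cases n with
    | zero => simp [eS]
    | succ n => rw [eS_empty_succ]; simp
  | insert b K hb ih =>
    intro hx n
    have hxK : ∀ k ∈ K, 0 ≤ x k := fun k hk => hx k (mem_insert_of_mem hk)
    have hxb : 0 ≤ x b := hx b (mem_insert_self b K)
    have hA : 0 ≤ ∑ k ∈ K, x k := sum_nonneg hxK
    cases n with
    | zero => simp [eS_zero]
    | succ n =>
      rw [eS_insert hb, sum_insert hb]
      have i1 := ih hxK (n + 1)
      have i2 := ih hxK n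
      have ht := tangent_le hA (add_nonneg hxb hA) n
      rw [add_sub_cancel_right] at ht
      have e1 : ((n + 1).factorial : ℝ) = ((n : ℝ) + 1) * n.factorial := by
        rw [Nat.factorial_succ]; push_cast; ring
      have i3 := mul_le_mul_of_nonneg_left i2 (mul_nonneg (by positivity : (0 : ℝ) ≤ (n : ℝ) + 1) hxb)
      calc ((n + 1).factorial : ℝ) * (eS K x (n + 1) + x b * eS K x n) =
            ((n + 1).factorial : ℝ) * eS K x (n + 1) +
              ((n : ℝ) + 1) * x b * (n.factorial * eS K x n) := by rw [e1]; ring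
        _ ≤ (∑ k ∈ K, x k) ^ (n + 1) + ((n : ℝ) + 1) * x b * (∑ k ∈ K, x k) ^ n :=
            add_le_add i1 i3
        _ = (∑ k ∈ K, x k) ^ (n + 1) + ((n : ℝ) + 1) * (∑ k ∈ K, x k) ^ n * x b := by ring
        _ ≤ _ := ht

lemma TightG_eQ_le {κ : Type*} [DecidableEq κ] (K : Finset κ) {x : κ → ℝ}
    (hx : ∀ k ∈ K, 0 ≤ x k) (u : ℕ) :
    (u.factorial : ℝ) * eQ K x u ≤ (u : ℝ) * (u - 1) * (∑ k ∈ K, x k) ^ (u - 2) := by
  match u with
  | 0 => simp [eQ]
  | 1 => simp [eQ]
  | n + 2 =>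
    have h := mul_le_mul_of_nonneg_left (TightG_eS_le K hx n)
      (by positivity : (0 : ℝ) ≤ ((n : ℝ) + 2) * ((n : ℝ) + 1))
    have e1 : ((n + 2).factorial : ℝ) = ((n : ℝ) + 2) * ((n : ℝ) + 1) * n.factorial := by
      rw [Nat.factorial_succ, Nat.factorial_succ]; push_cast; ring
    have e2 : n + 2 - 2 = n := by omega
    rw [e1, e2]
    simp only [eQ]
    push_cast
    refine le_trans (le_of_eq ?_) (h.trans (le_of_eq ?_)) <;> ring

lemma TightG_eQ_congr {κ : Type*} {K : Finset κ} {x y : κ → ℝ} (h : ∀ k ∈ K, x k = y k) (n : ℕ) :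
    eQ K x n = eQ K y n := by
  match n with
  | 0 => rfl
  | 1 => rfl
  | n + 2 => exact eS_congr h n

lemma TightG_diff {κ : Type*} [DecidableEq κ] {K : Finset κ} {k l : κ} (hk : k ∈ K) (hl : l ∈ K)
    (hkl : k ≠ l) (b : κ → ℕ) (u : ℕ) :
    eS K (fun j => (up b l j : ℝ)) u - eS K (fun j => (up b k j : ℝ)) u =
      ((b k : ℝ) - b l) * eQ ((K.erase k).erase l) (fun j => (b j : ℝ)) u := by
  set K' := (K.erase k).erase l with hK'
  have hl' : l ∈ K.erase k := mem_erase.2 ⟨hkl.symm, hl⟩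
  have hKe : K = insert k (insert l K') := by
    rw [hK', insert_erase hl', insert_erase hk]
  have hlK : l ∉ K' := notMem_erase _ _
  have hkK : k ∉ insert l K' := by
    rw [hK', insert_erase hl']
    exact notMem_erase _ _
  have hne : ∀ j ∈ K', j ≠ k ∧ j ≠ l := by
    intro j hj
    constructor
    · rintro rfl
      exact hkK (mem_insert_of_mem hj)
    · rintro rfl
      exact hlK hj
  have hc1 : ∀ n, eQ K' (fun j => (up b l j : ℝ)) n = eQ K' (fun j => (b j : ℝ)) n :=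
    TightG_eQ_congr fun j hj => by
      simp only [up, Function.update_of_ne (hne j hj).2]
  have hc2 : ∀ n, eQ K' (fun j => (up b k j : ℝ)) n = eQ K' (fun j => (b j : ℝ)) n :=
    TightG_eQ_congr fun j hj => by
      simp only [up, Function.update_of_ne (hne j hj).1]
  have f1 := eS_insert_two hkK hlK (fun j => (up b l j : ℝ)) u
  have f2 := eS_insert_two hkK hlK (fun j => (up b k j : ℝ)) u
  rw [← hKe] at f1 f2
  rw [f1, f2]
  simp only [hc1, hc2]
  have v1 : up b l k = b k := by simp only [up, Function.update_of_ne hkl]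
  have v2 : up b l l = b l + 1 := by simp only [up, Function.update_self]
  have v3 : up b k k = b k + 1 := by simp only [up, Function.update_self]
  have v4 : up b k l = b l := by simp only [up, Function.update_of_ne hkl.symm]
  rw [v1, v2, v3, v4]
  push_cast
  ring

lemma TightG_bij {κ : Type*} [DecidableEq κ] {K : Finset κ} {w r : ℕ} (hw : 1 ≤ w)
    (hK : K.card = w) {g : κ → ℕ} (hg : ∀ k ∈ K, g k ≤ 1) (hs : ∑ k ∈ K, g k = r) :
    ∃ σ : κ → Fin w, Set.BijOn σ K (univ : Finset (Fin w)) ∧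
      ∀ k ∈ K, g k = if (σ k).val < r then 1 else 0 := by
  have hr : (K.filter fun k => g k = 1).card = r := by
    rw [card_filter, ← hs]
    refine sum_congr rfl fun k hk => ?_
    have := hg k hk
    interval_cases h : g k <;> simp
  have hrw : r ≤ w := by
    rw [← hr, ← hK]
    exact card_filter_le _ _
  have hc1 : (univ.filter fun i : Fin w => i.val < r).card = r := by
    rw [Fin.card_filter_val_lt]
    omega
  have hc2 : (univ.filter fun i : Fin w => ¬ i.val < r).card = w - r := by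
    have := card_filter_add_card_filter_not (s := (univ : Finset (Fin w)))
      (fun i : Fin w => i.val < r)
    rw [hc1, card_univ, Fintype.card_fin] at this
    omega
  have hc3 : (K.filter fun k => ¬ g k = 1).card = w - r := by
    have := card_filter_add_card_filter_not (s := K) (fun k => g k = 1)
    rw [hr, hK] at this
    omega
  let f : {k // k ∈ K} → Prop := fun k => g k = 1
  let f' : Fin w → Prop := fun i => i.val < r
  have key : ∀ c : Prop, Nonempty ({ a // f a = c } ≃ { b // f' b = c }) := by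
    intro c
    classical
    by_cases hcc : c
    · have hct : c = True := eq_true hcc
      subst hct
      refine Fintype.card_eq.1 ?_
      rw [Fintype.card_subtype, Fintype.card_subtype]
      have h1 : (univ.filter fun b : Fin w => f' b = True).card = r := by
        refine (congrArg Finset.card ?_).trans hc1
        ext i
        simp [f']
      have h2 : (univ.filter fun a : {k // k ∈ K} => f a = True).card = r := by
        rw [← hr]
        have : (K.filter fun k => g k = 1) =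
            (univ.filter fun a : {k // k ∈ K} => f a = True).map (Function.Embedding.subtype _) := by
          ext k
          simp [f, and_comm]
        rw [this, card_map]
      rw [h1, h2]
    · have hct : c = False := eq_false hcc
      subst hct
      refine Fintype.card_eq.1 ?_
      rw [Fintype.card_subtype, Fintype.card_subtype]
      have h1 : (univ.filter fun b : Fin w => f' b = False).card = w - r := by
        refine (congrArg Finset.card ?_).trans hc2
        ext i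
        simp [f']
      have h2 : (univ.filter fun a : {k // k ∈ K} => f a = False).card = w - r := by
        rw [← hc3]
        have : (K.filter fun k => ¬ g k = 1) =
            (univ.filter fun a : {k // k ∈ K} => f a = False).map (Function.Embedding.subtype _) := by
          ext k
          simp [f, and_comm]
        rw [this, card_map]
      rw [h1, h2]
  let e := Equiv.ofFiberEquiv fun c => (key c).some
  have he : ∀ a, f' (e a) = f a := fun a => Equiv.ofFiberEquiv_map _ a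
  refine ⟨fun k => if h : k ∈ K then e ⟨k, h⟩ else ⟨0, hw⟩, ⟨?_, ?_, ?_⟩, ?_⟩
  · intro k _
    simp
  · intro k hk k' hk' h
    have hk1 : k ∈ K := hk
    have hk2 : k' ∈ K := hk'
    simp only [dif_pos hk1, dif_pos hk2] at h
    have := e.injective h
    simpa using this
  · intro i _
    obtain ⟨⟨k, hk⟩, hke⟩ := e.surjective i
    refine ⟨k, hk, ?_⟩
    simp only [dif_pos hk]
    exact hke
  · intro k hk
    simp only [dif_pos hk]
    have h1 := he ⟨k, hk⟩
    simp only [f, f', eq_iff_iff] at h1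
    have h2 := hg k hk
    split_ifs with h3
    · exact h1.1 h3
    · have h4 : g k ≠ 1 := fun h => h3 (h1.2 h)
      omega

lemma TightG_base {κ : Type} [DecidableEq κ] {K : Finset κ} {u R r m : ℕ} (hu : 1 ≤ u)
    (hm : 1 ≤ m) (hK : K.card = R + u) {g : κ → ℕ} (hg : ∀ k ∈ K, g k ≤ 1)
    (hs : ∑ k ∈ K, g k = r) :
    TightG_N J R K (fun k => m + g k) =
      rhoG J u R r m * eS K (fun k => ((m + g k : ℕ) : ℝ)) u := by
  obtain ⟨σ, hσ, hσg⟩ := TightG_bij (w := R + u) (by omega) hK hg hs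
  have h1 := fJ_map (jn J u) σ hσ (xg (R + u) r m)
  have h2 : fJ (jn J u) K (fun k => m + g k) = fJ (jn J u) K (fun k => xg (R + u) r m (σ k)) := by
    refine fJ_congr (jn J u) fun k hk => ?_
    show m + g k = m + _
    rw [hσg k hk]
  have hc : (univ : Finset (Fin (R + u))).card = R + u := by rw [card_univ, Fintype.card_fin]
  have h3 := TightG_join J hK (fun k => m + g k)
  have h4 := TightG_join J hc (xg (R + u) r m)
  have h5 : TightG_N J R K (fun k => m + g k) = TightG_N J R univ (xg (R + u) r m) := by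
    have h6 : (u.factorial : ℝ) ≠ 0 := by exact_mod_cast (Nat.factorial_pos u).ne'
    have h7 : (u.factorial : ℝ) * TightG_N J R K (fun k => m + g k) =
        u.factorial * TightG_N J R univ (xg (R + u) r m) := by
      rw [← h3, ← h4, h2, h1]
    exact mul_left_cancel₀ h6 h7
  have h8 : eS K (fun k => ((m + g k : ℕ) : ℝ)) u = eN (R + u) r m u := by
    rw [← eN_eq hK hg hs u]
    refine eS_congr (fun k _ => ?_) u
    push_cast
    rfl
  have h9 : 0 < eN (R + u) r m u := eN_pos hm (by omega)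
  rw [h5, h8]
  have h10 : rhoG J u R r m = TightG_N J R univ (xg (R + u) r m) / eN (R + u) r m u := rfl
  rw [h10, div_mul_cancel₀ _ h9.ne']

lemma TightG_pow_ge {x : ℝ} (hx0 : 0 ≤ x) (hx1 : x ≤ 1) (n : ℕ) : 1 - n * x ≤ (1 - x) ^ n := by
  have h := one_add_mul_le_pow (a := -x) (by linarith) n
  have e1 : (1 : ℝ) + n * -x = 1 - n * x := by ring
  have e2 : (1 : ℝ) + -x = 1 - x := by ring
  rwa [e1, e2] at h

lemma TightG_bracket {u s e R m p : ℕ} {C E : ℝ} (hu : 1 ≤ u) (hs : 2 ≤ s) (he : 1 ≤ e)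
    (hE : E = (u : ℝ) * (u - 1) + 2 * u * s + e) (hC : 0 < C) (hR : 1 ≤ R) (hRC : 4 * C ≤ R)
    (hRE : 2 * E * (u : ℝ) ^ 2 ≤ R) (hm : 1 ≤ m) (hmE : E * p ≤ (m : ℝ) + 1) :
    1 ≤ (E - C * (2 / R)) * (((R : ℝ) + 1) / (R + u)) ^ u * ((m : ℝ) / (m + 1)) ^ p -
      (u : ℝ) * (u - 1) := by
  have hu' : (1 : ℝ) ≤ u := by exact_mod_cast hu
  have hs' : (2 : ℝ) ≤ s := by exact_mod_cast hs
  have he' : (1 : ℝ) ≤ e := by exact_mod_cast he
  have hR' : (1 : ℝ) ≤ R := by exact_mod_cast hR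
  have hm' : (1 : ℝ) ≤ m := by exact_mod_cast hm
  have hus : (2 : ℝ) ≤ u * s := by nlinarith only [hu', hs']
  have huu : 0 ≤ (u : ℝ) * (u - 1) := mul_nonneg (by linarith) (by linarith)
  have hE0 : 0 ≤ E := by rw [hE]; nlinarith only [he', hus, huu]
  set P : ℝ := (((R : ℝ) + 1) / (R + u)) ^ u with hP
  set Q : ℝ := ((m : ℝ) / (m + 1)) ^ p with hQ
  have hRu : (0 : ℝ) < (R : ℝ) + u := by linarith
  have hP1 : 1 - (u : ℝ) ^ 2 / R ≤ P := by
    have e1 : ((R : ℝ) + 1) / (R + u) = 1 - (u - 1) / (R + u) := by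
      field_simp
      ring
    have hx0 : 0 ≤ ((u : ℝ) - 1) / (R + u) := div_nonneg (by linarith only [hu']) hRu.le
    have hx1 : ((u : ℝ) - 1) / (R + u) ≤ 1 := by
      rw [div_le_one hRu]
      linarith
    have h1 := TightG_pow_ge hx0 hx1 u
    rw [hP, e1]
    refine le_trans ?_ h1
    have h2 : (u : ℝ) * ((u - 1) / (R + u)) ≤ (u : ℝ) ^ 2 / R := by
      rw [← mul_div_assoc, div_le_div_iff₀ hRu (by linarith)]
      have h3 : (u : ℝ) * (u - 1) * R ≤ (u : ℝ) ^ 2 * R := by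
        refine mul_le_mul_of_nonneg_right ?_ (by linarith only [hC, hRC])
        nlinarith only [hu']
      have h4 : (u : ℝ) ^ 2 * R ≤ (u : ℝ) ^ 2 * (R + u) := by
        refine mul_le_mul_of_nonneg_left ?_ (by positivity)
        linarith only [hu']
      linarith only [h3, h4]
    linarith only [h2]
  have hP0 : 0 ≤ P := by positivity
  have hP2 : P ≤ 1 := by
    refine pow_le_one₀ (by positivity) ?_
    rw [div_le_one hRu]
    linarith
  have hQ1 : 1 - (p : ℝ) / (m + 1) ≤ Q := by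
    have e1 : (m : ℝ) / (m + 1) = 1 - 1 / (m + 1) := by
      field_simp
      ring
    have hx0 : 0 ≤ (1 : ℝ) / (m + 1) := by positivity
    have hx1 : (1 : ℝ) / (m + 1) ≤ 1 := by
      rw [div_le_one (by linarith)]
      linarith
    have h1 := TightG_pow_ge hx0 hx1 p
    rw [hQ, e1]
    refine le_trans (le_of_eq ?_) h1
    ring
  have hQ0 : 0 ≤ Q := by positivity
  have hQ2 : Q ≤ 1 := by
    refine pow_le_one₀ (by positivity) ?_
    rw [div_le_one (by linarith)]
    linarith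
  have hz0 : 0 ≤ C * (2 / R) := by positivity
  have hz1 : C * (2 / R) ≤ 1 / 2 := by
    rw [← mul_div_assoc, div_le_div_iff₀ (by linarith only [hC, hRC]) (by norm_num)]
    linarith only [hRC]
  have hPQ1 : P + Q - 1 ≤ P * Q := by nlinarith only [hP2, hQ2]
  have hPQ2 : P * Q ≤ 1 := by nlinarith only [hP2, hP0, hQ2]
  have h1 : E * (1 - (u : ℝ) ^ 2 / R - (p : ℝ) / (m + 1)) ≤ E * (P * Q) :=
    mul_le_mul_of_nonneg_left (by linarith only [hP1, hQ1, hPQ1]) hE0
  have h2 : E * ((u : ℝ) ^ 2 / R) ≤ 1 / 2 := by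
    rw [← mul_div_assoc, div_le_div_iff₀ (by linarith only [hC, hRC]) (by norm_num)]
    linarith
  have h3 : E * ((p : ℝ) / (m + 1)) ≤ 1 := by
    rw [← mul_div_assoc, div_le_one (by linarith only [hm'])]
    exact hmE
  have h4 : C * (2 / R) * (P * Q) ≤ 1 / 2 := by
    have := mul_le_mul hz1 hPQ2 (mul_nonneg hP0 hQ0) (by norm_num)
    linarith only [this]
  have e5 : (E - C * (2 / R)) * P * Q = E * (P * Q) - C * (2 / R) * (P * Q) := by ring
  rw [e5]
  have h6 : E * (1 - (u : ℝ) ^ 2 / R - (p : ℝ) / (m + 1)) =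
      E - E * ((u : ℝ) ^ 2 / R) - E * ((p : ℝ) / (m + 1)) := by ring
  rw [h6] at h1
  have h7 : E - (u : ℝ) * (u - 1) = 2 * (u * s) + e := by rw [hE]; ring
  linarith only [hE, he', hus, h1, h2, h3, h4]

lemma TightG_arith {u s e R m p : ℕ} {C E F F' D D' q n nb δ : ℝ} (hu : 1 ≤ u) (hs : 2 ≤ s)
    (he : 1 ≤ e) (hE : E = (u : ℝ) * (u - 1) + 2 * u * s + e) (hC : 0 < C) (hR : 1 ≤ R)
    (hRC : 4 * C ≤ R) (hRE : 2 * E * (u : ℝ) ^ 2 ≤ R) (hm : 1 ≤ m)
    (hmE : E * p ≤ (m : ℝ) + 1) (hp : p = 2 * u + s - 2) (hδ : 1 ≤ δ)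
    (hnb1 : ((R : ℝ) + u) * m ≤ nb) (hnb2 : nb ≤ ((R : ℝ) + u) * (m + 1)) (hn0 : 0 ≤ n)
    (hn : n ≤ ((R : ℝ) + u) * (m + 1))
    (hF : (E - C * (2 / R)) * δ * nb ^ (u + s - 2) ≤ F' - F)
    (hFle : F ≤ n ^ (u + s)) (hF0 : 0 ≤ F)
    (hD : ((R : ℝ) + 1) ^ u * (m : ℝ) ^ u ≤ u.factorial * D)
    (hDD : D' - D = δ * q) (hq : (u.factorial : ℝ) * q ≤ (u : ℝ) * (u - 1) * nb ^ (u - 2))
    (hq0 : 0 ≤ q) :
    (m : ℝ) ^ p ≤ u.factorial * (F' * D - F * D') := by
  have hbr := TightG_bracket hu hs he hE hC hR hRC hRE hm hmE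
  have hu' : (1 : ℝ) ≤ u := by exact_mod_cast hu
  have hR' : (1 : ℝ) ≤ R := by exact_mod_cast hR
  have hm' : (1 : ℝ) ≤ m := by exact_mod_cast hm
  have hs' : (2 : ℝ) ≤ s := by exact_mod_cast hs
  have he' : (1 : ℝ) ≤ e := by exact_mod_cast he
  have huu : 0 ≤ (u : ℝ) * (u - 1) := mul_nonneg (by linarith only [hu']) (by linarith only [hu'])
  have hRu : (0 : ℝ) < (R : ℝ) + u := by linarith only [hC, hRC, hu']
  have hz1 : C * (2 / R) ≤ 1 / 2 := by
    rw [← mul_div_assoc, div_le_div_iff₀ (by linarith only [hC, hRC]) (by norm_num)]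
    linarith
  have hE1 : 1 ≤ E := by rw [hE]; nlinarith only [he', huu]
  set X : ℝ := ((R : ℝ) + u) * (m + 1) with hX
  have hX1 : (m : ℝ) ≤ X := by rw [hX]; nlinarith only [hC, hRC, hu', hm']
  have hX0 : 0 ≤ X := by linarith only [hm', hX1]
  have hnb0 : 0 ≤ nb := le_trans (by positivity) hnb1
  set A : ℝ := (E - C * (2 / R)) * δ * (((R : ℝ) + u) * m) ^ (u + s - 2) with hA
  have hA1 : A ≤ F' - F := by
    refine le_trans ?_ hF
    refine mul_le_mul_of_nonneg_left ?_ ?_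
    · exact pow_le_pow_left₀ (by positivity) hnb1 _
    · exact mul_nonneg (by linarith only [hz1, hE1]) (by linarith only [hδ])
  have hA0 : 0 ≤ A := by
    refine mul_nonneg (mul_nonneg (by linarith only [hz1,
        hE1]) (by linarith only [hδ])) (by positivity)
  have h1 : A * (((R : ℝ) + 1) ^ u * (m : ℝ) ^ u) ≤ (F' - F) * (u.factorial * D) :=
    mul_le_mul hA1 hD (by positivity) (hA0.trans hA1)
  have h2 : A * (((R : ℝ) + 1) ^ u * (m : ℝ) ^ u) =
      δ * X ^ p * ((E - C * (2 / R)) * (((R : ℝ) + 1) / (R + u)) ^ u * ((m : ℝ) / (m + 1)) ^ p) := by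
    have hpe : p = (u + s - 2) + u := by omega
    have hm1 : (0 : ℝ) < (m : ℝ) + 1 := by linarith only [hm']
    have e1 : X ^ (u + s - 2) * ((m : ℝ) / (m + 1)) ^ (u + s - 2) =
        (((R : ℝ) + u) * m) ^ (u + s - 2) := by
      rw [← mul_pow]
      congr 1
      rw [hX]
      field_simp
    have e2 : X ^ u * ((m : ℝ) / (m + 1)) ^ u * (((R : ℝ) + 1) / (R + u)) ^ u =
        ((R : ℝ) + 1) ^ u * (m : ℝ) ^ u := by
      rw [← mul_pow, ← mul_pow, ← mul_pow]
      congr 1
      rw [hX]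
      field_simp
    calc A * (((R : ℝ) + 1) ^ u * (m : ℝ) ^ u) =
        (E - C * (2 / R)) * δ * (X ^ (u + s - 2) * ((m : ℝ) / (m + 1)) ^ (u + s - 2)) *
          (X ^ u * ((m : ℝ) / (m + 1)) ^ u * (((R : ℝ) + 1) / (R + u)) ^ u) := by
          rw [e1, e2, hA]
      _ = _ := by
          rw [hpe, pow_add, pow_add]
          ring
  have h3 : u.factorial * (F * (D' - D)) ≤ δ * X ^ p * ((u : ℝ) * (u - 1)) := by
    have e1 : (u.factorial : ℝ) * (F * (D' - D)) = δ * (F * (u.factorial * q)) := by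
      rw [hDD]; ring
    rw [e1]
    have h4 : F * (u.factorial * q) ≤ X ^ p * ((u : ℝ) * (u - 1)) := by
      have h5 : F * (u.factorial * q) ≤ n ^ (u + s) * ((u : ℝ) * (u - 1) * nb ^ (u - 2)) :=
        mul_le_mul hFle hq (mul_nonneg (by positivity) hq0) (by positivity)
      refine h5.trans ?_
      rcases Nat.lt_or_ge u 2 with h | h
      · have : u = 1 := by omega
        subst this
        simp
      · have hpe : p = (u + s) + (u - 2) := by omega
        rw [hpe, pow_add X (u + s) (u - 2)]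
        have h6 : n ^ (u + s) * nb ^ (u - 2) ≤ X ^ (u + s) * X ^ (u - 2) :=
          mul_le_mul (pow_le_pow_left₀ hn0 hn _) (pow_le_pow_left₀ hnb0 hnb2 _) (by positivity)
            (by positivity)
        have h7 := mul_le_mul_of_nonneg_right h6 huu
        refine le_trans (le_of_eq ?_) h7
        ring
    have h8 := mul_le_mul_of_nonneg_left h4 (by linarith only [hδ] : (0 : ℝ) ≤ δ)
    refine h8.trans (le_of_eq ?_)
    ring
  have h4 : u.factorial * (F' * D - F * D') =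
      (F' - F) * (u.factorial * D) - u.factorial * (F * (D' - D)) := by ring
  rw [h4]
  have h5 : δ * X ^ p * 1 ≤ δ * X ^ p * ((E - C * (2 / R)) * (((R : ℝ) + 1) / (R + u)) ^ u *
      ((m : ℝ) / (m + 1)) ^ p - (u : ℝ) * (u - 1)) :=
    mul_le_mul_of_nonneg_left hbr (mul_nonneg (by linarith only [hδ]) (by positivity))
  have h6 : (m : ℝ) ^ p ≤ δ * X ^ p := by
    have h7 : (m : ℝ) ^ p ≤ X ^ p := pow_le_pow_left₀ (by linarith only [hm']) hX1 _
    have h8 : 1 * X ^ p ≤ δ * X ^ p := mul_le_mul_of_nonneg_right hδ (by positivity)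
    linarith only [h7, h8]
  rw [mul_sub] at h5
  linarith only [h1, h2, h3, h5, h6]

/-- the gain of one smoothing step -/
noncomputable def TightG_c (u W : ℕ) : ℝ := (((u.factorial : ℝ) ^ 2) * (4 : ℝ) ^ W * (4 : ℝ) ^ u)⁻¹

lemma TightG_c_pos (u W : ℕ) : 0 < TightG_c u W := by
  unfold TightG_c
  positivity

/-- from the increment to the quotient -/
lemma TightG_quot {u s W m p : ℕ} {F F' D D' : ℝ} (hs : 2 ≤ s) (hm : 1 ≤ m)
    (hp : p = 2 * u + s - 2) (hD0 : 0 < D) (hD0' : 0 < D')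
    (hD : D ≤ (2 : ℝ) ^ W * (2 * m) ^ u) (hD' : D' ≤ (2 : ℝ) ^ W * (2 * m) ^ u)
    (h : (m : ℝ) ^ p ≤ u.factorial * ((u.factorial * F') * D - (u.factorial * F) * D')) :
    F / D + TightG_c u W * (m : ℝ) ^ (s - 2) ≤ F' / D' := by
  have hm' : (0 : ℝ) < m := by exact_mod_cast hm
  have hf : (0 : ℝ) < u.factorial := by exact_mod_cast Nat.factorial_pos u
  have h1 : F' / D' - F / D = (F' * D - F * D') / (D * D') := by
    field_simp
  have h2 : TightG_c u W * (m : ℝ) ^ (s - 2) ≤ (F' * D - F * D') / (D * D') := by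
    rw [le_div_iff₀ (mul_pos hD0 hD0')]
    have h3 : D * D' ≤ ((2 : ℝ) ^ W * (2 * m) ^ u) * ((2 : ℝ) ^ W * (2 * m) ^ u) :=
      mul_le_mul hD hD' hD0'.le (by positivity)
    have h4 : TightG_c u W * (m : ℝ) ^ (s - 2) * (D * D') ≤ TightG_c u W * (m : ℝ) ^ (s - 2) *
        (((2 : ℝ) ^ W * (2 * m) ^ u) * ((2 : ℝ) ^ W * (2 * m) ^ u)) :=
      mul_le_mul_of_nonneg_left h3 (mul_nonneg (TightG_c_pos u W).le (by positivity))
    refine h4.trans ?_
    have h5 : TightG_c u W * (m : ℝ) ^ (s - 2) *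
        (((2 : ℝ) ^ W * (2 * m) ^ u) * ((2 : ℝ) ^ W * (2 * m) ^ u)) =
        (m : ℝ) ^ p / (u.factorial : ℝ) ^ 2 := by
      have hpe : p = (s - 2) + u + u := by omega
      have e4 : (4 : ℝ) ^ W = (2 : ℝ) ^ W * (2 : ℝ) ^ W := by
        rw [← mul_pow]; norm_num
      have e5 : (4 : ℝ) ^ u = (2 : ℝ) ^ u * (2 : ℝ) ^ u := by
        rw [← mul_pow]; norm_num
      unfold TightG_c
      rw [hpe, pow_add, pow_add, mul_pow, e4, e5]
      field_simp
    rw [h5, div_le_iff₀ (by positivity)]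
    refine h.trans (le_of_eq ?_)
    ring
  linarith only [h1, h2]

lemma TightG_step (hcs : 2 ≤ Fintype.card ι) (hJ : 1 ≤ oe J) {u : ℕ} (hu : 1 ≤ u) {C E : ℝ}
    (hC : 0 < C) (hE : E = (u : ℝ) * (u - 1) + 2 * u * Fintype.card ι + oe J)
    (htr : ∀ (θ : ℝ), 0 < θ → θ ≤ 1 / 4 → C * θ ≤ (oe (jn J u) : ℝ) →
      ∀ (κ : Type) [DecidableEq κ] (T : Finset κ) (a : κ → ℕ), ∀ k ∈ T, ∀ l ∈ T, a l ≤ a k →
      (∀ j ∈ T, (a j : ℝ) ≤ θ * ∑ j ∈ T, (a j : ℝ)) → 2 ≤ θ * ∑ j ∈ T, (a j : ℝ) →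
      ((oe (jn J u) : ℝ) - C * θ) * ((a k : ℝ) - a l) *
        (∑ j ∈ T, (a j : ℝ)) ^ (Fintype.card (Fin u ⊕ ι) - 2) ≤
        (fJ (jn J u) T (up a l) : ℝ) - fJ (jn J u) T (up a k))
    {R r m p : ℕ} (hR : 8 ≤ R) (hRC : 4 * C ≤ R) (hRE : 2 * E * (u : ℝ) ^ 2 ≤ R)
    (hr : r ≤ R + u) (hm : 1 ≤ m) (hrm : r ≤ m) (hp : p = 2 * u + Fintype.card ι - 2)
    (hmE : E * p ≤ (m : ℝ) + 1)
    {κ : Type} [DecidableEq κ] {K : Finset κ} (hK : K.card = R + u) {g : κ → ℕ}
    (hg : ∑ k ∈ K, g k = r) {k : κ} (hk : k ∈ K) (hgk : 2 ≤ g k) :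
    ∃ g' : κ → ℕ, ∑ j ∈ K, g' j = r ∧ ∑ j ∈ K, g' j ^ 2 < ∑ j ∈ K, g j ^ 2 ∧
      TightG_N J R K (fun j => m + g j) / eS K (fun j => ((m + g j : ℕ) : ℝ)) u +
          TightG_c u (R + u) * (m : ℝ) ^ (Fintype.card ι - 2) ≤
        TightG_N J R K (fun j => m + g' j) / eS K (fun j => ((m + g' j : ℕ) : ℝ)) u := by
  have : ∃ q ∈ K, g q = 0 := by
    by_contra hcon
    push Not at hcon
    have h1 : ∑ k ∈ K, 1 < ∑ k ∈ K, g k :=
      sum_lt_sum (fun k hk => Nat.one_le_iff_ne_zero.2 (hcon k hk)) ⟨k, hk, hgk⟩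
    rw [hg] at h1
    simp only [sum_const, smul_eq_mul, mul_one] at h1
    omega
  obtain ⟨l, hl, hgl⟩ := this
  have hkl : k ≠ l := by
    rintro rfl
    omega
  set b : κ → ℕ := fun j => m + if j = k then g k - 1 else g j with hb
  set g' : κ → ℕ := fun j => if j = k then g k - 1 else if j = l then 1 else g j with hg'
  have hbk : b k = m + (g k - 1) := by simp [hb]
  have hbl : b l = m := by simp [hb, hkl.symm, hgl]
  have hupk : up b k = fun j => m + g j := by
    funext j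
    by_cases hj : j = k
    · subst hj
      simp only [up, Function.update_self]
      rw [hbk]
      omega
    · simp only [up, Function.update_of_ne hj, hb, if_neg hj]
  have hupl : up b l = fun j => m + g' j := by
    funext j
    by_cases hj : j = l
    · subst hj
      simp only [up, Function.update_self]
      rw [hbl]
      simp [hg', hkl.symm]
    · simp only [up, Function.update_of_ne hj, hb, hg', if_neg hj]
  -- sums
  have hsk : ∑ j ∈ K, (if j = k then 1 else 0 : ℕ) = 1 := by simp [hk]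
  have hsl : ∑ j ∈ K, (if j = l then 1 else 0 : ℕ) = 1 := by simp [hl]
  have hbsum : ∑ j ∈ K, b j + 1 = (R + u) * m + r := by
    rw [← hsk, ← sum_add_distrib, ← hg, ← hK, ← smul_eq_mul, ← sum_const, ← sum_add_distrib]
    refine sum_congr rfl fun j _ => ?_
    by_cases hj : j = k
    · subst hj
      rw [hbk, if_pos rfl]
      omega
    · simp only [hb, if_neg hj]
      omega
  have hr2 : 2 ≤ r := by
    rw [← hg]
    exact hgk.trans (single_le_sum (f := g) (fun _ _ => Nat.zero_le _) hk)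
  have hgle : ∀ j ∈ K, g j ≤ r := fun j hj => by
    rw [← hg]
    exact single_le_sum (f := g) (fun _ _ => Nat.zero_le _) hj
  have hg's : ∑ j ∈ K, g' j = r := by
    have h1 : ∑ j ∈ K, g' j + ∑ j ∈ K, (if j = k then 1 else 0 : ℕ) =
        ∑ j ∈ K, g j + ∑ j ∈ K, (if j = l then 1 else 0 : ℕ) := by
      rw [← sum_add_distrib, ← sum_add_distrib]
      refine sum_congr rfl fun j _ => ?_
      by_cases hj : j = k
      · subst hj
        simp only [hg', if_true, if_neg hkl]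
        omega
      · by_cases hj' : j = l
        · subst hj'
          simp only [hg', if_neg hj, if_true, hgl]
        · simp only [hg', if_neg hj, if_neg hj']
    rw [hsk, hsl, hg] at h1
    omega
  have hg'q : ∑ j ∈ K, g' j ^ 2 < ∑ j ∈ K, g j ^ 2 := by
    have hsk2 : ∑ j ∈ K, (if j = k then 2 * g k - 1 else 0 : ℕ) = 2 * g k - 1 := by simp [hk]
    have h1 : ∑ j ∈ K, g' j ^ 2 + ∑ j ∈ K, (if j = k then 2 * g k - 1 else 0 : ℕ) =
        ∑ j ∈ K, g j ^ 2 + ∑ j ∈ K, (if j = l then 1 else 0 : ℕ) := by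
      rw [← sum_add_distrib, ← sum_add_distrib]
      refine sum_congr rfl fun j _ => ?_
      by_cases hj : j = k
      · subst hj
        simp only [hg', if_true, if_neg hkl]
        obtain ⟨c, hc⟩ : ∃ c, g j = c + 2 := ⟨g j - 2, by omega⟩
        rw [hc]
        have e1 : c + 2 - 1 = c + 1 := by omega
        have e2 : 2 * (c + 2) - 1 = 2 * c + 3 := by omega
        rw [e1, e2]
        ring
      · by_cases hj' : j = l
        · subst hj'
          simp only [hg', if_neg hj, if_true, hgl]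
          norm_num
        · simp only [hg', if_neg hj, if_neg hj']
    rw [hsk2, hsl] at h1
    omega
  refine ⟨g', hg's, hg'q, ?_⟩
  have hm' : (1 : ℝ) ≤ m := by exact_mod_cast hm
  have hR' : (8 : ℝ) ≤ R := by exact_mod_cast hR
  have hu' : (1 : ℝ) ≤ u := by exact_mod_cast hu
  have hr2' : (2 : ℝ) ≤ r := by exact_mod_cast hr2
  have hrm' : (r : ℝ) ≤ m := by exact_mod_cast hrm
  have hr' : (r : ℝ) ≤ (R : ℝ) + u := by exact_mod_cast hr
  set nb : ℝ := ∑ j ∈ K, (b j : ℝ) with hnb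
  have hnbe : nb = ((R : ℝ) + u) * m + r - 1 := by
    have : ((∑ j ∈ K, b j + 1 : ℕ) : ℝ) = (((R + u) * m + r : ℕ) : ℝ) := by rw [hbsum]
    push_cast at this
    rw [← hnb] at this
    linarith only [this]
  have hnb1 : ((R : ℝ) + u) * m ≤ nb := by rw [hnbe]; linarith only [hr2']
  have hnb2 : nb ≤ ((R : ℝ) + u) * (m + 1) := by rw [hnbe]; linarith only [hr']
  have hE' : (oe (jn J u) : ℝ) = E := by
    rw [oe_join, hE]
    obtain ⟨v, rfl⟩ : ∃ v, u = v + 1 := ⟨u - 1, by omega⟩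
    rw [Nat.add_sub_cancel]
    push_cast
    ring
  have hθ0 : (0 : ℝ) < 2 / R := by positivity
  have hθ1 : (2 : ℝ) / R ≤ 1 / 4 := by
    rw [div_le_div_iff₀ (by linarith only [hR']) (by norm_num)]
    linarith only [hR']
  have hRm : 2 * (m : ℝ) ≤ 2 / R * nb := by
    have h1 : (R : ℝ) * m ≤ nb := le_trans (by nlinarith only []) hnb1
    have h2 := mul_le_mul_of_nonneg_left h1 hθ0.le
    have h3 : 2 / (R : ℝ) * (R * m) = 2 * m := by
      field_simp
    linarith only [h2, h3]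
  have hs' : (2 : ℝ) ≤ Fintype.card ι := by exact_mod_cast hcs
  have hJ' : (1 : ℝ) ≤ oe J := by exact_mod_cast hJ
  have hE1 : 1 ≤ E := by
    rw [hE]
    have h1 : 0 ≤ (u : ℝ) * (u - 1) := mul_nonneg (by linarith only [hu', hθ0,
        hθ1]) (by linarith only [hu'])
    have h2 : 0 ≤ 2 * (u : ℝ) * Fintype.card ι := by positivity
    linarith only [hJ', h1, h2]
  have hz1 : C * (2 / R) ≤ 1 / 2 := by
    rw [← mul_div_assoc, div_le_div_iff₀ (by linarith only [hR', hθ0, hθ1]) (by norm_num)]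
    linarith only [hRC]
  have htr1 := htr (2 / R) hθ0 hθ1 (by rw [hE']; linarith only [hθ0, hθ1, hE1, hz1]) κ K b k hk l hl
    (by rw [hbk, hbl]; omega)
    (by
      intro j hj
      have h1 : b j ≤ m + r := by
        have h2 := hgle j hj
        have h3 := hgle k hk
        simp only [hb]
        split_ifs <;> omega
      have h2 : (b j : ℝ) ≤ (m : ℝ) + r := by exact_mod_cast h1
      rw [← hnb]
      linarith only [hrm', hRm, h2])
    (by rw [← hnb]; linarith only [hr2', hrm', hθ0, hθ1, hRm])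
  rw [← hnb, hE', card_jn] at htr1
  set δ : ℝ := (b k : ℝ) - b l with hδ
  have hδ1 : 1 ≤ δ := by
    rw [hδ, hbk, hbl]
    have h1 : m + 1 ≤ m + (g k - 1) := by omega
    have h2 : ((m + 1 : ℕ) : ℝ) ≤ ((m + (g k - 1) : ℕ) : ℝ) := by exact_mod_cast h1
    push_cast at h2 ⊢
    linarith only [h2]
  have hDD := TightG_diff hk hl hkl b u
  rw [← hδ] at hDD
  have hxb : ∀ j ∈ K, 0 ≤ (b j : ℝ) := fun j _ => Nat.cast_nonneg _
  have hsub : (K.erase k).erase l ⊆ K := (erase_subset _ _).trans (erase_subset _ _)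
  have hq := TightG_eQ_le ((K.erase k).erase l) (x := fun j => (b j : ℝ))
    (fun j hj => hxb j (hsub hj)) u
  have hbpos : ∀ j, 0 < (b j : ℝ) := by
    intro j
    have : 0 < b j := by
      simp only [hb]
      omega
    exact_mod_cast this
  have hq0 : 0 ≤ eQ ((K.erase k).erase l) (fun j => (b j : ℝ)) u :=
    eQ_nonneg (fun j _ => hbpos j) u
  have hq1 : (u.factorial : ℝ) * eQ ((K.erase k).erase l) (fun j => (b j : ℝ)) u ≤
      (u : ℝ) * (u - 1) * nb ^ (u - 2) := by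
    refine hq.trans (mul_le_mul_of_nonneg_left ?_ (mul_nonneg (by linarith only [hu', hθ0,
        hθ1]) (by linarith only [hu'])))
    refine pow_le_pow_left₀ (sum_nonneg fun j hj => hxb j (hsub hj)) ?_ _
    exact sum_le_sum_of_subset_of_nonneg hsub fun j hj _ => hxb j hj
  rw [hupk, hupl] at htr1 hDD
  -- lower bounds of the class sizes
  have hlow : ∀ (h : κ → ℕ), ∀ j ∈ K, (m : ℝ) ≤ ((m + h j : ℕ) : ℝ) := by
    intro h j _
    push_cast
    have : (0 : ℝ) ≤ h j := Nat.cast_nonneg _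
    linarith only []
  have hDpos : ∀ (h : κ → ℕ), 0 < eS K (fun j => ((m + h j : ℕ) : ℝ)) u := by
    intro h
    refine eS_pos' (fun j hj => lt_of_lt_of_le ?_ (hlow h j hj)) (by omega)
    linarith only [hr2', hrm', hθ0, hθ1]
  have hDup : ∀ (h : κ → ℕ), ∑ j ∈ K, h j = r →
      eS K (fun j => ((m + h j : ℕ) : ℝ)) u ≤ (2 : ℝ) ^ (R + u) * (2 * m) ^ u := by
    intro h hh
    have h1 := eS_le_const (s := u) (c := 2 * (m : ℝ)) hK
      (x := fun j => ((m + h j : ℕ) : ℝ)) (fun j _ => Nat.cast_nonneg _)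
      (fun j hj => by
        have h2 : h j ≤ r := by
          rw [← hh]
          exact single_le_sum (f := h) (fun _ _ => Nat.zero_le _) hj
        have h3 : m + h j ≤ 2 * m := by omega
        exact_mod_cast h3)
    refine h1.trans (mul_le_mul_of_nonneg_right ?_ (by positivity))
    exact_mod_cast Nat.choose_le_two_pow (R + u) u
  have hDlow : ((R : ℝ) + 1) ^ u * (m : ℝ) ^ u ≤
      u.factorial * eS K (fun j => ((m + g j : ℕ) : ℝ)) u := by
    have h1 := eS_const_le (s := u) hK (by linarith only [hr2', hrm', hθ0,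
        hθ1] : (0 : ℝ) ≤ m) (hlow g)
    have h2 := mul_le_mul_of_nonneg_left h1 (Nat.cast_nonneg (α := ℝ) u.factorial)
    refine le_trans ?_ h2
    rw [← mul_assoc]
    refine mul_le_mul_of_nonneg_right ?_ (by positivity)
    have h3 := Nat.pow_succ_le_ascFactorial (R + 1) u
    rw [Nat.ascFactorial_eq_factorial_mul_choose] at h3
    exact_mod_cast h3
  set n : ℝ := ((∑ j ∈ K, (m + g j) : ℕ) : ℝ) with hn
  have hne : n = ((R : ℝ) + u) * m + r := by
    rw [hn, sum_add_distrib, hg, sum_const, hK, smul_eq_mul]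
    push_cast
    ring
  have hn2 : n ≤ ((R : ℝ) + u) * (m + 1) := by rw [hne]; linarith only [hr']
  have hFle : (fJ (jn J u) K (fun j => m + g j) : ℝ) ≤ n ^ (u + Fintype.card ι) := by
    have h1 := fJ_le_pow (jn J u) K (fun j => m + g j)
    rw [card_jn] at h1
    rw [hn]
    exact_mod_cast h1
  have hmain := TightG_arith (D := eS K (fun j => ((m + g j : ℕ) : ℝ)) u)
    (D' := eS K (fun j => ((m + g' j : ℕ) : ℝ)) u) hu hcs hJ hE hC (by omega) hRC hRE hm hmE hp
    hδ1 hnb1 hnb2 (Nat.cast_nonneg _) hn2 htr1 hFle (Nat.cast_nonneg _) hDlow hDD hq1 hq0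
  rw [TightG_join J hK, TightG_join J hK] at hmain
  exact TightG_quot hcs hm hp (hDpos g) (hDpos g') (hDup g hg) (hDup g' hg's) hmain

/-- the tight case: with a gain if some class is larger than `m + 1` -/
theorem tightG (hcs : 2 ≤ Fintype.card ι) (hJ : 1 ≤ oe J) (u : ℕ) (hu : 1 ≤ u) :
    ∃ R₀ : ℕ, ∀ R r : ℕ, R₀ ≤ R → r ≤ R + u → ∃ c : ℝ, 0 < c ∧ ∃ m₀ : ℕ, ∀ m : ℕ, m₀ ≤ m →
      ∀ (κ : Type) [DecidableEq κ] (K : Finset κ) (g : κ → ℕ), K.card = R + u →
      ∑ k ∈ K, g k = r →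
      ∑ T ∈ powersetCard R K, ((fJ J T (fun t => m + g t) : ℝ) - rhoG J u R r m) *
        ∏ t ∈ T, ((m : ℝ) + g t)⁻¹ ≤
        -(c * (m : ℝ) ^ (Fintype.card ι - 2) / (m : ℝ) ^ R *
          (if ∃ k ∈ K, 2 ≤ g k then 1 else 0)) := by
  obtain ⟨C, hC, htr⟩ := tr_lower (jn J u) (by rw [card_jn]; omega)
  set E : ℝ := (u : ℝ) * (u - 1) + 2 * u * Fintype.card ι + oe J with hE
  have hu' : (1 : ℝ) ≤ u := by exact_mod_cast hu
  have hE0 : 0 ≤ E := by
    have h1 : 0 ≤ (u : ℝ) * (u - 1) := mul_nonneg (by linarith) (by linarith)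
    have h2 : 0 ≤ 2 * (u : ℝ) * Fintype.card ι := by positivity
    have h3 : (0 : ℝ) ≤ oe J := Nat.cast_nonneg _
    rw [hE]
    linarith
  refine ⟨⌈4 * C⌉₊ + ⌈2 * E * (u : ℝ) ^ 2⌉₊ + 8, fun R r hR hr => ?_⟩
  set p : ℕ := 2 * u + Fintype.card ι - 2 with hp
  refine ⟨TightG_c u (R + u) / (2 : ℝ) ^ (R + u), div_pos (TightG_c_pos _ _) (by positivity),
    r + ⌈E * p⌉₊ + 1, fun m hm κ _ K g hK hg => ?_⟩
  have hR8 : 8 ≤ R := by omega
  have hRC : 4 * C ≤ R := by
    refine (Nat.le_ceil _).trans ?_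
    exact_mod_cast (by omega : ⌈4 * C⌉₊ ≤ R)
  have hRE : 2 * E * (u : ℝ) ^ 2 ≤ R := by
    refine (Nat.le_ceil _).trans ?_
    exact_mod_cast (by omega : ⌈2 * E * (u : ℝ) ^ 2⌉₊ ≤ R)
  have hm1 : 1 ≤ m := by omega
  have hrm : r ≤ m := by omega
  have hmE : E * p ≤ (m : ℝ) + 1 := by
    refine (Nat.le_ceil _).trans ?_
    exact_mod_cast (by omega : ⌈E * (p : ℝ)⌉₊ ≤ m + 1)
  have hm' : (1 : ℝ) ≤ m := by exact_mod_cast hm1
  have hlow : ∀ (h : κ → ℕ), ∀ j ∈ K, (m : ℝ) ≤ ((m + h j : ℕ) : ℝ) := by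
    intro h j _
    push_cast
    have : (0 : ℝ) ≤ h j := Nat.cast_nonneg _
    linarith only []
  have hDpos : ∀ (h : κ → ℕ), 0 < eS K (fun j => ((m + h j : ℕ) : ℝ)) u := by
    intro h
    refine eS_pos' (fun j hj => lt_of_lt_of_le ?_ (hlow h j hj)) (by omega)
    linarith only [hm']
  have hcm : 0 ≤ TightG_c u (R + u) * (m : ℝ) ^ (Fintype.card ι - 2) :=
    mul_nonneg (TightG_c_pos _ _).le (by positivity)
  have hind : ∀ N : ℕ, ∀ g : κ → ℕ, ∑ k ∈ K, g k = r → ∑ k ∈ K, g k ^ 2 = N →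
      TightG_N J R K (fun j => m + g j) / eS K (fun j => ((m + g j : ℕ) : ℝ)) u ≤
        rhoG J u R r m ∧ ((∃ k ∈ K, 2 ≤ g k) →
      TightG_N J R K (fun j => m + g j) / eS K (fun j => ((m + g j : ℕ) : ℝ)) u +
        TightG_c u (R + u) * (m : ℝ) ^ (Fintype.card ι - 2) ≤ rhoG J u R r m) := by
    intro N
    induction N using Nat.strong_induction_on with
    | _ N ih =>
      intro g hg hN
      by_cases hex : ∃ k ∈ K, 2 ≤ g k
      · obtain ⟨k, hk, hgk⟩ := hex
        obtain ⟨g', h1, h2, h3⟩ := TightG_step J hcs hJ hu hC hE htr hR8 hRC hRE hr hm1 hrm hp hmE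
          hK hg hk hgk
        have h4 := (ih _ (by rw [← hN]; exact h2) g' h1 rfl).1
        refine ⟨?_, fun _ => ?_⟩ <;> linarith
      · refine ⟨?_, fun h => absurd h hex⟩
        push Not at hex
        have h1 := TightG_base J hu hm1 hK (g := g) (fun k hk => by have := hex k hk; omega) hg
        rw [h1, mul_div_cancel_right₀ _ (hDpos g).ne']
  obtain ⟨hi1, hi2⟩ := hind _ g hg rfl
  have hsum := TightG_sum J hK (fun t => m + g t) (fun k _ => by omega) (rhoG J u R r m)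
  have hcast : ∀ T ∈ powersetCard R K, ((fJ J T (fun t => m + g t) : ℝ) - rhoG J u R r m) *
        ∏ t ∈ T, ((m : ℝ) + g t)⁻¹ = ((fJ J T (fun t => m + g t) : ℝ) - rhoG J u R r m) *
        ∏ t ∈ T, (((m + g t : ℕ) : ℝ))⁻¹ := by
    intro T _
    congr 1
    refine prod_congr rfl fun t _ => ?_
    push_cast
    rfl
  rw [sum_congr rfl hcast, hsum]
  set D : ℝ := eS K (fun k => ((m + g k : ℕ) : ℝ)) u with hD
  have hD0 : 0 < D := hDpos g
  set N : ℝ := TightG_N J R K (fun j => m + g j) with hN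
  have hprod0 : 0 < ∏ k ∈ K, (((m + g k : ℕ) : ℝ))⁻¹ := by
    refine prod_pos fun k hk => inv_pos.2 (lt_of_lt_of_le ?_ (hlow g k hk))
    linarith only [hm']
  by_cases hex : ∃ k ∈ K, 2 ≤ g k
  · rw [if_pos hex, mul_one]
    have h1 := hi2 hex
    have h2 : N - rhoG J u R r m * D ≤
        -(TightG_c u (R + u) * (m : ℝ) ^ (Fintype.card ι - 2)) * D := by
      have h3 : N / D ≤ rhoG J u R r m -
          TightG_c u (R + u) * (m : ℝ) ^ (Fintype.card ι - 2) := by linarith only [h1]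
      rw [div_le_iff₀ hD0] at h3
      linarith only [h3]
    have h4 : (m : ℝ) ^ u ≤ D := by
      have h5 := eS_const_le (s := u) hK (by linarith only [hm'] : (0 : ℝ) ≤ m) (hlow g)
      refine le_trans ?_ h5
      have h6 : 1 ≤ (R + u).choose u := Nat.choose_pos (by omega)
      have h7 : (1 : ℝ) ≤ ((R + u).choose u : ℝ) := by exact_mod_cast h6
      have h8 : 0 ≤ (m : ℝ) ^ u := by positivity
      nlinarith only [h7, h8]
    have h5 : (((2 : ℝ) * m) ^ (R + u))⁻¹ ≤ ∏ k ∈ K, (((m + g k : ℕ) : ℝ))⁻¹ := by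
      rw [← inv_pow, ← hK, ← prod_const]
      refine prod_le_prod (fun _ _ => by positivity) fun k hk => ?_
      refine inv_anti₀ (lt_of_lt_of_le (by linarith only [hm']) (hlow g k hk)) ?_
      have h6 : g k ≤ r := by
        rw [← hg]
        exact single_le_sum (f := g) (fun _ _ => Nat.zero_le _) hk
      exact_mod_cast (by omega : m + g k ≤ 2 * m)
    have h6 : (m : ℝ) ^ u * (((2 : ℝ) * m) ^ (R + u))⁻¹ ≤
        D * ∏ k ∈ K, (((m + g k : ℕ) : ℝ))⁻¹ :=
      mul_le_mul h4 h5 (by positivity) hD0.le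
    have h7 := mul_le_mul_of_nonneg_left h6 hcm
    have h8 := mul_le_mul_of_nonneg_right h2 hprod0.le
    refine h8.trans ?_
    have h9 : TightG_c u (R + u) / (2 : ℝ) ^ (R + u) * (m : ℝ) ^ (Fintype.card ι - 2) /
        (m : ℝ) ^ R = TightG_c u (R + u) * (m : ℝ) ^ (Fintype.card ι - 2) *
          ((m : ℝ) ^ u * (((2 : ℝ) * m) ^ (R + u))⁻¹) := by
      rw [mul_pow, pow_add (m : ℝ) R u]
      field_simp
    rw [h9]
    linarith only [h7]
  · rw [if_neg hex, mul_zero, neg_zero]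
    refine mul_nonpos_of_nonpos_of_nonneg ?_ hprod0.le
    rw [div_le_iff₀ hD0] at hi1
    linarith only [hi1]

end H57GH
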