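import Pool.Agent.H57.GH.Defs1
import Pool.Agent.H57.GH.KtBet
import Pool.Agent.H57.GH.PhiG
import Pool.Agent.H57.GH.TightG
import Pool.Agent.H57.LC.Tight
import Pool.Agent.H57.LC.KIneq

/-!
The inequality (K), case `u = 1`.
-/

namespace H57GH

open Finset H57LC H57LT

set_option linter.unusedSectionVars false

/-- the costs at `T` are at most the largest coefficient times the number of sets -/
private lemma KIneq1_cost_le {α β : Type*} [DecidableEq α] {R s : ℕ} (hR : 2 ≤ R) {θ : ℝ}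
    (Z : Finset β) (h : β → Finset α) (T : Finset α) :
    ∑ y ∈ Z.filter (fun y => h y ⊆ T), ktG R s θ (h y).card ≤
      ((s : ℝ) / R * (1 - 1 / (4 * (R - 1)))) *
        ((Z.filter fun y => 2 ≤ (h y).card ∧ h y ⊆ T).card : ℝ) := by
  have h1 : ∀ y ∈ Z.filter (fun y => h y ⊆ T), ktG R s θ (h y).card ≤
      if 2 ≤ (h y).card then ((s : ℝ) / R * (1 - 1 / (4 * (R - 1)))) else 0 := by
    intro y _
    split_ifs with h2
    · exact ktG_le hR _
    · unfold ktG
      rw [if_neg (by omega)]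
  refine (sum_le_sum h1).trans (le_of_eq ?_)
  rw [← sum_filter, sum_const, nsmul_eq_mul, filter_filter, mul_comm]
  congr 3
  ext y
  simp only [mem_filter]
  tauto

/-- double counting of the costs -/
private lemma KIneq1_cost_sum {α β : Type*} [DecidableEq α] {R w s : ℕ} {θ : ℝ} (Z : Finset β)
    (h : β → Finset α) (K : Finset α) (hK : K.card = w) :
    ∑ T ∈ powersetCard R K, ∑ y ∈ Z.filter (fun y => h y ⊆ T), ktG R s θ (h y).card =
      ∑ y ∈ Z.filter (fun y => 2 ≤ (h y).card ∧ h y ⊆ K),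
        if (h y).card ≤ R then ktG R s θ (h y).card * ((w - (h y).card).choose (R - (h y).card) : ℝ)
        else 0 := by
  have h1 : ∀ T ∈ powersetCard R K, ∑ y ∈ Z.filter (fun y => h y ⊆ T), ktG R s θ (h y).card =
      ∑ y ∈ Z.filter (fun y => 2 ≤ (h y).card ∧ h y ⊆ K),
        if h y ⊆ T then ktG R s θ (h y).card else 0 := by
    intro T hT
    have hTK := (mem_powersetCard.1 hT).1
    rw [← sum_filter, filter_filter]
    symm
    apply sum_subset
    · intro y hy
      simp only [mem_filter] at hy ⊢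
      exact ⟨hy.1, hy.2.2⟩
    · intro y hy hy2
      simp only [mem_filter] at hy hy2
      have h3 : ¬ 2 ≤ (h y).card := fun h4 => hy2 ⟨hy.1, ⟨h4, hy.2.trans hTK⟩, hy.2⟩
      unfold ktG
      rw [if_neg (by omega)]
  rw [sum_congr rfl h1, sum_comm]
  refine sum_congr rfl fun y hy => ?_
  have hyK := (mem_filter.1 hy).2.2
  rw [← sum_filter, sum_const, nsmul_eq_mul]
  split_ifs with h2
  · rw [card_super hyK h2, hK, mul_comm]
  · have h3 : (powersetCard R K).filter (fun T => h y ⊆ T) = ∅ := by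
      rw [filter_eq_empty_iff]
      intro T hT hyT
      have h4 := card_le_card hyT
      rw [(mem_powersetCard.1 hT).2] at h4
      exact h2 h4
    rw [h3]
    simp

variable {ι : Type*} [Fintype ι] [DecidableEq ι] (J : SimpleGraph ι) [DecidableRel J.Adj]

private lemma KIneq1_one {κ : Type*} [DecidableEq κ] (T : Finset κ) (x : κ → ℝ) :
    eS T x 1 = ∑ k ∈ T, x k := by
  induction T using Finset.induction_on with
  | empty => rw [eS, powersetCard_eq_empty.2 (by simp)]; simp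
  | insert a s ha ih => rw [eS_insert ha, ih, eS_zero, sum_insert ha]; ring

private lemma KIneq1_sq {κ : Type*} [DecidableEq κ] (T : Finset κ) (x : κ → ℝ) :
    2 * eS T x 2 = (∑ k ∈ T, x k) ^ 2 - ∑ k ∈ T, x k ^ 2 := by
  induction T using Finset.induction_on with
  | empty => rw [eS, powersetCard_eq_empty.2 (by simp)]; simp
  | insert a s ha ih =>
    rw [eS_insert ha, KIneq1_one, sum_insert ha, sum_insert ha]
    linear_combination ih

private lemma KIneq1_xg_sum (w r m : ℕ) (hr : r ≤ w) :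
    ∑ i : Fin w, xg w r m i = w * m + r := by
  unfold xg
  rw [sum_add_distrib, sum_const, card_univ, Fintype.card_fin, smul_eq_mul, ← card_filter,
    Fin.card_filter_val_lt]
  omega

private lemma KIneq1_xg_sq (w r m : ℕ) (hr : r ≤ w) :
    ∑ i : Fin w, (xg w r m i : ℝ) ^ 2 = w * (m : ℝ) ^ 2 + 2 * m * r + r := by
  have h : ∀ i : Fin w, (xg w r m i : ℝ) ^ 2 =
      (m : ℝ) ^ 2 + (2 * m + 1) * (if i.val < r then 1 else 0 : ℕ) := by
    intro i
    unfold xg
    split_ifs <;> push_cast <;> ring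
  rw [sum_congr rfl fun i _ => h i, sum_add_distrib, ← mul_sum, ← Nat.cast_sum, ← card_filter,
    Fin.card_filter_val_lt, min_eq_right hr, sum_const, card_univ, Fintype.card_fin, nsmul_eq_mul]
  ring

private lemma KIneq1_bal (w r m : ℕ) (hw : 1 ≤ w) (hr : r ≤ w) :
    bal w (w * m + r) = xg w r m := by
  funext i
  have hi := i.2
  unfold bal xg
  rcases Nat.lt_or_ge r w with h | h
  · rw [Nat.mul_add_div (by omega), Nat.mul_add_mod, Nat.div_eq_of_lt h, Nat.mod_eq_of_lt h,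
      add_zero]
  · have hrw : r = w := le_antisymm hr h
    subst hrw
    have e1 : r * m + r = r * (m + 1) := by ring
    rw [e1, Nat.mul_div_cancel_left _ (by omega), Nat.mul_mod_right, if_neg (by omega),
      if_pos hi]

lemma xi_nonneg (R s k : ℕ) : 0 ≤ xi R s k := by
  unfold xi
  split_ifs
  · positivity
  · exact le_rfl

lemma xi_le (R s k : ℕ) : xi R s k ≤ 32 * (s : ℝ) / (R : ℝ) ^ 2 * (k : ℝ) ^ 2 := by
  unfold xi
  split_ifs
  · exact le_rfl
  · positivity

lemma xi_mono (R s : ℕ) {j k : ℕ} (h : j ≤ k) : xi R s j ≤ xi R s k := by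
  unfold xi
  split_ifs with h1 h2
  · gcongr
  · omega
  · positivity
  · exact le_rfl

/-- the tight case for `u = 1` with the gain of unequal classes -/
theorem tight1 (hcs : 2 ≤ Fintype.card ι) (hJ : 1 ≤ oe J) :
    ∃ R₀ : ℕ, ∀ R r : ℕ, R₀ ≤ R → r ≤ R + 1 → ∃ m₀ : ℕ, ∀ m : ℕ, m₀ ≤ m →
      ∀ (κ : Type) [DecidableEq κ] (K : Finset κ) (g : κ → ℕ), K.card = R + 1 →
      ∑ k ∈ K, g k = r →
      ∑ T ∈ powersetCard R K, ((fJ J T (fun t => m + g t) : ℝ) - rhoG J 1 R r m) *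
        ∏ t ∈ T, ((m : ℝ) + g t)⁻¹ ≤
        -(M0 J R m / (m : ℝ) ^ R / (m : ℝ) ^ 2 *
          ∑ k ∈ K, xi R (Fintype.card ι) (g k)) := by
  have hcj : 2 ≤ Fintype.card (Fin 1 ⊕ ι) := by rw [card_jn]; omega
  have hoj : 1 ≤ oe (jn J 1) := by rw [oe_join]; omega
  obtain ⟨θ₀, hθ₀, hbal⟩ := bal_max (jn J 1) hcj hoj
  obtain ⟨CM, hCM, hM0⟩ := M0_bounds J
  set s : ℕ := Fintype.card ι with hs
  refine ⟨⌈3 / θ₀⌉₊ + 512 * s + 1, fun R r hR hr => ⟨2 * r + 1, fun m hm κ _ K g hK hg => ?_⟩⟩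
  have hR1 : 1 ≤ R := by omega
  have hRθ : 3 / θ₀ ≤ (R : ℝ) := by
    refine (Nat.le_ceil _).trans ?_
    exact_mod_cast (by omega : ⌈3 / θ₀⌉₊ ≤ R)
  have hRs : 512 * (s : ℝ) ≤ R := by exact_mod_cast (by omega : 512 * s ≤ R)
  have hm1 : 1 ≤ m := by omega
  have hp : (0 : ℝ) < m := by exact_mod_cast hm1
  have hp1 : (1 : ℝ) ≤ m := by exact_mod_cast hm1
  have hR0 : (0 : ℝ) < R := by exact_mod_cast hR1
  have hR1' : (1 : ℝ) ≤ R := by exact_mod_cast hR1
  have hrm : 2 * (r : ℝ) ≤ m := by exact_mod_cast (by omega : 2 * r ≤ m)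
  have hsum := TightG_sum J hK (fun t => m + g t) (fun k _ => by omega) (rhoG J 1 R r m)
  have hcast : ∀ T ∈ powersetCard R K, ((fJ J T (fun t => m + g t) : ℝ) - rhoG J 1 R r m) *
        ∏ t ∈ T, ((m : ℝ) + g t)⁻¹ = ((fJ J T (fun t => m + g t) : ℝ) - rhoG J 1 R r m) *
        ∏ t ∈ T, (((m + g t : ℕ) : ℝ))⁻¹ := by
    intro T _
    congr 1
    refine prod_congr rfl fun t _ => ?_
    push_cast
    rfl
  rw [sum_congr rfl hcast, hsum]
  have hsumn : ∑ k ∈ K, (m + g k) = (R + 1) * m + r := by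
    rw [sum_add_distrib, hg, sum_const, hK, smul_eq_mul]
  have hn1 : ∑ k ∈ K, ((m + g k : ℕ) : ℝ) = ((R : ℝ) + 1) * m + r := by
    rw [← Nat.cast_sum, hsumn]
    push_cast
    ring
  set n₁ : ℝ := ((R : ℝ) + 1) * m + r with hn₁
  have hr0 : (0 : ℝ) ≤ r := Nat.cast_nonneg r
  have hn1R : (R : ℝ) * m ≤ n₁ := by rw [hn₁]; linarith only []
  have hRm : 3 ≤ θ₀ * ((R : ℝ) * m) := by
    rw [div_le_iff₀ hθ₀] at hRθ
    have h1 := mul_le_mul_of_nonneg_right hRθ hp.le
    linarith only [hp1, h1]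
  have hRm' : 3 * (m : ℝ) ≤ θ₀ * ((R : ℝ) * m) := by
    rw [div_le_iff₀ hθ₀] at hRθ
    have h1 := mul_le_mul_of_nonneg_right hRθ hp.le
    linarith only [h1]
  have hθn : θ₀ * ((R : ℝ) * m) ≤ θ₀ * n₁ := mul_le_mul_of_nonneg_left hn1R hθ₀.le
  -- the graph is not better than the Turan graph
  have hb := hbal (R + 1) κ K (fun k => m + g k) (by omega) hK (by
    intro j hj
    rw [hn1]
    have h1 : g j ≤ r := by
      rw [← hg]
      exact single_le_sum (f := g) (fun _ _ => Nat.zero_le _) hj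
    have h2 : (g j : ℝ) ≤ r := by exact_mod_cast h1
    push_cast
    linarith only [h2, hθn, hRm', hRm, hrm]) (by rw [hn1]; linarith only [hθn, hRm])
  rw [hn1, card_jn, hsumn, KIneq1_bal (R + 1) r m (by omega) hr] at hb
  have hbal' : bal (R + 1) ((R + 1) * m + r) = xg (R + 1) r m :=
    KIneq1_bal (R + 1) r m (by omega) hr
  have hFT : FT (jn J 1) (R + 1) ((R + 1) * m + r) = rhoG J 1 R r m * n₁ := by
    unfold FT
    rw [hbal']
    have hc : (univ : Finset (Fin (R + 1))).card = R + 1 := by rw [card_univ, Fintype.card_fin]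
    rw [TightG_join J hc (xg (R + 1) r m)]
    have h9 : 0 < eN (R + 1) r m 1 := eN_pos hm1 (by omega)
    have h10 : rhoG J 1 R r m = TightG_N J R univ (xg (R + 1) r m) / eN (R + 1) r m 1 := rfl
    have h11 : eN (R + 1) r m 1 = n₁ := by
      unfold eN
      rw [KIneq1_one]
      have h12 : ∀ i : Fin (R + 1), (m : ℝ) + (if i.val < r then 1 else 0) =
          ((xg (R + 1) r m i : ℕ) : ℝ) := by
        intro i
        unfold xg
        split_ifs <;> simp
      rw [sum_congr rfl fun i _ => h12 i, ← Nat.cast_sum, KIneq1_xg_sum _ _ _ hr]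
      push_cast
      rw [hn₁]
    rw [h10, ← h11, div_mul_cancel₀ _ h9.ne']
    simp
  have hJn : (fJ (jn J 1) K (fun k => m + g k) : ℝ) = TightG_N J R K (fun k => m + g k) := by
    rw [TightG_join J hK]
    simp
  rw [hFT, hJn] at hb
  -- the number of edges
  set Q : ℝ := ∑ k ∈ K, ((g k : ℝ) ^ 2 - g k) with hQ
  have he2 : e2 univ (xg (R + 1) r m) - e2 K (fun k => m + g k) = Q / 2 := by
    have h1 := KIneq1_sq (univ : Finset (Fin (R + 1))) fun i => (xg (R + 1) r m i : ℝ)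
    have h2 := KIneq1_sq K fun k => ((m + g k : ℕ) : ℝ)
    rw [hn1] at h2
    rw [← Nat.cast_sum, KIneq1_xg_sum _ _ _ hr, KIneq1_xg_sq _ _ _ hr] at h1
    have h3 : ∑ k ∈ K, ((m + g k : ℕ) : ℝ) ^ 2 =
        ((R : ℝ) + 1) * (m : ℝ) ^ 2 + 2 * m * r + (Q + r) := by
      have h4 : ∀ k ∈ K, ((m + g k : ℕ) : ℝ) ^ 2 =
          (m : ℝ) ^ 2 + (2 * m + 1) * g k + ((g k : ℝ) ^ 2 - g k) := by
        intro k _
        push_cast
        ring
      rw [sum_congr rfl h4, sum_add_distrib, sum_add_distrib, ← mul_sum, ← Nat.cast_sum, hg,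
        sum_const, hK, nsmul_eq_mul, ← hQ]
      push_cast
      ring
    rw [h3] at h2
    push_cast at h1
    unfold e2
    rw [hn₁] at h2
    linear_combination (1 / 2) * h1 - (1 / 2) * h2
  rw [he2] at hb
  have hQ0 : 0 ≤ Q := by
    refine sum_nonneg fun k _ => ?_
    rcases Nat.eq_zero_or_pos (g k) with h | h
    · rw [h]; simp
    · have : (1 : ℝ) ≤ g k := by exact_mod_cast h
      have h9 := mul_nonneg (by linarith only [] : (0 : ℝ) ≤ (g k : ℝ)) (by linarith only [this] : (0 : ℝ) ≤ (g k : ℝ) - 1)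
      linarith only [h9]
  have hxi : ∑ k ∈ K, xi R s (g k) ≤ 64 * (s : ℝ) / (R : ℝ) ^ 2 * Q := by
    rw [hQ, mul_sum]
    refine sum_le_sum fun k _ => ?_
    unfold xi
    split_ifs with h
    · have h1 : (2 : ℝ) ≤ g k := by exact_mod_cast h
      have h2 : (g k : ℝ) ^ 2 ≤ 2 * ((g k : ℝ) ^ 2 - g k) := by
        have h9 := mul_le_mul_of_nonneg_right h1 (by linarith only [] : (0 : ℝ) ≤ (g k : ℝ))
        linarith only [h9]
      calc 32 * (s : ℝ) / (R : ℝ) ^ 2 * (g k : ℝ) ^ 2 ≤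
            32 * (s : ℝ) / (R : ℝ) ^ 2 * (2 * ((g k : ℝ) ^ 2 - g k)) :=
            mul_le_mul_of_nonneg_left h2 (by positivity)
        _ = _ := by ring
    · refine mul_nonneg (by positivity) ?_
      rcases Nat.eq_zero_or_pos (g k) with h1 | h1
      · rw [h1]; simp
      · have : (1 : ℝ) ≤ g k := by exact_mod_cast h1
        have h9 := mul_nonneg (by linarith only [] : (0 : ℝ) ≤ (g k : ℝ)) (by linarith only [this] : (0 : ℝ) ≤ (g k : ℝ) - 1)
        linarith only [h9]
  -- the product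
  set P : ℝ := ∏ k ∈ K, (((m + g k : ℕ) : ℝ))⁻¹ with hP
  have hP0 : 0 < P := by
    refine prod_pos fun k _ => inv_pos.2 ?_
    exact_mod_cast (by omega : 0 < m + g k)
  have hP1 : 1 / 2 ≤ P * (m : ℝ) ^ (R + 1) := by
    have h1 := PhiG_prod_ge K (fun k => m + g k) (r := r) hK hp
      (fun t _ => by exact_mod_cast (by omega : 0 < m + g t)) (by
        rw [hn1, hn₁]
        push_cast
        exact le_rfl)
    refine le_trans ?_ h1
    have h2 : (r : ℝ) / m ≤ 1 / 2 := by
      rw [div_le_iff₀ hp]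
      linarith only [hrm]
    linarith only [h2]
  -- comparison
  have hpow : ((R : ℝ) * m) ^ (s - 1) ≤ n₁ ^ (s - 1) :=
    pow_le_pow_left₀ (by positivity) hn1R _
  have hs1 : 1 + s - 2 = s - 1 := by omega
  rw [hs1] at hb
  have hmain : TightG_N J R K (fun k => m + g k) - rhoG J 1 R r m * n₁ ≤
      -(1 / 4 * ((R : ℝ) * m) ^ (s - 1) * Q) := by
    have h1 := mul_le_mul_of_nonneg_right hpow hQ0
    linarith only [h1, hb]
  have hone : eS K (fun k => ((m + g k : ℕ) : ℝ)) 1 = n₁ := by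
    rw [KIneq1_one, hn1]
  rw [hone]
  have h1 := mul_le_mul_of_nonneg_right hmain hP0.le
  refine h1.trans ?_
  have hM := (hM0 R m hR1 hm1).2
  have hMn : 0 ≤ M0 J R m := Nat.cast_nonneg _
  have h2 : M0 J R m / (m : ℝ) ^ R / (m : ℝ) ^ 2 * ∑ k ∈ K, xi R s (g k) ≤
      M0 J R m / (m : ℝ) ^ R / (m : ℝ) ^ 2 * (64 * (s : ℝ) / (R : ℝ) ^ 2 * Q) :=
    mul_le_mul_of_nonneg_left hxi (by positivity)
  have h3 : M0 J R m / (m : ℝ) ^ R / (m : ℝ) ^ 2 * (64 * (s : ℝ) / (R : ℝ) ^ 2 * Q) ≤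
      ((R : ℝ) * m) ^ s / (m : ℝ) ^ R / (m : ℝ) ^ 2 * (64 * (s : ℝ) / (R : ℝ) ^ 2 * Q) := by
    gcongr
  have h4 : ((R : ℝ) * m) ^ s / (m : ℝ) ^ R / (m : ℝ) ^ 2 * (64 * (s : ℝ) / (R : ℝ) ^ 2 * Q) =
      64 * (s : ℝ) / R * (((R : ℝ) * m) ^ (s - 1) * Q / (m : ℝ) ^ (R + 1)) := by
    have e1 : ((R : ℝ) * m) ^ s = ((R : ℝ) * m) ^ (s - 1) * (R * m) := by
      rw [← pow_succ]
      congr 1
      omega
    rw [e1, pow_succ (m : ℝ) R]
    field_simp
  have h5 : 1 / 8 * (((R : ℝ) * m) ^ (s - 1) * Q / (m : ℝ) ^ (R + 1)) ≤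
      1 / 4 * ((R : ℝ) * m) ^ (s - 1) * Q * P := by
    have h6 : (((R : ℝ) * m) ^ (s - 1) * Q) * (1 / 2) ≤
        (((R : ℝ) * m) ^ (s - 1) * Q) * (P * (m : ℝ) ^ (R + 1)) :=
      mul_le_mul_of_nonneg_left hP1 (by positivity)
    have h7 : (0 : ℝ) < (m : ℝ) ^ (R + 1) := by positivity
    rw [← mul_div_assoc, div_le_iff₀ h7]
    linarith only [h6]
  have h8 : 64 * (s : ℝ) / R ≤ 1 / 8 := by
    rw [div_le_iff₀ hR0]
    linarith only [hRs]
  have h9 : 0 ≤ ((R : ℝ) * m) ^ (s - 1) * Q / (m : ℝ) ^ (R + 1) := by positivity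
  have h10 := mul_le_mul_of_nonneg_right h8 h9
  linarith only [h10, h5, h4, h3, h2]

private theorem KIneq1_aux (hcs : 2 ≤ Fintype.card ι) (hJ : 1 ≤ oe J) (u : ℕ) (hu1 : u = 1)
    (θ : ℝ) (hθ : 0 < θ) (hθ1 : θ ≤ 1 / 4) : ∃ R₀ : ℕ, ∃ c₀ : ℝ, 0 < c₀ ∧ ∀ R r : ℕ, R₀ ≤ R →
    1 ≤ r → (r : ℝ) ≤ c₀ * R → ∃ C₁ ε : ℝ, 0 < C₁ ∧ 0 < ε ∧ ε < 1 ∧ ∃ m₀ : ℕ, ∀ m : ℕ, m₀ ≤ m →
      ∀ (α : Type) [DecidableEq α] (β : Type) (K : Finset α) (a : α → ℕ) (Z : Finset β)
        (h : β → Finset α) (z : Finset α → ℝ), K.card = R + u → (∀ t ∈ K, 1 ≤ a t) →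
        (∀ T ⊆ K, T.card = R →
          ∑ i ∈ T, a i + (Z.filter fun y => 2 ≤ (h y).card ∧ h y ⊆ T).card ≤ R * m + r) →
        (∀ T ⊆ K, T.card = R → z T ≤ -(C₁ / m) * (M0 J R m / (m : ℝ) ^ R) ∨
          ((∀ t ∈ T, (1 - ε) * m ≤ (a t : ℝ)) ∧
            z T ≤ ((fJ J T a : ℝ) - rhoG J u R r m) * (∏ t ∈ T, ((a t : ℝ))⁻¹) +
              M0 J R m / (m : ℝ) ^ R *
                (∑ y ∈ Z.filter (fun y => h y ⊆ T), ktG R (Fintype.card ι) θ (h y).card) / m +
              M0 J R m / (m : ℝ) ^ R * xi R (Fintype.card ι)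
                (Z.filter fun y => 2 ≤ (h y).card ∧ h y ⊆ T).card / (m : ℝ) ^ 2)) →
        ∑ T ∈ powersetCard R K, z T ≤ 0 := by
  obtain ⟨R₁, hR₁2, c₁, hc₁, hkt0⟩ := ktG_bet u θ hθ hθ1
  obtain ⟨R₂, hphi0⟩ := phiG J hcs hJ
  have hu : 1 ≤ u := by omega
  have htight1 : ∃ R₀ : ℕ, ∀ R r : ℕ, R₀ ≤ R → r ≤ R + u → ∃ m₀ : ℕ, ∀ m : ℕ, m₀ ≤ m →
      ∀ (κ : Type) [DecidableEq κ] (K : Finset κ) (g : κ → ℕ), K.card = R + u →
      ∑ k ∈ K, g k = r →
      ∑ T ∈ powersetCard R K, ((fJ J T (fun t => m + g t) : ℝ) - rhoG J u R r m) *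
        ∏ t ∈ T, ((m : ℝ) + g t)⁻¹ ≤
        -(M0 J R m / (m : ℝ) ^ R / (m : ℝ) ^ 2 *
          ∑ k ∈ K, xi R (Fintype.card ι) (g k)) := by
    subst hu1
    exact tight1 J hcs hJ
  obtain ⟨R₃, htight0⟩ := htight1
  obtain ⟨CM, hCM, hM0⟩ := M0_bounds J
  set s : ℕ := Fintype.card ι with hs
  refine ⟨R₁ + R₂ + R₃ + s + (⌈CM⌉₊ + 1) + 2, c₁, hc₁, ?_⟩
  intro R r hR hr1 hrc
  obtain ⟨hr2, hrf, hktb⟩ := hkt0 R (by omega) r hrc
  have hR2 : 2 ≤ R := by omega
  have hR1 : (1 : ℝ) ≤ R := by exact_mod_cast (by omega : 1 ≤ R)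
  have hR2' : (2 : ℝ) ≤ R := by exact_mod_cast hR2
  have hR0 : (0 : ℝ) < R := by linarith only [hR1, hθ1, hθ]
  have hs0 : (0 : ℝ) < s := by exact_mod_cast (by omega : 0 < s)
  set al : ℝ := (s : ℝ) / R with hal
  have hal0 : 0 < al := by rw [hal]; positivity
  have hal1 : al ≤ 1 := by
    rw [hal, div_le_one hR0]
    exact_mod_cast (by omega : s ≤ R)
  set β : ℝ := al / (4 * (R - 1)) with hβ
  have hR10 : (0 : ℝ) < R - 1 := by linarith only [hR2', hθ1, hθ]
  have hβ0 : 0 < β := by rw [hβ]; positivity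
  have hβ1 : β ≤ 1 := by
    rw [hβ, div_le_one (by positivity)]
    linarith only [hal1, hR2', hθ1, hθ]
  have hkal : al * (1 - 1 / (4 * ((R : ℝ) - 1))) = al - β := by
    rw [hβ]
    ring
  set C1 : ℝ := ((R + u - 1).choose (R - 1) : ℝ) with hC1
  set C0 : ℝ := ((R + u).choose R : ℝ) with hC0
  have hC11 : 1 ≤ C1 := by
    rw [hC1]
    exact_mod_cast Nat.choose_pos (by omega)
  have hC01 : 1 ≤ C0 := by
    rw [hC0]
    exact_mod_cast Nat.choose_pos (Nat.le_add_right R u)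
  have hC0R : C0 * R = C1 * (R + u) := by
    have h1 := Nat.add_one_mul_choose_eq (R + u - 1) (R - 1)
    have e1 : R + u - 1 + 1 = R + u := by omega
    have e2 : R - 1 + 1 = R := by omega
    rw [e1, e2] at h1
    have h2 : ((R + u : ℕ) : ℝ) * C1 = C0 * (R : ℝ) := by
      rw [hC1, hC0]
      exact_mod_cast h1
    push_cast at h2
    linarith only [h2]
  have hC10 : C1 ≤ C0 := by
    have h1 : (0 : ℝ) ≤ u := Nat.cast_nonneg u
    have h2 : 0 ≤ C1 * u := by positivity
    have h3 : C1 * R ≤ C0 * R := by linarith only [h2, hC0R]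
    exact le_of_mul_le_mul_right h3 hR0
  set c : ℝ := 1 / (16 * (R : ℝ)) with hcd
  have hc0 : 0 < c := by rw [hcd]; positivity
  have hc1 : c ≤ 1 := by
    rw [hcd, div_le_one (by positivity)]
    linarith only [hR1, hθ1, hθ]
  set ε' : ℝ := min (c * al * C1 / (2 * C0 * (r + 2))) (β / 2) with hε'
  have hε'0 : 0 < ε' := lt_min (by positivity) (by positivity)
  have hε'1 : ε' ≤ β / 2 := min_le_right _ _
  have hε'2 : ε' * (C0 * (r + 2)) ≤ c * al * C1 / 2 := by
    have h1 : ε' ≤ c * al * C1 / (2 * C0 * (r + 2)) := min_le_left _ _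
    have h2 := mul_le_mul_of_nonneg_right h1 (by positivity : 0 ≤ C0 * ((r : ℝ) + 2))
    refine h2.trans (le_of_eq ?_)
    field_simp
  obtain ⟨ε₂, hε₂0, hε₂1, m₀, hphi⟩ := hphi0 u R r (by omega) (by omega) (ε' / 2) (by positivity)
  obtain ⟨m₁, htight⟩ := htight0 R r (by omega) (by omega)
  set ε : ℝ := min ε₂ (ε' * R / (128 * s)) with hεd
  have hε0 : 0 < ε := lt_min hε₂0 (by positivity)
  have hε1 : ε < 1 := lt_of_le_of_lt (min_le_left _ _) hε₂1
  have hεx : 32 * (s : ℝ) / (R : ℝ) ^ 2 * (ε * R) ≤ ε' / 4 := by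
    have h1 : ε ≤ ε' * R / (128 * s) := min_le_right _ _
    calc 32 * (s : ℝ) / (R : ℝ) ^ 2 * (ε * R) ≤
          32 * (s : ℝ) / (R : ℝ) ^ 2 * (ε' * R / (128 * s) * R) := by gcongr
      _ = ε' / 4 := by
          field_simp
          norm_num
  set m₂ : ℕ := ⌈128 * (s : ℝ) * r / ε'⌉₊ with hm₂
  refine ⟨C0 * (r + 1), ε, by positivity, hε0, hε1, m₀ + m₁ + m₂ + 1, ?_⟩
  intro m hm α _ δ K a Z h z hK ha hT hz
  have hm1 : 1 ≤ m := by omega
  have hp : (0 : ℝ) < m := by exact_mod_cast hm1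
  have hp1 : (1 : ℝ) ≤ m := by exact_mod_cast hm1
  have hM0b := hM0 R m (by omega) hm1
  have hMpos : 0 < M0 J R m := by
    have h1 : CM < R := by
      have h2 := Nat.le_ceil CM
      have h3 : ((⌈CM⌉₊ + 1 : ℕ) : ℝ) ≤ R := by exact_mod_cast (by omega : ⌈CM⌉₊ + 1 ≤ R)
      push_cast at h3
      linarith only [h3, h2, hθ1, hθ]
    have h2 : 0 < 1 - CM / R := by
      have : CM / R < 1 := by rwa [div_lt_one hR0]
      linarith only [this]
    have h3 : 0 < (1 - CM / R) * ((R : ℝ) * m) ^ s := by positivity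
    exact lt_of_lt_of_le h3 hM0b.1
  set M : ℝ := M0 J R m / (m : ℝ) ^ R with hM
  have hM00 : 0 < M := by rw [hM]; positivity
  have hm2 : 128 * (s : ℝ) * r / ε' ≤ m := by
    have h1 : m₂ ≤ m := by omega
    have h2 : ((m₂ : ℕ) : ℝ) ≤ m := Nat.cast_le.2 h1
    exact (Nat.le_ceil _).trans h2
  have hmx : 32 * (s : ℝ) / (R : ℝ) ^ 2 * (r / m) ≤ ε' / 4 := by
    rw [div_le_iff₀ hε'0] at hm2
    have h1 : (1 : ℝ) ≤ (R : ℝ) ^ 2 := one_le_pow₀ hR1
    have h2 : 0 ≤ ε' * m := by positivity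
    rw [div_mul_div_comm, div_le_div_iff₀ (by positivity) (by norm_num)]
    linarith only [mul_le_mul_of_nonneg_left h1 h2, hm2]
  -- the surplus
  set Y : Finset α → ℕ := fun T => (Z.filter fun y => 2 ≤ (h y).card ∧ h y ⊆ T).card with hY
  -- the estimate of a light clique
  have hlight : ∀ T ⊆ K, T.card = R → (∀ t ∈ T, (1 - ε) * m ≤ (a t : ℝ)) →
      z T ≤ ((fJ J T a : ℝ) - rhoG J u R r m) * (∏ t ∈ T, ((a t : ℝ))⁻¹) +
        M * (∑ y ∈ Z.filter (fun y => h y ⊆ T), ktG R s θ (h y).card) / m +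
        M * xi R s (Y T) / (m : ℝ) ^ 2 →
      z T ≤ M / m * (-al * ((R : ℝ) * m - ∑ t ∈ T, (a t : ℝ)) - (s : ℝ) * r / (R + u) +
        ε' * (((R : ℝ) * m + r - ∑ t ∈ T, (a t : ℝ)) + 1) +
          (∑ y ∈ Z.filter (fun y => h y ⊆ T), ktG R s θ (h y).card)) := by
    intro T hTK hTc h1 h2
    have hTT := hT T hTK hTc
    have h3 := hphi m (by omega) α T a hTc (fun t ht => by
      refine le_trans ?_ (h1 t ht)
      have h4 : ε ≤ ε₂ := min_le_left _ _
      exact mul_le_mul_of_nonneg_right (by linarith only [h4]) hp.le) (by omega)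
    rw [← hM] at h3
    have h4 : (∑ i ∈ T, (a i : ℝ)) + Y T ≤ (R : ℝ) * m + r := by
      have : ((∑ i ∈ T, a i + Y T : ℕ) : ℝ) ≤ ((R * m + r : ℕ) : ℝ) := by exact_mod_cast hTT
      push_cast at this
      exact this
    set S : ℝ := ∑ t ∈ T, (a t : ℝ) with hS
    have hSlow : (R : ℝ) * ((1 - ε) * m) ≤ S := by
      rw [hS, ← hTc, ← nsmul_eq_mul]
      exact card_nsmul_le_sum _ _ _ h1
    have hY0 : (0 : ℝ) ≤ Y T := Nat.cast_nonneg _
    have hYR : (Y T : ℝ) ≤ ε * R * m + r := by linarith only [hSlow, h4]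
    have hx1 : xi R s (Y T) / m ≤ ε' / 2 * (R * m + r - S) := by
      have h5 := xi_le R s (Y T)
      have h6 : 32 * (s : ℝ) / (R : ℝ) ^ 2 * (Y T : ℝ) ^ 2 ≤
          32 * (s : ℝ) / (R : ℝ) ^ 2 * ((ε * R * m + r) * Y T) := by
        refine mul_le_mul_of_nonneg_left ?_ (by positivity)
        rw [pow_two]
        exact mul_le_mul_of_nonneg_right hYR hY0
      have h7 : 32 * (s : ℝ) / (R : ℝ) ^ 2 * ((ε * R * m + r) * Y T) =
          (32 * (s : ℝ) / (R : ℝ) ^ 2 * (ε * R) + 32 * (s : ℝ) / (R : ℝ) ^ 2 * (r / m)) *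
            Y T * m := by
        field_simp
      have h8 : (32 * (s : ℝ) / (R : ℝ) ^ 2 * (ε * R) +
          32 * (s : ℝ) / (R : ℝ) ^ 2 * (r / m)) * Y T * m ≤ ε' / 2 * (R * m + r - S) * m := by
        refine mul_le_mul_of_nonneg_right ?_ hp.le
        have h9 : (32 * (s : ℝ) / (R : ℝ) ^ 2 * (ε * R) +
            32 * (s : ℝ) / (R : ℝ) ^ 2 * (r / m)) ≤ ε' / 2 := by linarith only [hmx, hεx]
        calc _ ≤ ε' / 2 * (Y T : ℝ) := mul_le_mul_of_nonneg_right h9 hY0
          _ ≤ _ := mul_le_mul_of_nonneg_left (by linarith only [h4]) (by positivity)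
      rw [div_le_iff₀ hp]
      linarith only [h8, h7, h6, h5]
    have hx2 : M * xi R s (Y T) / (m : ℝ) ^ 2 ≤ M / m * (ε' / 2 * (R * m + r - S)) := by
      have h5 : M * xi R s (Y T) / (m : ℝ) ^ 2 = M / m * (xi R s (Y T) / m) := by
        rw [pow_two]
        field_simp
      rw [h5]
      exact mul_le_mul_of_nonneg_left hx1 (by positivity)
    have hx3 : M * (∑ y ∈ Z.filter (fun y => h y ⊆ T), ktG R s θ (h y).card) / m =
        M / m * (∑ y ∈ Z.filter (fun y => h y ⊆ T), ktG R s θ (h y).card) := by ring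
    have hx4 : 0 ≤ M / m * (ε' / 2) := by positivity
    rw [hx3] at h2
    refine h2.trans ((add_le_add (add_le_add h3 le_rfl) hx2).trans ?_)
    rw [← hal]
    linarith only [hx4]
  by_cases hrich : ∃ T ⊆ K, T.card = R ∧ z T ≤ -(C0 * (r + 1) / m) * M
  · -- some clique is rich
    obtain ⟨T₀, hT₀K, hT₀c, hT₀⟩ := hrich
    have hT₀m : T₀ ∈ powersetCard R K := mem_powersetCard.2 ⟨hT₀K, hT₀c⟩
    have hbound : ∀ T ∈ powersetCard R K, z T ≤ M / m * (r + 1) := by
      intro T hTm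
      obtain ⟨hTK, hTc⟩ := mem_powersetCard.1 hTm
      rcases hz T hTK hTc with h1 | ⟨h1, h2⟩
      · refine h1.trans ?_
        have h3 : 0 ≤ C0 * (r + 1) / m * M := by positivity
        have h4 : 0 ≤ M / m * ((r : ℝ) + 1) := by positivity
        linarith only [h4, h3]
      · refine (hlight T hTK hTc h1 h2).trans ?_
        refine mul_le_mul_of_nonneg_left ?_ (by positivity)
        have h3 := KIneq1_cost_le (s := s) (θ := θ) hR2 Z h T
        rw [← hal, hkal] at h3
        have h4 : ((∑ i ∈ T, a i + (Z.filter fun y => 2 ≤ (h y).card ∧ h y ⊆ T).card : ℕ) : ℝ) ≤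
            ((R * m + r : ℕ) : ℝ) := by exact_mod_cast hT T hTK hTc
        push_cast at h4
        set S : ℝ := ∑ t ∈ T, (a t : ℝ) with hS
        set n : ℝ := ((Z.filter fun y => 2 ≤ (h y).card ∧ h y ⊆ T).card : ℝ) with hn
        set X : ℝ := ∑ y ∈ Z.filter (fun y => h y ⊆ T), ktG R s θ (h y).card with hX
        have hn0 : 0 ≤ n := Nat.cast_nonneg _
        have h5 : 0 ≤ al - β := by
          have : β ≤ al := by
            rw [hβ]
            exact div_le_self hal0.le (by linarith only [hR2', hθ1, hθ])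
          linarith only [this]
        have h6 : X ≤ (al - β) * (R * m + r - S) :=
          h3.trans (mul_le_mul_of_nonneg_left (by linarith only [h4]) h5)
        have hE : 0 ≤ R * m + r - S := by linarith only [hn, h4]
        have h7 : 0 ≤ (s : ℝ) * r / (R + u) := by positivity
        have h8 : (ε' - β) * (R * m + r - S) ≤ 0 :=
          mul_nonpos_of_nonpos_of_nonneg (by linarith only [hε'1, hβ0]) hE
        have h9 : al * r ≤ r := by
          have := mul_le_mul_of_nonneg_right hal1 (Nat.cast_nonneg (α := ℝ) r)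
          linarith only [this]
        have h10 : ε' ≤ 1 := by linarith only [hε'1, hβ1, hθ1, hθ]
        linarith only [h9, h8, h7, h6, h5, hε'1, hal1, hθ1, hθ]
    rw [← add_sum_erase _ _ hT₀m]
    have h1 : ∑ T ∈ (powersetCard R K).erase T₀, z T ≤
        ∑ _T ∈ (powersetCard R K).erase T₀, M / m * ((r : ℝ) + 1) :=
      sum_le_sum fun T hT' => hbound T (mem_of_mem_erase hT')
    rw [sum_const, card_erase_of_mem hT₀m, card_powersetCard, hK, nsmul_eq_mul,
      Nat.cast_sub (Nat.choose_pos (Nat.le_add_right R u)), Nat.cast_one, ← hC0] at h1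
    have h2 : -(C0 * (r + 1) / m) * M + (C0 - 1) * (M / m * ((r : ℝ) + 1)) =
        -(M / m * ((r : ℝ) + 1)) := by ring
    have h3 : 0 ≤ M / m * ((r : ℝ) + 1) := by positivity
    linarith only [h3, h2, h1, hT₀]
  · push Not at hrich
    have hall : ∀ T ⊆ K, T.card = R → (∀ t ∈ T, (1 - ε) * m ≤ (a t : ℝ)) ∧
        z T ≤ ((fJ J T a : ℝ) - rhoG J u R r m) * (∏ t ∈ T, ((a t : ℝ))⁻¹) +
          M * (∑ y ∈ Z.filter (fun y => h y ⊆ T), ktG R s θ (h y).card) / m +
          M * xi R s (Y T) / (m : ℝ) ^ 2 := by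
      intro T hTK hTc
      rcases hz T hTK hTc with h1 | h1
      · exact absurd h1 (not_le.2 (hrich T hTK hTc))
      · exact h1
    -- integers
    set e : α → ℤ := fun i => (m : ℤ) - a i with he
    have hsumE : ∀ T : Finset α, ∑ i ∈ T, e i = (T.card : ℤ) * m - ∑ i ∈ T, (a i : ℤ) := by
      intro T
      simp only [he]
      rw [sum_sub_distrib, sum_const, nsmul_eq_mul]
    have hTZ : ∀ T ⊆ K, T.card = R →
        (((Z.filter fun z => 2 ≤ (h z).card ∧ h z ⊆ T).card : ℕ) : ℤ) ≤ ∑ i ∈ T, e i + r := by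
      intro T hTK hTc
      have h1 := hT T hTK hTc
      have h2 : (∑ i ∈ T, (a i : ℤ)) +
          (((Z.filter fun z => 2 ≤ (h z).card ∧ h z ⊆ T).card : ℕ) : ℤ) ≤ R * m + r := by
        exact_mod_cast h1
      rw [hsumE, hTc]
      linarith only [h2]
    have hP := thmPH (R + u) K R u r e Z h hK rfl (by omega) (by omega) hTZ
    have hA : ((R : ℤ) - 1 - max (r : ℤ) 0).toNat = R - 1 - r := by
      rw [max_eq_left (by omega : (0 : ℤ) ≤ r)]
      omega
    rw [hA] at hP
    set E : ℤ := ∑ i ∈ K, e i + r with hE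
    set F : Finset δ := Z.filter (fun y => 2 ≤ (h y).card ∧ h y ⊆ K) with hF
    have hbet0 : 0 ≤ ∑ y ∈ F, bet (R - 1 - r) u (h y).card :=
      sum_nonneg fun y _ => bet_nonneg _ _ _
    have hE0 : 0 ≤ E := by
      have : (0 : ℝ) ≤ (E : ℝ) := hbet0.trans hP
      exact_mod_cast this
    have hEsum : E = (R + u : ℤ) * m - ∑ i ∈ K, (a i : ℤ) + r := by
      rw [hE, hsumE, hK]
      push_cast
      ring
    rcases eq_or_lt_of_le hE0 with hEz | hEp
    · -- tight
      have hEz' : ∑ i ∈ K, e i + r = 0 := by rw [← hE, ← hEz]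
      have hbz : ∀ y ∈ F, bet (R - 1 - r) u (h y).card = 0 := by
        rw [← hEz] at hP
        have h1 : ∑ y ∈ F, bet (R - 1 - r) u (h y).card = 0 := le_antisymm (by simpa using hP) hbet0
        exact (sum_eq_zero_iff_of_nonneg fun y _ => bet_nonneg _ _ _).1 h1
      have hkz : ∀ T ⊆ K, ∑ y ∈ Z.filter (fun y => h y ⊆ T), ktG R s θ (h y).card = 0 := by
        intro T hTK
        refine sum_eq_zero fun y hy => ?_
        obtain ⟨hyZ, hyT⟩ := mem_filter.1 hy
        rcases Nat.lt_or_ge (h y).card 2 with h1 | h1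
        · unfold ktG
          rw [if_neg (by omega)]
        · have h2 := hbz y (mem_filter.2 ⟨hyZ, h1, hyT.trans hTK⟩)
          unfold bet at h2
          have h3 : R - 1 - r < (h y).card - 1 := by
            by_contra hcon
            push Not at hcon
            have h4 : (0 : ℝ) < ((R - 1 - r).choose ((h y).card - 1) : ℝ) := by
              exact_mod_cast Nat.choose_pos hcon
            have h5 : (0 : ℝ) < ((R - 1 - r + u).choose ((h y).card - 1) : ℝ) := by
              exact_mod_cast Nat.choose_pos (by omega)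
            have : 0 < ((R - 1 - r).choose ((h y).card - 1) : ℝ) /
              ((R - 1 - r + u).choose ((h y).card - 1) : ℝ) := by positivity
            linarith only [this, h2]
          unfold ktG
          rw [if_neg (by omega)]
      have hneg := tight_nonpos hK hu (by omega : (r : ℤ) ≤ (R : ℤ) - 1)
        (fun T hTK hTc => le_trans (Int.natCast_nonneg _) (hTZ T hTK hTc)) hEz'
      set g : α → ℕ := fun i => a i - m with hg
      have hag : ∀ i ∈ K, a i = m + g i := by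
        intro i hi
        have h1 : (m : ℤ) - a i ≤ 0 := hneg i hi
        have h2 : m ≤ a i := by
          have : (m : ℤ) ≤ a i := by linarith only [h1]
          exact_mod_cast this
        exact (Nat.add_sub_cancel' h2).symm
      have hgs : ∑ k ∈ K, g k = r := by
        have h1 : ∑ i ∈ K, a i = ∑ i ∈ K, (m + g i) := sum_congr rfl hag
        rw [sum_add_distrib, sum_const, hK, smul_eq_mul] at h1
        have h2 : (∑ i ∈ K, (a i : ℤ)) = (R + u) * m + r := by linarith only [hEz, hEsum, hE0]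
        have h3 : ∑ i ∈ K, a i = (R + u) * m + r := by exact_mod_cast h2
        omega
      -- the number of sets inside `T`
      have hnum : ∀ T ⊆ K, T.card = R →
          (Z.filter fun y => 2 ≤ (h y).card ∧ h y ⊆ T).card ≤ ∑ k ∈ K \ T, g k := by
        intro T hTK hTc
        have h1 := hT T hTK hTc
        have h2 : ∑ i ∈ T, a i = ∑ i ∈ T, (m + g i) := sum_congr rfl fun i hi => hag i (hTK hi)
        rw [sum_add_distrib, sum_const, hTc, smul_eq_mul] at h2
        have h3 := sum_sdiff (f := g) hTK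
        omega
      have hmain := htight m (by omega) α K g hK hgs
      have hterm : ∀ T ∈ powersetCard R K, z T ≤
          ((fJ J T (fun t => m + g t) : ℝ) - rhoG J u R r m) * ∏ t ∈ T, ((m : ℝ) + g t)⁻¹ +
            M / (m : ℝ) ^ 2 * ∑ k ∈ K \ T, xi R s (g k) := by
        intro T hTm
        obtain ⟨hTK, hTc⟩ := mem_powersetCard.1 hTm
        have h1 := (hall T hTK hTc).2
        rw [hkz T hTK, mul_zero, zero_div, add_zero] at h1
        have e1 : ∀ t ∈ T, ((a t : ℝ)) = (m : ℝ) + g t := by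
          intro t ht
          rw [hag t (hTK ht)]
          push_cast
          rfl
        have e2 : fJ J T a = fJ J T (fun t => m + g t) :=
          fJ_congr J fun t ht => hag t (hTK ht)
        have e3 : ∏ t ∈ T, ((a t : ℝ))⁻¹ = ∏ t ∈ T, ((m : ℝ) + g t)⁻¹ :=
          prod_congr rfl fun t ht => by rw [e1 t ht]
        rw [e2, e3] at h1
        refine h1.trans (add_le_add le_rfl ?_)
        have h2 : xi R s (Y T) ≤ ∑ k ∈ K \ T, xi R s (g k) := by
          have h3 : (K \ T).card = 1 := by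
            rw [card_sdiff_of_subset hTK, hK, hTc]
            omega
          obtain ⟨k, hk⟩ := card_eq_one.1 h3
          have h4 := hnum T hTK hTc
          rw [hk, sum_singleton] at h4 ⊢
          exact xi_mono R s h4
        have h5 := mul_le_mul_of_nonneg_left h2 (by positivity : 0 ≤ M / (m : ℝ) ^ 2)
        refine le_trans (le_of_eq ?_) h5
        ring
      refine (sum_le_sum hterm).trans ?_
      rw [sum_add_distrib, ← mul_sum]
      have hsum2 : ∑ T ∈ powersetCard R K, ∑ k ∈ K \ T, xi R s (g k) =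
          ∑ k ∈ K, xi R s (g k) := by
        have h1 : ∀ T ∈ powersetCard R K, ∑ k ∈ K \ T, xi R s (g k) =
            ∑ k ∈ K, xi R s (g k) - ∑ k ∈ T, xi R s (g k) := by
          intro T hTm
          have := sum_sdiff (f := fun k => xi R s (g k)) (mem_powersetCard.1 hTm).1
          linarith only [this]
        rw [sum_congr rfl h1, sum_sub_distrib, sum_const, card_powersetCard, hK, nsmul_eq_mul,
          sum_one (K := K) (by omega : 1 ≤ R) fun k => xi R s (g k), hK, hu1]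
        have e1 : (R + 1).choose R = R + 1 := Nat.choose_succ_self_right R
        have e2 : (R + 1 - 1).choose (R - 1) = R := by
          rw [Nat.add_sub_cancel]
          have := Nat.choose_symm (n := R) (k := 1) (by omega)
          rw [this, Nat.choose_one_right]
        rw [e1, e2]
        push_cast
        ring
      rw [hsum2]
      have h1 : M / (m : ℝ) ^ 2 * ∑ k ∈ K, xi R s (g k) = M0 J R m / (m : ℝ) ^ R / (m : ℝ) ^ 2 *
          ∑ k ∈ K, xi R s (g k) := by rw [hM]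
      rw [h1]
      linarith only [hmain]
    · -- not tight
      have hE1 : (1 : ℝ) ≤ E := by exact_mod_cast hEp
      have hEreal : (E : ℝ) = ((R : ℝ) + u) * m - ∑ i ∈ K, (a i : ℝ) + r := by
        rw [hEsum]
        push_cast
        ring
      have hterm : ∀ T ∈ powersetCard R K, z T ≤
          M / m * (-al * ((R : ℝ) * m - ∑ t ∈ T, (a t : ℝ)) - (s : ℝ) * r / (R + u) +
            ε' * (((R : ℝ) * m + r - ∑ t ∈ T, (a t : ℝ)) + 1) +
              (∑ y ∈ Z.filter (fun y => h y ⊆ T), ktG R s θ (h y).card)) := by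
        intro T hTm
        obtain ⟨hTK, hTc⟩ := mem_powersetCard.1 hTm
        obtain ⟨h1, h2⟩ := hall T hTK hTc
        exact hlight T hTK hTc h1 h2
      refine (sum_le_sum hterm).trans ?_
      rw [← mul_sum]
      refine mul_nonpos_of_nonneg_of_nonpos (by positivity) ?_
      have s1 := sum_one (K := K) (by omega : 1 ≤ R) fun t => (a t : ℝ)
      rw [hK, ← hC1] at s1
      have s2 := KIneq1_cost_sum (R := R) (s := s) (θ := θ) Z h K hK
      rw [← hF] at s2
      have hcard : ((powersetCard R K).card : ℝ) = C0 := by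
        rw [card_powersetCard, hK]
      have hsum : ∑ T ∈ powersetCard R K, (-al * ((R : ℝ) * m - ∑ t ∈ T, (a t : ℝ)) -
          (s : ℝ) * r / (R + u) + ε' * (((R : ℝ) * m + r - ∑ t ∈ T, (a t : ℝ)) + 1) +
              (∑ y ∈ Z.filter (fun y => h y ⊆ T), ktG R s θ (h y).card)) =
          C0 * (-al * R * m - (s : ℝ) * r / (R + u) + ε' * (R * m + r + 1)) +
            (al - ε') * (C1 * ∑ i ∈ K, (a i : ℝ)) +
            ∑ T ∈ powersetCard R K, ∑ y ∈ Z.filter (fun y => h y ⊆ T), ktG R s θ (h y).card := by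
        have hcst : ∀ X : ℝ, C0 * X = ∑ _T ∈ powersetCard R K, X := by
          intro X
          rw [sum_const, nsmul_eq_mul, hcard]
        rw [hcst, ← s1, mul_sum, ← sum_add_distrib, ← sum_add_distrib]
        refine sum_congr rfl fun T _ => ?_
        ring
      rw [hsum, s2]
      have hcost : ∑ y ∈ F, (if (h y).card ≤ R then
          ktG R s θ (h y).card * ((R + u - (h y).card).choose (R - (h y).card) : ℝ) else 0) ≤
          (1 - c) * al * C1 * E := by
        have h0 : 0 ≤ (1 - c) * al * C1 := by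
          have : 0 ≤ 1 - c := by linarith only [hc1]
          positivity
        have h1 : ∀ y ∈ F, (if (h y).card ≤ R then
            ktG R s θ (h y).card * ((R + u - (h y).card).choose (R - (h y).card) : ℝ) else 0) ≤
            (1 - c) * al * C1 * bet (R - 1 - r) u (h y).card := by
          intro y hy
          split_ifs with h2
          · exact hktb s _ (mem_filter.1 hy).2.1 h2
          · exact mul_nonneg h0 (bet_nonneg _ _ _)
        refine (sum_le_sum h1).trans ?_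
        rw [← mul_sum]
        exact mul_le_mul_of_nonneg_left hP h0
      have e1 : C0 * ((s : ℝ) * r / (R + u)) = al * r * C1 := by
        have h1 : C0 = C1 * (R + u) / R := by
          rw [eq_div_iff hR0.ne']
          exact hC0R
        have hRu : (R : ℝ) + u ≠ 0 := by positivity
        rw [h1, hal]
        field_simp
      have e2 : ∑ i ∈ K, (a i : ℝ) = ((R : ℝ) + u) * m + r - E := by rw [hEreal]; ring
      rw [e2]
      have e3 : C0 * (-al * R * m - (s : ℝ) * r / (R + u) + ε' * (R * m + r + 1)) +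
          (al - ε') * (C1 * (((R : ℝ) + u) * m + r - E)) =
          -al * C1 * E + ε' * (C1 * E + (C0 - C1) * r + C0) := by
        linear_combination (-1 : ℝ) * e1 + (-al * m + ε' * m) * hC0R
      rw [e3]
      have h1 : C1 * E + (C0 - C1) * r + C0 ≤ C0 * (r + 2) * E := by
        have h2 : C1 * (E : ℝ) ≤ C0 * E := mul_le_mul_of_nonneg_right hC10 (by linarith only [hbet0,
                                                                                 hP])
        have h3 : (C0 - C1) * r ≤ C0 * r * E := by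
          have h4 : (C0 - C1) * r ≤ C0 * r := mul_le_mul_of_nonneg_right (by linarith only [hC1]) (Nat.cast_nonneg r)
          have h5 : C0 * r * 1 ≤ C0 * r * E := mul_le_mul_of_nonneg_left hE1 (by positivity)
          linarith only [h5, h4]
        have h4 : C0 * 1 ≤ C0 * E := mul_le_mul_of_nonneg_left hE1 (by linarith only [hC0])
        linarith only [h4, h3, h2]
      have h2 : ε' * (C1 * E + (C0 - C1) * r + C0) ≤ c * al * C1 / 2 * E := by
        have h3 := mul_le_mul_of_nonneg_left h1 hε'0.le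
        have h4 := mul_le_mul_of_nonneg_right hε'2 (by linarith only [hbet0, hP] : (0 : ℝ) ≤ E)
        refine h3.trans (le_trans (le_of_eq ?_) h4)
        ring
      have h3 : 0 ≤ c * al * C1 / 2 * E := by
        have h4 : (0 : ℝ) ≤ E := by linarith only [hbet0, hP]
        positivity
      linarith only [h3, h2, hcost]

theorem K_ineq1 (hcs : 2 ≤ Fintype.card ι) (hJ : 1 ≤ oe J) (θ : ℝ) (hθ : 0 < θ)
    (hθ1 : θ ≤ 1 / 4) : ∃ R₀ : ℕ, ∃ c₀ : ℝ, 0 < c₀ ∧ ∀ R r : ℕ, R₀ ≤ R → 1 ≤ r →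
    (r : ℝ) ≤ c₀ * R → ∃ C₁ ε : ℝ, 0 < C₁ ∧ 0 < ε ∧ ε < 1 ∧ ∃ m₀ : ℕ, ∀ m : ℕ, m₀ ≤ m →
      ∀ (α : Type) [DecidableEq α] (β : Type) (K : Finset α) (a : α → ℕ) (Z : Finset β)
        (h : β → Finset α) (z : Finset α → ℝ), K.card = R + 1 → (∀ t ∈ K, 1 ≤ a t) →
        (∀ T ⊆ K, T.card = R →
          ∑ i ∈ T, a i + (Z.filter fun y => 2 ≤ (h y).card ∧ h y ⊆ T).card ≤ R * m + r) →
        (∀ T ⊆ K, T.card = R → z T ≤ -(C₁ / m) * (M0 J R m / (m : ℝ) ^ R) ∨
          ((∀ t ∈ T, (1 - ε) * m ≤ (a t : ℝ)) ∧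
            z T ≤ ((fJ J T a : ℝ) - rhoG J 1 R r m) * (∏ t ∈ T, ((a t : ℝ))⁻¹) +
              M0 J R m / (m : ℝ) ^ R *
                (∑ y ∈ Z.filter (fun y => h y ⊆ T), ktG R (Fintype.card ι) θ (h y).card) / m +
              M0 J R m / (m : ℝ) ^ R * xi R (Fintype.card ι)
                (Z.filter fun y => 2 ≤ (h y).card ∧ h y ⊆ T).card / (m : ℝ) ^ 2)) →
        ∑ T ∈ powersetCard R K, z T ≤ 0 :=
  KIneq1_aux J hcs hJ 1 rfl θ hθ hθ1

end H57GH
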