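import Pool.Agent.H57.GH.StrG
import Pool.Agent.H57.LC.Count

/-!
Light, medium and very heavy vertices of the common neighbourhoods of the `u`-subsets of one
`(u+1)`-clique `W`.
-/

namespace H57GH

open Finset H57LC H57LT

set_option linter.unusedSectionVars false

section
variable {V : Type*} [Fintype V] [DecidableEq V] {G : SimpleGraph V} [DecidableRel G.Adj]

theorem Light_mem_cn_erase {W : Finset V} {x y : V} (hy : y ∈ cn G W) : y ∈ cn G (W.erase x) := by
  rw [mem_cn] at hy ⊢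
  exact fun a ha => hy a (mem_of_mem_erase ha)

theorem Light_erase_mem {u : ℕ} {W : Finset V} (hW : W ∈ clq G univ (u + 1)) {x : V}
    (hx : x ∈ W) : W.erase x ∈ clq G univ u := by
  rw [mem_clq] at hW ⊢
  refine ⟨⟨subset_univ _, ?_⟩, hW.2.subset (erase_subset _ _)⟩
  rw [card_erase_of_mem hx, hW.1.2, Nat.add_sub_cancel]

theorem Light_self_mem {u : ℕ} {W : Finset V} (hW : W ∈ clq G univ (u + 1)) {x : V}
    (hx : x ∈ W) : x ∈ cn G (W.erase x) := by
  rw [mem_cn]
  rw [mem_clq] at hW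
  exact fun a ha => hW.2 a (mem_of_mem_erase ha) x hx (ne_of_mem_erase ha)

theorem Light_notMem_cn {W : Finset V} {x : V} (hx : x ∈ W) : x ∉ cn G W := by
  rw [mem_cn]
  exact fun h => G.loopless.irrefl x (h x hx)

theorem dg_erase {W : Finset V} {x : V} (hx : x ∈ W) :
    dg G (cn G (W.erase x)) x = (cn G W).card := by
  unfold dg
  congr 1
  ext y
  rw [mem_filter, mem_cn, mem_cn]
  constructor
  · rintro ⟨h1, h2⟩ a ha
    by_cases hax : a = x
    · rw [hax]; exact h2
    · exact h1 a (mem_erase.2 ⟨hax, ha⟩)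
  · intro h
    exact ⟨fun a ha => h a (mem_of_mem_erase ha), h x hx⟩

/-- a common neighbour of `W` has large degree in at most one of the sets `N(W - x)` -/
theorem light_once {u D : ℕ} (hdeg : ∀ U ∈ clq G univ u, (cn G U).card ≤ D) {W : Finset V}
    (hW : W ∈ clq G univ (u + 1)) {x x' y : V} (hx : x ∈ W) (hx' : x' ∈ W) (hxx : x ≠ x')
    (hy : y ∈ cn G W) :
    dg G (cn G (W.erase x)) y + dg G (cn G (W.erase x')) y ≤ D + (cn G W).card := by
  unfold dg
  rw [← card_union_add_card_inter]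
  have hW' := mem_clq.1 hW
  have hyW : ∀ a ∈ W, G.Adj a y := mem_cn.1 hy
  have hynot : y ∉ (W.erase x).erase x' := fun h =>
    G.loopless.irrefl y (hyW y (mem_of_mem_erase (mem_of_mem_erase h)))
  have hU : insert y ((W.erase x).erase x') ∈ clq G univ u := by
    rw [mem_clq]
    refine ⟨⟨subset_univ _, ?_⟩, isCl_insert (hW'.2.subset
      ((erase_subset _ _).trans (erase_subset _ _))) fun t ht => ?_⟩
    · rw [card_insert_of_notMem hynot, card_erase_of_mem (mem_erase.2 ⟨hxx.symm, hx'⟩),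
        card_erase_of_mem hx, hW'.1.2]
      have : 1 < W.card := one_lt_card.2 ⟨x, hx, x', hx', hxx⟩
      rw [hW'.1.2] at this
      omega
    · exact (hyW t (mem_of_mem_erase (mem_of_mem_erase ht))).symm
  refine Nat.add_le_add ((card_le_card ?_).trans (hdeg _ hU)) (card_le_card ?_)
  · intro z hz
    rw [mem_union, mem_filter, mem_filter, mem_cn, mem_cn] at hz
    rw [mem_cn]
    intro a ha
    rw [mem_insert] at ha
    rcases ha with rfl | ha
    · rcases hz with h | h <;> exact h.2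
    · rcases hz with h | h
      · exact h.1 a (mem_of_mem_erase ha)
      · exact h.1 a (mem_erase.2 ⟨ne_of_mem_erase ha, mem_of_mem_erase (mem_of_mem_erase ha)⟩)
  · intro z hz
    rw [mem_inter, mem_filter, mem_filter, mem_cn, mem_cn] at hz
    rw [mem_cn]
    intro a ha
    by_cases hax : a = x
    · exact hz.2.1 a (mem_erase.2 ⟨by rw [hax]; exact hxx, ha⟩)
    · exact hz.1.1 a (mem_erase.2 ⟨hax, ha⟩)

/-- if no `N(W - x)`, `x ≠ z`, has slack then `N(W - z)` has slack -/
theorem slack_of {u R r m d κ₀ : ℕ} {θ : ℝ} (hu : 1 ≤ u) (hκu : κ₀ ≤ u) (hκd : κ₀ ≤ d)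
    (hm : (R : ℝ) * m + r + θ * R * m < 2 * ((R : ℝ) - 5 / 4) * m)
    (hdeg : ∀ U ∈ clq G univ u, (cn G U).card ≤ R * m + r) {W : Finset V}
    (hW : W ∈ clq G univ (u + 1)) {z : V} (hz : z ∈ W) (hd : d ≤ (cn G W).card)
    (hθ : ((cn G W).card : ℝ) ≤ θ * R * m)
    (hns : ∀ x ∈ W, x ≠ z → ¬ Slack G (cn G (W.erase x)) R m θ κ₀) :
    Slack G (cn G (W.erase z)) R m θ κ₀ := by
  classical
  by_contra hcon
  have hall : ∀ x ∈ W, ¬ Slack G (cn G (W.erase x)) R m θ κ₀ := by
    intro x hx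
    by_cases hxz : x = z
    · rw [hxz]; exact hcon
    · exact hns x hx hxz
  have hmed : ∀ x ∈ W, ∀ y ∈ cn G W, (dg G (cn G (W.erase x)) y : ℝ) ≤ θ * R * m ∨
      ((R : ℝ) - 5 / 4) * m ≤ (dg G (cn G (W.erase x)) y : ℝ) := by
    intro x hx y hy
    by_contra h
    push Not at h
    exact hall x hx (Or.inl ⟨y, Light_mem_cn_erase hy, h.1, h.2⟩)
  have hvh : ∀ x ∈ W, (vh G (cn G (W.erase x)) R m θ).card ≤ κ₀ := by
    intro x hx
    by_contra h
    push Not at h
    exact hall x hx (Or.inr h)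
  have hmemvh : ∀ (S : Finset V) (y : V), y ∈ vh G S R m θ ↔
      y ∈ S ∧ (dg G S y : ℝ) ≤ θ * R * m := by
    intro S y
    unfold vh
    rw [mem_filter]
  have hself : ∀ x ∈ W, x ∈ vh G (cn G (W.erase x)) R m θ := by
    intro x hx
    rw [hmemvh]
    exact ⟨Light_self_mem hW hx, by rw [dg_erase hx]; exact hθ⟩
  -- the sets of the common neighbours which are very heavy
  have hcount : ∀ x ∈ W, ((cn G W).filter fun y => y ∈ vh G (cn G (W.erase x)) R m θ).card + 1 ≤
      κ₀ := by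
    intro x hx
    refine le_trans ?_ (hvh x hx)
    have hnot : x ∉ (cn G W).filter fun y => y ∈ vh G (cn G (W.erase x)) R m θ := fun h =>
      Light_notMem_cn hx (mem_filter.1 h).1
    rw [← card_insert_of_notMem hnot]
    refine card_le_card (insert_subset (hself x hx) ?_)
    intro y hy
    exact (mem_filter.1 hy).2
  have hmany : ∀ y ∈ cn G W, u ≤ (W.filter fun x => y ∈ vh G (cn G (W.erase x)) R m θ).card := by
    intro y hy
    have hsplit := card_filter_add_card_filter_not (s := W)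
      (fun x => y ∈ vh G (cn G (W.erase x)) R m θ)
    have hone : (W.filter fun x => ¬ y ∈ vh G (cn G (W.erase x)) R m θ).card ≤ 1 := by
      rw [card_le_one]
      intro a ha b hb
      rw [mem_filter] at ha hb
      by_contra hab
      have h1 : ((R : ℝ) - 5 / 4) * m ≤ (dg G (cn G (W.erase a)) y : ℝ) := by
        rcases hmed a ha.1 y hy with h | h
        · exact absurd ((hmemvh _ _).2 ⟨Light_mem_cn_erase hy, h⟩) ha.2
        · exact h
      have h2 : ((R : ℝ) - 5 / 4) * m ≤ (dg G (cn G (W.erase b)) y : ℝ) := by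
        rcases hmed b hb.1 y hy with h | h
        · exact absurd ((hmemvh _ _).2 ⟨Light_mem_cn_erase hy, h⟩) hb.2
        · exact h
      have h3 := light_once hdeg hW ha.1 hb.1 hab hy
      have h4 : (dg G (cn G (W.erase a)) y : ℝ) + dg G (cn G (W.erase b)) y ≤
          (R : ℝ) * m + r + (cn G W).card := by exact_mod_cast h3
      linarith
    rw [(mem_clq.1 hW).1.2] at hsplit
    omega
  have hswap : ∑ y ∈ cn G W, (W.filter fun x => y ∈ vh G (cn G (W.erase x)) R m θ).card =
      ∑ x ∈ W, ((cn G W).filter fun y => y ∈ vh G (cn G (W.erase x)) R m θ).card := by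
    simp only [card_filter]
    exact sum_comm
  have hlow : (cn G W).card * u ≤
      ∑ y ∈ cn G W, (W.filter fun x => y ∈ vh G (cn G (W.erase x)) R m θ).card := by
    rw [← smul_eq_mul]
    exact card_nsmul_le_sum _ _ _ hmany
  have hupp : ∑ x ∈ W, (((cn G W).filter fun y => y ∈ vh G (cn G (W.erase x)) R m θ).card + 1) ≤
      (u + 1) * κ₀ := by
    refine (sum_le_card_nsmul _ _ _ hcount).trans ?_
    rw [(mem_clq.1 hW).1.2, smul_eq_mul]
  rw [sum_add_distrib, sum_const, smul_eq_mul, mul_one, (mem_clq.1 hW).1.2, ← hswap] at hupp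
  have h5 : κ₀ * u ≤ (cn G W).card * u := Nat.mul_le_mul_right _ (hκd.trans hd)
  have h6 : κ₀ * u + (u + 1) ≤ (u + 1) * κ₀ := by omega
  have h7 : (u + 1) * κ₀ = κ₀ * u + κ₀ := by ring
  omega

end

/-- if two of the sets `N(W - x)` have many edges then `N(W)` is bounded -/
theorem both_B (u R r : ℕ) (hu : 1 ≤ u) (hR : 8 ≤ R) (hr : r ≤ R) (CB θ : ℝ) (hCB : 0 < CB)
    (hθ : 0 < θ) (hθ1 : θ ≤ 1 / 4) : ∃ C : ℝ, 0 < C ∧ ∃ m₀ : ℕ, ∀ m : ℕ, m₀ ≤ m →
      ∀ (V : Type) [Fintype V] [DecidableEq V] (G : SimpleGraph V) [DecidableRel G.Adj],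
        (∀ U ∈ clq G univ u, (cn G U).card ≤ R * m + r) → clq G univ (R + u + 1) = ∅ →
        ∀ W ∈ clq G univ (u + 1), ∀ x ∈ W, ∀ x' ∈ W, x ≠ x' →
          TyB G (cn G (W.erase x)) R m CB → TyB G (cn G (W.erase x')) R m CB →
          ((cn G W).card : ℝ) ≤ θ * R * m → ((cn G W).card : ℝ) ≤ C := by
  obtain ⟨C, hC, m₀, hfew⟩ := few_nonlight R r (by omega) CB hCB
  refine ⟨C + C, by positivity, max m₀ (R + 1), ?_⟩
  intro m hm V _ _ G _ hdeg hfree W hW x hx x' hx' hxx hT hT' hθW
  have hm0 : m₀ ≤ m := (le_max_left _ _).trans hm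
  have hmR : R + 1 ≤ m := (le_max_right _ _).trans hm
  have hUx := Light_erase_mem hW hx
  have hUx' := Light_erase_mem hW hx'
  have h1 := hfew m hm0 V G (cn G (W.erase x)) (hdeg _ hUx) (cn_free hfree hUx) hT
  have h2 := hfew m hm0 V G (cn G (W.erase x')) (hdeg _ hUx') (cn_free hfree hUx') hT'
  have hsub : cn G W ⊆
      ((cn G (W.erase x)).filter fun z =>
        (dg G (cn G (W.erase x)) z : ℝ) < ((R : ℝ) - 5 / 4) * m) ∪
      ((cn G (W.erase x')).filter fun z =>
        (dg G (cn G (W.erase x')) z : ℝ) < ((R : ℝ) - 5 / 4) * m) := by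
    intro y hy
    rw [mem_union, mem_filter, mem_filter]
    by_contra hcon
    push Not at hcon
    have a1 := hcon.1 (Light_mem_cn_erase hy)
    have a2 := hcon.2 (Light_mem_cn_erase hy)
    have h3 := light_once hdeg hW hx hx' hxx hy
    have h4 : (dg G (cn G (W.erase x)) y : ℝ) + dg G (cn G (W.erase x')) y ≤
        (R : ℝ) * m + r + (cn G W).card := by exact_mod_cast h3
    have hRr : (8 : ℝ) ≤ R := by exact_mod_cast hR
    have hrm : (r : ℝ) ≤ m := by
      have : r ≤ m := by omega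
      exact_mod_cast this
    have hmpos : (0 : ℝ) < m := by
      have : 0 < m := by omega
      exact_mod_cast this
    have h5 : θ * R * m ≤ 1 / 4 * R * m := by gcongr
    nlinarith
  have h3 := (card_le_card hsub).trans (card_union_le _ _)
  have h4 : ((cn G W).card : ℝ) ≤ (((cn G (W.erase x)).filter fun z =>
        (dg G (cn G (W.erase x)) z : ℝ) < ((R : ℝ) - 5 / 4) * m).card : ℝ) +
      (((cn G (W.erase x')).filter fun z =>
        (dg G (cn G (W.erase x')) z : ℝ) < ((R : ℝ) - 5 / 4) * m).card : ℝ) := by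
    exact_mod_cast h3
  linarith

end H57GH
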