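import Pool.Agent.H57.GH.Light
import Pool.Agent.H57.LC.Count

/-!
Transfers between the `u`-subsets of the `(u+1)`-cliques.
-/

namespace H57GH

open Finset H57LC H57LT

set_option linter.unusedSectionVars false

/-- the amount transferred for a very heavy vertex of degree `x` -/
noncomputable def PiW (s q : ℕ) (n x : ℝ) : ℝ := 2 * s * x ^ (1 + q) * n ^ (s - 2 - q)

lemma Pay_ins {V : Type*} [Fintype V] [DecidableEq V] {G : SimpleGraph V} [DecidableRel G.Adj]
    {u : ℕ} {U : Finset V} {z : V} (hU : U ∈ clq G univ u) (hz : z ∈ cn G U) :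
    z ∉ U ∧ insert z U ∈ clq G univ (u + 1) ∧ (insert z U).erase z = U := by
  have hzU : z ∉ U := fun h => G.loopless.irrefl z (mem_cn.1 hz z h)
  refine ⟨hzU, ?_, erase_insert hzU⟩
  rw [mem_clq] at hU ⊢
  refine ⟨⟨subset_univ _, ?_⟩, isCl_insert hU.2 fun t ht => (mem_cn.1 hz t ht).symm⟩
  rw [card_insert_of_notMem hzU, hU.1.2]

lemma Pay_era {V : Type*} [Fintype V] [DecidableEq V] {G : SimpleGraph V} [DecidableRel G.Adj]
    {u : ℕ} {W : Finset V} {z : V} (hW : W ∈ clq G univ (u + 1)) (hz : z ∈ W) :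
    W.erase z ∈ clq G univ u ∧ z ∈ cn G (W.erase z) ∧ insert z (W.erase z) = W := by
  rw [mem_clq] at hW
  refine ⟨?_, ?_, insert_erase hz⟩
  · rw [mem_clq]
    refine ⟨⟨subset_univ _, ?_⟩, hW.2.subset (erase_subset _ _)⟩
    rw [card_erase_of_mem hz, hW.1.2]
    omega
  · rw [mem_cn]
    intro a ha
    have ha' := mem_erase.1 ha
    exact hW.2 a ha'.2 z hz ha'.1

lemma Pay_pairs {V : Type*} [Fintype V] [DecidableEq V] {G : SimpleGraph V} [DecidableRel G.Adj]
    (u : ℕ) (f : Finset V → V → ℝ) :
    ∑ U ∈ clq G univ u, ∑ z ∈ cn G U, f (insert z U) z =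
      ∑ W ∈ clq G univ (u + 1), ∑ z ∈ W, f W z := by
  rw [sum_sigma', sum_sigma']
  refine sum_bij' (fun x _ => ⟨insert x.2 x.1, x.2⟩) (fun x _ => ⟨x.1.erase x.2, x.2⟩)
    ?_ ?_ ?_ ?_ ?_
  · rintro ⟨U, z⟩ h
    rw [mem_sigma] at h ⊢
    exact ⟨(Pay_ins h.1 h.2).2.1, mem_insert_self _ _⟩
  · rintro ⟨W, z⟩ h
    rw [mem_sigma] at h ⊢
    exact ⟨(Pay_era h.1 h.2).1, (Pay_era h.1 h.2).2.1⟩
  · rintro ⟨U, z⟩ h
    rw [mem_sigma] at h
    simp only [(Pay_ins h.1 h.2).2.2]
  · rintro ⟨W, z⟩ h
    rw [mem_sigma] at h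
    simp only [(Pay_era h.1 h.2).2.2]
  · rintro ⟨U, z⟩ h
    rfl

lemma PiW_nonneg (s q : ℕ) {n x : ℝ} (hn : 0 ≤ n) (hx : 0 ≤ x) : 0 ≤ PiW s q n x := by
  unfold PiW
  positivity

lemma PiW_mono (s q : ℕ) {n x y : ℝ} (hn : 0 ≤ n) (hx : 0 ≤ x) (hxy : x ≤ y) :
    PiW s q n x ≤ PiW s q n y := by
  unfold PiW
  gcongr

theorem transfer (u R r d q κ₀ s : ℕ) (hu : 1 ≤ u) (hR : 8 ≤ R) (hr : r ≤ R) (hκu : κ₀ ≤ u)
    (hκd : κ₀ ≤ d) (hd : 1 ≤ d) (CB θ : ℝ) (hCB : 0 < CB) (hθ : 0 < θ) (hθ1 : θ ≤ 1 / 4) :
    ∃ C₆ : ℝ, 0 < C₆ ∧ ∃ m₀ : ℕ, ∀ m : ℕ, m₀ ≤ m →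
      ∀ (V : Type) [Fintype V] [DecidableEq V] (G : SimpleGraph V) [DecidableRel G.Adj],
        (∀ U ∈ clq G univ u, (cn G U).card ≤ R * m + r) → clq G univ (R + u + 1) = ∅ →
        ∃ giv got : Finset V → ℝ,
          ∑ U ∈ clq G univ u, giv U = ∑ U ∈ clq G univ u, got U ∧
          (∀ U ∈ clq G univ u, ¬ TyB G (cn G U) R m CB → got U = 0 ∧
            giv U ≤ u * ∑ x ∈ vh G (cn G U) R m θ,
              PiW s q ((R : ℝ) * m + r) (dg G (cn G U) x)) ∧
          (∀ U ∈ clq G univ u, TyB G (cn G U) R m CB → ∃ Γ : ℝ, 0 ≤ Γ ∧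
            Γ ≤ C₆ * (m : ℝ) ^ (s - 2 - q) ∧ (¬ Slack G (cn G U) R m θ κ₀ → Γ = 0) ∧
            ∑ z ∈ (vh G (cn G U) R m θ).filter (fun z => d ≤ dg G (cn G U) z),
              PiW s q ((R : ℝ) * m + r) (dg G (cn G U) z) + giv U - got U ≤ Γ) := by
  classical
  obtain ⟨C, hC, m1, hboth⟩ := both_B u R r hu hR hr CB θ hCB hθ hθ1
  obtain ⟨C', hC', m2, hfew⟩ := few_nonlight R r (by omega) CB hCB
  refine ⟨((1 + u) * C' * (2 * s * C ^ (1 + q) * (2 * R) ^ (s - 2 - q)) + 1), by positivity,
    max (max m1 m2) 4, ?_⟩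
  intro m hm V _ _ G _ hdeg hfree
  have hm1 : m1 ≤ m := le_trans (le_trans (le_max_left _ _) (le_max_left _ _)) hm
  have hm2 : m2 ≤ m := le_trans (le_trans (le_max_right _ _) (le_max_left _ _)) hm
  have hm4 : 4 ≤ m := le_trans (le_max_right _ _) hm
  have hm4' : (4 : ℝ) ≤ m := by exact_mod_cast hm4
  have hR' : (8 : ℝ) ≤ R := by exact_mod_cast hR
  have hr' : (r : ℝ) ≤ R := by exact_mod_cast hr
  have hm0 : (0 : ℝ) < m := by linarith
  have hR0 : (0 : ℝ) < R := by linarith
  have hrm : (r : ℝ) ≤ R * m / 4 := by nlinarith only [hr', hm4']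
  have hθR : θ * R * m ≤ R * m / 4 := by
    have : θ * (R * m) ≤ 1 / 4 * (R * m) := by gcongr
    linarith only [this]
  have hRm8 : 8 * (m : ℝ) ≤ R * m := by nlinarith only [hR']
  have hslackm : (R : ℝ) * m + r + θ * R * m < 2 * ((R : ℝ) - 5 / 4) * m := by nlinarith only [hθ,
      hθ1, hm4', hrm, hθR, hRm8]
  have hlow : θ * R * m < ((R : ℝ) - 5 / 4) * m := by nlinarith only [hθ, hθ1, hm4', hθR, hRm8]
  set n : ℝ := (R : ℝ) * m + r with hn
  have hn0 : 0 ≤ n := by positivity
  have hn2 : n ≤ 2 * R * m := by linarith only [hθ, hθ1, hm4', hrm, hRm8]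
  set S : Finset V → V → Prop := fun W x => Slack G (cn G (W.erase x)) R m θ κ₀ with hSdef
  set Tb : Finset V → V → Prop := fun W x => TyB G (cn G (W.erase x)) R m CB with hTdef
  -- the chosen payer (`z` itself: no payment)
  let ch : Finset V → V → V := fun W z =>
    if h : ∃ x ∈ W, x ≠ z ∧ ¬ Tb W x then h.choose
    else if h : ∃ x ∈ W, x ≠ z ∧ S W x then h.choose else z
  have ch_mem : ∀ W : Finset V, ∀ z ∈ W, ch W z ∈ W := by
    intro W z hz
    simp only [ch]
    split_ifs with h1 h2
    · exact h1.choose_spec.1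
    · exact h2.choose_spec.1
    · exact hz
  have ch_ne : ∀ W : Finset V, ∀ z, ch W z ≠ z → (¬ Tb W (ch W z)) ∨
      ((∀ x ∈ W, x ≠ z → Tb W x) ∧ S W (ch W z)) := by
    intro W z hne
    by_cases h1 : ∃ x ∈ W, x ≠ z ∧ ¬ Tb W x
    · left
      have : ch W z = h1.choose := by simp only [ch]; rw [dif_pos h1]
      rw [this]
      exact h1.choose_spec.2.2
    · right
      have hall : ∀ x ∈ W, x ≠ z → Tb W x := by
        intro x hx hxz
        by_contra hcon
        exact h1 ⟨x, hx, hxz, hcon⟩
      refine ⟨hall, ?_⟩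
      by_cases h2 : ∃ x ∈ W, x ≠ z ∧ S W x
      · have : ch W z = h2.choose := by simp only [ch]; rw [dif_neg h1, dif_pos h2]
        rw [this]
        exact h2.choose_spec.2.2
      · exfalso
        apply hne
        simp only [ch]
        rw [dif_neg h1, dif_neg h2]
  have ch_eq : ∀ W : Finset V, ∀ z, ch W z = z →
      (∀ x ∈ W, x ≠ z → Tb W x) ∧ (∀ x ∈ W, x ≠ z → ¬ S W x) := by
    intro W z he
    by_cases h1 : ∃ x ∈ W, x ≠ z ∧ ¬ Tb W x
    · exfalso
      have : ch W z = h1.choose := by simp only [ch]; rw [dif_pos h1]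
      rw [this] at he
      exact h1.choose_spec.2.1 he
    · by_cases h2 : ∃ x ∈ W, x ≠ z ∧ S W x
      · exfalso
        have : ch W z = h2.choose := by simp only [ch]; rw [dif_neg h1, dif_pos h2]
        rw [this] at he
        exact h2.choose_spec.2.1 he
      · refine ⟨?_, ?_⟩
        · intro x hx hxz
          by_contra hcon
          exact h1 ⟨x, hx, hxz, hcon⟩
        · intro x hx hxz hcon
          exact h2 ⟨x, hx, hxz, hcon⟩
  let req : Finset V → V → Prop := fun W z =>
    Tb W z ∧ d ≤ (cn G W).card ∧ ((cn G W).card : ℝ) ≤ θ * R * m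
  let π : Finset V → ℝ := fun W => PiW s q n ((cn G W).card : ℝ)
  have hπ0 : ∀ W, 0 ≤ π W := fun W => PiW_nonneg s q hn0 (by positivity)
  let amt : Finset V → V → V → ℝ := fun W z x =>
    if req W z ∧ ch W z = x ∧ x ≠ z then π W else 0
  have hamt0 : ∀ W z x, 0 ≤ amt W z x := by
    intro W z x
    simp only [amt]
    split_ifs
    · exact hπ0 W
    · exact le_rfl
  -- bounded degree in the balanced case
  have hbd : ∀ W ∈ clq G univ (u + 1), ((cn G W).card : ℝ) ≤ θ * R * m → (∀ x ∈ W, Tb W x) →
      π W ≤ 2 * s * C ^ (1 + q) * ((2 * R) ^ (s - 2 - q) * (m : ℝ) ^ (s - 2 - q)) := by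
    intro W hW hle hall
    have hWc : W.card = u + 1 := (mem_clq.1 hW).1.2
    obtain ⟨x, hx, x', hx', hne⟩ := Finset.one_lt_card.1 (by omega : 1 < W.card)
    have h1 := hboth m hm1 V G hdeg hfree W hW x hx x' hx' hne (hall x hx) (hall x' hx') hle
    calc π W ≤ PiW s q n C := PiW_mono s q hn0 (by positivity) h1
      _ = 2 * s * C ^ (1 + q) * n ^ (s - 2 - q) := rfl
      _ ≤ 2 * s * C ^ (1 + q) * (2 * R * m) ^ (s - 2 - q) := by gcongr
      _ = _ := by rw [mul_pow]
  set M : ℝ := 2 * s * C ^ (1 + q) * ((2 * R) ^ (s - 2 - q) * (m : ℝ) ^ (s - 2 - q)) with hM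
  have hM0 : 0 ≤ M := by positivity
  have hdge : ∀ U ∈ clq G univ u, ∀ z ∈ cn G U, dg G (cn G U) z = (cn G (insert z U)).card := by
    intro U hU z hz
    have h := dg_erase (G := G) (W := insert z U) (x := z) (mem_insert_self _ _)
    rw [(Pay_ins hU hz).2.2] at h
    exact h
  refine ⟨fun U => ∑ x ∈ cn G U, ∑ z ∈ insert x U, amt (insert x U) z x,
    fun U => ∑ z ∈ cn G U, ∑ x ∈ insert z U, amt (insert z U) z x, ?_, ?_, ?_⟩
  · rw [Pay_pairs u fun W x => ∑ z ∈ W, amt W z x, Pay_pairs u fun W z => ∑ x ∈ W, amt W z x]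
    exact sum_congr rfl fun W _ => sum_comm
  · intro U hU hnT
    refine ⟨?_, ?_⟩
    · refine sum_eq_zero fun z hz => sum_eq_zero fun x hx => ?_
      simp only [amt]
      rw [if_neg]
      rintro ⟨⟨h1, -⟩, -⟩
      apply hnT
      have := (Pay_ins hU hz).2.2
      simp only [hTdef] at h1
      rwa [this] at h1
    · have hvh : ∑ x ∈ vh G (cn G U) R m θ, PiW s q n (dg G (cn G U) x) =
          ∑ x ∈ cn G U, if (dg G (cn G U) x : ℝ) ≤ θ * R * m then
            PiW s q n (dg G (cn G U) x) else 0 := by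
        unfold vh
        rw [sum_filter]
      rw [hvh, mul_sum]
      refine sum_le_sum fun x hx => ?_
      have hxU := (Pay_ins hU hx).1
      rw [sum_insert hxU]
      have h0 : amt (insert x U) x x = 0 := by
        simp only [amt]
        rw [if_neg]
        rintro ⟨-, -, h⟩
        exact h rfl
      rw [h0, zero_add]
      have hcard : (U.card : ℝ) = u := by
        rw [(mem_clq.1 hU).1.2]
      rw [← hcard, ← nsmul_eq_mul]
      refine sum_le_card_nsmul _ _ _ fun z hz => ?_
      rw [hdge U hU x hx]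
      simp only [amt]
      split_ifs with h1 h2 h2
      · exact le_rfl
      · exact absurd h1.1.2.2 h2
      · exact hπ0 _
      · exact le_rfl
  · intro U hU hT
    have hcnfree : clq G (cn G U) (R + 1) = ∅ := cn_free hfree hU
    have hvhcard : ((vh G (cn G U) R m θ).card : ℝ) ≤ C' := by
      refine le_trans ?_ (hfew m hm2 V G (cn G U) (hdeg U hU) hcnfree hT)
      have hsub : vh G (cn G U) R m θ ⊆
          (cn G U).filter fun z => (dg G (cn G U) z : ℝ) < ((R : ℝ) - 5 / 4) * m := by
        intro z hz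
        unfold vh at hz
        rw [mem_filter] at hz ⊢
        exact ⟨hz.1, lt_of_le_of_lt hz.2 hlow⟩
      exact_mod_cast card_le_card hsub
    set C6 : ℝ := (1 + u) * C' * (2 * s * C ^ (1 + q) * (2 * R) ^ (s - 2 - q)) + 1 with hC6
    refine ⟨if Slack G (cn G U) R m θ κ₀ then C6 * (m : ℝ) ^ (s - 2 - q) else 0, ?_, ?_, ?_, ?_⟩
    · split_ifs
      · positivity
      · exact le_rfl
    · split_ifs
      · exact le_rfl
      · positivity
    · intro h
      rw [if_neg h]
    · -- the main estimate
      have hkey : (1 + (u : ℝ)) * (C' * M) ≤ C6 * (m : ℝ) ^ (s - 2 - q) := by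
        rw [hC6, hM]
        have : (0 : ℝ) ≤ (m : ℝ) ^ (s - 2 - q) := by positivity
        nlinarith only [this]
      have hgot : ∑ z ∈ cn G U, ∑ x ∈ insert z U, amt (insert z U) z x =
          ∑ z ∈ cn G U, if req (insert z U) z ∧ ch (insert z U) z ≠ z then π (insert z U)
            else 0 := by
        refine sum_congr rfl fun z hz => ?_
        by_cases hc : req (insert z U) z ∧ ch (insert z U) z ≠ z
        · rw [if_pos hc, sum_eq_single (ch (insert z U) z)]
          · simp only [amt]
            rw [if_pos ⟨hc.1, trivial, hc.2⟩]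
          · intro x _ hx
            simp only [amt]
            rw [if_neg]
            rintro ⟨-, h2, -⟩
            exact hx h2.symm
          · intro h
            exact absurd (ch_mem _ _ (mem_insert_self _ _)) h
        · rw [if_neg hc]
          refine sum_eq_zero fun x _ => ?_
          simp only [amt]
          rw [if_neg]
          rintro ⟨h1, h2, h3⟩
          exact hc ⟨h1, by rw [h2]; exact h3⟩
      have hvhs : ∑ z ∈ (vh G (cn G U) R m θ).filter (fun z => d ≤ dg G (cn G U) z),
          PiW s q n (dg G (cn G U) z) =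
          ∑ z ∈ cn G U, if req (insert z U) z then π (insert z U) else 0 := by
        unfold vh
        rw [filter_filter, sum_filter]
        refine sum_congr rfl fun z hz => ?_
        rw [hdge U hU z hz]
        have hTz : Tb (insert z U) z := by
          simp only [hTdef]
          rw [(Pay_ins hU hz).2.2]
          exact hT
        by_cases hc : ((cn G (insert z U)).card : ℝ) ≤ θ * R * m ∧ d ≤ (cn G (insert z U)).card
        · rw [if_pos hc, if_pos ⟨hTz, hc.2, hc.1⟩]
        · rw [if_neg hc, if_neg]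
          rintro ⟨-, h1, h2⟩
          exact hc ⟨h2, h1⟩
      have hdiff : ∑ z ∈ (vh G (cn G U) R m θ).filter (fun z => d ≤ dg G (cn G U) z),
          PiW s q n (dg G (cn G U) z) -
          ∑ z ∈ cn G U, ∑ x ∈ insert z U, amt (insert z U) z x =
          ∑ z ∈ cn G U, if req (insert z U) z ∧ ch (insert z U) z = z then π (insert z U)
            else 0 := by
        rw [hgot, hvhs, ← sum_sub_distrib]
        refine sum_congr rfl fun z hz => ?_
        by_cases h1 : req (insert z U) z
        · by_cases h2 : ch (insert z U) z = z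
          · rw [if_pos h1, if_neg (fun h => h.2 h2), if_pos ⟨h1, h2⟩, sub_zero]
          · rw [if_pos h1, if_pos ⟨h1, h2⟩, if_neg (fun h => h2 h.2), sub_self]
        · rw [if_neg h1, if_neg (fun h => h1 h.1), if_neg (fun h => h1 h.1), sub_self]
      have hkeep : ∀ z ∈ cn G U, req (insert z U) z → ch (insert z U) z = z →
          Slack G (cn G U) R m θ κ₀ ∧ π (insert z U) ≤ M := by
        intro z hz hreq hch
        obtain ⟨hTall, hSall⟩ := ch_eq _ _ hch
        have hins := Pay_ins hU hz
        have hall : ∀ x ∈ insert z U, Tb (insert z U) x := by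
          intro x hx
          by_cases hxz : x = z
          · rw [hxz]
            exact hreq.1
          · exact hTall x hx hxz
        refine ⟨?_, hbd _ hins.2.1 hreq.2.2 hall⟩
        have := slack_of (G := G) hu hκu hκd hslackm hdeg hins.2.1 (mem_insert_self z U)
          hreq.2.1 hreq.2.2 (fun x hx hxz => hSall x hx hxz)
        rwa [hins.2.2] at this
      have hgive : ∀ x ∈ cn G U, ∀ z ∈ insert x U, req (insert x U) z →
          ch (insert x U) z = x → x ≠ z → Slack G (cn G U) R m θ κ₀ ∧ π (insert x U) ≤ M := by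
        intro x hx z hz hreq hch hxz
        have hins := Pay_ins hU hx
        have hTx : Tb (insert x U) x := by
          simp only [hTdef]
          rw [hins.2.2]
          exact hT
        rcases ch_ne _ _ (by rw [hch]; exact hxz) with h | ⟨h1, h2⟩
        · rw [hch] at h
          exact absurd hTx h
        · rw [hch] at h2
          refine ⟨?_, hbd _ hins.2.1 hreq.2.2 ?_⟩
          · simp only [hSdef] at h2
            rwa [hins.2.2] at h2
          · intro y hy
            by_cases hyz : y = z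
            · rw [hyz]
              exact hreq.1
            · exact h1 y hy hyz
      have hvheq : ∀ c : ℝ, 0 ≤ c → ∑ x ∈ cn G U,
          (if (dg G (cn G U) x : ℝ) ≤ θ * R * m then c else 0) ≤ C' * c := by
        intro c hc
        have : ∑ x ∈ cn G U, (if (dg G (cn G U) x : ℝ) ≤ θ * R * m then c else 0) =
            ((vh G (cn G U) R m θ).card : ℝ) * c := by
          unfold vh
          rw [← sum_filter, sum_const, nsmul_eq_mul]
        rw [this]
        exact mul_le_mul_of_nonneg_right hvhcard hc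
      have h1 : ∑ z ∈ cn G U, (if req (insert z U) z ∧ ch (insert z U) z = z then
          π (insert z U) else 0) ≤ if Slack G (cn G U) R m θ κ₀ then C' * M else 0 := by
        split_ifs with hS
        · refine le_trans (sum_le_sum fun z hz => ?_) (hvheq M hM0)
          rw [hdge U hU z hz]
          split_ifs with h2 h3 h3
          · exact (hkeep z hz h2.1 h2.2).2
          · exact absurd h2.1.2.2 h3
          · exact hM0
          · exact le_rfl
        · refine le_of_eq (sum_eq_zero fun z hz => ?_)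
          rw [if_neg]
          rintro ⟨h2, h3⟩
          exact hS (hkeep z hz h2 h3).1
      have h2 : ∑ x ∈ cn G U, ∑ z ∈ insert x U, amt (insert x U) z x ≤
          if Slack G (cn G U) R m θ κ₀ then u * (C' * M) else 0 := by
        split_ifs with hS
        · have hstep : ∑ x ∈ cn G U, ∑ z ∈ insert x U, amt (insert x U) z x ≤
              ∑ x ∈ cn G U, (if (dg G (cn G U) x : ℝ) ≤ θ * R * m then (u : ℝ) * M else 0) := by
            refine sum_le_sum fun x hx => ?_
            have hxU := (Pay_ins hU hx).1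
            rw [sum_insert hxU]
            have h0 : amt (insert x U) x x = 0 := by
              simp only [amt]
              rw [if_neg]
              rintro ⟨-, -, h⟩
              exact h rfl
            rw [h0, zero_add, hdge U hU x hx]
            have hcard : (U.card : ℝ) = u := by
              rw [(mem_clq.1 hU).1.2]
            split_ifs with h3
            · rw [← hcard, ← nsmul_eq_mul]
              refine sum_le_card_nsmul _ _ _ fun z hz => ?_
              simp only [amt]
              split_ifs with h4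
              · exact (hgive x hx z (mem_insert_of_mem hz) h4.1 h4.2.1 h4.2.2).2
              · exact hM0
            · refine le_of_eq (sum_eq_zero fun z hz => ?_)
              simp only [amt]
              rw [if_neg]
              rintro ⟨h4, -⟩
              exact h3 h4.2.2
          refine le_trans hstep (le_trans (hvheq _ (by positivity)) (le_of_eq ?_))
          ring
        · refine le_of_eq (sum_eq_zero fun x hx => sum_eq_zero fun z hz => ?_)
          simp only [amt]
          rw [if_neg]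
          rintro ⟨h3, h4, h5⟩
          exact hS (hgive x hx z hz h3 h4 h5).1
      have h3 : ∑ z ∈ (vh G (cn G U) R m θ).filter (fun z => d ≤ dg G (cn G U) z),
          PiW s q n (dg G (cn G U) z) +
          ∑ x ∈ cn G U, ∑ z ∈ insert x U, amt (insert x U) z x -
          ∑ z ∈ cn G U, ∑ x ∈ insert z U, amt (insert z U) z x ≤
          (if Slack G (cn G U) R m θ κ₀ then C' * M else 0) +
            (if Slack G (cn G U) R m θ κ₀ then u * (C' * M) else 0) := by
        linarith only [hdiff, h1, h2]
      refine le_trans h3 ?_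
      split_ifs
      · refine le_trans (le_of_eq ?_) hkey
        ring
      · norm_num

end H57GH
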