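import Pool.Agent.H57.GH.Defs1
import Pool.Agent.H57.GH.Light
import Pool.Agent.H57.GH.Pay

/-!
Transfers between the vertices, case `u = 1`.
-/

namespace H57GH

open Finset H57LC H57LT

set_option linter.unusedSectionVars false

lemma Pay1_mem_cn {V : Type*} [Fintype V] [DecidableEq V] {G : SimpleGraph V}
    [DecidableRel G.Adj] {x z : V} : z ∈ cn G {x} ↔ G.Adj x z := by
  rw [mem_cn]
  simp

lemma Pay1_dg_symm {V : Type*} [Fintype V] [DecidableEq V] {G : SimpleGraph V}
    [DecidableRel G.Adj] (x z : V) : dg G (cn G {x}) z = dg G (cn G {z}) x := by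
  unfold dg
  congr 1
  ext y
  rw [mem_filter, mem_filter, Pay1_mem_cn, Pay1_mem_cn]
  exact and_comm

lemma Pay1_clq {V : Type*} [Fintype V] [DecidableEq V] {G : SimpleGraph V}
    [DecidableRel G.Adj] (x : V) : ({x} : Finset V) ∈ clq G univ 1 := by
  rw [mem_clq]
  refine ⟨⟨subset_univ _, card_singleton x⟩, ?_⟩
  intro a ha b hb hab
  rw [mem_singleton] at ha hb
  exact absurd (ha.trans hb.symm) hab

lemma Pay1_sum {V : Type*} [Fintype V] [DecidableEq V] {G : SimpleGraph V}
    [DecidableRel G.Adj] (F : Finset V → ℝ) :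
    ∑ U ∈ clq G univ 1, F U = ∑ x : V, F {x} := by
  have h : clq G univ 1 = (univ : Finset V).map ⟨_, singleton_injective⟩ := by
    unfold clq
    rw [powersetCard_one, filter_true_of_mem]
    intro U hU
    obtain ⟨x, -, rfl⟩ := mem_map.1 hU
    exact (mem_clq.1 (Pay1_clq (G := G) x)).2
  rw [h, sum_map]
  rfl

lemma Pay1_mem_vh {V : Type*} [DecidableEq V] {G : SimpleGraph V} [DecidableRel G.Adj]
    {S : Finset V} {R m : ℕ} {θ : ℝ} {y : V} :
    y ∈ vh G S R m θ ↔ y ∈ S ∧ (dg G S y : ℝ) ≤ θ * R * m := by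
  unfold vh
  rw [mem_filter]

lemma Pay1_mem_nl {V : Type*} [DecidableEq V] {G : SimpleGraph V} [DecidableRel G.Adj]
    {S : Finset V} {R m : ℕ} {y : V} :
    y ∈ nl G S R m ↔ y ∈ S ∧ (dg G S y : ℝ) < ((R : ℝ) - 5 / 4) * m := by
  unfold nl
  rw [mem_filter]

/-- common neighbours of `x` and `z` are not light for both -/
theorem dg_le_nl {R r m : ℕ} {θ : ℝ} (hθ : θ * R < (R : ℝ) - 5 / 4) (hm1 : 1 ≤ m)
    (hm : (R : ℝ) * m + r + θ * R * m < 2 * ((R : ℝ) - 5 / 4) * m) {V : Type*} [Fintype V]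
    [DecidableEq V] {G : SimpleGraph V} [DecidableRel G.Adj]
    (hdeg : ∀ U ∈ clq G univ 1, (cn G U).card ≤ R * m + r) {x z : V}
    (hz : z ∈ vh G (cn G {x}) R m θ) :
    dg G (cn G {x}) z + 2 ≤ (nl G (cn G {x}) R m).card + (nl G (cn G {z}) R m).card := by
  obtain ⟨hzx, hzd⟩ := Pay1_mem_vh.1 hz
  have hadj : G.Adj x z := Pay1_mem_cn.1 hzx
  have hne : x ≠ z := hadj.ne
  obtain ⟨hznot, hW, hWz⟩ := Pay_ins (G := G) (Pay1_clq x) hzx
  have hWx : (insert z ({x} : Finset V)).erase x = {z} := by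
    ext y
    simp only [mem_erase, mem_insert, mem_singleton]
    constructor
    · rintro ⟨h1, h2 | h2⟩
      · exact h2
      · exact absurd h2 h1
    · intro h
      subst h
      exact ⟨hne.symm, Or.inl rfl⟩
  have hmemz : z ∈ insert z ({x} : Finset V) := mem_insert_self _ _
  have hmemx : x ∈ insert z ({x} : Finset V) := mem_insert_of_mem (mem_singleton_self _)
  have hcard : dg G (cn G {x}) z = (cn G (insert z {x})).card := by
    have h := dg_erase (G := G) (W := insert z {x}) (x := z) hmemz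
    rw [hWz] at h
    exact h
  have hm0 : (0 : ℝ) < m := by exact_mod_cast hm1
  have hlow : θ * R * m < ((R : ℝ) - 5 / 4) * m := mul_lt_mul_of_pos_right hθ hm0
  have hznl : z ∈ nl G (cn G {x}) R m := Pay1_mem_nl.2 ⟨hzx, lt_of_le_of_lt hzd hlow⟩
  have hxnl : x ∈ nl G (cn G {z}) R m := by
    refine Pay1_mem_nl.2 ⟨Pay1_mem_cn.2 hadj.symm, ?_⟩
    rw [← Pay1_dg_symm x z]
    exact lt_of_le_of_lt hzd hlow
  have hsub : cn G (insert z {x}) ⊆
      (nl G (cn G {x}) R m).erase z ∪ (nl G (cn G {z}) R m).erase x := by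
    intro y hy
    have hyz : y ≠ z := fun h => Light_notMem_cn hmemz (h ▸ hy)
    have hyx : y ≠ x := fun h => Light_notMem_cn hmemx (h ▸ hy)
    have h3 := light_once hdeg hW hmemx hmemz hne hy
    rw [hWx, hWz] at h3
    have h4 : (dg G (cn G {z}) y : ℝ) + dg G (cn G {x}) y ≤
        (R : ℝ) * m + r + (cn G (insert z {x})).card := by exact_mod_cast h3
    rw [← hcard] at h4
    rw [mem_union, mem_erase, mem_erase, Pay1_mem_nl, Pay1_mem_nl]
    by_contra hcon
    push Not at hcon
    have hyx' : y ∈ cn G {x} := by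
      have := Light_mem_cn_erase (x := z) hy
      rwa [hWz] at this
    have hyz' : y ∈ cn G {z} := by
      have := Light_mem_cn_erase (x := x) hy
      rwa [hWx] at this
    have a1 := hcon.1 hyz hyx'
    have a2 := hcon.2 hyx hyz'
    linarith
  have h1 := (card_le_card hsub).trans (card_union_le _ _)
  rw [card_erase_of_mem hznl, card_erase_of_mem hxnl, ← hcard] at h1
  have h2 : 1 ≤ (nl G (cn G {x}) R m).card := card_pos.2 ⟨z, hznl⟩
  have h3 : 1 ≤ (nl G (cn G {z}) R m).card := card_pos.2 ⟨x, hxnl⟩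
  omega

theorem transfer1 (R r s : ℕ) (hR : 8 ≤ R) (hr : r ≤ R) (CB θ : ℝ) (hCB : 0 < CB) (hθ : 0 < θ)
    (hθ1 : θ ≤ 1 / 4) : ∃ m₀ : ℕ, ∀ m : ℕ, m₀ ≤ m →
      ∀ (V : Type) [Fintype V] [DecidableEq V] (G : SimpleGraph V) [DecidableRel G.Adj],
        (∀ U ∈ clq G univ 1, (cn G U).card ≤ R * m + r) →
        ∃ giv got : Finset V → ℝ,
          ∑ U ∈ clq G univ 1, giv U = ∑ U ∈ clq G univ 1, got U ∧
          (∀ U ∈ clq G univ 1, ¬ TyB G (cn G U) R m CB → got U = 0 ∧
            giv U ≤ ∑ x ∈ vh G (cn G U) R m θ,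
              PiW s 0 ((R : ℝ) * m + r) (dg G (cn G U) x)) ∧
          (∀ U ∈ clq G univ 1, TyB G (cn G U) R m CB → ∃ Γ : ℝ, 0 ≤ Γ ∧
            Γ ≤ 8 * s * ((nl G (cn G U) R m).card : ℝ) ^ 2 * ((R : ℝ) * m + r) ^ (s - 2) ∧
            (¬ Slack G (cn G U) R m θ 1 → Γ = 0) ∧
            ∑ z ∈ (vh G (cn G U) R m θ).filter (fun z => 1 ≤ dg G (cn G U) z),
              PiW s 0 ((R : ℝ) * m + r) (dg G (cn G U) z) + giv U - got U ≤ Γ) := by
  classical
  refine ⟨4, ?_⟩
  intro m hm4 V _ _ G _ hdeg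
  have hm4' : (4 : ℝ) ≤ m := by exact_mod_cast hm4
  have hR' : (8 : ℝ) ≤ R := by exact_mod_cast hR
  have hr' : (r : ℝ) ≤ R := by exact_mod_cast hr
  have hm0 : (0 : ℝ) < m := by linarith
  have hR0 : (0 : ℝ) < R := by linarith
  have hrm : (r : ℝ) ≤ R * m / 4 := by nlinarith
  have hθR : θ * R * m ≤ R * m / 4 := by
    have : θ * (R * m) ≤ 1 / 4 * (R * m) := by gcongr
    linarith
  have hRm8 : 8 * (m : ℝ) ≤ R * m := by nlinarith
  have hslackm : (R : ℝ) * m + r + θ * R * m < 2 * ((R : ℝ) - 5 / 4) * m := by nlinarith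
  have hlow : θ * R * m < ((R : ℝ) - 5 / 4) * m := by nlinarith
  have hθR1 : θ * R < (R : ℝ) - 5 / 4 := by nlinarith
  set n : ℝ := (R : ℝ) * m + r with hn
  have hn0 : 0 ≤ n := by positivity
  let Y : V → ℕ := fun v => (nl G (cn G {v}) R m).card
  let T : V → Prop := fun v => TyB G (cn G {v}) R m CB
  let D : V → V → ℕ := fun v z => dg G (cn G {v}) z
  have hDs : ∀ v z, D v z = D z v := fun v z => Pay1_dg_symm v z
  -- `z` pays to `v`
  let P : V → V → Prop := fun v z => T v ∧ 1 ≤ D v z ∧ (D v z : ℝ) ≤ θ * R * m ∧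
    (¬ T z ∨ Y v < Y z)
  let π : V → V → ℝ := fun v z => PiW s 0 n (D v z)
  have hπ0 : ∀ v z, 0 ≤ π v z := fun v z => PiW_nonneg s 0 hn0 (Nat.cast_nonneg _)
  have hπs : ∀ v z, π v z = π z v := fun v z => by
    simp only [π]
    rw [hDs]
  have hvhsub : ∀ v, vh G (cn G {v}) R m θ ⊆ nl G (cn G {v}) R m := by
    intro v y hy
    obtain ⟨h1, h2⟩ := Pay1_mem_vh.1 hy
    exact Pay1_mem_nl.2 ⟨h1, lt_of_le_of_lt h2 hlow⟩
  refine ⟨fun U => ∑ v ∈ U, ∑ z ∈ cn G U, (if P z v then π v z else 0),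
    fun U => ∑ v ∈ U, ∑ z ∈ cn G U, (if P v z then π v z else 0), ?_, ?_, ?_⟩
  · rw [Pay1_sum, Pay1_sum]
    simp only [sum_singleton]
    have hcn : ∀ (F : V → V → ℝ) (v : V), ∑ z ∈ cn G {v}, F v z =
        ∑ z : V, if G.Adj v z then F v z else 0 := by
      intro F v
      rw [← sum_filter]
      refine sum_congr ?_ fun _ _ => rfl
      ext z
      rw [Pay1_mem_cn, mem_filter]
      simp
    rw [sum_congr rfl fun v _ => hcn (fun v z => if P z v then π v z else 0) v,
      sum_congr rfl fun v _ => hcn (fun v z => if P v z then π v z else 0) v, sum_comm]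
    refine sum_congr rfl fun z _ => sum_congr rfl fun v _ => ?_
    simp only [G.adj_comm v z, hπs v z]
  · intro U hU hnT
    obtain ⟨v, rfl⟩ := card_eq_one.1 (mem_clq.1 hU).1.2
    simp only [sum_singleton]
    refine ⟨?_, ?_⟩
    · refine sum_eq_zero fun z hz => ?_
      rw [if_neg]
      exact fun h => hnT h.1
    · have hvh : ∑ x ∈ vh G (cn G {v}) R m θ, PiW s 0 n (dg G (cn G {v}) x) =
          ∑ x ∈ cn G {v}, if (dg G (cn G {v}) x : ℝ) ≤ θ * R * m then
            PiW s 0 n (dg G (cn G {v}) x) else 0 := by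
        unfold vh
        rw [sum_filter]
      rw [hvh]
      refine sum_le_sum fun z hz => ?_
      split_ifs with h1 h2 h2
      · exact le_rfl
      · exfalso
        apply h2
        have h3 := h1.2.2.1
        rw [hDs z v] at h3
        exact h3
      · exact hπ0 v z
      · exact le_rfl
  · intro U hU hT
    obtain ⟨v, rfl⟩ := card_eq_one.1 (mem_clq.1 hU).1.2
    simp only [sum_singleton]
    have hTv : T v := hT
    set Yv : ℝ := (Y v : ℝ) with hYv
    -- the pairs which are not paid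
    have hkeep : ∀ z ∈ vh G (cn G {v}) R m θ, 1 ≤ D v z → ¬ P v z →
        D v z + 2 ≤ 2 * Y v := by
      intro z hz hD hP
      have h1 := dg_le_nl hθR1 (by omega : 1 ≤ m) hslackm hdeg hz
      have h2 : ¬ (¬ T z ∨ Y v < Y z) := fun h => hP ⟨hTv, hD, (Pay1_mem_vh.1 hz).2, h⟩
      push Not at h2
      have h3 : Y z ≤ Y v := h2.2
      simp only [Y, D] at h3 ⊢
      omega
    have hnet : ∑ z ∈ (vh G (cn G {v}) R m θ).filter (fun z => 1 ≤ dg G (cn G {v}) z),
        PiW s 0 n (dg G (cn G {v}) z) + ∑ z ∈ cn G {v}, (if P z v then π v z else 0) -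
        ∑ z ∈ cn G {v}, (if P v z then π v z else 0) ≤
        ∑ z ∈ vh G (cn G {v}) R m θ, if 1 ≤ D v z ∧ ¬ P v z then 2 * π v z else 0 := by
      have e1 : ∑ z ∈ (vh G (cn G {v}) R m θ).filter (fun z => 1 ≤ dg G (cn G {v}) z),
          PiW s 0 n (dg G (cn G {v}) z) =
          ∑ z ∈ vh G (cn G {v}) R m θ, if 1 ≤ D v z then π v z else 0 := by
        rw [sum_filter]
      have hsubvh : vh G (cn G {v}) R m θ ⊆ cn G {v} := fun y hy => (Pay1_mem_vh.1 hy).1
      have e2 : ∑ z ∈ cn G {v}, (if P z v then π v z else 0) =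
          ∑ z ∈ vh G (cn G {v}) R m θ, if P z v then π v z else 0 := by
        refine (sum_subset hsubvh fun z hz hnz => ?_).symm
        rw [if_neg]
        intro h
        apply hnz
        refine Pay1_mem_vh.2 ⟨hz, ?_⟩
        have h3 := h.2.2.1
        rw [hDs z v] at h3
        exact h3
      have e3 : ∑ z ∈ cn G {v}, (if P v z then π v z else 0) =
          ∑ z ∈ vh G (cn G {v}) R m θ, if P v z then π v z else 0 := by
        refine (sum_subset hsubvh fun z hz hnz => ?_).symm
        rw [if_neg]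
        intro h
        exact hnz (Pay1_mem_vh.2 ⟨hz, h.2.2.1⟩)
      rw [e1, e2, e3, ← sum_add_distrib, ← sum_sub_distrib]
      refine sum_le_sum fun z hz => ?_
      have hπ := hπ0 v z
      by_cases hD : 1 ≤ D v z
      · by_cases hP : P v z
        · have hP' : ¬ P z v := by
            rintro ⟨h1, -, -, h4⟩
            rcases h4 with h4 | h4
            · exact h4 hTv
            · rcases hP.2.2.2 with h5 | h5
              · exact h5 h1
              · omega
          rw [if_pos hD, if_neg hP', if_pos hP, if_neg (fun h => h.2 hP)]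
          linarith
        · rw [if_pos hD, if_neg hP, if_pos (⟨hD, hP⟩ : 1 ≤ D v z ∧ ¬ P v z)]
          split_ifs <;> linarith
      · have hP : ¬ P v z := fun h => hD h.2.1
        have hP' : ¬ P z v := fun h => hD (by rw [hDs v z]; exact h.2.1)
        rw [if_neg hD, if_neg hP, if_neg hP', if_neg (fun h => hD h.1)]
        linarith
    refine ⟨if Slack G (cn G {v}) R m θ 1 then 8 * s * Yv ^ 2 * n ^ (s - 2) else 0, ?_, ?_, ?_,
      hnet.trans ?_⟩
    · split_ifs
      · positivity
      · exact le_rfl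
    · split_ifs
      · exact le_rfl
      · positivity
    · intro h
      rw [if_neg h]
    · split_ifs with hS
      · have hstep : ∀ z ∈ vh G (cn G {v}) R m θ,
            (if 1 ≤ D v z ∧ ¬ P v z then 2 * π v z else 0) ≤ 8 * s * Yv * n ^ (s - 2) := by
          intro z hz
          split_ifs with h1
          · have h2 := hkeep z hz h1.1 h1.2
            have h3 : (D v z : ℝ) ≤ 2 * Yv := by
              have : D v z ≤ 2 * Y v := by omega
              rw [hYv]
              exact_mod_cast this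
            have h4 : π v z ≤ PiW s 0 n (2 * Yv) := PiW_mono s 0 hn0 (Nat.cast_nonneg _) h3
            have h5 : PiW s 0 n (2 * Yv) = 4 * s * Yv * n ^ (s - 2) := by
              unfold PiW
              rw [Nat.sub_zero]
              ring
            rw [h5] at h4
            linarith
          · positivity
        refine (sum_le_card_nsmul _ _ _ hstep).trans ?_
        rw [nsmul_eq_mul]
        have h6 : ((vh G (cn G {v}) R m θ).card : ℝ) ≤ Yv := by
          rw [hYv]
          exact_mod_cast card_le_card (hvhsub v)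
        have h7 : (0 : ℝ) ≤ 8 * s * Yv * n ^ (s - 2) := by positivity
        refine (mul_le_mul_of_nonneg_right h6 h7).trans (le_of_eq ?_)
        ring
      · refine le_of_eq (sum_eq_zero fun z hz => ?_)
        rw [if_neg]
        rintro ⟨h1, h2⟩
        have h3 := hkeep z hz h1 h2
        have h4 : nl G (cn G {v}) R m ⊆ vh G (cn G {v}) R m θ := by
          intro y hy
          obtain ⟨h5, h6⟩ := Pay1_mem_nl.1 hy
          refine Pay1_mem_vh.2 ⟨h5, ?_⟩
          by_contra hcon
          push Not at hcon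
          exact hS (Or.inl ⟨y, h5, hcon, h6⟩)
        have h5 : (vh G (cn G {v}) R m θ).card ≤ 1 := by
          by_contra hcon
          push Not at hcon
          exact hS (Or.inr hcon)
        have h6 : Y v ≤ 1 := (card_le_card h4).trans h5
        omega

end H57GH
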