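import Pool.Agent.H57.GH.Defs

/-!
Copies of `J` through a vertex.
-/

namespace H57GH

open Finset H57LC H57LT

set_option linter.unusedSectionVars false

variable {V : Type*} [DecidableEq V] {G : SimpleGraph V} [DecidableRel G.Adj]
  {ι : Type*} [Fintype ι] [DecidableEq ι] (J : SimpleGraph ι) [DecidableRel J.Adj]

lemma Thru_card_pi (i : ι) (N : Finset ι) (hi : i ∉ N) (z : V) (A S : Finset V) :
    (Fintype.piFinset fun j : ι => if j = i then {z} else if j ∈ N then A else S).card =
      A.card ^ N.card * S.card ^ (Fintype.card ι - 1 - N.card) := by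
  classical
  rw [Fintype.card_piFinset, ← Finset.prod_mul_prod_compl N]
  congr 1
  · rw [← Finset.prod_const]
    refine Finset.prod_congr rfl fun j hj => ?_
    have hji : j ≠ i := fun h => hi (h ▸ hj)
    rw [if_neg hji, if_pos hj]
  · have hic : i ∈ Nᶜ := by simpa using hi
    rw [← Finset.mul_prod_erase _ _ hic, if_pos rfl, Finset.card_singleton, one_mul]
    have h1 : (Nᶜ.erase i).card = Fintype.card ι - 1 - N.card := by
      rw [Finset.card_erase_of_mem hic, Finset.card_compl]
      omega
    rw [← h1, ← Finset.prod_const]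
    refine Finset.prod_congr rfl fun j hj => ?_
    rw [Finset.mem_erase, Finset.mem_compl] at hj
    rw [if_neg hj.1, if_neg hj.2]

lemma Thru_mem_emb {S : Finset V} {φ : ι → V} : φ ∈ emb J G S ↔
    (∀ i, φ i ∈ S) ∧ Function.Injective φ ∧ ∀ i j, J.Adj i j → G.Adj (φ i) (φ j) := by
  unfold emb
  rw [Finset.mem_filter, Fintype.mem_piFinset]

lemma Thru_le_sum (S : Finset V) (z : V) :
    ((emb J G S).filter fun φ => ∃ i, φ i = z).card ≤
      ∑ i : ι, ((emb J G S).filter fun φ => φ i = z).card := by
  classical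
  refine le_trans (Finset.card_le_card ?_) Finset.card_biUnion_le
  intro φ hφ
  rw [Finset.mem_filter] at hφ
  obtain ⟨h1, i, hi⟩ := hφ
  rw [Finset.mem_biUnion]
  exact ⟨i, Finset.mem_univ i, Finset.mem_filter.2 ⟨h1, hi⟩⟩

/-- if every vertex of `J` has at least `1 + q` neighbours: copies through `z` -/
theorem card_thru {q : ℕ} (hq : ∀ v, 1 + q ≤ dg J univ v) (S : Finset V) (z : V) :
    ((emb J G S).filter fun φ => ∃ i, φ i = z).card ≤
      Fintype.card ι * dg G S z ^ (1 + q) * S.card ^ (Fintype.card ι - 2 - q) := by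
  classical
  refine le_trans (Thru_le_sum J S z) ?_
  have key : ∀ i : ι, ((emb J G S).filter fun φ => φ i = z).card ≤
      dg G S z ^ (1 + q) * S.card ^ (Fintype.card ι - 2 - q) := by
    intro i
    obtain ⟨N, hN, hNc⟩ := Finset.exists_subset_card_eq (hq i)
    have hi : i ∉ N := fun h => by
      have := hN h
      rw [Finset.mem_filter] at this
      exact J.loopless.irrefl i this.2
    have hcard := Thru_card_pi i N hi z (S.filter fun y => G.Adj z y) S
    rw [hNc] at hcard
    have h2 : Fintype.card ι - 1 - (1 + q) = Fintype.card ι - 2 - q := by omega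
    rw [h2] at hcard
    unfold dg
    rw [← hcard]
    refine Finset.card_le_card ?_
    intro φ hφ
    rw [Finset.mem_filter, Thru_mem_emb] at hφ
    obtain ⟨⟨hS, -, hadj⟩, hz⟩ := hφ
    rw [Fintype.mem_piFinset]
    intro j
    by_cases hj : j = i
    · rw [if_pos hj, hj, hz]
      exact Finset.mem_singleton_self z
    · rw [if_neg hj]
      by_cases hjN : j ∈ N
      · rw [if_pos hjN, Finset.mem_filter]
        have := hN hjN
        rw [Finset.mem_filter] at this
        refine ⟨hS j, ?_⟩
        rw [← hz]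
        exact hadj i j this.2
      · rw [if_neg hjN]
        exact hS j
  calc ∑ i : ι, ((emb J G S).filter fun φ => φ i = z).card
      ≤ ∑ _i : ι, dg G S z ^ (1 + q) * S.card ^ (Fintype.card ι - 2 - q) :=
        Finset.sum_le_sum fun i _ => key i
    _ = Fintype.card ι * dg G S z ^ (1 + q) * S.card ^ (Fintype.card ι - 2 - q) := by
        rw [Finset.sum_const, Finset.card_univ, smul_eq_mul, mul_assoc]

/-- no copies through `z` if the degree is too small -/
theorem card_thru_zero {d : ℕ} (hd : ∀ v, d ≤ dg J univ v) {S : Finset V} {z : V}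
    (hz : dg G S z < d) : ((emb J G S).filter fun φ => ∃ i, φ i = z).card = 0 := by
  classical
  rw [Finset.card_eq_zero, Finset.filter_eq_empty_iff]
  rintro φ hφ ⟨i, hi⟩
  rw [Thru_mem_emb] at hφ
  obtain ⟨hS, hinj, hadj⟩ := hφ
  have h1 : dg J univ i ≤ dg G S z := by
    unfold dg
    refine Finset.card_le_card_of_injOn φ ?_ hinj.injOn
    intro j hj
    have hj' : J.Adj i j := by simpa using hj
    have h2 : φ j ∈ S.filter fun y => G.Adj z y := by
      rw [Finset.mem_filter]
      refine ⟨hS j, ?_⟩
      rw [← hi]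
      exact hadj i j hj'
    exact h2
  have h2 := hd i
  omega

/-- removing a set of vertices -/
theorem emb_card_le (S X : Finset V) :
    (emb J G S).card ≤ (emb J G (S \ X)).card +
      ∑ z ∈ S ∩ X, ((emb J G S).filter fun φ => ∃ i, φ i = z).card := by
  classical
  have h1 : emb J G S ⊆ emb J G (S \ X) ∪
      (S ∩ X).biUnion fun z => (emb J G S).filter fun φ => ∃ i, φ i = z := by
    intro φ hφ
    have hφ' := hφ
    rw [Thru_mem_emb] at hφ'
    obtain ⟨hS, hinj, hadj⟩ := hφ'
    rw [Finset.mem_union]
    by_cases h : ∃ i, φ i ∈ X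
    · obtain ⟨i, hi⟩ := h
      right
      rw [Finset.mem_biUnion]
      exact ⟨φ i, Finset.mem_inter.2 ⟨hS i, hi⟩, Finset.mem_filter.2 ⟨hφ, i, rfl⟩⟩
    · left
      push Not at h
      rw [Thru_mem_emb]
      exact ⟨fun i => Finset.mem_sdiff.2 ⟨hS i, h i⟩, hinj, hadj⟩
  refine le_trans (Finset.card_le_card h1) ?_
  refine le_trans (Finset.card_union_le _ _) ?_
  exact Nat.add_le_add_left Finset.card_biUnion_le _

/-- copies through two vertices -/
theorem card_thru_two (hcs : 2 ≤ Fintype.card ι) (S : Finset V) {y z : V} (hyz : y ≠ z) :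
    ((emb J G S).filter fun φ => (∃ i, φ i = y) ∧ ∃ i, φ i = z).card ≤
      Fintype.card ι ^ 2 * S.card ^ (Fintype.card ι - 2) := by
  classical
  have h1 : ((emb J G S).filter fun φ => (∃ i, φ i = y) ∧ ∃ i, φ i = z) ⊆
      (univ : Finset (ι × ι)).biUnion fun p =>
        (emb J G S).filter fun φ => φ p.1 = y ∧ φ p.2 = z := by
    intro φ hφ
    rw [Finset.mem_filter] at hφ
    obtain ⟨h, ⟨i, hi⟩, j, hj⟩ := hφ
    rw [Finset.mem_biUnion]
    exact ⟨(i, j), Finset.mem_univ _, Finset.mem_filter.2 ⟨h, hi, hj⟩⟩
  have key : ∀ p : ι × ι, ((emb J G S).filter fun φ => φ p.1 = y ∧ φ p.2 = z).card ≤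
      S.card ^ (Fintype.card ι - 2) := by
    rintro ⟨i, j⟩
    by_cases hij : i = j
    · have : ((emb J G S).filter fun φ => φ i = y ∧ φ j = z) = ∅ := by
        rw [Finset.filter_eq_empty_iff]
        rintro φ - ⟨h2, h3⟩
        rw [hij] at h2
        exact hyz (h2.symm.trans h3)
      rw [this, Finset.card_empty]
      exact Nat.zero_le _
    · have hcard := Thru_card_pi i {j} (by simpa using hij) y {z} S
      rw [Finset.card_singleton, Finset.card_singleton, one_pow, one_mul] at hcard
      have h2 : Fintype.card ι - 1 - 1 = Fintype.card ι - 2 := by omega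
      rw [h2] at hcard
      rw [← hcard]
      refine Finset.card_le_card ?_
      intro φ hφ
      rw [Finset.mem_filter, Thru_mem_emb] at hφ
      obtain ⟨⟨hS, -, -⟩, hy, hz⟩ := hφ
      rw [Fintype.mem_piFinset]
      intro k
      by_cases hk : k = i
      · rw [if_pos hk, hk, Finset.mem_singleton]
        exact hy
      · rw [if_neg hk]
        by_cases hkj : k ∈ ({j} : Finset ι)
        · rw [if_pos hkj]
          rw [Finset.mem_singleton] at hkj
          rw [hkj, Finset.mem_singleton]
          exact hz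
        · rw [if_neg hkj]
          exact hS k
  refine le_trans (Finset.card_le_card h1) ?_
  refine le_trans Finset.card_biUnion_le ?_
  calc ∑ p : ι × ι, ((emb J G S).filter fun φ => φ p.1 = y ∧ φ p.2 = z).card
      ≤ ∑ _p : ι × ι, S.card ^ (Fintype.card ι - 2) := Finset.sum_le_sum fun p _ => key p
    _ = Fintype.card ι ^ 2 * S.card ^ (Fintype.card ι - 2) := by
        rw [Finset.sum_const, Finset.card_univ, smul_eq_mul, Fintype.card_prod, sq]

/-- copies through one vertex -/
theorem card_thru_one (S : Finset V) (z : V) :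
    ((emb J G S).filter fun φ => ∃ i, φ i = z).card ≤
      Fintype.card ι * S.card ^ (Fintype.card ι - 1) := by
  classical
  refine le_trans (Thru_le_sum J S z) ?_
  have key : ∀ i : ι, ((emb J G S).filter fun φ => φ i = z).card ≤
      S.card ^ (Fintype.card ι - 1) := by
    intro i
    have hcard := Thru_card_pi i ∅ (by simp) z S S
    rw [Finset.card_empty, pow_zero, one_mul, Nat.sub_zero] at hcard
    rw [← hcard]
    refine Finset.card_le_card ?_
    intro φ hφ
    rw [Finset.mem_filter, Thru_mem_emb] at hφ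
    obtain ⟨⟨hS, -, -⟩, hz⟩ := hφ
    rw [Fintype.mem_piFinset]
    intro k
    by_cases hk : k = i
    · rw [if_pos hk, hk, Finset.mem_singleton]
      exact hz
    · rw [if_neg hk, if_neg (Finset.notMem_empty k)]
      exact hS k
  calc ∑ i : ι, ((emb J G S).filter fun φ => φ i = z).card
      ≤ ∑ _i : ι, S.card ^ (Fintype.card ι - 1) := Finset.sum_le_sum fun i _ => key i
    _ = Fintype.card ι * S.card ^ (Fintype.card ι - 1) := by
        rw [Finset.sum_const, Finset.card_univ, smul_eq_mul]

theorem emb_le_pow (S : Finset V) : (emb J G S).card ≤ S.card ^ Fintype.card ι := by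
  unfold emb
  refine le_trans (Finset.card_filter_le _ _) ?_
  rw [Fintype.card_piFinset, Finset.prod_const, Finset.card_univ]

/-- a vertex of degree at least `1 + q` needs at least `q + 2` vertices -/
theorem two_le_card {q : ℕ} (hq : ∀ v, 1 + q ≤ dg J univ v) [Nonempty ι] :
    2 + q ≤ Fintype.card ι := by
  classical
  obtain ⟨v⟩ := ‹Nonempty ι›
  have h1 := hq v
  have h2 : dg J univ v ≤ (univ.erase v : Finset ι).card := by
    unfold dg
    refine Finset.card_le_card ?_
    intro j hj
    rw [Finset.mem_filter] at hj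
    rw [Finset.mem_erase]
    refine ⟨fun h => ?_, Finset.mem_univ j⟩
    rw [h] at hj
    exact J.loopless.irrefl v hj.2
  rw [Finset.card_erase_of_mem (Finset.mem_univ v), Finset.card_univ] at h2
  have h3 : 0 < Fintype.card ι := Fintype.card_pos_iff.2 ⟨v⟩
  omega

/-- the number of ordered pairs of adjacent vertices -/
theorem card_le_oe (hq : ∀ v, 1 ≤ dg J univ v) : Fintype.card ι ≤ oe J := by
  classical
  have h1 : ∀ v : ι, ∃ w, J.Adj v w := by
    intro v
    have h2 : 0 < dg J univ v := hq v
    unfold dg at h2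
    obtain ⟨w, hw⟩ := Finset.card_pos.1 h2
    rw [Finset.mem_filter] at hw
    exact ⟨w, hw.2⟩
  choose f hf using h1
  unfold oe
  rw [← Finset.card_univ]
  refine Finset.card_le_card_of_injOn (fun v => (v, f v)) ?_ ?_
  · intro v _
    have h3 : (v, f v) ∈ (univ : Finset (ι × ι)).filter fun p => J.Adj p.1 p.2 :=
      Finset.mem_filter.2 ⟨Finset.mem_univ _, hf v⟩
    exact h3
  · intro v _ w _ h
    exact (Prod.mk.inj h).1

end H57GH
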