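import Pool.Agent.H57.GH.NonB
import Pool.Agent.H57.GH.Pay
import Pool.Agent.H57.GH.Thru

/-!
Sets with few edges; removing the very heavy vertices.
-/

namespace H57GH

open Finset H57LC H57LT

set_option linter.unusedSectionVars false

variable {ι : Type} [Fintype ι] [DecidableEq ι] (J : SimpleGraph ι) [DecidableRel J.Adj]

private theorem UpA_pow {R m : ℕ} (hm : 2 * R ≤ m) (hR : 1 ≤ R) :
    ((m : ℝ) + 1) ^ R ≤ 2 * (m : ℝ) ^ R := by
  have hm0 : (0 : ℝ) < m := by exact_mod_cast (by omega : 0 < m)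
  have h1 : ((m : ℝ) + 1) ^ R = (m : ℝ) ^ R * (1 + 1 / m) ^ R := by
    rw [← mul_pow]
    congr 1
    field_simp
  have h2 : (1 + 1 / (m : ℝ)) ^ R ≤ 2 := by
    have h3 : 1 + 1 / (m : ℝ) ≤ Real.exp (1 / m) := by
      have := Real.add_one_le_exp (1 / (m : ℝ))
      linarith
    have h4 : (1 + 1 / (m : ℝ)) ^ R ≤ Real.exp (1 / m) ^ R :=
      pow_le_pow_left₀ (by positivity) h3 R
    rw [← Real.exp_nat_mul] at h4
    refine h4.trans ?_
    have h5 : (R : ℝ) * (1 / m) ≤ 1 / 2 := by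
      rw [mul_one_div, div_le_div_iff₀ hm0 (by norm_num)]
      have : (2 : ℝ) * R ≤ m := by exact_mod_cast hm
      linarith
    refine (Real.exp_le_exp.2 h5).trans ?_
    have h6 : Real.exp (1 / 2) ^ 2 ≤ 2 ^ 2 := by
      rw [← Real.exp_nat_mul]
      have h7 : ((2 : ℕ) : ℝ) * (1 / 2) = 1 := by norm_num
      rw [h7]
      have := Real.exp_one_lt_d9
      linarith
    exact le_of_sq_le_sq h6 (by norm_num)
  rw [h1]
  have h3 : 0 ≤ (m : ℝ) ^ R := by positivity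
  nlinarith

/-- sets with few edges -/
theorem localA [Nonempty ι] (hd : ∀ v, 1 ≤ dg J univ v) (u : ℕ) : ∃ θ₀ : ℝ, 0 < θ₀ ∧ ∃ R₀ : ℕ,
    2 ≤ R₀ ∧ ∀ R : ℕ, R₀ ≤ R → ∀ r : ℕ, r ≤ R → ∀ q : ℕ, (∀ v, 1 + q ≤ dg J univ v) →
    ∀ C₁ : ℝ, 0 < C₁ → ∃ CB₀ : ℝ, 0 < CB₀ ∧ ∀ CB : ℝ, CB₀ ≤ CB →
    ∃ m₀ : ℕ, ∀ m : ℕ, m₀ ≤ m → ∀ θ : ℝ, 0 ≤ θ → θ ≤ θ₀ →
    ∀ (V : Type) [DecidableEq V] (G : SimpleGraph V) [DecidableRel G.Adj] (S : Finset V)
      (ρ g : ℝ), S.card ≤ R * m + r → clq G S (R + 1) = ∅ → ¬ TyB G S R m CB →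
      M0 J R m ≤ ρ →
      g ≤ u * ∑ x ∈ vh G S R m θ, PiW (Fintype.card ι) q ((R : ℝ) * m + r) (dg G S x) →
      ∃ z : Finset V → ℝ, ((emb J G S).card : ℝ) - ρ + g ≤ ∑ T ∈ clq G S R, z T ∧
        ∀ T ∈ clq G S R, z T ≤ -(C₁ / m) * (M0 J R m / (m : ℝ) ^ R) := by
  obtain ⟨θ₀, hθ₀, R₀, hR₀, hnon⟩ := nonB J hd u
  refine ⟨θ₀, hθ₀, R₀, hR₀, fun R hR r hr q hq C₁ hC₁ => ?_⟩
  obtain ⟨CB₀, hCB₀, m₁, hm₁⟩ := hnon R hR r hr C₁ hC₁
  refine ⟨CB₀, hCB₀, fun CB hCB => ⟨max m₁ (2 * R), fun m hm θ hθ hθ1 V _ G _ S ρ g hS hfree hT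
    hρ hg => ?_⟩⟩
  have hm1 : m₁ ≤ m := (le_max_left _ _).trans hm
  have hm2 : 2 * R ≤ m := (le_max_right _ _).trans hm
  have hR2 : 2 ≤ R := hR₀.trans hR
  have hm0 : (0 : ℝ) < m := by exact_mod_cast (by omega : 0 < m)
  have hR0 : (0 : ℝ) < R := by exact_mod_cast (by omega : 0 < R)
  have hT' : ¬ TyB G S R m CB₀ := by
    intro h
    apply hT
    unfold TyB at h ⊢
    refine lt_of_le_of_lt ?_ h
    apply mul_le_mul_of_nonneg_right _ (by positivity)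
    have : CB₀ / m ≤ CB / m := div_le_div_of_nonneg_right hCB hm0.le
    linarith
  have hmain := hm₁ m hm1 θ hθ hθ1 V G S hS hfree hT'
  have hM0 : 0 ≤ M0 J R m := by unfold M0; positivity
  refine ⟨fun _ => -(C₁ / m) * (M0 J R m / (m : ℝ) ^ R), ?_, fun T _ => le_rfl⟩
  rw [sum_const, nsmul_eq_mul]
  -- number of cliques
  have hk : ((clq G S R).card : ℝ) ≤ 2 * (m : ℝ) ^ R := by
    have h1 := clq_le (G := G) (S := S) (R := R) (by omega) hfree (j := R) le_rfl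
    rw [Nat.choose_self, Nat.cast_one, one_mul] at h1
    refine h1.trans (le_trans ?_ (UpA_pow hm2 (by omega)))
    apply pow_le_pow_left₀ (by positivity)
    rw [div_le_iff₀ hR0]
    have h2 : (S.card : ℝ) ≤ R * m + r := by exact_mod_cast hS
    have h3 : (r : ℝ) ≤ R := by exact_mod_cast hr
    linarith
  have hcs : 2 + q ≤ Fintype.card ι := two_le_card J hq
  -- the reserve
  have hn0 : (0 : ℝ) ≤ (R : ℝ) * m + r := by positivity
  have hPi : ∀ x ∈ vh G S R m θ, PiW (Fintype.card ι) q ((R : ℝ) * m + r) (dg G S x) ≤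
      2 * Fintype.card ι * ((R : ℝ) * m + r) ^ (Fintype.card ι - 2) * (dg G S x : ℝ) := by
    intro x _
    unfold PiW
    have hdx : (dg G S x : ℝ) ≤ (R : ℝ) * m + r := by
      have h1 : dg G S x ≤ S.card := card_filter_le _ _
      exact_mod_cast h1.trans hS
    have h1 : ((dg G S x : ℝ)) ^ q ≤ ((R : ℝ) * m + r) ^ q :=
      pow_le_pow_left₀ (by positivity) hdx q
    have h2 : ((R : ℝ) * m + r) ^ (Fintype.card ι - 2) =
        ((R : ℝ) * m + r) ^ q * ((R : ℝ) * m + r) ^ (Fintype.card ι - 2 - q) := by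
      rw [← pow_add]
      congr 1
      omega
    rw [h2, pow_add, pow_one]
    have h3 : 0 ≤ 2 * (Fintype.card ι : ℝ) * (dg G S x : ℝ) *
        ((R : ℝ) * m + r) ^ (Fintype.card ι - 2 - q) := by positivity
    nlinarith [mul_le_mul_of_nonneg_left h1 h3]
  have hg2 : g ≤ 2 * u * Fintype.card ι * ((R : ℝ) * m + r) ^ (Fintype.card ι - 2) *
      ∑ z ∈ vh G S R m θ, (dg G S z : ℝ) := by
    refine hg.trans ?_
    have h1 := sum_le_sum hPi
    rw [← mul_sum] at h1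
    have h2 := mul_le_mul_of_nonneg_left h1 (Nat.cast_nonneg u (α := ℝ))
    refine h2.trans (le_of_eq ?_)
    ring
  have h5 : ((emb J G S).card : ℝ) - ρ + g ≤ -(2 * C₁ / m) * M0 J R m := by
    have h6 : (1 - 2 * C₁ / m) * M0 J R m = M0 J R m - (2 * C₁ / m) * M0 J R m := by ring
    rw [h6] at hmain
    linarith
  refine h5.trans ?_
  have h7 : 0 ≤ (C₁ / m) * (M0 J R m / (m : ℝ) ^ R) := by positivity
  have h8 : ((clq G S R).card : ℝ) * ((C₁ / m) * (M0 J R m / (m : ℝ) ^ R)) ≤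
      2 * (m : ℝ) ^ R * ((C₁ / m) * (M0 J R m / (m : ℝ) ^ R)) :=
    mul_le_mul_of_nonneg_right hk h7
  have h9 : 2 * (m : ℝ) ^ R * ((C₁ / m) * (M0 J R m / (m : ℝ) ^ R)) =
      (2 * C₁ / m) * M0 J R m := by
    field_simp
  rw [h9] at h8
  linarith

/-- all copies of `J`, without those through very heavy vertices -/
theorem emb_vh_le {d q : ℕ} (hd : ∀ v, d ≤ dg J univ v) (hq : 1 + q ≤ d) {V : Type}
    [DecidableEq V] (G : SimpleGraph V) [DecidableRel G.Adj] {S : Finset V} {R m r : ℕ} {θ : ℝ}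
    (hm : 1 ≤ m) (hS : S.card ≤ R * m + r) :
    ((emb J G S).card : ℝ) ≤ ((emb J G (S \ vh G S R m θ)).card : ℝ) +
      ∑ y ∈ (vh G S R m θ).filter (fun y => d ≤ dg G S y),
        (Fintype.card ι : ℝ) * (dg G S y : ℝ) ^ (1 + q) *
          ((R : ℝ) * m + r) ^ (Fintype.card ι - 2 - q) := by
  have h1 := emb_card_le J (G := G) S (vh G S R m θ)
  have h2 : S ∩ vh G S R m θ = vh G S R m θ := by
    apply inter_eq_right.2
    unfold vh
    exact filter_subset _ _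
  rw [h2] at h1
  have h3 : ((emb J G S).card : ℝ) ≤ ((emb J G (S \ vh G S R m θ)).card : ℝ) +
      ∑ z ∈ vh G S R m θ, (((emb J G S).filter fun φ => ∃ i, φ i = z).card : ℝ) := by
    exact_mod_cast h1
  refine h3.trans ?_
  apply add_le_add le_rfl
  rw [sum_filter]
  refine sum_le_sum fun z _ => ?_
  split_ifs with hz
  · have h4 := card_thru J (G := G) (q := q) (fun v => hq.trans (hd v)) S z
    have h5 : (((emb J G S).filter fun φ => ∃ i, φ i = z).card : ℝ) ≤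
        (Fintype.card ι : ℝ) * (dg G S z : ℝ) ^ (1 + q) *
          (S.card : ℝ) ^ (Fintype.card ι - 2 - q) := by exact_mod_cast h4
    refine h5.trans ?_
    apply mul_le_mul_of_nonneg_left _ (by positivity)
    apply pow_le_pow_left₀ (by positivity)
    exact_mod_cast hS
  · have h4 := card_thru_zero J (G := G) hd (S := S) (z := z) (by omega)
    rw [h4, Nat.cast_zero]

end H57GH
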