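import Pool.Agent.H57.GH.LocalB1
import Pool.Agent.H57.GH.Pay1
import Pool.Agent.H57.GH.KIneq1
import Pool.Agent.H57.GH.UpA
import Pool.Agent.H57.GH.JoinE
import Pool.Agent.H57.GH.KGraphG
import Pool.Agent.H57.LC.Count

/-!
The upper bound for `K_1 ∨ J`, assembly.
-/

namespace H57GH

open Finset H57LC H57LT

set_option linter.unusedSectionVars false

variable {ι : Type} [Fintype ι] [DecidableEq ι] (J : SimpleGraph ι) [DecidableRel J.Adj]

/-- the complement of an `R`-subset in a clique with `R + u` elements is a `u`-clique -/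
lemma Upper1_sdiff {V : Type*} [Fintype V] [DecidableEq V] {G : SimpleGraph V}
    [DecidableRel G.Adj] {R u : ℕ} {K T : Finset V} (hK : K ∈ clq G univ (R + u)) (hT : T ⊆ K)
    (hc : T.card = R) : K \ T ∈ clq G univ u := by
  have hK' := mem_clq.1 hK
  rw [mem_clq]
  refine ⟨⟨subset_univ _, ?_⟩, hK'.2.subset sdiff_subset⟩
  have := card_sdiff_add_card_eq_card hT
  have h2 := hK'.1.2
  omega

/-- an `R`-subset of a clique is a clique in the common neighbourhood of the rest -/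
lemma Upper1_mem {V : Type*} [Fintype V] [DecidableEq V] {G : SimpleGraph V}
    [DecidableRel G.Adj] {R u : ℕ} {K T : Finset V} (hK : K ∈ clq G univ (R + u)) (hT : T ⊆ K)
    (hc : T.card = R) : T ∈ clq G (cn G (K \ T)) R := by
  have hK' := mem_clq.1 hK
  rw [mem_clq]
  refine ⟨⟨fun t ht => ?_, hc⟩, hK'.2.subset hT⟩
  rw [mem_cn]
  intro a ha
  have ha' := mem_sdiff.1 ha
  exact hK'.2 a ha'.1 t (hT ht) (fun e => ha'.2 (e ▸ ht))

/-- what the very heavy vertices pay covers the copies through them and the loss -/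
lemma Upper1_pay {V : Type*} [DecidableEq V] (F : Finset V) (x : V → ℕ) {s : ℕ} (hs : 1 ≤ s)
    {n m : ℝ} (hm : 0 ≤ m) (hn : m ≤ n) :
    ∑ y ∈ F, (s : ℝ) * (x y : ℝ) ^ (1 + 0) * n ^ (s - 2 - 0) +
      ∑ y ∈ F, (x y : ℝ) * m ^ (s - 2) ≤
        ∑ y ∈ F, PiW s 0 n (x y) := by
  rw [← sum_add_distrib]
  refine sum_le_sum fun y _ => ?_
  unfold PiW
  have e1 : s - 2 - 0 = s - 2 := by omega
  rw [e1]
  have h1 : m ^ (s - 2) ≤ n ^ (s - 2) := pow_le_pow_left₀ hm hn _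
  have h2 : (0 : ℝ) ≤ (x y : ℝ) ^ (1 + 0) := by positivity
  have e2 : (x y : ℝ) = (x y : ℝ) ^ (1 + 0) := by simp
  have h3 : (x y : ℝ) * m ^ (s - 2) ≤ (x y : ℝ) ^ (1 + 0) * n ^ (s - 2) := by
    rw [← e2]
    exact mul_le_mul_of_nonneg_left h1 (by positivity)
  have h4 : (0 : ℝ) ≤ (x y : ℝ) ^ (1 + 0) * n ^ (s - 2) :=
    mul_nonneg h2 (pow_nonneg (hm.trans hn) _)
  have h5 : (1 : ℝ) ≤ s := by exact_mod_cast hs
  nlinarith only [mul_nonneg (sub_nonneg.2 h5) h4, h3, h4, h5]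

/-- the upper bound, `u = 1` -/
theorem upper1 [Nonempty ι] (hd : ∀ v, 1 ≤ dg J univ v) : ∃ R₀ : ℕ, ∃ c₀ : ℝ, 0 < c₀ ∧
    ∀ R r : ℕ, R₀ ≤ R → 1 ≤ r → (r : ℝ) ≤ c₀ * R → r + 2 ≤ R ∧ ∃ m₀ : ℕ, ∀ m : ℕ, m₀ ≤ m →
      ∀ (V : Type) [Fintype V] [DecidableEq V] (G : SimpleGraph V) [DecidableRel G.Adj],
        (∀ U ∈ clq G univ 1, (cn G U).card ≤ R * m + r) → clq G univ (R + 1 + 1) = ∅ →
        ((emb (jn J 1) G univ).card : ℝ) ≤
          (Nat.factorial 1) * rhoG J 1 R r m * ((clq G univ 1).card : ℝ) := by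
  have hcs : 2 ≤ Fintype.card ι := by
    have := two_le_card J (q := 0) (fun v => by
      have := hd v
      omega)
    omega
  have hJ : 1 ≤ oe J := by
    have := card_le_oe J hd
    omega
  obtain ⟨θA, hθA, RA, _, HA⟩ := localA J hd 1
  obtain ⟨θ, hθ, hθA', hθ1⟩ : ∃ θ : ℝ, 0 < θ ∧ θ ≤ θA ∧ θ ≤ 1 / 64 :=
    ⟨min θA (1 / 64), lt_min hθA (by norm_num), min_le_left _ _, min_le_right _ _⟩
  have hθ4 : θ ≤ 1 / 4 := hθ1.trans (by norm_num)
  obtain ⟨RB, HB⟩ := localB1 J hd θ hθ hθ1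
  obtain ⟨RK, cK, hcK, HK⟩ := K_ineq1 J hcs hJ θ hθ hθ4
  obtain ⟨CM, hCM, HM⟩ := M0_bounds J
  refine ⟨max (max (max RA RB) (max RK 8)) ⌈2 * CM⌉₊,
    min cK (1 / 2), lt_min hcK (by norm_num), fun R r hR hr hcase => ?_⟩
  have hRA : RA ≤ R := by
    refine le_trans ?_ hR
    exact (le_max_left _ _).trans ((le_max_left _ _).trans (le_max_left _ _))
  have hRB : RB ≤ R := by
    refine le_trans ?_ hR
    exact (le_max_right _ _).trans ((le_max_left _ _).trans (le_max_left _ _))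
  have hRK : RK ≤ R := by
    refine le_trans ?_ hR
    exact (le_max_left _ _).trans ((le_max_right _ _).trans (le_max_left _ _))
  have hR8 : 8 ≤ R := by
    refine le_trans ?_ hR
    exact (le_max_right _ _).trans ((le_max_right _ _).trans (le_max_left _ _))
  have hRM : 2 * CM ≤ R := by
    refine (Nat.le_ceil _).trans ?_
    have h : ⌈2 * CM⌉₊ ≤ R := le_trans (le_max_right _ _) hR
    exact_mod_cast h
  have hR0 : (0 : ℝ) < R := by exact_mod_cast (by omega : 0 < R)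
  have hrc : (r : ℝ) ≤ cK * R :=
    hcase.trans (mul_le_mul_of_nonneg_right (min_le_left _ _) hR0.le)
  have hr2 : r + 2 ≤ R := by
    have h1 : (r : ℝ) ≤ 1 / 2 * R :=
      hcase.trans (mul_le_mul_of_nonneg_right (min_le_right _ _) hR0.le)
    have h2 : 2 * (r : ℝ) ≤ R := by linarith only [h1]
    have h3 : 2 * r ≤ R := by exact_mod_cast h2
    omega
  refine ⟨hr2, ?_⟩
  have hrR : r ≤ R := by omega
  have hM : ∀ m : ℕ, 1 ≤ m → ((R : ℝ) * m) ^ Fintype.card ι ≤ 2 * M0 J R m := by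
    intro m hm
    have h1 := (HM R m (by omega) hm).1
    have h2 : CM / R ≤ 1 / 2 := by
      rw [div_le_iff₀ hR0]
      linarith only [hRM]
    have h3 : (0 : ℝ) ≤ ((R : ℝ) * m) ^ Fintype.card ι := by positivity
    have h4 : 1 / 2 * ((R : ℝ) * m) ^ Fintype.card ι ≤
        (1 - CM / R) * ((R : ℝ) * m) ^ Fintype.card ι :=
      mul_le_mul_of_nonneg_right (by linarith only [h2]) h3
    linarith only [h1, h4]
  obtain ⟨C₁, ε, hC₁, hε, hε1, m₁, hK⟩ := HK R r hRK hr hrc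
  obtain ⟨CB₀, hCB₀, hA'⟩ := HA R hRA r hrR 0 (fun v => by
    have := hd v
    omega) C₁ hC₁
  obtain ⟨Cρ, hCρ, hρ⟩ := rhoG_bounds J hcs 1 R r (by omega) (by omega) hM
  have hCB : 0 < max CB₀ Cρ := lt_of_lt_of_le hCB₀ (le_max_left _ _)
  obtain ⟨m₂, hA⟩ := hA' (max CB₀ Cρ) (le_max_left _ _)
  obtain ⟨m₃, hT⟩ := transfer1 R r (Fintype.card ι) hR8 hrR (max CB₀ Cρ) θ hCB hθ hθ4
  obtain ⟨m₄, hB⟩ := HB R hRB r hrR C₁ (max CB₀ Cρ) ε hC₁ hCB hε hε1
  refine ⟨max 1 (max (max m₁ m₂) (max m₃ m₄)), fun m hm V _ _ G _ hdeg hfree => ?_⟩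
  have hm0 : 1 ≤ m := (le_max_left _ _).trans hm
  have hmr : max (max m₁ m₂) (max m₃ m₄) ≤ m := (le_max_right _ _).trans hm
  have hm1 : m₁ ≤ m := ((le_max_left _ _).trans (le_max_left _ _)).trans hmr
  have hm2 : m₂ ≤ m := ((le_max_right _ _).trans (le_max_left _ _)).trans hmr
  have hm3 : m₃ ≤ m := ((le_max_left _ _).trans (le_max_right _ _)).trans hmr
  have hm4 : m₄ ≤ m := ((le_max_right _ _).trans (le_max_right _ _)).trans hmr
  have hm0R : (1 : ℝ) ≤ m := by exact_mod_cast hm0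
  have hR1R : (1 : ℝ) ≤ R := by exact_mod_cast (by omega : 1 ≤ R)
  obtain ⟨giv, got, hgg, hnB, hTB⟩ := hT m hm3 V G hdeg
  have hMρ : M0 J R m ≤ rhoG J 1 R r m := M0_le_rhoG J hm0 (by omega) (by omega)
  have hM0 : 0 ≤ M0 J R m := by unfold M0; positivity
  have hρM : rhoG J 1 R r m ≤ M0 J R m * (1 + max CB₀ Cρ / m) := by
    refine (hρ m hm0).2.trans (mul_le_mul_of_nonneg_left ?_ hM0)
    have : Cρ / m ≤ max CB₀ Cρ / m := by
      gcongr
      exact le_max_right _ _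
    linarith only [this]
  have key : ∀ U ∈ clq G univ 1, ∃ z : Finset V → ℝ,
      ((emb J G (cn G U)).card : ℝ) - rhoG J 1 R r m + giv U - got U ≤
        ∑ T ∈ clq G (cn G U) R, z T ∧
      ∀ T ∈ clq G (cn G U) R, z T ≤ -(C₁ / m) * (M0 J R m / (m : ℝ) ^ R) ∨
        ((∀ t ∈ T, (1 - ε) * m ≤ (aa G (cn G U) T t : ℝ)) ∧
          z T ≤ lz1 G J (cn G U) R m θ (rhoG J 1 R r m) T) := by
    intro U hU
    by_cases hTy : TyB G (cn G U) R m (max CB₀ Cρ)
    · obtain ⟨Γ, hΓ0, hΓ1, hΓ2, hΓ3⟩ := hTB U hU hTy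
      obtain ⟨z, hz1, hz2⟩ := hB m hm4 V G (cn G U) (rhoG J 1 R r m) Γ (hdeg U hU)
        (cn_free hfree hU) hTy hMρ hρM hΓ0 hΓ1 hΓ2
      refine ⟨z, ?_, hz2⟩
      have h1 := emb_vh_le J (d := 1) (q := 0) hd (by omega) G (S := cn G U) (R := R) (m := m)
        (r := r) (θ := θ) hm0 (hdeg U hU)
      have h2 := Upper1_pay ((vh G (cn G U) R m θ).filter (fun y => 1 ≤ dg G (cn G U) y))
        (fun y => dg G (cn G U) y) (s := Fintype.card ι) (by omega)
        (n := (R : ℝ) * m + r) (m := (m : ℝ)) (by positivity) (by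
          have h0 : (0 : ℝ) ≤ r := by positivity
          nlinarith only [hR1R])
      linarith only [hΓ3, hz1, h1, h2]
    · obtain ⟨h0, h1⟩ := hnB U hU hTy
      obtain ⟨z, hz1, hz2⟩ := hA m hm2 θ hθ.le hθA' V G (cn G U) (rhoG J 1 R r m) (giv U)
        (hdeg U hU) (cn_free hfree hU) hTy hMρ (by
          rw [Nat.cast_one, one_mul]
          exact h1)
      refine ⟨z, ?_, fun T hT' => Or.inl (hz2 T hT')⟩
      rw [h0]
      linarith only [hz1]
  choose! z hz1 hz2 using key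
  have hneg : ∑ K ∈ clq G univ (R + 1), ∑ T ∈ powersetCard R K, z (K \ T) T ≤ 0 := by
    refine sum_nonpos fun K hKm => ?_
    have hK' := mem_clq.1 hKm
    refine hK m hm1 V V K (aK G K) univ (fun y => hs G K y) (fun T => z (K \ T) T)
      hK'.1.2 (fun t ht => one_le_aK hK'.2 ht) ?_ ?_
    · intro T hT' hc
      exact (sum_aK_hge hT').trans (hdeg (K \ T) (Upper1_sdiff hKm hT' hc))
    · intro T hT' hc
      rcases hz2 (K \ T) (Upper1_sdiff hKm hT' hc) T (Upper1_mem hKm hT' hc) with h | ⟨h1, h3⟩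
      · exact Or.inl h
      · right
        refine ⟨fun t ht => ?_, ?_⟩
        · have := h1 t ht
          rwa [aa_cn hT' ht] at this
        · unfold lz1 at h3
          rw [lzG_cn J hT', hge_cn hT', zero_mul, add_zero] at h3
          exact h3
  have hsum : ∑ U ∈ clq G univ 1,
      (((emb J G (cn G U)).card : ℝ) - rhoG J 1 R r m + giv U - got U) ≤ 0 :=
    calc ∑ U ∈ clq G univ 1,
        (((emb J G (cn G U)).card : ℝ) - rhoG J 1 R r m + giv U - got U)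
        ≤ ∑ U ∈ clq G univ 1, ∑ T ∈ clq G (cn G U) R, z U T := sum_le_sum hz1
      _ = ∑ K ∈ clq G univ (R + 1), ∑ T ∈ powersetCard R K, z (K \ T) T := double_count 1 R z
      _ ≤ 0 := hneg
  rw [sum_sub_distrib, sum_add_distrib, sum_sub_distrib, sum_const, nsmul_eq_mul, hgg] at hsum
  have hjoin : ((emb (jn J 1) G univ).card : ℝ) =
      (Nat.factorial 1) * ∑ U ∈ clq G univ 1, ((emb J G (cn G U)).card : ℝ) := by
    have h := emb_join J G 1
    rw [h]
    push_cast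
    rfl
  rw [hjoin, mul_assoc]
  refine mul_le_mul_of_nonneg_left ?_ (by positivity)
  linarith only [hsum]

end H57GH
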