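import Pool.Agent.H57.GH.EmbI
import Pool.Agent.H57.GH.Upper1
import Pool.Agent.H57.GH.RhoG

/-!
The upper bound for `K_1 ∨ J` if `J` has isolated vertices.
-/

namespace H57GH

open Finset H57LC H57LT

set_option linter.unusedSectionVars false

/-- there is exactly one copy of the empty graph -/
theorem Up0_emb_empty {ι : Type*} [Fintype ι] [DecidableEq ι] [IsEmpty ι] (J : SimpleGraph ι)
    [DecidableRel J.Adj] {V : Type*} [DecidableEq V] (G : SimpleGraph V) [DecidableRel G.Adj]
    (S : Finset V) : (emb J G S).card = 1 := by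
  rw [card_eq_one]
  refine ⟨fun i => isEmptyElim i, ?_⟩
  ext φ
  simp only [emb, mem_filter, Fintype.mem_piFinset, mem_singleton]
  constructor
  · intro _
    exact Subsingleton.elim _ _
  · intro _
    exact ⟨fun i => isEmptyElim i, fun i => isEmptyElim i, fun i => isEmptyElim i⟩

theorem Up0_fJ_empty {ι : Type*} [Fintype ι] [DecidableEq ι] [IsEmpty ι] (J : SimpleGraph ι)
    [DecidableRel J.Adj] {κ : Type*} [DecidableEq κ] (T : Finset κ) (a : κ → ℕ) :
    fJ J T a = 1 := by
  unfold fJ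
  rw [card_eq_one]
  refine ⟨fun i => isEmptyElim i, ?_⟩
  ext φ
  simp only [cm, mem_filter, Fintype.mem_piFinset, mem_singleton]
  constructor
  · intro _
    exact Subsingleton.elim _ _
  · intro _
    exact ⟨fun i => isEmptyElim i, fun i => isEmptyElim i, fun i => isEmptyElim i⟩

theorem Up0_rho_empty {ι : Type} [Fintype ι] [DecidableEq ι] [IsEmpty ι] (J : SimpleGraph ι)
    [DecidableRel J.Adj] {u R r m : ℕ} (hm : 1 ≤ m) : rhoG J u R r m = 1 := by
  have h1 := RhoG_mul J (u := u) (R := R) (r := r) hm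
  have h2 : ∑ T ∈ powersetCard R (univ : Finset (Fin (R + u))),
      (fJ J T (xg (R + u) r m) : ℝ) * wN (R + u) r m T =
      ∑ T ∈ powersetCard R (univ : Finset (Fin (R + u))), wN (R + u) r m T := by
    refine sum_congr rfl fun T _ => ?_
    rw [Up0_fJ_empty, Nat.cast_one, one_mul]
  rw [h2] at h1
  have h3 := sum_wN_pos (u := u) (R := R) (r := r) hm
  exact mul_right_cancel₀ h3.ne' (by rw [h1, one_mul])

/-- the reduction to the graph without isolated vertices -/
theorem Up0_red {ι : Type} [Fintype ι] [DecidableEq ι] (J : SimpleGraph ι) [DecidableRel J.Adj]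
    (I : Finset ι) (hI : ∀ v ∈ I, ∀ w, ¬ J.Adj v w)
    {V : Type} [Fintype V] [DecidableEq V] (G : SimpleGraph V) [DecidableRel G.Adj] {n : ℕ}
    (hG : ∀ U ∈ clq G univ 1, (cn G U).card ≤ n) :
    (emb (jn J 1) G univ).card ≤
      (n - Fintype.card {v // v ∉ I}).descFactorial I.card *
        (emb (jn (J.comap (Subtype.val : {v // v ∉ I} → ι)) 1) G univ).card := by
  rw [emb_join, emb_join, Nat.factorial_one, one_mul, one_mul, mul_sum]
  refine sum_le_sum fun U hU => ?_
  rw [emb_isolated J G I hI, mul_comm]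
  refine Nat.mul_le_mul_right _ ?_
  exact Nat.descFactorial_le _ (Nat.sub_le_sub_right (hG U hU) _)

/-- `I` is the set of isolated vertices of `J` -/
theorem upper0 {ι : Type} [Fintype ι] [DecidableEq ι] (J : SimpleGraph ι) [DecidableRel J.Adj]
    (I : Finset ι) (hI : ∀ v ∈ I, ∀ w, ¬ J.Adj v w) (hI' : ∀ v, v ∉ I → ∃ w, J.Adj v w) :
    ∃ R₀ : ℕ, ∃ c₀ : ℝ, 0 < c₀ ∧ ∀ R r : ℕ, R₀ ≤ R → 1 ≤ r → (r : ℝ) ≤ c₀ * R →
      r + 2 ≤ R ∧ ∃ m₀ : ℕ, ∀ m : ℕ, m₀ ≤ m →
      ∀ (V : Type) [Fintype V] [DecidableEq V] (G : SimpleGraph V) [DecidableRel G.Adj],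
        (∀ U ∈ clq G univ 1, (cn G U).card ≤ R * m + r) → clq G univ (R + 1 + 1) = ∅ →
        ((emb (jn J 1) G univ).card : ℝ) ≤
          ((R * m + r - Fintype.card {v // v ∉ I}).descFactorial I.card : ℝ) *
            rhoG (J.comap (Subtype.val : {v // v ∉ I} → ι)) 1 R r m *
              ((clq G univ 1).card : ℝ) := by
  classical
  by_cases hne : Nonempty {v // v ∉ I}
  · have hd : ∀ v, 1 ≤ dg (J.comap (Subtype.val : {v // v ∉ I} → ι)) univ v := by
      intro v
      obtain ⟨w, hw⟩ := hI' v.1 v.2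
      have hwI : w ∉ I := fun h => hI w h v.1 hw.symm
      unfold dg
      rw [Nat.one_le_iff_ne_zero, ← Nat.pos_iff_ne_zero, card_pos]
      exact ⟨⟨w, hwI⟩, mem_filter.2 ⟨mem_univ _, hw⟩⟩
    obtain ⟨R₀, c₀, hc₀, h⟩ := upper1 (J.comap (Subtype.val : {v // v ∉ I} → ι)) hd
    refine ⟨R₀, c₀, hc₀, fun R r hR hr hrR => ?_⟩
    obtain ⟨h1, m₀, h2⟩ := h R r hR hr hrR
    refine ⟨h1, m₀, fun m hm V _ _ G _ hG hfree => ?_⟩
    have h3 := h2 m hm V G hG hfree
    have h4 := Up0_red J I hI G hG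
    rw [Nat.factorial_one, Nat.cast_one, one_mul] at h3
    calc ((emb (jn J 1) G univ).card : ℝ)
        ≤ (((R * m + r - Fintype.card {v // v ∉ I}).descFactorial I.card *
        (emb (jn (J.comap (Subtype.val : {v // v ∉ I} → ι)) 1) G univ).card : ℕ) : ℝ) := by
          exact_mod_cast h4
      _ = ((R * m + r - Fintype.card {v // v ∉ I}).descFactorial I.card : ℝ) *
        ((emb (jn (J.comap (Subtype.val : {v // v ∉ I} → ι)) 1) G univ).card : ℝ) := by
          push_cast
          ring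
      _ ≤ ((R * m + r - Fintype.card {v // v ∉ I}).descFactorial I.card : ℝ) *
        (rhoG (J.comap (Subtype.val : {v // v ∉ I} → ι)) 1 R r m *
              ((clq G univ 1).card : ℝ)) := mul_le_mul_of_nonneg_left h3 (Nat.cast_nonneg _)
      _ = _ := by ring
  · have : IsEmpty {v // v ∉ I} := not_nonempty_iff.1 hne
    refine ⟨4, 1 / 2, by norm_num, fun R r hR hr hrR => ?_⟩
    have hR' : (4 : ℝ) ≤ R := by exact_mod_cast hR
    refine ⟨?_, 1, fun m hm V _ _ G _ hG hfree => ?_⟩
    · have : (r : ℝ) + 2 ≤ R := by linarith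
      exact_mod_cast this
    · have h4 := Up0_red J I hI G hG
      have h5 : (emb (jn (J.comap (Subtype.val : {v // v ∉ I} → ι)) 1) G univ).card =
          (clq G univ 1).card := by
        rw [emb_join, Nat.factorial_one, one_mul, card_eq_sum_ones]
        exact sum_congr rfl fun U _ => Up0_emb_empty _ _ _
      rw [h5] at h4
      rw [Up0_rho_empty _ hm, mul_one]
      exact_mod_cast h4

end H57GH
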