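import Pool.Agent.H57.GH.DLd
import Pool.Agent.H57.GH.Up0
import Pool.Agent.H57.GH.CopyE
import Pool.Agent.H57.GH.LimX

/-!
`u = 1`, minimum degree one: exact value.
-/

namespace H57GH

open Finset H57LC H57LT H57E32 Filter Topology

set_option linter.unusedSectionVars false

lemma FinalD_kc_one {V : Type*} [Fintype V] (G : SimpleGraph V) : kc 1 G = Fintype.card V := by
  classical
  have h : {A : Finset V | G.IsNClique 1 A} = Set.range (fun v : V => ({v} : Finset V)) := by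
    ext A
    simp only [Set.mem_setOf_eq, Set.mem_range]
    rw [SimpleGraph.isNClique_one]
    exact ⟨fun ⟨a, h⟩ => ⟨a, h.symm⟩, fun ⟨a, h⟩ => ⟨a, h.symm⟩⟩
  unfold kc
  rw [h, ← Set.image_univ, Set.ncard_image_of_injective _ Finset.singleton_injective,
    Set.ncard_univ, Nat.card_eq_fintype_card]

lemma FinalD_copyCount_congr {W W' : Type} [Fintype W] [Fintype W'] {H : SimpleGraph W}
    {H' : SimpleGraph W'} (e : H' ≃g H) {V : Type} [Fintype V] (G : SimpleGraph V) :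
    G.copyCount H' = G.copyCount H := by
  classical
  unfold SimpleGraph.copyCount
  congr 1
  ext G'
  simp only [mem_filter, mem_univ, true_and]
  exact ⟨fun ⟨f⟩ => ⟨e.symm.trans f⟩, fun ⟨f⟩ => ⟨e.trans f⟩⟩

lemma FinalD_exH_congr {W W' : Type} [Fintype W] [Fintype W'] {H : SimpleGraph W}
    {H' : SimpleGraph W'} (e : H' ≃g H) (u Δ ω p : ℕ) : exH H' u Δ ω p = exH H u Δ ω p := by
  unfold exH
  simp only [FinalD_copyCount_congr e]

/-- the graph `H` is the join of a clique and the rest -/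
noncomputable def FinalD_iso {W : Type} [Fintype W] [DecidableEq W] (H : SimpleGraph W)
    (u : ℕ) (U₀ : Finset W) (hU : U₀.card = u)
    (hdom : ∀ x ∈ U₀, ∀ y, y ≠ x → H.Adj x y) :
    jn (H.comap (fun x : {x : W // ¬ x ∈ U₀} => (x : W))) u ≃g H where
  toEquiv := (Equiv.sumCongr (Finset.equivFinOfCardEq hU).symm (Equiv.refl _)).trans
    (Equiv.sumCompl (· ∈ U₀))
  map_rel_iff' := by
    intro a b
    rcases a with i | x <;> rcases b with j | y
    · simp only [Equiv.trans_apply, Equiv.sumCongr_apply, Sum.map_inl, Equiv.sumCompl_apply_inl,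
        jn, Sum.isLeft_inl, true_or, and_true, ne_eq, Sum.inl.injEq]
      constructor
      · intro h hij
        subst hij
        exact H.loopless.irrefl _ h
      · intro h
        refine hdom _ ((Finset.equivFinOfCardEq hU).symm i).2 _ ?_
        intro h2
        exact h ((Finset.equivFinOfCardEq hU).symm.injective (Subtype.ext h2)).symm
    · simp only [Equiv.trans_apply, Equiv.sumCongr_apply, Sum.map_inl, Sum.map_inr,
        Equiv.sumCompl_apply_inl, Equiv.sumCompl_apply_inr, jn, Sum.isLeft_inl, true_or, and_true,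
        ne_eq, reduceCtorEq, not_false_eq_true, iff_true, Equiv.refl_apply]
      refine hdom _ ((Finset.equivFinOfCardEq hU).symm i).2 _ ?_
      intro h2
      exact y.2 (h2 ▸ ((Finset.equivFinOfCardEq hU).symm i).2)
    · simp only [Equiv.trans_apply, Equiv.sumCongr_apply, Sum.map_inl, Sum.map_inr,
        Equiv.sumCompl_apply_inl, Equiv.sumCompl_apply_inr, jn, Sum.isLeft_inl, true_or, or_true,
        and_true, ne_eq, reduceCtorEq, not_false_eq_true, iff_true, Equiv.refl_apply]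
      refine (hdom _ ((Finset.equivFinOfCardEq hU).symm j).2 _ ?_).symm
      intro h2
      exact x.2 (h2 ▸ ((Finset.equivFinOfCardEq hU).symm j).2)
    · simp only [Equiv.trans_apply, Equiv.sumCongr_apply, Sum.map_inr,
        Equiv.sumCompl_apply_inr, jn, Sum.isLeft_inr, Bool.false_eq_true, false_or,
        ne_eq, Sum.inr.injEq, Equiv.refl_apply]
      constructor
      · intro h
        exact ⟨fun h2 => H.loopless.irrefl _ (h2 ▸ h), x, y, rfl, rfl, h⟩
      · rintro ⟨-, x', y', rfl, rfl, h⟩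
        exact h

/-- every vertex of `K_1 ∨ J` is in a `1`-clique -/
lemma FinalD_cl {W : Type*} (H : SimpleGraph W) (x : W) :
    ∃ A : Finset W, x ∈ A ∧ H.IsNClique 1 A :=
  ⟨{x}, mem_singleton_self x, by rw [SimpleGraph.isNClique_one]; exact ⟨x, rfl⟩⟩

/-- the upper bound for allowed graphs -/
lemma FinalD_upper {ι : Type} [Fintype ι] [DecidableEq ι] (J : SimpleGraph ι)
    [DecidableRel J.Adj] (I : Finset ι) (hI : ∀ v ∈ I, ∀ w, ¬ J.Adj v w)
    (hI' : ∀ v, v ∉ I → ∃ w, J.Adj v w) :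
    ∃ R₀ : ℕ, ∃ c₀ : ℝ, 0 < c₀ ∧ ∀ R r : ℕ, R₀ ≤ R → 1 ≤ r → (r : ℝ) ≤ c₀ * R →
      r + 2 ≤ R ∧ ∃ m₀ : ℕ, ∀ m : ℕ, m₀ ≤ m →
      ∀ (n : ℕ) (G : SimpleGraph (Fin n)), Allowed 1 (R * m + r) (R + 1) G →
        ((G.labelledCopyCount (jn J 1) : ℕ) : ℝ) ≤
          ((R * m + r - Fintype.card {v // v ∉ I}).descFactorial I.card : ℝ) *
            rhoG (J.comap (Subtype.val : {v // v ∉ I} → ι)) 1 R r m * (kc 1 G : ℝ) := by
  classical
  obtain ⟨R₀, c₀, hc₀, hup⟩ := upper0 J I hI hI'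
  refine ⟨R₀, c₀, hc₀, fun R r hR hr hcase => ?_⟩
  obtain ⟨hrR, m₀, hm₀⟩ := hup R r hR hr hcase
  refine ⟨hrR, m₀, fun m hm n G hG => ?_⟩
  rw [allowed_iff] at hG
  rw [kc_eq_clq, ← emb_eq_labelled]
  refine hm₀ m hm (Fin n) G ?_ ?_
  · intro U hU
    rw [mem_clq] at hU
    have h1 : G.IsNClique 1 U := by
      rw [SimpleGraph.isNClique_iff]
      exact ⟨fun a ha b hb hab => hU.2 a ha b hb hab, hU.1.2⟩
    have h2 := hG.1 U h1
    have h3 : (cns G U).ncard = (H57LC.cn G U).card := by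
      rw [← Set.ncard_coe_finset]
      congr 1
      ext v
      simp [cns, H57LC.mem_cn]
    rw [← h3]
    exact h2
  · rw [eq_empty_iff_forall_notMem]
    intro A hA
    rw [mem_clq] at hA
    refine hG.2 A ?_
    rw [SimpleGraph.isNClique_iff]
    exact ⟨fun a ha b hb hab => hA.2 a ha b hb hab, hA.1.2⟩

/-- the labelled copies in `DL` -/
lemma FinalD_DL {ι : Type} [Fintype ι] [DecidableEq ι] (J : SimpleGraph ι)
    [DecidableRel J.Adj] (I : Finset ι) (hI : ∀ v ∈ I, ∀ w, ¬ J.Adj v w)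
    (hI' : ∀ v, v ∉ I → ∃ w, J.Adj v w) {R m r : ℕ} (hR : 1 ≤ R) (hm : 1 ≤ m)
    (hr : r < R + 1) :
    (((DL (R + 1) m r).labelledCopyCount (jn J 1) : ℕ) : ℝ) =
      ((R * m + r - Fintype.card {v // v ∉ I}).descFactorial I.card : ℝ) *
        rhoG (J.comap (Subtype.val : {v // v ∉ I} → ι)) 1 R r m *
          (kc 1 (DL (R + 1) m r) : ℝ) := by
  have h1 := emb_DL J I hI hI' hR hm hr
  have h2 := emb_TG (J.comap (Subtype.val : {v // v ∉ I} → ι)) (u := 1) hm hR hr
  rw [FinalD_kc_one, Fintype.card_fin] at h2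
  rw [← emb_eq_labelled, h1, FinalD_kc_one, Fintype.card_prod, Fintype.card_fin,
    Fintype.card_bool]
  push_cast
  rw [h2]
  push_cast
  rw [Nat.factorial_one]
  push_cast
  ring

theorem main_D {W : Type} [Fintype W] [DecidableEq W] (H : SimpleGraph W) [DecidableRel H.Adj]
    (x₀ : W) (hdom : ∀ y, y ≠ x₀ → H.Adj x₀ y) (hδ : H.minDegree = 1) :
    ∃ R₀ : ℕ, ∃ c₀ : ℝ, 0 < c₀ ∧ ∀ R r : ℕ, R₀ ≤ R → 1 ≤ r → (r : ℝ) ≤ c₀ * R →
    ∃ m₀ : ℕ, ∀ m : ℕ, m₀ ≤ m →
      (∀ p : ℕ, exH H 1 (R * m + r) (R + 1) p * kc 1 (DL (R + 1) m r) ≤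
        p * (DL (R + 1) m r).copyCount H) ∧
      (∀ q : ℕ, exH H 1 (R * m + r) (R + 1) (q * kc 1 (DL (R + 1) m r)) =
        q * (DL (R + 1) m r).copyCount H) ∧
      Tendsto (fun p : ℕ => (exH H 1 (R * m + r) (R + 1) p : ℝ) / p) atTop
        (𝓝 (((DL (R + 1) m r).copyCount H : ℝ) / kc 1 (DL (R + 1) m r))) := by
  classical
  set J : SimpleGraph {x : W // ¬ x ∈ ({x₀} : Finset W)} := H.comap (fun x => (x : W)) with hJ
  have e : jn J 1 ≃g H := FinalD_iso H 1 {x₀} (card_singleton x₀) (by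
    intro x hx y hy
    rw [mem_singleton] at hx
    subst hx
    exact hdom y hy)
  set I : Finset {x : W // ¬ x ∈ ({x₀} : Finset W)} :=
    univ.filter fun v => ∀ w, ¬ J.Adj v w with hIdef
  have hI : ∀ v ∈ I, ∀ w, ¬ J.Adj v w := fun v hv => (mem_filter.1 hv).2
  have hI' : ∀ v, v ∉ I → ∃ w, J.Adj v w := by
    intro v hv
    by_contra h
    push Not at h
    exact hv (mem_filter.2 ⟨mem_univ v, h⟩)
  obtain ⟨R₀, c₀, hc₀, hup⟩ := FinalD_upper J I hI hI'
  obtain ⟨A, hA, hlab⟩ := labelled_eq_mul (jn J 1)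
  have hA' : (0 : ℝ) < A := by exact_mod_cast hA
  refine ⟨max R₀ 1, c₀, hc₀, fun R r hR hr hcase => ?_⟩
  obtain ⟨hrR, m₀, hm₀⟩ := hup R r (le_trans (le_max_left _ _) hR) hr hcase
  have hR1 : 1 ≤ R := le_trans (le_max_right _ _) hR
  refine ⟨max m₀ 1, fun m hm => ?_⟩
  have hm1 : 1 ≤ m := le_trans (le_max_right _ _) hm
  have hr3 : r < R + 1 := by omega
  have hk : 0 < kc 1 (DL (R + 1) m r) := by
    rw [kc_one_DL]
    have : 0 < (R + 1) * m := Nat.mul_pos (by omega) hm1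
    omega
  have hk' : (0 : ℝ) < (kc 1 (DL (R + 1) m r) : ℝ) := by exact_mod_cast hk
  have hDL := FinalD_DL J I hI hI' hR1 hm1 hr3
  set Λ : ℝ := ((R * m + r - Fintype.card {v // v ∉ I}).descFactorial I.card : ℝ) *
    rhoG (J.comap (Subtype.val : {v // v ∉ I} → _)) 1 R r m with hΛ
  have hmain := lim_gen (jn J 1) (u := 1) (Δ := R * m + r) (ω := R + 1) le_rfl (by omega)
    (by
      rw [Fintype.card_congr e.toEquiv]
      exact Fintype.card_pos_iff.2 ⟨x₀⟩)
    (FinalD_cl (jn J 1)) (DL (R + 1) m r) (DL_allowed hR1 hm1 hr3) hk (by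
      intro n G hG
      have h := hm₀ m (le_trans (le_max_left _ _) hm) n G hG
      rw [hlab] at h hDL
      have h1 : (A : ℝ) * ((G.copyCount (jn J 1) : ℝ) * (kc 1 (DL (R + 1) m r) : ℝ)) ≤
          A * ((kc 1 G : ℝ) * ((DL (R + 1) m r).copyCount (jn J 1) : ℝ)) := by
        push_cast at h hDL
        calc (A : ℝ) * ((G.copyCount (jn J 1) : ℝ) * (kc 1 (DL (R + 1) m r) : ℝ))
            = (A * (G.copyCount (jn J 1) : ℝ)) * (kc 1 (DL (R + 1) m r) : ℝ) := by ring
          _ ≤ (Λ * (kc 1 G : ℝ)) * (kc 1 (DL (R + 1) m r) : ℝ) :=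
              mul_le_mul_of_nonneg_right h hk'.le
          _ = (kc 1 G : ℝ) * (Λ * (kc 1 (DL (R + 1) m r) : ℝ)) := by ring
          _ = (kc 1 G : ℝ) * (A * ((DL (R + 1) m r).copyCount (jn J 1) : ℝ)) := by rw [hDL]
          _ = _ := by ring
      have h2 := le_of_mul_le_mul_left h1 hA'
      exact_mod_cast h2)
  simp only [FinalD_copyCount_congr e, FinalD_exH_congr e] at hmain
  exact hmain

end H57GH
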