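import Pool.Agent.H57.GH.CopyE

/-!
The extremal function of `K_u ∨ J` and its limit, from an upper bound.
-/

namespace H57GH

open Finset H57LC H57LT H57E32 Filter Topology

set_option linter.unusedSectionVars false

variable {ι : Type} [Fintype ι] [DecidableEq ι] (J : SimpleGraph ι) [DecidableRel J.Adj]

/-- every vertex of `K_u ∨ J` is in a `u`-clique -/
theorem LimU_cl {u : ℕ} (hu : 1 ≤ u) (x : Fin u ⊕ ι) :
    ∃ A : Finset (Fin u ⊕ ι), x ∈ A ∧ (jn J u).IsNClique u A := by
  classical
  rcases x with i | j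
  · refine ⟨univ.map ⟨Sum.inl, Sum.inl_injective⟩, by simp, ?_⟩
    rw [SimpleGraph.isNClique_iff]
    constructor
    · intro a ha b hb hab
      simp only [coe_map, Function.Embedding.coeFn_mk, coe_univ, Set.image_univ,
        Set.mem_range] at ha hb
      obtain ⟨i, rfl⟩ := ha
      exact ⟨hab, Or.inl rfl⟩
    · rw [card_map, card_univ, Fintype.card_fin]
  · refine ⟨insert (Sum.inr j) ((univ.erase (⟨0, hu⟩ : Fin u)).map ⟨Sum.inl, Sum.inl_injective⟩),
      mem_insert_self _ _, ?_⟩
    rw [SimpleGraph.isNClique_iff]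
    constructor
    · intro a ha b hb hab
      refine ⟨hab, ?_⟩
      simp only [coe_insert, coe_map, Function.Embedding.coeFn_mk, Set.mem_insert_iff,
        Set.mem_image] at ha hb
      rcases ha with rfl | ⟨i, _, rfl⟩
      · rcases hb with rfl | ⟨i, _, rfl⟩
        · exact absurd rfl hab
        · exact Or.inr (Or.inl rfl)
      · exact Or.inl rfl
    · rw [card_insert_of_notMem (by simp), card_map, card_erase_of_mem (mem_univ _), card_univ,
        Fintype.card_fin]
      omega

/-- the upper bound for allowed graphs -/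
theorem LimU_upper (u : ℕ) {R r m : ℕ}
    (hup : ∀ (V : Type) [Fintype V] [DecidableEq V] (G : SimpleGraph V) [DecidableRel G.Adj],
        (∀ U ∈ clq G univ u, (H57LC.cn G U).card ≤ R * m + r) → clq G univ (R + u + 1) = ∅ →
        ((emb (jn J u) G univ).card : ℝ) ≤
          u.factorial * rhoG J u R r m * ((clq G univ u).card : ℝ))
    (n : ℕ) (G : SimpleGraph (Fin n)) (hG : Allowed u (R * m + r) (R + u) G) :
    ((G.labelledCopyCount (jn J u) : ℕ) : ℝ) ≤
      u.factorial * rhoG J u R r m * (kc u G : ℝ) := by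
  classical
  rw [allowed_iff] at hG
  rw [kc_eq_clq, ← emb_eq_labelled]
  refine hup (Fin n) G ?_ ?_
  · intro U hU
    rw [mem_clq] at hU
    have h1 : G.IsNClique u U := by
      rw [SimpleGraph.isNClique_iff]
      exact ⟨fun a ha b hb hab => hU.2 a ha b hb hab, hU.1.2⟩
    have h2 := hG.1 U h1
    have h3 : (cns G U).ncard = (H57LC.cn G U).card := by
      rw [← Set.ncard_coe_finset]
      congr 1
      ext v
      simp [cns, H57LC.mem_cn]
    rw [← h3]
    exact h2
  · rw [eq_empty_iff_forall_notMem]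
    intro A hA
    rw [mem_clq] at hA
    refine hG.2 A ?_
    rw [SimpleGraph.isNClique_iff]
    exact ⟨fun a ha b hb hab => hA.2 a ha b hb hab, hA.1.2⟩

theorem lim_of_upper (u : ℕ) (hu : 1 ≤ u) {R r m : ℕ} (hm : 1 ≤ m) (hR : 1 ≤ R) (hr : r < R)
    (hup : ∀ (V : Type) [Fintype V] [DecidableEq V] (G : SimpleGraph V) [DecidableRel G.Adj],
        (∀ U ∈ clq G univ u, (H57LC.cn G U).card ≤ R * m + r) → clq G univ (R + u + 1) = ∅ →
        ((emb (jn J u) G univ).card : ℝ) ≤
          u.factorial * rhoG J u R r m * ((clq G univ u).card : ℝ)) :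
      (∀ p : ℕ, exH (jn J u) u (R * m + r) (R + u) p * kc u (TG (R + u) m r) ≤
        p * (TG (R + u) m r).copyCount (jn J u)) ∧
      (∀ q : ℕ, exH (jn J u) u (R * m + r) (R + u) (q * kc u (TG (R + u) m r)) =
        q * (TG (R + u) m r).copyCount (jn J u)) ∧
      Tendsto (fun p : ℕ => (exH (jn J u) u (R * m + r) (R + u) p : ℝ) / p) atTop
        (𝓝 (((TG (R + u) m r).copyCount (jn J u) : ℝ) / kc u (TG (R + u) m r))) := by
  classical
  obtain ⟨A, hA, hlab⟩ := labelled_eq_mul (jn J u)
  have hm1 : 1 ≤ m := hm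
  have hR1 : 1 ≤ R := hR
  have hr3 : r < R + u := by omega
  have hw : 1 ≤ R + u := by omega
  have hω : u ≤ R + u := by omega
  have hW : 0 < Fintype.card (Fin u ⊕ ι) := by
    rw [card_jn]
    omega
  have hcl := LimU_cl J hu
  have ha : 0 < kc u (TG (R + u) m r) := kc_TG_pos_le hm1 hw hr3 (by omega)
  have ha' : (0 : ℝ) < (kc u (TG (R + u) m r) : ℝ) := by exact_mod_cast ha
  have hal := TG_allowed (u := u) (R := R) (m := m) (r := r) hu hr3
  have hA' : (0 : ℝ) < A := by exact_mod_cast hA
  have hTG : ((A * (TG (R + u) m r).copyCount (jn J u) : ℕ) : ℝ) =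
      u.factorial * rhoG J u R r m * kc u (TG (R + u) m r) := by
    rw [← emb_TG J hm1 hR1 hr3, ← hlab, emb_eq_labelled]
  have hupp : ∀ (n : ℕ) (G : SimpleGraph (Fin n)), Allowed u (R * m + r) (R + u) G →
      G.copyCount (jn J u) * kc u (TG (R + u) m r) ≤
        kc u G * (TG (R + u) m r).copyCount (jn J u) := by
    intro n G hG
    have h := LimU_upper J u hup n G hG
    rw [hlab] at h
    have h1 : (A : ℝ) * ((G.copyCount (jn J u) : ℝ) * (kc u (TG (R + u) m r) : ℝ)) ≤
        A * ((kc u G : ℝ) * ((TG (R + u) m r).copyCount (jn J u) : ℝ)) := by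
      push_cast at h hTG
      calc (A : ℝ) * ((G.copyCount (jn J u) : ℝ) * (kc u (TG (R + u) m r) : ℝ))
          = (A * (G.copyCount (jn J u) : ℝ)) * (kc u (TG (R + u) m r) : ℝ) := by ring
        _ ≤ (u.factorial * rhoG J u R r m * (kc u G : ℝ)) * (kc u (TG (R + u) m r) : ℝ) :=
            mul_le_mul_of_nonneg_right h ha'.le
        _ = (kc u G : ℝ) * (u.factorial * rhoG J u R r m * kc u (TG (R + u) m r)) := by ring
        _ = (kc u G : ℝ) * (A * ((TG (R + u) m r).copyCount (jn J u) : ℝ)) := by rw [hTG]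
        _ = _ := by ring
    have h2 := le_of_mul_le_mul_left h1 hA'
    exact_mod_cast h2
  have hach : AchH (jn J u) u (R * m + r) (R + u) (kc u (TG (R + u) m r))
      ((TG (R + u) m r).copyCount (jn J u)) := achH_of (jn J u) (TG (R + u) m r) hal
  have hle : ∀ p : ℕ, exH (jn J u) u (R * m + r) (R + u) p * kc u (TG (R + u) m r) ≤
      p * (TG (R + u) m r).copyCount (jn J u) := by
    intro p
    have hbdd : BddAbove {N : ℕ | ∃ (n : ℕ) (G : SimpleGraph (Fin n)),
        Allowed u (R * m + r) (R + u) G ∧ kc u G = p ∧ G.copyCount (jn J u) = N} := by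
      refine ⟨(p * u) ^ Fintype.card (Fin u ⊕ ι), ?_⟩
      rintro N ⟨n, G', _, hp', rfl⟩
      rw [← hp']
      exact copyCount_le (jn J u) G' hcl
    have hne : {N : ℕ | ∃ (n : ℕ) (G : SimpleGraph (Fin n)),
        Allowed u (R * m + r) (R + u) G ∧ kc u G = p ∧ G.copyCount (jn J u) = N}.Nonempty := by
      obtain ⟨n, G, h1, h2, _⟩ := hach.div hu hω hW p
      exact ⟨_, n, G, h1, h2, rfl⟩
    obtain ⟨n, G, hG, hp, hN⟩ := Nat.sSup_mem hne hbdd
    have h := hupp n G hG
    rw [hp, hN] at h
    exact h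
  refine ⟨hle, fun q => ?_, ?_⟩
  · apply le_antisymm
    · have h := hle (q * kc u (TG (R + u) m r))
      have h1 : exH (jn J u) u (R * m + r) (R + u) (q * kc u (TG (R + u) m r)) *
          kc u (TG (R + u) m r) ≤
          (q * (TG (R + u) m r).copyCount (jn J u)) * kc u (TG (R + u) m r) := by
        calc _ ≤ _ := h
          _ = _ := by ring
      exact Nat.le_of_mul_le_mul_right h1 ha
    · exact le_exH hcl (hach.mul hu hW q)
  · refine tendsto_of_bounds ha _ hle (fun p => ?_)
    exact le_exH hcl (hach.div hu hω hW p)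

end H57GH
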