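import Pool.Agent.H57.GH.FinalH
import Pool.Agent.H57.GH.LimU
import Pool.Agent.H57.GH.Upper1

/-!
General graphs `H` with `u` dominating vertices: optimality of `L`, final form.
-/

namespace H57GH

open Finset H57LC H57LT H57E32 Filter Topology

set_option linter.unusedSectionVars false

lemma FinalH2_nonempty {W : Type} [Fintype W] [DecidableEq W] {u : ℕ} {U₀ : Finset W}
    (hU : U₀.card = u) (hW : u < Fintype.card W) : Nonempty {x : W // ¬ x ∈ U₀} := by
  by_contra h
  rw [not_nonempty_iff] at h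
  have h1 : ∀ x : W, x ∈ U₀ := fun x => by
    by_contra hx
    exact h.false ⟨x, hx⟩
  have h2 : (univ : Finset W) ⊆ U₀ := fun x _ => h1 x
  have h3 := card_le_card h2
  rw [card_univ] at h3
  omega

lemma FinalH2_deg {W : Type} [Fintype W] [DecidableEq W] (H : SimpleGraph W) [DecidableRel H.Adj]
    {u : ℕ} {U₀ : Finset W} (hU : U₀.card = u) (v : {x : W // ¬ x ∈ U₀}) :
    H.minDegree - u ≤ dg (H.comap (fun x : {x : W // ¬ x ∈ U₀} => (x : W))) univ v := by
  have h1 : H.minDegree ≤ H.degree (v : W) := H.minDegree_le_degree _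
  have h2 : H.degree (v : W) ≤ U₀.card +
      dg (H.comap (fun x : {x : W // ¬ x ∈ U₀} => (x : W))) univ v := by
    have h3 : H.neighborFinset (v : W) ⊆
        U₀ ∪ ((univ : Finset {x : W // ¬ x ∈ U₀}).filter fun y =>
          (H.comap (fun x : {x : W // ¬ x ∈ U₀} => (x : W))).Adj v y).image
          (fun y : {x : W // ¬ x ∈ U₀} => (y : W)) := by
      intro y hy
      rw [SimpleGraph.mem_neighborFinset] at hy
      rw [mem_union]
      by_cases hyU : y ∈ U₀
      · exact Or.inl hyU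
      · right
        rw [mem_image]
        refine ⟨⟨y, hyU⟩, ?_, rfl⟩
        rw [mem_filter]
        exact ⟨mem_univ _, hy⟩
    calc H.degree (v : W) = (H.neighborFinset (v : W)).card := rfl
      _ ≤ _ := card_le_card h3
      _ ≤ _ := card_union_le _ _
      _ ≤ _ := Nat.add_le_add_left card_image_le _
  omega

theorem main_H2 {W : Type} [Fintype W] [DecidableEq W] (H : SimpleGraph W) [DecidableRel H.Adj]
    (u : ℕ) (hu : 1 ≤ u) (U₀ : Finset W) (hU : U₀.card = u)
    (hdom : ∀ x ∈ U₀, ∀ y, y ≠ x → H.Adj x y) (hW : u < Fintype.card W)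
    (hδ : u + 1 ≤ H.minDegree) : ∃ R₀ : ℕ, ∃ c₀ : ℝ, 0 < c₀ ∧ ∀ R r : ℕ, R₀ ≤ R → 1 ≤ r →
    (r + u ≤ H.minDegree ∨ (2 * u ≤ H.minDegree ∧ (r : ℝ) ≤ c₀ * R)) →
    ∃ m₀ : ℕ, ∀ m : ℕ, m₀ ≤ m →
      (∀ p : ℕ, exH H u (R * m + r) (R + u) p * kc u (TG (R + u) m r) ≤
        p * (TG (R + u) m r).copyCount H) ∧
      (∀ q : ℕ, exH H u (R * m + r) (R + u) (q * kc u (TG (R + u) m r)) =
        q * (TG (R + u) m r).copyCount H) ∧
      Tendsto (fun p : ℕ => (exH H u (R * m + r) (R + u) p : ℝ) / p) atTop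
        (𝓝 (((TG (R + u) m r).copyCount H : ℝ) / kc u (TG (R + u) m r))) := by
  classical
  by_cases hcase : 2 ≤ u ∨ 3 ≤ H.minDegree
  · obtain ⟨R₀, c₀, hc, h⟩ := main_H H u hu U₀ hU hdom hW hδ
    refine ⟨R₀, c₀, hc, fun R r hR hr hcond => h R r hR hr ?_⟩
    rcases hcond with h1 | ⟨h1, h2⟩
    · exact Or.inl h1
    · exact Or.inr ⟨h1, by omega, h2⟩
  · have hu1 : u = 1 := by omega
    subst hu1
    have hne := FinalH2_nonempty hU hW
    have hd : ∀ v, 1 ≤ dg (H.comap (fun x : {x : W // ¬ x ∈ U₀} => (x : W))) univ v := fun v => by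
      have h1 := FinalH2_deg H hU v
      omega
    obtain ⟨R₀, c₀, hc, h⟩ := upper1 (H.comap (fun x : {x : W // ¬ x ∈ U₀} => (x : W))) hd
    refine ⟨max R₀ (⌈1 / c₀⌉₊), c₀, hc, fun R r hR hr hcond => ?_⟩
    have hrR : (r : ℝ) ≤ c₀ * R := by
      rcases hcond with h1 | ⟨_, h2⟩
      · have h3 : r ≤ 1 := by omega
        have h4 : (r : ℝ) ≤ 1 := by exact_mod_cast h3
        have h5 : 1 / c₀ ≤ (R : ℝ) := by
          have h6 : ⌈1 / c₀⌉₊ ≤ R := le_trans (le_max_right _ _) hR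
          exact le_trans (Nat.le_ceil _) (by exact_mod_cast h6)
        rw [div_le_iff₀ hc] at h5
        linarith
      · exact h2
    obtain ⟨hrR2, m₀, hm₀⟩ := h R r (le_trans (le_max_left _ _) hR) hr hrR
    refine ⟨max m₀ 1, fun m hm => ?_⟩
    have hlim := lim_of_upper (H.comap (fun x : {x : W // ¬ x ∈ U₀} => (x : W))) 1 le_rfl
      (m := m) (le_trans (le_max_right _ _) hm) (by omega : 1 ≤ R) (by omega : r < R)
      (hm₀ m (le_trans (le_max_left _ _) hm))
    have e := FinalH_iso H 1 U₀ hU hdom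
    simp only [FinalH_copyCount_congr e, FinalH_exH_congr e] at hlim
    exact hlim

end H57GH
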