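import Pool.Agent.H57.GH.BUp0
import Pool.Agent.H57.GH.FinalH2
import Pool.Agent.H57.GH.FinalD

/-!
Project SB: final forms.
-/

namespace H57GH

open Finset H57LC H57LT H57E32 Filter Topology

set_option linter.unusedSectionVars false

lemma BFin_dg {ι ι' : Type*} [Fintype ι] [DecidableEq ι] [Fintype ι'] [DecidableEq ι']
    {J : SimpleGraph ι} {J' : SimpleGraph ι'} [DecidableRel J.Adj] [DecidableRel J'.Adj]
    (e : J ≃g J') (v : ι) : H57GH.dg J' univ (e v) = H57GH.dg J univ v := by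
  unfold H57GH.dg
  symm
  refine card_bij (fun w _ => e w) ?_ ?_ ?_
  · intro w hw
    rw [mem_filter] at hw ⊢
    exact ⟨mem_univ _, e.map_adj_iff.2 hw.2⟩
  · intro a _ b _ h
    exact e.injective h
  · intro b hb
    rw [mem_filter] at hb
    obtain ⟨a, rfl⟩ := e.surjective b
    exact ⟨a, mem_filter.2 ⟨mem_univ _, e.map_adj_iff.1 hb.2⟩, rfl⟩

lemma BFin_Psi {ι ι' : Type*} [Fintype ι] [DecidableEq ι] [Fintype ι'] [DecidableEq ι']
    {J : SimpleGraph ι} {J' : SimpleGraph ι'} [DecidableRel J.Adj] [DecidableRel J'.Adj]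
    (e : J ≃g J') (y : ℝ) : Psi J y = Psi J' y := by
  unfold Psi
  refine Fintype.sum_equiv e.toEquiv _ _ fun v => ?_
  rw [← BFin_dg e v]
  rfl

lemma BFin_oe {ι ι' : Type*} [Fintype ι] [DecidableEq ι] [Fintype ι'] [DecidableEq ι']
    {J : SimpleGraph ι} {J' : SimpleGraph ι'} [DecidableRel J.Adj] [DecidableRel J'.Adj]
    (e : J ≃g J') : oe J = oe J' := by
  unfold oe
  refine card_bij (fun p _ => (e p.1, e p.2)) ?_ ?_ ?_
  · intro p hp
    rw [mem_filter] at hp ⊢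
    exact ⟨mem_univ _, e.map_adj_iff.2 hp.2⟩
  · intro a _ b _ h
    rw [Prod.mk.injEq] at h
    exact Prod.ext (e.injective h.1) (e.injective h.2)
  · rintro ⟨b1, b2⟩ hb
    rw [mem_filter] at hb
    obtain ⟨a1, rfl⟩ := e.surjective b1
    obtain ⟨a2, rfl⟩ := e.surjective b2
    exact ⟨(a1, a2), mem_filter.2 ⟨mem_univ _, e.map_adj_iff.1 hb.2⟩, rfl⟩

lemma BFin_cprod {ι ι' : Type*} [Fintype ι] [DecidableEq ι] [Fintype ι'] [DecidableEq ι']
    {J : SimpleGraph ι} {J' : SimpleGraph ι'} [DecidableRel J.Adj] [DecidableRel J'.Adj]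
    (e : J ≃g J') (f : ℕ → ℝ) : cprod J f = cprod J' f := by
  unfold cprod
  refine finprod_eq_of_bijective (e.connectedComponentEquiv)
    (e.connectedComponentEquiv).bijective fun C => ?_
  rw [Nat.card_congr (SimpleGraph.ConnectedComponent.isoEquivSupp e C)]

theorem Qc_congr {ι ι' : Type*} [Fintype ι] [DecidableEq ι] [Fintype ι'] [DecidableEq ι']
    {J : SimpleGraph ι} {J' : SimpleGraph ι'} [DecidableRel J.Adj] [DecidableRel J'.Adj]
    (e : J ≃g J') (β : ℝ) : Qc J β = Qc J' β := by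
  unfold Qc Qk
  rw [BFin_cprod e, BFin_Psi e, BFin_Psi e]

theorem BFin_pair {ι ι' : Type*} [Fintype ι] [DecidableEq ι] [Fintype ι'] [DecidableEq ι']
    {J : SimpleGraph ι} {J' : SimpleGraph ι'} [DecidableRel J.Adj] [DecidableRel J'.Adj]
    (e : J ≃g J') {u : ℕ} {β : ℝ} (h : PairC J u β) : PairC J' u β := by
  unfold PairC at h ⊢
  rw [← BFin_oe e, ← Fintype.card_congr e.toEquiv]
  exact h

/-- optimality of `L`, `u = 1` -/
theorem main_HB {W : Type} [Fintype W] [DecidableEq W] (H : SimpleGraph W) [DecidableRel H.Adj]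
    (x₀ : W) (hdom : ∀ y, y ≠ x₀ → H.Adj x₀ y) (hδ : 2 ≤ H.minDegree) {β : ℝ} (hβ : 0 < β)
    (hβ1 : β < 1)
    (hp : PairC (H.comap (Subtype.val : {x : W // x ≠ x₀ ∧ 1 < H.degree x} → W)) 1 β)
    (hQ : Qc (H.comap (Subtype.val : {x : W // x ≠ x₀ ∧ 1 < H.degree x} → W)) β < 1) :
    ∃ R₀ : ℕ, ∀ R r : ℕ, R₀ ≤ R → 1 ≤ r → (r : ℝ) ≤ β * R →
    ∃ m₀ : ℕ, ∀ m : ℕ, m₀ ≤ m →
      (∀ p : ℕ, exH H 1 (R * m + r) (R + 1) p * kc 1 (TG (R + 1) m r) ≤
        p * (TG (R + 1) m r).copyCount H) ∧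
      (∀ q : ℕ, exH H 1 (R * m + r) (R + 1) (q * kc 1 (TG (R + 1) m r)) =
        q * (TG (R + 1) m r).copyCount H) ∧
      Tendsto (fun p : ℕ => (exH H 1 (R * m + r) (R + 1) p : ℝ) / p) atTop
        (𝓝 (((TG (R + 1) m r).copyCount H : ℝ) / kc 1 (TG (R + 1) m r))) := by
  classical
  have hU : ({x₀} : Finset W).card = 1 := card_singleton x₀
  have hdom' : ∀ x ∈ ({x₀} : Finset W), ∀ y, y ≠ x → H.Adj x y := by
    intro x hx y hy
    rw [mem_singleton] at hx
    subst hx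
    exact hdom y hy
  have hW : 1 < Fintype.card W := by
    have h1 := H.minDegree_le_degree x₀
    have h2 := H.degree_lt_card_verts x₀
    omega
  have hne := FinalH2_nonempty hU hW
  have hd : ∀ v, 1 ≤ H57GH.dg (H.comap (fun x : {x : W // ¬ x ∈ ({x₀} : Finset W)} => (x : W)))
      univ v := fun v => by
    have h1 := FinalH2_deg H hU v
    omega
  have e' : H.comap (Subtype.val : {x : W // x ≠ x₀ ∧ 1 < H.degree x} → W) ≃g
      H.comap (fun x : {x : W // ¬ x ∈ ({x₀} : Finset W)} => (x : W)) :=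
    { toEquiv := Equiv.subtypeEquivRight fun x => by
        rw [mem_singleton]
        constructor
        · exact fun h => h.1
        · intro h
          have := H.minDegree_le_degree x
          exact ⟨h, by omega⟩
      map_rel_iff' := by
        intro a b
        exact Iff.rfl }
  obtain ⟨R₀, h⟩ := upperB1 (H.comap (fun x : {x : W // ¬ x ∈ ({x₀} : Finset W)} => (x : W)))
    hd hβ hβ1 (BFin_pair e' hp) (by rw [← Qc_congr e']; exact hQ)
  refine ⟨max R₀ 1, fun R r hR hr hrR => ?_⟩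
  obtain ⟨hrR2, m₀, hm₀⟩ := h R r (le_trans (le_max_left _ _) hR) hr hrR
  refine ⟨max m₀ 1, fun m hm => ?_⟩
  have hlim := lim_of_upper (H.comap (fun x : {x : W // ¬ x ∈ ({x₀} : Finset W)} => (x : W))) 1
    le_rfl (m := m) (le_trans (le_max_right _ _) hm) (by omega : 1 ≤ R) (by omega : r < R)
    (hm₀ m (le_trans (le_max_left _ _) hm))
  have e := FinalH_iso H 1 {x₀} hU hdom'
  simp only [FinalH_copyCount_congr e, FinalH_exH_congr e] at hlim
  exact hlim

/-- the upper bound for allowed graphs -/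
lemma BFin_upper {ι : Type} [Fintype ι] [DecidableEq ι] (J : SimpleGraph ι)
    [DecidableRel J.Adj] (I : Finset ι) (hI : ∀ v ∈ I, ∀ w, ¬ J.Adj v w)
    (hI' : ∀ v, v ∉ I → ∃ w, J.Adj v w) {β : ℝ} (hβ : 0 < β) (hβ1 : β < 1)
    (hc : Nonempty {v // v ∉ I} → PairC (J.comap (Subtype.val : {v // v ∉ I} → ι)) 1 β ∧
      Qc (J.comap (Subtype.val : {v // v ∉ I} → ι)) β < 1) :
    ∃ R₀ : ℕ, ∀ R r : ℕ, R₀ ≤ R → 1 ≤ r → (r : ℝ) ≤ β * R →
      r + 2 ≤ R ∧ ∃ m₀ : ℕ, ∀ m : ℕ, m₀ ≤ m →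
      ∀ (n : ℕ) (G : SimpleGraph (Fin n)), Allowed 1 (R * m + r) (R + 1) G →
        ((G.labelledCopyCount (jn J 1) : ℕ) : ℝ) ≤
          ((R * m + r - Fintype.card {v // v ∉ I}).descFactorial I.card : ℝ) *
            rhoG (J.comap (Subtype.val : {v // v ∉ I} → ι)) 1 R r m * (kc 1 G : ℝ) := by
  classical
  obtain ⟨R₀, hup⟩ := upperB0 J I hI hI' hβ hβ1 hc
  refine ⟨R₀, fun R r hR hr hcase => ?_⟩
  obtain ⟨hrR, m₀, hm₀⟩ := hup R r hR hr hcase
  refine ⟨hrR, m₀, fun m hm n G hG => ?_⟩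
  rw [allowed_iff] at hG
  rw [kc_eq_clq, ← emb_eq_labelled]
  refine hm₀ m hm (Fin n) G ?_ ?_
  · intro U hU
    rw [mem_clq] at hU
    have h1 : G.IsNClique 1 U := by
      rw [SimpleGraph.isNClique_iff]
      exact ⟨fun a ha b hb hab => hU.2 a ha b hb hab, hU.1.2⟩
    have h2 := hG.1 U h1
    have h3 : (cns G U).ncard = (H57LC.cn G U).card := by
      rw [← Set.ncard_coe_finset]
      congr 1
      ext v
      simp [cns, H57LC.mem_cn]
    rw [← h3]
    exact h2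
  · rw [eq_empty_iff_forall_notMem]
    intro A hA
    rw [mem_clq] at hA
    refine hG.2 A ?_
    rw [SimpleGraph.isNClique_iff]
    exact ⟨fun a ha b hb hab => hA.2 a ha b hb hab, hA.1.2⟩

/-- optimality of `DL` -/
theorem main_DB {W : Type} [Fintype W] [DecidableEq W] (H : SimpleGraph W) [DecidableRel H.Adj]
    (x₀ : W) (hdom : ∀ y, y ≠ x₀ → H.Adj x₀ y) (hδ : H.minDegree = 1) {β : ℝ} (hβ : 0 < β)
    (hβ1 : β < 1)
    (hc : Nonempty {x : W // x ≠ x₀ ∧ 1 < H.degree x} →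
      PairC (H.comap (Subtype.val : {x : W // x ≠ x₀ ∧ 1 < H.degree x} → W)) 1 β ∧
      Qc (H.comap (Subtype.val : {x : W // x ≠ x₀ ∧ 1 < H.degree x} → W)) β < 1) :
    ∃ R₀ : ℕ, ∀ R r : ℕ, R₀ ≤ R → 1 ≤ r → (r : ℝ) ≤ β * R →
    ∃ m₀ : ℕ, ∀ m : ℕ, m₀ ≤ m →
      (∀ p : ℕ, exH H 1 (R * m + r) (R + 1) p * kc 1 (DL (R + 1) m r) ≤
        p * (DL (R + 1) m r).copyCount H) ∧
      (∀ q : ℕ, exH H 1 (R * m + r) (R + 1) (q * kc 1 (DL (R + 1) m r)) =
        q * (DL (R + 1) m r).copyCount H) ∧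
      Tendsto (fun p : ℕ => (exH H 1 (R * m + r) (R + 1) p : ℝ) / p) atTop
        (𝓝 (((DL (R + 1) m r).copyCount H : ℝ) / kc 1 (DL (R + 1) m r))) := by
  classical
  set J : SimpleGraph {x : W // ¬ x ∈ ({x₀} : Finset W)} := H.comap (fun x => (x : W)) with hJ
  have e : jn J 1 ≃g H := FinalD_iso H 1 {x₀} (card_singleton x₀) (by
    intro x hx y hy
    rw [mem_singleton] at hx
    subst hx
    exact hdom y hy)
  set I : Finset {x : W // ¬ x ∈ ({x₀} : Finset W)} :=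
    univ.filter fun v => ∀ w, ¬ J.Adj v w with hIdef
  have hI : ∀ v ∈ I, ∀ w, ¬ J.Adj v w := fun v hv => (mem_filter.1 hv).2
  have hI' : ∀ v, v ∉ I → ∃ w, J.Adj v w := by
    intro v hv
    by_contra h
    push Not at h
    exact hv (mem_filter.2 ⟨mem_univ v, h⟩)
  -- the degree of the vertices outside `I`
  have hdeg : ∀ v : {x : W // ¬ x ∈ ({x₀} : Finset W)}, v ∉ I ↔ 1 < H.degree (v : W) := by
    intro v
    have hv : (v : W) ≠ x₀ := fun h => v.2 (by rw [h]; exact mem_singleton_self _)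
    have hx0 : x₀ ∈ H.neighborFinset (v : W) := by
      rw [SimpleGraph.mem_neighborFinset]
      exact (hdom _ hv).symm
    constructor
    · intro h
      obtain ⟨w, hw⟩ := hI' v h
      have hw' : (w : W) ∈ H.neighborFinset (v : W) := by
        rw [SimpleGraph.mem_neighborFinset]
        exact hw
      have hne : (w : W) ≠ x₀ := fun h => w.2 (by rw [h]; exact mem_singleton_self _)
      rw [← SimpleGraph.card_neighborFinset_eq_degree]
      exact one_lt_card.2 ⟨_, hw', _, hx0, hne⟩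
    · intro h hv'
      rw [← SimpleGraph.card_neighborFinset_eq_degree] at h
      obtain ⟨w, hw, hne⟩ := exists_mem_ne h x₀
      rw [SimpleGraph.mem_neighborFinset] at hw
      exact hI v hv' ⟨w, by rw [mem_singleton]; exact hne⟩ hw
  have e' : H.comap (Subtype.val : {x : W // x ≠ x₀ ∧ 1 < H.degree x} → W) ≃g
      J.comap (Subtype.val : {v // v ∉ I} → {x : W // ¬ x ∈ ({x₀} : Finset W)}) :=
    { toFun := fun x => ⟨⟨x.1, by rw [mem_singleton]; exact x.2.1⟩, (hdeg _).2 x.2.2⟩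
      invFun := fun v => ⟨v.1.1, fun h => v.1.2 (by rw [h]; exact mem_singleton_self _),
        (hdeg _).1 v.2⟩
      left_inv := fun x => rfl
      right_inv := fun v => rfl
      map_rel_iff' := by
        intro a b
        exact Iff.rfl }
  obtain ⟨R₀, hup⟩ := BFin_upper J I hI hI' hβ hβ1 (fun hn => by
    have hn' : Nonempty {x : W // x ≠ x₀ ∧ 1 < H.degree x} := hn.map e'.symm
    obtain ⟨h1, h2⟩ := hc hn'
    exact ⟨BFin_pair e' h1, by rw [← Qc_congr e']; exact h2⟩)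
  obtain ⟨A, hA, hlab⟩ := labelled_eq_mul (jn J 1)
  have hA' : (0 : ℝ) < A := by exact_mod_cast hA
  refine ⟨max R₀ 1, fun R r hR hr hcase => ?_⟩
  obtain ⟨hrR, m₀, hm₀⟩ := hup R r (le_trans (le_max_left _ _) hR) hr hcase
  have hR1 : 1 ≤ R := le_trans (le_max_right _ _) hR
  refine ⟨max m₀ 1, fun m hm => ?_⟩
  have hm1 : 1 ≤ m := le_trans (le_max_right _ _) hm
  have hr3 : r < R + 1 := by omega
  have hk : 0 < kc 1 (DL (R + 1) m r) := by
    rw [kc_one_DL]
    have : 0 < (R + 1) * m := Nat.mul_pos (by omega) hm1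
    omega
  have hk' : (0 : ℝ) < (kc 1 (DL (R + 1) m r) : ℝ) := by exact_mod_cast hk
  have hDL := FinalD_DL J I hI hI' hR1 hm1 hr3
  set Λ : ℝ := ((R * m + r - Fintype.card {v // v ∉ I}).descFactorial I.card : ℝ) *
    rhoG (J.comap (Subtype.val : {v // v ∉ I} → _)) 1 R r m with hΛ
  have hmain := lim_gen (jn J 1) (u := 1) (Δ := R * m + r) (ω := R + 1) le_rfl (by omega)
    (by
      rw [Fintype.card_congr e.toEquiv]
      exact Fintype.card_pos_iff.2 ⟨x₀⟩)
    (FinalD_cl (jn J 1)) (DL (R + 1) m r) (DL_allowed hR1 hm1 hr3) hk (by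
      intro n G hG
      have h := hm₀ m (le_trans (le_max_left _ _) hm) n G hG
      rw [hlab] at h hDL
      have h1 : (A : ℝ) * ((G.copyCount (jn J 1) : ℝ) * (kc 1 (DL (R + 1) m r) : ℝ)) ≤
          A * ((kc 1 G : ℝ) * ((DL (R + 1) m r).copyCount (jn J 1) : ℝ)) := by
        push_cast at h hDL
        calc (A : ℝ) * ((G.copyCount (jn J 1) : ℝ) * (kc 1 (DL (R + 1) m r) : ℝ))
            = (A * (G.copyCount (jn J 1) : ℝ)) * (kc 1 (DL (R + 1) m r) : ℝ) := by ring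
          _ ≤ (Λ * (kc 1 G : ℝ)) * (kc 1 (DL (R + 1) m r) : ℝ) :=
              mul_le_mul_of_nonneg_right h hk'.le
          _ = (kc 1 G : ℝ) * (Λ * (kc 1 (DL (R + 1) m r) : ℝ)) := by ring
          _ = (kc 1 G : ℝ) * (A * ((DL (R + 1) m r).copyCount (jn J 1) : ℝ)) := by rw [hDL]
          _ = _ := by ring
      have h2 := le_of_mul_le_mul_left h1 hA'
      exact_mod_cast h2)
  simp only [FinalD_copyCount_congr e, FinalD_exH_congr e] at hmain
  exact hmain

end H57GH
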