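import Pool.Agent.H57.GH.BDefs

/-!
Project SB: decomposition into pieces.
-/

namespace H57GH

open Finset H57LC H57LT

set_option linter.unusedSectionVars false

theorem BPiece_pow (a : ℕ) (x y M : ℝ) (hx : 0 ≤ x) (hxy : x ≤ y) (hy : y ≤ M) :
    y ^ (a + 1) ≤ x ^ (a + 1) + (a + 1) * M ^ a * (y - x) := by
  have hM : 0 ≤ M := by linarith only [hy, hxy, hx]
  have hy0 : 0 ≤ y := by linarith only [hxy, hx]
  have hd : 0 ≤ y - x := by linarith only [hxy]
  induction a with
  | zero => simp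
  | succ a ih =>
    have h1 : x ^ (a + 1) ≤ M ^ (a + 1) := pow_le_pow_left₀ hx (by linarith only [hy, hxy]) _
    have h2 : 0 ≤ ((a : ℝ) + 1) * M ^ a * (y - x) := by positivity
    calc y ^ (a + 1 + 1) = y * y ^ (a + 1) := by ring
      _ ≤ y * (x ^ (a + 1) + (a + 1) * M ^ a * (y - x)) := mul_le_mul_of_nonneg_left ih hy0
      _ = x ^ (a + 1 + 1) + (y - x) * x ^ (a + 1) + y * ((a + 1) * M ^ a * (y - x)) := by ring
      _ ≤ x ^ (a + 1 + 1) + (y - x) * M ^ (a + 1) + M * ((a + 1) * M ^ a * (y - x)) := by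
          have h3 := mul_le_mul_of_nonneg_left h1 hd
          have h4 := mul_le_mul_of_nonneg_right hy h2
          linarith only [h4, h3]
      _ = x ^ (a + 1 + 1) + (((a + 1 : ℕ) : ℝ) + 1) * M ^ (a + 1) * (y - x) := by
          push_cast; ring

theorem BPiece_union {V : Type} [DecidableEq V] (A : V → Finset V) (c : ℝ) (hc : 0 ≤ c)
    (U : Finset V) (h : ∀ x ∈ U, ∀ y ∈ U, x ≠ y → ((A x ∩ A y).card : ℝ) ≤ c) :
    ∑ x ∈ U, ((A x).card : ℝ) ≤ ((U.biUnion A).card : ℝ) + c * (U.card : ℝ) ^ 2 := by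
  induction U using Finset.induction_on with
  | empty => simp
  | insert x U hx ih =>
    have ih' := ih fun y hy z hz => h y (mem_insert_of_mem hy) z (mem_insert_of_mem hz)
    rw [sum_insert hx, biUnion_insert, card_insert_of_notMem hx]
    have h1 : ((A x ∩ U.biUnion A).card : ℝ) ≤ c * U.card := by
      rw [inter_biUnion]
      calc ((U.biUnion (fun y => A x ∩ A y)).card : ℝ) ≤ ∑ y ∈ U, ((A x ∩ A y).card : ℝ) := by
            exact_mod_cast card_biUnion_le
        _ ≤ ∑ y ∈ U, c := sum_le_sum fun y hy => h x (mem_insert_self x U) y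
            (mem_insert_of_mem hy) (by rintro rfl; exact hx hy)
        _ = c * U.card := by rw [sum_const, nsmul_eq_mul, mul_comm]
    have h3 : ((A x ∪ U.biUnion A).card : ℝ) + ((A x ∩ U.biUnion A).card : ℝ) =
        (A x).card + (U.biUnion A).card := by
      exact_mod_cast card_union_add_card_inter (A x) (U.biUnion A)
    push_cast
    have h4 : (0:ℝ) ≤ U.card := by positivity
    linarith only [h3, h1, ih', hc]

theorem BPiece_num1 {N m R C θ ε' y t Sz : ℝ} (hm : 0 < m) (hN : N = R * m) (hθ : 0 < θ)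
    (hθ1 : θ ≤ 1) (hε : 0 < ε') (hε1 : ε' ≤ 1) (hy : θ ≤ y) (hR : 100 ≤ R * (θ * ε'))
    (hC : 0 ≤ C) (hC1 : 100 * C ≤ N * (θ * ε')) (hSz : Sz ≤ 2 * N)
    (h : t * (y * N - 4 * m) ≤ y * N * (y * N + 2 * m) + C * Sz) : t ≤ (y + ε') * N := by
  have hy0 : 0 < y := by linarith only [hy, hθ]
  have hR0 : 0 < R := by
    by_contra hcon
    push Not at hcon
    have : R * (θ * ε') ≤ 0 := mul_nonpos_of_nonpos_of_nonneg hcon (by positivity)
    linarith only [this, hR]
  have hN0 : 0 < N := by rw [hN]; positivity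
  have h1 : 100 * m ≤ N * (θ * ε') := by
    rw [hN]
    calc 100 * m ≤ R * (θ * ε') * m := mul_le_mul_of_nonneg_right hR hm.le
      _ = _ := by ring
  have h2 : N * (θ * ε') ≤ N * (y * ε') := by gcongr
  have h3 : N * (y * ε') ≤ N * y := by
    have : N * y * ε' ≤ N * y * 1 := by gcongr
    linarith only [this]
  have hpos : 0 < y * N - 4 * m := by
    have h5 : N * (y * ε') ≤ y * N := by linarith only [h3]
    linarith only [h3, h2, h1, hm]
  have h6 : 100 * (m * y) ≤ ε' * y * N := by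
    have : 100 * m * y ≤ N * (θ * ε') * y := mul_le_mul_of_nonneg_right h1 hy0.le
    have h7 : N * (θ * ε') * y ≤ N * (1 * ε') * y := by gcongr
    linarith only [h7, this]
  have h8 : 100 * (m * ε') ≤ ε' * y * N := by
    have : m * ε' ≤ m * 1 := by gcongr
    linarith only [this, h2, h1]
  have h9 : 100 * C ≤ ε' * y * N := by linarith only [h2, hC1]
  have h10 : y * N * (y * N + 2 * m) + C * Sz ≤ (y + ε') * N * (y * N - 4 * m) := by
    have h11 : C * Sz ≤ C * (2 * N) := mul_le_mul_of_nonneg_left hSz hC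
    have h12 : 6 * (m * y) + 4 * (m * ε') + 2 * C ≤ ε' * y * N := by linarith only [h8, h6, h2, h1,
                                                                       hC1, hm]
    have h13 := mul_le_mul_of_nonneg_right h12 hN0.le
    linarith only [h13, h11]
  have h14 := h.trans h10
  exact le_of_mul_le_mul_right h14 hpos

theorem BPiece_B {s b : ℕ} {B : ℝ} (hB : B = ((s : ℝ) + 1) * 3 ^ s) (hb : b + 1 ≤ s) :
    ((b : ℝ) + 1) * 3 ^ b ≤ B ∧ (2 : ℝ) ^ (b + 1) ≤ B ∧ ((b : ℝ) + 1) * 2 ^ (b + 1) ≤ B ∧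
      ((b : ℝ) + 1) * 2 ^ b ≤ B := by
  have hb' : (b : ℝ) + 1 ≤ s := by exact_mod_cast hb
  have h1 : (3 : ℝ) ^ b ≤ 3 ^ s := pow_le_pow_right₀ (by norm_num) (by omega)
  have h2 : (2 : ℝ) ^ (b + 1) ≤ 3 ^ s :=
    (pow_le_pow_left₀ (by norm_num) (by norm_num) _).trans
      (pow_le_pow_right₀ (by norm_num) hb)
  have h3 : (2 : ℝ) ^ b ≤ 2 ^ (b + 1) := pow_le_pow_right₀ (by norm_num) (by omega)
  have h4 : (0 : ℝ) ≤ b := by positivity
  have h5 : (1 : ℝ) ≤ 3 ^ s := one_le_pow₀ (by norm_num)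
  subst hB
  refine ⟨?_, ?_, ?_, ?_⟩
  · exact mul_le_mul (by linarith only [hb']) h1 (by positivity) (by linarith only [])
  · calc (2 : ℝ) ^ (b + 1) ≤ 1 * 3 ^ s := by linarith only [h2]
      _ ≤ _ := mul_le_mul_of_nonneg_right (by linarith only []) (by positivity)
  · exact mul_le_mul (by linarith only [hb']) h2 (by positivity) (by linarith only [])
  · exact mul_le_mul (by linarith only [hb']) (h3.trans h2) (by positivity) (by linarith only [])

theorem BPiece_num2 {s b : ℕ} {B y ρ γ : ℝ} (hB : B = ((s : ℝ) + 1) * 3 ^ s) (hb : b + 1 ≤ s)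
    (hy : 0 ≤ y) (hy2 : y ≤ 2) (hρ : 0 ≤ ρ) (hρ1 : ρ ≤ 1 / 2) (hγ : 0 ≤ γ) :
    y * (y + 2 * ρ) ^ (b + 1) + γ * 2 ^ (b + 1) ≤ y ^ (b + 1 + 1) + 4 * B * ρ + B * γ := by
  obtain ⟨h1, h2, h3, h4⟩ := BPiece_B hB hb
  have h5 := BPiece_pow b y (y + 2 * ρ) 3 hy (by linarith only [hρ]) (by linarith only [hρ1, hy2])
  have h6 : y * (y + 2 * ρ) ^ (b + 1) ≤ y * (y ^ (b + 1) + B * (2 * ρ)) := by
    apply mul_le_mul_of_nonneg_left _ hy
    refine h5.trans ?_
    have h7 : ((b : ℝ) + 1) * 3 ^ b * (y + 2 * ρ - y) ≤ B * (y + 2 * ρ - y) :=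
      mul_le_mul_of_nonneg_right h1 (by linarith only [hρ])
    have h8 : y + 2 * ρ - y = 2 * ρ := by ring
    rw [h8] at h7 ⊢
    linarith only [h7]
  have hB0 : 0 ≤ B := le_trans (by positivity) h2
  have h9 : y * (B * (2 * ρ)) ≤ 2 * (B * (2 * ρ)) := mul_le_mul_of_nonneg_right hy2 (by positivity)
  have h10 : γ * 2 ^ (b + 1) ≤ γ * B := mul_le_mul_of_nonneg_left h2 hγ
  have h11 : y ^ (b + 1 + 1) = y * y ^ (b + 1) := by ring
  rw [h11]
  linarith only [h10, h9, h6]

theorem BPiece_num3 {s b : ℕ} {B p q lam : ℝ} (hB : B = ((s : ℝ) + 1) * 3 ^ s) (hb : b + 1 ≤ s)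
    (hp : 0 ≤ p) (hp1 : p ≤ 1) (hq : 0 ≤ q) (hq1 : q ≤ 1) (hl : 0 ≤ lam) (hl1 : lam ≤ 1) :
    (q + lam) * (p + lam) ^ (b + 1) ≤ q * p ^ (b + 1) + 3 * B * lam := by
  obtain ⟨h1, h2, h3, h4⟩ := BPiece_B hB hb
  have h5 := BPiece_pow b p (p + lam) 2 hp (by linarith only [hl]) (by linarith only [hl1, hp1])
  have h8 : p + lam - p = lam := by ring
  rw [h8] at h5
  have h6 : (p + lam) ^ (b + 1) ≤ p ^ (b + 1) + B * lam :=
    h5.trans (by linarith only [mul_le_mul_of_nonneg_right h4 hl])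
  have h7 : p ^ (b + 1) ≤ 1 := pow_le_one₀ hp hp1
  have hB1 : 1 ≤ B := (one_le_pow₀ (by norm_num)).trans h2
  have h9 : (q + lam) * (p + lam) ^ (b + 1) ≤ (q + lam) * (p ^ (b + 1) + B * lam) :=
    mul_le_mul_of_nonneg_left h6 (by linarith only [hl, hq])
  have h10 : lam * p ^ (b + 1) ≤ lam * 1 := mul_le_mul_of_nonneg_left h7 hl
  have h11 : (q + lam) * (B * lam) ≤ 2 * (B * lam) :=
    mul_le_mul_of_nonneg_right (by linarith only [hl1, hq1]) (by positivity)
  have h12 : lam * 1 ≤ lam * B := mul_le_mul_of_nonneg_left hB1 hl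
  linarith only [h12, h11, h10, h9]

theorem BPiece_num4 {s b : ℕ} {B y ρ γ : ℝ} (hB : B = ((s : ℝ) + 1) * 3 ^ s) (hb : b + 1 ≤ s)
    (hy : 0 ≤ y) (hy2 : y ≤ 2) (hρ : 0 ≤ ρ) (hγ : 0 ≤ γ) :
    ((b : ℝ) + 1) * 2 ^ b * (y * (2 * ρ) + γ * 2) ≤ 4 * B * ρ + B * γ := by
  obtain ⟨h1, h2, h3, h4⟩ := BPiece_B hB hb
  have h5 : ((b : ℝ) + 1) * 2 ^ b * (y * (2 * ρ)) ≤ B * (2 * (2 * ρ)) := by
    apply mul_le_mul h4 _ (by positivity) (le_trans (by positivity) h2)
    exact mul_le_mul_of_nonneg_right hy2 (by positivity)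
  have h6 : ((b : ℝ) + 1) * 2 ^ (b + 1) * γ ≤ B * γ := mul_le_mul_of_nonneg_right h3 hγ
  have h7 : ((b : ℝ) + 1) * 2 ^ (b + 1) * γ = ((b : ℝ) + 1) * 2 ^ b * (γ * 2) := by ring
  rw [h7] at h6
  linarith only [h6, h5]

section
variable {V : Type} [DecidableEq V] (G : SimpleGraph V) [DecidableRel G.Adj]

/-- the neighbours of `x` in `S` -/
def BPiece_nb (S : Finset V) (x : V) : Finset V := S.filter fun y => G.Adj x y

/-- the bad neighbours of `x` -/
def BPiece_bad (S : Finset V) (m : ℕ) (x : V) : Finset V := S.filter fun y => G.Adj x y ∧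
    ¬ ((S.filter fun z => G.Adj y z ∧ ¬ G.Adj x z).card ≤ 2 * m ∧
      (S.filter fun z => G.Adj x z ∧ ¬ G.Adj y z).card ≤ 2 * m)

theorem BPiece_good {S : Finset V} {m : ℕ} {x y : V} (h1 : y ∈ BPiece_nb G S x)
    (h2 : y ∉ BPiece_bad G S m x) :
    (BPiece_nb G S y \ BPiece_nb G S x).card ≤ 2 * m ∧
      (BPiece_nb G S x \ BPiece_nb G S y).card ≤ 2 * m := by
  unfold BPiece_nb at *
  unfold BPiece_bad at h2
  rw [mem_filter] at h1 h2
  have h3 : (S.filter fun z => G.Adj y z ∧ ¬ G.Adj x z).card ≤ 2 * m ∧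
      (S.filter fun z => G.Adj x z ∧ ¬ G.Adj y z).card ≤ 2 * m := by
    by_contra h4
    exact h2 ⟨h1.1, h1.2, h4⟩
  have e : ∀ u v : V, (S.filter fun z => G.Adj u z) \ (S.filter fun z => G.Adj v z) =
      S.filter fun z => G.Adj u z ∧ ¬ G.Adj v z := by
    intro u v
    ext z
    simp only [mem_sdiff, mem_filter, not_and]
    tauto
  rw [e, e]
  exact h3

theorem BPiece_close {S T : Finset V} {m : ℕ} {C : ℝ} (hP : PieceC G S T m C) {x x' : V}
    (hx : x ∈ T) (hx' : x' ∈ T)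
    (h : 2 * C < ((BPiece_nb G S x ∩ BPiece_nb G S x').card : ℝ)) :
    (BPiece_nb G S x \ BPiece_nb G S x').card ≤ 4 * m := by
  have h1 : ((BPiece_bad G S m x).card : ℝ) ≤ C := hP x hx
  have h2 : ((BPiece_bad G S m x').card : ℝ) ≤ C := hP x' hx'
  have h3 : ((BPiece_bad G S m x ∪ BPiece_bad G S m x').card : ℝ) ≤
      (BPiece_bad G S m x).card + (BPiece_bad G S m x').card := by
    exact_mod_cast card_union_le _ _
  have h4 : (BPiece_bad G S m x ∪ BPiece_bad G S m x').card <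
      (BPiece_nb G S x ∩ BPiece_nb G S x').card := by
    have : ((BPiece_bad G S m x ∪ BPiece_bad G S m x').card : ℝ) <
      ((BPiece_nb G S x ∩ BPiece_nb G S x').card : ℝ) := by linarith only [h3, h2, h1, h]
    exact_mod_cast this
  obtain ⟨y, hy1, hy2⟩ := exists_mem_notMem_of_card_lt_card h4
  rw [mem_inter] at hy1
  rw [mem_union, not_or] at hy2
  have h5 := (BPiece_good G hy1.1 hy2.1).2
  have h6 := (BPiece_good G hy1.2 hy2.2).1
  calc (BPiece_nb G S x \ BPiece_nb G S x').card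
      ≤ ((BPiece_nb G S x \ BPiece_nb G S y) ∪ (BPiece_nb G S y \ BPiece_nb G S x')).card := by
        apply card_le_card
        intro z hz
        simp only [mem_union, mem_sdiff] at hz ⊢
        tauto
    _ ≤ _ := card_union_le _ _
    _ ≤ 2 * m + 2 * m := add_le_add h5 h6
    _ = 4 * m := by ring

theorem BPiece_card_le {S : Finset V} {c : ℕ} {x y : V}
    (h : (BPiece_nb G S x \ BPiece_nb G S y).card ≤ c) : dg G S x ≤ dg G S y + c := by
  have h1 : (BPiece_nb G S x).card ≤ (BPiece_nb G S y).card +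
      (BPiece_nb G S x \ BPiece_nb G S y).card := by
    rw [add_comm]
    exact card_le_card_sdiff_add_card
  exact h1.trans (Nat.add_le_add_left h _)

theorem BPiece_sumA {S T : Finset V} {m : ℕ} {C : ℝ} (hP : PieceC G S T m C) {x : V}
    (hx : x ∈ T) (a : ℕ) :
    ∑ y ∈ BPiece_nb G S x, (dg G S y : ℝ) ^ a ≤
      (dg G S x : ℝ) * ((dg G S x : ℝ) + 2 * m) ^ a + C * (S.card : ℝ) ^ a := by
  have h1 : ((BPiece_bad G S m x).card : ℝ) ≤ C := hP x hx
  have h2 : ∀ y ∈ BPiece_nb G S x, (dg G S y : ℝ) ^ a ≤ ((dg G S x : ℝ) + 2 * m) ^ a +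
      (if y ∈ BPiece_bad G S m x then (S.card : ℝ) ^ a else 0) := by
    intro y hy
    split_ifs with hb
    · have h3 : (dg G S y : ℝ) ≤ S.card := by
        have : dg G S y ≤ S.card := card_filter_le _ _
        exact_mod_cast this
      have h4 : (dg G S y : ℝ) ^ a ≤ (S.card : ℝ) ^ a := pow_le_pow_left₀ (by positivity) h3 a
      have h5 : 0 ≤ ((dg G S x : ℝ) + 2 * m) ^ a := by positivity
      linarith only [h5, h4]
    · rw [add_zero]
      apply pow_le_pow_left₀ (by positivity)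
      exact_mod_cast BPiece_card_le G (BPiece_good G hy hb).1
  refine (sum_le_sum h2).trans ?_
  rw [sum_add_distrib, sum_const, nsmul_eq_mul]
  have h6 : ∑ y ∈ BPiece_nb G S x, (if y ∈ BPiece_bad G S m x then (S.card : ℝ) ^ a else 0) ≤
      C * (S.card : ℝ) ^ a := by
    rw [← sum_filter, sum_const, nsmul_eq_mul]
    have h7 : (((BPiece_nb G S x).filter fun y => y ∈ BPiece_bad G S m x).card : ℝ) ≤
        (BPiece_bad G S m x).card := by
      have : ((BPiece_nb G S x).filter fun y => y ∈ BPiece_bad G S m x).card ≤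
        (BPiece_bad G S m x).card := card_le_card fun z hz => (mem_filter.1 hz).2
      exact_mod_cast this
    exact mul_le_mul_of_nonneg_right (h7.trans h1) (by positivity)
  have h8 : ((BPiece_nb G S x).card : ℝ) = (dg G S x : ℝ) := rfl
  rw [h8]
  linarith only [h6]

theorem BPiece_out {S T : Finset V} {m : ℕ} {C : ℝ} (hP : PieceC G S T m C) {x : V}
    (hx : x ∈ T) :
    ∑ y ∈ BPiece_nb G S x, ((BPiece_nb G S y \ BPiece_nb G S x).card : ℝ) ≤
      (dg G S x : ℝ) * (2 * m) + C * (S.card : ℝ) := by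
  have h1 : ((BPiece_bad G S m x).card : ℝ) ≤ C := hP x hx
  have h2 : ∀ y ∈ BPiece_nb G S x, ((BPiece_nb G S y \ BPiece_nb G S x).card : ℝ) ≤
      2 * m + (if y ∈ BPiece_bad G S m x then (S.card : ℝ) else 0) := by
    intro y hy
    split_ifs with hb
    · have h3 : (BPiece_nb G S y \ BPiece_nb G S x).card ≤ S.card :=
        (card_le_card sdiff_subset).trans (card_filter_le _ _)
      have h4 : ((BPiece_nb G S y \ BPiece_nb G S x).card : ℝ) ≤ S.card := by exact_mod_cast h3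
      have h5 : (0 : ℝ) ≤ 2 * m := by positivity
      linarith only [h4]
    · rw [add_zero]
      exact_mod_cast (BPiece_good G hy hb).1
  refine (sum_le_sum h2).trans ?_
  rw [sum_add_distrib, sum_const, nsmul_eq_mul]
  have h6 : ∑ y ∈ BPiece_nb G S x, (if y ∈ BPiece_bad G S m x then (S.card : ℝ) else 0) ≤
      C * (S.card : ℝ) := by
    rw [← sum_filter, sum_const, nsmul_eq_mul]
    have h7 : (((BPiece_nb G S x).filter fun y => y ∈ BPiece_bad G S m x).card : ℝ) ≤
        (BPiece_bad G S m x).card := by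
      have : ((BPiece_nb G S x).filter fun y => y ∈ BPiece_bad G S m x).card ≤
        (BPiece_bad G S m x).card := card_le_card fun z hz => (mem_filter.1 hz).2
      exact_mod_cast this
    exact mul_le_mul_of_nonneg_right (h7.trans h1) (by positivity)
  have h8 : ((BPiece_nb G S x).card : ℝ) = (dg G S x : ℝ) := rfl
  rw [h8]
  linarith only [h6]

theorem BPiece_edges (P Q : Finset V) :
    ∑ x ∈ P, ((Q.filter fun y => G.Adj x y).card : ℝ) =
      ∑ y ∈ Q, ((P.filter fun x => G.Adj y x).card : ℝ) := by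
  simp only [card_filter, Nat.cast_sum]
  rw [sum_comm]
  refine sum_congr rfl fun y _ => sum_congr rfl fun x _ => ?_
  simp only [G.adj_comm]

theorem BPiece_choice {S T : Finset V} {R r m : ℕ} {C θ : ℝ} (hθ : 0 < θ) (hC : 0 ≤ C)
    (hcard : S.card ≤ R * m + r) (hr : r ≤ R) (hdeg : ∀ x ∈ T, θ * R * m < (dg G S x : ℝ))
    (hN1 : 2 * C < θ * R * m) (hN2 : (R : ℝ) + 2 * C * (2 / θ + 1) ^ 2 < R * m) :
    ∃ U ⊆ T, (∀ x ∈ U, ∀ y ∈ U, x ≠ y →
        ((BPiece_nb G S x ∩ BPiece_nb G S y).card : ℝ) ≤ 2 * C) ∧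
      (∀ x ∈ T, ∃ u ∈ U, 2 * C < ((BPiece_nb G S x ∩ BPiece_nb G S u).card : ℝ)) ∧
      (U.card : ℝ) ≤ 2 / θ := by
  classical
  set F : Finset (Finset V) := T.powerset.filter fun U => ∀ x ∈ U, ∀ y ∈ U, x ≠ y →
    ((BPiece_nb G S x ∩ BPiece_nb G S y).card : ℝ) ≤ 2 * C with hF
  have hFne : F.Nonempty := ⟨∅, by simp [hF]⟩
  obtain ⟨U, hU, hmax⟩ := exists_max_image F (fun U => U.card) hFne
  rw [hF, mem_filter, mem_powerset] at hU
  obtain ⟨hUT, hUp⟩ := hU
  refine ⟨U, hUT, hUp, ?_, ?_⟩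
  · intro x hx
    by_contra hcon
    push Not at hcon
    have hxU : x ∉ U := by
      intro hxU
      have h1 := hcon x hxU
      rw [inter_self] at h1
      have h2 := hdeg x hx
      have h3 : ((BPiece_nb G S x).card : ℝ) = (dg G S x : ℝ) := rfl
      linarith only [h3, h2, h1, hN1]
    have h4 : insert x U ∈ F := by
      rw [hF, mem_filter, mem_powerset]
      refine ⟨insert_subset hx hUT, ?_⟩
      intro y hy z hz hyz
      rw [mem_insert] at hy hz
      rcases hy with rfl | hy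
      · rcases hz with rfl | hz
        · exact absurd rfl hyz
        · exact hcon z hz
      · rcases hz with rfl | hz
        · rw [inter_comm]
          exact hcon y hy
        · exact hUp y hy z hz hyz
    have h5 := hmax _ h4
    rw [card_insert_of_notMem hxU] at h5
    omega
  · by_contra hcon
    push Not at hcon
    have h0 : 0 ≤ 2 / θ := by positivity
    have h1 : ⌊2 / θ⌋₊ < U.card := (Nat.floor_lt h0).2 hcon
    obtain ⟨U', hU', hc'⟩ := exists_subset_card_eq (s := U) (n := ⌊2 / θ⌋₊ + 1) (by omega)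
    have h2 := BPiece_union (BPiece_nb G S) (2 * C) (by linarith only [hC]) U'
      (fun x hx y hy => hUp x (hU' hx) y (hU' hy))
    have h3 : (2 / θ) < (U'.card : ℝ) := by
      rw [hc']
      push_cast
      exact Nat.lt_floor_add_one _
    have h4 : (U'.card : ℝ) ≤ 2 / θ + 1 := by
      rw [hc']
      push_cast
      linarith only [Nat.floor_le h0]
    have h5 : (U'.card : ℝ) * (θ * R * m) ≤ ∑ x ∈ U', ((BPiece_nb G S x).card : ℝ) := by
      rw [← nsmul_eq_mul, ← sum_const]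
      exact sum_le_sum fun x hx => (hdeg x (hUT (hU' hx))).le
    have h6 : ((U'.biUnion (BPiece_nb G S)).card : ℝ) ≤ R * m + R := by
      have h7 : (U'.biUnion (BPiece_nb G S)).card ≤ S.card := by
        apply card_le_card
        rw [biUnion_subset]
        exact fun x _ => filter_subset _ _
      have h8 : (U'.biUnion (BPiece_nb G S)).card ≤ R * m + R := by omega
      exact_mod_cast h8
    have h9 : 2 * ((R : ℝ) * m) ≤ (U'.card : ℝ) * (θ * R * m) := by
      have h10 : 2 ≤ (U'.card : ℝ) * θ := by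
        have := mul_le_mul_of_nonneg_right h3.le hθ.le
        rwa [div_mul_cancel₀ _ hθ.ne'] at this
      have h11 : 0 ≤ (R : ℝ) * m := by positivity
      calc 2 * ((R : ℝ) * m) ≤ ((U'.card : ℝ) * θ) * (R * m) :=
            mul_le_mul_of_nonneg_right h10 h11
        _ = _ := by ring
    have h12 : 2 * C * (U'.card : ℝ) ^ 2 ≤ 2 * C * (2 / θ + 1) ^ 2 := by
      apply mul_le_mul_of_nonneg_left _ (by linarith only [hC])
      exact pow_le_pow_left₀ (by positivity) h4 2
    linarith only [h12, h9, h6, h5, h2, hN2]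

end

theorem BPiece_sumU {V : Type} [DecidableEq V] (A : V → Finset V) (f : V → ℝ)
    (hf : ∀ x, 0 ≤ f x) (U : Finset V) :
    ∑ y ∈ U.biUnion A, f y ≤ ∑ u ∈ U, ∑ y ∈ A u, f y := by
  induction U using Finset.induction_on with
  | empty => simp
  | insert x U hx ih =>
    rw [sum_insert hx, biUnion_insert]
    have h1 := sum_union_inter (s₁ := A x) (s₂ := U.biUnion A) (f := f)
    have h2 : 0 ≤ ∑ y ∈ A x ∩ U.biUnion A, f y := sum_nonneg fun y _ => hf y
    linarith only [h2, h1, ih]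

theorem BPiece_small {B L N R θ ε' C k : ℝ} (hθ : 0 < θ) (hθ1 : θ ≤ 1 / 4)
    (hε : 0 < ε') (hC : 0 < C) (hB1 : 1 ≤ B) (hR0 : 0 < R) (hN0 : 0 < N)
    (hCL : 20 * C ≤ L * θ ^ 2) (hL0 : 0 < L) (hR : 100 * B ≤ R * (θ * ε'))
    (hN : 100 * B * L ≤ N * (θ * ε')) (hk : k ≤ 2 / θ) :
    k * (8 * B * (1 / R) + 2 * B * (C / N)) + 3 * B * (L / N) ≤ ε' := by
  have h1 : B * (1 / R) ≤ θ * ε' / 100 := by
    rw [mul_one_div, div_le_iff₀ hR0]
    linarith only [hR]
  have h2 : B * (L / N) ≤ θ * ε' / 100 := by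
    rw [← mul_div_assoc, div_le_iff₀ hN0]
    linarith only [hN]
  have h3 : B * (C / N) ≤ θ * ε' / 100 := by
    refine le_trans ?_ h2
    have h4 : C ≤ L := by
      have : θ ^ 2 ≤ 1 := by (refine le_of_not_gt fun hng => ?_; linarith only [hθ,
                               mul_nonneg (sub_nonneg.2 hθ.le) (sub_nonneg.2 hθ1),
                               mul_pos (sub_pos.2 hng) (sub_pos.2 hθ),
                               mul_nonneg (sq_nonneg (θ)) (sub_nonneg.2 hθ1)])
      (refine le_of_not_gt fun hng => ?_; linarith only [hCL,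
        mul_nonneg (sub_nonneg.2 hC.le) (sub_nonneg.2 this),
        mul_nonneg (sub_nonneg.2 hθ1) (sub_nonneg.2 hC.le), mul_pos (sub_pos.2 hθ) (sub_pos.2 hL0),
        mul_pos (sub_pos.2 hng) (sub_pos.2 hθ), mul_nonneg (sq_nonneg (θ)) (sub_nonneg.2 hng.le)])
    gcongr
  have h5 : 0 ≤ 8 * B * (1 / R) + 2 * B * (C / N) := by positivity
  have h6 := mul_le_mul_of_nonneg_right hk h5
  have h7 : 8 * B * (1 / R) + 2 * B * (C / N) ≤ 10 * (θ * ε' / 100) := by linarith only [h3, h1]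
  have h8 : 2 / θ * (8 * B * (1 / R) + 2 * B * (C / N)) ≤ 2 / θ * (10 * (θ * ε' / 100)) :=
    mul_le_mul_of_nonneg_left h7 (by positivity)
  have h9 : 2 / θ * (10 * (θ * ε' / 100)) = ε' / 5 := by
    field_simp
    ring
  have h10 : θ * ε' ≤ ε' := by (refine le_of_not_gt fun hng => ?_; linarith only [hε,
                                 mul_nonneg (sub_nonneg.2 hθ1) (sub_nonneg.2 hε.le),
                                 mul_nonneg (sub_nonneg.2 hng.le) (sub_nonneg.2 hθ1),
                                 mul_pos (sub_pos.2 hng) (sub_pos.2 hθ)])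
  linarith only [h10, h9, h8, h6, h2, hε]

section
variable {V : Type} [DecidableEq V] (G : SimpleGraph V) [DecidableRel G.Adj]

theorem BPiece_core {s : ℕ} {S T : Finset V} {R r m : ℕ} {C θ ε' B L : ℝ} (hθ : 0 < θ)
    (hθ1 : θ ≤ 1 / 4) (hε : 0 < ε') (hε1 : ε' ≤ 1) (hC : 0 < C)
    (hB : B = ((s : ℝ) + 1) * 3 ^ s) (hL : L = R + 20 * (C / θ ^ 2))
    (hR : 100 * B ≤ R * (θ * ε')) (hN : 100 * B * L ≤ (R * m : ℝ) * (θ * ε'))
    (hcard : S.card ≤ R * m + r) (hr : r ≤ R) (hTS : T ⊆ S)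
    (hdeg : ∀ x ∈ T, θ * R * m < (dg G S x : ℝ)) (hP : PieceC G S T m C) (hT : T.Nonempty) :
    ∃ (U : Finset V) (σ : V → V) (h : ℝ), U ⊆ T ∧ U.Nonempty ∧ (U.card : ℝ) ≤ 2 / θ ∧ 0 ≤ h ∧
      ∑ u ∈ U, (dg G S u : ℝ) / (R * m) + h ≤ 1 + ε' ∧
      (∀ x ∈ T, σ x ∈ U ∧
        |(dg G S x : ℝ) / (R * m) - (dg G S (σ x) : ℝ) / (R * m)| ≤ ε') ∧
      (∀ u ∈ U, ((T.filter fun x => σ x = u).card : ℝ) ≤
        ((dg G S u : ℝ) / (R * m) + ε') * (R * m)) ∧
      (∀ a : ℕ, 1 ≤ a → a ≤ s → ∑ x ∈ S, (dg G S x : ℝ) ^ a ≤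
        ((R : ℝ) * m) ^ (a + 1) * (∑ u ∈ U, ((dg G S u : ℝ) / (R * m)) ^ (a + 1) +
          max (1 - ∑ u ∈ U, (dg G S u : ℝ) / (R * m) - h) 0 *
            max (1 - ∑ u ∈ U, (dg G S u : ℝ) / (R * m)) 0 ^ a + h * θ ^ a + ε')) ∧
      ((vh G S R m θ).card : ℝ) ≤ (h + ∑ u ∈ U.filter (fun u =>
        (dg G S u : ℝ) / (R * m) ≤ 2 * θ), (dg G S u : ℝ) / (R * m) + ε') * (R * m) := by
  classical
  have h3s : (1 : ℝ) ≤ 3 ^ s := one_le_pow₀ (by norm_num)
  have hB1 : 1 ≤ B := by
    rw [hB]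
    have h0 : (0 : ℝ) ≤ s := by positivity
    nlinarith
  have hθε0 : 0 < θ * ε' := by positivity
  have hR0 : (0 : ℝ) < R := by
    by_contra hcon
    push Not at hcon
    have : (R : ℝ) * (θ * ε') ≤ 0 := mul_nonpos_of_nonpos_of_nonneg hcon (by positivity)
    linarith only [this, hB1, hR, hθ1, hθ]
  have hCθ : 0 < C / θ ^ 2 := by positivity
  have hLR : (R : ℝ) ≤ L := by rw [hL]; linarith only [hCθ]
  have hL0 : 0 < L := by linarith only [hCθ, hR0, hL]
  have hCL : 20 * C ≤ L * θ ^ 2 := by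
    rw [hL, add_mul, mul_assoc 20, div_mul_cancel₀ _ (by positivity)]
    have : 0 ≤ (R : ℝ) * θ ^ 2 := by positivity
    linarith only [this]
  obtain ⟨N, hNd⟩ : ∃ N : ℝ, N = (R : ℝ) * m := ⟨_, rfl⟩
  have hNd' : ∀ x : ℝ, x * R * m = x * N := fun x => by rw [hNd]; ring
  rw [← hNd] at hN
  have hN0 : 0 < N := by
    by_contra hcon
    push Not at hcon
    have h1 : N * (θ * ε') ≤ 0 := mul_nonpos_of_nonpos_of_nonneg hcon (by positivity)
    have h2 : 0 < 100 * B * L := by positivity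
    linarith only [h2, h1, hN]
  have hm0 : (0 : ℝ) < m := by
    by_contra hcon
    push Not at hcon
    have : N ≤ 0 := by rw [hNd]; exact mul_nonpos_of_nonneg_of_nonpos hR0.le hcon
    linarith only [this, hN0]
  have hθε : θ * ε' ≤ θ := by (refine le_of_not_gt fun hng => ?_; linarith only [mul_pos (sub_pos.2 hng) (sub_pos.2 hθ),
                                mul_nonneg (sq_nonneg (θ)) (sub_nonneg.2 hε1)])
  have hθε2 : θ * ε' ≤ ε' := by (refine le_of_not_gt fun hng => ?_; linarith only [hε,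
                                  mul_nonneg (sub_nonneg.2 hθ1) (sub_nonneg.2 hε.le),
                                  mul_nonneg (sub_nonneg.2 hng.le) (sub_nonneg.2 hθε),
                                  mul_pos (sub_pos.2 hng) (sub_pos.2 hε),
                                  mul_nonneg (sub_nonneg.2 hng.le) (sub_nonneg.2 hθ1),
                                  mul_pos (sub_pos.2 hng) (sub_pos.2 hng)])
  have hL1 : 100 * L ≤ N * (θ * ε') := by
    have : 100 * L ≤ 100 * B * L := by nlinarith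
    linarith only [this, hN]
  have hLθ : 100 * L ≤ N * θ := hL1.trans (mul_le_mul_of_nonneg_left hθε hN0.le)
  have hLε : 100 * L ≤ N * ε' := hL1.trans (mul_le_mul_of_nonneg_left hθε2 hN0.le)
  have hLN : 100 * L ≤ N := by
    have : N * ε' ≤ N * 1 := mul_le_mul_of_nonneg_left hε1 hN0.le
    linarith only [this, hLε]
  have hθ2 : θ ^ 2 ≤ 1 := by (refine le_of_not_gt fun hng => ?_; linarith only [hθ,
                               mul_nonneg (sub_nonneg.2 hθ.le) (sub_nonneg.2 hθ1),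
                               mul_pos (sub_pos.2 hng) (sub_pos.2 hθ),
                               mul_nonneg (sq_nonneg (θ)) (sub_nonneg.2 hθ1)])
  have hCL2 : 20 * C ≤ L := by nlinarith
  have hR1 : 100 ≤ (R : ℝ) * (θ * ε') := by linarith only [hB1, hR]
  obtain ⟨U, hUT, hUp, hUc, hUk⟩ := BPiece_choice G hθ hC.le hcard hr hdeg
    (by rw [hNd']; linarith only [hCL2, hLθ, hCθ, hR0, hL]) (by
      rw [← hNd]
      have h1 : 2 / θ + 1 ≤ 3 / θ := by
        rw [div_add_one hθ.ne']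
        gcongr
        linarith only [hθ1]
      have h2 : (2 / θ + 1) ^ 2 ≤ (3 / θ) ^ 2 := pow_le_pow_left₀ (by positivity) h1 2
      have h3 : 2 * C * (2 / θ + 1) ^ 2 ≤ 2 * C * (3 / θ) ^ 2 :=
        mul_le_mul_of_nonneg_left h2 (by positivity)
      have h4 : 2 * C * (3 / θ) ^ 2 = 18 * (C / θ ^ 2) := by
        field_simp
        ring
      linarith only [h4, h3, hLN, hCθ, hR0, hL])
  have hUne : U.Nonempty := by
    obtain ⟨x, hx⟩ := hT
    obtain ⟨u, hu, _⟩ := hUc x hx
    exact ⟨u, hu⟩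
  choose! σ hσ using hUc
  have hvh : ∀ z, z ∈ vh G S R m θ ↔ z ∈ S ∧ (dg G S z : ℝ) ≤ θ * R * m := by
    intro z
    simp [vh]
  obtain ⟨A, hA⟩ : ∃ A : V → Finset V, A = BPiece_nb G S := ⟨_, rfl⟩
  have hAdg : ∀ x, ((A x).card : ℝ) = (dg G S x : ℝ) := fun x => by rw [hA]; rfl
  set UU := U.biUnion A with hUU
  have hUUS : UU ⊆ S := by
    rw [hUU, biUnion_subset, hA]
    exact fun x _ => filter_subset _ _
  set W := S \ UU with hW
  set H := vh G S R m θ \ UU with hH
  have hHW : H ⊆ W := by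
    intro z hz
    rw [hH, mem_sdiff, hvh] at hz
    rw [hW, mem_sdiff]
    exact ⟨hz.1.1, hz.2⟩
  set Z := W \ H with hZ
  have hcS : (UU.card : ℝ) + W.card = S.card := by
    have h1 : (W.card : ℝ) + UU.card = S.card := by
      exact_mod_cast card_sdiff_add_card_eq_card hUUS
    linarith only [h1]
  have hcW : (H.card : ℝ) + Z.card = W.card := by
    have h1 : (Z.card : ℝ) + H.card = W.card := by
      exact_mod_cast card_sdiff_add_card_eq_card hHW
    linarith only [h1]
  have hSN : (S.card : ℝ) ≤ N + R := by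
    have h1 : S.card ≤ R * m + R := by omega
    rw [hNd]
    exact_mod_cast h1
  have hS2 : (S.card : ℝ) ≤ 2 * N := by linarith only [hSN, hLN, hCθ, hR0, hL]
  have hsum : ∑ u ∈ U, (dg G S u : ℝ) + R ≤ UU.card + L := by
    have h1 := BPiece_union A (2 * C) (by positivity) U (by rw [hA]; exact hUp)
    simp only [hAdg] at h1
    have h2 : (U.card : ℝ) ^ 2 ≤ (2 / θ) ^ 2 := pow_le_pow_left₀ (by positivity) hUk 2
    have h3 : 2 * C * (U.card : ℝ) ^ 2 ≤ 2 * C * (2 / θ) ^ 2 :=
      mul_le_mul_of_nonneg_left h2 (by positivity)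
    have h4 : 2 * C * (2 / θ) ^ 2 = 8 * (C / θ ^ 2) := by
      field_simp
      ring
    rw [hL]
    linarith only [h4, h3, h1, hCθ]
  obtain ⟨y, hy⟩ : ∃ y : V → ℝ, y = fun u => (dg G S u : ℝ) / N := ⟨_, rfl⟩
  have hyN : ∀ u, (dg G S u : ℝ) = y u * N := fun u => by
    rw [hy]
    simp only
    rw [div_mul_cancel₀ _ hN0.ne']
  have hy0 : ∀ u, 0 ≤ y u := fun u => by rw [hy]; positivity
  have hy2 : ∀ u, y u ≤ 2 := fun u => by
    have h1 : (dg G S u : ℝ) ≤ S.card := by
      have : dg G S u ≤ S.card := card_filter_le _ _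
      exact_mod_cast this
    rw [hyN] at h1
    have h2 : y u * N ≤ 2 * N := by linarith only [h1, hSN, hLN, hCθ, hR0, hL]
    exact le_of_mul_le_mul_right h2 hN0
  have hysum : ∑ u ∈ U, (dg G S u : ℝ) = (∑ u ∈ U, y u) * N := by
    rw [sum_mul]
    exact sum_congr rfl fun u _ => hyN u
  have hyθ : ∀ u ∈ U, θ ≤ y u := fun u hu => by
    have h1 := hdeg u (hUT hu)
    rw [hNd', hyN] at h1
    exact (lt_of_mul_lt_mul_right h1 hN0.le).le
  obtain ⟨h, hh⟩ : ∃ h : ℝ, h = H.card / N := ⟨_, rfl⟩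
  have hhN : (H.card : ℝ) = h * N := by rw [hh, div_mul_cancel₀ _ hN0.ne']
  have hh0 : 0 ≤ h := by rw [hh]; exact div_nonneg (Nat.cast_nonneg _) hN0.le
  obtain ⟨Y, hY⟩ : ∃ Y : ℝ, Y = ∑ u ∈ U, y u := ⟨_, rfl⟩
  have hY0 : 0 ≤ Y := by rw [hY]; exact sum_nonneg fun u _ => hy0 u
  rw [hysum, ← hY] at hsum
  have hmR : (m : ℝ) = 1 / R * N := by
    rw [hNd]
    field_simp
  have hyd : ∀ u, (dg G S u : ℝ) / (R * m) = y u := fun u => by rw [← hNd, hy]
  simp only [hyd]
  rw [← hNd]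
  refine ⟨U, σ, h, hUT, hUne, hUk, hh0, ?_, ?_, ?_, ?_, ?_⟩
  · -- total share
    rw [← hY]
    have h1 : (Y + h) * N ≤ (1 + ε') * N := by
      have h2 : (Y + h) * N = Y * N + H.card := by rw [hhN]; ring
      have h3 : (0 : ℝ) ≤ Z.card := Nat.cast_nonneg _
      linarith only [hsum, hhN, hSN, hcW, hcS, hLε, hCθ, hR0, hL]
    exact le_of_mul_le_mul_right h1 hN0
  · -- degrees in a piece
    intro x hx
    obtain ⟨h1, h2⟩ := hσ x hx
    refine ⟨h1, ?_⟩
    have h3 := BPiece_card_le G (BPiece_close G hP hx (hUT h1) h2)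
    rw [inter_comm] at h2
    have h4 := BPiece_card_le G (BPiece_close G hP (hUT h1) hx h2)
    have h5 : (dg G S x : ℝ) ≤ dg G S (σ x) + 4 * m := by exact_mod_cast h3
    have h6 : (dg G S (σ x) : ℝ) ≤ dg G S x + 4 * m := by exact_mod_cast h4
    have h7 : 4 * (m : ℝ) ≤ ε' * N := by
      rw [hNd]
      have h8 : 4 ≤ (R : ℝ) * ε' := by
        have := mul_le_mul_of_nonneg_left hθε2 hR0.le
        linarith only [this, hB1, hR, hθ1, hθ]
      have h9 := mul_le_mul_of_nonneg_right h8 hm0.le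
      linarith only [h9]
    rw [hyN, hyN] at h5 h6
    rw [abs_le]
    constructor
    · have h10 : y (σ x) * N ≤ (y x + ε') * N := by linarith only [h7, h6]
      have h11 := le_of_mul_le_mul_right h10 hN0
      linarith only [h11]
    · have h10 : y x * N ≤ (y (σ x) + ε') * N := by linarith only [h7, h5]
      have h11 := le_of_mul_le_mul_right h10 hN0
      linarith only [h11]
  · -- size of a piece
    intro u hu
    refine BPiece_num1 hm0 hNd hθ (by linarith only [hθ1]) hε hε1 (hyθ u hu) hR1 hC.le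
      (by linarith only [hCL2, hL1, hCθ, hR0, hL]) hS2 ?_
    rw [← hyN]
    set Tu := T.filter fun x => σ x = u with hTu
    have hTuS : Tu ⊆ S := (filter_subset _ _).trans hTS
    have h1 : (Tu.card : ℝ) * ((dg G S u : ℝ) - 4 * m) ≤
        ∑ x ∈ Tu, (((A u).filter fun z => G.Adj x z).card : ℝ) := by
      rw [← nsmul_eq_mul, ← sum_const]
      refine sum_le_sum fun x hx => ?_
      rw [hTu, mem_filter] at hx
      obtain ⟨h2, h3⟩ := hσ x hx.1
      rw [hx.2] at h3
      have h4 := BPiece_close G hP (hUT hu) hx.1 (by rwa [inter_comm])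
      have h5 : (A u).card ≤ ((A u).filter fun z => G.Adj x z).card + 4 * m := by
        have h6 : (A u).filter (fun z => G.Adj x z) = A u ∩ BPiece_nb G S x := by
          ext z
          rw [hA]
          simp only [BPiece_nb, mem_filter, mem_inter]
          tauto
        rw [h6, ← card_inter_add_card_sdiff (A u) (BPiece_nb G S x)]
        apply Nat.add_le_add_left
        rw [hA]
        exact h4
      rw [← hAdg]
      have h7 : ((A u).card : ℝ) ≤ ((A u).filter fun z => G.Adj x z).card + 4 * m := by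
        exact_mod_cast h5
      linarith only [h7]
    rw [BPiece_edges] at h1
    have h2 : ∑ z ∈ A u, ((Tu.filter fun x => G.Adj z x).card : ℝ) ≤
        ∑ z ∈ A u, (dg G S z : ℝ) ^ 1 := by
      refine sum_le_sum fun z _ => ?_
      rw [pow_one]
      have : (Tu.filter fun x => G.Adj z x).card ≤ dg G S z :=
        card_le_card (filter_subset_filter _ hTuS)
      exact_mod_cast this
    have h3 := BPiece_sumA G hP (hUT hu) 1
    rw [pow_one, pow_one] at h3
    rw [hA] at h1 h2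
    linarith only [h3, h2, h1]
  · -- powers
    intro a ha1 ha2
    obtain ⟨b, rfl⟩ : ∃ b, a = b + 1 := ⟨a - 1, by omega⟩
    rw [← hY]
    obtain ⟨ρ, hρ⟩ : ∃ ρ : ℝ, ρ = 1 / R := ⟨_, rfl⟩
    obtain ⟨γ, hγ⟩ : ∃ γ : ℝ, γ = C / N := ⟨_, rfl⟩
    obtain ⟨lam, hlam⟩ : ∃ lam : ℝ, lam = L / N := ⟨_, rfl⟩
    have hρ0 : 0 ≤ ρ := by rw [hρ]; positivity
    have hγ0 : 0 ≤ γ := by rw [hγ]; positivity
    have hlam0 : 0 ≤ lam := by rw [hlam]; positivity
    have hγN : C = γ * N := by rw [hγ, div_mul_cancel₀ _ hN0.ne']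
    have hlamN : L = lam * N := by rw [hlam, div_mul_cancel₀ _ hN0.ne']
    rw [← hρ] at hmR
    have hρ1 : ρ ≤ 1 / 2 := by
      rw [hρ]
      have h1 : (2 : ℝ) ≤ R := by
        have : (R : ℝ) * (θ * ε') ≤ R * 1 :=
          mul_le_mul_of_nonneg_left (by linarith only [hθε, hθ1, hθ]) hR0.le
        linarith only [this, hB1, hR, hθ1, hθ]
      exact one_div_le_one_div_of_le (by norm_num) h1
    have hlam1 : lam ≤ 1 := by
      rw [hlam, div_le_one hN0]
      linarith only [hLN, hCθ, hR0, hL]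
    obtain ⟨p, hp⟩ : ∃ p : ℝ, p = max (1 - Y) 0 := ⟨_, rfl⟩
    obtain ⟨q, hq⟩ : ∃ q : ℝ, q = max (1 - Y - h) 0 := ⟨_, rfl⟩
    rw [← hp, ← hq]
    have hp0 : 0 ≤ p := by rw [hp]; exact le_max_right _ _
    have hq0 : 0 ≤ q := by rw [hq]; exact le_max_right _ _
    have hp1 : p ≤ 1 := by rw [hp]; exact max_le (by linarith only [hY0]) (by norm_num)
    have hq1 : q ≤ 1 := by rw [hq]; exact max_le (by linarith only [hY0, hh0]) (by norm_num)
    have hpY : 1 - Y ≤ p := by rw [hp]; exact le_max_left _ _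
    have hqY : 1 - Y - h ≤ q := by rw [hq]; exact le_max_left _ _
    -- the four sums
    have e1 : ∑ x ∈ S, (dg G S x : ℝ) ^ (b + 1) = ∑ x ∈ Z, (dg G S x : ℝ) ^ (b + 1) +
        ∑ x ∈ H, (dg G S x : ℝ) ^ (b + 1) + ∑ x ∈ UU, (dg G S x : ℝ) ^ (b + 1) := by
      rw [← sum_sdiff hUUS, ← hW, ← sum_sdiff hHW, ← hZ]
    have f1 : ∑ x ∈ UU, (dg G S x : ℝ) ^ (b + 1) ≤
        N ^ (b + 1 + 1) * (∑ u ∈ U, (y u ^ (b + 1 + 1) + 4 * B * ρ + B * γ)) := by
      refine (BPiece_sumU A _ (fun x => by positivity) U).trans ?_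
      rw [mul_sum]
      refine sum_le_sum fun u hu => ?_
      have h1 := BPiece_sumA G hP (hUT hu) (b + 1)
      rw [hA]
      refine h1.trans ?_
      have h2 := BPiece_num2 hB ha2 (hy0 u) (hy2 u) hρ0 hρ1 hγ0
      have h3 := mul_le_mul_of_nonneg_left h2 (by positivity : 0 ≤ N ^ (b + 1 + 1))
      refine le_trans ?_ h3
      have h4 : C * (S.card : ℝ) ^ (b + 1) ≤ C * (2 * N) ^ (b + 1) :=
        mul_le_mul_of_nonneg_left (pow_le_pow_left₀ (Nat.cast_nonneg _) hS2 _) hC.le
      refine (add_le_add_right h4 _).trans (le_of_eq ?_)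
      rw [hyN, hmR, hγN, show y u * N + 2 * (ρ * N) = (y u + 2 * ρ) * N by ring, mul_pow,
        mul_pow, pow_succ N (b + 1)]
      ring
    have f2 : ∑ x ∈ H, (dg G S x : ℝ) ^ (b + 1) ≤ N ^ (b + 1 + 1) * (h * θ ^ (b + 1)) := by
      have h1 : ∑ x ∈ H, (dg G S x : ℝ) ^ (b + 1) ≤ ∑ x ∈ H, (θ * N) ^ (b + 1) := by
        refine sum_le_sum fun x hx => ?_
        rw [hH, mem_sdiff, hvh, hNd'] at hx
        exact pow_le_pow_left₀ (by positivity) hx.1.2 _
      rw [sum_const, nsmul_eq_mul, hhN] at h1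
      refine h1.trans (le_of_eq ?_)
      rw [mul_pow, pow_succ N (b + 1)]
      ring
    have f3 : ∑ x ∈ Z, (dg G S x : ℝ) ^ (b + 1) ≤ N ^ (b + 1 + 1) * (q * p ^ (b + 1) +
        3 * B * lam + ∑ u ∈ U, (4 * B * ρ + B * γ)) := by
      have hWc : (W.card : ℝ) ≤ (p + lam) * N := by
        have h1 : (1 - Y) * N ≤ p * N := mul_le_mul_of_nonneg_right hpY hN0.le
        rw [add_mul, ← hlamN]
        linarith only [h1, hsum, hSN, hcS]
      have hZc : (Z.card : ℝ) ≤ (q + lam) * N := by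
        have h1 : (1 - Y - h) * N ≤ q * N := mul_le_mul_of_nonneg_right hqY hN0.le
        rw [add_mul, ← hlamN]
        linarith only [h1, hsum, hhN, hSN, hcW, hcS]
      have h2 : ∀ x ∈ Z, (dg G S x : ℝ) ^ (b + 1) ≤ ((p + lam) * N) ^ (b + 1) +
          ((b : ℝ) + 1) * (2 * N) ^ b * ((UU.filter fun z => G.Adj x z).card : ℝ) := by
        intro x _
        have h3 : (dg G S x : ℝ) = ((W.filter fun z => G.Adj x z).card : ℝ) +
            ((UU.filter fun z => G.Adj x z).card : ℝ) := by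
          have h4 : dg G S x = (W.filter fun z => G.Adj x z).card +
              (UU.filter fun z => G.Adj x z).card := by
            unfold dg
            rw [← card_union_of_disjoint, ← filter_union, hW, sdiff_union_of_subset hUUS]
            apply disjoint_filter_filter
            rw [hW]
            exact sdiff_disjoint
          exact_mod_cast h4
        have h5 : (dg G S x : ℝ) ≤ S.card := by
          have : dg G S x ≤ S.card := card_filter_le _ _
          exact_mod_cast this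
        have h6 : (0 : ℝ) ≤ ((UU.filter fun z => G.Adj x z).card : ℝ) := Nat.cast_nonneg _
        have h7 := BPiece_pow b ((W.filter fun z => G.Adj x z).card : ℝ) (dg G S x : ℝ) (2 * N)
          (Nat.cast_nonneg _) (by linarith only [h3]) (by linarith only [h5, hSN, hLN, hCθ, hR0, hL])
        have h8 : ((W.filter fun z => G.Adj x z).card : ℝ) ≤ (p + lam) * N := by
          have : (W.filter fun z => G.Adj x z).card ≤ W.card := card_filter_le _ _
          have h9 : ((W.filter fun z => G.Adj x z).card : ℝ) ≤ W.card := by exact_mod_cast this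
          linarith only [h9, hWc]
        have h10 := pow_le_pow_left₀ (Nat.cast_nonneg _) h8 (b + 1)
        have h11 : (dg G S x : ℝ) - ((W.filter fun z => G.Adj x z).card : ℝ) =
            ((UU.filter fun z => G.Adj x z).card : ℝ) := by linarith only [h3]
        rw [h11] at h7
        linarith only [h10, h7]
      have h3 : ∑ x ∈ Z, ((UU.filter fun z => G.Adj x z).card : ℝ) ≤
          ∑ u ∈ U, ((y u * N) * (2 * (ρ * N)) + γ * N * (2 * N)) := by
        calc ∑ x ∈ Z, ((UU.filter fun z => G.Adj x z).card : ℝ)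
            ≤ ∑ x ∈ W, ((UU.filter fun z => G.Adj x z).card : ℝ) :=
              sum_le_sum_of_subset_of_nonneg sdiff_subset fun _ _ _ => Nat.cast_nonneg _
          _ = ∑ z ∈ UU, ((W.filter fun x => G.Adj z x).card : ℝ) := BPiece_edges G W UU
          _ ≤ ∑ u ∈ U, ∑ z ∈ A u, ((W.filter fun x => G.Adj z x).card : ℝ) :=
              BPiece_sumU A _ (fun x => Nat.cast_nonneg _) U
          _ ≤ ∑ u ∈ U, ((y u * N) * (2 * (ρ * N)) + γ * N * (2 * N)) := by
              refine sum_le_sum fun u hu => ?_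
              have h4 := BPiece_out G hP (hUT hu)
              have h5 : ∑ z ∈ A u, ((W.filter fun x => G.Adj z x).card : ℝ) ≤
                  ∑ z ∈ A u, ((BPiece_nb G S z \ BPiece_nb G S u).card : ℝ) := by
                refine sum_le_sum fun z _ => ?_
                have h6 : (W.filter fun x => G.Adj z x) ⊆
                    BPiece_nb G S z \ BPiece_nb G S u := by
                  intro x hx
                  rw [mem_filter, hW, mem_sdiff] at hx
                  rw [mem_sdiff]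
                  refine ⟨?_, fun h7 => hx.1.2 ?_⟩
                  · unfold BPiece_nb
                    rw [mem_filter]
                    exact ⟨hx.1.1, hx.2⟩
                  · rw [hUU, mem_biUnion]
                    exact ⟨u, hu, by rw [hA]; exact h7⟩
                have h7 := card_le_card h6
                exact_mod_cast h7
              rw [hA] at h5
              have h6 : C * (S.card : ℝ) ≤ C * (2 * N) := mul_le_mul_of_nonneg_left hS2 hC.le
              rw [hyN, hmR] at h4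
              rw [← hγN, hA]
              linarith only [h6, h5, h4]
      calc ∑ x ∈ Z, (dg G S x : ℝ) ^ (b + 1)
          ≤ ∑ x ∈ Z, (((p + lam) * N) ^ (b + 1) +
            ((b : ℝ) + 1) * (2 * N) ^ b * ((UU.filter fun z => G.Adj x z).card : ℝ)) :=
            sum_le_sum h2
        _ = Z.card * ((p + lam) * N) ^ (b + 1) + ((b : ℝ) + 1) * (2 * N) ^ b *
            ∑ x ∈ Z, ((UU.filter fun z => G.Adj x z).card : ℝ) := by
            rw [sum_add_distrib, sum_const, nsmul_eq_mul, mul_sum]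
        _ ≤ (q + lam) * N * ((p + lam) * N) ^ (b + 1) + ((b : ℝ) + 1) * (2 * N) ^ b *
            ∑ u ∈ U, ((y u * N) * (2 * (ρ * N)) + γ * N * (2 * N)) := by
            apply add_le_add
            · exact mul_le_mul_of_nonneg_right hZc (by positivity)
            · exact mul_le_mul_of_nonneg_left h3 (by positivity)
        _ = N ^ (b + 1 + 1) * ((q + lam) * (p + lam) ^ (b + 1) +
            ∑ u ∈ U, ((b : ℝ) + 1) * 2 ^ b * (y u * (2 * ρ) + γ * 2)) := by
            rw [mul_add, mul_sum, mul_sum]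
            congr 1
            · rw [mul_pow, pow_succ N (b + 1)]
              ring
            · refine sum_congr rfl fun u _ => ?_
              rw [mul_pow, pow_succ N (b + 1), pow_succ N b]
              ring
        _ ≤ N ^ (b + 1 + 1) * (q * p ^ (b + 1) + 3 * B * lam + ∑ u ∈ U, (4 * B * ρ + B * γ)) := by
            apply mul_le_mul_of_nonneg_left _ (by positivity)
            apply add_le_add
            · exact BPiece_num3 hB ha2 hp0 hp1 hq0 hq1 hlam0 hlam1
            · exact sum_le_sum fun u _ => BPiece_num4 hB ha2 (hy0 u) (hy2 u) hρ0 hγ0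
    rw [e1]
    refine (add_le_add (add_le_add f3 f2) f1).trans ?_
    rw [← mul_add, ← mul_add]
    apply mul_le_mul_of_nonneg_left _ (by positivity)
    have h9 := BPiece_small hθ hθ1 hε hC hB1 hR0 hN0 hCL hL0 hR hN hUk
    rw [← hρ, ← hγ, ← hlam] at h9
    simp only [sum_add_distrib, sum_const, nsmul_eq_mul]
    linarith only [h9]
  · -- very heavy vertices
    have h1 : vh G S R m θ ⊆ H ∪ U.biUnion fun u => vh G S R m θ ∩ A u := by
      intro z hz
      rw [mem_union, mem_biUnion]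
      by_cases h2 : z ∈ UU
      · right
        rw [hUU, mem_biUnion] at h2
        obtain ⟨u, hu, h3⟩ := h2
        exact ⟨u, hu, mem_inter.2 ⟨hz, h3⟩⟩
      · left
        rw [hH, mem_sdiff]
        exact ⟨hz, h2⟩
    have h2 : ((vh G S R m θ).card : ℝ) ≤ H.card +
        ∑ u ∈ U, ((vh G S R m θ ∩ A u).card : ℝ) := by
      have h3 := (card_le_card h1).trans ((card_union_le _ _).trans
        (Nat.add_le_add_left card_biUnion_le _))
      exact_mod_cast h3
    have h3 : ∀ u ∈ U, ((vh G S R m θ ∩ A u).card : ℝ) ≤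
        (if y u ≤ 2 * θ then y u * N else 0) + C := by
      intro u hu
      split_ifs with h4
      · have h5 : (vh G S R m θ ∩ A u).card ≤ (A u).card := card_le_card inter_subset_right
        have h6 : ((vh G S R m θ ∩ A u).card : ℝ) ≤ (A u).card := by exact_mod_cast h5
        rw [hAdg, hyN] at h6
        linarith only [h6, hC]
      · push Not at h4
        rw [zero_add]
        have h5 : vh G S R m θ ∩ A u ⊆ BPiece_bad G S m u := by
          intro z hz
          rw [mem_inter, hvh, hNd'] at hz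
          by_contra h6
          have h7 := BPiece_card_le G (BPiece_good G (by rw [← hA]; exact hz.2) h6).2
          have h8 : (dg G S u : ℝ) ≤ dg G S z + 2 * m := by exact_mod_cast h7
          rw [hyN u] at h8
          have h9 : 2 * θ * N < y u * N := mul_lt_mul_of_pos_right h4 hN0
          have h10 : θ * N < 2 * m := by linarith only [h9, h8, hz.1.2]
          have h11 : 100 * (m : ℝ) ≤ θ * N := by
            rw [hNd]
            have h12 : 100 ≤ (R : ℝ) * θ := hR1.trans (mul_le_mul_of_nonneg_left hθε hR0.le)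
            have h13 := mul_le_mul_of_nonneg_right h12 hm0.le
            linarith only [h13]
          linarith only [h11, h9, h8, hz.1.2, hLθ, hCθ, hR0, hL]
        have h6 : ((vh G S R m θ ∩ A u).card : ℝ) ≤ (BPiece_bad G S m u).card := by
          exact_mod_cast card_le_card h5
        exact h6.trans (hP u (hUT hu))
    have h4 := sum_le_sum h3
    rw [sum_add_distrib, sum_const, nsmul_eq_mul, ← sum_filter, ← sum_mul] at h4
    have h5 : (U.card : ℝ) * C ≤ ε' * N := by
      have h6 : (U.card : ℝ) * C ≤ 2 / θ * C := mul_le_mul_of_nonneg_right hUk hC.le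
      have h7 : 2 / θ * C = 2 * C / θ := by ring
      rw [h7] at h6
      refine h6.trans ?_
      rw [div_le_iff₀ hθ]
      linarith only [hCL2, hL1, hCθ, hR0, hL]
    rw [hhN] at h2
    linarith only [h5, h4, h2]

end

theorem pieces (s : ℕ) (θ ε' : ℝ) (hθ : 0 < θ) (hθ1 : θ ≤ 1 / 4) (hε' : 0 < ε')
    (hε'1 : ε' ≤ 1) : ∃ R₀ : ℕ, 3 ≤ R₀ ∧ ∀ R r : ℕ, R₀ ≤ R → r ≤ R → ∀ C : ℝ, 0 < C →
    ∃ m₀ : ℕ, ∀ m : ℕ, m₀ ≤ m →
      ∀ (V : Type) [DecidableEq V] (G : SimpleGraph V) [DecidableRel G.Adj] (S T : Finset V),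
        S.card ≤ R * m + r → T ⊆ S → (∀ x ∈ T, θ * R * m < (dg G S x : ℝ)) →
        PieceC G S T m C → T.Nonempty →
        ∃ (k : ℕ) (Y : Fin k → ℝ) (τ : V → Fin k) (h : ℝ), 1 ≤ k ∧ (k : ℝ) ≤ 2 / θ ∧
          (∀ i, θ ≤ Y i) ∧ (∀ i, ∃ x ∈ T, Y i = (dg G S x : ℝ) / (R * m)) ∧ 0 ≤ h ∧
          ∑ i, Y i + h ≤ 1 + ε' ∧
          (∀ x ∈ T, |(dg G S x : ℝ) / (R * m) - Y (τ x)| ≤ ε') ∧
          (∀ i, ((T.filter fun x => τ x = i).card : ℝ) ≤ (Y i + ε') * (R * m)) ∧
          (∀ a : ℕ, 1 ≤ a → a ≤ s → ∑ x ∈ S, (dg G S x : ℝ) ^ a ≤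
            ((R : ℝ) * m) ^ (a + 1) * (∑ i, Y i ^ (a + 1) + max (1 - ∑ i, Y i - h) 0 *
              max (1 - ∑ i, Y i) 0 ^ a + h * θ ^ a + ε')) ∧
          ((vh G S R m θ).card : ℝ) ≤
            (h + ∑ i ∈ univ.filter (fun i => Y i ≤ 2 * θ), Y i + ε') * (R * m) := by
  obtain ⟨B, hB⟩ : ∃ B : ℝ, B = ((s : ℝ) + 1) * 3 ^ s := ⟨_, rfl⟩
  have hB0 : 0 < B := by rw [hB]; positivity
  have hθε : 0 < θ * ε' := by positivity
  refine ⟨⌈100 * B / (θ * ε')⌉₊ + 3, by omega, ?_⟩
  intro R r hR hr C hC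
  have hR1 : 100 * B ≤ R * (θ * ε') := by
    rw [← div_le_iff₀ hθε]
    have h1 : ⌈100 * B / (θ * ε')⌉₊ ≤ R := by omega
    exact (Nat.ceil_le.1 h1)
  have hR2 : (1 : ℝ) ≤ R := by
    have : 1 ≤ R := by omega
    exact_mod_cast this
  obtain ⟨L, hL⟩ : ∃ L : ℝ, L = R + 20 * (C / θ ^ 2) := ⟨_, rfl⟩
  refine ⟨⌈100 * B * L / (θ * ε')⌉₊, ?_⟩
  intro m hm V _ G _ S T hcard hTS hdeg hP hT
  have hN : 100 * B * L ≤ (R * m : ℝ) * (θ * ε') := by
    rw [← div_le_iff₀ hθε]
    have h1 : 100 * B * L / (θ * ε') ≤ m := Nat.ceil_le.1 hm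
    have h2 : (0 : ℝ) ≤ m := by positivity
    have h3 : (1 : ℝ) * m ≤ R * m := mul_le_mul_of_nonneg_right hR2 h2
    linarith only [h3, h1]
  obtain ⟨U, σ, h, hUT, hUne, hUk, hh0, c1, c2, c3, c4, c5⟩ :=
    BPiece_core G hθ hθ1 hε' hε'1 hC hB hL hR1 hN hcard hr hTS hdeg hP hT
  obtain ⟨e⟩ : Nonempty (U ≃ Fin U.card) := ⟨U.equivFin⟩
  have hk : 1 ≤ U.card := hUne.card_pos
  obtain ⟨y, hy⟩ : ∃ y : V → ℝ, y = fun u => (dg G S u : ℝ) / (R * m) := ⟨_, rfl⟩
  have hy' : ∀ u, (dg G S u : ℝ) / (R * m) = y u := fun u => by rw [hy]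
  simp only [hy'] at c1 c2 c3 c4 c5 ⊢
  have hsum : ∀ F : V → ℝ, ∑ i : Fin U.card, F (e.symm i : V) = ∑ u ∈ U, F u := fun F => by
    rw [← sum_coe_sort U F]
    exact Fintype.sum_equiv e.symm _ _ (fun i => rfl)
  have hRm : 0 < (R : ℝ) * m := by
    by_contra hcon
    push Not at hcon
    have h1 : (R : ℝ) * m * (θ * ε') ≤ 0 := mul_nonpos_of_nonpos_of_nonneg hcon hθε.le
    have h2 : 0 < L := by rw [hL]; positivity
    have h3 : 0 < 100 * B * L := by positivity
    linarith only [h3, h1, hN]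
  refine ⟨U.card, fun i => y (e.symm i : V), fun x => if hx : σ x ∈ U then e ⟨σ x, hx⟩ else
    ⟨0, by omega⟩, h, hk, hUk, ?_, ?_, hh0, ?_, ?_, ?_, ?_, ?_⟩
  · intro i
    have h1 := hdeg _ (hUT (e.symm i).2)
    change θ ≤ y (e.symm i : V)
    rw [← hy', le_div_iff₀ hRm]
    linarith only [h1]
  · intro i
    exact ⟨_, hUT (e.symm i).2, rfl⟩
  · rw [hsum]
    exact c1
  · intro x hx
    obtain ⟨h1, h2⟩ := c2 x hx
    simp only [h1, dif_pos, Equiv.symm_apply_apply]
    exact h2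
  · intro i
    have h1 := c3 (e.symm i : V) (e.symm i).2
    have h2 : (T.filter fun x => (if hx : σ x ∈ U then e ⟨σ x, hx⟩ else
        (⟨0, by omega⟩ : Fin U.card)) = i) = T.filter fun x => σ x = (e.symm i : V) := by
      apply filter_congr
      intro x hx
      have h3 := (c2 x hx).1
      simp only [h3, dif_pos]
      rw [← Equiv.eq_symm_apply, Subtype.ext_iff]
    rw [h2]
    exact h1
  · intro a ha1 ha2
    rw [hsum (fun u => y u ^ (a + 1)), hsum]
    exact c4 a ha1 ha2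
  · rw [sum_filter, hsum (fun u => if y u ≤ 2 * θ then y u else 0), ← sum_filter]
    exact c5

end H57GH
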