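import Pool.Agent.H57.GH.BOpt
import Pool.Agent.H57.GH.BApex
import Pool.Agent.H57.GH.BPiece
import Pool.Agent.H57.GH.BalF
import Pool.Agent.H57.GH.UpA

/-!
Project SB: sets with a piece.
-/

namespace H57GH

open Finset H57LC H57LT

set_option linter.unusedSectionVars false

theorem BNon_pow {R m : ℕ} (hm : 2 * R ≤ m) (hm1 : 1 ≤ m) : (1 + 1 / (m : ℝ)) ^ R ≤ 2 := by
  have hm0 : (0 : ℝ) < m := by exact_mod_cast (by omega : 0 < m)
  have h3 : 1 + 1 / (m : ℝ) ≤ Real.exp (1 / m) := by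
    have := Real.add_one_le_exp (1 / (m : ℝ))
    linarith
  have h4 : (1 + 1 / (m : ℝ)) ^ R ≤ Real.exp (1 / m) ^ R :=
    pow_le_pow_left₀ (by positivity) h3 R
  rw [← Real.exp_nat_mul] at h4
  refine h4.trans ?_
  have h5 : (R : ℝ) * (1 / m) ≤ 1 / 2 := by
    rw [mul_one_div, div_le_div_iff₀ hm0 (by norm_num)]
    have : (2 : ℝ) * R ≤ m := by exact_mod_cast hm
    linarith
  refine (Real.exp_le_exp.2 h5).trans ?_
  have h6 : Real.exp (1 / 2) ^ 2 ≤ 2 ^ 2 := by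
    rw [← Real.exp_nat_mul]
    have h7 : ((2 : ℕ) : ℝ) * (1 / 2) = 1 := by norm_num
    rw [h7]
    have := Real.exp_one_lt_d9
    linarith
  exact le_of_sq_le_sq h6 (by norm_num)

section

variable {ι : Type*} [Fintype ι] [DecidableEq ι] (J : SimpleGraph ι) [DecidableRel J.Adj]

theorem BNon_vP {β : ℝ} {y : ℝ} (hy : 0 < y) :
    y * max (Psi J y - Fintype.card ι * fP β 1 y) 0 = vP J β y := by
  unfold vP fP
  rw [mul_max_of_nonneg _ _ hy.le, mul_zero]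
  congr 1
  rw [pow_one]
  field_simp

theorem BNon_unif {β : ℝ} (hβ1 : β < 1) {θ ε : ℝ} (hθ : 0 < θ) (hε : 0 < ε) :
    ∃ δ : ℝ, 0 < δ ∧ ∀ y y' : ℝ, θ ≤ y → y ≤ 1 → θ ≤ y' → y' ≤ 1 → |y - y'| ≤ δ →
      max (Psi J y - Fintype.card ι * fP β 1 y) 0 ≤
        max (Psi J y' - Fintype.card ι * fP β 1 y') 0 + ε := by
  have hcP : Continuous (fun y : ℝ => Psi J y) := by
    unfold Psi
    fun_prop
  have hcF : ContinuousOn (fun y => fP β 1 y) (Set.Icc θ 1) :=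
    SHub_fP_cont hβ1 1 (fun y hy => by have := hy.1; linarith)
  have hc : ContinuousOn (fun y : ℝ => max (Psi J y - Fintype.card ι * fP β 1 y) 0)
      (Set.Icc θ 1) := by
    refine ContinuousOn.sup ?_ continuousOn_const
    exact ContinuousOn.sub hcP.continuousOn (ContinuousOn.mul continuousOn_const hcF)
  have hu := isCompact_Icc.uniformContinuousOn_of_continuous hc
  rw [Metric.uniformContinuousOn_iff] at hu
  obtain ⟨δ, hδ, hu⟩ := hu ε hε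
  refine ⟨δ / 2, by linarith, fun y y' h1 h2 h3 h4 h5 => ?_⟩
  have h6 := hu y ⟨h1, h2⟩ y' ⟨h3, h4⟩ (by
    rw [Real.dist_eq]
    linarith)
  rw [Real.dist_eq] at h6
  have := (abs_lt.mp h6).2
  linarith

/-- the payment of a vertex in the middle range -/
theorem BNon_PiM {R m : ℕ} {β ε₃ x : ℝ} (hε : 0 ≤ ε₃) :
    PiM J R m 1 β ε₃ x ≤ ((R : ℝ) * m) ^ (Fintype.card ι - 1) *
      (max (Psi J (x / (R * m)) - Fintype.card ι * fP β 1 (x / (R * m))) 0 + ε₃) := by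
  unfold PiM
  refine mul_le_mul_of_nonneg_left ?_ (by positivity)
  refine max_le ?_ ?_
  · linarith [le_max_left (Psi J (x / (R * m)) - Fintype.card ι * fP β 1 (x / (R * m))) 0]
  · linarith [le_max_right (Psi J (x / (R * m)) - Fintype.card ι * fP β 1 (x / (R * m))) 0]

/-- the payment is at most the number of vertices -/
theorem BNon_phi_le (hd : ∀ v, 1 ≤ dg J univ v) {β : ℝ} (hβ1 : β < 1) {y : ℝ} (hy : 0 ≤ y)
    (hy1 : y ≤ 1) : max (Psi J y - Fintype.card ι * fP β 1 y) 0 ≤ Fintype.card ι := by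
  have h1 := Psi_le J hd hy hy1
  have h2 := fP_nonneg hβ1 1 hy
  have h3 : (0 : ℝ) ≤ Fintype.card ι := Nat.cast_nonneg _
  have h4 : (Fintype.card ι : ℝ) * y ≤ Fintype.card ι * 1 := mul_le_mul_of_nonneg_left hy1 h3
  have h5 : 0 ≤ (Fintype.card ι : ℝ) * fP β 1 y := mul_nonneg h3 h2
  refine max_le ?_ h3
  linarith

end

/-- the payment of a very heavy vertex -/
theorem BNon_PiW {s R m r : ℕ} {θ x : ℝ} (hs : 2 ≤ s) (hm : 2 * s ≤ m) (hr : r ≤ R)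
    (hx0 : 0 ≤ x) (hx : x ≤ θ * R * m) :
    PiW s 0 ((R : ℝ) * m + r) x ≤ 4 * s * θ * ((R : ℝ) * m) ^ (s - 1) := by
  obtain ⟨t, rfl⟩ : ∃ t, s = t + 2 := ⟨s - 2, by omega⟩
  have e1 : t + 2 - 2 - 0 = t := by omega
  have e2 : t + 2 - 1 = t + 1 := by omega
  have hm1 : 1 ≤ m := by omega
  have hm0 : (0 : ℝ) < m := by exact_mod_cast (by omega : 0 < m)
  have hr' : (r : ℝ) ≤ R := by exact_mod_cast hr
  have hR0 : (0 : ℝ) ≤ R := Nat.cast_nonneg _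
  unfold PiW
  rw [e1, e2, add_zero, pow_one]
  have h1 : (R : ℝ) * m + r ≤ R * m * (1 + 1 / m) := by
    have : (R : ℝ) * m * (1 + 1 / m) = R * m + R := by field_simp
    rw [this]
    linarith only [hr']
  have h2 : ((R : ℝ) * m + r) ^ t ≤ (R * m) ^ t * 2 := by
    calc ((R : ℝ) * m + r) ^ t ≤ (R * m * (1 + 1 / m)) ^ t :=
          pow_le_pow_left₀ (by positivity) h1 t
      _ = (R * m) ^ t * (1 + 1 / m) ^ t := mul_pow _ _ _
      _ ≤ (R * m) ^ t * 2 := by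
          refine mul_le_mul_of_nonneg_left (BNon_pow (by omega) hm1) (by positivity)
  have h3 : 2 * ((t + 2 : ℕ) : ℝ) * x ≤ 2 * ((t + 2 : ℕ) : ℝ) * (θ * R * m) :=
    mul_le_mul_of_nonneg_left hx (by positivity)
  have h4 : 0 ≤ 2 * ((t + 2 : ℕ) : ℝ) * (θ * R * m) :=
    le_trans (by positivity) h3
  calc 2 * ((t + 2 : ℕ) : ℝ) * x * ((R : ℝ) * m + r) ^ t
      ≤ 2 * ((t + 2 : ℕ) : ℝ) * (θ * R * m) * ((R * m) ^ t * 2) :=
        mul_le_mul h3 h2 (by positivity) h4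
    _ = 4 * ((t + 2 : ℕ) : ℝ) * θ * ((R : ℝ) * m) ^ (t + 1) := by ring

/-- the copies of `J` in a set with pieces -/
theorem BNon_emb {ι : Type} [Fintype ι] [DecidableEq ι] (J : SimpleGraph ι) [DecidableRel J.Adj]
    (hd : ∀ v, 1 ≤ dg J univ v) {V : Type} [DecidableEq V] (G : SimpleGraph V)
    [DecidableRel G.Adj] (S : Finset V) {N : ℝ} (hN : 0 ≤ N) (g : ℕ → ℝ)
    (h : ∀ a : ℕ, 1 ≤ a → a ≤ Fintype.card ι →
      ∑ x ∈ S, (dg G S x : ℝ) ^ a ≤ N ^ (a + 1) * g (a + 1)) :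
    ((emb J G S).card : ℝ) ≤ N ^ (Fintype.card ι) * cprod J g := by
  classical
  have : Fintype J.ConnectedComponent := Fintype.ofFinite _
  refine (emb_comp J G S).trans ?_
  rw [cprod_eq, cprod_eq, ← cprod_sum J, ← Finset.prod_pow_eq_pow_sum, ← Finset.prod_mul_distrib]
  refine Finset.prod_le_prod (fun C _ => Finset.sum_nonneg fun _ _ => by positivity) ?_
  intro C _
  have h2 := cprod_two J hd C
  have h3 := BConv_le J C
  have h4 := h (Nat.card C.supp - 1) (by omega) (by omega)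
  have e : Nat.card C.supp - 1 + 1 = Nat.card C.supp := by omega
  rw [e] at h4
  exact h4

/-- the final computation -/
theorem BNon_final {P A B s θ K ε ε₃ ε' δ a b M x1 x2 x3 v : ℝ} (hP : 0 ≤ P)
    (hs : 2 ≤ s) (hθ : 0 < θ) (hθ1 : θ ≤ 1 / 4) (hε : 0 < ε) (hK : K ≤ 2 / θ) (hK0 : 0 ≤ K)
    (hε₃0 : 0 ≤ ε₃) (hδ0 : 0 ≤ δ) (hε'0 : 0 ≤ ε') (hδ1 : δ ≤ 1) (hε₃1 : ε₃ ≤ 1)
    (hε₃ : ε₃ ≤ ε * θ / 64) (hδ : δ ≤ ε * θ / 64) (hε' : ε' ≤ ε * θ / (64 * (s + 2)))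
    (hx1 : x1 ≤ P * A)
    (hx2 : x2 ≤ P * (B + K * (δ + ε₃) + K * (ε' * (s + δ + ε₃))))
    (hx3 : x3 ≤ P * (4 * s * θ * (v + ε')))
    (hopt : A + B + 4 * s * θ * v ≤ 1 - ε) (ha : 0 ≤ a) (ha1 : a ≤ 1) (hb : 0 ≤ b)
    (hab : a + b ≤ ε / 4)
    (hM : (1 - b) * P ≤ M) : x1 + x2 + x3 ≤ (1 - a) * M := by
  have h1 : K * (δ + ε₃) ≤ ε / 16 := by
    have h2 : δ + ε₃ ≤ ε * θ / 32 := by linarith only [hε₃, hδ]
    calc K * (δ + ε₃) ≤ 2 / θ * (ε * θ / 32) := mul_le_mul hK h2 (by positivity) (by positivity)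
      _ = ε / 16 := by field_simp; norm_num
  have h3 : ε' * (s + 2) ≤ ε * θ / 64 := by
    rw [le_div_iff₀ (by positivity)] at hε' ⊢
    linarith only [hε']
  have h4 : K * (ε' * (s + δ + ε₃)) ≤ ε / 32 := by
    have h5 : ε' * (s + δ + ε₃) ≤ ε * θ / 64 :=
      (mul_le_mul_of_nonneg_left (by linarith) hε'0).trans h3
    calc K * (ε' * (s + δ + ε₃)) ≤ 2 / θ * (ε * θ / 64) :=
          mul_le_mul hK h5 (by positivity) (by positivity)
      _ = ε / 32 := by field_simp; norm_num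
  have h6 : 4 * s * θ * ε' ≤ ε / 16 := by
    have h7 : s * ε' ≤ ε * θ / 64 := by nlinarith only [hε'0, h3]
    have h8 : ε * θ / 64 ≤ ε / 64 := by nlinarith only [hε, hθ1]
    have h9 : 0 ≤ s * ε' := by positivity
    calc 4 * s * θ * ε' = 4 * θ * (s * ε') := by ring
      _ ≤ 4 * 1 * (ε / 64) := by
          refine mul_le_mul (by linarith) (h7.trans h8) h9 (by norm_num)
      _ = ε / 16 := by ring
  have h10 : P * (A + (B + K * (δ + ε₃) + K * (ε' * (s + δ + ε₃))) + 4 * s * θ * (v + ε')) ≤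
      P * (1 - ε / 2) := mul_le_mul_of_nonneg_left (by nlinarith only [hε, hopt, h1, h4, h6]) hP
  have h11 : P * (1 - ε / 2) ≤ P * ((1 - a) * (1 - b)) := by
    refine mul_le_mul_of_nonneg_left ?_ hP
    have : 0 ≤ a * b := mul_nonneg ha hb
    nlinarith only [hε, hab, this]
  have h12 : P * ((1 - a) * (1 - b)) ≤ (1 - a) * M := by
    calc P * ((1 - a) * (1 - b)) = (1 - a) * ((1 - b) * P) := by ring
      _ ≤ (1 - a) * M := mul_le_mul_of_nonneg_left hM (by linarith)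
  have h13 : P * (A + (B + K * (δ + ε₃) + K * (ε' * (s + δ + ε₃))) + 4 * s * θ * (v + ε')) =
      P * A + P * (B + K * (δ + ε₃) + K * (ε' * (s + δ + ε₃))) + P * (4 * s * θ * (v + ε')) := by
    ring
  linarith only [hx1, hx2, hx3, h10, h11, h12]

variable {ι : Type} [Fintype ι] [DecidableEq ι] (J : SimpleGraph ι) [DecidableRel J.Adj]

theorem localT [Nonempty ι] (hd : ∀ v, 1 ≤ dg J univ v) (hcs : 2 ≤ Fintype.card ι) {β : ℝ}
    (hβ : 0 < β) (hβ1 : β < 1) (hp : PairC J 1 β) (hQ : Qc J β < 1) {x₀ : ℝ} (hx : 0 < x₀)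
    (hx1 : x₀ ≤ 1 / 4) :
    ∃ θ₀ : ℝ, 0 < θ₀ ∧ ∀ θ : ℝ, 0 < θ → θ ≤ θ₀ → ∃ ε₃ : ℝ, 0 < ε₃ ∧ ε₃ ≤ 1 ∧ ∃ R₀ : ℕ, 3 ≤ R₀ ∧
    ∀ R r : ℕ, R₀ ≤ R → r ≤ R → ∀ C C₁ : ℝ, 0 < C → 0 < C₁ → ∃ m₀ : ℕ, ∀ m : ℕ, m₀ ≤ m →
      ∀ (V : Type) [DecidableEq V] (G : SimpleGraph V) [DecidableRel G.Adj] (S T : Finset V),
        S.card ≤ R * m + r → T ⊆ midS G S R m θ x₀ → PieceC G S T m C → T.Nonempty →
        ((emb J G S).card : ℝ) + ∑ x ∈ T, PiM J R m 1 β ε₃ (dg G S x) +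
          ∑ x ∈ vh G S R m θ, PiW (Fintype.card ι) 0 ((R : ℝ) * m + r) (dg G S x) ≤
            (1 - 2 * C₁ / m) * M0 J R m := by
  classical
  obtain ⟨θ₁, hθ₁, hopt⟩ := optB J hd hβ hβ1 hp hQ hx (by linarith : x₀ < 1)
  refine ⟨min θ₁ (1 / 4), by positivity, fun θ hθ hθ0 => ?_⟩
  have hθ14 : θ ≤ 1 / 4 := hθ0.trans (min_le_right _ _)
  obtain ⟨ε, hε, hopt⟩ := hopt θ hθ (hθ0.trans (min_le_left _ _))
  set s : ℝ := (Fintype.card ι : ℝ) with hs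
  have hs2 : 2 ≤ s := by rw [hs]; exact_mod_cast hcs
  obtain ⟨δ, hδ, hδ1, hδε⟩ : ∃ δ : ℝ, 0 < δ ∧ δ ≤ 1 ∧ δ ≤ ε * θ / 64 :=
    ⟨min 1 (ε * θ / 64), by positivity, min_le_left _ _, min_le_right _ _⟩
  obtain ⟨ω, hω, hunif⟩ := BNon_unif J hβ1 hθ hδ
  obtain ⟨ε', hε'0, hε'1, hε'ε, hε'ω, hε's⟩ : ∃ ε' : ℝ, 0 < ε' ∧ ε' ≤ 1 ∧ ε' ≤ ε ∧ ε' ≤ ω ∧
      ε' ≤ ε * θ / (64 * (s + 2)) :=
    ⟨min (min 1 ε) (min ω (ε * θ / (64 * (s + 2)))), by positivity,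
      (min_le_left _ _).trans (min_le_left _ _), (min_le_left _ _).trans (min_le_right _ _),
      (min_le_right _ _).trans (min_le_left _ _), (min_le_right _ _).trans (min_le_right _ _)⟩
  refine ⟨δ, hδ, hδ1, ?_⟩
  obtain ⟨R₁, hR₁, hpieces⟩ := pieces (Fintype.card ι) θ ε' hθ hθ14 hε'0 hε'1
  obtain ⟨CM, hCM, hM0⟩ := M0_bounds J
  refine ⟨max R₁ ⌈8 * CM / ε⌉₊, hR₁.trans (le_max_left _ _), fun R r hR hr C C₁ hC hC₁ => ?_⟩
  have hR1 : R₁ ≤ R := (le_max_left _ _).trans hR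
  have hR3 : 3 ≤ R := hR₁.trans hR1
  have hR0 : (0 : ℝ) < R := by exact_mod_cast (by omega : 0 < R)
  have hRC : CM / R ≤ ε / 8 := by
    have h1 : 8 * CM / ε ≤ R := Nat.ceil_le.1 ((le_max_right _ _).trans hR)
    rw [div_le_iff₀ hε] at h1
    rw [div_le_iff₀ hR0]
    linarith only [h1]
  obtain ⟨m₁, hm₁⟩ := hpieces R r hR1 hr C hC
  refine ⟨max (max m₁ (2 * Fintype.card ι)) (max ⌈2 * C₁⌉₊ ⌈16 * C₁ / ε⌉₊),
    fun m hm V _ G _ S T hS hT hP hne => ?_⟩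
  have hm1 : m₁ ≤ m := ((le_max_left _ _).trans (le_max_left _ _)).trans hm
  have hm2 : 2 * Fintype.card ι ≤ m := ((le_max_right _ _).trans (le_max_left _ _)).trans hm
  have hm3 : 2 * C₁ ≤ m := Nat.ceil_le.1 (((le_max_left _ _).trans (le_max_right _ _)).trans hm)
  have hm4 : 16 * C₁ / ε ≤ m :=
    Nat.ceil_le.1 (((le_max_right _ _).trans (le_max_right _ _)).trans hm)
  have hm0 : (0 : ℝ) < m := by exact_mod_cast (by omega : 0 < m)
  have hN : (0 : ℝ) < R * m := by positivity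
  have hTS : T ⊆ S := hT.trans (by unfold midS; exact filter_subset _ _)
  have hmid : ∀ x ∈ T, θ * R * m < (dg G S x : ℝ) ∧ (dg G S x : ℝ) < (1 - x₀) * R * m := by
    intro x hx
    have := hT hx
    unfold midS at this
    exact (mem_filter.1 this).2
  obtain ⟨k, Y, τ, h, hk, hkθ, hY, hYx, hh, hsum, hτ, hTi, hpow, hvh⟩ :=
    hm₁ m hm1 V G S T hS hTS (fun x hx => (hmid x hx).1) hP hne
  -- the values
  have hy1 : ∀ x ∈ T, θ ≤ (dg G S x : ℝ) / (R * m) ∧ (dg G S x : ℝ) / (R * m) ≤ 1 - x₀ := by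
    intro x hx
    obtain ⟨h1, h2⟩ := hmid x hx
    constructor
    · rw [le_div_iff₀ hN]
      linarith only [h1]
    · rw [div_le_iff₀ hN]
      linarith only [h2]
  have hY1 : ∀ i, Y i ≤ 1 - x₀ := by
    intro i
    obtain ⟨x, hx, h1⟩ := hYx i
    rw [h1]
    exact (hy1 x hx).2
  have hY01 : ∀ i, Y i ≤ 1 := fun i => (hY1 i).trans (by linarith only [hx])
  have hY0 : ∀ i, 0 < Y i := fun i => hθ.trans_le (hY i)
  have hopt1 := hopt k Y h ε' hε'0.le hε'ε hk hkθ hY hY1 hh hsum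
  -- the copies
  have hemb := BNon_emb J hd G S hN.le (fun c => ∑ i, Y i ^ c + max (1 - ∑ i, Y i - h) 0 *
          max (1 - ∑ i, Y i) 0 ^ (c - 1) + h * θ ^ (c - 1) + ε') (fun a ha ha' => by
    have h1 := hpow a ha ha'
    simpa using h1)
  -- the payments of the vertices of `T`
  have hfib : ∑ x ∈ T, PiM J R m 1 β δ (dg G S x) =
      ∑ i : Fin k, ∑ x ∈ T.filter (fun x => τ x = i), PiM J R m 1 β δ (dg G S x) :=
    (sum_fiberwise T τ _).symm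
  have hT1 : ∑ x ∈ T, PiM J R m 1 β δ (dg G S x) ≤ ((R : ℝ) * m) ^ (Fintype.card ι) *
      (∑ i, vP J β (Y i) + k * (δ + δ) + k * (ε' * (s + δ + δ))) := by
    rw [hfib]
    have h1 : ∀ i : Fin k, ∑ x ∈ T.filter (fun x => τ x = i), PiM J R m 1 β δ (dg G S x) ≤
        ((R : ℝ) * m) ^ (Fintype.card ι) * (vP J β (Y i) + (δ + δ) + ε' * (s + δ + δ)) := by
      intro i
      set φi : ℝ := max (Psi J (Y i) - Fintype.card ι * fP β 1 (Y i)) 0 with hφi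
      have hφ0 : 0 ≤ φi := le_max_right _ _
      have hφs : φi ≤ s := BNon_phi_le J hd hβ1 (hY0 i).le (hY01 i)
      have h2 : ∀ x ∈ T.filter (fun x => τ x = i), PiM J R m 1 β δ (dg G S x) ≤
          ((R : ℝ) * m) ^ (Fintype.card ι - 1) * (φi + δ + δ) := by
        intro x hx
        rw [mem_filter] at hx
        refine (BNon_PiM J hδ.le).trans (mul_le_mul_of_nonneg_left ?_ (by positivity))
        have h3 := hτ x hx.1
        rw [hx.2] at h3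
        have h4 := hunif _ _ (hy1 x hx.1).1 ((hy1 x hx.1).2.trans (by linarith)) (hY i) (hY01 i)
          (h3.trans hε'ω)
        linarith only [h4]
      have h3 := sum_le_sum h2
      rw [sum_const, nsmul_eq_mul] at h3
      refine h3.trans ?_
      have h4 : 0 ≤ ((R : ℝ) * m) ^ (Fintype.card ι - 1) * (φi + δ + δ) := by positivity
      have h5 := mul_le_mul_of_nonneg_right (hTi i) h4
      refine h5.trans ?_
      have h6 : ((R : ℝ) * m) ^ (Fintype.card ι) =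
          ((R : ℝ) * m) ^ (Fintype.card ι - 1) * (R * m) := by
        rw [← pow_succ]
        congr 1
        omega
      have h7 : Y i * φi = vP J β (Y i) := BNon_vP J (hY0 i)
      rw [h6]
      calc (Y i + ε') * (R * m) * (((R : ℝ) * m) ^ (Fintype.card ι - 1) * (φi + δ + δ))
          = ((R : ℝ) * m) ^ (Fintype.card ι - 1) * (R * m) *
            (Y i * φi + Y i * (δ + δ) + ε' * (φi + δ + δ)) := by ring
        _ ≤ ((R : ℝ) * m) ^ (Fintype.card ι - 1) * (R * m) *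
            (vP J β (Y i) + (δ + δ) + ε' * (s + δ + δ)) := by
          refine mul_le_mul_of_nonneg_left ?_ (by positivity)
          rw [h7]
          have h8 : Y i * (δ + δ) ≤ 1 * (δ + δ) :=
            mul_le_mul_of_nonneg_right (hY01 i) (by positivity)
          have h9 : ε' * (φi + δ + δ) ≤ ε' * (s + δ + δ) :=
            mul_le_mul_of_nonneg_left (by linarith only [hφs]) hε'0.le
          linarith only [h8, h9]
    refine (sum_le_sum fun i _ => h1 i).trans (le_of_eq ?_)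
    rw [← mul_sum, sum_add_distrib, sum_add_distrib]
    simp only [sum_const, card_univ, Fintype.card_fin, nsmul_eq_mul]
  -- the very heavy vertices
  have hvh1 : ∑ x ∈ vh G S R m θ, PiW (Fintype.card ι) 0 ((R : ℝ) * m + r) (dg G S x) ≤
      ((R : ℝ) * m) ^ (Fintype.card ι) *
        (4 * s * θ * (h + ∑ i ∈ univ.filter (fun i => Y i ≤ 2 * θ), Y i + ε')) := by
    have h1 : ∀ x ∈ vh G S R m θ, PiW (Fintype.card ι) 0 ((R : ℝ) * m + r) (dg G S x) ≤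
        4 * s * θ * ((R : ℝ) * m) ^ (Fintype.card ι - 1) := by
      intro x hx
      unfold vh at hx
      exact BNon_PiW hcs hm2 hr (Nat.cast_nonneg _) (mem_filter.1 hx).2
    have h2 := sum_le_sum h1
    rw [sum_const, nsmul_eq_mul] at h2
    refine h2.trans ?_
    have h3 : 0 ≤ 4 * s * θ * ((R : ℝ) * m) ^ (Fintype.card ι - 1) := by positivity
    refine (mul_le_mul_of_nonneg_right hvh h3).trans (le_of_eq ?_)
    have h6 : ((R : ℝ) * m) ^ (Fintype.card ι) =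
        ((R : ℝ) * m) ^ (Fintype.card ι - 1) * (R * m) := by
      rw [← pow_succ]
      congr 1
      omega
    rw [h6]
    ring
  obtain ⟨hM1, -⟩ := hM0 R m (by omega) (by omega)
  refine BNon_final (P := ((R : ℝ) * m) ^ (Fintype.card ι)) (s := s) (θ := θ) (K := k) (ε := ε)
    (ε₃ := δ) (ε' := ε') (δ := δ) (a := 2 * C₁ / m) (b := CM / R) (by positivity) hs2 hθ hθ14 hε
    hkθ (Nat.cast_nonneg _) hδ.le hδ.le hε'0.le hδ1 hδ1 hδε hδε hε's hemb hT1 hvh1 hopt1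
    (by positivity) ?_ (by positivity) ?_ hM1
  · rw [div_le_one hm0]
    exact hm3
  · have h1 : 2 * C₁ / m ≤ ε / 8 := by
      rw [div_le_iff₀ hε] at hm4
      rw [div_le_iff₀ hm0]
      linarith only [hm4]
    linarith only [hRC, h1]

/-- the local theorem for the sets with few edges -/
theorem localBS [Nonempty ι] (hd : ∀ v, 1 ≤ dg J univ v) (hcs : 2 ≤ Fintype.card ι) {β : ℝ}
    (hβ : 0 < β) (hβ1 : β < 1) (hp : PairC J 1 β) (hQ : Qc J β < 1) {x₀ : ℝ} (hx : 0 < x₀)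
    (hx1 : x₀ ≤ 1 / 4) :
    ∃ θ₀ : ℝ, 0 < θ₀ ∧ ∀ θ : ℝ, 0 < θ → θ ≤ θ₀ → ∃ ε₃ : ℝ, 0 < ε₃ ∧ ε₃ ≤ 1 ∧ ∃ R₀ : ℕ, 3 ≤ R₀ ∧
    ∀ R r : ℕ, R₀ ≤ R → r ≤ R → ∀ C₁ : ℝ, 0 < C₁ → ∃ CB₀ : ℝ, 0 < CB₀ ∧ ∀ CB : ℝ,
    CB₀ ≤ CB → ∀ C : ℝ, 0 < C → ∃ m₀ : ℕ, ∀ m : ℕ, m₀ ≤ m →
      ∀ (V : Type) [DecidableEq V] (G : SimpleGraph V) [DecidableRel G.Adj] (S T : Finset V)
        (ρ g₁ g₂ : ℝ), S.card ≤ R * m + r → clq G S (R + 1) = ∅ → ¬ TyB G S R m CB →
        M0 J R m ≤ ρ → T ⊆ midS G S R m θ x₀ → PieceC G S T m C →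
        g₁ ≤ ∑ x ∈ vh G S R m θ, PiW (Fintype.card ι) 0 ((R : ℝ) * m + r) (dg G S x) →
        g₂ ≤ ∑ x ∈ T, PiM J R m 1 β ε₃ (dg G S x) →
        ∃ z : Finset V → ℝ, ((emb J G S).card : ℝ) - ρ + g₁ + g₂ ≤ ∑ T ∈ clq G S R, z T ∧
          ∀ T ∈ clq G S R, z T ≤ -(C₁ / m) * (M0 J R m / (m : ℝ) ^ R) := by
  obtain ⟨θ₁, hθ₁, R₁, hR₁, hA⟩ := localA J hd 1
  obtain ⟨θ₂, hθ₂, hB⟩ := localT J hd hcs hβ hβ1 hp hQ hx hx1
  refine ⟨min θ₁ θ₂, by positivity, fun θ hθ hθ0 => ?_⟩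
  obtain ⟨ε₃, hε₃, hε₃1, R₂, hR₂, hB⟩ := hB θ hθ (hθ0.trans (min_le_right _ _))
  refine ⟨ε₃, hε₃, hε₃1, max R₁ R₂, hR₂.trans (le_max_right _ _), fun R r hR hr C₁ hC₁ => ?_⟩
  have hR1 : R₁ ≤ R := (le_max_left _ _).trans hR
  have hR2 : R₂ ≤ R := (le_max_right _ _).trans hR
  have hR3 : 3 ≤ R := hR₂.trans hR2
  have hR0 : (0 : ℝ) < R := by exact_mod_cast (by omega : 0 < R)
  obtain ⟨CB₀, hCB₀, hA⟩ := hA R hR1 r hr 0 (by simpa using hd) C₁ hC₁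
  refine ⟨CB₀, hCB₀, fun CB hCB C hC => ?_⟩
  obtain ⟨m₁, hA⟩ := hA CB hCB
  obtain ⟨m₂, hB⟩ := hB R r hR2 hr C C₁ hC hC₁
  refine ⟨max (max m₁ m₂) (2 * R), fun m hm V _ G _ S T ρ g₁ g₂ hS hfree hty hρ hT hP hg₁ hg₂ =>
    ?_⟩
  have hm1 : m₁ ≤ m := ((le_max_left _ _).trans (le_max_left _ _)).trans hm
  have hm2 : m₂ ≤ m := ((le_max_right _ _).trans (le_max_left _ _)).trans hm
  have hm3 : 2 * R ≤ m := (le_max_right _ _).trans hm
  have hm0 : (0 : ℝ) < m := by exact_mod_cast (by omega : 0 < m)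
  rcases T.eq_empty_or_nonempty with hTe | hTn
  · rw [hTe, sum_empty] at hg₂
    obtain ⟨z, hz1, hz2⟩ := hA m hm1 θ hθ.le (hθ0.trans (min_le_left _ _)) V G S ρ (g₁ + g₂) hS
      hfree hty hρ (by rw [Nat.cast_one, one_mul]; linarith only [hg₁, hg₂])
    refine ⟨z, ?_, hz2⟩
    linarith only [hz1]
  · have hmain := hB m hm2 V G S T hS hT hP hTn
    refine ⟨fun _ => -(C₁ / m) * (M0 J R m / (m : ℝ) ^ R), ?_, fun T _ => le_rfl⟩
    rw [sum_const, nsmul_eq_mul]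
    have hM0 : 0 ≤ M0 J R m := by unfold M0; positivity
    have hk : ((clq G S R).card : ℝ) ≤ 2 * (m : ℝ) ^ R := by
      have h1 := clq_le (G := G) (S := S) (R := R) (by omega) hfree (j := R) le_rfl
      rw [Nat.choose_self, Nat.cast_one, one_mul] at h1
      refine h1.trans ?_
      have h2 : (S.card : ℝ) / R ≤ m * (1 + 1 / m) := by
        rw [div_le_iff₀ hR0]
        have h3 : (S.card : ℝ) ≤ R * m + r := by exact_mod_cast hS
        have h4 : (r : ℝ) ≤ R := by exact_mod_cast hr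
        have h5 : (m : ℝ) * (1 + 1 / m) * R = R * m + R := by field_simp
        rw [h5]
        linarith only [h3, h4]
      refine (pow_le_pow_left₀ (by positivity) h2 R).trans ?_
      rw [mul_pow, mul_comm (2 : ℝ)]
      exact mul_le_mul_of_nonneg_left (BNon_pow hm3 (by omega)) (by positivity)
    have h5 : ((emb J G S).card : ℝ) - ρ + g₁ + g₂ ≤ -(2 * C₁ / m) * M0 J R m := by
      have h6 : (1 - 2 * C₁ / m) * M0 J R m = M0 J R m - (2 * C₁ / m) * M0 J R m := by ring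
      rw [h6] at hmain
      linarith only [hρ, hg₁, hg₂, hmain]
    refine h5.trans ?_
    have h7 : 0 ≤ (C₁ / m) * (M0 J R m / (m : ℝ) ^ R) := by positivity
    have h8 : ((clq G S R).card : ℝ) * ((C₁ / m) * (M0 J R m / (m : ℝ) ^ R)) ≤
        2 * (m : ℝ) ^ R * ((C₁ / m) * (M0 J R m / (m : ℝ) ^ R)) :=
      mul_le_mul_of_nonneg_right hk h7
    have h9 : 2 * (m : ℝ) ^ R * ((C₁ / m) * (M0 J R m / (m : ℝ) ^ R)) =
        (2 * C₁ / m) * M0 J R m := by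
      field_simp
    rw [h9] at h8
    linarith only [h8]

end H57GH
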