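import Pool.Agent.H57.GH.BExt

/-!
Project SB: the final inequality with errors.
-/

namespace H57GH

open Finset H57LC H57LT

set_option linter.unusedSectionVars false

/-- a perturbed product of numbers in `[0, 1]` -/
theorem BOpt_prod {α : Type*} (A : Finset α) (F : α → ℝ) {θ : ℝ} (hθ : 0 ≤ θ) :
    (∀ C ∈ A, 0 ≤ F C) → (∀ C ∈ A, F C ≤ 1) → 2 * (A.card : ℝ) * θ ≤ 1 →
    ∏ C ∈ A, (F C + θ) ≤ ∏ C ∈ A, F C + 2 * A.card * θ := by
  classical
  induction A using Finset.induction_on with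
  | empty => intro _ _ _; simp
  | insert a A ha ih =>
    intro h0 h1 hn
    rw [card_insert_of_notMem ha] at hn ⊢
    push_cast at hn ⊢
    have hA0 : ∀ C ∈ A, 0 ≤ F C := fun C hC => h0 C (mem_insert_of_mem hC)
    have hA1 : ∀ C ∈ A, F C ≤ 1 := fun C hC => h1 C (mem_insert_of_mem hC)
    have hih := ih hA0 hA1 (by nlinarith)
    rw [prod_insert ha, prod_insert ha]
    have ha0 := h0 a (mem_insert_self _ _)
    have ha1 := h1 a (mem_insert_self _ _)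
    have hP1 : ∏ C ∈ A, F C ≤ 1 := prod_le_one hA0 hA1
    have hc : (0 : ℝ) ≤ A.card := Nat.cast_nonneg _
    calc (F a + θ) * ∏ C ∈ A, (F C + θ) ≤ (F a + θ) * (∏ C ∈ A, F C + 2 * A.card * θ) :=
          mul_le_mul_of_nonneg_left hih (by linarith)
      _ = F a * ∏ C ∈ A, F C + θ * ∏ C ∈ A, F C + F a * (2 * A.card * θ) +
          θ * (2 * A.card * θ) := by ring
      _ ≤ F a * ∏ C ∈ A, F C + θ * 1 + 1 * (2 * A.card * θ) + θ * 1 := by
          have h2 : (0 : ℝ) ≤ 2 * A.card * θ := by positivity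
          have h3 : (2 : ℝ) * A.card * θ ≤ 1 := by nlinarith only [hθ, hn]
          have e1 := mul_le_mul_of_nonneg_left hP1 hθ
          have e2 := mul_le_mul_of_nonneg_right ha1 h2
          have e3 := mul_le_mul_of_nonneg_left h3 hθ
          linarith
      _ = _ := by ring

/-- a product of numbers in `[0, 1]` is at most each of them -/
theorem BOpt_one {α : Type*} [DecidableEq α] (A : Finset α) (F : α → ℝ) (h0 : ∀ C ∈ A, 0 ≤ F C)
    (h1 : ∀ C ∈ A, F C ≤ 1) {a : α} (ha : a ∈ A) : ∏ C ∈ A, F C ≤ F a := by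
  rw [← mul_prod_erase A F ha]
  have h2 : ∏ C ∈ A.erase a, F C ≤ 1 :=
    prod_le_one (fun C hC => h0 C (mem_of_mem_erase hC)) fun C hC => h1 C (mem_of_mem_erase hC)
  calc F a * ∏ C ∈ A.erase a, F C ≤ F a * 1 := mul_le_mul_of_nonneg_left h2 (h0 a ha)
    _ = F a := mul_one _

/-- a sum of powers of numbers in `[0, 1]` -/
theorem BOpt_pow {k : ℕ} {Y : Fin k → ℝ} (h0 : ∀ i, 0 ≤ Y i) (h1 : ∀ i, Y i ≤ 1) {c : ℕ}
    (hc : 2 ≤ c) : ∑ i, Y i ^ c ≤ ∑ i, Y i ^ 2 :=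
  sum_le_sum fun i _ => pow_le_pow_of_le_one (h0 i) (h1 i) hc

variable {ι : Type*} [Fintype ι] [DecidableEq ι] (J : SimpleGraph ι) [DecidableRel J.Adj]

theorem BOpt_vP (hd : ∀ v, 1 ≤ dg J univ v) {β : ℝ} (hβ1 : β < 1) {Y : ℝ} (hY : 0 ≤ Y)
    (hY1 : Y ≤ 1) : vP J β Y ≤ Fintype.card ι * Y ^ 2 := by
  unfold vP
  have h1 := mul_le_mul_of_nonneg_left (Psi_le J hd hY hY1) hY
  have h2 : (0 : ℝ) ≤ Fintype.card ι * (max (Y - β) 0 / (1 - β)) :=
    mul_nonneg (Nat.cast_nonneg _) (div_nonneg (le_max_right _ _) (by linarith))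
  refine max_le ?_ (by positivity)
  nlinarith only [h1, h2]

theorem BOpt_vP_nonneg (β Y : ℝ) : 0 ≤ vP J β Y := le_max_right _ _

theorem BOpt_vP_cont (β : ℝ) : Continuous (vP J β) := by
  unfold vP Psi
  fun_prop

/-- the inequality without errors -/
theorem BOpt_point [Nonempty ι] [Fintype J.ConnectedComponent] (hd : ∀ v, 1 ≤ dg J univ v)
    {β : ℝ} (hβ : 0 < β) (hβ1 : β < 1) (hp : PairC J 1 β) (hQ : Qc J β < 1) {x₀ : ℝ}
    (hx : 0 < x₀) (hx1 : x₀ < 1) :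
    ∃ θ₀ : ℝ, 0 < θ₀ ∧ θ₀ ≤ 1 ∧ ∀ θ : ℝ, 0 < θ → θ ≤ θ₀ → ∀ (k : ℕ) (Y : Fin k → ℝ)
      (h : ℝ), 1 ≤ k → (∀ i, θ ≤ Y i) → (∀ i, Y i ≤ 1 - x₀) → 0 ≤ h → ∑ i, Y i + h ≤ 1 →
      ∏ C : J.ConnectedComponent, (∑ i, Y i ^ (Nat.card C.supp) + max (1 - ∑ i, Y i - h) 0 *
          max (1 - ∑ i, Y i) 0 ^ (Nat.card C.supp - 1) + h * θ ^ (Nat.card C.supp - 1)) +
        ∑ i, vP J β (Y i) + 4 * Fintype.card ι * θ * (h + ∑ i, Y i) < 1 := by
  classical
  set s : ℝ := (Fintype.card ι : ℝ) with hs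
  have hs1 : (1 : ℝ) ≤ s := by
    rw [hs]
    exact_mod_cast Fintype.card_pos (α := ι)
  obtain ⟨x₃, hx₃, hx₃0, hx₃s⟩ : ∃ x₃ : ℝ, 0 < x₃ ∧ x₃ ≤ x₀ ∧ x₃ ≤ 1 / (4 * (s + 2)) :=
    ⟨min x₀ (1 / (4 * (s + 2))), by positivity, min_le_left _ _, min_le_right _ _⟩
  have hx₃s' : (s + 2) * x₃ ≤ 1 / 4 := by
    rw [le_div_iff₀ (by positivity)] at hx₃s
    linarith
  have hx₃4 : x₃ ≤ 1 / 12 := by nlinarith only [hs1, hx₃s']
  obtain ⟨e, he, hconf⟩ := conf_of_Q J hd hβ hβ1 hp hQ hx₃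
  set lam : ℝ := (3 / 4 : ℝ) ^ (Fintype.card ι) with hlam
  have hlam0 : 0 < lam := by positivity
  refine ⟨min (min (e / (40 * s)) (lam / (8 * s))) (1 / (32 * s)), by positivity, ?_, ?_⟩
  · refine (min_le_right _ _).trans ?_
    rw [div_le_one (by positivity)]
    linarith
  intro θ hθ hθ0 k Y h hk hY hY1 hh hsum
  have hθe : θ * (40 * s) ≤ e := by
    have := hθ0.trans ((min_le_left _ _).trans (min_le_left _ _))
    rwa [le_div_iff₀ (by positivity)] at this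
  have hθl : θ * (8 * s) ≤ lam := by
    have := hθ0.trans ((min_le_left _ _).trans (min_le_right _ _))
    rwa [le_div_iff₀ (by positivity)] at this
  have hθs : θ * (32 * s) ≤ 1 := by
    have := hθ0.trans (min_le_right _ _)
    rwa [le_div_iff₀ (by positivity)] at this
  have hθ1 : θ ≤ 1 / 32 := by nlinarith only [hθs, hs1, hθ]
  set T : ℝ := ∑ i, Y i with hT
  have hY0 : ∀ i, 0 ≤ Y i := fun i => hθ.le.trans (hY i)
  have hYle : ∀ i, Y i ≤ 1 := fun i => by linarith [hY1 i]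
  have hYT : ∀ i, Y i ≤ T := fun i => single_le_sum (fun j _ => hY0 j) (mem_univ i)
  have hT0 : 0 < T := by
    have h1 := hYT ⟨0, by omega⟩
    have h2 := hY ⟨0, by omega⟩
    linarith only [hk, hθ, h1, h2]
  have hL0 : 0 ≤ 1 - T - h := by linarith
  have hL1 : 0 ≤ 1 - T := by linarith
  rw [max_eq_left hL0, max_eq_left hL1]
  have hvp0 : ∀ i, 0 ≤ vP J β (Y i) := fun i => BOpt_vP_nonneg J β _
  have hc2 : ∀ C : J.ConnectedComponent, 2 ≤ Nat.card C.supp := fun C => cprod_two J hd C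
  have hcs : ∀ C : J.ConnectedComponent, Nat.card C.supp ≤ Fintype.card ι := by
    intro C
    have h1 := cprod_sum J
    rw [← h1]
    exact single_le_sum (f := fun C : J.ConnectedComponent => Nat.card C.supp)
      (fun _ _ => Nat.zero_le _) (mem_univ C)
  have hcard : 2 * (Fintype.card J.ConnectedComponent : ℝ) ≤ s := by
    have h1 := cprod_sum J
    have h2 : ∑ C : J.ConnectedComponent, 2 ≤ ∑ C : J.ConnectedComponent, Nat.card C.supp :=
      sum_le_sum fun C _ => hc2 C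
    rw [h1, sum_const, smul_eq_mul, card_univ] at h2
    have h3 : ((Fintype.card J.ConnectedComponent * 2 : ℕ) : ℝ) ≤ s := by
      rw [hs]; exact_mod_cast h2
    push_cast at h3
    linarith
  -- the powers
  have hθc : ∀ C : J.ConnectedComponent, θ ^ (Nat.card C.supp - 1) ≤ θ := by
    intro C
    calc θ ^ (Nat.card C.supp - 1) ≤ θ ^ 1 :=
          pow_le_pow_of_le_one hθ.le (by linarith) (by have := hc2 C; omega)
      _ = θ := pow_one _
  have hpowL : ∀ C : J.ConnectedComponent,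
      (1 - T) * (1 - T) ^ (Nat.card C.supp - 1) = (1 - T) ^ (Nat.card C.supp) := by
    intro C
    rw [← pow_succ']
    congr 1
    have := hc2 C
    omega
  have hLle : 1 - T ≤ 1 := by linarith
  by_cases hcase : 1 - T ≤ 1 - x₃
  · -- the partition `(Y, 1 - T)`
    have hn := hconf (k + 1) (Fin.cons (1 - T) Y) (by
      intro i
      refine Fin.cases ?_ (fun j => ?_) i
      · simpa using hL1
      · simpa using hY0 j) (by
      intro i
      refine Fin.cases ?_ (fun j => ?_) i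
      · simpa using hcase
      · simp only [Fin.cons_succ]
        linarith [hY1 j]) (by
      rw [Fin.sum_univ_succ]
      simp only [Fin.cons_zero, Fin.cons_succ]
      rw [← hT]
      ring)
    rw [cprod_eq] at hn
    simp only [Fin.sum_univ_succ, Fin.cons_zero, Fin.cons_succ] at hn
    have hv0 := BOpt_vP_nonneg J β (1 - T)
    have hF0 : ∀ C ∈ (univ : Finset J.ConnectedComponent),
        0 ≤ (1 - T) ^ (Nat.card C.supp) + ∑ i, Y i ^ (Nat.card C.supp) := by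
      intro C _
      exact add_nonneg (pow_nonneg hL1 _) (sum_nonneg fun i _ => pow_nonneg (hY0 i) _)
    have hF1 : ∀ C ∈ (univ : Finset J.ConnectedComponent),
        (1 - T) ^ (Nat.card C.supp) + ∑ i, Y i ^ (Nat.card C.supp) ≤ 1 := by
      intro C _
      have h1 : (1 - T) ^ (Nat.card C.supp) ≤ (1 - T) ^ 1 :=
        pow_le_pow_of_le_one hL1 hLle (by have := hc2 C; omega)
      have h2 : ∑ i, Y i ^ (Nat.card C.supp) ≤ ∑ i, Y i ^ 1 :=
        sum_le_sum fun i _ => pow_le_pow_of_le_one (hY0 i) (hYle i) (by have := hc2 C; omega)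
      simp only [pow_one] at h1 h2
      rw [← hT] at h2
      linarith
    have h3 := BOpt_prod univ (fun C : J.ConnectedComponent =>
      (1 - T) ^ (Nat.card C.supp) + ∑ i, Y i ^ (Nat.card C.supp)) hθ.le hF0 hF1 (by
        rw [card_univ]
        nlinarith only [hs1, hθ, hθ1, hcard, hθs])
    rw [card_univ] at h3
    have h4 : ∏ C : J.ConnectedComponent, (∑ i, Y i ^ (Nat.card C.supp) + (1 - T - h) *
          (1 - T) ^ (Nat.card C.supp - 1) + h * θ ^ (Nat.card C.supp - 1)) ≤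
        ∏ C : J.ConnectedComponent,
          ((1 - T) ^ (Nat.card C.supp) + ∑ i, Y i ^ (Nat.card C.supp) + θ) := by
      refine prod_le_prod (fun C _ => ?_) fun C _ => ?_
      · have a1 : 0 ≤ ∑ i, Y i ^ (Nat.card C.supp) := sum_nonneg fun i _ => pow_nonneg (hY0 i) _
        have a2 : 0 ≤ (1 - T - h) * (1 - T) ^ (Nat.card C.supp - 1) :=
          mul_nonneg hL0 (pow_nonneg hL1 _)
        have a3 : 0 ≤ h * θ ^ (Nat.card C.supp - 1) := mul_nonneg hh (pow_nonneg hθ.le _)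
        linarith
      · have a1 : 0 ≤ h * (1 - T) ^ (Nat.card C.supp - 1) := mul_nonneg hh (pow_nonneg hL1 _)
        have a2 : h * θ ^ (Nat.card C.supp - 1) ≤ 1 * θ :=
          mul_le_mul (by linarith) (hθc C) (pow_nonneg hθ.le _) zero_le_one
        have a3 : (1 - T - h) * (1 - T) ^ (Nat.card C.supp - 1) =
            (1 - T) ^ (Nat.card C.supp) - h * (1 - T) ^ (Nat.card C.supp - 1) := by
          rw [← hpowL C]; ring
        linarith
    have h5 : 2 * (Fintype.card J.ConnectedComponent : ℝ) * θ ≤ s * θ :=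
      mul_le_mul_of_nonneg_right hcard hθ.le
    have h6 : 4 * s * θ * (h + T) ≤ 4 * s * θ * 1 :=
      mul_le_mul_of_nonneg_left (by linarith) (by positivity)
    have h7 : 0 < s * θ := by positivity
    linarith [h3, h4, h5, h6, hn, hv0]
  · -- nearly everything outside the pieces
    have hcase' : T < x₃ := by linarith
    have hL34 : 3 / 4 ≤ 1 - T := by linarith
    have hθL : θ ≤ 1 - T := by linarith
    obtain ⟨v⟩ := (inferInstance : Nonempty ι)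
    set C₀ : J.ConnectedComponent := J.connectedComponentMk v with hC₀
    have hF0 : ∀ C ∈ (univ : Finset J.ConnectedComponent),
        0 ≤ ∑ i, Y i ^ (Nat.card C.supp) + (1 - T - h) *
          (1 - T) ^ (Nat.card C.supp - 1) + h * θ ^ (Nat.card C.supp - 1) := by
      intro C _
      have a1 : 0 ≤ ∑ i, Y i ^ (Nat.card C.supp) := sum_nonneg fun i _ => pow_nonneg (hY0 i) _
      have a2 : 0 ≤ (1 - T - h) * (1 - T) ^ (Nat.card C.supp - 1) :=
        mul_nonneg hL0 (pow_nonneg hL1 _)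
      have a3 : 0 ≤ h * θ ^ (Nat.card C.supp - 1) := mul_nonneg hh (pow_nonneg hθ.le _)
      linarith
    have hF1 : ∀ C ∈ (univ : Finset J.ConnectedComponent),
        ∑ i, Y i ^ (Nat.card C.supp) + (1 - T - h) *
          (1 - T) ^ (Nat.card C.supp - 1) + h * θ ^ (Nat.card C.supp - 1) ≤ 1 := by
      intro C _
      have h1 : (1 - T) ^ (Nat.card C.supp) ≤ (1 - T) ^ 1 :=
        pow_le_pow_of_le_one hL1 hLle (by have := hc2 C; omega)
      have h2 : ∑ i, Y i ^ (Nat.card C.supp) ≤ ∑ i, Y i ^ 1 :=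
        sum_le_sum fun i _ => pow_le_pow_of_le_one (hY0 i) (hYle i) (by have := hc2 C; omega)
      simp only [pow_one] at h1 h2
      rw [← hT] at h2
      have a2 : h * θ ^ (Nat.card C.supp - 1) ≤ h * (1 - T) ^ (Nat.card C.supp - 1) :=
        mul_le_mul_of_nonneg_left (pow_le_pow_left₀ hθ.le hθL _) hh
      have a3 : (1 - T - h) * (1 - T) ^ (Nat.card C.supp - 1) =
          (1 - T) ^ (Nat.card C.supp) - h * (1 - T) ^ (Nat.card C.supp - 1) := by
        rw [← hpowL C]; ring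
      linarith
    have h3 := BOpt_one univ (fun C : J.ConnectedComponent =>
      ∑ i, Y i ^ (Nat.card C.supp) + (1 - T - h) *
          (1 - T) ^ (Nat.card C.supp - 1) + h * θ ^ (Nat.card C.supp - 1)) hF0 hF1 (mem_univ C₀)
    -- the factor of `C₀`
    have h4 : ∑ i, Y i ^ (Nat.card C₀.supp) ≤ ∑ i, Y i ^ 2 := BOpt_pow hY0 hYle (hc2 C₀)
    have h5 : (1 - T) ^ (Nat.card C₀.supp) ≤ (1 - T) ^ 2 :=
      pow_le_pow_of_le_one hL1 hLle (hc2 C₀)
    have h6 : lam ≤ (1 - T) ^ (Nat.card C₀.supp - 1) := by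
      calc lam = (3 / 4 : ℝ) ^ (Fintype.card ι) := rfl
        _ ≤ (3 / 4 : ℝ) ^ (Nat.card C₀.supp - 1) :=
            pow_le_pow_of_le_one (by norm_num) (by norm_num) (by have := hcs C₀; omega)
        _ ≤ _ := pow_le_pow_left₀ (by norm_num) hL34 _
    have h7 : h * θ ^ (Nat.card C₀.supp - 1) ≤ h * (lam / 8) := by
      refine mul_le_mul_of_nonneg_left ((hθc C₀).trans ?_) hh
      nlinarith only [hθl, hs1, hθ]
    have h8 : h * lam ≤ h * (1 - T) ^ (Nat.card C₀.supp - 1) := mul_le_mul_of_nonneg_left h6 hh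
    have h9 : (1 - T - h) * (1 - T) ^ (Nat.card C₀.supp - 1) =
        (1 - T) ^ (Nat.card C₀.supp) - h * (1 - T) ^ (Nat.card C₀.supp - 1) := by
      rw [← hpowL C₀]; ring
    -- the payments
    have h10 : ∑ i, vP J β (Y i) ≤ s * ∑ i, Y i ^ 2 := by
      rw [mul_sum]
      exact sum_le_sum fun i _ => BOpt_vP J hd hβ1 (hY0 i) (hYle i)
    have h11 : ∑ i, Y i ^ 2 ≤ x₃ * T := by
      rw [hT, mul_sum]
      refine sum_le_sum fun i _ => ?_
      rw [sq]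
      exact mul_le_mul_of_nonneg_right ((hYT i).trans hcase'.le) (hY0 i)
    have h12 : 4 * s * θ * h ≤ h * (lam / 2) := by
      have : 4 * s * θ ≤ lam / 2 := by linarith only [hθl]
      calc 4 * s * θ * h ≤ lam / 2 * h := mul_le_mul_of_nonneg_right this hh
        _ = _ := by ring
    have h13 : 4 * s * θ * T ≤ 1 / 8 * T := mul_le_mul_of_nonneg_right (by linarith only [hθs]) hT0.le
    have h14 : (s + 1) * ∑ i, Y i ^ 2 ≤ (s + 1) * (x₃ * T) :=
      mul_le_mul_of_nonneg_left h11 (by linarith only [hs1, hθ, hθ1])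
    have h15 : (s + 2) * x₃ * T ≤ 1 / 4 * T := mul_le_mul_of_nonneg_right hx₃s' hT0.le
    have h16 : T * T ≤ x₃ * T := mul_le_mul_of_nonneg_right hcase'.le hT0.le
    have h17 : 0 ≤ h * lam := mul_nonneg hh hlam0.le
    have h18 : (1 - T) ^ 2 = 1 - 2 * T + T * T := by ring
    rw [h9] at h3
    have h19 : (s + 1) * ∑ i, Y i ^ 2 = s * ∑ i, Y i ^ 2 + ∑ i, Y i ^ 2 := by ring
    have h20 : (s + 1) * (x₃ * T) + x₃ * T = (s + 2) * x₃ * T := by ring
    have h21 : 4 * s * θ * (h + T) = 4 * s * θ * h + 4 * s * θ * T := by ring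
    rw [h21]
    linarith only [h3, h4, h5, h7, h8, h10, h12, h13, h14, h15, h16, h17, h18, h19, h20, hT0]

/-- the gap, for a fixed number of parts -/
theorem BOpt_gap [Fintype J.ConnectedComponent] {β x₀ θ : ℝ} (hθ : 0 < θ) (k : ℕ)
    (hpt : ∀ (Y : Fin k → ℝ) (h : ℝ), (∀ i, θ ≤ Y i) → (∀ i, Y i ≤ 1 - x₀) → 0 ≤ h →
      ∑ i, Y i + h ≤ 1 →
      ∏ C : J.ConnectedComponent, (∑ i, Y i ^ (Nat.card C.supp) + max (1 - ∑ i, Y i - h) 0 *
          max (1 - ∑ i, Y i) 0 ^ (Nat.card C.supp - 1) + h * θ ^ (Nat.card C.supp - 1)) +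
        ∑ i, vP J β (Y i) + 4 * Fintype.card ι * θ * (h + ∑ i, Y i) < 1) :
    ∃ ε : ℝ, 0 < ε ∧ ∀ (Y : Fin k → ℝ) (h ε' : ℝ), 0 ≤ ε' → ε' ≤ ε → (∀ i, θ ≤ Y i) →
      (∀ i, Y i ≤ 1 - x₀) → 0 ≤ h → ∑ i, Y i + h ≤ 1 + ε' →
      ∏ C : J.ConnectedComponent, (∑ i, Y i ^ (Nat.card C.supp) + max (1 - ∑ i, Y i - h) 0 *
          max (1 - ∑ i, Y i) 0 ^ (Nat.card C.supp - 1) + h * θ ^ (Nat.card C.supp - 1) + ε') +
        ∑ i, vP J β (Y i) + 4 * Fintype.card ι * θ * (h + ∑ i, Y i) ≤ 1 - ε := by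
  classical
  let f : (Fin k → ℝ) × ℝ × ℝ → ℝ := fun p =>
    ∏ C : J.ConnectedComponent, (∑ i, p.1 i ^ (Nat.card C.supp) +
        max (1 - ∑ i, p.1 i - p.2.1) 0 * max (1 - ∑ i, p.1 i) 0 ^ (Nat.card C.supp - 1) +
        p.2.1 * θ ^ (Nat.card C.supp - 1) + p.2.2) +
      ∑ i, vP J β (p.1 i) + 4 * Fintype.card ι * θ * (p.2.1 + ∑ i, p.1 i)
  have hvc := BOpt_vP_cont J β
  have hf : Continuous f := by
    refine Continuous.add (Continuous.add ?_ ?_) ?_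
    · refine continuous_finsetProd _ fun C _ => ?_
      fun_prop
    · refine continuous_finsetSum _ fun i _ => ?_
      exact hvc.comp (by fun_prop)
    · fun_prop
  let S : Set ((Fin k → ℝ) × ℝ × ℝ) := {p | (∀ i, θ ≤ p.1 i) ∧ (∀ i, p.1 i ≤ 1 - x₀) ∧
    0 ≤ p.2.1 ∧ 0 ≤ p.2.2 ∧ p.2.2 ≤ 1 ∧ ∑ i, p.1 i + p.2.1 ≤ 1 + p.2.2}
  have hSc : IsClosed S := by
    have e1 : IsClosed {p : (Fin k → ℝ) × ℝ × ℝ | ∀ i, θ ≤ p.1 i} := by
      rw [Set.ofPred_forall]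
      exact isClosed_iInter fun i => isClosed_le (by fun_prop) (by fun_prop)
    have e2 : IsClosed {p : (Fin k → ℝ) × ℝ × ℝ | ∀ i, p.1 i ≤ 1 - x₀} := by
      rw [Set.ofPred_forall]
      exact isClosed_iInter fun i => isClosed_le (by fun_prop) (by fun_prop)
    have e3 : IsClosed {p : (Fin k → ℝ) × ℝ × ℝ | 0 ≤ p.2.1} :=
      isClosed_le (by fun_prop) (by fun_prop)
    have e4 : IsClosed {p : (Fin k → ℝ) × ℝ × ℝ | 0 ≤ p.2.2} :=
      isClosed_le (by fun_prop) (by fun_prop)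
    have e5 : IsClosed {p : (Fin k → ℝ) × ℝ × ℝ | p.2.2 ≤ 1} :=
      isClosed_le (by fun_prop) (by fun_prop)
    have e6 : IsClosed {p : (Fin k → ℝ) × ℝ × ℝ | ∑ i, p.1 i + p.2.1 ≤ 1 + p.2.2} :=
      isClosed_le (by fun_prop) (by fun_prop)
    exact e1.inter (e2.inter (e3.inter (e4.inter (e5.inter e6))))
  have hScomp : IsCompact S := by
    have h1 : S ⊆ Set.pi Set.univ (fun _ : Fin k => Set.Icc θ (1 - x₀)) ×ˢ
        (Set.Icc (0 : ℝ) 2 ×ˢ Set.Icc (0 : ℝ) 1) := by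
      rintro p ⟨h1, h2, h3, h4, h5, h6⟩
      refine ⟨fun i _ => ⟨h1 i, h2 i⟩, ⟨h3, ?_⟩, h4, h5⟩
      have h7 : 0 ≤ ∑ i, p.1 i := sum_nonneg fun i _ => hθ.le.trans (h1 i)
      linarith
    exact ((isCompact_univ_pi fun _ => isCompact_Icc).prod
      (isCompact_Icc.prod isCompact_Icc)).of_isClosed_subset hSc h1
  by_cases hne : S.Nonempty
  · have hg : Continuous fun p : (Fin k → ℝ) × ℝ × ℝ => max p.2.2 (1 - f p) := by fun_prop
    obtain ⟨p₀, hp₀, hmin⟩ := hScomp.exists_isMinOn hne hg.continuousOn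
    have hpos : 0 < max p₀.2.2 (1 - f p₀) := by
      obtain ⟨h1, h2, h3, h4, h5, h6⟩ := hp₀
      rcases h4.lt_or_eq with h7 | h7
      · exact lt_max_of_lt_left h7
      · refine lt_max_of_lt_right ?_
        have h8 := hpt p₀.1 p₀.2.1 h1 h2 h3 (by rw [← h7] at h6; simpa using h6)
        have h9 : f p₀ = ∏ C : J.ConnectedComponent, (∑ i, p₀.1 i ^ (Nat.card C.supp) +
            max (1 - ∑ i, p₀.1 i - p₀.2.1) 0 * max (1 - ∑ i, p₀.1 i) 0 ^ (Nat.card C.supp - 1) +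
            p₀.2.1 * θ ^ (Nat.card C.supp - 1)) +
            ∑ i, vP J β (p₀.1 i) + 4 * Fintype.card ι * θ * (p₀.2.1 + ∑ i, p₀.1 i) := by
          simp only [f, ← h7, add_zero]
        rw [h9]
        linarith
    set dl : ℝ := max p₀.2.2 (1 - f p₀) with hdl
    refine ⟨min (dl / 2) 1, by positivity, fun Y h ε' hε0 hε h1 h2 h3 h4 => ?_⟩
    have hmem : ((Y, h, ε') : (Fin k → ℝ) × ℝ × ℝ) ∈ S :=
      ⟨h1, h2, h3, hε0, hε.trans (min_le_right _ _), h4⟩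
    have h5 := isMinOn_iff.mp hmin _ hmem
    have h6 : dl ≤ max ε' (1 - f (Y, h, ε')) := h5
    have h7 : ε' < dl := by
      have := hε.trans (min_le_left _ _)
      linarith
    have h8 : dl ≤ 1 - f (Y, h, ε') := by
      rcases le_max_iff.mp h6 with h9 | h9
      · exact absurd h9 (not_le.mpr h7)
      · exact h9
    have h9 : f (Y, h, ε') ≤ 1 - min (dl / 2) 1 := by
      have := min_le_left (dl / 2) 1
      linarith
    exact h9
  · refine ⟨1, one_pos, fun Y h ε' hε0 hε h1 h2 h3 h4 => ?_⟩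
    exact absurd ⟨((Y, h, ε') : (Fin k → ℝ) × ℝ × ℝ), h1, h2, h3, hε0, hε, h4⟩ hne

theorem optB [Nonempty ι] (hd : ∀ v, 1 ≤ dg J univ v) {β : ℝ} (hβ : 0 < β) (hβ1 : β < 1)
    (hp : PairC J 1 β) (hQ : Qc J β < 1) {x₀ : ℝ} (hx : 0 < x₀) (hx1 : x₀ < 1) :
    ∃ θ₀ : ℝ, 0 < θ₀ ∧ ∀ θ : ℝ, 0 < θ → θ ≤ θ₀ → ∃ ε : ℝ, 0 < ε ∧ ∀ (k : ℕ) (Y : Fin k → ℝ)
      (h ε' : ℝ), 0 ≤ ε' → ε' ≤ ε → 1 ≤ k → (k : ℝ) ≤ 2 / θ → (∀ i, θ ≤ Y i) →
      (∀ i, Y i ≤ 1 - x₀) → 0 ≤ h → ∑ i, Y i + h ≤ 1 + ε' →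
      cprod J (fun c => ∑ i, Y i ^ c + max (1 - ∑ i, Y i - h) 0 *
          max (1 - ∑ i, Y i) 0 ^ (c - 1) + h * θ ^ (c - 1) + ε') +
        ∑ i, vP J β (Y i) +
        4 * Fintype.card ι * θ * (h + ∑ i ∈ univ.filter (fun i => Y i ≤ 2 * θ), Y i) ≤ 1 - ε := by
  classical
  have : Fintype J.ConnectedComponent := Fintype.ofFinite _
  obtain ⟨θ₀, hθ₀, -, hpt⟩ := BOpt_point J hd hβ hβ1 hp hQ hx hx1
  refine ⟨θ₀, hθ₀, fun θ hθ hθ1 => ?_⟩
  have hgap := fun (k : ℕ) (hk : 1 ≤ k) => BOpt_gap J (β := β) (x₀ := x₀) hθ k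
    fun Y h h1 h2 h3 h4 => hpt θ hθ hθ1 k Y h hk h1 h2 h3 h4
  have hgap' : ∀ k : ℕ, ∃ ε : ℝ, 0 < ε ∧ (1 ≤ k → ∀ (Y : Fin k → ℝ) (h ε' : ℝ), 0 ≤ ε' →
      ε' ≤ ε → (∀ i, θ ≤ Y i) →
      (∀ i, Y i ≤ 1 - x₀) → 0 ≤ h → ∑ i, Y i + h ≤ 1 + ε' →
      ∏ C : J.ConnectedComponent, (∑ i, Y i ^ (Nat.card C.supp) + max (1 - ∑ i, Y i - h) 0 *
          max (1 - ∑ i, Y i) 0 ^ (Nat.card C.supp - 1) + h * θ ^ (Nat.card C.supp - 1) + ε') +
        ∑ i, vP J β (Y i) + 4 * Fintype.card ι * θ * (h + ∑ i, Y i) ≤ 1 - ε) := by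
    intro k
    by_cases hk : 1 ≤ k
    · obtain ⟨e, he, h⟩ := hgap k hk
      exact ⟨e, he, fun _ => h⟩
    · exact ⟨1, one_pos, fun h => absurd h hk⟩
  choose e he hgap using hgap'
  set K : ℕ := ⌊2 / θ⌋₊ with hK
  have hne : (range (K + 1)).Nonempty := ⟨0, by simp⟩
  refine ⟨(range (K + 1)).inf' hne e, (lt_inf'_iff hne).2 fun k _ => he k,
    fun k Y h ε' hε0 hε hk hk1 hY hY1 hh hsum => ?_⟩
  have hkK : k ∈ range (K + 1) := by
    rw [mem_range, Nat.lt_succ_iff]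
    exact Nat.le_floor hk1
  have hle : (range (K + 1)).inf' hne e ≤ e k := inf'_le e hkK
  have h1 := hgap k hk Y h ε' hε0 (hε.trans hle) hY hY1 hh hsum
  rw [cprod_eq]
  have h2 : ∑ i ∈ univ.filter (fun i => Y i ≤ 2 * θ), Y i ≤ ∑ i, Y i :=
    sum_le_sum_of_subset_of_nonneg (filter_subset _ _) fun i _ _ => hθ.le.trans (hY i)
  have h3 : (4 * Fintype.card ι * θ : ℝ) * (h + ∑ i ∈ univ.filter (fun i => Y i ≤ 2 * θ), Y i) ≤
      4 * Fintype.card ι * θ * (h + ∑ i, Y i) :=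
    mul_le_mul_of_nonneg_left (by linarith) (by positivity)
  linarith

end H57GH
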