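import Pool.Agent.H57.GH.SDefs
import Pool.Agent.H57.GH.Light

/-!
Project SH: payments for the vertices in the middle range.
-/

namespace H57GH

open Finset H57LC H57LT

set_option linter.unusedSectionVars false

/-- two sets with many edges: the intersection is small or large -/
theorem bothM (u R r : ℕ) (hu : 1 ≤ u) (hR : 8 ≤ R) (hr : r ≤ R) (CB x₀ : ℝ) (hCB : 0 < CB)
    (hx : 0 < x₀) (hxR : 3 ≤ x₀ * R) : ∃ C : ℝ, 0 < C ∧ ∃ m₀ : ℕ, ∀ m : ℕ, m₀ ≤ m →
      ∀ (V : Type) [Fintype V] [DecidableEq V] (G : SimpleGraph V) [DecidableRel G.Adj],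
        (∀ U ∈ clq G univ u, (cn G U).card ≤ R * m + r) → clq G univ (R + u + 1) = ∅ →
        ∀ W ∈ clq G univ (u + 1), ∀ x ∈ W, ∀ x' ∈ W, x ≠ x' →
          TyB G (cn G (W.erase x)) R m CB → TyB G (cn G (W.erase x')) R m CB →
          ((cn G W).card : ℝ) ≤ (1 - x₀) * R * m → ((cn G W).card : ℝ) ≤ C := by
  obtain ⟨C, hC, m₀, hfew⟩ := few_nonlight R r (by omega) CB hCB
  refine ⟨C + C, by positivity, max m₀ (2 * R + 1), ?_⟩
  intro m hm V _ _ G _ hdeg hfree W hW x hx' x' hx'' hxx hT hT' hθW
  have hm0 : m₀ ≤ m := (le_max_left _ _).trans hm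
  have hmR : 2 * R + 1 ≤ m := (le_max_right _ _).trans hm
  have hUx := Light_erase_mem hW hx'
  have hUx' := Light_erase_mem hW hx''
  have h1 := hfew m hm0 V G (cn G (W.erase x)) (hdeg _ hUx) (cn_free hfree hUx) hT
  have h2 := hfew m hm0 V G (cn G (W.erase x')) (hdeg _ hUx') (cn_free hfree hUx') hT'
  have hsub : cn G W ⊆
      ((cn G (W.erase x)).filter fun z =>
        (dg G (cn G (W.erase x)) z : ℝ) < ((R : ℝ) - 5 / 4) * m) ∪
      ((cn G (W.erase x')).filter fun z =>
        (dg G (cn G (W.erase x')) z : ℝ) < ((R : ℝ) - 5 / 4) * m) := by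
    intro y hy
    rw [mem_union, mem_filter, mem_filter]
    by_contra hcon
    push Not at hcon
    have a1 := hcon.1 (Light_mem_cn_erase hy)
    have a2 := hcon.2 (Light_mem_cn_erase hy)
    have h3 := light_once hdeg hW hx' hx'' hxx hy
    have h4 : (dg G (cn G (W.erase x)) y : ℝ) + dg G (cn G (W.erase x')) y ≤
        (R : ℝ) * m + r + (cn G W).card := by exact_mod_cast h3
    have hrm : 2 * (r : ℝ) + 1 ≤ m := by
      have : 2 * r + 1 ≤ m := by omega
      exact_mod_cast this
    have hmpos : (0 : ℝ) < m := by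
      have : 0 < m := by omega
      exact_mod_cast this
    have h5 : 3 * (m : ℝ) ≤ x₀ * R * m := by gcongr
    nlinarith
  have h3 := (card_le_card hsub).trans (card_union_le _ _)
  have h4 : ((cn G W).card : ℝ) ≤ (((cn G (W.erase x)).filter fun z =>
        (dg G (cn G (W.erase x)) z : ℝ) < ((R : ℝ) - 5 / 4) * m).card : ℝ) +
      (((cn G (W.erase x')).filter fun z =>
        (dg G (cn G (W.erase x')) z : ℝ) < ((R : ℝ) - 5 / 4) * m).card : ℝ) := by
    exact_mod_cast h3
  linarith

theorem transferM (u R r : ℕ) (hu : 1 ≤ u) (hR : 8 ≤ R) (hr : r ≤ R) (CB θ x₀ : ℝ)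
    (hCB : 0 < CB) (hθ : 0 < θ) (hx : 0 < x₀) (hxR : 3 ≤ x₀ * R) :
    ∃ m₀ : ℕ, ∀ m : ℕ, m₀ ≤ m →
      ∀ (V : Type) [Fintype V] [DecidableEq V] (G : SimpleGraph V) [DecidableRel G.Adj],
        (∀ U ∈ clq G univ u, (cn G U).card ≤ R * m + r) → clq G univ (R + u + 1) = ∅ →
        ∀ P : ℕ → ℝ, (∀ n, 0 ≤ P n) → ∃ giv got : Finset V → ℝ,
          ∑ U ∈ clq G univ u, giv U = ∑ U ∈ clq G univ u, got U ∧
          (∀ U ∈ clq G univ u, ¬ TyB G (cn G U) R m CB → got U = 0 ∧
            giv U ≤ 1 / u * ∑ x ∈ midS G (cn G U) R m θ x₀, P (dg G (cn G U) x)) ∧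
          (∀ U ∈ clq G univ u, TyB G (cn G U) R m CB → giv U = 0 ∧
            got U = ∑ z ∈ midS G (cn G U) R m θ x₀, P (dg G (cn G U) z)) := by
  classical
  obtain ⟨C, hC, m1, hboth⟩ := bothM u R r hu hR hr CB x₀ hCB hx hxR
  refine ⟨max m1 (⌈C / (θ * R)⌉₊ + 1), ?_⟩
  intro m hm V _ _ G _ hdeg hfree P hP
  have hm1 : m1 ≤ m := (le_max_left _ _).trans hm
  have hm2 : ⌈C / (θ * R)⌉₊ + 1 ≤ m := (le_max_right _ _).trans hm
  have hR' : (8 : ℝ) ≤ R := by exact_mod_cast hR
  have hR0 : (0 : ℝ) < R := by linarith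
  have hu0 : (0 : ℝ) < u := by exact_mod_cast (by omega : 0 < u)
  have hCm : C < θ * R * m := by
    have h1 : C / (θ * R) < m := by
      have h2 : C / (θ * R) ≤ (⌈C / (θ * R)⌉₊ : ℝ) := Nat.le_ceil _
      have h3 : ((⌈C / (θ * R)⌉₊ : ℝ)) + 1 ≤ m := by exact_mod_cast hm2
      linarith
    rw [div_lt_iff₀ (by positivity)] at h1
    linarith
  set Tb : Finset V → V → Prop := fun W x => TyB G (cn G (W.erase x)) R m CB with hTdef
  let mid : Finset V → Prop := fun W =>
    θ * R * m < ((cn G W).card : ℝ) ∧ ((cn G W).card : ℝ) < (1 - x₀) * R * m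
  have huniq : ∀ W ∈ clq G univ (u + 1), mid W → ∀ x ∈ W, ∀ z ∈ W, Tb W x → Tb W z → x = z := by
    intro W hW hmid x hx z hz hTx hTz
    by_contra hne
    have h1 := hboth m hm1 V G hdeg hfree W hW x hx z hz hne hTx hTz hmid.2.le
    have h2 := hmid.1
    linarith
  let amt : Finset V → V → V → ℝ := fun W z x =>
    if (Tb W z ∧ mid W) ∧ x ≠ z then P (cn G W).card / u else 0
  have hdge : ∀ U ∈ clq G univ u, ∀ z ∈ cn G U, dg G (cn G U) z = (cn G (insert z U)).card := by
    intro U hU z hz
    have h := dg_erase (G := G) (W := insert z U) (x := z) (mem_insert_self _ _)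
    rw [(Pay_ins hU hz).2.2] at h
    exact h
  have hmidS : ∀ U ∈ clq G univ u, ∑ x ∈ midS G (cn G U) R m θ x₀, P (dg G (cn G U) x) =
      ∑ x ∈ cn G U, if mid (insert x U) then P (cn G (insert x U)).card else 0 := by
    intro U hU
    unfold midS
    rw [sum_filter]
    refine sum_congr rfl fun x hx => ?_
    rw [hdge U hU x hx]
  have hTins : ∀ U ∈ clq G univ u, ∀ z ∈ cn G U, Tb (insert z U) z ↔ TyB G (cn G U) R m CB := by
    intro U hU z hz
    simp only [hTdef]
    rw [(Pay_ins hU hz).2.2]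
  refine ⟨fun U => ∑ x ∈ cn G U, ∑ z ∈ insert x U, amt (insert x U) z x,
    fun U => ∑ z ∈ cn G U, ∑ x ∈ insert z U, amt (insert z U) z x, ?_, ?_, ?_⟩
  · rw [Pay_pairs u fun W x => ∑ z ∈ W, amt W z x, Pay_pairs u fun W z => ∑ x ∈ W, amt W z x]
    exact sum_congr rfl fun W _ => sum_comm
  · intro U hU hnT
    refine ⟨?_, ?_⟩
    · refine sum_eq_zero fun z hz => sum_eq_zero fun x hx => ?_
      simp only [amt]
      rw [if_neg]
      rintro ⟨⟨h1, -⟩, -⟩
      exact hnT ((hTins U hU z hz).1 h1)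
    · rw [hmidS U hU, mul_sum]
      refine sum_le_sum fun x hx => ?_
      have hins := Pay_ins hU hx
      by_cases hmid : mid (insert x U)
      · rw [if_pos hmid]
        by_cases hex : ∃ z ∈ insert x U, Tb (insert x U) z
        · obtain ⟨z₀, hz₀, hTz₀⟩ := hex
          rw [sum_eq_single z₀]
          · simp only [amt]
            split_ifs with h
            · rw [one_div, inv_mul_eq_div]
            · have := hP (cn G (insert x U)).card
              positivity
          · intro z hz hne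
            simp only [amt]
            rw [if_neg]
            rintro ⟨⟨h1, -⟩, -⟩
            exact hne (huniq _ hins.2.1 hmid z hz z₀ hz₀ h1 hTz₀)
          · intro h
            exact absurd hz₀ h
        · push Not at hex
          have h0 : ∑ z ∈ insert x U, amt (insert x U) z x = 0 := by
            refine sum_eq_zero fun z hz => ?_
            simp only [amt]
            rw [if_neg]
            rintro ⟨⟨h1, -⟩, -⟩
            exact hex z hz h1
          rw [h0]
          have := hP (cn G (insert x U)).card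
          positivity
      · rw [if_neg hmid, mul_zero]
        refine le_of_eq (sum_eq_zero fun z hz => ?_)
        simp only [amt]
        rw [if_neg]
        rintro ⟨⟨-, h1⟩, -⟩
        exact hmid h1
  · intro U hU hT
    refine ⟨?_, ?_⟩
    · refine sum_eq_zero fun x hx => sum_eq_zero fun z hz => ?_
      simp only [amt]
      rw [if_neg]
      rintro ⟨⟨h1, h2⟩, h3⟩
      exact h3 (huniq _ (Pay_ins hU hx).2.1 h2 x (mem_insert_self _ _) z hz
        ((hTins U hU x hx).2 hT) h1)
    · rw [hmidS U hU]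
      refine sum_congr rfl fun z hz => ?_
      have hins := Pay_ins hU hz
      have hTz := (hTins U hU z hz).2 hT
      by_cases hmid : mid (insert z U)
      · rw [if_pos hmid, sum_insert hins.1]
        have h0 : amt (insert z U) z z = 0 := by
          simp only [amt]
          rw [if_neg]
          rintro ⟨-, h⟩
          exact h rfl
        rw [h0, zero_add]
        have h1 : ∀ x ∈ U, amt (insert z U) z x = P (cn G (insert z U)).card / u := by
          intro x hx
          simp only [amt]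
          rw [if_pos]
          refine ⟨⟨hTz, hmid⟩, ?_⟩
          rintro rfl
          exact hins.1 hx
        rw [sum_congr rfl h1, sum_const, (mem_clq.1 hU).1.2, nsmul_eq_mul]
        field_simp
      · rw [if_neg hmid]
        refine sum_eq_zero fun x hx => ?_
        simp only [amt]
        rw [if_neg]
        rintro ⟨⟨-, h1⟩, -⟩
        exact hmid h1

end H57GH
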