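import Pool.Agent.H57.GH.BDefs
import Pool.Agent.H57.GH.SPay
import Pool.Agent.H57.GH.Pay1

/-!
Project SB: payments for the vertices in the middle range, `u = 1`.
-/

namespace H57GH

open Finset H57LC H57LT

set_option linter.unusedSectionVars false

/-- the neighbours of `y` which are not neighbours of `x` are few if `x`, `y` have many common
neighbours -/
lemma BTr_diff {V : Type*} [Fintype V] [DecidableEq V] {G : SimpleGraph V} [DecidableRel G.Adj]
    {R m r : ℕ} (hdeg : ∀ U ∈ clq G univ 1, (cn G U).card ≤ R * m + r) (S : Finset V) {x y : V}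
    (hrm : 2 * r + 1 ≤ m) (h : ((R : ℝ) - 5 / 4) * m ≤ (dg G (cn G {x}) y : ℝ)) :
    (S.filter fun z => G.Adj y z ∧ ¬ G.Adj x z).card ≤ 2 * m := by
  have h1 : (S.filter fun z => G.Adj y z ∧ ¬ G.Adj x z).card + dg G (cn G {x}) y ≤
      (cn G {y}).card := by
    unfold dg
    rw [← card_union_of_disjoint]
    · refine card_le_card fun z hz => ?_
      rw [mem_union, mem_filter, mem_filter] at hz
      rw [Pay1_mem_cn]
      rcases hz with hz | hz
      · exact hz.2.1
      · exact hz.2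
    · rw [disjoint_left]
      intro z hz hz'
      rw [mem_filter] at hz hz'
      exact hz.2.2 (Pay1_mem_cn.1 hz'.1)
  have h2 := h1.trans (hdeg _ (Pay1_clq y))
  have h3 : (((S.filter fun z => G.Adj y z ∧ ¬ G.Adj x z).card : ℕ) : ℝ) +
      dg G (cn G {x}) y ≤ (R : ℝ) * m + r := by exact_mod_cast h2
  have h4 : 2 * (r : ℝ) + 1 ≤ m := by exact_mod_cast hrm
  have h5 : (((S.filter fun z => G.Adj y z ∧ ¬ G.Adj x z).card : ℕ) : ℝ) ≤ 2 * (m : ℝ) := by
    have h6 : (0 : ℝ) ≤ r := Nat.cast_nonneg r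
    nlinarith only [h, h3, h4]
  exact_mod_cast h5

theorem transferM1 (R r : ℕ) (hR : 8 ≤ R) (hr : r ≤ R) (CB θ x₀ : ℝ)
    (hCB : 0 < CB) (hθ : 0 < θ) (hx : 0 < x₀) (hxR : 3 ≤ x₀ * R) :
    ∃ C : ℝ, 0 < C ∧ ∃ m₀ : ℕ, ∀ m : ℕ, m₀ ≤ m →
      ∀ (V : Type) [Fintype V] [DecidableEq V] (G : SimpleGraph V) [DecidableRel G.Adj],
        (∀ U ∈ clq G univ 1, (cn G U).card ≤ R * m + r) → clq G univ (R + 1 + 1) = ∅ →
        ∀ P : ℕ → ℝ, (∀ n, 0 ≤ P n) → ∃ giv got : Finset V → ℝ,
          ∑ U ∈ clq G univ 1, giv U = ∑ U ∈ clq G univ 1, got U ∧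
          (∀ U ∈ clq G univ 1, ¬ TyB G (cn G U) R m CB → got U = 0 ∧
            ∃ T ⊆ midS G (cn G U) R m θ x₀, PieceC G (cn G U) T m C ∧
              giv U ≤ ∑ x ∈ T, P (dg G (cn G U) x)) ∧
          (∀ U ∈ clq G univ 1, TyB G (cn G U) R m CB → giv U = 0 ∧
            got U = ∑ z ∈ midS G (cn G U) R m θ x₀, P (dg G (cn G U) z)) := by
  classical
  obtain ⟨C, hC, m1, hboth⟩ := bothM 1 R r le_rfl hR hr CB x₀ hCB hx hxR
  obtain ⟨C', hC', m2, hfew⟩ := few_nonlight R r (by omega) CB hCB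
  refine ⟨C', hC', max (max m1 m2) (max (⌈C / (θ * R)⌉₊ + 1) (2 * R + 1)), ?_⟩
  intro m hm V _ _ G _ hdeg hfree P hP
  have hm1 : m1 ≤ m := ((le_max_left _ _).trans (le_max_left _ _)).trans hm
  have hm2 : m2 ≤ m := ((le_max_right _ _).trans (le_max_left _ _)).trans hm
  have hm3 : ⌈C / (θ * R)⌉₊ + 1 ≤ m := ((le_max_left _ _).trans (le_max_right _ _)).trans hm
  have hmR : 2 * R + 1 ≤ m := ((le_max_right _ _).trans (le_max_right _ _)).trans hm
  have hR' : (8 : ℝ) ≤ R := by exact_mod_cast hR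
  have hR0 : (0 : ℝ) < R := by linarith only [hR']
  have hCm : C < θ * R * m := by
    have h1 : C / (θ * R) < m := by
      have h2 : C / (θ * R) ≤ (⌈C / (θ * R)⌉₊ : ℝ) := Nat.le_ceil _
      have h3 : ((⌈C / (θ * R)⌉₊ : ℝ)) + 1 ≤ m := by exact_mod_cast hm3
      linarith only [h2, h3]
    rw [div_lt_iff₀ (by positivity)] at h1
    linarith
  let T : V → Prop := fun v => TyB G (cn G {v}) R m CB
  let D : V → V → ℕ := fun v z => dg G (cn G {v}) z
  have hDs : ∀ v z, D v z = D z v := fun v z => Pay1_dg_symm v z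
  let mid : V → V → Prop := fun v z =>
    θ * R * m < (D v z : ℝ) ∧ (D v z : ℝ) < (1 - x₀) * R * m
  have hmids : ∀ v z, mid v z ↔ mid z v := by
    intro v z
    simp only [mid, hDs v z]
  have huniq : ∀ v z, G.Adj v z → mid v z → T v → T z → False := by
    intro v z hadj hmid hTv hTz
    have hzv : z ∈ cn G {v} := Pay1_mem_cn.2 hadj
    have hne : v ≠ z := hadj.ne
    obtain ⟨-, hW, hWz⟩ := Pay_ins (G := G) (Pay1_clq v) hzv
    have hWv : (insert z ({v} : Finset V)).erase v = {z} := by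
      ext y
      simp only [mem_erase, mem_insert, mem_singleton]
      constructor
      · rintro ⟨h1, h2 | h2⟩
        · exact h2
        · exact absurd h2 h1
      · intro h
        subst h
        exact ⟨hne.symm, Or.inl rfl⟩
    have hcard : D v z = (cn G (insert z {v})).card := by
      have h := dg_erase (G := G) (W := insert z {v}) (x := z) (mem_insert_self _ _)
      rw [hWz] at h
      exact h
    have h1 := hboth m hm1 V G hdeg hfree (insert z {v}) hW v
      (mem_insert_of_mem (mem_singleton_self _)) z (mem_insert_self _ _) hne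
      (by rw [hWv]; exact hTz) (by rw [hWz]; exact hTv) (by rw [← hcard]; exact hmid.2.le)
    rw [← hcard] at h1
    have h2 := hmid.1
    linarith only [hCm, h1, h2]
  refine ⟨fun U => ∑ v ∈ U, ∑ z ∈ cn G U, (if (T z ∧ ¬ T v) ∧ mid v z then P (D v z) else 0),
    fun U => ∑ v ∈ U, ∑ z ∈ cn G U, (if T v ∧ mid v z then P (D v z) else 0), ?_, ?_, ?_⟩
  · rw [Pay1_sum, Pay1_sum]
    simp only [sum_singleton]
    have hcn : ∀ (F : V → V → ℝ) (v : V), ∑ z ∈ cn G {v}, F v z =
        ∑ z : V, if G.Adj v z then F v z else 0 := by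
      intro F v
      rw [← sum_filter]
      refine sum_congr ?_ fun _ _ => rfl
      ext z
      rw [Pay1_mem_cn, mem_filter]
      simp
    rw [sum_congr rfl fun v _ =>
        hcn (fun v z => if (T z ∧ ¬ T v) ∧ mid v z then P (D v z) else 0) v,
      sum_congr rfl fun v _ => hcn (fun v z => if T v ∧ mid v z then P (D v z) else 0) v, sum_comm]
    refine sum_congr rfl fun z _ => sum_congr rfl fun v _ => ?_
    by_cases hadj : G.Adj z v
    · rw [if_pos hadj.symm, if_pos hadj]
      by_cases hmid : mid z v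
      · by_cases hTz : T z
        · rw [if_pos ⟨⟨hTz, fun h => huniq z v hadj hmid hTz h⟩, (hmids _ _).1 hmid⟩,
            if_pos ⟨hTz, hmid⟩, hDs v z]
        · rw [if_neg (fun h => hTz h.1.1), if_neg (fun h => hTz h.1)]
      · rw [if_neg (fun h => hmid ((hmids _ _).1 h.2)), if_neg (fun h => hmid h.2)]
    · rw [if_neg (fun h => hadj h.symm), if_neg hadj]
  · intro U hU hnT
    obtain ⟨v, rfl⟩ := card_eq_one.1 (mem_clq.1 hU).1.2
    simp only [sum_singleton]
    refine ⟨?_, (midS G (cn G {v}) R m θ x₀).filter fun z => T z, filter_subset _ _, ?_, ?_⟩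
    · refine sum_eq_zero fun z hz => ?_
      rw [if_neg]
      exact fun h => hnT h.1
    · intro x hx
      rw [mem_filter] at hx
      obtain ⟨-, hTx⟩ := hx
      refine le_trans ?_ (hfew m hm2 V G (cn G {x}) (hdeg _ (Pay1_clq x))
        (cn_free hfree (Pay1_clq x)) hTx)
      have hsub : ((cn G {v}).filter fun y => G.Adj x y ∧
          ¬ (((cn G {v}).filter fun z => G.Adj y z ∧ ¬ G.Adj x z).card ≤ 2 * m ∧
            ((cn G {v}).filter fun z => G.Adj x z ∧ ¬ G.Adj y z).card ≤ 2 * m)) ⊆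
          (cn G {x}).filter fun z => (dg G (cn G {x}) z : ℝ) < ((R : ℝ) - 5 / 4) * m := by
        intro y hy
        rw [mem_filter] at hy ⊢
        obtain ⟨-, hadj, hnot⟩ := hy
        refine ⟨Pay1_mem_cn.2 hadj, ?_⟩
        by_contra hcon
        push Not at hcon
        refine hnot ⟨BTr_diff hdeg _ (by omega) hcon, BTr_diff hdeg _ (by omega) ?_⟩
        rw [Pay1_dg_symm y x]
        exact hcon
      exact_mod_cast card_le_card hsub
    · have h1 : ∑ x ∈ (midS G (cn G {v}) R m θ x₀).filter (fun z => T z),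
          P (dg G (cn G {v}) x) =
          ∑ z ∈ cn G {v}, (if (T z ∧ ¬ T v) ∧ mid v z then P (D v z) else 0) := by
        unfold midS
        rw [filter_filter, sum_filter]
        refine sum_congr rfl fun z _ => ?_
        by_cases h : (θ * R * m < (dg G (cn G {v}) z : ℝ) ∧
            (dg G (cn G {v}) z : ℝ) < (1 - x₀) * R * m) ∧ T z
        · rw [if_pos h, if_pos ⟨⟨h.2, hnT⟩, h.1⟩]
        · rw [if_neg h, if_neg]
          exact fun h' => h ⟨h'.2, h'.1.1⟩
      exact h1.symm.le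
  · intro U hU hT
    obtain ⟨v, rfl⟩ := card_eq_one.1 (mem_clq.1 hU).1.2
    simp only [sum_singleton]
    refine ⟨?_, ?_⟩
    · refine sum_eq_zero fun z hz => ?_
      rw [if_neg]
      exact fun h => h.1.2 hT
    · unfold midS
      rw [sum_filter]
      refine sum_congr rfl fun z _ => ?_
      by_cases h : θ * R * m < (dg G (cn G {v}) z : ℝ) ∧
          (dg G (cn G {v}) z : ℝ) < (1 - x₀) * R * m
      · rw [if_pos h, if_pos ⟨hT, h⟩]
      · rw [if_neg h, if_neg]
        exact fun h' => h h'.2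

end H57GH
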