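import Pool.Agent.H57.GH.Defs1
import Pool.Agent.H57.GH.Pay
import Mathlib.Combinatorics.SimpleGraph.Connectivity.Finite

/-!
Project SH (explicit range of residues for general graphs): definitions.
Paper proof: /team-store/h57_SH_README.txt.
-/

namespace H57GH

open Finset H57LC H57LT

set_option linter.unusedSectionVars false

/-- the limit of the relative cost coefficients for a vertex joined to the share `y` of the
classes -/
noncomputable def fP (β : ℝ) (u : ℕ) (y : ℝ) : ℝ := (max (y - β) 0 / (y * (1 - β))) ^ u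

/-- the cost coefficients of project SH -/
noncomputable def ktS (R s u : ℕ) (β ε : ℝ) (j : ℕ) : ℝ :=
  if 2 ≤ j then (s : ℝ) / R * (1 - ε * ((j : ℝ) - 1) / (R - 1)) *
    (bet (R - 1 - ⌊β * R⌋₊) u j / bet (R - 1) u j) else 0

section
variable {ι : Type*} [Fintype ι] [DecidableEq ι] (J : SimpleGraph ι) [DecidableRel J.Adj]

/-- the sum of the `y ^ deg v` -/
noncomputable def Psi (y : ℝ) : ℝ := ∑ v, y ^ dg J univ v

/-- the number of vertices minus the number of components -/
noncomputable def rk : ℕ := Fintype.card ι - Nat.card J.ConnectedComponent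

/-- the pair condition: `(2us + e) β < e` -/
def PairC (u : ℕ) (β : ℝ) : Prop := (2 * (u : ℝ) * Fintype.card ι + oe J) * β < oe J

/-- the hub condition -/
def HubC (u : ℕ) (β : ℝ) : Prop := ∀ y : ℝ, 0 < y → y < 1 →
  u * y ^ rk J + Psi J y < u + Fintype.card ι * fP β u y

/-- the payment for a vertex of degree `x` in the middle range -/
noncomputable def PiM (R m u : ℕ) (β ε₃ x : ℝ) : ℝ :=
  ((R : ℝ) * m) ^ (Fintype.card ι - 1) *
    max (Psi J (x / (R * m)) - Fintype.card ι * fP β u (x / (R * m)) + ε₃) 0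

end

section
variable {V : Type*} [DecidableEq V] (G : SimpleGraph V) [DecidableRel G.Adj]

/-- the vertices of `S` with degree in the middle range -/
noncomputable def midS (S : Finset V) (R m : ℕ) (θ x₀ : ℝ) : Finset V := by
  classical
  exact S.filter fun z => θ * R * m < (dg G S z : ℝ) ∧ (dg G S z : ℝ) < (1 - x₀) * R * m

/-- the light value of an `R`-clique `T` with cost function `kt` and additional term `X` -/
noncomputable def lzK {ι : Type*} [Fintype ι] [DecidableEq ι] (J : SimpleGraph ι)
    [DecidableRel J.Adj] (S : Finset V) (R m : ℕ) (kt : ℕ → ℝ) (ρ : ℝ) (X : Finset V → ℝ)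
    (T : Finset V) : ℝ :=
  ((fJ J T (aa G S T) : ℝ) - ρ) * (∏ t ∈ T, ((aa G S T t : ℝ))⁻¹) +
    M0 J R m / (m : ℝ) ^ R * ((∑ z ∈ S, kt (hs G T z).card) + X T) / m

/-- the credit of the heavy vertices at the tuple `f` -/
noncomputable def xzK (R s : ℕ) (kt : ℕ → ℝ) (f : Fin R → V) (z : V) : ℝ :=
  if (hs G (im f) z).card = 1 then (s : ℝ) / R else kt (hs G (im f) z).card

/-- the share of the classes seen by `z` -/
noncomputable def sgm {R : ℕ} (m : ℕ) (B : Fin R → Finset V) (z : V) : ℝ :=
  (∑ i, (dg G (B i) z : ℝ)) / (((R : ℝ) - 1) * m)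

end

end H57GH
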