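import Pool.Agent.H57.GH.KGraphG
import Pool.Agent.H57.GH.SDefs

/-!
Project SH: translation between the clique `K` and the sets `cn G (K \ T)` (compare KGraphG).
-/

namespace H57GH

open Finset H57LC H57LT

set_option linter.unusedSectionVars false

variable {V : Type*} [Fintype V] [DecidableEq V] {G : SimpleGraph V} [DecidableRel G.Adj]

/-- the light value in terms of `K` -/
theorem lzK_cn {ι : Type*} [Fintype ι] [DecidableEq ι] (J : SimpleGraph ι) [DecidableRel J.Adj]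
    {K T : Finset V} (hT : T ⊆ K) (R m : ℕ) (kt : ℕ → ℝ) (ρ : ℝ) (X : Finset V → ℝ)
    (hkt : kt 0 = 0) :
    lzK G J (cn G (K \ T)) R m kt ρ X T =
      ((fJ J T (aK G K) : ℝ) - ρ) * (∏ t ∈ T, ((aK G K t : ℝ))⁻¹) +
        M0 J R m / (m : ℝ) ^ R *
          ((∑ y ∈ univ.filter (fun y => hs G K y ⊆ T), kt (hs G K y).card) + X T) / m := by
  unfold lzK
  rw [KGraphG_fJ_congr J (fun t ht => aa_cn hT ht : ∀ t ∈ T, aa G (cn G (K \ T)) T t = aK G K t),
    sum_cn_hs hT (fun j => kt j),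
    prod_congr rfl (fun t ht => by rw [aa_cn hT ht] :
      ∀ t ∈ T, ((aa G (cn G (K \ T)) T t : ℝ))⁻¹ = ((aK G K t : ℝ))⁻¹)]

end H57GH
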