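import Pool.Agent.H57.GH.SDefs
import Pool.Agent.H57.LT.ThmPH

/-!
Project SH: the cost coefficients.
-/

namespace H57GH

open Finset H57LC H57LT

set_option linter.unusedSectionVars false

/-! ### the coefficients as products -/

/-- product form of the coefficients -/
noncomputable def SKt_bp (A u k : ℕ) : ℝ :=
  ∏ i ∈ range k, ((A - i : ℕ) : ℝ) / ((A + u - i : ℕ) : ℝ)

theorem SKt_bet_eq (A u j : ℕ) : bet A u j = SKt_bp A u (j - 1) := by
  unfold bet SKt_bp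
  rw [prod_div_distrib, ← Nat.cast_prod, ← Nat.cast_prod, ← Nat.descFactorial_eq_prod_range,
    ← Nat.descFactorial_eq_prod_range, Nat.descFactorial_eq_factorial_mul_choose,
    Nat.descFactorial_eq_factorial_mul_choose]
  push_cast
  rw [mul_div_mul_left]
  exact_mod_cast Nat.factorial_ne_zero _

theorem SKt_fac_nonneg (A u i : ℕ) : 0 ≤ ((A - i : ℕ) : ℝ) / ((A + u - i : ℕ) : ℝ) := by
  positivity

theorem SKt_fac_mono (A A' u i : ℕ) (h : A ≤ A') :
    ((A - i : ℕ) : ℝ) / ((A + u - i : ℕ) : ℝ) ≤ ((A' - i : ℕ) : ℝ) / ((A' + u - i : ℕ) : ℝ) := by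
  rcases Nat.lt_or_ge i A with hi | hi
  · have h1 : (0 : ℝ) < ((A + u - i : ℕ) : ℝ) := by exact_mod_cast (show 0 < A + u - i by omega)
    have h2 : (0 : ℝ) < ((A' + u - i : ℕ) : ℝ) := by exact_mod_cast (show 0 < A' + u - i by omega)
    rw [div_le_div_iff₀ h1 h2]
    have h3 : (A - i) * (A' + u - i) ≤ (A' - i) * (A + u - i) := by
      obtain ⟨a, ha⟩ : ∃ a, A = i + a := ⟨A - i, by omega⟩
      obtain ⟨b, hb⟩ : ∃ b, A' = i + a + b := ⟨A' - A, by omega⟩
      have e1 : A - i = a := by omega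
      have e2 : A' - i = a + b := by omega
      have e3 : A' + u - i = a + b + u := by omega
      have e4 : A + u - i = a + u := by omega
      rw [e1, e2, e3, e4]
      linarith only [Nat.zero_le (b * u)]
    exact_mod_cast h3
  · rw [show A - i = 0 by omega]
    rw [Nat.cast_zero, zero_div]
    exact SKt_fac_nonneg A' u i

theorem SKt_bet_mono (A A' u j : ℕ) (h : A ≤ A') : bet A u j ≤ bet A' u j := by
  rw [SKt_bet_eq, SKt_bet_eq]
  exact prod_le_prod (fun _ _ => SKt_fac_nonneg _ _ _) fun _ _ => SKt_fac_mono _ _ _ _ h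

theorem SKt_bet_pos (A u j : ℕ) (h : j - 1 ≤ A) : 0 < bet A u j := by
  unfold bet
  have h1 : 0 < A.choose (j - 1) := Nat.choose_pos h
  have h2 : 0 < (A + u).choose (j - 1) := Nat.choose_pos (by omega)
  positivity

theorem SKt_bet_zero (A u j : ℕ) (h : A < j - 1) : bet A u j = 0 := by
  unfold bet
  rw [Nat.choose_eq_zero_of_lt h]
  simp

theorem SKt_ratio_nonneg (A Q u j : ℕ) : 0 ≤ bet A u j / bet Q u j :=
  div_nonneg (bet_nonneg _ _ _) (bet_nonneg _ _ _)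

theorem SKt_ratio_le_one (A Q u j : ℕ) (h : A ≤ Q) : bet A u j / bet Q u j ≤ 1 :=
  div_le_one_of_le₀ (SKt_bet_mono A Q u j h) (bet_nonneg _ _ _)

theorem SKt_bet_step (A u k : ℕ) (h : k ≤ A) :
    bet A (u + 1) (k + 1) = bet A u (k + 1) * (((A : ℝ) + u + 1 - k) / (A + u + 1)) := by
  unfold bet
  rw [Nat.add_sub_cancel]
  have h1 := Nat.choose_mul_succ_eq (A + u) k
  have h2 : ((A + u).choose k : ℝ) * ((A : ℝ) + u + 1) =
      ((A + (u + 1)).choose k : ℝ) * ((A : ℝ) + u + 1 - k) := by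
    have h3 : (((A + u).choose k * (A + u + 1) : ℕ) : ℝ) =
        (((A + u + 1).choose k * (A + u + 1 - k) : ℕ) : ℝ) := by rw [h1]
    rw [Nat.cast_mul, Nat.cast_mul, Nat.cast_sub (show k ≤ A + u + 1 by omega)] at h3
    push_cast at h3
    rw [← add_assoc]
    exact h3
  have h4 : (0 : ℝ) < ((A + u).choose k : ℝ) := by
    exact_mod_cast Nat.choose_pos (show k ≤ A + u by omega)
  have h5 : (0 : ℝ) < ((A + (u + 1)).choose k : ℝ) := by
    exact_mod_cast Nat.choose_pos (show k ≤ A + (u + 1) by omega)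
  have h6 : (0 : ℝ) < (A : ℝ) + u + 1 := by positivity
  rw [div_mul_div_comm, div_eq_div_iff h5.ne' (mul_pos h4 h6).ne', h2]
  ring

theorem SKt_ratio_zero (A Q k : ℕ) (h : k ≤ A) (hAQ : A ≤ Q) :
    bet A 0 (k + 1) / bet Q 0 (k + 1) = 1 := by
  have h1 : ∀ A : ℕ, k ≤ A → bet A 0 (k + 1) = 1 := by
    intro A hA
    unfold bet
    rw [Nat.add_sub_cancel, Nat.add_zero]
    have h4 : (0 : ℝ) < (A.choose k : ℝ) := by exact_mod_cast Nat.choose_pos hA
    exact div_self h4.ne'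
  rw [h1 A h, h1 Q (h.trans hAQ)]
  norm_num

theorem SKt_ratio_pow (A Q k U : ℕ) (t : ℝ) (ht : 0 ≤ t) (h : k ≤ A) (hAQ : A ≤ Q)
    (hf : ∀ u < U, t ≤ ((A : ℝ) + u + 1 - k) / (A + u + 1) *
      (((Q : ℝ) + u + 1) / (Q + u + 1 - k))) :
    t ^ U ≤ bet A U (k + 1) / bet Q U (k + 1) := by
  induction U with
  | zero => rw [SKt_ratio_zero A Q k h hAQ, pow_zero]
  | succ U ih =>
    have h1 := ih fun u hu => hf u (by omega)
    have h2 := hf U (by omega)
    have hA : (k : ℝ) ≤ A := by exact_mod_cast h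
    have hQ : (k : ℝ) ≤ Q := by exact_mod_cast h.trans hAQ
    have h3 : (0 : ℝ) < (Q : ℝ) + U + 1 - k := by
      have : (0 : ℝ) ≤ U := Nat.cast_nonneg _
      linarith only [hQ]
    have h4 : (0 : ℝ) < (Q : ℝ) + U + 1 := by positivity
    have h5 : (0 : ℝ) < (A : ℝ) + U + 1 := by positivity
    have h6 : 0 < bet Q U (k + 1) := SKt_bet_pos Q U (k + 1) (by omega)
    have e : bet A (U + 1) (k + 1) / bet Q (U + 1) (k + 1) =
        bet A U (k + 1) / bet Q U (k + 1) * (((A : ℝ) + U + 1 - k) / (A + U + 1) *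
          (((Q : ℝ) + U + 1) / (Q + U + 1 - k))) := by
      rw [SKt_bet_step A U k h, SKt_bet_step Q U k (h.trans hAQ)]
      field_simp
    rw [e, pow_succ]
    exact mul_le_mul h1 h2 ht (SKt_ratio_nonneg _ _ _ _)

/-! ### the statements -/

theorem SKt_lin {R : ℕ} {ε : ℝ} (hR : 2 ≤ R) (hε : 0 ≤ ε) (hε1 : ε ≤ 1) {j : ℕ} (hj2 : 2 ≤ j)
    (hj : j ≤ R) : 0 ≤ 1 - ε * ((j : ℝ) - 1) / (R - 1) ∧
      1 - ε * ((j : ℝ) - 1) / (R - 1) ≤ 1 - ε / R := by
  have h1 : (2 : ℝ) ≤ R := by exact_mod_cast hR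
  have h2 : (2 : ℝ) ≤ j := by exact_mod_cast hj2
  have h3 : (j : ℝ) ≤ R := by exact_mod_cast hj
  have h4 : (0 : ℝ) < (R : ℝ) - 1 := by linarith only [h1]
  refine ⟨?_, ?_⟩
  · rw [sub_nonneg, div_le_one h4]
    calc ε * ((j : ℝ) - 1) ≤ 1 * ((j : ℝ) - 1) := mul_le_mul_of_nonneg_right hε1 (by linarith only [h2])
      _ ≤ (R : ℝ) - 1 := by linarith only [h3]
  · have h5 : ε / R ≤ ε * ((j : ℝ) - 1) / (R - 1) := by
      rw [div_le_div_iff₀ (by linarith only [h1]) h4]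
      have h6 : (R : ℝ) - 1 ≤ ((j : ℝ) - 1) * R := by
        have h7 := mul_le_mul_of_nonneg_right (show (1 : ℝ) ≤ (j : ℝ) - 1 by linarith only [h2])
          (show (0 : ℝ) ≤ (R : ℝ) by linarith only [])
        linarith only [h7]
      calc ε * ((R : ℝ) - 1) ≤ ε * (((j : ℝ) - 1) * R) := mul_le_mul_of_nonneg_left h6 hε
        _ = ε * ((j : ℝ) - 1) * R := by ring
    linarith only [h5]

theorem ktS_nonneg {R s u : ℕ} {β ε : ℝ} (hR : 2 ≤ R) (hε : 0 ≤ ε) (hε1 : ε ≤ 1) (j : ℕ)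
    (hj : j ≤ R) : 0 ≤ ktS R s u β ε j := by
  unfold ktS
  split_ifs with h
  · exact mul_nonneg (mul_nonneg (by positivity) (SKt_lin hR hε hε1 h hj).1)
      (SKt_ratio_nonneg _ _ _ _)
  · exact le_rfl

theorem ktS_le' {R s u : ℕ} {β ε : ℝ} (hR : 2 ≤ R) (hβ : 0 < β) (hβ1 : β < 1) (hε : 0 ≤ ε)
    (hε1 : ε ≤ 1) (j : ℕ) (hj2 : 2 ≤ j) (hj : j ≤ R) :
    ktS R s u β ε j ≤ (1 - ε / R) * ((s : ℝ) / R) := by
  unfold ktS
  rw [if_pos hj2]
  obtain ⟨h1, h2⟩ := SKt_lin hR hε hε1 hj2 hj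
  have h3 : (0 : ℝ) ≤ (s : ℝ) / R := by positivity
  calc (s : ℝ) / R * (1 - ε * ((j : ℝ) - 1) / (R - 1)) *
        (bet (R - 1 - ⌊β * R⌋₊) u j / bet (R - 1) u j)
      ≤ (s : ℝ) / R * (1 - ε * ((j : ℝ) - 1) / (R - 1)) * 1 :=
        mul_le_mul_of_nonneg_left (SKt_ratio_le_one _ _ _ _ (Nat.sub_le _ _)) (mul_nonneg h3 h1)
    _ ≤ (s : ℝ) / R * (1 - ε / R) * 1 := by
        rw [mul_one, mul_one]
        exact mul_le_mul_of_nonneg_left h2 h3
    _ = (1 - ε / R) * ((s : ℝ) / R) := by ring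

theorem ktS_le {R s u : ℕ} {β ε : ℝ} (hR : 2 ≤ R) (hβ : 0 < β) (hβ1 : β < 1) (hε : 0 ≤ ε)
    (hε1 : ε ≤ 1) (j : ℕ) (hj : j ≤ R) : ktS R s u β ε j ≤ (s : ℝ) / R := by
  have h3 : (0 : ℝ) ≤ (s : ℝ) / R := by positivity
  by_cases hj2 : 2 ≤ j
  · refine (ktS_le' hR hβ hβ1 hε hε1 j hj2 hj).trans ?_
    have h4 : (0 : ℝ) ≤ ε / R := by positivity
    calc (1 - ε / R) * ((s : ℝ) / R) ≤ 1 * ((s : ℝ) / R) :=
          mul_le_mul_of_nonneg_right (by linarith only [h4]) h3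
      _ = (s : ℝ) / R := one_mul _
  · unfold ktS
    rw [if_neg hj2]
    exact h3

/-- the parameter `⌊β R⌋` -/
theorem SKt_floor {R : ℕ} {β : ℝ} (hR : 1 ≤ R) (hβ : 0 < β) (hβ1 : β < 1) :
    ⌊β * R⌋₊ ≤ R - 1 ∧ (⌊β * R⌋₊ : ℝ) ≤ β * R ∧ β * R < (⌊β * R⌋₊ : ℝ) + 1 ∧
      ((R - 1 - ⌊β * R⌋₊ : ℕ) : ℝ) = (R : ℝ) - 1 - ⌊β * R⌋₊ := by
  have h1 : (1 : ℝ) ≤ R := by exact_mod_cast hR
  have h2 : (0 : ℝ) ≤ β * R := by positivity
  have h3 : (⌊β * R⌋₊ : ℝ) ≤ β * R := Nat.floor_le h2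
  have h4 : (⌊β * R⌋₊ : ℝ) < R := by
    refine lt_of_le_of_lt h3 ?_
    calc β * R < 1 * R := mul_lt_mul_of_pos_right hβ1 (by linarith only [h1, hβ1, hβ])
      _ = R := one_mul _
  have h5 : ⌊β * R⌋₊ < R := by exact_mod_cast h4
  refine ⟨by omega, h3, Nat.lt_floor_add_one _, ?_⟩
  rw [Nat.cast_sub (by omega), Nat.cast_sub hR]
  simp

theorem SKt_bet_two (a u : ℕ) : bet a u 2 = (a : ℝ) / ((a : ℝ) + u) := by
  unfold bet
  rw [show 2 - 1 = 1 from rfl, Nat.choose_one_right, Nat.choose_one_right]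
  push_cast
  rfl

theorem ktS_two {R s u : ℕ} {β ε : ℝ} (hu : 1 ≤ u) (hβ : 0 < β) (hβ1 : β < 1) (hε : 0 ≤ ε)
    (hε1 : ε ≤ 1) (hR : 2 ≤ (1 - β) * R) :
    (s : ℝ) / R - ktS R s u β ε 2 ≤ (s : ℝ) / (R * (R - 1)) * (ε + u * β / (1 - β)) := by
  have hR0 : (0 : ℝ) ≤ R := Nat.cast_nonneg _
  have hR2 : (2 : ℝ) ≤ R := by
    refine hR.trans ?_
    calc (1 - β) * R ≤ 1 * R := mul_le_mul_of_nonneg_right (by linarith only [hβ]) hR0
      _ = R := one_mul _
  have hRn : 2 ≤ R := by exact_mod_cast hR2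
  obtain ⟨hb1, hb2, hb3, hb4⟩ := SKt_floor (show 1 ≤ R by omega) hβ hβ1
  obtain ⟨b, hb⟩ : ∃ b : ℕ, b = ⌊β * R⌋₊ := ⟨_, rfl⟩
  unfold ktS
  rw [if_pos le_rfl]
  have hQ : ((R - 1 : ℕ) : ℝ) = (R : ℝ) - 1 := by
    rw [Nat.cast_sub (by omega)]
    simp
  rw [SKt_bet_two, SKt_bet_two, hb4, hQ]
  rw [← hb] at hb1 hb2 hb3 ⊢
  have hu' : (1 : ℝ) ≤ u := by exact_mod_cast hu
  have hβ' : 0 < 1 - β := by linarith only [hβ1]
  have hb0 : (0 : ℝ) ≤ b := Nat.cast_nonneg _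
  have hA : (0 : ℝ) < (R : ℝ) - 1 - b := by linarith only [hb2, hR, hβ1, hβ]
  have hAu : (1 - β) * R ≤ (R : ℝ) - 1 - b + u := by linarith only [hu', hb2]
  have hAu0 : (0 : ℝ) < (R : ℝ) - 1 - b + u := by linarith only [hb2, hR, hβ1, hβ]
  have hQ0 : (0 : ℝ) < (R : ℝ) - 1 := by linarith only [hR2, hβ1, hβ]
  have hQu : (0 : ℝ) < (R : ℝ) - 1 + u := by linarith only [hR2, hβ1, hβ]
  obtain ⟨g, hg⟩ : ∃ g : ℝ, g = ((R : ℝ) - 1 - b) / ((R : ℝ) - 1 - b + u) /
    (((R : ℝ) - 1) / ((R : ℝ) - 1 + u)) := ⟨_, rfl⟩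
  rw [← hg]
  have e1 : 1 - g = u * b / (((R : ℝ) - 1) * ((R : ℝ) - 1 - b + u)) := by
    rw [hg]
    field_simp
    ring
  have h1 : 1 - g ≤ u * β / (1 - β) / (R - 1) := by
    rw [e1, div_div, div_le_div_iff₀ (mul_pos hQ0 hAu0) (mul_pos hβ' hQ0)]
    have h2 : (u : ℝ) * b * (1 - β) ≤ u * β * ((R : ℝ) - 1 - b + u) := by
      calc (u : ℝ) * b * (1 - β) ≤ u * (β * R) * (1 - β) :=
            mul_le_mul_of_nonneg_right (mul_le_mul_of_nonneg_left hb2 (by linarith only [])) hβ'.le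
        _ = u * β * ((1 - β) * R) := by ring
        _ ≤ u * β * ((R : ℝ) - 1 - b + u) :=
            mul_le_mul_of_nonneg_left hAu (mul_nonneg (by linarith only []) hβ.le)
    calc (u : ℝ) * b * ((1 - β) * (R - 1)) = (u : ℝ) * b * (1 - β) * (R - 1) := by ring
      _ ≤ u * β * ((R : ℝ) - 1 - b + u) * (R - 1) := mul_le_mul_of_nonneg_right h2 hQ0.le
      _ = u * β * (((R : ℝ) - 1) * ((R : ℝ) - 1 - b + u)) := by ring
  have hg1 : g ≤ 1 := by
    have : 0 ≤ u * b / (((R : ℝ) - 1) * ((R : ℝ) - 1 - b + u)) := by positivity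
    linarith only [this, e1]
  have hεR : 0 ≤ ε / ((R : ℝ) - 1) := div_nonneg hε hQ0.le
  have e2 : ε * (((2 : ℕ) : ℝ) - 1) / ((R : ℝ) - 1) = ε / (R - 1) := by
    push_cast
    ring
  rw [e2]
  have h5 : 1 - (1 - ε / ((R : ℝ) - 1)) * g ≤ (ε + u * β / (1 - β)) / (R - 1) := by
    have h6 : ε / ((R : ℝ) - 1) * g ≤ ε / ((R : ℝ) - 1) * 1 := mul_le_mul_of_nonneg_left hg1 hεR
    have e3 : (ε + u * β / (1 - β)) / ((R : ℝ) - 1) =
      ε / (R - 1) + u * β / (1 - β) / (R - 1) := add_div _ _ _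
    rw [e3]
    linarith only [h6, h1]
  have h7 : (0 : ℝ) ≤ (s : ℝ) / R := by positivity
  have e4 : (s : ℝ) / (R * (R - 1)) * (ε + u * β / (1 - β)) =
      (s : ℝ) / R * ((ε + u * β / (1 - β)) / (R - 1)) := by
    field_simp
  rw [e4]
  calc (s : ℝ) / R - (s : ℝ) / R * (1 - ε / ((R : ℝ) - 1)) * g
      = (s : ℝ) / R * (1 - (1 - ε / ((R : ℝ) - 1)) * g) := by ring
    _ ≤ (s : ℝ) / R * ((ε + u * β / (1 - β)) / (R - 1)) := mul_le_mul_of_nonneg_left h5 h7

theorem SKt_choose (R u j : ℕ) (hj1 : 1 ≤ j) (hj : j ≤ R) :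
    ((R + u - j).choose (R - j) : ℝ) =
      ((R + u - 1).choose (R - 1) : ℝ) * bet (R - 1) u j := by
  obtain ⟨k, rfl⟩ : ∃ k, j = k + 1 := ⟨j - 1, by omega⟩
  obtain ⟨Q, rfl⟩ : ∃ Q, R = Q + 1 := ⟨R - 1, by omega⟩
  have hk : k ≤ Q := by omega
  unfold bet
  rw [show Q + 1 + u - (k + 1) = Q + u - k by omega, show Q + 1 - (k + 1) = Q - k by omega,
    show Q + 1 + u - 1 = Q + u by omega, Nat.add_sub_cancel, Nat.add_sub_cancel]
  have h1 := Nat.choose_mul (n := Q + u) hk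
  have h2 : ((Q + u).choose Q : ℝ) * (Q.choose k : ℝ) =
      ((Q + u).choose k : ℝ) * ((Q + u - k).choose (Q - k) : ℝ) := by exact_mod_cast h1
  have h3 : (0 : ℝ) < ((Q + u).choose k : ℝ) := by
    exact_mod_cast Nat.choose_pos (show k ≤ Q + u by omega)
  rw [← mul_div_assoc, h2, mul_div_cancel_left₀ _ h3.ne']

theorem ktS_bet {R s u r : ℕ} {β ε : ℝ} (hR : 2 ≤ R) (hβ : 0 < β) (hβ1 : β < 1) (hε : 0 ≤ ε)
    (hε1 : ε ≤ 1) (hr : (r : ℝ) ≤ β * R) (j : ℕ) (hj2 : 2 ≤ j) (hj : j ≤ R) :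
    ktS R s u β ε j * ((R + u - j).choose (R - j) : ℝ) ≤
      (1 - ε / (R : ℝ)) * ((s : ℝ) / R) * ((R + u - 1).choose (R - 1) : ℝ) *
        bet (R - 1 - r) u j := by
  have h0 : r ≤ ⌊β * R⌋₊ := Nat.le_floor hr
  obtain ⟨h1, h2⟩ := SKt_lin hR hε hε1 hj2 hj
  have h3 : (0 : ℝ) ≤ (s : ℝ) / R := by positivity
  have h4 : 0 < bet (R - 1) u j := SKt_bet_pos _ _ _ (by omega)
  have h5 : (0 : ℝ) ≤ ((R + u - 1).choose (R - 1) : ℝ) := Nat.cast_nonneg _
  unfold ktS
  rw [if_pos hj2, SKt_choose R u j (by omega) hj]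
  obtain ⟨A, hA⟩ : ∃ A : ℕ, A = R - 1 - ⌊β * R⌋₊ := ⟨_, rfl⟩
  rw [← hA]
  have h6 : bet A u j ≤ bet (R - 1 - r) u j := SKt_bet_mono _ _ _ _ (by omega)
  have e : (s : ℝ) / R * (1 - ε * ((j : ℝ) - 1) / (R - 1)) * (bet A u j / bet (R - 1) u j) *
      (((R + u - 1).choose (R - 1) : ℝ) * bet (R - 1) u j) =
      (1 - ε * ((j : ℝ) - 1) / (R - 1)) * ((s : ℝ) / R * ((R + u - 1).choose (R - 1) : ℝ)) *
        bet A u j := by
    have : bet A u j / bet (R - 1) u j * bet (R - 1) u j = bet A u j :=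
      div_mul_cancel₀ _ h4.ne'
    calc (s : ℝ) / R * (1 - ε * ((j : ℝ) - 1) / (R - 1)) * (bet A u j / bet (R - 1) u j) *
        (((R + u - 1).choose (R - 1) : ℝ) * bet (R - 1) u j)
        = (1 - ε * ((j : ℝ) - 1) / (R - 1)) * ((s : ℝ) / R *
          ((R + u - 1).choose (R - 1) : ℝ)) * (bet A u j / bet (R - 1) u j *
            bet (R - 1) u j) := by ring
      _ = _ := by rw [this]
  rw [e]
  have h7 : 0 ≤ (s : ℝ) / R * ((R + u - 1).choose (R - 1) : ℝ) := mul_nonneg h3 h5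
  calc (1 - ε * ((j : ℝ) - 1) / (R - 1)) * ((s : ℝ) / R * ((R + u - 1).choose (R - 1) : ℝ)) *
        bet A u j
      ≤ (1 - ε / R) * ((s : ℝ) / R * ((R + u - 1).choose (R - 1) : ℝ)) * bet A u j :=
        mul_le_mul_of_nonneg_right (mul_le_mul_of_nonneg_right h2 h7) (bet_nonneg _ _ _)
    _ ≤ (1 - ε / R) * ((s : ℝ) / R * ((R + u - 1).choose (R - 1) : ℝ)) *
        bet (R - 1 - r) u j :=
        mul_le_mul_of_nonneg_left h6 (mul_nonneg (h1.trans h2) h7)
    _ = _ := by ring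

theorem SKt_sub_mul {x ε g : ℝ} (hx : 0 ≤ x) (hε : 0 ≤ ε) (hg : g ≤ 1) :
    g - ε * x ≤ (1 - ε * x) * g := by
  have h1 : ε * x * g ≤ ε * x * 1 := mul_le_mul_of_nonneg_left hg (mul_nonneg hε hx)
  linarith only [h1]

/-- linear lower bound near the light vertices -/
theorem ktS_near (u : ℕ) (β : ℝ) (hβ : 0 < β) (hβ1 : β < 1) : ∃ C : ℝ, 0 < C ∧ ∃ R₀ : ℕ,
    2 ≤ R₀ ∧ ∀ R : ℕ, R₀ ≤ R → ∀ (s : ℕ) (ε : ℝ), 0 ≤ ε → ε ≤ 1 → ∀ j : ℕ, 2 ≤ j → j ≤ R →
      (s : ℝ) / R * (1 - (u * β / (1 - β) + ε + C / R) * (((j : ℝ) - 1) / (R - 1)) -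
        C * (((j : ℝ) - 1) / (R - 1)) ^ 2) ≤ ktS R s u β ε j := by
  have hβ' : 0 < 1 - β := by linarith only [hβ1]
  obtain ⟨R₀, hR₀⟩ := exists_nat_gt (2 / (1 - β))
  obtain ⟨C, hC⟩ : ∃ C : ℝ, C = 16 / (1 - β) ^ 2 + 4 * u * β / (1 - β) ^ 2 := ⟨_, rfl⟩
  have hC0 : 0 < C := by
    rw [hC]
    positivity
  refine ⟨C, hC0, max 2 R₀, le_max_left _ _, fun R hR s ε hε hε1 j hj2 hj => ?_⟩
  have hR2 : 2 ≤ R := (le_max_left _ _).trans hR
  have hR2' : (2 : ℝ) ≤ R := by exact_mod_cast hR2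
  have hRR : (R₀ : ℝ) ≤ R := by exact_mod_cast (le_max_right _ _).trans hR
  have hRβ : 2 ≤ (1 - β) * R := by
    have h1 : 2 / (1 - β) ≤ R := (hR₀.le).trans hRR
    rw [div_le_iff₀ hβ'] at h1
    linarith only [h1]
  obtain ⟨hb1, hb2, hb3, hb4⟩ := SKt_floor (show 1 ≤ R by omega) hβ hβ1
  have hQ : ((R - 1 : ℕ) : ℝ) = (R : ℝ) - 1 := by
    rw [Nat.cast_sub (by omega)]
    simp
  have hQ0 : (0 : ℝ) < (R : ℝ) - 1 := by linarith only [hR2', hβ1, hβ]
  unfold ktS
  rw [if_pos hj2]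
  obtain ⟨k, rfl⟩ : ∃ k, j = k + 1 := ⟨j - 1, by omega⟩
  obtain ⟨b, hb⟩ : ∃ b : ℕ, b = ⌊β * R⌋₊ := ⟨_, rfl⟩
  rw [← hb] at hb1 hb2 hb3 hb4 ⊢
  obtain ⟨A, hA⟩ : ∃ A : ℕ, A = R - 1 - b := ⟨_, rfl⟩
  rw [← hA] at hb4 ⊢
  obtain ⟨x, hx⟩ : ∃ x : ℝ, x = (k : ℝ) / ((R : ℝ) - 1) := ⟨_, rfl⟩
  have e0 : (((k + 1 : ℕ) : ℝ) - 1) = k := by push_cast; ring
  have e00 : ε * (k : ℝ) / ((R : ℝ) - 1) = ε * x := by
    rw [hx]
    ring
  rw [e0, ← hx, e00]
  have hx0 : 0 ≤ x := by rw [hx]; positivity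
  obtain ⟨g, hg⟩ : ∃ g : ℝ, g = bet A u (k + 1) / bet (R - 1) u (k + 1) := ⟨_, rfl⟩
  rw [← hg]
  have hg0 : 0 ≤ g := by rw [hg]; exact SKt_ratio_nonneg _ _ _ _
  have hg1 : g ≤ 1 := by rw [hg]; exact SKt_ratio_le_one _ _ _ _ (by omega)
  have hs : (0 : ℝ) ≤ (s : ℝ) / R := by positivity
  have hb0 : (0 : ℝ) ≤ b := Nat.cast_nonneg _
  have hu0 : (0 : ℝ) ≤ u := Nat.cast_nonneg _
  have hA1 : (1 - β) * R - 1 ≤ (A : ℝ) := by linarith only [hb4, hb2]
  have hA2 : (1 - β) * R / 2 ≤ (A : ℝ) := by linarith only [hb4, hb2, hRβ]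
  have hA0 : (0 : ℝ) < (A : ℝ) := by linarith only [hb4, hb2, hRβ, hβ1, hβ]
  have key : 1 - (u * β / (1 - β) + C / R) * x - C * x ^ 2 ≤ g := by
    by_cases hk : (k : ℝ) ≤ A / 2
    · -- Bernoulli
      have hkA : k ≤ A := by
        have : (k : ℝ) ≤ A := by linarith only [hk, hb4, hb2, hRβ, hβ1, hβ]
        exact_mod_cast this
      have hAQ : (A : ℝ) ≤ (R : ℝ) - 1 := by linarith only [hb4, hb3]
      have hk0 : (0 : ℝ) ≤ k := Nat.cast_nonneg _
      have hQk : (0 : ℝ) < (R : ℝ) - 1 - k := by linarith only [hk, hb4, hb3, hR2', hβ1, hβ]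
      obtain ⟨t, ht⟩ : ∃ t : ℝ, t = k * b / (A * ((R : ℝ) - 1 - k)) := ⟨_, rfl⟩
      have ht0 : 0 ≤ t := by rw [ht]; positivity
      have ht1 : t ≤ 1 := by
        rw [ht, div_le_one (mul_pos hA0 hQk)]
        calc (k : ℝ) * b ≤ A / 2 * ((R : ℝ) - 1) := mul_le_mul hk (by linarith only [hb2, hRβ, hβ1,
                                                                        hβ]) hb0 (by linarith only [hb4])
          _ = A * (((R : ℝ) - 1) / 2) := by ring
          _ ≤ A * ((R : ℝ) - 1 - k) := mul_le_mul_of_nonneg_left (by linarith only [hk, hb4, hb3]) hA0.le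
      · have h1 : (1 - t) ^ u ≤ g := by
          rw [hg]
          refine SKt_ratio_pow A (R - 1) k u (1 - t) (by linarith only [ht1]) hkA (by omega) fun l _ => ?_
          have hl : (0 : ℝ) ≤ l := Nat.cast_nonneg _
          rw [hQ]
          have h2 : (0 : ℝ) < (A : ℝ) + l + 1 := by positivity
          have h3 : (0 : ℝ) < (R : ℝ) - 1 + l + 1 - k := by linarith only [hk, hb4, hb3, hR2', hβ1,
                                                              hβ]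
          have e1 : ((A : ℝ) + l + 1 - k) / (A + l + 1) *
              (((R : ℝ) - 1 + l + 1) / ((R : ℝ) - 1 + l + 1 - k)) =
              1 - k * b / (((A : ℝ) + l + 1) * ((R : ℝ) - 1 + l + 1 - k)) := by
            rw [div_mul_div_comm, eq_sub_iff_add_eq, ← add_div, div_eq_one_iff_eq
              (mul_pos h2 h3).ne', hb4]
            ring
          rw [e1]
          have h4 : k * b / (((A : ℝ) + l + 1) * ((R : ℝ) - 1 + l + 1 - k)) ≤ t := by
            rw [ht]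
            refine div_le_div_of_nonneg_left (by positivity) (mul_pos hA0 hQk) ?_
            exact mul_le_mul (by linarith only []) (by linarith only []) hQk.le h2.le
          linarith only [h4]
        have h2 : 1 - u * t ≤ (1 - t) ^ u := by
          have := one_add_mul_le_pow (show (-2 : ℝ) ≤ -t by linarith only [ht1, hβ1, hβ]) u
          have e2 : (1 : ℝ) + -t = 1 - t := by ring
          rw [e2] at this
          linarith only [this]
        refine le_trans ?_ (h2.trans h1)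
        have h3 : (u : ℝ) * t ≤ (u * β / (1 - β) + C / R) * x + C * x ^ 2 := by
          -- bounds for the two factors
          have h4 : (b : ℝ) / A ≤ β / (1 - β) * (1 + 2 / ((1 - β) * R)) := by
            have h5 : (0 : ℝ) < (1 - β) * R := by linarith only [hRβ, hβ1, hβ]
            have e3 : β / (1 - β) * (1 + 2 / ((1 - β) * R)) =
                β * ((1 - β) * R + 2) / ((1 - β) * ((1 - β) * R)) := by
              field_simp
            rw [e3, div_le_div_iff₀ hA0 (mul_pos hβ' h5)]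
            have h6 : (1 - β) * R * ((1 - β) * R) ≤ ((1 - β) * R + 2) * ((1 - β) * R - 1) := by
              linarith only [hRβ]
            calc (b : ℝ) * ((1 - β) * ((1 - β) * R)) ≤ (β * R) * ((1 - β) * ((1 - β) * R)) :=
                  mul_le_mul_of_nonneg_right hb2 (by positivity)
              _ = β * ((1 - β) * R * ((1 - β) * R)) := by ring
              _ ≤ β * (((1 - β) * R + 2) * ((1 - β) * R - 1)) :=
                  mul_le_mul_of_nonneg_left h6 hβ.le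
              _ = β * ((1 - β) * R + 2) * ((1 - β) * R - 1) := by ring
              _ ≤ β * ((1 - β) * R + 2) * A := mul_le_mul_of_nonneg_left hA1 (by positivity)
          have h5 : (k : ℝ) / ((R : ℝ) - 1 - k) ≤ x * (1 + 2 * x) := by
            rw [hx]
            have e4 : (k : ℝ) / ((R : ℝ) - 1) * (1 + 2 * ((k : ℝ) / ((R : ℝ) - 1))) =
                k * (((R : ℝ) - 1) + 2 * k) / (((R : ℝ) - 1) * ((R : ℝ) - 1)) := by
              field_simp
            rw [e4, div_le_div_iff₀ hQk (mul_pos hQ0 hQ0)]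
            have h6 : ((R : ℝ) - 1) * ((R : ℝ) - 1) ≤
                (((R : ℝ) - 1) + 2 * k) * ((R : ℝ) - 1 - k) := by
              have : 0 ≤ (k : ℝ) * ((R : ℝ) - 1 - 2 * k) := mul_nonneg hk0 (by linarith only [hk,
                                                                                 hb4, hb3])
              linarith only [this]
            calc (k : ℝ) * (((R : ℝ) - 1) * ((R : ℝ) - 1)) ≤
                k * ((((R : ℝ) - 1) + 2 * k) * ((R : ℝ) - 1 - k)) :=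
                  mul_le_mul_of_nonneg_left h6 hk0
              _ = k * (((R : ℝ) - 1) + 2 * k) * ((R : ℝ) - 1 - k) := by ring
          have h6 : (u : ℝ) * t = u * ((b : ℝ) / A) * ((k : ℝ) / ((R : ℝ) - 1 - k)) := by
            rw [ht]
            field_simp
          rw [h6]
          have hB0 : 0 ≤ β / (1 - β) := by positivity
          have h7 : 2 / ((1 - β) * R) ≤ 1 := by
            rw [div_le_one (by linarith only [hRβ, hβ1, hβ])]
            exact hRβ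
          have h70 : 0 ≤ 2 / ((1 - β) * R) := by
            have : (0 : ℝ) < (1 - β) * R := by linarith only [hRβ, hβ1, hβ]
            positivity
          have h8 : (u : ℝ) * ((b : ℝ) / A) * ((k : ℝ) / ((R : ℝ) - 1 - k)) ≤
              u * (β / (1 - β) * (1 + 2 / ((1 - β) * R))) * (x * (1 + 2 * x)) :=
            mul_le_mul (mul_le_mul_of_nonneg_left h4 hu0) h5 (by positivity)
              (mul_nonneg hu0 (mul_nonneg hB0 (by linarith only [h70, hβ1, hβ])))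
          refine h8.trans ?_
          have h9 : (1 + 2 / ((1 - β) * R)) * (x * (1 + 2 * x)) ≤
              x + 2 / ((1 - β) * R) * x + 4 * x ^ 2 := by
            have : 2 / ((1 - β) * R) * (2 * x ^ 2) ≤ 1 * (2 * x ^ 2) :=
              mul_le_mul_of_nonneg_right h7 (by positivity)
            linarith only [this]
          have h10 : (u : ℝ) * (β / (1 - β)) * ((1 + 2 / ((1 - β) * R)) * (x * (1 + 2 * x))) ≤
              u * (β / (1 - β)) * (x + 2 / ((1 - β) * R) * x + 4 * x ^ 2) :=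
            mul_le_mul_of_nonneg_left h9 (mul_nonneg hu0 hB0)
          have h11 : (u : ℝ) * (β / (1 - β)) * (2 / ((1 - β) * R)) ≤ C / R := by
            have e5 : (u : ℝ) * (β / (1 - β)) * (2 / ((1 - β) * R)) =
                (2 * u * β / (1 - β) ^ 2) / R := by
              field_simp
            rw [e5]
            refine div_le_div_of_nonneg_right ?_ (by linarith only [])
            rw [hC]
            have e6 : 4 * (u : ℝ) * β / (1 - β) ^ 2 = 2 * (2 * u * β / (1 - β) ^ 2) := by ring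
            rw [e6]
            have p1 : 0 ≤ 16 / (1 - β) ^ 2 := by positivity
            have p2 : 0 ≤ 2 * (u : ℝ) * β / (1 - β) ^ 2 := by positivity
            linarith only [p1, e6, hC0, hC]
          have h12 : (u : ℝ) * (β / (1 - β)) * 4 ≤ C := by
            have e7 : (u : ℝ) * (β / (1 - β)) * 4 = 4 * u * β * (1 - β) / (1 - β) ^ 2 := by
              field_simp
            have h13 : 4 * (u : ℝ) * β * (1 - β) / (1 - β) ^ 2 ≤ 4 * u * β / (1 - β) ^ 2 := by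
              refine div_le_div_of_nonneg_right ?_ (by positivity)
              calc 4 * (u : ℝ) * β * (1 - β) ≤ 4 * u * β * 1 :=
                    mul_le_mul_of_nonneg_left (by linarith only [hβ]) (by positivity)
                _ = 4 * u * β := mul_one _
            rw [e7, hC]
            have p1 : 0 ≤ 16 / (1 - β) ^ 2 := by positivity
            linarith only [p1, h13]
          calc (u : ℝ) * (β / (1 - β) * (1 + 2 / ((1 - β) * R))) * (x * (1 + 2 * x))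
              = u * (β / (1 - β)) * ((1 + 2 / ((1 - β) * R)) * (x * (1 + 2 * x))) := by ring
            _ ≤ u * (β / (1 - β)) * (x + 2 / ((1 - β) * R) * x + 4 * x ^ 2) := h10
            _ = u * β / (1 - β) * x + (u : ℝ) * (β / (1 - β)) * (2 / ((1 - β) * R)) * x +
                (u : ℝ) * (β / (1 - β)) * 4 * x ^ 2 := by ring
            _ ≤ u * β / (1 - β) * x + C / R * x + C * x ^ 2 := by
                have q1 := mul_le_mul_of_nonneg_right h11 hx0
                have q2 := mul_le_mul_of_nonneg_right h12 (sq_nonneg x)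
                linarith only [q2, q1]
            _ = (u * β / (1 - β) + C / R) * x + C * x ^ 2 := by ring
        linarith only [h3]
    · push Not at hk
      have h1 : (1 - β) / 4 ≤ x := by
        rw [hx, le_div_iff₀ hQ0]
        linarith only [hk, hb4, hb2, hRβ, hβ1]
      have h2 : 1 ≤ C * x ^ 2 := by
        have h3 : ((1 - β) / 4) ^ 2 ≤ x ^ 2 := by
          exact pow_le_pow_left₀ (by positivity) h1 2
        have h4 : 16 / (1 - β) ^ 2 ≤ C := by
          rw [hC]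
          have : 0 ≤ 4 * (u : ℝ) * β / (1 - β) ^ 2 := by positivity
          linarith only [this]
        calc (1 : ℝ) = 16 / (1 - β) ^ 2 * ((1 - β) / 4) ^ 2 := by
              field_simp
              norm_num
          _ ≤ C * x ^ 2 := mul_le_mul h4 h3 (by positivity) hC0.le
      have h5 : 0 ≤ (u * β / (1 - β) + C / R) * x := by positivity
      linarith only [h5, h2, hg0]
  have h1 := SKt_sub_mul hx0 hε hg1
  calc (s : ℝ) / R * (1 - (u * β / (1 - β) + ε + C / R) * x - C * x ^ 2)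
      = (s : ℝ) / R * (1 - (u * β / (1 - β) + C / R) * x - C * x ^ 2 - ε * x) := by ring
    _ ≤ (s : ℝ) / R * (g - ε * x) := mul_le_mul_of_nonneg_left (by linarith only [key]) hs
    _ ≤ (s : ℝ) / R * ((1 - ε * x) * g) := mul_le_mul_of_nonneg_left h1 hs
    _ = (s : ℝ) / R * (1 - ε * x) * g := by ring

theorem SKt_pow_sub {a c : ℝ} (hc : 0 ≤ c) (hca : c ≤ a) (ha : a ≤ 1) (u : ℕ) :
    a ^ u - u * (a - c) ≤ c ^ u := by
  induction u with
  | zero => simp
  | succ u ih =>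
    have h1 : a ^ u ≤ 1 := pow_le_one₀ (hc.trans hca) ha
    have h2 : 0 ≤ a ^ u := pow_nonneg (hc.trans hca) u
    have h3 : (0 : ℝ) ≤ (u : ℝ) * (a - c) := mul_nonneg (Nat.cast_nonneg _) (by linarith only [hca])
    have h4 : c * (a ^ u - u * (a - c)) ≤ c * c ^ u := mul_le_mul_of_nonneg_left ih hc
    have h5 : c * (u * (a - c)) ≤ 1 * (u * (a - c)) :=
      mul_le_mul_of_nonneg_right (hca.trans ha) h3
    have h6 : (a - c) * a ^ u ≤ (a - c) * 1 := mul_le_mul_of_nonneg_left h1 (by linarith only [hca])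
    push_cast
    rw [pow_succ, pow_succ]
    linarith only [h6, h5, h4]

/-- lower bound by the limit function -/
theorem ktS_mid (u : ℕ) (β θ ε' : ℝ) (hu : 1 ≤ u) (hβ : 0 < β) (hβ1 : β < 1) (hθ : 0 < θ)
    (hε' : 0 < ε') :
    ∃ R₀ : ℕ, 2 ≤ R₀ ∧ ∀ R : ℕ, R₀ ≤ R → ∀ (s : ℕ) (ε : ℝ), 0 ≤ ε → ε ≤ 1 → ∀ j : ℕ, 2 ≤ j →
      j ≤ R → θ ≤ ((R : ℝ) - j) / (R - 1) →
      (s : ℝ) / R * (fP β u (((R : ℝ) - j) / (R - 1)) - ε - ε') ≤ ktS R s u β ε j := by
  have hβ' : 0 < 1 - β := by linarith only [hβ1]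
  have hu' : (1 : ℝ) ≤ u := by exact_mod_cast hu
  -- constants
  obtain ⟨c, hc⟩ : ∃ c : ℝ, c = (u + 1) / (1 - β) := ⟨_, rfl⟩
  have hc0 : 0 < c := by rw [hc]; positivity
  obtain ⟨c', hc'⟩ : ∃ c' : ℝ, c' = β / (θ * (1 - β)) + c := ⟨_, rfl⟩
  have hc'0 : 0 < c' := by rw [hc']; positivity
  obtain ⟨R₀, hR₀⟩ := exists_nat_gt (1 + u * c' / ε' + c)
  refine ⟨max 2 R₀, le_max_left _ _, fun R hR s ε hε hε1 j hj2 hj hY => ?_⟩
  have hR2 : 2 ≤ R := (le_max_left _ _).trans hR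
  have hR2' : (2 : ℝ) ≤ R := by exact_mod_cast hR2
  have hRR : (R₀ : ℝ) ≤ R := by exact_mod_cast (le_max_right _ _).trans hR
  have q1 : 0 < u * c' / ε' := by positivity
  have hQ0 : (0 : ℝ) < (R : ℝ) - 1 := by linarith only [hR2', hβ1, hβ]
  have hQc : c ≤ (R : ℝ) - 1 := by linarith only [q1, hRR, hR₀]
  have hQu : u * c' ≤ ε' * ((R : ℝ) - 1) := by
    have h1 : u * c' / ε' ≤ (R : ℝ) - 1 := by linarith only [hRR, hR₀, hc0]
    rw [div_le_iff₀ hε'] at h1
    linarith only [h1]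
  obtain ⟨hb1, hb2, hb3, hb4⟩ := SKt_floor (show 1 ≤ R by omega) hβ hβ1
  have hQ : ((R - 1 : ℕ) : ℝ) = (R : ℝ) - 1 := by
    rw [Nat.cast_sub (by omega)]
    simp
  unfold ktS
  rw [if_pos hj2]
  obtain ⟨k, rfl⟩ : ∃ k, j = k + 1 := ⟨j - 1, by omega⟩
  obtain ⟨b, hb⟩ : ∃ b : ℕ, b = ⌊β * R⌋₊ := ⟨_, rfl⟩
  rw [← hb] at hb1 hb2 hb3 hb4 ⊢
  obtain ⟨A, hA⟩ : ∃ A : ℕ, A = R - 1 - b := ⟨_, rfl⟩
  rw [← hA] at hb4 ⊢
  obtain ⟨Y, hYd⟩ : ∃ Y : ℝ, Y = ((R : ℝ) - ((k + 1 : ℕ) : ℝ)) / ((R : ℝ) - 1) := ⟨_, rfl⟩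
  rw [← hYd] at hY ⊢
  have hk0 : (0 : ℝ) ≤ k := Nat.cast_nonneg _
  have hb0 : (0 : ℝ) ≤ b := Nat.cast_nonneg _
  have hYk : (k : ℝ) = (1 - Y) * ((R : ℝ) - 1) := by
    have h1 : Y * ((R : ℝ) - 1) = (R : ℝ) - ((k + 1 : ℕ) : ℝ) := by
      rw [hYd, div_mul_cancel₀ _ hQ0.ne']
    push_cast at h1
    linarith only [h1]
  have hY1 : Y ≤ 1 := by
    by_contra h1
    push Not at h1
    have : (1 - Y) * ((R : ℝ) - 1) < 0 := mul_neg_of_neg_of_pos (by linarith only [h1]) hQ0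
    linarith only [this, hYk, hk0]
  have hY0 : 0 < Y := by linarith only [hY, hθ]
  have e00 : ε * (((k + 1 : ℕ) : ℝ) - 1) / ((R : ℝ) - 1) = ε * (1 - Y) := by
    have e0 : (((k + 1 : ℕ) : ℝ) - 1) = k := by push_cast; ring
    rw [e0, hYk]
    field_simp
  rw [e00]
  obtain ⟨g, hg⟩ : ∃ g : ℝ, g = bet A u (k + 1) / bet (R - 1) u (k + 1) := ⟨_, rfl⟩
  rw [← hg]
  have hg0 : 0 ≤ g := by rw [hg]; exact SKt_ratio_nonneg _ _ _ _
  have hg1 : g ≤ 1 := by rw [hg]; exact SKt_ratio_le_one _ _ _ _ (by omega)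
  have hs : (0 : ℝ) ≤ (s : ℝ) / R := by positivity
  -- the limit
  obtain ⟨P, hP⟩ : ∃ P : ℝ, P = (Y - β) / Y := ⟨_, rfl⟩
  have key : fP β u Y - ε' ≤ g := by
    by_cases hYβ : Y ≤ β
    · have h1 : fP β u Y = 0 := by
        unfold fP
        rw [max_eq_right (by linarith only [hYβ]), zero_div, zero_pow (by omega)]
      rw [h1]
      linarith only [hg0, hε']
    push Not at hYβ
    obtain ⟨φ, hφ⟩ : ∃ φ : ℝ, φ = (Y - β) / (Y * (1 - β)) := ⟨_, rfl⟩
    have h1 : fP β u Y = φ ^ u := by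
      unfold fP
      rw [max_eq_left (by linarith only [hYβ]), hφ]
    have hφ0 : 0 ≤ φ := by
      rw [hφ]
      exact div_nonneg (by linarith only [hYβ]) (mul_pos hY0 hβ').le
    have hφ1 : φ ≤ 1 := by
      rw [hφ, div_le_one (mul_pos hY0 hβ')]
      have h2 := mul_nonneg hβ.le (show (0 : ℝ) ≤ 1 - Y by linarith only [hY1])
      linarith only [h2]
    rw [h1]
    by_cases hkA : k ≤ A
    · -- the product
      obtain ⟨t, ht⟩ : ∃ t : ℝ, t = max (φ - c' / ((R : ℝ) - 1)) 0 := ⟨_, rfl⟩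
      have ht0 : 0 ≤ t := by rw [ht]; exact le_max_right _ _
      have htφ : t ≤ φ := by
        rw [ht]
        refine max_le ?_ hφ0
        have : 0 ≤ c' / ((R : ℝ) - 1) := by positivity
        linarith only [this]
      have h2 : t ^ u ≤ g := by
        rw [hg]
        refine SKt_ratio_pow A (R - 1) k u t ht0 hkA (by omega) fun l hl => ?_
        rw [hQ]
        have hl0 : (0 : ℝ) ≤ l := Nat.cast_nonneg _
        have hl1 : (l : ℝ) + 1 ≤ u := by exact_mod_cast hl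
        have hkA' : (k : ℝ) ≤ A := by exact_mod_cast hkA
        have p1 : (0 : ℝ) < (A : ℝ) + l + 1 := by positivity
        have p2 : (0 : ℝ) < (R : ℝ) - 1 + l + 1 - k := by linarith only [hkA', hb4, hb3, hβ1, hβ]
        have p3 : (0 : ℝ) ≤ (A : ℝ) + l + 1 - k := by linarith only [hkA']
        have p4 : (0 : ℝ) < (R : ℝ) - 1 + l + 1 := by linarith only [hR2', hβ1, hβ]
        rw [ht]
        refine max_le ?_ (mul_nonneg (div_nonneg p3 p1.le) (div_nonneg p4.le p2.le))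
        have e1 : ((A : ℝ) + l + 1 - k) / (A + l + 1) *
            (((R : ℝ) - 1 + l + 1) / ((R : ℝ) - 1 + l + 1 - k)) =
            (((A : ℝ) + l + 1 - k) / ((R : ℝ) - 1 + l + 1 - k)) *
            (((R : ℝ) - 1 + l + 1) / (A + l + 1)) := by
          field_simp
        rw [e1]
        obtain ⟨F₁, hF₁⟩ : ∃ F₁ : ℝ, F₁ = ((A : ℝ) + l + 1 - k) / ((R : ℝ) - 1 + l + 1 - k) :=
          ⟨_, rfl⟩
        obtain ⟨F₂, hF₂⟩ : ∃ F₂ : ℝ, F₂ = ((R : ℝ) - 1 + l + 1) / ((A : ℝ) + l + 1) := ⟨_, rfl⟩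
        rw [← hF₁, ← hF₂]
        have hF₁0 : 0 ≤ F₁ := by rw [hF₁]; exact div_nonneg p3 p2.le
        have hYQ : (R : ℝ) - 1 - k = Y * ((R : ℝ) - 1) := by rw [hYk]; ring
        have hYQ0 : 0 < Y * ((R : ℝ) - 1) := mul_pos hY0 hQ0
        have hP0 : 0 ≤ P := by rw [hP]; exact div_nonneg (by linarith only [hYβ]) hY0.le
        have hPφ : P = φ * (1 - β) := by
          rw [hP, hφ]
          field_simp
        have hF₁1 : P - β / (θ * ((R : ℝ) - 1)) ≤ F₁ := by
          have e2 : F₁ = 1 - b / ((R : ℝ) - 1 + l + 1 - k) := by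
            rw [hF₁, hb4, eq_sub_iff_add_eq, ← add_div, div_eq_one_iff_eq p2.ne']
            ring
          have h3 : (b : ℝ) / ((R : ℝ) - 1 + l + 1 - k) ≤ β * R / (Y * ((R : ℝ) - 1)) :=
            div_le_div₀ (by positivity) hb2 hYQ0 (by linarith only [hYk])
          have h4 : β * R / (Y * ((R : ℝ) - 1)) = β / Y + β / (Y * ((R : ℝ) - 1)) := by
            field_simp
            ring
          have h5 : β / (Y * ((R : ℝ) - 1)) ≤ β / (θ * ((R : ℝ) - 1)) :=
            div_le_div_of_nonneg_left hβ.le (mul_pos hθ hQ0)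
              (mul_le_mul_of_nonneg_right hY hQ0.le)
          have h6 : P = 1 - β / Y := by
            rw [hP, sub_div, div_self hY0.ne']
          rw [e2, h6]
          linarith only [h5, h4, h3]
        have hF₂1 : 1 / (1 - β) * (1 - c / ((R : ℝ) - 1)) ≤ F₂ := by
          rw [hF₂, le_div_iff₀ p1, hb4]
          have h3 : (R : ℝ) - 1 - b + l + 1 ≤ (1 - β) * ((R : ℝ) - 1) + (u + 1) := by
            linarith only [hl1, hb3, hβ]
          have h4 : 0 ≤ 1 / (1 - β) * (1 - c / ((R : ℝ) - 1)) := by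
            refine mul_nonneg (by positivity) ?_
            rw [sub_nonneg, div_le_one hQ0]
            exact hQc
          calc 1 / (1 - β) * (1 - c / ((R : ℝ) - 1)) * ((R : ℝ) - 1 - b + l + 1)
              ≤ 1 / (1 - β) * (1 - c / ((R : ℝ) - 1)) * ((1 - β) * ((R : ℝ) - 1) + (u + 1)) :=
                mul_le_mul_of_nonneg_left h3 h4
            _ = ((R : ℝ) - 1) * ((1 - c / ((R : ℝ) - 1)) * (1 + c / ((R : ℝ) - 1))) := by
                rw [hc]
                field_simp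
            _ ≤ ((R : ℝ) - 1) * 1 := by
                refine mul_le_mul_of_nonneg_left ?_ hQ0.le
                linarith only [sq_nonneg (c / ((R : ℝ) - 1))]
            _ ≤ (R : ℝ) - 1 + l + 1 := by linarith only []
        have hF₂0 : 0 ≤ F₂ := by rw [hF₂]; exact div_nonneg p4.le p1.le
        by_cases hneg : P - β / (θ * ((R : ℝ) - 1)) ≤ 0
        · have h3 : φ - c' / ((R : ℝ) - 1) ≤ 0 := by
            have h4 : φ ≤ β / (θ * (1 - β)) / ((R : ℝ) - 1) := by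
              have h5 : φ * (1 - β) ≤ β / (θ * ((R : ℝ) - 1)) := by linarith only [hneg, hPφ]
              have e3 : β / (θ * (1 - β)) / ((R : ℝ) - 1) =
                  β / (θ * ((R : ℝ) - 1)) / (1 - β) := by
                field_simp
              rw [e3, le_div_iff₀ hβ']
              exact h5
            have h6 : β / (θ * (1 - β)) / ((R : ℝ) - 1) ≤ c' / ((R : ℝ) - 1) := by
              refine div_le_div_of_nonneg_right ?_ hQ0.le
              rw [hc']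
              linarith only [hc0]
            linarith only [h6, h4]
          exact h3.trans (mul_nonneg hF₁0 hF₂0)
        · push Not at hneg
          have h3 : 0 ≤ 1 / (1 - β) * (1 - c / ((R : ℝ) - 1)) := by
            refine mul_nonneg (by positivity) ?_
            rw [sub_nonneg, div_le_one hQ0]
            exact hQc
          have h4 : (P - β / (θ * ((R : ℝ) - 1))) * (1 / (1 - β) * (1 - c / ((R : ℝ) - 1))) ≤
              F₁ * F₂ := mul_le_mul hF₁1 hF₂1 h3 hF₁0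
          refine le_trans ?_ h4
          have h5 : φ - c' / ((R : ℝ) - 1) =
              φ - β / (θ * (1 - β)) / ((R : ℝ) - 1) - c / ((R : ℝ) - 1) := by
            rw [hc']
            ring
          have h6 : (P - β / (θ * ((R : ℝ) - 1))) * (1 / (1 - β) * (1 - c / ((R : ℝ) - 1))) =
              (φ - β / (θ * (1 - β)) / ((R : ℝ) - 1)) * (1 - c / ((R : ℝ) - 1)) := by
            rw [hPφ]
            field_simp
          rw [h5, h6]
          have h7 : 0 ≤ c / ((R : ℝ) - 1) := by positivity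
          have h8 : 0 ≤ β / (θ * (1 - β)) / ((R : ℝ) - 1) := by positivity
          have h9 : (φ - β / (θ * (1 - β)) / ((R : ℝ) - 1)) * (c / ((R : ℝ) - 1)) ≤
              1 * (c / ((R : ℝ) - 1)) := mul_le_mul_of_nonneg_right (by linarith only [h8, hφ1]) h7
          linarith only [h9]
      have h3 := SKt_pow_sub ht0 htφ hφ1 u
      have h4 : φ - t ≤ c' / ((R : ℝ) - 1) := by
        have : φ - c' / ((R : ℝ) - 1) ≤ t := by rw [ht]; exact le_max_left _ _
        linarith only [this]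
      have h5 : (u : ℝ) * (φ - t) ≤ ε' := by
        calc (u : ℝ) * (φ - t) ≤ u * (c' / ((R : ℝ) - 1)) :=
              mul_le_mul_of_nonneg_left h4 (by linarith only [])
          _ = u * c' / ((R : ℝ) - 1) := by ring
          _ ≤ ε' := by
              rw [div_le_iff₀ hQ0]
              exact hQu
      linarith only [h5, h3, h2]
    · -- then `Y` is at most `β + β / (R - 1)`
      push Not at hkA
      have h2 : (A : ℝ) + 1 ≤ k := by exact_mod_cast hkA
      have h3 : Y * ((R : ℝ) - 1) ≤ β * R := by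
        have : (k : ℝ) = ((R : ℝ) - 1) - Y * ((R : ℝ) - 1) := by rw [hYk]; ring
        linarith only [h2, hYk, hb4, hb2, hβ1, hβ]
      have h4 : (Y - β) * ((R : ℝ) - 1) ≤ β := by linarith only [h2, hYk, hb4, hb2, hβ1, hβ]
      have h5 : φ ≤ c' / ((R : ℝ) - 1) := by
        have h6 : Y - β ≤ β / ((R : ℝ) - 1) := by
          rw [le_div_iff₀ hQ0]
          exact h4
        calc φ ≤ β / ((R : ℝ) - 1) / (θ * (1 - β)) := by
              rw [hφ]
              exact div_le_div₀ (by positivity) h6 (mul_pos hθ hβ')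
                (mul_le_mul_of_nonneg_right hY hβ'.le)
          _ = β / (θ * (1 - β)) / ((R : ℝ) - 1) := by
              field_simp
          _ ≤ c' / ((R : ℝ) - 1) := by
              refine div_le_div_of_nonneg_right ?_ hQ0.le
              rw [hc']
              linarith only [hc0]
      have h7 : φ ^ u ≤ φ := pow_le_of_le_one hφ0 hφ1 (by omega)
      have h8 : c' / ((R : ℝ) - 1) ≤ ε' := by
        rw [div_le_iff₀ hQ0]
        have : 1 * c' ≤ u * c' := mul_le_mul_of_nonneg_right hu' hc'0.le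
        linarith only [this, hQu]
      linarith only [h8, h7, h5, hg0]
  have h1 : g - ε ≤ (1 - ε * (1 - Y)) * g := by
    have h2 := SKt_sub_mul (show 0 ≤ 1 - Y by linarith only [hY1]) hε hg1
    have h3 : ε * (1 - Y) ≤ ε * 1 := mul_le_mul_of_nonneg_left (by linarith only [hY, hθ]) hε
    linarith only [h3, h2]
  calc (s : ℝ) / R * (fP β u Y - ε - ε')
      ≤ (s : ℝ) / R * (g - ε) := mul_le_mul_of_nonneg_left (by linarith only [key]) hs
    _ ≤ (s : ℝ) / R * ((1 - ε * (1 - Y)) * g) := mul_le_mul_of_nonneg_left h1 hs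
    _ = (s : ℝ) / R * (1 - ε * (1 - Y)) * g := by ring

end H57GH
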