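import Pool.Agent.H57.GH.BUp
import Pool.Agent.H57.GH.Up0

/-!
Project SB: the upper bound for `K_1 ∨ J` if `J` has isolated vertices (compare Up0).
-/

namespace H57GH

open Finset H57LC H57LT

set_option linter.unusedSectionVars false

/-- `I` is the set of isolated vertices of `J` -/
theorem upperB0 {ι : Type} [Fintype ι] [DecidableEq ι] (J : SimpleGraph ι) [DecidableRel J.Adj]
    (I : Finset ι) (hI : ∀ v ∈ I, ∀ w, ¬ J.Adj v w) (hI' : ∀ v, v ∉ I → ∃ w, J.Adj v w)
    {β : ℝ} (hβ : 0 < β) (hβ1 : β < 1)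
    (hc : Nonempty {v // v ∉ I} → PairC (J.comap (Subtype.val : {v // v ∉ I} → ι)) 1 β ∧
      Qc (J.comap (Subtype.val : {v // v ∉ I} → ι)) β < 1) :
    ∃ R₀ : ℕ, ∀ R r : ℕ, R₀ ≤ R → 1 ≤ r → (r : ℝ) ≤ β * R →
      r + 2 ≤ R ∧ ∃ m₀ : ℕ, ∀ m : ℕ, m₀ ≤ m →
      ∀ (V : Type) [Fintype V] [DecidableEq V] (G : SimpleGraph V) [DecidableRel G.Adj],
        (∀ U ∈ clq G univ 1, (cn G U).card ≤ R * m + r) → clq G univ (R + 1 + 1) = ∅ →
        ((emb (jn J 1) G univ).card : ℝ) ≤
          ((R * m + r - Fintype.card {v // v ∉ I}).descFactorial I.card : ℝ) *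
            rhoG (J.comap (Subtype.val : {v // v ∉ I} → ι)) 1 R r m *
              ((clq G univ 1).card : ℝ) := by
  classical
  by_cases hne : Nonempty {v // v ∉ I}
  · have hd : ∀ v, 1 ≤ dg (J.comap (Subtype.val : {v // v ∉ I} → ι)) univ v := by
      intro v
      obtain ⟨w, hw⟩ := hI' v.1 v.2
      have hwI : w ∉ I := fun h => hI w h v.1 hw.symm
      unfold dg
      rw [Nat.one_le_iff_ne_zero, ← Nat.pos_iff_ne_zero, card_pos]
      exact ⟨⟨w, hwI⟩, mem_filter.2 ⟨mem_univ _, hw⟩⟩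
    obtain ⟨R₀, h⟩ := upperB1 (J.comap (Subtype.val : {v // v ∉ I} → ι)) hd hβ hβ1
      (hc hne).1 (hc hne).2
    refine ⟨R₀, fun R r hR hr hrR => ?_⟩
    obtain ⟨h1, m₀, h2⟩ := h R r hR hr hrR
    refine ⟨h1, m₀, fun m hm V _ _ G _ hG hfree => ?_⟩
    have h3 := h2 m hm V G hG hfree
    have h4 := Up0_red J I hI G hG
    rw [Nat.factorial_one, Nat.cast_one, one_mul] at h3
    calc ((emb (jn J 1) G univ).card : ℝ)
        ≤ (((R * m + r - Fintype.card {v // v ∉ I}).descFactorial I.card *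
        (emb (jn (J.comap (Subtype.val : {v // v ∉ I} → ι)) 1) G univ).card : ℕ) : ℝ) := by
          exact_mod_cast h4
      _ = ((R * m + r - Fintype.card {v // v ∉ I}).descFactorial I.card : ℝ) *
        ((emb (jn (J.comap (Subtype.val : {v // v ∉ I} → ι)) 1) G univ).card : ℝ) := by
          push_cast
          ring
      _ ≤ ((R * m + r - Fintype.card {v // v ∉ I}).descFactorial I.card : ℝ) *
        (rhoG (J.comap (Subtype.val : {v // v ∉ I} → ι)) 1 R r m *
              ((clq G univ 1).card : ℝ)) := mul_le_mul_of_nonneg_left h3 (Nat.cast_nonneg _)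
      _ = _ := by ring
  · have : IsEmpty {v // v ∉ I} := not_nonempty_iff.1 hne
    have hβ2 : 0 < 1 - β := by linarith
    refine ⟨⌈2 / (1 - β)⌉₊, fun R r hR hr hrR => ?_⟩
    have hR' : 2 / (1 - β) ≤ (R : ℝ) := Nat.ceil_le.1 hR
    have hR2 : 2 ≤ (R : ℝ) * (1 - β) := (div_le_iff₀ hβ2).1 hR'
    refine ⟨?_, 1, fun m hm V _ _ G _ hG hfree => ?_⟩
    · have : (r : ℝ) + 2 ≤ R := by nlinarith
      exact_mod_cast this
    · have h4 := Up0_red J I hI G hG
      have h5 : (emb (jn (J.comap (Subtype.val : {v // v ∉ I} → ι)) 1) G univ).card =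
          (clq G univ 1).card := by
        rw [emb_join, Nat.factorial_one, one_mul, card_eq_sum_ones]
        exact sum_congr rfl fun U _ => Up0_emb_empty _ _ _
      rw [h5] at h4
      rw [Up0_rho_empty _ hm, mul_one]
      exact_mod_cast h4

end H57GH
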