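import Pool.Agent.H57.GH.CM
import Pool.Agent.H57.LT.Esym

/-!
The balanced vector and its number of edges.
-/

namespace H57GH

open Finset H57LC H57LT

set_option linter.unusedSectionVars false

private theorem BalE_case {R : ℕ} (hR : 1 ≤ R) (n : ℕ) :
    ((n + 1) / R = n / R ∧ (n + 1) % R = n % R + 1 ∧ n % R + 1 < R) ∨
      ((n + 1) / R = n / R + 1 ∧ (n + 1) % R = 0 ∧ n % R + 1 = R) := by
  have h := Nat.div_add_mod n R
  have hlt := Nat.mod_lt n hR
  rcases Nat.lt_or_ge (n % R + 1) R with h1 | h1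
  · left
    have h2 := (Nat.div_mod_unique (a := n + 1) (b := R) (d := n / R) (c := n % R + 1)
      (by omega)).2 ⟨by omega, h1⟩
    exact ⟨h2.1, h2.2, h1⟩
  · right
    have h3 : n % R + 1 = R := by omega
    have h2 := (Nat.div_mod_unique (a := n + 1) (b := R) (d := n / R + 1) (c := 0)
      (by omega)).2 ⟨by rw [Nat.mul_add, Nat.mul_one]; omega, by omega⟩
    exact ⟨h2.1, h2.2, h3⟩

private theorem BalE_one {κ : Type*} [DecidableEq κ] (T : Finset κ) (x : κ → ℝ) :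
    eS T x 1 = ∑ k ∈ T, x k := by
  induction T using Finset.induction_on with
  | empty => rw [sum_empty]; exact eS_empty_succ x 0
  | insert a K ha ih => rw [eS_insert ha, ih, eS_zero, sum_insert ha]; ring

private theorem BalE_two {κ : Type*} [DecidableEq κ] (T : Finset κ) (x : κ → ℝ) :
    2 * eS T x 2 = (∑ k ∈ T, x k) ^ 2 - ∑ k ∈ T, x k ^ 2 := by
  induction T using Finset.induction_on with
  | empty => rw [sum_empty, sum_empty, eS_empty_succ x 1]; ring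
  | insert a K ha ih =>
    rw [eS_insert ha, BalE_one, sum_insert ha, sum_insert ha, mul_add, ih]
    ring

/-- adding a point to a smallest class -/
theorem bal_succ {R : ℕ} (hR : 1 ≤ R) (n : ℕ) :
    bal R (n + 1) = up (bal R n) ⟨n % R, Nat.mod_lt _ hR⟩ := by
  funext i
  have hi := i.2
  unfold up
  by_cases h : i = ⟨n % R, Nat.mod_lt _ hR⟩
  · rw [h, Function.update_self]
    simp only [bal]
    rcases BalE_case hR n with ⟨h1, h2, h3⟩ | ⟨h1, h2, h3⟩
    · rw [h1, h2, if_pos (by omega), if_neg (by omega)]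
    · rw [h1, h2, if_neg (by omega), if_neg (by omega)]
  · rw [Function.update_of_ne h]
    have h' : i.val ≠ n % R := fun h4 => h (Fin.ext h4)
    simp only [bal]
    rcases BalE_case hR n with ⟨h1, h2, h3⟩ | ⟨h1, h2, h3⟩
    · rw [h1, h2]
      congr 1
      by_cases h5 : i.val < n % R
      · rw [if_pos h5, if_pos (by omega)]
      · rw [if_neg h5, if_neg (by omega)]
    · rw [h1, h2, if_neg (by omega), if_pos (by omega)]

theorem sum_bal {R : ℕ} (hR : 1 ≤ R) (n : ℕ) : ∑ i, bal R n i = n := by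
  induction n with
  | zero => simp [bal]
  | succ n ih =>
    rw [bal_succ hR n, up, sum_update_of_mem (mem_univ _)]
    have h1 := add_sum_erase univ (bal R n) (mem_univ (⟨n % R, Nat.mod_lt _ hR⟩ : Fin R))
    rw [← erase_eq]
    omega

private theorem BalE_sq_bal {R : ℕ} (hR : 1 ≤ R) (n : ℕ) :
    ∑ i, ((bal R n i : ℕ) : ℝ) ^ 2 =
      (2 * ((n / R : ℕ) : ℝ) + 1) * n - R * (((n / R : ℕ) : ℝ) * (((n / R : ℕ) : ℝ) + 1)) := by
  have h1 : ∀ i : Fin R, ((bal R n i : ℕ) : ℝ) ^ 2 =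
      (2 * ((n / R : ℕ) : ℝ) + 1) * ((bal R n i : ℕ) : ℝ) -
        ((n / R : ℕ) : ℝ) * (((n / R : ℕ) : ℝ) + 1) := by
    intro i
    unfold bal
    split_ifs
    · push_cast
      ring
    · push_cast
      ring
  rw [sum_congr rfl fun i _ => h1 i, sum_sub_distrib, ← mul_sum, ← Nat.cast_sum, sum_bal hR,
    sum_const, card_univ, Fintype.card_fin, nsmul_eq_mul]

/-- the edges of the balanced complete multipartite graph -/
theorem e2_bal_max {R : ℕ} (hR : 1 ≤ R) {κ : Type*} [DecidableEq κ] {T : Finset κ}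
    (hT : T.card = R) (a : κ → ℕ) : e2 T a ≤ e2 univ (bal R (∑ j ∈ T, a j)) := by
  set n := ∑ j ∈ T, a j with hn
  have h1 := BalE_two T (fun k => (a k : ℝ))
  have h2 := BalE_two (univ : Finset (Fin R)) (fun k => (bal R n k : ℝ))
  rw [← Nat.cast_sum, sum_bal hR, BalE_sq_bal hR] at h2
  rw [← Nat.cast_sum, ← hn] at h1
  have h3 : ∀ k ∈ T, (2 * ((n / R : ℕ) : ℝ) + 1) * (a k : ℝ) -
      ((n / R : ℕ) : ℝ) * (((n / R : ℕ) : ℝ) + 1) ≤ (a k : ℝ) ^ 2 := by
    intro k _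
    have h4 : (0 : ℝ) ≤ ((a k : ℝ) - ((n / R : ℕ) : ℝ)) * ((a k : ℝ) - ((n / R : ℕ) : ℝ) - 1) := by
      rcases Nat.lt_or_ge (n / R) (a k) with h5 | h5
      · have h6 : ((n / R : ℕ) : ℝ) + 1 ≤ (a k : ℝ) := by exact_mod_cast h5
        exact mul_nonneg (by linarith) (by linarith)
      · have h6 : (a k : ℝ) ≤ ((n / R : ℕ) : ℝ) := by exact_mod_cast h5
        exact mul_nonneg_of_nonpos_of_nonpos (by linarith) (by linarith)
    nlinarith
  have h7 := sum_le_sum h3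
  rw [sum_sub_distrib, ← mul_sum, ← Nat.cast_sum, ← hn, sum_const, hT, nsmul_eq_mul] at h7
  unfold e2
  linarith

theorem e2_bal_le {R : ℕ} (hR : 1 ≤ R) (n : ℕ) :
    e2 univ (bal R n) ≤ (1 - 1 / (R : ℝ)) * (n : ℝ) ^ 2 / 2 := by
  have h2 := BalE_two (univ : Finset (Fin R)) (fun k => (bal R n k : ℝ))
  have h3 := sq_sum_le_card_mul_sum_sq (s := (univ : Finset (Fin R)))
    (f := fun k => (bal R n k : ℝ))
  rw [card_univ, Fintype.card_fin, ← Nat.cast_sum, sum_bal hR] at h3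
  rw [← Nat.cast_sum, sum_bal hR] at h2
  have hR' : (0 : ℝ) < R := by exact_mod_cast hR
  have h4 : (n : ℝ) ^ 2 / R ≤ ∑ k : Fin R, (bal R n k : ℝ) ^ 2 := by
    rw [div_le_iff₀ hR']
    linarith
  unfold e2
  have h5 : (1 - 1 / (R : ℝ)) * (n : ℝ) ^ 2 / 2 = ((n : ℝ) ^ 2 - (n : ℝ) ^ 2 / R) / 2 := by ring
  rw [h5]
  linarith

theorem e2_bal_ge {R : ℕ} (hR : 1 ≤ R) (n : ℕ) :
    (1 - 1 / (R : ℝ)) * (n : ℝ) ^ 2 / 2 - R ≤ e2 univ (bal R n) := by
  have h2 := BalE_two (univ : Finset (Fin R)) (fun k => (bal R n k : ℝ))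
  rw [← Nat.cast_sum, sum_bal hR, BalE_sq_bal hR] at h2
  have hR' : (0 : ℝ) < R := by exact_mod_cast hR
  have h6 : ((R * (n / R) + n % R : ℕ) : ℝ) = n := by rw [Nat.div_add_mod]
  push_cast at h6
  have h7 : ((n % R : ℕ) : ℝ) ≤ R := by exact_mod_cast (Nat.mod_lt n hR).le
  have h8 : (0 : ℝ) ≤ ((n % R : ℕ) : ℝ) := Nat.cast_nonneg _
  set q : ℝ := ((n / R : ℕ) : ℝ) with hq
  set ρ : ℝ := ((n % R : ℕ) : ℝ) with hρ
  unfold e2
  have h5 : (1 - 1 / (R : ℝ)) * (n : ℝ) ^ 2 / 2 = ((n : ℝ) ^ 2 - (n : ℝ) ^ 2 / R) / 2 := by ring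
  have h9 : (n : ℝ) ^ 2 / R = (2 * q + 1) * n - R * (q * (q + 1)) - (ρ - ρ ^ 2 / R) := by
    rw [← h6]
    field_simp
    ring
  have h10 : 0 ≤ ρ ^ 2 / R := by positivity
  rw [h5, h9]
  linarith

end H57GH
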