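import Pool.Agent.H57.GH.Defs

/-!
Counting labelled copies of `J` in complete multipartite graphs: basic facts.
-/

namespace H57GH

open Finset H57LC H57LT

set_option linter.unusedSectionVars false

variable {ι : Type*} [Fintype ι] [DecidableEq ι] (J : SimpleGraph ι) [DecidableRel J.Adj]

theorem CM_mem {V κ : Type*} [DecidableEq V] [DecidableEq κ] {P : Finset V} {π : V → κ}
    {φ : ι → V} : φ ∈ cm J P π ↔
      (∀ i, φ i ∈ P) ∧ Function.Injective φ ∧ ∀ i j, J.Adj i j → π (φ i) ≠ π (φ j) := by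
  simp only [cm, mem_filter, Fintype.mem_piFinset]

/-- a class-separating injection does not decrease the count -/
theorem cm_card_le {V V' κ κ' : Type*} [DecidableEq V] [DecidableEq V'] [DecidableEq κ]
    [DecidableEq κ'] {P : Finset V} {P' : Finset V'} {π : V → κ} {π' : V' → κ'} (e : V → V')
    (he : ∀ x ∈ P, e x ∈ P') (hinj : Set.InjOn e P)
    (hπ : ∀ x ∈ P, ∀ y ∈ P, π x ≠ π y → π' (e x) ≠ π' (e y)) :
    (cm J P π).card ≤ (cm J P' π').card := by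
  refine Finset.card_le_card_of_injOn (fun φ i => e (φ i)) ?_ ?_
  · intro φ hφ
    obtain ⟨h1, h2, h3⟩ := (CM_mem J).1 (mem_coe.1 hφ)
    exact mem_coe.2 ((CM_mem J).2 ⟨fun i => he _ (h1 i),
      fun i j hij => h2 (hinj (h1 i) (h1 j) hij),
      fun i j hij => hπ _ (h1 i) _ (h1 j) (h3 i j hij)⟩)
  · intro φ hφ ψ hψ h
    obtain ⟨h1, -⟩ := (CM_mem J).1 (mem_coe.1 hφ)
    obtain ⟨h2, -⟩ := (CM_mem J).1 (mem_coe.1 hψ)
    funext i
    exact hinj (h1 i) (h2 i) (congrFun h i)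

/-- the same for maps with a property -/
theorem cm_card_le' {V V' κ κ' : Type*} [DecidableEq V] [DecidableEq V'] [DecidableEq κ]
    [DecidableEq κ'] {P : Finset V} {P' : Finset V'} {π : V → κ} {π' : V' → κ'} (e : V → V')
    (he : ∀ x ∈ P, e x ∈ P') (hinj : Set.InjOn e P)
    (hπ : ∀ x ∈ P, ∀ y ∈ P, π x ≠ π y → π' (e x) ≠ π' (e y)) (Q : (ι → V) → Prop)
    (Q' : (ι → V') → Prop) [DecidablePred Q] [DecidablePred Q']
    (hQ : ∀ φ ∈ cm J P π, Q φ → Q' fun i => e (φ i)) :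
    ((cm J P π).filter Q).card ≤ ((cm J P' π').filter Q').card := by
  refine Finset.card_le_card_of_injOn (fun φ i => e (φ i)) ?_ ?_
  · intro φ hφ
    obtain ⟨h0, hq⟩ := mem_filter.1 (mem_coe.1 hφ)
    obtain ⟨h1, h2, h3⟩ := (CM_mem J).1 h0
    exact mem_coe.2 (mem_filter.2 ⟨(CM_mem J).2 ⟨fun i => he _ (h1 i),
      fun i j hij => h2 (hinj (h1 i) (h1 j) hij),
      fun i j hij => hπ _ (h1 i) _ (h1 j) (h3 i j hij)⟩, hQ _ h0 hq⟩)
  · intro φ hφ ψ hψ h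
    obtain ⟨h1, -⟩ := (CM_mem J).1 (mem_filter.1 (mem_coe.1 hφ)).1
    obtain ⟨h2, -⟩ := (CM_mem J).1 (mem_filter.1 (mem_coe.1 hψ)).1
    funext i
    exact hinj (h1 i) (h2 i) (congrFun h i)

theorem CM_card_eq {V V' κ κ' : Type*} [DecidableEq V] [DecidableEq V'] [DecidableEq κ]
    [DecidableEq κ'] {P : Finset V} {P' : Finset V'} {π : V → κ} {π' : V' → κ'} (e : V → V')
    (he : Set.BijOn e P P')
    (hπ : ∀ x ∈ P, ∀ y ∈ P, (π x ≠ π y ↔ π' (e x) ≠ π' (e y))) :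
    (cm J P π).card = (cm J P' π').card := by
  refine le_antisymm (cm_card_le J e (fun x hx => mem_coe.1 (he.mapsTo (mem_coe.2 hx))) he.injOn
    fun x hx y hy => (hπ x hx y hy).1) ?_
  refine Finset.card_le_card_of_surjOn (fun φ i => e (φ i)) ?_
  intro ψ hψ
  obtain ⟨h1, h2, h3⟩ := (CM_mem J).1 (mem_coe.1 hψ)
  have h4 : ∀ i, ∃ x ∈ P, e x = ψ i := by
    intro i
    obtain ⟨x, hx, hxe⟩ := he.surjOn (mem_coe.2 (h1 i))
    exact ⟨x, mem_coe.1 hx, hxe⟩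
  choose φ h5 h6 using h4
  refine ⟨φ, mem_coe.2 ((CM_mem J).2 ⟨h5, fun i j hij => h2 ?_, fun i j hij => ?_⟩), ?_⟩
  · rw [← h6, ← h6, hij]
  · rw [hπ _ (h5 i) _ (h5 j), h6, h6]
    exact h3 i j hij
  · funext i
    exact h6 i

theorem CM_idx {V : Type*} (s : Finset V) : ∃ f : V → ℕ, Set.BijOn f s (Set.Iio s.card) := by
  classical
  refine ⟨fun x => if hx : x ∈ s then (s.equivFin ⟨x, hx⟩ : ℕ) else 0, ?_, ?_, ?_⟩
  · intro x hx
    have hx' : x ∈ s := mem_coe.1 hx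
    show (if hx : x ∈ s then (s.equivFin ⟨x, hx⟩ : ℕ) else 0) < s.card
    rw [dif_pos hx']
    exact (s.equivFin ⟨x, hx'⟩).2
  · intro x hx y hy h
    have hx' : x ∈ s := mem_coe.1 hx
    have hy' : y ∈ s := mem_coe.1 hy
    have h' : (if hx : x ∈ s then (s.equivFin ⟨x, hx⟩ : ℕ) else 0) =
      (if hx : y ∈ s then (s.equivFin ⟨y, hx⟩ : ℕ) else 0) := h
    rw [dif_pos hx', dif_pos hy'] at h'
    have := s.equivFin.injective (Fin.ext h')
    exact congrArg Subtype.val this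
  · intro i hi
    have hi' : i < s.card := hi
    refine ⟨(s.equivFin.symm ⟨i, hi'⟩ : V), mem_coe.2 (s.equivFin.symm ⟨i, hi'⟩).2, ?_⟩
    show (if hx : ((s.equivFin.symm ⟨i, hi'⟩ : s) : V) ∈ s then
      (s.equivFin ⟨((s.equivFin.symm ⟨i, hi'⟩ : s) : V), hx⟩ : ℕ) else 0) = i
    rw [dif_pos (s.equivFin.symm ⟨i, hi'⟩).2, Subtype.coe_eta, Equiv.apply_symm_apply]

theorem CM_pts {κ : Type*} {T : Finset κ} {a : κ → ℕ} {p : Σ _ : κ, ℕ} :
    p ∈ pts T a ↔ p.1 ∈ T ∧ p.2 < a p.1 := by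
  simp only [pts, mem_sigma, mem_range]

theorem cm_eq_fJ {V κ : Type*} [DecidableEq V] [DecidableEq κ] (P : Finset V) (π : V → κ)
    (T : Finset κ) (h : ∀ x ∈ P, π x ∈ T) :
    (cm J P π).card = fJ J T (fun k => (P.filter fun x => π x = k).card) := by
  have h0 : ∀ k, ∃ f : V → ℕ, Set.BijOn f ((P.filter fun x => π x = k : Finset V) : Set V)
      (Set.Iio (P.filter fun x => π x = k).card) := fun k => CM_idx _
  choose f hf using h0
  refine CM_card_eq J (fun x => (⟨π x, f (π x) x⟩ : Σ _ : κ, ℕ)) ⟨?_, ?_, ?_⟩ ?_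
  · intro x hx
    have hx' : x ∈ P := mem_coe.1 hx
    exact mem_coe.2 (CM_pts.2 ⟨h x hx', (hf (π x)).mapsTo
      (mem_coe.2 (mem_filter.2 ⟨hx', rfl⟩))⟩)
  · intro x hx y hy hxy
    have hx' : x ∈ P := mem_coe.1 hx
    have hy' : y ∈ P := mem_coe.1 hy
    have h1 : π x = π y := congrArg Sigma.fst hxy
    have h2 : f (π x) x = f (π y) y := congrArg Sigma.snd hxy
    rw [← h1] at h2
    exact (hf (π x)).injOn (mem_coe.2 (mem_filter.2 ⟨hx', rfl⟩))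
      (mem_coe.2 (mem_filter.2 ⟨hy', h1.symm⟩)) h2
  · rintro ⟨k, i⟩ hp
    obtain ⟨-, hp2⟩ := CM_pts.1 (mem_coe.1 hp)
    obtain ⟨x, hx, hxi⟩ := (hf k).surjOn hp2
    obtain ⟨h3, h4⟩ := mem_filter.1 (mem_coe.1 hx)
    refine ⟨x, mem_coe.2 h3, ?_⟩
    subst h4
    show (⟨π x, f (π x) x⟩ : Σ _ : κ, ℕ) = _
    rw [hxi]
  · intro x _ y _
    exact Iff.rfl

theorem fJ_congr {κ : Type*} [DecidableEq κ] {T : Finset κ} {a b : κ → ℕ}
    (h : ∀ k ∈ T, a k = b k) : fJ J T a = fJ J T b := by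
  have h1 : pts T a = pts T b := by
    ext p
    rw [CM_pts, CM_pts]
    constructor
    · rintro ⟨h2, h3⟩
      exact ⟨h2, by rw [← h _ h2]; exact h3⟩
    · rintro ⟨h2, h3⟩
      exact ⟨h2, by rw [h _ h2]; exact h3⟩
  unfold fJ
  rw [h1]

theorem fJ_mono {κ : Type*} [DecidableEq κ] {T : Finset κ} {a b : κ → ℕ}
    (h : ∀ k ∈ T, a k ≤ b k) : fJ J T a ≤ fJ J T b := by
  refine cm_card_le J id ?_ (Set.injOn_id _) fun x _ y _ h => h
  intro p hp
  obtain ⟨h1, h2⟩ := CM_pts.1 hp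
  exact CM_pts.2 ⟨h1, h2.trans_le (h _ h1)⟩

theorem fJ_map {κ κ' : Type*} [DecidableEq κ] [DecidableEq κ'] {T : Finset κ} {T' : Finset κ'}
    (σ : κ → κ') (hσ : Set.BijOn σ T T') (a : κ' → ℕ) :
    fJ J T (fun k => a (σ k)) = fJ J T' a := by
  refine CM_card_eq J (fun p : Σ _ : κ, ℕ => (⟨σ p.1, p.2⟩ : Σ _ : κ', ℕ)) ⟨?_, ?_, ?_⟩ ?_
  · intro p hp
    obtain ⟨h1, h2⟩ := CM_pts.1 (mem_coe.1 hp)
    exact mem_coe.2 (CM_pts.2 ⟨mem_coe.1 (hσ.mapsTo (mem_coe.2 h1)), h2⟩)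
  · rintro ⟨k, i⟩ hp ⟨l, j⟩ hq hpq
    obtain ⟨h1, -⟩ := CM_pts.1 (mem_coe.1 hp)
    obtain ⟨h2, -⟩ := CM_pts.1 (mem_coe.1 hq)
    have h3 : σ k = σ l := congrArg Sigma.fst hpq
    have h4 : i = j := congrArg Sigma.snd hpq
    have h5 : k = l := hσ.injOn (mem_coe.2 h1) (mem_coe.2 h2) h3
    rw [h4, h5]
  · rintro ⟨l, j⟩ hq
    obtain ⟨h1, h2⟩ := CM_pts.1 (mem_coe.1 hq)
    obtain ⟨k, hk, hkl⟩ := hσ.surjOn (mem_coe.2 h1)
    have hkl' : σ k = l := hkl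
    subst hkl'
    exact ⟨⟨k, j⟩, mem_coe.2 (CM_pts.2 ⟨mem_coe.1 hk, h2⟩), rfl⟩
  · intro p hp q hq
    obtain ⟨h1, -⟩ := CM_pts.1 hp
    obtain ⟨h2, -⟩ := CM_pts.1 hq
    exact not_congr ⟨fun h => congrArg σ h, fun h => hσ.injOn (mem_coe.2 h1) (mem_coe.2 h2) h⟩

theorem fJ_le_pow {κ : Type*} [DecidableEq κ] (T : Finset κ) (a : κ → ℕ) :
    fJ J T a ≤ (∑ k ∈ T, a k) ^ Fintype.card ι := by
  unfold fJ cm
  refine (Finset.card_filter_le _ _).trans ?_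
  rw [Fintype.card_piFinset, Finset.prod_const, Finset.card_univ]
  unfold pts
  rw [Finset.card_sigma]
  simp only [card_range, le_refl]

/-- in a graph in which adjacent vertices of `S` have different classes -/
theorem emb_card_le_cm {V κ : Type*} [DecidableEq V] [DecidableEq κ] {G : SimpleGraph V}
    [DecidableRel G.Adj] {S : Finset V} {π : V → κ}
    (h : ∀ x ∈ S, ∀ y ∈ S, G.Adj x y → π x ≠ π y) : (emb J G S).card ≤ (cm J S π).card := by
  refine Finset.card_le_card ?_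
  intro φ hφ
  simp only [emb, mem_filter, Fintype.mem_piFinset] at hφ
  obtain ⟨h1, h2, h3⟩ := hφ
  exact (CM_mem J).2 ⟨h1, h2, fun i j hij => h _ (h1 i) _ (h1 j) (h3 i j hij)⟩

/-- for constant class sizes `fJ` depends only on the number of classes -/
theorem fJ_const {κ : Type*} [DecidableEq κ] {T : Finset κ} {R : ℕ} (hT : T.card = R) (m : ℕ) :
    (fJ J T (fun _ => m) : ℝ) = M0 J R m := by
  subst hT
  unfold M0
  rw [← fJ_map J (T := (univ : Finset (Fin T.card))) (T' := T)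
    (fun i => ((T.equivFin.symm i : T) : κ)) ⟨?_, ?_, ?_⟩ (fun _ => m)]
  · intro i _
    exact mem_coe.2 (T.equivFin.symm i).2
  · intro i _ j _ h
    exact T.equivFin.symm.injective (Subtype.ext h)
  · intro k hk
    refine ⟨T.equivFin ⟨k, mem_coe.1 hk⟩, mem_coe.2 (mem_univ _), ?_⟩
    show ((T.equivFin.symm (T.equivFin ⟨k, mem_coe.1 hk⟩) : T) : κ) = k
    rw [Equiv.symm_apply_apply]

/-- `L` for `r = 0` -/
theorem FT_mul {R : ℕ} (hR : 1 ≤ R) (m : ℕ) : FT J R (R * m) = M0 J R m := by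
  unfold FT M0
  congr 1
  refine fJ_congr J fun k _ => ?_
  unfold bal
  rw [Nat.mul_mod_right, if_neg (Nat.not_lt_zero _), Nat.mul_div_cancel_left m (by omega), add_zero]

end H57GH
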