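import Pool.Agent.H57.GH.Defs
import Pool.Agent.H57.LC.LStr
import Pool.Agent.H57.LC.AStr
import Pool.Agent.H57.LT.MM

/-!
Structure of the sets with many edges.
-/

namespace H57GH

open Finset H57LC H57LT

set_option linter.unusedSectionVars false

/-- the light sets -/
theorem exists_LSG (R r : ℕ) (hR : 2 ≤ R) (CB η₁ : ℝ) (hCB : 0 < CB) (hη : 0 < η₁)
    (hη1 : η₁ ≤ 1 / 16) : ∃ C : ℝ, 0 < C ∧ ∀ δ : ℝ, 0 < δ → ∃ m₀ : ℕ, ∀ m : ℕ, m₀ ≤ m →
      ∀ (V : Type) [DecidableEq V] (G : SimpleGraph V) [DecidableRel G.Adj] (S : Finset V),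
        S.card ≤ R * m + r → clq G S (R + 1) = ∅ → TyB G S R m CB →
        ∃ B : Fin R → Finset V, LS G S R m C η₁ δ B := by
  obtain ⟨C₁, hC₁, ms, hs⟩ := clq_stab R 2 r le_rfl hR CB hCB
  obtain ⟨C, hC, hAS⟩ := exists_AS R r hR C₁ hC₁
  obtain ⟨C', hC', hLS⟩ := exists_LS_of_AS R hR C η₁ hC hη hη1
  refine ⟨C', hC', fun δ hδ => ?_⟩
  obtain ⟨δ', hδ', mL, hmL⟩ := hLS δ hδ
  obtain ⟨mA, hmA⟩ := hAS δ' hδ'
  refine ⟨max ms (max mL mA), fun m hm V _ G _ S hS hfree hT => ?_⟩
  simp only [max_le_iff] at hm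
  have h1 : N0 R 2 m * (1 - CB / m) < ((clq G S 2).card : ℝ) := by
    unfold TyB at hT
    unfold N0
    linarith
  have h2 := hs m hm.1 V G S hS hfree h1
  obtain ⟨A, hA⟩ := hmA m hm.2.2 V G S hS hfree h2
  exact hmL m hm.2.1 V G S A hfree hA

/-- light vertices have large degree -/
theorem light_dg {V : Type*} [DecidableEq V] {G : SimpleGraph V} [DecidableRel G.Adj] {R m : ℕ}
    {S : Finset V} {C η₁ δ : ℝ} {B : Fin R → Finset V} (h : LS G S R m C η₁ δ B) {i : Fin R}
    {z : V} (hz : z ∈ B i) :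
    ((R : ℝ) - 1) * (1 - δ - 2 * η₁) * m ≤ (dg G S z : ℝ) := by
  have h1 : ∑ j ∈ univ.erase i, (((B j).card : ℝ) - ((hs G (B j) z).card : ℝ)) ≤
      (dg G S z : ℝ) := by
    have h2 : (univ.erase i).biUnion (fun j => (B j).filter fun y => G.Adj z y) ⊆
        S.filter fun y => G.Adj z y := by
      intro y hy
      rw [mem_biUnion] at hy
      obtain ⟨j, -, hj⟩ := hy
      rw [mem_filter] at hj ⊢
      exact ⟨h.sub j hj.1, hj.2⟩
    have h3 : ((univ.erase i).biUnion (fun j => (B j).filter fun y => G.Adj z y)).card =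
        ∑ j ∈ univ.erase i, ((B j).filter fun y => G.Adj z y).card := by
      refine card_biUnion fun a _ b _ hab => ?_
      exact Disjoint.mono (filter_subset _ _) (filter_subset _ _) (h.disj a b hab)
    have h4 : ∀ j, (((B j).card : ℝ) - ((hs G (B j) z).card : ℝ)) =
        (((B j).filter fun y => G.Adj z y).card : ℝ) := by
      intro j
      have h5 : ((B j).filter fun y => G.Adj z y).card + (hs G (B j) z).card = (B j).card := by
        unfold hs
        exact card_filter_add_card_filter_not (s := B j) (fun y => G.Adj z y)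
      have h6 : (((B j).filter fun y => G.Adj z y).card : ℝ) + ((hs G (B j) z).card : ℝ) =
          ((B j).card : ℝ) := by exact_mod_cast h5
      linarith
    rw [sum_congr rfl fun j _ => h4 j]
    have h5 := card_le_card h2
    rw [h3] at h5
    unfold dg
    exact_mod_cast h5
  refine le_trans ?_ h1
  have h2 : ∀ j ∈ univ.erase i, (1 - δ - 2 * η₁) * m ≤
      ((B j).card : ℝ) - ((hs G (B j) z).card : ℝ) := by
    intro j hj
    have h3 := h.size_lo j
    have h4 := h.row i j (ne_of_mem_erase hj).symm z hz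
    linarith
  have h3 := sum_le_sum h2
  rw [sum_const, card_erase_of_mem (mem_univ i), card_univ, Fintype.card_fin, nsmul_eq_mul] at h3
  have hR : 1 ≤ R := by
    have := i.isLt
    omega
  rw [Nat.cast_sub hR, Nat.cast_one] at h3
  linarith

/-- the degree in `S` and in the light sets -/
theorem dg_le_sum {V : Type*} [DecidableEq V] {G : SimpleGraph V} [DecidableRel G.Adj] {R m : ℕ}
    {S : Finset V} {C η₁ δ : ℝ} {B : Fin R → Finset V} (h : LS G S R m C η₁ δ B) (z : V) :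
    (dg G S z : ℝ) ≤ ∑ i, (dg G (B i) z : ℝ) + C := by
  have h1 : (S.filter fun y => G.Adj z y) ⊆
      (univ.biUnion fun i => (B i).filter fun y => G.Adj z y) ∪ (S \ un B) := by
    intro y hy
    rw [mem_filter] at hy
    by_cases hyB : y ∈ un B
    · obtain ⟨i, hi⟩ := mem_un.1 hyB
      exact mem_union_left _ (mem_biUnion.2 ⟨i, mem_univ i, mem_filter.2 ⟨hi, hy.2⟩⟩)
    · exact mem_union_right _ (mem_sdiff.2 ⟨hy.1, hyB⟩)
  have h2 := (card_le_card h1).trans ((card_union_le _ _).trans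
    (Nat.add_le_add_right (card_biUnion_le (s := univ)
      (t := fun i => (B i).filter fun y => G.Adj z y)) _))
  have h3 : (dg G S z : ℝ) ≤ ∑ i, (dg G (B i) z : ℝ) + ((S \ un B).card : ℝ) := by
    unfold dg
    exact_mod_cast h2
  have h4 := h.hX
  linarith

/-- few vertices of `S` have degree below `(R - 5/4) m` -/
theorem few_nonlight (R r : ℕ) (hR : 2 ≤ R) (CB : ℝ) (hCB : 0 < CB) : ∃ C : ℝ, 0 < C ∧
    ∃ m₀ : ℕ, ∀ m : ℕ, m₀ ≤ m →
      ∀ (V : Type) [DecidableEq V] (G : SimpleGraph V) [DecidableRel G.Adj] (S : Finset V),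
        S.card ≤ R * m + r → clq G S (R + 1) = ∅ → TyB G S R m CB →
        ((S.filter fun z => (dg G S z : ℝ) < ((R : ℝ) - 5 / 4) * m).card : ℝ) ≤ C := by
  have hR0 : (2 : ℝ) ≤ R := by exact_mod_cast hR
  have hη : 0 < 1 / (16 * (R : ℝ)) := by positivity
  have hη1 : 1 / (16 * (R : ℝ)) ≤ 1 / 16 := by
    rw [div_le_div_iff₀ (by positivity) (by norm_num)]
    linarith
  obtain ⟨C, hC, h⟩ := exists_LSG R r hR CB (1 / (16 * (R : ℝ))) hCB hη hη1
  obtain ⟨m₀, hm₀⟩ := h (1 / (16 * (R : ℝ))) hη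
  refine ⟨C, hC, m₀ + 1, fun m hm V _ G _ S hS hfree hT => ?_⟩
  obtain ⟨B, hB⟩ := hm₀ m (by omega) V G S hS hfree hT
  refine le_trans ?_ hB.hX
  have hmpos : (0 : ℝ) < m := by exact_mod_cast (by omega : 0 < m)
  have h1 : (S.filter fun z => (dg G S z : ℝ) < ((R : ℝ) - 5 / 4) * m) ⊆ S \ un B := by
    intro z hz
    rw [mem_filter] at hz
    rw [mem_sdiff]
    refine ⟨hz.1, fun hzB => ?_⟩
    obtain ⟨i, hi⟩ := mem_un.1 hzB
    have h2 := light_dg hB hi
    have h3 : ((R : ℝ) - 5 / 4) * m ≤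
        ((R : ℝ) - 1) * (1 - 1 / (16 * (R : ℝ)) - 2 * (1 / (16 * (R : ℝ)))) * m := by
      apply mul_le_mul_of_nonneg_right _ hmpos.le
      have h4 : ((R : ℝ) - 1) * (1 - 1 / (16 * (R : ℝ)) - 2 * (1 / (16 * (R : ℝ)))) =
          (R - 1) - 3 / 16 + 3 / (16 * R) := by
        field_simp
        ring
      rw [h4]
      have h5 : 0 < 3 / (16 * (R : ℝ)) := by positivity
      linarith
    linarith [hz.2]
  exact_mod_cast card_le_card h1

/-- sizes of the sets and of the product -/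
theorem size_facts {V : Type*} [DecidableEq V] {G : SimpleGraph V} [DecidableRel G.Adj] {R m r : ℕ}
    {S : Finset V} {C η₁ δ : ℝ} {B : Fin R → Finset V} (h : LS G S R m C η₁ δ B)
    (hS : S.card ≤ R * m + r) :
    (∑ i, ((B i).card : ℝ) ≤ R * m + r) ∧ ((un B).card = ∑ i, (B i).card) := by
  have h1 : (un B).card = ∑ i, (B i).card := card_biUnion fun i _ j _ hij => h.disj i j hij
  refine ⟨?_, h1⟩
  have h2 : un B ⊆ S := by
    intro z hz
    obtain ⟨i, hi⟩ := mem_un.1 hz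
    exact h.sub i hi
  have h3 := (card_le_card h2).trans hS
  rw [h1] at h3
  exact_mod_cast h3

end H57GH
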