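import Pool.Agent.H57.GH.DiffP
import Pool.Agent.H57.GH.StrG
import Pool.Agent.H57.LC.TSums

/-!
Missing pairs between the light sets; copies of `J` using a pair of points.
-/

namespace H57GH

open Finset H57LC H57LT

set_option linter.unusedSectionVars false

/-- the missing pairs and `DD` -/
theorem sum_DD_eq {V : Type*} [DecidableEq V] {G : SimpleGraph V} [DecidableRel G.Adj] {R : ℕ}
    (B : Fin R → Finset V) (hB : ∀ i, (B i).Nonempty) :
    ∑ f ∈ Fintype.piFinset B, DD G f =
      ∑ i, ∑ j ∈ univ.erase i, (∏ l, ((B l).card : ℝ)) / (((B i).card : ℝ) * (B j).card) *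
        ∑ x ∈ B i, ((hs G (B j) x).card : ℝ) := by
  unfold DD
  rw [Finset.sum_comm]
  refine Finset.sum_congr rfl fun i _ => ?_
  rw [Finset.sum_comm]
  refine Finset.sum_congr rfl fun j hj => ?_
  have hij : i ≠ j := (Finset.mem_erase.1 hj).1.symm
  have hi : ((B i).card : ℝ) ≠ 0 := by
    exact_mod_cast (Finset.card_pos.2 (hB i)).ne'
  have hj0 : ((B j).card : ℝ) ≠ 0 := by
    exact_mod_cast (Finset.card_pos.2 (hB j)).ne'
  have h1 := pair_sum B hij (na G)
  have h2 : ∑ y ∈ B i, ∑ z ∈ B j, na G y z = ∑ x ∈ B i, ((hs G (B j) x).card : ℝ) :=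
    Finset.sum_congr rfl fun y _ => sum_na (B j) y
  rw [h2] at h1
  rw [div_mul_eq_mul_div, eq_div_iff (mul_ne_zero hi hj0), mul_comm]
  exact h1

variable {ι : Type*} [Fintype ι] [DecidableEq ι] (J : SimpleGraph ι) [DecidableRel J.Adj]

/-- move the index `0` of the class of `p` to `p`, that of the class of `q` to `q` -/
private def ClA_e {κ : Type*} [DecidableEq κ] (p q x : Σ _ : κ, ℕ) : Σ _ : κ, ℕ :=
  ⟨x.1, Equiv.swap 0 (if x.1 = p.1 then p.2 else if x.1 = q.1 then q.2 else 0) x.2⟩

/-- number of copies in a complete multipartite graph using a given pair of points of different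
classes, all classes of size at least `b` -/
theorem pair_ge {κ : Type*} [DecidableEq κ] {T : Finset κ} {R b : ℕ} (hT : T.card = R)
    (hb : 1 ≤ b) {a : κ → ℕ} (ha : ∀ k ∈ T, b ≤ a k) {v v' : ι} (hv : J.Adj v v')
    {p q : Σ _ : κ, ℕ} (hp : p ∈ pts T a) (hq : q ∈ pts T a) (hpq : p.1 ≠ q.1) :
    M0 J R b ≤ ((((cm J (pts T a) Sigma.fst).filter fun φ => φ v = p ∧ φ v' = q).card : ℕ) : ℝ) *
      ((R : ℝ) * (R - 1) * (b : ℝ) ^ 2) := by
  have hp1 : p.1 ∈ T ∧ p.2 < a p.1 := by
    have := hp
    rw [pts, Finset.mem_sigma, Finset.mem_range] at this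
    exact this
  have hq1 : q.1 ∈ T ∧ q.2 < a q.1 := by
    have := hq
    rw [pts, Finset.mem_sigma, Finset.mem_range] at this
    exact this
  have hmem : ∀ k ∈ T, (⟨k, 0⟩ : Σ _ : κ, ℕ) ∈ pts T (fun _ => b) := by
    intro k hk
    rw [pts, Finset.mem_sigma, Finset.mem_range]
    exact ⟨hk, hb⟩
  -- the count for the constant class sizes
  have h1 := fJ_pair J (b := b) hT hv (hmem p.1 hp1.1) (hmem q.1 hq1.1) hpq
  rw [fJ_const J hT b] at h1
  -- the embedding
  have hcard : ((cm J (pts T (fun _ => b)) Sigma.fst).filter fun φ =>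
      φ v = (⟨p.1, 0⟩ : Σ _ : κ, ℕ) ∧ φ v' = ⟨q.1, 0⟩).card ≤
      ((cm J (pts T a) Sigma.fst).filter fun φ => φ v = p ∧ φ v' = q).card := by
    refine cm_card_le' J (ClA_e p q) ?_ ?_ ?_ _ _ ?_
    · intro x hx
      rw [pts, Finset.mem_sigma, Finset.mem_range] at hx ⊢
      have hx1 : x.1 ∈ T := hx.1
      have hx2 : x.2 < b := hx.2
      have hba := ha x.1 hx1
      refine ⟨hx1, ?_⟩
      change Equiv.swap 0 (if x.1 = p.1 then p.2 else if x.1 = q.1 then q.2 else 0) x.2 < a x.1
      have hc : (if x.1 = p.1 then p.2 else if x.1 = q.1 then q.2 else 0) < a x.1 := by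
        split_ifs with h2 h3
        · rw [h2]; exact hp1.2
        · rw [h3]; exact hq1.2
        · omega
      generalize (if x.1 = p.1 then p.2 else if x.1 = q.1 then q.2 else 0) = c at hc ⊢
      rw [Equiv.swap_apply_def]
      by_cases e1 : x.2 = 0
      · rw [if_pos e1]
        exact hc
      · rw [if_neg e1]
        by_cases e2 : x.2 = c
        · rw [if_pos e2]
          omega
        · rw [if_neg e2]
          omega
    · intro x _ y _ hxy
      have h2 : (ClA_e p q x).1 = (ClA_e p q y).1 := by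
        rw [hxy]
      change x.1 = y.1 at h2
      obtain ⟨x1, x2⟩ := x
      obtain ⟨y1, y2⟩ := y
      change x1 = y1 at h2
      subst h2
      have h3 : Equiv.swap 0 (if x1 = p.1 then p.2 else if x1 = q.1 then q.2 else 0) x2 =
          Equiv.swap 0 (if x1 = p.1 then p.2 else if x1 = q.1 then q.2 else 0) y2 := by
        have := hxy
        unfold ClA_e at this
        exact (Sigma.mk.inj_iff.1 this).2.eq
      have h4 := (Equiv.injective _) h3
      rw [h4]
    · intro x _ y _ h
      exact h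
    · intro φ _ hφ
      obtain ⟨hφ1, hφ2⟩ := hφ
      constructor
      · change ClA_e p q (φ v) = p
        rw [hφ1]
        unfold ClA_e
        simp
      · change ClA_e p q (φ v') = q
        rw [hφ2]
        unfold ClA_e
        simp [hpq.symm]
  have hR : 1 ≤ R := by
    rw [← hT]
    exact Finset.card_pos.2 ⟨p.1, hp1.1⟩
  have hR' : (1 : ℝ) ≤ R := by exact_mod_cast hR
  rw [← h1]
  refine mul_le_mul_of_nonneg_right ?_ ?_
  · exact_mod_cast hcard
  · have : (0 : ℝ) ≤ (R : ℝ) - 1 := by linarith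
    positivity

end H57GH
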