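import Pool.Agent.H57.GH.Bal
import Pool.Agent.H57.GH.ClA
import Pool.Agent.H57.GH.Thru

/-!
Copies of `J` inside the light sets.
-/

namespace H57GH

open Finset H57LC H57LT

set_option linter.unusedSectionVars false

section ClG_aux

variable {ι : Type*} [Fintype ι] [DecidableEq ι] {V : Type*} [DecidableEq V]

/-- functions with prescribed values on `A` -/
private lemma ClG_fix (U : Finset V) (A : Finset ι) (g : ι → V) :
    ((Fintype.piFinset fun _ : ι => U).filter fun φ => ∀ i ∈ A, φ i = g i).card ≤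
      U.card ^ (Fintype.card ι - A.card) := by
  have h1 : ((Fintype.piFinset fun _ : ι => U).filter fun φ => ∀ i ∈ A, φ i = g i) ⊆
      Fintype.piFinset fun i : ι => if i ∈ A then {g i} else U := by
    intro φ hφ
    rw [mem_filter, Fintype.mem_piFinset] at hφ
    rw [Fintype.mem_piFinset]
    intro i
    split_ifs with h
    · rw [mem_singleton]; exact hφ.2 i h
    · exact hφ.1 i
  refine (card_le_card h1).trans (le_of_eq ?_)
  rw [Fintype.card_piFinset]
  have h2 : ∀ i, (if i ∈ A then ({g i} : Finset V) else U).card =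
      if i ∈ A then 1 else U.card := by
    intro i; split_ifs <;> simp
  simp_rw [h2]
  rw [prod_ite, prod_const_one, one_mul, prod_const]
  congr 1
  have h3 : (univ.filter fun i : ι => i ∉ A) = Aᶜ := by ext; simp
  rw [h3, card_compl]

/-- two missing pairs -/
private lemma ClG_overlap (U : Finset V) (mis : V → Finset V) (D : ℕ)
    (hD : ∀ x ∈ U, (mis x).card ≤ D) {v v' w w' : ι} (hv : v ≠ v') (h1 : w' ≠ v)
    (h2 : w' ≠ v') (h3 : w ≠ w') :
    ((Fintype.piFinset fun _ : ι => U).filter fun φ =>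
      φ v' ∈ mis (φ v) ∧ φ w' ∈ mis (φ w)).card ≤
      (D * U.card ^ (Fintype.card ι - 3)) * ∑ x ∈ U, (mis x).card := by
  have hc : (∑ x ∈ U, (mis x).card) = (U.sigma mis).card := by rw [card_sigma]
  rw [hc]
  refine card_le_mul_card_image_of_maps_to (f := fun φ : ι → V => (⟨φ v, φ v'⟩ : Σ _ : V, V))
    ?_ _ ?_
  · intro φ hφ
    rw [mem_filter, Fintype.mem_piFinset] at hφ
    exact mem_sigma.2 ⟨hφ.1 v, hφ.2.1⟩
  · rintro ⟨x, y⟩ hb
    rw [mem_sigma] at hb
    have hx : x ∈ U := hb.1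
    have h4 : ({v, v', w'} : Finset ι).card = 3 := by
      rw [card_insert_of_notMem, card_insert_of_notMem, card_singleton]
      · simp only [mem_singleton]; exact fun h => h2 h.symm
      · simp only [mem_insert, mem_singleton, not_or]
        exact ⟨hv, fun h => h1 h.symm⟩
    have h5 := ClG_fix U ({v, v', w'} : Finset ι) (fun i => if i = v' then y else x)
    rw [h4] at h5
    refine le_trans (card_le_mul_card_image_of_maps_to
      (f := fun φ : ι → V => Function.update φ w' x)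
      (t := (Fintype.piFinset fun _ : ι => U).filter fun φ =>
        ∀ i ∈ ({v, v', w'} : Finset ι), φ i = if i = v' then y else x) ?_ D ?_)
      (Nat.mul_le_mul le_rfl h5)
    · intro φ hφ
      rw [mem_filter, mem_filter, Fintype.mem_piFinset] at hφ
      obtain ⟨⟨hφ1, hφ2⟩, hφ3⟩ := hφ
      have e1 : φ v = x := congrArg Sigma.fst hφ3
      have e2 : φ v' = y := by
        have := hφ3
        rw [Sigma.mk.injEq] at this
        exact eq_of_heq this.2
      rw [mem_filter, Fintype.mem_piFinset]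
      refine ⟨fun i => ?_, fun i hi => ?_⟩
      · by_cases hi : i = w'
        · subst hi; simpa using hx
        · rw [Function.update_of_ne hi]; exact hφ1 i
      · rw [mem_insert, mem_insert, mem_singleton] at hi
        rcases hi with rfl | rfl | rfl
        · rw [Function.update_of_ne h1.symm, if_neg hv, e1]
        · rw [Function.update_of_ne h2.symm, if_pos rfl, e2]
        · rw [Function.update_self, if_neg h2]
    · intro ψ hψ
      rw [mem_filter, Fintype.mem_piFinset] at hψ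
      refine le_trans (card_le_card_of_injOn (t := mis (ψ w)) (fun φ => φ w') ?_ ?_)
        (hD _ (hψ.1 w))
      · intro φ hφ
        rw [coe_filter, Set.mem_setOf_eq, mem_filter, mem_filter] at hφ
        obtain ⟨⟨⟨_, hφ2⟩, _⟩, hφ4⟩ := hφ
        rw [← hφ4, mem_coe, Function.update_of_ne h3]
        exact hφ2.2
      · intro φ hφ φ' hφ' he
        rw [coe_filter, Set.mem_setOf_eq] at hφ hφ'
        have := hφ.2.trans hφ'.2.symm
        funext i
        by_cases hi : i = w'
        · subst hi; exact he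
        · have h6 := congrFun this i
          rwa [Function.update_of_ne hi, Function.update_of_ne hi] at h6

/-- Bonferroni -/
private lemma ClG_bonf {α : Type*} [DecidableEq α] (K : Finset (α × α)) :
    (K.card : ℝ) / 2 - ((((K ×ˢ K).filter fun q => q.2 ≠ q.1 ∧ q.2 ≠ q.1.swap).card : ℕ) : ℝ) / 4 ≤
      if K.card = 0 then 0 else 1 := by
  by_cases h0 : K.card = 0
  · rw [if_pos h0, h0]
    have : (0 : ℝ) ≤ ((((K ×ˢ K).filter fun q => q.2 ≠ q.1 ∧ q.2 ≠ q.1.swap).card : ℕ) : ℝ) :=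
      Nat.cast_nonneg _
    push_cast
    linarith
  · rw [if_neg h0]
    have h1 : (K.card : ℝ) * ((K.card : ℝ) - 2) ≤
        ((((K ×ˢ K).filter fun q => q.2 ≠ q.1 ∧ q.2 ≠ q.1.swap).card : ℕ) : ℝ) := by
      have h2 : ((K ×ˢ K).filter fun q => q.2 ≠ q.1 ∧ q.2 ≠ q.1.swap).card =
          ∑ f ∈ K, (K.filter fun f' => f' ≠ f ∧ f' ≠ f.swap).card := by
        rw [card_filter, sum_product]
        refine sum_congr rfl fun f _ => ?_
        rw [card_filter]
      rw [h2]
      push_cast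
      have h3 : ∀ f ∈ K, (K.card : ℝ) - 2 ≤
          (((K.filter fun f' => f' ≠ f ∧ f' ≠ f.swap).card : ℕ) : ℝ) := by
        intro f _
        have h4 : (K \ {f, f.swap}) ⊆ K.filter fun f' => f' ≠ f ∧ f' ≠ f.swap := by
          intro f' hf'
          rw [mem_sdiff, mem_insert, mem_singleton, not_or] at hf'
          exact mem_filter.2 hf'
        have h5 : K.card - ({f, f.swap} : Finset (α × α)).card ≤ (K \ {f, f.swap}).card :=
          le_card_sdiff _ _
        have h6 : ({f, f.swap} : Finset (α × α)).card ≤ 2 := card_le_two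
        have h7 := card_le_card h4
        have h8 : K.card ≤ (K.filter fun f' => f' ≠ f ∧ f' ≠ f.swap).card + 2 := by omega
        have h9 : (K.card : ℝ) ≤
            (((K.filter fun f' => f' ≠ f ∧ f' ≠ f.swap).card : ℕ) : ℝ) + 2 := by exact_mod_cast h8
        linarith
      calc (K.card : ℝ) * ((K.card : ℝ) - 2) = ∑ f ∈ K, ((K.card : ℝ) - 2) := by
            rw [sum_const, nsmul_eq_mul]
        _ ≤ _ := sum_le_sum h3
    linarith [sq_nonneg ((K.card : ℝ) - 2)]

private lemma ClG_pi (P Q : Finset V) (i : ι) :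
    ((Fintype.piFinset fun j : ι => if j = i then Q else P).card) =
      Q.card * P.card ^ (Fintype.card ι - 1) := by
  rw [Fintype.card_piFinset]
  have h2 : ∀ j, (if j = i then Q else P).card = if j = i then Q.card else P.card := by
    intro j; split_ifs <;> rfl
  simp_rw [h2]
  rw [prod_ite, prod_const, prod_const]
  have h3 : (univ.filter fun j : ι => j = i) = {i} := by ext; simp
  have h4 : (univ.filter fun j : ι => ¬ j = i) = univ.erase i := by ext; simp
  rw [h3, h4, card_singleton, pow_one, card_erase_of_mem (mem_univ i), card_univ]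

variable (J : SimpleGraph ι) [DecidableRel J.Adj]

private lemma ClG_M0 (R b m : ℕ) (hbm : b ≤ m) :
    M0 J R m - (Fintype.card ι : ℝ) * (R * ((m : ℝ) - b)) *
      ((R : ℝ) * m) ^ (Fintype.card ι - 1) ≤ M0 J R b := by
  have hPm : (pts (univ : Finset (Fin R)) (fun _ => m)).card = R * m := by
    unfold pts; rw [card_sigma]; simp
  have hPb : (pts (univ : Finset (Fin R)) (fun _ => b)).card = R * b := by
    unfold pts; rw [card_sigma]; simp
  have hsub : pts (univ : Finset (Fin R)) (fun _ => b) ⊆ pts (univ : Finset (Fin R)) fun _ => m := by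
    intro x hx
    unfold pts at hx ⊢
    rw [mem_sigma, mem_range] at hx ⊢
    exact ⟨hx.1, lt_of_lt_of_le hx.2 hbm⟩
  have hd : (pts (univ : Finset (Fin R)) (fun _ => m) \
      pts (univ : Finset (Fin R)) fun _ => b).card = R * (m - b) := by
    rw [card_sdiff_of_subset hsub, hPm, hPb, Nat.mul_sub]
  have h1 : cm J (pts (univ : Finset (Fin R)) (fun _ => m)) Sigma.fst ⊆
      cm J (pts (univ : Finset (Fin R)) (fun _ => b)) Sigma.fst ∪
      univ.biUnion fun i : ι => Fintype.piFinset fun j : ι =>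
        if j = i then (pts (univ : Finset (Fin R)) (fun _ => m) \
          pts (univ : Finset (Fin R)) fun _ => b)
        else pts (univ : Finset (Fin R)) (fun _ => m) := by
    intro φ hφ
    unfold cm at hφ
    rw [mem_filter, Fintype.mem_piFinset] at hφ
    rw [mem_union]
    by_cases h : ∀ i, φ i ∈ pts (univ : Finset (Fin R)) (fun _ => b)
    · left
      unfold cm
      rw [mem_filter, Fintype.mem_piFinset]
      exact ⟨h, hφ.2⟩
    · right
      push_neg at h
      obtain ⟨i, hi⟩ := h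
      rw [mem_biUnion]
      refine ⟨i, mem_univ _, ?_⟩
      rw [Fintype.mem_piFinset]
      intro j
      split_ifs with hj
      · subst hj
        exact mem_sdiff.2 ⟨hφ.1 _, hi⟩
      · exact hφ.1 j
  have h2 := (card_le_card h1).trans ((card_union_le _ _).trans
    (Nat.add_le_add_left card_biUnion_le _))
  have h3 : (∑ i : ι, (Fintype.piFinset fun j : ι =>
        if j = i then (pts (univ : Finset (Fin R)) (fun _ => m) \
          pts (univ : Finset (Fin R)) fun _ => b)
        else pts (univ : Finset (Fin R)) (fun _ => m)).card) =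
      Fintype.card ι * ((R * (m - b)) * (R * m) ^ (Fintype.card ι - 1)) := by
    rw [sum_congr rfl fun i _ => ClG_pi _ _ i, sum_const, card_univ, smul_eq_mul, hd, hPm]
  rw [h3] at h2
  have h4 : M0 J R m ≤ M0 J R b +
      ((Fintype.card ι * ((R * (m - b)) * (R * m) ^ (Fintype.card ι - 1)) : ℕ) : ℝ) := by
    unfold M0 fJ
    exact_mod_cast h2
  push_cast [Nat.cast_sub hbm] at h4
  linarith only [h4]

end ClG_aux

section ClG_ls

variable {ι : Type*} [Fintype ι] [DecidableEq ι] (J : SimpleGraph ι) [DecidableRel J.Adj]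
  {V : Type*} [DecidableEq V] {G : SimpleGraph V} [DecidableRel G.Adj]

/-- copies in the classes of a partition using a given pair of points -/
private lemma ClG_pair {R b : ℕ} {B : Fin R → Finset V} {π : V → Fin R}
    (hπ : ∀ i, ∀ z ∈ B i, π z = i) (hb : 1 ≤ b) (ha : ∀ k, b ≤ (B k).card) {v v' : ι}
    (hv : J.Adj v v') {x y : V} (hx : x ∈ un B) (hy : y ∈ un B) (hxy : π x ≠ π y) :
    M0 J R b ≤ ((((cm J (un B) π).filter fun φ => φ v = x ∧ φ v' = y).card : ℕ) : ℝ) *
      ((R : ℝ) * (R - 1) * (b : ℝ) ^ 2) := by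
  classical
  have hB : ∀ z ∈ un B, z ∈ B (π z) := by
    intro z hz
    obtain ⟨i, hi⟩ := mem_un.1 hz
    rw [hπ i z hi]; exact hi
  let e : (Σ _ : Fin R, ℕ) → V := fun p =>
    if h : p.2 < (B p.1).card then ((B p.1).equivFin.symm ⟨p.2, h⟩).1 else x
  let ix : ∀ z, z ∈ un B → (Σ _ : Fin R, ℕ) := fun z hz =>
    ⟨π z, ((B (π z)).equivFin ⟨z, hB z hz⟩).1⟩
  have hix : ∀ z (hz : z ∈ un B), ix z hz ∈ pts (univ : Finset (Fin R)) fun k => (B k).card := by
    intro z hz
    unfold pts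
    rw [mem_sigma, mem_range]
    exact ⟨mem_univ _, ((B (π z)).equivFin ⟨z, hB z hz⟩).2⟩
  have heix : ∀ z (hz : z ∈ un B), e (ix z hz) = z := by
    intro z hz
    have h1 : (ix z hz).2 < (B (ix z hz).1).card := ((B (π z)).equivFin ⟨z, hB z hz⟩).2
    show (if h : (ix z hz).2 < (B (ix z hz).1).card then
      ((B (ix z hz).1).equivFin.symm ⟨(ix z hz).2, h⟩).1 else x) = z
    rw [dif_pos h1]
    have h2 : (⟨(ix z hz).2, h1⟩ : Fin (B (π z)).card) = (B (π z)).equivFin ⟨z, hB z hz⟩ := rfl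
    show ((B (π z)).equivFin.symm ⟨(ix z hz).2, h1⟩).1 = z
    rw [h2, Equiv.symm_apply_apply]
  have he1 : ∀ p ∈ pts (univ : Finset (Fin R)) (fun k => (B k).card), e p ∈ B p.1 := by
    intro p hp
    unfold pts at hp
    rw [mem_sigma, mem_range] at hp
    show (if h : p.2 < (B p.1).card then ((B p.1).equivFin.symm ⟨p.2, h⟩).1 else x) ∈ B p.1
    rw [dif_pos hp.2]
    exact ((B p.1).equivFin.symm ⟨p.2, hp.2⟩).2
  have he2 : ∀ p ∈ pts (univ : Finset (Fin R)) (fun k => (B k).card), π (e p) = p.1 :=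
    fun p hp => hπ _ _ (he1 p hp)
  have h1 := pair_ge J (T := (univ : Finset (Fin R))) (R := R) (b := b) (by simp) hb
    (a := fun k => (B k).card) (fun k _ => ha k) hv (hix x hx) (hix y hy) hxy
  refine h1.trans (mul_le_mul_of_nonneg_right ?_ ?_)
  · norm_cast
    refine cm_card_le' J e (fun p hp => subset_un B _ (he1 p hp)) ?_ ?_ _ _ ?_
    · intro p hp q hq hpq
      have h2 : p.1 = q.1 := by rw [← he2 p hp, ← he2 q hq, hpq]
      obtain ⟨p1, p2⟩ := p
      obtain ⟨q1, q2⟩ := q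
      simp only at h2
      subst h2
      have hp' : p2 < (B p1).card := by
        have := hp; unfold pts at this; rw [mem_coe, mem_sigma, mem_range] at this; exact this.2
      have hq' : q2 < (B p1).card := by
        have := hq; unfold pts at this; rw [mem_coe, mem_sigma, mem_range] at this; exact this.2
      have h3 : e ⟨p1, p2⟩ = ((B p1).equivFin.symm ⟨p2, hp'⟩).1 := dif_pos hp'
      have h4 : e ⟨p1, q2⟩ = ((B p1).equivFin.symm ⟨q2, hq'⟩).1 := dif_pos hq'
      rw [h3, h4] at hpq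
      have h5 := (B p1).equivFin.symm.injective (Subtype.ext hpq)
      rw [Fin.mk.injEq] at h5
      rw [h5]
    · intro p hp q hq hpq
      rw [he2 p hp, he2 q hq]; exact hpq
    · intro φ _ hφ
      refine ⟨?_, ?_⟩
      · show e (φ v) = x
        rw [hφ.1]; exact heix x hx
      · show e (φ v') = y
        rw [hφ.2]; exact heix y hy
  · have hR : (1 : ℝ) ≤ R := by
      have := (π x).2
      exact_mod_cast (show 1 ≤ R by omega)
    have : (0 : ℝ) ≤ (R : ℝ) - 1 := by linarith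
    positivity

/-- the number of copies of `J` in a class structure with missing pairs -/
private lemma ClG_core {R b D : ℕ} {B : Fin R → Finset V} {π : V → Fin R}
    (hπ : ∀ i, ∀ z ∈ B i, π z = i) (hind : ∀ i, ∀ x ∈ B i, ∀ y ∈ B i, ¬ G.Adj x y)
    (hb : 1 ≤ b) (ha : ∀ k, b ≤ (B k).card)
    (hD : ∀ x ∈ un B, ((un B).filter fun y => π y ≠ π x ∧ ¬ G.Adj x y).card ≤ D) (hR : 2 ≤ R) :
    ((emb J G (un B)).card : ℝ) ≤ fJ J univ (fun i => (B i).card) -
      (oe J : ℝ) * (∑ x ∈ un B, ((((un B).filter fun y => π y ≠ π x ∧ ¬ G.Adj x y).card : ℕ) : ℝ)) *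
        (M0 J R b / ((R : ℝ) * (R - 1) * (b : ℝ) ^ 2)) / 2 +
      (oe J : ℝ) ^ 2 *
        ((∑ x ∈ un B, ((((un B).filter fun y => π y ≠ π x ∧ ¬ G.Adj x y).card : ℕ) : ℝ)) *
        (D * if 3 ≤ Fintype.card ι then ((un B).card : ℝ) ^ (Fintype.card ι - 3) else 0)) / 4 := by
  classical
  set U := un B with hU
  set mis : V → Finset V := fun x => U.filter fun y => π y ≠ π x ∧ ¬ G.Adj x y with hmis
  set E : Finset (ι × ι) := univ.filter fun p : ι × ι => J.Adj p.1 p.2 with hE
  have hBπ : ∀ z ∈ U, z ∈ B (π z) := by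
    intro z hz
    obtain ⟨i, hi⟩ := mem_un.1 hz
    rw [hπ i z hi]; exact hi
  have hoe : (oe J : ℝ) = (E.card : ℝ) := rfl
  have hcm : (fJ J univ (fun i => (B i).card)) = (cm J U π).card := by
    rw [cm_eq_fJ J U π univ (fun _ _ => mem_univ _)]
    congr 1
    funext k
    congr 1
    ext z
    rw [mem_filter]
    constructor
    · intro hz; exact ⟨subset_un B k hz, hπ k z hz⟩
    · rintro ⟨h1, h2⟩; rw [← h2]; exact hBπ z h1
  have hsub : emb J G U ⊆ cm J U π := by
    intro φ hφ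
    unfold emb at hφ
    unfold cm
    rw [mem_filter] at hφ ⊢
    refine ⟨hφ.1, hφ.2.1, fun i j hij he => ?_⟩
    have h1 : φ i ∈ U := Fintype.mem_piFinset.1 hφ.1 i
    have h2 : φ j ∈ U := Fintype.mem_piFinset.1 hφ.1 j
    have h3 := hBπ _ h1
    have h4 := hBπ _ h2
    rw [← he] at h4
    exact hind _ _ h3 _ h4 (hφ.2.2 i j hij)
  -- missing edges of a map
  let K : (ι → V) → Finset (ι × ι) := fun φ => E.filter fun p => φ p.2 ∈ mis (φ p.1)
  have hbad : ∀ φ ∈ cm J U π, φ ∉ emb J G U → (K φ).card ≠ 0 := by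
    intro φ hφ hne h0
    rw [card_eq_zero] at h0
    apply hne
    unfold cm at hφ
    unfold emb
    rw [mem_filter] at hφ ⊢
    refine ⟨hφ.1, hφ.2.1, fun i j hij => ?_⟩
    by_contra hadj
    have h1 : (i, j) ∈ K φ := by
      refine mem_filter.2 ⟨mem_filter.2 ⟨mem_univ _, hij⟩, ?_⟩
      exact mem_filter.2 ⟨Fintype.mem_piFinset.1 hφ.1 j, (hφ.2.2 i j hij).symm, hadj⟩
    rw [h0] at h1
    exact absurd h1 (notMem_empty _)
  have hgood : ∀ φ ∈ emb J G U, (K φ).card = 0 := by
    intro φ hφ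
    rw [card_eq_zero, filter_eq_empty_iff]
    intro p hp hm
    unfold emb at hφ
    rw [mem_filter] at hφ
    exact (mem_filter.1 hm).2.2 (hφ.2.2 _ _ (mem_filter.1 hp).2)
  -- sum of Bonferroni
  have h1 : ∑ φ ∈ cm J U π, ((K φ).card : ℝ) / 2 -
      ∑ φ ∈ cm J U π, (((((K φ) ×ˢ (K φ)).filter fun q => q.2 ≠ q.1 ∧ q.2 ≠ q.1.swap).card : ℕ) :
        ℝ) / 4 ≤ ((cm J U π).card : ℝ) - (emb J G U).card := by
    rw [← sum_sub_distrib]
    calc _ ≤ ∑ φ ∈ cm J U π, (if (K φ).card = 0 then (0 : ℝ) else 1) :=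
          sum_le_sum fun φ _ => ClG_bonf (K φ)
      _ ≤ ∑ φ ∈ cm J U π, (if φ ∈ emb J G U then (0 : ℝ) else 1) := by
          refine sum_le_sum fun φ hφ => ?_
          by_cases h : φ ∈ emb J G U
          · rw [if_pos h, if_pos (hgood φ h)]
          · rw [if_neg h]; split_ifs <;> norm_num
      _ = _ := by
          have h2 : (∑ φ ∈ cm J U π, (if φ ∈ emb J G U then (0 : ℝ) else 1)) =
              ((((cm J U π) \ emb J G U).card : ℕ) : ℝ) := by
            rw [← filter_notMem_eq_sdiff, card_filter]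
            push_cast
            refine sum_congr rfl fun φ _ => ?_
            by_cases h : φ ∈ emb J G U <;> simp [h]
          rw [h2, card_sdiff_of_subset hsub, Nat.cast_sub (card_le_card hsub)]
  -- the main term
  have hq : ∀ p ∈ E, (∑ x ∈ U, ((mis x).card : ℝ)) * (M0 J R b / ((R : ℝ) * (R - 1) * (b : ℝ) ^ 2)) ≤
      ((((cm J U π).filter fun φ => φ p.2 ∈ mis (φ p.1)).card : ℕ) : ℝ) := by
    intro p hp
    have hpJ : J.Adj p.1 p.2 := (mem_filter.1 hp).2
    have h3 : ((cm J U π).filter fun φ => φ p.2 ∈ mis (φ p.1)).card =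
        ∑ c ∈ U.sigma mis, (((cm J U π).filter fun φ => φ p.2 ∈ mis (φ p.1)).filter fun φ =>
          (⟨φ p.1, φ p.2⟩ : Σ _ : V, V) = c).card := by
      refine card_eq_sum_card_fiberwise fun φ hφ => ?_
      rw [coe_filter, Set.mem_setOf_eq] at hφ
      have h4 := hφ.1
      unfold cm at h4
      rw [mem_filter, Fintype.mem_piFinset] at h4
      exact mem_coe.2 (mem_sigma.2 ⟨h4.1 _, hφ.2⟩)
    rw [h3]
    push_cast
    have h5 : (∑ x ∈ U, ((mis x).card : ℝ)) = ((U.sigma mis).card : ℝ) := by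
      rw [card_sigma]; push_cast; rfl
    rw [h5, ← nsmul_eq_mul, ← sum_const]
    refine sum_le_sum ?_
    rintro ⟨x, y⟩ hc
    rw [mem_sigma] at hc
    have hy := mem_filter.1 hc.2
    have hb' : (0 : ℝ) < b := by exact_mod_cast hb
    have hR' : (2 : ℝ) ≤ R := by exact_mod_cast hR
    have hpos : 0 < (R : ℝ) * (R - 1) * (b : ℝ) ^ 2 := by
      have : 0 < (R : ℝ) - 1 := by linarith
      positivity
    rw [div_le_iff₀ hpos]
    refine (ClG_pair J hπ hb ha hpJ (x := x) (y := y) hc.1 hy.1 (fun h => hy.2.1 h.symm)).trans ?_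
    refine mul_le_mul_of_nonneg_right ?_ hpos.le
    norm_cast
    refine card_le_card fun φ hφ => ?_
    rw [mem_filter] at hφ
    rw [mem_filter, mem_filter]
    refine ⟨⟨hφ.1, ?_⟩, ?_⟩
    · rw [hφ.2.1, hφ.2.2]; exact hc.2
    · rw [hφ.2.1, hφ.2.2]
  have hmain : (E.card : ℝ) * ((∑ x ∈ U, ((mis x).card : ℝ)) *
      (M0 J R b / ((R : ℝ) * (R - 1) * (b : ℝ) ^ 2))) ≤ ∑ φ ∈ cm J U π, ((K φ).card : ℝ) := by
    have h6 : ∑ φ ∈ cm J U π, ((K φ).card : ℝ) =
        ∑ p ∈ E, ((((cm J U π).filter fun φ => φ p.2 ∈ mis (φ p.1)).card : ℕ) : ℝ) := by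
      simp only [K, card_filter]
      push_cast
      exact sum_comm
    rw [h6, ← nsmul_eq_mul, ← sum_const]
    exact sum_le_sum hq
  -- the overlaps
  have hov : ∑ φ ∈ cm J U π, (((((K φ) ×ˢ (K φ)).filter fun q => q.2 ≠ q.1 ∧
      q.2 ≠ q.1.swap).card : ℕ) : ℝ) ≤ (E.card : ℝ) ^ 2 * ((∑ x ∈ U, ((mis x).card : ℝ)) *
        (D * if 3 ≤ Fintype.card ι then (U.card : ℝ) ^ (Fintype.card ι - 3) else 0)) := by
    have h7 : ∑ φ ∈ cm J U π, (((((K φ) ×ˢ (K φ)).filter fun q => q.2 ≠ q.1 ∧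
        q.2 ≠ q.1.swap).card : ℕ) : ℝ) =
        ∑ q ∈ (E ×ˢ E).filter fun q => q.2 ≠ q.1 ∧ q.2 ≠ q.1.swap,
          ((((cm J U π).filter fun φ => φ q.1.2 ∈ mis (φ q.1.1) ∧
            φ q.2.2 ∈ mis (φ q.2.1)).card : ℕ) : ℝ) := by
      have h8 : ∀ φ, (((K φ) ×ˢ (K φ)).filter fun q => q.2 ≠ q.1 ∧ q.2 ≠ q.1.swap) =
          ((E ×ˢ E).filter fun q => q.2 ≠ q.1 ∧ q.2 ≠ q.1.swap).filter fun q =>
            φ q.1.2 ∈ mis (φ q.1.1) ∧ φ q.2.2 ∈ mis (φ q.2.1) := by
        intro φ
        ext q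
        simp only [K, mem_filter, mem_product]
        constructor
        · rintro ⟨⟨⟨a1, a2⟩, a3, a4⟩, a5⟩
          exact ⟨⟨⟨a1, a3⟩, a5⟩, a2, a4⟩
        · rintro ⟨⟨⟨a1, a3⟩, a5⟩, a2, a4⟩
          exact ⟨⟨⟨a1, a2⟩, a3, a4⟩, a5⟩
      simp only [h8]
      simp only [card_filter _ ((E ×ˢ E).filter fun q => q.2 ≠ q.1 ∧ q.2 ≠ q.1.swap),
        card_filter _ (cm J U π)]
      push_cast
      exact sum_comm
    rw [h7]
    have h9 : ∀ q ∈ (E ×ˢ E).filter fun q => q.2 ≠ q.1 ∧ q.2 ≠ q.1.swap,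
        ((((cm J U π).filter fun φ => φ q.1.2 ∈ mis (φ q.1.1) ∧
            φ q.2.2 ∈ mis (φ q.2.1)).card : ℕ) : ℝ) ≤ (∑ x ∈ U, ((mis x).card : ℝ)) *
        (D * if 3 ≤ Fintype.card ι then (U.card : ℝ) ^ (Fintype.card ι - 3) else 0) := by
      rintro ⟨⟨v, v'⟩, ⟨w, w'⟩⟩ hq'
      simp only [mem_filter, mem_product, hE, mem_univ, true_and, Prod.swap, ne_eq,
        Prod.mk.injEq, not_and] at hq'
      obtain ⟨⟨hv, hw⟩, hn1, hn2⟩ := hq'
      have hvne : v ≠ v' := hv.ne
      have hwne : w ≠ w' := hw.ne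
      -- one of `w`, `w'` is new
      have hnew : (w' ≠ v ∧ w' ≠ v') ∨ (w ≠ v ∧ w ≠ v') := by
        by_contra hcon
        rw [not_or] at hcon
        obtain ⟨c1, c2⟩ := hcon
        have d1 : w' = v ∨ w' = v' := or_iff_not_and_not.2 c1
        have d2 : w = v ∨ w = v' := or_iff_not_and_not.2 c2
        rcases d1 with d1 | d1 <;> rcases d2 with d2 | d2
        · exact hwne (d2.trans d1.symm)
        · exact hn2 d2 d1
        · exact hn1 d2 d1
        · exact hwne (d2.trans d1.symm)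
      have hsymm : ∀ x ∈ U, ∀ y ∈ U, y ∈ mis x → x ∈ mis y := by
        intro x hx y _ hxy
        have := mem_filter.1 hxy
        exact mem_filter.2 ⟨hx, fun h => this.2.1 h.symm, fun h => this.2.2 h.symm⟩
      have h3 : 3 ≤ Fintype.card ι := by
        rcases hnew with ⟨c1, c2⟩ | ⟨c1, c2⟩
        · have h4 : ({v, v', w'} : Finset ι).card = 3 := by
            rw [card_insert_of_notMem, card_insert_of_notMem, card_singleton]
            · simp only [mem_singleton]; exact fun h => c2 h.symm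
            · simp only [mem_insert, mem_singleton, not_or]
              exact ⟨hvne, fun h => c1 h.symm⟩
          rw [← h4]; exact card_le_univ _
        · have h4 : ({v, v', w} : Finset ι).card = 3 := by
            rw [card_insert_of_notMem, card_insert_of_notMem, card_singleton]
            · simp only [mem_singleton]; exact fun h => c2 h.symm
            · simp only [mem_insert, mem_singleton, not_or]
              exact ⟨hvne, fun h => c1 h.symm⟩
          rw [← h4]; exact card_le_univ _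
      rw [if_pos h3]
      have key : ((cm J U π).filter fun φ => φ v' ∈ mis (φ v) ∧ φ w' ∈ mis (φ w)).card ≤
          (D * U.card ^ (Fintype.card ι - 3)) * ∑ x ∈ U, (mis x).card := by
        rcases hnew with ⟨c1, c2⟩ | ⟨c1, c2⟩
        · refine le_trans (card_le_card fun φ hφ => ?_)
            (ClG_overlap U mis D (fun x hx => hD x hx) hvne c1 c2 hwne)
          rw [mem_filter] at hφ ⊢
          have := hφ.1
          unfold cm at this
          exact ⟨(mem_filter.1 this).1, hφ.2⟩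
        · refine le_trans (card_le_card fun φ hφ => ?_)
            (ClG_overlap U mis D (fun x hx => hD x hx) hvne c1 c2 hwne.symm)
          rw [mem_filter] at hφ ⊢
          have := hφ.1
          unfold cm at this
          have h10 := (mem_filter.1 this).1
          have h11 := Fintype.mem_piFinset.1 h10
          exact ⟨h10, hφ.2.1, hsymm _ (h11 _) _ (h11 _) hφ.2.2⟩
      have key2 : ((((cm J U π).filter fun φ => φ v' ∈ mis (φ v) ∧
          φ w' ∈ mis (φ w)).card : ℕ) : ℝ) ≤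
          (((D * U.card ^ (Fintype.card ι - 3)) * ∑ x ∈ U, (mis x).card : ℕ) : ℝ) := by
        exact_mod_cast key
      push_cast at key2
      refine key2.trans (le_of_eq ?_)
      ring
    refine (sum_le_sum h9).trans ?_
    rw [sum_const, nsmul_eq_mul]
    refine mul_le_mul_of_nonneg_right ?_ ?_
    · have h12 : ((E ×ˢ E).filter fun q => q.2 ≠ q.1 ∧ q.2 ≠ q.1.swap).card ≤ E.card * E.card := by
        rw [← card_product]; exact card_filter_le _ _
      have h13 : ((((E ×ˢ E).filter fun q => q.2 ≠ q.1 ∧ q.2 ≠ q.1.swap).card : ℕ) : ℝ) ≤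
          ((E.card * E.card : ℕ) : ℝ) := by exact_mod_cast h12
      push_cast at h13
      rw [sq]; exact h13
    · refine mul_nonneg (sum_nonneg fun _ _ => Nat.cast_nonneg _) (mul_nonneg (Nat.cast_nonneg _) ?_)
      split_ifs <;> positivity
  rw [← sum_div, ← sum_div] at h1
  rw [hcm, hoe]
  have h14 : (E.card : ℝ) * (∑ x ∈ U, ((mis x).card : ℝ)) *
      (M0 J R b / ((R : ℝ) * (R - 1) * (b : ℝ) ^ 2)) / 2 ≤
      (∑ φ ∈ cm J U π, ((K φ).card : ℝ)) / 2 := by
    rw [mul_assoc]; linarith only [hmain]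
  have h15 : ∑ φ ∈ cm J U π, (((((K φ) ×ˢ (K φ)).filter fun q => q.2 ≠ q.1 ∧
      q.2 ≠ q.1.swap).card : ℕ) : ℝ) / 4 = (∑ φ ∈ cm J U π, (((((K φ) ×ˢ (K φ)).filter fun q =>
        q.2 ≠ q.1 ∧ q.2 ≠ q.1.swap).card : ℕ) : ℝ)) / 4 := by rw [sum_div]
  linarith only [h1, h14, hov, hmain]

end ClG_ls

variable {ι : Type*} [Fintype ι] [DecidableEq ι] (J : SimpleGraph ι) [DecidableRel J.Adj]

/-- here `γ = s/(R(R-1))` -/
theorem card_emb_un_le (hd : ∀ v, 1 ≤ dg J univ v) (hcs : 2 ≤ Fintype.card ι) (R r : ℕ)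
    (hR : 3 ≤ R) (C η₁ : ℝ) (hC : 0 < C) (hη₁ : 0 < η₁)
    (hM : ∀ m : ℕ, 1 ≤ m → ((R : ℝ) * m) ^ Fintype.card ι ≤ 2 * M0 J R m)
    (hη : 4096 * (Fintype.card ι : ℝ) ^ 4 * R ^ 4 * η₁ ≤ 1) :
    ∃ δ₀ : ℝ, 0 < δ₀ ∧ ∀ δ : ℝ, 0 < δ → δ ≤ δ₀ → ∃ m₀ : ℕ, ∀ m : ℕ, m₀ ≤ m →
      ∀ (V : Type) [DecidableEq V] (G : SimpleGraph V) [DecidableRel G.Adj] (S : Finset V)
        (B : Fin R → Finset V), S.card ≤ R * m + r → LS G S R m C η₁ δ B →
        ((emb J G (un B)).card : ℝ) ≤ fJ J univ (fun i => (B i).card) -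
          M0 J R m * (7 / 16 * ((Fintype.card ι : ℝ) / (R * (R - 1)))) *
            (∑ f ∈ Fintype.piFinset B, DD G f) / (∏ l, ((B l).card : ℝ)) := by
  classical
  set s : ℝ := (Fintype.card ι : ℝ) with hs_def
  have hs2 : (2 : ℝ) ≤ s := by rw [hs_def]; exact_mod_cast hcs
  have hR3 : (3 : ℝ) ≤ R := by exact_mod_cast hR
  refine ⟨1 / (256 * s), by positivity, fun δ hδ hδ0 => ?_⟩
  refine ⟨⌈256 * s⌉₊, fun m hm V _ G _ S B hS hLS => ?_⟩
  have hm256 : 256 * s ≤ (m : ℝ) := Nat.ceil_le.1 hm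
  have hm512 : (512 : ℝ) ≤ m := by linarith
  have hm1 : 1 ≤ m := by exact_mod_cast (show (1 : ℝ) ≤ m by linarith)
  have hmpos : (0 : ℝ) < m := by linarith
  have hδs : δ * s ≤ 1 / 256 := by
    have := (le_div_iff₀ (show (0 : ℝ) < 256 * s by positivity)).1 hδ0
    linarith
  have hδ1 : δ ≤ 1 / 512 := by
    have : δ * 2 ≤ δ * s := mul_le_mul_of_nonneg_left hs2 hδ.le
    linarith
  set b : ℕ := ⌊(1 - δ) * m⌋₊ with hb_def
  have hbr : (b : ℝ) ≤ (1 - δ) * m := Nat.floor_le (mul_nonneg (by linarith only [hδ1]) hmpos.le)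
  have hbr' : (1 - δ) * m < b + 1 := Nat.lt_floor_add_one _
  have hb1 : 1 ≤ b := by
    refine Nat.le_floor ?_
    push_cast
    have h1 : (1 / 2 : ℝ) * m ≤ (1 - δ) * m :=
      mul_le_mul_of_nonneg_right (by linarith only [hδ1]) hmpos.le
    linarith only [h1, hm512]
  have hbm : b ≤ m := by
    have : (b : ℝ) ≤ m := by
      have h1 := mul_nonneg hδ.le hmpos.le
      linarith only [hbr, h1]
    exact_mod_cast this
  have hcard : ∀ k, b ≤ (B k).card := by
    intro k
    have := hLS.size_lo k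
    exact_mod_cast (hbr.trans this)
  have hBne : ∀ k, (B k).Nonempty := by
    intro k
    rw [← card_pos]
    exact lt_of_lt_of_le (by omega) (hcard k)
  have hR0 : 0 < R := by omega
  -- class function
  let π : V → Fin R := fun z => if h : ∃ i, z ∈ B i then h.choose else ⟨0, hR0⟩
  have hπ : ∀ i, ∀ z ∈ B i, π z = i := by
    intro i z hz
    have h : ∃ i, z ∈ B i := ⟨i, hz⟩
    have h1 : π z = h.choose := dif_pos h
    rw [h1]
    by_contra hne
    exact (disjoint_left.1 (hLS.disj _ _ hne)) h.choose_spec hz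
  -- missing rows
  have hrow : ∀ i, ∀ x ∈ B i, ((un B).filter fun y => π y ≠ π x ∧ ¬ G.Adj x y).card =
      ∑ j ∈ univ.erase i, (hs G (B j) x).card := by
    intro i x hx
    rw [← card_biUnion]
    · congr 1
      ext y
      rw [mem_filter, mem_biUnion, hπ i x hx]
      constructor
      · rintro ⟨h1, h2, h3⟩
        obtain ⟨j, hj⟩ := mem_un.1 h1
        refine ⟨j, mem_erase.2 ⟨?_, mem_univ _⟩, mem_hs.2 ⟨hj, h3⟩⟩
        rw [hπ j y hj] at h2; exact h2
      · rintro ⟨j, h1, h2⟩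
        have h3 := mem_hs.1 h2
        refine ⟨subset_un B j h3.1, ?_, h3.2⟩
        rw [hπ j y h3.1]; exact (mem_erase.1 h1).1
    · intro j _ k _ hjk
      exact disjoint_of_subset_left (hs_subset _ _)
        (disjoint_of_subset_right (hs_subset _ _) (hLS.disj j k hjk))
  set D : ℕ := ⌊2 * R * η₁ * m⌋₊ with hD_def
  have hDr : (D : ℝ) ≤ 2 * R * η₁ * m := Nat.floor_le (by positivity)
  have hD : ∀ x ∈ un B, ((un B).filter fun y => π y ≠ π x ∧ ¬ G.Adj x y).card ≤ D := by
    intro x hx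
    obtain ⟨i, hi⟩ := mem_un.1 hx
    refine Nat.le_floor ?_
    rw [hrow i x hi]
    push_cast
    calc ∑ j ∈ univ.erase i, ((hs G (B j) x).card : ℝ)
        ≤ ∑ j ∈ univ.erase i, 2 * η₁ * m :=
          sum_le_sum fun j hj => hLS.row i j (mem_erase.1 hj).1.symm x hi
      _ ≤ ∑ j : Fin R, 2 * η₁ * m :=
          sum_le_sum_of_subset_of_nonneg (erase_subset _ _) fun _ _ _ => by positivity
      _ = 2 * R * η₁ * m := by rw [sum_const, card_univ, Fintype.card_fin, nsmul_eq_mul]; ring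
  have hcore := ClG_core J (G := G) hπ (fun i x hx y hy => hLS.ind i x hx y hy) hb1 hcard hD
    (by omega)
  set mo : ℝ := ∑ x ∈ un B, ((((un B).filter fun y => π y ≠ π x ∧ ¬ G.Adj x y).card : ℕ) : ℝ)
    with hmo_def
  have hmo0 : 0 ≤ mo := sum_nonneg fun _ _ => Nat.cast_nonneg _
  have hmo : mo = ∑ i, ∑ j ∈ univ.erase i, ∑ x ∈ B i, ((hs G (B j) x).card : ℝ) := by
    rw [hmo_def]
    unfold un
    rw [sum_biUnion (fun i _ j _ hij => hLS.disj i j hij)]
    refine sum_congr rfl fun i _ => ?_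
    rw [sum_comm]
    refine sum_congr rfl fun x hx => ?_
    have := hrow i x hx
    unfold un at this
    rw [this]
    push_cast
    rfl
  -- the sum of `DD`
  have hP : (0 : ℝ) < ∏ l, ((B l).card : ℝ) :=
    prod_pos fun l _ => by exact_mod_cast (card_pos.2 (hBne l))
  have haux : ∀ P c d : ℝ, P ≠ 0 → P / c * d / P = d / c := by
    intro P c d hP0
    rw [div_mul_eq_mul_div, div_div, mul_comm c P, mul_div_mul_left _ _ hP0]
  have hDD : (∑ f ∈ Fintype.piFinset B, DD G f) / (∏ l, ((B l).card : ℝ)) ≤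
      mo / ((1 - δ) * m) ^ 2 := by
    rw [sum_DD_eq B hBne, hmo, sum_div, sum_div]
    refine sum_le_sum fun i _ => ?_
    rw [sum_div, sum_div]
    refine sum_le_sum fun j _ => ?_
    have h1 : (1 - δ) * m ≤ ((B i).card : ℝ) := hLS.size_lo i
    have h2 : (1 - δ) * m ≤ ((B j).card : ℝ) := hLS.size_lo j
    have h0 : 0 < (1 - δ) * (m : ℝ) := mul_pos (by linarith only [hδ, hδ1]) hmpos
    have h3 : 0 ≤ ∑ x ∈ B i, ((hs G (B j) x).card : ℝ) := sum_nonneg fun _ _ => Nat.cast_nonneg _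
    have h4 : ((1 - δ) * (m : ℝ)) ^ 2 ≤ ((B i).card : ℝ) * (B j).card := by
      rw [sq]; exact mul_le_mul h1 h2 h0.le (h0.le.trans h1)
    have h5 : (0 : ℝ) < ((B i).card : ℝ) * (B j).card := lt_of_lt_of_le (by positivity) h4
    calc (∏ l, ((B l).card : ℝ)) / (((B i).card : ℝ) * (B j).card) *
          (∑ x ∈ B i, ((hs G (B j) x).card : ℝ)) / (∏ l, ((B l).card : ℝ))
        = (∑ x ∈ B i, ((hs G (B j) x).card : ℝ)) / (((B i).card : ℝ) * (B j).card) :=
          haux _ _ _ hP.ne'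
      _ ≤ _ := div_le_div_of_nonneg_left h3 (by positivity) h4
  -- the size of `un B`
  have hU : ((un B).card : ℝ) ≤ (1 + δ) * (R * m) := by
    unfold un
    calc (((univ : Finset (Fin R)).biUnion B).card : ℝ) ≤ ((∑ i, (B i).card : ℕ) : ℝ) := by
          exact_mod_cast card_biUnion_le
      _ = ∑ i, ((B i).card : ℝ) := by push_cast; rfl
      _ ≤ ∑ i : Fin R, (1 + δ) * (m : ℝ) := sum_le_sum fun i _ => hLS.size_hi i
      _ = (1 + δ) * (R * m) := by rw [sum_const, card_univ, Fintype.card_fin, nsmul_eq_mul]; ring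
  set W : ℝ := if 3 ≤ Fintype.card ι then ((un B).card : ℝ) ^ (Fintype.card ι - 3) else 0
    with hW_def
  have hRm : (0 : ℝ) < R * m := by positivity
  have hM0 : (R * (m : ℝ)) ^ Fintype.card ι ≤ 2 * M0 J R m := hM m hm1
  have hM0pos : 0 < M0 J R m := by
    have : 0 < (R * (m : ℝ)) ^ Fintype.card ι := by positivity
    linarith only [hM0, this]
  have hWle : W * (R * (m : ℝ)) ^ 3 ≤ 4 * M0 J R m := by
    rw [hW_def]
    split_ifs with h3
    · have h4 : ((un B).card : ℝ) ^ (Fintype.card ι - 3) ≤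
          2 * (R * (m : ℝ)) ^ (Fintype.card ι - 3) := by
        refine (pow_le_pow_left₀ (Nat.cast_nonneg _) hU _).trans ?_
        rw [mul_pow]
        refine mul_le_mul_of_nonneg_right ?_ (by positivity)
        set n := Fintype.card ι - 3
        have hn : (n : ℝ) ≤ s := by
          rw [hs_def]; exact_mod_cast (Nat.sub_le _ _)
        have h5 : 1 + (n : ℝ) * (-δ) ≤ (1 + (-δ)) ^ n :=
          one_add_mul_le_pow (by linarith only [hδ, hδ1]) n
        have h6 : (1 + δ) ^ n * (1 + (-δ)) ^ n ≤ 1 := by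
          rw [← mul_pow]
          exact pow_le_one₀ (mul_nonneg (by linarith only [hδ]) (by linarith only [hδ1]))
            (by linarith only [mul_self_nonneg δ])
        have h7 : (n : ℝ) * δ ≤ 1 / 256 := by
          have h71 := mul_le_mul_of_nonneg_right hn hδ.le
          linarith only [h71, hδs]
        have h8 : (0 : ℝ) < (1 + δ) ^ n := by positivity
        have h9 : (1 + δ) ^ n * (1 + (n : ℝ) * (-δ)) ≤ (1 + δ) ^ n * (1 + (-δ)) ^ n :=
          mul_le_mul_of_nonneg_left h5 h8.le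
        have h10 : (1 + δ) ^ n * (255 / 256) ≤ (1 + δ) ^ n * (1 + (n : ℝ) * (-δ)) :=
          mul_le_mul_of_nonneg_left (by linarith only [h7]) h8.le
        linarith only [h9, h10, h6]
      calc ((un B).card : ℝ) ^ (Fintype.card ι - 3) * (R * (m : ℝ)) ^ 3
          ≤ 2 * (R * (m : ℝ)) ^ (Fintype.card ι - 3) * (R * (m : ℝ)) ^ 3 :=
            mul_le_mul_of_nonneg_right h4 (by positivity)
        _ = 2 * (R * (m : ℝ)) ^ Fintype.card ι := by
            rw [mul_assoc, ← pow_add]; congr 2; omega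
        _ ≤ _ := by linarith only [hM0]
    · rw [zero_mul]; positivity
  -- `M0` at `b`
  have hMb : 63 / 64 * M0 J R m ≤ M0 J R b := by
    have h1 := ClG_M0 J R b m hbm
    have h2 : (Fintype.card ι : ℝ) * (R * ((m : ℝ) - b)) *
        ((R : ℝ) * m) ^ (Fintype.card ι - 1) ≤ 1 / 64 * M0 J R m := by
      have h3 : (m : ℝ) - b ≤ δ * m + 1 := by linarith only [hbr']
      have h4 : s * (δ * m + 1) ≤ 1 / 128 * m := by
        have h41 := mul_le_mul_of_nonneg_right hδs hmpos.le
        linarith only [h41, hm256]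
      have h5 : (0 : ℝ) ≤ ((R : ℝ) * m) ^ (Fintype.card ι - 1) := by positivity
      have h6 : (R : ℝ) * m * ((R : ℝ) * m) ^ (Fintype.card ι - 1) =
          ((R : ℝ) * m) ^ Fintype.card ι := by
        rw [← pow_succ']; congr 1; omega
      calc (Fintype.card ι : ℝ) * (R * ((m : ℝ) - b)) * ((R : ℝ) * m) ^ (Fintype.card ι - 1)
          = R * (s * ((m : ℝ) - b)) * ((R : ℝ) * m) ^ (Fintype.card ι - 1) := by
            rw [hs_def]; ring
        _ ≤ R * (1 / 128 * m) * ((R : ℝ) * m) ^ (Fintype.card ι - 1) := by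
            refine mul_le_mul_of_nonneg_right (mul_le_mul_of_nonneg_left ?_ (by positivity)) h5
            refine (mul_le_mul_of_nonneg_left h3 (by linarith only [hs2, hδ, hδ1])).trans h4
        _ = 1 / 128 * ((R : ℝ) * m) ^ Fintype.card ι := by rw [← h6]; ring
        _ ≤ _ := by linarith only [hM0]
    linarith only [h1, h2]
  have hoe : s ≤ (oe J : ℝ) := by rw [hs_def]; exact_mod_cast card_le_oe J hd
  have hoe2 : (oe J : ℝ) ≤ s ^ 2 := by
    rw [hs_def]
    have h1 : oe J ≤ Fintype.card ι * Fintype.card ι := by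
      unfold oe
      refine (card_filter_le _ _).trans (le_of_eq ?_)
      rw [card_univ, Fintype.card_prod]
    rw [sq]; exact_mod_cast h1
  -- numbers
  set N : ℝ := M0 J R m / (R * (R - 1) * (m : ℝ) ^ 2) with hN_def
  have hR1 : (0 : ℝ) < R * (R - 1) := mul_pos (by linarith only [hR3, hδ,
      hδ1]) (by linarith only [hR3, hδ, hδ1])
  have hN0 : 0 < N := by rw [hN_def]; positivity
  have hq : 63 / 64 * N ≤ M0 J R b / ((R : ℝ) * (R - 1) * (b : ℝ) ^ 2) := by
    rw [hN_def, ← mul_div_assoc]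
    have hb0 : (0 : ℝ) < b := by exact_mod_cast hb1
    have hMb0 : 0 ≤ M0 J R b := by linarith only [hM0pos, hMb]
    refine (div_le_div_of_nonneg_right hMb (by positivity)).trans
      (div_le_div_of_nonneg_left hMb0 (by positivity) ?_)
    refine mul_le_mul_of_nonneg_left ?_ hR1.le
    exact pow_le_pow_left₀ hb0.le (by exact_mod_cast hbm) 2
  have hDW : (D : ℝ) * W ≤ 8 * η₁ * N := by
    have hW0 : 0 ≤ W := by rw [hW_def]; split_ifs <;> positivity
    have h1 : (D : ℝ) * W ≤ 2 * R * η₁ * m * W := mul_le_mul_of_nonneg_right hDr hW0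
    have h2 : 2 * R * η₁ * m * W ≤ 8 * η₁ * (M0 J R m / (R * R * (m : ℝ) ^ 2)) := by
      have h3 : W ≤ 4 * M0 J R m / (R * (m : ℝ)) ^ 3 := by
        rw [le_div_iff₀ (by positivity)]; exact hWle
      calc 2 * R * η₁ * m * W ≤ 2 * R * η₁ * m * (4 * M0 J R m / (R * (m : ℝ)) ^ 3) :=
            mul_le_mul_of_nonneg_left h3 (by positivity)
        _ = _ := by field_simp; ring
    refine h1.trans (h2.trans (mul_le_mul_of_nonneg_left ?_ (by positivity)))
    rw [hN_def]
    refine div_le_div_of_nonneg_left hM0pos.le (by positivity) ?_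
    refine mul_le_mul_of_nonneg_right ?_ (by positivity)
    linarith only [hR3, hδ, hδ1]
  have hηs : s ^ 2 * η₁ ≤ 1 / 4096 := by
    have h1 : (1 : ℝ) ≤ s ^ 2 := by linarith only [hs2, hδ, hδ1, hoe, hoe2]
    have h2 : (1 : ℝ) ≤ (R : ℝ) ^ 4 := one_le_pow₀ (by linarith only [hR3, hδ, hδ1])
    have h3 : s ^ 2 * η₁ ≤ s ^ 4 * R ^ 4 * η₁ := by
      refine mul_le_mul_of_nonneg_right ?_ hη₁.le
      calc s ^ 2 = s ^ 2 * 1 * 1 := by ring
        _ ≤ s ^ 2 * s ^ 2 * R ^ 4 := by gcongr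
        _ = s ^ 4 * R ^ 4 := by ring
    have h4 : 4096 * (s ^ 4 * R ^ 4 * η₁) ≤ 1 := by
      calc 4096 * (s ^ 4 * R ^ 4 * η₁) = 4096 * s ^ 4 * R ^ 4 * η₁ := by ring
        _ ≤ 1 := hη
    linarith
  -- per missing pair
  have hper : 7 / 16 * s * N / (1 - δ) ^ 2 ≤
      (oe J : ℝ) * (M0 J R b / ((R : ℝ) * (R - 1) * (b : ℝ) ^ 2)) / 2 -
        (oe J : ℝ) ^ 2 * (D * W) / 4 := by
    have hoe0 : 0 ≤ (oe J : ℝ) := Nat.cast_nonneg _
    have h1 : (oe J : ℝ) * (63 / 64 * N) / 2 ≤
        (oe J : ℝ) * (M0 J R b / ((R : ℝ) * (R - 1) * (b : ℝ) ^ 2)) / 2 := by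
      have := mul_le_mul_of_nonneg_left hq hoe0
      linarith only [this]
    have h2 : (oe J : ℝ) ^ 2 * (D * W) / 4 ≤ (oe J : ℝ) * (s ^ 2 * (8 * η₁ * N)) / 4 := by
      have h3 : (oe J : ℝ) ^ 2 * (D * W) ≤ (oe J : ℝ) ^ 2 * (8 * η₁ * N) :=
        mul_le_mul_of_nonneg_left hDW (by positivity)
      have h4 : (oe J : ℝ) ^ 2 * (8 * η₁ * N) ≤ (oe J : ℝ) * (s ^ 2 * (8 * η₁ * N)) := by
        rw [sq, mul_assoc]
        refine mul_le_mul_of_nonneg_left ?_ hoe0
        exact mul_le_mul_of_nonneg_right hoe2 (by positivity)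
      linarith only [h3, h4]
    have h5 : s ^ 2 * (8 * η₁ * N) ≤ 1 / 512 * N := by
      have := mul_le_mul_of_nonneg_right hηs (show 0 ≤ 8 * N by linarith only [hN0])
      linarith only [this]
    have h6 : (oe J : ℝ) * (s ^ 2 * (8 * η₁ * N)) / 4 ≤ (oe J : ℝ) * (1 / 512 * N) / 4 := by
      have := mul_le_mul_of_nonneg_left h5 hoe0
      linarith only [this]
    have h7 : (oe J : ℝ) * (31 / 64 * N) ≤ (oe J : ℝ) * (63 / 64 * N) / 2 -
        (oe J : ℝ) * (1 / 512 * N) / 4 := by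
      have : 0 ≤ (oe J : ℝ) * N := by positivity
      linarith only [this]
    have h8 : s * (31 / 64 * N) ≤ (oe J : ℝ) * (31 / 64 * N) :=
      mul_le_mul_of_nonneg_right hoe (by positivity)
    have h9 : 7 / 16 * s * N / (1 - δ) ^ 2 ≤ s * (31 / 64 * N) := by
      rw [div_le_iff₀ (pow_pos (by linarith only [hδ1]) 2)]
      have h10 : (31 / 32 : ℝ) ≤ (1 - δ) ^ 2 := by linarith only [sq_nonneg δ, hδ1]
      have h11 : 0 ≤ s * N := by positivity
      have h12 := mul_le_mul_of_nonneg_left h10 h11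
      linarith only [h12, h11]
    linarith only [h1, h2, h6, h7, h8, h9]
  have hfin : M0 J R m * (7 / 16 * (s / (R * (R - 1)))) *
      (∑ f ∈ Fintype.piFinset B, DD G f) / (∏ l, ((B l).card : ℝ)) ≤
      mo * (7 / 16 * s * N / (1 - δ) ^ 2) := by
    have h1 : 0 ≤ M0 J R m * (7 / 16 * (s / (R * (R - 1)))) := by positivity
    calc M0 J R m * (7 / 16 * (s / (R * (R - 1)))) *
          (∑ f ∈ Fintype.piFinset B, DD G f) / (∏ l, ((B l).card : ℝ))
        = M0 J R m * (7 / 16 * (s / (R * (R - 1)))) *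
          ((∑ f ∈ Fintype.piFinset B, DD G f) / (∏ l, ((B l).card : ℝ))) := by
          rw [mul_div_assoc]
      _ ≤ M0 J R m * (7 / 16 * (s / (R * (R - 1)))) * (mo / ((1 - δ) * m) ^ 2) :=
          mul_le_mul_of_nonneg_left hDD h1
      _ = _ := by
          rw [hN_def]
          have h2 : (1 - δ) ≠ 0 := by linarith only [hδ, hδ1]
          have h3 : (R : ℝ) - 1 ≠ 0 := by linarith only [hR3, hδ, hδ1]
          field_simp
  have hlast := mul_le_mul_of_nonneg_left hper hmo0
  have e1 : mo * ((oe J : ℝ) * (M0 J R b / ((R : ℝ) * (R - 1) * (b : ℝ) ^ 2)) / 2 -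
        (oe J : ℝ) ^ 2 * (D * W) / 4) =
      (oe J : ℝ) * mo * (M0 J R b / ((R : ℝ) * (R - 1) * (b : ℝ) ^ 2)) / 2 -
      (oe J : ℝ) ^ 2 * (mo * (D * W)) / 4 := by ring
  rw [e1] at hlast
  linarith only [hcore, hlast, hfin]

end H57GH
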