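import Pool.Agent.H57.LC.Defs
import Pool.Agent.H57.LT.Defs

/-!
Project GH (general graphs `H = K_u ∨ J`): definitions.  Paper proof: note GH on MP_e32fce_co.
-/

namespace H57GH

open Finset H57LC H57LT

set_option linter.unusedSectionVars false

section graph
variable {V : Type*} [DecidableEq V] (G : SimpleGraph V) [DecidableRel G.Adj]

/-- the number of neighbours of `z` in `S` -/
def dg (S : Finset V) (z : V) : ℕ := (S.filter fun y => G.Adj z y).card

/-- the very heavy vertices of `S` -/
noncomputable def vh (S : Finset V) (R m : ℕ) (θ : ℝ) : Finset V := by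
  classical
  exact S.filter fun z => (dg G S z : ℝ) ≤ θ * R * m

/-- `S` has nearly as many edges as the Turan graph -/
def TyB (S : Finset V) (R m : ℕ) (CB : ℝ) : Prop :=
  (1 - CB / m) * ((R.choose 2 : ℝ) * (m : ℝ) ^ 2) < ((clq G S 2).card : ℝ)

/-- a vertex of medium degree, or more than `κ₀` very heavy vertices -/
def Slack (S : Finset V) (R m : ℕ) (θ : ℝ) (κ₀ : ℕ) : Prop :=
  (∃ z ∈ S, θ * R * m < (dg G S z : ℝ) ∧ (dg G S z : ℝ) < ((R : ℝ) - 5 / 4) * m) ∨
    κ₀ + 1 ≤ (vh G S R m θ).card

end graph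

section copies
variable {V : Type*} [DecidableEq V] {ι : Type*} [Fintype ι] [DecidableEq ι]
  (J : SimpleGraph ι) [DecidableRel J.Adj]

/-- labelled copies of `J` with all vertices in `S` -/
def emb (G : SimpleGraph V) [DecidableRel G.Adj] (S : Finset V) : Finset (ι → V) :=
  (Fintype.piFinset fun _ : ι => S).filter fun φ =>
    Function.Injective φ ∧ ∀ i j, J.Adj i j → G.Adj (φ i) (φ j)

/-- labelled copies of `J` in the complete multipartite graph on `P` with class function `π` -/
def cm {κ : Type*} [DecidableEq κ] (P : Finset V) (π : V → κ) : Finset (ι → V) :=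
  (Fintype.piFinset fun _ : ι => P).filter fun φ =>
    Function.Injective φ ∧ ∀ i j, J.Adj i j → π (φ i) ≠ π (φ j)

/-- the number of ordered pairs of adjacent vertices of `J` -/
def oe : ℕ := ((univ : Finset (ι × ι)).filter fun p => J.Adj p.1 p.2).card

end copies

/-- `a k` points in class `k`, for `k ∈ T` -/
def pts {κ : Type*} (T : Finset κ) (a : κ → ℕ) : Finset (Σ _ : κ, ℕ) := T.sigma fun k => range (a k)

/-- one more point in class `k` -/
def up {κ : Type*} [DecidableEq κ] (a : κ → ℕ) (k : κ) : κ → ℕ := Function.update a k (a k + 1)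

/-- the class sizes of the Turan graph with `R` classes on `n` vertices -/
def bal (R n : ℕ) (i : Fin R) : ℕ := n / R + if i.val < n % R then 1 else 0

/-- the class sizes of `L` -/
def xg (w r m : ℕ) (i : Fin w) : ℕ := m + if i.val < r then 1 else 0

/-- number of edges of the complete multipartite graph -/
noncomputable def e2 {κ : Type*} [DecidableEq κ] (T : Finset κ) (a : κ → ℕ) : ℝ :=
  eS T (fun k => (a k : ℝ)) 2

section count
variable {ι : Type*} [Fintype ι] [DecidableEq ι] (J : SimpleGraph ι) [DecidableRel J.Adj]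

/-- number of labelled copies of `J` in the complete multipartite graph with classes `k ∈ T` of
size `a k` -/
def fJ {κ : Type*} [DecidableEq κ] (T : Finset κ) (a : κ → ℕ) : ℕ :=
  (cm J (pts T a) Sigma.fst).card

/-- number of labelled copies of `J` in the Turan graph -/
noncomputable def FT (R n : ℕ) : ℝ := (fJ J (univ : Finset (Fin R)) (bal R n) : ℝ)

/-- number of labelled copies of `J` in the complete multipartite graph with `R` classes of size
`m` -/
noncomputable def M0 (R m : ℕ) : ℝ := (fJ J (univ : Finset (Fin R)) (fun _ => m) : ℝ)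

/-- `K_u ∨ J` -/
def jn (u : ℕ) : SimpleGraph (Fin u ⊕ ι) where
  Adj a b := a ≠ b ∧ (a.isLeft = true ∨ b.isLeft = true ∨
    ∃ i j, a = Sum.inr i ∧ b = Sum.inr j ∧ J.Adj i j)
  symm := ⟨fun a b h => ⟨h.1.symm, by
    rcases h.2 with h1 | h1 | ⟨i, j, h1, h2, h3⟩
    · exact Or.inr (Or.inl h1)
    · exact Or.inl h1
    · exact Or.inr (Or.inr ⟨j, i, h2, h1, h3.symm⟩)⟩⟩
  loopless := ⟨fun _ h => h.1 rfl⟩

/-- the average number of labelled copies of `J` in the common neighbourhoods of the `u`-cliques of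
`L` (the Turan graph with `R + u` classes, `r` of them of size `m + 1`, the others of size `m`) -/
noncomputable def rhoG (u R r m : ℕ) : ℝ :=
  (∑ T ∈ powersetCard R (univ : Finset (Fin (R + u))),
    (∏ k ∈ univ \ T, (xg (R + u) r m k : ℝ)) * fJ J T (xg (R + u) r m)) / eN (R + u) r m u

end count

/-- the cost coefficients -/
noncomputable def ktG (R s : ℕ) (θ : ℝ) (j : ℕ) : ℝ :=
  if 2 ≤ j ∧ j + ⌊θ * R / 32⌋₊ ≤ R then (s : ℝ) / R * (1 - ((j : ℝ) - 1) / (4 * (R - 1))) else 0

section local'
variable {V : Type*} [DecidableEq V] (G : SimpleGraph V) [DecidableRel G.Adj]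
  {ι : Type*} [Fintype ι] [DecidableEq ι] (J : SimpleGraph ι) [DecidableRel J.Adj]

/-- the indicator of `R`-cliques `T` with more than `κ₀` vertices of `S` missing at least two
vertices of `T` -/
def nuG (S : Finset V) (κ₀ : ℕ) (T : Finset V) : ℝ := if κ₀ + 1 ≤ hge G S T then 1 else 0

/-- the light value of an `R`-clique `T` -/
noncomputable def lzG (S : Finset V) (R m : ℕ) (θ ζ ρ : ℝ) (κ₀ : ℕ) (T : Finset V) : ℝ :=
  ((fJ J T (aa G S T) : ℝ) - ρ) * (∏ t ∈ T, ((aa G S T t : ℝ))⁻¹) +
    M0 J R m / (m : ℝ) ^ R *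
      ((∑ z ∈ S, ktG R (Fintype.card ι) θ (hs G T z).card) + ζ * nuG G S κ₀ T) / m

/-- the credit of the heavy vertices at the tuple `f` -/
noncomputable def xz (R s : ℕ) (θ : ℝ) (f : Fin R → V) (z : V) : ℝ :=
  if (hs G (im f) z).card = 1 then (s : ℝ) / R else ktG R s θ (hs G (im f) z).card

end local'

end H57GH
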