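import Pool.Agent.H57.GH.NegA
import Pool.Agent.H57.GH.Defs

/-!
Labelled and unlabelled copies.
-/

namespace H57GH

open Finset H57LC H57LT H57E32

set_option linter.unusedSectionVars false

lemma CopyA_lcc {W V : Type*} [Fintype W] [Fintype V] (H : SimpleGraph W) (G : SimpleGraph V) :
    G.labelledCopyCount H = Nat.card (SimpleGraph.Copy H G) := by
  classical
  unfold SimpleGraph.labelledCopyCount
  convert! (Nat.card_eq_fintype_card (α := SimpleGraph.Copy H G)).symm

/-- labelled copies -/
theorem emb_eq_labelled {ι : Type*} [Fintype ι] [DecidableEq ι] (J : SimpleGraph ι)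
    [DecidableRel J.Adj] {V : Type*} [Fintype V] [DecidableEq V] (G : SimpleGraph V)
    [DecidableRel G.Adj] : (emb J G univ).card = G.labelledCopyCount J := by
  classical
  let e : {φ : ι → V // φ ∈ emb J G univ} ≃ SimpleGraph.Copy J G :=
    { toFun := fun φ => ⟨⟨φ.1, fun {a b} h => (mem_filter.mp φ.2).2.2 a b h⟩,
        (mem_filter.mp φ.2).2.1⟩
      invFun := fun f => ⟨fun i => f i, by
        rw [emb, mem_filter]
        exact ⟨by simp, f.injective, fun i j h => f.toHom.map_adj h⟩⟩
      left_inv := fun φ => rfl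
      right_inv := fun f => rfl }
  have h := Nat.card_congr e
  have h1 : Nat.card {φ : ι → V // φ ∈ emb J G univ} = (emb J G univ).card := by
    rw [Nat.card_eq_fintype_card, Fintype.card_coe]
  rw [← h1, h, CopyA_lcc]

lemma CopyA_adj {W V : Type*} {H : SimpleGraph W} {G : SimpleGraph V}
    (f : SimpleGraph.Copy H G) (x y : W) :
    f.toSubgraph.Adj (f x) (f y) ↔ H.Adj x y := by
  constructor
  · intro h
    rw [SimpleGraph.Subgraph.map_adj] at h
    obtain ⟨a, b, hab, h1, h2⟩ := h
    rw [f.injective h1, f.injective h2] at hab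
    exact hab
  · intro h
    rw [SimpleGraph.Subgraph.map_adj]
    exact ⟨x, y, h, rfl, rfl⟩

lemma CopyA_verts {W V : Type*} {H : SimpleGraph W} {G : SimpleGraph V}
    (f : SimpleGraph.Copy H G) : f.toSubgraph.verts = Set.range f := by
  change (SimpleGraph.Subgraph.map f.toHom ⊤).verts = _
  rw [SimpleGraph.Subgraph.map_verts]
  simp

/-- the fibre of a copy -/
lemma CopyA_fibre {W V : Type*} [Finite W] {H : SimpleGraph W} {G : SimpleGraph V}
    (f₀ : SimpleGraph.Copy H G) :
    Nat.card {f : SimpleGraph.Copy H G // f.toSubgraph = f₀.toSubgraph} = Nat.card (H ≃g H) := by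
  symm
  refine Nat.card_congr (Equiv.ofBijective (fun σ : H ≃g H =>
    (⟨f₀.comp σ.toCopy, ?_⟩ : {f : SimpleGraph.Copy H G // f.toSubgraph = f₀.toSubgraph})) ⟨?_, ?_⟩)
  · ext x y
    · rw [CopyA_verts, CopyA_verts]
      constructor
      · rintro ⟨a, rfl⟩
        exact ⟨σ a, rfl⟩
      · rintro ⟨a, rfl⟩
        exact ⟨σ.symm a, by simp⟩
    · constructor
      · intro h
        rw [SimpleGraph.Subgraph.map_adj] at h ⊢
        obtain ⟨a, b, hab, h1, h2⟩ := h
        exact ⟨σ a, σ b, σ.map_adj_iff.mpr hab, h1, h2⟩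
      · intro h
        rw [SimpleGraph.Subgraph.map_adj] at h ⊢
        obtain ⟨a, b, hab, h1, h2⟩ := h
        refine ⟨σ.symm a, σ.symm b, σ.symm.map_adj_iff.mpr hab, ?_, ?_⟩
        · rw [← h1]
          exact congrArg f₀ (σ.apply_symm_apply a)
        · rw [← h2]
          exact congrArg f₀ (σ.apply_symm_apply b)
  · intro σ τ h
    have h1 := congrArg Subtype.val h
    ext x
    have h2 := DFunLike.congr_fun h1 x
    exact f₀.injective h2
  · rintro ⟨f, hf⟩
    have hr : ∀ x, ∃ y, f₀ y = f x := by
      intro x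
      have h1 : f x ∈ f.toSubgraph.verts := by
        rw [CopyA_verts]
        exact ⟨x, rfl⟩
      rw [hf, CopyA_verts] at h1
      exact h1
    choose s hs using hr
    have hsi : Function.Injective s := by
      intro x y hxy
      apply f.injective
      change f x = f y
      rw [← hs x, ← hs y, hxy]
    have hsb : Function.Bijective s := Finite.injective_iff_bijective.mp hsi
    refine ⟨⟨Equiv.ofBijective s hsb, ?_⟩, ?_⟩
    · intro x y
      change H.Adj (s x) (s y) ↔ H.Adj x y
      rw [← CopyA_adj f₀, hs, hs, ← hf, CopyA_adj f]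
    · apply Subtype.ext
      ext x
      exact hs x

/-- every copy is the image of `|Aut H|` labelled copies -/
theorem labelled_eq_mul {W : Type} [Fintype W] [DecidableEq W] (H : SimpleGraph W) :
    ∃ A : ℕ, 0 < A ∧ ∀ (V : Type) [Fintype V] (G : SimpleGraph V),
      G.labelledCopyCount H = A * G.copyCount H := by
  classical
  have hfin : Finite (H ≃g H) :=
    Finite.of_injective (fun e : H ≃g H => (e : W → W)) DFunLike.coe_injective
  have hne : Nonempty (H ≃g H) := ⟨SimpleGraph.Iso.refl⟩
  refine ⟨Nat.card (H ≃g H), Nat.card_pos, fun V _ G => ?_⟩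
  have hfc : Finite (SimpleGraph.Copy H G) :=
    Finite.of_injective (fun e : SimpleGraph.Copy H G => (e : W → V)) DFunLike.coe_injective
  have h0 : G.labelledCopyCount H = Nat.card (SimpleGraph.Copy H G) := CopyA_lcc H G
  have h1 : cps H G = Set.range (SimpleGraph.Copy.toSubgraph (A := H) (B := G)) := by
    rw [SimpleGraph.Copy.range_toSubgraph]
    rfl
  rw [h0, copyCount_eq_ncard, h1, ← Nat.card_coe_set_eq, mul_comm, ← Nat.card_prod]
  have h2 : ∀ b : Set.range (SimpleGraph.Copy.toSubgraph (A := H) (B := G)),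
      Nonempty ({f : SimpleGraph.Copy H G //
        Set.rangeFactorization SimpleGraph.Copy.toSubgraph f = b} ≃ (H ≃g H)) := by
    rintro ⟨b, f₀, rfl⟩
    have h3 : Nat.card {f : SimpleGraph.Copy H G //
        Set.rangeFactorization SimpleGraph.Copy.toSubgraph f =
          (⟨f₀.toSubgraph, f₀, rfl⟩ : Set.range (SimpleGraph.Copy.toSubgraph (A := H) (B := G)))} =
        Nat.card (H ≃g H) := by
      rw [← CopyA_fibre f₀]
      refine Nat.card_congr (Equiv.subtypeEquivRight fun f => ?_)
      constructor
      · intro h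
        exact congrArg Subtype.val h
      · intro h
        exact Subtype.ext h
    exact ⟨(Finite.equivFinOfCardEq h3).trans (Finite.equivFinOfCardEq rfl).symm⟩
  exact Nat.card_congr
    ((Equiv.sigmaFiberEquiv (Set.rangeFactorization SimpleGraph.Copy.toSubgraph)).symm.trans
      (Equiv.sigmaEquivProdOfEquiv fun b => (h2 b).some))

end H57GH
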