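import Pool.Agent.H57.GH.EmbI
import Pool.Agent.H57.GH.JoinE
import Pool.Agent.H57.LC.TurN

/-!
Two copies of the Turan graph with `R + 1` classes, the vertices of the large classes joined to
their copies: a regular graph.
-/

namespace H57GH

open Finset H57LC H57LT H57E32

set_option linter.unusedSectionVars false

/-- two copies of the Turan graph `TG w m r`, every vertex of a class of size `m + 1` joined to its
copy -/
def DL (w m r : ℕ) : SimpleGraph (Fin (w * m + r) × Bool) where
  Adj a b := (a.2 = b.2 ∧ (TG w m r).Adj a.1 b.1) ∨ (a.2 ≠ b.2 ∧ a.1 = b.1 ∧ a.1.val % w < r)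
  symm := ⟨fun a b h => by
    rcases h with ⟨h1, h2⟩ | ⟨h1, h2, h3⟩
    · exact Or.inl ⟨h1.symm, h2.symm⟩
    · exact Or.inr ⟨Ne.symm h1, h2.symm, h2 ▸ h3⟩⟩
  loopless := ⟨fun a h => by
    rcases h with ⟨_, h2⟩ | ⟨h1, _, _⟩
    · exact (TG w m r).loopless.irrefl _ h2
    · exact h1 rfl⟩

instance decDL (w m r : ℕ) : DecidableRel (DL w m r).Adj := fun a b => by
  unfold DL
  infer_instance

/-- the neighbours of a vertex -/
theorem DLd_cn {w m r : ℕ} (hw : 1 ≤ w) (x : Fin (w * m + r)) (a : Bool) :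
    H57LC.cn (DL w m r) {(x, a)} =
      (univ \ cls (tcN w m r hw) (tcN w m r hw x)).image (fun y => (y, a)) ∪
        (if x.val % w < r then {(x, !a)} else ∅) := by
  ext ⟨y, b⟩
  rw [H57LC.mem_cn, mem_union, mem_image]
  constructor
  · intro h
    rcases h (x, a) (mem_singleton_self _) with ⟨h1, h2⟩ | ⟨h1, h2, h3⟩
    · left
      refine ⟨y, mem_sdiff.2 ⟨mem_univ _, fun hy => ?_⟩, Prod.ext rfl h1⟩
      rw [tcN_adj hw] at h2
      exact h2 (mem_filter.1 hy).2.symm
    · right
      simp only at h1 h2 h3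
      rw [if_pos h3, mem_singleton]
      refine Prod.ext h2.symm ?_
      simp only
      cases a <;> cases b <;> simp_all
  · rintro (⟨z, hz, hzy⟩ | h) c hc
    · rw [mem_singleton] at hc
      subst hc
      obtain ⟨rfl, rfl⟩ := Prod.mk.injEq _ _ _ _ ▸ hzy
      left
      refine ⟨rfl, ?_⟩
      rw [tcN_adj hw]
      intro h
      exact (mem_sdiff.1 hz).2 (mem_filter.2 ⟨mem_univ _, h.symm⟩)
    · rw [mem_singleton] at hc
      subst hc
      split_ifs at h with h3
      · rw [mem_singleton] at h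
        obtain ⟨rfl, rfl⟩ := Prod.mk.injEq _ _ _ _ ▸ h
        right
        refine ⟨?_, rfl, h3⟩
        simp
      · exact absurd h (notMem_empty _)

theorem DLd_deg {R m r : ℕ} (hr : r < R + 1) (x : Fin ((R + 1) * m + r)) (a : Bool) :
    (H57LC.cn (DL (R + 1) m r) {(x, a)}).card = R * m + r := by
  have hw : 1 ≤ R + 1 := by omega
  rw [DLd_cn hw, card_union_of_disjoint]
  · rw [card_image_of_injective _ (fun y z h => (Prod.mk.injEq _ _ _ _ ▸ h).1),
      card_sdiff_of_subset (subset_univ _), tcN_card hw hr, card_univ, Fintype.card_fin]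
    have h1 : (tcN (R + 1) m r hw x).val = x.val % (R + 1) := rfl
    rw [h1]
    have h2 : (R + 1) * m + r = R * m + m + r := by ring
    split_ifs with h
    · rw [card_singleton]
      omega
    · rw [card_empty]
      omega
  · rw [Finset.disjoint_left]
    rintro ⟨y, b⟩ h1 h2
    obtain ⟨z, _, hz⟩ := mem_image.1 h1
    split_ifs at h2 with h
    · rw [mem_singleton] at h2
      have h3 : a = b := (Prod.mk.injEq _ _ _ _ ▸ hz).2
      have h4 : b = !a := (Prod.mk.injEq _ _ _ _ ▸ h2).2
      rw [h3] at h4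
      cases b <;> simp at h4
    · exact absurd h2 (notMem_empty _)

theorem DL_allowed {R m r : ℕ} (hR : 1 ≤ R) (hm : 1 ≤ m) (hr : r < R + 1) :
    Allowed 1 (R * m + r) (R + 1) (DL (R + 1) m r) := by
  classical
  rw [allowed_iff]
  constructor
  · intro A hA
    obtain ⟨⟨x, a⟩, rfl⟩ := SimpleGraph.isNClique_one.1 hA
    have h1 : (cns (DL (R + 1) m r) {(x, a)}).ncard =
        (H57LC.cn (DL (R + 1) m r) {(x, a)}).card := by
      rw [← Set.ncard_coe_finset]
      congr 1
      ext v
      simp [cns, H57LC.mem_cn]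
    rw [h1, DLd_deg hr]
  · intro A hA
    have hsame : ∀ p ∈ A, ∀ q ∈ A, p.2 = q.2 := by
      intro p hp q hq
      by_contra hne
      have hpq : p ≠ q := fun h => hne (by rw [h])
      have h3 : ∃ t ∈ A, t ≠ p ∧ t ≠ q := by
        by_contra hcon
        push Not at hcon
        have hsub : A ⊆ {p, q} := by
          intro t ht
          rw [mem_insert, mem_singleton]
          by_contra h
          push Not at h
          exact h.2 (hcon t ht h.1)
        have := card_le_card hsub
        rw [hA.card_eq, card_pair hpq] at this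
        omega
      obtain ⟨t, ht, htp, htq⟩ := h3
      have hxy : p.1 = q.1 := by
        rcases hA.1 hp hq hpq with ⟨h1, _⟩ | ⟨_, h1, _⟩
        · exact absurd h1 hne
        · exact h1
      by_cases htc : t.2 = p.2
      · have h5 : t.2 ≠ q.2 := fun h => hne (htc ▸ h)
        rcases hA.1 ht hq htq with ⟨h1, _⟩ | ⟨_, h1, _⟩
        · exact h5 h1
        · exact htp (Prod.ext (h1.trans hxy.symm) htc)
      · rcases hA.1 ht hp htp with ⟨h1, _⟩ | ⟨_, h1, _⟩
        · exact htc h1
        · refine htq (Prod.ext (h1.trans hxy) ?_)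
          revert htc hne
          cases t.2 <;> cases p.2 <;> cases q.2 <;> simp
    have hinj : Set.InjOn (Prod.fst : Fin ((R + 1) * m + r) × Bool → _) A := by
      intro p hp q hq h
      exact Prod.ext h (hsame p hp q hq)
    refine SimpleGraph.turanGraph_cliqueFree (n := (R + 1) * m + r) (r := R + 1) (by omega)
      (A.image Prod.fst) ⟨?_, ?_⟩
    · intro x hx y hy hxy
      rw [mem_coe, mem_image] at hx hy
      obtain ⟨p, hp, rfl⟩ := hx
      obtain ⟨q, hq, rfl⟩ := hy
      rcases hA.1 hp hq (fun h => hxy (by rw [h])) with ⟨_, h1⟩ | ⟨h1, _, _⟩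
      · exact h1
      · exact absurd (hsame p hp q hq) h1
    · rw [card_image_of_injOn hinj, hA.card_eq]

theorem kc_one_DL (w m r : ℕ) : kc 1 (DL w m r) = 2 * (w * m + r) := by
  classical
  rw [kc_eq]
  have h1 : (DL w m r).cliqueFinset 1 = univ.image (fun a => ({a} : Finset _)) := by
    ext s
    rw [SimpleGraph.mem_cliqueFinset_iff, SimpleGraph.isNClique_one, mem_image]
    constructor
    · rintro ⟨a, rfl⟩
      exact ⟨a, mem_univ _, rfl⟩
    · rintro ⟨a, _, rfl⟩
      exact ⟨a, rfl⟩
  rw [h1, card_image_of_injective _ (fun a b h => singleton_injective h), card_univ,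
    Fintype.card_prod, Fintype.card_fin, Fintype.card_bool, mul_comm]

/-- sums over the `1`-cliques -/
theorem DLd_sum {V : Type*} [Fintype V] [DecidableEq V] (G : SimpleGraph V) [DecidableRel G.Adj]
    (F : Finset V → ℕ) : ∑ U ∈ H57LC.clq G univ 1, F U = ∑ x : V, F {x} := by
  have h1 : H57LC.clq G univ 1 = univ.image (fun a => ({a} : Finset V)) := by
    ext s
    rw [mem_clq, mem_image]
    constructor
    · rintro ⟨⟨_, h⟩, _⟩
      obtain ⟨a, rfl⟩ := card_eq_one.1 h
      exact ⟨a, mem_univ _, rfl⟩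
    · rintro ⟨a, _, rfl⟩
      refine ⟨⟨subset_univ _, card_singleton _⟩, ?_⟩
      intro x hx y hy hxy
      rw [mem_singleton] at hx hy
      exact absurd (hx.trans hy.symm) hxy
  rw [h1, sum_image]
  intro a _ b _ h
  exact singleton_injective h

/-- copies in the neighbourhood of a vertex -/
theorem DLd_copy {ι : Type*} [Fintype ι] [DecidableEq ι] (J : SimpleGraph ι) [DecidableRel J.Adj]
    (hJ : ∀ v, ∃ w, J.Adj v w) {w m r : ℕ} (x : Fin (w * m + r)) (a : Bool) :
    (emb J (DL w m r) (H57LC.cn (DL w m r) {(x, a)})).card =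
      (emb J (TG w m r) (H57LC.cn (TG w m r) {x})).card := by
  refine card_bij' (fun φ _ v => (φ v).1) (fun ψ _ v => (ψ v, a)) ?_ ?_ ?_ ?_
  all_goals simp only [emb, mem_filter, Fintype.mem_piFinset, H57LC.mem_cn, mem_singleton,
    forall_eq, and_imp]
  · intro φ h1 h2 h3
    have hb : ∀ v, (φ v).2 = a ∧ (TG w m r).Adj x (φ v).1 := by
      intro v
      rcases h1 v with ⟨h4, h5⟩ | ⟨h4, h5, h6⟩
      · exact ⟨h4.symm, h5⟩
      · exfalso
        simp only at h4 h5 h6
        obtain ⟨v', hv'⟩ := hJ v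
        rcases h3 v v' hv' with ⟨h7, h8⟩ | ⟨h7, h8, h9⟩
        · rcases h1 v' with ⟨h10, h11⟩ | ⟨h10, h11, h12⟩
          · exact h4 (h10.trans h7.symm)
          · simp only at h11
            rw [← h5, ← h11] at h8
            exact (TG w m r).loopless.irrefl _ h8
        · rcases h1 v' with ⟨h10, h11⟩ | ⟨h10, h11, h12⟩
          · simp only at h11
            rw [h5, h8] at h11
            exact (TG w m r).loopless.irrefl _ h11
          · simp only at h10
            revert h4 h7 h10
            cases a <;> cases (φ v).2 <;> cases (φ v').2 <;> simp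
    refine ⟨fun v => (hb v).2, ?_, ?_⟩
    · intro v v' h
      exact h2 (Prod.ext h ((hb v).1.trans (hb v').1.symm))
    · intro v v' h
      rcases h3 v v' h with ⟨_, h8⟩ | ⟨h7, _, _⟩
      · exact h8
      · exact absurd ((hb v).1.trans (hb v').1.symm) h7
  · intro ψ h1 h2 h3
    refine ⟨fun v => Or.inl ⟨rfl, h1 v⟩, ?_, fun v v' h => Or.inl ⟨rfl, h3 v v' h⟩⟩
    intro v v' h
    exact h2 (Prod.mk.injEq _ _ _ _ ▸ h).1
  · intro φ h1 h2 h3
    funext v
    refine Prod.ext rfl ?_
    simp only
    rcases h1 v with ⟨h4, h5⟩ | ⟨h4, h5, h6⟩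
    · exact h4
    · exfalso
      simp only at h4 h5 h6
      obtain ⟨v', hv'⟩ := hJ v
      rcases h3 v v' hv' with ⟨h7, h8⟩ | ⟨h7, h8, h9⟩
      · rcases h1 v' with ⟨h10, h11⟩ | ⟨h10, h11, h12⟩
        · exact h4 (h10.trans h7.symm)
        · simp only at h11
          rw [← h5, ← h11] at h8
          exact (TG w m r).loopless.irrefl _ h8
      · rcases h1 v' with ⟨h10, h11⟩ | ⟨h10, h11, h12⟩
        · simp only at h11
          rw [h5, h8] at h11
          exact (TG w m r).loopless.irrefl _ h11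
        · simp only at h10
          revert h4 h7 h10
          cases a <;> cases (φ v).2 <;> cases (φ v').2 <;> simp
  · intro ψ _ _ _
    trivial

/-- `I` is the set of isolated vertices of `J` -/
theorem emb_DL {ι : Type*} [Fintype ι] [DecidableEq ι] (J : SimpleGraph ι) [DecidableRel J.Adj]
    (I : Finset ι) (hI : ∀ v ∈ I, ∀ w, ¬ J.Adj v w) (hI' : ∀ v, v ∉ I → ∃ w, J.Adj v w)
    {R m r : ℕ} (hR : 1 ≤ R) (hm : 1 ≤ m) (hr : r < R + 1) :
    (emb (jn J 1) (DL (R + 1) m r) univ).card =
      2 * ((emb (jn (J.comap (Subtype.val : {v // v ∉ I} → ι)) 1) (TG (R + 1) m r) univ).card *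
        (R * m + r - Fintype.card {v // v ∉ I}).descFactorial I.card) := by
  have hJ : ∀ v : {v // v ∉ I}, ∃ w,
      (J.comap (Subtype.val : {v // v ∉ I} → ι)).Adj v w := by
    rintro ⟨v, hv⟩
    obtain ⟨w, hw⟩ := hI' v hv
    exact ⟨⟨w, fun h => hI w h v hw.symm⟩, hw⟩
  rw [emb_join, emb_join, DLd_sum, DLd_sum, Nat.factorial_one, one_mul, one_mul]
  have h1 : ∀ p : Fin ((R + 1) * m + r) × Bool,
      (emb J (DL (R + 1) m r) (H57LC.cn (DL (R + 1) m r) {p})).card =
      (emb (J.comap (Subtype.val : {v // v ∉ I} → ι)) (TG (R + 1) m r)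
        (H57LC.cn (TG (R + 1) m r) {p.1})).card *
        (R * m + r - Fintype.card {v // v ∉ I}).descFactorial I.card := by
    rintro ⟨x, a⟩
    rw [emb_isolated J _ I hI, DLd_deg hr, DLd_copy _ hJ]
  rw [sum_congr rfl fun p _ => h1 p, ← sum_mul, Fintype.sum_prod_type]
  simp only [sum_const, card_univ, Fintype.card_bool, smul_eq_mul]
  rw [← mul_sum, mul_assoc]

end H57GH
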