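import Pool.Agent.H57.GH.Defs

/-!
Project GH, case `u = 1`: definitions.
-/

namespace H57GH

open Finset H57LC H57LT

set_option linter.unusedSectionVars false

section
variable {V : Type*} [DecidableEq V] (G : SimpleGraph V) [DecidableRel G.Adj]

/-- the vertices of `S` of degree less than `(R - 5/4) m` -/
noncomputable def nl (S : Finset V) (R m : ℕ) : Finset V := by
  classical
  exact S.filter fun z => (dg G S z : ℝ) < ((R : ℝ) - 5 / 4) * m

end

/-- the weight of `k` surplus vertices -/
noncomputable def xi (R s k : ℕ) : ℝ :=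
  if 2 ≤ k then 32 * (s : ℝ) / (R : ℝ) ^ 2 * (k : ℝ) ^ 2 else 0

section
variable {V : Type*} [DecidableEq V] (G : SimpleGraph V) [DecidableRel G.Adj]
  {ι : Type*} [Fintype ι] [DecidableEq ι] (J : SimpleGraph ι) [DecidableRel J.Adj]

/-- the light value of an `R`-clique `T`, case `u = 1` -/
noncomputable def lz1 (S : Finset V) (R m : ℕ) (θ ρ : ℝ) (T : Finset V) : ℝ :=
  lzG G J S R m θ 0 ρ 0 T +
    M0 J R m / (m : ℝ) ^ R * xi R (Fintype.card ι) (hge G S T) / (m : ℝ) ^ 2

end

end H57GH
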