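import Pool.Agent.H57.GH.CM

/-!
First and second differences of `fJ`.
-/

namespace H57GH

open Finset H57LC H57LT

set_option linter.unusedSectionVars false

variable {ι : Type*} [Fintype ι] [DecidableEq ι] (J : SimpleGraph ι) [DecidableRel J.Adj]

theorem Diff_mem_pts {κ : Type*} {T : Finset κ} {a : κ → ℕ} {x : Σ _ : κ, ℕ} :
    x ∈ pts T a ↔ x.1 ∈ T ∧ x.2 < a x.1 := by
  simp [pts]

theorem Diff_up_same {κ : Type*} [DecidableEq κ] (a : κ → ℕ) (k : κ) : up a k k = a k + 1 := by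
  simp [up]

theorem Diff_up_ne {κ : Type*} [DecidableEq κ] (a : κ → ℕ) {k l : κ} (h : l ≠ k) :
    up a k l = a l := by
  simp [up, Function.update_of_ne h]

theorem Diff_up_comm {κ : Type*} [DecidableEq κ] (a : κ → ℕ) (k l : κ) :
    up (up a k) l = up (up a l) k := by
  rcases eq_or_ne k l with rfl | hkl
  · rfl
  · funext j
    by_cases hj : j = k
    · subst hj
      rw [Diff_up_ne _ hkl, Diff_up_same, Diff_up_same, Diff_up_ne _ hkl]
    · by_cases hj' : j = l
      · subst hj'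
        rw [Diff_up_same, Diff_up_ne _ hj, Diff_up_ne _ hj, Diff_up_same]
      · rw [Diff_up_ne _ hj', Diff_up_ne _ hj, Diff_up_ne _ hj, Diff_up_ne _ hj']

theorem Diff_mem_pts_up {κ : Type*} [DecidableEq κ] {T : Finset κ} {a : κ → ℕ} {k : κ} (hk : k ∈ T)
    {x : Σ _ : κ, ℕ} : x ∈ pts T (up a k) ↔ x ∈ pts T a ∨ x = ⟨k, a k⟩ := by
  obtain ⟨j, t⟩ := x
  rw [Diff_mem_pts, Diff_mem_pts]
  by_cases hj : j = k
  · subst hj
    simp only [Diff_up_same, Sigma.mk.injEq, heq_eq_eq, true_and]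
    constructor
    · rintro ⟨h1, h2⟩
      rcases Nat.lt_succ_iff_lt_or_eq.mp h2 with h | h
      · exact Or.inl ⟨h1, h⟩
      · exact Or.inr h
    · rintro (⟨h1, h2⟩ | h)
      · exact ⟨h1, by omega⟩
      · exact ⟨hk, by omega⟩
  · simp only [Diff_up_ne _ hj, Sigma.mk.injEq]
    constructor
    · exact fun h => Or.inl h
    · rintro (h | ⟨h, -⟩)
      · exact h
      · exact absurd h hj

theorem Diff_not_mem {κ : Type*} [DecidableEq κ] {T : Finset κ} {a : κ → ℕ} {k : κ} :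
    (⟨k, a k⟩ : Σ _ : κ, ℕ) ∉ pts T a := by
  rw [Diff_mem_pts]
  simp

theorem Diff_erase_up {κ : Type*} [DecidableEq κ] {T : Finset κ} {a : κ → ℕ} {k : κ} (hk : k ∈ T) :
    (pts T (up a k)).erase ⟨k, a k⟩ = pts T a := by
  ext x
  rw [mem_erase, Diff_mem_pts_up hk]
  constructor
  · rintro ⟨h1, h2 | h2⟩
    · exact h2
    · exact absurd h2 h1
  · intro h
    exact ⟨fun h' => Diff_not_mem (h' ▸ h), Or.inl h⟩

theorem Diff_mem_cm {V κ : Type*} [DecidableEq V] [DecidableEq κ] {P : Finset V} {π : V → κ}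
    {φ : ι → V} : φ ∈ cm J P π ↔ (∀ i, φ i ∈ P) ∧ Function.Injective φ ∧
      ∀ i j, J.Adj i j → π (φ i) ≠ π (φ j) := by
  simp [cm, Fintype.mem_piFinset]

/-- the maps which avoid a point -/
theorem Diff_filter_not {V κ : Type*} [DecidableEq V] [DecidableEq κ] (P : Finset V) (π : V → κ)
    (q : V) : ((cm J P π).filter fun φ => ¬ ∃ i, φ i = q) = cm J (P.erase q) π := by
  ext φ
  simp only [mem_filter, Diff_mem_cm, mem_erase, not_exists]
  constructor
  · rintro ⟨⟨h1, h2⟩, h3⟩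
    exact ⟨fun i => ⟨h3 i, h1 i⟩, h2⟩
  · rintro ⟨h1, h2⟩
    exact ⟨⟨fun i => (h1 i).2, h2⟩, fun i => (h1 i).1⟩

theorem Diff_card_split {V κ : Type*} [DecidableEq V] [DecidableEq κ] (P : Finset V) (π : V → κ)
    (q : V) : (cm J P π).card = (cm J (P.erase q) π).card +
      ((cm J P π).filter fun φ => ∃ i, φ i = q).card := by
  rw [← Diff_filter_not, add_comm]
  exact (card_filter_add_card_filter_not (s := cm J P π) (fun φ => ∃ i, φ i = q)).symm

/-- the copies using the new point -/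
theorem fJ_up {κ : Type*} [DecidableEq κ] {T : Finset κ} {a : κ → ℕ} {k : κ} (hk : k ∈ T) :
    fJ J T (up a k) = fJ J T a +
      ((cm J (pts T (up a k)) Sigma.fst).filter fun φ => ∃ i, φ i = ⟨k, a k⟩).card := by
  unfold fJ
  rw [Diff_card_split J (pts T (up a k)) Sigma.fst ⟨k, a k⟩, Diff_erase_up hk]

theorem Diff_card_pts {κ : Type*} (T : Finset κ) (a : κ → ℕ) :
    (pts T a).card = ∑ l ∈ T, a l := by
  simp [pts, card_sigma]

theorem Diff_prod1 (i : ι) (n : ℕ) :
    ∏ j : ι, (if j = i then 1 else n) = n ^ (Fintype.card ι - 1) := by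
  rw [Finset.prod_ite]
  simp only [prod_const_one, one_mul, prod_const]
  congr 1
  rw [filter_ne', card_erase_of_mem (mem_univ i), card_univ]

theorem Diff_prod2 {i j : ι} (hij : i ≠ j) (n : ℕ) :
    ∏ t : ι, (if t = i then 1 else if t = j then 1 else n) = n ^ (Fintype.card ι - 2) := by
  rw [Finset.prod_ite]
  simp only [prod_const_one, one_mul]
  rw [Finset.prod_ite]
  simp only [prod_const_one, one_mul, prod_const]
  congr 1
  have h : ((univ.filter fun t => ¬ t = i).filter fun t => ¬ t = j) = (univ.erase i).erase j := by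
    ext t
    simp [and_comm]
  rw [h, card_erase_of_mem (by simp [hij.symm]), card_erase_of_mem (mem_univ i), card_univ]
  omega

theorem fJ_up_le {κ : Type*} [DecidableEq κ] {T : Finset κ} {a : κ → ℕ} {k : κ} (hk : k ∈ T) :
    (fJ J T (up a k) : ℝ) - fJ J T a ≤
      Fintype.card ι * (∑ l ∈ T, (a l : ℝ)) ^ (Fintype.card ι - 1) := by
  have h1 : ((cm J (pts T (up a k)) Sigma.fst).filter fun φ => ∃ i, φ i = ⟨k, a k⟩) ⊆
      (univ : Finset ι).biUnion fun i => Fintype.piFinset fun j =>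
        if j = i then {(⟨k, a k⟩ : Σ _ : κ, ℕ)} else pts T a := by
    intro φ hφ
    rw [mem_filter, Diff_mem_cm] at hφ
    obtain ⟨⟨h1, h2, -⟩, i, hi⟩ := hφ
    rw [mem_biUnion]
    refine ⟨i, mem_univ i, ?_⟩
    rw [Fintype.mem_piFinset]
    intro j
    by_cases hj : j = i
    · subst hj
      simp [hi]
    · rw [if_neg hj]
      rcases (Diff_mem_pts_up hk).mp (h1 j) with h | h
      · exact h
      · exact absurd (h2 (h.trans hi.symm)) hj
  have h2 : ((cm J (pts T (up a k)) Sigma.fst).filter fun φ => ∃ i, φ i = ⟨k, a k⟩).card ≤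
      Fintype.card ι * (∑ l ∈ T, a l) ^ (Fintype.card ι - 1) := by
    refine (card_le_card h1).trans (card_biUnion_le.trans ?_)
    refine (sum_le_card_nsmul univ _ ((∑ l ∈ T, a l) ^ (Fintype.card ι - 1)) fun i _ => ?_).trans ?_
    · rw [Fintype.card_piFinset]
      refine le_of_eq ?_
      rw [← Diff_prod1 i (∑ l ∈ T, a l)]
      refine prod_congr rfl fun j _ => ?_
      by_cases hj : j = i
      · simp [hj]
      · simp [hj, Diff_card_pts]
    · rw [card_univ, smul_eq_mul]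
  rw [fJ_up J hk]
  push_cast
  have h3 : (((cm J (pts T (up a k)) Sigma.fst).filter fun φ => ∃ i, φ i = ⟨k, a k⟩).card : ℝ) ≤
      ((Fintype.card ι * (∑ l ∈ T, a l) ^ (Fintype.card ι - 1) : ℕ) : ℝ) := by
    exact_mod_cast h2
  push_cast at h3
  linarith

theorem Diff_card_erase {κ : Type*} [DecidableEq κ] {T : Finset κ} {a : κ → ℕ} {k l : κ}
    (hk : k ∈ T) (hl : l ∈ T) :
    (cm J ((pts T (up (up a k) l)).erase ⟨k, a k⟩) Sigma.fst).card = fJ J T (up a l) := by
  rw [cm_eq_fJ J _ _ T (fun x hx => (Diff_mem_pts.mp (mem_of_mem_erase hx)).1)]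
  refine fJ_congr J fun j hj => ?_
  have h0 : ∀ c : κ → ℕ, ((pts T c).filter fun x => x.1 = j).card = c j := by
    intro c
    have : ((pts T c).filter fun x => x.1 = j) =
        (range (c j)).map ⟨fun t => (⟨j, t⟩ : Σ _ : κ, ℕ), fun s t h => by simpa using h⟩ := by
      ext x
      obtain ⟨i, t⟩ := x
      simp only [mem_filter, Diff_mem_pts, mem_map, mem_range, Function.Embedding.coeFn_mk,
        Sigma.mk.injEq]
      constructor
      · rintro ⟨⟨-, h2⟩, rfl⟩
        exact ⟨t, h2, rfl, HEq.rfl⟩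
      · rintro ⟨t', h1, rfl, h2⟩
        have h3 := eq_of_heq h2
        subst h3
        exact ⟨⟨hj, h1⟩, rfl⟩
    rw [this, card_map, card_range]
  have hmem : (⟨k, a k⟩ : Σ _ : κ, ℕ) ∈ pts T (up (up a k) l) := by
    rw [Diff_mem_pts_up hl, Diff_mem_pts_up hk]
    exact Or.inl (Or.inr rfl)
  rw [Finset.filter_erase]
  by_cases hjk : j = k
  · subst hjk
    rw [card_erase_of_mem (by rw [mem_filter]; exact ⟨hmem, rfl⟩), h0, Diff_up_comm,
      Diff_up_same]
    rfl
  · rw [erase_eq_of_notMem (by rw [mem_filter]; exact fun h => hjk h.2.symm), h0, Diff_up_comm,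
      Diff_up_ne _ hjk]

/-- the second difference is the number of copies using both new points -/
theorem fJ_two {κ : Type*} [DecidableEq κ] {T : Finset κ} {a : κ → ℕ} {k l : κ}
    (hk : k ∈ T) (hl : l ∈ T) :
    (fJ J T (up (up a k) l) : ℝ) - fJ J T (up a k) - fJ J T (up a l) + fJ J T a =
      (((cm J (pts T (up (up a k) l)) Sigma.fst).filter fun φ =>
        (∃ i, φ i = ⟨k, a k⟩) ∧ ∃ i, φ i = ⟨l, up a k l⟩).card : ℕ) := by
  set p : Σ _ : κ, ℕ := ⟨k, a k⟩ with hp
  set q : Σ _ : κ, ℕ := ⟨l, up a k l⟩ with hq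
  set P : Finset (Σ _ : κ, ℕ) := pts T (up (up a k) l) with hP
  have e1 : P.erase q = pts T (up a k) := Diff_erase_up hl
  have e2 : (P.erase q).erase p = pts T a := by rw [e1]; exact Diff_erase_up hk
  have h1 := Diff_card_split J P Sigma.fst q
  have h2 := Diff_card_split J (P.erase q) Sigma.fst p
  have h3 := Diff_card_split J P Sigma.fst p
  have h4 : ((cm J P Sigma.fst).filter fun φ => ∃ i, φ i = p).card =
      ((cm J (P.erase q) Sigma.fst).filter fun φ => ∃ i, φ i = p).card +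
      ((cm J P Sigma.fst).filter fun φ => (∃ i, φ i = p) ∧ ∃ i, φ i = q).card := by
    rw [← Diff_filter_not J P Sigma.fst q, filter_filter, add_comm]
    rw [← card_filter_add_card_filter_not (s := (cm J P Sigma.fst).filter fun φ => ∃ i, φ i = p)
      (fun φ => ∃ i, φ i = q), filter_filter, filter_filter]
    congr 2
    ext φ
    simp only [mem_filter]
    tauto
  have h5 : (cm J (P.erase p) Sigma.fst).card = fJ J T (up a l) := Diff_card_erase J hk hl
  have h6 : (cm J (P.erase q) Sigma.fst).card = fJ J T (up a k) := by rw [e1]; rfl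
  have h7 : (cm J ((P.erase q).erase p) Sigma.fst).card = fJ J T a := by rw [e2]; rfl
  have h8 : fJ J T (up (up a k) l) = (cm J P Sigma.fst).card := rfl
  rw [h5] at h3
  rw [h6, h7] at h2
  rw [h6] at h1
  rw [h8]
  have h2' : (fJ J T (up a k) : ℝ) = fJ J T a +
      ((cm J (P.erase q) Sigma.fst).filter fun φ => ∃ i, φ i = p).card := by exact_mod_cast h2
  have h3' : ((cm J P Sigma.fst).card : ℝ) = fJ J T (up a l) +
      ((cm J P Sigma.fst).filter fun φ => ∃ i, φ i = p).card := by exact_mod_cast h3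
  have h4' : (((cm J P Sigma.fst).filter fun φ => ∃ i, φ i = p).card : ℝ) =
      ((cm J (P.erase q) Sigma.fst).filter fun φ => ∃ i, φ i = p).card +
      ((cm J P Sigma.fst).filter fun φ => (∃ i, φ i = p) ∧ ∃ i, φ i = q).card := by
    exact_mod_cast h4
  linarith

/-- second differences, lower bound -/
theorem fJ_two_nonneg {κ : Type*} [DecidableEq κ] {T : Finset κ} {a : κ → ℕ} {k l : κ}
    (hk : k ∈ T) (hl : l ∈ T) :
    0 ≤ (fJ J T (up (up a k) l) : ℝ) - fJ J T (up a k) - fJ J T (up a l) + fJ J T a := by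
  rw [fJ_two J hk hl]
  exact Nat.cast_nonneg _

/-- second differences, upper bound -/
theorem fJ_two_le (hcs : 2 ≤ Fintype.card ι) {κ : Type*} [DecidableEq κ] {T : Finset κ} {a : κ → ℕ}
    {k l : κ} (hk : k ∈ T) (hl : l ∈ T) :
    (fJ J T (up (up a k) l) : ℝ) - fJ J T (up a k) - fJ J T (up a l) + fJ J T a ≤
      (Fintype.card ι : ℝ) ^ 2 * (∑ j ∈ T, (a j : ℝ)) ^ (Fintype.card ι - 2) := by
  rw [fJ_two J hk hl]
  have hpq : (⟨k, a k⟩ : Σ _ : κ, ℕ) ≠ ⟨l, up a k l⟩ := by
    intro h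
    rw [Sigma.mk.injEq] at h
    obtain ⟨h1, h2⟩ := h
    subst h1
    have := eq_of_heq h2
    rw [Diff_up_same] at this
    omega
  set p : Σ _ : κ, ℕ := ⟨k, a k⟩ with hp
  set q : Σ _ : κ, ℕ := ⟨l, up a k l⟩ with hq
  have h1 : ((cm J (pts T (up (up a k) l)) Sigma.fst).filter fun φ =>
        (∃ i, φ i = p) ∧ ∃ i, φ i = q) ⊆
      ((univ : Finset (ι × ι)).filter fun z => z.1 ≠ z.2).biUnion fun z => Fintype.piFinset fun t =>
        if t = z.1 then {p} else if t = z.2 then {q} else pts T a := by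
    intro φ hφ
    rw [mem_filter, Diff_mem_cm] at hφ
    obtain ⟨⟨h1, h2, -⟩, ⟨i, hi⟩, ⟨j, hj⟩⟩ := hφ
    rw [mem_biUnion]
    have hij : i ≠ j := by
      rintro rfl
      exact hpq (hi.symm.trans hj)
    refine ⟨(i, j), by simp [hij], ?_⟩
    rw [Fintype.mem_piFinset]
    intro t
    by_cases ht : t = i
    · subst ht
      simp [hi]
    · by_cases ht' : t = j
      · subst ht'
        simp [ht, hj]
      · simp only [if_neg ht, if_neg ht']
        rcases (Diff_mem_pts_up hl).mp (h1 t) with h | h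
        · rcases (Diff_mem_pts_up hk).mp h with h | h
          · exact h
          · exact absurd (h2 (h.trans hi.symm)) ht
        · exact absurd (h2 (h.trans hj.symm)) ht'
  have h2 : ((cm J (pts T (up (up a k) l)) Sigma.fst).filter fun φ =>
        (∃ i, φ i = p) ∧ ∃ i, φ i = q).card ≤
      Fintype.card ι ^ 2 * (∑ j ∈ T, a j) ^ (Fintype.card ι - 2) := by
    refine (card_le_card h1).trans (card_biUnion_le.trans ?_)
    refine (sum_le_card_nsmul _ _ ((∑ j ∈ T, a j) ^ (Fintype.card ι - 2)) fun z hz => ?_).trans ?_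
    · rw [mem_filter] at hz
      rw [Fintype.card_piFinset]
      refine le_of_eq ?_
      rw [← Diff_prod2 hz.2 (∑ j ∈ T, a j)]
      refine prod_congr rfl fun t _ => ?_
      by_cases ht : t = z.1
      · simp [ht]
      · by_cases ht' : t = z.2
        · rw [if_neg ht, if_pos ht', if_neg ht, if_pos ht', card_singleton]
        · simp [ht, ht', Diff_card_pts]
    · rw [smul_eq_mul]
      refine Nat.mul_le_mul_right _ ((card_filter_le _ _).trans ?_)
      rw [card_univ, Fintype.card_prod, sq]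
  exact_mod_cast h2

theorem Diff_sum_up {κ : Type*} [DecidableEq κ] {T : Finset κ} (a : κ → ℕ) {k : κ} (hk : k ∈ T) :
    ∑ j ∈ T, ((up a k) j : ℝ) = ∑ j ∈ T, (a j : ℝ) + 1 := by
  rw [← Finset.add_sum_erase T _ hk, ← Finset.add_sum_erase T (fun j => (a j : ℝ)) hk, Diff_up_same]
  have : ∑ x ∈ T.erase k, ((up a k) x : ℝ) = ∑ x ∈ T.erase k, (a x : ℝ) :=
    sum_congr rfl fun x hx => by rw [Diff_up_ne _ (ne_of_mem_erase hx)]
  rw [this]
  push_cast
  ring

/-- the first difference is Lipschitz -/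
theorem D_lip (hcs : 2 ≤ Fintype.card ι) {κ : Type*} [DecidableEq κ] {T : Finset κ} {a b : κ → ℕ}
    (hab : ∀ k ∈ T, a k ≤ b k) {k : κ} (hk : k ∈ T) :
    0 ≤ ((fJ J T (up b k) : ℝ) - fJ J T b) - ((fJ J T (up a k) : ℝ) - fJ J T a) ∧
    ((fJ J T (up b k) : ℝ) - fJ J T b) - ((fJ J T (up a k) : ℝ) - fJ J T a) ≤
      (Fintype.card ι : ℝ) ^ 2 * (∑ j ∈ T, (b j : ℝ)) ^ (Fintype.card ι - 2) *
        (∑ j ∈ T, (b j : ℝ) - ∑ j ∈ T, (a j : ℝ)) := by
  obtain ⟨n, hn⟩ : ∃ n : ℕ, n = ∑ j ∈ T, (b j - a j) := ⟨_, rfl⟩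
  induction n generalizing b with
  | zero =>
    have h0 : ∀ j ∈ T, b j = a j := by
      intro j hj
      have h1 := (Finset.sum_eq_zero_iff.mp hn.symm) j hj
      have h2 := hab j hj
      omega
    have h1 : fJ J T b = fJ J T a := fJ_congr J h0
    have h2 : fJ J T (up b k) = fJ J T (up a k) := by
      refine fJ_congr J fun j hj => ?_
      by_cases hjk : j = k
      · subst hjk
        rw [Diff_up_same, Diff_up_same, h0 j hj]
      · rw [Diff_up_ne _ hjk, Diff_up_ne _ hjk, h0 j hj]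
    have h3 : ∑ j ∈ T, (b j : ℝ) = ∑ j ∈ T, (a j : ℝ) := sum_congr rfl fun j hj => by rw [h0 j hj]
    rw [h1, h2, h3]
    simp
  | succ n ih =>
    obtain ⟨l, hl, hlt⟩ : ∃ l ∈ T, a l < b l := by
      by_contra hcon
      push Not at hcon
      have : ∑ j ∈ T, (b j - a j) = 0 :=
        Finset.sum_eq_zero fun j hj => by have := hcon j hj; omega
      omega
    set b' : κ → ℕ := Function.update b l (b l - 1) with hb'
    have hb'l : b' l = b l - 1 := by simp [hb']
    have hb'j : ∀ j, j ≠ l → b' j = b j := fun j hj => by simp [hb', hj]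
    have hup : up b' l = b := by
      funext j
      by_cases hj : j = l
      · subst hj
        rw [Diff_up_same, hb'l]
        omega
      · rw [Diff_up_ne _ hj, hb'j j hj]
    have hab' : ∀ j ∈ T, a j ≤ b' j := by
      intro j hj
      by_cases hjl : j = l
      · subst hjl
        rw [hb'l]
        omega
      · rw [hb'j j hjl]
        exact hab j hj
    have hn' : n = ∑ j ∈ T, (b' j - a j) := by
      have e1 : ∑ j ∈ T, (b j - a j) = (b l - a l) + ∑ j ∈ T.erase l, (b j - a j) :=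
        (Finset.add_sum_erase T _ hl).symm
      have e2 : ∑ j ∈ T, (b' j - a j) = (b' l - a l) + ∑ j ∈ T.erase l, (b' j - a j) :=
        (Finset.add_sum_erase T _ hl).symm
      have e3 : ∑ j ∈ T.erase l, (b' j - a j) = ∑ j ∈ T.erase l, (b j - a j) :=
        sum_congr rfl fun j hj => by rw [hb'j j (ne_of_mem_erase hj)]
      rw [e3, hb'l] at e2
      omega
    obtain ⟨i1, i2⟩ := ih hab' hn'
    have s1 := fJ_two_nonneg J (a := b') hk hl
    have s2 := fJ_two_le J hcs (a := b') hk hl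
    have hcomm : up (up b' k) l = up b k := by rw [Diff_up_comm, hup]
    rw [hcomm, hup] at s1 s2
    have hsum : ∑ j ∈ T, (b j : ℝ) = ∑ j ∈ T, (b' j : ℝ) + 1 := by
      rw [← hup]
      exact Diff_sum_up b' hl
    have hpos : 0 ≤ ∑ j ∈ T, (b' j : ℝ) := sum_nonneg fun j _ => Nat.cast_nonneg _
    have hle : (∑ j ∈ T, (b' j : ℝ)) ^ (Fintype.card ι - 2) ≤
        (∑ j ∈ T, (b j : ℝ)) ^ (Fintype.card ι - 2) :=
      pow_le_pow_left₀ hpos (by linarith) _
    have hab'' : ∑ j ∈ T, (a j : ℝ) ≤ ∑ j ∈ T, (b' j : ℝ) :=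
      sum_le_sum fun j hj => by exact_mod_cast hab' j hj
    have hc : (0 : ℝ) ≤ (Fintype.card ι : ℝ) ^ 2 := by positivity
    refine ⟨by linarith, ?_⟩
    have t1 : (Fintype.card ι : ℝ) ^ 2 * (∑ j ∈ T, (b' j : ℝ)) ^ (Fintype.card ι - 2) *
        (∑ j ∈ T, (b' j : ℝ) - ∑ j ∈ T, (a j : ℝ)) ≤
        (Fintype.card ι : ℝ) ^ 2 * (∑ j ∈ T, (b j : ℝ)) ^ (Fintype.card ι - 2) *
        (∑ j ∈ T, (b' j : ℝ) - ∑ j ∈ T, (a j : ℝ)) :=
      mul_le_mul_of_nonneg_right (mul_le_mul_of_nonneg_left hle hc) (by linarith)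
    have t2 : (Fintype.card ι : ℝ) ^ 2 * (∑ j ∈ T, (b' j : ℝ)) ^ (Fintype.card ι - 2) ≤
        (Fintype.card ι : ℝ) ^ 2 * (∑ j ∈ T, (b j : ℝ)) ^ (Fintype.card ι - 2) :=
      mul_le_mul_of_nonneg_left hle hc
    have t3 : (Fintype.card ι : ℝ) ^ 2 * (∑ j ∈ T, (b j : ℝ)) ^ (Fintype.card ι - 2) *
        (∑ j ∈ T, (b j : ℝ) - ∑ j ∈ T, (a j : ℝ)) =
        (Fintype.card ι : ℝ) ^ 2 * (∑ j ∈ T, (b j : ℝ)) ^ (Fintype.card ι - 2) *
        (∑ j ∈ T, (b' j : ℝ) - ∑ j ∈ T, (a j : ℝ)) +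
        (Fintype.card ι : ℝ) ^ 2 * (∑ j ∈ T, (b j : ℝ)) ^ (Fintype.card ι - 2) := by
      rw [hsum]
      ring
    rw [t3]
    linarith

end H57GH
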