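import Pool.Agent.H57.GH.Defs

/-!
Copies of a graph with isolated vertices.
-/

namespace H57GH

open Finset H57LC H57LT

set_option linter.unusedSectionVars false

/-- membership in `emb` -/
theorem EmbI_mem {ι : Type*} [Fintype ι] [DecidableEq ι] (J : SimpleGraph ι)
    [DecidableRel J.Adj] {V : Type*} [DecidableEq V] (G : SimpleGraph V) [DecidableRel G.Adj]
    (S : Finset V) (φ : ι → V) : φ ∈ emb J G S ↔ (∀ i, φ i ∈ S) ∧ Function.Injective φ ∧
      ∀ i j, J.Adj i j → G.Adj (φ i) (φ j) := by
  unfold emb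
  rw [Finset.mem_filter, Fintype.mem_piFinset]

/-- the number of extensions of a copy to the isolated vertices -/
theorem EmbI_fiber {ι : Type*} [Fintype ι] [DecidableEq ι] (J : SimpleGraph ι)
    [DecidableRel J.Adj] {V : Type*} [DecidableEq V] (G : SimpleGraph V) [DecidableRel G.Adj]
    (I : Finset ι) (hI : ∀ v ∈ I, ∀ w, ¬ J.Adj v w) (S : Finset V) (ψ : {v // v ∉ I} → V)
    (hψS : ∀ i, ψ i ∈ S) (hψi : Function.Injective ψ)
    (hψa : ∀ i j : {v // v ∉ I}, J.Adj i.1 j.1 → G.Adj (ψ i) (ψ j)) :
    ((emb J G S).filter fun φ => (fun v : {v // v ∉ I} => φ v.1) = ψ).card =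
      (S.card - Fintype.card {v // v ∉ I}).descFactorial I.card := by
  classical
  have hsub : (univ.image ψ) ⊆ S := by
    intro x hx
    obtain ⟨i, -, rfl⟩ := Finset.mem_image.1 hx
    exact hψS i
  obtain ⟨D, hD⟩ : ∃ D : Finset V, D = S \ univ.image ψ := ⟨_, rfl⟩
  have hc : Fintype.card {x // x ∈ D} = S.card - Fintype.card {v // v ∉ I} := by
    rw [Fintype.card_coe, hD, Finset.card_sdiff_of_subset hsub,
      Finset.card_image_of_injective _ hψi, Finset.card_univ]
  have h1 : ((emb J G S).filter fun φ => (fun v : {v // v ∉ I} => φ v.1) = ψ).card =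
      Fintype.card ({v // v ∈ I} ↪ {x // x ∈ D}) := by
    rw [← Finset.card_univ]
    refine Finset.card_bij (fun φ hφ => ⟨fun i => ⟨φ i.1, ?_⟩, ?_⟩) ?_ ?_ ?_
    · have hφ' := Finset.mem_filter.1 hφ
      have hφe := (EmbI_mem J G S φ).1 hφ'.1
      rw [hD]
      refine Finset.mem_sdiff.2 ⟨hφe.1 i.1, ?_⟩
      intro hx
      obtain ⟨j, -, hj⟩ := Finset.mem_image.1 hx
      rw [← hφ'.2] at hj
      have hji : j.1 = i.1 := hφe.2.1 hj
      exact j.2 (hji ▸ i.2)
    · intro i j hij
      have hφ' := Finset.mem_filter.1 hφ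
      have hφe := (EmbI_mem J G S φ).1 hφ'.1
      have h2 : φ i.1 = φ j.1 := congrArg Subtype.val hij
      exact Subtype.ext (hφe.2.1 h2)
    · intro φ hφ
      exact Finset.mem_univ _
    · intro φ hφ φ' hφ' h
      have h2 := (Finset.mem_filter.1 hφ).2
      have h3 := (Finset.mem_filter.1 hφ').2
      funext v
      by_cases hv : v ∈ I
      · have h4 := DFunLike.congr_fun h ⟨v, hv⟩
        exact congrArg Subtype.val h4
      · have h5 := congrFun h2 ⟨v, hv⟩
        have h6 := congrFun h3 ⟨v, hv⟩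
        exact h5.trans h6.symm
    · intro g _
      set φ : ι → V := fun v => if h : v ∈ I then (g ⟨v, h⟩).1 else ψ ⟨v, h⟩ with hφ
      have hin : ∀ v (h : v ∈ I), φ v = (g ⟨v, h⟩).1 := fun v h => by rw [hφ]; simp [h]
      have hout : ∀ v (h : v ∉ I), φ v = ψ ⟨v, h⟩ := fun v h => by rw [hφ]; simp [h]
      have hgS : ∀ x, (g x).1 ∈ S ∧ (g x).1 ∉ univ.image ψ := fun x =>
        Finset.mem_sdiff.1 (hD ▸ (g x).2)
      have hmem : φ ∈ (emb J G S).filter fun φ => (fun v : {v // v ∉ I} => φ v.1) = ψ := by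
        rw [Finset.mem_filter, EmbI_mem]
        refine ⟨⟨?_, ?_, ?_⟩, ?_⟩
        · intro v
          by_cases hv : v ∈ I
          · rw [hin v hv]; exact (hgS _).1
          · rw [hout v hv]; exact hψS _
        · intro v w hvw
          by_cases hv : v ∈ I
          · by_cases hw : w ∈ I
            · rw [hin v hv, hin w hw] at hvw
              have := g.injective (Subtype.ext hvw)
              exact congrArg Subtype.val this
            · rw [hin v hv, hout w hw] at hvw
              exact absurd (Finset.mem_image.2 ⟨⟨w, hw⟩, Finset.mem_univ _, hvw.symm⟩)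
                (hgS _).2
          · by_cases hw : w ∈ I
            · rw [hout v hv, hin w hw] at hvw
              exact absurd (Finset.mem_image.2 ⟨⟨v, hv⟩, Finset.mem_univ _, hvw⟩)
                (hgS _).2
            · rw [hout v hv, hout w hw] at hvw
              exact congrArg Subtype.val (hψi hvw)
        · intro i j hij
          have hi : i ∉ I := fun h => hI i h j hij
          have hj : j ∉ I := fun h => hI j h i hij.symm
          rw [hout i hi, hout j hj]
          exact hψa ⟨i, hi⟩ ⟨j, hj⟩ hij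
        · funext v
          exact hout v.1 v.2
      refine ⟨φ, hmem, ?_⟩
      ext x
      exact hin x.1 x.2
  rw [h1, Fintype.card_embedding_eq, hc, Fintype.card_coe]

theorem emb_isolated {ι : Type*} [Fintype ι] [DecidableEq ι] (J : SimpleGraph ι)
    [DecidableRel J.Adj] {V : Type*} [DecidableEq V] (G : SimpleGraph V) [DecidableRel G.Adj]
    (I : Finset ι) (hI : ∀ v ∈ I, ∀ w, ¬ J.Adj v w) (S : Finset V) :
    (emb J G S).card = (emb (J.comap (Subtype.val : {v // v ∉ I} → ι)) G S).card *
      (S.card - Fintype.card {v // v ∉ I}).descFactorial I.card := by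
  classical
  rw [Finset.card_eq_sum_card_fiberwise
    (f := fun (φ : ι → V) (v : {v // v ∉ I}) => φ v.1)
    (t := emb (J.comap (Subtype.val : {v // v ∉ I} → ι)) G S) ?_]
  · rw [Finset.sum_const_nat (m := (S.card - Fintype.card {v // v ∉ I}).descFactorial I.card)]
    intro ψ hψ
    have h := (EmbI_mem _ G S ψ).1 hψ
    exact EmbI_fiber J G I hI S ψ h.1 h.2.1 (fun i j hij => h.2.2 i j hij)
  · intro φ hφ
    have h := (EmbI_mem J G S φ).1 (Finset.mem_coe.1 hφ)
    refine Finset.mem_coe.2 ((EmbI_mem _ G S _).2 ⟨fun i => h.1 i.1, ?_, ?_⟩)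
    · intro i j hij
      exact Subtype.ext (h.2.1 hij)
    · intro i j hij
      exact h.2.2 i.1 j.1 hij

end H57GH
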