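import Pool.Agent.H57.LC.TurN

/-!
Project GH (general graphs `H`): the extremal function for the number of copies of `H`.
-/

namespace H57GH

open H57E32

/-- `ex_u(p, H, {K_u ∨ I_{Δ+1}, K_{ω+1}})`: the largest number of copies of `H` (subgraphs
isomorphic to `H`) in an allowed graph with exactly `p` cliques of size `u` -/
noncomputable def exH {W : Type*} [Fintype W] (H : SimpleGraph W) (u Δ ω p : ℕ) : ℕ :=
  sSup {N : ℕ | ∃ (n : ℕ) (G : SimpleGraph (Fin n)), Allowed u Δ ω G ∧ kc u G = p ∧
    G.copyCount H = N}

end H57GH
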