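import Pool.Agent.H57.GH.LimG

/-!
General graphs `H` with `u` dominating vertices.
-/

namespace H57GH

open Finset H57LC H57LT H57E32 Filter Topology

set_option linter.unusedSectionVars false

lemma FinalH_copyCount_congr {W W' : Type} [Fintype W] [Fintype W'] {H : SimpleGraph W}
    {H' : SimpleGraph W'} (e : H' ≃g H) {V : Type} [Fintype V] (G : SimpleGraph V) :
    G.copyCount H' = G.copyCount H := by
  classical
  unfold SimpleGraph.copyCount
  congr 1
  ext G'
  simp only [mem_filter, mem_univ, true_and]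
  exact ⟨fun ⟨f⟩ => ⟨e.symm.trans f⟩, fun ⟨f⟩ => ⟨e.trans f⟩⟩

lemma FinalH_exH_congr {W W' : Type} [Fintype W] [Fintype W'] {H : SimpleGraph W}
    {H' : SimpleGraph W'} (e : H' ≃g H) (u Δ ω p : ℕ) : exH H' u Δ ω p = exH H u Δ ω p := by
  unfold exH
  simp only [FinalH_copyCount_congr e]

/-- the graph `H` is the join of a clique and the rest -/
noncomputable def FinalH_iso {W : Type} [Fintype W] [DecidableEq W] (H : SimpleGraph W)
    (u : ℕ) (U₀ : Finset W) (hU : U₀.card = u)
    (hdom : ∀ x ∈ U₀, ∀ y, y ≠ x → H.Adj x y) :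
    jn (H.comap (fun x : {x : W // ¬ x ∈ U₀} => (x : W))) u ≃g H where
  toEquiv := (Equiv.sumCongr (Finset.equivFinOfCardEq hU).symm (Equiv.refl _)).trans
    (Equiv.sumCompl (· ∈ U₀))
  map_rel_iff' := by
    intro a b
    rcases a with i | x <;> rcases b with j | y
    · simp only [Equiv.trans_apply, Equiv.sumCongr_apply, Sum.map_inl, Equiv.sumCompl_apply_inl,
        jn, Sum.isLeft_inl, true_or, and_true, ne_eq, Sum.inl.injEq]
      constructor
      · intro h hij
        subst hij
        exact H.loopless.irrefl _ h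
      · intro h
        refine hdom _ ((Finset.equivFinOfCardEq hU).symm i).2 _ ?_
        intro h2
        exact h ((Finset.equivFinOfCardEq hU).symm.injective (Subtype.ext h2)).symm
    · simp only [Equiv.trans_apply, Equiv.sumCongr_apply, Sum.map_inl, Sum.map_inr,
        Equiv.sumCompl_apply_inl, Equiv.sumCompl_apply_inr, jn, Sum.isLeft_inl, true_or, and_true,
        ne_eq, reduceCtorEq, not_false_eq_true, iff_true, Equiv.refl_apply]
      refine hdom _ ((Finset.equivFinOfCardEq hU).symm i).2 _ ?_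
      intro h2
      exact y.2 (h2 ▸ ((Finset.equivFinOfCardEq hU).symm i).2)
    · simp only [Equiv.trans_apply, Equiv.sumCongr_apply, Sum.map_inl, Sum.map_inr,
        Equiv.sumCompl_apply_inl, Equiv.sumCompl_apply_inr, jn, Sum.isLeft_inl, true_or, or_true,
        and_true, ne_eq, reduceCtorEq, not_false_eq_true, iff_true, Equiv.refl_apply]
      refine (hdom _ ((Finset.equivFinOfCardEq hU).symm j).2 _ ?_).symm
      intro h2
      exact x.2 (h2 ▸ ((Finset.equivFinOfCardEq hU).symm j).2)
    · simp only [Equiv.trans_apply, Equiv.sumCongr_apply, Sum.map_inr,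
        Equiv.sumCompl_apply_inr, jn, Sum.isLeft_inr, Bool.false_eq_true, false_or,
        ne_eq, Sum.inr.injEq, Equiv.refl_apply]
      constructor
      · intro h
        exact ⟨fun h2 => H.loopless.irrefl _ (h2 ▸ h), x, y, rfl, rfl, h⟩
      · rintro ⟨-, x', y', rfl, rfl, h⟩
        exact h

theorem main_H {W : Type} [Fintype W] [DecidableEq W] (H : SimpleGraph W) [DecidableRel H.Adj]
    (u : ℕ) (hu : 1 ≤ u) (U₀ : Finset W) (hU : U₀.card = u)
    (hdom : ∀ x ∈ U₀, ∀ y, y ≠ x → H.Adj x y) (hW : u < Fintype.card W)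
    (hδ : u + 1 ≤ H.minDegree) : ∃ R₀ : ℕ, ∃ c₀ : ℝ, 0 < c₀ ∧ ∀ R r : ℕ, R₀ ≤ R → 1 ≤ r →
    (r + u ≤ H.minDegree ∨ (2 * u ≤ H.minDegree ∧ u + 2 ≤ H.minDegree ∧ (r : ℝ) ≤ c₀ * R)) →
    ∃ m₀ : ℕ, ∀ m : ℕ, m₀ ≤ m →
      (∀ p : ℕ, exH H u (R * m + r) (R + u) p * kc u (TG (R + u) m r) ≤
        p * (TG (R + u) m r).copyCount H) ∧
      (∀ q : ℕ, exH H u (R * m + r) (R + u) (q * kc u (TG (R + u) m r)) =
        q * (TG (R + u) m r).copyCount H) ∧
      Tendsto (fun p : ℕ => (exH H u (R * m + r) (R + u) p : ℝ) / p) atTop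
        (𝓝 (((TG (R + u) m r).copyCount H : ℝ) / kc u (TG (R + u) m r))) := by
  classical
  set J : SimpleGraph {x : W // ¬ x ∈ U₀} := H.comap (fun x => (x : W)) with hJ
  have e : jn J u ≃g H := FinalH_iso H u U₀ hU hdom
  have hne : Nonempty {x : W // ¬ x ∈ U₀} := by
    by_contra h
    rw [not_nonempty_iff] at h
    have : ∀ x : W, x ∈ U₀ := fun x => by
      by_contra hx
      exact h.false ⟨x, hx⟩
    have h2 : (univ : Finset W) ⊆ U₀ := fun x _ => this x
    have h3 := card_le_card h2
    rw [card_univ] at h3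
    omega
  have hd : ∀ v, H.minDegree - u ≤ dg J univ v := by
    intro v
    have h1 : H.minDegree ≤ H.degree (v : W) := H.minDegree_le_degree _
    have h2 : H.degree (v : W) ≤ U₀.card + dg J univ v := by
      have h3 : H.neighborFinset (v : W) ⊆
          U₀ ∪ ((univ : Finset {x : W // ¬ x ∈ U₀}).filter fun y => J.Adj v y).image
            (fun y : {x : W // ¬ x ∈ U₀} => (y : W)) := by
        intro y hy
        rw [SimpleGraph.mem_neighborFinset] at hy
        rw [mem_union]
        by_cases hyU : y ∈ U₀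
        · exact Or.inl hyU
        · right
          rw [mem_image]
          refine ⟨⟨y, hyU⟩, ?_, rfl⟩
          rw [mem_filter]
          exact ⟨mem_univ _, hy⟩
      calc H.degree (v : W) = (H.neighborFinset (v : W)).card := rfl
        _ ≤ _ := card_le_card h3
        _ ≤ _ := card_union_le _ _
        _ ≤ U₀.card + dg J univ v := Nat.add_le_add_left card_image_le _
    omega
  obtain ⟨R₀, c₀, hc, h⟩ := main_limG J u hu (H.minDegree - u) (by omega) hd
  refine ⟨R₀, c₀, hc, fun R r hR hr hcond => ?_⟩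
  obtain ⟨m₀, hm⟩ := h R r hR hr (by
    rcases hcond with h1 | ⟨h1, h2, h3⟩
    · left; omega
    · right; exact ⟨by omega, by omega, h3⟩)
  refine ⟨m₀, fun m hmm => ?_⟩
  have := hm m hmm
  simp only [FinalH_copyCount_congr e, FinalH_exH_congr e] at this
  exact this

end H57GH
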