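import Pool.Agent.H57.GH.Defs
import Pool.Agent.H57.LC.TurN

/-!
A graph that is better than the Turan graph for large residues: definition, allowed.
-/

namespace H57GH

open Finset H57LC H57LT H57E32

set_option linter.unusedSectionVars false

/-- class sizes -/
def sz1 (u R r m : ℕ) (k : Fin (R + u)) : ℕ :=
  if k.val = 0 then m + u else if k.val ≤ r then m + 1 else m

/-- the vertex `i` of class `0` is not joined to the class `r + 1 + i` -/
def ms (r : ℕ) (c i c' : ℕ) : Prop := c = 0 ∧ r + 1 + i = c'

instance (r c i c' : ℕ) : Decidable (ms r c i c') := by unfold ms; infer_instance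

/-- complete multipartite with `R + u` classes, except that the vertex `i` of class `0` is not
joined to the class `r + 1 + i` -/
def G1 (u R r m : ℕ) : SimpleGraph (Σ k : Fin (R + u), Fin (sz1 u R r m k)) where
  Adj a b := a.1 ≠ b.1 ∧ ¬ ms r a.1.val a.2.val b.1.val ∧ ¬ ms r b.1.val b.2.val a.1.val
  symm := ⟨fun _ _ h => ⟨h.1.symm, h.2.2, h.2.1⟩⟩
  loopless := ⟨fun _ h => h.1 rfl⟩

instance decG1 (u R r m : ℕ) : DecidableRel (G1 u R r m).Adj := fun a b => by
  unfold G1
  infer_instance

lemma G1a_card {u R r m : ℕ} (hu : 1 ≤ u) (hr : r < R) :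
    Fintype.card (Σ k : Fin (R + u), Fin (sz1 u R r m k)) = (R * m + r) + (u * m + u) := by
  rw [Fintype.card_sigma]
  simp only [Fintype.card_fin]
  have h1 : ∀ k : Fin (R + u), sz1 u R r m k =
      m + ((if k.val = 0 then u else 0) + (if 1 ≤ k.val ∧ k.val ≤ r then 1 else 0)) := by
    intro k
    unfold sz1
    split_ifs <;> omega
  rw [sum_congr rfl fun k _ => h1 k, sum_add_distrib, sum_add_distrib, sum_const, card_univ,
    Fintype.card_fin, smul_eq_mul]
  have h2 : (∑ k : Fin (R + u), if k.val = 0 then u else 0) = u := by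
    rw [sum_eq_single (⟨0, by omega⟩ : Fin (R + u))]
    · simp
    · intro b _ hb
      rw [if_neg]
      intro h
      exact hb (Fin.ext h)
    · intro h
      exact absurd (mem_univ _) h
  have h3 : (∑ k : Fin (R + u), if 1 ≤ k.val ∧ k.val ≤ r then 1 else 0) = r := by
    rw [Fin.sum_univ_eq_sum_range (fun k => if 1 ≤ k ∧ k ≤ r then 1 else 0) (R + u),
      ← card_filter]
    have h4 : ((range (R + u)).filter fun k => 1 ≤ k ∧ k ≤ r) = Icc 1 r := by
      ext k
      simp only [mem_filter, mem_range, mem_Icc]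
      omega
    rw [h4, Nat.card_Icc]
    omega
  rw [h2, h3]
  ring

lemma G1a_fst_inj {u R r m : ℕ} {A : Finset (Σ k : Fin (R + u), Fin (sz1 u R r m k))}
    (hA : (G1 u R r m).IsClique (A : Set (Σ k : Fin (R + u), Fin (sz1 u R r m k)))) :
    Set.InjOn Sigma.fst (A : Set (Σ k : Fin (R + u), Fin (sz1 u R r m k))) := by
  intro x hx y hy hxy
  by_contra hne
  exact (hA hx hy hne).1 hxy

lemma G1a_cn {u R r m : ℕ} (hu : 1 ≤ u) (hr : r < R) (hm : R ≤ m)
    {A : Finset (Σ k : Fin (R + u), Fin (sz1 u R r m k))} (hA : (G1 u R r m).IsNClique u A) :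
    (H57E32.cn (G1 u R r m) A).card ≤ R * m + r := by
  classical
  have hinj := G1a_fst_inj hA.1
  set P := A.image Sigma.fst with hP
  have hPc : P.card = u := by
    rw [hP, card_image_of_injOn hinj, hA.card_eq]
  set B1 := P.sigma (fun k => (univ : Finset (Fin (sz1 u R r m k)))) with hB1
  set B2 := (univ : Finset (Σ k : Fin (R + u), Fin (sz1 u R r m k))).filter
    (fun v => v.1.val = 0 ∧ ∃ k ∈ P, r + 1 + v.2.val = k.val) with hB2
  have hc1 : B1.card = ∑ k ∈ P, sz1 u R r m k := by
    rw [hB1, card_sigma]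
    simp
  have hd1 : Disjoint (H57E32.cn (G1 u R r m) A) B1 := by
    rw [disjoint_left]
    intro v hv hv'
    rw [hB1, mem_sigma, hP, mem_image] at hv'
    obtain ⟨⟨a, ha, hav⟩, _⟩ := hv'
    exact (H57E32.mem_cn.mp hv a ha).1 hav
  have hd2 : Disjoint (H57E32.cn (G1 u R r m) A) B2 := by
    rw [disjoint_left]
    intro v hv hv'
    rw [hB2, mem_filter] at hv'
    obtain ⟨_, h0, k, hk, hvk⟩ := hv'
    rw [hP, mem_image] at hk
    obtain ⟨a, ha, hak⟩ := hk
    apply (H57E32.mem_cn.mp hv a ha).2.2
    refine ⟨h0, ?_⟩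
    rw [hvk, hak]
  have hcard := G1a_card (m := m) hu hr
  by_cases h0 : (⟨0, by omega⟩ : Fin (R + u)) ∈ P
  · have h2 := card_union_of_disjoint hd1
    have h3 := card_le_univ (H57E32.cn (G1 u R r m) A ∪ B1)
    rw [h2, hcard, hc1, ← insert_erase h0, sum_insert (notMem_erase _ _)] at h3
    have h4 : (u - 1) * m ≤ ∑ k ∈ P.erase ⟨0, by omega⟩, sz1 u R r m k := by
      calc (u - 1) * m = ∑ k ∈ P.erase (⟨0, by omega⟩ : Fin (R + u)), m := by
            rw [sum_const, card_erase_of_mem h0, hPc, smul_eq_mul]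
        _ ≤ _ := sum_le_sum fun k _ => by unfold sz1; split_ifs <;> omega
    have h5 : sz1 u R r m (⟨0, by omega⟩ : Fin (R + u)) = m + u := by
      unfold sz1
      rw [if_pos rfl]
    have h6 : (u - 1) * m + m = u * m := by
      obtain ⟨v, rfl⟩ := Nat.exists_eq_add_of_le' hu
      rw [Nat.add_sub_cancel]
      ring
    omega
  · have hne : ∀ k ∈ P, k.val ≠ 0 := by
      intro k hk h
      apply h0
      have : k = ⟨0, by omega⟩ := Fin.ext h
      rwa [← this]
    have h12 : Disjoint B1 B2 := by
      rw [disjoint_left]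
      intro v hv hv'
      rw [hB1, mem_sigma] at hv
      rw [hB2, mem_filter] at hv'
      exact hne _ hv.1 hv'.2.1
    have hc2 : (P.filter fun k => r < k.val).card ≤ B2.card := by
      have hlt : ∀ k : Fin (R + u), k.val - r - 1 < sz1 u R r m (⟨0, by omega⟩ : Fin (R + u)) := by
        intro k
        have h5 : sz1 u R r m (⟨0, by omega⟩ : Fin (R + u)) = m + u := by
          unfold sz1
          rw [if_pos rfl]
        have := k.2
        omega
      apply card_le_card_of_injOn
        (fun k => (⟨⟨0, by omega⟩, ⟨k.val - r - 1, hlt k⟩⟩ :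
          Σ k : Fin (R + u), Fin (sz1 u R r m k)))
      · intro k hk
        rw [mem_coe, mem_filter] at hk
        rw [mem_coe, hB2, mem_filter]
        refine ⟨mem_univ _, rfl, k, hk.1, ?_⟩
        change r + 1 + (k.val - r - 1) = k.val
        have := hk.2
        omega
      · intro k hk l hl hkl
        rw [mem_coe, mem_filter] at hk hl
        rw [Sigma.mk.injEq] at hkl
        have h7 := eq_of_heq hkl.2
        rw [Fin.mk.injEq] at h7
        apply Fin.ext
        have h8 := hk.2
        have h9 := hl.2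
        omega
    have hd : Disjoint (H57E32.cn (G1 u R r m) A) (B1 ∪ B2) := by
      rw [disjoint_union_right]
      exact ⟨hd1, hd2⟩
    have h2 := card_union_of_disjoint hd
    have h3 := card_le_univ (H57E32.cn (G1 u R r m) A ∪ (B1 ∪ B2))
    rw [h2, hcard, card_union_of_disjoint h12, hc1] at h3
    have h4 : u * (m + 1) ≤ ∑ k ∈ P, sz1 u R r m k + (P.filter fun k => r < k.val).card := by
      rw [card_filter, ← sum_add_distrib]
      calc u * (m + 1) = ∑ k ∈ P, (m + 1) := by rw [sum_const, hPc, smul_eq_mul]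
        _ ≤ _ := sum_le_sum fun k hk => by
            have := hne k hk
            unfold sz1
            split_ifs <;> omega
    have h5 : u * (m + 1) = u * m + u := by ring
    omega

theorem G1_allowed {u R r m : ℕ} (hu : 1 ≤ u) (hr : r < R) (hm : R ≤ m) :
    Allowed u (R * m + r) (R + u) (G1 u R r m) := by
  classical
  rw [allowed_iff]
  constructor
  · intro A hA
    rw [cns_ncard]
    exact G1a_cn hu hr hm hA
  · intro A hA
    have h1 := card_image_of_injOn (G1a_fst_inj hA.1)
    have h2 := card_le_univ (A.image Sigma.fst)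
    rw [h1, hA.card_eq, Fintype.card_fin] at h2
    omega

end H57GH
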