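import Pool.Agent.H57.GH.G1a

/-!
The number of `u`-cliques of `G1`.
-/

namespace H57GH

open Finset H57LC H57LT H57E32

set_option linter.unusedSectionVars false

/-- the complete multipartite graph which contains `G1` -/
def G1b_M (u R r m : ℕ) : SimpleGraph (Σ k : Fin (R + u), Fin (sz1 u R r m k)) where
  Adj a b := a.1 ≠ b.1
  symm := ⟨fun _ _ h => h.symm⟩
  loopless := ⟨fun _ h => h rfl⟩

instance G1b_dec (u R r m : ℕ) : DecidableRel (G1b_M u R r m).Adj := fun a b => by
  unfold G1b_M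
  infer_instance

theorem G1b_cls {u R r m : ℕ} (k : Fin (R + u)) :
    (cls (fun v : (Σ k : Fin (R + u), Fin (sz1 u R r m k)) => v.1) k).card = sz1 u R r m k := by
  have h : cls (fun v : (Σ k : Fin (R + u), Fin (sz1 u R r m k)) => v.1) k =
      (univ : Finset (Fin (sz1 u R r m k))).map (Function.Embedding.sigmaMk k) := by
    ext ⟨a, b⟩
    unfold cls
    rw [mem_filter, mem_map]
    constructor
    · rintro ⟨-, h⟩
      have h' : a = k := h
      subst h'
      exact ⟨b, mem_univ _, rfl⟩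
    · rintro ⟨b', -, h⟩
      refine ⟨mem_univ _, ?_⟩
      have := congrArg Sigma.fst h
      exact this.symm
  rw [h, card_map, card_univ, Fintype.card_fin]

theorem G1b_kc {u R r m : ℕ} : (kc u (G1b_M u R r m) : ℝ) =
    eS univ (fun k => (sz1 u R r m k : ℝ)) u := by
  rw [kc_multi (fun v : (Σ k : Fin (R + u), Fin (sz1 u R r m k)) => v.1) (fun _ _ => Iff.rfl)]
  unfold eS
  push_cast
  refine sum_congr rfl fun J _ => prod_congr rfl fun j _ => ?_
  rw [G1b_cls]

theorem G1b_card {α : Type*} [DecidableEq α] {T : Finset α} {a : α} (ha : a ∈ T) {n k : ℕ}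
    (hT : T.card = n + 1) : ((powersetCard (k + 1) T).filter fun J => a ∈ J).card = n.choose k := by
  have h1 : (T.erase a).card = n := by rw [card_erase_of_mem ha, hT, Nat.add_sub_cancel]
  rw [← h1, ← card_powersetCard]
  symm
  refine card_nbij' (fun J => insert a J) (fun J => J.erase a) ?_ ?_ ?_ ?_
  · intro J hJ
    have hJ' := mem_powersetCard.1 hJ
    have haJ : a ∉ J := fun h => notMem_erase a T (hJ'.1 h)
    simp only [coe_filter, Set.mem_ofPred_eq]
    refine ⟨mem_powersetCard.2 ⟨insert_subset ha (hJ'.1.trans (erase_subset _ _)), ?_⟩,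
      mem_insert_self _ _⟩
    rw [card_insert_of_notMem haJ, hJ'.2]
  · intro J hJ
    simp only [coe_filter, Set.mem_ofPred_eq] at hJ
    have hJ' := mem_powersetCard.1 hJ.1
    rw [mem_coe, mem_powersetCard]
    refine ⟨erase_subset_erase _ hJ'.1, ?_⟩
    rw [card_erase_of_mem hJ.2, hJ'.2, Nat.add_sub_cancel]
  · intro J hJ
    have hJ' := mem_powersetCard.1 hJ
    exact erase_insert fun h => notMem_erase a T (hJ'.1 h)
  · intro J hJ
    simp only [coe_filter, Set.mem_ofPred_eq] at hJ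
    exact insert_erase hJ.2

/-- the cliques of the multipartite graph which are not cliques of `G1` -/
theorem G1b_main {t R r m : ℕ} (hr : r < R) (hm : R ≤ m) :
    kc (t + 2) (G1 (t + 2) R r m) + (R + (t + 2) - 1 - r) * ((R + t).choose t * m ^ (t + 1)) ≤
      kc (t + 2) (G1b_M (t + 2) R r m) := by
  classical
  rw [kc_eq, kc_eq]
  obtain ⟨K, hK⟩ : ∃ K, K = R + (t + 2) - 1 - r := ⟨_, rfl⟩
  rw [← hK]
  have hw : 0 < R + (t + 2) := by omega
  obtain ⟨z0, hz0⟩ : ∃ z0 : Fin (R + (t + 2)), z0.val = 0 := ⟨⟨0, hw⟩, rfl⟩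
  have hz : sz1 (t + 2) R r m z0 = m + (t + 2) := if_pos hz0
  let c : (Σ k : Fin (R + (t + 2)), Fin (sz1 (t + 2) R r m k)) → Fin (R + (t + 2)) :=
    fun v => v.1
  let y : Fin K → (Σ k : Fin (R + (t + 2)), Fin (sz1 (t + 2) R r m k)) :=
    fun i => ⟨z0, ⟨i.val, by rw [hz]; have := i.isLt; omega⟩⟩
  let jj : Fin K → Fin (R + (t + 2)) := fun i => ⟨r + 1 + i.val, by have := i.isLt; omega⟩
  have hy1 : ∀ i, (y i).1 = z0 := fun _ => rfl
  have hy2 : ∀ i, ((y i).2 : ℕ) = i.val := fun _ => rfl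
  have hyinj : Function.Injective y := by
    intro i i' h
    have h1 : ((y i).2 : ℕ) = ((y i').2 : ℕ) := by rw [h]
    exact Fin.ext h1
  have hjz : ∀ i, jj i ≠ z0 := by
    intro i h
    have h1 := congrArg Fin.val h
    rw [hz0] at h1
    have h2 : (jj i).val = r + 1 + i.val := rfl
    omega
  -- the classes of the other vertices
  let P : Fin K → Finset (Finset (Fin (R + (t + 2)))) := fun i =>
    (powersetCard (t + 1) (univ.erase z0)).filter fun J => jj i ∈ J
  have hP : ∀ i, (P i).card = (R + t).choose t := by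
    intro i
    refine G1b_card (mem_erase.2 ⟨hjz i, mem_univ _⟩) ?_
    rw [card_erase_of_mem (mem_univ _), card_univ, Fintype.card_fin]
    omega
  have htr : ∀ i, ∀ J ∈ P i, m ^ (t + 1) ≤ (trans c J).card := by
    intro i J hJ
    have hJc := (mem_powersetCard.1 (mem_filter.1 hJ).1).2
    rw [card_trans, ← hJc, ← prod_const]
    refine prod_le_prod' fun k _ => ?_
    have h1 : (cls c k).card = sz1 (t + 2) R r m k := G1b_cls k
    rw [h1]
    unfold sz1
    split_ifs <;> omega
  let E : Finset (Σ _ : Fin K, Finset (Σ k : Fin (R + (t + 2)), Fin (sz1 (t + 2) R r m k))) :=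
    (univ : Finset (Fin K)).sigma fun i => (P i).biUnion (trans c)
  have hEmem : ∀ x ∈ E, z0 ∉ x.2.image c ∧ jj x.1 ∈ x.2.image c ∧ x.2.card = t + 1 ∧
      Set.InjOn c x.2 := by
    rintro ⟨i, s⟩ hx
    rw [mem_sigma, mem_biUnion] at hx
    obtain ⟨J, hJ, hs⟩ := hx.2
    have hs' := (mem_filter.1 hs).2
    have hJ1 := mem_filter.1 hJ
    have hJ2 := mem_powersetCard.1 hJ1.1
    refine ⟨?_, ?_, ?_, injOn_of_card hs'.1 hs'.2⟩
    · rw [hs'.1]
      intro h
      exact (mem_erase.1 (hJ2.1 h)).1 rfl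
    · rw [hs'.1]
      exact hJ1.2
    · rw [hs'.2]
      exact hJ2.2
  have hEcard : K * ((R + t).choose t * m ^ (t + 1)) ≤ E.card := by
    have h1 : ∀ i, (R + t).choose t * m ^ (t + 1) ≤ ((P i).biUnion (trans c)).card := by
      intro i
      rw [card_biUnion]
      · rw [← hP i, ← smul_eq_mul]
        exact card_nsmul_le_sum _ _ _ (htr i)
      · intro J _ J' _ hne
        change Disjoint (trans c J) (trans c J')
        rw [disjoint_left]
        intro s hs hs'
        exact hne ((mem_filter.mp hs).2.1.symm.trans (mem_filter.mp hs').2.1)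
    rw [card_sigma]
    calc K * ((R + t).choose t * m ^ (t + 1))
        = ∑ _i : Fin K, (R + t).choose t * m ^ (t + 1) := by
          rw [sum_const, card_univ, Fintype.card_fin, smul_eq_mul]
      _ ≤ _ := sum_le_sum fun i _ => h1 i
  -- the map
  let g : (Σ _ : Fin K, Finset (Σ k : Fin (R + (t + 2)), Fin (sz1 (t + 2) R r m k))) →
      Finset (Σ k : Fin (R + (t + 2)), Fin (sz1 (t + 2) R r m k)) := fun x => insert (y x.1) x.2
  have hyn : ∀ x ∈ E, ∀ i, y i ∉ x.2 := by
    intro x hx i h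
    exact (hEmem x hx).1 (mem_image.2 ⟨y i, h, rfl⟩)
  have hginj : Set.InjOn g E := by
    rintro ⟨i, s⟩ hx ⟨i', s'⟩ hx' h
    have h0 : insert (y i) s = insert (y i') s' := h
    have h1 : ∀ k, y k ∉ s := hyn _ hx
    have h2 : ∀ k, y k ∉ s' := hyn _ hx'
    have h3 : y i = y i' := by
      have h4 : y i ∈ insert (y i') s' := by
        rw [← h0]
        exact mem_insert_self _ _
      rcases mem_insert.1 h4 with h4 | h4
      · exact h4
      · exact absurd h4 (h2 i)
    have h4 : i = i' := hyinj h3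
    subst h4
    have h5 : s = s' := by
      rw [← erase_insert (h1 i), h0, erase_insert (h2 i)]
    rw [h5]
  have hgM : E.image g ⊆ (G1b_M (t + 2) R r m).cliqueFinset (t + 2) := by
    intro q hq
    obtain ⟨x, hx, rfl⟩ := mem_image.1 hq
    have hE := hEmem x hx
    have hn := hyn x hx x.1
    rw [SimpleGraph.mem_cliqueFinset_iff, SimpleGraph.isNClique_iff]
    constructor
    · intro a ha b hb hab
      have ha' : a ∈ insert (y x.1) x.2 := ha
      have hb' : b ∈ insert (y x.1) x.2 := hb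
      change c a ≠ c b
      rcases mem_insert.1 ha' with ha1 | ha1 <;> rcases mem_insert.1 hb' with hb1 | hb1
      · exact absurd (ha1.trans hb1.symm) hab
      · intro h
        apply hE.1
        rw [mem_image]
        exact ⟨b, hb1, by rw [← h, ha1]⟩
      · intro h
        apply hE.1
        rw [mem_image]
        exact ⟨a, ha1, by rw [h, hb1]⟩
      · intro h
        exact hab (hE.2.2.2 ha1 hb1 h)
    · change (insert (y x.1) x.2).card = t + 2
      rw [card_insert_of_notMem hn, hE.2.2.1]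
  have hdisj : Disjoint ((G1 (t + 2) R r m).cliqueFinset (t + 2)) (E.image g) := by
    rw [disjoint_left]
    intro q hq hq'
    obtain ⟨x, hx, rfl⟩ := mem_image.1 hq'
    have hE := hEmem x hx
    rw [SimpleGraph.mem_cliqueFinset_iff, SimpleGraph.isNClique_iff] at hq
    obtain ⟨b, hb, hbj⟩ := mem_image.1 hE.2.1
    have h1 : y x.1 ∈ (g x : Set _) := mem_coe.2 (mem_insert_self _ _)
    have h2 : b ∈ (g x : Set _) := mem_coe.2 (mem_insert_of_mem hb)
    have h3 : y x.1 ≠ b := fun h => hyn x hx x.1 (h ▸ hb)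
    have h4 := hq.1 h1 h2 h3
    apply h4.2.1
    refine ⟨hz0, ?_⟩
    have h5 : (c b).val = r + 1 + x.1.val := by rw [hbj]
    exact h5.symm
  have hsub : (G1 (t + 2) R r m).cliqueFinset (t + 2) ⊆
      (G1b_M (t + 2) R r m).cliqueFinset (t + 2) := by
    intro q hq
    rw [SimpleGraph.mem_cliqueFinset_iff, SimpleGraph.isNClique_iff] at hq ⊢
    exact ⟨fun a ha b hb hab => (hq.1 ha hb hab).1, hq.2⟩
  have hfin := card_le_card (union_subset hsub hgM)
  rw [card_union_of_disjoint hdisj, card_image_of_injOn hginj] at hfin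
  omega

theorem kc_G1_le {u R r m : ℕ} (hu : 1 ≤ u) (hr : r < R) (hm : R ≤ m) :
    (kc u (G1 u R r m) : ℝ) ≤ eS univ (fun k => (sz1 u R r m k : ℝ)) u -
      ((R : ℝ) + u - 1 - r) * ((u : ℝ) * (u - 1) / (((R : ℝ) + u) * ((R : ℝ) + u - 1))) *
        ((R + u).choose u : ℝ) * (m : ℝ) ^ (u - 1) := by
  classical
  rw [← G1b_kc]
  obtain rfl | ⟨t, rfl⟩ : u = 1 ∨ ∃ t, u = t + 2 := by
    rcases Nat.lt_or_ge u 2 with h | h
    · left
      omega
    · right
      exact ⟨u - 2, by omega⟩
  · have h1 : kc 1 (G1 1 R r m) ≤ kc 1 (G1b_M 1 R r m) := by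
      rw [kc_eq, kc_eq]
      apply card_le_card
      intro q hq
      rw [SimpleGraph.mem_cliqueFinset_iff, SimpleGraph.isNClique_iff] at hq ⊢
      exact ⟨fun a ha b hb hab => (hq.1 ha hb hab).1, hq.2⟩
    have h2 : (kc 1 (G1 1 R r m) : ℝ) ≤ kc 1 (G1b_M 1 R r m) := by exact_mod_cast h1
    simpa using h2
  · have h1 := G1b_main (t := t) hr hm
    have h2 : (kc (t + 2) (G1 (t + 2) R r m) : ℝ) +
        ((R + (t + 2) - 1 - r : ℕ) : ℝ) * (((R + t).choose t : ℝ) * (m : ℝ) ^ (t + 1)) ≤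
        kc (t + 2) (G1b_M (t + 2) R r m) := by exact_mod_cast h1
    have h3 : ((R + (t + 2) - 1 - r : ℕ) : ℝ) = (R : ℝ) + ((t + 2 : ℕ) : ℝ) - 1 - r := by
      rw [Nat.cast_sub (by omega), Nat.cast_sub (by omega)]
      push_cast
      ring
    have h4 : (((t + 2 : ℕ) : ℝ) * (((t + 2 : ℕ) : ℝ) - 1) /
        (((R : ℝ) + ((t + 2 : ℕ) : ℝ)) * ((R : ℝ) + ((t + 2 : ℕ) : ℝ) - 1))) *
        ((R + (t + 2)).choose (t + 2) : ℝ) = ((R + t).choose t : ℝ) := by
      have e1 := Nat.add_one_mul_choose_eq (R + t + 1) (t + 1)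
      have e2 := Nat.add_one_mul_choose_eq (R + t) t
      have e1' : ((R : ℝ) + t + 2) * ((R + t + 1).choose (t + 1) : ℝ) =
          ((R + (t + 2)).choose (t + 2) : ℝ) * (t + 2) := by
        have e3 : (((R + t + 1 + 1) * (R + t + 1).choose (t + 1) : ℕ) : ℝ) =
            (((R + t + 1 + 1).choose (t + 1 + 1) * (t + 1 + 1) : ℕ) : ℝ) := by rw [e1]
        have e4 : (R + t + 1 + 1).choose (t + 1 + 1) = (R + (t + 2)).choose (t + 2) := rfl
        rw [e4] at e3
        push_cast at e3
        linarith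
      have e2' : ((R : ℝ) + t + 1) * ((R + t).choose t : ℝ) =
          ((R + t + 1).choose (t + 1) : ℝ) * (t + 1) := by
        have e3 : (((R + t + 1) * (R + t).choose t : ℕ) : ℝ) =
            (((R + t + 1).choose (t + 1) * (t + 1) : ℕ) : ℝ) := by rw [e2]
        push_cast at e3
        linarith
      have hp1 : ((R : ℝ) + t + 2) ≠ 0 := by positivity
      have hp2 : ((R : ℝ) + t + 1) ≠ 0 := by positivity
      push_cast
      rw [show (R : ℝ) + (t + 2) = R + t + 2 by ring,
        show (R : ℝ) + t + 2 - 1 = R + t + 1 by ring, show (t : ℝ) + 2 - 1 = t + 1 by ring,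
        div_mul_eq_mul_div, div_eq_iff (mul_ne_zero hp1 hp2)]
      linear_combination (-((t : ℝ) + 1)) * e1' - ((R : ℝ) + t + 2) * e2'
    rw [h3] at h2
    have h5 : t + 2 - 1 = t + 1 := by omega
    rw [h5, mul_assoc ((R : ℝ) + ((t + 2 : ℕ) : ℝ) - 1 - r), h4]
    linarith

end H57GH
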