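import Pool.Agent.H57.GH.G1a
import Pool.Agent.H57.GH.DiffP

/-!
The number of labelled copies of `H` in `G1`.
-/

namespace H57GH

open Finset H57LC H57LT H57E32

set_option linter.unusedSectionVars false

theorem G1c_ext {w : ℕ} {f : Fin w → ℕ} {p q : Σ k : Fin w, Fin (f k)}
    (h1 : p.1.val = q.1.val) (h2 : p.2.val = q.2.val) : p = q := by
  obtain ⟨k, x⟩ := p
  obtain ⟨l, y⟩ := q
  have h3 : k = l := Fin.ext h1
  subst h3
  have h4 : x = y := Fin.ext h2
  rw [h4]

/-- forget the bound -/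
def G1c_e {w : ℕ} {f : Fin w → ℕ} (p : Σ k : Fin w, Fin (f k)) : Σ _ : Fin w, ℕ :=
  ⟨p.1, p.2.val⟩

theorem G1c_e_inj {w : ℕ} {f : Fin w → ℕ} :
    Function.Injective (G1c_e : (Σ k : Fin w, Fin (f k)) → Σ _ : Fin w, ℕ) := by
  rintro ⟨k, x⟩ ⟨l, y⟩ h
  simp only [G1c_e, Sigma.mk.injEq] at h
  obtain ⟨h1, h2⟩ := h
  subst h1
  exact G1c_ext rfl (eq_of_heq h2)

theorem G1c_cnt {W : Type*} [Fintype W] [DecidableEq W] (H : SimpleGraph W)
    [DecidableRel H.Adj] {w b : ℕ} {f : Fin w → ℕ} (hf : ∀ k, f k ≤ b) {v v' : W}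
    (hv : H.Adj v v') (p q : Σ k : Fin w, Fin (f k)) (hpq : p.1 ≠ q.1) :
    ((((cm H (univ : Finset (Σ k : Fin w, Fin (f k))) Sigma.fst).filter
      fun φ => φ v = p ∧ φ v' = q).card : ℕ) : ℝ) *
      ((w : ℝ) * (w - 1) * (b : ℝ) ^ 2) ≤ M0 H w b := by
  have hmem : ∀ x : (Σ k : Fin w, Fin (f k)), G1c_e x ∈
      pts (univ : Finset (Fin w)) (fun _ => b) := by
    intro x
    rw [DiffP_mem]
    exact ⟨mem_univ _, lt_of_lt_of_le x.2.isLt (hf _)⟩
  have h1 : ((cm H (univ : Finset (Σ k : Fin w, Fin (f k))) Sigma.fst).filter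
      fun φ => φ v = p ∧ φ v' = q).card ≤
      ((cm H (pts (univ : Finset (Fin w)) (fun _ => b)) Sigma.fst).filter
      fun φ => φ v = G1c_e p ∧ φ v' = G1c_e q).card := by
    refine cm_card_le' H G1c_e (fun x _ => hmem x) (G1c_e_inj.injOn) ?_ _ _ ?_
    · intro x _ y _ hxy
      exact hxy
    · rintro φ _ ⟨h2, h3⟩
      exact ⟨congrArg G1c_e h2, congrArg G1c_e h3⟩
  have h2 := fJ_pair H (T := (univ : Finset (Fin w))) (R := w) (b := b) (by simp) hv
    (hmem p) (hmem q) hpq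
  have h3 : (0 : ℝ) ≤ (w : ℝ) * (w - 1) * (b : ℝ) ^ 2 := by
    have hw : 1 ≤ w := by
      have := p.1.isLt
      omega
    have hw' : (1 : ℝ) ≤ w := by exact_mod_cast hw
    have : (0 : ℝ) ≤ (w : ℝ) - 1 := by linarith
    positivity
  rw [M0, ← h2]
  exact mul_le_mul_of_nonneg_right (by exact_mod_cast h1) h3

/-- the missing pairs -/
def G1c_B (u R r m : ℕ) : Finset ((Σ k : Fin (R + u), Fin (sz1 u R r m k)) ×
    (Σ k : Fin (R + u), Fin (sz1 u R r m k))) :=
  univ.filter fun x => ms r x.1.1.val x.1.2.val x.2.1.val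

theorem G1c_B_card (u R r m : ℕ) : (G1c_B u R r m).card ≤ (R + u - 1 - r) * m := by
  have h : (G1c_B u R r m).card ≤ (range (R + u - 1 - r) ×ˢ range m).card := by
    refine Finset.card_le_card_of_injOn (fun x => (x.1.2.val, x.2.2.val)) ?_ ?_
    · intro x hx
      have hx' := (Finset.mem_filter.1 (Finset.mem_coe.1 hx)).2
      obtain ⟨h1, h2⟩ := hx'
      refine Finset.mem_coe.2 (Finset.mem_product.2 ⟨Finset.mem_range.2 ?_,
        Finset.mem_range.2 ?_⟩)
      · have := x.2.1.isLt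
        show x.1.2.val < R + u - 1 - r
        omega
      · have h3 := x.2.2.isLt
        have h4 : sz1 u R r m x.2.1 = m := by
          rw [sz1, if_neg (by omega), if_neg (by omega)]
        show x.2.2.val < m
        omega
    · intro x hx y hy hxy
      have hx' := (Finset.mem_filter.1 (Finset.mem_coe.1 hx)).2
      have hy' := (Finset.mem_filter.1 (Finset.mem_coe.1 hy)).2
      obtain ⟨h1, h2⟩ := hx'
      obtain ⟨h3, h4⟩ := hy'
      simp only [Prod.mk.injEq] at hxy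
      refine Prod.ext (G1c_ext ?_ ?_) (G1c_ext ?_ ?_)
      · rw [h1, h3]
      · exact hxy.1
      · omega
      · exact hxy.2
  rwa [Finset.card_product, Finset.card_range, Finset.card_range] at h

theorem G1c_split {W : Type*} [Fintype W] [DecidableEq W] (H : SimpleGraph W)
    [DecidableRel H.Adj] (u R r m : ℕ) :
    (cm H (univ : Finset (Σ k : Fin (R + u), Fin (sz1 u R r m k))) Sigma.fst).card ≤
      (emb H (G1 u R r m) univ).card +
      ∑ ab ∈ (univ : Finset (W × W)).filter (fun x => H.Adj x.1 x.2),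
        ∑ pq ∈ G1c_B u R r m,
          ((cm H (univ : Finset (Σ k : Fin (R + u), Fin (sz1 u R r m k))) Sigma.fst).filter
            fun φ => φ ab.1 = pq.1 ∧ φ ab.2 = pq.2).card := by
  have hsub : cm H (univ : Finset (Σ k : Fin (R + u), Fin (sz1 u R r m k))) Sigma.fst ⊆
      emb H (G1 u R r m) univ ∪
      ((univ : Finset (W × W)).filter (fun x => H.Adj x.1 x.2)).biUnion fun ab =>
        (G1c_B u R r m).biUnion fun pq =>
          (cm H (univ : Finset (Σ k : Fin (R + u), Fin (sz1 u R r m k))) Sigma.fst).filter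
            fun φ => φ ab.1 = pq.1 ∧ φ ab.2 = pq.2 := by
    intro φ hφ
    by_cases h : φ ∈ emb H (G1 u R r m) univ
    · exact Finset.mem_union_left _ h
    refine Finset.mem_union_right _ ?_
    have hφ' := hφ
    rw [cm, Finset.mem_filter] at hφ'
    obtain ⟨h1, h2, h3⟩ := hφ'
    have h4 : ¬ ∀ i j, H.Adj i j → (G1 u R r m).Adj (φ i) (φ j) := by
      intro h5
      exact h (Finset.mem_filter.2 ⟨h1, h2, h5⟩)
    push Not at h4
    obtain ⟨i, j, hij, hn⟩ := h4
    have h5 := h3 i j hij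
    have h6 : ms r (φ i).1.val (φ i).2.val (φ j).1.val ∨
        ms r (φ j).1.val (φ j).2.val (φ i).1.val := by
      by_contra h7
      push Not at h7
      exact hn ⟨h5, h7.1, h7.2⟩
    rcases h6 with h6 | h6
    · refine Finset.mem_biUnion.2 ⟨(i, j), Finset.mem_filter.2 ⟨mem_univ _, hij⟩, ?_⟩
      refine Finset.mem_biUnion.2 ⟨(φ i, φ j), Finset.mem_filter.2 ⟨mem_univ _, h6⟩, ?_⟩
      exact Finset.mem_filter.2 ⟨hφ, rfl, rfl⟩
    · refine Finset.mem_biUnion.2 ⟨(j, i), Finset.mem_filter.2 ⟨mem_univ _, hij.symm⟩, ?_⟩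
      refine Finset.mem_biUnion.2 ⟨(φ j, φ i), Finset.mem_filter.2 ⟨mem_univ _, h6⟩, ?_⟩
      exact Finset.mem_filter.2 ⟨hφ, rfl, rfl⟩
  refine (Finset.card_le_card hsub).trans ((Finset.card_union_le _ _).trans ?_)
  refine Nat.add_le_add_left ?_ _
  refine Finset.card_biUnion_le.trans (Finset.sum_le_sum fun ab _ => ?_)
  exact Finset.card_biUnion_le

theorem G1c_cm {W : Type*} [Fintype W] [DecidableEq W] (H : SimpleGraph W)
    [DecidableRel H.Adj] {w : ℕ} (f : Fin w → ℕ) :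
    (cm H (univ : Finset (Σ k : Fin w, Fin (f k))) Sigma.fst).card = fJ H univ f := by
  rw [cm_eq_fJ H (univ : Finset (Σ k : Fin w, Fin (f k))) Sigma.fst univ fun _ _ => mem_univ _]
  refine fJ_congr H fun k _ => ?_
  have h : ((univ : Finset (Σ k : Fin w, Fin (f k))).filter fun x => x.1 = k) =
      (univ : Finset (Fin (f k))).map ⟨fun x => (⟨k, x⟩ : Σ k : Fin w, Fin (f k)), by
        intro x y hxy
        simpa using hxy⟩ := by
    ext ⟨l, y⟩
    simp only [Finset.mem_filter, Finset.mem_univ, true_and, Finset.mem_map,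
      Function.Embedding.coeFn_mk]
    constructor
    · intro hl
      subst hl
      exact ⟨y, rfl⟩
    · rintro ⟨x, hx⟩
      simp only [Sigma.mk.injEq] at hx
      exact hx.1.symm
  rw [h, Finset.card_map, Finset.card_univ, Fintype.card_fin]

theorem emb_G1_ge {W : Type*} [Fintype W] [DecidableEq W] (H : SimpleGraph W)
    [DecidableRel H.Adj] {u R r m : ℕ} (hu : 1 ≤ u) (hr : r < R) (hm : R ≤ m) :
    (fJ H univ (sz1 u R r m) : ℝ) - ((R : ℝ) + u - 1 - r) * m * (oe H : ℝ) *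
      (M0 H (R + u) (m + u) / (((R : ℝ) + u) * ((R : ℝ) + u - 1) * ((m : ℝ) + u) ^ 2)) ≤
      ((emb H (G1 u R r m) univ).card : ℝ) := by
  have h1 := G1c_split H u R r m
  rw [G1c_cm] at h1
  set X : ℝ := M0 H (R + u) (m + u) / (((R : ℝ) + u) * ((R : ℝ) + u - 1) * ((m : ℝ) + u) ^ 2)
    with hX
  have hR1 : (1 : ℝ) ≤ R := by exact_mod_cast (by omega : 1 ≤ R)
  have hu1 : (1 : ℝ) ≤ u := by exact_mod_cast hu
  have hm0 : (0 : ℝ) ≤ m := Nat.cast_nonneg _
  have hD : (0 : ℝ) < ((R : ℝ) + u) * ((R : ℝ) + u - 1) * ((m : ℝ) + u) ^ 2 := by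
    have : (0 : ℝ) < (R : ℝ) + u - 1 := by linarith
    positivity
  have hX0 : 0 ≤ X := div_nonneg (Nat.cast_nonneg _) hD.le
  have hf : ∀ k : Fin (R + u), sz1 u R r m k ≤ m + u := by
    intro k
    rw [sz1]
    split_ifs <;> omega
  have hcnt : ∀ ab ∈ (univ : Finset (W × W)).filter (fun x => H.Adj x.1 x.2),
      ∀ pq ∈ G1c_B u R r m,
      ((((cm H (univ : Finset (Σ k : Fin (R + u), Fin (sz1 u R r m k))) Sigma.fst).filter
            fun φ => φ ab.1 = pq.1 ∧ φ ab.2 = pq.2).card : ℕ) : ℝ) ≤ X := by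
    intro ab hab pq hpq
    have hab' := (Finset.mem_filter.1 hab).2
    have hpq' := (Finset.mem_filter.1 hpq).2
    have hne : pq.1.1 ≠ pq.2.1 := by
      intro h
      obtain ⟨h2, h3⟩ := hpq'
      rw [h] at h2
      omega
    have h2 := G1c_cnt H hf hab' pq.1 pq.2 hne
    rw [hX, le_div_iff₀ hD]
    push_cast at h2
    exact h2
  have h2 : (fJ H univ (sz1 u R r m) : ℝ) ≤ ((emb H (G1 u R r m) univ).card : ℝ) +
      (oe H : ℝ) * ((((R + u - 1 - r) * m : ℕ) : ℝ) * X) := by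
    have h3 : (fJ H univ (sz1 u R r m) : ℝ) ≤ ((emb H (G1 u R r m) univ).card : ℝ) +
      ∑ ab ∈ (univ : Finset (W × W)).filter (fun x => H.Adj x.1 x.2),
        ∑ pq ∈ G1c_B u R r m,
          ((((cm H (univ : Finset (Σ k : Fin (R + u), Fin (sz1 u R r m k))) Sigma.fst).filter
            fun φ => φ ab.1 = pq.1 ∧ φ ab.2 = pq.2).card : ℕ) : ℝ) := by
      exact_mod_cast h1
    refine h3.trans (add_le_add le_rfl ?_)
    have h4 : (oe H : ℝ) * ((((R + u - 1 - r) * m : ℕ) : ℝ) * X) =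
        ∑ _ab ∈ (univ : Finset (W × W)).filter (fun x => H.Adj x.1 x.2),
          ((((R + u - 1 - r) * m : ℕ) : ℝ) * X) := by
      rw [Finset.sum_const, nsmul_eq_mul, oe]
    rw [h4]
    refine Finset.sum_le_sum fun ab hab => ?_
    refine (Finset.sum_le_sum fun pq hpq => hcnt ab hab pq hpq).trans ?_
    rw [Finset.sum_const, nsmul_eq_mul]
    exact mul_le_mul_of_nonneg_right (by exact_mod_cast G1c_B_card u R r m) hX0
  have h5 : (((R + u - 1 - r) * m : ℕ) : ℝ) = ((R : ℝ) + u - 1 - r) * m := by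
    rw [Nat.cast_mul, Nat.cast_sub (by omega : r ≤ R + u - 1), Nat.cast_sub (by omega : 1 ≤ R + u)]
    push_cast
    ring
  rw [h5] at h2
  have h6 : ((R : ℝ) + u - 1 - r) * m * (oe H : ℝ) * X =
      (oe H : ℝ) * (((R : ℝ) + u - 1 - r) * m * X) := by ring
  rw [h6]
  linarith

end H57GH
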