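import Pool.Agent.H57.GH.DEst

/-!
Expansions in terms of the class size.
-/

namespace H57GH

open Finset H57LC H57LT

set_option linter.unusedSectionVars false

theorem G1d_step {ι : Type*} [Fintype ι] [DecidableEq ι] (J : SimpleGraph ι) [DecidableRel J.Adj]
    {w : ℕ} {C : ℝ} (m x₀ : ℕ) (hm : 1 ≤ m)
    (h : ∀ k : Fin w, ∀ a : Fin w → ℕ, (∀ l, m ≤ a l) → (∀ l, a l ≤ m + x₀) →
      |(fJ J univ (up a k) : ℝ) - fJ J univ a - (Fintype.card ι : ℝ) / w * M0 J w m / m| ≤ C) :
    ∀ N : ℕ, ∀ a : Fin w → ℕ, (∀ k, m ≤ a k) → (∀ k, a k ≤ m + x₀) → ∑ k, (a k - m) = N →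
      |(fJ J univ a : ℝ) - M0 J w m - (Fintype.card ι : ℝ) / w * M0 J w m / m * N| ≤ C * N := by
  intro N
  induction N with
  | zero =>
    intro a h1 h2 h3
    have h4 : a = fun _ => m := by
      funext k
      have h5 : a k - m = 0 := by
        rw [sum_eq_zero_iff] at h3
        exact h3 k (mem_univ k)
      have h6 := h1 k
      omega
    subst h4
    simp [M0]
  | succ N ih =>
    intro a h1 h2 h3
    have hex : ∃ k, m < a k := by
      by_contra hcon
      push Not at hcon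
      have : ∑ k, (a k - m) = 0 := by
        refine sum_eq_zero fun k _ => ?_
        have := hcon k
        omega
      omega
    obtain ⟨k, hk⟩ := hex
    set b : Fin w → ℕ := Function.update a k (a k - 1) with hb
    have hab : a = up b k := by
      funext l
      unfold up
      by_cases hl : l = k
      · subst hl
        simp only [hb, Function.update_self]
        omega
      · rw [Function.update_of_ne hl, hb, Function.update_of_ne hl]
    have hb1 : ∀ l, m ≤ b l := by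
      intro l
      by_cases hl : l = k
      · subst hl
        simp only [hb, Function.update_self]
        omega
      · rw [hb, Function.update_of_ne hl]
        exact h1 l
    have hb2 : ∀ l, b l ≤ m + x₀ := by
      intro l
      by_cases hl : l = k
      · subst hl
        simp only [hb, Function.update_self]
        have := h2 l
        omega
      · rw [hb, Function.update_of_ne hl]
        exact h2 l
    have hb3 : ∑ l, (b l - m) = N := by
      rw [← add_sum_erase univ _ (mem_univ k)] at h3 ⊢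
      have h4 : ∑ l ∈ univ.erase k, (b l - m) = ∑ l ∈ univ.erase k, (a l - m) := by
        refine sum_congr rfl fun l hl => ?_
        rw [hb, Function.update_of_ne (ne_of_mem_erase hl)]
      have h5 : b k = a k - 1 := by simp [hb]
      rw [h4, h5]
      omega
    have h6 := ih b hb1 hb2 hb3
    have h7 := h k b hb1 hb2
    rw [← hab] at h7
    rw [abs_le] at h6 h7 ⊢
    push_cast
    constructor
    · have := h6.1
      have := h7.1
      nlinarith
    · have := h6.2
      have := h7.2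
      nlinarith

theorem fJ_exp {ι : Type*} [Fintype ι] [DecidableEq ι] (J : SimpleGraph ι) [DecidableRel J.Adj]
    (hcs : 2 ≤ Fintype.card ι) (w : ℕ) (hw : 1 ≤ w) (x₀ : ℕ) : ∃ C : ℝ, 0 < C ∧
    ∀ m : ℕ, x₀ + 1 ≤ m → ∀ a : Fin w → ℕ, (∀ k, m ≤ a k) → (∀ k, a k ≤ m + x₀) →
      |(fJ J univ a : ℝ) - M0 J w m - (Fintype.card ι : ℝ) / w * (M0 J w m / m) *
        (∑ k, (a k : ℝ) - w * m)| ≤ C * (m : ℝ) ^ (Fintype.card ι - 2) := by
  obtain ⟨C, hC, hD⟩ := D_est J hcs w hw
  refine ⟨C * (x₀ + 1) * (w * x₀ + 1), by positivity, ?_⟩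
  intro m hm a h1 h2
  have hm1 : 1 ≤ m := by omega
  have h3 := G1d_step J (w := w) (C := C * (m : ℝ) ^ (Fintype.card ι - 2) * (x₀ + 1)) m x₀ hm1
    (by
      intro k b hb1 hb2
      refine hD m hm1 (Fin w) univ (by simp) k (mem_univ k) b x₀ (by positivity)
        (by exact_mod_cast (by omega : x₀ ≤ m)) ?_
      intro l _
      have hb3 : (m : ℝ) ≤ b l := by exact_mod_cast hb1 l
      have hb4 : (b l : ℝ) ≤ m + x₀ := by exact_mod_cast hb2 l
      rw [abs_le]
      constructor <;> linarith)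
    (∑ k, (a k - m)) a h1 h2 rfl
  have h4 : ((∑ k, (a k - m) : ℕ) : ℝ) = ∑ k, (a k : ℝ) - w * m := by
    rw [Nat.cast_sum, sum_congr rfl fun k _ => Nat.cast_sub (h1 k), sum_sub_distrib]
    simp
  have h5 : ((∑ k, (a k - m) : ℕ) : ℝ) ≤ w * x₀ + 1 := by
    have h6 : ∑ k, (a k - m) ≤ w * x₀ := by
      calc ∑ k, (a k - m) ≤ ∑ _k : Fin w, x₀ := sum_le_sum fun k _ => by
            have := h2 k
            omega
        _ = w * x₀ := by simp
    have h7 : ((∑ k, (a k - m) : ℕ) : ℝ) ≤ w * x₀ := by exact_mod_cast h6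
    linarith
  rw [h4] at h3 h5
  have h8 : (Fintype.card ι : ℝ) / w * (M0 J w m / m) * (∑ k, (a k : ℝ) - w * m) =
      (Fintype.card ι : ℝ) / w * M0 J w m / m * (∑ k, (a k : ℝ) - w * m) := by ring
  rw [h8]
  refine h3.trans ?_
  have h9 : C * (m : ℝ) ^ (Fintype.card ι - 2) * (x₀ + 1) * (∑ k, (a k : ℝ) - w * m) ≤
      C * (m : ℝ) ^ (Fintype.card ι - 2) * (x₀ + 1) * (w * x₀ + 1) := by
    refine mul_le_mul_of_nonneg_left h5 (by positivity)
  refine h9.trans (le_of_eq ?_)
  ring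

theorem G1d_prod (u : ℕ) (x₀ : ℕ) : ∃ C : ℝ, 0 ≤ C ∧ ∀ (κ : Type) [DecidableEq κ] (m : ℕ),
    1 ≤ m → ∀ A : Finset κ, A.card = u → ∀ g : κ → ℝ, (∀ k, 0 ≤ g k) → (∀ k, g k ≤ x₀) →
      0 ≤ ∏ k ∈ A, ((m : ℝ) + g k) - (m : ℝ) ^ u - (m : ℝ) ^ (u - 1) * ∑ k ∈ A, g k ∧
      ∏ k ∈ A, ((m : ℝ) + g k) - (m : ℝ) ^ u - (m : ℝ) ^ (u - 1) * ∑ k ∈ A, g k ≤
        C * (m : ℝ) ^ u / (m : ℝ) ^ 2 := by
  induction u with
  | zero =>
    refine ⟨0, le_refl _, ?_⟩
    intro κ _ m hm A hA g h1 h2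
    rw [card_eq_zero] at hA
    subst hA
    simp
  | succ u ih =>
    obtain ⟨C, hC, h⟩ := ih
    refine ⟨C * (1 + x₀) + u * x₀ ^ 2, by positivity, ?_⟩
    intro κ _ m hm A hA g h1 h2
    obtain ⟨k, B, hkB, hB, hBu⟩ := card_eq_succ.1 hA
    subst hB
    have hm0 : (1 : ℝ) ≤ m := by exact_mod_cast hm
    obtain ⟨h3, h4⟩ := h κ m hm B hBu g h1 h2
    rw [prod_insert hkB, sum_insert hkB]
    set P := ∏ k ∈ B, ((m : ℝ) + g k) with hP
    set S := ∑ k ∈ B, g k with hS
    have hS0 : 0 ≤ S := sum_nonneg fun k _ => h1 k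
    have hSu : S ≤ u * x₀ := by
      rw [hS, ← hBu, ← nsmul_eq_mul]
      exact sum_le_card_nsmul _ _ _ fun k _ => h2 k
    have hg0 := h1 k
    have hg1 := h2 k
    rcases Nat.eq_zero_or_pos u with hu | hu
    · subst hu
      rw [card_eq_zero] at hBu
      have hP1 : P = 1 := by rw [hP, hBu]; simp
      have hS1 : S = 0 := by rw [hS, hBu]; simp
      rw [hP1, hS1]
      constructor
      · simp
      · simp only [zero_add, pow_one, mul_one, Nat.sub_self, pow_zero, add_zero, one_mul,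
          CharP.cast_eq_zero, zero_mul]
        have : 0 ≤ C * (1 + (x₀ : ℝ)) * m / (m : ℝ) ^ 2 := by positivity
        linarith
    · obtain ⟨v, rfl⟩ : ∃ v, u = v + 1 := ⟨u - 1, by omega⟩
      simp only [Nat.add_sub_cancel] at h3 h4 ⊢
      have e1 : ((m : ℝ) + g k) * P - (m : ℝ) ^ (v + 1 + 1) - (m : ℝ) ^ (v + 1) * (g k + S) =
          ((m : ℝ) + g k) * (P - (m : ℝ) ^ (v + 1) - (m : ℝ) ^ v * S) +
            g k * (m : ℝ) ^ v * S := by
        ring
      rw [e1]
      have hv0 : (0 : ℝ) ≤ (m : ℝ) ^ v := by positivity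
      constructor
      · have t1 : 0 ≤ ((m : ℝ) + g k) * (P - (m : ℝ) ^ (v + 1) - (m : ℝ) ^ v * S) :=
          mul_nonneg (by linarith) h3
        have t2 : 0 ≤ g k * (m : ℝ) ^ v * S := by positivity
        linarith
      · have hq : 0 ≤ C * (m : ℝ) ^ (v + 1) / (m : ℝ) ^ 2 := by positivity
        have t1 : ((m : ℝ) + g k) * (P - (m : ℝ) ^ (v + 1) - (m : ℝ) ^ v * S) ≤
            (m * (1 + x₀)) * (C * (m : ℝ) ^ (v + 1) / (m : ℝ) ^ 2) := by
          refine mul_le_mul ?_ h4 h3 (by positivity)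
          nlinarith [Nat.cast_nonneg (α := ℝ) x₀]
        have t2 : g k * (m : ℝ) ^ v * S ≤ x₀ * (m : ℝ) ^ v * (((v + 1 : ℕ) : ℝ) * x₀) := by
          refine mul_le_mul ?_ hSu hS0 (by positivity)
          exact mul_le_mul_of_nonneg_right hg1 hv0
        refine (add_le_add t1 t2).trans (le_of_eq ?_)
        have hmne : (m : ℝ) ≠ 0 := by positivity
        field_simp
        ring

theorem G1d_dc (w u : ℕ) (hu : 1 ≤ u) (g : Fin w → ℝ) :
    ∑ A ∈ powersetCard u (univ : Finset (Fin w)), ∑ k ∈ A, g k =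
      ((w - 1).choose (u - 1) : ℝ) * ∑ k, g k := by
  have h1 : ∀ A : Finset (Fin w), ∑ k ∈ A, g k = ∑ k, if k ∈ A then g k else 0 := by
    intro A
    rw [← sum_filter]
    congr 1
    ext k
    simp
  rw [sum_congr rfl fun A _ => h1 A, sum_comm, mul_sum]
  refine sum_congr rfl fun k _ => ?_
  rw [← sum_filter, sum_const, nsmul_eq_mul]
  congr 2
  have hw : 1 ≤ w := by
    have := k.2
    omega
  have h2 : (powersetCard u (univ : Finset (Fin w))).filter (fun A => k ∈ A) =
      (powersetCard (u - 1) ((univ : Finset (Fin w)).erase k)).image (insert k) := by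
    ext A
    simp only [mem_filter, mem_powersetCard, subset_univ, true_and, mem_image]
    constructor
    · rintro ⟨hA, hk⟩
      refine ⟨A.erase k, ⟨erase_subset_erase _ (subset_univ _), ?_⟩, insert_erase hk⟩
      rw [card_erase_of_mem hk, hA]
    · rintro ⟨B, ⟨hB1, hB2⟩, rfl⟩
      have hkB : k ∉ B := fun h => by
        have := hB1 h
        simp at this
      refine ⟨?_, mem_insert_self _ _⟩
      rw [card_insert_of_notMem hkB, hB2]
      omega
  rw [h2, card_image_of_injOn, card_powersetCard, card_erase_of_mem (mem_univ k), card_univ,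
    Fintype.card_fin]
  intro A hA B hB hAB
  have hA' : k ∉ A := by
    rw [mem_coe, mem_powersetCard] at hA
    intro h
    have := hA.1 h
    simp at this
  have hB' : k ∉ B := by
    rw [mem_coe, mem_powersetCard] at hB
    intro h
    have := hB.1 h
    simp at this
  have h3 : (insert k A).erase k = (insert k B).erase k := by
    have : insert k A = insert k B := hAB
    rw [this]
  rwa [erase_insert hA', erase_insert hB'] at h3

theorem eS_exp (w u : ℕ) (hu : 1 ≤ u) (x₀ : ℕ) : ∃ C : ℝ, 0 < C ∧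
    ∀ m : ℕ, 1 ≤ m → ∀ a : Fin w → ℕ, (∀ k, m ≤ a k) → (∀ k, a k ≤ m + x₀) →
      |eS univ (fun k => (a k : ℝ)) u - (w.choose u : ℝ) * (m : ℝ) ^ u -
        ((w - 1).choose (u - 1) : ℝ) * (m : ℝ) ^ (u - 1) * (∑ k, (a k : ℝ) - w * m)| ≤
        C * (m : ℝ) ^ u / (m : ℝ) ^ 2 := by
  obtain ⟨C, hC, h⟩ := G1d_prod u x₀
  refine ⟨(w.choose u : ℝ) * C + 1, by positivity, ?_⟩
  intro m hm a h1 h2
  set g : Fin w → ℝ := fun k => (a k : ℝ) - m with hg
  have hg0 : ∀ k, 0 ≤ g k := by
    intro k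
    have : (m : ℝ) ≤ a k := by exact_mod_cast h1 k
    simp only [hg]
    linarith
  have hg1 : ∀ k, g k ≤ x₀ := by
    intro k
    have : (a k : ℝ) ≤ m + x₀ := by exact_mod_cast h2 k
    simp only [hg]
    linarith
  have hsum : ∑ k, (a k : ℝ) - w * m = ∑ k, g k := by
    simp only [hg, sum_sub_distrib, sum_const, card_univ, Fintype.card_fin, nsmul_eq_mul]
  have e1 : eS univ (fun k => (a k : ℝ)) u - (w.choose u : ℝ) * (m : ℝ) ^ u -
        ((w - 1).choose (u - 1) : ℝ) * (m : ℝ) ^ (u - 1) * (∑ k, (a k : ℝ) - w * m) =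
      ∑ A ∈ powersetCard u (univ : Finset (Fin w)),
        (∏ k ∈ A, ((m : ℝ) + g k) - (m : ℝ) ^ u - (m : ℝ) ^ (u - 1) * ∑ k ∈ A, g k) := by
    rw [sum_sub_distrib, sum_sub_distrib, ← mul_sum, G1d_dc w u hu g, sum_const,
      card_powersetCard, card_univ, Fintype.card_fin, nsmul_eq_mul, hsum]
    unfold eS
    have : ∀ k, (m : ℝ) + g k = a k := by
      intro k
      simp only [hg]
      ring
    simp only [this]
    ring
  rw [e1]
  have h3 : ∀ A ∈ powersetCard u (univ : Finset (Fin w)),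
      0 ≤ ∏ k ∈ A, ((m : ℝ) + g k) - (m : ℝ) ^ u - (m : ℝ) ^ (u - 1) * ∑ k ∈ A, g k ∧
      ∏ k ∈ A, ((m : ℝ) + g k) - (m : ℝ) ^ u - (m : ℝ) ^ (u - 1) * ∑ k ∈ A, g k ≤
        C * (m : ℝ) ^ u / (m : ℝ) ^ 2 := by
    intro A hA
    exact h (Fin w) m hm A (mem_powersetCard.1 hA).2 g hg0 hg1
  rw [abs_of_nonneg (sum_nonneg fun A hA => (h3 A hA).1)]
  refine (sum_le_card_nsmul _ _ _ fun A hA => (h3 A hA).2).trans ?_
  rw [card_powersetCard, card_univ, Fintype.card_fin, nsmul_eq_mul]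
  have h4 : 0 ≤ (m : ℝ) ^ u / (m : ℝ) ^ 2 := by positivity
  have h5 : ((w.choose u : ℝ) * C + 1) * (m : ℝ) ^ u / (m : ℝ) ^ 2 =
      (w.choose u : ℝ) * (C * (m : ℝ) ^ u / (m : ℝ) ^ 2) + (m : ℝ) ^ u / (m : ℝ) ^ 2 := by ring
  rw [h5]
  linarith

/-- enough classes: many copies -/
theorem M0_ge {ι : Type*} [Fintype ι] [DecidableEq ι] (J : SimpleGraph ι) [DecidableRel J.Adj]
    {w m : ℕ} (hw : Fintype.card ι ≤ w) : (m : ℝ) ^ Fintype.card ι ≤ M0 J w m := by
  classical
  obtain ⟨e⟩ : Nonempty (ι ↪ Fin w) := Function.Embedding.nonempty_of_card_le (by simpa using hw)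
  have h1 : (univ : Finset (ι → Fin m)).card ≤
      (cm J (pts (univ : Finset (Fin w)) (fun _ => m)) Sigma.fst).card := by
    refine card_le_card_of_injOn (fun f v => (⟨e v, (f v).val⟩ : Σ _ : Fin w, ℕ)) ?_ ?_
    · intro f _
      rw [mem_coe]
      simp only [cm, mem_filter, Fintype.mem_piFinset]
      refine ⟨fun v => ?_, ?_, ?_⟩
      · simp [pts]
      · intro v v' hvv
        have h2 := congrArg Sigma.fst hvv
        exact e.injective h2
      · intro i j hij h2
        exact hij.ne (e.injective h2)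
    · intro f _ f' _ hff
      funext v
      have h2 := congrFun hff v
      simp only [Sigma.mk.injEq, heq_eq_eq, true_and] at h2
      exact Fin.ext h2
  rw [card_univ, Fintype.card_fun, Fintype.card_fin] at h1
  unfold M0 fJ
  exact_mod_cast h1

end H57GH
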