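import Pool.Agent.H57.GH.NegD

/-!
Project GH: the Turan graph is not optimal if `δ(H) < 2u` and the residue exceeds `δ(H) - u`.
-/

namespace H57GH

open H57LC H57E32 Filter

/-- a vertex of minimum degree outside the dominating set -/
lemma exists_min_outside {W : Type*} [Fintype W] [DecidableEq W] (H : SimpleGraph W)
    [DecidableRel H.Adj] (U₀ : Finset W) (hdom : ∀ x ∈ U₀, ∀ y, y ≠ x → H.Adj x y)
    (hW : U₀.card < Fintype.card W) : ∃ v, v ∉ U₀ ∧ H.degree v = H.minDegree := by
  classical
  obtain ⟨z, hz⟩ : ∃ z, z ∉ U₀ := by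
    by_contra h
    push Not at h
    have : U₀ = Finset.univ := Finset.eq_univ_iff_forall.mpr h
    rw [this, Finset.card_univ] at hW
    exact absurd hW (lt_irrefl _)
  have : Nonempty W := ⟨z⟩
  obtain ⟨v, hv⟩ := H.exists_minimal_degree_vertex
  by_cases h : v ∈ U₀
  · refine ⟨z, hz, ?_⟩
    have h1 : H.degree v = Fintype.card W - 1 := by
      have h2 : H.neighborFinset v = Finset.univ.erase v := by
        ext y
        rw [SimpleGraph.mem_neighborFinset, Finset.mem_erase]
        exact ⟨fun h => ⟨h.ne', Finset.mem_univ _⟩, fun h' => hdom v h y h'.1⟩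
      rw [← SimpleGraph.card_neighborFinset_eq_degree, h2,
        Finset.card_erase_of_mem (Finset.mem_univ _), Finset.card_univ]
    have h3 := H.minDegree_le_degree z
    have h4 := H.degree_lt_card_verts z
    omega
  · exact ⟨v, h, hv.symm⟩

/-- every vertex is in a clique of size `u` -/
lemma exists_clique {W : Type*} [Fintype W] [DecidableEq W] (H : SimpleGraph W)
    {u : ℕ} (hu : 1 ≤ u) (U₀ : Finset W) (hU : U₀.card = u)
    (hdom : ∀ x ∈ U₀, ∀ y, y ≠ x → H.Adj x y) (x : W) :
    ∃ A : Finset W, x ∈ A ∧ H.IsNClique u A := by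
  classical
  by_cases hx : x ∈ U₀
  · refine ⟨U₀, hx, ?_⟩
    rw [SimpleGraph.isNClique_iff]
    exact ⟨fun a ha b _ hab => hdom a ha b (Ne.symm hab), hU⟩
  · obtain ⟨z, hz⟩ : U₀.Nonempty := by rw [← Finset.card_pos]; omega
    refine ⟨insert x (U₀.erase z), Finset.mem_insert_self _ _, ?_⟩
    rw [SimpleGraph.isNClique_iff]
    constructor
    · intro a ha b hb hab
      rw [Finset.mem_coe, Finset.mem_insert, Finset.mem_erase] at ha hb
      rcases ha with rfl | ha
      · rcases hb with rfl | hb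
        · exact absurd rfl hab
        · exact (hdom b hb.2 a hab).symm
      · exact hdom a ha.2 b (Ne.symm hab)
    · rw [Finset.card_insert_of_notMem (fun h => hx (Finset.mem_of_mem_erase h)),
        Finset.card_erase_of_mem hz]
      omega

/-- if `δ(H) < 2u` and `r > δ(H) - u` then the Turan graph is not optimal, for every `m ≥ 1` -/
theorem neg_main {W : Type*} [Fintype W] [DecidableEq W] (H : SimpleGraph W) [DecidableRel H.Adj]
    {u R r m : ℕ} (hu : 1 ≤ u) (U₀ : Finset W) (hU : U₀.card = u)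
    (hdom : ∀ x ∈ U₀, ∀ y, y ≠ x → H.Adj x y) (hW : u < Fintype.card W)
    (hWR : Fintype.card W ≤ R + u) (hδ : H.minDegree < 2 * u) (hr : H.minDegree < r + u)
    (hrR : r < R) (hm : 1 ≤ m) :
    ∃ c : ℝ, ((TG (R + u) m r).copyCount H : ℝ) / kc u (TG (R + u) m r) < c ∧
      ∀ᶠ p : ℕ in atTop, c * p ≤ exH H u (R * m + r) (R + u) p := by
  classical
  obtain ⟨v, hvU, hv⟩ := exists_min_outside H U₀ hdom (by omega)
  set N := H.neighborFinset v with hN
  have hNc : N.card = H.minDegree := by
    rw [hN, SimpleGraph.card_neighborFinset_eq_degree, hv]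
  have hvN : v ∉ N := by simp [hN]
  have hUN : U₀ ⊆ N := by
    intro x hx
    rw [hN, SimpleGraph.mem_neighborFinset]
    exact (hdom x hx v (fun h => hvU (h ▸ hx))).symm
  have huN : u ≤ N.card := by rw [← hU]; exact Finset.card_le_card hUN
  set X : Finset W := insert v N with hX
  have hXc : X.card = N.card + 1 := by rw [hX, Finset.card_insert_of_notMem hvN]
  have hXW : X.card ≤ Fintype.card W := Finset.card_le_univ X
  set C : Finset (Finset W) := insert N ((X.powersetCard u).filter (fun S => v ∈ S)) with hC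
  have hmem : ∀ S, S ∈ C ↔ S = N ∨ (S ⊆ X ∧ S.card = u) ∧ v ∈ S := by
    intro S
    rw [hC, Finset.mem_insert, Finset.mem_filter, Finset.mem_powersetCard]
  have hCX : ∀ S ∈ C, S ⊆ X := by
    intro S hS
    rcases (hmem S).mp hS with rfl | h
    · exact Finset.subset_insert _ _
    · exact h.1.1
  have hCw : ∀ S ∈ C, S.card ≤ R + u := fun S hS =>
    (Finset.card_le_card (hCX S hS)).trans (hXW.trans hWR)
  have hwn : R + u ≤ (R + u) * m + r := by nlinarith
  have hCn : ∀ S ∈ C, S.card ≤ (R + u) * m + r := fun S hS => (hCw S hS).trans hwn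
  have hcov : ∀ U : Finset W, U ⊆ X → U.card = u → ∃ S ∈ C, U ⊆ S := by
    intro U hUX hUc
    by_cases hvU' : v ∈ U
    · exact ⟨U, (hmem U).mpr (Or.inr ⟨⟨hUX, hUc⟩, hvU'⟩), subset_rfl⟩
    · refine ⟨N, (hmem N).mpr (Or.inl rfl), fun x hx => ?_⟩
      have h1 := hUX hx
      rw [hX, Finset.mem_insert] at h1
      rcases h1 with rfl | h1
      · exact absurd hx hvU'
      · exact h1
  have hbig : ∀ U : Finset W, U.card = u → ∀ S, (S ⊆ X ∧ S.card = u) ∧ v ∈ S → U ⊆ S → U = S := by
    intro U hUc S hS hUS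
    exact Finset.eq_of_subset_of_card_le hUS (by rw [hS.1.2, hUc])
  have huniq : ∀ U : Finset W, U.card = u → ∀ S ∈ C, ∀ S' ∈ C, U ⊆ S → U ⊆ S' → S = S' := by
    intro U hUc S hS S' hS' hUS hUS'
    rcases (hmem S).mp hS with h | h
    · rcases (hmem S').mp hS' with h' | h'
      · rw [h, h']
      · exfalso
        have h1 := hbig U hUc S' h' hUS'
        apply hvN
        rw [← h]
        apply hUS
        rw [h1]
        exact h'.2
    · rcases (hmem S').mp hS' with h' | h'
      · exfalso
        have h1 := hbig U hUc S h hUS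
        apply hvN
        rw [← h']
        apply hUS'
        rw [h1]
        exact h.2
      · rw [← hbig U hUc S h hUS, ← hbig U hUc S' h' hUS']
  have hXS : ∀ S ∈ C, X.card ≤ S.card + u := by
    intro S hS
    rcases (hmem S).mp hS with rfl | h
    · omega
    · rw [h.1.2]
      omega
  have hXr : X.card ≤ r + u := by omega
  have hr3 : r < R + u := by omega
  have hal := allowed_GG (m := m) hu hr3 hCX hCw hCn hcov huniq hXS hXr (hXW.trans hWR)
  have hkc := kc_GG_le (m := m) (r := r) hCX hCw hCn hcov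
  obtain ⟨φ, hφ⟩ := extra_copy (C := C) (m := m) (r := r) H v hm hWR (X := X) hX
    ((hmem N).mpr (Or.inl rfl))
  have hcp := copies_GG H hCX hCw hCn huniq hW φ (by
    intro S hS
    rcases (hmem S).mp hS with h | h
    · refine ⟨⟨v, Finset.mem_insert_self _ _⟩, hφ _, ?_⟩
      rw [h]
      exact hvN
    · obtain ⟨x, hx, hxS⟩ : ∃ x ∈ X, x ∉ S := by
        apply Finset.exists_mem_notMem_of_card_lt_card
        rw [h.1.2]
        omega
      exact ⟨⟨x, hx⟩, hφ _, hxS⟩)
  obtain ⟨hk, _⟩ := kc_TG_pos (u := u) (R := R) (m := m) (r := r) hm (by omega) hr3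
  have hk' : (0 : ℝ) < kc u (TG (R + u) m r) := by exact_mod_cast hk
  refine exH_of_graph hu (by omega) (by omega) (exists_clique H hu U₀ hU hdom)
    (GG X C (R + u) ((R + u) * m + r)) hal ?_
  set NL : ℝ := ((TG (R + u) m r).copyCount H : ℝ) with hNL
  have hNL0 : 0 ≤ NL := Nat.cast_nonneg _
  have h1 : (kc u (GG X C (R + u) ((R + u) * m + r)) : ℝ) ≤
      C.card * kc u (TG (R + u) m r) := by exact_mod_cast hkc
  have h2 : (C.card : ℝ) * NL + 1 ≤
      ((GG X C (R + u) ((R + u) * m + r)).copyCount H : ℝ) := by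
    rw [hNL]
    exact_mod_cast hcp
  calc NL / kc u (TG (R + u) m r) * kc u (GG X C (R + u) ((R + u) * m + r))
      ≤ NL / kc u (TG (R + u) m r) * (C.card * kc u (TG (R + u) m r)) :=
        mul_le_mul_of_nonneg_left h1 (div_nonneg hNL0 hk'.le)
    _ = C.card * NL := by field_simp
    _ < _ := by linarith

end H57GH
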