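import Pool.Agent.H57.GH.G1b
import Pool.Agent.H57.GH.G1c
import Pool.Agent.H57.GH.G1d
import Pool.Agent.H57.GH.CopyA
import Pool.Agent.H57.GH.CopyE
import Pool.Agent.H57.GH.Neg
import Pool.Agent.H57.LT.LimT

/-!
The Turan graph is not optimal for large residues.
-/

namespace H57GH

open Finset H57LC H57LT H57E32 Filter Topology

set_option linter.unusedSectionVars false

/-- labelled copies in the Turan graph -/
theorem emb_TG_fJ {W : Type*} [Fintype W] [DecidableEq W] (H : SimpleGraph W)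
    [DecidableRel H.Adj] {w m r : ℕ} (hw : 1 ≤ w) (hr : r < w) :
    (emb H (TG w m r) univ).card = fJ H univ (xg w r m) :=
  CopyE_emb_TG H hw hr

/-- comparison of two products with different first order terms -/
lemma G1e_asym (a₁ b₁ a₂ b₂ C : ℝ) (h : a₁ + b₂ < a₂ + b₁) : ∀ᶠ m : ℕ in atTop,
    0 < 1 + a₂ / m - C / (m : ℝ) ^ 2 ∧ 0 < 1 + b₁ / m - C / (m : ℝ) ^ 2 ∧
    (1 + a₁ / m + C / (m : ℝ) ^ 2) * (1 + b₂ / m + C / (m : ℝ) ^ 2) <
      (1 + a₂ / m - C / (m : ℝ) ^ 2) * (1 + b₁ / m - C / (m : ℝ) ^ 2) := by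
  have hx : Tendsto (fun m : ℕ => ((m : ℝ))⁻¹) atTop (𝓝 0) :=
    tendsto_inv_atTop_zero.comp tendsto_natCast_atTop_atTop
  have h1 : ∀ᶠ x : ℝ in 𝓝 (0 : ℝ), 0 < 1 + a₂ * x - C * x ^ 2 := by
    have hc : Continuous fun x : ℝ => 1 + a₂ * x - C * x ^ 2 := by fun_prop
    have := hc.tendsto 0
    refine this.eventually (lt_mem_nhds ?_)
    simp
  have h2 : ∀ᶠ x : ℝ in 𝓝 (0 : ℝ), 0 < 1 + b₁ * x - C * x ^ 2 := by
    have hc : Continuous fun x : ℝ => 1 + b₁ * x - C * x ^ 2 := by fun_prop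
    have := hc.tendsto 0
    refine this.eventually (lt_mem_nhds ?_)
    simp
  have h3 : ∀ᶠ x : ℝ in 𝓝 (0 : ℝ), 0 < (a₂ + b₁ - a₁ - b₂) + x * (a₂ * b₁ - a₁ * b₂ - 4 * C) -
      x ^ 2 * (C * (a₂ + b₁ + a₁ + b₂)) := by
    have hc : Continuous fun x : ℝ => (a₂ + b₁ - a₁ - b₂) + x * (a₂ * b₁ - a₁ * b₂ - 4 * C) -
      x ^ 2 * (C * (a₂ + b₁ + a₁ + b₂)) := by fun_prop
    have := hc.tendsto 0
    refine this.eventually (lt_mem_nhds ?_)
    simp
    linarith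
  filter_upwards [hx.eventually h1, hx.eventually h2, hx.eventually h3, eventually_ge_atTop 1]
    with m k1 k2 k3 hm
  have hm0 : (0 : ℝ) < m := by exact_mod_cast hm
  obtain ⟨x, hxx⟩ : ∃ x : ℝ, x = ((m : ℝ))⁻¹ := ⟨_, rfl⟩
  have hx0 : 0 < x := by rw [hxx]; positivity
  rw [← hxx] at k1 k2 k3
  have e1 : ∀ c : ℝ, c / m = c * x := fun c => by rw [hxx, div_eq_mul_inv]
  have e2 : ∀ c : ℝ, c / (m : ℝ) ^ 2 = c * x ^ 2 := fun c => by
    rw [hxx, div_eq_mul_inv, inv_pow]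
  rw [e1, e1, e1, e1, e2]
  refine ⟨k1, k2, ?_⟩
  have := mul_pos hx0 k3
  nlinarith only [this]

/-- the number of vertices of `G1` -/
lemma G1e_sum_sz {u R r m : ℕ} (hu : 1 ≤ u) (hr : r < R) :
    ∑ k, (sz1 u R r m k : ℝ) - ((R + u : ℕ) : ℝ) * m = (r : ℝ) + u := by
  have h1 : ∀ k : Fin (R + u), (sz1 u R r m k : ℝ) =
      m + ((if k.val = 0 then (u : ℝ) else 0) + (if 1 ≤ k.val ∧ k.val ≤ r then (1 : ℝ) else 0)) := by
    intro k
    unfold sz1
    by_cases h0 : k.val = 0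
    · simp [h0]
    · by_cases h2 : k.val ≤ r
      · have h3 : 1 ≤ k.val := by omega
        simp [h0, h2, h3]
      · simp [h0, h2]
  have h2 : ∑ k : Fin (R + u), (if k.val = 0 then (u : ℝ) else 0) = u := by
    rw [Fin.sum_univ_eq_sum_range (fun k => if k = 0 then (u : ℝ) else 0) (R + u),
      Finset.sum_ite_eq' (range (R + u)) 0 (fun _ => (u : ℝ))]
    rw [if_pos (by rw [mem_range]; omega)]
  have h3 : ∑ k : Fin (R + u), (if 1 ≤ k.val ∧ k.val ≤ r then (1 : ℝ) else 0) = r := by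
    rw [Fin.sum_univ_eq_sum_range (fun k => if 1 ≤ k ∧ k ≤ r then (1 : ℝ) else 0) (R + u),
      Finset.sum_boole]
    have : (range (R + u)).filter (fun k => 1 ≤ k ∧ k ≤ r) = Icc 1 r := by
      ext k
      simp only [mem_filter, mem_range, mem_Icc]
      omega
    rw [this, Nat.card_Icc]
    simp
  rw [sum_congr rfl fun k _ => h1 k, sum_add_distrib, sum_add_distrib, h2, h3, sum_const, card_univ,
    Fintype.card_fin, nsmul_eq_mul]
  ring

lemma G1e_sum_xg {w r m : ℕ} (hr : r < w) :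
    ∑ k, (xg w r m k : ℝ) - (w : ℝ) * m = (r : ℝ) := by
  have h1 : ∀ k : Fin w, (xg w r m k : ℝ) = m + (if k.val < r then (1 : ℝ) else 0) := by
    intro k
    unfold xg
    push_cast
    rfl
  have h3 : ∑ k : Fin w, (if k.val < r then (1 : ℝ) else 0) = r := by
    rw [Fin.sum_univ_eq_sum_range (fun k => if k < r then (1 : ℝ) else 0) w,
      Finset.sum_boole]
    have : (range w).filter (fun k => k < r) = range r := by
      ext k
      simp only [mem_filter, mem_range]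
      omega
    rw [this, card_range]
  rw [sum_congr rfl fun k _ => h1 k, sum_add_distrib, h3, sum_const, card_univ,
    Fintype.card_fin, nsmul_eq_mul]
  ring

/-- the number of copies in a nearly balanced complete multipartite graph, relative form -/
lemma G1e_F {W : Type*} [Fintype W] [DecidableEq W] (H : SimpleGraph W)
    [DecidableRel H.Adj] (hcs : 2 ≤ Fintype.card W) {w : ℕ} (hw : 1 ≤ w)
    (hWw : Fintype.card W ≤ w) (x₀ : ℕ) : ∃ C : ℝ, 0 < C ∧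
    ∀ m : ℕ, x₀ + 1 ≤ m → ∀ a : Fin w → ℕ, (∀ k, m ≤ a k) → (∀ k, a k ≤ m + x₀) →
      |(fJ H univ a : ℝ) - M0 H w m * (1 + (Fintype.card W : ℝ) / w *
        (∑ k, (a k : ℝ) - w * m) / m)| ≤ C * M0 H w m / (m : ℝ) ^ 2 := by
  obtain ⟨C, hC, h⟩ := fJ_exp H hcs w hw x₀
  refine ⟨C, hC, fun m hm a ha1 ha2 => ?_⟩
  have h1 := h m hm a ha1 ha2
  have hm0 : (0 : ℝ) < m := by
    have : 0 < m := by omega
    exact_mod_cast this
  have h2 : (m : ℝ) ^ Fintype.card W ≤ M0 H w m := M0_ge H hWw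
  have h3 : (m : ℝ) ^ (Fintype.card W - 2) ≤ M0 H w m / (m : ℝ) ^ 2 := by
    rw [le_div_iff₀ (by positivity), ← pow_add, Nat.sub_add_cancel hcs]
    exact h2
  have h4 : (fJ H univ a : ℝ) - M0 H w m * (1 + (Fintype.card W : ℝ) / w *
        (∑ k, (a k : ℝ) - w * m) / m) = (fJ H univ a : ℝ) - M0 H w m -
        (Fintype.card W : ℝ) / w * (M0 H w m / m) * (∑ k, (a k : ℝ) - w * m) := by
    field_simp
    ring
  rw [h4]
  refine h1.trans ?_
  rw [mul_div_assoc]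
  exact mul_le_mul_of_nonneg_left h3 hC.le

/-- the elementary symmetric function, relative form -/
lemma G1e_K {w u : ℕ} (hu : 1 ≤ u) (huw : u ≤ w) (x₀ : ℕ) : ∃ C : ℝ, 0 < C ∧
    ∀ m : ℕ, 1 ≤ m → ∀ a : Fin w → ℕ, (∀ k, m ≤ a k) → (∀ k, a k ≤ m + x₀) →
      |H57LC.eS univ (fun k => (a k : ℝ)) u - (w.choose u : ℝ) * (m : ℝ) ^ u * (1 + (u : ℝ) / w *
        (∑ k, (a k : ℝ) - w * m) / m)| ≤ C * ((w.choose u : ℝ) * (m : ℝ) ^ u) / (m : ℝ) ^ 2 := by
  obtain ⟨C, hC, h⟩ := eS_exp w u hu x₀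
  refine ⟨C, hC, fun m hm a ha1 ha2 => ?_⟩
  have h1 := h m hm a ha1 ha2
  have hm0 : (0 : ℝ) < m := by exact_mod_cast hm
  have hw0 : (0 : ℝ) < w := by
    have : 0 < w := by omega
    exact_mod_cast this
  have hch : (w : ℝ) * ((w - 1).choose (u - 1) : ℝ) = (u : ℝ) * (w.choose u : ℝ) := by
    have := Nat.add_one_mul_choose_eq (w - 1) (u - 1)
    rw [Nat.sub_add_cancel (by omega), Nat.sub_add_cancel hu] at this
    have h' : w * (w - 1).choose (u - 1) = u * w.choose u := by rw [this]; ring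
    exact_mod_cast h'
  have hch' : ((w - 1).choose (u - 1) : ℝ) = (u : ℝ) * (w.choose u : ℝ) / w := by
    rw [eq_div_iff hw0.ne', ← hch]; ring
  have hpow : (m : ℝ) ^ u = (m : ℝ) ^ (u - 1) * m := by
    rw [← pow_succ, Nat.sub_add_cancel hu]
  have hc1 : (1 : ℝ) ≤ (w.choose u : ℝ) := by
    have : 0 < w.choose u := Nat.choose_pos huw
    exact_mod_cast this
  have h4 : H57LC.eS univ (fun k => (a k : ℝ)) u - (w.choose u : ℝ) * (m : ℝ) ^ u * (1 + (u : ℝ) / w *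
        (∑ k, (a k : ℝ) - w * m) / m) = H57LC.eS univ (fun k => (a k : ℝ)) u -
        (w.choose u : ℝ) * (m : ℝ) ^ u -
        ((w - 1).choose (u - 1) : ℝ) * (m : ℝ) ^ (u - 1) * (∑ k, (a k : ℝ) - w * m) := by
    rw [hch', hpow]
    field_simp
    ring
  rw [h4]
  refine h1.trans ?_
  have h5 : (m : ℝ) ^ u ≤ (w.choose u : ℝ) * (m : ℝ) ^ u := by
    have : (0 : ℝ) ≤ (m : ℝ) ^ u := by positivity
    nlinarith only [hc1, this]
  exact div_le_div_of_nonneg_right (mul_le_mul_of_nonneg_left h5 hC.le) (by positivity)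

theorem neg_large {W : Type} [Fintype W] [DecidableEq W] (H : SimpleGraph W)
    [DecidableRel H.Adj] {u R r : ℕ} (hu : 1 ≤ u) (U₀ : Finset W) (hU : U₀.card = u)
    (hdom : ∀ x ∈ U₀, ∀ y, y ≠ x → H.Adj x y) (hW : u < Fintype.card W)
    (hWR : Fintype.card W ≤ R + u) (hrR : r < R)
    (hcond : ((R : ℝ) + u - 1 - r) * ((oe H : ℝ) - u * (u - 1)) <
      u * ((Fintype.card W : ℝ) - u) * ((R : ℝ) + u - 1)) :
    ∃ m₀ : ℕ, ∀ m : ℕ, m₀ ≤ m →
      ∃ c : ℝ, ((TG (R + u) m r).copyCount H : ℝ) / kc u (TG (R + u) m r) < c ∧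
        ∀ᶠ p : ℕ in atTop, c * p ≤ exH H u (R * m + r) (R + u) p := by
  have hw : 1 ≤ R + u := by omega
  obtain ⟨CF, hCF, hF⟩ := G1e_F H (by omega) hw hWR u
  obtain ⟨CK, hCK, hK⟩ := G1e_K (w := R + u) hu (by omega) u
  obtain ⟨s, hs⟩ : ∃ s : ℝ, s = (Fintype.card W : ℝ) := ⟨_, rfl⟩
  obtain ⟨v, hv⟩ : ∃ v : ℝ, v = ((R + u : ℕ) : ℝ) := ⟨_, rfl⟩
  have hv' : v = (R : ℝ) + u := by rw [hv]; push_cast; ring
  obtain ⟨d, hd⟩ : ∃ d : ℝ, d = (R : ℝ) + u - 1 - r := ⟨_, rfl⟩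
  have hR1 : (r : ℝ) + 1 ≤ R := by exact_mod_cast hrR
  have hu1 : (1 : ℝ) ≤ u := by exact_mod_cast hu
  have hr0 : (0 : ℝ) ≤ r := Nat.cast_nonneg _
  have hd0 : 0 ≤ d := by rw [hd]; linarith
  have hv2 : 2 ≤ v := by rw [hv']; linarith
  have hs0 : 0 ≤ s := by rw [hs]; positivity
  obtain ⟨β, hβ⟩ : ∃ β : ℝ, β = d * (oe H : ℝ) / (v * (v - 1)) := ⟨_, rfl⟩
  have hβ0 : 0 ≤ β := by
    rw [hβ]
    exact div_nonneg (mul_nonneg hd0 (Nat.cast_nonneg _)) (mul_nonneg (by linarith) (by linarith))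
  obtain ⟨γ, hγ⟩ : ∃ γ : ℝ, γ = d * ((u : ℝ) * (u - 1)) / (v * (v - 1)) := ⟨_, rfl⟩
  obtain ⟨C, hC⟩ : ∃ C : ℝ, C = CF + CK + β * (s * u + CF) := ⟨_, rfl⟩
  have hCF' : CF ≤ C := by
    rw [hC]
    have : 0 ≤ β * (s * u + CF) := by positivity
    linarith
  have hCK' : CK ≤ C := by
    rw [hC]
    have : 0 ≤ β * (s * u + CF) := by positivity
    linarith
  have hlt : s / v * r + (u / v * (r + u) - γ) < (s / v * (r + u) - β) + u / v * r := by
    have h1 : d * ((oe H : ℝ) - u * (u - 1)) < u * (s - u) * (v - 1) := by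
      rw [hd, hs, hv']
      have := hcond
      linarith
    have h2 : β - γ = d * ((oe H : ℝ) - u * (u - 1)) / (v * (v - 1)) := by
      rw [hβ, hγ]; ring
    have h3 : β - γ < u * (s - u) / v := by
      rw [h2, div_lt_div_iff₀ (mul_pos (by linarith) (by linarith)) (by linarith)]
      have h3a : 0 < v := by linarith
      calc d * ((oe H : ℝ) - u * (u - 1)) * v < u * (s - u) * (v - 1) * v :=
            mul_lt_mul_of_pos_right h1 h3a
        _ = u * (s - u) * (v * (v - 1)) := by ring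
    have h4 : s / v * (r + u) + u / v * r - s / v * r - u / v * (r + u) = u * (s - u) / v := by
      ring
    linarith only [h3, h4]
  obtain ⟨m₁, hm₁⟩ := eventually_atTop.1 (G1e_asym (s / v * r) (u / v * r)
    (s / v * (r + u) - β) (u / v * (r + u) - γ) C hlt)
  refine ⟨m₁ + R + u + 1, fun m hm => ?_⟩
  obtain ⟨k1, k2, k3⟩ := hm₁ m (by omega)
  have hm0 : (0 : ℝ) < m := by
    have : 0 < m := by omega
    exact_mod_cast this
  have hm1 : (1 : ℝ) ≤ m := by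
    have : 1 ≤ m := by omega
    exact_mod_cast this
  -- the main terms
  obtain ⟨F₀, hF₀⟩ : ∃ F₀ : ℝ, F₀ = M0 H (R + u) m := ⟨_, rfl⟩
  obtain ⟨K₀, hK₀⟩ : ∃ K₀ : ℝ, K₀ = ((R + u).choose u : ℝ) * (m : ℝ) ^ u := ⟨_, rfl⟩
  have hF₀0 : 0 < F₀ := by
    rw [hF₀]
    exact lt_of_lt_of_le (by positivity) (M0_ge H hWR)
  have hK₀0 : 0 < K₀ := by
    have : 0 < (R + u).choose u := Nat.choose_pos (by omega)
    have : (0 : ℝ) < ((R + u).choose u : ℝ) := by exact_mod_cast this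
    rw [hK₀]
    positivity
  -- the Turan graph
  have hxg1 : ∀ k : Fin (R + u), m ≤ xg (R + u) r m k := fun k => by unfold xg; omega
  have hxg2 : ∀ k : Fin (R + u), xg (R + u) r m k ≤ m + u := fun k => by
    unfold xg
    split_ifs <;> omega
  have hsz1 : ∀ k : Fin (R + u), m ≤ sz1 u R r m k := fun k => by
    unfold sz1
    split_ifs <;> omega
  have hsz2 : ∀ k : Fin (R + u), sz1 u R r m k ≤ m + u := fun k => by
    unfold sz1
    split_ifs <;> omega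
  have hFL := hF m (by omega) (xg (R + u) r m) hxg1 hxg2
  have hKL := hK m (by omega) (xg (R + u) r m) hxg1 hxg2
  have hFG := hF m (by omega) (sz1 u R r m) hsz1 hsz2
  have hKG := hK m (by omega) (sz1 u R r m) hsz1 hsz2
  have hFc := hF m (by omega) (fun _ => m + u) (fun _ => by omega) (fun _ => le_refl _)
  rw [G1e_sum_xg (by omega)] at hFL hKL
  rw [G1e_sum_sz hu hrR] at hFG hKG
  have hcs : ∑ k : Fin (R + u), (((fun _ => m + u) k : ℕ) : ℝ) - ((R + u : ℕ) : ℝ) * m = v * u := by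
    rw [sum_const, card_univ, Fintype.card_fin, nsmul_eq_mul, ← hv]
    push_cast
    ring
  rw [hcs] at hFc
  rw [← hF₀, ← hs, ← hv] at hFL hFG hFc
  rw [← hK₀, ← hv] at hKL hKG
  obtain ⟨FL, hFLe⟩ : ∃ FL : ℝ, FL = (fJ H univ (xg (R + u) r m) : ℝ) := ⟨_, rfl⟩
  obtain ⟨FS, hFSe⟩ : ∃ FS : ℝ, FS = (fJ H univ (sz1 u R r m) : ℝ) := ⟨_, rfl⟩
  obtain ⟨KL, hKLe⟩ : ∃ KL : ℝ, KL = H57LC.eS univ (fun k => (xg (R + u) r m k : ℝ)) u := ⟨_, rfl⟩
  obtain ⟨KS, hKSe⟩ : ∃ KS : ℝ, KS = H57LC.eS univ (fun k => (sz1 u R r m k : ℝ)) u := ⟨_, rfl⟩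
  rw [← hFLe] at hFL
  rw [← hFSe] at hFG
  rw [← hKLe] at hKL
  rw [← hKSe] at hKG
  have hG := emb_G1_ge H (u := u) (R := R) (r := r) (m := m) hu hrR (by omega)
  have hKG1 := kc_G1_le (u := u) (R := R) (r := r) (m := m) hu hrR (by omega)
  obtain ⟨FC, hFCe⟩ : ∃ FC : ℝ, FC = M0 H (R + u) (m + u) := ⟨_, rfl⟩
  have hFC : |FC - F₀ * (1 + s / v * (v * u) / m)| ≤ CF * F₀ / (m : ℝ) ^ 2 := by
    rw [hFCe]; exact hFc
  obtain ⟨FG, hFGe⟩ : ∃ FG : ℝ, FG = ((emb H (G1 u R r m) univ).card : ℝ) := ⟨_, rfl⟩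
  obtain ⟨KG, hKGe⟩ : ∃ KG : ℝ, KG = (kc u (G1 u R r m) : ℝ) := ⟨_, rfl⟩
  rw [← hFSe, ← hd, ← hFCe, ← hv', ← hFGe] at hG
  rw [← hKSe, ← hd, ← hv', ← hKGe] at hKG1
  have hv0 : 0 < v := by linarith only [hv', hR1, hu1]
  have hv1 : 0 < v - 1 := by linarith
  -- the loss
  have hFC2 : FC ≤ F₀ * (1 + (s * u + CF) / m) := by
    have h1 := (abs_le.1 hFC).2
    have h2 : CF * F₀ / (m : ℝ) ^ 2 ≤ CF * F₀ / m := by
      exact div_le_div_of_nonneg_left (by positivity) hm0 (le_self_pow₀ hm1 (by norm_num))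
    have h3 : F₀ * (1 + s / v * (v * u) / m) + CF * F₀ / m = F₀ * (1 + (s * u + CF) / m) := by
      field_simp
      ring
    linarith only [h1, h2, h3]
  have hFC0 : 0 ≤ FC := by rw [hFCe]; unfold M0; positivity
  have hloss : d * m * (oe H : ℝ) * (FC / (v * (v - 1) * ((m : ℝ) + u) ^ 2)) ≤
      β * (F₀ * (1 + (s * u + CF) / m)) / m := by
    have h1 : d * m * (oe H : ℝ) * (FC / (v * (v - 1) * ((m : ℝ) + u) ^ 2)) =
        β * FC * (m / ((m : ℝ) + u) ^ 2) := by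
      rw [hβ]
      field_simp
    have h2 : (m : ℝ) / ((m : ℝ) + u) ^ 2 ≤ 1 / m := by
      rw [div_le_div_iff₀ (by positivity) hm0, one_mul, ← sq]
      exact pow_le_pow_left₀ hm0.le (by linarith only [hu1]) 2
    rw [h1]
    calc β * FC * (m / ((m : ℝ) + u) ^ 2) ≤ β * FC * (1 / m) :=
          mul_le_mul_of_nonneg_left h2 (mul_nonneg hβ0 hFC0)
      _ ≤ β * (F₀ * (1 + (s * u + CF) / m)) * (1 / m) := by
          refine mul_le_mul_of_nonneg_right (mul_le_mul_of_nonneg_left hFC2 hβ0) (by positivity)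
      _ = _ := by ring
  -- the four bounds
  have hm2 : (0 : ℝ) < (m : ℝ) ^ 2 := by positivity
  have b1 : FL ≤ F₀ * (1 + s / v * r / m + C / (m : ℝ) ^ 2) := by
    have h1 := (abs_le.1 hFL).2
    have h2 : CF * F₀ / (m : ℝ) ^ 2 ≤ F₀ * (C / (m : ℝ) ^ 2) := by
      rw [mul_div_assoc', mul_comm F₀ C]
      exact div_le_div_of_nonneg_right (mul_le_mul_of_nonneg_right hCF' hF₀0.le) hm2.le
    rw [mul_add]
    linarith only [h1, h2]
  have b2 : K₀ * (1 + u / v * r / m - C / (m : ℝ) ^ 2) ≤ KL := by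
    have h1 := (abs_le.1 hKL).1
    have h2 : CK * K₀ / (m : ℝ) ^ 2 ≤ K₀ * (C / (m : ℝ) ^ 2) := by
      rw [mul_div_assoc', mul_comm K₀ C]
      exact div_le_div_of_nonneg_right (mul_le_mul_of_nonneg_right hCK' hK₀0.le) hm2.le
    rw [mul_sub]
    linarith only [h1, h2]
  have b3 : F₀ * (1 + (s / v * (r + u) - β) / m - C / (m : ℝ) ^ 2) ≤ FG := by
    have h1 := (abs_le.1 hFG).1
    have h2 : F₀ * (1 + (s / v * (r + u) - β) / m - (CF + β * (s * u + CF)) / (m : ℝ) ^ 2) =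
        F₀ * (1 + s / v * (r + u) / m) - CF * F₀ / (m : ℝ) ^ 2 -
        β * (F₀ * (1 + (s * u + CF) / m)) / m := by
      field_simp
      ring
    have h3 : (CF + β * (s * u + CF)) / (m : ℝ) ^ 2 ≤ C / (m : ℝ) ^ 2 := by
      refine div_le_div_of_nonneg_right ?_ hm2.le
      rw [hC]
      linarith only [hCK]
    have h4 := mul_le_mul_of_nonneg_left h3 hF₀0.le
    have h5 : F₀ * (1 + (s / v * (r + u) - β) / m - C / (m : ℝ) ^ 2) =
        F₀ * (1 + (s / v * (r + u) - β) / m - (CF + β * (s * u + CF)) / (m : ℝ) ^ 2) +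
        F₀ * ((CF + β * (s * u + CF)) / (m : ℝ) ^ 2) - F₀ * (C / (m : ℝ) ^ 2) := by ring
    linarith only [hG, hloss, h1, h2, h4]
  have b4 : KG ≤ K₀ * (1 + (u / v * (r + u) - γ) / m + C / (m : ℝ) ^ 2) := by
    have h1 := (abs_le.1 hKG).2
    have h2 : CK * K₀ / (m : ℝ) ^ 2 ≤ K₀ * (C / (m : ℝ) ^ 2) := by
      rw [mul_div_assoc', mul_comm K₀ C]
      exact div_le_div_of_nonneg_right (mul_le_mul_of_nonneg_right hCK' hK₀0.le) hm2.le
    have hpow : (m : ℝ) ^ u = (m : ℝ) ^ (u - 1) * m := by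
      rw [← pow_succ, Nat.sub_add_cancel hu]
    have h3 : d * ((u : ℝ) * (u - 1) / (v * (v - 1))) * ((R + u).choose u : ℝ) *
        (m : ℝ) ^ (u - 1) = K₀ * (γ / m) := by
      rw [hK₀, hγ, hpow]
      field_simp
    have h4 : K₀ * (1 + (u / v * (r + u) - γ) / m + C / (m : ℝ) ^ 2) =
        K₀ * (1 + u / v * (r + u) / m) + K₀ * (C / (m : ℝ) ^ 2) - K₀ * (γ / m) := by
      ring
    rw [h3] at hKG1
    rw [h4]
    linarith only [hKG1, h1, h2]
  have hKG0 : 0 ≤ KG := by rw [hKGe]; positivity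
  have hmain : FL * KG < FG * KL := by
    obtain ⟨p1, hp1⟩ : ∃ p1 : ℝ, p1 = 1 + s / v * r / m + C / (m : ℝ) ^ 2 := ⟨_, rfl⟩
    obtain ⟨p2, hp2⟩ : ∃ p2 : ℝ, p2 = 1 + u / v * r / m - C / (m : ℝ) ^ 2 := ⟨_, rfl⟩
    obtain ⟨p3, hp3⟩ : ∃ p3 : ℝ, p3 = 1 + (s / v * (r + u) - β) / m - C / (m : ℝ) ^ 2 := ⟨_, rfl⟩
    obtain ⟨p4, hp4⟩ : ∃ p4 : ℝ, p4 = 1 + (u / v * (r + u) - γ) / m + C / (m : ℝ) ^ 2 := ⟨_, rfl⟩
    rw [← hp1] at b1 k3
    rw [← hp2] at b2 k2 k3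
    rw [← hp3] at b3 k1 k3
    rw [← hp4] at b4 k3
    have hC0 : 0 ≤ C := hCF.le.trans hCF'
    have hp10 : 0 ≤ p1 := by rw [hp1]; positivity
    calc FL * KG ≤ (F₀ * p1) * (K₀ * p4) :=
          mul_le_mul b1 b4 hKG0 (mul_nonneg hF₀0.le hp10)
      _ = F₀ * K₀ * (p1 * p4) := by ring
      _ < F₀ * K₀ * (p3 * p2) := mul_lt_mul_of_pos_left k3 (mul_pos hF₀0 hK₀0)
      _ = (F₀ * p3) * (K₀ * p2) := by ring
      _ ≤ FG * KL := by
          refine mul_le_mul b3 b2 (mul_nonneg hK₀0.le k2.le) ?_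
          exact (mul_nonneg hF₀0.le k1.le).trans b3
  -- copies
  obtain ⟨A, hA, hAm⟩ := labelled_eq_mul H
  have hA0 : (0 : ℝ) < A := by exact_mod_cast hA
  have e1 : FL = A * ((TG (R + u) m r).copyCount H : ℝ) := by
    rw [hFLe, ← emb_TG_fJ H hw (by omega : r < R + u), emb_eq_labelled, hAm]
    push_cast
    ring
  have e2 : FG = A * ((G1 u R r m).copyCount H : ℝ) := by
    rw [hFGe, emb_eq_labelled, hAm]
    push_cast
    ring
  have e3 : KL = (kc u (TG (R + u) m r) : ℝ) := by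
    rw [kc_TG_eN hw (by omega), hKLe]
    unfold eN
    congr 1
    funext k
    unfold xg
    push_cast
    rfl
  have hKL0 : 0 < KL := lt_of_lt_of_le (mul_pos hK₀0 k2) b2
  refine exH_of_graph hu (by omega) (by omega) (exists_clique H hu U₀ hU hdom) (G1 u R r m)
    (G1_allowed hu hrR (by omega)) ?_
  rw [← hKGe, ← e3, div_mul_eq_mul_div, div_lt_iff₀ hKL0]
  rw [e1, e2] at hmain
  have : A * (((TG (R + u) m r).copyCount H : ℝ) * KG) <
      A * (((G1 u R r m).copyCount H : ℝ) * KL) := by linarith only [hmain]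
  exact lt_of_mul_lt_mul_left this hA0.le

end H57GH
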