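import Pool.Agent.H57.GH.PClq

/-!
Project GP: common neighbourhoods of the `u`-cliques of the graph `PG`.
-/

namespace H57GH

open Finset H57LC H57LT

set_option linter.unusedSectionVars false

/-- the number of the labels whose class is not in `K` -/
private lemma PDeg_card {w r m : ℕ} (hr : r ≤ w) (K : Finset (Fin w)) :
    ((univ : Finset (Lb w r m)).filter fun i => i.1 ∉ K).card + (K.filter fun k => k.val < r).card
      = (w - K.card) * m + r := by
  have h1 : ((univ : Finset (Lb w r m)).filter fun i => i.1 ∉ K) =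
      (Kᶜ).sigma fun k => (univ : Finset (Fin (xg w r m k))) := by
    ext i
    simp
  have h2 : ((univ : Finset (Fin w)).filter fun k => k.val < r).card = r := by
    have h3 : ((univ : Finset (Fin w)).filter fun k => k.val < r) =
        (univ : Finset (Fin r)).map (Fin.castLEEmb hr) := by
      ext k
      simp only [mem_filter, mem_univ, true_and, mem_map, Fin.castLEEmb_apply]
      constructor
      · intro hk
        exact ⟨⟨k.val, hk⟩, rfl⟩
      · rintro ⟨j, rfl⟩
        exact j.isLt
    rw [h3, card_map, card_univ, Fintype.card_fin]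
  have h4 : (Kᶜ.filter fun k => k.val < r).card + (K.filter fun k => k.val < r).card = r := by
    refine Eq.trans ?_ h2
    rw [← card_union_of_disjoint]
    · congr 1
      ext k
      simp only [mem_union, mem_filter, mem_compl, mem_univ, true_and]
      tauto
    · rw [disjoint_left]
      intro k hk hk'
      exact (mem_compl.1 (mem_filter.1 hk).1) (mem_filter.1 hk').1
  have h5 : ∀ k : Fin w, (univ : Finset (Fin (xg w r m k))).card = m + if k.val < r then 1 else 0 := by
    intro k
    rw [card_univ, Fintype.card_fin]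
    rfl
  rw [h1, card_sigma, sum_congr rfl fun k _ => h5 k, sum_add_distrib, sum_const, smul_eq_mul,
    card_compl, Fintype.card_fin, ← card_filter, add_assoc, h4]

/-- the number of the labels in `K` which belong to large classes -/
private lemma PDeg_large {u d w r : ℕ} (hd : d + 1 ≤ u) (hr : 2 * d + 2 ≤ r) (hw : u + d + 1 ≤ w)
    (K : Finset (Fin w)) (hK : K.card = u) (hKv : ∀ k ∈ K, k.val < u + d + 1) :
    ((univ : Finset (Fin w)).filter fun k => k.val < u + d + 1 ∧ k ∉ K).card ≤
      (K.filter fun k => k.val < r).card := by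
  have h1 : ((univ : Finset (Fin w)).filter fun k => k.val < u + d + 1).card = u + d + 1 := by
    have h3 : ((univ : Finset (Fin w)).filter fun k => k.val < u + d + 1) =
        (univ : Finset (Fin (u + d + 1))).map (Fin.castLEEmb hw) := by
      ext k
      simp only [mem_filter, mem_univ, true_and, mem_map, Fin.castLEEmb_apply]
      constructor
      · intro hk
        exact ⟨⟨k.val, hk⟩, rfl⟩
      · rintro ⟨j, rfl⟩
        exact j.isLt
    rw [h3, card_map, card_univ, Fintype.card_fin]
  have h2 : ((univ : Finset (Fin w)).filter fun k => k.val < u + d + 1 ∧ k ∉ K).card + K.card =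
      u + d + 1 := by
    refine Eq.trans ?_ h1
    rw [← card_union_of_disjoint]
    · congr 1
      ext k
      simp only [mem_union, mem_filter, mem_univ, true_and]
      constructor
      · rintro (h | h)
        · exact h.1
        · exact hKv k h
      · intro h
        by_cases hk : k ∈ K
        · exact Or.inr hk
        · exact Or.inl ⟨h, hk⟩
    · rw [disjoint_left]
      intro k hk hk'
      exact (mem_filter.1 hk).2.2 hk'
  have h3 : (K.filter fun k => ¬ k.val < r).card ≤ u + d + 1 - (2 * d + 2) := by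
    have h4 : (K.filter fun k => ¬ k.val < r).card ≤ (Ico (2 * d + 2) (u + d + 1)).card := by
      refine card_le_card_of_injOn (fun k => k.val) ?_ fun a _ b _ h => Fin.ext h
      intro k hk
      have hk := mem_filter.1 (mem_coe.1 hk)
      have h5 := hKv k hk.1
      have h6 : ¬ k.val < r := hk.2
      have h7 : 2 * d + 2 ≤ k.val := by omega
      exact mem_coe.2 (mem_Ico.2 ⟨h7, h5⟩)
    rwa [Nat.card_Ico] at h4
  have h4 := card_filter_add_card_filter_not (s := K) (fun k => k.val < r)
  omega

/-- common neighbourhoods have at most `R m + r` vertices -/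
theorem PG_deg {u d R r m : ℕ} (hu : 2 ≤ u) (hd : d + 1 ≤ u) (hr : 2 * d + 2 ≤ r) (hrR : r < R)
    (hdR : d + 1 ≤ R) {Θ : Type} [Fintype Θ] [DecidableEq Θ] (idx : Θ → Fin (u + d + 1) → ℕ)
    (hidx : Mds u idx) :
    ∀ U ∈ clq (PG u (u + d + 1) (R + u) r m idx) univ u,
      (cn (PG u (u + d + 1) (R + u) r m idx) U).card ≤ R * m + r := by
  intro U hU
  rw [clq_u hu (by omega) idx hidx] at hU
  obtain ⟨⟨t, A⟩, htA, rfl⟩ := mem_image.1 hU
  have hA := (mem_product.1 htA).2
  simp only at hA
  obtain ⟨hA1, hA2⟩ := mem_filter.1 hA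
  have hAc : A.card = u := (mem_powersetCard.1 hA1).2
  have hAinj : ∀ i ∈ A, ∀ j ∈ A, i.1 = j.1 → i = j := by
    intro i hi j hj h
    by_contra hne
    exact hA2 i hi j hj hne h
  set K : Finset (Fin (R + u)) := A.image Sigma.fst with hK
  have hKc : K.card = u := by
    rw [hK, card_image_of_injOn fun i hi j hj h => hAinj i hi j hj h, hAc]
  simp only at *
  set G := PG u (u + d + 1) (R + u) r m idx with hG
  set U := A.image (blk idx t) with hUdef
  have hblk : Function.Injective (blk idx t : Lb (R + u) r m → _) := fun i j h => congrArg Prod.fst h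
  have hUc : U.card = u := by rw [hUdef, card_image_of_injective _ hblk, hAc]
  have hUcl : IsCl G U := by
    intro a ha b hb hab
    obtain ⟨i, hi, rfl⟩ := mem_image.1 ha
    obtain ⟨j, hj, rfl⟩ := mem_image.1 hb
    refine ⟨?_, t, rfl, rfl⟩
    exact hA2 i hi j hj fun h => hab (by rw [h])
  -- the two kinds of common neighbours
  set S₁ : Finset (Lb (R + u) r m × (Θ → Option (TT u (u + d + 1)))) :=
    ((univ : Finset (Lb (R + u) r m)).filter fun i => i.1 ∉ K).image (blk idx t) with hS₁
  set S₂ := cn G U \ S₁ with hS₂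
  have hcl : ∀ x ∈ cn G U, IsCl G (insert x U) ∧ (insert x U).card = u + 1 ∧
      ∀ i ∈ A, x.1.1 ≠ i.1 := by
    intro x hx
    have hx := (mem_filter.1 hx).2
    have hxU : x ∉ U := fun h => G.loopless.irrefl x (hx x h)
    refine ⟨?_, by rw [card_insert_of_notMem hxU, hUc], ?_⟩
    · intro a ha b hb hab
      rcases mem_insert.1 ha with ha1 | ha1
      · rcases mem_insert.1 hb with hb1 | hb1
        · exact absurd (ha1.trans hb1.symm) hab
        · rw [ha1]
          exact (hx b hb1).symm
      · rcases mem_insert.1 hb with hb1 | hb1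
        · rw [hb1]
          exact hx a ha1
        · exact hUcl a ha1 b hb1 hab
    · intro i hi h
      exact (hx _ (mem_image_of_mem _ hi)).1 h.symm
  have hex : ∀ x ∈ S₂, ∃ θ : Θ, (∀ i ∈ A, inG idx i θ) ∧ inG idx x.1 θ ∧ x.2 θ = none ∧
      ∀ θ' ≠ θ, x.2 θ' = vw idx x.1 θ' (t θ') := by
    intro x hx
    obtain ⟨hx1, hx2⟩ := mem_sdiff.1 hx
    obtain ⟨h1, h2, h3⟩ := hcl x hx1
    rcases clq_cases hu (by omega) idx hidx (insert x U) h1 (by omega) with ⟨t', ht'⟩ | h4
    · exfalso
      apply hx2
      have h5 : t' = t := by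
        refine blk_uniq (by omega) idx A hAc hA2 fun i hi => ?_
        exact ht' (blk idx t i) (mem_insert_of_mem (mem_image_of_mem _ hi))
      subst h5
      refine mem_image.2 ⟨x.1, mem_filter.2 ⟨mem_univ _, fun h => ?_⟩, ht' x (mem_insert_self _ _)⟩
      obtain ⟨i, hi, h6⟩ := mem_image.1 h
      exact h3 i hi h6.symm
    · obtain ⟨θ, t', -, -, h5⟩ := h4
      have h6 : t = fun θ' => if θ' = θ then t θ else t' θ' := by
        refine blk_uniq (by omega) idx A hAc hA2 fun i hi => ?_
        refine Prod.ext rfl (funext fun θ' => ?_)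
        by_cases hθ : θ' = θ
        · subst hθ
          simp only [blk, if_true]
        · have h7 := (h5 (blk idx t i) (mem_insert_of_mem (mem_image_of_mem _ hi))).2.2 θ' hθ
          simp only [blk, if_neg hθ] at h7 ⊢
          exact h7
      obtain ⟨h7, h8, h9⟩ := h5 x (mem_insert_self _ _)
      refine ⟨θ, fun i hi => (h5 (blk idx t i) (mem_insert_of_mem (mem_image_of_mem _ hi))).1, h7, h8,
        fun θ' hθ' => ?_⟩
      rw [h9 θ' hθ', h6]
      simp only [if_neg hθ']
  have hθu : ∀ θ θ' : Θ, (∀ i ∈ A, inG idx i θ) → (∀ i ∈ A, inG idx i θ') → θ = θ' := by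
    intro θ θ' h h'
    by_contra hne
    have h1 := hidx θ θ' hne
    have h2 : A.card ≤ ((univ : Finset (Fin (u + d + 1))).filter fun a => idx θ a = idx θ' a).card := by
      refine card_le_card_of_injOn (fun i => if hi : i.1.val < u + d + 1 then ⟨i.1.val, hi⟩ else 0)
        ?_ ?_
      · intro i hi
        obtain ⟨h3, h4⟩ := h i hi
        obtain ⟨h5, h6⟩ := h' i hi
        simp only [dif_pos h3]
        exact mem_coe.2 (mem_filter.2 ⟨mem_univ _, h4.trans h6.symm⟩)
      · intro i hi j hj hij
        obtain ⟨h3, -⟩ := h i hi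
        obtain ⟨h4, -⟩ := h j hj
        simp only [dif_pos h3, dif_pos h4] at hij
        exact hAinj i hi j hj (Fin.ext (Fin.mk.inj hij))
    omega
  have hS₂c : S₂.card ≤ (K.filter fun k => k.val < r).card := by
    rcases S₂.eq_empty_or_nonempty with h0 | ⟨x₀, hx₀⟩
    · rw [h0, card_empty]
      exact Nat.zero_le _
    · obtain ⟨θ, hθA, -⟩ := hex x₀ hx₀
      have hKv : ∀ k ∈ K, k.val < u + d + 1 := by
        intro k hk
        obtain ⟨i, hi, rfl⟩ := mem_image.1 hk
        exact (hθA i hi).1
      refine le_trans ?_ (PDeg_large hd hr (by omega) K hKc hKv)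
      refine card_le_card_of_injOn (fun x => x.1.1) ?_ ?_
      · intro x hx
        have hx := mem_coe.1 hx
        obtain ⟨θ', h1, h2, -⟩ := hex x hx
        refine mem_coe.2 (mem_filter.2 ⟨mem_univ _, h2.1, fun h => ?_⟩)
        obtain ⟨i, hi, h3⟩ := mem_image.1 h
        exact (hcl x (mem_sdiff.1 hx).1).2.2 i hi h3.symm
      · intro x hx y hy hxy
        obtain ⟨θ₁, h1, ⟨h2, h3⟩, h4, h5⟩ := hex x (mem_coe.1 hx)
        obtain ⟨θ₂, h6, ⟨h7, h8⟩, h9, h10⟩ := hex y (mem_coe.1 hy)
        obtain rfl := hθu _ _ h1 h6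
        have hxy1 : x.1 = y.1 := by
          obtain ⟨⟨k, i⟩, f⟩ := x
          obtain ⟨⟨k', j⟩, g⟩ := y
          simp only at hxy
          subst hxy
          simp only at h3 h8
          rw [Fin.ext (h3.symm.trans h8)]
        refine Prod.ext hxy1 (funext fun θ' => ?_)
        by_cases hθ : θ' = θ₁
        · rw [hθ, h4, h9]
        · rw [h5 θ' hθ, h10 θ' hθ, hxy1]
  have hS₁c : S₁.card + (K.filter fun k => k.val < r).card = R * m + r := by
    rw [hS₁, card_image_of_injective _ hblk, PDeg_card (by omega) K, hKc]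
    congr 2
    omega
  have hsub : cn G U ⊆ S₁ ∪ S₂ := by
    intro x hx
    by_cases h : x ∈ S₁
    · exact mem_union_left _ h
    · exact mem_union_right _ (mem_sdiff.2 ⟨hx, h⟩)
  calc (cn G U).card ≤ (S₁ ∪ S₂).card := card_le_card hsub
    _ ≤ S₁.card + S₂.card := card_union_le S₁ S₂
    _ ≤ S₁.card + (K.filter fun k => k.val < r).card := Nat.add_le_add_left hS₂c _
    _ = R * m + r := hS₁c

end H57GH
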