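import Pool.Agent.H57.GH.PDefs

/-!
Project GP: many gadgets (polynomials of degree less than `u` over a prime field).
-/

namespace H57GH

open Finset H57LC H57LT

set_option linter.unusedSectionVars false

/-- two different polynomials with `u` coefficients agree in less than `u` of the points
`0, .., v - 1` -/
private theorem PMds_agree {p u v : ℕ} [Fact p.Prime] (hv : v ≤ p) {f g : Fin u → ZMod p}
    (hfg : f ≠ g) :
    ((univ : Finset (Fin v)).filter fun a =>
      (∑ j : Fin u, f j * ((a.val : ℕ) : ZMod p) ^ (j : ℕ)).val =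
        (∑ j : Fin u, g j * ((a.val : ℕ) : ZMod p) ^ (j : ℕ)).val).card < u := by
  classical
  have hp : p.Prime := Fact.out
  haveI : NeZero p := ⟨hp.ne_zero⟩
  let q : Polynomial (ZMod p) := ∑ j : Fin u, Polynomial.C (f j - g j) * Polynomial.X ^ (j : ℕ)
  have hq0 : q ≠ 0 := by
    intro h
    apply hfg
    funext j
    have h1 : q.coeff (j : ℕ) = f j - g j := by
      simp only [q, Polynomial.finset_sum_coeff, Polynomial.coeff_C_mul, Polynomial.coeff_X_pow]
      rw [Finset.sum_eq_single j]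
      · simp
      · intro b _ hb
        rw [if_neg (fun h => hb (Fin.ext h.symm)), mul_zero]
      · intro h
        exact absurd (mem_univ _) h
    rw [h, Polynomial.coeff_zero] at h1
    exact sub_eq_zero.1 h1.symm
  have hdeg : q.natDegree < u :=
    (Polynomial.natDegree_lt_iff_degree_lt hq0).2 (Polynomial.degree_sum_fin_lt _)
  refine lt_of_le_of_lt ?_ hdeg
  refine le_trans ?_ (Polynomial.card_roots' q)
  refine le_trans ?_ (Multiset.toFinset_card_le q.roots)
  refine Finset.card_le_card_of_injOn (fun a : Fin v => ((a.val : ℕ) : ZMod p)) ?_ ?_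
  · intro a ha
    have ha' := (mem_filter.1 (Finset.mem_coe.1 ha)).2
    have h1 := ZMod.val_injective p ha'
    rw [Finset.mem_coe, Multiset.mem_toFinset, Polynomial.mem_roots hq0, Polynomial.IsRoot.def]
    simp only [q, Polynomial.eval_finset_sum, Polynomial.eval_mul, Polynomial.eval_C,
      Polynomial.eval_pow, Polynomial.eval_X]
    rw [← sub_eq_zero, ← Finset.sum_sub_distrib] at h1
    rw [← h1]
    exact Finset.sum_congr rfl fun j _ => by ring
  · intro a _ b _ hab
    have hab' : ((a.val : ℕ) : ZMod p) = ((b.val : ℕ) : ZMod p) := hab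
    have h2 := congrArg ZMod.val hab'
    rw [ZMod.val_natCast_of_lt (lt_of_lt_of_le a.isLt hv),
      ZMod.val_natCast_of_lt (lt_of_lt_of_le b.isLt hv)] at h2
    exact Fin.ext h2

theorem exists_mds (u v : ℕ) (hu : 1 ≤ u) : ∃ c : ℝ, 0 < c ∧ ∃ m₀ : ℕ, ∀ m : ℕ, m₀ ≤ m →
    ∃ (N : ℕ) (idx : Fin N → Fin v → ℕ), (∀ θ a, idx θ a < m) ∧ Mds u idx ∧
      c * (m : ℝ) ^ u ≤ N := by
  refine ⟨(1 / 2) ^ u, by positivity, 2 * v + 2, fun m hm => ?_⟩
  obtain ⟨p, hp, h1, h2⟩ := Nat.exists_prime_lt_and_le_two_mul (m / 2) (by omega)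
  haveI : Fact p.Prime := ⟨hp⟩
  haveI : NeZero p := ⟨hp.ne_zero⟩
  have hpm : p ≤ m := by omega
  have hvp : v ≤ p := by omega
  have hmp : m ≤ 2 * p := by omega
  have hcard : Fintype.card (Fin u → ZMod p) = p ^ u := by
    rw [Fintype.card_fun, ZMod.card, Fintype.card_fin]
  let e : (Fin u → ZMod p) ≃ Fin (p ^ u) := Fintype.equivFinOfCardEq hcard
  refine ⟨p ^ u, fun θ a =>
    (∑ j : Fin u, e.symm θ j * ((a.val : ℕ) : ZMod p) ^ (j : ℕ)).val, ?_, ?_, ?_⟩
  · intro θ a
    exact lt_of_lt_of_le (ZMod.val_lt _) hpm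
  · intro θ θ' hne
    exact PMds_agree hvp fun h => hne (e.symm.injective h)
  · have h3 : (m : ℝ) ≤ 2 * p := by exact_mod_cast hmp
    have h4 : (1 / 2 : ℝ) * m ≤ p := by linarith
    rw [← mul_pow]
    push_cast
    exact pow_le_pow_left₀ (by positivity) h4 u

end H57GH
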