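import Pool.Agent.H57.GH.PSum
import Pool.Agent.H57.GH.PDeg
import Pool.Agent.H57.GH.PMds

/-!
Project GP: the lower bound.
-/

namespace H57GH

open Finset H57LC H57LT

set_option linter.unusedSectionVars false

/-- `LG` is the Turan graph -/
theorem LG_iso {w m r : ℕ} (hw : 1 ≤ w) (hr : r < w) : Nonempty (LG w r m ≃g TG w m r) := by
  classical
  have key : ∀ k : Fin w, Nonempty (Fin (xg w r m k) ≃ {v : Fin (w * m + r) // tcN w m r hw v = k}) := by
    intro k
    refine Fintype.card_eq.1 ?_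
    rw [Fintype.card_fin, Fintype.card_subtype]
    have h1 := tcN_card (m := m) hw hr k
    unfold H57E32.cls at h1
    rw [h1]
    rfl
  have e : ∀ k : Fin w, Fin (xg w r m k) ≃ {v : Fin (w * m + r) // tcN w m r hw v = k} :=
    fun k => (key k).some
  let f : Lb w r m ≃ Fin (w * m + r) :=
    (Equiv.sigmaCongrRight e).trans (Equiv.sigmaFiberEquiv (tcN w m r hw))
  have hf : ∀ i : Lb w r m, tcN w m r hw (f i) = i.1 := fun i => (e i.1 i.2).2
  refine ⟨⟨f, ?_⟩⟩
  intro a b
  rw [tcN_adj hw, hf, hf]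
  rfl

/-- isomorphic graphs have the same number of labelled copies -/
lemma PLow_emb {V V' κ : Type*} [Fintype V] [DecidableEq V] [Fintype V'] [DecidableEq V']
    [Fintype κ] [DecidableEq κ] (K : SimpleGraph κ) [DecidableRel K.Adj] {G : SimpleGraph V}
    [DecidableRel G.Adj] {G' : SimpleGraph V'} [DecidableRel G'.Adj] (e : G ≃g G') :
    (emb K G univ).card = (emb K G' univ).card := by
  refine card_nbij' (fun φ i => e (φ i)) (fun φ i => e.symm (φ i)) ?_ ?_ ?_ ?_
  · intro φ hφ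
    simp only [emb, coe_filter, Set.mem_ofPred_eq, Fintype.mem_piFinset, mem_univ, implies_true,
      true_and] at hφ ⊢
    exact ⟨e.injective.comp hφ.1, fun i j h => e.map_adj_iff.2 (hφ.2 i j h)⟩
  · intro φ hφ
    simp only [emb, coe_filter, Set.mem_ofPred_eq, Fintype.mem_piFinset, mem_univ, implies_true,
      true_and] at hφ ⊢
    exact ⟨e.symm.injective.comp hφ.1, fun i j h => e.symm.map_adj_iff.2 (hφ.2 i j h)⟩
  · intro φ _
    funext i
    simp
  · intro φ _
    funext i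
    simp

/-- isomorphic graphs have the same number of cliques -/
lemma PLow_clq {V V' : Type*} [Fintype V] [DecidableEq V] [Fintype V'] [DecidableEq V']
    {G : SimpleGraph V} [DecidableRel G.Adj] {G' : SimpleGraph V'} [DecidableRel G'.Adj]
    (e : G ≃g G') (k : ℕ) : (clq G univ k).card ≤ (clq G' univ k).card := by
  refine card_le_card_of_injOn (fun T => T.map e.toEquiv.toEmbedding) ?_ ?_
  · intro T hT
    rw [mem_coe, mem_clq] at hT
    rw [mem_coe, mem_clq]
    refine ⟨⟨subset_univ _, by rw [card_map]; exact hT.1.2⟩, ?_⟩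
    intro a ha b hb hab
    rw [mem_map] at ha hb
    obtain ⟨a, ha, rfl⟩ := ha
    obtain ⟨b, hb, rfl⟩ := hb
    have h1 : a ≠ b := fun h => hab (by rw [h])
    exact e.map_adj_iff.2 (hT.2 a ha b hb h1)
  · intro T _ T' _ h
    exact Finset.map_injective _ h

variable {ι : Type} [Fintype ι] [DecidableEq ι] (J : SimpleGraph ι) [DecidableRel J.Adj]

theorem low_emb {u d : ℕ} (hu : 2 ≤ u) (hd : d + 1 ≤ u) (v₀ : ι) (hv₀ : dg J univ v₀ = d)
    {R : ℕ} (hR : u + d + 1 + Fintype.card ι ≤ R) : ∃ c : ℝ, 0 < c ∧ ∃ m₀ : ℕ, ∀ m r : ℕ,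
      m₀ ≤ m → r < R → 2 * d + 2 ≤ r →
      ∃ (V : Type) (_ : Fintype V) (_ : DecidableEq V) (G : SimpleGraph V)
        (_ : DecidableRel G.Adj), (∀ U ∈ clq G univ u, (cn G U).card ≤ R * m + r) ∧
        clq G univ (R + u + 1) = ∅ ∧ 0 < (clq G univ u).card ∧
        (u.factorial * rhoG J u R r m + c * (m : ℝ) ^ (Fintype.card ι - 1 - d)) *
          ((clq G univ u).card : ℝ) ≤ ((emb (jn J u) G univ).card : ℝ) := by
  obtain ⟨c₀, hc₀, m₁, hm₁⟩ := exists_mds u (u + d + 1) (by omega)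
  have hRu : (0 : ℝ) < 2 * ((R : ℝ) + u) := by
    have h1 : (0 : ℝ) < (u : ℝ) := by exact_mod_cast (by omega : 0 < u)
    positivity
  have hT1 : 1 ≤ Fintype.card (TT u (u + d + 1)) := Fintype.card_pos
  have hT : (0 : ℝ) < (Fintype.card (TT u (u + d + 1)) : ℝ) := by exact_mod_cast hT1
  refine ⟨c₀ / ((Fintype.card (TT u (u + d + 1)) : ℝ) * (2 * ((R : ℝ) + u)) ^ u), by positivity,
    max 1 m₁, ?_⟩
  intro m r hm hrR hr
  have hm1 : 1 ≤ m := le_trans (le_max_left _ _) hm
  have hm1r : (1 : ℝ) ≤ (m : ℝ) := by exact_mod_cast hm1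
  have hm0 : (0 : ℝ) < (m : ℝ) := by linarith
  obtain ⟨N, idx, hidx, hM, hN⟩ := hm₁ m (le_trans (le_max_right _ _) hm)
  have hNpos : (0 : ℝ) < (N : ℝ) := lt_of_lt_of_le (by positivity) hN
  have hN1 : 1 ≤ N := by exact_mod_cast hNpos
  have hw1 : 1 ≤ R + u := by omega
  have hrw : r < R + u := by omega
  obtain ⟨e⟩ := LG_iso (m := m) hw1 hrw
  -- the numbers for `LG`
  have hB1 : (clq (LG (R + u) r m) univ u).card = (clq (TG (R + u) m r) univ u).card :=
    le_antisymm (PLow_clq e u) (PLow_clq e.symm u)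
  have hkc : H57E32.kc u (TG (R + u) m r) = (clq (TG (R + u) m r) univ u).card := kc_eq_clq _ _
  have hBpos : 0 < (clq (LG (R + u) r m) univ u).card := by
    rw [hB1, ← hkc]
    exact kc_TG_pos_le hm1 hw1 hrw (by omega)
  have hE : ((emb (jn J u) (LG (R + u) r m) univ).card : ℝ) =
      u.factorial * rhoG J u R r m * ((clq (LG (R + u) r m) univ u).card : ℝ) := by
    rw [PLow_emb (jn J u) e, hB1, ← hkc]
    exact emb_TG J hm1 (by omega) hrw
  have hBle : ((clq (LG (R + u) r m) univ u).card : ℝ) ≤ (2 * ((R : ℝ) + u)) ^ u * (m : ℝ) ^ u := by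
    have h1 : (clq (TG (R + u) m r) univ u).card ≤ ((R + u) * m + r).choose u := by
      refine (card_le_card (filter_subset _ _)).trans ?_
      rw [card_powersetCard, card_univ, Fintype.card_fin]
    have h2 : ((R + u) * m + r).choose u ≤ ((R + u) * m + r) ^ u := Nat.choose_le_pow _ _
    rw [hB1, ← mul_pow]
    calc ((clq (TG (R + u) m r) univ u).card : ℝ) ≤ (((R + u) * m + r : ℕ) : ℝ) ^ u := by
          exact_mod_cast h1.trans h2
      _ ≤ (2 * ((R : ℝ) + u) * m) ^ u := by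
          refine pow_le_pow_left₀ (Nat.cast_nonneg _) ?_ _
          push_cast
          have h3 : (r : ℝ) ≤ (R : ℝ) + u := by exact_mod_cast hrw.le
          have h4 : (R : ℝ) + u ≤ ((R : ℝ) + u) * m := le_mul_of_one_le_right (by positivity) hm1r
          linarith
  -- the graph
  have hkcP := PG_kc (w := R + u) (r := r) (m := m) hu (by omega : u ≤ u + d + 1) idx hM
  have hembP := PG_emb J (r := r) (m := m) hu hd v₀ hv₀
    (by omega : u + d + 1 + Fintype.card ι ≤ R + u) idx hM hidx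
  refine ⟨Lb (R + u) r m × (Fin N → Option (TT u (u + d + 1))), inferInstance, inferInstance,
    PG u (u + d + 1) (R + u) r m idx, inferInstance, ?_, ?_, ?_, ?_⟩
  · exact PG_deg hu hd hr hrR (by omega) idx hM
  · exact clq_top idx
  · rw [hkcP]
    exact Nat.mul_pos Fintype.card_pos hBpos
  · rw [hkcP]
    have hcardT : Fintype.card (Fin N → TT u (u + d + 1)) =
        Fintype.card (TT u (u + d + 1)) * Fintype.card (TT u (u + d + 1)) ^ (N - 1) := by
      rw [Fintype.card_fun, Fintype.card_fin, ← pow_succ']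
      congr 1
      omega
    rw [hcardT, Fintype.card_fin] at hembP
    have h1 : ((Fintype.card (TT u (u + d + 1)) * Fintype.card (TT u (u + d + 1)) ^ (N - 1) : ℕ) : ℝ) *
          ((emb (jn J u) (LG (R + u) r m) univ).card : ℝ) +
        (u.factorial : ℝ) * ((N : ℝ) * (Fintype.card (TT u (u + d + 1)) : ℝ) ^ (N - 1) *
          (m : ℝ) ^ (Fintype.card ι - 1 - d)) ≤
        ((emb (jn J u) (PG u (u + d + 1) (R + u) r m idx) univ).card : ℝ) := by
      exact_mod_cast hembP
    refine le_trans ?_ h1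
    rw [hcardT, hE]
    push_cast
    have hf1 : (1 : ℝ) ≤ (u.factorial : ℝ) := by exact_mod_cast Nat.one_le_iff_ne_zero.2 (Nat.factorial_ne_zero u)
    have hTp : (0 : ℝ) < (Fintype.card (TT u (u + d + 1)) : ℝ) ^ (N - 1) := by positivity
    have hme : (0 : ℝ) < (m : ℝ) ^ (Fintype.card ι - 1 - d) := by positivity
    obtain ⟨B, hB⟩ : ∃ B : ℝ, B = ((clq (LG (R + u) r m) univ u).card : ℝ) := ⟨_, rfl⟩
    obtain ⟨τ, hτ⟩ : ∃ τ : ℝ, τ = (Fintype.card (TT u (u + d + 1)) : ℝ) := ⟨_, rfl⟩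
    obtain ⟨D, hD⟩ : ∃ D : ℝ, D = (2 * ((R : ℝ) + u)) ^ u := ⟨_, rfl⟩
    have hD0 : 0 < D := by rw [hD]; positivity
    rw [← hB, ← hD] at hBle
    rw [← hτ] at hT hTp
    rw [← hB, ← hτ, ← hD]
    have h2 : c₀ / (τ * D) * (τ * B) ≤ N := by
      have h3 : c₀ / (τ * D) * (τ * B) = c₀ * (B / D) := by
        field_simp
      rw [h3]
      have h4 : B / D ≤ (m : ℝ) ^ u := by
        rw [div_le_iff₀ hD0]
        linarith
      exact (mul_le_mul_of_nonneg_left h4 hc₀.le).trans hN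
    have h5 : c₀ / (τ * D) * (τ * B) ≤ u.factorial * N :=
      h2.trans (le_mul_of_one_le_left hNpos.le hf1)
    have h6 := mul_le_mul_of_nonneg_right h5 (mul_pos hTp hme).le
    have e1 : (u.factorial * rhoG J u R r m + c₀ / (τ * D) * (m : ℝ) ^ (Fintype.card ι - 1 - d)) *
          (τ * τ ^ (N - 1) * B) =
        τ * τ ^ (N - 1) * (u.factorial * rhoG J u R r m * B) +
          c₀ / (τ * D) * (τ * B) * (τ ^ (N - 1) * (m : ℝ) ^ (Fintype.card ι - 1 - d)) := by ring
    have e2 : (u.factorial : ℝ) * ((N : ℝ) * τ ^ (N - 1) * (m : ℝ) ^ (Fintype.card ι - 1 - d)) =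
        u.factorial * N * (τ ^ (N - 1) * (m : ℝ) ^ (Fintype.card ι - 1 - d)) := by ring
    rw [e1, e2]
    linarith

end H57GH
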