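import Pool.Agent.H57.GH.UpperP0
import Pool.Agent.H57.GH.PLow
import Pool.Agent.H57.GH.Neg
import Pool.Agent.H57.GH.FinalH

/-!
Project GP: the order of `P_u(H, Δ, ω) - ρ_u(H, L)`.
-/

namespace H57GH

open Finset H57LC H57LT H57E32 Filter Topology

set_option linter.unusedSectionVars false

/-- an upper bound for the extremal function from a bound for all allowed graphs -/
theorem exH_le_of {W : Type*} [Fintype W] (H : SimpleGraph W) {u Δ ω : ℕ} (hu : 1 ≤ u)
    (hω : u ≤ ω) (hW : 0 < Fintype.card W)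
    (hcl : ∀ x : W, ∃ A : Finset W, x ∈ A ∧ H.IsNClique u A) {ρ : ℝ}
    (hup : ∀ (n : ℕ) (G : SimpleGraph (Fin n)), Allowed u Δ ω G →
      (G.copyCount H : ℝ) ≤ ρ * kc u G) (p : ℕ) : (exH H u Δ ω p : ℝ) ≤ ρ * p := by
  have hbdd : BddAbove {N : ℕ | ∃ (n : ℕ) (G : SimpleGraph (Fin n)),
      Allowed u Δ ω G ∧ kc u G = p ∧ G.copyCount H = N} := by
    refine ⟨(p * u) ^ Fintype.card W, ?_⟩
    rintro N ⟨n, G', _, hp', rfl⟩
    rw [← hp']
    exact copyCount_le H G' hcl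
  have hne : {N : ℕ | ∃ (n : ℕ) (G : SimpleGraph (Fin n)),
      Allowed u Δ ω G ∧ kc u G = p ∧ G.copyCount H = N}.Nonempty := by
    obtain ⟨n, G, h1, h2, _⟩ := (AchH.one (H := H) (Δ := Δ) hω).mul hu hW p
    exact ⟨_, n, G, h1, by rw [h2, mul_one], rfl⟩
  obtain ⟨n, G, hG, hp, hN⟩ := Nat.sSup_mem hne hbdd
  have h := hup n G hG
  rw [hp, hN] at h
  exact h

/-- the hypotheses of the bounds for labelled copies -/
lemma GapH_allowed {u R m r n : ℕ} (G : SimpleGraph (Fin n)) [DecidableRel G.Adj]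
    (hG : Allowed u (R * m + r) (R + u) G) :
    (∀ U ∈ clq G univ u, (H57LC.cn G U).card ≤ R * m + r) ∧ clq G univ (R + u + 1) = ∅ := by
  classical
  rw [allowed_iff] at hG
  refine ⟨?_, ?_⟩
  · intro U hU
    rw [mem_clq] at hU
    have h1 : G.IsNClique u U := by
      rw [SimpleGraph.isNClique_iff]
      exact ⟨fun a ha b hb hab => hU.2 a ha b hb hab, hU.1.2⟩
    have h2 := hG.1 U h1
    have h3 : (cns G U).ncard = (H57LC.cn G U).card := by
      rw [← Set.ncard_coe_finset]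
      congr 1
      ext v
      simp [cns, H57LC.mem_cn]
    rw [← h3]
    exact h2
  · rw [eq_empty_iff_forall_notMem]
    intro A hA
    rw [mem_clq] at hA
    refine hG.2 A ?_
    rw [SimpleGraph.isNClique_iff]
    exact ⟨fun a ha b hb hab => hA.2 a ha b hb hab, hA.1.2⟩

/-- the converse of `GapH_allowed` -/
lemma GapH_allowed' {u R m r : ℕ} {V : Type} [Fintype V] [DecidableEq V] (G : SimpleGraph V)
    [DecidableRel G.Adj] (h1 : ∀ U ∈ clq G univ u, (H57LC.cn G U).card ≤ R * m + r)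
    (h2 : clq G univ (R + u + 1) = ∅) : Allowed u (R * m + r) (R + u) G := by
  classical
  rw [allowed_iff]
  refine ⟨?_, ?_⟩
  · intro A hA
    have h3 : (cns G A).ncard = (H57LC.cn G A).card := by
      rw [← Set.ncard_coe_finset]
      congr 1
      ext v
      simp [cns, H57LC.mem_cn]
    rw [h3]
    refine h1 A ?_
    rw [mem_clq]
    exact ⟨⟨subset_univ A, hA.card_eq⟩, fun a ha b hb hab => hA.1 ha hb hab⟩
  · intro A hA
    have h3 : A ∈ clq G univ (R + u + 1) := by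
      rw [mem_clq]
      exact ⟨⟨subset_univ A, hA.card_eq⟩, fun a ha b hb hab => hA.1 ha hb hab⟩
    rw [h2] at h3
    exact absurd h3 (notMem_empty A)

/-- the density of the Turan graph -/
lemma GapH_TG {ι : Type} [Fintype ι] [DecidableEq ι] (J : SimpleGraph ι) [DecidableRel J.Adj]
    {A u R r m : ℕ} (hA : 0 < A)
    (hlab : ∀ (V : Type) [Fintype V] (G : SimpleGraph V),
      G.labelledCopyCount (jn J u) = A * G.copyCount (jn J u)) (hm : 1 ≤ m) (hR : 1 ≤ R)
    (hr : r < R + u) :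
    ((TG (R + u) m r).copyCount (jn J u) : ℝ) / kc u (TG (R + u) m r) =
      u.factorial * rhoG J u R r m / A := by
  have ha : 0 < kc u (TG (R + u) m r) := kc_TG_pos_le hm (by omega) hr (by omega)
  have ha' : (0 : ℝ) < (kc u (TG (R + u) m r) : ℝ) := by exact_mod_cast ha
  have hA' : (0 : ℝ) < A := by exact_mod_cast hA
  have hTG : ((A * (TG (R + u) m r).copyCount (jn J u) : ℕ) : ℝ) =
      u.factorial * rhoG J u R r m * kc u (TG (R + u) m r) := by
    rw [← emb_TG J hm hR hr, ← hlab, emb_eq_labelled]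
  push_cast at hTG
  rw [div_eq_div_iff ha'.ne' hA'.ne', ← hTG]
  ring

/-- the upper bound for `K_u ∨ J` -/
lemma GapH_up {ι : Type} [Fintype ι] [DecidableEq ι] (J : SimpleGraph ι) [DecidableRel J.Adj]
    [Nonempty ι] {u : ℕ} (hu : 1 ≤ u) {e R₀ : ℕ} {c₀ : ℝ}
    (hJ : ∀ R r : ℕ, R₀ ≤ R → 1 ≤ r → (r : ℝ) ≤ c₀ * R →
      r + 2 ≤ R ∧ ∃ C : ℝ, 0 < C ∧ ∃ m₀ : ℕ, ∀ m : ℕ, m₀ ≤ m →
      ∀ (V : Type) [Fintype V] [DecidableEq V] (G : SimpleGraph V) [DecidableRel G.Adj],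
        (∀ U ∈ clq G univ u, (H57LC.cn G U).card ≤ R * m + r) → clq G univ (R + u + 1) = ∅ →
        ((emb (jn J u) G univ).card : ℝ) ≤
          u.factorial * (rhoG J u R r m + C * (m : ℝ) ^ e) *
            ((clq G univ u).card : ℝ)) :
    ∀ R : ℕ, R₀ ≤ R → ∃ C : ℝ, 0 < C ∧ ∃ m₀ : ℕ, ∀ m r : ℕ,
      m₀ ≤ m → 1 ≤ r → (r : ℝ) ≤ c₀ * R → ∀ p : ℕ,
        (exH (jn J u) u (R * m + r) (R + u) p : ℝ) ≤
          (((TG (R + u) m r).copyCount (jn J u) : ℝ) / kc u (TG (R + u) m r) +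
            C * (m : ℝ) ^ e) * p := by
  classical
  intro R hR
  obtain ⟨A, hA, hlab⟩ := labelled_eq_mul (jn J u)
  have hA' : (0 : ℝ) < A := by exact_mod_cast hA
  have key : ∀ r : ℕ, ∃ C : ℝ, 0 < C ∧ ∃ m₀ : ℕ, 1 ≤ r → (r : ℝ) ≤ c₀ * R → ∀ m : ℕ, m₀ ≤ m →
      ∀ (n : ℕ) (G : SimpleGraph (Fin n)), Allowed u (R * m + r) (R + u) G →
        (G.copyCount (jn J u) : ℝ) ≤
          (((TG (R + u) m r).copyCount (jn J u) : ℝ) / kc u (TG (R + u) m r) +
            C * (m : ℝ) ^ e) * kc u G := by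
    intro r
    by_cases h1 : 1 ≤ r ∧ (r : ℝ) ≤ c₀ * R
    · obtain ⟨hrR, C, hC, m₀, hm₀⟩ := hJ R r hR h1.1 h1.2
      have hf : (0 : ℝ) < u.factorial := by exact_mod_cast Nat.factorial_pos u
      refine ⟨u.factorial * C / A, by positivity, max m₀ 1, fun _ _ m hm n G hG => ?_⟩
      obtain ⟨h2, h3⟩ := GapH_allowed G hG
      have h4 := hm₀ m (le_trans (le_max_left _ _) hm) (Fin n) G h2 h3
      rw [emb_eq_labelled, hlab, ← kc_eq_clq] at h4
      rw [GapH_TG J hA hlab (le_trans (le_max_right _ _) hm) (by omega) (by omega)]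
      push_cast at h4
      have h5 : (u.factorial * rhoG J u R r m / A + u.factorial * C / A * (m : ℝ) ^ e) *
          (kc u G : ℝ) = (u.factorial * (rhoG J u R r m + C * (m : ℝ) ^ e) * (kc u G : ℝ)) / A := by
        ring
      rw [h5, le_div_iff₀ hA']
      linarith
    · refine ⟨1, one_pos, 0, fun h2 h3 => absurd ⟨h2, h3⟩ h1⟩
  choose C hC m₀ hm₀ using key
  refine ⟨∑ r ∈ range (R + 1), C r, ?_, max ((range (R + 1)).sup m₀) 1,
    fun m r hm hr1 hr2 p => ?_⟩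
  · exact sum_pos (fun r _ => hC r) ⟨0, by simp⟩
  · obtain ⟨hrR, _⟩ := hJ R r hR hr1 hr2
    have hrm : r ∈ range (R + 1) := mem_range.mpr (by omega)
    have h1 : m₀ r ≤ m := (Finset.le_sup hrm).trans ((le_max_left _ _).trans hm)
    have hm1 : 1 ≤ m := (le_max_right _ _).trans hm
    have hCr : C r ≤ ∑ r ∈ range (R + 1), C r :=
      single_le_sum (fun i _ => (hC i).le) hrm
    have hW : 0 < Fintype.card (Fin u ⊕ ι) := by
      rw [card_jn]
      omega
    refine exH_le_of (jn J u) hu (by omega) hW (LimG_cl J hu) (fun n G hG => ?_) p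
    refine (hm₀ r hr1 hr2 m h1 n G hG).trans ?_
    refine mul_le_mul_of_nonneg_right ?_ (Nat.cast_nonneg _)
    have h2 : C r * (m : ℝ) ^ e ≤ (∑ r ∈ range (R + 1), C r) * (m : ℝ) ^ e :=
      mul_le_mul_of_nonneg_right hCr (by positivity)
    linarith

/-- the lower bound for `K_u ∨ J` -/
lemma GapH_low {ι : Type} [Fintype ι] [DecidableEq ι] (J : SimpleGraph ι) [DecidableRel J.Adj]
    {u d : ℕ} (hu : 2 ≤ u) (hd : d + 1 ≤ u) (v₀ : ι) (hv₀ : dg J univ v₀ = d)
    {R : ℕ} (hR : u + d + 1 + Fintype.card ι ≤ R) : ∃ c : ℝ, 0 < c ∧ ∃ m₀ : ℕ, ∀ m r : ℕ,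
      m₀ ≤ m → r < R → 2 * d + 2 ≤ r → ∀ᶠ p : ℕ in atTop,
        (((TG (R + u) m r).copyCount (jn J u) : ℝ) / kc u (TG (R + u) m r) +
          c * (m : ℝ) ^ (Fintype.card ι - 1 - d)) * p ≤
            exH (jn J u) u (R * m + r) (R + u) p := by
  classical
  obtain ⟨c, hc, m₀, hm₀⟩ := low_emb J hu hd v₀ hv₀ hR
  obtain ⟨A, hA, hlab⟩ := labelled_eq_mul (jn J u)
  have hA' : (0 : ℝ) < A := by exact_mod_cast hA
  refine ⟨c / (2 * A), by positivity, max m₀ 1, fun m r hm hrR hr2 => ?_⟩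
  have hm1 : 1 ≤ m := (le_max_right _ _).trans hm
  have hm1' : (0 : ℝ) < (m : ℝ) := by exact_mod_cast hm1
  obtain ⟨V, iF, iD, G, iG, h1, h2, h3, h4⟩ :=
    hm₀ m r ((le_max_left _ _).trans hm) hrR hr2
  rw [emb_eq_labelled, hlab, ← kc_eq_clq] at h4
  rw [← kc_eq_clq] at h3
  have h3' : (0 : ℝ) < (kc u G : ℝ) := by exact_mod_cast h3
  push_cast at h4
  have hcardpos : 0 < Fintype.card (Fin u ⊕ ι) := by
    rw [card_jn]
    omega
  have hx : (0 : ℝ) < c * (m : ℝ) ^ (Fintype.card ι - 1 - d) * (kc u G : ℝ) := by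
    positivity
  have hlt : (((TG (R + u) m r).copyCount (jn J u) : ℝ) / kc u (TG (R + u) m r) +
      c / (2 * A) * (m : ℝ) ^ (Fintype.card ι - 1 - d)) * (kc u G : ℝ) <
      (G.copyCount (jn J u) : ℝ) := by
    rw [GapH_TG J hA hlab hm1 (by omega) (by omega)]
    have h5 : (u.factorial * rhoG J u R r m / A +
        c / (2 * A) * (m : ℝ) ^ (Fintype.card ι - 1 - d)) * (kc u G : ℝ) =
        ((u.factorial * rhoG J u R r m + c * (m : ℝ) ^ (Fintype.card ι - 1 - d)) *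
          (kc u G : ℝ) - c * (m : ℝ) ^ (Fintype.card ι - 1 - d) * (kc u G : ℝ) / 2) / A := by
      field_simp
      ring
    rw [h5, div_lt_iff₀ hA']
    linarith
  obtain ⟨c', hc', hev⟩ := exH_of_graph (H := jn J u) (u := u) (Δ := R * m + r) (ω := R + u)
    (by omega) (by omega) hcardpos (LimG_cl J (by omega)) G (GapH_allowed' G h1 h2) hlt
  filter_upwards [hev] with p hp
  refine le_trans ?_ hp
  exact mul_le_mul_of_nonneg_right hc'.le (Nat.cast_nonneg _)

/-- the degrees of `J` -/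
lemma GapH_dg {W : Type} [Fintype W] [DecidableEq W] (H : SimpleGraph W) [DecidableRel H.Adj]
    (U : Finset W) (hdom : ∀ x ∈ U, ∀ y, y ≠ x → H.Adj x y) (v : {x : W // ¬ x ∈ U})
    [DecidableRel (H.comap (fun x : {x : W // ¬ x ∈ U} => (x : W))).Adj] :
    H.degree (v : W) =
      U.card + dg (H.comap (fun x : {x : W // ¬ x ∈ U} => (x : W))) univ v := by
  have h3 : H.neighborFinset (v : W) =
      U ∪ ((univ : Finset {x : W // ¬ x ∈ U}).filter fun y =>
        (H.comap (fun x : {x : W // ¬ x ∈ U} => (x : W))).Adj v y).image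
        (fun y : {x : W // ¬ x ∈ U} => (y : W)) := by
    ext y
    rw [SimpleGraph.mem_neighborFinset, mem_union, mem_image]
    constructor
    · intro hy
      by_cases hyU : y ∈ U
      · exact Or.inl hyU
      · right
        refine ⟨⟨y, hyU⟩, ?_, rfl⟩
        rw [mem_filter]
        exact ⟨mem_univ _, hy⟩
    · rintro (hy | ⟨y', hy', rfl⟩)
      · exact (hdom y hy (v : W) (fun h => v.2 (by rw [h]; exact hy))).symm
      · rw [mem_filter] at hy'
        exact hy'.2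
  rw [← SimpleGraph.card_neighborFinset_eq_degree, h3, card_union_of_disjoint]
  · rw [card_image_of_injective _ Subtype.val_injective]
    rfl
  · rw [disjoint_left]
    intro y hy hy'
    rw [mem_image] at hy'
    obtain ⟨y', _, rfl⟩ := hy'
    exact y'.2 hy

variable {W : Type} [Fintype W] [DecidableEq W] (H : SimpleGraph W) [DecidableRel H.Adj]

/-- `P_u - ρ_u(H, L) = O(Δ ^ (|H| - 1 - δ(H)))` -/
theorem gap_upper {u : ℕ} (hu : 1 ≤ u) (U : Finset W) (hU : U.card = u)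
    (hdom : ∀ x ∈ U, ∀ y, y ≠ x → H.Adj x y) (hW : u < Fintype.card W) :
    ∃ R₀ : ℕ, ∃ c₀ : ℝ, 0 < c₀ ∧ ∀ R : ℕ, R₀ ≤ R → ∃ C : ℝ, 0 < C ∧ ∃ m₀ : ℕ, ∀ m r : ℕ,
      m₀ ≤ m → 1 ≤ r → (r : ℝ) ≤ c₀ * R → ∀ p : ℕ,
        (exH H u (R * m + r) (R + u) p : ℝ) ≤
          (((TG (R + u) m r).copyCount H : ℝ) / kc u (TG (R + u) m r) +
            C * (m : ℝ) ^ (Fintype.card W - 1 - H.minDegree)) * p := by
  classical
  obtain ⟨v₀, hv₀, hdeg⟩ := exists_min_outside H U hdom (by omega)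
  have hne : Nonempty {x : W // ¬ x ∈ U} := ⟨⟨v₀, hv₀⟩⟩
  have e : jn (H.comap (fun x : {x : W // ¬ x ∈ U} => (x : W))) u ≃g H := FinalH_iso H u U hU hdom
  have hcard : u + Fintype.card {x : W // ¬ x ∈ U} = Fintype.card W := by
    rw [← card_jn]
    exact Fintype.card_congr e.toEquiv
  have hd := fun v => GapH_dg H U hdom v
  have hd0 := hd ⟨v₀, hv₀⟩
  simp only at hd0
  rw [hdeg, hU] at hd0
  have hlt : H.minDegree < Fintype.card W := by
    rw [← hdeg]
    exact H.degree_lt_card_verts v₀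
  simp only [← FinalH_copyCount_congr e, ← FinalH_exH_congr e]
  by_cases hcase : u + 1 ≤ H.minDegree
  · have hq : ∀ v, (H.minDegree - u - 1) + 1 ≤
        dg (H.comap (fun x : {x : W // ¬ x ∈ U} => (x : W))) univ v := by
      intro v
      have h1 : H.minDegree ≤ H.degree (v : W) := H.minDegree_le_degree _
      have h2 := hd v
      rw [hU] at h2
      omega
    obtain ⟨R₀, c₀, hc₀, h⟩ := upperP (H.comap (fun x : {x : W // ¬ x ∈ U} => (x : W))) u hu
      (H.minDegree - u - 1) hq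
    have he : Fintype.card {x : W // ¬ x ∈ U} - 2 - (H.minDegree - u - 1) =
        Fintype.card W - 1 - H.minDegree := by omega
    rw [he] at h
    exact ⟨R₀, c₀, hc₀, GapH_up _ hu h⟩
  · have hmin : H.minDegree = u := by omega
    have hz : dg (H.comap (fun x : {x : W // ¬ x ∈ U} => (x : W))) univ ⟨v₀, hv₀⟩ = 0 := by omega
    obtain ⟨R₀, c₀, hc₀, h⟩ := upperP0 (H.comap (fun x : {x : W // ¬ x ∈ U} => (x : W)))
      (univ.filter fun v => ∀ w, ¬ (H.comap (fun x : {x : W // ¬ x ∈ U} => (x : W))).Adj v w)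
      (fun v hv => (mem_filter.mp hv).2)
      (fun v hv => by
        by_contra hc
        push Not at hc
        exact hv (mem_filter.mpr ⟨mem_univ _, hc⟩))
      ⟨⟨v₀, hv₀⟩, by
        rw [mem_filter]
        refine ⟨mem_univ _, fun w hw => ?_⟩
        unfold dg at hz
        rw [card_eq_zero, filter_eq_empty_iff] at hz
        exact hz (mem_univ w) hw⟩ u hu
    have he : Fintype.card {x : W // ¬ x ∈ U} - 1 = Fintype.card W - 1 - H.minDegree := by omega
    rw [he] at h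
    exact ⟨R₀, c₀, hc₀, GapH_up _ hu h⟩

/-- `P_u - ρ_u(H, L) ≥ c Δ ^ (|H| - 1 - δ(H))` -/
theorem gap_lower {u : ℕ} (hu : 2 ≤ u) (U : Finset W) (hU : U.card = u)
    (hdom : ∀ x ∈ U, ∀ y, y ≠ x → H.Adj x y) (hW : u < Fintype.card W)
    (hδ : H.minDegree < 2 * u) {R : ℕ} (hR : 2 * Fintype.card W ≤ R) :
    ∃ c : ℝ, 0 < c ∧ ∃ m₀ : ℕ, ∀ m r : ℕ, m₀ ≤ m → r < R →
      2 * (H.minDegree - u) + 2 ≤ r → ∀ᶠ p : ℕ in atTop,
        (((TG (R + u) m r).copyCount H : ℝ) / kc u (TG (R + u) m r) +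
          c * (m : ℝ) ^ (Fintype.card W - 1 - H.minDegree)) * p ≤
            exH H u (R * m + r) (R + u) p := by
  classical
  obtain ⟨v₀, hv₀, hdeg⟩ := exists_min_outside H U hdom (by omega)
  have e : jn (H.comap (fun x : {x : W // ¬ x ∈ U} => (x : W))) u ≃g H := FinalH_iso H u U hU hdom
  have hcard : u + Fintype.card {x : W // ¬ x ∈ U} = Fintype.card W := by
    rw [← card_jn]
    exact Fintype.card_congr e.toEquiv
  have hd0 := GapH_dg H U hdom ⟨v₀, hv₀⟩
  simp only at hd0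
  rw [hdeg, hU] at hd0
  have hlt : H.minDegree < Fintype.card W := by
    rw [← hdeg]
    exact H.degree_lt_card_verts v₀
  simp only [← FinalH_copyCount_congr e, ← FinalH_exH_congr e]
  have he : Fintype.card {x : W // ¬ x ∈ U} - 1 - (H.minDegree - u) =
      Fintype.card W - 1 - H.minDegree := by omega
  rw [← he]
  exact GapH_low (H.comap (fun x : {x : W // ¬ x ∈ U} => (x : W))) hu (by omega) ⟨v₀, hv₀⟩
    (by omega) (by omega)

end H57GH
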