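import Pool.Agent.H57.GH.Defs

/-!
The greedy partition of a graph without `K_{R+1}` (Erdős, Füredi).
-/

namespace H57GH

open Finset H57LC H57LT

set_option linter.unusedSectionVars false

variable {V : Type*} [DecidableEq V] {G : SimpleGraph V} [DecidableRel G.Adj]

private lemma Greedy_dg_add_hs (T : Finset V) (x : V) : dg G T x + (hs G T x).card = T.card := by
  unfold dg hs
  exact card_filter_add_card_filter_not (fun y => G.Adj x y)

private lemma Greedy_sum_hs_comm (A B : Finset V) :
    ∑ x ∈ A, (hs G B x).card = ∑ y ∈ B, (hs G A y).card := by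
  have h := sum_card_bipartiteAbove_eq_sum_card_bipartiteBelow (s := A) (t := B)
    (fun x y => ¬ G.Adj x y)
  unfold hs
  unfold bipartiteAbove bipartiteBelow at h
  rw [h]
  refine sum_congr rfl fun y _ => ?_
  congr 1
  ext x
  simp only [mem_filter, G.adj_comm]

private lemma Greedy_sum_un {R : ℕ} {B : Fin R → Finset V}
    (hdisj : ∀ i j, i ≠ j → Disjoint (B i) (B j)) (f : V → ℕ) :
    ∑ i, ∑ x ∈ B i, f x = ∑ x ∈ un B, f x := by
  unfold un
  rw [sum_biUnion]
  intro i _ j _ hij
  exact hdisj i j hij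

private lemma Greedy_card_un {R : ℕ} {B : Fin R → Finset V}
    (hdisj : ∀ i j, i ≠ j → Disjoint (B i) (B j)) (p : V → Prop) [DecidablePred p] :
    ∑ i, ((B i).filter p).card = ((un B).filter p).card := by
  have h := Greedy_sum_un hdisj (fun x => if p x then 1 else 0)
  simpa only [card_filter] using h

private lemma Greedy_un_cons {R : ℕ} (A : Finset V) (B : Fin R → Finset V) :
    un (Fin.cons A B : Fin (R + 1) → Finset V) = A ∪ un B := by
  ext z
  simp only [mem_un, mem_union, Fin.exists_fin_succ, Fin.cons_zero, Fin.cons_succ]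

private lemma Greedy_erase_zero {R : ℕ} (f : Fin (R + 1) → ℕ) :
    ∑ j ∈ univ.erase (0 : Fin (R + 1)), f j = ∑ j : Fin R, f j.succ := by
  have h := Fin.sum_univ_succ f
  have h2 := add_sum_erase univ f (mem_univ (0 : Fin (R + 1)))
  omega

private lemma Greedy_erase_succ {R : ℕ} (f : Fin (R + 1) → ℕ) (i : Fin R) :
    ∑ j ∈ univ.erase i.succ, f j = f 0 + ∑ j ∈ univ.erase i, f j.succ := by
  have h := Fin.sum_univ_succ f
  have h2 := add_sum_erase univ f (mem_univ i.succ)
  have h3 := add_sum_erase univ (fun j : Fin R => f j.succ) (mem_univ i)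
  omega

private lemma Greedy_aux (R : ℕ) : ∀ (S : Finset V), clq G S (R + 1) = ∅ →
    ∃ B : Fin R → Finset V, (∀ i, B i ⊆ S) ∧ (∀ i j, i ≠ j → Disjoint (B i) (B j)) ∧ un B = S ∧
      (∀ i, B i = ∅ ∨ ∃ x ∈ S, ∀ y ∈ B i, ¬ G.Adj x y) ∧
      2 * ∑ i, ∑ x ∈ B i, dg G (B i) x ≤
        ∑ i, ∑ j ∈ univ.erase i, ∑ x ∈ B i, (hs G (B j) x).card := by
  induction R with
  | zero =>
    intro S hS
    have hS0 : S = ∅ := by
      by_contra hne
      obtain ⟨x, hx⟩ := nonempty_iff_ne_empty.2 hne
      have hm : ({x} : Finset V) ∈ clq G S (0 + 1) := by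
        rw [mem_clq]
        refine ⟨⟨singleton_subset_iff.2 hx, card_singleton x⟩, ?_⟩
        intro a ha b hb hab
        rw [mem_singleton] at ha hb
        exact absurd (ha.trans hb.symm) hab
      rw [hS] at hm
      exact absurd hm (notMem_empty _)
    refine ⟨fun _ => ∅, fun i => empty_subset _, fun i _ _ => disjoint_empty_left _, ?_,
      fun i => Or.inl rfl, ?_⟩
    · rw [hS0]
      ext z
      simp [mem_un]
    · simp
  | succ R ih =>
    intro S hS
    rcases S.eq_empty_or_nonempty with rfl | hne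
    · refine ⟨fun _ => ∅, fun i => empty_subset _, fun i _ _ => disjoint_empty_left _, ?_,
        fun i => Or.inl rfl, ?_⟩
      · ext z
        simp [mem_un]
      · simp
    · obtain ⟨x₁, hx₁, hmax⟩ := exists_max_image S (fun x => dg G S x) hne
      set S' := S.filter (fun y => G.Adj x₁ y) with hS'
      set B₀ := hs G S x₁ with hB₀
      have hfree : clq G S' (R + 1) = ∅ := by
        rw [eq_empty_iff_forall_notMem]
        intro T hT
        rw [mem_clq] at hT
        have hadj : ∀ t ∈ T, G.Adj x₁ t := fun t ht => (mem_filter.1 (hT.1.1 ht)).2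
        have hxT : x₁ ∉ T := fun h => G.loopless.irrefl x₁ (hadj x₁ h)
        have hm : insert x₁ T ∈ clq G S (R + 1 + 1) := by
          rw [mem_clq]
          refine ⟨⟨insert_subset hx₁ (hT.1.1.trans (filter_subset _ _)), ?_⟩,
            isCl_insert hT.2 hadj⟩
          rw [card_insert_of_notMem hxT, hT.1.2]
        rw [hS] at hm
        exact absurd hm (notMem_empty _)
      obtain ⟨B, hsub, hdisj, hun, hnon, hineq⟩ := ih S' hfree
      have hS'S : S' ⊆ S := filter_subset _ _
      have hB₀S : B₀ ⊆ S := hs_subset _ _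
      have hd0 : Disjoint B₀ S' := by
        rw [disjoint_left]
        intro z hz hz'
        exact (mem_hs.1 hz).2 (mem_filter.1 hz').2
      have hU : B₀ ∪ S' = S := by
        ext z
        simp only [hB₀, hS', mem_union, mem_hs, mem_filter]
        tauto
      refine ⟨Fin.cons B₀ B, ?_, ?_, ?_, ?_, ?_⟩
      · intro i
        refine Fin.cases ?_ (fun i => ?_) i
        · simpa using hB₀S
        · simpa using (hsub i).trans hS'S
      · intro i j
        refine Fin.cases ?_ (fun i => ?_) i <;> refine Fin.cases ?_ (fun j => ?_) j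
        · intro h
          exact absurd rfl h
        · intro _
          simp only [Fin.cons_zero, Fin.cons_succ]
          exact disjoint_of_subset_right (hsub j) hd0
        · intro _
          simp only [Fin.cons_zero, Fin.cons_succ]
          exact (disjoint_of_subset_right (hsub i) hd0).symm
        · intro h
          simp only [Fin.cons_succ]
          exact hdisj i j (fun h' => h (by rw [h']))
      · rw [Greedy_un_cons, hun, hU]
      · intro i
        refine Fin.cases ?_ (fun i => ?_) i
        · simp only [Fin.cons_zero]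
          exact Or.inr ⟨x₁, hx₁, fun y hy => (mem_hs.1 hy).2⟩
        · simp only [Fin.cons_succ]
          rcases hnon i with h | ⟨x, hx, h⟩
          · exact Or.inl h
          · exact Or.inr ⟨x, hS'S hx, h⟩
      · rw [Fin.sum_univ_succ, Fin.sum_univ_succ]
        simp only [Fin.cons_zero, Fin.cons_succ, Greedy_erase_zero, Greedy_erase_succ]
        have e1 : ∑ j : Fin R, ∑ x ∈ B₀, (hs G (B j) x).card = ∑ x ∈ B₀, (hs G S' x).card := by
          rw [sum_comm]
          refine sum_congr rfl fun x _ => ?_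
          have := Greedy_card_un hdisj (fun t => ¬ G.Adj x t)
          rw [hun] at this
          exact this
        have e2 : ∑ i : Fin R, ∑ x ∈ B i, (hs G B₀ x).card = ∑ x ∈ B₀, (hs G S' x).card := by
          rw [Greedy_sum_un hdisj, hun, Greedy_sum_hs_comm]
        have e3 : ∑ x ∈ B₀, dg G B₀ x ≤ ∑ x ∈ B₀, (hs G S' x).card := by
          refine sum_le_sum fun x hx => ?_
          have h1 : dg G S x ≤ dg G S x₁ := hmax x (hB₀S hx)
          have h2 : dg G S x = dg G B₀ x + dg G S' x := by
            unfold dg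
            rw [← hU, filter_union, card_union_of_disjoint]
            exact disjoint_filter_filter hd0
          have h3 : dg G S x₁ = S'.card := rfl
          have h4 := Greedy_dg_add_hs (G := G) S' x
          omega
        rw [sum_add_distrib, e1, e2]
        have e4 := hineq
        omega

/-- there are at least twice as many missing pairs between the classes as edges inside the classes
(all pairs ordered) -/
theorem greedy (R : ℕ) (hR : 1 ≤ R) (S : Finset V) (hfree : clq G S (R + 1) = ∅) :
    ∃ B : Fin R → Finset V, (∀ i, B i ⊆ S) ∧ (∀ i j, i ≠ j → Disjoint (B i) (B j)) ∧ un B = S ∧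
      (∀ i, B i = ∅ ∨ ∃ x ∈ S, ∀ y ∈ B i, ¬ G.Adj x y) ∧
      2 * ∑ i, ∑ x ∈ B i, dg G (B i) x ≤
        ∑ i, ∑ j ∈ univ.erase i, ∑ x ∈ B i, (hs G (B j) x).card := by
  exact Greedy_aux R S hfree

/-- edges and degrees -/
theorem sum_dg (S : Finset V) : ∑ x ∈ S, dg G S x = 2 * (clq G S 2).card := by
  have h := sum_card_bipartiteAbove_eq_sum_card_bipartiteBelow (s := S) (t := clq G S 2)
    (fun x T => x ∈ T)
  unfold bipartiteAbove bipartiteBelow at h
  have h1 : ∀ T ∈ clq G S 2, (S.filter fun x => x ∈ T).card = 2 := by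
    intro T hT
    rw [mem_clq] at hT
    rw [filter_mem_eq_inter, inter_eq_right.2 hT.1.1, hT.1.2]
  rw [sum_congr rfl h1, sum_const, smul_eq_mul, mul_comm] at h
  rw [← h]
  refine sum_congr rfl fun x hx => ?_
  unfold dg
  refine card_bij (fun y _ => ({x, y} : Finset V)) ?_ ?_ ?_
  · intro y hy
    rw [mem_filter] at hy
    have hxy : x ≠ y := G.ne_of_adj hy.2
    rw [mem_filter, mem_clq]
    refine ⟨⟨⟨?_, card_pair hxy⟩, ?_⟩, mem_insert_self _ _⟩
    · intro z hz
      rw [mem_insert, mem_singleton] at hz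
      rcases hz with rfl | rfl
      · exact hx
      · exact hy.1
    · intro a ha b hb hab
      rw [mem_insert, mem_singleton] at ha hb
      rcases ha with rfl | rfl <;> rcases hb with rfl | rfl
      · exact absurd rfl hab
      · exact hy.2
      · exact hy.2.symm
      · exact absurd rfl hab
  · intro y hy y' hy' he
    rw [mem_filter] at hy hy'
    have hxy : x ≠ y := G.ne_of_adj hy.2
    have hm : y ∈ ({x, y'} : Finset V) := by
      rw [← he]
      exact mem_insert_of_mem (mem_singleton_self y)
    rw [mem_insert, mem_singleton] at hm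
    rcases hm with h | h
    · exact absurd h.symm hxy
    · exact h
  · intro T hT
    rw [mem_filter, mem_clq] at hT
    obtain ⟨⟨⟨hTS, hT2⟩, hTc⟩, hxT⟩ := hT
    have h3 : (T.erase x).card = 1 := by
      rw [card_erase_of_mem hxT, hT2]
    obtain ⟨y, hy⟩ := card_eq_one.1 h3
    have hyT : y ∈ T.erase x := by
      rw [hy]
      exact mem_singleton_self y
    rw [mem_erase] at hyT
    refine ⟨y, ?_, ?_⟩
    · rw [mem_filter]
      exact ⟨hTS hyT.2, hTc x hxT y hyT.2 (Ne.symm hyT.1)⟩
    · rw [← insert_erase hxT, hy]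

private lemma Greedy_eS_two {κ : Type*} [DecidableEq κ] (K : Finset κ) (x : κ → ℝ) :
    2 * eS K x 2 = ∑ i ∈ K, ∑ j ∈ K.erase i, x i * x j := by
  induction K using Finset.induction_on with
  | empty =>
    unfold eS
    rw [powersetCard_eq_empty.2 (by simp)]
    simp
  | insert a K ha ih =>
    have h1 : eS K x 1 = ∑ k ∈ K, x k := by
      unfold eS
      rw [powersetCard_one, sum_map]
      simp
    rw [eS_insert ha, h1, mul_add, ih, sum_insert ha, erase_insert ha]
    have h2 : ∀ i ∈ K, ∑ j ∈ (insert a K).erase i, x i * x j =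
        x i * x a + ∑ j ∈ K.erase i, x i * x j := by
      intro i hi
      have hia : a ≠ i := fun h => ha (h ▸ hi)
      rw [erase_insert_of_ne hia, sum_insert]
      intro h
      exact ha (mem_of_mem_erase h)
    rw [sum_congr rfl h2, sum_add_distrib, ← mul_sum, ← sum_mul]
    ring

/-- missing pairs, edges inside the classes and `e2` -/
theorem e2_eq {R : ℕ} {S : Finset V} {B : Fin R → Finset V}
    (hdisj : ∀ i j, i ≠ j → Disjoint (B i) (B j)) (hun : un B = S) :
    2 * e2 univ (fun i => (B i).card) =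
      2 * ((clq G S 2).card : ℝ) - (∑ i, ∑ x ∈ B i, dg G (B i) x : ℕ) +
        (∑ i, ∑ j ∈ univ.erase i, ∑ x ∈ B i, (hs G (B j) x).card : ℕ) := by
  have h1 : 2 * e2 univ (fun i => (B i).card) =
      ((∑ i, ∑ j ∈ univ.erase i, (B i).card * (B j).card : ℕ) : ℝ) := by
    unfold e2
    rw [Greedy_eS_two]
    push_cast
    rfl
  have h2 : (∑ i, ∑ j ∈ univ.erase i, (B i).card * (B j).card) =
      (∑ i, ∑ j ∈ univ.erase i, ∑ x ∈ B i, dg G (B j) x) +
        ∑ i, ∑ j ∈ univ.erase i, ∑ x ∈ B i, (hs G (B j) x).card := by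
    rw [← sum_add_distrib]
    refine sum_congr rfl fun i _ => ?_
    rw [← sum_add_distrib]
    refine sum_congr rfl fun j _ => ?_
    rw [← sum_add_distrib, sum_congr rfl (fun x _ => Greedy_dg_add_hs (G := G) (B j) x),
      sum_const, smul_eq_mul]
  have h3 : 2 * (clq G S 2).card = (∑ i, ∑ x ∈ B i, dg G (B i) x) +
      ∑ i, ∑ j ∈ univ.erase i, ∑ x ∈ B i, dg G (B j) x := by
    rw [← sum_dg, ← hun, ← Greedy_sum_un hdisj, ← sum_add_distrib]
    refine sum_congr rfl fun i _ => ?_
    rw [add_sum_erase univ (fun j => ∑ x ∈ B i, dg G (B j) x) (mem_univ i), sum_comm]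
    refine sum_congr rfl fun x _ => ?_
    exact (Greedy_card_un hdisj (fun y => G.Adj x y)).symm
  rw [h1, h2]
  have h4 : (2 * (clq G S 2).card : ℝ) = ((∑ i, ∑ x ∈ B i, dg G (B i) x : ℕ) : ℝ) +
      ((∑ i, ∑ j ∈ univ.erase i, ∑ x ∈ B i, dg G (B j) x : ℕ) : ℝ) := by
    exact_mod_cast h3
  rw [h4]
  push_cast
  ring

end H57GH
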