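import Pool.Agent.H57.GH.StrG

/-!
Every heavy vertex misses nearly all of one light set.
-/

namespace H57GH

open Finset H57LC H57LT

set_option linter.unusedSectionVars false

/-- every heavy vertex misses nearly all of one light set -/
theorem heavy_part (R : ℕ) (hR : 2 ≤ R) (C η₁ δ : ℝ) (hC : 0 < C) (hδ : 0 < δ) (hδ1 : δ ≤ 1 / 2)
    (η₂ : ℝ) (hη₂ : 0 < η₂) : ∃ m₀ : ℕ, ∀ m : ℕ, m₀ ≤ m →
      ∀ (V : Type) [DecidableEq V] (G : SimpleGraph V) [DecidableRel G.Adj] (S : Finset V)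
        (B : Fin R → Finset V), clq G S (R + 1) = ∅ → LS G S R m C η₁ δ B →
        ∀ z ∈ S, ∃ i, (dg G (B i) z : ℝ) ≤ η₂ * m := by
  obtain ⟨m₀, hm₀⟩ := exists_nat_gt (1 + (R : ℝ) ^ 2 * C / η₂ ^ 2)
  refine ⟨m₀, fun m hm V _ G _ S B hfree hB z hz => ?_⟩
  have hmm : (m₀ : ℝ) ≤ m := by exact_mod_cast hm
  have p1 : 0 ≤ (R : ℝ) ^ 2 * C / η₂ ^ 2 := by positivity
  have hm1 : (1 : ℝ) < m := by linarith
  have hmpos : (0 : ℝ) < m := by linarith
  have hm2 : (R : ℝ) ^ 2 * C / η₂ ^ 2 < m := by linarith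
  by_contra hcon
  push Not at hcon
  have hm' : 0 < 2 * (η₂ * m) := by positivity
  obtain ⟨f, hf⟩ := tcl_nonempty_of_large (G := G) (fun l => (B l).filter fun t => G.Adj z t)
    (C := C / (2 * η₂)) (m := 2 * (η₂ * m)) hm' (by
      rw [div_lt_iff₀ (by positivity)] at hm2
      have e : 2 * (R : ℝ) ^ 2 * (C / (2 * η₂)) = (R : ℝ) ^ 2 * C / η₂ := by
        field_simp
      rw [e, div_lt_iff₀ hη₂]
      have h0 : (0 : ℝ) ≤ m * η₂ ^ 2 := by positivity
      nlinarith) (by positivity)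
    (fun l => by
      have h := hcon l
      have e : (dg G (B l) z : ℝ) = (((B l).filter fun t => G.Adj z t).card : ℝ) := rfl
      rw [e] at h
      linarith)
    (fun i j hij => by
      have e : C / (2 * η₂) * (2 * (η₂ * m)) = C * m := by
        field_simp
      rw [e]
      calc ∑ y ∈ (B i).filter (fun t => G.Adj z t),
            ((hs G ((B j).filter fun t => G.Adj z t) y).card : ℝ)
          ≤ ∑ y ∈ (B i).filter (fun t => G.Adj z t), ((hs G (B j) y).card : ℝ) := by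
            refine sum_le_sum fun y _ => ?_
            exact_mod_cast card_le_card (hs_mono (filter_subset _ _) y)
        _ ≤ ∑ y ∈ B i, ((hs G (B j) y).card : ℝ) :=
            sum_le_sum_of_subset_of_nonneg (filter_subset _ _) fun _ _ _ => Nat.cast_nonneg _
        _ ≤ C * m := hB.tot i j hij)
  have hf' := mem_tcl.1 hf
  have hT : im f ∈ clq G S R := im_mem_clq (fun l => (filter_subset _ _).trans (hB.sub l)) hf
  obtain ⟨t, ht⟩ := hs_nonempty hfree hT hz
  rw [mem_hs] at ht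
  obtain ⟨l, rfl⟩ := mem_im.1 ht.1
  exact ht.2 (mem_filter.1 (hf'.1 l)).2

end H57GH
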