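import Pool.Agent.H57.GH.CM

/-!
Copies of `K_u ∨ J` in complete multipartite graphs.
-/

namespace H57GH

open Finset H57LC H57LT

set_option linter.unusedSectionVars false

variable {ι : Type*} [Fintype ι] [DecidableEq ι] (J : SimpleGraph ι) [DecidableRel J.Adj]

instance decJn (u : ℕ) : DecidableRel (jn J u).Adj := fun a b => by
  unfold jn
  infer_instance

theorem card_jn (u : ℕ) : Fintype.card (Fin u ⊕ ι) = u + Fintype.card ι := by
  simp

theorem JoinH_card_inj {κ : Type*} [DecidableEq κ] {A : Finset κ} {u : ℕ} (hA : A.card = u) :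
    ((Fintype.piFinset fun _ : Fin u => A).filter fun τ => Function.Injective τ).card
      = u.factorial := by
  have h1 : Fintype.card (Fin u ↪ A) = u.factorial := by
    rw [Fintype.card_embedding_eq, Fintype.card_coe, hA, Fintype.card_fin, Nat.descFactorial_self]
  rw [← h1, ← Finset.card_univ]
  symm
  refine Finset.card_bij (fun e _ => fun i => (e i : κ)) ?_ ?_ ?_
  · intro e _
    simp only [mem_filter, Fintype.mem_piFinset]
    exact ⟨fun i => (e i).2, fun i j h => e.injective (Subtype.ext h)⟩
  · intro e _ e' _ h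
    ext i
    exact congrFun h i
  · intro τ hτ
    simp only [mem_filter, Fintype.mem_piFinset] at hτ
    exact ⟨⟨fun i => ⟨τ i, hτ.1 i⟩, fun i j h => hτ.2 (by simpa using h)⟩, mem_univ _, rfl⟩

theorem JoinH_image_eq {κ : Type*} [DecidableEq κ] {A : Finset κ} {u : ℕ} (hA : A.card = u)
    {τ : Fin u → κ} (h1 : ∀ i, τ i ∈ A) (h2 : Function.Injective τ) :
    univ.image τ = A := by
  apply Finset.eq_of_subset_of_card_le
  · intro x hx
    obtain ⟨i, _, rfl⟩ := mem_image.1 hx
    exact h1 i
  · rw [Finset.card_image_of_injective _ h2, Finset.card_univ, Fintype.card_fin, hA]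

theorem JoinH_card_sys {κ : Type*} [DecidableEq κ] {A : Finset κ} {u : ℕ} (hA : A.card = u)
    (a : κ → ℕ) :
    ((Fintype.piFinset fun _ : Fin u => pts A a).filter
      fun ψ => Function.Injective fun i => (ψ i).1).card = u.factorial * ∏ k ∈ A, a k := by
  classical
  rw [Finset.card_eq_sum_card_fiberwise (f := fun ψ (i : Fin u) => (ψ i).1)
    (t := (Fintype.piFinset fun _ : Fin u => A).filter fun τ => Function.Injective τ)]
  · rw [Finset.sum_congr rfl (g := fun _ => ∏ k ∈ A, a k), Finset.sum_const, JoinH_card_inj hA,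
      smul_eq_mul]
    intro τ hτ
    simp only [mem_filter, Fintype.mem_piFinset] at hτ
    have h1 : ∏ k ∈ A, a k = (Fintype.piFinset fun i => range (a (τ i))).card := by
      rw [Fintype.card_piFinset, ← JoinH_image_eq hA hτ.1 hτ.2, Finset.prod_image
        (fun x _ y _ h => hτ.2 h)]
      simp
    rw [h1]
    refine Finset.card_nbij' (fun ψ i => (ψ i).2) (fun n i => ⟨τ i, n i⟩) ?_ ?_ ?_ ?_
    · intro ψ hψ
      simp only [mem_coe, mem_filter, Fintype.mem_piFinset, pts, mem_sigma] at hψ
      simp only [mem_coe, Fintype.mem_piFinset]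
      intro i
      have h2 := (hψ.1.1 i).2
      rw [← congrFun hψ.2 i]
      exact h2
    · intro n hn
      simp only [mem_coe, Fintype.mem_piFinset] at hn
      simp only [mem_coe, mem_filter, Fintype.mem_piFinset, pts, mem_sigma]
      exact ⟨⟨fun i => ⟨hτ.1 i, hn i⟩, hτ.2⟩, trivial⟩
    · intro ψ hψ
      simp only [mem_coe, mem_filter] at hψ
      funext i
      exact Sigma.ext (congrFun hψ.2 i).symm HEq.rfl
    · intro n _
      rfl
  · intro ψ hψ
    simp only [mem_coe, mem_filter, Fintype.mem_piFinset, pts, mem_sigma] at hψ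
    simp only [mem_coe, mem_filter, Fintype.mem_piFinset]
    exact ⟨fun i => (hψ.1 i).1, hψ.2⟩

/-- in a complete multipartite graph -/
theorem fJ_join {κ : Type*} [DecidableEq κ] {K : Finset κ} {u R : ℕ} (hK : K.card = R + u)
    (a : κ → ℕ) :
    fJ (jn J u) K a = u.factorial *
      ∑ T ∈ powersetCard R K, (∏ k ∈ K \ T, a k) * fJ J T a := by
  classical
  have hinj : ∀ φ ∈ cm (jn J u) (pts K a) Sigma.fst,
      Function.Injective fun i : Fin u => (φ (Sum.inl i)).1 := by
    intro φ hφ i j h
    simp only [cm, mem_filter] at hφ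
    by_contra hne
    exact hφ.2.2 (Sum.inl i) (Sum.inl j) ⟨by simpa using hne, Or.inl rfl⟩ h
  have hsub : ∀ φ ∈ cm (jn J u) (pts K a) Sigma.fst,
      (univ.image fun i : Fin u => (φ (Sum.inl i)).1) ⊆ K := by
    intro φ hφ x hx
    simp only [cm, mem_filter, Fintype.mem_piFinset, pts, mem_sigma] at hφ
    obtain ⟨i, _, rfl⟩ := mem_image.1 hx
    exact (hφ.1 (Sum.inl i)).1
  unfold fJ
  rw [Finset.card_eq_sum_card_fiberwise
    (f := fun φ => K \ (univ.image fun i : Fin u => (φ (Sum.inl i)).1))
    (t := powersetCard R K), Finset.mul_sum]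
  · refine Finset.sum_congr rfl fun T hT => ?_
    obtain ⟨hTK, hTR⟩ := mem_powersetCard.1 hT
    have hc : (K \ T).card = u := by
      rw [Finset.card_sdiff_of_subset hTK, hK, hTR]
      omega
    rw [← mul_assoc, ← JoinH_card_sys hc a, ← Finset.card_product]
    refine Finset.card_nbij' (fun φ => (fun i => φ (Sum.inl i), fun j => φ (Sum.inr j)))
      (fun p => Sum.elim p.1 p.2) ?_ ?_ ?_ ?_
    · intro φ hφ
      simp only [mem_coe, mem_filter] at hφ
      obtain ⟨hφ, hT'⟩ := hφ
      have hA : (univ.image fun i : Fin u => (φ (Sum.inl i)).1) = K \ T := by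
        rw [← hT', Finset.sdiff_sdiff_eq_self (hsub φ hφ)]
      have hi := hinj φ hφ
      simp only [cm, mem_filter, Fintype.mem_piFinset, pts, mem_sigma] at hφ
      simp only [mem_coe, mem_product, mem_filter, Fintype.mem_piFinset, pts, mem_sigma, cm]
      refine ⟨⟨fun i => ⟨?_, (hφ.1 _).2⟩, hi⟩, fun j => ⟨?_, (hφ.1 _).2⟩, ?_, ?_⟩
      · rw [← hA]
        exact mem_image_of_mem _ (mem_univ i)
      · by_contra hj
        have hj' : (φ (Sum.inr j)).1 ∈ K \ T := mem_sdiff.2 ⟨(hφ.1 _).1, hj⟩
        rw [← hA] at hj'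
        obtain ⟨i, _, h⟩ := mem_image.1 hj'
        exact hφ.2.2 (Sum.inl i) (Sum.inr j) ⟨by simp, Or.inl rfl⟩ h
      · intro i j h
        have := hφ.2.1 h
        simpa using this
      · intro i j hij
        exact hφ.2.2 (Sum.inr i) (Sum.inr j)
          ⟨by simpa using hij.ne, Or.inr (Or.inr ⟨i, j, rfl, rfl, hij⟩)⟩
    · intro p hp
      simp only [mem_coe, mem_product, mem_filter, Fintype.mem_piFinset, pts, mem_sigma, cm] at hp
      obtain ⟨⟨h1, h2⟩, h3, h4, h5⟩ := hp
      have hcross : ∀ i j, (p.1 i).1 ≠ (p.2 j).1 := by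
        intro i j h
        have := (mem_sdiff.1 (h1 i).1).2
        rw [h] at this
        exact this (h3 j).1
      simp only [mem_coe, mem_filter, Fintype.mem_piFinset, pts, mem_sigma, cm]
      refine ⟨⟨?_, ?_, ?_⟩, ?_⟩
      · rintro (i | j)
        · exact ⟨(mem_sdiff.1 (h1 i).1).1, (h1 i).2⟩
        · exact ⟨hTK (h3 j).1, (h3 j).2⟩
      · rintro (i | i) (j | j) h
        · simp only [Sum.elim_inl] at h
          rw [h2 (congrArg Sigma.fst h)]
        · simp only [Sum.elim_inl, Sum.elim_inr] at h
          exact absurd (congrArg Sigma.fst h) (hcross i j)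
        · simp only [Sum.elim_inl, Sum.elim_inr] at h
          exact absurd (congrArg Sigma.fst h.symm) (hcross j i)
        · simp only [Sum.elim_inr] at h
          rw [h4 h]
      · rintro (i | i) (j | j) ⟨hne, hij⟩
        · simp only [Sum.elim_inl]
          intro h
          exact hne (by rw [h2 h])
        · exact hcross i j
        · exact (hcross j i).symm
        · simp only [Sum.elim_inr]
          rcases hij with h | h | ⟨i', j', hi, hj, h⟩
          · simp at h
          · simp at h
          · rw [Sum.inr.injEq] at hi hj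
            subst hi hj
            exact h5 _ _ h
      · have := JoinH_image_eq hc (τ := fun i => (p.1 i).1) (fun i => (h1 i).1) h2
        simp only [Sum.elim_inl]
        rw [this, Finset.sdiff_sdiff_eq_self hTK]
    · intro φ _
      funext x
      rcases x with i | j <;> rfl
    · intro p _
      rfl
  · intro φ hφ
    have hφ' : φ ∈ cm (jn J u) (pts K a) Sigma.fst := by simpa using hφ
    rw [mem_coe, mem_powersetCard]
    refine ⟨sdiff_subset, ?_⟩
    rw [Finset.card_sdiff_of_subset (hsub φ hφ'), Finset.card_image_of_injective _ (hinj φ hφ'),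
      Finset.card_univ, Fintype.card_fin, hK]
    omega

/-- ordered pairs of adjacent vertices of `K_u ∨ J` -/
theorem oe_join (u : ℕ) : oe (jn J u) = u * (u - 1) + 2 * u * Fintype.card ι + oe J := by
  classical
  have h1 : ∀ i j : Fin u, (jn J u).Adj (Sum.inl i) (Sum.inl j) ↔ i ≠ j := by
    intro i j
    constructor
    · intro h
      simpa using h.1
    · intro h
      exact ⟨by simpa using h, Or.inl rfl⟩
  have h2 : ∀ (i : Fin u) (j : ι), (jn J u).Adj (Sum.inl i) (Sum.inr j) := by
    intro i j
    exact ⟨by simp, Or.inl rfl⟩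
  have h3 : ∀ (i : Fin u) (j : ι), (jn J u).Adj (Sum.inr j) (Sum.inl i) := by
    intro i j
    exact (h2 i j).symm
  have h4 : ∀ i j : ι, (jn J u).Adj (Sum.inr i) (Sum.inr j) ↔ J.Adj i j := by
    intro i j
    constructor
    · rintro ⟨-, h | h | ⟨i', j', hi, hj, h⟩⟩
      · simp at h
      · simp at h
      · rw [Sum.inr.injEq] at hi hj
        subst hi hj
        exact h
    · intro h
      exact ⟨by simpa using h.ne, Or.inr (Or.inr ⟨i, j, rfl, rfl, h⟩)⟩
  have h5 : ∀ i : Fin u, (∑ j : Fin u, if i ≠ j then 1 else 0) = u - 1 := by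
    intro i
    rw [← Finset.card_filter, Finset.filter_ne, Finset.card_erase_of_mem (mem_univ i),
      Finset.card_univ, Fintype.card_fin]
  unfold oe
  rw [Finset.card_filter, Finset.card_filter, Fintype.sum_prod_type, Fintype.sum_prod_type]
  simp only [Fintype.sum_sum_type, h1, h2, h3, h4, if_true, h5, Finset.sum_add_distrib,
    Finset.sum_const, Finset.card_univ, Fintype.card_fin, smul_eq_mul, mul_one]
  ring

end H57GH
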