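import Pool.Agent.H57.GH.KtBet
import Pool.Agent.H57.GH.PhiG
import Pool.Agent.H57.GH.TightG
import Pool.Agent.H57.LC.Tight
import Pool.Agent.H57.LC.KIneq

/-!
The inequality (K).
-/

namespace H57GH

open Finset H57LC H57LT

set_option linter.unusedSectionVars false

/-- the costs at `T` are at most the largest coefficient times the number of sets -/
private lemma KIneqG_cost_le {α β : Type*} [DecidableEq α] {R s : ℕ} (hR : 2 ≤ R) {θ : ℝ}
    (Z : Finset β) (h : β → Finset α) (T : Finset α) :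
    ∑ y ∈ Z.filter (fun y => h y ⊆ T), ktG R s θ (h y).card ≤
      ((s : ℝ) / R * (1 - 1 / (4 * (R - 1)))) *
        ((Z.filter fun y => 2 ≤ (h y).card ∧ h y ⊆ T).card : ℝ) := by
  have h1 : ∀ y ∈ Z.filter (fun y => h y ⊆ T), ktG R s θ (h y).card ≤
      if 2 ≤ (h y).card then ((s : ℝ) / R * (1 - 1 / (4 * (R - 1)))) else 0 := by
    intro y _
    split_ifs with h2
    · exact ktG_le hR _
    · unfold ktG
      rw [if_neg (by omega)]
  refine (sum_le_sum h1).trans (le_of_eq ?_)
  rw [← sum_filter, sum_const, nsmul_eq_mul, filter_filter, mul_comm]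
  congr 3
  ext y
  simp only [mem_filter]
  tauto

/-- double counting of the costs -/
private lemma KIneqG_cost_sum {α β : Type*} [DecidableEq α] {R w s : ℕ} {θ : ℝ} (Z : Finset β)
    (h : β → Finset α) (K : Finset α) (hK : K.card = w) :
    ∑ T ∈ powersetCard R K, ∑ y ∈ Z.filter (fun y => h y ⊆ T), ktG R s θ (h y).card =
      ∑ y ∈ Z.filter (fun y => 2 ≤ (h y).card ∧ h y ⊆ K),
        if (h y).card ≤ R then ktG R s θ (h y).card * ((w - (h y).card).choose (R - (h y).card) : ℝ)
        else 0 := by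
  have h1 : ∀ T ∈ powersetCard R K, ∑ y ∈ Z.filter (fun y => h y ⊆ T), ktG R s θ (h y).card =
      ∑ y ∈ Z.filter (fun y => 2 ≤ (h y).card ∧ h y ⊆ K),
        if h y ⊆ T then ktG R s θ (h y).card else 0 := by
    intro T hT
    have hTK := (mem_powersetCard.1 hT).1
    rw [← sum_filter, filter_filter]
    symm
    apply sum_subset
    · intro y hy
      simp only [mem_filter] at hy ⊢
      exact ⟨hy.1, hy.2.2⟩
    · intro y hy hy2
      simp only [mem_filter] at hy hy2
      have h3 : ¬ 2 ≤ (h y).card := fun h4 => hy2 ⟨hy.1, ⟨h4, hy.2.trans hTK⟩, hy.2⟩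
      unfold ktG
      rw [if_neg (by omega)]
  rw [sum_congr rfl h1, sum_comm]
  refine sum_congr rfl fun y hy => ?_
  have hyK := (mem_filter.1 hy).2.2
  rw [← sum_filter, sum_const, nsmul_eq_mul]
  split_ifs with h2
  · rw [card_super hyK h2, hK, mul_comm]
  · have h3 : (powersetCard R K).filter (fun T => h y ⊆ T) = ∅ := by
      rw [filter_eq_empty_iff]
      intro T hT hyT
      have h4 := card_le_card hyT
      rw [(mem_powersetCard.1 hT).2] at h4
      exact h2 h4
    rw [h3]
    simp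

variable {ι : Type*} [Fintype ι] [DecidableEq ι] (J : SimpleGraph ι) [DecidableRel J.Adj]

theorem K_ineqG (hcs : 2 ≤ Fintype.card ι) (hJ : 1 ≤ oe J) (u : ℕ) (hu : 1 ≤ u) (θ : ℝ)
    (hθ : 0 < θ) (hθ1 : θ ≤ 1 / 4) : ∃ R₀ : ℕ, ∃ c₀ : ℝ, 0 < c₀ ∧ ∀ R r : ℕ, R₀ ≤ R → 1 ≤ r →
    (r : ℝ) ≤ c₀ * R → ∀ q κ₀ : ℕ, ((q = 0 ∧ r ≤ κ₀) ∨ (q = 1 ∧ u ≤ κ₀)) →
    ∃ C₁ ζ ε : ℝ, 0 < C₁ ∧ 0 < ζ ∧ ζ ≤ 1 ∧ 0 < ε ∧ ε < 1 ∧ ∃ m₀ : ℕ, ∀ m : ℕ, m₀ ≤ m →
      ∀ (α : Type) [DecidableEq α] (β : Type) (K : Finset α) (a : α → ℕ) (Z : Finset β)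
        (h : β → Finset α) (z : Finset α → ℝ), K.card = R + u → (∀ t ∈ K, 1 ≤ a t) →
        (∀ T ⊆ K, T.card = R →
          ∑ i ∈ T, a i + (Z.filter fun y => 2 ≤ (h y).card ∧ h y ⊆ T).card ≤ R * m + r) →
        (∀ T ⊆ K, T.card = R → z T ≤ -(C₁ / m) * (M0 J R m / (m : ℝ) ^ R) ∨
          ((∀ t ∈ T, (1 - ε) * m ≤ (a t : ℝ)) ∧
            z T ≤ ((fJ J T a : ℝ) - rhoG J u R r m) * (∏ t ∈ T, ((a t : ℝ))⁻¹) +
              M0 J R m / (m : ℝ) ^ R *
                ((∑ y ∈ Z.filter (fun y => h y ⊆ T), ktG R (Fintype.card ι) θ (h y).card) +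
                  ζ * ((m : ℝ)⁻¹) ^ q *
                    (if κ₀ + 1 ≤ (Z.filter fun y => 2 ≤ (h y).card ∧ h y ⊆ T).card then 1
                      else 0)) / m)) →
        ∑ T ∈ powersetCard R K, z T ≤ 0 := by
  obtain ⟨R₁, hR₁2, c₁, hc₁, hkt0⟩ := ktG_bet u θ hθ hθ1
  obtain ⟨R₂, hphi0⟩ := phiG J hcs hJ
  obtain ⟨R₃, htight0⟩ := tightG J hcs hJ u hu
  obtain ⟨CM, hCM, hM0⟩ := M0_bounds J
  set s : ℕ := Fintype.card ι with hs
  refine ⟨R₁ + R₂ + R₃ + s + (⌈CM⌉₊ + 1) + 2, c₁, hc₁, ?_⟩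
  intro R r hR hr1 hrc q κ₀ hq
  obtain ⟨hr2, hrf, hktb⟩ := hkt0 R (by omega) r hrc
  have hR2 : 2 ≤ R := by omega
  have hR1 : (1 : ℝ) ≤ R := by exact_mod_cast (by omega : 1 ≤ R)
  have hR2' : (2 : ℝ) ≤ R := by exact_mod_cast hR2
  have hR0 : (0 : ℝ) < R := by linarith only [hθ, hθ1, hR2']
  have hs0 : (0 : ℝ) < s := by exact_mod_cast (by omega : 0 < s)
  set al : ℝ := (s : ℝ) / R with hal
  have hal0 : 0 < al := by rw [hal]; positivity
  have hal1 : al ≤ 1 := by
    rw [hal, div_le_one hR0]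
    exact_mod_cast (by omega : s ≤ R)
  set β : ℝ := al / (4 * (R - 1)) with hβ
  have hR10 : (0 : ℝ) < R - 1 := by linarith only [hθ, hθ1, hR2']
  have hβ0 : 0 < β := by rw [hβ]; positivity
  have hβ1 : β ≤ 1 := by
    rw [hβ, div_le_one (by positivity)]
    linarith
  have hkal : al * (1 - 1 / (4 * ((R : ℝ) - 1))) = al - β := by
    rw [hβ]
    ring
  set C1 : ℝ := ((R + u - 1).choose (R - 1) : ℝ) with hC1
  set C0 : ℝ := ((R + u).choose R : ℝ) with hC0
  have hC11 : 1 ≤ C1 := by
    rw [hC1]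
    exact_mod_cast Nat.choose_pos (by omega)
  have hC01 : 1 ≤ C0 := by
    rw [hC0]
    exact_mod_cast Nat.choose_pos (Nat.le_add_right R u)
  have hC0R : C0 * R = C1 * (R + u) := by
    have h1 := Nat.add_one_mul_choose_eq (R + u - 1) (R - 1)
    have e1 : R + u - 1 + 1 = R + u := by omega
    have e2 : R - 1 + 1 = R := by omega
    rw [e1, e2] at h1
    have h2 : ((R + u : ℕ) : ℝ) * C1 = C0 * (R : ℝ) := by
      rw [hC1, hC0]
      exact_mod_cast h1
    push_cast at h2
    linarith only [h2]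
  have hC10 : C1 ≤ C0 := by
    have h1 : (0 : ℝ) ≤ u := Nat.cast_nonneg u
    have h2 : 0 ≤ C1 * u := by positivity
    have h3 : C1 * R ≤ C0 * R := by linarith only [hC0R, h2]
    exact le_of_mul_le_mul_right h3 hR0
  set c : ℝ := 1 / (16 * (R : ℝ)) with hcd
  have hc0 : 0 < c := by rw [hcd]; positivity
  have hc1 : c ≤ 1 := by
    rw [hcd, div_le_one (by positivity)]
    linarith only [hθ, hθ1, hR2']
  set ε' : ℝ := min (c * al * C1 / (2 * C0 * (r + 2))) (β / 2) with hε'
  have hε'0 : 0 < ε' := lt_min (by positivity) (by positivity)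
  have hε'1 : ε' ≤ β / 2 := min_le_right _ _
  have hε'2 : ε' * (C0 * (r + 2)) ≤ c * al * C1 / 2 := by
    have h1 : ε' ≤ c * al * C1 / (2 * C0 * (r + 2)) := min_le_left _ _
    have h2 := mul_le_mul_of_nonneg_right h1 (by positivity : 0 ≤ C0 * ((r : ℝ) + 2))
    refine h2.trans (le_of_eq ?_)
    field_simp
  obtain ⟨ε, hε0, hε1, m₀, hphi⟩ := hphi0 u R r (by omega) (by omega) ε' hε'0
  obtain ⟨ct, hct, m₁, htight⟩ := htight0 R r (by omega) (by omega)
  set ζ : ℝ := min (min (c * al * C1 / (2 * C0)) (1 / 2)) (ct / (C0 * (R : ℝ) ^ s)) with hζ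
  have hζ0 : 0 < ζ := lt_min (lt_min (by positivity) (by norm_num)) (by positivity)
  have hζ1 : ζ ≤ 1 / 2 := (min_le_left _ _).trans (min_le_right _ _)
  have hζ2 : C0 * ζ ≤ c * al * C1 / 2 := by
    have h1 : ζ ≤ c * al * C1 / (2 * C0) := (min_le_left _ _).trans (min_le_left _ _)
    have h2 := mul_le_mul_of_nonneg_left h1 (by linarith only [hθ, hθ1, hC01] : 0 ≤ C0)
    refine h2.trans (le_of_eq ?_)
    field_simp
  have hζ3 : C0 * (R : ℝ) ^ s * ζ ≤ ct := by
    have h1 : ζ ≤ ct / (C0 * (R : ℝ) ^ s) := min_le_right _ _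
    have h2 := mul_le_mul_of_nonneg_left h1 (by positivity : 0 ≤ C0 * (R : ℝ) ^ s)
    refine h2.trans (le_of_eq ?_)
    field_simp
  refine ⟨C0 * (r + 1), ζ, ε, by positivity, hζ0, by linarith only [hθ, hθ1, hζ1], hε0, hε1,
      m₀ + m₁ + 1, ?_⟩
  intro m hm α _ δ K a Z h z hK ha hT hz
  have hm1 : 1 ≤ m := by omega
  have hp : (0 : ℝ) < m := by exact_mod_cast hm1
  have hp1 : (1 : ℝ) ≤ m := by exact_mod_cast hm1
  have hM0b := hM0 R m (by omega) hm1
  have hMpos : 0 < M0 J R m := by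
    have h1 : CM < R := by
      have h2 := Nat.le_ceil CM
      have h3 : ((⌈CM⌉₊ + 1 : ℕ) : ℝ) ≤ R := by exact_mod_cast (by omega : ⌈CM⌉₊ + 1 ≤ R)
      push_cast at h3
      linarith only [hθ, hθ1, h2, h3]
    have h2 : 0 < 1 - CM / R := by
      have : CM / R < 1 := by rwa [div_lt_one hR0]
      linarith only [this]
    have h3 : 0 < (1 - CM / R) * ((R : ℝ) * m) ^ s := by positivity
    exact lt_of_lt_of_le h3 hM0b.1
  set M : ℝ := M0 J R m / (m : ℝ) ^ R with hM
  have hM00 : 0 < M := by rw [hM]; positivity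
  set nu : Finset α → ℝ := fun T =>
    if κ₀ + 1 ≤ (Z.filter fun y => 2 ≤ (h y).card ∧ h y ⊆ T).card then 1 else 0 with hnu
  have hnu01 : ∀ T, 0 ≤ nu T ∧ nu T ≤ 1 := by
    intro T
    simp only [hnu]
    split_ifs <;> norm_num
  have hmq : ((m : ℝ)⁻¹) ^ q ≤ 1 := pow_le_one₀ (by positivity) (inv_le_one_of_one_le₀ hp1)
  have hmq0 : 0 ≤ ((m : ℝ)⁻¹) ^ q := by positivity
  -- the estimate of a light clique
  have hlight : ∀ T ⊆ K, T.card = R → (∀ t ∈ T, (1 - ε) * m ≤ (a t : ℝ)) →
      z T ≤ ((fJ J T a : ℝ) - rhoG J u R r m) * (∏ t ∈ T, ((a t : ℝ))⁻¹) +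
        M * ((∑ y ∈ Z.filter (fun y => h y ⊆ T), ktG R s θ (h y).card) +
          ζ * ((m : ℝ)⁻¹) ^ q * nu T) / m →
      z T ≤ M / m * (-al * ((R : ℝ) * m - ∑ t ∈ T, (a t : ℝ)) - (s : ℝ) * r / (R + u) +
        ε' * (((R : ℝ) * m + r - ∑ t ∈ T, (a t : ℝ)) + 1) +
          (∑ y ∈ Z.filter (fun y => h y ⊆ T), ktG R s θ (h y).card) + ζ) := by
    intro T hTK hTc h1 h2
    have h3 := hphi m (by omega) α T a hTc h1 (by
      have := hT T hTK hTc
      omega)
    rw [← hM] at h3
    have h4 : ζ * ((m : ℝ)⁻¹) ^ q * nu T ≤ ζ := by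
      have h5 : ((m : ℝ)⁻¹) ^ q * nu T ≤ 1 := by
        have := mul_le_mul hmq (hnu01 T).2 (hnu01 T).1 zero_le_one
        linarith only [this]
      have := mul_le_mul_of_nonneg_left h5 hζ0.le
      linarith only [this]
    have h5 : M * ((∑ y ∈ Z.filter (fun y => h y ⊆ T), ktG R s θ (h y).card) +
          ζ * ((m : ℝ)⁻¹) ^ q * nu T) / m ≤
        M / m * ((∑ y ∈ Z.filter (fun y => h y ⊆ T), ktG R s θ (h y).card) + ζ) := by
      rw [mul_div_right_comm]
      exact mul_le_mul_of_nonneg_left (by linarith only [h4]) (by positivity)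
    calc z T ≤ _ := h2
      _ ≤ _ := add_le_add h3 h5
      _ = _ := by ring
  by_cases hrich : ∃ T ⊆ K, T.card = R ∧ z T ≤ -(C0 * (r + 1) / m) * M
  · -- some clique is rich
    obtain ⟨T₀, hT₀K, hT₀c, hT₀⟩ := hrich
    have hT₀m : T₀ ∈ powersetCard R K := mem_powersetCard.2 ⟨hT₀K, hT₀c⟩
    have hbound : ∀ T ∈ powersetCard R K, z T ≤ M / m * (r + 1) := by
      intro T hTm
      obtain ⟨hTK, hTc⟩ := mem_powersetCard.1 hTm
      rcases hz T hTK hTc with h1 | ⟨h1, h2⟩
      · refine h1.trans ?_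
        have h3 : 0 ≤ C0 * (r + 1) / m * M := by positivity
        have h4 : 0 ≤ M / m * ((r : ℝ) + 1) := by positivity
        linarith only [h3, h4]
      · refine (hlight T hTK hTc h1 h2).trans ?_
        refine mul_le_mul_of_nonneg_left ?_ (by positivity)
        have h3 := KIneqG_cost_le (s := s) (θ := θ) hR2 Z h T
        rw [← hal, hkal] at h3
        have h4 : ((∑ i ∈ T, a i + (Z.filter fun y => 2 ≤ (h y).card ∧ h y ⊆ T).card : ℕ) : ℝ) ≤
            ((R * m + r : ℕ) : ℝ) := by exact_mod_cast hT T hTK hTc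
        push_cast at h4
        set S : ℝ := ∑ t ∈ T, (a t : ℝ) with hS
        set n : ℝ := ((Z.filter fun y => 2 ≤ (h y).card ∧ h y ⊆ T).card : ℝ) with hn
        set X : ℝ := ∑ y ∈ Z.filter (fun y => h y ⊆ T), ktG R s θ (h y).card with hX
        have hn0 : 0 ≤ n := Nat.cast_nonneg _
        have h5 : 0 ≤ al - β := by
          have : β ≤ al := by
            rw [hβ]
            exact div_le_self hal0.le (by linarith only [hθ, hθ1, hR2'])
          linarith only [this]
        have h6 : X ≤ (al - β) * (R * m + r - S) :=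
          h3.trans (mul_le_mul_of_nonneg_left (by linarith only [h4]) h5)
        have hE : 0 ≤ R * m + r - S := by linarith
        have h7 : 0 ≤ (s : ℝ) * r / (R + u) := by positivity
        have h8 : (ε' - β) * (R * m + r - S) ≤ 0 :=
          mul_nonpos_of_nonpos_of_nonneg (by linarith only [hε'0, hε'1]) hE
        have h9 : al * r ≤ r := by
          have := mul_le_mul_of_nonneg_right hal1 (Nat.cast_nonneg (α := ℝ) r)
          linarith only [this]
        have h10 : ε' + ζ ≤ 1 := by linarith only [hal1, hε'1, hζ1, h5]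
        nlinarith only [hal1, hε'1, hζ1, h5, h6, h7, h8, h9]
    rw [← add_sum_erase _ _ hT₀m]
    have h1 : ∑ T ∈ (powersetCard R K).erase T₀, z T ≤
        ∑ _T ∈ (powersetCard R K).erase T₀, M / m * ((r : ℝ) + 1) :=
      sum_le_sum fun T hT' => hbound T (mem_of_mem_erase hT')
    rw [sum_const, card_erase_of_mem hT₀m, card_powersetCard, hK, nsmul_eq_mul,
      Nat.cast_sub (Nat.choose_pos (Nat.le_add_right R u)), Nat.cast_one, ← hC0] at h1
    have h2 : -(C0 * (r + 1) / m) * M + (C0 - 1) * (M / m * ((r : ℝ) + 1)) =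
        -(M / m * ((r : ℝ) + 1)) := by ring
    have h3 : 0 ≤ M / m * ((r : ℝ) + 1) := by positivity
    linarith only [hT₀, h1, h2, h3]
  · push Not at hrich
    have hall : ∀ T ⊆ K, T.card = R → (∀ t ∈ T, (1 - ε) * m ≤ (a t : ℝ)) ∧
        z T ≤ ((fJ J T a : ℝ) - rhoG J u R r m) * (∏ t ∈ T, ((a t : ℝ))⁻¹) +
        M * ((∑ y ∈ Z.filter (fun y => h y ⊆ T), ktG R s θ (h y).card) +
          ζ * ((m : ℝ)⁻¹) ^ q * nu T) / m := by
      intro T hTK hTc
      rcases hz T hTK hTc with h1 | h1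
      · exact absurd h1 (not_le.2 (hrich T hTK hTc))
      · exact h1
    -- integers
    set e : α → ℤ := fun i => (m : ℤ) - a i with he
    have hsumE : ∀ T : Finset α, ∑ i ∈ T, e i = (T.card : ℤ) * m - ∑ i ∈ T, (a i : ℤ) := by
      intro T
      simp only [he]
      rw [sum_sub_distrib, sum_const, nsmul_eq_mul]
    have hTZ : ∀ T ⊆ K, T.card = R →
        (((Z.filter fun z => 2 ≤ (h z).card ∧ h z ⊆ T).card : ℕ) : ℤ) ≤ ∑ i ∈ T, e i + r := by
      intro T hTK hTc
      have h1 := hT T hTK hTc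
      have h2 : (∑ i ∈ T, (a i : ℤ)) +
          (((Z.filter fun z => 2 ≤ (h z).card ∧ h z ⊆ T).card : ℕ) : ℤ) ≤ R * m + r := by
        exact_mod_cast h1
      rw [hsumE, hTc]
      linarith only [h2]
    have hP := thmPH (R + u) K R u r e Z h hK rfl (by omega) (by omega) hTZ
    have hA : ((R : ℤ) - 1 - max (r : ℤ) 0).toNat = R - 1 - r := by
      rw [max_eq_left (by omega : (0 : ℤ) ≤ r)]
      omega
    rw [hA] at hP
    set E : ℤ := ∑ i ∈ K, e i + r with hE
    set F : Finset δ := Z.filter (fun y => 2 ≤ (h y).card ∧ h y ⊆ K) with hF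
    have hbet0 : 0 ≤ ∑ y ∈ F, bet (R - 1 - r) u (h y).card :=
      sum_nonneg fun y _ => bet_nonneg _ _ _
    have hE0 : 0 ≤ E := by
      have : (0 : ℝ) ≤ (E : ℝ) := hbet0.trans hP
      exact_mod_cast this
    have hEsum : E = (R + u : ℤ) * m - ∑ i ∈ K, (a i : ℤ) + r := by
      rw [hE, hsumE, hK]
      push_cast
      ring
    rcases eq_or_lt_of_le hE0 with hEz | hEp
    · -- tight
      have hEz' : ∑ i ∈ K, e i + r = 0 := by rw [← hE, ← hEz]
      have hbz : ∀ y ∈ F, bet (R - 1 - r) u (h y).card = 0 := by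
        rw [← hEz] at hP
        have h1 : ∑ y ∈ F, bet (R - 1 - r) u (h y).card = 0 := le_antisymm (by simpa using hP) hbet0
        exact (sum_eq_zero_iff_of_nonneg fun y _ => bet_nonneg _ _ _).1 h1
      have hkz : ∀ T ⊆ K, ∑ y ∈ Z.filter (fun y => h y ⊆ T), ktG R s θ (h y).card = 0 := by
        intro T hTK
        refine sum_eq_zero fun y hy => ?_
        obtain ⟨hyZ, hyT⟩ := mem_filter.1 hy
        rcases Nat.lt_or_ge (h y).card 2 with h1 | h1
        · unfold ktG
          rw [if_neg (by omega)]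
        · have h2 := hbz y (mem_filter.2 ⟨hyZ, h1, hyT.trans hTK⟩)
          unfold bet at h2
          have h3 : R - 1 - r < (h y).card - 1 := by
            by_contra hcon
            push Not at hcon
            have h4 : (0 : ℝ) < ((R - 1 - r).choose ((h y).card - 1) : ℝ) := by
              exact_mod_cast Nat.choose_pos hcon
            have h5 : (0 : ℝ) < ((R - 1 - r + u).choose ((h y).card - 1) : ℝ) := by
              exact_mod_cast Nat.choose_pos (by omega)
            have : 0 < ((R - 1 - r).choose ((h y).card - 1) : ℝ) /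
              ((R - 1 - r + u).choose ((h y).card - 1) : ℝ) := by positivity
            linarith only [h2, this]
          unfold ktG
          rw [if_neg (by omega)]
      have hneg := tight_nonpos hK hu (by omega : (r : ℤ) ≤ (R : ℤ) - 1)
        (fun T hTK hTc => le_trans (Int.natCast_nonneg _) (hTZ T hTK hTc)) hEz'
      set g : α → ℕ := fun i => a i - m with hg
      have hag : ∀ i ∈ K, a i = m + g i := by
        intro i hi
        have h1 : (m : ℤ) - a i ≤ 0 := hneg i hi
        have h2 : m ≤ a i := by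
          have : (m : ℤ) ≤ a i := by linarith only [h1]
          exact_mod_cast this
        exact (Nat.add_sub_cancel' h2).symm
      have hgs : ∑ k ∈ K, g k = r := by
        have h1 : ∑ i ∈ K, a i = ∑ i ∈ K, (m + g i) := sum_congr rfl hag
        rw [sum_add_distrib, sum_const, hK, smul_eq_mul] at h1
        have h2 : (∑ i ∈ K, (a i : ℤ)) = (R + u) * m + r := by linarith only [hEsum, hEz, hE0]
        have h3 : ∑ i ∈ K, a i = (R + u) * m + r := by exact_mod_cast h2
        omega
      -- the number of sets inside `T`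
      have hnum : ∀ T ⊆ K, T.card = R →
          (Z.filter fun y => 2 ≤ (h y).card ∧ h y ⊆ T).card ≤ ∑ k ∈ K \ T, g k := by
        intro T hTK hTc
        have h1 := hT T hTK hTc
        have h2 : ∑ i ∈ T, a i = ∑ i ∈ T, (m + g i) := sum_congr rfl fun i hi => hag i (hTK hi)
        rw [sum_add_distrib, sum_const, hTc, smul_eq_mul] at h2
        have h3 := sum_sdiff (f := g) hTK
        omega
      have hmain := htight m (by omega) α K g hK hgs
      set b : ℝ := if ∃ k ∈ K, 2 ≤ g k then 1 else 0 with hb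
      have hterm : ∀ T ∈ powersetCard R K, z T ≤
          ((fJ J T (fun t => m + g t) : ℝ) - rhoG J u R r m) * ∏ t ∈ T, ((m : ℝ) + g t)⁻¹ +
            M * (ζ * ((m : ℝ)⁻¹) ^ q * nu T) / m := by
        intro T hTm
        obtain ⟨hTK, hTc⟩ := mem_powersetCard.1 hTm
        refine (hall T hTK hTc).2.trans (le_of_eq ?_)
        rw [hkz T hTK, zero_add]
        have e1 : ∀ t ∈ T, ((a t : ℝ)) = (m : ℝ) + g t := by
          intro t ht
          rw [hag t (hTK ht)]
          push_cast
          rfl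
        have e2 : fJ J T a = fJ J T (fun t => m + g t) :=
          fJ_congr J fun t ht => hag t (hTK ht)
        have e3 : ∏ t ∈ T, ((a t : ℝ))⁻¹ = ∏ t ∈ T, ((m : ℝ) + g t)⁻¹ :=
          prod_congr rfl fun t ht => by rw [e1 t ht]
        rw [e2, e3]
      -- the indicator
      have hnub : ∀ T ∈ powersetCard R K, ((m : ℝ)⁻¹) ^ q * nu T ≤ (m : ℝ)⁻¹ * b := by
        intro T hTm
        obtain ⟨hTK, hTc⟩ := mem_powersetCard.1 hTm
        have h1 := hnum T hTK hTc
        have hb0 : 0 ≤ b := by rw [hb]; split_ifs <;> norm_num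
        rcases hq with ⟨hq0, hκ⟩ | ⟨hq1, hκ⟩
        · have h2 : ∑ k ∈ K \ T, g k ≤ r := by
            rw [← hgs]
            exact sum_le_sum_of_subset sdiff_subset
          have h3 : nu T = 0 := by
            simp only [hnu]
            rw [if_neg (by omega)]
          rw [h3, mul_zero]
          positivity
        · rw [hq1, pow_one]
          refine mul_le_mul_of_nonneg_left ?_ (by positivity)
          rw [hb]
          split_ifs with h2
          · exact (hnu01 T).2
          · push Not at h2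
            have h3 : ∑ k ∈ K \ T, g k ≤ ∑ _k ∈ K \ T, 1 := by
              refine sum_le_sum fun k hk => ?_
              have := h2 k (mem_sdiff.1 hk).1
              omega
            rw [sum_const, card_sdiff_of_subset hTK, hK, hTc, smul_eq_mul, mul_one] at h3
            have h4 : nu T = 0 := by
              simp only [hnu]
              rw [if_neg (by omega)]
            rw [h4]
      refine (sum_le_sum hterm).trans ?_
      rw [sum_add_distrib]
      have hsum2 : ∑ T ∈ powersetCard R K, M * (ζ * ((m : ℝ)⁻¹) ^ q * nu T) / m ≤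
          C0 * (M * ζ * ((m : ℝ)⁻¹ * b) / m) := by
        have h1 : ∀ T ∈ powersetCard R K, M * (ζ * ((m : ℝ)⁻¹) ^ q * nu T) / m ≤
            M * ζ * ((m : ℝ)⁻¹ * b) / m := by
          intro T hTm
          have h2 := hnub T hTm
          have h3 : M * ζ * (((m : ℝ)⁻¹) ^ q * nu T) ≤ M * ζ * ((m : ℝ)⁻¹ * b) :=
            mul_le_mul_of_nonneg_left h2 (by positivity)
          refine div_le_div_of_nonneg_right ?_ hp.le
          refine le_trans (le_of_eq ?_) h3
          ring
        refine (sum_le_sum h1).trans (le_of_eq ?_)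
        rw [sum_const, card_powersetCard, hK, nsmul_eq_mul]
      refine (add_le_add hmain hsum2).trans ?_
      have hb0 : 0 ≤ b := by rw [hb]; split_ifs <;> norm_num
      -- compare
      have hcomp : C0 * (M * ζ * (m : ℝ)⁻¹ / m) ≤ ct * (m : ℝ) ^ (s - 2) / (m : ℝ) ^ R := by
        have hMle : M ≤ ((R : ℝ) * m) ^ s / (m : ℝ) ^ R := by
          rw [hM]
          exact div_le_div_of_nonneg_right hM0b.2 (by positivity)
        have hpow : ((R : ℝ) * m) ^ s = (R : ℝ) ^ s * ((m : ℝ) ^ (s - 2) * ((m : ℝ) * m)) := by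
          rw [mul_pow]
          congr 1
          have : s = s - 2 + 2 := by omega
          conv_lhs => rw [this]
          rw [pow_add, pow_two]
        calc C0 * (M * ζ * (m : ℝ)⁻¹ / m)
            ≤ C0 * (((R : ℝ) * m) ^ s / (m : ℝ) ^ R * ζ * (m : ℝ)⁻¹ / m) := by gcongr
          _ = (C0 * (R : ℝ) ^ s * ζ) * ((m : ℝ) ^ (s - 2) / (m : ℝ) ^ R) := by
              rw [hpow]
              field_simp
          _ ≤ ct * ((m : ℝ) ^ (s - 2) / (m : ℝ) ^ R) :=
              mul_le_mul_of_nonneg_right hζ3 (by positivity)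
          _ = ct * (m : ℝ) ^ (s - 2) / (m : ℝ) ^ R := by ring
      have h1 := mul_le_mul_of_nonneg_right hcomp hb0
      have h2 : C0 * (M * ζ * ((m : ℝ)⁻¹ * b) / m) = C0 * (M * ζ * (m : ℝ)⁻¹ / m) * b := by ring
      rw [h2]
      linarith only [h1]
    · -- not tight
      have hE1 : (1 : ℝ) ≤ E := by exact_mod_cast hEp
      have hEreal : (E : ℝ) = ((R : ℝ) + u) * m - ∑ i ∈ K, (a i : ℝ) + r := by
        rw [hEsum]
        push_cast
        ring
      have hterm : ∀ T ∈ powersetCard R K, z T ≤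
          M / m * (-al * ((R : ℝ) * m - ∑ t ∈ T, (a t : ℝ)) - (s : ℝ) * r / (R + u) +
            ε' * (((R : ℝ) * m + r - ∑ t ∈ T, (a t : ℝ)) + 1) +
              (∑ y ∈ Z.filter (fun y => h y ⊆ T), ktG R s θ (h y).card) + ζ) := by
        intro T hTm
        obtain ⟨hTK, hTc⟩ := mem_powersetCard.1 hTm
        obtain ⟨h1, h2⟩ := hall T hTK hTc
        exact hlight T hTK hTc h1 h2
      refine (sum_le_sum hterm).trans ?_
      rw [← mul_sum]
      refine mul_nonpos_of_nonneg_of_nonpos (by positivity) ?_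
      have s1 := sum_one (K := K) (by omega : 1 ≤ R) fun t => (a t : ℝ)
      rw [hK, ← hC1] at s1
      have s2 := KIneqG_cost_sum (R := R) (s := s) (θ := θ) Z h K hK
      rw [← hF] at s2
      have hcard : ((powersetCard R K).card : ℝ) = C0 := by
        rw [card_powersetCard, hK]
      have hsum : ∑ T ∈ powersetCard R K, (-al * ((R : ℝ) * m - ∑ t ∈ T, (a t : ℝ)) -
          (s : ℝ) * r / (R + u) + ε' * (((R : ℝ) * m + r - ∑ t ∈ T, (a t : ℝ)) + 1) +
              (∑ y ∈ Z.filter (fun y => h y ⊆ T), ktG R s θ (h y).card) + ζ) =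
          C0 * (-al * R * m - (s : ℝ) * r / (R + u) + ε' * (R * m + r + 1) + ζ) +
            (al - ε') * (C1 * ∑ i ∈ K, (a i : ℝ)) +
            ∑ T ∈ powersetCard R K, ∑ y ∈ Z.filter (fun y => h y ⊆ T), ktG R s θ (h y).card := by
        have hcst : ∀ X : ℝ, C0 * X = ∑ _T ∈ powersetCard R K, X := by
          intro X
          rw [sum_const, nsmul_eq_mul, hcard]
        rw [hcst, ← s1, mul_sum, ← sum_add_distrib, ← sum_add_distrib]
        refine sum_congr rfl fun T _ => ?_
        ring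
      rw [hsum, s2]
      have hcost : ∑ y ∈ F, (if (h y).card ≤ R then
          ktG R s θ (h y).card * ((R + u - (h y).card).choose (R - (h y).card) : ℝ) else 0) ≤
          (1 - c) * al * C1 * E := by
        have h0 : 0 ≤ (1 - c) * al * C1 := by
          have : 0 ≤ 1 - c := by linarith only [hc1]
          positivity
        have h1 : ∀ y ∈ F, (if (h y).card ≤ R then
            ktG R s θ (h y).card * ((R + u - (h y).card).choose (R - (h y).card) : ℝ) else 0) ≤
            (1 - c) * al * C1 * bet (R - 1 - r) u (h y).card := by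
          intro y hy
          split_ifs with h2
          · exact hktb s _ (mem_filter.1 hy).2.1 h2
          · exact mul_nonneg h0 (bet_nonneg _ _ _)
        refine (sum_le_sum h1).trans ?_
        rw [← mul_sum]
        exact mul_le_mul_of_nonneg_left hP h0
      have e1 : C0 * ((s : ℝ) * r / (R + u)) = al * r * C1 := by
        have h1 : C0 = C1 * (R + u) / R := by
          rw [eq_div_iff hR0.ne']
          exact hC0R
        have hRu : (R : ℝ) + u ≠ 0 := by positivity
        rw [h1, hal]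
        field_simp
      have e2 : ∑ i ∈ K, (a i : ℝ) = ((R : ℝ) + u) * m + r - E := by rw [hEreal]; ring
      rw [e2]
      have e3 : C0 * (-al * R * m - (s : ℝ) * r / (R + u) + ε' * (R * m + r + 1) + ζ) +
          (al - ε') * (C1 * (((R : ℝ) + u) * m + r - E)) =
          -al * C1 * E + ε' * (C1 * E + (C0 - C1) * r + C0) + C0 * ζ := by
        linear_combination (-1 : ℝ) * e1 + (-al * m + ε' * m) * hC0R
      rw [e3]
      have h1 : C1 * E + (C0 - C1) * r + C0 ≤ C0 * (r + 2) * E := by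
        have h2 : C1 * (E : ℝ) ≤ C0 * E := mul_le_mul_of_nonneg_right hC10 (by linarith only [hθ,
            hθ1, hE1])
        have h3 : (C0 - C1) * r ≤ C0 * r * E := by
          have h4 : (C0 - C1) * r ≤ C0 * r := mul_le_mul_of_nonneg_right (by linarith only [hθ,
              hθ1, hC11]) (Nat.cast_nonneg r)
          have h5 : C0 * r * 1 ≤ C0 * r * E := mul_le_mul_of_nonneg_left hE1 (by positivity)
          linarith only [h4, h5]
        have h4 : C0 * 1 ≤ C0 * E := mul_le_mul_of_nonneg_left hE1 (by linarith only [hθ, hθ1,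
            hC01])
        linarith only [h2, h3, h4]
      have h2 : ε' * (C1 * E + (C0 - C1) * r + C0) ≤ c * al * C1 / 2 * E := by
        have h3 := mul_le_mul_of_nonneg_left h1 hε'0.le
        have h4 := mul_le_mul_of_nonneg_right hε'2 (by linarith only [hθ, hθ1, hE1] : (0 : ℝ) ≤ E)
        refine h3.trans (le_trans (le_of_eq ?_) h4)
        ring
      have h3 : C0 * ζ ≤ c * al * C1 / 2 * E := by
        have h4 : 0 ≤ c * al * C1 / 2 := by positivity
        have h5 := mul_le_mul_of_nonneg_left hE1 h4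
        linarith only [hζ2, h5]
      linarith only [hcost, h2, h3]

end H57GH
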