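import Pool.Agent.H57.GH.PointG
import Pool.Agent.H57.GH.ClG
import Pool.Agent.H57.LC.LSum

/-!
The sum of the values of the light cliques.
-/

namespace H57GH

open Finset H57LC H57LT

set_option linter.unusedSectionVars false

private lemma LSumG_ss_nonneg {V : Type*} [DecidableEq V] {G : SimpleGraph V} [DecidableRel G.Adj]
    {R : ℕ} (B : Fin R → Finset V) (f : Fin R → V) : 0 ≤ ss G B f := by
  unfold ss
  exact Finset.sum_nonneg fun i _ => Nat.cast_nonneg _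

private lemma LSumG_s2_nonneg {V : Type*} [DecidableEq V] {G : SimpleGraph V} [DecidableRel G.Adj]
    {R : ℕ} (B : Fin R → Finset V) (f : Fin R → V) : 0 ≤ s2 G B f := by
  unfold s2
  exact Finset.sum_nonneg fun i _ => Nat.cast_nonneg _

variable {ι : Type*} [Fintype ι] [DecidableEq ι] (J : SimpleGraph ι) [DecidableRel J.Adj]

private lemma LSumG_sum_up {κ : Type*} [DecidableEq κ] {T : Finset κ} (a : κ → ℕ) {k : κ}
    (hk : k ∈ T) : ∑ l ∈ T, up a k l = ∑ l ∈ T, a l + 1 := by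
  have h1 : ∑ l ∈ T, up a k l = (a k + 1) + ∑ l ∈ T \ {k}, a l := by
    unfold up
    rw [Finset.sum_update_of_mem hk]
  have h2 : ∑ l ∈ T, a l = a k + ∑ l ∈ T \ {k}, a l := by
    rw [Finset.sdiff_singleton_eq_erase, Finset.add_sum_erase T a hk]
  omega

/-- growth of `fJ` -/
private lemma LSumG_grow {κ : Type*} [DecidableEq κ] {T : Finset κ} (b : κ → ℕ) (n : ℕ) :
    ∀ a : κ → ℕ, (∀ k ∈ T, a k ≤ b k) → ∑ k ∈ T, b k = ∑ k ∈ T, a k + n →
      (fJ J T b : ℝ) - fJ J T a ≤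
        (Fintype.card ι : ℝ) * (∑ k ∈ T, (b k : ℝ)) ^ (Fintype.card ι - 1) * n := by
  induction n with
  | zero =>
    intro a hab hs
    have h1 : ∀ k ∈ T, a k = b k :=
      (Finset.sum_eq_sum_iff_of_le hab).1 (by omega)
    rw [fJ_congr J h1]
    simp
  | succ n ih =>
    intro a hab hs
    have hlt : ∑ k ∈ T, a k < ∑ k ∈ T, b k := by omega
    obtain ⟨k, hk, hkab⟩ := Finset.exists_lt_of_sum_lt hlt
    have hab' : ∀ l ∈ T, up a k l ≤ b l := by
      intro l hl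
      unfold up
      by_cases hlk : l = k
      · subst hlk
        rw [Function.update_self]
        omega
      · rw [Function.update_of_ne hlk]
        exact hab l hl
    have h1 := ih (up a k) hab' (by rw [LSumG_sum_up a hk]; omega)
    have h2 := fJ_up_le J (a := a) hk
    have h3 : (∑ l ∈ T, (a l : ℝ)) ^ (Fintype.card ι - 1) ≤
        (∑ l ∈ T, (b l : ℝ)) ^ (Fintype.card ι - 1) := by
      refine pow_le_pow_left₀ (Finset.sum_nonneg fun _ _ => Nat.cast_nonneg _) ?_ _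
      exact Finset.sum_le_sum fun l hl => by exact_mod_cast hab l hl
    have h4 := mul_le_mul_of_nonneg_left h3 (Nat.cast_nonneg (Fintype.card ι) : (0 : ℝ) ≤ _)
    push_cast
    nlinarith only [h1, h2, h4]

private lemma LSumG_fJ_le (R m : ℕ) (δ : ℝ) (hδ : 0 ≤ δ) (hδ1 : δ ≤ 1) (hcs : 1 ≤ Fintype.card ι)
    (a : Fin R → ℕ) (ha : ∀ i, (a i : ℝ) ≤ (1 + δ) * m) :
    (fJ J univ a : ℝ) ≤ M0 J R m +
      (Fintype.card ι : ℝ) * 2 ^ (Fintype.card ι - 1) * δ * ((R : ℝ) * m) ^ Fintype.card ι := by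
  set b : Fin R → ℕ := fun i => max (a i) m with hb
  have hbm : ∀ i, (b i : ℝ) ≤ (1 + δ) * m := by
    intro i
    rw [hb]
    simp only [Nat.cast_max]
    refine max_le (ha i) ?_
    have : 0 ≤ δ * m := mul_nonneg hδ (Nat.cast_nonneg m)
    linarith
  have hsumb : ∑ i, (b i : ℝ) ≤ R * ((1 + δ) * m) := by
    refine (Finset.sum_le_sum fun i _ => hbm i).trans (le_of_eq ?_)
    rw [Finset.sum_const, card_univ, Fintype.card_fin, nsmul_eq_mul]
  have h1 : (fJ J univ a : ℝ) ≤ fJ J univ b := by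
    exact_mod_cast fJ_mono J (T := univ) (fun k _ => le_max_left (a k) m)
  have hsum : ∑ k : Fin R, b k = ∑ _k : Fin R, m + (∑ k : Fin R, b k - ∑ _k : Fin R, m) := by
    have : ∑ _k : Fin R, m ≤ ∑ k : Fin R, b k :=
      Finset.sum_le_sum fun k _ => le_max_right (a k) m
    omega
  have h2 := LSumG_grow J (T := univ) b _ (fun _ => m) (fun k _ => le_max_right (a k) m) hsum
  have h3 : ((∑ k : Fin R, b k - ∑ _k : Fin R, m : ℕ) : ℝ) ≤ R * (δ * m) := by
    have h4 : (∑ k : Fin R, b k : ℕ) = ((∑ _k : Fin R, m : ℕ)) +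
      (∑ k : Fin R, b k - ∑ _k : Fin R, m) := hsum
    have h5 : ((∑ k : Fin R, b k : ℕ) : ℝ) = ((∑ _k : Fin R, m : ℕ) : ℝ) +
      ((∑ k : Fin R, b k - ∑ _k : Fin R, m : ℕ) : ℝ) := by exact_mod_cast h4
    have h6 : ((∑ _k : Fin R, m : ℕ) : ℝ) = R * m := by
      rw [Finset.sum_const, card_univ, Fintype.card_fin, smul_eq_mul]
      push_cast
      ring
    have h7 : ((∑ k : Fin R, b k : ℕ) : ℝ) = ∑ k : Fin R, (b k : ℝ) := by push_cast; rfl
    rw [h6, h7] at h5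
    linarith only [hsumb, h5]
  have hm0 : (0 : ℝ) ≤ (R : ℝ) * m := by positivity
  have h8 : (∑ k : Fin R, (b k : ℝ)) ^ (Fintype.card ι - 1) ≤
      (2 * ((R : ℝ) * m)) ^ (Fintype.card ι - 1) := by
    refine pow_le_pow_left₀ (Finset.sum_nonneg fun _ _ => Nat.cast_nonneg _) ?_ _
    have h9 : (1 + δ) * ((R : ℝ) * m) ≤ 2 * ((R : ℝ) * m) :=
      mul_le_mul_of_nonneg_right (by linarith) hm0
    linarith
  have h10 : (Fintype.card ι : ℝ) * (∑ k : Fin R, (b k : ℝ)) ^ (Fintype.card ι - 1) *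
      ((∑ k : Fin R, b k - ∑ _k : Fin R, m : ℕ) : ℝ) ≤
      (Fintype.card ι : ℝ) * (2 * ((R : ℝ) * m)) ^ (Fintype.card ι - 1) * (R * (δ * m)) := by
    refine mul_le_mul (mul_le_mul_of_nonneg_left h8 (Nat.cast_nonneg _)) h3 (Nat.cast_nonneg _) ?_
    positivity
  have h11 : (Fintype.card ι : ℝ) * (2 * ((R : ℝ) * m)) ^ (Fintype.card ι - 1) * (R * (δ * m)) =
      (Fintype.card ι : ℝ) * 2 ^ (Fintype.card ι - 1) * δ * ((R : ℝ) * m) ^ Fintype.card ι := by
    obtain ⟨k, hk⟩ : ∃ k, Fintype.card ι = k + 1 := ⟨Fintype.card ι - 1, by omega⟩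
    rw [hk]
    simp only [Nat.add_sub_cancel]
    rw [mul_pow]
    ring
  have h12 : (fJ J (univ : Finset (Fin R)) (fun _ => m) : ℝ) = M0 J R m := rfl
  rw [h12] at h2
  linarith only [h1, h2, h10, h11]

/-- here `γ = s/(R(R-1))` -/
theorem light_sumG (hd : ∀ v, 1 ≤ dg J univ v) (hcs : 2 ≤ Fintype.card ι) (R r : ℕ) (hR : 3 ≤ R)
    (CB C η₁ θ ε₇ : ℝ) (hC : 0 < C) (hη₁ : 0 < η₁)
    (hM : ∀ m : ℕ, 1 ≤ m → ((R : ℝ) * m) ^ Fintype.card ι ≤ 2 * M0 J R m)
    (hη : 4096 * (Fintype.card ι : ℝ) ^ 4 * R ^ 4 * η₁ ≤ 1) (hθ : 0 < θ) (hθ1 : θ ≤ 1 / 4)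
    (hε : 0 < ε₇) :
    ∃ δ₀ : ℝ, 0 < δ₀ ∧ ∀ δ : ℝ, 0 < δ → δ ≤ δ₀ → ∃ m₀ : ℕ, ∀ m : ℕ, m₀ ≤ m →
      ∀ (V : Type) [DecidableEq V] (G : SimpleGraph V) [DecidableRel G.Adj] (S : Finset V)
        (B : Fin R → Finset V) (ρ ζ : ℝ) (κ₀ : ℕ), 0 ≤ ζ → S.card ≤ R * m + r →
        LS G S R m C η₁ δ B → M0 J R m ≤ ρ → ρ ≤ M0 J R m * (1 + CB / m) →
        ((emb J G (un B)).card : ℝ) - ρ ≤ ∑ f ∈ tcl G B, lzG G J S R m θ ζ ρ κ₀ (im f) -
          (1 - ε₇) * M0 J R m * (∑ f ∈ tcl G B, (∑ z ∈ S \ un B, xz G R (Fintype.card ι) θ f z +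
            ζ * nuG G S κ₀ (im f))) / (m * ∏ l, ((B l).card : ℝ)) := by
  set s : ℝ := (Fintype.card ι : ℝ) with hs
  have hs2 : (2 : ℝ) ≤ s := by rw [hs]; exact_mod_cast hcs
  have hR3 : (3 : ℝ) ≤ R := by exact_mod_cast hR
  set γ : ℝ := s / (R * (R - 1)) with hγ
  have hγ0 : 0 < γ := by
    rw [hγ]
    exact div_pos (by linarith) (mul_pos (by linarith) (by linarith))
  have hpw1 : (1 : ℝ) ≤ s ^ 2 := by nlinarith only [hs2]
  have hη' : 4096 * s ^ 2 * R ^ 4 * η₁ ≤ 1 := by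
    have h1 : s ^ 2 * (R ^ 4 * η₁) ≤ s ^ 4 * (R ^ 4 * η₁) := by
      refine mul_le_mul_of_nonneg_right ?_ (by positivity)
      nlinarith only [hpw1]
    nlinarith only [hη, h1]
  obtain ⟨δ₁, hδ₁, hpoint⟩ := pointG J hcs R r hR CB C η₁ θ ε₇ hC hη₁ hM hη' hθ hθ1 hε
  obtain ⟨δ₂, hδ₂, hcl⟩ := card_emb_un_le J hd hcs R r hR C η₁ hC hη₁ hM hη
  set K : ℝ := s * 2 ^ (Fintype.card ι - 1) with hK
  have hK0 : 0 < K := by
    rw [hK]
    positivity
  refine ⟨min (min δ₁ δ₂) (min (1 / 24) (γ / (64 * K))), ?_, ?_⟩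
  · refine lt_min (lt_min hδ₁ hδ₂) (lt_min (by norm_num) ?_)
    positivity
  intro δ hδ hδ0
  have hδa : δ ≤ δ₁ := hδ0.trans ((min_le_left _ _).trans (min_le_left _ _))
  have hδb : δ ≤ δ₂ := hδ0.trans ((min_le_left _ _).trans (min_le_right _ _))
  have hδc : δ ≤ 1 / 24 := hδ0.trans ((min_le_right _ _).trans (min_le_left _ _))
  have hδd : δ ≤ γ / (64 * K) := hδ0.trans ((min_le_right _ _).trans (min_le_right _ _))
  have hδK : K * δ ≤ γ / 64 := by
    have h1 := mul_le_mul_of_nonneg_left hδd hK0.le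
    have h2 : K * (γ / (64 * K)) = γ / 64 := by
      field_simp
    linarith only [h1, h2]
  obtain ⟨m₁, hm₁⟩ := hpoint δ hδ hδa
  obtain ⟨m₂, hm₂⟩ := hcl δ hδ hδb
  refine ⟨max (max m₁ m₂) 1, ?_⟩
  intro m hm V _ G _ S B ρ ζ κ₀ hζ hS h hρ1 hρ2
  have hpt := hm₁ m ((le_max_left _ _).trans ((le_max_left _ _).trans hm)) V G S B ρ ζ κ₀ hζ hS h
    hρ1 hρ2
  have hemb := hm₂ m ((le_max_right _ _).trans ((le_max_left _ _).trans hm)) V G S B hS h
  have hm1 : 0 < m := lt_of_lt_of_le Nat.one_pos ((le_max_right _ _).trans hm)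
  have hm0 : (0 : ℝ) < m := by exact_mod_cast hm1
  have hδ2 : δ ≤ 1 / 2 := by linarith only [hδ, hδc]
  set P : ℝ := ∏ l, ((B l).card : ℝ) with hP
  have hPpos : 0 < P := by
    rw [hP]
    refine Finset.prod_pos fun l _ => ?_
    have h3 := h.size_lo l
    have h4 : (1 / 2 : ℝ) * m ≤ (1 - δ) * m := mul_le_mul_of_nonneg_right (by linarith only [hδ,
        hδc]) hm0.le
    linarith only [hm0, h3, h4]
  have hM0 := hM m hm1
  set N : ℝ := M0 J R m with hN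
  have hN0 : 0 ≤ N := by
    rw [hN, M0]
    positivity
  set D : ℝ := ∑ f ∈ Fintype.piFinset B, DD G f with hD
  have hD0 : 0 ≤ D := Finset.sum_nonneg fun f _ => DD_nonneg f
  set X : ℝ := ∑ f ∈ tcl G B, (∑ z ∈ S \ un B, xz G R (Fintype.card ι) θ f z +
            ζ * nuG G S κ₀ (im f)) with hX
  set E : ℝ := (fJ J univ (fun i => (B i).card) : ℝ) with hE
  have hsub : tcl G B ⊆ Fintype.piFinset B := by
    unfold tcl
    exact filter_subset _ _
  have hss : ∑ f ∈ tcl G B, ss G B f ≤ (1 + δ) * m * D :=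
    (Finset.sum_le_sum_of_subset_of_nonneg hsub fun f _ _ => LSumG_ss_nonneg B f).trans
      (sum_ss_le h)
  have hs2' : ∑ f ∈ tcl G B, s2 G B f ≤ 4 * η₁ * R * m * D :=
    (Finset.sum_le_sum_of_subset_of_nonneg hsub fun f _ _ => LSumG_s2_nonneg B f).trans
      (sum_s2_le h hη₁.le hδ2 hδ.le hm1)
  have hcardlo : P - (1 / 2) * D ≤ ((tcl G B).card : ℝ) := card_tcl_ge B
  have hcardhi : ((tcl G B).card : ℝ) ≤ P := by
    have h1 : (tcl G B).card ≤ (Fintype.piFinset B).card := Finset.card_le_card hsub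
    rw [Fintype.card_piFinset] at h1
    rw [hP]
    exact_mod_cast h1
  -- `E - ρ` is small
  have hEρ : E - ρ ≤ N * (γ / 32) := by
    have h1 := LSumG_fJ_le J R m δ hδ.le (by linarith only [hδc]) (by omega) (fun i => (B i).card)
      (fun i => h.size_hi i)
    rw [← hE, ← hN, ← hs] at h1
    have h2 : s * 2 ^ (Fintype.card ι - 1) * δ * ((R : ℝ) * m) ^ Fintype.card ι ≤
        K * δ * (2 * N) := by
      rw [hK]
      exact mul_le_mul_of_nonneg_left hM0 (by positivity)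
    have h3 : K * δ * (2 * N) ≤ γ / 64 * (2 * N) := mul_le_mul_of_nonneg_right hδK (by linarith only [hN0])
    linarith only [hρ1, h1, h2, h3]
  have hdiff : (P - ((tcl G B).card : ℝ)) * (E - ρ) ≤ (1 / 2 * D) * (N * (γ / 32)) := by
    have h1 : 0 ≤ P - ((tcl G B).card : ℝ) := by linarith only [hcardhi]
    have h2 : P - ((tcl G B).card : ℝ) ≤ 1 / 2 * D := by linarith only [hcardlo]
    have h3 : 0 ≤ N * (γ / 32) := by positivity
    exact (mul_le_mul_of_nonneg_left hEρ h1).trans (mul_le_mul_of_nonneg_right h2 h3)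
  -- the sum of the pointwise bounds
  have hsum : ((tcl G B).card : ℝ) * (E - ρ) -
      N / m * (3 / 8 * γ * (∑ f ∈ tcl G B, ss G B f) +
        s * ∑ f ∈ tcl G B, s2 G B f) + (1 - ε₇) * (N / m) * X ≤
      P * ∑ f ∈ tcl G B, lzG G J S R m θ ζ ρ κ₀ (im f) := by
    have h1 := Finset.sum_le_sum fun f hf => hpt f hf
    rw [← Finset.mul_sum] at h1
    refine (le_of_eq ?_).trans h1
    rw [Finset.sum_add_distrib, Finset.sum_sub_distrib, Finset.sum_const, nsmul_eq_mul,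
      ← Finset.mul_sum, ← Finset.mul_sum, Finset.sum_add_distrib, ← Finset.mul_sum,
      ← Finset.mul_sum]
  have hcost : N / m * (3 / 8 * γ * (∑ f ∈ tcl G B, ss G B f) +
        s * ∑ f ∈ tcl G B, s2 G B f) ≤
      N * D * (3 / 8 * γ * (1 + δ) + 4 * s * η₁ * R) := by
    have h1 := mul_le_mul_of_nonneg_left hss (by positivity : 0 ≤ 3 / 8 * γ)
    have h1' := mul_le_mul_of_nonneg_left hs2' (by linarith only [hs2] : 0 ≤ s)
    have h2 : 3 / 8 * γ * (∑ f ∈ tcl G B, ss G B f) +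
        s * ∑ f ∈ tcl G B, s2 G B f ≤
        m * (D * (3 / 8 * γ * (1 + δ) + 4 * s * η₁ * R)) := by
      calc _ ≤ 3 / 8 * γ * ((1 + δ) * m * D) + s * (4 * η₁ * R * m * D) := by
            linarith only [h1, h1']
        _ = _ := by ring
    have h3 : 0 ≤ N / m := by positivity
    refine (mul_le_mul_of_nonneg_left h2 h3).trans (le_of_eq ?_)
    field_simp
  have hη4 : 4 * s * η₁ * R ≤ γ / 64 := by
    have h1 : γ / 64 = s / (64 * (R * (R - 1))) := by
      rw [hγ]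
      field_simp
    have hRR : (0 : ℝ) < 64 * (R * (R - 1)) :=
      mul_pos (by norm_num) (mul_pos (by linarith only [hR3]) (by linarith only [hR3]))
    rw [h1, le_div_iff₀ hRR]
    have h2 : (R : ℝ) * (R * (R - 1)) ≤ R ^ 4 := by
      have h5 : (R : ℝ) * (R * (R - 1)) ≤ R * (R * R) :=
        mul_le_mul_of_nonneg_left (mul_le_mul_of_nonneg_left (by linarith only []) (by linarith only []))
          (by linarith only [hR3, hδ, hδc])
      have h6 : (R : ℝ) ^ 3 ≤ R ^ 4 := pow_le_pow_right₀ (by linarith only [hR3]) (by norm_num)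
      nlinarith only [h6]
    have h3 : η₁ * ((R : ℝ) * (R * (R - 1))) ≤ η₁ * R ^ 4 := mul_le_mul_of_nonneg_left h2 hη₁.le
    have h4 : 4096 * (R : ℝ) ^ 4 * η₁ ≤ 4096 * s ^ 2 * R ^ 4 * η₁ := by
      have h7 : 1 * ((R : ℝ) ^ 4 * η₁) ≤ s ^ 2 * (R ^ 4 * η₁) :=
        mul_le_mul_of_nonneg_right hpw1 (by positivity)
      nlinarith only [h7]
    have h8 : 256 * (η₁ * ((R : ℝ) * (R * (R - 1)))) ≤ 1 := by nlinarith only [hη', h3, h4]
    calc 4 * s * η₁ * R * (64 * (R * (R - 1)))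
        = s * (256 * (η₁ * ((R : ℝ) * (R * (R - 1))))) := by ring
      _ ≤ s * 1 := mul_le_mul_of_nonneg_left h8 (by linarith only [hs2, hδ, hδc])
      _ = s := mul_one s
  have hcoef0 : γ / 64 + 3 / 8 * γ * (1 + δ) + 4 * s * η₁ * R ≤ 7 / 16 * γ := by
    have h1 : γ * δ ≤ γ * (1 / 24) := mul_le_mul_of_nonneg_left hδc hγ0.le
    linarith only [hγ0, hη4, h1]
  have hcoef := mul_le_mul_of_nonneg_left hcoef0 (mul_nonneg hN0 hD0)
  have htot : P * (((emb J G (un B)).card : ℝ) - ρ) ≤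
      P * (∑ f ∈ tcl G B, lzG G J S R m θ ζ ρ κ₀ (im f)) - (1 - ε₇) * (N / m) * X := by
    have h1 : P * (((emb J G (un B)).card : ℝ) - ρ) ≤ P * (E - ρ) - N * (7 / 16 * γ) * D := by
      have h2 := mul_le_mul_of_nonneg_left hemb hPpos.le
      have h3 : P * (E - N * (7 / 16 * γ) * D / P) =
          P * E - N * (7 / 16 * γ) * D := by
        field_simp
      rw [h3] at h2
      linarith only [h2]
    have h4 : N * D * (γ / 64 + 3 / 8 * γ * (1 + δ) + 4 * s * η₁ * R) =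
        (1 / 2 * D) * (N * (γ / 32)) +
          N * D * (3 / 8 * γ * (1 + δ) + 4 * s * η₁ * R) := by ring
    rw [h4] at hcoef
    have h5 : N * D * (7 / 16 * γ) = N * (7 / 16 * γ) * D := by ring
    rw [h5] at hcoef
    have h6 : (P - ((tcl G B).card : ℝ)) * (E - ρ) =
        P * (E - ρ) - ((tcl G B).card : ℝ) * (E - ρ) := by ring
    rw [h6] at hdiff
    linarith only [hdiff, hsum, hcost, hcoef, h1]
  have hfin : ∑ f ∈ tcl G B, lzG G J S R m θ ζ ρ κ₀ (im f) -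
      (1 - ε₇) * N * X / (m * P) =
      (P * (∑ f ∈ tcl G B, lzG G J S R m θ ζ ρ κ₀ (im f)) -
        (1 - ε₇) * (N / m) * X) / P := by
    field_simp
  rw [hfin, le_div_iff₀ hPpos]
  calc _ = P * (((emb J G (un B)).card : ℝ) - ρ) := by ring
    _ ≤ _ := htot

end H57GH
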