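import Pool.Agent.H57.GH.ExH

/-!
Project GH, part Neg: copies under injective homomorphisms, achievable pairs, the limit.
-/

namespace H57GH

open Finset Filter H57E32

variable {V V' W : Type*}

/-- the subgraphs isomorphic to `H` -/
def cps (H : SimpleGraph W) (G : SimpleGraph V) : Set G.Subgraph :=
  {G' | Nonempty (H ≃g G'.coe)}

lemma copyCount_eq_ncard [Fintype V] (H : SimpleGraph W) (G : SimpleGraph V) :
    G.copyCount H = (cps H G).ncard := by
  classical
  rw [SimpleGraph.copyCount, ← Set.ncard_coe_finset]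
  congr 1
  ext G'
  simp [cps]

lemma map_injective {G : SimpleGraph V} {G₂ : SimpleGraph V'} (f : SimpleGraph.Copy G G₂) :
    Function.Injective (fun A : G.Subgraph => A.map f.toHom) := by
  intro A B h
  have hf : Function.Injective f.toHom := f.injective'
  have hv : (A.map f.toHom).verts = (B.map f.toHom).verts := by rw [show A.map f.toHom = B.map f.toHom from h]
  have ha : (A.map f.toHom).Adj = (B.map f.toHom).Adj := by rw [show A.map f.toHom = B.map f.toHom from h]
  ext x y
  · rw [SimpleGraph.Subgraph.map_verts, SimpleGraph.Subgraph.map_verts] at hv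
    have := (Set.image_injective.mpr hf) hv
    rw [this]
  · have h1 := congrFun (congrFun ha (f.toHom x)) (f.toHom y)
    simp only [SimpleGraph.Subgraph.map_adj, Relation.map_apply, eq_iff_iff] at h1
    constructor
    · intro hxy
      obtain ⟨a, b, hab, h2, h3⟩ := h1.mp ⟨x, y, hxy, rfl, rfl⟩
      rw [hf h2, hf h3] at hab
      exact hab
    · intro hxy
      obtain ⟨a, b, hab, h2, h3⟩ := h1.mpr ⟨x, y, hxy, rfl, rfl⟩
      rw [hf h2, hf h3] at hab
      exact hab

/-- the image of the copies of `H` under an injective homomorphism -/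
def img (H : SimpleGraph W) {G : SimpleGraph V} {G₂ : SimpleGraph V'}
    (f : SimpleGraph.Copy G G₂) : Set G₂.Subgraph :=
  (fun A : G.Subgraph => A.map f.toHom) '' cps H G

lemma img_subset (H : SimpleGraph W) {G : SimpleGraph V} {G₂ : SimpleGraph V'}
    (f : SimpleGraph.Copy G G₂) : img H f ⊆ cps H G₂ := by
  rintro _ ⟨A, ⟨e⟩, rfl⟩
  exact ⟨e.trans (f.isoSubgraphMap A)⟩

lemma img_verts (H : SimpleGraph W) {G : SimpleGraph V} {G₂ : SimpleGraph V'}
    (f : SimpleGraph.Copy G G₂) {B : G₂.Subgraph} (hB : B ∈ img H f) :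
    B.verts ⊆ Set.range f := by
  obtain ⟨A, _, rfl⟩ := hB
  change (A.map f.toHom).verts ⊆ _
  rw [SimpleGraph.Subgraph.map_verts]
  rintro _ ⟨x, _, rfl⟩
  exact ⟨x, rfl⟩

lemma img_ncard [Fintype V] (H : SimpleGraph W) {G : SimpleGraph V} {G₂ : SimpleGraph V'}
    (f : SimpleGraph.Copy G G₂) : (img H f).ncard = G.copyCount H := by
  unfold img
  rw [Set.ncard_image_of_injective _ (map_injective f), copyCount_eq_ncard]

lemma verts_ncard [Fintype W] {H : SimpleGraph W} {G : SimpleGraph V} {B : G.Subgraph}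
    (hB : B ∈ cps H G) : B.verts.ncard = Fintype.card W := by
  obtain ⟨e⟩ := hB
  rw [← Nat.card_coe_set_eq, ← Nat.card_congr e.toEquiv, Nat.card_eq_fintype_card]

/-- images of copies with small intersection are disjoint -/
lemma img_disjoint [Finite V'] [Fintype W] (H : SimpleGraph W) {V₁ V₂ : Type*}
    {G₁ : SimpleGraph V₁} {G₂ : SimpleGraph V₂}
    {G : SimpleGraph V'} (f : SimpleGraph.Copy G₁ G) (g : SimpleGraph.Copy G₂ G)
    (h : (Set.range f ∩ Set.range g).ncard < Fintype.card W) : Disjoint (img H f) (img H g) := by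
  rw [Set.disjoint_left]
  intro B hB hB'
  have h1 := verts_ncard (img_subset H f hB)
  have h2 : B.verts ⊆ Set.range f ∩ Set.range g :=
    Set.subset_inter (img_verts H f hB) (img_verts H g hB')
  have h3 := Set.ncard_le_ncard h2 (Set.toFinite _)
  omega

/-- a family of copies of `L` with small intersections, and one more copy of `H` -/
lemma copies_family [Fintype V] [Fintype V'] [Fintype W] (H : SimpleGraph W)
    {L : SimpleGraph V} {G : SimpleGraph V'} {ι : Type*} (s : Finset ι)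
    (f : ι → SimpleGraph.Copy L G)
    (hf : ∀ i ∈ s, ∀ j ∈ s, i ≠ j → (Set.range (f i) ∩ Set.range (f j)).ncard < Fintype.card W)
    (B : G.Subgraph) (hB : B ∈ cps H G) (hB' : ∀ i ∈ s, ¬ B.verts ⊆ Set.range (f i)) :
    s.card * L.copyCount H + 1 ≤ G.copyCount H := by
  classical
  have key : (⋃ i ∈ s, img H (f i)).ncard = s.card * L.copyCount H := by
    clear hB'
    induction s using Finset.induction_on with
    | empty => simp
    | insert a s ha ih =>
      rw [Finset.set_biUnion_insert, Set.ncard_union_eq]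
      · rw [img_ncard, ih (fun i hi j hj hij => hf i (mem_insert_of_mem hi) j
          (mem_insert_of_mem hj) hij), card_insert_of_notMem ha]
        ring
      · rw [Set.disjoint_iUnion₂_right]
        intro i hi
        exact img_disjoint H _ _ (hf a (mem_insert_self a s) i (mem_insert_of_mem hi)
          (fun h => ha (h ▸ hi)))
  have h1 : insert B (⋃ i ∈ s, img H (f i)) ⊆ cps H G := by
    intro A hA
    rcases hA with rfl | hA
    · exact hB
    · rw [Set.mem_iUnion₂] at hA
      obtain ⟨i, _, hA⟩ := hA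
      exact img_subset H _ hA
  have h2 := Set.ncard_le_ncard h1 (Set.toFinite _)
  rw [Set.ncard_insert_of_notMem, key, ← copyCount_eq_ncard] at h2
  · exact h2
  · intro h
    rw [Set.mem_iUnion₂] at h
    obtain ⟨i, hi, hA⟩ := h
    exact hB' i hi (img_verts H _ hA)

lemma copyCount_mono [Fintype V] [Fintype V'] (H : SimpleGraph W) {G : SimpleGraph V}
    {G₂ : SimpleGraph V'} (f : SimpleGraph.Copy G G₂) : G.copyCount H ≤ G₂.copyCount H := by
  rw [← img_ncard H f, copyCount_eq_ncard]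
  exact Set.ncard_le_ncard (img_subset H f) (Set.toFinite _)

lemma copyCount_sum [Fintype V] [Fintype V'] [Fintype W] (H : SimpleGraph W)
    (hW : 0 < Fintype.card W) (G : SimpleGraph V) (G₂ : SimpleGraph V') :
    G.copyCount H + G₂.copyCount H ≤ (G ⊕g G₂).copyCount H := by
  let f : SimpleGraph.Copy G (G ⊕g G₂) :=
    ⟨⟨Sum.inl, fun {a b} h => by simpa using h⟩, Sum.inl_injective⟩
  let g : SimpleGraph.Copy G₂ (G ⊕g G₂) :=
    ⟨⟨Sum.inr, fun {a b} h => by simpa using h⟩, Sum.inr_injective⟩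
  have hd : Disjoint (img H f) (img H g) := by
    apply img_disjoint
    have : Set.range f ∩ Set.range g = ∅ := by
      rw [Set.eq_empty_iff_forall_notMem]
      rintro x ⟨⟨a, ha⟩, ⟨b, hb⟩⟩
      have h1 : (Sum.inl a : V ⊕ V') = x := ha
      have h2 : (Sum.inr b : V ⊕ V') = x := hb
      rw [← h2] at h1
      exact absurd h1 Sum.inl_ne_inr
    rw [this, Set.ncard_empty]
    exact hW
  have h1 := Set.ncard_union_eq hd (Set.toFinite _) (Set.toFinite _)
  rw [img_ncard, img_ncard] at h1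
  rw [← h1, copyCount_eq_ncard]
  exact Set.ncard_le_ncard (Set.union_subset (img_subset H f) (img_subset H g)) (Set.toFinite _)

/-- achievable pairs, lower bounds for the number of copies -/
def AchH [Fintype W] (H : SimpleGraph W) (u Δ ω p N : ℕ) : Prop :=
  ∃ (m : ℕ) (G : SimpleGraph (Fin m)), Allowed u Δ ω G ∧ kc u G = p ∧ N ≤ G.copyCount H

lemma achH_of [Fintype V] [Fintype W] (H : SimpleGraph W) {u Δ ω : ℕ} (G : SimpleGraph V)
    (h : Allowed u Δ ω G) : AchH H u Δ ω (kc u G) (G.copyCount H) := by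
  obtain ⟨m, ⟨e⟩⟩ := Finite.exists_equiv_fin V
  have hiso := SimpleGraph.Iso.map e G
  refine ⟨m, G.map e, ?_, kc_map e u, copyCount_mono H hiso.toCopy⟩
  unfold Allowed at h ⊢
  exact ⟨(SimpleGraph.free_congr_right hiso).mp h.1, (SimpleGraph.free_congr_right hiso).mp h.2⟩

lemma AchH.add [Fintype W] {H : SimpleGraph W} {u Δ ω p N p' N' : ℕ} (hu : 1 ≤ u)
    (hW : 0 < Fintype.card W) (h : AchH H u Δ ω p N) (h' : AchH H u Δ ω p' N') :
    AchH H u Δ ω (p + p') (N + N') := by
  obtain ⟨m, G, hG, hp, hN⟩ := h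
  obtain ⟨m', G', hG', hp', hN'⟩ := h'
  obtain ⟨n, G₂, h1, h2, h3⟩ := achH_of H (G ⊕g G') (allowed_sum hu hG hG')
  rw [kc_sum hu, hp, hp'] at h2
  exact ⟨n, G₂, h1, h2, (Nat.add_le_add hN hN').trans ((copyCount_sum H hW G G').trans h3)⟩

lemma AchH.zero [Fintype W] {H : SimpleGraph W} {u Δ ω : ℕ} (hu : 1 ≤ u) :
    AchH H u Δ ω 0 0 := by
  obtain ⟨m, G, h1, h2, _⟩ := Ach.zero (u := u) (t := 1) (Δ := Δ) (ω := ω) hu le_rfl
  exact ⟨m, G, h1, h2, Nat.zero_le _⟩

lemma AchH.one [Fintype W] {H : SimpleGraph W} {u Δ ω : ℕ} (hω : u ≤ ω) :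
    AchH H u Δ ω 1 0 := by
  obtain ⟨m, G, h1, h2, _⟩ := Ach.one (u := u) (t := u + 1) (Δ := Δ) (ω := ω) hω (Nat.lt_succ_self u)
  exact ⟨m, G, h1, h2, Nat.zero_le _⟩

lemma AchH.mul [Fintype W] {H : SimpleGraph W} {u Δ ω p N : ℕ} (hu : 1 ≤ u)
    (hW : 0 < Fintype.card W) (h : AchH H u Δ ω p N) (q : ℕ) :
    AchH H u Δ ω (q * p) (q * N) := by
  induction q with
  | zero => simpa using AchH.zero hu
  | succ q ih =>
    rw [Nat.succ_mul, Nat.succ_mul]
    exact ih.add hu hW h

lemma AchH.div [Fintype W] {H : SimpleGraph W} {u Δ ω p0 N0 : ℕ} (hu : 1 ≤ u) (hω : u ≤ ω)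
    (hW : 0 < Fintype.card W) (h : AchH H u Δ ω p0 N0) (p : ℕ) :
    AchH H u Δ ω p ((p / p0) * N0) := by
  have h1 := (h.mul hu hW (p / p0)).add hu hW ((AchH.one (H := H) (Δ := Δ) hω).mul hu hW (p % p0))
  rw [mul_one, mul_zero, add_zero, mul_comm (p / p0) p0, Nat.div_add_mod] at h1
  exact h1

/-- if every vertex of `H` is in a `u`-clique then the number of copies of `H` is bounded in terms
of the number of `u`-cliques -/
lemma copyCount_le [Fintype V] [Fintype W] (H : SimpleGraph W) (G : SimpleGraph V) {u : ℕ}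
    (hcl : ∀ x : W, ∃ A : Finset W, x ∈ A ∧ H.IsNClique u A) :
    G.copyCount H ≤ (kc u G * u) ^ Fintype.card W := by
  classical
  set Z : Finset V := (G.cliqueFinset u).biUnion _root_.id with hZ
  have hZc : Z.card ≤ kc u G * u := by
    rw [kc_eq]
    refine card_biUnion_le_card_mul _ _ _ (fun A hA => ?_)
    rw [SimpleGraph.mem_cliqueFinset_iff] at hA
    exact hA.card_eq.le
  refine SimpleGraph.copyCount_le_labelledCopyCount.trans ?_
  have hmem : ∀ (f : SimpleGraph.Copy H G) (x : W), f x ∈ Z := by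
    intro f x
    obtain ⟨A, hxA, hA⟩ := hcl x
    rw [hZ, mem_biUnion]
    refine ⟨A.image f, ?_, mem_image_of_mem f hxA⟩
    rw [SimpleGraph.mem_cliqueFinset_iff, SimpleGraph.isNClique_iff]
    constructor
    · intro a ha b hb hab
      rw [mem_coe, mem_image] at ha hb
      obtain ⟨a, ha, rfl⟩ := ha
      obtain ⟨b, hb, rfl⟩ := hb
      exact f.toHom.map_adj (hA.1 ha hb (fun h => hab (by rw [h])))
    · rw [card_image_of_injective _ (show Function.Injective f from f.injective'), hA.card_eq]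
  unfold SimpleGraph.labelledCopyCount
  have h1 : Fintype.card (SimpleGraph.Copy H G) ≤ Fintype.card (W → Z) := by
    refine Fintype.card_le_of_injective
      (fun (f : SimpleGraph.Copy H G) (x : W) => (⟨f x, hmem f x⟩ : Z)) ?_
    intro f g hfg
    ext x
    have := congrFun hfg x
    exact congrArg Subtype.val this
  refine (le_of_eq ?_).trans (h1.trans ?_)
  · congr!
  · rw [Fintype.card_fun, Fintype.card_coe]
    exact Nat.pow_le_pow_left hZc _

lemma le_exH [Fintype W] {H : SimpleGraph W} {u Δ ω p N : ℕ}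
    (hcl : ∀ x : W, ∃ A : Finset W, x ∈ A ∧ H.IsNClique u A) (h : AchH H u Δ ω p N) :
    N ≤ exH H u Δ ω p := by
  obtain ⟨m, G, hG, hp, hN⟩ := h
  have hbdd : BddAbove {N : ℕ | ∃ (n : ℕ) (G : SimpleGraph (Fin n)), Allowed u Δ ω G ∧
      kc u G = p ∧ G.copyCount H = N} := by
    refine ⟨(p * u) ^ Fintype.card W, ?_⟩
    rintro N ⟨n, G', _, hp', rfl⟩
    rw [← hp']
    exact copyCount_le H G' hcl
  exact hN.trans (le_csSup hbdd ⟨m, G, hG, hp, rfl⟩)

/-- an allowed graph with a larger density gives a lower bound for all large `p` -/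
theorem exH_of_graph [Fintype V] [Fintype W] {H : SimpleGraph W} {u Δ ω : ℕ} (hu : 1 ≤ u)
    (hω : u ≤ ω) (hW : 0 < Fintype.card W)
    (hcl : ∀ x : W, ∃ A : Finset W, x ∈ A ∧ H.IsNClique u A) (G : SimpleGraph V)
    (hG : Allowed u Δ ω G) {ρ : ℝ} (hρ : ρ * kc u G < G.copyCount H) :
    ∃ c : ℝ, ρ < c ∧ ∀ᶠ p : ℕ in atTop, c * p ≤ exH H u Δ ω p := by
  have hk : 0 < kc u G := by
    by_contra h
    have h0 : kc u G = 0 := by omega
    have h1 := copyCount_le H G hcl
    rw [h0, zero_mul, zero_pow hW.ne'] at h1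
    have h2 : G.copyCount H = 0 := by omega
    rw [h0, h2] at hρ
    simp at hρ
  have hk' : (0 : ℝ) < kc u G := by exact_mod_cast hk
  set N : ℝ := (G.copyCount H : ℝ) with hN
  set K : ℝ := (kc u G : ℝ) with hK
  have h1 : ρ < N / K := by rwa [lt_div_iff₀ hk']
  refine ⟨(ρ + N / K) / 2, by linarith, ?_⟩
  have hδ : 0 < (N / K - ρ) / 2 := by linarith
  have hN0 : 0 ≤ N := Nat.cast_nonneg _
  obtain ⟨p₀, hp₀⟩ := exists_nat_gt (N / ((N / K - ρ) / 2))
  filter_upwards [eventually_ge_atTop p₀] with p hp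
  have h2 : N ≤ (N / K - ρ) / 2 * p := by
    rw [div_lt_iff₀ hδ] at hp₀
    have : (p₀ : ℝ) ≤ p := by exact_mod_cast hp
    nlinarith
  have h3 := le_exH hcl ((achH_of H G hG).div hu hω hW p)
  have h4 : ((p / kc u G : ℕ) : ℝ) * N ≤ (exH H u Δ ω p : ℝ) := by
    rw [hN]
    exact_mod_cast h3
  have h5 : (p : ℝ) < ((p / kc u G : ℕ) + 1) * K := by
    have h6 := Nat.lt_div_mul_add (a := p) hk
    have h7 : p < (p / kc u G + 1) * kc u G := by rw [add_mul, one_mul]; exact h6
    rw [hK]
    exact_mod_cast h7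
  have h8 : N / K * p ≤ (((p / kc u G : ℕ) : ℝ) + 1) * N := by
    rw [div_mul_eq_mul_div, div_le_iff₀ hk']
    calc N * p ≤ N * ((((p / kc u G : ℕ) : ℝ) + 1) * K) := mul_le_mul_of_nonneg_left h5.le hN0
      _ = (((p / kc u G : ℕ) : ℝ) + 1) * N * K := by ring
  linarith

end H57GH
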