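import Pool.Agent.H57.GH.Bal
import Pool.Agent.H57.GH.HvP
import Pool.Agent.H57.GH.Thru

/-!
Copies of `J` through a heavy vertex.
-/

namespace H57GH

open Finset H57LC H57LT

set_option linter.unusedSectionVars false

variable {ι : Type*} [Fintype ι] [DecidableEq ι] (J : SimpleGraph ι) [DecidableRel J.Adj]

theorem MedB_pi {W : Type*} [DecidableEq W] (S X : Finset W) (z : W) {v w : ι} (hvw : v ≠ w) :
    ((Fintype.piFinset fun _ : ι => S).filter fun φ => φ v = z ∧ φ w ∈ X).card ≤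
      X.card * S.card ^ (Fintype.card ι - 2) := by
  classical
  have hsub : ((Fintype.piFinset fun _ : ι => S).filter fun φ => φ v = z ∧ φ w ∈ X) ⊆
      Fintype.piFinset (fun i : ι => if i = v then {z} else if i = w then X else S) := by
    intro φ hφ
    rw [mem_filter, Fintype.mem_piFinset] at hφ
    rw [Fintype.mem_piFinset]
    intro i
    by_cases hi : i = v
    · rw [if_pos hi, mem_singleton, hi]
      exact hφ.2.1
    · rw [if_neg hi]
      by_cases hi' : i = w
      · rw [if_pos hi', hi']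
        exact hφ.2.2
      · rw [if_neg hi']
        exact hφ.1 i
  refine (card_le_card hsub).trans ?_
  rw [Fintype.card_piFinset]
  have hw : w ∈ (univ : Finset ι).erase v := mem_erase.2 ⟨hvw.symm, mem_univ w⟩
  rw [← mul_prod_erase univ _ (mem_univ v), ← mul_prod_erase ((univ : Finset ι).erase v) _ hw]
  rw [if_pos rfl, card_singleton, one_mul, if_neg hvw.symm, if_pos rfl]
  have h1 : ∏ x ∈ (univ.erase v).erase w,
      (if x = v then ({z} : Finset W) else if x = w then X else S).card =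
      ∏ _x ∈ ((univ : Finset ι).erase v).erase w, S.card := by
    refine prod_congr rfl fun x hx => ?_
    rw [mem_erase, mem_erase] at hx
    rw [if_neg hx.2.1, if_neg hx.1]
  rw [h1, prod_const, card_erase_of_mem hw, card_erase_of_mem (mem_univ v), card_univ, Nat.sub_sub]

theorem MedB_one {W : Type*} [DecidableEq W] (S X : Finset W) (v : ι) :
    ((Fintype.piFinset fun _ : ι => S).filter fun φ => φ v ∈ X).card ≤
      X.card * S.card ^ (Fintype.card ι - 1) := by
  classical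
  have hsub : ((Fintype.piFinset fun _ : ι => S).filter fun φ => φ v ∈ X) ⊆
      Fintype.piFinset (fun i : ι => if i = v then X else S) := by
    intro φ hφ
    rw [mem_filter, Fintype.mem_piFinset] at hφ
    rw [Fintype.mem_piFinset]
    intro i
    by_cases hi : i = v
    · rw [if_pos hi, hi]
      exact hφ.2
    · rw [if_neg hi]
      exact hφ.1 i
  refine (card_le_card hsub).trans ?_
  rw [Fintype.card_piFinset]
  rw [← mul_prod_erase univ _ (mem_univ v)]
  rw [if_pos rfl]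
  have h1 : ∏ x ∈ univ.erase v, (if x = v then X else S).card =
      ∏ _x ∈ (univ : Finset ι).erase v, S.card := by
    refine prod_congr rfl fun x hx => ?_
    rw [mem_erase] at hx
    rw [if_neg hx.1]
  rw [h1, prod_const, card_erase_of_mem (mem_univ v), card_univ]

theorem MedB_card_pts (R b : ℕ) :
    (pts (univ : Finset (Fin R)) (fun _ => b)).card = R * b := by
  unfold pts
  rw [card_sigma]
  simp

/-- growth of `M0` -/
theorem MedB_M0 (R m b : ℕ) (hmb : m ≤ b) :
    M0 J R b ≤ M0 J R m + Fintype.card ι * (R * ((b : ℝ) - m)) *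
      ((R : ℝ) * b) ^ (Fintype.card ι - 1) := by
  classical
  have hsubp : pts (univ : Finset (Fin R)) (fun _ => m) ⊆ pts univ (fun _ => b) := by
    unfold pts
    refine sigma_mono (Subset.refl _) fun i => ?_
    exact range_subset_range.2 hmb
  have hsub : cm J (pts (univ : Finset (Fin R)) (fun _ => b)) Sigma.fst ⊆
      cm J (pts (univ : Finset (Fin R)) (fun _ => m)) Sigma.fst ∪
      univ.biUnion (fun v : ι => (Fintype.piFinset fun _ : ι =>
        pts (univ : Finset (Fin R)) (fun _ => b)).filter fun φ =>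
          φ v ∈ pts (univ : Finset (Fin R)) (fun _ => b) \
            pts (univ : Finset (Fin R)) (fun _ => m)) := by
    intro φ hφ
    unfold cm at hφ ⊢
    rw [mem_filter, Fintype.mem_piFinset] at hφ
    rw [mem_union, mem_filter, Fintype.mem_piFinset, mem_biUnion]
    by_cases h : ∀ i, φ i ∈ pts (univ : Finset (Fin R)) (fun _ => m)
    · exact Or.inl ⟨h, hφ.2⟩
    · push Not at h
      obtain ⟨v, hv⟩ := h
      refine Or.inr ⟨v, mem_univ v, ?_⟩
      rw [mem_filter, Fintype.mem_piFinset, mem_sdiff]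
      exact ⟨hφ.1, hφ.1 v, hv⟩
  have hcard : (pts (univ : Finset (Fin R)) (fun _ => b) \
            pts (univ : Finset (Fin R)) (fun _ => m)).card = R * b - R * m := by
    rw [card_sdiff_of_subset hsubp, MedB_card_pts, MedB_card_pts]
  have h1 : (cm J (pts (univ : Finset (Fin R)) (fun _ => b)) Sigma.fst).card ≤
      (cm J (pts (univ : Finset (Fin R)) (fun _ => m)) Sigma.fst).card +
        Fintype.card ι * ((R * b - R * m) * (R * b) ^ (Fintype.card ι - 1)) := by
    refine (card_le_card hsub).trans ((card_union_le _ _).trans ?_)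
    refine Nat.add_le_add_left ?_ _
    refine card_biUnion_le.trans ?_
    rw [← card_univ (α := ι), ← smul_eq_mul, ← sum_const]
    refine sum_le_sum fun v _ => ?_
    have := MedB_one (ι := ι) (pts (univ : Finset (Fin R)) (fun _ => b))
      (pts (univ : Finset (Fin R)) (fun _ => b) \ pts (univ : Finset (Fin R)) (fun _ => m)) v
    rw [hcard, MedB_card_pts] at this
    rw [card_univ]
    exact this
  unfold M0 fJ
  have h2 : R * m ≤ R * b := Nat.mul_le_mul_left R hmb
  have h3 := (Nat.cast_le (α := ℝ)).2 h1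
  push_cast [Nat.cast_sub h2] at h3
  refine h3.trans (le_of_eq ?_)
  ring

theorem MedB_idx {V : Type*} [DecidableEq V] (B : Finset V) :
    ∃ g : V → ℕ, (∀ x ∈ B, ∀ y ∈ B, g x = g y → x = y) ∧ ∀ x ∈ B, g x < B.card := by
  classical
  refine ⟨fun x => if h : x ∈ B then (B.equivFin ⟨x, h⟩).val else 0, ?_, ?_⟩
  · intro x hx y hy hxy
    simp only [dif_pos hx, dif_pos hy] at hxy
    have := B.equivFin.injective (Fin.ext hxy)
    exact congrArg Subtype.val this
  · intro x hx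
    simp only [dif_pos hx]
    exact (B.equivFin ⟨x, hx⟩).isLt

theorem MedB_pair {V : Type*} [DecidableEq V] {R b : ℕ}
    (B : Fin R → Finset V) (hdisj : ∀ i j, i ≠ j → Disjoint (B i) (B j))
    (hb : ∀ i, (B i).card < b) {z : V} (hz : z ∉ un B) (i₀ : Fin R) {v v' : ι} (hv : J.Adj v v')
    {y : V} (hy : y ∈ un B) (hyi : y ∉ B i₀) (F : Finset (ι → V))
    (hF : ∀ φ ∈ F, φ v = z ∧ φ v' = y ∧ Function.Injective φ ∧ (∀ w, w ≠ v → φ w ∈ un B) ∧
      (∀ w w', J.Adj w w' → w ≠ v → w' ≠ v → ∀ i, φ w ∈ B i → φ w' ∉ B i) ∧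
      (∀ w, J.Adj v w → φ w ∉ B i₀)) :
    (F.card : ℝ) * ((R : ℝ) * (R - 1) * (b : ℝ) ^ 2) ≤ M0 J R b := by
  classical
  choose g hg1 hg2 using fun i : Fin R => MedB_idx (B i)
  obtain ⟨cl, hcl, hclz⟩ : ∃ cl : V → Fin R, (∀ x i, x ∈ B i → cl x = i) ∧ cl z = i₀ := by
    refine ⟨fun x => if h : ∃ i, x ∈ B i then h.choose else i₀, ?_, ?_⟩
    · intro x i hx
      have h : ∃ i, x ∈ B i := ⟨i, hx⟩
      simp only [dif_pos h]
      by_contra hne
      exact (disjoint_left.1 (hdisj _ _ hne)) h.choose_spec hx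
    · have h : ¬ ∃ i, z ∈ B i := fun h => hz (mem_un.2 h)
      simp only [dif_neg h]
  have hclB : ∀ x, x ∈ un B → x ∈ B (cl x) := by
    intro x hx
    obtain ⟨i, hi⟩ := mem_un.1 hx
    rw [hcl x i hi]
    exact hi
  have hne : ∀ x, x ∈ un B → x ≠ z := fun x hx h => hz (h ▸ hx)
  obtain ⟨ix, hixz, hix⟩ : ∃ ix : V → ℕ, ix z = b - 1 ∧ ∀ x, x ≠ z → ix x = g (cl x) x :=
    ⟨fun x => if x = z then b - 1 else g (cl x) x, by simp, fun x hx => by simp [hx]⟩
  have hb0 : 0 < b := lt_of_le_of_lt (Nat.zero_le _) (hb i₀)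
  let e : V → Σ _ : Fin R, ℕ := fun x => ⟨cl x, ix x⟩
  have he : ∀ x ∈ insert z (un B), e x ∈ pts (univ : Finset (Fin R)) (fun _ => b) := by
    intro x hx
    unfold pts
    rw [mem_sigma]
    refine ⟨mem_univ _, ?_⟩
    rw [mem_range]
    show ix x < b
    rcases mem_insert.1 hx with h | h
    · rw [h, hixz]; omega
    · rw [hix x (hne x h)]
      exact (hg2 _ x (hclB x h)).trans (hb _)
  have hinj : Set.InjOn e (insert z (un B) : Finset V) := by
    intro x hx x' hx' hxx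
    have h1 : cl x = cl x' := congrArg Sigma.fst hxx
    have h2 : ix x = ix x' := congrArg (fun p : Σ _ : Fin R, ℕ => p.2) hxx
    rcases mem_insert.1 (mem_coe.1 hx) with h | h <;>
      rcases mem_insert.1 (mem_coe.1 hx') with h' | h'
    · rw [h, h']
    · exfalso
      rw [h, hixz, hix x' (hne x' h')] at h2
      have := hg2 _ x' (hclB x' h')
      have := hb (cl x')
      omega
    · exfalso
      rw [h', hixz, hix x (hne x h)] at h2
      have := hg2 _ x (hclB x h)
      have := hb (cl x)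
      omega
    · rw [hix x (hne x h), hix x' (hne x' h'), ← h1] at h2
      have h3 := hclB x' h'
      rw [← h1] at h3
      exact hg1 _ x (hclB x h) x' h3 h2
  have hπ : ∀ x ∈ insert z (un B), ∀ x' ∈ insert z (un B), cl x ≠ cl x' →
      Sigma.fst (e x) ≠ Sigma.fst (e x') := fun x _ x' _ h => h
  have hsub : F ⊆ (cm J (insert z (un B)) cl).filter fun φ => φ v = z ∧ φ v' = y := by
    intro φ hφ
    obtain ⟨h1, h2, h3, h4, h5, h6⟩ := hF φ hφ
    rw [mem_filter]
    refine ⟨?_, h1, h2⟩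
    unfold cm
    rw [mem_filter, Fintype.mem_piFinset]
    refine ⟨?_, h3, ?_⟩
    · intro w
      by_cases hw : w = v
      · rw [hw, h1]; exact mem_insert_self _ _
      · exact mem_insert_of_mem (h4 w hw)
    · intro w w' hww
      by_cases hw : w = v
      · have hw' : w' ≠ v := fun h => by
          rw [hw, h] at hww
          exact J.loopless.irrefl _ hww
        rw [hw] at hww ⊢
        rw [h1, hclz]
        intro h
        apply h6 w' hww
        rw [h]
        exact hclB _ (h4 w' hw')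
      · by_cases hw' : w' = v
        · rw [hw'] at hww ⊢
          rw [h1, hclz]
          intro h
          apply h6 w hww.symm
          rw [← h]
          exact hclB _ (h4 w hw)
        · intro h
          refine h5 w w' hww hw hw' (cl (φ w)) (hclB _ (h4 w hw)) ?_
          rw [h]
          exact hclB _ (h4 w' hw')
  have hcard := cm_card_le' J (P := insert z (un B)) (P' := pts (univ : Finset (Fin R)) (fun _ => b))
    (π := cl) (π' := Sigma.fst) e he hinj hπ (fun φ => φ v = z ∧ φ v' = y)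
    (fun ψ => ψ v = e z ∧ ψ v' = e y) (fun φ _ h =>
      ⟨congrArg e h.1, congrArg e h.2⟩)
  have hle := (card_le_card hsub).trans hcard
  have hpz : e z ∈ pts (univ : Finset (Fin R)) (fun _ => b) := he z (mem_insert_self _ _)
  have hpy : e y ∈ pts (univ : Finset (Fin R)) (fun _ => b) := he y (mem_insert_of_mem hy)
  have hpq : (e z).1 ≠ (e y).1 := by
    show cl z ≠ cl y
    rw [hclz]
    intro h
    exact hyi (by rw [h]; exact hclB y hy)
  have hfp := fJ_pair J (T := (univ : Finset (Fin R))) (R := R) (b := b)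
    (by rw [card_univ, Fintype.card_fin]) hv hpz hpy hpq
  unfold M0
  rw [← hfp]
  have hR1 : (1 : ℝ) ≤ R := by
    have : 0 < R := i₀.pos
    exact_mod_cast this
  refine mul_le_mul_of_nonneg_right (by exact_mod_cast hle) ?_
  have : (0 : ℝ) ≤ R - 1 := by linarith only [hR1]
  positivity

theorem MedB_v {V : Type*} [DecidableEq V] {G : SimpleGraph V} [DecidableRel G.Adj] {R m b : ℕ}
    {C η₁ δ : ℝ} {S : Finset V} {B : Fin R → Finset V} (hR : 3 ≤ R) (h : LS G S R m C η₁ δ B)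
    (hb : ∀ i, (B i).card < b) {z : V} (hz : z ∈ S \ un B) (i₀ : Fin R) {v v' : ι}
    (hv : J.Adj v v') :
    (((emb J G S).filter fun φ => φ v = z).card : ℝ) ≤
      Fintype.card ι * (((S \ un B).card : ℝ) + dg G (B i₀) z) *
        (S.card : ℝ) ^ (Fintype.card ι - 2) +
      (∑ i, (dg G (B i) z : ℝ)) * (M0 J R b / ((R : ℝ) * (R - 1) * (b : ℝ) ^ 2)) := by
  classical
  have hzB : z ∉ un B := (mem_sdiff.1 hz).2
  have hvne : v' ≠ v := fun h => by
    rw [h] at hv
    exact J.loopless.irrefl _ hv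
  obtain ⟨X, hXdef⟩ : ∃ X : Finset V, X = (S \ un B) ∪ (B i₀).filter (fun y => G.Adj z y) :=
    ⟨_, rfl⟩
  obtain ⟨Y, hYdef⟩ : ∃ Y : Finset V, Y = (un B \ B i₀).filter (fun y => G.Adj z y) := ⟨_, rfl⟩
  have hmemX : ∀ x, x ∈ X ↔ (x ∈ S ∧ x ∉ un B) ∨ (x ∈ B i₀ ∧ G.Adj z x) := by
    intro x
    rw [hXdef, mem_union, mem_sdiff, mem_filter]
  have hmemY : ∀ x, x ∈ Y ↔ (x ∈ un B ∧ x ∉ B i₀) ∧ G.Adj z x := by
    intro x
    rw [hYdef, mem_filter, mem_sdiff]
  have hXc : X.card ≤ (S \ un B).card + dg G (B i₀) z := by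
    rw [hXdef]
    exact card_union_le _ _
  have hYc : Y.card ≤ ∑ i, dg G (B i) z := by
    have hsub : Y ⊆ (univ : Finset (Fin R)).biUnion fun i => (B i).filter fun y => G.Adj z y := by
      intro x hx
      rw [hmemY] at hx
      obtain ⟨i, hi⟩ := mem_un.1 hx.1.1
      rw [mem_biUnion]
      exact ⟨i, mem_univ i, mem_filter.2 ⟨hi, hx.2⟩⟩
    exact (card_le_card hsub).trans card_biUnion_le
  have hsub : ((emb J G S).filter fun φ => φ v = z) ⊆
      (univ.erase v).biUnion (fun w => (Fintype.piFinset fun _ : ι => S).filter fun φ =>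
        φ v = z ∧ φ w ∈ X) ∪
      Y.biUnion (fun y => (emb J G S).filter fun φ => φ v = z ∧ φ v' = y ∧
        ∀ w, w ≠ v → φ w ∉ X) := by
    intro φ hφ
    rw [mem_filter] at hφ
    obtain ⟨hφe, hφz⟩ := hφ
    have hφe' := hφe
    unfold emb at hφe'
    rw [mem_filter, Fintype.mem_piFinset] at hφe'
    obtain ⟨hS, hinj, hadj⟩ := hφe'
    rw [mem_union, mem_biUnion, mem_biUnion]
    by_cases hX : ∃ w, w ≠ v ∧ φ w ∈ X
    · obtain ⟨w, hw, hwX⟩ := hX
      refine Or.inl ⟨w, mem_erase.2 ⟨hw, mem_univ w⟩, ?_⟩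
      rw [mem_filter, Fintype.mem_piFinset]
      exact ⟨hS, hφz, hwX⟩
    · push Not at hX
      have hzv : G.Adj z (φ v') := by
        rw [← hφz]
        exact hadj v v' hv
      have h1 := hX v' hvne
      rw [hmemX] at h1
      push Not at h1
      refine Or.inr ⟨φ v', ?_, ?_⟩
      · rw [hmemY]
        exact ⟨⟨h1.1 (hS v'), fun h2 => h1.2 h2 hzv⟩, hzv⟩
      · rw [mem_filter]
        exact ⟨hφe, hφz, rfl, hX⟩
  have hF1 : ((univ.erase v).biUnion (fun w => (Fintype.piFinset fun _ : ι => S).filter fun φ =>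
        φ v = z ∧ φ w ∈ X)).card ≤
      Fintype.card ι * (X.card * S.card ^ (Fintype.card ι - 2)) := by
    refine card_biUnion_le.trans ?_
    refine (sum_le_card_nsmul _ _ (X.card * S.card ^ (Fintype.card ι - 2)) ?_).trans ?_
    · intro w hw
      exact MedB_pi S X z (mem_erase.1 hw).1.symm
    · rw [smul_eq_mul]
      refine Nat.mul_le_mul_right _ ?_
      exact card_le_univ _
  have hRpos : (0 : ℝ) < (R : ℝ) * (R - 1) * (b : ℝ) ^ 2 := by
    have h3 : (3 : ℝ) ≤ R := by exact_mod_cast hR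
    have hb0 : (0 : ℝ) < b := by
      have : 0 < b := lt_of_le_of_lt (Nat.zero_le _) (hb i₀)
      exact_mod_cast this
    have : (0 : ℝ) < R - 1 := by linarith
    positivity
  have hF2 : ∀ y ∈ Y, (((emb J G S).filter fun φ => φ v = z ∧ φ v' = y ∧
        ∀ w, w ≠ v → φ w ∉ X).card : ℝ) ≤ M0 J R b / ((R : ℝ) * (R - 1) * (b : ℝ) ^ 2) := by
    intro y hy
    rw [hmemY] at hy
    rw [le_div_iff₀ hRpos]
    refine MedB_pair J B h.disj hb hzB i₀ hv hy.1.1 hy.1.2 _ ?_
    intro φ hφ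
    rw [mem_filter] at hφ
    obtain ⟨hφe, hφz, hφy, hφX⟩ := hφ
    unfold emb at hφe
    rw [mem_filter, Fintype.mem_piFinset] at hφe
    obtain ⟨hS, hinj, hadj⟩ := hφe
    have hun : ∀ w, w ≠ v → φ w ∈ un B := by
      intro w hw
      have h1 := hφX w hw
      rw [hmemX] at h1
      push Not at h1
      exact h1.1 (hS w)
    refine ⟨hφz, hφy, hinj, hun, ?_, ?_⟩
    · intro w w' hww _ _ i hi hi'
      exact h.ind i _ hi _ hi' (hadj w w' hww)
    · intro w hw hi
      have hwv : w ≠ v := fun h => by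
        rw [h] at hw
        exact J.loopless.irrefl _ hw
      have h1 := hφX w hwv
      rw [hmemX] at h1
      push Not at h1
      refine h1.2 hi ?_
      rw [← hφz]
      exact hadj v w hw
  have hM0 : 0 ≤ M0 J R b / ((R : ℝ) * (R - 1) * (b : ℝ) ^ 2) := by
    refine div_nonneg ?_ hRpos.le
    unfold M0
    positivity
  have hF2' : ((Y.biUnion (fun y => (emb J G S).filter fun φ => φ v = z ∧ φ v' = y ∧
        ∀ w, w ≠ v → φ w ∉ X)).card : ℝ) ≤
      (∑ i, (dg G (B i) z : ℝ)) * (M0 J R b / ((R : ℝ) * (R - 1) * (b : ℝ) ^ 2)) := by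
    have h1 : ((Y.biUnion (fun y => (emb J G S).filter fun φ => φ v = z ∧ φ v' = y ∧
        ∀ w, w ≠ v → φ w ∉ X)).card : ℝ) ≤ ∑ y ∈ Y, (((emb J G S).filter fun φ =>
          φ v = z ∧ φ v' = y ∧ ∀ w, w ≠ v → φ w ∉ X).card : ℝ) := by
      exact_mod_cast card_biUnion_le
    refine h1.trans ((sum_le_card_nsmul _ _ _ hF2).trans ?_)
    rw [nsmul_eq_mul]
    refine mul_le_mul_of_nonneg_right ?_ hM0
    exact_mod_cast hYc
  have h1 : (((emb J G S).filter fun φ => φ v = z).card : ℝ) ≤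
      (((univ.erase v).biUnion (fun w => (Fintype.piFinset fun _ : ι => S).filter fun φ =>
        φ v = z ∧ φ w ∈ X)).card : ℝ) +
      ((Y.biUnion (fun y => (emb J G S).filter fun φ => φ v = z ∧ φ v' = y ∧
        ∀ w, w ≠ v → φ w ∉ X)).card : ℝ) := by
    exact_mod_cast (card_le_card hsub).trans (card_union_le _ _)
  refine h1.trans (add_le_add ?_ hF2')
  have h2 : (((univ.erase v).biUnion (fun w => (Fintype.piFinset fun _ : ι => S).filter fun φ =>
        φ v = z ∧ φ w ∈ X)).card : ℝ) ≤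
      Fintype.card ι * ((X.card : ℝ) * (S.card : ℝ) ^ (Fintype.card ι - 2)) := by
    exact_mod_cast hF1
  refine h2.trans ?_
  rw [← mul_assoc]
  refine mul_le_mul_of_nonneg_right ?_ (by positivity)
  refine mul_le_mul_of_nonneg_left ?_ (by positivity)
  exact_mod_cast hXc

/-- copies of `J` through a heavy vertex -/
theorem med_copies (hd : ∀ v, 1 ≤ dg J univ v) (hcs : 2 ≤ Fintype.card ι) (R r : ℕ) (hR : 3 ≤ R)
    (C η₁ κ₁ : ℝ) (hC : 0 < C) (hη₁ : 0 < η₁) (hκ : 0 < κ₁)
    (hM : ∀ m : ℕ, 1 ≤ m → ((R : ℝ) * m) ^ Fintype.card ι ≤ 2 * M0 J R m) :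
    ∃ δ₀ : ℝ, 0 < δ₀ ∧ ∀ δ : ℝ, 0 < δ → δ ≤ δ₀ → ∃ m₀ : ℕ, ∀ m : ℕ, m₀ ≤ m →
      ∀ (V : Type) [DecidableEq V] (G : SimpleGraph V) [DecidableRel G.Adj] (S : Finset V)
        (B : Fin R → Finset V), S.card ≤ R * m + r → clq G S (R + 1) = ∅ →
        LS G S R m C η₁ δ B → ∀ z ∈ S \ un B,
        ((((emb J G S).filter fun φ => ∃ i, φ i = z).card : ℕ) : ℝ) ≤
          M0 J R m / m * ((Fintype.card ι : ℝ) / R *
            ((∑ i, (dg G (B i) z : ℝ)) / ((R - 1) * m)) + κ₁) := by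
  classical
  obtain ⟨k, hk⟩ : ∃ k, Fintype.card ι = k + 2 := ⟨Fintype.card ι - 2, by omega⟩
  obtain ⟨s, hs⟩ : ∃ s : ℝ, s = (Fintype.card ι : ℝ) := ⟨_, rfl⟩
  have hs2 : (2 : ℝ) ≤ s := by rw [hs]; exact_mod_cast hcs
  have hs0 : (0 : ℝ) < s := by linarith only [hs2]
  have hR3 : (3 : ℝ) ≤ R := by exact_mod_cast hR
  have hR0 : (0 : ℝ) < R := by linarith
  have hR1 : (0 : ℝ) < (R : ℝ) - 1 := by linarith
  have hRr : (0 : ℝ) < (R : ℝ) + r := by positivity
  obtain ⟨η₂, hη₂⟩ : ∃ η₂ : ℝ, η₂ = κ₁ * (R : ℝ) ^ (k + 2) / (8 * s ^ 2 * ((R : ℝ) + r) ^ k) :=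
    ⟨_, rfl⟩
  have hη₂0 : 0 < η₂ := by rw [hη₂]; positivity
  refine ⟨min (1 / 2) (κ₁ * R * (R - 1) / (2 * s * ((R : ℝ) + r) * s * 2 ^ (k + 3))),
    lt_min (by norm_num) (by positivity), ?_⟩
  intro δ hδ hδ₀
  have hδ1 : δ ≤ 1 / 2 := hδ₀.trans (min_le_left _ _)
  have hδ2 : δ ≤ κ₁ * R * (R - 1) / (2 * s * ((R : ℝ) + r) * s * 2 ^ (k + 3)) :=
    hδ₀.trans (min_le_right _ _)
  obtain ⟨m₁, hm₁⟩ := heavy_part R (by omega) C η₁ δ hC hδ hδ1 η₂ hη₂0
  refine ⟨max m₁ (max ⌈C / η₂⌉₊ (max ⌈1 / δ⌉₊ 1)), ?_⟩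
  intro m hm V _ G _ S B hS hfree hLS z hz
  have hma : m₁ ≤ m := le_trans (le_max_left _ _) hm
  have hmb : ⌈C / η₂⌉₊ ≤ m := le_trans (le_trans (le_max_left _ _) (le_max_right _ _)) hm
  have hmc : ⌈1 / δ⌉₊ ≤ m := le_trans (le_trans (le_trans (le_max_left _ _) (le_max_right _ _))
    (le_max_right _ _)) hm
  have hmd : 1 ≤ m := le_trans (le_trans (le_trans (le_max_right _ _) (le_max_right _ _))
    (le_max_right _ _)) hm
  have hm1 : (1 : ℝ) ≤ m := by exact_mod_cast hmd
  have hm0 : (0 : ℝ) < m := by linarith only [hδ, hδ1, hm1]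
  have hCm : C ≤ η₂ * m := by
    have h1 : C / η₂ ≤ m := (Nat.le_ceil _).trans (by exact_mod_cast hmb)
    rw [div_le_iff₀ hη₂0] at h1
    linarith only [h1]
  have hδm : 1 ≤ δ * m := by
    have h1 : 1 / δ ≤ m := (Nat.le_ceil _).trans (by exact_mod_cast hmc)
    rw [div_le_iff₀ hδ] at h1
    linarith only [h1]
  obtain ⟨i₀, hi₀⟩ := hm₁ m hma V G S B hfree hLS z (mem_sdiff.1 hz).1
  -- the class size `b`
  obtain ⟨b, hbdef⟩ : ∃ b : ℕ, b = ⌊(1 + δ) * m⌋₊ + 1 := ⟨_, rfl⟩
  have hbB : ∀ i, (B i).card < b := by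
    intro i
    rw [hbdef]
    exact Nat.lt_succ_of_le (Nat.le_floor (hLS.size_hi i))
  have hb1 : (b : ℝ) ≤ (1 + δ) * m + 1 := by
    rw [hbdef]
    push_cast
    have := Nat.floor_le (show (0 : ℝ) ≤ (1 + δ) * m by positivity)
    linarith only [this]
  have hb2 : (b : ℝ) - m ≤ 2 * δ * m := by linarith only [hδm, hb1]
  have hb3 : (b : ℝ) ≤ 2 * m := by
    have : δ * m ≤ 1 / 2 * m := mul_le_mul_of_nonneg_right hδ1 hm0.le
    linarith only [hδm, hb1, this]
  have hmleb : m ≤ b := by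
    rw [hbdef]
    refine Nat.le_succ_of_le (Nat.le_floor ?_)
    have : 0 ≤ δ * m := by positivity
    linarith only [hδ, hδ1, hδm]
  have hmleb' : (m : ℝ) ≤ b := by exact_mod_cast hmleb
  have hM0 : 0 ≤ M0 J R m := by unfold M0; positivity
  have hMm := hM m hmd
  rw [hk] at hMm
  -- comparison of `M0 b` and `M0 m`
  have hMb : M0 J R b ≤ (1 + s * δ * 2 ^ (k + 3)) * M0 J R m := by
    have h1 := MedB_M0 J R m b hmleb
    rw [← hs, hk] at h1
    have h2 : s * (R * ((b : ℝ) - m)) * ((R : ℝ) * b) ^ (k + 2 - 1) ≤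
        s * (R * (2 * δ * m)) * ((R : ℝ) * (2 * m)) ^ (k + 1) := by
      rw [show k + 2 - 1 = k + 1 from rfl]
      have h3 : 0 ≤ (b : ℝ) - m := by linarith only [hmleb']
      gcongr
    have h4 : s * (R * (2 * δ * m)) * ((R : ℝ) * (2 * m)) ^ (k + 1) =
        s * δ * 2 ^ (k + 2) * ((R : ℝ) * m) ^ (k + 2) := by
      rw [show (R : ℝ) * (2 * m) = 2 * (R * m) by ring, mul_pow]
      ring
    have h5 : s * δ * 2 ^ (k + 2) * ((R : ℝ) * m) ^ (k + 2) ≤
        s * δ * 2 ^ (k + 2) * (2 * M0 J R m) :=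
      mul_le_mul_of_nonneg_left hMm (by positivity)
    have h6 : s * δ * 2 ^ (k + 2) * (2 * M0 J R m) = s * δ * 2 ^ (k + 3) * M0 J R m := by ring
    linarith
  -- the number of points
  have hSm : (S.card : ℝ) ≤ (R + r) * m := by
    have h1 : (S.card : ℝ) ≤ R * m + r := by exact_mod_cast hS
    have h2 : (r : ℝ) ≤ r * m := le_mul_of_one_le_right (by positivity) hm1
    linarith only [h1, h2]
  obtain ⟨D, hD⟩ : ∃ D : ℝ, D = ∑ i, (dg G (B i) z : ℝ) := ⟨_, rfl⟩
  have hD0 : 0 ≤ D := by rw [hD]; positivity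
  have hDm : D ≤ (R + r) * m := by
    have h1 : D ≤ ∑ i, ((B i).card : ℝ) := by
      rw [hD]
      refine sum_le_sum fun i _ => ?_
      have : dg G (B i) z ≤ (B i).card := card_filter_le _ _
      exact_mod_cast this
    have h2 := (size_facts hLS hS).1
    have h3 : (r : ℝ) ≤ r * m := le_mul_of_one_le_right (by positivity) hm1
    linarith
  -- sum over the vertices of `J`
  have hsum : ((((emb J G S).filter fun φ => ∃ i, φ i = z).card : ℕ) : ℝ) ≤
      s * (s * (2 * η₂ * m) * ((R + r) * m) ^ k +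
        D * (M0 J R b / ((R : ℝ) * (R - 1) * (b : ℝ) ^ 2))) := by
    have h1 : ((emb J G S).filter fun φ => ∃ i, φ i = z) ⊆
        univ.biUnion fun v => (emb J G S).filter fun φ => φ v = z := by
      intro φ hφ
      rw [mem_filter] at hφ
      obtain ⟨hφe, v, hv⟩ := hφ
      rw [mem_biUnion]
      exact ⟨v, mem_univ v, mem_filter.2 ⟨hφe, hv⟩⟩
    have h2 : ((((emb J G S).filter fun φ => ∃ i, φ i = z).card : ℕ) : ℝ) ≤
        ∑ v, (((emb J G S).filter fun φ => φ v = z).card : ℝ) := by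
      exact_mod_cast (card_le_card h1).trans card_biUnion_le
    refine h2.trans ?_
    have h3 : ∀ v ∈ (univ : Finset ι), (((emb J G S).filter fun φ => φ v = z).card : ℝ) ≤
        s * (2 * η₂ * m) * ((R + r) * m) ^ k +
          D * (M0 J R b / ((R : ℝ) * (R - 1) * (b : ℝ) ^ 2)) := by
      intro v _
      obtain ⟨v', hv'⟩ : ∃ v', J.Adj v v' := by
        have h4 := hd v
        unfold dg at h4
        obtain ⟨v', hv'⟩ := card_pos.1 h4
        exact ⟨v', (mem_filter.1 hv').2⟩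
      have h5 := MedB_v J hR hLS hbB hz i₀ hv'
      rw [← hs, ← hD, hk] at h5
      refine h5.trans (add_le_add ?_ le_rfl)
      rw [show k + 2 - 2 = k from rfl]
      have h6 := hLS.hX
      have h7 : ((S \ un B).card : ℝ) + dg G (B i₀) z ≤ 2 * η₂ * m := by linarith only [hCm, hi₀,
          h6]
      gcongr
    refine (sum_le_card_nsmul _ _ _ h3).trans ?_
    rw [nsmul_eq_mul, card_univ, ← hs]
  refine hsum.trans ?_
  -- the small part
  have hsmall : s * (s * (2 * η₂ * m) * ((R + r) * m) ^ k) ≤ M0 J R m / m * (κ₁ / 2) := by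
    have h1 : s * (s * (2 * η₂ * m) * ((R + r) * m) ^ k) =
        κ₁ / 4 * (((R : ℝ) * m) ^ (k + 2) / m) := by
      rw [hη₂, mul_pow, mul_pow]
      field_simp
      ring
    rw [h1]
    have h2 : ((R : ℝ) * m) ^ (k + 2) / m ≤ 2 * M0 J R m / m :=
      div_le_div_of_nonneg_right hMm hm0.le
    have h3 : κ₁ / 4 * (((R : ℝ) * m) ^ (k + 2) / m) ≤ κ₁ / 4 * (2 * M0 J R m / m) :=
      mul_le_mul_of_nonneg_left h2 (by positivity)
    refine h3.trans (le_of_eq ?_)
    ring
  -- the main part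
  have hmain : s * (D * (M0 J R b / ((R : ℝ) * (R - 1) * (b : ℝ) ^ 2))) ≤
      M0 J R m / m * (s / R * (D / ((R - 1) * m)) + κ₁ / 2) := by
    have h1 : M0 J R b / ((R : ℝ) * (R - 1) * (b : ℝ) ^ 2) ≤
        (1 + s * δ * 2 ^ (k + 3)) * M0 J R m / ((R : ℝ) * (R - 1) * (m : ℝ) ^ 2) := by
      gcongr
    have h2 : s * (D * (M0 J R b / ((R : ℝ) * (R - 1) * (b : ℝ) ^ 2))) ≤
        s * (D * ((1 + s * δ * 2 ^ (k + 3)) * M0 J R m / ((R : ℝ) * (R - 1) * (m : ℝ) ^ 2))) := by
      gcongr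
    refine h2.trans ?_
    have h3 : s * (D * ((1 + s * δ * 2 ^ (k + 3)) * M0 J R m /
        ((R : ℝ) * (R - 1) * (m : ℝ) ^ 2))) =
        M0 J R m / m * (s / R * (D / ((R - 1) * m)) +
          s / R * (D / ((R - 1) * m)) * (s * δ * 2 ^ (k + 3))) := by
      field_simp
    rw [h3]
    refine mul_le_mul_of_nonneg_left (add_le_add le_rfl ?_) (by positivity)
    have h4 : D / ((R - 1) * m) ≤ (R + r) / (R - 1) := by
      rw [div_le_div_iff₀ (by positivity) hR1]
      have := mul_le_mul_of_nonneg_right hDm hR1.le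
      linarith only [this]
    have h5 : s / R * (D / ((R - 1) * m)) * (s * δ * 2 ^ (k + 3)) ≤
        s / R * ((R + r) / (R - 1)) * (s * (κ₁ * R * (R - 1) /
          (2 * s * ((R : ℝ) + r) * s * 2 ^ (k + 3))) * 2 ^ (k + 3)) := by
      gcongr
    refine h5.trans (le_of_eq ?_)
    field_simp
  rw [← hs, ← hD]
  have hfin : s * (s * (2 * η₂ * m) * ((R + r) * m) ^ k +
        D * (M0 J R b / ((R : ℝ) * (R - 1) * (b : ℝ) ^ 2))) =
      s * (s * (2 * η₂ * m) * ((R + r) * m) ^ k) +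
        s * (D * (M0 J R b / ((R : ℝ) * (R - 1) * (b : ℝ) ^ 2))) := by ring
  rw [hfin]
  have hfin2 : M0 J R m / m * (s / R * (D / ((R - 1) * m)) + κ₁) =
      M0 J R m / m * (κ₁ / 2) + M0 J R m / m * (s / R * (D / ((R - 1) * m)) + κ₁ / 2) := by ring
  rw [hfin2]
  exact add_le_add hsmall hmain

end H57GH
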