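import Pool.Agent.H57.GH.StrG

/-!
Very heavy vertices.
-/

namespace H57GH

open Finset H57LC H57LT

set_option linter.unusedSectionVars false

/-- `R`-cliques through a vertex -/
theorem card_clq_thru {V : Type*} [DecidableEq V] {G : SimpleGraph V} [DecidableRel G.Adj]
    (S : Finset V) (z : V) (R : ℕ) :
    ((clq G S R).filter fun T => z ∈ T).card ≤ (dg G S z).choose (R - 1) := by
  have h1 : (dg G S z).choose (R - 1) =
      ((S.filter fun y => G.Adj z y).powersetCard (R - 1)).card := by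
    rw [card_powersetCard]
    rfl
  rw [h1]
  refine card_le_card_of_injOn (fun T => T.erase z) ?_ ?_
  · intro T hT
    have hT' := mem_filter.1 (mem_coe.1 hT)
    obtain ⟨⟨hTS, hTR⟩, hcl⟩ := mem_clq.1 hT'.1
    refine mem_coe.2 (mem_powersetCard.2 ⟨?_, ?_⟩)
    · intro t ht
      rw [mem_erase] at ht
      exact mem_filter.2 ⟨hTS ht.2, hcl z hT'.2 t ht.2 ht.1.symm⟩
    · rw [card_erase_of_mem hT'.2, hTR]
  · intro T hT T' hT' he
    have h2 := (mem_filter.1 (mem_coe.1 hT)).2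
    have h3 := (mem_filter.1 (mem_coe.1 hT')).2
    have he' : T.erase z = T'.erase z := he
    rw [← insert_erase h2, ← insert_erase h3, he']

lemma VHm_one {V : Type*} [DecidableEq V] {G : SimpleGraph V} [DecidableRel G.Adj] {R : ℕ}
    (B : Fin R → Finset V) (z : V) (i : Fin R) :
    ((B i).card : ℝ) * ∑ f ∈ Fintype.piFinset B, (if G.Adj z (f i) then (1 : ℝ) else 0) =
      (∏ l, ((B l).card : ℝ)) * (dg G (B i) z : ℝ) := by
  rw [one_sum B i (fun y => if G.Adj z y then (1 : ℝ) else 0)]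
  congr 1
  unfold dg
  rw [natCast_card_filter]

/-- a bad tuple sees `z` at least `R - 1` times -/
lemma VHm_seen {V : Type*} [DecidableEq V] {G : SimpleGraph V} [DecidableRel G.Adj] {R : ℕ}
    {B : Fin R → Finset V} {z : V} {f : Fin R → V} (hf : f ∈ tcl G B)
    (h : (hs G (im f) z).card < 2) :
    (R : ℝ) - 1 ≤ ∑ i, (if G.Adj z (f i) then (1 : ℝ) else 0) := by
  have h1 : hs G (im f) z = ((univ : Finset (Fin R)).filter fun i => ¬ G.Adj z (f i)).image f := by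
    ext t
    rw [mem_hs, mem_im, mem_image]
    constructor
    · rintro ⟨⟨i, rfl⟩, h2⟩
      exact ⟨i, mem_filter.2 ⟨mem_univ _, h2⟩, rfl⟩
    · rintro ⟨i, hi, rfl⟩
      exact ⟨⟨i, rfl⟩, (mem_filter.1 hi).2⟩
  rw [h1, card_image_of_injective _ (tcl_injective hf)] at h
  have h2 := card_filter_add_card_filter_not (s := (univ : Finset (Fin R)))
    (fun i => G.Adj z (f i))
  rw [card_univ, Fintype.card_fin] at h2
  rw [← natCast_card_filter]
  have h3 : R ≤ ((univ : Finset (Fin R)).filter fun i => G.Adj z (f i)).card + 1 := by omega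
  have h4 : (R : ℝ) ≤ (((univ : Finset (Fin R)).filter fun i => G.Adj z (f i)).card : ℝ) + 1 := by
    exact_mod_cast h3
  linarith

lemma VHm_dg_sum {V : Type*} [DecidableEq V] {G : SimpleGraph V} [DecidableRel G.Adj] {R : ℕ}
    {S : Finset V} {B : Fin R → Finset V} (hsub : ∀ i, B i ⊆ S)
    (hdisj : ∀ i j, i ≠ j → Disjoint (B i) (B j)) (z : V) :
    ∑ i, (dg G (B i) z : ℝ) ≤ (dg G S z : ℝ) := by
  have h1 : ∑ i, dg G (B i) z =
      ((univ : Finset (Fin R)).biUnion fun i => (B i).filter fun y => G.Adj z y).card := by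
    rw [card_biUnion]
    · rfl
    · intro i _ j _ hij
      exact (hdisj i j hij).mono (filter_subset _ _) (filter_subset _ _)
  have h2 : ∑ i, dg G (B i) z ≤ dg G S z := by
    rw [h1]
    refine card_le_card ?_
    intro y hy
    rw [mem_biUnion] at hy
    obtain ⟨i, _, hi⟩ := hy
    rw [mem_filter] at hi
    exact mem_filter.2 ⟨hsub i hi.1, hi.2⟩
  exact_mod_cast h2

/-- few tuples are bad for a very heavy vertex -/
lemma VHm_bad {V : Type*} [DecidableEq V] {G : SimpleGraph V} [DecidableRel G.Adj] {R m : ℕ}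
    (hR : 3 ≤ R) {S : Finset V} {C η₁ δ θ : ℝ} {B : Fin R → Finset V} (h : LS G S R m C η₁ δ B)
    (hδ : δ ≤ 1 / 8) (hm : 1 ≤ m) {z : V} (hz : (dg G S z : ℝ) ≤ θ * R * m)
    (hθ : 0 < θ) :
    (((tcl G B).filter fun f => (hs G (im f) z).card < 2).card : ℝ) ≤
      2 * θ * ∏ l, ((B l).card : ℝ) := by
  obtain ⟨P, hP⟩ : ∃ P : ℝ, P = ∏ l, ((B l).card : ℝ) := ⟨_, rfl⟩
  have hP0 : 0 ≤ P := by
    rw [hP]
    exact prod_nonneg fun l _ => Nat.cast_nonneg _
  have hm0 : (1 : ℝ) ≤ m := by exact_mod_cast hm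
  have hR3 : (3 : ℝ) ≤ R := by exact_mod_cast hR
  rw [← hP]
  obtain ⟨N, hN⟩ : ∃ N : ℝ, N = (((tcl G B).filter fun f => (hs G (im f) z).card < 2).card : ℝ) :=
    ⟨_, rfl⟩
  rw [← hN]
  have hN0 : 0 ≤ N := by
    rw [hN]
    exact Nat.cast_nonneg _
  -- the sum of the numbers of seen entries
  have h1 : ((R : ℝ) - 1) * N ≤
      ∑ f ∈ Fintype.piFinset B, ∑ i, (if G.Adj z (f i) then (1 : ℝ) else 0) := by
    have h2 : ((R : ℝ) - 1) * N ≤ ∑ f ∈ (tcl G B).filter fun f => (hs G (im f) z).card < 2,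
        ∑ i, (if G.Adj z (f i) then (1 : ℝ) else 0) := by
      have h3 : ((R : ℝ) - 1) * N =
          ∑ _f ∈ (tcl G B).filter fun f => (hs G (im f) z).card < 2, ((R : ℝ) - 1) := by
        rw [sum_const, nsmul_eq_mul, hN]
        ring
      rw [h3]
      refine sum_le_sum fun f hf => ?_
      rw [mem_filter] at hf
      exact VHm_seen hf.1 hf.2
    refine h2.trans (sum_le_sum_of_subset_of_nonneg ?_ ?_)
    · intro f hf
      rw [mem_filter] at hf
      exact (mem_filter.1 hf.1).1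
    · intro f _ _
      exact sum_nonneg fun i _ => by split_ifs <;> norm_num
  have h2 : (1 - δ) * m * ∑ f ∈ Fintype.piFinset B,
      ∑ i, (if G.Adj z (f i) then (1 : ℝ) else 0) ≤ P * (θ * R * m) := by
    rw [sum_comm, mul_sum]
    refine le_trans (sum_le_sum (g := fun i => P * (dg G (B i) z : ℝ)) fun i _ => ?_) ?_
    · rw [hP, ← VHm_one B z i]
      refine mul_le_mul_of_nonneg_right (h.size_lo i) ?_
      exact sum_nonneg fun f _ => by split_ifs <;> norm_num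
    · rw [← mul_sum]
      exact mul_le_mul_of_nonneg_left ((VHm_dg_sum h.sub h.disj z).trans hz) hP0
  have h3 : (1 - δ) * m * (((R : ℝ) - 1) * N) ≤ P * (θ * R * m) := by
    refine le_trans (mul_le_mul_of_nonneg_left h1 ?_) h2
    have : 0 ≤ 1 - δ := by linarith
    positivity
  have h4 : (1 - δ) * (((R : ℝ) - 1) * N) ≤ P * (θ * R) := by
    have h5 : (m : ℝ) * ((1 - δ) * (((R : ℝ) - 1) * N)) ≤ m * (P * (θ * R)) := by linarith
    exact le_of_mul_le_mul_left h5 (by linarith)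
  have h5 : (7 / 12 : ℝ) * R * N ≤ (1 - δ) * (((R : ℝ) - 1) * N) := by
    have h6 : (7 / 12 : ℝ) * R ≤ (1 - δ) * ((R : ℝ) - 1) := by nlinarith
    calc (7 / 12 : ℝ) * R * N ≤ (1 - δ) * ((R : ℝ) - 1) * N :=
          mul_le_mul_of_nonneg_right h6 hN0
      _ = _ := by ring
  have h6 : (R : ℝ) * (7 / 12 * N) ≤ R * (P * θ) := by linarith
  have h7 : 7 / 12 * N ≤ P * θ := le_of_mul_le_mul_left h6 (by linarith)
  have h8 : 0 ≤ P * θ := mul_nonneg hP0 hθ.le
  nlinarith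

/-- the missing pairs of the tuples -/
lemma VHm_DD {V : Type*} [DecidableEq V] {G : SimpleGraph V} [DecidableRel G.Adj] {R m : ℕ}
    {S : Finset V} {C η₁ δ : ℝ} {B : Fin R → Finset V} (h : LS G S R m C η₁ δ B)
    (hδ : δ ≤ 1 / 8) (hm : 1 ≤ m) (hC : 0 < C) (hmC : 16 * (R : ℝ) ^ 2 * C ≤ m) :
    ∑ f ∈ Fintype.piFinset B, DD G f ≤ 1 / 4 * ∏ l, ((B l).card : ℝ) := by
  obtain ⟨P, hP⟩ : ∃ P : ℝ, P = ∏ l, ((B l).card : ℝ) := ⟨_, rfl⟩
  have hP0 : 0 ≤ P := by
    rw [hP]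
    exact prod_nonneg fun l _ => Nat.cast_nonneg _
  have hm0 : (1 : ℝ) ≤ m := by exact_mod_cast hm
  rw [← hP]
  have hpair : ∀ i j : Fin R, i ≠ j →
      ∑ f ∈ Fintype.piFinset B, na G (f i) (f j) ≤ 4 * P * C / m := by
    intro i j hij
    have h1 := pair_sum B hij (fun y z => na G y z)
    obtain ⟨X, hX⟩ : ∃ X : ℝ, X = ∑ f ∈ Fintype.piFinset B, na G (f i) (f j) := ⟨_, rfl⟩
    have hX0 : 0 ≤ X := by
      rw [hX]
      exact sum_nonneg fun f _ => na_nonneg _ _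
    rw [← hX] at h1 ⊢
    rw [← hP] at h1
    have h2 : ∑ y ∈ B i, ∑ z ∈ B j, na G y z ≤ C * m := by
      refine le_trans (le_of_eq (sum_congr rfl fun y _ => sum_na _ _)) (h.tot i j hij)
    have h3 : (m : ℝ) / 2 ≤ (B i).card := le_trans (by nlinarith) (h.size_lo i)
    have h4 : (m : ℝ) / 2 ≤ (B j).card := le_trans (by nlinarith) (h.size_lo j)
    have h5 : (m : ℝ) / 2 * (m / 2) ≤ (B i).card * (B j).card :=
      mul_le_mul h3 h4 (by positivity) (by positivity)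
    have h6 : (m : ℝ) / 2 * (m / 2) * X ≤ P * (C * m) := by
      refine le_trans (mul_le_mul_of_nonneg_right h5 hX0) ?_
      rw [h1]
      exact mul_le_mul_of_nonneg_left h2 hP0
    rw [le_div_iff₀ (by linarith)]
    have h7 : (m : ℝ) * (X * m) ≤ m * (4 * P * C) := by linarith
    exact le_of_mul_le_mul_left h7 (by linarith)
  have h1 : ∑ f ∈ Fintype.piFinset B, DD G f =
      ∑ i, ∑ j ∈ univ.erase i, ∑ f ∈ Fintype.piFinset B, na G (f i) (f j) := by
    unfold DD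
    rw [sum_comm]
    refine sum_congr rfl fun i _ => ?_
    rw [sum_comm]
  rw [h1]
  have h2 : ∑ i : Fin R, ∑ j ∈ univ.erase i, ∑ f ∈ Fintype.piFinset B, na G (f i) (f j) ≤
      ∑ _i : Fin R, ∑ _j : Fin R, 4 * P * C / m := by
    refine sum_le_sum fun i _ => ?_
    refine le_trans (sum_le_sum fun j hj => hpair i j (ne_of_mem_erase hj).symm) ?_
    exact sum_le_sum_of_subset_of_nonneg (subset_univ _) fun j _ _ => by positivity
  refine h2.trans ?_
  simp only [sum_const, card_univ, Fintype.card_fin, nsmul_eq_mul]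
  have h3 : (R : ℝ) * (R * (4 * P * C / m)) = (16 * (R : ℝ) ^ 2 * C) * (P / (4 * m)) := by
    field_simp
    ring
  rw [h3]
  calc 16 * (R : ℝ) ^ 2 * C * (P / (4 * m)) ≤ m * (P / (4 * m)) :=
        mul_le_mul_of_nonneg_right hmC (by positivity)
    _ = 1 / 4 * P := by
        field_simp

/-- many light cliques see more than `κ₀` very heavy vertices with at least two missing
neighbours -/
theorem nu_sum_ge (R : ℕ) (hR : 3 ≤ R) (κ₀ : ℕ) (C η₁ θ : ℝ) (hC : 0 < C) (hη₁ : 0 < η₁)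
    (hη₁1 : η₁ ≤ 1 / 16) (hθ : 0 < θ) (hθ1 : 16 * (κ₀ + 1) * θ ≤ 1) :
    ∃ δ₀ : ℝ, 0 < δ₀ ∧ ∀ δ : ℝ, 0 < δ → δ ≤ δ₀ → ∃ m₀ : ℕ, ∀ m : ℕ, m₀ ≤ m →
      ∀ (V : Type) [DecidableEq V] (G : SimpleGraph V) [DecidableRel G.Adj] (S : Finset V)
        (B : Fin R → Finset V), clq G S (R + 1) = ∅ → LS G S R m C η₁ δ B →
        κ₀ + 1 ≤ (vh G S R m θ).card →
        1 / 4 * ∏ l, ((B l).card : ℝ) ≤ ∑ f ∈ tcl G B, nuG G S κ₀ (im f) := by
  refine ⟨1 / 8, by norm_num, fun δ _ hδ1 => ⟨⌈16 * (R : ℝ) ^ 2 * C⌉₊ + 1, ?_⟩⟩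
  intro m hm V _ G _ S B _ h hv
  have hm1 : 1 ≤ m := by omega
  have hmC : 16 * (R : ℝ) ^ 2 * C ≤ m := by
    have h1 := Nat.le_ceil (16 * (R : ℝ) ^ 2 * C)
    have h2 : ((⌈16 * (R : ℝ) ^ 2 * C⌉₊ : ℕ) : ℝ) ≤ m := by
      exact_mod_cast (by omega : ⌈16 * (R : ℝ) ^ 2 * C⌉₊ ≤ m)
    exact h1.trans h2
  obtain ⟨W, hW, hWc⟩ := exists_subset_card_eq hv
  obtain ⟨P, hP⟩ : ∃ P : ℝ, P = ∏ l, ((B l).card : ℝ) := ⟨_, rfl⟩
  have hP0 : 0 ≤ P := by
    rw [hP]
    exact prod_nonneg fun l _ => Nat.cast_nonneg _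
  have hbad : ∀ z ∈ W, (((tcl G B).filter fun f => (hs G (im f) z).card < 2).card : ℝ) ≤
      2 * θ * P := by
    intro z hz
    have h1 := hW hz
    unfold vh at h1
    rw [mem_filter] at h1
    rw [hP]
    exact VHm_bad hR h hδ1 hm1 h1.2 hθ
  have hWS : W ⊆ S := by
    intro z hz
    have h1 := hW hz
    unfold vh at h1
    rw [mem_filter] at h1
    exact h1.1
  have hDD := VHm_DD h hδ1 hm1 hC hmC
  have htcl := card_tcl_ge (G := G) B
  rw [← hP] at hDD htcl ⊢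
  -- pointwise
  have hpt : ∀ f ∈ tcl G B, 1 - ∑ z ∈ W, (if (hs G (im f) z).card < 2 then (1 : ℝ) else 0) ≤
      nuG G S κ₀ (im f) := by
    intro f _
    by_cases hall : ∀ z ∈ W, ¬ (hs G (im f) z).card < 2
    · have h1 : κ₀ + 1 ≤ hge G S (im f) := by
        rw [← hWc]
        refine card_le_card fun z hz => mem_filter.2 ⟨hWS hz, ?_⟩
        have := hall z hz
        omega
      unfold nuG
      rw [if_pos h1]
      have h2 : 0 ≤ ∑ z ∈ W, (if (hs G (im f) z).card < 2 then (1 : ℝ) else 0) :=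
        sum_nonneg fun z _ => by split_ifs <;> norm_num
      linarith
    · push Not at hall
      obtain ⟨z, hz, hz2⟩ := hall
      have h1 : (1 : ℝ) ≤ ∑ z ∈ W, (if (hs G (im f) z).card < 2 then (1 : ℝ) else 0) := by
        have h3 := single_le_sum (f := fun z => if (hs G (im f) z).card < 2 then (1 : ℝ) else 0)
          (fun z _ => by
            show (0 : ℝ) ≤ if (hs G (im f) z).card < 2 then (1 : ℝ) else 0
            split_ifs <;> norm_num) hz
        rwa [if_pos hz2] at h3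
      have h2 : 0 ≤ nuG G S κ₀ (im f) := by
        unfold nuG
        split_ifs <;> norm_num
      linarith
  have h1 : ((tcl G B).card : ℝ) - ∑ z ∈ W,
      (((tcl G B).filter fun f => (hs G (im f) z).card < 2).card : ℝ) ≤
      ∑ f ∈ tcl G B, nuG G S κ₀ (im f) := by
    refine le_trans (le_of_eq ?_) (sum_le_sum hpt)
    rw [sum_sub_distrib, sum_const, nsmul_eq_mul, mul_one, sum_comm]
    congr 1
    refine sum_congr rfl fun z _ => ?_
    rw [natCast_card_filter]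
  have h2 : ∑ z ∈ W, (((tcl G B).filter fun f => (hs G (im f) z).card < 2).card : ℝ) ≤
      (κ₀ + 1) * (2 * θ * P) := by
    refine le_trans (sum_le_sum hbad) ?_
    rw [sum_const, hWc, nsmul_eq_mul]
    push_cast
    exact le_refl _
  have h3 : ((κ₀ : ℝ) + 1) * (2 * θ * P) ≤ 1 / 8 * P := by
    have h4 : ((κ₀ : ℝ) + 1) * (2 * θ) ≤ 1 / 8 := by linarith
    calc ((κ₀ : ℝ) + 1) * (2 * θ * P) = ((κ₀ : ℝ) + 1) * (2 * θ) * P := by ring
      _ ≤ 1 / 8 * P := mul_le_mul_of_nonneg_right h4 hP0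
  linarith

/-- very heavy vertices are not light -/
theorem vh_subset {R m : ℕ} {V : Type*} [DecidableEq V] {G : SimpleGraph V} [DecidableRel G.Adj]
    {S : Finset V} {C η₁ δ θ : ℝ} {B : Fin R → Finset V} (h : LS G S R m C η₁ δ B) (hm : 1 ≤ m)
    (hθ : θ * R < (R - 1) * (1 - δ - 2 * η₁)) : vh G S R m θ ⊆ S \ un B := by
  intro z hz
  unfold vh at hz
  rw [mem_filter] at hz
  refine mem_sdiff.2 ⟨hz.1, fun hu => ?_⟩
  obtain ⟨i, hi⟩ := mem_un.1 hu
  have h1 := light_dg h hi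
  have h2 := h1.trans hz.2
  have hm0 : (0 : ℝ) < m := by exact_mod_cast hm
  have h3 := mul_lt_mul_of_pos_right hθ hm0
  linarith

end H57GH
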