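import Pool.Agent.H57.GH.LSumG
import Pool.Agent.H57.GH.Med
import Pool.Agent.H57.GH.VHm

/-!
The local theorem for sets with many edges.
-/

namespace H57GH

open Finset H57LC H57LT

set_option linter.unusedSectionVars false

/-- cliques that are not inside `un B` -/
lemma LocalB_meet {V : Type*} [DecidableEq V] {G : SimpleGraph V} [DecidableRel G.Adj] {R : ℕ}
    (S : Finset V) (B : Fin R → Finset V) :
    ((clq G S R).filter fun T => ¬ T ⊆ un B).card ≤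
      ∑ z ∈ S \ un B, (dg G S z).choose (R - 1) := by
  have h1 : ((clq G S R).filter fun T => ¬ T ⊆ un B) ⊆
      (S \ un B).biUnion fun z => (clq G S R).filter fun T => z ∈ T := by
    intro T hT
    rw [mem_filter] at hT
    obtain ⟨z, hz, hzB⟩ := not_subset.1 hT.2
    rw [mem_biUnion]
    exact ⟨z, mem_sdiff.2 ⟨(mem_clq.1 hT.1).1.1 hz, hzB⟩, mem_filter.2 ⟨hT.1, hz⟩⟩
  exact (card_le_card h1).trans (card_biUnion_le.trans
    (sum_le_sum fun z _ => card_clq_thru S z R))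

/-- every `R`-clique inside `un B` is the image of a clique transversal -/
lemma LocalB_exists_tuple {V : Type*} [DecidableEq V] {G : SimpleGraph V}
    [DecidableRel G.Adj] {R : ℕ} {S : Finset V} {B : Fin R → Finset V} (hsub : ∀ i, B i ⊆ S)
    (hdisj : ∀ i j, i ≠ j → Disjoint (B i) (B j))
    (hind : ∀ i, ∀ a ∈ B i, ∀ b ∈ B i, ¬ G.Adj a b) {T : Finset V} (hT : T ∈ clq G S R)
    (hTB : T ⊆ un B) : ∃ f ∈ tcl G B, im f = T := by
  by_contra hcon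
  push Not at hcon
  have h1 := sum_light (G := G) (S := S) hsub hdisj hind (fun T' => if T' = T then (1 : ℝ) else 0)
  have h2 : ∑ f ∈ tcl G B, (if im f = T then (1 : ℝ) else 0) = 0 :=
    sum_eq_zero fun f hf => if_neg (hcon f hf)
  rw [h2, sum_ite_eq' _ T (fun _ => (1 : ℝ)), if_pos (mem_filter.2 ⟨hT, hTB⟩)] at h1
  exact one_ne_zero h1

lemma LocalB_cost2 {s q R m y : ℕ} {C₁ M : ℝ} (hs : 2 + q ≤ s) (hqR : q + 2 ≤ R) (hm : 1 ≤ m)
    (hC₁ : 0 ≤ C₁) (hM : M ≤ ((R : ℝ) * m) ^ s)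
    (hy : (y : ℝ) ≤ R * m) (hmC : C₁ * (R : ℝ) ^ s * (R : ℝ) ^ R ≤ m) :
    C₁ / m * (M / (m : ℝ) ^ R) * (y : ℝ) ^ (R - 1) ≤ (y : ℝ) ^ (1 + q) * (m : ℝ) ^ (s - 2 - q) := by
  obtain ⟨k, rfl⟩ := Nat.exists_eq_add_of_le hqR
  obtain ⟨l, rfl⟩ := Nat.exists_eq_add_of_le hs
  have e1 : q + 2 + k - 1 = (1 + q) + k := by omega
  have e2 : 2 + q + l - 2 - q = l := by omega
  rw [e1, e2]
  obtain ⟨Rr, hRr⟩ : ∃ Rr : ℝ, Rr = ((q + 2 + k : ℕ) : ℝ) := ⟨_, rfl⟩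
  rw [← hRr] at hM hy hmC
  have hR1 : 1 ≤ Rr := by
    rw [hRr]
    have : 1 ≤ q + 2 + k := by omega
    exact_mod_cast this
  have hm0 : (0 : ℝ) < m := by exact_mod_cast hm
  have hy0 : (0 : ℝ) ≤ y := Nat.cast_nonneg _
  rw [div_mul_div_comm, div_mul_eq_mul_div, div_le_iff₀ (by positivity)]
  have h1 : C₁ * M * (y : ℝ) ^ ((1 + q) + k) ≤
      C₁ * ((Rr * m) ^ (2 + q + l)) * ((y : ℝ) ^ (1 + q) * (Rr * m) ^ k) := by
    rw [pow_add (y : ℝ) (1 + q) k]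
    refine mul_le_mul (mul_le_mul_of_nonneg_left hM hC₁) ?_ (by positivity) (by positivity)
    exact mul_le_mul_of_nonneg_left (pow_le_pow_left₀ hy0 hy k) (by positivity)
  refine h1.trans ?_
  have h2 : Rr ^ k ≤ Rr ^ (q + 2 + k) := pow_le_pow_right₀ hR1 (by omega)
  have h3 : C₁ * Rr ^ (2 + q + l) * Rr ^ k ≤ m :=
    (mul_le_mul_of_nonneg_left h2 (by positivity)).trans hmC
  have h4 : C₁ * ((Rr * m) ^ (2 + q + l)) * ((y : ℝ) ^ (1 + q) * (Rr * m) ^ k) =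
      ((y : ℝ) ^ (1 + q) * (m : ℝ) ^ (2 + q + l + k)) * (C₁ * Rr ^ (2 + q + l) * Rr ^ k) := by
    rw [mul_pow, mul_pow, pow_add (m : ℝ) (2 + q + l) k]
    ring
  rw [h4]
  calc ((y : ℝ) ^ (1 + q) * (m : ℝ) ^ (2 + q + l + k)) * (C₁ * Rr ^ (2 + q + l) * Rr ^ k)
      ≤ ((y : ℝ) ^ (1 + q) * (m : ℝ) ^ (2 + q + l + k)) * m :=
        mul_le_mul_of_nonneg_left h3 (by positivity)
    _ = (y : ℝ) ^ (1 + q) * (m : ℝ) ^ l * (m * (m : ℝ) ^ (q + 2 + k)) := by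
        rw [show 2 + q + l + k = l + (q + 2 + k) by omega, pow_add (m : ℝ) l (q + 2 + k)]
        ring

lemma LocalB_cost1 {R m r c : ℕ} {C₁ M κ₁ : ℝ} (hR : 1 ≤ R) (hm : 1 ≤ m) (hr : r ≤ R)
    (hC₁ : 0 ≤ C₁) (hM : 0 ≤ M) (hc : c ≤ R * m + r)
    (hmC : 4 * C₁ * (2 * (R : ℝ)) ^ R ≤ κ₁ * m) :
    C₁ / m * (M / (m : ℝ) ^ R) * (c : ℝ) ^ (R - 1) ≤ M / m * (κ₁ / 4) := by
  have hm0 : (1 : ℝ) ≤ m := by exact_mod_cast hm
  have hR1 : (1 : ℝ) ≤ R := by exact_mod_cast hR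
  have hcr : (c : ℝ) ≤ 2 * R * m := by
    have h1 : (c : ℝ) ≤ R * m + r := by exact_mod_cast hc
    have h2 : (r : ℝ) ≤ R := by exact_mod_cast hr
    nlinarith only [h1, h2, hm0]
  have h1 : (c : ℝ) ^ (R - 1) ≤ (2 * R * m) ^ (R - 1) :=
    pow_le_pow_left₀ (Nat.cast_nonneg _) hcr _
  obtain ⟨k, rfl⟩ := Nat.exists_eq_add_of_le hR
  obtain ⟨Rr, hRr⟩ : ∃ Rr : ℝ, Rr = ((1 + k : ℕ) : ℝ) := ⟨_, rfl⟩
  rw [← hRr] at h1 hmC hR1
  have e1 : 1 + k - 1 = k := by omega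
  rw [e1] at h1 ⊢
  have h2 : C₁ / m * (M / (m : ℝ) ^ (1 + k)) * (c : ℝ) ^ k ≤
      C₁ / m * (M / (m : ℝ) ^ (1 + k)) * (2 * Rr * m) ^ k :=
    mul_le_mul_of_nonneg_left h1 (by positivity)
  refine h2.trans ?_
  have hm00 : (0 : ℝ) < m := by linarith only [hm0]
  have h3 : C₁ / m * (M / (m : ℝ) ^ (1 + k)) * (2 * Rr * m) ^ k =
      M / m * (C₁ * (2 * Rr) ^ k / m) := by
    rw [mul_pow (2 * Rr) (m : ℝ) k, pow_add, pow_one]
    field_simp
  rw [h3]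
  refine mul_le_mul_of_nonneg_left ?_ (by positivity)
  rw [div_le_iff₀ hm00]
  have h4 : (2 * Rr) ^ k ≤ (2 * Rr) ^ (1 + k) := pow_le_pow_right₀ (by linarith only [hR1]) (by omega)
  have h5 : C₁ * (2 * Rr) ^ k ≤ C₁ * (2 * Rr) ^ (1 + k) := mul_le_mul_of_nonneg_left h4 hC₁
  linarith only [hmC, h5]

section main
variable {ι : Type*} [Fintype ι] [DecidableEq ι] (J : SimpleGraph ι) [DecidableRel J.Adj]

lemma LocalB_emb_mono {V : Type*} [DecidableEq V] (G : SimpleGraph V) [DecidableRel G.Adj]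
    {S S' : Finset V} (h : S ⊆ S') : emb J G S ⊆ emb J G S' := by
  unfold emb
  exact filter_subset_filter _ (Fintype.piFinset_subset _ _ fun _ => h)

/-- the copies outside the light sets -/
lemma LocalB_split {V : Type*} [DecidableEq V] (G : SimpleGraph V) [DecidableRel G.Adj]
    {S X W : Finset V} (hXS : X ⊆ S) (hWX : W ⊆ X) :
    (emb J G (S \ W)).card ≤ (emb J G (S \ X)).card +
      ∑ z ∈ X \ W, ((emb J G S).filter fun φ => ∃ i, φ i = z).card := by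
  have h1 := emb_card_le (G := G) J (S \ W) X
  have e1 : (S \ W) \ X = S \ X := by
    ext z
    simp only [mem_sdiff]
    constructor
    · rintro ⟨⟨h2, _⟩, h3⟩
      exact ⟨h2, h3⟩
    · rintro ⟨h2, h3⟩
      exact ⟨⟨h2, fun h => h3 (hWX h)⟩, h3⟩
  have e2 : (S \ W) ∩ X = X \ W := by
    ext z
    simp only [mem_sdiff, mem_inter]
    constructor
    · rintro ⟨⟨_, h2⟩, h3⟩
      exact ⟨h3, h2⟩
    · rintro ⟨h2, h3⟩
      exact ⟨⟨hXS h2, h3⟩, h2⟩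
  rw [e1, e2] at h1
  refine h1.trans (Nat.add_le_add_left (sum_le_sum fun z _ => card_le_card ?_) _)
  exact filter_subset_filter _ (LocalB_emb_mono J G sdiff_subset)

/-- the parts of the credit, real arithmetic -/
lemma LocalB_xz_nonneg {V : Type*} [DecidableEq V] {G : SimpleGraph V} [DecidableRel G.Adj]
    {R s : ℕ} {θ : ℝ} (hR : 2 ≤ R) {B : Fin R → Finset V} {f : Fin R → V} (hf : f ∈ tcl G B)
    (z : V) : 0 ≤ xz G R s θ f z := by
  unfold xz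
  split_ifs
  · positivity
  · refine ktG_nonneg hR _ ?_
    exact (card_le_card (hs_subset _ _)).trans (le_of_eq (im_card hf))

theorem localB [Nonempty ι] (d : ℕ) (hd1 : 1 ≤ d) (hd : ∀ v, d ≤ dg J univ v) (θ : ℝ) (hθ : 0 < θ)
    (hθ1 : θ ≤ 1 / 4) : ∃ R₀ : ℕ, ∀ R : ℕ, R₀ ≤ R → ∀ r : ℕ, r ≤ R → ∀ q κ₀ : ℕ, q + 1 ≤ d →
    16 * ((κ₀ : ℝ) + 1) * θ ≤ 1 → ∀ C₁ CB C₆ ζ ε : ℝ, 0 < C₁ → 0 < CB → 0 < C₆ → 0 < ζ → ζ ≤ 1 →
    0 < ε → ε < 1 →
    ∃ m₀ : ℕ, ∀ m : ℕ, m₀ ≤ m →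
      ∀ (V : Type) [DecidableEq V] (G : SimpleGraph V) [DecidableRel G.Adj] (S : Finset V)
        (ρ Γ : ℝ), S.card ≤ R * m + r → clq G S (R + 1) = ∅ → TyB G S R m CB →
        M0 J R m ≤ ρ → ρ ≤ M0 J R m * (1 + CB / m) → 0 ≤ Γ →
        Γ ≤ C₆ * (m : ℝ) ^ (Fintype.card ι - 2 - q) → (¬ Slack G S R m θ κ₀ → Γ = 0) →
        ∃ z : Finset V → ℝ,
          ((emb J G (S \ vh G S R m θ)).card : ℝ) - ρ + Γ ≤ ∑ T ∈ clq G S R, z T +
            ∑ y ∈ (vh G S R m θ).filter (fun y => d ≤ dg G S y),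
              (dg G S y : ℝ) ^ (1 + q) * (m : ℝ) ^ (Fintype.card ι - 2 - q) ∧
          ∀ T ∈ clq G S R, z T ≤ -(C₁ / m) * (M0 J R m / (m : ℝ) ^ R) ∨
            ((∀ t ∈ T, (1 - ε) * m ≤ (aa G S T t : ℝ)) ∧
              z T ≤ lzG G J S R m θ (ζ * ((m : ℝ)⁻¹) ^ q) ρ κ₀ T) := by
  have hd' : ∀ v, 1 ≤ dg J univ v := fun v => hd1.trans (hd v)
  have hcs : 2 ≤ Fintype.card ι := two_le_card J (q := 0) (fun v => by simpa using hd' v)
  obtain ⟨R₁, hR₁3, hcred⟩ := med_credit (Fintype.card ι) (by omega) θ hθ hθ1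
  obtain ⟨CM, hCM, hMb⟩ := M0_bounds J
  obtain ⟨R₂, hR₂⟩ := exists_nat_ge (2 * CM)
  refine ⟨max R₁ (max R₂ (d + 2)), fun R hR r hr q κ₀ hq hκ₀ C₁ CB C₆ ζ ε hC₁ hCB hC₆ hζ hζ1
    hε hε1 => ?_⟩
  simp only [max_le_iff] at hR
  obtain ⟨hRa, hRb, hRc⟩ := hR
  have hR3 : 3 ≤ R := hR₁3.trans hRa
  have hR3r : (3 : ℝ) ≤ R := by exact_mod_cast hR3
  have hR0 : (0 : ℝ) < R := by linarith
  have hs2q : 2 + q ≤ Fintype.card ι := two_le_card J (q := q) (fun v => by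
    have := hd v
    omega)
  have hM : ∀ m : ℕ, 1 ≤ m → ((R : ℝ) * m) ^ Fintype.card ι ≤ 2 * M0 J R m := by
    intro m hm
    have h1 := (hMb R m (by omega) hm).1
    have h2 : CM / R ≤ 1 / 2 := by
      rw [div_le_iff₀ hR0]
      have h4 : (R₂ : ℝ) ≤ R := by exact_mod_cast hRb
      linarith
    have h3 : (0 : ℝ) ≤ ((R : ℝ) * m) ^ Fintype.card ι := by positivity
    nlinarith only [h1, h2, h3]
  have hMup : ∀ m : ℕ, 1 ≤ m → M0 J R m ≤ ((R : ℝ) * m) ^ Fintype.card ι :=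
    fun m hm => (hMb R m (by omega) hm).2
  obtain ⟨s, hs⟩ : ∃ s : ℝ, s = (Fintype.card ι : ℝ) := ⟨_, rfl⟩
  have hs2 : (2 : ℝ) ≤ s := by rw [hs]; exact_mod_cast hcs
  -- the parameter `η₁`
  obtain ⟨η₁, hη₁, hηa, hηb⟩ : ∃ η₁ : ℝ, 0 < η₁ ∧ 4096 * s ^ 4 * R ^ 4 * η₁ ≤ 1 ∧
      4 * (R : ℝ) * η₁ ≤ ε := by
    refine ⟨min (1 / (4096 * s ^ 4 * R ^ 4)) (ε / (4 * R)), lt_min (by positivity) (by positivity),
      ?_, ?_⟩
    · have h1 := min_le_left (1 / (4096 * s ^ 4 * R ^ 4)) (ε / (4 * R))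
      calc 4096 * s ^ 4 * R ^ 4 * min (1 / (4096 * s ^ 4 * R ^ 4)) (ε / (4 * R))
          ≤ 4096 * s ^ 4 * R ^ 4 * (1 / (4096 * s ^ 4 * R ^ 4)) :=
            mul_le_mul_of_nonneg_left h1 (by positivity)
        _ = 1 := by field_simp
    · have h1 := min_le_right (1 / (4096 * s ^ 4 * R ^ 4)) (ε / (4 * R))
      calc 4 * (R : ℝ) * min (1 / (4096 * s ^ 4 * R ^ 4)) (ε / (4 * R))
          ≤ 4 * (R : ℝ) * (ε / (4 * R)) := mul_le_mul_of_nonneg_left h1 (by positivity)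
        _ = ε := by field_simp
  have hηc : 16 * (R : ℝ) * η₁ ≤ 1 := by
    have h1 : (1 : ℝ) ≤ s ^ 4 := one_le_pow₀ (by linarith)
    have h2 : (R : ℝ) ≤ R ^ 4 := by
      calc (R : ℝ) = R ^ 1 := (pow_one _).symm
        _ ≤ R ^ 4 := pow_le_pow_right₀ (by linarith) (by norm_num)
    have h3 : (R : ℝ) * η₁ ≤ R ^ 4 * η₁ := mul_le_mul_of_nonneg_right h2 hη₁.le
    have h4 : 1 * ((R : ℝ) ^ 4 * η₁) ≤ s ^ 4 * (R ^ 4 * η₁) :=
      mul_le_mul_of_nonneg_right h1 (by positivity)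
    have h5 : 4096 * s ^ 4 * R ^ 4 * η₁ = 4096 * (s ^ 4 * (R ^ 4 * η₁)) := by ring
    rw [h5] at hηa
    have h6 : 0 ≤ (R : ℝ) * η₁ := by positivity
    linarith
  have hη16 : η₁ ≤ 1 / 16 := by nlinarith only [hR3r, hηc]
  have hηa' : 4096 * (Fintype.card ι : ℝ) ^ 4 * R ^ 4 * η₁ ≤ 1 := by rw [← hs]; exact hηa
  obtain ⟨C, hC, hLS⟩ := exists_LSG R r (by omega) CB η₁ hCB hη₁ hη16
  obtain ⟨κ₁, hκ₁, hcred2⟩ := hcred R hRa C η₁ hC hη₁ hη16
  obtain ⟨ε₇, hε₇, hε₇κ, hε₇h⟩ : ∃ ε₇ : ℝ, 0 < ε₇ ∧ ε₇ ≤ κ₁ ∧ ε₇ ≤ 1 / 2 :=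
    ⟨min κ₁ (1 / 2), lt_min hκ₁ (by norm_num), min_le_left _ _, min_le_right _ _⟩
  obtain ⟨δ₁, hδ₁, hA1⟩ := hcred2 ε₇ hε₇.le hε₇κ
  obtain ⟨δ₂, hδ₂, hA2⟩ := med_copies J hd' hcs R r hR3 C η₁ (κ₁ / 2) hC hη₁ (by linarith) hM
  obtain ⟨δ₃, hδ₃, hA3⟩ := light_sumG J hd' hcs R r hR3 CB C η₁ θ ε₇ hC hη₁ hM hηa' hθ hθ1 hε₇
  obtain ⟨δ₄, hδ₄, hA4⟩ := nu_sum_ge R hR3 κ₀ C η₁ θ hC hη₁ hη16 hθ hκ₀
  obtain ⟨δ, hδ, hδa, hδb, hδc, hδd, hδe, hδf⟩ : ∃ δ : ℝ, 0 < δ ∧ δ ≤ δ₁ ∧ δ ≤ δ₂ ∧ δ ≤ δ₃ ∧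
      δ ≤ δ₄ ∧ 8 * (R : ℝ) * δ ≤ 1 ∧ 2 * δ ≤ ε := by
    refine ⟨min (min (min δ₁ δ₂) (min δ₃ δ₄)) (min (1 / (8 * R)) (ε / 2)), ?_, ?_, ?_, ?_, ?_,
      ?_, ?_⟩
    · exact lt_min (lt_min (lt_min hδ₁ hδ₂) (lt_min hδ₃ hδ₄)) (lt_min (by positivity)
        (by positivity))
    · exact (min_le_left _ _).trans ((min_le_left _ _).trans (min_le_left _ _))
    · exact (min_le_left _ _).trans ((min_le_left _ _).trans (min_le_right _ _))
    · exact (min_le_left _ _).trans ((min_le_right _ _).trans (min_le_left _ _))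
    · exact (min_le_left _ _).trans ((min_le_right _ _).trans (min_le_right _ _))
    · have h1 : min (min (min δ₁ δ₂) (min δ₃ δ₄)) (min (1 / (8 * R)) (ε / 2)) ≤ 1 / (8 * (R : ℝ)) :=
        (min_le_right _ _).trans (min_le_left _ _)
      calc _ ≤ 8 * (R : ℝ) * (1 / (8 * R)) := mul_le_mul_of_nonneg_left h1 (by positivity)
        _ = 1 := by field_simp
    · have h1 : min (min (min δ₁ δ₂) (min δ₃ δ₄)) (min (1 / (8 * R)) (ε / 2)) ≤ ε / 2 :=
        (min_le_right _ _).trans (min_le_right _ _)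
      linarith
  obtain ⟨m1, hm1⟩ := hA1 δ hδ hδa
  obtain ⟨m2, hm2⟩ := hA2 δ hδ hδb
  obtain ⟨m3, hm3⟩ := hA3 δ hδ hδc
  obtain ⟨m4, hm4⟩ := hA4 δ hδ hδd
  obtain ⟨mL, hmL⟩ := hLS δ hδ
  obtain ⟨m5, hm5⟩ := exists_nat_ge (4 * C₁ * (2 * (R : ℝ)) ^ R / κ₁)
  obtain ⟨m6, hm6⟩ := exists_nat_ge (C₁ * (R : ℝ) ^ Fintype.card ι * (R : ℝ) ^ R)
  obtain ⟨m7, hm7⟩ := exists_nat_ge (8 * C₆ / κ₁)
  obtain ⟨m8, hm8⟩ := exists_nat_ge (16 * C₆ / ζ)
  refine ⟨max m1 (max m2 (max m3 (max m4 (max mL (max m5 (max m6 (max m7 (max m8 1)))))))),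
    fun m hm V _ G _ S ρ Γ hS hfree hTy hρ1 hρ2 hΓ0 hΓ1 hΓ2 => ?_⟩
  simp only [max_le_iff] at hm
  obtain ⟨hma, hmb, hmc, hmd, hmLL, hme, hmf, hmg, hmh, hmone⟩ := hm
  have hm0 : (1 : ℝ) ≤ m := by exact_mod_cast hmone
  have hm00 : (0 : ℝ) < m := by linarith only [hη₁, hη16, hm0]
  obtain ⟨B, hB⟩ := hmL m hmLL V G S hS hfree hTy
  -- numbers
  obtain ⟨M, hMdef⟩ : ∃ M : ℝ, M = M0 J R m := ⟨_, rfl⟩
  have hMlo := hM m hmone
  have hMhi := hMup m hmone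
  rw [← hMdef] at hMlo hMhi hρ1 hρ2 ⊢
  have hMpos : 0 < M := by
    have : 0 < ((R : ℝ) * m) ^ Fintype.card ι := by positivity
    linarith only [hMlo, this]
  have hMm : (m : ℝ) ^ Fintype.card ι ≤ 2 * M := by
    refine le_trans (pow_le_pow_left₀ hm00.le ?_ _) hMlo
    nlinarith only [hR3r]
  obtain ⟨ζ', hζ'⟩ : ∃ ζ' : ℝ, ζ' = ζ * ((m : ℝ)⁻¹) ^ q := ⟨_, rfl⟩
  have hζ'0 : 0 ≤ ζ' := by rw [hζ']; positivity
  rw [← hζ']
  obtain ⟨W, hW⟩ : ∃ W : Finset V, W = vh G S R m θ := ⟨_, rfl⟩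
  rw [← hW]
  have hWX : W ⊆ S \ un B := by
    rw [hW]
    refine vh_subset hB hmone ?_
    have h1 : δ ≤ 1 / 24 := by nlinarith only [hR3r, hδe]
    have h2 : (1 : ℝ) - δ - 2 * η₁ ≥ 1 / 2 := by linarith only [hη16, hδ, h1]
    nlinarith only [hθ1, hε1, hR3r, hη₁, hηb, h1]
  have hWmem : ∀ y ∈ W, (dg G S y : ℝ) ≤ θ * R * m := by
    intro y hy
    rw [hW] at hy
    unfold vh at hy
    exact (mem_filter.1 hy).2
  have hnW : ∀ y ∈ (S \ un B) \ W, θ * R * m < (dg G S y : ℝ) := by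
    intro y hy
    rw [mem_sdiff] at hy
    by_contra hcon
    push Not at hcon
    apply hy.2
    rw [hW]
    unfold vh
    exact mem_filter.2 ⟨(mem_sdiff.1 hy.1).1, hcon⟩
  have hunS : un B ⊆ S := fun z hz => by
    obtain ⟨i, hi⟩ := mem_un.1 hz
    exact hB.sub i hi
  obtain ⟨P, hP⟩ : ∃ P : ℝ, P = ∏ l, ((B l).card : ℝ) := ⟨_, rfl⟩
  have hPpos : 0 < P := by
    rw [hP]
    refine prod_pos fun l _ => ?_
    have h3 := hB.size_lo l
    have h4 : δ ≤ 1 / 24 := by nlinarith only [hR3r, hδe]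
    have h5 : (1 / 2 : ℝ) * m ≤ (1 - δ) * m := mul_le_mul_of_nonneg_right (by linarith only [hδ,
        h4]) hm00.le
    linarith only [hδ, hm0, h3, h4, h5]
  obtain ⟨xs, hxs⟩ : ∃ xs : V → ℝ, ∀ z, xs z = ∑ f ∈ tcl G B, xz G R (Fintype.card ι) θ f z :=
    ⟨_, fun _ => rfl⟩
  have hxs0 : ∀ z, 0 ≤ xs z := fun z => by
    rw [hxs]
    exact sum_nonneg fun f hf => LocalB_xz_nonneg (by omega) hf z
  obtain ⟨N, hN⟩ : ∃ N : ℝ, N = ∑ f ∈ tcl G B, nuG G S κ₀ (im f) := ⟨_, rfl⟩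
  have hN0 : 0 ≤ N := by
    rw [hN]
    refine sum_nonneg fun f _ => ?_
    unfold nuG
    split_ifs <;> norm_num
  obtain ⟨K, hK⟩ : ∃ K : ℝ, K = (1 - ε₇) * M / (m * P) := ⟨_, rfl⟩
  have hK0 : 0 ≤ K := by
    rw [hK]
    have : 0 ≤ 1 - ε₇ := by linarith only [hη₁, hη16, hε₇h]
    positivity
  -- the light sum
  have e3 := hm3 m hmc V G S B ρ ζ' κ₀ hζ'0 hS hB (by rw [← hMdef]; exact hρ1)
    (by rw [← hMdef]; exact hρ2)
  obtain ⟨L, hL⟩ : ∃ L : ℝ, L = ∑ f ∈ tcl G B, lzG G J S R m θ ζ' ρ κ₀ (im f) := ⟨_, rfl⟩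
  have e3' : ((emb J G (un B)).card : ℝ) - ρ ≤ L - K * (∑ z ∈ S \ un B, xs z + ζ' * N) := by
    have h1 : ∑ f ∈ tcl G B, (∑ z ∈ S \ un B, xz G R (Fintype.card ι) θ f z +
            ζ' * nuG G S κ₀ (im f)) = ∑ z ∈ S \ un B, xs z + ζ' * N := by
      rw [sum_add_distrib, sum_comm, hN, mul_sum]
      congr 1
      exact sum_congr rfl fun z _ => (hxs z).symm
    rw [h1, ← hMdef, ← hP, ← hL] at e3
    have h2 : (1 - ε₇) * M * (∑ z ∈ S \ un B, xs z + ζ' * N) / (m * P) =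
        K * (∑ z ∈ S \ un B, xs z + ζ' * N) := by
      rw [hK]
      ring
    rw [h2] at e3
    exact e3
  -- the heavy vertices that are not very heavy
  have e4 : ∀ z ∈ (S \ un B) \ W,
      ((((emb J G S).filter fun φ => ∃ i, φ i = z).card : ℕ) : ℝ) + M / m * (κ₁ / 2) ≤
        K * xs z := by
    intro z hz
    have hzX := (mem_sdiff.1 hz).1
    have h1 := hm1 m hma V G S B hfree hB z hzX (hnW z hz)
    have h2 := hm2 m hmb V G S B hS hfree hB z hzX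
    rw [← hMdef] at h2
    rw [← hxs, ← hP] at h1
    have h3 : 0 ≤ M / m := by positivity
    have h4 := mul_le_mul_of_nonneg_left h1 h3
    have h5 : M / m * ((1 - ε₇) * xs z / P) = K * xs z := by
      rw [hK]
      field_simp
    rw [h5] at h4
    have h6 : M / m * ((Fintype.card ι : ℝ) / R *
        ((∑ i, (dg G (B i) z : ℝ)) / ((R - 1) * m)) + κ₁ / 2) + M / m * (κ₁ / 2) =
        M / m * ((Fintype.card ι : ℝ) / R *
        ((∑ i, (dg G (B i) z : ℝ)) / ((R - 1) * m)) + κ₁) := by ring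
    linarith
  -- the cliques that are not light
  have e5 : C₁ / m * (M / (m : ℝ) ^ R) *
      (((clq G S R).filter fun T => ¬ T ⊆ un B).card : ℝ) ≤
      (((S \ un B) \ W).card : ℝ) * (M / m * (κ₁ / 4)) +
        ∑ y ∈ W.filter (fun y => d ≤ dg G S y),
          (dg G S y : ℝ) ^ (1 + q) * (m : ℝ) ^ (Fintype.card ι - 2 - q) := by
    obtain ⟨A, hA⟩ : ∃ A : ℝ, A = C₁ / m * (M / (m : ℝ) ^ R) := ⟨_, rfl⟩
    have hA0 : 0 ≤ A := by rw [hA]; positivity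
    rw [← hA]
    have h1 : (((clq G S R).filter fun T => ¬ T ⊆ un B).card : ℝ) ≤
        ∑ z ∈ S \ un B, ((dg G S z).choose (R - 1) : ℝ) := by
      exact_mod_cast LocalB_meet S B
    have h2 : ∑ z ∈ S \ un B, ((dg G S z).choose (R - 1) : ℝ) =
        ∑ z ∈ (S \ un B) \ W, ((dg G S z).choose (R - 1) : ℝ) +
          ∑ z ∈ W, ((dg G S z).choose (R - 1) : ℝ) := (sum_sdiff hWX).symm
    have h3 : A * ∑ z ∈ (S \ un B) \ W, ((dg G S z).choose (R - 1) : ℝ) ≤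
        (((S \ un B) \ W).card : ℝ) * (M / m * (κ₁ / 4)) := by
      rw [mul_sum, ← nsmul_eq_mul]
      refine sum_le_card_nsmul _ _ _ fun z _ => ?_
      have h4 : ((dg G S z).choose (R - 1) : ℝ) ≤ (S.card : ℝ) ^ (R - 1) := by
        have h5 : (dg G S z).choose (R - 1) ≤ S.card ^ (R - 1) :=
          (Nat.choose_le_pow _ _).trans (Nat.pow_le_pow_left (card_filter_le _ _) _)
        exact_mod_cast h5
      refine (mul_le_mul_of_nonneg_left h4 hA0).trans ?_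
      rw [hA]
      refine LocalB_cost1 (by omega) hmone hr hC₁.le hMpos.le hS ?_
      have h6 : (m5 : ℝ) ≤ m := by exact_mod_cast hme
      have h7 := hm5.trans h6
      rw [div_le_iff₀ hκ₁] at h7
      linarith only [h7]
    have h4 : A * ∑ z ∈ W, ((dg G S z).choose (R - 1) : ℝ) ≤
        ∑ y ∈ W.filter (fun y => d ≤ dg G S y),
          (dg G S y : ℝ) ^ (1 + q) * (m : ℝ) ^ (Fintype.card ι - 2 - q) := by
      rw [mul_sum, sum_filter]
      refine sum_le_sum fun y hy => ?_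
      by_cases hdy : d ≤ dg G S y
      · rw [if_pos hdy]
        have h5 : ((dg G S y).choose (R - 1) : ℝ) ≤ (dg G S y : ℝ) ^ (R - 1) := by
          exact_mod_cast Nat.choose_le_pow (dg G S y) (R - 1)
        refine (mul_le_mul_of_nonneg_left h5 hA0).trans ?_
        rw [hA]
        refine LocalB_cost2 hs2q (by omega) hmone hC₁.le hMhi ?_ ?_
        · have h6 := hWmem y hy
          have h7 : θ * R * m ≤ 1 * R * m :=
            mul_le_mul_of_nonneg_right (mul_le_mul_of_nonneg_right (by linarith only [hθ1, hη₁,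
                hη16]) hR0.le) hm00.le
          linarith only [h6, h7]
        · exact hm6.trans (by exact_mod_cast hmf)
      · rw [if_neg hdy]
        have h5 : (dg G S y).choose (R - 1) = 0 := Nat.choose_eq_zero_of_lt (by omega)
        rw [h5]
        simp
    calc A * (((clq G S R).filter fun T => ¬ T ⊆ un B).card : ℝ)
        ≤ A * ∑ z ∈ S \ un B, ((dg G S z).choose (R - 1) : ℝ) :=
          mul_le_mul_of_nonneg_left h1 hA0
      _ = A * ∑ z ∈ (S \ un B) \ W, ((dg G S z).choose (R - 1) : ℝ) +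
          A * ∑ z ∈ W, ((dg G S z).choose (R - 1) : ℝ) := by rw [h2]; ring
      _ ≤ _ := by linarith
  -- the slack
  have e6 : Γ ≤ (((S \ un B) \ W).card : ℝ) * (M / m * (κ₁ / 4)) + K * (ζ' * N) := by
    have hc0 : 0 ≤ (((S \ un B) \ W).card : ℝ) * (M / m * (κ₁ / 4)) := by positivity
    have hc1 : 0 ≤ K * (ζ' * N) := by positivity
    have hpow : (m : ℝ) * (m : ℝ) ^ (Fintype.card ι - 2 - q) ≤ (m : ℝ) ^ Fintype.card ι / m := by
      rw [le_div_iff₀ hm00]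
      calc (m : ℝ) * (m : ℝ) ^ (Fintype.card ι - 2 - q) * m
          = (m : ℝ) ^ (Fintype.card ι - 2 - q + 2) := by ring
        _ ≤ (m : ℝ) ^ Fintype.card ι := pow_le_pow_right₀ hm0 (by omega)
    have hmp : 0 ≤ (m : ℝ) ^ (Fintype.card ι - 2 - q) := by positivity
    by_cases hsl : Slack G S R m θ κ₀
    · rcases hsl with ⟨z, hzS, hz1, hz2⟩ | hv
      · have hzX : z ∈ (S \ un B) \ W := by
          rw [mem_sdiff, mem_sdiff]
          refine ⟨⟨hzS, fun hzB => ?_⟩, fun hzW => ?_⟩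
          · obtain ⟨i, hi⟩ := mem_un.1 hzB
            have h1 := (light_dg hB hi).trans_lt hz2
            have h2 := lt_of_mul_lt_mul_right h1 hm00.le
            have h3 : ((R : ℝ) - 1) * (δ + 2 * η₁) ≤ 1 / 4 := by
              have h4 : ((R : ℝ) - 1) * (δ + 2 * η₁) ≤ R * (δ + 2 * η₁) :=
                mul_le_mul_of_nonneg_right (by linarith only [hη₁, hηc, hδ, hδe,
                    h2]) (by linarith only [hη₁, hηc, hδ, hδe, h2])
              have h5 : (R : ℝ) * (δ + 2 * η₁) = R * δ + 2 * (R * η₁) := by ring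
              linarith only [hη₁, hηc, hδ, hδe, h2]
            have h6 : ((R : ℝ) - 1) * (1 - δ - 2 * η₁) = (R - 1) - (R - 1) * (δ + 2 * η₁) := by
              ring
            linarith only [hη₁, hηc, hδ, hδe, h2]
          · exact absurd (hWmem z hzW) (not_le.2 hz1)
        have h1 : (1 : ℝ) ≤ (((S \ un B) \ W).card : ℝ) := by
          have : 0 < ((S \ un B) \ W).card := card_pos.2 ⟨z, hzX⟩
          exact_mod_cast this
        have h2 : Γ ≤ M / m * (κ₁ / 4) := by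
          have h3 : (m7 : ℝ) ≤ m := by exact_mod_cast hmg
          have h4 := hm7.trans h3
          rw [div_le_iff₀ hκ₁] at h4
          have h5 : C₆ * (m : ℝ) ^ (Fintype.card ι - 2 - q) ≤
              κ₁ / 8 * ((m : ℝ) * (m : ℝ) ^ (Fintype.card ι - 2 - q)) := by
            have h6 := mul_le_mul_of_nonneg_right h4 hmp
            linarith only [h6]
          have h6 : κ₁ / 8 * ((m : ℝ) * (m : ℝ) ^ (Fintype.card ι - 2 - q)) ≤
              κ₁ / 8 * ((m : ℝ) ^ Fintype.card ι / m) :=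
            mul_le_mul_of_nonneg_left hpow (by positivity)
          have h7 : κ₁ / 8 * ((m : ℝ) ^ Fintype.card ι / m) ≤ κ₁ / 8 * (2 * M / m) := by
            refine mul_le_mul_of_nonneg_left ?_ (by positivity)
            exact div_le_div_of_nonneg_right hMm hm00.le
          have h8 : κ₁ / 8 * (2 * M / m) = M / m * (κ₁ / 4) := by ring
          linarith only [hΓ1, h5, h6, h7, h8]
        have h3 : 0 ≤ M / m * (κ₁ / 4) := by positivity
        nlinarith only [hΓ0, hc1, h1, h2]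
      · have h1 := hm4 m hmd V G S B hfree hB hv
        rw [← hP, ← hN] at h1
        have h2 : Γ ≤ K * (ζ' * N) := by
          have h3 : K * (ζ' * (1 / 4 * P)) ≤ K * (ζ' * N) :=
            mul_le_mul_of_nonneg_left (mul_le_mul_of_nonneg_left h1 hζ'0) hK0
          refine le_trans ?_ h3
          have h4 : K * (ζ' * (1 / 4 * P)) = (1 - ε₇) * M * ζ' / (4 * m) := by
            rw [hK]
            field_simp
          rw [h4, hζ']
          have h5 : (m8 : ℝ) ≤ m := by exact_mod_cast hmh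
          have h6 := hm8.trans h5
          rw [div_le_iff₀ hζ] at h6
          rw [le_div_iff₀ (by positivity)]
          have h7 : Γ * (4 * m) ≤ C₆ * (m : ℝ) ^ (Fintype.card ι - 2 - q) * (4 * m) :=
            mul_le_mul_of_nonneg_right hΓ1 (by positivity)
          have h8 : C₆ * (m : ℝ) ^ (Fintype.card ι - 2 - q) * (4 * m) ≤
              ζ / 4 * ((m : ℝ) * (m : ℝ) ^ (Fintype.card ι - 2 - q) * m) := by
            have h9 := mul_le_mul_of_nonneg_right h6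
              (mul_nonneg hmp hm00.le : 0 ≤ (m : ℝ) ^ (Fintype.card ι - 2 - q) * m)
            linarith only [h9]
          have h9 : (m : ℝ) * (m : ℝ) ^ (Fintype.card ι - 2 - q) * m =
              (m : ℝ) ^ Fintype.card ι * ((m : ℝ)⁻¹) ^ q := by
            rw [inv_pow]
            rw [← div_eq_mul_inv, eq_div_iff (by positivity)]
            calc (m : ℝ) * (m : ℝ) ^ (Fintype.card ι - 2 - q) * m * (m : ℝ) ^ q
                = (m : ℝ) ^ (Fintype.card ι - 2 - q + 2 + q) := by ring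
              _ = (m : ℝ) ^ Fintype.card ι := by
                  congr 1
                  omega
          have h10 : ζ / 4 * ((m : ℝ) ^ Fintype.card ι * ((m : ℝ)⁻¹) ^ q) ≤
              (1 - ε₇) * M * (ζ * ((m : ℝ)⁻¹) ^ q) := by
            have h11 : 0 ≤ ζ * ((m : ℝ)⁻¹) ^ q := by positivity
            have h12 : (m : ℝ) ^ Fintype.card ι / 4 ≤ (1 - ε₇) * M := by nlinarith only [hε₇h, hMlo, hMhi, hMm]
            have h13 := mul_le_mul_of_nonneg_right h12 h11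
            linarith only [h13]
          rw [h9] at h8
          linarith only [h7, h8, h10]
        linarith only [hc0, h2]
    · rw [hΓ2 hsl]
      positivity
  refine ⟨fun T => if T ∈ clq G S R ∧ T ⊆ un B then lzG G J S R m θ ζ' ρ κ₀ T else
    -(C₁ / m) * (M / (m : ℝ) ^ R), ?_, fun T hT => ?_⟩
  · rw [← sum_filter_add_sum_filter_not (clq G S R) (fun T => T ⊆ un B)]
    have f1 : ∑ T ∈ (clq G S R).filter (fun T => T ⊆ un B),
        (if T ∈ clq G S R ∧ T ⊆ un B then lzG G J S R m θ ζ' ρ κ₀ T else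
          -(C₁ / m) * (M / (m : ℝ) ^ R)) = L := by
      rw [hL, ← sum_light (G := G) (S := S) hB.sub hB.disj hB.ind
        (fun T => lzG G J S R m θ ζ' ρ κ₀ T)]
      refine sum_congr rfl fun T hT => ?_
      rw [if_pos (mem_filter.1 hT)]
    have f2 : ∑ T ∈ (clq G S R).filter (fun T => ¬ T ⊆ un B),
        (if T ∈ clq G S R ∧ T ⊆ un B then lzG G J S R m θ ζ' ρ κ₀ T else
          -(C₁ / m) * (M / (m : ℝ) ^ R)) = -(C₁ / m * (M / (m : ℝ) ^ R) *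
            (((clq G S R).filter fun T => ¬ T ⊆ un B).card : ℝ)) := by
      rw [sum_congr rfl (g := fun _ => -(C₁ / m) * (M / (m : ℝ) ^ R)), sum_const,
        nsmul_eq_mul]
      · ring
      intro T hT
      rw [if_neg fun h => (mem_filter.1 hT).2 h.2]
    rw [f1, f2]
    -- the copies
    have g1 : ((emb J G (S \ W)).card : ℝ) ≤ ((emb J G (un B)).card : ℝ) +
        ∑ z ∈ (S \ un B) \ W, ((((emb J G S).filter fun φ => ∃ i, φ i = z).card : ℕ) : ℝ) := by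
      have h1 := LocalB_split J G (S := S) (X := S \ un B) (W := W) sdiff_subset hWX
      rw [Finset.sdiff_sdiff_eq_self hunS] at h1
      exact_mod_cast h1
    have g2 : ∑ z ∈ (S \ un B) \ W,
        ((((emb J G S).filter fun φ => ∃ i, φ i = z).card : ℕ) : ℝ) +
          (((S \ un B) \ W).card : ℝ) * (M / m * (κ₁ / 2)) ≤ K * ∑ z ∈ S \ un B, xs z := by
      have h1 := sum_le_sum e4
      rw [sum_add_distrib, sum_const, nsmul_eq_mul, ← mul_sum] at h1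
      refine h1.trans (mul_le_mul_of_nonneg_left ?_ hK0)
      exact sum_le_sum_of_subset_of_nonneg sdiff_subset fun z _ _ => hxs0 z
    have g3 : K * (∑ z ∈ S \ un B, xs z + ζ' * N) =
        K * ∑ z ∈ S \ un B, xs z + K * (ζ' * N) := by ring
    rw [g3] at e3'
    linarith only [e3', e5, e6, g1, g2]
  · dsimp only
    by_cases h : T ⊆ un B
    · right
      obtain ⟨f, hf, rfl⟩ := LocalB_exists_tuple hB.sub hB.disj hB.ind hT h
      rw [if_pos ⟨hT, h⟩]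
      refine ⟨fun t ht => ?_, le_refl _⟩
      refine le_trans ?_ (aa_lower hB hη₁.le hf ht)
      refine mul_le_mul_of_nonneg_right ?_ hm00.le
      linarith only [hηb, hδf]
    · left
      rw [if_neg fun h' => h h'.2]

end main

end H57GH
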