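import Pool.Agent.H57.GH.Defs1
import Pool.Agent.H57.GH.LocalB

/-!
The local theorem for sets with many edges, case `u = 1`.
-/

namespace H57GH

open Finset H57LC H57LT

set_option linter.unusedSectionVars false

/-- the weight of `k` surplus vertices is monotone -/
lemma LocalB1_xi_mono {R s k l : ℕ} (h : k ≤ l) : xi R s k ≤ xi R s l := by
  unfold xi
  by_cases hk : 2 ≤ k
  · rw [if_pos hk, if_pos (hk.trans h)]
    have h1 : (k : ℝ) ≤ l := by exact_mod_cast h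
    have h2 : (k : ℝ) ^ 2 ≤ (l : ℝ) ^ 2 := pow_le_pow_left₀ (Nat.cast_nonneg _) h1 2
    exact mul_le_mul_of_nonneg_left h2 (by positivity)
  · rw [if_neg hk]
    split_ifs <;> positivity

lemma LocalB1_xi_nonneg (R s k : ℕ) : 0 ≤ xi R s k := by
  unfold xi
  split_ifs <;> positivity

/-- the weight of `k - Y` surplus vertices -/
lemma LocalB1_xi_ge {R s k X Y : ℕ} (hk : 2 ≤ k) (hXY : X + Y = k) :
    32 * (s : ℝ) / (R : ℝ) ^ 2 * ((k : ℝ) ^ 2 - 2 * k * Y) ≤ xi R s X := by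
  have hA : (0 : ℝ) ≤ 32 * (s : ℝ) / (R : ℝ) ^ 2 := by positivity
  have hk' : (k : ℝ) = X + Y := by exact_mod_cast hXY.symm
  have hX0 : (0 : ℝ) ≤ X := Nat.cast_nonneg _
  have hY0 : (0 : ℝ) ≤ Y := Nat.cast_nonneg _
  unfold xi
  by_cases hX : 2 ≤ X
  · rw [if_pos hX]
    refine mul_le_mul_of_nonneg_left ?_ hA
    rw [hk']
    nlinarith only []
  · rw [if_neg hX]
    have h1 : (X : ℝ) ≤ 1 := by exact_mod_cast (by omega : X ≤ 1)
    have h2 : (1 : ℝ) ≤ Y := by exact_mod_cast (by omega : 1 ≤ Y)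
    have h3 : (X : ℝ) ≤ Y := by linarith
    have h4 : (k : ℝ) ^ 2 - 2 * k * Y ≤ 0 := by
      rw [hk']
      nlinarith only [h1, h2, hk']
    exact mul_nonpos_of_nonneg_of_nonpos hA h4

/-- many light cliques see nearly all very heavy vertices with at least two missing neighbours -/
theorem xi_sum_ge (R s : ℕ) (hR : 3 ≤ R) (C η₁ θ : ℝ) (hC : 0 < C) (hη₁ : 0 < η₁)
    (hη₁1 : η₁ ≤ 1 / 16) (hθ : 0 < θ) (hθ1 : θ ≤ 1 / 64) :
    ∃ δ₀ : ℝ, 0 < δ₀ ∧ ∀ δ : ℝ, 0 < δ → δ ≤ δ₀ → ∃ m₀ : ℕ, ∀ m : ℕ, m₀ ≤ m →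
      ∀ (V : Type) [DecidableEq V] (G : SimpleGraph V) [DecidableRel G.Adj] (S : Finset V)
        (B : Fin R → Finset V), clq G S (R + 1) = ∅ → LS G S R m C η₁ δ B →
        2 ≤ (vh G S R m θ).card →
        7 / 10 * (32 * (s : ℝ) / (R : ℝ) ^ 2) * ((vh G S R m θ).card : ℝ) ^ 2 *
          ∏ l, ((B l).card : ℝ) ≤ ∑ f ∈ tcl G B, xi R s (hge G S (im f)) := by
  classical
  refine ⟨1 / 8, by norm_num, fun δ _ hδ1 => ⟨⌈16 * (R : ℝ) ^ 2 * C⌉₊ + 1, ?_⟩⟩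
  intro m hm V _ G _ S B _ h hv
  have hm1 : 1 ≤ m := by omega
  have hmC : 16 * (R : ℝ) ^ 2 * C ≤ m := by
    have h1 := Nat.le_ceil (16 * (R : ℝ) ^ 2 * C)
    have h2 : ((⌈16 * (R : ℝ) ^ 2 * C⌉₊ : ℕ) : ℝ) ≤ m := by
      exact_mod_cast (by omega : ⌈16 * (R : ℝ) ^ 2 * C⌉₊ ≤ m)
    exact h1.trans h2
  obtain ⟨W, hW⟩ : ∃ W : Finset V, W = vh G S R m θ := ⟨_, rfl⟩
  rw [← hW] at hv ⊢
  obtain ⟨P, hP⟩ : ∃ P : ℝ, P = ∏ l, ((B l).card : ℝ) := ⟨_, rfl⟩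
  have hP0 : 0 ≤ P := by
    rw [hP]
    exact prod_nonneg fun l _ => Nat.cast_nonneg _
  have hbad : ∀ z ∈ W, (((tcl G B).filter fun f => (hs G (im f) z).card < 2).card : ℝ) ≤
      1 / 32 * P := by
    intro z hz
    rw [hW] at hz
    unfold vh at hz
    rw [mem_filter] at hz
    have h1 := VHm_bad hR h hδ1 hm1 hz.2 hθ
    rw [← hP] at h1
    have h2 : 2 * θ * P ≤ 1 / 32 * P := mul_le_mul_of_nonneg_right (by linarith only [hθ1]) hP0
    exact h1.trans h2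
  have hWS : W ⊆ S := by
    intro z hz
    rw [hW] at hz
    unfold vh at hz
    rw [mem_filter] at hz
    exact hz.1
  have hDD := VHm_DD h hδ1 hm1 hC hmC
  have htcl := card_tcl_ge (G := G) B
  rw [← hP] at hDD htcl ⊢
  obtain ⟨A, hA⟩ : ∃ A : ℝ, A = 32 * (s : ℝ) / (R : ℝ) ^ 2 := ⟨_, rfl⟩
  have hA0 : 0 ≤ A := by rw [hA]; positivity
  obtain ⟨k, hk⟩ : ∃ k : ℕ, k = W.card := ⟨_, rfl⟩
  rw [← hk] at hv ⊢
  have hk0 : (0 : ℝ) ≤ k := Nat.cast_nonneg _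
  -- pointwise
  have hpt : ∀ f ∈ tcl G B, A * ((k : ℝ) ^ 2 - 2 * k *
      ∑ z ∈ W, (if (hs G (im f) z).card < 2 then (1 : ℝ) else 0)) ≤ xi R s (hge G S (im f)) := by
    intro f _
    have h1 : ((W.filter fun z => 2 ≤ (hs G (im f) z).card).card) +
        ((W.filter fun z => (hs G (im f) z).card < 2).card) = k := by
      rw [hk, ← card_filter_add_card_filter_not (s := W) (fun z => 2 ≤ (hs G (im f) z).card)]
      congr 2
      refine filter_congr fun z _ => ?_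
      omega
    have h2 := LocalB1_xi_ge (R := R) (s := s) hv h1
    have h3 : ∑ z ∈ W, (if (hs G (im f) z).card < 2 then (1 : ℝ) else 0) =
        ((W.filter fun z => (hs G (im f) z).card < 2).card : ℝ) := by
      rw [natCast_card_filter]
    rw [h3, hA]
    refine h2.trans (LocalB1_xi_mono ?_)
    exact card_le_card (filter_subset_filter _ hWS)
  have h1 : A * ((k : ℝ) ^ 2 * ((tcl G B).card : ℝ) - 2 * k * ∑ z ∈ W,
      (((tcl G B).filter fun f => (hs G (im f) z).card < 2).card : ℝ)) ≤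
      ∑ f ∈ tcl G B, xi R s (hge G S (im f)) := by
    refine le_trans (le_of_eq ?_) (sum_le_sum hpt)
    rw [← mul_sum, sum_sub_distrib, sum_const, nsmul_eq_mul, ← mul_sum, sum_comm]
    congr 1
    congr 1
    · ring
    · congr 1
      refine sum_congr rfl fun z _ => ?_
      rw [natCast_card_filter]
  have h2 : ∑ z ∈ W, (((tcl G B).filter fun f => (hs G (im f) z).card < 2).card : ℝ) ≤
      k * (1 / 32 * P) := by
    refine le_trans (sum_le_sum hbad) ?_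
    rw [sum_const, ← hk, nsmul_eq_mul]
  have h3 : 7 / 8 * P ≤ ((tcl G B).card : ℝ) := by linarith only [hDD, htcl]
  rw [← hA]
  refine le_trans ?_ h1
  have h4 : (k : ℝ) ^ 2 * (7 / 8 * P) ≤ (k : ℝ) ^ 2 * ((tcl G B).card : ℝ) :=
    mul_le_mul_of_nonneg_left h3 (by positivity)
  have h5 : 2 * (k : ℝ) * ∑ z ∈ W, (((tcl G B).filter fun f => (hs G (im f) z).card < 2).card : ℝ) ≤
      2 * k * (k * (1 / 32 * P)) := mul_le_mul_of_nonneg_left h2 (by positivity)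
  have h6 : 7 / 10 * ((k : ℝ) ^ 2 * P) ≤ (k : ℝ) ^ 2 * ((tcl G B).card : ℝ) - 2 * k * ∑ z ∈ W,
      (((tcl G B).filter fun f => (hs G (im f) z).card < 2).card : ℝ) := by
    have h7 : 0 ≤ (k : ℝ) ^ 2 * P := by positivity
    nlinarith only [h4, h5]
  have h7 := mul_le_mul_of_nonneg_left h6 hA0
  calc 7 / 10 * A * (k : ℝ) ^ 2 * P = A * (7 / 10 * ((k : ℝ) ^ 2 * P)) := by ring
    _ ≤ _ := h7

/-- the powers of `R m + r` and of `R m` -/
lemma LocalB1_pow {R m r n : ℕ} (hr : r ≤ R) (hm1 : 1 ≤ m) (hm : 6 * n ≤ m) :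
    ((R : ℝ) * m + r) ^ n ≤ 6 / 5 * ((R : ℝ) * m) ^ n := by
  have hm0 : (1 : ℝ) ≤ m := by exact_mod_cast hm1
  have hm00 : (0 : ℝ) < m := by linarith
  have hr' : (r : ℝ) ≤ R := by exact_mod_cast hr
  obtain ⟨x, hx⟩ : ∃ x : ℝ, x = (m : ℝ)⁻¹ := ⟨_, rfl⟩
  have hx0 : 0 < x := by rw [hx]; positivity
  have hxm : (m : ℝ) * x = 1 := by rw [hx]; exact mul_inv_cancel₀ hm00.ne'
  have hx1 : x ≤ 1 := by
    rw [hx]
    exact inv_le_one_of_one_le₀ hm0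
  have h1 : (R : ℝ) * m + r ≤ (R * m) * (1 + x) := by
    have : (R : ℝ) * m * (1 + x) = R * m + R * (m * x) := by ring
    rw [this, hxm]
    linarith
  have h2 : ((R : ℝ) * m + r) ^ n ≤ ((R * m) * (1 + x)) ^ n :=
    pow_le_pow_left₀ (by positivity) h1 n
  rw [mul_pow] at h2
  have h3 : (1 + x) ^ n * (1 - x) ^ n ≤ 1 := by
    rw [← mul_pow]
    refine pow_le_one₀ ?_ ?_
    · have : 0 ≤ 1 - x := by linarith
      positivity
    · nlinarith only [hx0]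
  have h4 : 1 + (n : ℝ) * (-x) ≤ (1 + -x) ^ n := one_add_mul_le_pow (by linarith) n
  have h5 : (5 : ℝ) / 6 ≤ (1 - x) ^ n := by
    have h6 : (6 : ℝ) * n ≤ m := by exact_mod_cast hm
    have h7 : (6 : ℝ) * n * x ≤ m * x := mul_le_mul_of_nonneg_right h6 hx0.le
    rw [hxm] at h7
    have h8 : (1 : ℝ) + -x = 1 - x := by ring
    rw [h8] at h4
    linarith only [h4, h7]
  have h6 : 0 ≤ (1 + x) ^ n := by positivity
  have h7 : (1 + x) ^ n * (5 / 6) ≤ 1 := (mul_le_mul_of_nonneg_left h5 h6).trans h3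
  have h8 : (1 + x) ^ n ≤ 6 / 5 := by linarith only [h7]
  refine h2.trans ?_
  have h9 : 0 ≤ ((R : ℝ) * m) ^ n := by positivity
  nlinarith only [h3, h5, h9]

/-- a vertex of medium degree pays for the slack -/
lemma LocalB1_medium {R m r s c : ℕ} {C' M κ₁ Γ : ℝ} (hs : 2 ≤ s) (hR : 1 ≤ R) (hm : 1 ≤ m)
    (hr : r ≤ R) (hκ₁ : 0 < κ₁) (hc : (c : ℝ) ≤ C') (hM : ((R : ℝ) * m) ^ s ≤ 2 * M)
    (hmC : 64 * (s : ℝ) * C' ^ 2 * 2 ^ s / κ₁ ≤ m)
    (hΓ : Γ ≤ 8 * s * (c : ℝ) ^ 2 * ((R : ℝ) * m + r) ^ (s - 2)) : Γ ≤ M / m * (κ₁ / 4) := by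
  obtain ⟨k, rfl⟩ := Nat.exists_eq_add_of_le hs
  have e1 : 2 + k - 2 = k := by omega
  rw [e1] at hΓ
  have hm0 : (1 : ℝ) ≤ m := by exact_mod_cast hm
  have hm00 : (0 : ℝ) < m := by linarith only [hm0]
  have hR1 : (1 : ℝ) ≤ R := by exact_mod_cast hR
  have hr' : (r : ℝ) ≤ R := by exact_mod_cast hr
  obtain ⟨σ, hσ⟩ : ∃ σ : ℝ, σ = ((2 + k : ℕ) : ℝ) := ⟨_, rfl⟩
  rw [← hσ] at hmC hΓ
  have hσ0 : 0 ≤ σ := by rw [hσ]; exact Nat.cast_nonneg _
  rw [div_le_iff₀ hκ₁] at hmC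
  have h1 : ((R : ℝ) * m + r) ^ k ≤ (2 * (R * m)) ^ k := by
    refine pow_le_pow_left₀ (by positivity) ?_ k
    nlinarith only [hm0, hr']
  have h2 : (c : ℝ) ^ 2 ≤ C' ^ 2 := pow_le_pow_left₀ (Nat.cast_nonneg _) hc 2
  have h3 : 8 * σ * (c : ℝ) ^ 2 * ((R : ℝ) * m + r) ^ k ≤ 8 * σ * C' ^ 2 * (2 * (R * m)) ^ k := by
    refine mul_le_mul (mul_le_mul_of_nonneg_left h2 (by positivity)) h1 (by positivity)
      (by positivity)
  refine (hΓ.trans h3).trans ?_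
  rw [div_mul_div_comm, le_div_iff₀ (by positivity)]
  have h4 : 8 * σ * C' ^ 2 * (2 * ((R : ℝ) * m)) ^ k * (m * 4) ≤
      (64 * σ * C' ^ 2 * 2 ^ (2 + k)) * ((R * m) ^ k * m / 2) := by
    rw [mul_pow 2 ((R : ℝ) * m) k, pow_add (2 : ℝ) 2 k]
    have h5 : 0 ≤ σ * C' ^ 2 * 2 ^ k * ((R * m) ^ k * m) := by positivity
    nlinarith only [h5]
  have h5 : (64 * σ * C' ^ 2 * 2 ^ (2 + k)) * (((R : ℝ) * m) ^ k * m / 2) ≤
      (m * κ₁) * ((R * m) ^ k * m / 2) := mul_le_mul_of_nonneg_right hmC (by positivity)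
  have h6 : ((R : ℝ) * m) ^ k * m ^ 2 ≤ (R * m) ^ (2 + k) := by
    rw [pow_add, mul_pow (R : ℝ) m 2]
    have h7 : (1 : ℝ) ≤ (R : ℝ) ^ 2 := one_le_pow₀ hR1
    have h8 : 0 ≤ ((R : ℝ) * m) ^ k * m ^ 2 := by positivity
    nlinarith only [h7, h8]
  have h7 : (m * κ₁) * (((R : ℝ) * m) ^ k * m / 2) = κ₁ / 2 * ((R * m) ^ k * m ^ 2) := by ring
  have h8 : κ₁ / 2 * (((R : ℝ) * m) ^ k * m ^ 2) ≤ κ₁ / 2 * (2 * M) :=
    mul_le_mul_of_nonneg_left (h6.trans hM) (by positivity)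
  linarith only [h4, h5, h8]

/-- many very heavy vertices pay for the slack -/
lemma LocalB1_many {R m r s c k : ℕ} {M P N Γ : ℝ} (hs : 2 ≤ s) (hR : 1 ≤ R) (hm : 1 ≤ m)
    (hr : r ≤ R) (hms : 6 * s ≤ m) (hM : ((R : ℝ) * m) ^ s ≤ 2 * M)
    (hP : 7 / 8 * (m : ℝ) ^ R ≤ P) (hck : c ≤ k)
    (hN : 7 / 10 * (32 * (s : ℝ) / (R : ℝ) ^ 2) * (k : ℝ) ^ 2 * P ≤ N)
    (hΓ : Γ ≤ 8 * s * (c : ℝ) ^ 2 * ((R : ℝ) * m + r) ^ (s - 2)) :
    Γ ≤ M / (m : ℝ) ^ R * N / (m : ℝ) ^ 2 := by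
  have hm0 : (1 : ℝ) ≤ m := by exact_mod_cast hm
  have hm00 : (0 : ℝ) < m := by linarith only [hm0]
  have hR1 : (1 : ℝ) ≤ R := by exact_mod_cast hR
  have hR0 : (0 : ℝ) < R := by linarith only [hR1]
  have hpow := LocalB1_pow (n := s - 2) hr hm (by omega)
  obtain ⟨Q, hQ⟩ : ∃ Q : ℝ, Q = ((R : ℝ) * m) ^ (s - 2) := ⟨_, rfl⟩
  rw [← hQ] at hpow
  have hQ0 : 0 ≤ Q := by rw [hQ]; positivity
  have hQs : ((R : ℝ) * m) ^ s = Q * ((R : ℝ) ^ 2 * m ^ 2) := by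
    rw [hQ, ← mul_pow, ← pow_add]
    congr 1
    omega
  have hs0 : (0 : ℝ) ≤ s := Nat.cast_nonneg _
  have hck' : (c : ℝ) ^ 2 ≤ (k : ℝ) ^ 2 :=
    pow_le_pow_left₀ (Nat.cast_nonneg _) (by exact_mod_cast hck) 2
  have h1 : 8 * s * (c : ℝ) ^ 2 * ((R : ℝ) * m + r) ^ (s - 2) ≤
      8 * s * (k : ℝ) ^ 2 * (6 / 5 * Q) := by
    refine mul_le_mul (mul_le_mul_of_nonneg_left hck' (by positivity)) hpow (by positivity)
      (by positivity)
  refine (hΓ.trans h1).trans ?_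
  have hM0 : 0 ≤ M := by
    have : 0 ≤ ((R : ℝ) * m) ^ s := by positivity
    linarith only [hM, this]
  have h2 : 7 / 10 * (32 * (s : ℝ) / (R : ℝ) ^ 2) * (k : ℝ) ^ 2 * (7 / 8 * (m : ℝ) ^ R) ≤ N :=
    (mul_le_mul_of_nonneg_left hP (by positivity)).trans hN
  have h3 : M / (m : ℝ) ^ R * (7 / 10 * (32 * (s : ℝ) / (R : ℝ) ^ 2) * (k : ℝ) ^ 2 *
      (7 / 8 * (m : ℝ) ^ R)) / (m : ℝ) ^ 2 ≤ M / (m : ℝ) ^ R * N / (m : ℝ) ^ 2 :=
    div_le_div_of_nonneg_right (mul_le_mul_of_nonneg_left h2 (by positivity)) (by positivity)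
  refine le_trans ?_ h3
  have h4 : M / (m : ℝ) ^ R * (7 / 10 * (32 * (s : ℝ) / (R : ℝ) ^ 2) * (k : ℝ) ^ 2 *
      (7 / 8 * (m : ℝ) ^ R)) / (m : ℝ) ^ 2 =
      98 / 5 * s * (k : ℝ) ^ 2 * (M / ((R : ℝ) ^ 2 * m ^ 2)) := by
    field_simp
    ring
  rw [h4]
  have h5 : Q ≤ 2 * (M / ((R : ℝ) ^ 2 * m ^ 2)) := by
    rw [hQs] at hM
    rw [← mul_div_assoc, le_div_iff₀ (by positivity)]
    exact hM
  have h6 : 0 ≤ (s : ℝ) * (k : ℝ) ^ 2 := by positivity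
  have h7 := mul_le_mul_of_nonneg_left h5 h6
  have h8 : 0 ≤ (s : ℝ) * (k : ℝ) ^ 2 * Q := by positivity
  nlinarith only [h7, h8]

variable {ι : Type*} [Fintype ι] [DecidableEq ι] (J : SimpleGraph ι) [DecidableRel J.Adj]

theorem localB1 [Nonempty ι] (hd : ∀ v, 1 ≤ dg J univ v) (θ : ℝ) (hθ : 0 < θ)
    (hθ1 : θ ≤ 1 / 64) : ∃ R₀ : ℕ, ∀ R : ℕ, R₀ ≤ R → ∀ r : ℕ, r ≤ R →
    ∀ C₁ CB ε : ℝ, 0 < C₁ → 0 < CB → 0 < ε → ε < 1 →
    ∃ m₀ : ℕ, ∀ m : ℕ, m₀ ≤ m →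
      ∀ (V : Type) [DecidableEq V] (G : SimpleGraph V) [DecidableRel G.Adj] (S : Finset V)
        (ρ Γ : ℝ), S.card ≤ R * m + r → clq G S (R + 1) = ∅ → TyB G S R m CB →
        M0 J R m ≤ ρ → ρ ≤ M0 J R m * (1 + CB / m) → 0 ≤ Γ →
        Γ ≤ 8 * Fintype.card ι * ((nl G S R m).card : ℝ) ^ 2 *
          ((R : ℝ) * m + r) ^ (Fintype.card ι - 2) → (¬ Slack G S R m θ 1 → Γ = 0) →
        ∃ z : Finset V → ℝ,
          ((emb J G (S \ vh G S R m θ)).card : ℝ) - ρ + Γ ≤ ∑ T ∈ clq G S R, z T +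
            ∑ y ∈ (vh G S R m θ).filter (fun y => 1 ≤ dg G S y),
              (dg G S y : ℝ) * (m : ℝ) ^ (Fintype.card ι - 2) ∧
          ∀ T ∈ clq G S R, z T ≤ -(C₁ / m) * (M0 J R m / (m : ℝ) ^ R) ∨
            ((∀ t ∈ T, (1 - ε) * m ≤ (aa G S T t : ℝ)) ∧ z T ≤ lz1 G J S R m θ ρ T) := by
  have hcs : 2 ≤ Fintype.card ι := two_le_card J (q := 0) (fun v => by simpa using hd v)
  obtain ⟨R₁, hR₁3, hcred⟩ := med_credit (Fintype.card ι) (by omega) θ hθ (by linarith only [hθ,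
      hθ1])
  obtain ⟨CM, hCM, hMb⟩ := M0_bounds J
  obtain ⟨R₂, hR₂⟩ := exists_nat_ge (2 * CM)
  refine ⟨max R₁ (max R₂ 3), fun R hR r hr C₁ CB ε hC₁ hCB hε hε1 => ?_⟩
  simp only [max_le_iff] at hR
  obtain ⟨hRa, hRb, hRc⟩ := hR
  have hR3 : 3 ≤ R := hR₁3.trans hRa
  have hR3r : (3 : ℝ) ≤ R := by exact_mod_cast hR3
  have hR0 : (0 : ℝ) < R := by linarith
  have hM : ∀ m : ℕ, 1 ≤ m → ((R : ℝ) * m) ^ Fintype.card ι ≤ 2 * M0 J R m := by
    intro m hm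
    have h1 := (hMb R m (by omega) hm).1
    have h2 : CM / R ≤ 1 / 2 := by
      rw [div_le_iff₀ hR0]
      have h4 : (R₂ : ℝ) ≤ R := by exact_mod_cast hRb
      linarith only [hR₂, h4]
    have h3 : (0 : ℝ) ≤ ((R : ℝ) * m) ^ Fintype.card ι := by positivity
    nlinarith only [h1, h2, h3]
  have hMup : ∀ m : ℕ, 1 ≤ m → M0 J R m ≤ ((R : ℝ) * m) ^ Fintype.card ι :=
    fun m hm => (hMb R m (by omega) hm).2
  obtain ⟨s, hs⟩ : ∃ s : ℝ, s = (Fintype.card ι : ℝ) := ⟨_, rfl⟩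
  have hs2 : (2 : ℝ) ≤ s := by rw [hs]; exact_mod_cast hcs
  -- the parameter `η₁`
  obtain ⟨η₁, hη₁, hηa, hηb⟩ : ∃ η₁ : ℝ, 0 < η₁ ∧ 4096 * s ^ 4 * R ^ 4 * η₁ ≤ 1 ∧
      4 * (R : ℝ) * η₁ ≤ ε := by
    refine ⟨min (1 / (4096 * s ^ 4 * R ^ 4)) (ε / (4 * R)), lt_min (by positivity) (by positivity),
      ?_, ?_⟩
    · have h1 := min_le_left (1 / (4096 * s ^ 4 * R ^ 4)) (ε / (4 * R))
      calc 4096 * s ^ 4 * R ^ 4 * min (1 / (4096 * s ^ 4 * R ^ 4)) (ε / (4 * R))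
          ≤ 4096 * s ^ 4 * R ^ 4 * (1 / (4096 * s ^ 4 * R ^ 4)) :=
            mul_le_mul_of_nonneg_left h1 (by positivity)
        _ = 1 := by field_simp
    · have h1 := min_le_right (1 / (4096 * s ^ 4 * R ^ 4)) (ε / (4 * R))
      calc 4 * (R : ℝ) * min (1 / (4096 * s ^ 4 * R ^ 4)) (ε / (4 * R))
          ≤ 4 * (R : ℝ) * (ε / (4 * R)) := mul_le_mul_of_nonneg_left h1 (by positivity)
        _ = ε := by field_simp
  have hηc : 16 * (R : ℝ) * η₁ ≤ 1 := by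
    have h1 : (1 : ℝ) ≤ s ^ 4 := one_le_pow₀ (by linarith)
    have h2 : (R : ℝ) ≤ R ^ 4 := by
      calc (R : ℝ) = R ^ 1 := (pow_one _).symm
        _ ≤ R ^ 4 := pow_le_pow_right₀ (by linarith) (by norm_num)
    have h3 : (R : ℝ) * η₁ ≤ R ^ 4 * η₁ := mul_le_mul_of_nonneg_right h2 hη₁.le
    have h4 : 1 * ((R : ℝ) ^ 4 * η₁) ≤ s ^ 4 * (R ^ 4 * η₁) :=
      mul_le_mul_of_nonneg_right h1 (by positivity)
    have h5 : 4096 * s ^ 4 * R ^ 4 * η₁ = 4096 * (s ^ 4 * (R ^ 4 * η₁)) := by ring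
    rw [h5] at hηa
    have h6 : 0 ≤ (R : ℝ) * η₁ := by positivity
    linarith
  have hη16 : η₁ ≤ 1 / 16 := by nlinarith only [hR3r, hηc]
  have hηa' : 4096 * (Fintype.card ι : ℝ) ^ 4 * R ^ 4 * η₁ ≤ 1 := by rw [← hs]; exact hηa
  obtain ⟨C, hC, hLS⟩ := exists_LSG R r (by omega) CB η₁ hCB hη₁ hη16
  obtain ⟨C', hC', mN, hfew⟩ := few_nonlight R r (by omega) CB hCB
  obtain ⟨κ₁, hκ₁, hcred2⟩ := hcred R hRa C η₁ hC hη₁ hη16
  obtain ⟨ε₇, hε₇, hε₇κ, hε₇h⟩ : ∃ ε₇ : ℝ, 0 < ε₇ ∧ ε₇ ≤ κ₁ ∧ ε₇ ≤ 1 / 2 :=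
    ⟨min κ₁ (1 / 2), lt_min hκ₁ (by norm_num), min_le_left _ _, min_le_right _ _⟩
  obtain ⟨δ₁, hδ₁, hA1⟩ := hcred2 ε₇ hε₇.le hε₇κ
  obtain ⟨δ₂, hδ₂, hA2⟩ := med_copies J hd hcs R r hR3 C η₁ (κ₁ / 2) hC hη₁ (by linarith) hM
  obtain ⟨δ₃, hδ₃, hA3⟩ := light_sumG J hd hcs R r hR3 CB C η₁ θ ε₇ hC hη₁ hM hηa' hθ
    (by linarith) hε₇
  obtain ⟨δ₄, hδ₄, hA4⟩ := xi_sum_ge R (Fintype.card ι) hR3 C η₁ θ hC hη₁ hη16 hθ hθ1
  obtain ⟨δ, hδ, hδa, hδb, hδc, hδd, hδe, hδf⟩ : ∃ δ : ℝ, 0 < δ ∧ δ ≤ δ₁ ∧ δ ≤ δ₂ ∧ δ ≤ δ₃ ∧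
      δ ≤ δ₄ ∧ 8 * (R : ℝ) * δ ≤ 1 ∧ 2 * δ ≤ ε := by
    refine ⟨min (min (min δ₁ δ₂) (min δ₃ δ₄)) (min (1 / (8 * R)) (ε / 2)), ?_, ?_, ?_, ?_, ?_,
      ?_, ?_⟩
    · exact lt_min (lt_min (lt_min hδ₁ hδ₂) (lt_min hδ₃ hδ₄)) (lt_min (by positivity)
        (by positivity))
    · exact (min_le_left _ _).trans ((min_le_left _ _).trans (min_le_left _ _))
    · exact (min_le_left _ _).trans ((min_le_left _ _).trans (min_le_right _ _))
    · exact (min_le_left _ _).trans ((min_le_right _ _).trans (min_le_left _ _))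
    · exact (min_le_left _ _).trans ((min_le_right _ _).trans (min_le_right _ _))
    · have h1 : min (min (min δ₁ δ₂) (min δ₃ δ₄)) (min (1 / (8 * R)) (ε / 2)) ≤ 1 / (8 * (R : ℝ)) :=
        (min_le_right _ _).trans (min_le_left _ _)
      calc _ ≤ 8 * (R : ℝ) * (1 / (8 * R)) := mul_le_mul_of_nonneg_left h1 (by positivity)
        _ = 1 := by field_simp
    · have h1 : min (min (min δ₁ δ₂) (min δ₃ δ₄)) (min (1 / (8 * R)) (ε / 2)) ≤ ε / 2 :=
        (min_le_right _ _).trans (min_le_right _ _)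
      linarith
  obtain ⟨m1, hm1⟩ := hA1 δ hδ hδa
  obtain ⟨m2, hm2⟩ := hA2 δ hδ hδb
  obtain ⟨m3, hm3⟩ := hA3 δ hδ hδc
  obtain ⟨m4, hm4⟩ := hA4 δ hδ hδd
  obtain ⟨mL, hmL⟩ := hLS δ hδ
  obtain ⟨m5, hm5⟩ := exists_nat_ge (4 * C₁ * (2 * (R : ℝ)) ^ R / κ₁)
  obtain ⟨m6, hm6⟩ := exists_nat_ge (C₁ * (R : ℝ) ^ Fintype.card ι * (R : ℝ) ^ R)
  obtain ⟨m7, hm7⟩ := exists_nat_ge (64 * s * C' ^ 2 * 2 ^ Fintype.card ι / κ₁)
  refine ⟨max m1 (max m2 (max m3 (max m4 (max mL (max m5 (max m6 (max m7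
    (max (6 * Fintype.card ι) (max mN 1))))))))),
    fun m hm V _ G _ S ρ Γ hS hfree hTy hρ1 hρ2 hΓ0 hΓ1 hΓ2 => ?_⟩
  simp only [max_le_iff] at hm
  obtain ⟨hma, hmb, hmc, hmd, hmLL, hme, hmf, hmg, hmh, hmN, hmone⟩ := hm
  have hm0 : (1 : ℝ) ≤ m := by exact_mod_cast hmone
  have hm00 : (0 : ℝ) < m := by linarith only [hθ, hθ1, hm0]
  obtain ⟨B, hB⟩ := hmL m hmLL V G S hS hfree hTy
  -- numbers
  obtain ⟨M, hMdef⟩ : ∃ M : ℝ, M = M0 J R m := ⟨_, rfl⟩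
  have hMlo := hM m hmone
  have hMhi := hMup m hmone
  rw [← hMdef] at hMlo hMhi hρ1 hρ2 ⊢
  have hMpos : 0 < M := by
    have : 0 < ((R : ℝ) * m) ^ Fintype.card ι := by positivity
    linarith only [hMlo, this]
  obtain ⟨W, hW⟩ : ∃ W : Finset V, W = vh G S R m θ := ⟨_, rfl⟩
  rw [← hW]
  have hWX : W ⊆ S \ un B := by
    rw [hW]
    refine vh_subset hB hmone ?_
    have h1 : δ ≤ 1 / 24 := by nlinarith only [hR3r, hδe]
    have h2 : (1 : ℝ) - δ - 2 * η₁ ≥ 1 / 2 := by linarith only [hθ, hθ1, hη16, h1]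
    nlinarith only [hθ1, hε1, hR3r, hη₁, hηb, hδ, hδe]
  have hWmem : ∀ y ∈ W, (dg G S y : ℝ) ≤ θ * R * m := by
    intro y hy
    rw [hW] at hy
    unfold vh at hy
    exact (mem_filter.1 hy).2
  have hnW : ∀ y ∈ (S \ un B) \ W, θ * R * m < (dg G S y : ℝ) := by
    intro y hy
    rw [mem_sdiff] at hy
    by_contra hcon
    push Not at hcon
    apply hy.2
    rw [hW]
    unfold vh
    exact mem_filter.2 ⟨(mem_sdiff.1 hy.1).1, hcon⟩
  have hunS : un B ⊆ S := fun z hz => by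
    obtain ⟨i, hi⟩ := mem_un.1 hz
    exact hB.sub i hi
  obtain ⟨P, hP⟩ : ∃ P : ℝ, P = ∏ l, ((B l).card : ℝ) := ⟨_, rfl⟩
  have hPpos : 0 < P := by
    rw [hP]
    refine prod_pos fun l _ => ?_
    have h3 := hB.size_lo l
    have h4 : δ ≤ 1 / 24 := by nlinarith only [hR3r, hδe]
    have h5 : (1 / 2 : ℝ) * m ≤ (1 - δ) * m := mul_le_mul_of_nonneg_right (by linarith only [hε1,
        hδf]) hm00.le
    linarith only [hθ, hθ1, hm0, h3, h5]
  have hPlo : 7 / 8 * (m : ℝ) ^ R ≤ P := by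
    have h1 : ∏ _l : Fin R, ((1 - δ) * (m : ℝ)) ≤ P := by
      rw [hP]
      refine prod_le_prod (fun l _ => ?_) fun l _ => hB.size_lo l
      have h4 : δ ≤ 1 / 24 := by nlinarith only [hR3r, hδ, hδe]
      have : 0 ≤ 1 - δ := by linarith only [hε1, hδf]
      positivity
    rw [prod_const, card_univ, Fintype.card_fin, mul_pow] at h1
    have h2 : 1 + (R : ℝ) * (-δ) ≤ (1 + -δ) ^ R := one_add_mul_le_pow (by nlinarith only [hε1, hδf]) R
    have h3 : (7 : ℝ) / 8 ≤ (1 - δ) ^ R := by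
      have h4 : (1 : ℝ) + -δ = 1 - δ := by ring
      rw [h4] at h2
      linarith only [hδe, h2]
    exact (mul_le_mul_of_nonneg_right h3 (by positivity)).trans h1
  obtain ⟨xs, hxs⟩ : ∃ xs : V → ℝ, ∀ z, xs z = ∑ f ∈ tcl G B, xz G R (Fintype.card ι) θ f z :=
    ⟨_, fun _ => rfl⟩
  have hxs0 : ∀ z, 0 ≤ xs z := fun z => by
    rw [hxs]
    exact sum_nonneg fun f hf => LocalB_xz_nonneg (by omega) hf z
  obtain ⟨N, hN⟩ : ∃ N : ℝ, N = ∑ f ∈ tcl G B, xi R (Fintype.card ι) (hge G S (im f)) := ⟨_, rfl⟩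
  have hN0 : 0 ≤ N := by
    rw [hN]
    exact sum_nonneg fun f _ => LocalB1_xi_nonneg _ _ _
  obtain ⟨K, hK⟩ : ∃ K : ℝ, K = (1 - ε₇) * M / (m * P) := ⟨_, rfl⟩
  have hK0 : 0 ≤ K := by
    rw [hK]
    have : 0 ≤ 1 - ε₇ := by linarith only [hθ, hθ1, hε₇h]
    positivity
  -- the light sum
  have e3 := hm3 m hmc V G S B ρ 0 0 le_rfl hS hB (by rw [← hMdef]; exact hρ1)
    (by rw [← hMdef]; exact hρ2)
  obtain ⟨L, hL⟩ : ∃ L : ℝ, L = ∑ f ∈ tcl G B, lzG G J S R m θ 0 ρ 0 (im f) := ⟨_, rfl⟩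
  have e3' : ((emb J G (un B)).card : ℝ) - ρ ≤ L - K * ∑ z ∈ S \ un B, xs z := by
    have h1 : ∑ f ∈ tcl G B, (∑ z ∈ S \ un B, xz G R (Fintype.card ι) θ f z +
            0 * nuG G S 0 (im f)) = ∑ z ∈ S \ un B, xs z := by
      simp only [zero_mul, add_zero]
      rw [sum_comm]
      exact sum_congr rfl fun z _ => (hxs z).symm
    rw [h1, ← hMdef, ← hP, ← hL] at e3
    have h2 : (1 - ε₇) * M * (∑ z ∈ S \ un B, xs z) / (m * P) =
        K * ∑ z ∈ S \ un B, xs z := by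
      rw [hK]
      ring
    rw [h2] at e3
    exact e3
  -- the heavy vertices that are not very heavy
  have e4 : ∀ z ∈ (S \ un B) \ W,
      ((((emb J G S).filter fun φ => ∃ i, φ i = z).card : ℕ) : ℝ) + M / m * (κ₁ / 2) ≤
        K * xs z := by
    intro z hz
    have hzX := (mem_sdiff.1 hz).1
    have h1 := hm1 m hma V G S B hfree hB z hzX (hnW z hz)
    have h2 := hm2 m hmb V G S B hS hfree hB z hzX
    rw [← hMdef] at h2
    rw [← hxs, ← hP] at h1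
    have h3 : 0 ≤ M / m := by positivity
    have h4 := mul_le_mul_of_nonneg_left h1 h3
    have h5 : M / m * ((1 - ε₇) * xs z / P) = K * xs z := by
      rw [hK]
      field_simp
    rw [h5] at h4
    have h6 : M / m * ((Fintype.card ι : ℝ) / R *
        ((∑ i, (dg G (B i) z : ℝ)) / ((R - 1) * m)) + κ₁ / 2) + M / m * (κ₁ / 2) =
        M / m * ((Fintype.card ι : ℝ) / R *
        ((∑ i, (dg G (B i) z : ℝ)) / ((R - 1) * m)) + κ₁) := by ring
    linarith only [h2, h4]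
  -- the cliques that are not light
  have e5 : C₁ / m * (M / (m : ℝ) ^ R) *
      (((clq G S R).filter fun T => ¬ T ⊆ un B).card : ℝ) ≤
      (((S \ un B) \ W).card : ℝ) * (M / m * (κ₁ / 4)) +
        ∑ y ∈ W.filter (fun y => 1 ≤ dg G S y),
          (dg G S y : ℝ) * (m : ℝ) ^ (Fintype.card ι - 2) := by
    obtain ⟨A, hA⟩ : ∃ A : ℝ, A = C₁ / m * (M / (m : ℝ) ^ R) := ⟨_, rfl⟩
    have hA0 : 0 ≤ A := by rw [hA]; positivity
    rw [← hA]
    have h1 : (((clq G S R).filter fun T => ¬ T ⊆ un B).card : ℝ) ≤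
        ∑ z ∈ S \ un B, ((dg G S z).choose (R - 1) : ℝ) := by
      exact_mod_cast LocalB_meet S B
    have h2 : ∑ z ∈ S \ un B, ((dg G S z).choose (R - 1) : ℝ) =
        ∑ z ∈ (S \ un B) \ W, ((dg G S z).choose (R - 1) : ℝ) +
          ∑ z ∈ W, ((dg G S z).choose (R - 1) : ℝ) := (sum_sdiff hWX).symm
    have h3 : A * ∑ z ∈ (S \ un B) \ W, ((dg G S z).choose (R - 1) : ℝ) ≤
        (((S \ un B) \ W).card : ℝ) * (M / m * (κ₁ / 4)) := by
      rw [mul_sum, ← nsmul_eq_mul]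
      refine sum_le_card_nsmul _ _ _ fun z _ => ?_
      have h4 : ((dg G S z).choose (R - 1) : ℝ) ≤ (S.card : ℝ) ^ (R - 1) := by
        have h5 : (dg G S z).choose (R - 1) ≤ S.card ^ (R - 1) :=
          (Nat.choose_le_pow _ _).trans (Nat.pow_le_pow_left (card_filter_le _ _) _)
        exact_mod_cast h5
      refine (mul_le_mul_of_nonneg_left h4 hA0).trans ?_
      rw [hA]
      refine LocalB_cost1 (by omega) hmone hr hC₁.le hMpos.le hS ?_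
      have h6 : (m5 : ℝ) ≤ m := by exact_mod_cast hme
      have h7 := hm5.trans h6
      rw [div_le_iff₀ hκ₁] at h7
      linarith only [h7]
    have h4 : A * ∑ z ∈ W, ((dg G S z).choose (R - 1) : ℝ) ≤
        ∑ y ∈ W.filter (fun y => 1 ≤ dg G S y),
          (dg G S y : ℝ) * (m : ℝ) ^ (Fintype.card ι - 2) := by
      rw [mul_sum, sum_filter]
      refine sum_le_sum fun y hy => ?_
      by_cases hdy : 1 ≤ dg G S y
      · rw [if_pos hdy]
        have h5 : ((dg G S y).choose (R - 1) : ℝ) ≤ (dg G S y : ℝ) ^ (R - 1) := by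
          exact_mod_cast Nat.choose_le_pow (dg G S y) (R - 1)
        refine (mul_le_mul_of_nonneg_left h5 hA0).trans ?_
        rw [hA]
        have h8 : C₁ / m * (M / (m : ℝ) ^ R) * (dg G S y : ℝ) ^ (R - 1) ≤
            (dg G S y : ℝ) ^ (1 + 0) * (m : ℝ) ^ (Fintype.card ι - 2 - 0) := by
          refine LocalB_cost2 (by omega) (by omega) hmone hC₁.le hMhi ?_ ?_
          · have h6 := hWmem y hy
            have h7 : θ * R * m ≤ 1 * R * m :=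
              mul_le_mul_of_nonneg_right (mul_le_mul_of_nonneg_right (by linarith only [hθ,
                  hθ1]) hR0.le) hm00.le
            linarith only [h6, h7]
          · exact hm6.trans (by exact_mod_cast hmf)
        simpa using h8
      · rw [if_neg hdy]
        have h5 : (dg G S y).choose (R - 1) = 0 := Nat.choose_eq_zero_of_lt (by omega)
        rw [h5]
        simp
    calc A * (((clq G S R).filter fun T => ¬ T ⊆ un B).card : ℝ)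
        ≤ A * ∑ z ∈ S \ un B, ((dg G S z).choose (R - 1) : ℝ) :=
          mul_le_mul_of_nonneg_left h1 hA0
      _ = A * ∑ z ∈ (S \ un B) \ W, ((dg G S z).choose (R - 1) : ℝ) +
          A * ∑ z ∈ W, ((dg G S z).choose (R - 1) : ℝ) := by rw [h2]; ring
      _ ≤ _ := by linarith
  -- the slack
  obtain ⟨Ξ, hΞ⟩ : ∃ Ξ : ℝ, Ξ = M / (m : ℝ) ^ R * N / (m : ℝ) ^ 2 := ⟨_, rfl⟩
  have hΞ0 : 0 ≤ Ξ := by rw [hΞ]; positivity
  have e6 : Γ ≤ (((S \ un B) \ W).card : ℝ) * (M / m * (κ₁ / 4)) + Ξ := by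
    have hc0 : 0 ≤ (((S \ un B) \ W).card : ℝ) * (M / m * (κ₁ / 4)) := by positivity
    by_cases hsl : Slack G S R m θ 1
    · by_cases hmed : ∃ z ∈ S, θ * R * m < (dg G S z : ℝ) ∧ (dg G S z : ℝ) < ((R : ℝ) - 5 / 4) * m
      · obtain ⟨z, hzS, hz1, hz2⟩ := hmed
        have hzX : z ∈ (S \ un B) \ W := by
          rw [mem_sdiff, mem_sdiff]
          refine ⟨⟨hzS, fun hzB => ?_⟩, fun hzW => ?_⟩
          · obtain ⟨i, hi⟩ := mem_un.1 hzB
            have h1 := (light_dg hB hi).trans_lt hz2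
            have h2 := lt_of_mul_lt_mul_right h1 hm00.le
            have h3 : ((R : ℝ) - 1) * (δ + 2 * η₁) ≤ 1 / 4 := by
              have h4 : ((R : ℝ) - 1) * (δ + 2 * η₁) ≤ R * (δ + 2 * η₁) :=
                mul_le_mul_of_nonneg_right (by linarith only []) (by linarith only [hη₁, hηc, hδ,
                    hδe, h2])
              have h5 : (R : ℝ) * (δ + 2 * η₁) = R * δ + 2 * (R * η₁) := by ring
              linarith only [hη₁, hηc, hδ, hδe]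
            have h6 : ((R : ℝ) - 1) * (1 - δ - 2 * η₁) = (R - 1) - (R - 1) * (δ + 2 * η₁) := by
              ring
            linarith only [hη₁, hηc, hδ, hδe, h2]
          · exact absurd (hWmem z hzW) (not_le.2 hz1)
        have h1 : (1 : ℝ) ≤ (((S \ un B) \ W).card : ℝ) := by
          have : 0 < ((S \ un B) \ W).card := card_pos.2 ⟨z, hzX⟩
          exact_mod_cast this
        have h2 : Γ ≤ M / m * (κ₁ / 4) := by
          have h3 : (m7 : ℝ) ≤ m := by exact_mod_cast hmg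
          have h4 := hm7.trans h3
          have h5 : ((nl G S R m).card : ℝ) ≤ C' := by
            have h6 := hfew m hmN V G S hS hfree hTy
            have h7 : (nl G S R m).card =
                (S.filter fun z => (dg G S z : ℝ) < ((R : ℝ) - 5 / 4) * m).card := by
              unfold nl
              congr 1
            rw [h7]
            exact h6
          exact LocalB1_medium hcs (by omega) hmone hr hκ₁ h5 hMlo (by rw [← hs]; exact h4) hΓ1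
        have h3 : 0 ≤ M / m * (κ₁ / 4) := by positivity
        nlinarith only [hθ1, hΓ0, hΞ0, h1, h2]
      · have hv : 2 ≤ W.card := by
          rcases hsl with h1 | h1
          · exact absurd h1 hmed
          · rw [hW]
            exact h1
        have hnl : (nl G S R m).card ≤ W.card := by
          refine card_le_card fun z hz => ?_
          unfold nl at hz
          rw [mem_filter] at hz
          rw [hW]
          unfold vh
          refine mem_filter.2 ⟨hz.1, ?_⟩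
          by_contra hcon
          push Not at hcon
          exact hmed ⟨z, hz.1, hcon, hz.2⟩
        have h1 := hm4 m hmd V G S B hfree hB (by rw [← hW]; exact hv)
        rw [← hP, ← hN, ← hW] at h1
        have h2 : Γ ≤ Ξ := by
          rw [hΞ]
          exact LocalB1_many hcs (by omega) hmone hr hmh hMlo hPlo hnl h1 hΓ1
        linarith only [hc0, h2]
    · rw [hΓ2 hsl]
      positivity
  refine ⟨fun T => if T ∈ clq G S R ∧ T ⊆ un B then lz1 G J S R m θ ρ T else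
    -(C₁ / m) * (M / (m : ℝ) ^ R), ?_, fun T hT => ?_⟩
  · rw [← sum_filter_add_sum_filter_not (clq G S R) (fun T => T ⊆ un B)]
    have f1 : ∑ T ∈ (clq G S R).filter (fun T => T ⊆ un B),
        (if T ∈ clq G S R ∧ T ⊆ un B then lz1 G J S R m θ ρ T else
          -(C₁ / m) * (M / (m : ℝ) ^ R)) = L + Ξ := by
      have h1 : L + Ξ = ∑ f ∈ tcl G B, lz1 G J S R m θ ρ (im f) := by
        unfold lz1
        rw [sum_add_distrib, hL, hΞ, hN, ← hMdef]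
        congr 1
        rw [mul_sum, sum_div]
      rw [h1, ← sum_light (G := G) (S := S) hB.sub hB.disj hB.ind
        (fun T => lz1 G J S R m θ ρ T)]
      refine sum_congr rfl fun T hT => ?_
      rw [if_pos (mem_filter.1 hT)]
    have f2 : ∑ T ∈ (clq G S R).filter (fun T => ¬ T ⊆ un B),
        (if T ∈ clq G S R ∧ T ⊆ un B then lz1 G J S R m θ ρ T else
          -(C₁ / m) * (M / (m : ℝ) ^ R)) = -(C₁ / m * (M / (m : ℝ) ^ R) *
            (((clq G S R).filter fun T => ¬ T ⊆ un B).card : ℝ)) := by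
      rw [sum_congr rfl (g := fun _ => -(C₁ / m) * (M / (m : ℝ) ^ R)), sum_const,
        nsmul_eq_mul]
      · ring
      intro T hT
      rw [if_neg fun h => (mem_filter.1 hT).2 h.2]
    rw [f1, f2]
    -- the copies
    have g1 : ((emb J G (S \ W)).card : ℝ) ≤ ((emb J G (un B)).card : ℝ) +
        ∑ z ∈ (S \ un B) \ W, ((((emb J G S).filter fun φ => ∃ i, φ i = z).card : ℕ) : ℝ) := by
      have h1 := LocalB_split J G (S := S) (X := S \ un B) (W := W) sdiff_subset hWX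
      rw [Finset.sdiff_sdiff_eq_self hunS] at h1
      exact_mod_cast h1
    have g2 : ∑ z ∈ (S \ un B) \ W,
        ((((emb J G S).filter fun φ => ∃ i, φ i = z).card : ℕ) : ℝ) +
          (((S \ un B) \ W).card : ℝ) * (M / m * (κ₁ / 2)) ≤ K * ∑ z ∈ S \ un B, xs z := by
      have h1 := sum_le_sum e4
      rw [sum_add_distrib, sum_const, nsmul_eq_mul, ← mul_sum] at h1
      refine h1.trans (mul_le_mul_of_nonneg_left ?_ hK0)
      exact sum_le_sum_of_subset_of_nonneg sdiff_subset fun z _ _ => hxs0 z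
    linarith only [e3', e5, e6, g1, g2]
  · dsimp only
    by_cases h : T ⊆ un B
    · right
      obtain ⟨f, hf, rfl⟩ := LocalB_exists_tuple hB.sub hB.disj hB.ind hT h
      rw [if_pos ⟨hT, h⟩]
      refine ⟨fun t ht => ?_, le_refl _⟩
      refine le_trans ?_ (aa_lower hB hη₁.le hf ht)
      refine mul_le_mul_of_nonneg_right ?_ hm00.le
      linarith only [hηb, hδf]
    · left
      rw [if_neg fun h' => h h'.2]

end H57GH
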