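import Pool.Agent.H57.GH.BConv
import Pool.Agent.H57.LC.TurN
import Pool.Agent.H57.GH.JoinH

/-!
Project SM: a hub joined to large classes of several copies of `L` (`u = 1`).
-/

namespace H57GH

open Finset H57LC H57LT H57E32

set_option linter.unusedSectionVars false

/-- `k` copies of the Turan graph and a vertex `none` joined to the first `t i` classes of the
copy `i` -/
def MH (w m r : ℕ) {k : ℕ} (t : Fin k → ℕ) : SimpleGraph (Option (Fin k × Fin (w * m + r))) where
  Adj a b := match a, b with
    | none, none => False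
    | none, some p => p.2.val % w < t p.1
    | some p, none => p.2.val % w < t p.1
    | some p, some q => p.1 = q.1 ∧ (TG w m r).Adj p.2 q.2
  symm := ⟨fun a b h => by
    cases a <;> cases b
    · exact h
    · exact h
    · exact h
    · exact ⟨h.1.symm, h.2.symm⟩⟩
  loopless := ⟨fun a h => by
    cases a
    · exact h
    · exact (TG w m r).loopless.irrefl _ h.2⟩

noncomputable instance decMH (w m r : ℕ) {k : ℕ} (t : Fin k → ℕ) :
    DecidableRel (MH w m r t).Adj := fun _ _ => Classical.propDecidable _

/-- degree of a vertex of a copy -/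
theorem MHub_deg_some {R m r k : ℕ} (t : Fin k → ℕ) (hr : r < R + 1) (ht : ∀ i, t i ≤ r)
    (i : Fin k) (x : Fin ((R + 1) * m + r)) :
    (cns (MH (R + 1) m r t) {some (i, x)}).ncard ≤ R * m + r := by
  have hw : 1 ≤ R + 1 := by omega
  have hsub : cns (MH (R + 1) m r t) {some (i, x)} ⊆
      (((univ \ cls (tcN (R + 1) m r hw) (tcN (R + 1) m r hw x)).image
        (fun y => (some (i, y) : Option (Fin k × Fin ((R + 1) * m + r))))) ∪
        (if x.val % (R + 1) < t i then {none} else ∅) : Finset _) := by
    intro v hv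
    have h1 : (MH (R + 1) m r t).Adj (some (i, x)) v := hv _ (mem_singleton_self _)
    rw [mem_coe, mem_union, mem_image]
    cases v with
    | none =>
      right
      have h2 : x.val % (R + 1) < t i := h1
      rw [if_pos h2]
      exact mem_singleton_self _
    | some q =>
      left
      obtain ⟨j, y⟩ := q
      have h2 : i = j ∧ (TG (R + 1) m r).Adj x y := h1
      obtain ⟨rfl, h3⟩ := h2
      refine ⟨y, mem_sdiff.2 ⟨mem_univ _, fun hy => ?_⟩, rfl⟩
      rw [tcN_adj hw] at h3
      exact h3 (mem_filter.1 hy).2.symm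
  refine (Set.ncard_le_ncard hsub (Finset.finite_toSet _)).trans ?_
  rw [Set.ncard_coe_finset]
  refine (card_union_le _ _).trans ?_
  rw [card_image_of_injective _ (fun y z h => by
    have h2 := Option.some.inj h
    exact (Prod.mk.injEq _ _ _ _ ▸ h2).2),
    card_sdiff_of_subset (subset_univ _), tcN_card hw hr, card_univ, Fintype.card_fin]
  have h1 : (tcN (R + 1) m r hw x).val = x.val % (R + 1) := rfl
  rw [h1]
  have h2 : (R + 1) * m + r = R * m + m + r := by ring
  have h3 := ht i
  by_cases hx : x.val % (R + 1) < t i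
  · have h4 : x.val % (R + 1) < r := by omega
    rw [if_pos hx, if_pos h4, card_singleton]
    omega
  · rw [if_neg hx, card_empty]
    split_ifs <;> omega

/-- degree of the hub -/
theorem MHub_deg_none {R m r k : ℕ} (t : Fin k → ℕ) (hr : r < R + 1)
    (hs : (∑ i, t i) * (m + 1) ≤ R * m + r) :
    (cns (MH (R + 1) m r t) {none}).ncard ≤ R * m + r := by
  have hw : 1 ≤ R + 1 := by omega
  have hsub : cns (MH (R + 1) m r t) {none} ⊆
      ((univ : Finset (Fin k)).biUnion (fun i =>
        ((univ : Finset (Fin (R + 1))).filter (fun c => c.val < t i)).biUnion (fun c =>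
          (cls (tcN (R + 1) m r hw) c).image
            (fun y => (some (i, y) : Option (Fin k × Fin ((R + 1) * m + r)))))) : Finset _) := by
    intro v hv
    have h1 : (MH (R + 1) m r t).Adj none v := hv _ (mem_singleton_self _)
    cases v with
    | none => exact absurd h1 (by intro h; exact h)
    | some q =>
      obtain ⟨j, y⟩ := q
      have h2 : y.val % (R + 1) < t j := h1
      rw [mem_coe, mem_biUnion]
      refine ⟨j, mem_univ _, ?_⟩
      rw [mem_biUnion]
      refine ⟨tcN (R + 1) m r hw y, mem_filter.2 ⟨mem_univ _, h2⟩, ?_⟩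
      rw [mem_image]
      exact ⟨y, mem_filter.2 ⟨mem_univ _, rfl⟩, rfl⟩
  refine (Set.ncard_le_ncard hsub (Finset.finite_toSet _)).trans ?_
  rw [Set.ncard_coe_finset]
  refine le_trans ?_ hs
  rw [sum_mul]
  refine card_biUnion_le.trans (sum_le_sum fun i _ => ?_)
  refine card_biUnion_le.trans ?_
  have h1 : ∀ c ∈ (univ : Finset (Fin (R + 1))).filter (fun c => c.val < t i),
      ((cls (tcN (R + 1) m r hw) c).image
        (fun y => (some (i, y) : Option (Fin k × Fin ((R + 1) * m + r))))).card ≤ m + 1 := by
    intro c _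
    refine card_image_le.trans ?_
    rw [tcN_card hw hr]
    split_ifs <;> omega
  refine (sum_le_sum h1).trans ?_
  rw [sum_const, smul_eq_mul]
  refine Nat.mul_le_mul_right _ ?_
  have h2 : ((univ : Finset (Fin (R + 1))).filter (fun c => c.val < t i)).card ≤
      (range (t i)).card := by
    refine card_le_card_of_injOn (fun c => c.val) ?_ ?_
    · intro c hc
      have := (mem_filter.1 (mem_coe.1 hc)).2
      exact mem_coe.2 (mem_range.2 this)
    · intro a _ b _ h
      exact Fin.ext h
  rwa [card_range] at h2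

/-- the copies contain no large clique -/
theorem MHub_free_some {R m r k : ℕ} (t : Fin k → ℕ) {n : ℕ} (hn : R + 1 < n)
    (A : Finset (Option (Fin k × Fin ((R + 1) * m + r))))
    (hA : (MH (R + 1) m r t).IsNClique n A) (hnone : none ∉ A) : False := by
  classical
  have hsome : ∀ a ∈ A, ∃ q, a = some q := by
    intro a ha
    cases a with
    | none => exact absurd ha hnone
    | some q => exact ⟨q, rfl⟩
  have hpos : 0 < A.card := by rw [hA.card_eq]; omega
  obtain ⟨a₀, ha₀⟩ := card_pos.1 hpos
  obtain ⟨⟨i₀, x₀⟩, rfl⟩ := hsome a₀ ha₀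
  set f : Option (Fin k × Fin ((R + 1) * m + r)) → Fin ((R + 1) * m + r) :=
    fun a => (a.getD (i₀, x₀)).2 with hf
  have hadj : ∀ a ∈ A, ∀ b ∈ A, a ≠ b → (TG (R + 1) m r).Adj (f a) (f b) := by
    intro a ha b hb hab
    obtain ⟨q, rfl⟩ := hsome a ha
    obtain ⟨q', rfl⟩ := hsome b hb
    have h1 : q.1 = q'.1 ∧ (TG (R + 1) m r).Adj q.2 q'.2 := hA.1 ha hb hab
    exact h1.2
  have hinj : Set.InjOn f A := by
    intro a ha b hb h
    by_contra hab
    have h1 := hadj a ha b hb hab
    rw [h] at h1
    exact (TG (R + 1) m r).loopless.irrefl _ h1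
  have hcl : (TG (R + 1) m r).IsNClique n (A.image f) := by
    refine ⟨?_, ?_⟩
    · intro x hx y hy hxy
      rw [mem_coe, mem_image] at hx hy
      obtain ⟨a, ha, rfl⟩ := hx
      obtain ⟨b, hb, rfl⟩ := hy
      exact hadj a ha b hb (fun h => hxy (by rw [h]))
    · rw [card_image_of_injOn hinj, hA.card_eq]
  exact (SimpleGraph.turanGraph_cliqueFree (n := (R + 1) * m + r) (r := R + 1) (by omega)).mono
    (by omega : R + 1 + 1 ≤ n) _ hcl

theorem MH_allowed {R m r k : ℕ} (t : Fin k → ℕ) (hR : 1 ≤ R) (hr : r < R + 1)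
    (ht : ∀ i, t i ≤ r) (hs : (∑ i, t i) * (m + 1) ≤ R * m + r) :
    Allowed 1 (R * m + r) (R + 1) (MH (R + 1) m r t) := by
  classical
  have hw : 1 ≤ R + 1 := by omega
  rw [allowed_iff]
  constructor
  · intro A hA
    obtain ⟨a, rfl⟩ := SimpleGraph.isNClique_one.1 hA
    cases a with
    | none => exact MHub_deg_none t hr hs
    | some q => exact MHub_deg_some t hr ht q.1 q.2
  · intro A hA
    by_cases hnone : none ∈ A
    · have hsome : ∀ a ∈ A.erase none, ∃ q, a = some q := by
        intro a ha
        cases a with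
        | none => exact absurd rfl (mem_erase.1 ha).1
        | some q => exact ⟨q, rfl⟩
      have hcard : (A.erase none).card = R + 1 := by
        rw [card_erase_of_mem hnone, hA.card_eq]
        rfl
      obtain ⟨a₀, ha₀⟩ := card_pos.1 (show 0 < (A.erase none).card by omega)
      obtain ⟨⟨i₀, x₀⟩, rfl⟩ := hsome a₀ ha₀
      have hkey : ∀ q : Fin k × Fin ((R + 1) * m + r), some q ∈ A →
          q.1 = i₀ ∧ q.2.val % (R + 1) < t i₀ := by
        intro q hq
        have h1 : q.2.val % (R + 1) < t q.1 :=
          hA.1 (mem_coe.2 hnone) (mem_coe.2 hq) (by simp)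
        have h2 : q.1 = i₀ := by
          by_cases hq0 : (some q : Option (Fin k × Fin ((R + 1) * m + r))) = some (i₀, x₀)
          · have h3 := Option.some.inj hq0
            rw [h3]
          · have h3 : q.1 = i₀ ∧ (TG (R + 1) m r).Adj q.2 x₀ :=
              hA.1 (mem_coe.2 hq) (mem_coe.2 (mem_of_mem_erase ha₀)) hq0
            exact h3.1
        exact ⟨h2, h2 ▸ h1⟩
      set f : Option (Fin k × Fin ((R + 1) * m + r)) → ℕ :=
        fun a => (a.getD (i₀, x₀)).2.val % (R + 1) with hf
      have hmaps : ∀ a ∈ A.erase none, f a ∈ range (t i₀) := by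
        intro a ha
        obtain ⟨q, rfl⟩ := hsome a ha
        exact mem_range.2 (hkey q (mem_of_mem_erase ha)).2
      have hinj : Set.InjOn f (A.erase none) := by
        intro a ha b hb h
        obtain ⟨q, rfl⟩ := hsome a (mem_coe.1 ha)
        obtain ⟨q', rfl⟩ := hsome b (mem_coe.1 hb)
        by_contra hab
        have h1 : q.1 = q'.1 ∧ (TG (R + 1) m r).Adj q.2 q'.2 :=
          hA.1 (mem_coe.2 (mem_of_mem_erase (mem_coe.1 ha)))
            (mem_coe.2 (mem_of_mem_erase (mem_coe.1 hb))) hab
        have h2 := h1.2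
        rw [tcN_adj hw] at h2
        exact h2 (Fin.ext h)
      have h5 := card_le_card_of_injOn f (fun a ha => mem_coe.2 (hmaps a (mem_coe.1 ha))) hinj
      rw [hcard, card_range] at h5
      have h6 := ht i₀
      omega
    · exact MHub_free_some t (by omega) A hA hnone

end H57GH
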