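import Pool.Agent.H57.GH.MHub

/-!
Project SM: copies of `K_1 ∨ J` whose dominating vertex is the hub.
-/

namespace H57GH

open Finset H57LC H57LT H57E32

set_option linter.unusedSectionVars false

theorem MHubA_sigma {ι : Type} [Fintype ι] [DecidableEq ι] (J : SimpleGraph ι)
    [Fintype J.ConnectedComponent] [DecidableEq J.ConnectedComponent] {k : ℕ}
    (t : Fin k → ℕ) :
    cprod J (fun c => ∑ i, (t i : ℝ) ^ c) =
      ∑ f : J.ConnectedComponent → Fin k, ∏ v : ι, (t (f (J.connectedComponentMk v)) : ℝ) := by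
  classical
  rw [cprod_eq, Finset.prod_univ_sum, Fintype.piFinset_univ]
  refine Finset.sum_congr rfl fun f _ => ?_
  rw [← Finset.prod_fiberwise (s := (univ : Finset ι)) (g := fun v => J.connectedComponentMk v)]
  refine Finset.prod_congr rfl fun C _ => ?_
  rw [Finset.prod_congr rfl (g := fun _ => (t (f C) : ℝ))]
  · rw [Finset.prod_const]
    congr 1
    rw [Nat.card_eq_fintype_card, ← Set.toFinset_card]
    congr 1
    ext v
    simp
  · intro v hv
    rw [(mem_filter.1 hv).2]

theorem MHubA_const {ι : Type} [Fintype ι] [DecidableEq ι] (J : SimpleGraph ι)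
    [DecidableRel J.Adj] {k : ℕ} (t : Fin k → ℕ) :
    cprod J (fun c => ∑ i, (t i : ℝ) ^ c) ≤
      ((((univ : Finset (ι → (Σ i : Fin k, Fin (t i)))).filter
        fun τ => ∀ v w, J.Adj v w → (τ v).1 = (τ w).1).card : ℕ) : ℝ) := by
  classical
  have : Fintype J.ConnectedComponent := Fintype.ofFinite _
  rw [MHubA_sigma]
  have h1 : (∑ f : J.ConnectedComponent → Fin k, ∏ v : ι, (t (f (J.connectedComponentMk v)) : ℝ)) =
      ((Fintype.card (Σ f : J.ConnectedComponent → Fin k,
        ∀ v : ι, Fin (t (f (J.connectedComponentMk v)))) : ℕ) : ℝ) := by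
    rw [Fintype.card_sigma]
    push_cast
    refine Finset.sum_congr rfl fun f _ => ?_
    rw [Fintype.card_pi]
    push_cast
    simp only [Fintype.card_fin]
  rw [h1, Nat.cast_le, ← Finset.card_univ]
  refine Finset.card_le_card_of_injOn (fun p v => ⟨p.1 (J.connectedComponentMk v), p.2 v⟩) ?_ ?_
  · intro p _
    rw [mem_coe, mem_filter]
    refine ⟨mem_univ _, fun v w hvw => ?_⟩
    exact congrArg p.1 (SimpleGraph.ConnectedComponent.sound hvw.reachable)
  · rintro ⟨f, g⟩ _ ⟨f', g'⟩ _ h
    have h2 : f = f' := by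
      funext C
      induction C using SimpleGraph.ConnectedComponent.ind with
      | _ v => exact congrArg Sigma.fst (congrFun h v)
    subst h2
    have h3 : g = g' := by
      funext v
      have := congrFun h v
      simpa using this
    rw [h3]

theorem MHubA_eq {ι : Type} [Fintype ι] [DecidableEq ι] {P : Type} [Fintype P] [DecidableEq P]
    {v w : ι} (hvw : v ≠ w) :
    ((univ : Finset (ι → P)).filter fun τ => τ v = τ w).card ≤
      Fintype.card P ^ (Fintype.card ι - 1) := by
  classical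
  have h1 : Fintype.card {x : ι // x ≠ w} = Fintype.card ι - 1 := by
    rw [Fintype.card_subtype_compl, Fintype.card_subtype_eq]
  rw [← h1, ← Fintype.card_fun, ← Finset.card_univ]
  refine Finset.card_le_card_of_injOn (fun τ x => τ x.1) (fun _ _ => mem_univ _) ?_
  intro τ hτ τ' hτ' h
  funext x
  have e1 : τ v = τ w := (mem_filter.1 hτ).2
  have e2 : τ' v = τ' w := (mem_filter.1 hτ').2
  by_cases hx : x = w
  · have := congrFun h ⟨v, hvw⟩
    simp only at this
    rw [hx, ← e1, ← e2, this]
  · exact congrFun h ⟨x, hx⟩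

theorem MHubA_noninj {ι : Type} [Fintype ι] [DecidableEq ι] {P : Type} [Fintype P]
    [DecidableEq P] :
    ((univ : Finset (ι → P)).filter fun τ => ¬ Function.Injective τ).card ≤
      Fintype.card ι ^ 2 * Fintype.card P ^ (Fintype.card ι - 1) := by
  classical
  have h1 : ((univ : Finset (ι → P)).filter fun τ => ¬ Function.Injective τ) ⊆
      ((univ : Finset (ι × ι)).filter fun p => p.1 ≠ p.2).biUnion
        fun p => (univ : Finset (ι → P)).filter fun τ => τ p.1 = τ p.2 := by
    intro τ hτ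
    have h2 := (mem_filter.1 hτ).2
    unfold Function.Injective at h2
    push Not at h2
    obtain ⟨v, w, h3, h4⟩ := h2
    rw [mem_biUnion]
    exact ⟨(v, w), mem_filter.2 ⟨mem_univ _, h4⟩, mem_filter.2 ⟨mem_univ _, h3⟩⟩
  refine (Finset.card_le_card h1).trans (Finset.card_biUnion_le.trans ?_)
  refine (Finset.sum_le_card_nsmul _ _ (Fintype.card P ^ (Fintype.card ι - 1)) ?_).trans ?_
  · intro p hp
    exact MHubA_eq (mem_filter.1 hp).2
  · rw [smul_eq_mul]
    refine Nat.mul_le_mul_right _ ?_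
    refine (Finset.card_le_univ _).trans ?_
    rw [Fintype.card_prod, sq]

theorem MHubA_inj {ι : Type} [Fintype ι] [DecidableEq ι] (J : SimpleGraph ι)
    [DecidableRel J.Adj] {k : ℕ} (t : Fin k → ℕ) :
    cprod J (fun c => ∑ i, (t i : ℝ) ^ c) -
        (Fintype.card ι : ℝ) ^ 2 * (∑ i, (t i : ℝ)) ^ (Fintype.card ι - 1) ≤
      ((((univ : Finset (ι → (Σ i : Fin k, Fin (t i)))).filter
        fun τ => (∀ v w, J.Adj v w → (τ v).1 = (τ w).1) ∧ Function.Injective τ).card : ℕ) : ℝ) := by
  classical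
  have h1 := MHubA_const J t
  have h2 := MHubA_noninj (ι := ι) (P := Σ i : Fin k, Fin (t i))
  have h3 : ((univ : Finset (ι → (Σ i : Fin k, Fin (t i)))).filter
        fun τ => ∀ v w, J.Adj v w → (τ v).1 = (τ w).1) ⊆
      ((univ : Finset (ι → (Σ i : Fin k, Fin (t i)))).filter
        fun τ => (∀ v w, J.Adj v w → (τ v).1 = (τ w).1) ∧ Function.Injective τ) ∪
      ((univ : Finset (ι → (Σ i : Fin k, Fin (t i)))).filter
        fun τ => ¬ Function.Injective τ) := by
    intro τ hτ
    rw [mem_union, mem_filter, mem_filter]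
    by_cases h : Function.Injective τ
    · exact Or.inl ⟨mem_univ _, (mem_filter.1 hτ).2, h⟩
    · exact Or.inr ⟨mem_univ _, h⟩
  have h4 := (Finset.card_le_card h3).trans (Finset.card_union_le _ _)
  have h5 : Fintype.card (Σ i : Fin k, Fin (t i)) = ∑ i, t i := by
    rw [Fintype.card_sigma]
    simp only [Fintype.card_fin]
  rw [h5] at h2
  have h6 : ((((univ : Finset (ι → (Σ i : Fin k, Fin (t i)))).filter
        fun τ => ∀ v w, J.Adj v w → (τ v).1 = (τ w).1).card : ℕ) : ℝ) ≤
      ((((univ : Finset (ι → (Σ i : Fin k, Fin (t i)))).filter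
        fun τ => (∀ v w, J.Adj v w → (τ v).1 = (τ w).1) ∧ Function.Injective τ).card : ℕ) : ℝ) +
      ((((univ : Finset (ι → (Σ i : Fin k, Fin (t i)))).filter
        fun τ => ¬ Function.Injective τ).card : ℕ) : ℝ) := by
    exact_mod_cast h4
  have h7 : ((((univ : Finset (ι → (Σ i : Fin k, Fin (t i)))).filter
        fun τ => ¬ Function.Injective τ).card : ℕ) : ℝ) ≤
      (Fintype.card ι : ℝ) ^ 2 * (∑ i, (t i : ℝ)) ^ (Fintype.card ι - 1) := by
    have h8 : ((((univ : Finset (ι → (Σ i : Fin k, Fin (t i)))).filter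
        fun τ => ¬ Function.Injective τ).card : ℕ) : ℝ) ≤
        ((Fintype.card ι ^ 2 * (∑ i, t i) ^ (Fintype.card ι - 1) : ℕ) : ℝ) := by
      exact_mod_cast h2
    refine h8.trans (le_of_eq ?_)
    push_cast
    ring
  linarith

theorem MHubA_lt {R m r c a : ℕ} (hc : c < r) (ha : a < m + 1) :
    c + (R + 1) * a < (R + 1) * m + r := by
  have : (R + 1) * a ≤ (R + 1) * m := Nat.mul_le_mul_left _ (by omega)
  omega

/-- the vertex number `a` of the class `c` of the copy `i` -/
def MHubA_pt {R m r k : ℕ} (t : Fin k → ℕ) (ht : ∀ i, t i ≤ r) (p : Σ i : Fin k, Fin (t i))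
    (a : Fin (m + 1)) : Option (Fin k × Fin ((R + 1) * m + r)) :=
  some (p.1, ⟨p.2.val + (R + 1) * a.val, MHubA_lt (p.2.2.trans_le (ht p.1)) a.2⟩)

theorem MHubA_mod {R m r k : ℕ} (t : Fin k → ℕ) (hr : r < R + 1) (ht : ∀ i, t i ≤ r)
    (p : Σ i : Fin k, Fin (t i)) (a : Fin (m + 1)) :
    (p.2.val + (R + 1) * a.val) % (R + 1) = p.2.val := by
  rw [Nat.add_mul_mod_self_left, Nat.mod_eq_of_lt]
  have := p.2.2
  have := ht p.1
  omega

theorem MHubA_pt_inj {R m r k : ℕ} (t : Fin k → ℕ) (hr : r < R + 1) (ht : ∀ i, t i ≤ r)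
    {p q : Σ i : Fin k, Fin (t i)} {a b : Fin (m + 1)}
    (h : MHubA_pt (R := R) (m := m) t ht p a = MHubA_pt t ht q b) : p = q ∧ a = b := by
  unfold MHubA_pt at h
  rw [Option.some_inj, Prod.mk.injEq] at h
  obtain ⟨h1, h2⟩ := h
  replace h2 := congrArg Fin.val h2
  simp only at h2
  have h3 := MHubA_mod t hr ht p a
  rw [h2, MHubA_mod t hr ht q b] at h3
  have h4 : p = q := by
    obtain ⟨i, c⟩ := p
    obtain ⟨i', c'⟩ := q
    simp only at h1
    subst h1
    simp only at h3
    rw [Fin.ext h3]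
  refine ⟨h4, ?_⟩
  rw [h3] at h2
  have h5 : (R + 1) * a.val = (R + 1) * b.val := by omega
  exact Fin.ext (Nat.eq_of_mul_eq_mul_left (by omega) h5)

theorem MH_apex {ι : Type} [Fintype ι] [DecidableEq ι] (J : SimpleGraph ι) [DecidableRel J.Adj]
    (hcs : 1 ≤ Fintype.card ι) {R m r k : ℕ} (t : Fin k → ℕ) (hr : r < R + 1)
    (ht : ∀ i, t i ≤ r) :
    ((m : ℝ) + 1) ^ Fintype.card ι * (cprod J (fun c => ∑ i, (t i : ℝ) ^ c) -
        (Fintype.card ι : ℝ) ^ 2 * (∑ i, (t i : ℝ)) ^ (Fintype.card ι - 1)) ≤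
      ((((emb (jn J 1) (MH (R + 1) m r t) univ).filter fun φ => φ (Sum.inl 0) = none).card : ℕ) :
        ℝ) := by
  classical
  refine (mul_le_mul_of_nonneg_left (MHubA_inj J t) (by positivity)).trans ?_
  have h1 : ((m : ℝ) + 1) ^ Fintype.card ι = ((Fintype.card (ι → Fin (m + 1)) : ℕ) : ℝ) := by
    rw [Fintype.card_fun, Fintype.card_fin]
    push_cast
    ring
  rw [h1, ← Nat.cast_mul, Nat.cast_le, ← Finset.card_univ, ← Finset.card_product]
  refine Finset.card_le_card_of_injOn (fun p x => Sum.elim (fun _ => none)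
    (fun j => MHubA_pt t ht (p.2 j) (p.1 j)) x) ?_ ?_
  · rintro ⟨α, τ⟩ hp
    rw [mem_coe, mem_product, mem_filter] at hp
    obtain ⟨-, -, h2, h3⟩ := hp
    simp only at h2 h3
    rw [mem_coe, mem_filter]
    refine ⟨?_, rfl⟩
    unfold emb
    rw [mem_filter, Fintype.mem_piFinset]
    refine ⟨fun _ => mem_univ _, ?_, ?_⟩
    · rintro (i | i) (j | j) h
      · rw [Subsingleton.elim i j]
      · simp [MHubA_pt] at h
      · simp [MHubA_pt] at h
      · simp only [Sum.elim_inr] at h
        rw [h3 (MHubA_pt_inj t hr ht h).1]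
    · rintro (i | i) (j | j) ⟨hne, hij⟩
      · exact absurd (by rw [Subsingleton.elim i j]) hne
      · simp only [Sum.elim_inl, Sum.elim_inr]
        change ((τ j).2.val + (R + 1) * (α j).val) % (R + 1) < t (τ j).1
        rw [MHubA_mod t hr ht]
        exact (τ j).2.2
      · simp only [Sum.elim_inl, Sum.elim_inr]
        change ((τ i).2.val + (R + 1) * (α i).val) % (R + 1) < t (τ i).1
        rw [MHubA_mod t hr ht]
        exact (τ i).2.2
      · rcases hij with h | h | ⟨i', j', hi, hj, h⟩
        · simp at h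
        · simp at h
        · rw [Sum.inr.injEq] at hi hj
          subst hi hj
          simp only [Sum.elim_inr]
          refine ⟨h2 _ _ h, ?_⟩
          rw [tcN_adj (by omega : 1 ≤ R + 1)]
          intro h5
          have h6 := congrArg Fin.val h5
          simp only [tcN] at h6
          have h7 : (τ i).2.val = (τ j).2.val := by
            have e1 := MHubA_mod t hr ht (τ i) (α i)
            have e2 := MHubA_mod t hr ht (τ j) (α j)
            rw [← e1, ← e2]
            exact h6
          have h8 : τ i = τ j := by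
            have h9 := h2 _ _ h
            generalize τ i = p at h7 h9
            generalize τ j = q at h7 h9
            obtain ⟨a, c⟩ := p
            obtain ⟨b, d⟩ := q
            simp only at h9
            subst h9
            simp only at h7
            rw [Fin.ext h7]
          exact h.ne (h3 h8)
  · rintro ⟨α, τ⟩ _ ⟨α', τ'⟩ _ h
    have h2 : ∀ j, τ j = τ' j ∧ α j = α' j := fun j =>
      MHubA_pt_inj t hr ht (congrFun h (Sum.inr j))
    rw [Prod.mk.injEq]
    exact ⟨funext fun j => (h2 j).2, funext fun j => (h2 j).1⟩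

end H57GH
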