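import Pool.Agent.H57.GH.MHub

/-!
Project SM: copies of `K_1 ∨ J` in which the hub is the image of a vertex of `J`.
-/

namespace H57GH

open Finset H57LC H57LT H57E32

set_option linter.unusedSectionVars false

/-- sequential choice with prescribed numbers of choices -/
theorem MHubB_seq {α V κ : Type} [Fintype α] [DecidableEq α] [DecidableEq V] [DecidableEq κ]
    (π : V → κ) (P : α → Finset V) (d : α → V) (n : α → ℕ) (W₀ : Finset α)
    (h : ∀ j ∈ W₀, ∀ B : Finset κ, B.card < W₀.card →
      n j ≤ ((P j).filter fun x => π x ∉ B).card)
    (W : Finset α) : W ⊆ W₀ →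
    ∏ j ∈ W, n j ≤ ((Fintype.piFinset fun j => if j ∈ W then P j else {d j}).filter fun φ =>
      ∀ a ∈ W, ∀ b ∈ W, a ≠ b → π (φ a) ≠ π (φ b)).card := by
  induction W using Finset.induction_on with
  | empty =>
    intro _
    rw [prod_empty, Nat.one_le_iff_ne_zero, ← Nat.pos_iff_ne_zero, card_pos]
    refine ⟨d, mem_filter.mpr ⟨?_, ?_⟩⟩
    · rw [Fintype.mem_piFinset]
      intro j
      simp
    · intro a ha
      simp at ha
  | insert a W ha ih =>
    intro hW
    have hW' : W ⊆ W₀ := (subset_insert a W).trans hW
    have ih' := ih hW'
    rw [prod_insert ha]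
    set S' := ((Fintype.piFinset fun j => if j ∈ W then P j else {d j}).filter fun φ =>
      ∀ a ∈ W, ∀ b ∈ W, a ≠ b → π (φ a) ≠ π (φ b)) with hS'
    let X : (α → V) → Finset V := fun φ => (P a).filter fun x => π x ∉ W.image (fun j => π (φ j))
    have hX : ∀ φ : α → V, n a ≤ (X φ).card := by
      intro φ
      apply h a (hW (mem_insert_self a W))
      have h1 : (W.image (fun j => π (φ j))).card ≤ W.card := card_image_le
      have h2 : (insert a W).card ≤ W₀.card := card_le_card hW
      rw [card_insert_of_notMem ha] at h2
      omega
    have h3 : n a * ∏ j ∈ W, n j ≤ (S'.sigma X).card := by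
      rw [card_sigma]
      calc n a * ∏ j ∈ W, n j ≤ n a * S'.card := Nat.mul_le_mul_left _ ih'
        _ = ∑ _φ ∈ S', n a := by rw [sum_const, smul_eq_mul, mul_comm]
        _ ≤ _ := sum_le_sum fun φ _ => hX φ
    refine h3.trans ?_
    apply card_le_card_of_injOn (fun q : (_ : α → V) × V => Function.update q.1 a q.2)
    · rintro ⟨φ, x⟩ hq
      rw [mem_coe, mem_sigma] at hq
      obtain ⟨h4, h5⟩ := hq
      rw [hS', mem_filter, Fintype.mem_piFinset] at h4
      obtain ⟨h6, h7⟩ := h4
      have h5' := mem_filter.mp h5
      obtain ⟨h8, h9⟩ := h5'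
      rw [mem_coe, mem_filter, Fintype.mem_piFinset]
      refine ⟨?_, ?_⟩
      · intro j
        by_cases hj : j = a
        · subst hj
          simp only [mem_insert, true_or, if_true, Function.update_self]
          exact h8
        · have h10 := h6 j
          simp only [mem_insert, hj, false_or]
          rw [Function.update_of_ne hj]
          exact h10
      · have h11 : ∀ b ∈ W, π (φ b) ≠ π x := by
          intro b hb hbx
          apply h9
          rw [mem_image]
          exact ⟨b, hb, hbx⟩
        intro b hb c hc hbc
        rw [mem_insert] at hb hc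
        by_cases hba : b = a
        · subst hba
          have hcb : c ≠ b := fun hh => hbc hh.symm
          have hcW : c ∈ W := by
            rcases hc with hc | hc
            · exact absurd hc hcb
            · exact hc
          simp only [Function.update_self]
          rw [Function.update_of_ne hcb]
          exact (h11 c hcW).symm
        · have hbW : b ∈ W := by
            rcases hb with hb | hb
            · exact absurd hb hba
            · exact hb
          by_cases hca : c = a
          · subst hca
            simp only [Function.update_self]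
            rw [Function.update_of_ne hba]
            exact h11 b hbW
          · have hcW : c ∈ W := by
              rcases hc with hc | hc
              · exact absurd hc hca
              · exact hc
            simp only []
            rw [Function.update_of_ne hba, Function.update_of_ne hca]
            exact h7 b hbW c hcW hbc
    · rintro ⟨φ, x⟩ hq ⟨ψ, y⟩ hq' he
      rw [mem_coe, mem_sigma] at hq hq'
      have h4 := (mem_filter.mp hq.1).1
      have h4' := (mem_filter.mp hq'.1).1
      rw [Fintype.mem_piFinset] at h4 h4'
      simp only at he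
      have hxy : x = y := by
        have := congrFun he a
        simpa using this
      have hφψ : φ = ψ := by
        funext j
        by_cases hj : j = a
        · subst hj
          have h5 := h4 j
          have h5' := h4' j
          simp only [ha, if_false, mem_singleton] at h5 h5'
          rw [h5, h5']
        · have := congrFun he j
          rwa [Function.update_of_ne hj, Function.update_of_ne hj] at this
      subst hxy
      subst hφψ
      rfl

theorem MHubB_cls {R m r : ℕ} (hr : r < R + 1) (A : Finset (Fin (R + 1))) :
    m * A.card ≤ ((univ : Finset (Fin ((R + 1) * m + r))).filter fun a =>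
      tcN (R + 1) m r (by omega) a ∈ A).card := by
  rw [card_eq_sum_card_fiberwise (f := tcN (R + 1) m r (by omega)) (t := A)]
  · calc m * A.card = ∑ _c ∈ A, m := by rw [sum_const, smul_eq_mul, mul_comm]
      _ ≤ _ := by
        apply sum_le_sum
        intro c hc
        have h1 := tcN_card (w := R + 1) (m := m) (r := r) (by omega) hr c
        have h2 : (cls (tcN (R + 1) m r (by omega)) c).card ≤
            (((univ : Finset (Fin ((R + 1) * m + r))).filter fun a =>
              tcN (R + 1) m r (by omega) a ∈ A).filter fun a =>
                tcN (R + 1) m r (by omega) a = c).card := by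
          apply card_le_card
          intro a ha
          have ha' : tcN (R + 1) m r (by omega) a = c := (mem_filter.mp ha).2
          rw [mem_filter, mem_filter]
          exact ⟨⟨mem_univ _, by rw [ha']; exact hc⟩, ha'⟩
        rw [h1] at h2
        omega
  · intro a ha
    exact (mem_filter.mp ha).2

theorem MHubB_low {R t : ℕ} (ht : t ≤ R + 1) :
    ((univ : Finset (Fin (R + 1))).filter fun c => c.val < t).card = t := by
  have h1 := card_le_card_of_injOn (s := range t)
    (t := (univ : Finset (Fin (R + 1))).filter fun c => c.val < t)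
    (fun c => if h : c < R + 1 then (⟨c, h⟩ : Fin (R + 1)) else 0)
    (by
      intro c hc
      have hc' : c < t := mem_range.mp (mem_coe.mp hc)
      have h2 : c < R + 1 := by omega
      rw [mem_coe, mem_filter]
      refine ⟨mem_univ _, ?_⟩
      simp only [h2, dif_pos]
      exact hc')
    (by
      intro c hc c' hc' he
      have h2 : c < t := mem_range.mp (mem_coe.mp hc)
      have h2' : c' < t := mem_range.mp (mem_coe.mp hc')
      have h3 : c < R + 1 := by omega
      have h3' : c' < R + 1 := by omega
      simp only [h3, h3', dif_pos] at he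
      exact congrArg Fin.val he)
  have h2 := card_le_card_of_injOn (s := (univ : Finset (Fin (R + 1))).filter fun c => c.val < t)
    (t := range t) (fun c => c.val)
    (by
      intro c hc
      rw [mem_coe, mem_range]
      exact (mem_filter.mp (mem_coe.mp hc)).2)
    (by
      intro c _ c' _ he
      exact Fin.ext he)
  rw [card_range] at h1 h2
  omega

theorem MHubB_nat {ι : Type} [Fintype ι] [DecidableEq ι] (J : SimpleGraph ι) [DecidableRel J.Adj]
    {R m r k : ℕ} (t : Fin k → ℕ) (hr : r < R + 1) (ht : ∀ i, t i ≤ r) (v : ι) :
    ∑ i, (m * t i) * ∏ j ∈ univ.erase v, (m * ((if J.Adj v j then t i else R) -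
        Fintype.card ι)) ≤
      ((emb (jn J 1) (MH (R + 1) m r t) univ).filter fun φ => φ (Sum.inr v) = none).card := by
  classical
  have hw : 1 ≤ R + 1 := by omega
  let N : ℕ := (R + 1) * m + r
  let π : Fin N → Fin (R + 1) := tcN (R + 1) m r hw
  let Q : Fin k → Finset (Fin N) := fun i => univ.filter fun a => (π a).val < t i
  let P : Fin k → Fin N → ι → Finset (Fin N) := fun i x j =>
    univ.filter fun a => π a ≠ π x ∧ (J.Adj v j → (π a).val < t i)
  let S : Fin k → Fin N → Finset (ι → Fin N) := fun i x =>
    (Fintype.piFinset fun j => if j ∈ univ.erase v then P i x j else {x}).filter fun φ =>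
      ∀ a ∈ univ.erase v, ∀ b ∈ univ.erase v, a ≠ b → π (φ a) ≠ π (φ b)
  have hQ : ∀ i, m * t i ≤ (Q i).card := by
    intro i
    have h1 := MHubB_cls (m := m) hr ((univ : Finset (Fin (R + 1))).filter fun c => c.val < t i)
    rw [MHubB_low (by have := ht i; omega)] at h1
    refine h1.trans (card_le_card ?_)
    intro a ha
    have ha' := (mem_filter.mp ha).2
    exact mem_filter.mpr ⟨mem_univ _, (mem_filter.mp ha').2⟩
  have hS : ∀ i x, ∏ j ∈ univ.erase v, (m * ((if J.Adj v j then t i else R) -
      Fintype.card ι)) ≤ (S i x).card := by
    intro i x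
    apply MHubB_seq π (P i x) (fun _ => x) (fun j => m * ((if J.Adj v j then t i else R) -
      Fintype.card ι)) (univ.erase v) _ (univ.erase v) (Subset.refl _)
    intro j hj B hB
    rw [card_erase_of_mem (mem_univ v), card_univ] at hB
    let A : Finset (Fin (R + 1)) := univ.filter fun c => J.Adj v j → c.val < t i
    have hA : (if J.Adj v j then t i else R) ≤ A.card := by
      by_cases hvj : J.Adj v j
      · rw [if_pos hvj]
        have h1 := MHubB_low (R := R) (t := t i) (by have := ht i; omega)
        rw [← h1]
        apply card_le_card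
        intro c hc
        rw [mem_filter] at hc ⊢
        exact ⟨mem_univ _, fun _ => hc.2⟩
      · rw [if_neg hvj]
        have h1 : A = univ := by
          apply eq_univ_of_forall
          intro c
          exact mem_filter.mpr ⟨mem_univ _, fun h => absurd h hvj⟩
        rw [h1, card_univ, Fintype.card_fin]
        omega
    have h1 := MHubB_cls (m := m) hr (A \ insert (π x) B)
    have h2 : A.card - (B.card + 1) ≤ (A \ insert (π x) B).card := by
      have h3 := le_card_sdiff (insert (π x) B) A
      have h4 := card_insert_le (π x) B
      omega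
    have h5 : m * ((if J.Adj v j then t i else R) - Fintype.card ι) ≤
        m * (A \ insert (π x) B).card := by
      apply Nat.mul_le_mul_left
      omega
    refine h5.trans (h1.trans (card_le_card ?_))
    intro a ha
    have ha' := (mem_filter.mp ha).2
    rw [mem_sdiff, mem_insert, not_or] at ha'
    obtain ⟨h6, h7, h8⟩ := ha'
    rw [mem_filter]
    refine ⟨mem_filter.mpr ⟨mem_univ _, h7, (mem_filter.mp h6).2⟩, h8⟩
  have h1 : ∑ i, (m * t i) * ∏ j ∈ univ.erase v, (m * ((if J.Adj v j then t i else R) -
      Fintype.card ι)) ≤
      ((univ : Finset (Fin k)).sigma fun i => (Q i).sigma fun x => S i x).card := by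
    rw [card_sigma]
    apply sum_le_sum
    intro i _
    rw [card_sigma]
    calc (m * t i) * ∏ j ∈ univ.erase v, (m * ((if J.Adj v j then t i else R) -
          Fintype.card ι)) ≤ (Q i).card * ∏ j ∈ univ.erase v,
            (m * ((if J.Adj v j then t i else R) - Fintype.card ι)) :=
          Nat.mul_le_mul_right _ (hQ i)
      _ = ∑ _x ∈ Q i, ∏ j ∈ univ.erase v,
            (m * ((if J.Adj v j then t i else R) - Fintype.card ι)) := by
          rw [sum_const, smul_eq_mul]
      _ ≤ _ := sum_le_sum fun x _ => hS i x
  refine h1.trans ?_
  apply card_le_card_of_injOn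
    (fun q : (_ : Fin k) × (_ : Fin N) × (ι → Fin N) =>
      (Sum.elim (fun _ => some (q.1, q.2.1)) (fun j => if j = v then none
        else some (q.1, q.2.2 j)) : Fin 1 ⊕ ι → Option (Fin k × Fin N)))
  · rintro ⟨i, x, φ⟩ hq
    rw [mem_coe, mem_sigma, mem_sigma] at hq
    obtain ⟨_, hx, hφ⟩ := hq
    have hx' : (π x).val < t i := (mem_filter.mp hx).2
    have hφ1 := Fintype.mem_piFinset.mp (mem_filter.mp hφ).1
    have hφ2 := (mem_filter.mp hφ).2
    have hφ3 : ∀ j, j ≠ v → π (φ j) ≠ π x ∧ (J.Adj v j → (π (φ j)).val < t i) := by
      intro j hj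
      have h2 := hφ1 j
      rw [if_pos (mem_erase.mpr ⟨hj, mem_univ _⟩)] at h2
      exact (mem_filter.mp h2).2
    have hφ4 : ∀ a b, a ≠ v → b ≠ v → a ≠ b → π (φ a) ≠ π (φ b) := by
      intro a b ha hb hab
      exact hφ2 a (mem_erase.mpr ⟨ha, mem_univ _⟩) b (mem_erase.mpr ⟨hb, mem_univ _⟩) hab
    rw [mem_coe, mem_filter]
    refine ⟨?_, ?_⟩
    · rw [emb, mem_filter, Fintype.mem_piFinset]
      refine ⟨fun _ => mem_univ _, ?_, ?_⟩
      · rintro (a | a) (b | b) hab
        · rw [Subsingleton.elim a b]
        · simp only [Sum.elim_inl, Sum.elim_inr] at hab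
          by_cases hb : b = v
          · rw [if_pos hb] at hab
            exact absurd hab (by simp)
          · rw [if_neg hb] at hab
            have h2 : x = φ b := by simpa using hab
            exact absurd (by rw [h2]) (hφ3 b hb).1
        · simp only [Sum.elim_inl, Sum.elim_inr] at hab
          by_cases ha : a = v
          · rw [if_pos ha] at hab
            exact absurd hab (by simp)
          · rw [if_neg ha] at hab
            have h2 : φ a = x := by simpa using hab
            exact absurd (by rw [h2]) (hφ3 a ha).1
        · simp only [Sum.elim_inr] at hab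
          by_cases ha : a = v
          · by_cases hb : b = v
            · rw [ha, hb]
            · rw [if_pos ha, if_neg hb] at hab
              exact absurd hab (by simp)
          · by_cases hb : b = v
            · rw [if_neg ha, if_pos hb] at hab
              exact absurd hab (by simp)
            · rw [if_neg ha, if_neg hb] at hab
              have h2 : φ a = φ b := by simpa using hab
              by_contra hne
              exact hφ4 a b ha hb (fun h => hne (by rw [h])) (by rw [h2])
      · rintro (a | a) (b | b) hab
        · exact absurd (by rw [Subsingleton.elim a b]) hab.1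
        · simp only [Sum.elim_inl, Sum.elim_inr]
          by_cases hb : b = v
          · rw [if_pos hb]
            exact hx'
          · rw [if_neg hb]
            exact ⟨rfl, (tcN_adj hw _ _).mpr (hφ3 b hb).1.symm⟩
        · simp only [Sum.elim_inl, Sum.elim_inr]
          by_cases ha : a = v
          · rw [if_pos ha]
            exact hx'
          · rw [if_neg ha]
            exact ⟨rfl, (tcN_adj hw _ _).mpr (hφ3 a ha).1⟩
        · have hab' : J.Adj a b := by
            rcases hab.2 with h2 | h2 | ⟨i', j', h2, h3, h4⟩
            · exact absurd h2 (by simp)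
            · exact absurd h2 (by simp)
            · rw [Sum.inr.injEq] at h2 h3
              rw [h2, h3]
              exact h4
          simp only [Sum.elim_inr]
          by_cases ha : a = v
          · have hb : b ≠ v := by
              intro hb
              rw [ha, hb] at hab'
              exact J.loopless.irrefl _ hab'
            rw [if_pos ha, if_neg hb]
            exact (hφ3 b hb).2 (by rw [← ha]; exact hab')
          · by_cases hb : b = v
            · rw [if_neg ha, if_pos hb]
              exact (hφ3 a ha).2 (by rw [← hb]; exact hab'.symm)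
            · rw [if_neg ha, if_neg hb]
              exact ⟨rfl, (tcN_adj hw _ _).mpr (hφ4 a b ha hb hab'.ne)⟩
    · simp
  · rintro ⟨i, x, φ⟩ hq ⟨i', x', φ'⟩ hq' he
    rw [mem_coe, mem_sigma, mem_sigma] at hq hq'
    obtain ⟨_, _, hφ⟩ := hq
    obtain ⟨_, _, hφ'⟩ := hq'
    have hφ1 := Fintype.mem_piFinset.mp (mem_filter.mp hφ).1 v
    have hφ1' := Fintype.mem_piFinset.mp (mem_filter.mp hφ').1 v
    rw [if_neg (by simp), mem_singleton] at hφ1 hφ1'
    have h2 := congrFun he (Sum.inl 0)
    simp only [Sum.elim_inl, Option.some.injEq, Prod.mk.injEq] at h2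
    obtain ⟨h3, h4⟩ := h2
    have h5 : φ = φ' := by
      funext j
      by_cases hj : j = v
      · have h7 : φ v = x := hφ1
        have h8 : φ' v = x' := hφ1'
        rw [hj, h7, h8]
        exact h4
      · have h6 := congrFun he (Sum.inr j)
        simp only [Sum.elim_inr, if_neg hj, Option.some.injEq, Prod.mk.injEq] at h6
        exact h6.2
    subst h3
    subst h4
    subst h5
    rfl

theorem MH_leaf {ι : Type} [Fintype ι] [DecidableEq ι] (J : SimpleGraph ι) [DecidableRel J.Adj]
    {R m r k : ℕ} (t : Fin k → ℕ) (hr : r < R + 1) (ht : ∀ i, t i ≤ r)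
    (hts : ∀ i, Fintype.card ι ≤ t i) (v : ι) :
    (m : ℝ) ^ Fintype.card ι * ∑ i, (t i : ℝ) * ((t i : ℝ) - Fintype.card ι) ^ dg J univ v *
        ((R : ℝ) - Fintype.card ι) ^ (Fintype.card ι - 1 - dg J univ v) ≤
      ((((emb (jn J 1) (MH (R + 1) m r t) univ).filter fun φ => φ (Sum.inr v) = none).card : ℕ) :
        ℝ) := by
  have h1 : ((∑ i, (m * t i) * ∏ j ∈ univ.erase v, (m * ((if J.Adj v j then t i else R) -
      Fintype.card ι)) : ℕ) : ℝ) ≤
      ((((emb (jn J 1) (MH (R + 1) m r t) univ).filter fun φ => φ (Sum.inr v) = none).card : ℕ) :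
        ℝ) := by
    exact_mod_cast MHubB_nat (m := m) J t hr ht v
  refine le_trans (le_of_eq ?_) h1
  have hs : 1 ≤ Fintype.card ι := Fintype.card_pos_iff.mpr ⟨v⟩
  rw [Nat.cast_sum, mul_sum]
  apply sum_congr rfl
  intro i _
  have hti := hts i
  have hti' := ht i
  rw [Nat.cast_mul, Nat.cast_mul, Nat.cast_prod]
  have h2 : ∀ j ∈ univ.erase v, ((m * ((if J.Adj v j then t i else R) - Fintype.card ι) : ℕ) : ℝ) =
      (m : ℝ) * (if J.Adj v j then ((t i : ℝ) - Fintype.card ι) else
        ((R : ℝ) - Fintype.card ι)) := by
    intro j _
    rw [Nat.cast_mul]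
    congr 1
    split_ifs
    · rw [Nat.cast_sub hti]
    · rw [Nat.cast_sub (by omega)]
  rw [prod_congr rfl h2, prod_mul_distrib, prod_const, card_erase_of_mem (mem_univ v), card_univ,
    prod_ite, prod_const, prod_const]
  have h3 : ((univ.erase v).filter fun j => J.Adj v j).card = dg J univ v := by
    unfold dg
    congr 1
    ext j
    rw [mem_filter, mem_filter, mem_erase]
    constructor
    · rintro ⟨_, h⟩
      exact ⟨mem_univ _, h⟩
    · rintro ⟨_, h⟩
      exact ⟨⟨fun hh => J.loopless.irrefl _ (by rw [hh] at h; exact h), mem_univ _⟩, h⟩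
  have h4 : ((univ.erase v).filter fun j => ¬ J.Adj v j).card =
      Fintype.card ι - 1 - dg J univ v := by
    have h5 := card_filter_add_card_filter_not (s := univ.erase v) (fun j => J.Adj v j)
    rw [card_erase_of_mem (mem_univ v), card_univ, h3] at h5
    omega
  rw [h3, h4]
  obtain ⟨q, hq⟩ : ∃ q, Fintype.card ι = q + 1 := ⟨Fintype.card ι - 1, by omega⟩
  have h6 : (m : ℝ) ^ Fintype.card ι = m * (m : ℝ) ^ (Fintype.card ι - 1) := by
    rw [hq, Nat.add_sub_cancel, pow_succ]
    ring
  rw [h6]
  ring

end H57GH
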