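import Pool.Agent.H57.GH.MHubA
import Pool.Agent.H57.GH.MHubB
import Pool.Agent.H57.GH.Neg
import Pool.Agent.H57.GH.CopyE
import Pool.Agent.H57.GH.FinalD

/-!
Project SM: the Turan graph is not optimal if `Qc J β > 1` and `r ≥ β R` (`u = 1`).
-/

namespace H57GH

open Finset H57LC H57LT H57E32 Filter Topology

set_option linter.unusedSectionVars false

/-- the copies inside the copies of the Turan graph -/
lemma MHubF_avoid {ι : Type} [Fintype ι] [DecidableEq ι] (J : SimpleGraph ι)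
    [DecidableRel J.Adj] {w m r k : ℕ} (t : Fin k → ℕ) :
    k * (emb (jn J 1) (TG w m r) univ).card ≤
      ((emb (jn J 1) (MH w m r t) univ).filter fun φ => ∀ x, φ x ≠ none).card := by
  have h1 : ((univ : Finset (Fin k)) ×ˢ emb (jn J 1) (TG w m r) univ).card ≤
      ((emb (jn J 1) (MH w m r t) univ).filter fun φ => ∀ x, φ x ≠ none).card := by
    refine card_le_card_of_injOn (fun p x => some (p.1, p.2 x)) ?_ ?_
    · rintro ⟨i, φ⟩ hp
      have hφ : φ ∈ emb (jn J 1) (TG w m r) univ := (mem_product.1 (mem_coe.1 hp)).2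
      have hφ' := (mem_filter.1 hφ).2
      refine mem_coe.2 (mem_filter.2 ⟨mem_filter.2 ⟨by simp, ?_, ?_⟩, ?_⟩)
      · intro a b hab
        have h2 : (i, φ a) = (i, φ b) := Option.some.inj hab
        exact hφ'.1 (Prod.mk.inj h2).2
      · intro a b hab
        exact ⟨rfl, hφ'.2 a b hab⟩
      · intro x
        exact Option.some_ne_none _
    · rintro ⟨i, φ⟩ _ ⟨j, ψ⟩ _ hpq
      have h2 : ∀ x, (i, φ x) = (j, ψ x) := fun x => Option.some.inj (congrFun hpq x)
      have h3 : i = j := (Prod.mk.inj (h2 (Sum.inl 0))).1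
      have h4 : φ = ψ := funext fun x => (Prod.mk.inj (h2 x)).2
      rw [h3, h4]
  rw [card_product, card_univ, Fintype.card_fin] at h1
  exact h1

/-- the disjoint classes of copies -/
lemma MHubF_split {α V : Type} [Fintype α] [DecidableEq α] [DecidableEq V]
    (E : Finset (α → Option V)) (hE : ∀ φ ∈ E, Function.Injective φ) :
    (E.filter fun φ => ∀ x, φ x ≠ none).card + ∑ x, (E.filter fun φ => φ x = none).card ≤
      E.card := by
  have h1 : ((univ : Finset α).biUnion fun x => E.filter fun φ => φ x = none).card =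
      ∑ x, (E.filter fun φ => φ x = none).card := by
    refine card_biUnion fun x _ y _ hxy => ?_
    refine disjoint_left.2 ?_
    intro φ h2 h3
    have h4 := (mem_filter.1 h2).2
    have h5 := (mem_filter.1 h3).2
    exact hxy (hE φ (mem_filter.1 h2).1 (h4.trans h5.symm))
  rw [← h1, ← card_union_of_disjoint]
  · refine card_le_card (union_subset (filter_subset _ _) ?_)
    intro φ hφ
    obtain ⟨x, _, hx⟩ := mem_biUnion.1 hφ
    exact (mem_filter.1 hx).1
  · rw [disjoint_left]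
    intro φ h2 h3
    obtain ⟨x, _, hx⟩ := mem_biUnion.1 h3
    exact (mem_filter.1 h2).2 x (mem_filter.1 hx).2

/-- all copies in `MH` -/
theorem MH_emb_ge {ι : Type} [Fintype ι] [DecidableEq ι] (J : SimpleGraph ι)
    [DecidableRel J.Adj] (hcs : 1 ≤ Fintype.card ι) {R m r k : ℕ} (t : Fin k → ℕ)
    (hr : r < R + 1) (ht : ∀ i, t i ≤ r) (hts : ∀ i, Fintype.card ι ≤ t i) :
    (k : ℝ) * ((emb (jn J 1) (TG (R + 1) m r) univ).card : ℝ) +
      (m : ℝ) ^ Fintype.card ι * (cprod J (fun c => ∑ i, (t i : ℝ) ^ c) -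
        (Fintype.card ι : ℝ) ^ 2 * (∑ i, (t i : ℝ)) ^ (Fintype.card ι - 1) +
        ∑ v, ∑ i, (t i : ℝ) * ((t i : ℝ) - Fintype.card ι) ^ dg J univ v *
          ((R : ℝ) - Fintype.card ι) ^ (Fintype.card ι - 1 - dg J univ v)) ≤
      ((emb (jn J 1) (MH (R + 1) m r t) univ).card : ℝ) := by
  have h0 := MHubF_split (emb (jn J 1) (MH (R + 1) m r t) univ)
    (fun φ hφ => (mem_filter.1 hφ).2.1)
  rw [Fintype.sum_sum_type, Fin.sum_univ_one] at h0
  have h1 := MHubF_avoid J (w := R + 1) (m := m) (r := r) t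
  have h2 := MH_apex J hcs (R := R) (m := m) t hr ht
  have h3 := fun v => MH_leaf J (R := R) (m := m) t hr ht hts v
  set E := emb (jn J 1) (MH (R + 1) m r t) univ with hEdef
  set X : ℝ := cprod J (fun c => ∑ i, (t i : ℝ) ^ c) -
        (Fintype.card ι : ℝ) ^ 2 * (∑ i, (t i : ℝ)) ^ (Fintype.card ι - 1) with hX
  have h4 : (m : ℝ) ^ Fintype.card ι * X ≤
      ((E.filter fun φ => φ (Sum.inl 0) = none).card : ℝ) := by
    rcases le_or_gt 0 X with h5 | h5
    · refine le_trans ?_ h2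
      refine mul_le_mul_of_nonneg_right ?_ h5
      exact pow_le_pow_left₀ (Nat.cast_nonneg m) (by linarith only []) _
    · refine le_trans ?_ (Nat.cast_nonneg _)
      exact mul_nonpos_of_nonneg_of_nonpos (pow_nonneg (Nat.cast_nonneg m) _) h5.le
  have h5 : (m : ℝ) ^ Fintype.card ι * (∑ v, ∑ i, (t i : ℝ) *
      ((t i : ℝ) - Fintype.card ι) ^ dg J univ v *
          ((R : ℝ) - Fintype.card ι) ^ (Fintype.card ι - 1 - dg J univ v)) ≤
      ∑ v, ((E.filter fun φ => φ (Sum.inr v) = none).card : ℝ) := by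
    rw [mul_sum]
    exact sum_le_sum fun v _ => h3 v
  have h6 : ((k : ℝ) * ((emb (jn J 1) (TG (R + 1) m r) univ).card : ℝ)) ≤
      ((E.filter fun φ => ∀ x, φ x ≠ none).card : ℝ) := by
    exact_mod_cast h1
  have h7 : ((E.filter fun φ => ∀ x, φ x ≠ none).card : ℝ) +
      (((E.filter fun φ => φ (Sum.inl 0) = none).card : ℝ) +
        ∑ v, ((E.filter fun φ => φ (Sum.inr v) = none).card : ℝ)) ≤ (E.card : ℝ) := by
    exact_mod_cast h0
  rw [mul_add]
  linarith only [h4, h5, h6, h7]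

lemma MHubF_dg_lt {ι : Type} [Fintype ι] [DecidableEq ι] (J : SimpleGraph ι)
    [DecidableRel J.Adj] (v : ι) : dg J univ v + 1 ≤ Fintype.card ι := by
  unfold dg
  have h1 : (univ.filter fun y => J.Adj v y) ⊆ univ.erase v := by
    intro y hy
    exact mem_erase.2 ⟨(mem_filter.1 hy).2.ne', mem_univ y⟩
  have h2 := card_le_card h1
  rw [card_erase_of_mem (mem_univ v), card_univ] at h2
  have h3 : 0 < Fintype.card ι := Fintype.card_pos_iff.2 ⟨v⟩
  omega

/-- the bracket after division by `X ^ s` -/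
noncomputable def MHubF_G {ι : Type} [Fintype ι] [DecidableEq ι] (J : SimpleGraph ι)
    [DecidableRel J.Adj] {k : ℕ} (X : ℝ) (x : Fin k → ℝ) : ℝ :=
  cprod J (fun c => ∑ i, x i ^ c) -
    (Fintype.card ι : ℝ) ^ 2 * (∑ i, x i) ^ (Fintype.card ι - 1) * X⁻¹ +
    ∑ v, ∑ i, x i * (x i - Fintype.card ι * X⁻¹) ^ dg J univ v *
      (1 - Fintype.card ι * X⁻¹) ^ (Fintype.card ι - 1 - dg J univ v)

lemma MHubF_scale {ι : Type} [Fintype ι] [DecidableEq ι] (J : SimpleGraph ι)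
    [DecidableRel J.Adj] [Nonempty ι] {k : ℕ} {X : ℝ} (hX : X ≠ 0) (t x : Fin k → ℝ)
    (htx : ∀ i, t i = X * x i) :
    cprod J (fun c => ∑ i, t i ^ c) -
        (Fintype.card ι : ℝ) ^ 2 * (∑ i, t i) ^ (Fintype.card ι - 1) +
        ∑ v, ∑ i, t i * (t i - Fintype.card ι) ^ dg J univ v *
          (X - Fintype.card ι) ^ (Fintype.card ι - 1 - dg J univ v) =
      X ^ Fintype.card ι * MHubF_G J X x := by
  classical
  have : Fintype J.ConnectedComponent := Fintype.ofFinite _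
  obtain ⟨s, hs⟩ : ∃ s, Fintype.card ι = s + 1 :=
    ⟨Fintype.card ι - 1, (Nat.sub_add_cancel Fintype.card_pos).symm⟩
  have h1 : cprod J (fun c => ∑ i, t i ^ c) =
      X ^ Fintype.card ι * cprod J (fun c => ∑ i, x i ^ c) := by
    rw [cprod_eq, cprod_eq, ← cprod_sum J, ← prod_pow_eq_pow_sum, ← prod_mul_distrib]
    refine prod_congr rfl fun C _ => ?_
    rw [mul_sum]
    refine sum_congr rfl fun i _ => ?_
    rw [htx i, mul_pow]
  have h2 : (∑ i, t i) ^ (Fintype.card ι - 1) =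
      X ^ Fintype.card ι * ((∑ i, x i) ^ (Fintype.card ι - 1) * X⁻¹) := by
    rw [hs, Nat.add_sub_cancel, sum_congr rfl fun i _ => htx i, ← mul_sum, mul_pow, pow_succ]
    field_simp
  have h3 : ∀ v, ∀ i, t i * (t i - Fintype.card ι) ^ dg J univ v *
      (X - Fintype.card ι) ^ (Fintype.card ι - 1 - dg J univ v) =
      X ^ Fintype.card ι * (x i * (x i - Fintype.card ι * X⁻¹) ^ dg J univ v *
      (1 - Fintype.card ι * X⁻¹) ^ (Fintype.card ι - 1 - dg J univ v)) := by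
    intro v i
    have h4 := MHubF_dg_lt J v
    have h5 : t i - Fintype.card ι = X * (x i - Fintype.card ι * X⁻¹) := by
      rw [htx i]
      field_simp
    have h6 : X - Fintype.card ι = X * (1 - Fintype.card ι * X⁻¹) := by
      field_simp
    have h7 : X ^ Fintype.card ι = X * X ^ dg J univ v *
        X ^ (Fintype.card ι - 1 - dg J univ v) := by
      rw [← pow_succ', ← pow_add]
      congr 1
      omega
    rw [h5, h6, h7, htx i, mul_pow, mul_pow]
    ring
  unfold MHubF_G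
  rw [h1, h2, sum_congr rfl fun v _ => sum_congr rfl fun i _ => h3 v i]
  simp only [← mul_sum]
  ring

/-- the limit of the bracket -/
lemma MHubF_tendsto {ι : Type} [Fintype ι] [DecidableEq ι] (J : SimpleGraph ι)
    [DecidableRel J.Adj] {k : ℕ} (z : Fin k → ℝ) (x : ℕ → Fin k → ℝ)
    (hx : ∀ i, Tendsto (fun n => x n i) atTop (𝓝 (z i))) :
    Tendsto (fun n : ℕ => MHubF_G J (n : ℝ) (x n)) atTop
      (𝓝 (cprod J (fun c => ∑ i, z i ^ c) + ∑ i, z i * Psi J (z i))) := by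
  classical
  have : Fintype J.ConnectedComponent := Fintype.ofFinite _
  have hinv : Tendsto (fun n : ℕ => ((n : ℝ))⁻¹) atTop (𝓝 0) :=
    tendsto_inv_atTop_zero.comp tendsto_natCast_atTop_atTop
  have hc : Tendsto (fun n : ℕ => (Fintype.card ι : ℝ) * ((n : ℝ))⁻¹) atTop (𝓝 0) := by
    simpa using hinv.const_mul (Fintype.card ι : ℝ)
  have h1 : Tendsto (fun n : ℕ => cprod J (fun c => ∑ i, x n i ^ c)) atTop
      (𝓝 (cprod J (fun c => ∑ i, z i ^ c))) := by
    simp only [cprod_eq]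
    refine tendsto_finsetProd _ fun C _ => ?_
    exact tendsto_finsetSum _ fun i _ => (hx i).pow _
  have h2 : Tendsto (fun n : ℕ => (Fintype.card ι : ℝ) ^ 2 *
      (∑ i, x n i) ^ (Fintype.card ι - 1) * ((n : ℝ))⁻¹) atTop (𝓝 0) := by
    have h3 := (((tendsto_finsetSum univ fun i _ => hx i).pow
      (Fintype.card ι - 1)).const_mul ((Fintype.card ι : ℝ) ^ 2)).mul hinv
    rwa [mul_zero] at h3
  have h3 : Tendsto (fun n : ℕ => ∑ v, ∑ i, x n i *
      (x n i - Fintype.card ι * ((n : ℝ))⁻¹) ^ dg J univ v *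
      (1 - Fintype.card ι * ((n : ℝ))⁻¹) ^ (Fintype.card ι - 1 - dg J univ v)) atTop
      (𝓝 (∑ i, z i * Psi J (z i))) := by
    have h4 : ∑ i, z i * Psi J (z i) = ∑ v, ∑ i, z i * (z i - 0) ^ dg J univ v *
        (1 - 0) ^ (Fintype.card ι - 1 - dg J univ v) := by
      rw [sum_comm]
      refine sum_congr rfl fun i _ => ?_
      unfold Psi
      rw [mul_sum]
      refine sum_congr rfl fun v _ => ?_
      rw [sub_zero, sub_zero, one_pow, mul_one]
    rw [h4]
    refine tendsto_finsetSum _ fun v _ => tendsto_finsetSum _ fun i _ => ?_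
    exact ((hx i).mul (((hx i).sub hc).pow _)).mul ((tendsto_const_nhds.sub hc).pow _)
  have h4 := (h1.sub h2).add h3
  rw [sub_zero] at h4
  exact h4

/-- the bracket for parts of given shares -/
lemma MHubF_gen {ι : Type} [Fintype ι] [DecidableEq ι] (J : SimpleGraph ι)
    [DecidableRel J.Adj] [Nonempty ι] {β : ℝ} {k : ℕ} (z : Fin k → ℝ) (hz : ∀ i, 0 < z i)
    (hz1 : ∀ i, z i ≤ β) (hzs : ∑ i, z i ≤ 1)
    (hF : 1 < cprod J (fun c => ∑ i, z i ^ c) + ∑ i, z i * Psi J (z i)) :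
    ∃ ε : ℝ, 0 < ε ∧ ∃ R₀ : ℕ, ∀ R r : ℕ, R₀ ≤ R → r < R →
      β * R ≤ r → ∃ (k : ℕ) (t : Fin k → ℕ), (∀ i, t i ≤ r) ∧ (∀ i, Fintype.card ι ≤ t i) ∧
        ∑ i, t i + 1 ≤ R ∧
        (1 + ε) * (R : ℝ) ^ Fintype.card ι ≤ cprod J (fun c => ∑ i, (t i : ℝ) ^ c) -
          (Fintype.card ι : ℝ) ^ 2 * (∑ i, (t i : ℝ)) ^ (Fintype.card ι - 1) +
          ∑ v, ∑ i, (t i : ℝ) * ((t i : ℝ) - Fintype.card ι) ^ dg J univ v *
            ((R : ℝ) - Fintype.card ι) ^ (Fintype.card ι - 1 - dg J univ v) := by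
  set F : ℝ := cprod J (fun c => ∑ i, z i ^ c) + ∑ i, z i * Psi J (z i) with hFdef
  set t : ℕ → Fin k → ℕ := fun R i => ⌊z i * ((R : ℝ) - 1)⌋₊ with ht
  have hR1 : Tendsto (fun R : ℕ => (R : ℝ) - 1) atTop atTop :=
    tendsto_atTop_add_const_right _ _ tendsto_natCast_atTop_atTop
  have hx : ∀ i, Tendsto (fun R : ℕ => (t R i : ℝ) / R) atTop (𝓝 (z i)) := by
    intro i
    have h1 := (tendsto_nat_floor_mul_div_atTop (hz i).le).comp hR1
    have h2 : Tendsto (fun R : ℕ => ((R : ℝ) - 1) / R) atTop (𝓝 1) := by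
      have h3 : Tendsto (fun R : ℕ => 1 - ((R : ℝ))⁻¹) atTop (𝓝 (1 - 0)) :=
        tendsto_const_nhds.sub (tendsto_inv_atTop_zero.comp tendsto_natCast_atTop_atTop)
      rw [sub_zero] at h3
      refine h3.congr' ?_
      filter_upwards [eventually_ge_atTop 1] with R hR
      have : (R : ℝ) ≠ 0 := by positivity
      field_simp
    have h3 := h1.mul h2
    rw [mul_one] at h3
    refine h3.congr' ?_
    filter_upwards [eventually_ge_atTop 2] with R hR
    have h4 : (2 : ℝ) ≤ R := by exact_mod_cast hR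
    have h5 : (R : ℝ) - 1 ≠ 0 := by linarith
    have h6 : (R : ℝ) ≠ 0 := by linarith
    simp only [Function.comp_apply, ht]
    field_simp
  have hG := MHubF_tendsto J z (fun R i => (t R i : ℝ) / R) hx
  have hev : ∀ᶠ R : ℕ in atTop, 1 + (F - 1) / 2 < MHubF_G J (R : ℝ) (fun i => (t R i : ℝ) / R) :=
    hG.eventually_const_lt (by linarith)
  have hts : ∀ᶠ R : ℕ in atTop, ∀ i, Fintype.card ι ≤ t R i := by
    rw [eventually_all]
    intro i
    have h1 : Tendsto (fun R : ℕ => z i * ((R : ℝ) - 1)) atTop atTop :=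
      hR1.const_mul_atTop (hz i)
    filter_upwards [h1.eventually_ge_atTop (Fintype.card ι : ℝ)] with R hR
    exact Nat.le_floor hR
  obtain ⟨R₀, hR₀⟩ := eventually_atTop.1 (hev.and (hts.and (eventually_ge_atTop 1)))
  refine ⟨(F - 1) / 2, by linarith, R₀, fun R r hR hr hβr => ?_⟩
  obtain ⟨h1, h2, h3⟩ := hR₀ R hR
  have h3' : (1 : ℝ) ≤ R := by exact_mod_cast h3
  have hfl : ∀ i, (t R i : ℝ) ≤ z i * ((R : ℝ) - 1) := fun i =>
    Nat.floor_le (mul_nonneg (hz i).le (by linarith))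
  refine ⟨k, t R, fun i => ?_, h2, ?_, ?_⟩
  · have h4 : (t R i : ℝ) ≤ r := by
      refine (hfl i).trans (le_trans ?_ hβr)
      have h5 := hz1 i
      have h6 := hz i
      nlinarith only [h6, h5]
    exact_mod_cast h4
  · have h4 : ((∑ i, t R i : ℕ) : ℝ) ≤ (R : ℝ) - 1 := by
      push_cast
      calc ∑ i, (t R i : ℝ) ≤ ∑ i, z i * ((R : ℝ) - 1) := sum_le_sum fun i _ => hfl i
        _ = (∑ i, z i) * ((R : ℝ) - 1) := by rw [sum_mul]
        _ ≤ 1 * ((R : ℝ) - 1) := mul_le_mul_of_nonneg_right hzs (by linarith)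
        _ = _ := one_mul _
    have h5 : ((∑ i, t R i + 1 : ℕ) : ℝ) ≤ R := by
      push_cast
      push_cast at h4
      linarith
    exact_mod_cast h5
  · have hR0 : (R : ℝ) ≠ 0 := by linarith
    rw [MHubF_scale J hR0 (fun i => (t R i : ℝ)) (fun i => (t R i : ℝ) / R) (fun i => by
      field_simp)]
    rw [mul_comm]
    exact mul_le_mul_of_nonneg_left h1.le (by positivity)

/-- the size of the bracket -/
theorem MH_lim {ι : Type} [Fintype ι] [DecidableEq ι] (J : SimpleGraph ι)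
    [DecidableRel J.Adj] [Nonempty ι] (hd : ∀ v, 1 ≤ dg J univ v) {β : ℝ} (hβ : 0 < β)
    (hβ1 : β < 1) (hQ : 1 < Qc J β) : ∃ ε : ℝ, 0 < ε ∧ ∃ R₀ : ℕ, ∀ R r : ℕ, R₀ ≤ R → r < R →
      β * R ≤ r → ∃ (k : ℕ) (t : Fin k → ℕ), (∀ i, t i ≤ r) ∧ (∀ i, Fintype.card ι ≤ t i) ∧
        ∑ i, t i + 1 ≤ R ∧
        (1 + ε) * (R : ℝ) ^ Fintype.card ι ≤ cprod J (fun c => ∑ i, (t i : ℝ) ^ c) -
          (Fintype.card ι : ℝ) ^ 2 * (∑ i, (t i : ℝ)) ^ (Fintype.card ι - 1) +
          ∑ v, ∑ i, (t i : ℝ) * ((t i : ℝ) - Fintype.card ι) ^ dg J univ v *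
            ((R : ℝ) - Fintype.card ι) ^ (Fintype.card ι - 1 - dg J univ v) := by
  classical
  have : Fintype J.ConnectedComponent := Fintype.ofFinite _
  set k₀ : ℕ := ⌊1 / β⌋₊ with hk₀
  have h1 : (k₀ : ℝ) ≤ 1 / β := Nat.floor_le (by positivity)
  have h2 : 1 / β < (k₀ : ℝ) + 1 := Nat.lt_floor_add_one _
  rw [le_div_iff₀ hβ] at h1
  rw [div_lt_iff₀ hβ] at h2
  unfold Qc Qk at hQ
  rw [← hk₀] at hQ
  rcases (sub_nonneg.2 h1).eq_or_lt with hy | hy
  · refine MHubF_gen J (k := k₀) (fun _ => β) (fun _ => hβ) (fun _ => le_rfl) ?_ ?_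
    · rw [sum_const, card_univ, Fintype.card_fin, nsmul_eq_mul]
      exact h1
    · rw [← hy] at hQ
      rw [zero_mul, add_zero] at hQ
      rw [sum_const, card_univ, Fintype.card_fin, nsmul_eq_mul]
      refine lt_of_lt_of_eq hQ ?_
      congr 1
      rw [cprod_eq, cprod_eq]
      refine prod_congr rfl fun C _ => ?_
      have h3 := cprod_two J hd C
      rw [sum_const, card_univ, Fintype.card_fin, nsmul_eq_mul, zero_pow (by omega), add_zero]
  · refine MHubF_gen J (k := k₀ + 1) (Fin.snoc (fun _ => β) (1 - k₀ * β) : Fin (k₀ + 1) → ℝ)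
      (fun i => ?_) (fun i => ?_) ?_ ?_
    · refine Fin.lastCases ?_ (fun j => ?_) i
      · rw [Fin.snoc_last]
        exact hy
      · rw [Fin.snoc_castSucc]
        exact hβ
    · refine Fin.lastCases ?_ (fun j => ?_) i
      · rw [Fin.snoc_last]
        nlinarith only [h2]
      · rw [Fin.snoc_castSucc]
    · rw [Fin.sum_univ_castSucc]
      simp only [Fin.snoc_castSucc, Fin.snoc_last]
      rw [sum_const, card_univ, Fintype.card_fin, nsmul_eq_mul]
      linarith only []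
    · simp only [Fin.sum_univ_castSucc, Fin.snoc_castSucc, Fin.snoc_last]
      simp only [sum_const, card_univ, Fintype.card_fin, nsmul_eq_mul]
      linarith only [hQ]

/-- at most `|V| D ^ s` copies of `K_1 ∨ J` if all degrees are at most `D` -/
lemma MHubF_emb_le {ι : Type} [Fintype ι] [DecidableEq ι] (J : SimpleGraph ι)
    [DecidableRel J.Adj] {V : Type} [Fintype V] [DecidableEq V] (G : SimpleGraph V)
    [DecidableRel G.Adj] {D : ℕ} (hD : ∀ x, (univ.filter fun y => G.Adj x y).card ≤ D) :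
    (emb (jn J 1) G univ).card ≤ Fintype.card V * D ^ Fintype.card ι := by
  rw [card_eq_sum_card_fiberwise (f := fun φ : Fin 1 ⊕ ι → V => φ (Sum.inl 0)) (t := univ)
    (fun _ _ => mem_coe.2 (mem_univ _))]
  rw [← card_univ (α := V), ← smul_eq_mul, ← sum_const]
  refine sum_le_sum fun x _ => ?_
  refine le_trans ?_ (Nat.pow_le_pow_left (hD x) _)
  have h0 : (Fintype.piFinset fun _ : ι => univ.filter fun y => G.Adj x y).card =
      (univ.filter fun y => G.Adj x y).card ^ Fintype.card ι := by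
    rw [Fintype.card_piFinset, prod_const, card_univ]
  rw [← h0]
  refine card_le_card_of_injOn (fun φ v => φ (Sum.inr v)) ?_ ?_
  · intro φ hφ
    have h1 := mem_filter.1 (mem_coe.1 hφ)
    have h2 := (mem_filter.1 h1.1).2
    refine mem_coe.2 (Fintype.mem_piFinset.2 fun v => mem_filter.2 ⟨mem_univ _, ?_⟩)
    rw [← h1.2]
    exact h2.2 _ _ ⟨Sum.inl_ne_inr, Or.inl rfl⟩
  · intro φ hφ ψ hψ hφψ
    have h1 := (mem_filter.1 (mem_coe.1 hφ)).2
    have h2 := (mem_filter.1 (mem_coe.1 hψ)).2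
    funext y
    rcases y with i | v
    · rw [Subsingleton.elim i 0]
      exact h1.trans h2.symm
    · exact congrFun hφψ v

/-- degrees in the Turan graph -/
lemma MHubF_deg_TG {R m r : ℕ} (hr : r < R + 1) (x : Fin ((R + 1) * m + r)) :
    (univ.filter fun y => (TG (R + 1) m r).Adj x y).card ≤ R * m + r := by
  have hw : 1 ≤ R + 1 := by omega
  have h1 : (univ.filter fun y => (TG (R + 1) m r).Adj x y) =
      univ \ cls (tcN (R + 1) m r hw) (tcN (R + 1) m r hw x) := by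
    ext y
    rw [mem_filter, Finset.mem_sdiff, tcN_adj hw]
    unfold cls
    simp only [mem_filter, mem_univ, true_and]
    exact not_congr eq_comm
  have h2 := tcN_card (m := m) hw hr (tcN (R + 1) m r hw x)
  rw [h1, card_sdiff_of_subset (subset_univ _), h2, card_univ, Fintype.card_fin]
  have h3 : (R + 1) * m = R * m + m := by ring
  omega

lemma MHubF_bij {W : Type} [Fintype W] [DecidableEq W] (H : SimpleGraph W)
    [DecidableRel H.Adj] (x₀ : W) (hδ : ∀ x, 1 < H.degree x) :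
    Function.Bijective (Sum.elim (fun _ => x₀) Subtype.val :
      Fin 1 ⊕ {x : W // x ≠ x₀ ∧ 1 < H.degree x} → W) := by
  constructor
  · rintro (i | x) (j | y) h
    · rw [Subsingleton.elim i j]
    · exact absurd h.symm y.2.1
    · exact absurd h x.2.1
    · exact congrArg _ (Subtype.ext h)
  · intro y
    by_cases hy : y = x₀
    · exact ⟨Sum.inl 0, hy.symm⟩
    · exact ⟨Sum.inr ⟨y, hy, hδ y⟩, rfl⟩

/-- `K_1 ∨ J` is the graph -/
noncomputable def MHubF_iso {W : Type} [Fintype W] [DecidableEq W] (H : SimpleGraph W)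
    [DecidableRel H.Adj] (x₀ : W) (hdom : ∀ y, y ≠ x₀ → H.Adj x₀ y)
    (hδ : ∀ x, 1 < H.degree x) :
    jn (H.comap (Subtype.val : {x : W // x ≠ x₀ ∧ 1 < H.degree x} → W)) 1 ≃g H where
  toEquiv := Equiv.ofBijective _ (MHubF_bij H x₀ hδ)
  map_rel_iff' := by
    rintro (i | x) (j | y)
    · change H.Adj x₀ x₀ ↔ _
      constructor
      · intro h
        exact absurd rfl h.ne
      · intro h
        exact absurd (congrArg Sum.inl (Subsingleton.elim i j)) h.1
    · change H.Adj x₀ y.1 ↔ _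
      exact ⟨fun _ => ⟨Sum.inl_ne_inr, Or.inl rfl⟩, fun _ => hdom _ y.2.1⟩
    · change H.Adj x.1 x₀ ↔ _
      exact ⟨fun _ => ⟨Sum.inr_ne_inl, Or.inr (Or.inl rfl)⟩, fun _ => (hdom _ x.2.1).symm⟩
    · change H.Adj x.1 y.1 ↔ _
      constructor
      · intro h
        exact ⟨fun h2 => H.loopless.irrefl _ ((congrArg Subtype.val (Sum.inr.inj h2)) ▸ h),
          Or.inr (Or.inr ⟨x, y, rfl, rfl, h⟩)⟩
      · rintro ⟨-, h | h | ⟨x', y', h1, h2, h⟩⟩
        · exact absurd h (by simp)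
        · exact absurd h (by simp)
        · rw [Sum.inr.inj h1, Sum.inr.inj h2]
          exact h

lemma MHubF_pow_lt {ε : ℝ} (hε : 0 < ε) (s R r : ℕ) (hR : 1 ≤ R) :
    ∀ᶠ m : ℕ in atTop, ((R : ℝ) * m + r) ^ s < (m : ℝ) ^ s * ((1 + ε) * (R : ℝ) ^ s) := by
  have hR' : (0 : ℝ) < R := by exact_mod_cast hR
  have h1 : Tendsto (fun m : ℕ => (1 + (r : ℝ) / R * ((m : ℝ))⁻¹) ^ s) atTop (𝓝 1) := by
    have h2 : Tendsto (fun m : ℕ => (1 + (r : ℝ) / R * ((m : ℝ))⁻¹) ^ s) atTop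
        (𝓝 ((1 + (r : ℝ) / R * 0) ^ s)) :=
      (tendsto_const_nhds.add ((tendsto_inv_atTop_zero.comp
        tendsto_natCast_atTop_atTop).const_mul _)).pow s
    rwa [mul_zero, add_zero, one_pow] at h2
  filter_upwards [h1.eventually_lt_const (show (1 : ℝ) < 1 + ε by linarith),
    eventually_ge_atTop 1] with m hm hm1
  have hm' : (0 : ℝ) < m := by exact_mod_cast hm1
  have h3 : (R : ℝ) * m + r = ((R : ℝ) * m) * (1 + (r : ℝ) / R * ((m : ℝ))⁻¹) := by
    field_simp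
  rw [h3, mul_pow, mul_pow]
  have h4 : (0 : ℝ) < (R : ℝ) ^ s * (m : ℝ) ^ s := by positivity
  calc (R : ℝ) ^ s * (m : ℝ) ^ s * (1 + (r : ℝ) / R * ((m : ℝ))⁻¹) ^ s
      < (R : ℝ) ^ s * (m : ℝ) ^ s * (1 + ε) := mul_lt_mul_of_pos_left hm h4
    _ = _ := by ring

theorem hub_neg {W : Type} [Fintype W] [DecidableEq W] (H : SimpleGraph W) [DecidableRel H.Adj]
    (x₀ : W) (hdom : ∀ y, y ≠ x₀ → H.Adj x₀ y) (hδ : 2 ≤ H.minDegree) {β : ℝ} (hβ : 0 < β)
    (hβ1 : β < 1)
    (hQ : 1 < Qc (H.comap (Subtype.val : {x : W // x ≠ x₀ ∧ 1 < H.degree x} → W)) β) :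
    ∃ R₀ : ℕ, ∀ R r : ℕ, R₀ ≤ R → r < R → β * R ≤ r → ∃ m₀ : ℕ, ∀ m : ℕ, m₀ ≤ m →
      ∃ c : ℝ, ((TG (R + 1) m r).copyCount H : ℝ) / kc 1 (TG (R + 1) m r) < c ∧
        ∀ᶠ p : ℕ in atTop, c * p ≤ exH H 1 (R * m + r) (R + 1) p := by
  have hdeg : ∀ x, 1 < H.degree x := fun x =>
    lt_of_lt_of_le (by omega) (hδ.trans (H.minDegree_le_degree x))
  set J := H.comap (Subtype.val : {x : W // x ≠ x₀ ∧ 1 < H.degree x} → W) with hJ
  have e : jn J 1 ≃g H := MHubF_iso H x₀ hdom hdeg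
  have hnb : ∀ x : W, ∃ y, H.Adj x y ∧ y ≠ x₀ := by
    intro x
    have h1 : 1 < (H.neighborFinset x).card := by
      rw [SimpleGraph.card_neighborFinset_eq_degree]
      exact hdeg x
    obtain ⟨y, hy, hne⟩ := exists_mem_ne h1 x₀
    exact ⟨y, (SimpleGraph.mem_neighborFinset _ _ _).1 hy, hne⟩
  have hd : ∀ v, 1 ≤ dg J univ v := by
    intro v
    obtain ⟨y, hy, hne⟩ := hnb v.1
    unfold dg
    refine card_pos.2 ⟨⟨y, hne, hdeg y⟩, mem_filter.2 ⟨mem_univ _, ?_⟩⟩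
    exact hy
  have hne : Nonempty {x : W // x ≠ x₀ ∧ 1 < H.degree x} := by
    obtain ⟨y, _, hne⟩ := hnb x₀
    exact ⟨⟨y, hne, hdeg y⟩⟩
  obtain ⟨ε, hε, R₀, hR₀⟩ := MH_lim J hd hβ hβ1 hQ
  refine ⟨R₀, fun R r hR hr hβr => ?_⟩
  obtain ⟨k, t, ht1, ht2, ht3, ht4⟩ := hR₀ R r hR hr hβr
  obtain ⟨m₀, hm₀⟩ := eventually_atTop.1 ((MHubF_pow_lt hε
    (Fintype.card {x : W // x ≠ x₀ ∧ 1 < H.degree x}) R r (by omega)).and
    (eventually_ge_atTop R))
  refine ⟨m₀, fun m hm => ?_⟩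
  obtain ⟨h1, hmR⟩ := hm₀ m hm
  have hal : Allowed 1 (R * m + r) (R + 1) (MH (R + 1) m r t) := by
    refine MH_allowed t (by omega) (by omega) ht1 ?_
    calc (∑ i, t i) * (m + 1) ≤ (R - 1) * (m + 1) := Nat.mul_le_mul_right _ (by omega)
      _ ≤ R * m + r := by
        obtain ⟨R', rfl⟩ : ∃ R', R = R' + 1 := ⟨R - 1, by omega⟩
        rw [Nat.add_sub_cancel]
        nlinarith only [hmR]
  obtain ⟨A, hA, hlab⟩ := labelled_eq_mul (jn J 1)
  have hA' : (0 : ℝ) < A := by exact_mod_cast hA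
  refine exH_of_graph le_rfl (by omega) (Fintype.card_pos_iff.2 ⟨x₀⟩) (FinalD_cl H)
    (MH (R + 1) m r t) hal ?_
  have h2 := MH_emb_ge J Fintype.card_pos (R := R) (m := m) t (by omega) ht1 ht2
  have h3 := MHubF_emb_le J (TG (R + 1) m r) (MHubF_deg_TG (by omega))
  rw [emb_eq_labelled, hlab, FinalD_copyCount_congr e] at h2 h3
  rw [emb_eq_labelled, hlab, FinalD_copyCount_congr e] at h2
  rw [FinalD_kc_one, FinalD_kc_one, Fintype.card_option, Fintype.card_prod, Fintype.card_fin,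
    Fintype.card_fin]
  rw [Fintype.card_fin] at h3
  have hn : 0 < (R + 1) * m + r := by
    have : 0 < (R + 1) * m := Nat.mul_pos (by omega) (by omega)
    omega
  have hn' : (0 : ℝ) < (((R + 1) * m + r : ℕ) : ℝ) := by exact_mod_cast hn
  set n : ℝ := (((R + 1) * m + r : ℕ) : ℝ) with hndef
  set a : ℝ := ((TG (R + 1) m r).copyCount H : ℝ) with ha
  set b : ℝ := ((MH (R + 1) m r t).copyCount H : ℝ) with hb
  have h4 : (A : ℝ) * a ≤ n * ((R : ℝ) * m + r) ^
      Fintype.card {x : W // x ≠ x₀ ∧ 1 < H.degree x} := by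
    rw [ha, hndef]
    exact_mod_cast h3
  have h5 : (m : ℝ) ^ Fintype.card {x : W // x ≠ x₀ ∧ 1 < H.degree x} *
      ((1 + ε) * (R : ℝ) ^ Fintype.card {x : W // x ≠ x₀ ∧ 1 < H.degree x}) ≤
      (A : ℝ) * b - k * (A * a) := by
    have h6 := mul_le_mul_of_nonneg_left ht4
      (pow_nonneg (Nat.cast_nonneg (α := ℝ) m) (Fintype.card {x : W // x ≠ x₀ ∧ 1 < H.degree x}))
    push_cast at h2
    rw [ha, hb]
    linarith only [h6, h2]
  have h6 : (A : ℝ) * (a / n * (k * n + 1)) < A * b := by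
    have h7 : (A : ℝ) * (a / n * (k * n + 1)) = k * (A * a) + A * a / n := by
      field_simp
    have h8 : (A : ℝ) * a / n ≤ ((R : ℝ) * m + r) ^
        Fintype.card {x : W // x ≠ x₀ ∧ 1 < H.degree x} := by
      rw [div_le_iff₀ hn']
      linarith only [h4]
    rw [h7]
    linarith only [h1, h5, h8]
  have h7 := lt_of_mul_lt_mul_left h6 hA'.le
  have h8 : ((k * ((R + 1) * m + r) + 1 : ℕ) : ℝ) = k * n + 1 := by
    rw [hndef]
    push_cast
    ring
  rw [h8]
  exact h7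

end H57GH
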