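import Pool.Agent.H57.GH.G1a

/-!
Project SM: one more vertex and an almost perfect matching of the small classes removed (`u = 1`).
-/

namespace H57GH

open Finset H57LC H57LT H57E32

set_option linter.unusedSectionVars false

/-- the vertices of the small classes (those of size `m`) are numbered; the vertex number `a` is not
joined to the vertex number `a + h`, where `h` is half of the number of these vertices -/
def mmE (R r m : ℕ) (c i c' i' : ℕ) : Prop :=
  r < c ∧ r < c' ∧ (c' - r - 1) * m + i' = (c - r - 1) * m + i + (R - r) * m / 2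

instance (R r m c i c' i' : ℕ) : Decidable (mmE R r m c i c' i') := by unfold mmE; infer_instance

/-- complete multipartite with `R + 1` classes, except for the pairs `mmE` -/
def MM (R r m : ℕ) : SimpleGraph (Σ k : Fin (R + 1), Fin (sz1 1 R r m k)) where
  Adj a b := a.1 ≠ b.1 ∧ ¬ mmE R r m a.1.val a.2.val b.1.val b.2.val ∧
    ¬ mmE R r m b.1.val b.2.val a.1.val a.2.val
  symm := ⟨fun _ _ h => ⟨h.1.symm, h.2.2, h.2.1⟩⟩
  loopless := ⟨fun _ h => h.1 rfl⟩

instance decMM (R r m : ℕ) : DecidableRel (MM R r m).Adj := fun a b => by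
  unfold MM
  infer_instance

/-- the size of a small class -/
theorem MMat_sz {R r m : ℕ} {k : Fin (R + 1)} (hk : r < k.val) : sz1 1 R r m k = m := by
  unfold sz1
  rw [if_neg (by omega), if_neg (by omega)]

/-- the size of a large class -/
theorem MMat_sz' {R r m : ℕ} {k : Fin (R + 1)} (hk : k.val ≤ r) : sz1 1 R r m k = m + 1 := by
  unfold sz1
  split_ifs <;> omega

/-- the vertex with a given number -/
theorem MMat_num {R r m : ℕ} (hm : 1 ≤ m) {n : ℕ} (hn : n < (R - r) * m) :
    ∃ b : Σ k : Fin (R + 1), Fin (sz1 1 R r m k), r < b.1.val ∧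
      (b.1.val - r - 1) * m + b.2.val = n := by
  obtain ⟨q, hq⟩ : ∃ q, q = n / m := ⟨_, rfl⟩
  have h1 : q < R - r := by
    rw [hq]
    exact (Nat.div_lt_iff_lt_mul hm).2 hn
  have hlt : r + 1 + q < R + 1 := by omega
  have hk : r < (⟨r + 1 + q, hlt⟩ : Fin (R + 1)).val := by
    show r < r + 1 + q
    omega
  have hi : n % m < sz1 1 R r m ⟨r + 1 + q, hlt⟩ := by
    rw [MMat_sz hk]
    exact Nat.mod_lt _ hm
  refine ⟨⟨⟨r + 1 + q, hlt⟩, ⟨n % m, hi⟩⟩, hk, ?_⟩
  show (r + 1 + q - r - 1) * m + n % m = n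
  have h2 : r + 1 + q - r - 1 = q := by omega
  rw [h2, mul_comm, hq]
  exact Nat.div_add_mod n m

/-- every vertex of a small class misses a vertex of another small class -/
theorem MM_miss {R r m : ℕ} (hr : r + 2 ≤ R) (hm : 1 ≤ m)
    (a : Σ k : Fin (R + 1), Fin (sz1 1 R r m k)) (ha : r < a.1.val) :
    ∃ b : Σ k : Fin (R + 1), Fin (sz1 1 R r m k), b.1 ≠ a.1 ∧ ¬ (MM R r m).Adj a b := by
  obtain ⟨h, hh⟩ : ∃ h, h = (R - r) * m / 2 := ⟨_, rfl⟩
  have h2m : 2 * m ≤ (R - r) * m := Nat.mul_le_mul_right m (by omega)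
  have hhm : m ≤ h := by omega
  have ha2 : a.2.val < m := by
    have h1 := a.2.2
    have h2 := MMat_sz (m := m) ha
    omega
  have haR : a.1.val < R + 1 := a.1.2
  -- the number of `a`
  obtain ⟨n, hn⟩ : ∃ n, n = (a.1.val - r - 1) * m + a.2.val := ⟨_, rfl⟩
  have hnlt : n < (R - r) * m := by
    have h1 : (a.1.val - r - 1 + 1) * m ≤ (R - r) * m := Nat.mul_le_mul_right m (by omega)
    rw [add_mul, one_mul] at h1
    omega
  -- different numbers, different classes
  have hdiff : ∀ b : Σ k : Fin (R + 1), Fin (sz1 1 R r m k), r < b.1.val →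
      ((b.1.val - r - 1) * m + b.2.val + m ≤ n ∨ n + m ≤ (b.1.val - r - 1) * m + b.2.val) →
      b.1 ≠ a.1 := by
    intro b hb hbn hba
    have h1 := b.2.2
    have h2 := MMat_sz (m := m) hb
    have h3 : b.1.val = a.1.val := by rw [hba]
    rw [h3] at hbn
    omega
  by_cases hcase : n < h
  · have h1 : n + h < (R - r) * m := by omega
    obtain ⟨b, hb, hbn⟩ := MMat_num hm h1
    refine ⟨b, hdiff b hb (Or.inr (by omega)), fun hadj => hadj.2.1 ⟨ha, hb, ?_⟩⟩
    rw [hbn, ← hn, ← hh]
  · have h1 : n - h < (R - r) * m := by omega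
    obtain ⟨b, hb, hbn⟩ := MMat_num hm h1
    refine ⟨b, hdiff b hb (Or.inl (by omega)), fun hadj => hadj.2.2 ⟨hb, ha, ?_⟩⟩
    rw [hbn, ← hn, ← hh]
    omega

/-- the degrees -/
theorem MMat_cn {R r m : ℕ} (hr : r + 2 ≤ R) (hm : 1 ≤ m)
    {A : Finset (Σ k : Fin (R + 1), Fin (sz1 1 R r m k))} (hA : (MM R r m).IsNClique 1 A) :
    (H57E32.cn (MM R r m) A).card ≤ R * m + r := by
  classical
  obtain ⟨a, rfl⟩ := SimpleGraph.isNClique_one.1 hA
  have hcard := G1a_card (u := 1) (R := R) (r := r) (m := m) le_rfl (by omega)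
  set B1 := ({a.1} : Finset (Fin (R + 1))).sigma
    (fun k => (univ : Finset (Fin (sz1 1 R r m k)))) with hB1
  have hc1 : B1.card = sz1 1 R r m a.1 := by
    rw [hB1, card_sigma, sum_singleton]
    simp
  have hadj : ∀ v ∈ H57E32.cn (MM R r m) {a}, (MM R r m).Adj v a := fun v hv =>
    (H57E32.mem_cn.mp hv a (mem_singleton_self a)).symm
  have hd1 : Disjoint (H57E32.cn (MM R r m) {a}) B1 := by
    rw [disjoint_left]
    intro v hv hv'
    rw [hB1, mem_sigma, mem_singleton] at hv'
    exact (hadj v hv).1 hv'.1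
  by_cases ha : r < a.1.val
  · obtain ⟨b, hb1, hb2⟩ := MM_miss hr hm a ha
    have hbc : b ∉ H57E32.cn (MM R r m) {a} := fun h => hb2 (hadj b h).symm
    have hbB : b ∉ B1 := by
      rw [hB1, mem_sigma, mem_singleton]
      exact fun h => hb1 h.1
    have hbU : b ∉ H57E32.cn (MM R r m) {a} ∪ B1 := by
      rw [mem_union]
      exact fun h => h.elim hbc hbB
    have h3 := card_le_univ (insert b (H57E32.cn (MM R r m) {a} ∪ B1))
    rw [card_insert_of_notMem hbU, card_union_of_disjoint hd1, hcard, hc1, MMat_sz ha] at h3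
    omega
  · have h3 := card_le_univ (H57E32.cn (MM R r m) {a} ∪ B1)
    rw [card_union_of_disjoint hd1, hcard, hc1, MMat_sz' (by omega)] at h3
    omega

theorem MM_allowed {R r m : ℕ} (hr : r + 2 ≤ R) (hm : 1 ≤ m) :
    Allowed 1 (R * m + r) (R + 1) (MM R r m) := by
  classical
  rw [allowed_iff]
  constructor
  · intro A hA
    rw [cns_ncard]
    exact MMat_cn hr hm hA
  · intro A hA
    have hinj : Set.InjOn Sigma.fst (A : Set (Σ k : Fin (R + 1), Fin (sz1 1 R r m k))) := by
      intro x hx y hy hxy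
      by_contra hne
      exact (hA.1 hx hy hne).1 hxy
    have h1 := card_image_of_injOn hinj
    have h2 := card_le_univ (A.image Sigma.fst)
    rw [h1, hA.card_eq, Fintype.card_fin] at h2
    omega

end H57GH
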