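import Pool.Agent.H57.GH.MMat
import Pool.Agent.H57.GH.G1c

/-!
Project SM: copies in `MM` (compare G1c).
-/

namespace H57GH

open Finset H57LC H57LT H57E32

set_option linter.unusedSectionVars false

/-- the missing pairs -/
def MMatC_B (R r m : ℕ) : Finset ((Σ k : Fin (R + 1), Fin (sz1 1 R r m k)) ×
    (Σ k : Fin (R + 1), Fin (sz1 1 R r m k))) :=
  univ.filter fun x => mmE R r m x.1.1.val x.1.2.val x.2.1.val x.2.2.val

theorem MMatC_lt {R r m : ℕ} (p : Σ k : Fin (R + 1), Fin (sz1 1 R r m k)) (hp : r < p.1.val) :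
    p.2.val < m := by
  have h1 := p.2.isLt
  have h2 : sz1 1 R r m p.1 = m := by
    rw [sz1, if_neg (by omega), if_neg (by omega)]
  omega

/-- the number of a vertex of a small class determines the vertex -/
theorem MMatC_num {R r m : ℕ} {p q : Σ k : Fin (R + 1), Fin (sz1 1 R r m k)}
    (hp : r < p.1.val) (hq : r < q.1.val)
    (h : (p.1.val - r - 1) * m + p.2.val = (q.1.val - r - 1) * m + q.2.val) : p = q := by
  have h1 := MMatC_lt p hp
  have h2 := MMatC_lt q hq
  have h3 : p.1.val - r - 1 = q.1.val - r - 1 := by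
    rcases lt_trichotomy (p.1.val - r - 1) (q.1.val - r - 1) with h4 | h4 | h4
    · have h5 : (p.1.val - r - 1 + 1) * m ≤ (q.1.val - r - 1) * m := Nat.mul_le_mul_right _ h4
      rw [Nat.add_mul] at h5
      omega
    · exact h4
    · have h5 : (q.1.val - r - 1 + 1) * m ≤ (p.1.val - r - 1) * m := Nat.mul_le_mul_right _ h4
      rw [Nat.add_mul] at h5
      omega
  rw [h3] at h
  exact G1c_ext (by omega) (by omega)

theorem MMatC_num_lt {R r m : ℕ} (p : Σ k : Fin (R + 1), Fin (sz1 1 R r m k)) (hp : r < p.1.val) :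
    (p.1.val - r - 1) * m + p.2.val < (R - r) * m := by
  have h1 := MMatC_lt p hp
  have h2 := p.1.isLt
  have h3 : (p.1.val - r - 1 + 1) * m ≤ (R - r) * m := Nat.mul_le_mul_right _ (by omega)
  rw [Nat.add_mul] at h3
  omega

theorem MMatC_B_card (R r m : ℕ) :
    (MMatC_B R r m).card ≤ (R - r) * m - (R - r) * m / 2 := by
  have h : (MMatC_B R r m).card ≤ (range ((R - r) * m - (R - r) * m / 2)).card := by
    refine Finset.card_le_card_of_injOn (fun x => (x.1.1.val - r - 1) * m + x.1.2.val) ?_ ?_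
    · intro x hx
      have hx' := (Finset.mem_filter.1 (Finset.mem_coe.1 hx)).2
      obtain ⟨h1, h2, h3⟩ := hx'
      have h4 := MMatC_num_lt x.2 h2
      refine Finset.mem_coe.2 (Finset.mem_range.2 ?_)
      show (x.1.1.val - r - 1) * m + x.1.2.val < _
      omega
    · intro x hx y hy hxy
      have hx' := (Finset.mem_filter.1 (Finset.mem_coe.1 hx)).2
      have hy' := (Finset.mem_filter.1 (Finset.mem_coe.1 hy)).2
      obtain ⟨h1, h2, h3⟩ := hx'
      obtain ⟨h4, h5, h6⟩ := hy'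
      have h7 : (x.1.1.val - r - 1) * m + x.1.2.val = (y.1.1.val - r - 1) * m + y.1.2.val := hxy
      refine Prod.ext (MMatC_num h1 h4 h7) (MMatC_num h2 h5 ?_)
      omega
  rwa [Finset.card_range] at h

theorem MMatC_split {W : Type*} [Fintype W] [DecidableEq W] (H : SimpleGraph W)
    [DecidableRel H.Adj] (R r m : ℕ) :
    (cm H (univ : Finset (Σ k : Fin (R + 1), Fin (sz1 1 R r m k))) Sigma.fst).card ≤
      (emb H (MM R r m) univ).card +
      ∑ ab ∈ (univ : Finset (W × W)).filter (fun x => H.Adj x.1 x.2),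
        ∑ pq ∈ MMatC_B R r m,
          ((cm H (univ : Finset (Σ k : Fin (R + 1), Fin (sz1 1 R r m k))) Sigma.fst).filter
            fun φ => φ ab.1 = pq.1 ∧ φ ab.2 = pq.2).card := by
  have hsub : cm H (univ : Finset (Σ k : Fin (R + 1), Fin (sz1 1 R r m k))) Sigma.fst ⊆
      emb H (MM R r m) univ ∪
      ((univ : Finset (W × W)).filter (fun x => H.Adj x.1 x.2)).biUnion fun ab =>
        (MMatC_B R r m).biUnion fun pq =>
          (cm H (univ : Finset (Σ k : Fin (R + 1), Fin (sz1 1 R r m k))) Sigma.fst).filter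
            fun φ => φ ab.1 = pq.1 ∧ φ ab.2 = pq.2 := by
    intro φ hφ
    by_cases h : φ ∈ emb H (MM R r m) univ
    · exact Finset.mem_union_left _ h
    refine Finset.mem_union_right _ ?_
    have hφ' := hφ
    rw [cm, Finset.mem_filter] at hφ'
    obtain ⟨h1, h2, h3⟩ := hφ'
    have h4 : ¬ ∀ i j, H.Adj i j → (MM R r m).Adj (φ i) (φ j) := by
      intro h5
      exact h (Finset.mem_filter.2 ⟨h1, h2, h5⟩)
    push Not at h4
    obtain ⟨i, j, hij, hn⟩ := h4
    have h5 := h3 i j hij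
    have h6 : mmE R r m (φ i).1.val (φ i).2.val (φ j).1.val (φ j).2.val ∨
        mmE R r m (φ j).1.val (φ j).2.val (φ i).1.val (φ i).2.val := by
      by_contra h7
      push Not at h7
      exact hn ⟨h5, h7.1, h7.2⟩
    rcases h6 with h6 | h6
    · refine Finset.mem_biUnion.2 ⟨(i, j), Finset.mem_filter.2 ⟨mem_univ _, hij⟩, ?_⟩
      refine Finset.mem_biUnion.2 ⟨(φ i, φ j), Finset.mem_filter.2 ⟨mem_univ _, h6⟩, ?_⟩
      exact Finset.mem_filter.2 ⟨hφ, rfl, rfl⟩
    · refine Finset.mem_biUnion.2 ⟨(j, i), Finset.mem_filter.2 ⟨mem_univ _, hij.symm⟩, ?_⟩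
      refine Finset.mem_biUnion.2 ⟨(φ j, φ i), Finset.mem_filter.2 ⟨mem_univ _, h6⟩, ?_⟩
      exact Finset.mem_filter.2 ⟨hφ, rfl, rfl⟩
  refine (Finset.card_le_card hsub).trans ((Finset.card_union_le _ _).trans ?_)
  refine Nat.add_le_add_left ?_ _
  refine Finset.card_biUnion_le.trans (Finset.sum_le_sum fun ab _ => ?_)
  exact Finset.card_biUnion_le

theorem emb_MM_ge {W : Type*} [Fintype W] [DecidableEq W] (H : SimpleGraph W)
    [DecidableRel H.Adj] {R r m : ℕ} (hr : r + 2 ≤ R) (hm : R ≤ m) :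
    (fJ H univ (sz1 1 R r m) : ℝ) - (((R : ℝ) - r) * m / 2 + 1) * (oe H : ℝ) *
      (M0 H (R + 1) (m + 1) / (((R : ℝ) + 1) * R * ((m : ℝ) + 1) ^ 2)) ≤
      ((emb H (MM R r m) univ).card : ℝ) := by
  have h1 := MMatC_split H R r m
  rw [G1c_cm] at h1
  set X : ℝ := M0 H (R + 1) (m + 1) / (((R : ℝ) + 1) * R * ((m : ℝ) + 1) ^ 2) with hX
  have hR1 : (1 : ℝ) ≤ R := by exact_mod_cast (by omega : 1 ≤ R)
  have hm0 : (0 : ℝ) ≤ m := Nat.cast_nonneg _
  have hD : (0 : ℝ) < ((R : ℝ) + 1) * R * ((m : ℝ) + 1) ^ 2 := by positivity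
  have hX0 : 0 ≤ X := div_nonneg (Nat.cast_nonneg _) hD.le
  have hf : ∀ k : Fin (R + 1), sz1 1 R r m k ≤ m + 1 := by
    intro k
    rw [sz1]
    split_ifs <;> omega
  have hcnt : ∀ ab ∈ (univ : Finset (W × W)).filter (fun x => H.Adj x.1 x.2),
      ∀ pq ∈ MMatC_B R r m,
      ((((cm H (univ : Finset (Σ k : Fin (R + 1), Fin (sz1 1 R r m k))) Sigma.fst).filter
            fun φ => φ ab.1 = pq.1 ∧ φ ab.2 = pq.2).card : ℕ) : ℝ) ≤ X := by
    intro ab hab pq hpq
    have hab' := (Finset.mem_filter.1 hab).2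
    have hpq' := (Finset.mem_filter.1 hpq).2
    have hne : pq.1.1 ≠ pq.2.1 := by
      intro h
      obtain ⟨h2, h3, h4⟩ := hpq'
      have h5 := MMatC_lt pq.2 h3
      have h6 : m ≤ (R - r) * m / 2 := by
        rw [Nat.le_div_iff_mul_le (by norm_num)]
        calc m * 2 = 2 * m := by ring
          _ ≤ (R - r) * m := Nat.mul_le_mul_right _ (by omega)
      have h7 : pq.1.1.val = pq.2.1.val := congrArg Fin.val h
      rw [h7] at h4
      omega
    have h2 := G1c_cnt H hf hab' pq.1 pq.2 hne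
    rw [hX, le_div_iff₀ hD]
    push_cast at h2
    have e : ((R : ℝ) + 1) * ((R : ℝ) + 1 - 1) * ((m : ℝ) + 1) ^ 2 =
        ((R : ℝ) + 1) * R * ((m : ℝ) + 1) ^ 2 := by ring
    rw [e] at h2
    exact h2
  have h2 : (fJ H univ (sz1 1 R r m) : ℝ) ≤ ((emb H (MM R r m) univ).card : ℝ) +
      (oe H : ℝ) * ((((R : ℝ) - r) * m / 2 + 1) * X) := by
    have h3 : (fJ H univ (sz1 1 R r m) : ℝ) ≤ ((emb H (MM R r m) univ).card : ℝ) +
      ∑ ab ∈ (univ : Finset (W × W)).filter (fun x => H.Adj x.1 x.2),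
        ∑ pq ∈ MMatC_B R r m,
          ((((cm H (univ : Finset (Σ k : Fin (R + 1), Fin (sz1 1 R r m k))) Sigma.fst).filter
            fun φ => φ ab.1 = pq.1 ∧ φ ab.2 = pq.2).card : ℕ) : ℝ) := by
      exact_mod_cast h1
    refine h3.trans (add_le_add le_rfl ?_)
    have h4 : (oe H : ℝ) * ((((R : ℝ) - r) * m / 2 + 1) * X) =
        ∑ _ab ∈ (univ : Finset (W × W)).filter (fun x => H.Adj x.1 x.2),
          ((((R : ℝ) - r) * m / 2 + 1) * X) := by
      rw [Finset.sum_const, nsmul_eq_mul, oe]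
    rw [h4]
    refine Finset.sum_le_sum fun ab hab => ?_
    refine (Finset.sum_le_sum fun pq hpq => hcnt ab hab pq hpq).trans ?_
    rw [Finset.sum_const, nsmul_eq_mul]
    refine mul_le_mul_of_nonneg_right ?_ hX0
    have h5 : (MMatC_B R r m).card * 2 ≤ (R - r) * m + 1 := by
      have := MMatC_B_card R r m
      omega
    have h6 : ((MMatC_B R r m).card : ℝ) * 2 ≤ ((R : ℝ) - r) * m + 1 := by
      have h7 : (((MMatC_B R r m).card * 2 : ℕ) : ℝ) ≤ (((R - r) * m + 1 : ℕ) : ℝ) := by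
        exact_mod_cast h5
      rw [Nat.cast_mul, Nat.cast_add, Nat.cast_mul, Nat.cast_sub (by omega : r ≤ R)] at h7
      push_cast at h7
      exact h7
    linarith
  have h6 : (((R : ℝ) - r) * m / 2 + 1) * (oe H : ℝ) * X =
      (oe H : ℝ) * ((((R : ℝ) - r) * m / 2 + 1) * X) := by ring
  rw [h6]
  linarith

end H57GH
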