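import Pool.Agent.H57.GH.MMatC
import Pool.Agent.H57.GH.G1e

/-!
Project SM: the Turan graph is not optimal for large residues, `u = 1` (compare G1e.neg_large).
-/

namespace H57GH

open Finset H57LC H57LT H57E32 Filter Topology

set_option linter.unusedSectionVars false

/-- the number of `1`-cliques is the number of vertices -/
lemma MMatF_kc_one {V : Type*} [Fintype V] (G : SimpleGraph V) : kc 1 G = Fintype.card V := by
  classical
  have h : {A : Finset V | G.IsNClique 1 A} = Set.range (fun a : V => ({a} : Finset V)) := by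
    ext A
    rw [Set.mem_ofPred_eq, SimpleGraph.isNClique_one, Set.mem_range]
    exact ⟨fun ⟨a, ha⟩ => ⟨a, ha.symm⟩, fun ⟨a, ha⟩ => ⟨a, ha.symm⟩⟩
  unfold kc
  rw [h, ← Set.image_univ, Set.ncard_image_of_injective _ Finset.singleton_injective,
    Set.ncard_univ, Nat.card_eq_fintype_card]

theorem mat_neg {W : Type} [Fintype W] [DecidableEq W] (H : SimpleGraph W)
    [DecidableRel H.Adj] {R r : ℕ} (x₀ : W) (hdom : ∀ y, y ≠ x₀ → H.Adj x₀ y)
    (hW : 1 < Fintype.card W) (hWR : Fintype.card W ≤ R + 1) (hrR : r + 2 ≤ R)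
    (hcond : ((R : ℝ) - r) * (oe H : ℝ) < 2 * ((Fintype.card W : ℝ) - 1) * R) :
    ∃ m₀ : ℕ, ∀ m : ℕ, m₀ ≤ m →
      ∃ c : ℝ, ((TG (R + 1) m r).copyCount H : ℝ) / kc 1 (TG (R + 1) m r) < c ∧
        ∀ᶠ p : ℕ in atTop, c * p ≤ exH H 1 (R * m + r) (R + 1) p := by
  have hw : 1 ≤ R + 1 := by omega
  obtain ⟨CF, hCF, hF⟩ := G1e_F H (by omega) hw hWR 1
  obtain ⟨s, hs⟩ : ∃ s : ℝ, s = (Fintype.card W : ℝ) := ⟨_, rfl⟩
  obtain ⟨e, he⟩ : ∃ e : ℝ, e = (oe H : ℝ) := ⟨_, rfl⟩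
  obtain ⟨v, hv⟩ : ∃ v : ℝ, v = ((R + 1 : ℕ) : ℝ) := ⟨_, rfl⟩
  have hv' : v = (R : ℝ) + 1 := by rw [hv]; push_cast; ring
  obtain ⟨d, hd⟩ : ∃ d : ℝ, d = (R : ℝ) - r := ⟨_, rfl⟩
  have hR1 : (r : ℝ) + 2 ≤ R := by exact_mod_cast hrR
  have hr0 : (0 : ℝ) ≤ r := Nat.cast_nonneg _
  have hd0 : 0 ≤ d := by rw [hd]; linarith
  have hR2 : (2 : ℝ) ≤ R := by linarith
  have hv2 : 2 ≤ v := by rw [hv']; linarith
  have hs0 : 0 ≤ s := by rw [hs]; positivity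
  have he0 : 0 ≤ e := by rw [he]; positivity
  obtain ⟨β, hβ⟩ : ∃ β : ℝ, β = d * e / (2 * (v * (v - 1))) := ⟨_, rfl⟩
  have hβ0 : 0 ≤ β := by
    rw [hβ]
    exact div_nonneg (mul_nonneg hd0 he0)
      (mul_nonneg (by norm_num) (mul_nonneg (by linarith) (by linarith)))
  obtain ⟨C, hC⟩ : ∃ C : ℝ, C = CF + β * (s + CF) + e * (1 + s + CF) := ⟨_, rfl⟩
  have hCF' : CF ≤ C := by
    rw [hC]
    have : 0 ≤ β * (s + CF) := by positivity
    have : 0 ≤ e * (1 + s + CF) := by positivity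
    linarith
  have hC0 : 0 ≤ C := hCF.le.trans hCF'
  have hlt : s / v * r + (r + 1) / v < (s / v * (r + 1) - β) + r / v := by
    have h1 : d * e < 2 * (s - 1) * (v - 1) := by
      rw [hd, hs, he, hv']
      have := hcond
      linarith
    have h3 : β < (s - 1) / v := by
      rw [hβ, div_lt_div_iff₀ (mul_pos (by norm_num) (mul_pos (by linarith) (by linarith)))
        (by linarith)]
      have h3a : 0 < v := by linarith
      calc d * e * v < 2 * (s - 1) * (v - 1) * v :=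
            mul_lt_mul_of_pos_right h1 h3a
        _ = (s - 1) * (2 * (v * (v - 1))) := by ring
    have h4 : s / v * (r + 1) + r / v - s / v * r - (r + 1) / v = (s - 1) / v := by
      ring
    linarith
  obtain ⟨m₁, hm₁⟩ := eventually_atTop.1 (G1e_asym (s / v * r) (r / v)
    (s / v * (r + 1) - β) ((r + 1) / v) C hlt)
  refine ⟨m₁ + R + 1 + 1, fun m hm => ?_⟩
  obtain ⟨k1, k2, k3⟩ := hm₁ m (by omega)
  have hm0 : (0 : ℝ) < m := by
    have : 0 < m := by omega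
    exact_mod_cast this
  have hm1 : (1 : ℝ) ≤ m := by
    have : 1 ≤ m := by omega
    exact_mod_cast this
  -- the main terms
  obtain ⟨F₀, hF₀⟩ : ∃ F₀ : ℝ, F₀ = M0 H (R + 1) m := ⟨_, rfl⟩
  have hF₀0 : 0 < F₀ := by
    rw [hF₀]
    exact lt_of_lt_of_le (by positivity) (M0_ge H hWR)
  have hv0 : 0 < v := by linarith only [hv', hR1]
  have hv1 : 0 < v - 1 := by linarith only [hv', hR1]
  obtain ⟨K₀, hK₀⟩ : ∃ K₀ : ℝ, K₀ = v * m := ⟨_, rfl⟩
  have hK₀0 : 0 < K₀ := by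
    rw [hK₀]
    positivity
  -- the Turan graph
  have hxg1 : ∀ k : Fin (R + 1), m ≤ xg (R + 1) r m k := fun k => by unfold xg; omega
  have hxg2 : ∀ k : Fin (R + 1), xg (R + 1) r m k ≤ m + 1 := fun k => by
    unfold xg
    split_ifs <;> omega
  have hsz1 : ∀ k : Fin (R + 1), m ≤ sz1 1 R r m k := fun k => by
    unfold sz1
    split_ifs <;> omega
  have hsz2 : ∀ k : Fin (R + 1), sz1 1 R r m k ≤ m + 1 := fun k => by
    unfold sz1
    split_ifs <;> omega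
  have hFL := hF m (by omega) (xg (R + 1) r m) hxg1 hxg2
  have hFG := hF m (by omega) (sz1 1 R r m) hsz1 hsz2
  have hFc := hF m (by omega) (fun _ => m + 1) (fun _ => by omega) (fun _ => le_refl _)
  rw [G1e_sum_xg (by omega)] at hFL
  rw [G1e_sum_sz (le_refl 1) (by omega : r < R)] at hFG
  have hcs : ∑ k : Fin (R + 1), (((fun _ => m + 1) k : ℕ) : ℝ) - ((R + 1 : ℕ) : ℝ) * m = v := by
    rw [sum_const, card_univ, Fintype.card_fin, nsmul_eq_mul, ← hv]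
    push_cast
    ring
  rw [hcs] at hFc
  rw [← hF₀, ← hs, ← hv] at hFL hFG hFc
  obtain ⟨FL, hFLe⟩ : ∃ FL : ℝ, FL = (fJ H univ (xg (R + 1) r m) : ℝ) := ⟨_, rfl⟩
  obtain ⟨FS, hFSe⟩ : ∃ FS : ℝ, FS = (fJ H univ (sz1 1 R r m) : ℝ) := ⟨_, rfl⟩
  rw [← hFLe] at hFL
  rw [← hFSe, Nat.cast_one] at hFG
  have hG := emb_MM_ge H (R := R) (r := r) (m := m) hrR (by omega)
  obtain ⟨FC, hFCe⟩ : ∃ FC : ℝ, FC = M0 H (R + 1) (m + 1) := ⟨_, rfl⟩
  have hFC : |FC - F₀ * (1 + s / v * v / m)| ≤ CF * F₀ / (m : ℝ) ^ 2 := by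
    rw [hFCe]; exact hFc
  obtain ⟨FG, hFGe⟩ : ∃ FG : ℝ, FG = ((emb H (MM R r m) univ).card : ℝ) := ⟨_, rfl⟩
  have hRv : (R : ℝ) = v - 1 := by rw [hv']; ring
  rw [← hFSe, ← hd, ← hFCe, ← hv', ← hFGe, ← he, hRv] at hG
  -- the loss
  have hFC2 : FC ≤ F₀ * (1 + (s + CF) / m) := by
    have h1 := (abs_le.1 hFC).2
    have h2 : CF * F₀ / (m : ℝ) ^ 2 ≤ CF * F₀ / m := by
      exact div_le_div_of_nonneg_left (by positivity) hm0 (le_self_pow₀ hm1 (by norm_num))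
    have h3 : F₀ * (1 + s / v * v / m) + CF * F₀ / m = F₀ * (1 + (s + CF) / m) := by
      field_simp
      ring
    linarith only [h1, h2, h3]
  have hFC0 : 0 ≤ FC := by rw [hFCe]; unfold M0; positivity
  have hFC3 : FC ≤ F₀ * (1 + s + CF) := by
    have h1 : (s + CF) / m ≤ s + CF := div_le_self (by linarith only [hCF, hs]) hm1
    have h2 : F₀ * (1 + (s + CF) / m) ≤ F₀ * (1 + s + CF) :=
      mul_le_mul_of_nonneg_left (by linarith only [h1]) hF₀0.le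
    linarith only [hFC2, h2]
  have hloss : (d * m / 2 + 1) * e * (FC / (v * (v - 1) * ((m : ℝ) + 1) ^ 2)) ≤
      β * (F₀ * (1 + (s + CF) / m)) / m + e * (F₀ * (1 + s + CF)) / (m : ℝ) ^ 2 := by
    have h1 : (d * m / 2 + 1) * e * (FC / (v * (v - 1) * ((m : ℝ) + 1) ^ 2)) =
        β * FC * (m / ((m : ℝ) + 1) ^ 2) + e * (FC / (v * (v - 1) * ((m : ℝ) + 1) ^ 2)) := by
      rw [hβ]
      field_simp
    have h2 : (m : ℝ) / ((m : ℝ) + 1) ^ 2 ≤ 1 / m := by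
      rw [div_le_div_iff₀ (by positivity) hm0, one_mul, ← sq]
      exact pow_le_pow_left₀ hm0.le (by linarith only []) 2
    have h3 : β * FC * (m / ((m : ℝ) + 1) ^ 2) ≤ β * (F₀ * (1 + (s + CF) / m)) / m := by
      calc β * FC * (m / ((m : ℝ) + 1) ^ 2) ≤ β * FC * (1 / m) :=
            mul_le_mul_of_nonneg_left h2 (mul_nonneg hβ0 hFC0)
        _ ≤ β * (F₀ * (1 + (s + CF) / m)) * (1 / m) := by
            refine mul_le_mul_of_nonneg_right (mul_le_mul_of_nonneg_left hFC2 hβ0) (by positivity)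
        _ = _ := by ring
    have h4 : FC / (v * (v - 1) * ((m : ℝ) + 1) ^ 2) ≤ F₀ * (1 + s + CF) / (m : ℝ) ^ 2 := by
      have h5 : (m : ℝ) ^ 2 ≤ v * (v - 1) * ((m : ℝ) + 1) ^ 2 := by
        have h6 : (1 : ℝ) ≤ v * (v - 1) := by nlinarith only [hv, hR1, hv']
        have h7 : (m : ℝ) ^ 2 ≤ ((m : ℝ) + 1) ^ 2 := pow_le_pow_left₀ hm0.le (by linarith only []) 2
        nlinarith only [sq_nonneg ((m : ℝ) + 1), hm0, h6]
      exact div_le_div₀ (hFC0.trans hFC3) hFC3 (by positivity) h5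
    have h6 : e * (FC / (v * (v - 1) * ((m : ℝ) + 1) ^ 2)) ≤
        e * (F₀ * (1 + s + CF)) / (m : ℝ) ^ 2 := by
      rw [mul_div_assoc]
      exact mul_le_mul_of_nonneg_left h4 he0
    rw [h1]
    exact add_le_add h3 h6
  -- the four bounds
  have hm2 : (0 : ℝ) < (m : ℝ) ^ 2 := by positivity
  have b1 : FL ≤ F₀ * (1 + s / v * r / m + C / (m : ℝ) ^ 2) := by
    have h1 := (abs_le.1 hFL).2
    have h2 : CF * F₀ / (m : ℝ) ^ 2 ≤ F₀ * (C / (m : ℝ) ^ 2) := by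
      rw [mul_div_assoc', mul_comm F₀ C]
      exact div_le_div_of_nonneg_right (mul_le_mul_of_nonneg_right hCF' hF₀0.le) hm2.le
    rw [mul_add]
    linarith only [h1, h2]
  have b3 : F₀ * (1 + (s / v * (r + 1) - β) / m - C / (m : ℝ) ^ 2) ≤ FG := by
    have h1 := (abs_le.1 hFG).1
    have h2 : F₀ * (1 + (s / v * (r + 1) - β) / m - C / (m : ℝ) ^ 2) =
        F₀ * (1 + s / v * (r + 1) / m) - CF * F₀ / (m : ℝ) ^ 2 -
        (β * (F₀ * (1 + (s + CF) / m)) / m + e * (F₀ * (1 + s + CF)) / (m : ℝ) ^ 2) := by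
      rw [hC]
      field_simp
      ring
    linarith
  -- the numbers of vertices
  obtain ⟨KL, hKLe⟩ : ∃ KL : ℝ, KL = (kc 1 (TG (R + 1) m r) : ℝ) := ⟨_, rfl⟩
  obtain ⟨KG, hKGe⟩ : ∃ KG : ℝ, KG = (kc 1 (MM R r m) : ℝ) := ⟨_, rfl⟩
  have c1 : KL = K₀ * (1 + r / v / m) := by
    rw [hKLe, MMatF_kc_one, Fintype.card_fin, hK₀, hv']
    push_cast
    field_simp
  have c2 : KG = K₀ * (1 + (r + 1) / v / m) := by
    rw [hKGe, MMatF_kc_one, G1a_card (le_refl 1) (by omega : r < R), hK₀, hv']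
    push_cast
    field_simp
    ring
  have hCm : 0 ≤ K₀ * (C / (m : ℝ) ^ 2) := by positivity
  have b2 : K₀ * (1 + r / v / m - C / (m : ℝ) ^ 2) ≤ KL := by
    rw [c1]
    have : K₀ * (1 + r / v / m - C / (m : ℝ) ^ 2) = K₀ * (1 + r / v / m) -
      K₀ * (C / (m : ℝ) ^ 2) := by ring
    linarith only [hCm]
  have b4 : KG ≤ K₀ * (1 + (r + 1) / v / m + C / (m : ℝ) ^ 2) := by
    rw [c2]
    have : K₀ * (1 + (r + 1) / v / m + C / (m : ℝ) ^ 2) = K₀ * (1 + (r + 1) / v / m) +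
      K₀ * (C / (m : ℝ) ^ 2) := by ring
    linarith only [hCm]
  have hKG0 : 0 ≤ KG := by rw [hKGe]; positivity
  have hmain : FL * KG < FG * KL := by
    obtain ⟨p1, hp1⟩ : ∃ p1 : ℝ, p1 = 1 + s / v * r / m + C / (m : ℝ) ^ 2 := ⟨_, rfl⟩
    obtain ⟨p2, hp2⟩ : ∃ p2 : ℝ, p2 = 1 + r / v / m - C / (m : ℝ) ^ 2 := ⟨_, rfl⟩
    obtain ⟨p3, hp3⟩ : ∃ p3 : ℝ, p3 = 1 + (s / v * (r + 1) - β) / m - C / (m : ℝ) ^ 2 := ⟨_, rfl⟩
    obtain ⟨p4, hp4⟩ : ∃ p4 : ℝ, p4 = 1 + (r + 1) / v / m + C / (m : ℝ) ^ 2 := ⟨_, rfl⟩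
    rw [← hp1] at b1 k3
    rw [← hp2] at b2 k2 k3
    rw [← hp3] at b3 k1 k3
    rw [← hp4] at b4 k3
    have hp10 : 0 ≤ p1 := by rw [hp1]; positivity
    calc FL * KG ≤ (F₀ * p1) * (K₀ * p4) :=
          mul_le_mul b1 b4 hKG0 (mul_nonneg hF₀0.le hp10)
      _ = F₀ * K₀ * (p1 * p4) := by ring
      _ < F₀ * K₀ * (p3 * p2) := mul_lt_mul_of_pos_left k3 (mul_pos hF₀0 hK₀0)
      _ = (F₀ * p3) * (K₀ * p2) := by ring
      _ ≤ FG * KL := by
          refine mul_le_mul b3 b2 (mul_nonneg hK₀0.le k2.le) ?_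
          exact (mul_nonneg hF₀0.le k1.le).trans b3
  -- copies
  obtain ⟨A, hA, hAm⟩ := labelled_eq_mul H
  have hA0 : (0 : ℝ) < A := by exact_mod_cast hA
  have e1 : FL = A * ((TG (R + 1) m r).copyCount H : ℝ) := by
    rw [hFLe, ← emb_TG_fJ H hw (by omega : r < R + 1), emb_eq_labelled, hAm]
    push_cast
    ring
  have e2 : FG = A * ((MM R r m).copyCount H : ℝ) := by
    rw [hFGe, emb_eq_labelled, hAm]
    push_cast
    ring
  have hKL0 : 0 < KL := lt_of_lt_of_le (mul_pos hK₀0 k2) b2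
  refine exH_of_graph (le_refl 1) (by omega) (by omega)
    (exists_clique H (le_refl 1) {x₀} (card_singleton _) ?_) (MM R r m)
    (MM_allowed hrR (by omega)) ?_
  · intro x hx
    rw [mem_singleton] at hx
    rw [hx]
    exact hdom
  rw [← hKGe, ← hKLe, div_mul_eq_mul_div, div_lt_iff₀ hKL0]
  rw [e1, e2] at hmain
  have : A * (((TG (R + 1) m r).copyCount H : ℝ) * KG) <
      A * (((MM R r m).copyCount H : ℝ) * KL) := by linarith only [hmain]
  exact lt_of_mul_lt_mul_left this hA0.le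

end H57GH
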