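import Pool.Agent.H57.GH.HvP
import Pool.Agent.H57.GH.KtBet

/-!
The credit of a heavy vertex that is not very heavy.
-/

namespace H57GH

open Finset H57LC H57LT

set_option linter.unusedSectionVars false

/-- the credit as a function of the number of non-neighbours -/
private noncomputable def MedA_w (R s : ℕ) (θ : ℝ) (k : ℕ) : ℝ :=
  if k = 1 then (s : ℝ) / R else ktG R s θ k

private lemma MedA_w_nonneg {R s : ℕ} {θ : ℝ} (hR : 2 ≤ R) (k : ℕ) (hk : k ≤ R) :
    0 ≤ MedA_w R s θ k := by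
  unfold MedA_w
  split_ifs
  · positivity
  · exact ktG_nonneg hR k hk

private lemma MedA_w_le {R s : ℕ} {θ : ℝ} (hR : 2 ≤ R) (k : ℕ) :
    MedA_w R s θ k ≤ (s : ℝ) / R := by
  unfold MedA_w
  split_ifs
  · exact le_rfl
  · have h2 : (2 : ℝ) ≤ R := by exact_mod_cast hR
    refine (ktG_le hR k).trans ?_
    have h0 : (0 : ℝ) ≤ (s : ℝ) / R := by positivity
    have h4 : 0 ≤ 1 / (4 * ((R : ℝ) - 1)) := by
      apply div_nonneg (by norm_num)
      linarith only [h2]
    linarith only [mul_nonneg (sub_nonneg.2 h0) (sub_nonneg.2 h4)]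

/-- the coefficient of the second moment -/
private noncomputable def MedA_A (R s L : ℕ) : ℝ :=
  3 / 4 * ((s : ℝ) / R / (R - 1)) / ((R : ℝ) - L - 1) +
    (s : ℝ) / R / (R - 1) * L / (((R : ℝ) - L) * ((R : ℝ) - L - 1))

private lemma MedA_A_nonneg {R s L : ℕ} (hL : L + 2 ≤ R) : 0 ≤ MedA_A R s L := by
  have h1 : (L : ℝ) + 2 ≤ R := by exact_mod_cast hL
  have h0 : (0 : ℝ) ≤ L := Nat.cast_nonneg L
  have hγ : 0 ≤ (s : ℝ) / R / (R - 1) := by
    apply div_nonneg (by positivity)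
    linarith only [h1]
  unfold MedA_A
  have h2 : 0 ≤ (R : ℝ) - L - 1 := by linarith only [h1]
  have h3 : 0 ≤ (R : ℝ) - L := by linarith only [h1]
  positivity

private lemma MedA_div {a d X : ℝ} (hd : 0 < d) (ha : 0 ≤ a) (h : d ≤ X) : a ≤ a / d * X := by
  have h1 : a = a / d * d := by field_simp
  calc a = a / d * d := h1
    _ ≤ a / d * X := mul_le_mul_of_nonneg_left h (by positivity)

/-- the pointwise inequality, one non-neighbour in the part `i₀` -/
private lemma MedA_key {R s : ℕ} {θ : ℝ} {L : ℕ} (hL : L = ⌊θ * R / 32⌋₊) (hLR : L + 2 ≤ R)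
    (k : ℕ) (hk : k + 1 ≤ R) :
    (s : ℝ) / R / (R - 1) * ((R : ℝ) - k - 1) + 3 / 4 * ((s : ℝ) / R / (R - 1)) * k -
      MedA_A R s L * (k * (k - 1)) ≤ MedA_w R s θ (k + 1) := by
  have h1 : (L : ℝ) + 2 ≤ R := by exact_mod_cast hLR
  have h0 : (0 : ℝ) ≤ L := Nat.cast_nonneg L
  have hR1 : (0 : ℝ) < (R : ℝ) - 1 := by linarith only [h1]
  set α : ℝ := (s : ℝ) / R with hα
  set γ : ℝ := α / (R - 1) with hγ
  have hγ0 : 0 ≤ γ := by
    rw [hγ, hα]
    apply div_nonneg (by positivity) hR1.le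
  have hαγ : α = γ * (R - 1) := by
    rw [hγ]; field_simp
  have hA0 := MedA_A_nonneg (s := s) hLR
  rcases Nat.eq_zero_or_pos k with rfl | hkpos
  · unfold MedA_w
    simp only [zero_add, if_true, Nat.cast_zero]
    rw [← hα, hαγ]
    linarith only []
  · have hk1 : (1 : ℝ) ≤ k := by exact_mod_cast hkpos
    have hw : MedA_w R s θ (k + 1) = ktG R s θ (k + 1) := by
      unfold MedA_w
      rw [if_neg (by omega)]
    rw [hw]
    unfold ktG
    by_cases hc : 2 ≤ k + 1 ∧ k + 1 + ⌊θ * R / 32⌋₊ ≤ R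
    · rw [if_pos hc]
      push_cast
      have e : (s : ℝ) / R * (1 - ((k : ℝ) + 1 - 1) / (4 * (R - 1))) =
          γ * (R - 1) - γ * k / 4 := by
        rw [← hα, hγ]
        field_simp
        ring
      rw [e]
      have hkk : 0 ≤ (k : ℝ) * (k - 1) := by
        apply mul_nonneg <;> linarith only [hk1]
      have := mul_nonneg hA0 hkk
      linarith only [this]
    · rw [if_neg hc]
      have hkx : R - L ≤ k := by
        rw [← hL] at hc
        omega
      have hkx' : (R : ℝ) - L ≤ k := by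
        have : R ≤ k + L := by omega
        have h : (R : ℝ) ≤ k + L := by exact_mod_cast this
        linarith only [h]
      have hx0 : (0 : ℝ) < (R : ℝ) - L := by linarith only [h1]
      have hx1 : (0 : ℝ) < (R : ℝ) - L - 1 := by linarith only [h1]
      have hA : γ * (3 / 4 * k + L) ≤ MedA_A R s L * (k * (k - 1)) := by
        unfold MedA_A
        rw [← hα, ← hγ]
        have e1 : 3 / 4 * γ * k ≤ 3 / 4 * γ / ((R : ℝ) - L - 1) * (k * (k - 1)) := by
          have h3 := MedA_div (a := 3 / 4 * γ * k) hx1 (by positivity)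
            (show (R : ℝ) - L - 1 ≤ k - 1 by linarith only [hkx'])
          calc _ ≤ _ := h3
            _ = _ := by ring
        have e2 : γ * L ≤ γ * L / (((R : ℝ) - L) * ((R : ℝ) - L - 1)) * (k * (k - 1)) :=
          MedA_div (mul_pos hx0 hx1) (mul_nonneg hγ0 h0)
            (mul_le_mul hkx' (by linarith only [hkx']) hx1.le (by linarith only []))
        have e3 : γ * (3 / 4 * k + L) = 3 / 4 * γ * k + γ * L := by ring
        rw [e3, add_mul]
        linarith only [e2, e1]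
      have hk2 : (R : ℝ) - 1 ≤ k + L := by linarith only [hkx']
      have := mul_le_mul_of_nonneg_left hk2 hγ0
      linarith only [this, hA]

/-- the pointwise inequality, no non-neighbour in the part `i₀` -/
private lemma MedA_key0 {R s : ℕ} {θ : ℝ} {L : ℕ} (hLR : L + 2 ≤ R)
    (k : ℕ) (hk : k ≤ R) :
    (s : ℝ) / R / (R - 1) * ((R : ℝ) - k) + 3 / 4 * ((s : ℝ) / R / (R - 1)) * k -
      MedA_A R s L * (k * (k - 1)) - 2 * ((s : ℝ) / R / (R - 1)) * R ≤ MedA_w R s θ k := by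
  have h1 : (L : ℝ) + 2 ≤ R := by exact_mod_cast hLR
  have h0 : (0 : ℝ) ≤ L := Nat.cast_nonneg L
  have hR1 : (0 : ℝ) < (R : ℝ) - 1 := by linarith only [h1]
  have hk' : (k : ℝ) ≤ R := by exact_mod_cast hk
  have hγ0 : 0 ≤ (s : ℝ) / R / (R - 1) := by
    apply div_nonneg (by positivity) hR1.le
  have hA0 := MedA_A_nonneg (s := s) hLR
  have hw := MedA_w_nonneg (s := s) (θ := θ) (show 2 ≤ R by omega) k hk
  have hkk : 0 ≤ (k : ℝ) * (k - 1) := by
    rcases Nat.eq_zero_or_pos k with rfl | hkpos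
    · simp
    · have hk1 : (1 : ℝ) ≤ k := by exact_mod_cast hkpos
      apply mul_nonneg <;> linarith only [hk1]
  have h2 := mul_nonneg hA0 hkk
  have h3 : 0 ≤ (s : ℝ) / R / (R - 1) * (R - k) := mul_nonneg hγ0 (by linarith only [hk'])
  have h4 : 0 ≤ (s : ℝ) / R / (R - 1) * k := mul_nonneg hγ0 (Nat.cast_nonneg k)
  linarith only [h4, h3, h2, hw]

section
variable {V : Type*} [DecidableEq V] {G : SimpleGraph V} [DecidableRel G.Adj]

private lemma MedA_na_sq (x y : V) : na G x y * na G x y = na G x y := by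
  unfold na; split_ifs <;> norm_num

/-- the number of non-neighbours as a sum -/
private lemma MedA_card {R : ℕ} (E : Finset (Fin R)) (f : Fin R → V) (z : V) :
    (((E.filter fun i => ¬ G.Adj z (f i)).card : ℕ) : ℝ) = ∑ i ∈ E, na G z (f i) := by
  rw [Finset.natCast_card_filter]
  refine sum_congr rfl fun i _ => ?_
  unfold na
  by_cases h : G.Adj z (f i) <;> simp [h]

/-- the second factorial moment -/
private lemma MedA_sq {R : ℕ} (E : Finset (Fin R)) (f : Fin R → V) (z : V) :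
    (∑ i ∈ E, na G z (f i)) * ((∑ i ∈ E, na G z (f i)) - 1) =
      ∑ i ∈ E, ∑ j ∈ E.erase i, na G z (f i) * na G z (f j) := by
  have h1 : ∀ i ∈ E, ∑ j ∈ E.erase i, na G z (f i) * na G z (f j) =
      na G z (f i) * (∑ j ∈ E, na G z (f j)) - na G z (f i) := by
    intro i hi
    rw [← mul_sum, ← Finset.add_sum_erase E (fun j => na G z (f j)) hi, mul_add, MedA_na_sq]
    ring
  rw [sum_congr rfl h1, sum_sub_distrib, ← sum_mul]
  ring

/-- the credit of a clique transversal as a function of the number of non-neighbours -/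
private lemma MedA_xz {R s : ℕ} {θ : ℝ} {B : Fin R → Finset V} {f : Fin R → V}
    (hf : f ∈ tcl G B) (z : V) :
    xz G R s θ f z = MedA_w R s θ ((univ : Finset (Fin R)).filter fun i => ¬ G.Adj z (f i)).card := by
  have h : (hs G (im f) z).card =
      ((univ : Finset (Fin R)).filter fun i => ¬ G.Adj z (f i)).card := by
    have e : hs G (im f) z =
        ((univ : Finset (Fin R)).filter fun i => ¬ G.Adj z (f i)).image f := by
      ext t
      rw [mem_hs, mem_im, mem_image]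
      constructor
      · rintro ⟨⟨i, rfl⟩, hi⟩
        exact ⟨i, mem_filter.2 ⟨mem_univ i, hi⟩, rfl⟩
      · rintro ⟨i, hi, rfl⟩
        exact ⟨⟨i, rfl⟩, (mem_filter.1 hi).2⟩
    rw [e, card_image_of_injective _ (tcl_injective hf)]
  unfold xz MedA_w
  rw [h]

/-- the pointwise inequality -/
private lemma MedA_point {R s : ℕ} {θ : ℝ} {L : ℕ} (hL : L = ⌊θ * R / 32⌋₊) (hLR : L + 2 ≤ R)
    (f : Fin R → V) (z : V) (i₀ : Fin R) :
    (s : ℝ) / R / (R - 1) * (∑ i, (1 - na G z (f i))) +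
      3 / 4 * ((s : ℝ) / R / (R - 1)) * (∑ i ∈ univ.erase i₀, na G z (f i)) -
      MedA_A R s L * (∑ i ∈ univ.erase i₀, ∑ j ∈ (univ.erase i₀).erase i,
        na G z (f i) * na G z (f j)) -
      2 * ((s : ℝ) / R / (R - 1)) * R * (1 - na G z (f i₀)) ≤
      MedA_w R s θ ((univ : Finset (Fin R)).filter fun i => ¬ G.Adj z (f i)).card := by
  set E : Finset (Fin R) := univ.erase i₀ with hE
  set k : ℕ := (E.filter fun i => ¬ G.Adj z (f i)).card with hk
  have hEc : E.card + 1 = R := by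
    have := Finset.card_erase_add_one (mem_univ i₀)
    rw [card_univ, Fintype.card_fin] at this
    exact this
  have hkR : k + 1 ≤ R := by
    have : k ≤ E.card := card_filter_le _ _
    omega
  have hkc : (k : ℝ) = ∑ i ∈ E, na G z (f i) := MedA_card E f z
  have hsq := MedA_sq (G := G) E f z
  rw [← hkc] at hsq
  rw [← hsq, ← hkc]
  have hsum : ∑ i, (1 - na G z (f i)) = (R : ℝ) - na G z (f i₀) - k := by
    rw [sum_sub_distrib, sum_const, card_univ, Fintype.card_fin, nsmul_eq_mul, mul_one,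
      ← Finset.add_sum_erase univ (fun i => na G z (f i)) (mem_univ i₀), ← hE, ← hkc]
    ring
  have hins : (univ : Finset (Fin R)) = insert i₀ E := by
    rw [hE, Finset.insert_erase (mem_univ i₀)]
  have hni : i₀ ∉ E := notMem_erase i₀ _
  rw [hsum]
  by_cases h0 : G.Adj z (f i₀)
  · have hna : na G z (f i₀) = 0 := by unfold na; rw [if_pos h0]
    have hc : ((univ : Finset (Fin R)).filter fun i => ¬ G.Adj z (f i)).card = k := by
      rw [hins, filter_insert, if_neg (not_not.2 h0)]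
    rw [hc, hna]
    have := MedA_key0 (s := s) (θ := θ) hLR k (by omega)
    calc _ = _ := by ring
      _ ≤ _ := this
  · have hna : na G z (f i₀) = 1 := by unfold na; rw [if_neg h0]
    have hc : ((univ : Finset (Fin R)).filter fun i => ¬ G.Adj z (f i)).card = k + 1 := by
      rw [hins, filter_insert, if_pos h0, card_insert_of_notMem]
      intro h
      exact hni (mem_filter.1 h).1
    rw [hc, hna]
    have := MedA_key (s := s) hL hLR k hkR
    calc _ = _ := by ring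
      _ ≤ _ := this

private lemma MedA_lin {ι : Type*} (T : Finset ι) (a b c d : ℝ) (F1 F2 F3 F4 : ι → ℝ) :
    ∑ f ∈ T, (a * F1 f + b * F2 f - c * F3 f - d * F4 f) =
      a * ∑ f ∈ T, F1 f + b * ∑ f ∈ T, F2 f - c * ∑ f ∈ T, F3 f - d * ∑ f ∈ T, F4 f := by
  rw [sum_sub_distrib, sum_sub_distrib, sum_add_distrib, ← mul_sum, ← mul_sum, ← mul_sum,
    ← mul_sum]

/-- the averages over all tuples -/
private lemma MedA_avg {R s : ℕ} {θ : ℝ} {L : ℕ} (hL : L = ⌊θ * R / 32⌋₊) (hLR : L + 2 ≤ R)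
    (B : Fin R → Finset V) (hb : ∀ i, (0 : ℝ) < ((B i).card : ℝ)) (z : V) (i₀ : Fin R)
    (p : Fin R → ℝ) (hp : ∀ i, p i = ((hs G (B i) z).card : ℝ) / ((B i).card : ℝ)) :
    (∏ l, ((B l).card : ℝ)) * ((s : ℝ) / R / (R - 1) * (∑ i, (1 - p i)) +
      3 / 4 * ((s : ℝ) / R / (R - 1)) * (∑ i ∈ univ.erase i₀, p i) -
      MedA_A R s L * (∑ i ∈ univ.erase i₀, p i) ^ 2 -
      2 * ((s : ℝ) / R / (R - 1)) * R * (1 - p i₀)) ≤
      ∑ f ∈ Fintype.piFinset B,
        MedA_w R s θ ((univ : Finset (Fin R)).filter fun i => ¬ G.Adj z (f i)).card := by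
  set P : ℝ := ∏ l, ((B l).card : ℝ) with hP
  have hP0 : 0 < P := prod_pos fun i _ => hb i
  have hcard : ∑ _f ∈ Fintype.piFinset B, (1 : ℝ) = P := by
    rw [Finset.sum_const, nsmul_eq_mul, Fintype.card_piFinset, mul_one, hP]
    push_cast
    rfl
  have h1 : ∀ i, ∑ f ∈ Fintype.piFinset B, na G z (f i) = P * p i := by
    intro i
    have h := one_sum B i (fun y => na G z y)
    rw [sum_na, ← hP] at h
    rw [hp i]
    have hb' := (hb i).ne'
    field_simp
    linarith only [h]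
  have h2 : ∀ i j, i ≠ j → ∑ f ∈ Fintype.piFinset B, na G z (f i) * na G z (f j) =
      P * (p i * p j) := by
    intro i j hij
    have h := pair_sum B hij (fun x y => na G z x * na G z y)
    have e : ∑ x ∈ B i, ∑ y ∈ B j, na G z x * na G z y =
        ((hs G (B i) z).card : ℝ) * ((hs G (B j) z).card : ℝ) := by
      rw [← sum_na, ← sum_na, sum_mul_sum]
    rw [e, ← hP] at h
    rw [hp i, hp j]
    have hb' := (hb i).ne'
    have hb'' := (hb j).ne'
    field_simp
    linarith only [h]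
  have hA0 := MedA_A_nonneg (s := s) hLR
  have hp0 : ∀ i, 0 ≤ p i := fun i => by rw [hp i]; positivity
  have hE2 : ∑ i ∈ univ.erase i₀, ∑ j ∈ (univ.erase i₀).erase i, p i * p j ≤
      (∑ i ∈ univ.erase i₀, p i) ^ 2 := by
    rw [pow_two, sum_mul_sum]
    refine sum_le_sum fun i _ => ?_
    exact sum_le_sum_of_subset_of_nonneg (erase_subset _ _) fun j _ _ =>
      mul_nonneg (hp0 i) (hp0 j)
  calc P * ((s : ℝ) / R / (R - 1) * (∑ i, (1 - p i)) +
      3 / 4 * ((s : ℝ) / R / (R - 1)) * (∑ i ∈ univ.erase i₀, p i) -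
      MedA_A R s L * (∑ i ∈ univ.erase i₀, p i) ^ 2 -
      2 * ((s : ℝ) / R / (R - 1)) * R * (1 - p i₀))
      ≤ P * ((s : ℝ) / R / (R - 1) * (∑ i, (1 - p i)) +
      3 / 4 * ((s : ℝ) / R / (R - 1)) * (∑ i ∈ univ.erase i₀, p i) -
      MedA_A R s L * (∑ i ∈ univ.erase i₀, ∑ j ∈ (univ.erase i₀).erase i, p i * p j) -
      2 * ((s : ℝ) / R / (R - 1)) * R * (1 - p i₀)) := by
        refine mul_le_mul_of_nonneg_left ?_ hP0.le
        have := mul_le_mul_of_nonneg_left hE2 hA0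
        linarith only [this]
    _ = ∑ f ∈ Fintype.piFinset B, ((s : ℝ) / R / (R - 1) * (∑ i, (1 - na G z (f i))) +
      3 / 4 * ((s : ℝ) / R / (R - 1)) * (∑ i ∈ univ.erase i₀, na G z (f i)) -
      MedA_A R s L * (∑ i ∈ univ.erase i₀, ∑ j ∈ (univ.erase i₀).erase i,
        na G z (f i) * na G z (f j)) -
      2 * ((s : ℝ) / R / (R - 1)) * R * (1 - na G z (f i₀))) := by
        rw [MedA_lin (Fintype.piFinset B) _ _ _ _ (fun f => ∑ i, (1 - na G z (f i)))
          (fun f => ∑ i ∈ univ.erase i₀, na G z (f i))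
          (fun f => ∑ i ∈ univ.erase i₀, ∑ j ∈ (univ.erase i₀).erase i,
            na G z (f i) * na G z (f j)) (fun f => 1 - na G z (f i₀))]
        rw [sum_comm (s := Fintype.piFinset B) (t := univ),
          sum_comm (s := Fintype.piFinset B) (t := univ.erase i₀),
          sum_comm (s := Fintype.piFinset B) (t := univ.erase i₀)]
        have e0 : ∑ f ∈ Fintype.piFinset B, (1 - na G z (f i₀)) = P * (1 - p i₀) := by
          rw [sum_sub_distrib, hcard, h1 i₀]
          ring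
        have e1 : ∑ i, ∑ f ∈ Fintype.piFinset B, (1 - na G z (f i)) = P * ∑ i, (1 - p i) := by
          rw [mul_sum]
          refine sum_congr rfl fun i _ => ?_
          rw [sum_sub_distrib, hcard, h1 i]
          ring
        have e2 : ∑ i ∈ univ.erase i₀, ∑ f ∈ Fintype.piFinset B, na G z (f i) =
            P * ∑ i ∈ univ.erase i₀, p i := by
          rw [mul_sum]
          exact sum_congr rfl fun i _ => h1 i
        have e3 : ∑ i ∈ univ.erase i₀, ∑ f ∈ Fintype.piFinset B,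
            ∑ j ∈ (univ.erase i₀).erase i, na G z (f i) * na G z (f j) =
            P * ∑ i ∈ univ.erase i₀, ∑ j ∈ (univ.erase i₀).erase i, p i * p j := by
          rw [mul_sum]
          refine sum_congr rfl fun i _ => ?_
          rw [sum_comm, mul_sum]
          refine sum_congr rfl fun j hj => ?_
          exact h2 i j (mem_erase.1 hj).1.symm
        rw [e0, e1, e2, e3]
        ring
    _ ≤ _ := sum_le_sum fun f _ => MedA_point hL hLR f z i₀

/-- the average of `DD` -/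
private lemma MedA_DD {R m : ℕ} {S : Finset V} {C η₁ δ : ℝ} {B : Fin R → Finset V}
    (h : LS G S R m C η₁ δ B) (hC : 0 < C) (hδ : δ ≤ 1 / 2) (hm : (0 : ℝ) < m) :
    ∑ f ∈ Fintype.piFinset B, DD G f ≤ (R : ℝ) ^ 2 * (4 * C * (∏ l, ((B l).card : ℝ)) / m) := by
  set P : ℝ := ∏ l, ((B l).card : ℝ) with hP
  have hb : ∀ i, (m : ℝ) / 2 ≤ ((B i).card : ℝ) := fun i => by
    have h1 := h.size_lo i
    have h2 : (1 / 2 : ℝ) * m ≤ (1 - δ) * m := mul_le_mul_of_nonneg_right (by linarith only [hδ]) hm.le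
    linarith only [h2, h1]
  have hP0 : 0 < P := prod_pos fun i _ => lt_of_lt_of_le (by positivity) (hb i)
  have h1 : ∀ i j, i ≠ j → ∑ f ∈ Fintype.piFinset B, na G (f i) (f j) ≤ 4 * C * P / m := by
    intro i j hij
    have h2 := pair_sum B hij (fun x y => na G x y)
    have h3 : ∑ x ∈ B i, ∑ y ∈ B j, na G x y ≤ C * m := by
      refine le_trans (le_of_eq ?_) (h.tot i j hij)
      exact sum_congr rfl fun x _ => sum_na _ _
    have h0 : 0 ≤ ∑ f ∈ Fintype.piFinset B, na G (f i) (f j) :=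
      sum_nonneg fun f _ => na_nonneg _ _
    have h4 : (m : ℝ) / 2 * (m / 2) ≤ ((B i).card : ℝ) * (B j).card :=
      mul_le_mul (hb i) (hb j) (by positivity) (by positivity)
    have h5 := mul_le_mul_of_nonneg_right h4 h0
    rw [h2] at h5
    have h6 := mul_le_mul_of_nonneg_left h3 hP0.le
    rw [le_div_iff₀ hm]
    have h7 : (m : ℝ) / 2 * (m / 2) * ∑ f ∈ Fintype.piFinset B, na G (f i) (f j) ≤
        P * (C * m) := h5.trans h6
    have h8 : (m : ℝ) * ((∑ f ∈ Fintype.piFinset B, na G (f i) (f j)) * m) ≤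
        m * (4 * C * P) := by
      calc (m : ℝ) * ((∑ f ∈ Fintype.piFinset B, na G (f i) (f j)) * m)
          = 4 * ((m : ℝ) / 2 * (m / 2) * ∑ f ∈ Fintype.piFinset B, na G (f i) (f j)) := by ring
        _ ≤ 4 * (P * (C * m)) := mul_le_mul_of_nonneg_left h7 (by norm_num)
        _ = m * (4 * C * P) := by ring
    exact le_of_mul_le_mul_left h8 hm
  have e : ∑ f ∈ Fintype.piFinset B, DD G f =
      ∑ i, ∑ j ∈ univ.erase i, ∑ f ∈ Fintype.piFinset B, na G (f i) (f j) := by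
    unfold DD
    rw [sum_comm]
    exact sum_congr rfl fun i _ => sum_comm
  rw [e]
  have hq : 0 ≤ 4 * C * P / m :=
    div_nonneg (mul_nonneg (mul_nonneg (by norm_num) hC.le) hP0.le) hm.le
  calc ∑ i, ∑ j ∈ univ.erase i, ∑ f ∈ Fintype.piFinset B, na G (f i) (f j)
      ≤ ∑ i : Fin R, ∑ _j : Fin R, 4 * C * P / m := by
        refine sum_le_sum fun i _ => ?_
        refine le_trans (sum_le_sum fun j hj => h1 i j (mem_erase.1 hj).1.symm) ?_
        exact sum_le_sum_of_subset_of_nonneg (subset_univ _) fun _ _ _ => hq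
    _ = (R : ℝ) ^ 2 * (4 * C * P / m) := by
        rw [sum_const, sum_const, card_univ, Fintype.card_fin, nsmul_eq_mul, nsmul_eq_mul]
        ring

/-- from all tuples to the clique transversals -/
private lemma MedA_tcl {R s : ℕ} {θ : ℝ} (hR : 2 ≤ R) (B : Fin R → Finset V) (z : V) :
    ∑ f ∈ Fintype.piFinset B,
        MedA_w R s θ ((univ : Finset (Fin R)).filter fun i => ¬ G.Adj z (f i)).card -
      (s : ℝ) / R * ((1 / 2) * ∑ f ∈ Fintype.piFinset B, DD G f) ≤
      ∑ f ∈ tcl G B, xz G R s θ f z := by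
  have hsub : tcl G B ⊆ Fintype.piFinset B := filter_subset _ _
  have h1 := card_tcl_ge (G := G) B
  have h2 : ∑ f ∈ tcl G B, xz G R s θ f z = ∑ f ∈ tcl G B,
      MedA_w R s θ ((univ : Finset (Fin R)).filter fun i => ¬ G.Adj z (f i)).card :=
    sum_congr rfl fun f hf => MedA_xz hf z
  have hcard : ((Fintype.piFinset B).card : ℝ) = ∏ l, ((B l).card : ℝ) := by
    rw [Fintype.card_piFinset]
    push_cast
    rfl
  have h3 : ∑ f ∈ Fintype.piFinset B \ tcl G B,
      MedA_w R s θ ((univ : Finset (Fin R)).filter fun i => ¬ G.Adj z (f i)).card ≤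
      ((Fintype.piFinset B \ tcl G B).card : ℝ) * ((s : ℝ) / R) := by
    rw [← nsmul_eq_mul, ← sum_const]
    exact sum_le_sum fun f _ => MedA_w_le hR _
  have h4 : ((Fintype.piFinset B \ tcl G B).card : ℝ) + ((tcl G B).card : ℝ) =
      ∏ l, ((B l).card : ℝ) := by
    rw [← hcard]
    exact_mod_cast card_sdiff_add_card_eq_card hsub
  have h5 := sum_sdiff (f := fun f : Fin R → V =>
    MedA_w R s θ ((univ : Finset (Fin R)).filter fun i => ¬ G.Adj z (f i)).card) hsub
  have h6 : ((Fintype.piFinset B \ tcl G B).card : ℝ) ≤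
      (1 / 2) * ∑ f ∈ Fintype.piFinset B, DD G f := by linarith only [h4, h1]
  have h7 := mul_le_mul_of_nonneg_right h6 (show (0 : ℝ) ≤ (s : ℝ) / R by positivity)
  rw [h2]
  linarith only [h7, h5, h3]

end

/-- the numerical inequality -/
private lemma MedA_num {R L μ θ γ : ℝ} (hθ : 0 < θ) (hθ1 : θ ≤ 1 / 4) (hR : 32 ≤ θ * R)
    (hL0 : 0 ≤ L) (hL : L ≤ θ * R / 32) (hμ0 : 0 ≤ μ) (hμ : μ ≤ (1 - θ) * R) (hγ : 0 ≤ γ) :
    γ * μ * (θ / 2) ≤ 3 / 4 * γ * μ -
      (3 / 4 * γ / (R - L - 1) + γ * L / ((R - L) * (R - L - 1))) * μ ^ 2 := by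
  have hR0 : 128 ≤ R := by
    by_contra hcon
    push Not at hcon
    have : θ * R < 32 := by
      rcases le_or_gt R 0 with h | h
      · linarith only [h, hμ, hμ0, hθ1, hθ]
      · linarith only [hθ1, mul_pos (sub_pos.2 hθ) (sub_pos.2 hcon)]
    linarith only [this, hR]
  have hLR : L ≤ R / 128 := by (refine le_of_not_gt fun hng => ?_; linarith only [hθ1,
                                 mul_nonneg (sub_nonneg.2 hθ1) (sub_nonneg.2 hR),
                                 mul_nonneg (sub_nonneg.2 hθ.le) (sub_nonneg.2 hL),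
                                 mul_pos (sub_pos.2 hng) (sub_pos.2 hθ)])
  have hx0 : 0 < R - L := by linarith only [hμ, hμ0, hL, hR, hθ1, hθ]
  have hx1 : 0 < R - L - 1 := by linarith only [hμ, hμ0, hL, hR, hθ1, hθ]
  have h1 : R * (1 - θ / 16) ≤ R - L - 1 := by
    have e : R * (1 - θ / 16) = R - θ * R / 32 - θ * R / 32 := by ring
    rw [e]
    linarith only [hL, hR]
  have hy : μ / (R - L - 1) ≤ 1 - 15 * θ / 16 := by
    rw [div_le_iff₀ hx1]
    have h2 : 0 ≤ 1 - 15 * θ / 16 := by linarith only [hθ1]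
    have h3 := mul_le_mul_of_nonneg_left h1 h2
    have h4 : (1 - 15 * θ / 16) * (R * (1 - θ / 16)) = (1 - θ) * R + 15 / 256 * θ ^ 2 * R := by
      ring
    have h5 : 0 ≤ 15 / 256 * θ ^ 2 * R := by positivity
    linarith only [h5, h3, hμ]
  have hy0 : 0 ≤ μ / (R - L - 1) := by positivity
  have hw : L / (R - L) ≤ θ / 30 := by
    rw [div_le_iff₀ hx0]
    have h2 : θ / 30 * (R * (127 / 128)) ≤ θ / 30 * (R - L) :=
      mul_le_mul_of_nonneg_left (by linarith only [hLR]) (by positivity)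
    have h3 : θ / 30 * (R * (127 / 128)) = 127 / 3840 * (θ * R) := by ring
    have h4 : 0 ≤ θ * R := by linarith only [hR, hθ1, hθ]
    linarith only [h2, hL, hR, hθ1, hθ]
  have hw0 : 0 ≤ L / (R - L) := by positivity
  set y : ℝ := μ / (R - L - 1) with hydef
  set w : ℝ := L / (R - L) with hwdef
  have e1 : 3 / 4 * γ / (R - L - 1) * μ ^ 2 = γ * μ * (3 / 4 * y) := by
    rw [hydef]; ring
  have e2 : γ * L / ((R - L) * (R - L - 1)) * μ ^ 2 = γ * μ * (w * y) := by
    rw [hydef, hwdef]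
    field_simp
  rw [add_mul, e1, e2]
  have h6 : w * y ≤ θ / 30 := by
    calc w * y ≤ θ / 30 * 1 := mul_le_mul hw (by linarith only [hy, hθ]) hy0 (by positivity)
      _ = θ / 30 := mul_one _
  have h7 : θ / 2 ≤ 3 / 4 - (3 / 4 * y + w * y) := by linarith only [h6, hy, hθ]
  have h8 := mul_le_mul_of_nonneg_left h7 (mul_nonneg hγ hμ0)
  calc γ * μ * (θ / 2) ≤ γ * μ * (3 / 4 - (3 / 4 * y + w * y)) := h8
    _ = _ := by ring

/-- the credit of a heavy vertex that is not very heavy -/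
theorem med_credit (s : ℕ) (hcs : 1 ≤ s) (θ : ℝ) (hθ : 0 < θ) (hθ1 : θ ≤ 1 / 4) : ∃ R₀ : ℕ, 3 ≤ R₀ ∧
    ∀ R : ℕ, R₀ ≤ R → ∀ C η₁ : ℝ, 0 < C → 0 < η₁ → η₁ ≤ 1 / 16 → ∃ κ₁ : ℝ, 0 < κ₁ ∧ ∀ ε₇ : ℝ, 0 ≤ ε₇ → ε₇ ≤ κ₁ →
    ∃ δ₀ : ℝ, 0 < δ₀ ∧ ∀ δ : ℝ, 0 < δ → δ ≤ δ₀ → ∃ m₀ : ℕ, ∀ m : ℕ, m₀ ≤ m →
      ∀ (V : Type) [DecidableEq V] (G : SimpleGraph V) [DecidableRel G.Adj] (S : Finset V)
        (B : Fin R → Finset V), clq G S (R + 1) = ∅ → LS G S R m C η₁ δ B →
        ∀ z ∈ S \ un B, θ * R * m < (dg G S z : ℝ) →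
        (s : ℝ) / R * ((∑ i, (dg G (B i) z : ℝ)) / ((R - 1) * m)) + κ₁ ≤
          (1 - ε₇) * (∑ f ∈ tcl G B, xz G R s θ f z) / ∏ l, ((B l).card : ℝ) := by
  obtain ⟨R₁, hR₁⟩ := exists_nat_gt (32 / θ)
  refine ⟨max 3 R₁, le_max_left _ _, fun R hR C η₁ hC hη hη1 => ?_⟩
  have hR3 : 3 ≤ R := (le_max_left _ _).trans hR
  have hR2 : 2 ≤ R := by omega
  have hRR : (R₁ : ℝ) ≤ R := by exact_mod_cast (le_max_right _ _).trans hR
  have hR3' : (3 : ℝ) ≤ R := by exact_mod_cast hR3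
  have hθR : 32 ≤ θ * R := by
    have : 32 / θ < R := lt_of_lt_of_le hR₁ hRR
    rw [div_lt_iff₀ hθ] at this
    linarith only [this]
  have hR1 : (0 : ℝ) < (R : ℝ) - 1 := by linarith only [hR3', hη1, hη]
  have hs0 : (0 : ℝ) < s := by exact_mod_cast hcs
  obtain ⟨L, hL⟩ : ∃ L : ℕ, L = ⌊θ * R / 32⌋₊ := ⟨_, rfl⟩
  have hLle : (L : ℝ) ≤ θ * R / 32 := by
    rw [hL]
    exact Nat.floor_le (by positivity)
  have hLR : L + 2 ≤ R := by
    have h1 : (L : ℝ) + 2 ≤ R := by
      have h2 : θ * R ≤ 1 / 4 * R := mul_le_mul_of_nonneg_right hθ1 (by linarith only [hR3'])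
      linarith only [hLle, h2, hR3']
    exact_mod_cast h1
  obtain ⟨α, hα⟩ : ∃ α : ℝ, α = (s : ℝ) / R := ⟨_, rfl⟩
  obtain ⟨γ, hγ⟩ : ∃ γ : ℝ, γ = α / (R - 1) := ⟨_, rfl⟩
  have hα0 : 0 < α := by rw [hα]; positivity
  have hγ0 : 0 < γ := by rw [hγ]; positivity
  obtain ⟨K, hK⟩ : ∃ K : ℝ, K = γ * θ * η₁ / 12 := ⟨_, rfl⟩
  have hK0 : 0 < K := by rw [hK]; positivity
  refine ⟨K / (2 * (1 + α)), by positivity, fun ε₇ hε hε' => ?_⟩
  refine ⟨min (min (1 / 4) (1 / R)) (K / (8 * (1 + α))), by positivity, fun δ hδ hδ' => ?_⟩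
  have hδ4 : δ ≤ 1 / 4 := hδ'.trans ((min_le_left _ _).trans (min_le_left _ _))
  have hδR : δ ≤ 1 / R := hδ'.trans ((min_le_left _ _).trans (min_le_right _ _))
  have hδK : δ ≤ K / (8 * (1 + α)) := hδ'.trans (min_le_right _ _)
  obtain ⟨η₂, hη₂⟩ : ∃ η₂ : ℝ, η₂ = θ * η₁ / (48 * R) := ⟨_, rfl⟩
  have hη₂0 : 0 < η₂ := by rw [hη₂]; positivity
  obtain ⟨m₁, hm₁⟩ := heavy_part R hR2 C η₁ δ hC hδ (by linarith only [hδ4, hη1, hη]) η₂ hη₂0
  obtain ⟨m₂, hm₂⟩ := exists_nat_gt (4 * C + 8 * α * (R : ℝ) ^ 2 * C / K + 1)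
  refine ⟨max m₁ m₂, fun m hm V _ G _ S B hfree hB z hz hdz => ?_⟩
  have hzS : z ∈ S := (mem_sdiff.1 hz).1
  have hmm : (m₂ : ℝ) ≤ m := by exact_mod_cast (le_max_right _ _).trans hm
  have hq0 : 0 ≤ 8 * α * (R : ℝ) ^ 2 * C / K := by positivity
  have hm4 : 4 * C ≤ m := by linarith only [hq0, hmm, hm₂, hη1, hη]
  have hmK : 8 * α * (R : ℝ) ^ 2 * C / K ≤ m := by linarith only [hmm, hm₂, hη1, hη, hC]
  have hm1 : (1 : ℝ) ≤ m := by linarith only [hq0, hmm, hm₂, hC]
  have hm0 : (0 : ℝ) < m := by linarith only [hq0, hmm, hm₂, hη1, hη, hC]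
  obtain ⟨i₀, hi₀⟩ := hm₁ m ((le_max_left _ _).trans hm) V G S B hfree hB z hzS
  have hblo : ∀ i, (3 / 4 : ℝ) * m ≤ ((B i).card : ℝ) := fun i => by
    have h1 := hB.size_lo i
    have h2 : (3 / 4 : ℝ) * m ≤ (1 - δ) * m := mul_le_mul_of_nonneg_right (by linarith only [hδ4]) hm0.le
    linarith only [h2, h1]
  have hb : ∀ i, (0 : ℝ) < ((B i).card : ℝ) := fun i =>
    lt_of_lt_of_le (by positivity) (hblo i)
  obtain ⟨p, hp⟩ : ∃ p : Fin R → ℝ, ∀ i, p i = ((hs G (B i) z).card : ℝ) / ((B i).card : ℝ) :=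
    ⟨_, fun _ => rfl⟩
  have hdg : ∀ i, (dg G (B i) z : ℝ) = (1 - p i) * ((B i).card : ℝ) := by
    intro i
    have h1 : dg G (B i) z + (hs G (B i) z).card = (B i).card := by
      unfold dg hs
      exact card_filter_add_card_filter_not _
    have h2 : (dg G (B i) z : ℝ) + ((hs G (B i) z).card : ℝ) = ((B i).card : ℝ) := by
      exact_mod_cast h1
    rw [hp i]
    have h3 := (hb i).ne'
    field_simp
    linarith only [h2]
  have hp0 : ∀ i, 0 ≤ p i := fun i => by rw [hp i]; positivity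
  have hp1 : ∀ i, p i ≤ 1 := by
    intro i
    rw [hp i, div_le_one (hb i)]
    exact_mod_cast card_le_card (hs_subset _ _)
  obtain ⟨μ, hμ⟩ : ∃ μ : ℝ, μ = ∑ i ∈ univ.erase i₀, p i := ⟨_, rfl⟩
  obtain ⟨T, hT⟩ : ∃ T : ℝ, T = ∑ i, (1 - p i) := ⟨_, rfl⟩
  have hTμ : T = (1 - p i₀) + ((R : ℝ) - 1) - μ := by
    rw [hT, hμ, sum_sub_distrib, sum_const, card_univ, Fintype.card_fin, nsmul_eq_mul, mul_one,
      ← Finset.add_sum_erase univ p (mem_univ i₀)]
    ring
  have hpi : 1 - p i₀ ≤ 2 * η₂ := by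
    have h1 := hdg i₀
    have h2 : (1 - p i₀) * (3 / 4 * m) ≤ (1 - p i₀) * ((B i₀).card : ℝ) :=
      mul_le_mul_of_nonneg_left (hblo i₀) (by linarith only [hp1 i₀])
    have h3 : (1 - p i₀) * (3 / 4 * m) ≤ η₂ * m := by linarith only [h2, h1, hi₀]
    have h4 : m * ((1 - p i₀) * (3 / 4)) ≤ m * η₂ := by linarith only [h2, h1, hi₀]
    have h5 := le_of_mul_le_mul_left h4 hm0
    linarith only [h5, hη₂0]
  have hμ0 : 0 ≤ μ := by rw [hμ]; exact sum_nonneg fun i _ => hp0 i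
  -- the lower bound of `μ`
  have hμ1 : η₁ / 3 ≤ μ := by
    obtain ⟨j, hj, hj'⟩ := hB.heavy z hz i₀
    have h1 : p j ≤ μ := by
      rw [hμ]
      exact single_le_sum (f := p) (fun i _ => hp0 i) (mem_erase.2 ⟨hj, mem_univ j⟩)
    have h2 : η₁ / 3 ≤ p j := by
      rw [hp j, le_div_iff₀ (hb j)]
      have h3 := hB.size_hi j
      have h4 : (1 + δ) * m ≤ 5 / 4 * m := mul_le_mul_of_nonneg_right (by linarith only [hδ4]) hm0.le
      have h5 : η₁ / 3 * ((B j).card : ℝ) ≤ η₁ / 3 * (5 / 4 * m) :=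
        mul_le_mul_of_nonneg_left (by linarith only [h4, h3]) (by positivity)
      have h6 : 0 ≤ η₁ * m := by positivity
      linarith only [h5, hj']
    linarith only [h2, h1]
  -- the upper bound of `μ`
  have hD : (∑ i, (dg G (B i) z : ℝ)) ≤ T * ((1 + δ) * m) := by
    rw [hT, sum_mul]
    refine sum_le_sum fun i _ => ?_
    rw [hdg i]
    exact mul_le_mul_of_nonneg_left (hB.size_hi i) (by linarith only [hp1 i])
  have hTR : T ≤ R := by
    rw [hT]
    calc ∑ i, (1 - p i) ≤ ∑ _i : Fin R, (1 : ℝ) := sum_le_sum fun i _ => by linarith only [hp0 i]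
      _ = R := by simp
  have hT0 : 0 ≤ T := by
    rw [hT]
    exact sum_nonneg fun i _ => by linarith only [hp1 i]
  have hRδ : R * δ ≤ 1 := by
    have hRpos : (0 : ℝ) < R := by linarith only [hR3', hη1, hη]
    calc (R : ℝ) * δ ≤ R * (1 / R) := mul_le_mul_of_nonneg_left hδR hRpos.le
      _ = 1 := by field_simp
  have hη₂8 : η₂ ≤ 1 / 8 := by
    rw [hη₂, div_le_iff₀ (by positivity)]
    have : θ * η₁ ≤ 1 / 4 * (1 / 16) := mul_le_mul hθ1 hη1 hη.le (by norm_num)
    linarith only [this, hR3', hη1, hη]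
  have hμ2 : μ ≤ (1 - θ) * R := by
    have h1 := dg_le_sum hB z
    have h2 : θ * R * m ≤ T * ((1 + δ) * m) + C := by linarith only [h1, hD, hdz]
    have h3 : C ≤ 1 / 4 * m := by linarith only [hq0, hmm, hm₂, hη1, hη]
    have h4 : T * ((1 + δ) * m) = m * (T + T * δ) := by ring
    have h5 : m * (θ * R) ≤ m * (T + T * δ + 1 / 4) := by
      rw [h4] at h2
      linarith only [h1, hD, hq0, hmm, hdz, hm₂, hη1, hη]
    have h6 := le_of_mul_le_mul_left h5 hm0
    -- `T δ` may be as large as `R δ ≤ 1`: use the convex bound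
    by_contra hcon
    push Not at hcon
    have h7 : T ≤ 1 / 4 + (θ * R - 1) := by
      rw [hTμ]
      linarith only [hcon, hη₂8, hpi]
    have h8 : T * δ ≤ (θ * R) * δ := mul_le_mul_of_nonneg_right (by linarith only [hcon, hη₂8, hpi,
                                                                      hTμ]) hδ.le
    have h9 : (θ * R) * δ ≤ 1 / 4 := by
      calc (θ * R) * δ = θ * (R * δ) := by ring
        _ ≤ 1 / 4 * 1 := mul_le_mul hθ1 hRδ (by positivity) (by norm_num)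
        _ = 1 / 4 := by ring
    linarith only [h9, h8, hcon, h6, hη₂8, hpi, hTμ, hη1, hη]
  -- the averages
  have havg := MedA_avg (s := s) (G := G) hL hLR B hb z i₀ p hp
  rw [← hα, ← hγ, ← hT, ← hμ] at havg
  have htcl := MedA_tcl (G := G) (s := s) (θ := θ) hR2 B z
  have hDD := MedA_DD hB hC (by linarith only [hδ4, hη1, hη]) hm0
  obtain ⟨P, hP⟩ : ∃ P : ℝ, P = ∏ l, ((B l).card : ℝ) := ⟨_, rfl⟩
  have hP0 : 0 < P := by rw [hP]; exact prod_pos fun i _ => hb i
  rw [← hP] at havg hDD ⊢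
  rw [← hα] at htcl
  have hnum := MedA_num (L := (L : ℝ)) (γ := γ) hθ hθ1 hθR (Nat.cast_nonneg L) hLle hμ0 hμ2 hγ0.le
  have hAeq : MedA_A R s L = 3 / 4 * γ / ((R : ℝ) - L - 1) +
      γ * L / (((R : ℝ) - L) * ((R : ℝ) - L - 1)) := by
    unfold MedA_A
    rw [← hα, ← hγ]
  rw [hAeq] at havg
  set Q : ℝ := ∑ f ∈ tcl G B, xz G R s θ f z with hQ
  have h1 : γ * μ * (θ / 2) ≥ 2 * K := by
    rw [hK]
    have : γ * (η₁ / 3) * (θ / 2) ≤ γ * μ * (θ / 2) :=
      mul_le_mul_of_nonneg_right (mul_le_mul_of_nonneg_left hμ1 hγ0.le) (by positivity)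
    calc γ * μ * (θ / 2) ≥ γ * (η₁ / 3) * (θ / 2) := this
      _ = 2 * (γ * θ * η₁ / 12) := by ring
  have h2 : 2 * γ * R * (1 - p i₀) ≤ K := by
    calc 2 * γ * R * (1 - p i₀) ≤ 2 * γ * R * (2 * η₂) :=
          mul_le_mul_of_nonneg_left hpi (by positivity)
      _ = K := by
          rw [hη₂, hK]
          have hRpos : (R : ℝ) ≠ 0 := by linarith only [hR3', hη1, hη]
          field_simp
          ring
  have h3 : P * (γ * T + K) ≤ P * (γ * T + 3 / 4 * γ * μ -
      (3 / 4 * γ / ((R : ℝ) - L - 1) + γ * L / (((R : ℝ) - L) * ((R : ℝ) - L - 1))) * μ ^ 2 -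
      2 * γ * R * (1 - p i₀)) := by
    refine mul_le_mul_of_nonneg_left ?_ hP0.le
    linarith only [h2, h1, hnum]
  have h4 : α * (1 / 2 * ∑ f ∈ Fintype.piFinset B, DD G f) ≤ P * (K / 4) := by
    have h5 : α * (1 / 2 * ∑ f ∈ Fintype.piFinset B, DD G f) ≤
        α * (1 / 2 * ((R : ℝ) ^ 2 * (4 * C * P / m))) :=
      mul_le_mul_of_nonneg_left (mul_le_mul_of_nonneg_left hDD (by norm_num)) hα0.le
    refine h5.trans ?_
    have h6 : 8 * α * (R : ℝ) ^ 2 * C ≤ K * m := by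
      rw [div_le_iff₀ hK0] at hmK
      linarith only [hmK]
    have h7 : α * (1 / 2 * ((R : ℝ) ^ 2 * (4 * C * P / m))) =
        P * (2 * α * (R : ℝ) ^ 2 * C / m) := by ring
    rw [h7]
    refine mul_le_mul_of_nonneg_left ?_ hP0.le
    rw [div_le_iff₀ hm0]
    linarith only [h6]
  have h5 : P * (γ * T + 3 / 4 * K) ≤ Q := by
    have e : P * (γ * T + 3 / 4 * K) = P * (γ * T + K) - P * (K / 4) := by ring
    rw [e]
    linarith only [h4, h3, htcl, havg]
  have h6 : γ * T + 3 / 4 * K ≤ Q / P := by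
    rw [le_div_iff₀ hP0]
    linarith only [h4, h3, htcl, havg]
  have h7 : Q / P ≤ α := by
    rw [div_le_iff₀ hP0, hQ]
    have h8 : ∑ f ∈ tcl G B, xz G R s θ f z ≤ ∑ _f ∈ tcl G B, α := by
      refine sum_le_sum fun f hf => ?_
      rw [MedA_xz hf, hα]
      exact MedA_w_le hR2 _
    rw [sum_const, nsmul_eq_mul] at h8
    have h9 : ((tcl G B).card : ℝ) ≤ P := by
      have hcard : ((Fintype.piFinset B).card : ℝ) = ∏ l, ((B l).card : ℝ) := by
        rw [Fintype.card_piFinset]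
        push_cast
        rfl
      rw [hP, ← hcard]
      exact_mod_cast card_le_card (filter_subset _ _)
    have h10 := mul_le_mul_of_nonneg_right h9 hα0.le
    linarith only [h10, h8]
  have h8 : (1 - ε₇) * Q / P = Q / P - ε₇ * (Q / P) := by ring
  rw [h8]
  have h9 : ε₇ * (Q / P) ≤ K / (2 * (1 + α)) * α :=
    (mul_le_mul_of_nonneg_left h7 hε).trans (mul_le_mul_of_nonneg_right hε' hα0.le)
  have h10 : (s : ℝ) / R * ((∑ i, (dg G (B i) z : ℝ)) / ((R - 1) * m)) ≤ γ * T + K / 4 := by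
    have e : (s : ℝ) / R * ((∑ i, (dg G (B i) z : ℝ)) / ((R - 1) * m)) =
        γ * ((∑ i, (dg G (B i) z : ℝ)) / m) := by
      rw [← hα, hγ]
      field_simp
    rw [e]
    have h11 : (∑ i, (dg G (B i) z : ℝ)) / m ≤ T + R * δ := by
      rw [div_le_iff₀ hm0]
      have h12 : T * δ ≤ R * δ := mul_le_mul_of_nonneg_right hTR hδ.le
      have h13 := mul_le_mul_of_nonneg_right h12 hm0.le
      linarith only [h13, hD]
    have h12 := mul_le_mul_of_nonneg_left h11 hγ0.le
    have h13 : γ * (R * δ) ≤ K / 4 := by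
      have h14 : γ * R ≤ 2 * α := by
        rw [hγ, div_mul_eq_mul_div, div_le_iff₀ hR1]
        linarith only [mul_nonneg hα0.le (by linarith only [hR3'] : (0 : ℝ) ≤ (R : ℝ) - 2)]
      have h15 : γ * R * δ ≤ 2 * α * δ := mul_le_mul_of_nonneg_right h14 hδ.le
      have h16 : 2 * α * δ ≤ 2 * α * (K / (8 * (1 + α))) :=
        mul_le_mul_of_nonneg_left hδK (by positivity)
      have h17 : 2 * α * (K / (8 * (1 + α))) ≤ K / 4 := by
        have e2 : 2 * α * (K / (8 * (1 + α))) = K / 4 * (α / (1 + α)) := by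
          field_simp
          ring
        rw [e2]
        have h18 : α / (1 + α) ≤ 1 := by
          rw [div_le_one (by positivity)]
          linarith only []
        have := mul_le_mul_of_nonneg_left h18 (show 0 ≤ K / 4 by positivity)
        linarith only [this]
      calc γ * (R * δ) = γ * R * δ := by ring
        _ ≤ K / 4 := by linarith only [h17, h16, h15]
    linarith only [h13, h12]
  have h11 : K / (2 * (1 + α)) * α + K / (2 * (1 + α)) = K / 2 := by
    field_simp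
    ring
  linarith only [h11, h10, h9, h6]

end H57GH
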