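import Pool.Agent.H57.GH.PartB

/-!
Edge stability for copies of `J`: all degrees large.
-/

namespace H57GH

open Finset H57LC H57LT

set_option linter.unusedSectionVars false

variable {ι : Type*} [Fintype ι] [DecidableEq ι] (J : SimpleGraph ι) [DecidableRel J.Adj]

theorem minDeg_case (hcs : 2 ≤ Fintype.card ι) (hJ : 1 ≤ oe J) : ∃ θ₁ : ℝ, 0 < θ₁ ∧ θ₁ ≤ 1 / 2 ∧
    ∃ c : ℝ, 0 < c ∧ ∃ n₀ : ℕ, ∀ R : ℕ, 1 ≤ R →
    ∀ (V : Type) [DecidableEq V] (G : SimpleGraph V) [DecidableRel G.Adj] (S : Finset V),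
      clq G S (R + 1) = ∅ → n₀ ≤ S.card → (∀ x ∈ S, (1 - θ₁) * S.card ≤ (dg G S x : ℝ)) →
      ((emb J G S).card : ℝ) ≤ FT J R S.card -
        c * (S.card : ℝ) ^ (Fintype.card ι - 2) *
          (e2 univ (bal R S.card) - ((clq G S 2).card : ℝ)) := by
  classical
  obtain ⟨θA, hA0, hA⟩ := part_bound J hcs hJ
  obtain ⟨θB, hB0, hB⟩ := bal_max J hcs hJ
  set θ : ℝ := min (1 / 2) (min θA θB) with hθ
  have hθ0 : 0 < θ := by rw [hθ]; positivity
  have hθh : θ ≤ 1 / 2 := min_le_left _ _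
  have hθA : θ ≤ θA := (min_le_right _ _).trans (min_le_left _ _)
  have hθB : θ ≤ θB := (min_le_right _ _).trans (min_le_right _ _)
  refine ⟨θ, hθ0, hθh, 1 / 4, by norm_num, ⌈3 / θ⌉₊, ?_⟩
  intro R hR V _ G _ S hfree hn hdg
  have hn0 : (0 : ℝ) ≤ S.card := Nat.cast_nonneg _
  have hn3 : 3 ≤ θ * (S.card : ℝ) := by
    have h1 : 3 / θ ≤ (S.card : ℝ) := (Nat.le_ceil _).trans (by exact_mod_cast hn)
    rw [div_le_iff₀ hθ0] at h1
    linarith
  obtain ⟨B, hBS, hdisj, hun, hne, hgr⟩ := greedy R hR S hfree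
  have hsum : ∑ j : Fin R, (B j).card = S.card := by
    rw [← hun]
    unfold un
    rw [Finset.card_biUnion fun i _ j _ hij => hdisj i j hij]
  have hsumR : ∑ j : Fin R, ((B j).card : ℝ) = S.card := by exact_mod_cast hsum
  have hsmall : ∀ i, ((B i).card : ℝ) ≤ θ * S.card := by
    intro i
    rcases hne i with h0 | ⟨x, hx, hxy⟩
    · rw [h0, Finset.card_empty, Nat.cast_zero]
      positivity
    · have h1 : B i ⊆ hs G S x := fun y hy => mem_hs.2 ⟨hBS i hy, hxy y hy⟩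
      have h2 : ((B i).card : ℝ) ≤ ((hs G S x).card : ℝ) := by
        exact_mod_cast Finset.card_le_card h1
      exact h2.trans (PartB_hs G S θ hdg x hx)
  have h1 := hA V G S R B hdisj hun
    (fun i => (hsmall i).trans (mul_le_mul_of_nonneg_right hθA hn0))
    (fun x hx => le_trans (mul_le_mul_of_nonneg_right (by linarith) hn0) (hdg x hx)) hgr
  have h2 := hB R (Fin R) univ (fun i => (B i).card) hR (by simp)
    (fun j _ => by
      rw [hsumR]
      exact (hsmall j).trans (mul_le_mul_of_nonneg_right hθB hn0))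
    (by
      rw [hsumR]
      exact hn3.trans (mul_le_mul_of_nonneg_right hθB hn0))
  have h3 := e2_bal_max hR (T := (univ : Finset (Fin R))) (by simp) (fun i => (B i).card)
  have h4 := e2_eq (G := G) hdisj hun
  rw [hsumR] at h2
  simp only [hsum] at h2 h3
  have he1 : (1 : ℝ) ≤ (oe J : ℝ) := by exact_mod_cast hJ
  have hp : (0 : ℝ) ≤ (S.card : ℝ) ^ (Fintype.card ι - 2) := by positivity
  set P : ℝ := (S.card : ℝ) ^ (Fintype.card ι - 2) with hP
  set Mc : ℝ := ((∑ i, ∑ j ∈ univ.erase i, ∑ x ∈ B i, (hs G (B j) x).card : ℕ) : ℝ) with hMc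
  set Ei : ℝ := ((∑ i, ∑ x ∈ B i, dg G (B i) x : ℕ) : ℝ) with hEi
  have hMc0 : 0 ≤ Mc := Nat.cast_nonneg _
  have hEi0 : 0 ≤ Ei := Nat.cast_nonneg _
  set EB : ℝ := e2 univ (fun i => (B i).card) with hEB
  set Eb : ℝ := e2 univ (bal R S.card) with hEb
  have h5 : P * Mc ≤ (oe J : ℝ) * (P * Mc) := by
    have := mul_nonneg hp hMc0
    nlinarith
  have h6 : 0 ≤ P * (Eb - EB) := mul_nonneg hp (by linarith)
  have h7 : P * (Eb - ((clq G S 2).card : ℝ)) ≤ P * (Eb - EB) + P * Mc / 2 := by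
    have h8 : Eb - ((clq G S 2).card : ℝ) ≤ (Eb - EB) + Mc / 2 := by linarith
    calc P * (Eb - ((clq G S 2).card : ℝ)) ≤ P * ((Eb - EB) + Mc / 2) :=
          mul_le_mul_of_nonneg_left h8 hp
      _ = P * (Eb - EB) + P * Mc / 2 := by ring
  have h9 : 1 / 4 * (oe J : ℝ) * P * Mc / 2 = 1 / 8 * ((oe J : ℝ) * (P * Mc)) := by ring
  have h10 : 1 / 2 * P * (Eb - EB) = 1 / 2 * (P * (Eb - EB)) := by ring
  have h11 : 1 / 4 * P * (Eb - ((clq G S 2).card : ℝ)) =
      1 / 4 * (P * (Eb - ((clq G S 2).card : ℝ))) := by ring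
  rw [h9] at h1
  rw [h10] at h2
  rw [h11]
  linarith

end H57GH
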