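import Pool.Agent.H57.GH.NegA

/-!
Project GH, part Neg: the graph obtained by gluing copies of the Turan graph along subsets of a
clique.
-/

namespace H57GH

open Finset H57E32 H57LC

variable {W : Type*} [DecidableEq W]

/-- the place of an element of `S` (junk value `S.card` outside) -/
noncomputable def idx (S : Finset W) (x : W) : ℕ :=
  if h : x ∈ S then (S.equivFin ⟨x, h⟩).val else S.card

lemma idx_lt {S : Finset W} {x : W} (h : x ∈ S) : idx S x < S.card := by
  unfold idx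
  rw [dif_pos h]
  exact (S.equivFin ⟨x, h⟩).2

lemma idx_inj {S : Finset W} {x y : W} (hx : x ∈ S) (hy : y ∈ S) (h : idx S x = idx S y) :
    x = y := by
  unfold idx at h
  rw [dif_pos hx, dif_pos hy] at h
  have := S.equivFin.injective (Fin.ext h)
  exact congrArg Subtype.val this

/-- the element at a place -/
noncomputable def elt (S : Finset W) (i : Fin S.card) : W := (S.equivFin.symm i).val

lemma elt_mem (S : Finset W) (i : Fin S.card) : elt S i ∈ S := (S.equivFin.symm i).2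

lemma idx_elt (S : Finset W) (i : Fin S.card) : idx S (elt S i) = i.val := by
  unfold idx elt
  rw [dif_pos (S.equivFin.symm i).2]
  simp

lemma elt_idx {S : Finset W} {x : W} (h : x ∈ S) : elt S ⟨idx S x, idx_lt h⟩ = x :=
  idx_inj (elt_mem _ _) h (idx_elt _ _)

/-- the vertices of the glued graph: the clique `X` and the vertices of the copies which are not
in the clique -/
abbrev GV (X : Finset W) (C : Finset (Finset W)) (n : ℕ) : Type _ :=
  {x : W // x ∈ X} ⊕ {p : Finset W × Fin n // p.1 ∈ C ∧ p.1.card ≤ p.2.val}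

/-- the glued graph -/
def GG (X : Finset W) (C : Finset (Finset W)) (w n : ℕ) : SimpleGraph (GV X C n) where
  Adj a b := match a, b with
    | Sum.inl x, Sum.inl y => x ≠ y
    | Sum.inl x, Sum.inr p => x.val ∈ p.val.1 ∧ idx p.val.1 x.val ≠ p.val.2.val % w
    | Sum.inr p, Sum.inl x => x.val ∈ p.val.1 ∧ idx p.val.1 x.val ≠ p.val.2.val % w
    | Sum.inr p, Sum.inr q => p.val.1 = q.val.1 ∧ p.val.2.val % w ≠ q.val.2.val % w
  symm := ⟨by
    rintro (x | p) (y | q) h
    · exact Ne.symm h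
    · exact h
    · exact h
    · exact ⟨h.1.symm, h.2.symm⟩⟩
  loopless := ⟨by
    rintro (x | p) h
    · exact h rfl
    · exact h.2 rfl⟩

variable {X : Finset W} {C : Finset (Finset W)} {w n : ℕ}

lemma adj_ll {x y : {x : W // x ∈ X}} :
    (GG X C w n).Adj (Sum.inl x) (Sum.inl y) ↔ x ≠ y := Iff.rfl

lemma adj_lr {x : {x : W // x ∈ X}} {p : {p : Finset W × Fin n // p.1 ∈ C ∧ p.1.card ≤ p.2.val}} :
    (GG X C w n).Adj (Sum.inl x) (Sum.inr p) ↔
      x.val ∈ p.val.1 ∧ idx p.val.1 x.val ≠ p.val.2.val % w := Iff.rfl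

lemma adj_rl {x : {x : W // x ∈ X}} {p : {p : Finset W × Fin n // p.1 ∈ C ∧ p.1.card ≤ p.2.val}} :
    (GG X C w n).Adj (Sum.inr p) (Sum.inl x) ↔
      x.val ∈ p.val.1 ∧ idx p.val.1 x.val ≠ p.val.2.val % w := Iff.rfl

lemma adj_rr {p q : {p : Finset W × Fin n // p.1 ∈ C ∧ p.1.card ≤ p.2.val}} :
    (GG X C w n).Adj (Sum.inr p) (Sum.inr q) ↔
      p.val.1 = q.val.1 ∧ p.val.2.val % w ≠ q.val.2.val % w := Iff.rfl

/-- the map from the Turan graph to the glued graph -/
noncomputable def eS (S : Finset W) (hS : S ∈ C) (hX : S ⊆ X) (y : Fin n) : GV X C n :=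
  if h : y.val < S.card then Sum.inl ⟨elt S ⟨y.val, h⟩, hX (elt_mem _ _)⟩
  else Sum.inr ⟨(S, y), hS, not_lt.mp h⟩

lemma eS_lt {S : Finset W} (hS : S ∈ C) (hX : S ⊆ X) {y : Fin n} (h : y.val < S.card) :
    eS S hS hX y = Sum.inl ⟨elt S ⟨y.val, h⟩, hX (elt_mem _ _)⟩ := dif_pos h

lemma eS_ge {S : Finset W} (hS : S ∈ C) (hX : S ⊆ X) {y : Fin n} (h : S.card ≤ y.val) :
    eS S hS hX y = Sum.inr ⟨(S, y), hS, h⟩ := dif_neg (not_lt.mpr h)

lemma eS_injective {S : Finset W} (hS : S ∈ C) (hX : S ⊆ X) :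
    Function.Injective (eS (n := n) S hS hX) := by
  intro y z h
  by_cases hy : y.val < S.card <;> by_cases hz : z.val < S.card
  · rw [eS_lt hS hX hy, eS_lt hS hX hz] at h
    have h1 := congrArg Subtype.val (Sum.inl_injective h)
    have h2 := congrArg (idx S) h1
    simp only [idx_elt] at h2
    exact Fin.ext h2
  · rw [eS_lt hS hX hy, eS_ge hS hX (not_lt.mp hz)] at h
    exact absurd h Sum.inl_ne_inr
  · rw [eS_ge hS hX (not_lt.mp hy), eS_lt hS hX hz] at h
    exact absurd h Sum.inr_ne_inl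
  · rw [eS_ge hS hX (not_lt.mp hy), eS_ge hS hX (not_lt.mp hz)] at h
    have h1 := congrArg Subtype.val (Sum.inr_injective h)
    exact congrArg Prod.snd h1

lemma eS_adj {S : Finset W} (hS : S ∈ C) (hX : S ⊆ X) (hw : S.card ≤ w) (y z : Fin n) :
    (GG X C w n).Adj (eS S hS hX y) (eS S hS hX z) ↔ y.val % w ≠ z.val % w := by
  by_cases hy : y.val < S.card <;> by_cases hz : z.val < S.card
  · rw [eS_lt hS hX hy, eS_lt hS hX hz, adj_ll, Nat.mod_eq_of_lt (by omega),
      Nat.mod_eq_of_lt (by omega)]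
    apply not_congr
    constructor
    · intro h
      have h2 := congrArg (idx S) (congrArg Subtype.val h)
      simpa only [idx_elt] using h2
    · intro h
      apply Subtype.ext
      simp only
      congr 1
      exact Fin.ext h
  · rw [eS_lt hS hX hy, eS_ge hS hX (not_lt.mp hz), adj_lr]
    simp only [idx_elt]
    rw [Nat.mod_eq_of_lt (show y.val < w by omega)]
    exact and_iff_right (elt_mem _ _)
  · rw [eS_ge hS hX (not_lt.mp hy), eS_lt hS hX hz, adj_rl]
    simp only [idx_elt]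
    rw [Nat.mod_eq_of_lt (show z.val < w by omega)]
    rw [and_iff_right (elt_mem _ _)]
    exact ne_comm
  · rw [eS_ge hS hX (not_lt.mp hy), eS_ge hS hX (not_lt.mp hz), adj_rr]
    simp

/-- the range of the map -/
lemma mem_range_inl {S : Finset W} (hS : S ∈ C) (hX : S ⊆ X) (hn : S.card ≤ n)
    {x : {x : W // x ∈ X}} : (Sum.inl x : GV X C n) ∈ Set.range (eS S hS hX) ↔ x.val ∈ S := by
  constructor
  · rintro ⟨y, hy⟩
    by_cases h : y.val < S.card
    · rw [eS_lt hS hX h] at hy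
      have := Sum.inl_injective hy
      rw [← this]
      exact elt_mem _ _
    · rw [eS_ge hS hX (not_lt.mp h)] at hy
      exact absurd hy Sum.inr_ne_inl
  · intro h
    have hlt := idx_lt h
    refine ⟨⟨idx S x.val, by omega⟩, ?_⟩
    rw [eS_lt hS hX (show (⟨idx S x.val, by omega⟩ : Fin n).val < S.card from hlt)]
    congr 1
    apply Subtype.ext
    exact elt_idx h

lemma mem_range_inr {S : Finset W} (hS : S ∈ C) (hX : S ⊆ X)
    {p : {p : Finset W × Fin n // p.1 ∈ C ∧ p.1.card ≤ p.2.val}} :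
    (Sum.inr p : GV X C n) ∈ Set.range (eS S hS hX) ↔ p.val.1 = S := by
  constructor
  · rintro ⟨y, hy⟩
    by_cases h : y.val < S.card
    · rw [eS_lt hS hX h] at hy
      exact absurd hy Sum.inl_ne_inr
    · rw [eS_ge hS hX (not_lt.mp h)] at hy
      rw [← Sum.inr_injective hy]
  · intro h
    refine ⟨p.val.2, ?_⟩
    have h1 : S.card ≤ p.val.2.val := h ▸ p.2.2
    rw [eS_ge hS hX h1]
    congr 1
    apply Subtype.ext
    exact Prod.ext h.symm rfl

/-- the neighbours of a vertex outside the clique are in its copy -/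
lemma adj_inr_mem {v : GV X C n}
    {p : {p : Finset W × Fin n // p.1 ∈ C ∧ p.1.card ≤ p.2.val}} (hX : p.val.1 ⊆ X)
    (hn : p.val.1.card ≤ n) (h : (GG X C w n).Adj (Sum.inr p) v) :
    v ∈ Set.range (eS p.val.1 p.2.1 hX) := by
  rcases v with x | q
  · rw [mem_range_inl _ _ hn]
    exact h.1
  · rw [mem_range_inr]
    exact h.1.symm

/-- a clique is inside the clique `X` or inside a copy -/
lemma clique_cases (hC : ∀ S ∈ C, S ⊆ X) (hn : ∀ S ∈ C, S.card ≤ n) {K : Finset (GV X C n)}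
    (hK : (GG X C w n).IsClique K) :
    (∃ U : Finset {x : W // x ∈ X}, K = U.map Function.Embedding.inl) ∨
      ∃ S, ∃ hS : S ∈ C, ∀ v ∈ K, v ∈ Set.range (eS S hS (hC S hS)) := by
  by_cases h : ∃ p, (Sum.inr p : GV X C n) ∈ K
  · right
    obtain ⟨p, hp⟩ := h
    refine ⟨p.val.1, p.2.1, fun v hv => ?_⟩
    by_cases hvp : v = Sum.inr p
    · rw [hvp, mem_range_inr]
    · exact adj_inr_mem _ (hn _ p.2.1) (hK hp hv (Ne.symm hvp))
  · left
    push Not at h
    refine ⟨K.toLeft, ?_⟩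
    have hR : K.toRight = ∅ := by
      rw [eq_empty_iff_forall_notMem]
      intro p hp
      rw [mem_toRight] at hp
      exact h p hp
    conv_lhs => rw [← toLeft_disjSum_toRight (u := K), hR, disjSum_empty]

/-- a clique inside a copy comes from a clique of the Turan graph -/
lemma clique_lift {m r : ℕ} {S : Finset W} (hS : S ∈ C) (hX : S ⊆ X) (hw : S.card ≤ w)
    {K : Finset (GV X C (w * m + r))} {k : ℕ} (hK : (GG X C w (w * m + r)).IsNClique k K)
    (hr : ∀ v ∈ K, v ∈ Set.range (eS S hS hX)) :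
    ∃ B : Finset (Fin (w * m + r)), (TG w m r).IsNClique k B ∧
      K = B.map ⟨eS S hS hX, eS_injective hS hX⟩ := by
  classical
  set B : Finset (Fin (w * m + r)) := univ.filter (fun y => eS S hS hX y ∈ K) with hB
  have hKB : K = B.map ⟨eS S hS hX, eS_injective hS hX⟩ := by
    ext v
    rw [mem_map]
    constructor
    · intro hv
      obtain ⟨y, rfl⟩ := hr v hv
      exact ⟨y, mem_filter.mpr ⟨mem_univ _, hv⟩, rfl⟩
    · rintro ⟨y, hy, rfl⟩
      exact (mem_filter.mp hy).2
  refine ⟨B, ?_, hKB⟩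
  rw [SimpleGraph.isNClique_iff]
  constructor
  · intro y hy z hz hyz
    have h1 := hK.1 (mem_filter.mp hy).2 (mem_filter.mp hz).2
      (fun h => hyz (eS_injective hS hX h))
    rw [eS_adj hS hX hw] at h1
    exact h1
  · rw [← hK.card_eq]
    conv_rhs => rw [hKB]
    rw [card_map]

/-- the number of `u`-cliques -/
lemma kc_GG_le {m r u : ℕ} [Fintype W] (hC : ∀ S ∈ C, S ⊆ X) (hw : ∀ S ∈ C, S.card ≤ w)
    (hn : ∀ S ∈ C, S.card ≤ w * m + r)
    (hcov : ∀ U : Finset W, U ⊆ X → U.card = u → ∃ S ∈ C, U ⊆ S) :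
    kc u (GG X C w (w * m + r)) ≤ C.card * kc u (TG w m r) := by
  classical
  have key : {K | (GG X C w (w * m + r)).IsNClique u K} ⊆ ⋃ S ∈ C.attach,
      (Finset.map ⟨eS S.1 S.2 (hC S.1 S.2), eS_injective S.2 (hC S.1 S.2)⟩) ''
        {B : Finset (Fin (w * m + r)) | (TG w m r).IsNClique u B} := by
    intro K hK
    have hK' : (GG X C w (w * m + r)).IsNClique u K := hK
    have h1 : ∃ S, ∃ hS : S ∈ C, ∀ v ∈ K, v ∈ Set.range (eS S hS (hC S hS)) := by
      rcases clique_cases hC hn hK'.1 with ⟨U, hU⟩ | h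
      · obtain ⟨S, hS, hUS⟩ := hcov (U.map (Function.Embedding.subtype _))
          (fun x hx => by
            rw [mem_map] at hx
            obtain ⟨y, _, rfl⟩ := hx
            exact y.2)
          (by rw [card_map, ← hK'.card_eq, hU, card_map])
        refine ⟨S, hS, fun v hv => ?_⟩
        rw [hU, mem_map] at hv
        obtain ⟨x, hx, rfl⟩ := hv
        change (Sum.inl x : GV X C (w * m + r)) ∈ _
        rw [mem_range_inl _ _ (hn S hS)]
        exact hUS (mem_map.mpr ⟨x, hx, rfl⟩)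
      · exact h
    obtain ⟨S, hS, h2⟩ := h1
    obtain ⟨B, hB, hKB⟩ := clique_lift hS (hC S hS) (hw S hS) hK' h2
    rw [Set.mem_iUnion₂]
    exact ⟨⟨S, hS⟩, mem_attach _ _, B, hB, hKB.symm⟩
  unfold kc
  calc _ ≤ (⋃ S ∈ C.attach,
      (Finset.map ⟨eS S.1 S.2 (hC S.1 S.2), eS_injective S.2 (hC S.1 S.2)⟩) ''
        {B : Finset (Fin (w * m + r)) | (TG w m r).IsNClique u B}).ncard :=
        Set.ncard_le_ncard key (Set.toFinite _)
    _ ≤ ∑ S ∈ C.attach, ((Finset.map ⟨eS S.1 S.2 (hC S.1 S.2), eS_injective S.2 (hC S.1 S.2)⟩) ''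
        {B : Finset (Fin (w * m + r)) | (TG w m r).IsNClique u B}).ncard :=
        Finset.set_ncard_biUnion_le _ _
    _ ≤ _ := by
        rw [sum_congr rfl (fun S _ => Set.ncard_image_of_injective _ (Finset.map_injective _)),
          sum_const, card_attach, smul_eq_mul]

/-- the glued graph has no large clique -/
lemma cliqueFree_GG {m r : ℕ} [Fintype W] (hw1 : 1 ≤ w) (hC : ∀ S ∈ C, S ⊆ X)
    (hw : ∀ S ∈ C, S.card ≤ w) (hn : ∀ S ∈ C, S.card ≤ w * m + r) (hXw : X.card ≤ w) :
    (GG X C w (w * m + r)).CliqueFree (w + 1) := by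
  intro K hK
  rcases clique_cases hC hn hK.1 with ⟨U, hU⟩ | ⟨S, hS, h⟩
  · have h1 := hK.card_eq
    rw [hU, card_map] at h1
    have h2 := card_le_univ U
    rw [Fintype.card_coe] at h2
    omega
  · obtain ⟨B, hB, _⟩ := clique_lift hS (hC S hS) (hw S hS) hK h
    exact SimpleGraph.turanGraph_cliqueFree (by omega) B hB

end H57GH
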