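import Pool.Agent.H57.GH.NegB

/-!
Project GH, part Neg: the glued graph is allowed.
-/

namespace H57GH

open Finset H57E32 H57LC

/-- common neighbours of a `u`-clique of the Turan graph -/
lemma cns_TG_card {u R m r : ℕ} (hu : 1 ≤ u) (hr : r < R + u)
    {A : Finset (Fin ((R + u) * m + r))} (hA : (TG (R + u) m r).IsNClique u A) :
    (cns (TG (R + u) m r) A).ncard + (A.filter (fun v => v.val % (R + u) < r)).card =
      R * m + r := by
  classical
  have hw : 1 ≤ R + u := by omega
  have hinj : Set.InjOn (tcN (R + u) m r hw) A := by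
    intro x hx y hy hxy
    by_contra hne
    exact (tcN_adj hw x y).mp (hA.1 hx hy hne) hxy
  set B := A.biUnion (fun a => cls (tcN (R + u) m r hw) (tcN (R + u) m r hw a)) with hB
  have hBc : B.card = u * m + (A.filter (fun v => v.val % (R + u) < r)).card := by
    rw [hB, card_biUnion]
    · rw [sum_congr rfl (fun a _ => tcN_card hw hr _), sum_add_distrib, sum_const, hA.card_eq,
        smul_eq_mul, card_filter]
      rfl
    · intro x hx y hy hxy
      change Disjoint (cls (tcN (R + u) m r hw) (tcN (R + u) m r hw x))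
        (cls (tcN (R + u) m r hw) (tcN (R + u) m r hw y))
      rw [disjoint_left]
      intro v hv hv'
      exact hxy (hinj hx hy ((mem_filter.mp hv).2.symm.trans (mem_filter.mp hv').2))
  have hcn : cns (TG (R + u) m r) A = ((Bᶜ : Finset _) : Set _) := by
    ext v
    rw [mem_coe, mem_compl, hB, mem_biUnion]
    constructor
    · rintro hv ⟨a, ha, hva⟩
      have h1 := hv a ha
      rw [tcN_adj hw] at h1
      exact h1 (mem_filter.mp hva).2.symm
    · intro hv a ha
      rw [tcN_adj hw]
      intro h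
      exact hv ⟨a, ha, mem_filter.mpr ⟨mem_univ _, h.symm⟩⟩
  rw [hcn, Set.ncard_coe_finset, card_compl, Fintype.card_fin]
  have h3 := card_le_univ B
  rw [Fintype.card_fin] at h3
  have h4 : (R + u) * m = R * m + u * m := by ring
  omega

variable {W : Type*} [Fintype W] [DecidableEq W] {X : Finset W} {C : Finset (Finset W)}

lemma cns_GG {u R m r : ℕ} (hu : 1 ≤ u) (hr : r < R + u)
    (hC : ∀ S ∈ C, S ⊆ X) (hw : ∀ S ∈ C, S.card ≤ R + u)
    (hn : ∀ S ∈ C, S.card ≤ (R + u) * m + r)
    (hcov : ∀ U : Finset W, U ⊆ X → U.card = u → ∃ S ∈ C, U ⊆ S)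
    (huniq : ∀ U : Finset W, U.card = u → ∀ S ∈ C, ∀ S' ∈ C, U ⊆ S → U ⊆ S' → S = S')
    (hXS : ∀ S ∈ C, X.card ≤ S.card + u) (hXr : X.card ≤ r + u)
    {K : Finset (GV X C ((R + u) * m + r))}
    (hK : (GG X C (R + u) ((R + u) * m + r)).IsNClique u K) :
    (cns (GG X C (R + u) ((R + u) * m + r)) K).ncard ≤ R * m + r := by
  classical
  by_cases hinr : ∃ p, (Sum.inr p : GV X C ((R + u) * m + r)) ∈ K
  · obtain ⟨p, hp⟩ := hinr
    have hS := p.2.1
    have hX := hC _ hS
    have hr' : ∀ v ∈ K, v ∈ Set.range (eS p.val.1 hS hX) := by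
      intro v hv
      by_cases hvp : v = Sum.inr p
      · rw [hvp, mem_range_inr]
      · exact adj_inr_mem _ (hn _ hS) (hK.1 hp hv (Ne.symm hvp))
    obtain ⟨B, hB, hKB⟩ := clique_lift hS hX (hw _ hS) hK hr'
    have h1 : cns (GG X C (R + u) ((R + u) * m + r)) K ⊆
        (eS p.val.1 hS hX) '' cns (TG (R + u) m r) B := by
      intro v hv
      obtain ⟨y, rfl⟩ := adj_inr_mem hX (hn _ hS) (hv _ hp)
      refine ⟨y, fun b hb => ?_, rfl⟩
      have h2 := hv (eS p.val.1 hS hX b) (by rw [hKB, mem_map]; exact ⟨b, hb, rfl⟩)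
      rw [eS_adj hS hX (hw _ hS)] at h2
      exact h2
    have h2 := Set.ncard_le_ncard h1 (Set.toFinite _)
    rw [Set.ncard_image_of_injective _ (eS_injective hS hX)] at h2
    have h3 := cns_TG_card hu hr hB
    omega
  · push Not at hinr
    have hRt : K.toRight = ∅ := by
      rw [eq_empty_iff_forall_notMem]
      intro p hp
      rw [mem_toRight] at hp
      exact hinr p hp
    set U := K.toLeft with hU
    have hKU : K = U.map Function.Embedding.inl := by
      conv_lhs => rw [← toLeft_disjSum_toRight (u := K), hRt, disjSum_empty]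
    set U' : Finset W := U.map (Function.Embedding.subtype _) with hU'
    have hU'c : U'.card = u := by rw [hU', card_map, ← hK.card_eq, hKU, card_map]
    obtain ⟨S, hS, hUS⟩ := hcov U' (fun x hx => by
            rw [hU', mem_map] at hx
            obtain ⟨y, _, rfl⟩ := hx
            exact y.2) hU'c
    have hX := hC S hS
    have hr' : ∀ v ∈ K, v ∈ Set.range (eS S hS hX) := by
      intro v hv
      rw [hKU, mem_map] at hv
      obtain ⟨x, hx, rfl⟩ := hv
      change (Sum.inl x : GV X C ((R + u) * m + r)) ∈ _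
      rw [mem_range_inl _ _ (hn S hS)]
      exact hUS (mem_map.mpr ⟨x, hx, rfl⟩)
    obtain ⟨B, hB, hKB⟩ := clique_lift hS hX (hw _ hS) hK hr'
    have h1 : cns (GG X C (R + u) ((R + u) * m + r)) K ⊆
        (Sum.inl '' {x : {x : W // x ∈ X} | x.val ∉ S}) ∪
          (eS S hS hX) '' cns (TG (R + u) m r) B := by
      intro v hv
      by_cases hvr : v ∈ Set.range (eS S hS hX)
      · right
        obtain ⟨y, rfl⟩ := hvr
        refine ⟨y, fun b hb => ?_, rfl⟩
        have h2 := hv (eS S hS hX b) (by rw [hKB, mem_map]; exact ⟨b, hb, rfl⟩)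
        rw [eS_adj hS hX (hw _ hS)] at h2
        exact h2
      · left
        rcases v with x | p
        · refine ⟨x, ?_, rfl⟩
          intro hx
          exact hvr ((mem_range_inl _ _ (hn S hS)).mpr hx)
        · exfalso
          apply hvr
          rw [mem_range_inr]
          refine huniq U' hU'c _ p.2.1 _ hS ?_ hUS
          intro x hx
          rw [hU', mem_map] at hx
          obtain ⟨y, hy, rfl⟩ := hx
          have h2 := hv (Sum.inl y) (by rw [hKU, mem_map]; exact ⟨y, hy, rfl⟩)
          exact h2.1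
    have h2 := Set.ncard_le_ncard h1 (Set.toFinite _)
    have h3 := Set.ncard_union_le (Sum.inl '' {x : {x : W // x ∈ X} | x.val ∉ S})
      ((eS S hS hX) '' cns (TG (R + u) m r) B)
    rw [Set.ncard_image_of_injective _ (eS_injective hS hX),
      Set.ncard_image_of_injective _ Sum.inl_injective] at h3
    have h4 : ({x : {x : W // x ∈ X} | x.val ∉ S}).ncard = X.card - S.card := by
      have h5 : ({x : {x : W // x ∈ X} | x.val ∉ S}).ncard = (X \ S).card := by
        rw [← Set.ncard_image_of_injective _ Subtype.val_injective, ← Set.ncard_coe_finset]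
        congr 1
        ext x
        simp only [Set.mem_image, Set.mem_setOf_eq, coe_sdiff, Set.mem_sdiff, mem_coe]
        constructor
        · rintro ⟨y, hy, rfl⟩
          exact ⟨y.2, hy⟩
        · rintro ⟨hx, hxS⟩
          exact ⟨⟨x, hx⟩, hxS, rfl⟩
      rw [h5, card_sdiff_of_subset hX]
    have h5 := cns_TG_card hu hr hB
    -- the places of `B`
    have hBlt : ∀ b ∈ B, b.val < S.card := by
      intro b hb
      have h6 : eS S hS hX b ∈ K := by rw [hKB, mem_map]; exact ⟨b, hb, rfl⟩
      by_contra hcon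
      rw [eS_ge hS hX (not_lt.mp hcon)] at h6
      exact hinr _ h6
    have h6 : (B.filter (fun v => ¬ v.val % (R + u) < r)).card ≤ S.card - r := by
      have h7 : ((B.filter (fun v => ¬ v.val % (R + u) < r)).image (fun v => v.val)) ⊆
          Finset.Ico r S.card := by
        intro i hi
        rw [mem_image] at hi
        obtain ⟨b, hb, rfl⟩ := hi
        rw [mem_filter] at hb
        have h8 := hBlt b hb.1
        have h9 := hw S hS
        rw [Nat.mod_eq_of_lt (by omega)] at hb
        rw [mem_Ico]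
        exact ⟨not_lt.mp hb.2, h8⟩
      have h8 := card_le_card h7
      rw [card_image_of_injective _ Fin.val_injective, Nat.card_Ico] at h8
      exact h8
    have h7 := card_filter_add_card_filter_not (s := B) (fun v => v.val % (R + u) < r)
    rw [hB.card_eq] at h7
    have h8 := hXS S hS
    omega

/-- the glued graph is allowed -/
lemma allowed_GG {u R m r : ℕ} (hu : 1 ≤ u) (hr : r < R + u)
    (hC : ∀ S ∈ C, S ⊆ X) (hw : ∀ S ∈ C, S.card ≤ R + u)
    (hn : ∀ S ∈ C, S.card ≤ (R + u) * m + r)
    (hcov : ∀ U : Finset W, U ⊆ X → U.card = u → ∃ S ∈ C, U ⊆ S)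
    (huniq : ∀ U : Finset W, U.card = u → ∀ S ∈ C, ∀ S' ∈ C, U ⊆ S → U ⊆ S' → S = S')
    (hXS : ∀ S ∈ C, X.card ≤ S.card + u) (hXr : X.card ≤ r + u) (hXw : X.card ≤ R + u) :
    Allowed u (R * m + r) (R + u) (GG X C (R + u) ((R + u) * m + r)) := by
  rw [allowed_iff]
  exact ⟨fun K hK => cns_GG hu hr hC hw hn hcov huniq hXS hXr hK,
    cliqueFree_GG (by omega) hC hw hn hXw⟩

end H57GH
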