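import Pool.Agent.H57.GH.NegC

/-!
Project GH, part Neg: copies of `H` in the glued graph.
-/

namespace H57GH

open Finset H57E32 H57LC

variable {W : Type*} [Fintype W] [DecidableEq W] {X : Finset W} {C : Finset (Finset W)}

/-- the copy of the Turan graph belonging to `S` -/
noncomputable def cpS (w m r : ℕ) (S : Finset W) (hS : S ∈ C) (hX : S ⊆ X) (hw : S.card ≤ w) :
    SimpleGraph.Copy (TG w m r) (GG X C w (w * m + r)) :=
  ⟨⟨eS S hS hX, fun {a b} h => (eS_adj hS hX hw a b).mpr h⟩, eS_injective hS hX⟩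

lemma cpS_apply {w m r : ℕ} {S : Finset W} (hS : S ∈ C) (hX : S ⊆ X) (hw : S.card ≤ w)
    (y : Fin (w * m + r)) : cpS w m r S hS hX hw y = eS S hS hX y := rfl

lemma range_cpS {w m r : ℕ} {S : Finset W} (hS : S ∈ C) (hX : S ⊆ X) (hw : S.card ≤ w) :
    Set.range (cpS w m r S hS hX hw) = Set.range (eS (n := w * m + r) S hS hX) := rfl

/-- different copies meet in few vertices -/
lemma inter_lt {w m r u : ℕ} {S S' : Finset W} (hS : S ∈ C) (hS' : S' ∈ C) (hX : S ⊆ X)
    (hX' : S' ⊆ X) (hw : S.card ≤ w) (hw' : S'.card ≤ w) (hn : S.card ≤ w * m + r)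
    (hn' : S'.card ≤ w * m + r) (hne : S ≠ S')
    (huniq : ∀ U : Finset W, U.card = u → ∀ S ∈ C, ∀ S' ∈ C, U ⊆ S → U ⊆ S' → S = S') :
    (Set.range (cpS w m r S hS hX hw) ∩ Set.range (cpS w m r S' hS' hX' hw')).ncard < u := by
  classical
  rw [range_cpS, range_cpS]
  have h1 : (Set.range (eS (n := w * m + r) S hS hX) ∩ Set.range (eS S' hS' hX')) ⊆
      Sum.inl '' {x : {x : W // x ∈ X} | x.val ∈ S ∩ S'} := by
    rintro (x | p) ⟨h, h'⟩
    · rw [mem_range_inl _ _ hn] at h
      rw [mem_range_inl _ _ hn'] at h'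
      exact ⟨x, mem_inter.mpr ⟨h, h'⟩, rfl⟩
    · rw [mem_range_inr] at h h'
      exact absurd (h.symm.trans h') hne
  have h2 := Set.ncard_le_ncard h1 (Set.toFinite _)
  rw [Set.ncard_image_of_injective _ Sum.inl_injective] at h2
  have h3 : ({x : {x : W // x ∈ X} | x.val ∈ S ∩ S'}).ncard ≤ (S ∩ S').card := by
    rw [← Set.ncard_image_of_injective _ Subtype.val_injective, ← Set.ncard_coe_finset]
    apply Set.ncard_le_ncard _ (Set.toFinite _)
    rintro _ ⟨x, hx, rfl⟩
    exact hx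
  have h4 : (S ∩ S').card < u := by
    by_contra hcon
    push Not at hcon
    obtain ⟨U, hU, hUc⟩ := exists_subset_card_eq hcon
    exact hne (huniq U hUc S hS S' hS' (hU.trans inter_subset_left) (hU.trans inter_subset_right))
  omega

/-- the number of copies of `H` -/
lemma copies_GG {w m r u : ℕ} (H : SimpleGraph W) (hC : ∀ S ∈ C, S ⊆ X)
    (hw : ∀ S ∈ C, S.card ≤ w) (hn : ∀ S ∈ C, S.card ≤ w * m + r)
    (huniq : ∀ U : Finset W, U.card = u → ∀ S ∈ C, ∀ S' ∈ C, U ⊆ S → U ⊆ S' → S = S')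
    (hW : u < Fintype.card W) (φ : SimpleGraph.Copy H (GG X C w (w * m + r)))
    (hφ : ∀ S ∈ C, ∃ x : {x : W // x ∈ X}, Sum.inl x ∈ Set.range φ ∧ x.val ∉ S) :
    C.card * (TG w m r).copyCount H + 1 ≤ (GG X C w (w * m + r)).copyCount H := by
  classical
  have h := copies_family H (L := TG w m r) (G := GG X C w (w * m + r)) C.attach
    (fun S => cpS w m r S.1 S.2 (hC S.1 S.2) (hw S.1 S.2)) ?_ φ.toSubgraph ?_ ?_
  · rw [card_attach] at h
    exact h
  · intro S _ S' _ hne
    have h1 := inter_lt (w := w) (m := m) (r := r) (u := u) S.2 S'.2 (hC S.1 S.2) (hC S'.1 S'.2)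
      (hw S.1 S.2) (hw S'.1 S'.2) (hn S.1 S.2) (hn S'.1 S'.2)
      (fun h => hne (Subtype.ext h)) huniq
    exact h1.trans hW
  · exact ⟨φ.isoToSubgraph⟩
  · intro S _ hsub
    obtain ⟨x, ⟨y, hy⟩, hx⟩ := hφ S.1 S.2
    have h1 : (Sum.inl x : GV X C (w * m + r)) ∈ φ.toSubgraph.verts := by
      rw [SimpleGraph.Subgraph.map_verts]
      exact ⟨y, trivial, hy⟩
    have h2 := hsub h1
    rw [range_cpS, mem_range_inl _ _ (hn S.1 S.2)] at h2
    exact hx h2

/-- the additional copy of `H` -/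
lemma extra_copy {w m r : ℕ} (H : SimpleGraph W) [DecidableRel H.Adj] (v : W)
    (hm : 1 ≤ m) (hw : Fintype.card W ≤ w) (hX : X = insert v (H.neighborFinset v))
    (hN : H.neighborFinset v ∈ C) :
    ∃ φ : SimpleGraph.Copy H (GG X C w (w * m + r)),
      ∀ x : {x : W // x ∈ X}, Sum.inl x ∈ Set.range φ := by
  classical
  set N := H.neighborFinset v with hNdef
  have hvN : v ∉ N := by simp [hNdef]
  have hXc : X.card = N.card + 1 := by rw [hX, card_insert_of_notMem hvN]
  have hXcc : (Xᶜ).card + X.card = Fintype.card W := by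
    rw [card_compl]
    have := card_le_univ X
    omega
  have hwn : w ≤ w * m + r := by nlinarith
  have hlt : ∀ x : W, x ∉ X → N.card + idx Xᶜ x < w := by
    intro x hx
    have := idx_lt (mem_compl.mpr hx)
    omega
  let f : W → GV X C (w * m + r) := fun x =>
    if h : x ∈ X then Sum.inl ⟨x, h⟩
    else Sum.inr ⟨(N, ⟨N.card + idx Xᶜ x, lt_of_lt_of_le (hlt x h) hwn⟩), hN, Nat.le_add_right _ _⟩
  have hf1 : ∀ x (h : x ∈ X), f x = Sum.inl ⟨x, h⟩ := fun x h => dif_pos h
  have hf2 : ∀ x (h : x ∉ X), f x = Sum.inr ⟨(N, ⟨N.card + idx Xᶜ x,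
      lt_of_lt_of_le (hlt x h) hwn⟩), hN, Nat.le_add_right _ _⟩ := fun x h => dif_neg h
  have key : ∀ x y, x ∈ X → y ∉ X → H.Adj x y → (GG X C w (w * m + r)).Adj (f x) (f y) := by
    intro x y hx hy hxy
    rw [hf1 x hx, hf2 y hy, adj_lr]
    simp only
    have hxN : x ∈ N := by
      have h1 := hx
      rw [hX, mem_insert] at h1
      rcases h1 with rfl | h1
      · exfalso
        apply hy
        rw [hX, mem_insert]
        right
        rw [hNdef, SimpleGraph.mem_neighborFinset]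
        exact hxy
      · exact h1
    refine ⟨hxN, ?_⟩
    rw [Nat.mod_eq_of_lt (hlt y hy)]
    have := idx_lt hxN
    omega
  have hadj : ∀ x y, H.Adj x y → (GG X C w (w * m + r)).Adj (f x) (f y) := by
    intro x y hxy
    by_cases hx : x ∈ X <;> by_cases hy : y ∈ X
    · rw [hf1 x hx, hf1 y hy, adj_ll]
      intro h
      exact hxy.ne (congrArg Subtype.val h)
    · exact key x y hx hy hxy
    · exact (key y x hy hx hxy.symm).symm
    · rw [hf2 x hx, hf2 y hy, adj_rr]
      simp only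
      refine ⟨trivial, ?_⟩
      rw [Nat.mod_eq_of_lt (hlt x hx), Nat.mod_eq_of_lt (hlt y hy)]
      intro h
      exact hxy.ne (idx_inj (mem_compl.mpr hx) (mem_compl.mpr hy) (by omega))
  have hinj : Function.Injective f := by
    intro x y h
    by_cases hx : x ∈ X <;> by_cases hy : y ∈ X
    · rw [hf1 x hx, hf1 y hy] at h
      exact congrArg Subtype.val (Sum.inl_injective h)
    · rw [hf1 x hx, hf2 y hy] at h
      exact absurd h Sum.inl_ne_inr
    · rw [hf2 x hx, hf1 y hy] at h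
      exact absurd h Sum.inr_ne_inl
    · rw [hf2 x hx, hf2 y hy] at h
      have h1 := congrArg (fun p => p.2.val) (congrArg Subtype.val (Sum.inr_injective h))
      simp only at h1
      exact idx_inj (mem_compl.mpr hx) (mem_compl.mpr hy) (by omega)
  refine ⟨⟨⟨f, fun {a b} h => hadj a b h⟩, hinj⟩, fun x => ⟨x.1, ?_⟩⟩
  exact hf1 x.1 x.2

end H57GH
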