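import Pool.Agent.H57.GH.StabE

/-!
Sets with too few edges have few copies of `J`, with a reserve for the very heavy vertices.
-/

namespace H57GH

open Finset H57LC H57LT

set_option linter.unusedSectionVars false

section NonBgraph

variable {V : Type*} [DecidableEq V] {G : SimpleGraph V} [DecidableRel G.Adj]

theorem NonB_free {S S' : Finset V} {k : ℕ} (h : S' ⊆ S) (hf : clq G S k = ∅) :
    clq G S' k = ∅ := by
  rw [Finset.eq_empty_iff_forall_notMem] at hf ⊢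
  intro T hT
  rw [mem_clq] at hT
  exact hf T (mem_clq.2 ⟨⟨hT.1.1.trans h, hT.1.2⟩, hT.2⟩)

/-- Turan -/
theorem NonB_turan {S : Finset V} {R : ℕ} (hR : 1 ≤ R) (hf : clq G S (R + 1) = ∅) :
    ((clq G S 2).card : ℝ) ≤ e2 univ (bal R S.card) := by
  obtain ⟨B, -, hdisj, hun, -, hineq⟩ := greedy R hR S hf
  have h1 := e2_eq (G := G) hdisj hun
  have h2 := e2_bal_max hR (T := (univ : Finset (Fin R))) (by simp) (fun i => (B i).card)
  have h3 : ∑ i, (B i).card = S.card := by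
    rw [← hun, un, card_biUnion]
    intro i _ j _ hij
    exact hdisj i j hij
  rw [h3] at h2
  have h4 : (∑ i, ∑ x ∈ B i, dg G (B i) x : ℕ) ≤
      (∑ i, ∑ j ∈ univ.erase i, ∑ x ∈ B i, (hs G (B j) x).card : ℕ) := by omega
  have h5 : ((∑ i, ∑ x ∈ B i, dg G (B i) x : ℕ) : ℝ) ≤
      ((∑ i, ∑ j ∈ univ.erase i, ∑ x ∈ B i, (hs G (B j) x).card : ℕ) : ℝ) := by
    exact_mod_cast h4
  linarith only [h1, h2, h5]

theorem NonB_dg_eq (S : Finset V) (z : V) :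
    dg G S z = ∑ y ∈ S, if G.Adj z y then 1 else 0 := by
  unfold dg
  rw [card_filter]

/-- removing the vertices of `X` -/
theorem NonB_edges {S X : Finset V} (hX : X ⊆ S) :
    (clq G S 2).card ≤ (clq G (S \ X) 2).card + ∑ z ∈ X, dg G S z := by
  have h1 := sum_dg (G := G) S
  have h2 := sum_dg (G := G) (S \ X)
  have h3 : ∀ z, dg G S z = dg G (S \ X) z + dg G X z := by
    intro z
    rw [NonB_dg_eq, NonB_dg_eq, NonB_dg_eq, sum_sdiff hX]
  have h4 : ∑ x ∈ S, dg G S x = ∑ x ∈ S \ X, dg G S x + ∑ x ∈ X, dg G S x :=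
    (sum_sdiff hX).symm
  have h5 : ∑ x ∈ S \ X, dg G S x = ∑ x ∈ S \ X, dg G (S \ X) x + ∑ x ∈ S \ X, dg G X x := by
    rw [← sum_add_distrib]
    exact sum_congr rfl fun x _ => h3 x
  have h6 : ∑ x ∈ S \ X, dg G X x = ∑ y ∈ X, dg G (S \ X) y := by
    simp only [NonB_dg_eq]
    rw [sum_comm]
    refine sum_congr rfl fun y _ => sum_congr rfl fun x _ => ?_
    simp only [G.adj_comm]
  have h7 : ∑ y ∈ X, dg G (S \ X) y ≤ ∑ y ∈ X, dg G S y :=
    sum_le_sum fun y _ => by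
      rw [h3 y]
      exact Nat.le_add_right _ _
  omega

end NonBgraph

/-! ### real inequalities -/

theorem NonB_caseA (t : ℕ) {u P n m θ C₁ E D M Q : ℝ} (hu : 0 ≤ u) (hP : 0 < P) (hn0 : 0 ≤ n)
    (hn : n ≤ P / 2) (hE : E ≤ n ^ (t + 2)) (hD : D ≤ n * (θ * P)) (hQ0 : 0 ≤ Q)
    (hQ : Q ≤ 2 * P) (hθ0 : 0 ≤ θ) (hθ : θ * (8 * ((u * (t + 2) + 1) * 2 ^ (t + 2))) ≤ 1)
    (hM : 3 / 4 * P ^ (t + 2) ≤ M) (hC : 2 * C₁ / m ≤ 1 / 2) :
    E + 2 * u * (t + 2) * Q ^ t * D ≤ (1 - 2 * C₁ / m) * M := by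
  have hPt : 0 < P ^ (t + 2) := pow_pos hP _
  have h1 : E ≤ P ^ (t + 2) / 4 := by
    have e1 : n ^ (t + 2) ≤ (P / 2) ^ (t + 2) := pow_le_pow_left₀ hn0 hn _
    have e2 : (P / 2) ^ (t + 2) = P ^ (t + 2) / 2 ^ (t + 2) := div_pow _ _ _
    have e3 : (4 : ℝ) ≤ 2 ^ (t + 2) := by
      have : (1 : ℝ) ≤ 2 ^ t := one_le_pow₀ (by norm_num)
      rw [pow_add]
      linarith only [this]
    have e4 : P ^ (t + 2) / 2 ^ (t + 2) ≤ P ^ (t + 2) / 4 :=
      div_le_div_of_nonneg_left hPt.le (by norm_num) e3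
    linarith only [hE, e1, e2, e4]
  have h2 : D ≤ θ * P ^ 2 / 2 := by
    have e1 : n * (θ * P) ≤ P / 2 * (θ * P) := mul_le_mul_of_nonneg_right hn (by positivity)
    nlinarith only [hD, e1]
  have h3 : Q ^ t ≤ 2 ^ t * P ^ t := by
    rw [← mul_pow]
    exact pow_le_pow_left₀ hQ0 hQ _
  have h4 : 2 * u * (t + 2) * Q ^ t * D ≤ P ^ (t + 2) / 8 := by
    have k0 : 0 ≤ 2 * u * (t + 2) * Q ^ t := by positivity
    have e1 : 2 * u * (t + 2) * Q ^ t * D ≤ 2 * u * (t + 2) * Q ^ t * (θ * P ^ 2 / 2) :=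
      mul_le_mul_of_nonneg_left h2 k0
    have k1 : 0 ≤ 2 * u * (t + 2) * (θ * P ^ 2 / 2) := by positivity
    have e2 : 2 * u * (t + 2) * Q ^ t * (θ * P ^ 2 / 2) ≤
        2 * u * (t + 2) * (θ * P ^ 2 / 2) * (2 ^ t * P ^ t) := by
      calc 2 * u * (t + 2) * Q ^ t * (θ * P ^ 2 / 2)
          = 2 * u * (t + 2) * (θ * P ^ 2 / 2) * Q ^ t := by ring
        _ ≤ _ := mul_le_mul_of_nonneg_left h3 k1
    have e3 : 2 * u * (t + 2) * (θ * P ^ 2 / 2) * (2 ^ t * P ^ t) =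
        θ * (u * (t + 2) * 2 ^ t) * P ^ (t + 2) := by ring
    have e4 : θ * (u * (t + 2) * 2 ^ t) ≤ 1 / 8 := by
      have e5 : u * (t + 2) * 2 ^ t ≤ (u * (t + 2) + 1) * 2 ^ (t + 2) := by
        have e6 : (2 : ℝ) ^ t ≤ 2 ^ (t + 2) := pow_le_pow_right₀ (by norm_num) (by omega)
        have e7 : 0 ≤ u * (t + 2) := by positivity
        have e8 : (0 : ℝ) < 2 ^ (t + 2) := by positivity
        nlinarith only [mul_le_mul_of_nonneg_left e6 e7, e8, e6, e7]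
      have e9 := mul_le_mul_of_nonneg_left e5 hθ0
      linarith only [hθ, e9]
    have e5 : θ * (u * (t + 2) * 2 ^ t) * P ^ (t + 2) ≤ 1 / 8 * P ^ (t + 2) :=
      mul_le_mul_of_nonneg_right e4 hPt.le
    linarith only [e1, e2, e3, e5]
  have h5 : 0 < M := by linarith
  have h6 : 1 / 2 * M ≤ (1 - 2 * C₁ / m) * M := mul_le_mul_of_nonneg_right (by linarith) h5.le
  linarith only [hM, h1, h4, h6]

theorem NonB_reserve (t : ℕ) {u v n θ c f D Q P : ℝ} (hu : 0 ≤ u) (hv : 0 ≤ v) (hn : 0 ≤ n)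
    (hθ0 : 0 ≤ θ) (hθ : θ * (128 * ((u * (t + 2) + 1) * 3 ^ (t + 2))) ≤ c)
    (hf0 : 0 ≤ f) (hf : v * n ≤ 16 * f) (hD : D ≤ v * (θ * P)) (hP : P ≤ 2 * n) (hQ0 : 0 ≤ Q)
    (hQ : Q ≤ 3 * n) : 2 * u * (t + 2) * Q ^ t * D ≤ c / 2 * n ^ t * f := by
  have h1 : D ≤ 32 * θ * f := by
    have e1 : v * (θ * P) ≤ v * (θ * (2 * n)) :=
      mul_le_mul_of_nonneg_left (mul_le_mul_of_nonneg_left hP hθ0) hv
    have e2 : v * (θ * (2 * n)) = 2 * θ * (v * n) := by ring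
    have e3 : 2 * θ * (v * n) ≤ 2 * θ * (16 * f) := mul_le_mul_of_nonneg_left hf (by positivity)
    linarith
  have h2 : Q ^ t ≤ 3 ^ t * n ^ t := by
    rw [← mul_pow]
    exact pow_le_pow_left₀ hQ0 hQ _
  have k0 : 0 ≤ 2 * u * (t + 2) * Q ^ t := by positivity
  have k1 : 0 ≤ 2 * u * (t + 2) * (32 * θ * f) := by positivity
  have h3 : 2 * u * (t + 2) * Q ^ t * D ≤ 2 * u * (t + 2) * (32 * θ * f) * (3 ^ t * n ^ t) := by
    calc 2 * u * (t + 2) * Q ^ t * D ≤ 2 * u * (t + 2) * Q ^ t * (32 * θ * f) :=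
          mul_le_mul_of_nonneg_left h1 k0
      _ = 2 * u * (t + 2) * (32 * θ * f) * Q ^ t := by ring
      _ ≤ _ := mul_le_mul_of_nonneg_left h2 k1
  have h4 : 2 * u * (t + 2) * (32 * θ * f) * (3 ^ t * n ^ t) =
      θ * (64 * (u * (t + 2) * 3 ^ t)) * (n ^ t * f) := by ring
  have h5 : θ * (64 * (u * (t + 2) * 3 ^ t)) ≤ c / 2 := by
    have e5 : u * (t + 2) * 3 ^ t ≤ (u * (t + 2) + 1) * 3 ^ (t + 2) := by
      have e6 : (3 : ℝ) ^ t ≤ 3 ^ (t + 2) := pow_le_pow_right₀ (by norm_num) (by omega)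
      have e7 : 0 ≤ u * (t + 2) := by positivity
      have e8 : (0 : ℝ) < 3 ^ (t + 2) := by positivity
      nlinarith only [mul_le_mul_of_nonneg_left e6 e7, e8, e6, e7]
    have e9 := mul_le_mul_of_nonneg_left e5 hθ0
    linarith
  have h6 : θ * (64 * (u * (t + 2) * 3 ^ t)) * (n ^ t * f) ≤ c / 2 * (n ^ t * f) :=
    mul_le_mul_of_nonneg_right h5 (by positivity)
  linarith only [h3, h6]

theorem NonB_M (t : ℕ) {R m C₁ M : ℝ} (hm : 0 < m) (hC₁ : 0 ≤ C₁) (hM : M ≤ (R * m) ^ (t + 2)) :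
    M - 2 * C₁ * R ^ (t + 2) * m ^ (t + 1) ≤ (1 - 2 * C₁ / m) * M := by
  have h1 : 2 * C₁ / m * M ≤ 2 * C₁ / m * (R * m) ^ (t + 2) :=
    mul_le_mul_of_nonneg_left hM (by positivity)
  have h2 : 2 * C₁ / m * (R * m) ^ (t + 2) = 2 * C₁ * R ^ (t + 2) * m ^ (t + 1) := by
    rw [mul_pow, pow_succ m (t + 1)]
    field_simp
  linarith only [h1, h2]

theorem NonB_B1 (t : ℕ) {R m n C C₁ c CB K f F M : ℝ} (hR : 0 < R) (hm : 1 ≤ m)
    (hn : R * m / 2 ≤ n) (hC : 0 ≤ C) (hC₁ : 0 ≤ C₁) (hc : 0 < c) (hK : 0 < K) (hCB0 : 0 ≤ CB)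
    (hCB : R * (t + 2) * (2 * R) ^ (t + 1) + C + 2 * C₁ * R ^ (t + 2) ≤
      CB * (c / 4 * (R / 2) ^ t * K))
    (hf : CB * K * m / 2 ≤ f) (hM : M ≤ (R * m) ^ (t + 2))
    (hF : F ≤ M + R * (t + 2) * (2 * (R * m)) ^ (t + 1)) :
    F - c / 2 * n ^ t * f + C ≤ (1 - 2 * C₁ / m) * M := by
  have hm0 : 0 < m := by linarith only [hm]
  have hn0 : 0 ≤ n := le_trans (by positivity) hn
  have h1 := NonB_M t hm0 hC₁ hM
  have h2 : (R * m / 2) ^ t * (CB * K * m / 2) ≤ n ^ t * f :=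
    mul_le_mul (pow_le_pow_left₀ (by positivity) hn t) hf (by positivity) (by positivity)
  have h3 : c / 2 * ((R * m / 2) ^ t * (CB * K * m / 2)) =
      CB * (c / 4 * (R / 2) ^ t * K) * m ^ (t + 1) := by
    rw [show R * m / 2 = R / 2 * m by ring, mul_pow]
    ring
  have h4 : c / 2 * ((R * m / 2) ^ t * (CB * K * m / 2)) ≤ c / 2 * (n ^ t * f) :=
    mul_le_mul_of_nonneg_left h2 (by positivity)
  have hm1 : 1 ≤ m ^ (t + 1) := one_le_pow₀ hm
  have h5 : (R * (t + 2) * (2 * R) ^ (t + 1) + C + 2 * C₁ * R ^ (t + 2)) * m ^ (t + 1) ≤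
      CB * (c / 4 * (R / 2) ^ t * K) * m ^ (t + 1) :=
    mul_le_mul_of_nonneg_right hCB (by positivity)
  have h6 : C ≤ C * m ^ (t + 1) := le_mul_of_one_le_right hC hm1
  have h7 : (2 * (R * m)) ^ (t + 1) = (2 * R) ^ (t + 1) * m ^ (t + 1) := by
    rw [← mul_pow]
    ring
  rw [h7] at hF
  linarith only [hF, h1, h3, h4, h5, h6]

theorem NonB_B2 (t : ℕ) {R m n C C₁ c CB f F M : ℝ} (hR : 0 < R) (hm : 1 ≤ m)
    (hn : R * m / 2 ≤ n) (hC : 0 ≤ C) (hC₁ : 0 ≤ C₁) (hc : 0 < c) (hCB0 : 0 ≤ CB)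
    (hCB : C + 2 * C₁ * R ^ (t + 2) ≤ CB * (R / 8 * ((t + 2) / 2) * (R / 2) ^ (t + 1)))
    (hf : 0 ≤ f) (hM : M ≤ (R * m) ^ (t + 2)) (hX : CB * R / 8 ≤ R * m - n)
    (hF : F + (R * m - n) * ((t + 2) / 2 * n ^ (t + 1)) ≤ M) :
    F - c / 2 * n ^ t * f + C ≤ (1 - 2 * C₁ / m) * M := by
  have hm0 : 0 < m := by linarith only [hm]
  have hn0 : 0 ≤ n := le_trans (by positivity) hn
  have h1 := NonB_M t hm0 hC₁ hM
  have h2 : CB * R / 8 * ((t + 2) / 2 * (R * m / 2) ^ (t + 1)) ≤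
      (R * m - n) * ((t + 2) / 2 * n ^ (t + 1)) :=
    mul_le_mul hX (mul_le_mul_of_nonneg_left (pow_le_pow_left₀ (by positivity) hn _)
      (by positivity)) (by positivity) (le_trans (by positivity) hX)
  have h3 : CB * R / 8 * ((t + 2) / 2 * (R * m / 2) ^ (t + 1)) =
      CB * (R / 8 * ((t + 2) / 2) * (R / 2) ^ (t + 1)) * m ^ (t + 1) := by
    rw [show R * m / 2 = R / 2 * m by ring, mul_pow]
    ring
  have hm1 : 1 ≤ m ^ (t + 1) := one_le_pow₀ hm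
  have h5 : (C + 2 * C₁ * R ^ (t + 2)) * m ^ (t + 1) ≤
      CB * (R / 8 * ((t + 2) / 2) * (R / 2) ^ (t + 1)) * m ^ (t + 1) :=
    mul_le_mul_of_nonneg_right hCB (by positivity)
  have h6 : C ≤ C * m ^ (t + 1) := le_mul_of_one_le_right hC hm1
  have h7 : 0 ≤ c / 2 * n ^ t * f := by positivity
  linarith only [hF, h1, h2, h3, h5, h6, h7]

/-- few edges -/
theorem NonB_def {R m n CB e q K : ℝ} (hR : 2 ≤ R) (hm : 1 ≤ m) (hn : 0 ≤ n) (hCB : 8 ≤ CB)
    (hmCB : CB ≤ m) (hK : K = R * (R - 1) / 2) (he : (1 - 1 / R) * n ^ 2 / 2 - R ≤ e)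
    (hq : q ≤ (1 - CB / m) * (K * m ^ 2)) (hX : R * m - n ≤ CB * R / 8) :
    CB * K * m / 2 ≤ e - q := by
  have hR0 : 0 < R := by linarith only [hR]
  have hm0 : 0 < m := by linarith
  obtain ⟨y, hy⟩ : ∃ y, y = n / R := ⟨_, rfl⟩
  have hyn : n = R * y := by
    rw [hy]
    field_simp
  have hy0 : 0 ≤ y := by
    rw [hy]
    positivity
  have h1 : m - CB / 8 ≤ y := by
    have : R * (m - CB / 8) ≤ R * y := by
      rw [← hyn]
      linarith only [hX]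
    exact le_of_mul_le_mul_left this hR0
  have h2 : (1 - 1 / R) * n ^ 2 / 2 = K * y ^ 2 := by
    rw [hyn, hK]
    field_simp
  have h3 : m ^ 2 - CB * m / 4 ≤ y ^ 2 := by
    have e1 : 0 ≤ m - CB / 8 := by linarith only [hCB, hmCB]
    have e2 : (m - CB / 8) ^ 2 ≤ y ^ 2 := pow_le_pow_left₀ e1 h1 2
    nlinarith only [hCB, e2]
  have hK0 : R / 2 ≤ K := by
    rw [hK]
    nlinarith only [hR]
  have hKp : 0 < K := by linarith only [hR, hK0]
  have h4 : K * (m ^ 2 - CB * m / 4) ≤ K * y ^ 2 := mul_le_mul_of_nonneg_left h3 hKp.le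
  have h5 : (1 - CB / m) * (K * m ^ 2) = K * m ^ 2 - CB * K * m := by
    field_simp
  have h6 : R ≤ CB * K * m / 4 := by
    have e1 : R / 2 * 8 * 1 ≤ K * CB * m := by
      apply mul_le_mul (mul_le_mul hK0 hCB (by norm_num) hKp.le) hm (by norm_num)
      positivity
    nlinarith only [e1]
  rw [h2] at he
  rw [h5] at hq
  linarith only [hq, he, h4, h6]

/-- the deficit and the very heavy vertices -/
theorem NonB_vh {R m n v θ e e' q q' D : ℝ} (hR : 2 ≤ R) (hm : 32 ≤ m) (hn : R * m / 2 ≤ n)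
    (hv : v = 0 ∨ 1 ≤ v) (hvn : v ≤ n) (hθ : θ ≤ 1 / 16)
    (he : (1 - 1 / R) * n ^ 2 / 2 - R ≤ e) (he' : e' ≤ (1 - 1 / R) * (n - v) ^ 2 / 2)
    (hq : q ≤ q' + D) (hq' : q' ≤ e') (hD : D ≤ v * (θ * (R * m))) (h0 : q ≤ e) :
    v * n ≤ 16 * (e - q) := by
  rcases hv with hv | hv
  · rw [hv]
    linarith only [h0]
  · have hR0 : 0 < R := by linarith only [hR]
    have hn0 : 0 < n := by nlinarith only [hvn, hv]
    have h1 : (1 - 1 / R) * n ^ 2 / 2 - (1 - 1 / R) * (n - v) ^ 2 / 2 =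
        (1 - 1 / R) * (v * (2 * n - v)) / 2 := by ring
    have h2 : (1 : ℝ) / 2 ≤ 1 - 1 / R := by
      have : 1 / R ≤ 1 / 2 := one_div_le_one_div_of_le (by norm_num) hR
      linarith only [this]
    have h3 : v * n ≤ v * (2 * n - v) := by nlinarith only [hvn, hv]
    have h4 : 1 / 2 * (v * n) ≤ (1 - 1 / R) * (v * (2 * n - v)) :=
      mul_le_mul h2 h3 (by positivity) (by linarith only [h2])
    have h5 : R ≤ v * n / 16 := by
      have e1 : 16 * R ≤ n := by nlinarith only [hm, hn, hR]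
      nlinarith only [hv, e1, hvn]
    have h6 : D ≤ v * n / 8 := by
      have e1 : θ * (R * m) ≤ 1 / 16 * (R * m) := mul_le_mul_of_nonneg_right hθ (by positivity)
      have e2 : θ * (R * m) ≤ n / 8 := by linarith only [hn, e1]
      have e3 : v * (θ * (R * m)) ≤ v * (n / 8) := mul_le_mul_of_nonneg_left e2 (by linarith only [hv])
      linarith only [hD, e3]
    linarith only [he, he', hq, hq', h4, h5, h6]

section main

variable {ι : Type*} [Fintype ι] [DecidableEq ι] (J : SimpleGraph ι) [DecidableRel J.Adj]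

theorem NonB_lower {R : ℕ} {C : ℝ} (hC : C / R ≤ (Fintype.card ι : ℝ) / 2)
    (h : ∀ n : ℕ, R ≤ n → ((Fintype.card ι : ℝ) - C / R) * (n : ℝ) ^ (Fintype.card ι - 1) ≤
      FT J R (n + 1) - FT J R n) (n : ℕ) (hn : R ≤ n) (d : ℕ) :
    FT J R n + d * ((Fintype.card ι : ℝ) / 2 * (n : ℝ) ^ (Fintype.card ι - 1)) ≤
      FT J R (n + d) := by
  induction d with
  | zero => simp
  | succ d ih =>
    have h1 := h (n + d) (by omega)
    have h2 : (n : ℝ) ^ (Fintype.card ι - 1) ≤ ((n + d : ℕ) : ℝ) ^ (Fintype.card ι - 1) := by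
      apply pow_le_pow_left₀ (by positivity)
      push_cast
      linarith only [(Nat.cast_nonneg d : (0 : ℝ) ≤ d)]
    have h3 : (Fintype.card ι : ℝ) / 2 * (n : ℝ) ^ (Fintype.card ι - 1) ≤
        ((Fintype.card ι : ℝ) - C / R) * ((n + d : ℕ) : ℝ) ^ (Fintype.card ι - 1) := by
      apply mul_le_mul _ h2 (by positivity)
      · have : (0 : ℝ) ≤ (Fintype.card ι : ℝ) := Nat.cast_nonneg _
        linarith
      · linarith
    rw [← Nat.add_assoc]
    push_cast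
    linarith only [ih, h1, h3]

theorem NonB_upper {R : ℕ}
    (h : ∀ n : ℕ, R ≤ n → FT J R (n + 1) - FT J R n ≤
      (Fintype.card ι : ℝ) * (n : ℝ) ^ (Fintype.card ι - 1)) (n : ℕ) (hn : R ≤ n) (d : ℕ) :
    FT J R (n + d) ≤
      FT J R n + d * ((Fintype.card ι : ℝ) * ((n + d : ℕ) : ℝ) ^ (Fintype.card ι - 1)) := by
  induction d with
  | zero => simp
  | succ d ih =>
    have h1 := h (n + d) (by omega)
    have h2 : ((n + d : ℕ) : ℝ) ^ (Fintype.card ι - 1) ≤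
        ((n + (d + 1) : ℕ) : ℝ) ^ (Fintype.card ι - 1) := by
      apply pow_le_pow_left₀ (by positivity)
      push_cast
      linarith
    have h3 : (Fintype.card ι : ℝ) * ((n + d : ℕ) : ℝ) ^ (Fintype.card ι - 1) ≤
        (Fintype.card ι : ℝ) * ((n + (d + 1) : ℕ) : ℝ) ^ (Fintype.card ι - 1) :=
      mul_le_mul_of_nonneg_left h2 (Nat.cast_nonneg _)
    have h4 : (d : ℝ) * ((Fintype.card ι : ℝ) * ((n + d : ℕ) : ℝ) ^ (Fintype.card ι - 1)) ≤
        (d : ℝ) * ((Fintype.card ι : ℝ) * ((n + (d + 1) : ℕ) : ℝ) ^ (Fintype.card ι - 1)) :=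
      mul_le_mul_of_nonneg_left h3 (Nat.cast_nonneg _)
    rw [← Nat.add_assoc]
    rw [← Nat.add_assoc] at h3 h4
    push_cast at *
    linarith

end main

variable {ι : Type*} [Fintype ι] [DecidableEq ι] (J : SimpleGraph ι) [DecidableRel J.Adj]

theorem nonB [Nonempty ι] (hd : ∀ v, 1 ≤ dg J univ v) (u : ℕ) : ∃ θ₀ : ℝ, 0 < θ₀ ∧ ∃ R₀ : ℕ,
    2 ≤ R₀ ∧ ∀ R : ℕ, R₀ ≤ R → ∀ r : ℕ, r ≤ R → ∀ C₁ : ℝ, 0 < C₁ →
    ∃ CB : ℝ, 0 < CB ∧ ∃ m₀ : ℕ, ∀ m : ℕ, m₀ ≤ m → ∀ θ : ℝ, 0 ≤ θ → θ ≤ θ₀ →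
    ∀ (V : Type) [DecidableEq V] (G : SimpleGraph V) [DecidableRel G.Adj] (S : Finset V),
      S.card ≤ R * m + r → clq G S (R + 1) = ∅ → ¬ TyB G S R m CB →
      ((emb J G S).card : ℝ) + 2 * u * Fintype.card ι *
          ((R : ℝ) * m + r) ^ (Fintype.card ι - 2) * ∑ z ∈ vh G S R m θ, (dg G S z : ℝ) ≤
        (1 - 2 * C₁ / m) * M0 J R m := by
  have hcs : 2 ≤ Fintype.card ι := by
    have := two_le_card J (q := 0) (by simpa using hd)
    simpa using this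
  obtain ⟨t, ht⟩ : ∃ t, Fintype.card ι = t + 2 := ⟨Fintype.card ι - 2, by omega⟩
  have hs1 : Fintype.card ι - 1 = t + 1 := by omega
  have hs2 : Fintype.card ι - 2 = t := by omega
  have hsR : (Fintype.card ι : ℝ) = t + 2 := by
    rw [ht]
    push_cast
    ring
  obtain ⟨c, hc, R₁, hR₁, hstab⟩ := stabE J hd
  obtain ⟨C₂, hC₂, hsucc⟩ := FT_succ J hcs
  obtain ⟨C₃, hC₃, hM0⟩ := M0_bounds J
  have hu : (0 : ℝ) ≤ (u : ℝ) := Nat.cast_nonneg _
  have hA : (0 : ℝ) < 8 * (((u : ℝ) * (t + 2) + 1) * 2 ^ (t + 2)) := by positivity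
  have hB : (0 : ℝ) < 128 * (((u : ℝ) * (t + 2) + 1) * 3 ^ (t + 2)) := by positivity
  obtain ⟨R₂, hR₂⟩ := exists_nat_ge C₂
  obtain ⟨R₃, hR₃⟩ := exists_nat_ge (4 * C₃)
  refine ⟨min (1 / 16) (min (1 / (8 * (((u : ℝ) * (t + 2) + 1) * 2 ^ (t + 2))))
    (c / (128 * (((u : ℝ) * (t + 2) + 1) * 3 ^ (t + 2))))), ?_, max 2 (max R₁ (max R₂ R₃)),
    le_max_left _ _, ?_⟩
  · exact lt_min (by norm_num) (lt_min (by positivity) (by positivity))
  intro R hR r hr C₁ hC₁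
  have hR2 : 2 ≤ R := le_trans (le_max_left _ _) hR
  have hR1 : R₁ ≤ R := le_trans (le_trans (le_max_left _ _) (le_max_right _ _)) hR
  have hRR2 : R₂ ≤ R :=
    le_trans (le_trans (le_trans (le_max_left _ _) (le_max_right _ _)) (le_max_right _ _)) hR
  have hRR3 : R₃ ≤ R :=
    le_trans (le_trans (le_trans (le_max_right _ _) (le_max_right _ _)) (le_max_right _ _)) hR
  obtain ⟨C, hC, hst⟩ := hstab R hR1
  have hRr : (2 : ℝ) ≤ (R : ℝ) := by exact_mod_cast hR2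
  have hR0 : (0 : ℝ) < (R : ℝ) := by linarith only [hRr]
  have hK2 : ((R.choose 2 : ℕ) : ℝ) = (R : ℝ) * ((R : ℝ) - 1) / 2 := Nat.cast_choose_two ℝ R
  have hKp : 0 < (R : ℝ) * ((R : ℝ) - 1) / 2 := by
    apply div_pos (mul_pos hR0 (by linarith only [hRr])) (by norm_num)
  obtain ⟨K, hK⟩ : ∃ K : ℝ, K = (R : ℝ) * ((R : ℝ) - 1) / 2 := ⟨_, rfl⟩
  have hK0 : 0 < K := by rw [hK]; exact hKp
  -- the constant `CB`
  obtain ⟨A1, hA1⟩ : ∃ A1 : ℝ, A1 = (R : ℝ) * (t + 2) * (2 * R) ^ (t + 1) + C +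
    2 * C₁ * (R : ℝ) ^ (t + 2) := ⟨_, rfl⟩
  obtain ⟨A2, hA2⟩ : ∃ A2 : ℝ, A2 = C + 2 * C₁ * (R : ℝ) ^ (t + 2) := ⟨_, rfl⟩
  obtain ⟨D1, hD1⟩ : ∃ D1 : ℝ, D1 = c / 4 * ((R : ℝ) / 2) ^ t * K := ⟨_, rfl⟩
  obtain ⟨D2, hD2⟩ : ∃ D2 : ℝ, D2 = (R : ℝ) / 8 * ((t + 2) / 2) * ((R : ℝ) / 2) ^ (t + 1) :=
    ⟨_, rfl⟩
  have hA1p : 0 < A1 := by rw [hA1]; positivity
  have hA2p : 0 < A2 := by rw [hA2]; positivity
  have hD1p : 0 < D1 := by rw [hD1]; positivity
  have hD2p : 0 < D2 := by rw [hD2]; positivity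
  obtain ⟨CB, hCB⟩ : ∃ CB : ℝ, CB = 8 + A1 / D1 + A2 / D2 := ⟨_, rfl⟩
  have hq1 : 0 < A1 / D1 := div_pos hA1p hD1p
  have hq2 : 0 < A2 / D2 := div_pos hA2p hD2p
  have hCB8 : 8 ≤ CB := by rw [hCB]; linarith only [hq1, hq2]
  have hCB1 : A1 ≤ CB * D1 := by
    rw [← div_le_iff₀ hD1p, hCB]
    linarith only [hq2]
  have hCB2 : A2 ≤ CB * D2 := by
    rw [← div_le_iff₀ hD2p, hCB]
    linarith only [hq1]
  obtain ⟨m₁, hm₁⟩ := exists_nat_ge (max CB (4 * C₁))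
  refine ⟨CB, by linarith only [hCB, hq1, hq2], max 32 m₁, ?_⟩
  intro m hm θ hθ0 hθ V _ G _ S hS hfree hTy
  have hm32 : 32 ≤ m := le_trans (le_max_left _ _) hm
  have hmm1 : (m₁ : ℝ) ≤ (m : ℝ) := by exact_mod_cast le_trans (le_max_right _ _) hm
  have hmr : (32 : ℝ) ≤ (m : ℝ) := by exact_mod_cast hm32
  have hm0 : (0 : ℝ) < (m : ℝ) := by linarith only [hmr]
  have hmCB : CB ≤ (m : ℝ) := le_trans (le_max_left _ _) (le_trans hm₁ hmm1)
  have hmC1 : 4 * C₁ ≤ (m : ℝ) := le_trans (le_max_right _ _) (le_trans hm₁ hmm1)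
  have hθ1 : θ ≤ 1 / 16 := le_trans hθ (min_le_left _ _)
  have hθ2 : θ * (8 * (((u : ℝ) * (t + 2) + 1) * 2 ^ (t + 2))) ≤ 1 := by
    have h1 : θ ≤ 1 / (8 * (((u : ℝ) * (t + 2) + 1) * 2 ^ (t + 2))) :=
      le_trans hθ (le_trans (min_le_right _ _) (min_le_left _ _))
    rwa [le_div_iff₀ hA] at h1
  have hθ3 : θ * (128 * (((u : ℝ) * (t + 2) + 1) * 3 ^ (t + 2))) ≤ c := by
    have h1 : θ ≤ c / (128 * (((u : ℝ) * (t + 2) + 1) * 3 ^ (t + 2))) :=
      le_trans hθ (le_trans (min_le_right _ _) (min_le_right _ _))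
    rwa [le_div_iff₀ hB] at h1
  have hvhS : vh G S R m θ ⊆ S := by
    unfold vh
    exact filter_subset _ _
  obtain ⟨v, hv⟩ : ∃ v : ℝ, v = ((vh G S R m θ).card : ℝ) := ⟨_, rfl⟩
  obtain ⟨n, hn⟩ : ∃ n : ℝ, n = (S.card : ℝ) := ⟨_, rfl⟩
  obtain ⟨D, hD⟩ : ∃ D : ℝ, D = ∑ z ∈ vh G S R m θ, (dg G S z : ℝ) := ⟨_, rfl⟩
  have hv0 : 0 ≤ v := by rw [hv]; exact Nat.cast_nonneg _
  have hn0 : 0 ≤ n := by rw [hn]; exact Nat.cast_nonneg _
  have hvn : v ≤ n := by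
    rw [hv, hn]
    exact_mod_cast card_le_card hvhS
  have hDle : D ≤ v * (θ * (R * m)) := by
    rw [hD, hv, ← nsmul_eq_mul]
    refine sum_le_card_nsmul _ _ _ fun z hz => ?_
    unfold vh at hz
    rw [mem_filter] at hz
    have := hz.2
    linarith only [hz]
  have hrR : (r : ℝ) ≤ (R : ℝ) := by exact_mod_cast hr
  have hr0 : (0 : ℝ) ≤ (r : ℝ) := Nat.cast_nonneg _
  have hRm : (R : ℝ) ≤ (R : ℝ) * m := le_mul_of_one_le_right hR0.le (by linarith only [hmr])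
  have hRm32 : (R : ℝ) * 32 ≤ (R : ℝ) * m := mul_le_mul_of_nonneg_left hmr hR0.le
  have hQ0 : 0 ≤ (R : ℝ) * m + r := by positivity
  have hMup : M0 J R m ≤ ((R : ℝ) * m) ^ (t + 2) := by
    have := (hM0 R m (by omega) (by omega)).2
    rwa [ht] at this
  have hMlo : 3 / 4 * ((R : ℝ) * m) ^ (t + 2) ≤ M0 J R m := by
    have h1 := (hM0 R m (by omega) (by omega)).1
    rw [ht] at h1
    have h2 : C₃ / R ≤ 1 / 4 := by
      rw [div_le_iff₀ hR0]
      have : (R₃ : ℝ) ≤ (R : ℝ) := by exact_mod_cast hRR3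
      linarith only [hR₃, this]
    have h3 : 3 / 4 * ((R : ℝ) * m) ^ (t + 2) ≤ (1 - C₃ / R) * ((R : ℝ) * m) ^ (t + 2) :=
      mul_le_mul_of_nonneg_right (by linarith only [h2]) (by positivity)
    linarith only [h1, h3]
  have hC1m : 2 * C₁ / m ≤ 1 / 2 := by
    rw [div_le_iff₀ hm0]
    linarith only [hmC1]
  rw [hs2, ← hD, hsR]
  by_cases hcase : n ≤ (R : ℝ) * m / 2
  · refine NonB_caseA t hu (by positivity) hn0 hcase ?_ ?_ hQ0 (by linarith only [hRr, hrR,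
      hRm32]) hθ0 hθ2 hMlo hC1m
    · have h1 := emb_le_pow J (G := G) S
      rw [ht] at h1
      rw [hn]
      exact_mod_cast h1
    · exact le_trans hDle (mul_le_mul_of_nonneg_right hvn (by positivity))
  · push Not at hcase
    have hturan := NonB_turan (G := G) (by omega : 1 ≤ R) hfree
    have hturan' := NonB_turan (G := G) (by omega : 1 ≤ R)
      (NonB_free (sdiff_subset : S \ vh G S R m θ ⊆ S) hfree)
    have hcard' : (((S \ vh G S R m θ).card : ℕ) : ℝ) = n - v := by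
      rw [card_sdiff_of_subset hvhS, Nat.cast_sub (card_le_card hvhS), hn, hv]
    have hge := e2_bal_ge (by omega : 1 ≤ R) S.card
    have hle := e2_bal_le (by omega : 1 ≤ R) (S \ vh G S R m θ).card
    rw [hcard'] at hle
    rw [← hn] at hge
    have hed : ((clq G S 2).card : ℝ) ≤ ((clq G (S \ vh G S R m θ) 2).card : ℝ) + D := by
      have := NonB_edges (G := G) hvhS
      rw [hD]
      exact_mod_cast this
    have hv01 : v = 0 ∨ 1 ≤ v := by
      rcases Nat.eq_zero_or_pos (vh G S R m θ).card with h0 | h0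
      · left
        rw [hv, h0, Nat.cast_zero]
      · right
        rw [hv]
        exact_mod_cast h0
    have hdefv := NonB_vh hRr hmr hcase.le hv01 hvn hθ1 hge hle hed hturan' hDle hturan
    obtain ⟨f, hf⟩ : ∃ f : ℝ, f = e2 univ (bal R S.card) - ((clq G S 2).card : ℝ) := ⟨_, rfl⟩
    have hf0 : 0 ≤ f := by rw [hf]; linarith only [hturan]
    have hres := NonB_reserve t (Q := (R : ℝ) * m + r) (P := (R : ℝ) * m) hu hv0 hn0 hθ0 hθ3 hf0
      (by rw [hf]; exact hdefv) hDle (by linarith only [hcase]) hQ0 (by linarith only [hRr, hrR,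
          hRm32, hcase])
    have hstS := hst V G S hfree
    rw [hs2, ← hn, ← hf] at hstS
    have hnR : R ≤ S.card := by
      have : (R : ℝ) ≤ (S.card : ℝ) := by
        rw [← hn]
        linarith only [hRr, hRm32, hcase]
      exact_mod_cast this
    have hC2R : C₂ / R ≤ (Fintype.card ι : ℝ) / 2 := by
      rw [div_le_iff₀ hR0, hsR]
      have h1 : (R₂ : ℝ) ≤ (R : ℝ) := by exact_mod_cast hRR2
      have h2 : 0 ≤ (t : ℝ) * R := mul_nonneg (Nat.cast_nonneg _) hR0.le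
      linarith only [hR₂, h1, h2]
    have hlow := NonB_lower J hC2R (fun k hk => (hsucc R k (by omega) hk).1)
    have hupp := NonB_upper J (R := R) (fun k hk => (hsucc R k (by omega) hk).2)
    have hfin : FT J R S.card - c / 2 * n ^ t * f + C ≤ (1 - 2 * C₁ / m) * M0 J R m := by
      by_cases hX : (R : ℝ) * m - n ≤ CB * R / 8
      · refine NonB_B1 t (CB := CB) hR0 (by linarith only [hmr]) hcase.le hC.le hC₁.le hc hK0 (by linarith only [hCB, hq1, hq2])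
          (by rw [← hA1, ← hD1]; exact hCB1) ?_ hMup ?_
        · rw [hf]
          refine NonB_def hRr (by linarith only [hmr]) hn0 hCB8 hmCB hK hge ?_ hX
          unfold TyB at hTy
          rw [not_lt, hK2, ← hK] at hTy
          exact hTy
        · -- `FT n ≤ FT (R m + r) ≤ M0 + ..`
          have h1 := hlow S.card hnR (R * m + r - S.card)
          have h2 : S.card + (R * m + r - S.card) = R * m + r := by omega
          rw [h2] at h1
          have h3 : 0 ≤ ((R * m + r - S.card : ℕ) : ℝ) * ((Fintype.card ι : ℝ) / 2 *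
              (S.card : ℝ) ^ (Fintype.card ι - 1)) :=
            mul_nonneg (Nat.cast_nonneg _) (mul_nonneg (div_nonneg (Nat.cast_nonneg _) (by norm_num))
              (pow_nonneg (Nat.cast_nonneg _) _))
          have h4 := hupp (R * m) (Nat.le_mul_of_pos_right R (by omega)) r
          rw [FT_mul J (by omega), hs1, hsR] at h4
          have h5 : ((R * m + r : ℕ) : ℝ) ^ (t + 1) ≤ (2 * ((R : ℝ) * m)) ^ (t + 1) := by
            apply pow_le_pow_left₀ (Nat.cast_nonneg _)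
            push_cast
            linarith only [hRr, hrR, hRm32]
          have h6 : (r : ℝ) * (((t : ℝ) + 2) * ((R * m + r : ℕ) : ℝ) ^ (t + 1)) ≤
              (R : ℝ) * (((t : ℝ) + 2) * (2 * ((R : ℝ) * m)) ^ (t + 1)) :=
            mul_le_mul hrR (mul_le_mul_of_nonneg_left h5 (by positivity)) (by positivity) hR0.le
          linarith only [h1, h3, h4, h6]
      · push Not at hX
        refine NonB_B2 t (CB := CB) hR0 (by linarith only [hmr]) hcase.le hC.le hC₁.le hc (by linarith only [hCB, hq1, hq2])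
          (by rw [← hA2, ← hD2]; exact hCB2) hf0 hMup hX.le ?_
        have hlt : (S.card : ℝ) < (R : ℝ) * m := by
          rw [← hn]
          have : 0 < CB * R / 8 := by positivity
          linarith only [hX, this]
        have hlt' : S.card ≤ R * m := by
          have : (S.card : ℝ) ≤ ((R * m : ℕ) : ℝ) := by
            push_cast
            exact hlt.le
          exact_mod_cast this
        have h1 := hlow S.card hnR (R * m - S.card)
        have h2 : S.card + (R * m - S.card) = R * m := by omega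
        rw [h2, FT_mul J (by omega), hs1, hsR, Nat.cast_sub hlt', ← hn] at h1
        push_cast at h1
        exact h1
    linarith only [hres, hstS, hfin]

end H57GH
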