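import Pool.Agent.H57.GH.PLoc

/-!
Project GP: cliques of the graph `PG`.
-/

namespace H57GH

open Finset H57LC H57LT

set_option linter.unusedSectionVars false

variable {u v w r m : ℕ} {Θ : Type} [Fintype Θ] [DecidableEq Θ]

private theorem PClq_vw_not {idx : Θ → Fin v → ℕ} {i : Lb w r m} {θ : Θ} (h : ¬ inG idx i θ) (τ : TT u v) : vw idx i θ τ = some τ := by
  unfold vw
  by_cases h1 : i.1.val < v
  · rw [dif_pos h1, if_neg]
    intro h2
    exact h ⟨h1, h2⟩
  · rw [dif_neg h1]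

private theorem PClq_vw_in {idx : Θ → Fin v → ℕ} {i : Lb w r m} {θ : Θ} (h : inG idx i θ) (τ : TT u v) {a : Fin v} (ha : i.1.val = a.val) :
    vw idx i θ τ = sig a τ := by
  obtain ⟨h1, h2⟩ := h
  have e : (⟨i.1.val, h1⟩ : Fin v) = a := Fin.ext ha
  unfold vw
  rw [dif_pos h1, if_pos h2, e]

/-- the positions of the labels -/
private def PClq_pos (v : ℕ) (A : Finset (Lb w r m)) : Finset (Fin v) := (univ : Finset (Fin v)).filter fun a => ∃ i ∈ A, i.1.val = a.val

private theorem PClq_mem_pos {A : Finset (Lb w r m)} {a : Fin v} : a ∈ PClq_pos v A ↔ ∃ i ∈ A, i.1.val = a.val := by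
  unfold PClq_pos
  rw [mem_filter]
  exact ⟨fun h => h.2, fun h => ⟨mem_univ _, h⟩⟩

private theorem PClq_card_pos {A : Finset (Lb w r m)} (hcl : IsCl (LG w r m) A) (hlt : ∀ i ∈ A, i.1.val < v) : (PClq_pos v A).card = A.card := by
  have h1 : (PClq_pos v A).map Fin.valEmbedding = A.image fun i => i.1.val := by
    ext n
    rw [mem_map, mem_image]
    constructor
    · rintro ⟨a, ha, rfl⟩
      obtain ⟨i, hi, hia⟩ := PClq_mem_pos.1 ha
      exact ⟨i, hi, hia⟩
    · rintro ⟨i, hi, rfl⟩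
      exact ⟨⟨i.1.val, hlt i hi⟩, PClq_mem_pos.2 ⟨i, hi, rfl⟩, rfl⟩
  rw [← card_map Fin.valEmbedding, h1, card_image_of_injOn]
  intro i hi j hj hij
  by_contra hne
  exact hcl i hi j hj hne (Fin.ext hij)

/-- the block is determined by `u` of its vertices in different classes -/
theorem blk_uniq (hu : 1 ≤ u) (idx : Θ → Fin v → ℕ) (A : Finset (Lb w r m)) (hA : A.card = u)
    (hcl : IsCl (LG w r m) A) {t t' : Θ → TT u v}
    (h : ∀ i ∈ A, blk idx t i = blk idx t' i) : t = t' := by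
  funext θ
  have hv : ∀ i ∈ A, vw idx i θ (t θ) = vw idx i θ (t' θ) := by
    intro i hi
    have h1 := congrArg (fun x : Lb w r m × (Θ → Option (TT u v)) => x.2 θ) (h i hi)
    exact h1
  by_cases hall : ∀ i ∈ A, inG idx i θ
  · refine sig_uniq hu (PClq_pos v A) ?_ ?_
    · rw [PClq_card_pos hcl fun i hi => (hall i hi).1, hA]
    · intro a ha
      obtain ⟨i, hi, hia⟩ := PClq_mem_pos.1 ha
      have h1 := hv i hi
      rwa [PClq_vw_in (hall i hi) _ hia, PClq_vw_in (hall i hi) _ hia] at h1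
  · push Not at hall
    obtain ⟨i, hi, hn⟩ := hall
    have h1 := hv i hi
    rw [PClq_vw_not hn, PClq_vw_not hn] at h1
    exact Option.some.inj h1

/-- the labels of a clique -/
private theorem PClq_lab {idx : Θ → Fin v → ℕ} {C : Finset (Lb w r m × (Θ → Option (TT u v)))} (hC : IsCl (PG u v w r m idx) C) :
    IsCl (LG w r m) (C.image Prod.fst) ∧ Set.InjOn Prod.fst (C : Set (Lb w r m × (Θ → Option (TT u v)))) ∧
      ∀ x ∈ C, ∀ y ∈ C, x.1.1.val = y.1.1.val → x = y := by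
  have h0 : ∀ x ∈ C, ∀ y ∈ C, x.1.1.val = y.1.1.val → x = y := by
    intro x hx y hy hxy
    by_contra hne
    exact (hC x hx y hy hne).1 (Fin.ext hxy)
  refine ⟨?_, ?_, h0⟩
  · intro a ha b hb hab
    obtain ⟨x, hx, rfl⟩ := mem_image.1 ha
    obtain ⟨y, hy, rfl⟩ := mem_image.1 hb
    have hne : x ≠ y := fun e => hab (by rw [e])
    exact (hC x hx y hy hne).1
  · intro x hx y hy hxy
    exact h0 x hx y hy (by rw [hxy])

private theorem PClq_pair {idx : Θ → Fin v → ℕ} {C : Finset (Lb w r m × (Θ → Option (TT u v)))} (hC : IsCl (PG u v w r m idx) C)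
    (h2 : 2 ≤ C.card) {x y : Lb w r m × (Θ → Option (TT u v))} (hx : x ∈ C) (hy : y ∈ C) :
    ∃ t : Θ → TT u v, (∀ θ, vw idx x.1 θ (t θ) = x.2 θ) ∧ ∀ θ, vw idx y.1 θ (t θ) = y.2 θ := by
  have key : ∀ x ∈ C, ∀ y ∈ C, x ≠ y → ∃ t : Θ → TT u v, (∀ θ, vw idx x.1 θ (t θ) = x.2 θ) ∧ ∀ θ, vw idx y.1 θ (t θ) = y.2 θ := by
    intro x hx y hy hne
    obtain ⟨-, t, h3, h4⟩ := hC x hx y hy hne
    refine ⟨t, fun θ => ?_, fun θ => ?_⟩
    · exact congrArg (fun x : Lb w r m × (Θ → Option (TT u v)) => x.2 θ) h3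
    · exact congrArg (fun x : Lb w r m × (Θ → Option (TT u v)) => x.2 θ) h4
  by_cases hxy : x = y
  · subst hxy
    obtain ⟨z, hz, hne⟩ := exists_mem_ne (by omega : 1 < C.card) x
    obtain ⟨t, h3, -⟩ := key x hx z hz hne.symm
    exact ⟨t, h3, h3⟩
  · exact key x hx y hy hxy

/-- the local analysis at one gadget -/
private theorem PClq_loc (hu : 2 ≤ u) (huv : u ≤ v) (idx : Θ → Fin v → ℕ)
    (C : Finset (Lb w r m × (Θ → Option (TT u v)))) (hC : IsCl (PG u v w r m idx) C)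
    (h2 : 2 ≤ C.card) (θ : Θ) :
    (∃ τ : TT u v, ∀ x ∈ C, vw idx x.1 θ τ = x.2 θ) ∨
      ((∀ x ∈ C, inG idx x.1 θ ∧ x.2 θ = none) ∧ (∃ x ∈ C, x.1.1.val = 0) ∧ u + 1 ≤ C.card) := by
  classical
  obtain ⟨hcl, hinj, hcls⟩ := PClq_lab hC
  by_cases hall : ∀ x ∈ C, inG idx x.1 θ
  · -- all labels in the gadget
    have hlt : ∀ i ∈ C.image Prod.fst, i.1.val < v := by
      intro i hi
      obtain ⟨x, hx, rfl⟩ := mem_image.1 hi
      exact (hall x hx).1
    obtain ⟨g, hg⟩ : ∃ g : Fin v → Option (TT u v), ∀ x ∈ C, ∀ a : Fin v, x.1.1.val = a.val → g a = x.2 θ := by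
      refine ⟨fun a => if h : ∃ y ∈ C, y.1.1.val = a.val then h.choose.2 θ else none, fun x hx a hxa => ?_⟩
      have h : ∃ y ∈ C, y.1.1.val = a.val := ⟨x, hx, hxa⟩
      simp only
      rw [dif_pos h]
      have h3 := h.choose_spec
      rw [hcls _ h3.1 x hx (h3.2.trans hxa.symm)]
    have hpos : ∀ a ∈ PClq_pos v (C.image Prod.fst), ∃ x ∈ C, x.1.1.val = a.val := by
      intro a ha
      obtain ⟨i, hi, hia⟩ := PClq_mem_pos.1 ha
      obtain ⟨x, hx, rfl⟩ := mem_image.1 hi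
      exact ⟨x, hx, hia⟩
    have hpos' : ∀ x ∈ C, ∀ a : Fin v, x.1.1.val = a.val → a ∈ PClq_pos v (C.image Prod.fst) := fun x hx a hxa =>
      PClq_mem_pos.2 ⟨x.1, mem_image_of_mem _ hx, hxa⟩
    rcases sig_common hu huv (PClq_pos v (C.image Prod.fst)) g (by
      intro a ha b hb
      obtain ⟨x, hx, hxa⟩ := hpos a ha
      obtain ⟨y, hy, hyb⟩ := hpos b hb
      obtain ⟨t, h3, h4⟩ := PClq_pair hC h2 hx hy
      refine ⟨t θ, ?_, ?_⟩
      · rw [hg x hx a hxa, ← h3 θ, PClq_vw_in (hall x hx) _ hxa]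
      · rw [hg y hy b hyb, ← h4 θ, PClq_vw_in (hall y hy) _ hyb]) with ⟨τ, hτ⟩ | ⟨h3, ⟨a, ha, ha0⟩, h5⟩
    · left
      refine ⟨τ, fun x hx => ?_⟩
      have h3 : x.1.1.val = (⟨x.1.1.val, (hall x hx).1⟩ : Fin v).val := rfl
      rw [PClq_vw_in (hall x hx) τ h3, hτ _ (hpos' x hx _ h3), hg x hx _ h3]
    · right
      refine ⟨fun x hx => ⟨hall x hx, ?_⟩, ?_, ?_⟩
      · have h6 : x.1.1.val = (⟨x.1.1.val, (hall x hx).1⟩ : Fin v).val := rfl
        rw [← hg x hx _ h6]
        exact h3 _ (hpos' x hx _ h6)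
      · obtain ⟨x, hx, hxa⟩ := hpos a ha
        exact ⟨x, hx, hxa.trans ha0⟩
      · rw [PClq_card_pos hcl hlt, card_image_of_injOn hinj] at h5
        exact h5
  · left
    push Not at hall
    obtain ⟨x₀, hx₀, hn⟩ := hall
    obtain ⟨t, h3, -⟩ := PClq_pair hC h2 hx₀ hx₀
    have h4 := h3 θ
    rw [PClq_vw_not hn] at h4
    refine ⟨t θ, fun y hy => ?_⟩
    obtain ⟨t', h5, h6⟩ := PClq_pair hC h2 hx₀ hy
    have h7 := h5 θ
    rw [PClq_vw_not hn, ← h4] at h7
    rw [← h6 θ, Option.some.inj h7]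

/-- a clique lies in a block or consists of common vertices of one gadget -/
theorem clq_cases (hu : 2 ≤ u) (huv : u ≤ v) (idx : Θ → Fin v → ℕ) (hidx : Mds u idx)
    (C : Finset (Lb w r m × (Θ → Option (TT u v)))) (hC : IsCl (PG u v w r m idx) C)
    (h2 : 2 ≤ C.card) :
    (∃ t : Θ → TT u v, ∀ x ∈ C, blk idx t x.1 = x) ∨
      ∃ θ : Θ, ∃ t : Θ → TT u v, u + 1 ≤ C.card ∧ (∃ x ∈ C, x.1.1.val = 0) ∧
        ∀ x ∈ C, inG idx x.1 θ ∧ x.2 θ = none ∧ ∀ θ' ≠ θ, x.2 θ' = vw idx x.1 θ' (t θ') := by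
  classical
  obtain ⟨hcl, hinj, hcls⟩ := PClq_lab hC
  by_cases hall : ∀ θ : Θ, ∃ τ : TT u v, ∀ x ∈ C, vw idx x.1 θ τ = x.2 θ
  · left
    choose t ht using hall
    exact ⟨t, fun x hx => Prod.ext rfl (funext fun θ => ht θ x hx)⟩
  · right
    push Not at hall
    obtain ⟨θ, hθ⟩ := hall
    have hnθ : ¬ ∃ τ : TT u v, ∀ x ∈ C, vw idx x.1 θ τ = x.2 θ := by
      rintro ⟨τ, hτ⟩
      obtain ⟨x, hx, hne⟩ := hθ τ
      exact hne (hτ x hx)
    obtain ⟨h3, h4, h5⟩ := (PClq_loc hu huv idx C hC h2 θ).resolve_left hnθ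
    have hex : ∀ θ' : Θ, ∃ τ : TT u v, θ' ≠ θ → ∀ x ∈ C, vw idx x.1 θ' τ = x.2 θ' := by
      intro θ'
      by_cases hne : θ' = θ
      · exact ⟨none, fun h => absurd hne h⟩
      · rcases PClq_loc hu huv idx C hC h2 θ' with ⟨τ, hτ⟩ | ⟨h6, -, -⟩
        · exact ⟨τ, fun _ => hτ⟩
        · exfalso
          have hlt : ∀ i ∈ C.image Prod.fst, i.1.val < v := by
            intro i hi
            obtain ⟨x, hx, rfl⟩ := mem_image.1 hi
            exact (h3 x hx).1.1
          have h7 : PClq_pos v (C.image Prod.fst) ⊆ (univ : Finset (Fin v)).filter fun a => idx θ a = idx θ' a := by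
            intro a ha
            obtain ⟨i, hi, hia⟩ := PClq_mem_pos.1 ha
            obtain ⟨x, hx, rfl⟩ := mem_image.1 hi
            obtain ⟨h8, h9⟩ := (h3 x hx).1
            obtain ⟨h10, h11⟩ := (h6 x hx).1
            have e : (⟨x.1.1.val, h8⟩ : Fin v) = a := Fin.ext hia
            rw [mem_filter]
            refine ⟨mem_univ _, ?_⟩
            rw [← e, h9, h11]
          have h8 := card_le_card h7
          rw [PClq_card_pos hcl hlt, card_image_of_injOn hinj] at h8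
          have h9 := hidx θ θ' (Ne.symm hne)
          omega
    choose t ht using hex
    exact ⟨θ, t, h5, h4, fun x hx => ⟨(h3 x hx).1, (h3 x hx).2, fun θ' hne => (ht θ' hne x hx).symm⟩⟩

/-- the `u`-cliques of `PG` are the `u`-cliques of the blocks -/
theorem clq_u (hu : 2 ≤ u) (huv : u ≤ v) (idx : Θ → Fin v → ℕ) (hidx : Mds u idx) :
    clq (PG u v w r m idx) univ u =
      ((univ : Finset (Θ → TT u v)) ×ˢ clq (LG w r m) univ u).image
        (fun p => p.2.image (blk idx p.1)) := by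
  classical
  ext C
  rw [mem_image]
  constructor
  · intro h
    unfold clq at h
    rw [mem_filter, mem_powersetCard] at h
    obtain ⟨⟨-, hcard⟩, hC⟩ := h
    obtain ⟨hcl, hinj, hcls⟩ := PClq_lab hC
    rcases clq_cases hu huv idx hidx C hC (by omega) with ⟨t, ht⟩ | ⟨θ, t, h3, -⟩
    · refine ⟨(t, C.image Prod.fst), ?_, ?_⟩
      · rw [mem_product]
        refine ⟨mem_univ _, ?_⟩
        unfold clq
        rw [mem_filter, mem_powersetCard]
        exact ⟨⟨subset_univ _, by rw [card_image_of_injOn hinj, hcard]⟩, hcl⟩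
      · simp only
        ext x
        rw [mem_image]
        constructor
        · rintro ⟨i, hi, rfl⟩
          obtain ⟨y, hy, rfl⟩ := mem_image.1 hi
          rw [ht y hy]
          exact hy
        · intro hx
          exact ⟨x.1, mem_image_of_mem _ hx, ht x hx⟩
    · omega
  · rintro ⟨⟨t, A⟩, hp, rfl⟩
    rw [mem_product] at hp
    have hA := hp.2
    simp only at hA
    unfold clq at hA
    rw [mem_filter, mem_powersetCard] at hA
    obtain ⟨⟨-, hcard⟩, hcl⟩ := hA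
    unfold clq
    rw [mem_filter, mem_powersetCard]
    refine ⟨⟨subset_univ _, ?_⟩, ?_⟩
    · simp only
      rw [card_image_of_injOn, hcard]
      intro i _ j _ hij
      exact congrArg (fun x : Lb w r m × (Θ → Option (TT u v)) => x.1) hij
    · intro x hx y hy hne
      obtain ⟨i, hi, rfl⟩ := mem_image.1 hx
      obtain ⟨j, hj, rfl⟩ := mem_image.1 hy
      have hij : i ≠ j := fun e => hne (by rw [e])
      exact ⟨hcl i hi j hj hij, t, rfl, rfl⟩

/-- different pairs (block, clique of labels) give different cliques -/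
theorem clq_u_inj (hu : 2 ≤ u) (idx : Θ → Fin v → ℕ) :
    Set.InjOn (fun p : (Θ → TT u v) × Finset (Lb w r m) => p.2.image (blk idx p.1))
      (((univ : Finset (Θ → TT u v)) ×ˢ clq (LG w r m) univ u : Finset _) : Set _) := by
  rintro ⟨t, A⟩ hp ⟨t', A'⟩ - heq
  simp only at heq
  rw [mem_coe, mem_product] at hp
  have hA := hp.2
  simp only at hA
  unfold clq at hA
  rw [mem_filter, mem_powersetCard] at hA
  obtain ⟨⟨-, hcard⟩, hcl⟩ := hA
  have hfst : ∀ (t : Θ → TT u v) (B : Finset (Lb w r m)), (B.image (blk idx t)).image Prod.fst = B := by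
    intro t B
    rw [image_image]
    exact image_id'
  have hAA : A = A' := by
    rw [← hfst t A, ← hfst t' A', heq]
  subst hAA
  have h1 : t = t' := by
    refine blk_uniq (by omega) idx A hcard hcl fun i hi => ?_
    have h2 : blk idx t i ∈ A.image (blk idx t') := by
      rw [← heq]
      exact mem_image_of_mem _ hi
    obtain ⟨j, hj, hji⟩ := mem_image.1 h2
    have h3 : j = i := congrArg (fun x : Lb w r m × (Θ → Option (TT u v)) => x.1) hji
    rw [← hji, h3]
  rw [h1]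

/-- no large cliques -/
theorem clq_top (idx : Θ → Fin v → ℕ) : clq (PG u v w r m idx) univ (w + 1) = ∅ := by
  rw [eq_empty_iff_forall_notMem]
  intro C h
  unfold clq at h
  rw [mem_filter, mem_powersetCard] at h
  obtain ⟨⟨-, hcard⟩, hC⟩ := h
  obtain ⟨hcl, hinj, hcls⟩ := PClq_lab hC
  have h1 : (C.image fun x => x.1.1).card = C.card := by
    rw [card_image_of_injOn]
    intro x hx y hy hxy
    exact hcls x hx y hy (congrArg Fin.val hxy)
  have h2 := card_le_univ (C.image fun x => x.1.1)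
  rw [h1, hcard, Fintype.card_fin] at h2
  omega

end H57GH
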