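import Pool.Agent.H57.GH.NegA
import Pool.Agent.H57.GH.CopyE

/-!
Project GP (the order of `P_u - ρ_u(H, L)` when the minimum degree of `H` is less than `2u`):
definitions.  Paper proof: /team-store/h57_GP_README.txt.
-/

namespace H57GH

open Finset H57LC H57LT

set_option linter.unusedSectionVars false

/-- the local types of the blocks at a gadget: `none` is the block of the gadget clique without
its vertex `0`, `some P` is the block containing `P` and the vertex `0` -/
abbrev TT (u v : ℕ) := Option {P : Finset (Fin v) // P.card = u - 1 ∧ ∀ a ∈ P, a.val ≠ 0}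

/-- what the position `a` of the gadget sees of the local type: `none` is the common vertex -/
def sig {u v : ℕ} (a : Fin v) (τ : TT u v) : Option (TT u v) :=
  match τ with
  | none => if a.val = 0 then some none else none
  | some P => if a.val = 0 then none else if a ∈ P.1 then none else some (some P)

/-- the labels: the vertices of the Turan graph with `w` classes, `r` of them of size `m + 1` -/
abbrev Lb (w r m : ℕ) := Σ k : Fin w, Fin (xg w r m k)

instance decPV {u v w r m : ℕ} {Θ : Type} [Fintype Θ] [DecidableEq Θ] :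
    DecidableEq (Lb w r m × (Θ → Option (TT u v))) := fun a b =>
  decidable_of_iff (a.1 = b.1 ∧ a.2 = b.2) Prod.ext_iff.symm

/-- the complete multipartite graph on the labels -/
def LG (w r m : ℕ) : SimpleGraph (Lb w r m) where
  Adj i j := i.1 ≠ j.1
  symm := ⟨fun _ _ h => h.symm⟩
  loopless := ⟨fun _ h => h rfl⟩

instance decLG (w r m : ℕ) : DecidableRel (LG w r m).Adj := fun i j => by
  unfold LG
  infer_instance

/-- `i` is the label of some position of the gadget `θ` -/
def inG {v w r m : ℕ} {Θ : Type} (idx : Θ → Fin v → ℕ) (i : Lb w r m) (θ : Θ) : Prop :=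
  ∃ h : i.1.val < v, idx θ ⟨i.1.val, h⟩ = i.2.val

/-- what the label `i` sees of the local type `τ` at the gadget `θ` -/
def vw {u v w r m : ℕ} {Θ : Type} (idx : Θ → Fin v → ℕ) (i : Lb w r m) (θ : Θ) (τ : TT u v) :
    Option (TT u v) :=
  if h : i.1.val < v then
    (if idx θ ⟨i.1.val, h⟩ = i.2.val then sig ⟨i.1.val, h⟩ τ else some τ)
  else some τ

/-- the vertex of the block `t` with the label `i` -/
def blk {u v w r m : ℕ} {Θ : Type} (idx : Θ → Fin v → ℕ) (t : Θ → TT u v) (i : Lb w r m) :
    Lb w r m × (Θ → Option (TT u v)) := (i, fun θ => vw idx i θ (t θ))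

/-- the graph: two vertices are adjacent if they lie in a common block and their labels are
adjacent -/
def PG (u v w r m : ℕ) {Θ : Type} (idx : Θ → Fin v → ℕ) :
    SimpleGraph (Lb w r m × (Θ → Option (TT u v))) where
  Adj x y := x.1.1 ≠ y.1.1 ∧ ∃ t : Θ → TT u v, blk idx t x.1 = x ∧ blk idx t y.1 = y
  symm := ⟨fun _ _ h => ⟨h.1.symm, by
    obtain ⟨t, h1, h2⟩ := h.2
    exact ⟨t, h2, h1⟩⟩⟩
  loopless := ⟨fun _ h => h.1 rfl⟩

noncomputable instance decPG (u v w r m : ℕ) {Θ : Type} (idx : Θ → Fin v → ℕ) :
    DecidableRel (PG u v w r m idx).Adj := fun _ _ => Classical.propDecidable _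

/-- two gadgets have less than `u` common labels -/
def Mds {v : ℕ} (u : ℕ) {Θ : Type} (idx : Θ → Fin v → ℕ) : Prop :=
  ∀ θ θ', θ ≠ θ' → ((univ : Finset (Fin v)).filter fun a => idx θ a = idx θ' a).card < u

end H57GH
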