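import Pool.Agent.H57.GH.PClq

/-!
Project GP: copies of `J` in the common neighbourhoods of the `u`-cliques of the graph `PG`.
-/

namespace H57GH

open Finset H57LC H57LT

set_option linter.unusedSectionVars false

/-- the labels of the positions `≥ 1` of the gadget `θ` -/
noncomputable def Qg {v : ℕ} (w r m : ℕ) {Θ : Type} (idx : Θ → Fin v → ℕ) (θ : Θ) : Finset (Lb w r m) := by
  classical
  exact univ.filter fun i => 1 ≤ i.1.val ∧ inG idx i θ

private theorem PExt_mem {v w r m : ℕ} {Θ : Type} {idx : Θ → Fin v → ℕ} {θ : Θ} {i : Lb w r m} :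
    i ∈ Qg w r m idx θ ↔ 1 ≤ i.1.val ∧ inG idx i θ := by
  unfold Qg
  simp only [mem_filter, mem_univ, true_and]

private theorem PExt_inG_eq {v w r m : ℕ} {Θ : Type} {idx : Θ → Fin v → ℕ} {θ : Θ} {i j : Lb w r m}
    (hi : inG idx i θ) (hj : inG idx j θ) (h : i.1.val = j.1.val) : i = j := by
  obtain ⟨k, a⟩ := i
  obtain ⟨l, b⟩ := j
  have hkl : k = l := Fin.ext h
  subst hkl
  obtain ⟨h1, h2⟩ := hi
  obtain ⟨h3, h4⟩ := hj
  have hab : a = b := Fin.ext (h2.symm.trans h4)
  rw [hab]

private def PExt_lab {v w r m : ℕ} (hvw : v ≤ w) {Θ : Type} (idx : Θ → Fin v → ℕ)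
    (hm : ∀ θ a, idx θ a < m) (θ : Θ) (a : Fin v) : Lb w r m :=
  ⟨⟨a.val, lt_of_lt_of_le a.2 hvw⟩, ⟨idx θ a, lt_of_lt_of_le (hm θ a) (Nat.le_add_right _ _)⟩⟩

private theorem PExt_lab_inG {v w r m : ℕ} (hvw : v ≤ w) {Θ : Type} (idx : Θ → Fin v → ℕ)
    (hm : ∀ θ a, idx θ a < m) (θ : Θ) (a : Fin v) :
    inG idx (PExt_lab (r := r) hvw idx hm θ a) θ := ⟨a.2, rfl⟩

/-- number of labels of the positions `≥ 1` -/
theorem card_Qg {v w r m : ℕ} (hvw : v ≤ w) {Θ : Type} (idx : Θ → Fin v → ℕ)
    (hm : ∀ θ a, idx θ a < m) (θ : Θ) : (Qg w r m idx θ).card = v - 1 := by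
  classical
  have h1 : Qg w r m idx θ =
      ((univ : Finset (Fin v)).filter fun a => 1 ≤ a.val).image (PExt_lab hvw idx hm θ) := by
    ext i
    rw [PExt_mem, mem_image]
    constructor
    · rintro ⟨h0, h1, h2⟩
      refine ⟨⟨i.1.val, h1⟩, mem_filter.2 ⟨mem_univ _, h0⟩, ?_⟩
      exact PExt_inG_eq (PExt_lab_inG hvw idx hm θ _) ⟨h1, h2⟩ rfl
    · rintro ⟨a, ha, rfl⟩
      exact ⟨(mem_filter.1 ha).2, PExt_lab_inG hvw idx hm θ a⟩
  have h2 : (((univ : Finset (Fin v)).filter fun a => 1 ≤ a.val).map Fin.valEmbedding) =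
      Finset.Ico 1 v := by
    ext n
    rw [mem_map, mem_Ico]
    constructor
    · rintro ⟨a, ha, rfl⟩
      exact ⟨(mem_filter.1 ha).2, a.2⟩
    · rintro ⟨h3, h4⟩
      exact ⟨⟨n, h4⟩, mem_filter.2 ⟨mem_univ _, h3⟩, rfl⟩
  rw [h1, card_image_of_injective]
  · rw [← card_map Fin.valEmbedding, h2, Nat.card_Ico]
  · intro a b hab
    have h3 : (PExt_lab (r := r) hvw idx hm θ a).1.val = (PExt_lab (r := r) hvw idx hm θ b).1.val := by
      rw [hab]
    exact Fin.ext h3

private theorem PExt_vw_not {u v w r m : ℕ} {Θ : Type} {idx : Θ → Fin v → ℕ} {i : Lb w r m} {θ : Θ}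
    (h : ¬ inG idx i θ) (τ : TT u v) : vw idx i θ τ = some τ := by
  unfold vw
  by_cases h1 : i.1.val < v
  · rw [dif_pos h1, if_neg]
    intro h2
    exact h ⟨h1, h2⟩
  · rw [dif_neg h1]

private theorem PExt_vw_in {u v w r m : ℕ} {Θ : Type} {idx : Θ → Fin v → ℕ} {i : Lb w r m} {θ : Θ}
    (h : inG idx i θ) (τ : TT u v) {a : Fin v} (ha : i.1.val = a.val) :
    vw idx i θ τ = sig a τ := by
  obtain ⟨h1, h2⟩ := h
  have e : (⟨i.1.val, h1⟩ : Fin v) = a := Fin.ext ha
  unfold vw
  rw [dif_pos h1, if_pos h2, e]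

variable {ι : Type} [Fintype ι] [DecidableEq ι] (J : SimpleGraph ι) [DecidableRel J.Adj]

private theorem PExt_exP {u v : ℕ} (hu : 2 ≤ u) (huv : u ≤ v) (a : Fin v) (ha : a.val ≠ 0) :
    ∃ P : {P : Finset (Fin v) // P.card = u - 1 ∧ ∀ a ∈ P, a.val ≠ 0}, a ∈ P.1 := by
  classical
  have h1 : ({a} : Finset (Fin v)) ⊆ (univ : Finset (Fin v)).filter fun b => b.val ≠ 0 := by
    intro b hb
    rw [mem_singleton] at hb
    subst hb
    exact mem_filter.2 ⟨mem_univ _, ha⟩
  have h2 : (((univ : Finset (Fin v)).filter fun b => b.val ≠ 0).map Fin.valEmbedding) =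
      Finset.Ico 1 v := by
    ext n
    rw [mem_map, mem_Ico]
    constructor
    · rintro ⟨b, hb, rfl⟩
      exact ⟨Nat.one_le_iff_ne_zero.2 (mem_filter.1 hb).2, b.2⟩
    · rintro ⟨h3, h4⟩
      exact ⟨⟨n, h4⟩, mem_filter.2 ⟨mem_univ _, Nat.one_le_iff_ne_zero.1 h3⟩, rfl⟩
  have h3 : ((univ : Finset (Fin v)).filter fun b => b.val ≠ 0).card = v - 1 := by
    rw [← card_map Fin.valEmbedding, h2, Nat.card_Ico]
  obtain ⟨P, hP1, hP2, hP3⟩ := Finset.exists_subsuperset_card_eq (n := u - 1) h1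
    (by rw [card_singleton]; omega) (by rw [h3]; omega)
  exact ⟨⟨P, hP3, fun b hb => (mem_filter.1 (hP2 hb)).2⟩, hP1 (mem_singleton_self a)⟩

/-- copies of `J` inside the common neighbourhood of a `u`-clique of the block `t`: those inside
the block, and at least `m ^ (s - 1 - d)` more if the clique is in the gadget `θ` and `t θ` is
`none` -/
theorem PG_copies {u d w r m : ℕ} (hu : 2 ≤ u) (hd : d + 1 ≤ u) (v₀ : ι)
    (hv₀ : dg J univ v₀ = d) (hw : u + d + 1 + Fintype.card ι ≤ w)
    {Θ : Type} [Fintype Θ] [DecidableEq Θ] (idx : Θ → Fin (u + d + 1) → ℕ) (hidx : Mds u idx)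
    (hm : ∀ θ a, idx θ a < m) (t : Θ → TT u (u + d + 1)) (A : Finset (Lb w r m))
    (hA : A ∈ clq (LG w r m) univ u) :
    (emb J (LG w r m) (cn (LG w r m) A)).card +
        (if ∃ θ, t θ = none ∧ A ⊆ Qg w r m idx θ then m ^ (Fintype.card ι - 1 - d) else 0) ≤
      (emb J (PG u (u + d + 1) w r m idx)
        (cn (PG u (u + d + 1) w r m idx) (A.image (blk idx t)))).card := by
  classical
  have hA' := hA
  unfold clq at hA'
  rw [mem_filter, mem_powersetCard] at hA'
  obtain ⟨⟨-, hAc⟩, hAcl⟩ := hA'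
  have hadj : ∀ i j : Lb w r m, i.1 ≠ j.1 →
      (PG u (u + d + 1) w r m idx).Adj (blk idx t i) (blk idx t j) := fun i j h => ⟨h, t, rfl, rfl⟩
  have hinj : Function.Injective (blk (r := r) (w := w) (m := m) idx t) := fun i j h =>
    congrArg Prod.fst h
  -- copies in the block
  have hE1 : ∀ φ ∈ emb J (LG w r m) (cn (LG w r m) A), (fun j => blk idx t (φ j)) ∈
      emb J (PG u (u + d + 1) w r m idx)
        (cn (PG u (u + d + 1) w r m idx) (A.image (blk idx t))) := by
    intro φ hφ
    unfold emb at hφ ⊢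
    rw [mem_filter, Fintype.mem_piFinset] at hφ ⊢
    obtain ⟨h1, h2, h3⟩ := hφ
    refine ⟨fun j => ?_, hinj.comp h2, fun i j hij => hadj _ _ (h3 i j hij)⟩
    unfold cn
    rw [mem_filter]
    refine ⟨mem_univ _, fun y hy => ?_⟩
    obtain ⟨a, ha, rfl⟩ := mem_image.1 hy
    have h4 := h1 j
    unfold cn at h4
    rw [mem_filter] at h4
    exact hadj _ _ (h4.2 a ha)
  have hI1 : Set.InjOn (fun (φ : ι → Lb w r m) => fun j => blk idx t (φ j))
      (emb J (LG w r m) (cn (LG w r m) A) : Set (ι → Lb w r m)) := by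
    intro φ _ ψ _ h
    funext j
    exact hinj (congrFun h j)
  split_ifs with hex
  · obtain ⟨θ, htθ, hAθ⟩ := hex
    have hvw : u + d + 1 ≤ w := by omega
    -- the extra vertex
    obtain ⟨l0, hl0⟩ : ∃ l0 : Lb w r m, l0 = PExt_lab hvw idx hm θ ⟨0, by omega⟩ := ⟨_, rfl⟩
    have hl0v : l0.1.val = 0 := by rw [hl0]; rfl
    have hl0G : inG idx l0 θ := by rw [hl0]; exact PExt_lab_inG hvw idx hm θ _
    obtain ⟨z, hz⟩ : ∃ z : Lb w r m × (Θ → Option (TT u (u + d + 1))), z = (l0, fun θ' =>
      if θ' = θ then none else vw idx l0 θ' (t θ')) := ⟨_, rfl⟩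
    have hz1 : z.1 = l0 := by rw [hz]
    have hzadj : ∀ i ∈ Qg w r m idx θ, (PG u (u + d + 1) w r m idx).Adj z (blk idx t i) := by
      intro i hi
      obtain ⟨hi1, hi2⟩ := PExt_mem.1 hi
      have hi3 : i.1.val < u + d + 1 := hi2.1
      obtain ⟨P, hP⟩ := PExt_exP (u := u) hu (by omega : u ≤ u + d + 1) ⟨i.1.val, hi3⟩
        (by simp only; omega)
      refine ⟨?_, Function.update t θ (some P), ?_, ?_⟩
      · rw [hz1]
        intro h
        have h2 := congrArg Fin.val h
        change l0.1.val = i.1.val at h2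
        omega
      · rw [hz1, hz]
        refine Prod.ext rfl (funext fun θ' => ?_)
        change vw idx l0 θ' (Function.update t θ (some P) θ') = if θ' = θ then none else vw idx l0 θ' (t θ')
        by_cases h : θ' = θ
        · subst h
          rw [Function.update_self, if_pos rfl, PExt_vw_in hl0G _ (a := ⟨0, by omega⟩) hl0v]
          simp [sig]
        · rw [Function.update_of_ne h, if_neg h]
      · refine Prod.ext rfl (funext fun θ' => ?_)
        change vw idx i θ' (Function.update t θ (some P) θ') = vw idx i θ' (t θ')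
        by_cases h : θ' = θ
        · subst h
          have hne : ((⟨i.1.val, hi3⟩ : Fin (u + d + 1)).val) ≠ 0 := by simp only; omega
          rw [Function.update_self, htθ, PExt_vw_in hi2 _ (a := ⟨i.1.val, hi3⟩) rfl,
            PExt_vw_in hi2 _ (a := ⟨i.1.val, hi3⟩) rfl]
          simp only [sig]
          rw [if_neg hne, if_pos hP, if_neg hne]
        · rw [Function.update_of_ne h]
    have hznb : ∀ i : Lb w r m, blk idx t i ≠ z := by
      intro i h
      have h1 : i = l0 := by
        have h2 := congrArg Prod.fst h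
        rw [hz1] at h2
        exact h2
      subst h1
      have h2 := congrFun (congrArg Prod.snd h) θ
      rw [hz] at h2
      change vw idx i θ (t θ) = if θ = θ then none else vw idx i θ (t θ) at h2
      rw [if_pos rfl, htθ, PExt_vw_in hl0G _ (a := ⟨0, by omega⟩) hl0v] at h2
      simp [sig] at h2
    -- the neighbours of `v₀`
    have hcard : (univ.filter fun y => J.Adj v₀ y).card ≤ ((Qg w r m idx θ) \ A).card := by
      rw [card_sdiff_of_subset hAθ, card_Qg hvw idx hm θ, hAc]
      unfold dg at hv₀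
      omega
    obtain ⟨e1, he1, he1i⟩ : ∃ e1 : ι → Lb w r m, (∀ y, J.Adj v₀ y → e1 y ∈ (Qg w r m idx θ) \ A) ∧
        ∀ y y', J.Adj v₀ y → J.Adj v₀ y' → e1 y = e1 y' → y = y' := by
      have hn : Nonempty ({y // J.Adj v₀ y} ↪ ((Qg w r m idx θ \ A : Finset (Lb w r m)) : Type)) :=
        Function.Embedding.nonempty_of_card_le (by
          rw [Fintype.card_coe, Fintype.card_subtype]
          exact hcard)
      obtain ⟨f⟩ := hn
      refine ⟨fun y => if h : J.Adj v₀ y then (f ⟨y, h⟩).1 else l0, fun y hy => ?_,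
        fun y y' hy hy' h => ?_⟩
      · simp only
        rw [dif_pos hy]
        exact (f ⟨y, hy⟩).2
      · simp only at h
        rw [dif_pos hy, dif_pos hy'] at h
        exact congrArg Subtype.val (f.injective (Subtype.ext h))
    have he1Q : ∀ y, J.Adj v₀ y → e1 y ∈ Qg w r m idx θ := fun y hy => (mem_sdiff.1 (he1 y hy)).1
    have he1A : ∀ y, J.Adj v₀ y → e1 y ∉ A := fun y hy => (mem_sdiff.1 (he1 y hy)).2
    -- the far labels
    let e := Fintype.equivFin ι
    let far : ι → Fin m → Lb w r m := fun y g =>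
      ⟨⟨u + d + 1 + (e y).val, by have := (e y).2; omega⟩,
        ⟨g.val, lt_of_lt_of_le g.2 (Nat.le_add_right _ _)⟩⟩
    have hfarv : ∀ y g, (far y g).1.val = u + d + 1 + (e y).val := fun y g => rfl
    let Φ : ({y : ι // y ≠ v₀ ∧ ¬ J.Adj v₀ y} → Fin m) → ι → Lb w r m × (Θ → Option (TT u (u + d + 1))) :=
      fun g y => if h0 : y = v₀ then z else if h1 : J.Adj v₀ y then blk idx t (e1 y) else
        blk idx t (far y (g ⟨y, h0, h1⟩))
    have hΦ0 : ∀ g, Φ g v₀ = z := fun g => by
      change (if h0 : v₀ = v₀ then z else _) = z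
      rw [dif_pos rfl]
    have hΦ1 : ∀ g y, J.Adj v₀ y → Φ g y = blk idx t (e1 y) := fun g y hy => by
      have h0 : ¬ y = v₀ := fun h => J.loopless.irrefl v₀ (by rw [h] at hy; exact hy)
      change (if h0 : y = v₀ then z else if h1 : J.Adj v₀ y then blk idx t (e1 y) else
        blk idx t (far y (g ⟨y, h0, h1⟩))) = _
      rw [dif_neg h0, dif_pos hy]
    have hΦ2 : ∀ g y (h0 : y ≠ v₀) (h1 : ¬ J.Adj v₀ y), Φ g y = blk idx t (far y (g ⟨y, h0, h1⟩)) :=
      fun g y h0 h1 => by
      change (if h0 : y = v₀ then z else if h1 : J.Adj v₀ y then blk idx t (e1 y) else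
        blk idx t (far y (g ⟨y, h0, h1⟩))) = _
      rw [dif_neg h0, dif_neg h1]
    -- the three cases
    have h3 : ∀ g y, (y = v₀ ∧ Φ g y = z) ∨ (J.Adj v₀ y ∧ Φ g y = blk idx t (e1 y)) ∨
        (∃ k, Φ g y = blk idx t (far y k)) := by
      intro g y
      by_cases h0 : y = v₀
      · left
        subst h0
        exact ⟨rfl, hΦ0 g⟩
      · by_cases h1 : J.Adj v₀ y
        · right
          left
          exact ⟨h1, hΦ1 g y h1⟩
        · right
          right
          exact ⟨_, hΦ2 g y h0 h1⟩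
    have hQ1 : ∀ i ∈ Qg w r m idx θ, 1 ≤ i.1.val ∧ i.1.val < u + d + 1 := fun i hi =>
      ⟨(PExt_mem.1 hi).1, (PExt_mem.1 hi).2.1⟩
    -- the classes are different
    have hcinj : ∀ g y y', (Φ g y).1.1.val = (Φ g y').1.1.val → y = y' := by
      intro g y y' h
      rcases h3 g y with ⟨ha, hb⟩ | ⟨ha, hb⟩ | ⟨k, hb⟩ <;>
        rcases h3 g y' with ⟨ha', hb'⟩ | ⟨ha', hb'⟩ | ⟨k', hb'⟩ <;> rw [hb, hb'] at h
      · rw [ha, ha']
      · exfalso
        have h5 := hQ1 _ (he1Q _ ha')
        rw [hz1] at h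
        change l0.1.val = (e1 y').1.val at h
        omega
      · exfalso
        rw [hz1] at h
        change l0.1.val = (far y' k').1.val at h
        rw [hfarv] at h
        omega
      · exfalso
        have h5 := hQ1 _ (he1Q _ ha)
        rw [hz1] at h
        change (e1 y).1.val = l0.1.val at h
        omega
      · change (e1 y).1.val = (e1 y').1.val at h
        exact he1i y y' ha ha' (PExt_inG_eq (PExt_mem.1 (he1Q _ ha)).2 (PExt_mem.1 (he1Q _ ha')).2 h)
      · exfalso
        have h5 := hQ1 _ (he1Q _ ha)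
        change (e1 y).1.val = (far y' k').1.val at h
        rw [hfarv] at h
        omega
      · exfalso
        rw [hz1] at h
        change (far y k).1.val = l0.1.val at h
        rw [hfarv] at h
        omega
      · exfalso
        have h5 := hQ1 _ (he1Q _ ha')
        change (far y k).1.val = (e1 y').1.val at h
        rw [hfarv] at h
        omega
      · change (far y k).1.val = (far y' k').1.val at h
        rw [hfarv, hfarv] at h
        exact e.injective (Fin.ext (by omega))
    have hnz : ∀ g y, y ≠ v₀ → ∃ l, Φ g y = blk idx t l := by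
      intro g y h0
      rcases h3 g y with ⟨ha, hb⟩ | ⟨ha, hb⟩ | ⟨k, hb⟩
      · exact absurd ha h0
      · exact ⟨_, hb⟩
      · exact ⟨_, hb⟩
    have hE2 : ∀ g, Φ g ∈ emb J (PG u (u + d + 1) w r m idx)
        (cn (PG u (u + d + 1) w r m idx) (A.image (blk idx t))) := by
      intro g
      unfold emb
      rw [mem_filter, Fintype.mem_piFinset]
      refine ⟨fun j => ?_, fun y y' h => hcinj g y y' (by rw [h]), fun i j hij => ?_⟩
      · unfold cn
        rw [mem_filter]
        refine ⟨mem_univ _, fun y hy => ?_⟩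
        obtain ⟨a, ha, rfl⟩ := mem_image.1 hy
        have haQ := hAθ ha
        have h5 := hQ1 _ haQ
        rcases h3 g j with ⟨h6, h7⟩ | ⟨h6, h7⟩ | ⟨k, h7⟩
        · rw [h7]
          exact (hzadj a haQ).symm
        · rw [h7]
          refine hadj _ _ fun h => he1A j h6 ?_
          rw [← PExt_inG_eq (PExt_mem.1 haQ).2 (PExt_mem.1 (he1Q j h6)).2 (congrArg Fin.val h)]
          exact ha
        · rw [h7]
          refine hadj _ _ fun h => ?_
          have h8 := congrArg Fin.val h
          rw [hfarv] at h8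
          omega
      · have hne : i ≠ j := J.ne_of_adj hij
        by_cases hi : i = v₀
        · subst hi
          rw [hΦ0, hΦ1 g j hij]
          exact hzadj _ (he1Q j hij)
        · by_cases hj : j = v₀
          · subst hj
            rw [hΦ0, hΦ1 g i hij.symm]
            exact (hzadj _ (he1Q i hij.symm)).symm
          · obtain ⟨l, hl⟩ := hnz g i hi
            obtain ⟨l', hl'⟩ := hnz g j hj
            rw [hl, hl']
            refine hadj _ _ fun h => hne (hcinj g i j ?_)
            rw [hl, hl']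
            exact congrArg Fin.val h
    have hΦi : Function.Injective Φ := by
      intro g g' h
      funext y
      have h5 := congrFun h y.1
      rw [hΦ2 g y.1 y.2.1 y.2.2, hΦ2 g' y.1 y.2.1 y.2.2] at h5
      have h6 := hinj h5
      have h7 : (far y.1 (g y)).2.val = (far y.1 (g' y)).2.val := by
        have h8 : (⟨y.1, y.2.1, y.2.2⟩ : {y : ι // y ≠ v₀ ∧ ¬ J.Adj v₀ y}) = y := rfl
        rw [h8] at h6
        rw [h6]
      exact Fin.ext h7
    have hW : Fintype.card {y : ι // y ≠ v₀ ∧ ¬ J.Adj v₀ y} = Fintype.card ι - 1 - d := by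
      rw [Fintype.card_subtype]
      have h5 : (univ.filter fun y : ι => y ≠ v₀ ∧ ¬ J.Adj v₀ y) =
          univ \ insert v₀ (univ.filter fun y => J.Adj v₀ y) := by
        ext y
        simp only [mem_filter, mem_univ, true_and, mem_sdiff, mem_insert, not_or]
      rw [h5, card_sdiff_of_subset (subset_univ _), card_univ, card_insert_of_notMem]
      · unfold dg at hv₀
        rw [hv₀]
        omega
      · intro h
        rw [mem_filter] at h
        exact J.loopless.irrefl v₀ h.2
    have hc2 : ((univ : Finset ({y : ι // y ≠ v₀ ∧ ¬ J.Adj v₀ y} → Fin m)).image Φ).card =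
        m ^ (Fintype.card ι - 1 - d) := by
      rw [card_image_of_injective _ hΦi, card_univ, Fintype.card_fun, Fintype.card_fin, hW]
    rw [← card_image_of_injOn hI1, ← hc2, ← card_union_of_disjoint]
    · refine card_le_card (union_subset ?_ ?_)
      · intro φ hφ
        obtain ⟨ψ, hψ, rfl⟩ := mem_image.1 hφ
        exact hE1 ψ hψ
      · intro φ hφ
        obtain ⟨g, -, rfl⟩ := mem_image.1 hφ
        exact hE2 g
    · rw [disjoint_left]
      intro φ hφ hφ'
      obtain ⟨ψ, hψ, rfl⟩ := mem_image.1 hφ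
      obtain ⟨g, -, hg⟩ := mem_image.1 hφ'
      have h5 := congrFun hg v₀
      rw [hΦ0] at h5
      exact hznb _ h5.symm
  · rw [add_zero, ← card_image_of_injOn hI1]
    refine card_le_card fun φ hφ => ?_
    obtain ⟨ψ, hψ, rfl⟩ := mem_image.1 hφ
    exact hE1 ψ hψ

end H57GH
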