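import Pool.Agent.H57.GH.PDefs

/-!
Project GP: the local geometry of a gadget.
-/

namespace H57GH

open Finset H57LC H57LT

set_option linter.unusedSectionVars false

private theorem PLoc_sig_some {u v : ℕ} {a : Fin v} {τ y : TT u v} (h : sig a τ = some y) : y = τ := by
  cases τ with
  | none =>
    by_cases ha : a.val = 0
    · simp only [sig, if_pos ha, Option.some.injEq] at h
      exact h.symm
    · simp [sig, ha] at h
  | some P =>
    by_cases ha : a.val = 0
    · simp [sig, ha] at h
    · by_cases hP : a ∈ P.1
      · simp [sig, ha, hP] at h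
      · simp only [sig, if_neg ha, if_neg hP, Option.some.injEq] at h
        exact h.symm

private theorem PLoc_none_some {u v : ℕ} (hu : 1 ≤ u) (A : Finset (Fin v)) (hA : A.card = u)
    (P : {P : Finset (Fin v) // P.card = u - 1 ∧ ∀ a ∈ P, a.val ≠ 0})
    (h : ∀ a ∈ A, sig (u := u) a none = sig a (some P)) : False := by
  have hsub : A ⊆ P.1 := by
    intro a ha
    have h1 := h a ha
    by_cases h0 : a.val = 0
    · simp [sig, h0] at h1
    · by_contra hP
      simp [sig, h0, hP] at h1
  have h2 := card_le_card hsub
  rw [hA, P.2.1] at h2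
  omega

/-- a local type is determined by what `u` positions see -/
theorem sig_uniq {u v : ℕ} (hu : 1 ≤ u) (A : Finset (Fin v)) (hA : A.card = u) {τ τ' : TT u v}
    (h : ∀ a ∈ A, sig a τ = sig a τ') : τ = τ' := by
  cases τ with
  | none =>
    cases τ' with
    | none => rfl
    | some P' => exact (PLoc_none_some hu A hA P' h).elim
  | some P =>
    cases τ' with
    | none => exact (PLoc_none_some hu A hA P fun a ha => (h a ha).symm).elim
    | some P' =>
      by_contra hne
      have hPP : P.1 ≠ P'.1 := fun e => hne (congrArg some (Subtype.ext e))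
      have hlt : (P.1 ∩ P'.1).card < P.1.card := by
        refine card_lt_card (Finset.ssubset_iff_subset_ne.2 ⟨inter_subset_left, fun e => hPP ?_⟩)
        have h1 : P.1 ⊆ P'.1 := by
          rw [← e]
          exact inter_subset_right
        exact eq_of_subset_of_card_le h1 (by rw [P.2.1, P'.2.1])
      rw [P.2.1] at hlt
      have h0 : (A.filter fun a => a.val = 0).card ≤ 1 := by
        refine card_le_one.2 fun a ha b hb => ?_
        rw [mem_filter] at ha hb
        exact Fin.ext (ha.2.trans hb.2.symm)
      have hsub : (A.filter fun a => ¬ a.val = 0) ⊆ P.1 ∩ P'.1 := by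
        intro a ha
        rw [mem_filter] at ha
        have h1 := h a ha.1
        rw [mem_inter]
        by_cases h2 : a ∈ P.1
        · by_cases h3 : a ∈ P'.1
          · exact ⟨h2, h3⟩
          · simp [sig, ha.2, h2, h3] at h1
        · by_cases h3 : a ∈ P'.1
          · simp [sig, ha.2, h2, h3] at h1
          · simp only [sig, if_neg ha.2, if_neg h2, if_neg h3, Option.some.injEq] at h1
            exact (hPP (congrArg Subtype.val h1)).elim
      have h4 := card_le_card hsub
      have h5 := card_filter_add_card_filter_not (s := A) (fun a : Fin v => a.val = 0)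
      omega

/-- pairwise compatible views are compatible, unless they are the common vertices of at least
`u + 1` positions, the position `0` among them -/
theorem sig_common {u v : ℕ} (hu : 2 ≤ u) (huv : u ≤ v) (A : Finset (Fin v))
    (x : Fin v → Option (TT u v))
    (h : ∀ a ∈ A, ∀ b ∈ A, ∃ τ : TT u v, sig a τ = x a ∧ sig b τ = x b) :
    (∃ τ : TT u v, ∀ a ∈ A, sig a τ = x a) ∨
      ((∀ a ∈ A, x a = none) ∧ (∃ a ∈ A, a.val = 0) ∧ u + 1 ≤ A.card) := by
  by_cases hn : ∀ a ∈ A, x a = none
  · by_cases h0 : ∃ a ∈ A, a.val = 0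
    · by_cases hc : (A.filter fun a => ¬ a.val = 0).card ≤ u - 1
      · left
        have h1 : (A.filter fun a => ¬ a.val = 0) ⊆ (univ : Finset (Fin v)).filter fun a => ¬ a.val = 0 :=
          filter_subset_filter _ (subset_univ _)
        have h2 : u - 1 ≤ ((univ : Finset (Fin v)).filter fun a => ¬ a.val = 0).card := by
          have h3 := card_filter_add_card_filter_not (s := (univ : Finset (Fin v))) (fun a : Fin v => a.val = 0)
          have h4 : ((univ : Finset (Fin v)).filter fun a => a.val = 0).card ≤ 1 := by
            refine card_le_one.2 fun a ha b hb => ?_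
            rw [mem_filter] at ha hb
            exact Fin.ext (ha.2.trans hb.2.symm)
          rw [card_univ, Fintype.card_fin] at h3
          omega
        obtain ⟨P, hP1, hP2, hP3⟩ := exists_subsuperset_card_eq h1 hc h2
        refine ⟨some ⟨P, hP3, fun a ha => (mem_filter.1 (hP2 ha)).2⟩, fun a ha => ?_⟩
        rw [hn a ha]
        by_cases h5 : a.val = 0
        · simp [sig, h5]
        · have h6 : a ∈ P := hP1 (mem_filter.2 ⟨ha, h5⟩)
          simp [sig, h5, h6]
      · right
        refine ⟨hn, h0, ?_⟩
        have h5 := card_filter_add_card_filter_not (s := A) (fun a : Fin v => a.val = 0)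
        obtain ⟨a, ha, ha0⟩ := h0
        have h6 : 0 < (A.filter fun a => a.val = 0).card := card_pos.2 ⟨a, mem_filter.2 ⟨ha, ha0⟩⟩
        omega
    · left
      refine ⟨none, fun a ha => ?_⟩
      rw [hn a ha]
      have h5 : ¬ a.val = 0 := fun h5 => h0 ⟨a, ha, h5⟩
      simp [sig, h5]
  · left
    push Not at hn
    obtain ⟨a, ha, hxa⟩ := hn
    obtain ⟨y, hy⟩ := Option.ne_none_iff_exists'.1 hxa
    refine ⟨y, fun b hb => ?_⟩
    obtain ⟨τ, h1, h2⟩ := h a ha b hb
    rw [hy] at h1
    rw [PLoc_sig_some h1]
    exact h2

end H57GH
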