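import Pool.Agent.H57.GH.PExt
import Pool.Agent.H57.GH.JoinE

/-!
Project GP: the number of copies of `K_u ∨ J` in the graph `PG`.
-/

namespace H57GH

open Finset H57LC H57LT

set_option linter.unusedSectionVars false

private theorem PSum_sum_clq {u v w r m : ℕ} (hu : 2 ≤ u) (huv : u ≤ v) {Θ : Type} [Fintype Θ] [DecidableEq Θ]
    (idx : Θ → Fin v → ℕ) (hidx : Mds u idx) (F : Finset (Lb w r m × (Θ → Option (TT u v))) → ℕ) :
    ∑ U ∈ clq (PG u v w r m idx) univ u, F U =
      ∑ p ∈ (univ : Finset (Θ → TT u v)) ×ˢ clq (LG w r m) univ u, F (p.2.image (blk idx p.1)) := by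
  rw [clq_u hu huv idx hidx, sum_image (clq_u_inj hu idx)]

private theorem PSum_card_fix {Θ α : Type} [Fintype Θ] [DecidableEq Θ] [Fintype α] [DecidableEq α] (θ : Θ) (c : α) :
    ((univ : Finset (Θ → α)).filter fun t => t θ = c).card = Fintype.card α ^ (Fintype.card Θ - 1) := by
  have h1 : ((univ : Finset (Θ → α)).filter fun t => t θ = c) =
      Fintype.piFinset fun θ' : Θ => if θ' = θ then {c} else (univ : Finset α) := by
    ext t
    simp only [mem_filter, mem_univ, true_and, Fintype.mem_piFinset]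
    constructor
    · intro h θ'
      by_cases h' : θ' = θ
      · subst h'
        simp [h]
      · simp [h']
    · intro h
      have h2 := h θ
      simpa using h2
  rw [h1, Fintype.card_piFinset, ← mul_prod_erase univ _ (mem_univ θ)]
  have h2 : ∏ θ' ∈ (univ : Finset Θ).erase θ, (if θ' = θ then ({c} : Finset α) else univ).card =
      ∏ _θ' ∈ (univ : Finset Θ).erase θ, Fintype.card α := by
    refine prod_congr rfl fun θ' h => ?_
    rw [if_neg (ne_of_mem_erase h), card_univ]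
  rw [h2, prod_const, card_erase_of_mem (mem_univ θ), card_univ]
  simp

private theorem PSum_Qg {v w r m : ℕ} {Θ : Type} {idx : Θ → Fin v → ℕ} {θ : Θ} {i : Lb w r m} :
    i ∈ Qg w r m idx θ ↔ 1 ≤ i.1.val ∧ inG idx i θ := by
  unfold Qg
  simp

private theorem PSum_ext {v w r m : ℕ} {Θ : Type} {idx : Θ → Fin v → ℕ} {θ : Θ} {i j : Lb w r m}
    (hi : inG idx i θ) (hj : inG idx j θ) (h : i.1 = j.1) : i = j := by
  obtain ⟨a, b⟩ := i
  obtain ⟨a', b'⟩ := j
  simp only at h
  subst h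
  obtain ⟨h1, h2⟩ := hi
  obtain ⟨h3, h4⟩ := hj
  simp only at h1 h2 h3 h4
  have h5 : b = b' := Fin.ext (by rw [← h2, ← h4])
  rw [h5]

private theorem PSum_pick {u d w r m : ℕ} (hw : u + d + 1 ≤ w)
    {Θ : Type} [Fintype Θ] [DecidableEq Θ] (idx : Θ → Fin (u + d + 1) → ℕ) (hidx : Mds u idx)
    (hm : ∀ θ a, idx θ a < m) :
    ∃ A : Θ → Finset (Lb w r m), (∀ θ, A θ ∈ clq (LG w r m) univ u) ∧ (∀ θ, A θ ⊆ Qg w r m idx θ) ∧ Function.Injective A := by
  have h1 : ∀ θ, ∃ A : Finset (Lb w r m), A ⊆ Qg w r m idx θ ∧ A.card = u := by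
    intro θ
    refine exists_subset_card_eq ?_
    rw [card_Qg hw idx hm θ]
    omega
  choose A hA hAc using h1
  refine ⟨A, ?_, hA, ?_⟩
  · intro θ
    simp only [clq, mem_filter, mem_powersetCard, subset_univ, true_and]
    refine ⟨hAc θ, ?_⟩
    intro i hi j hj hij h
    exact hij (PSum_ext (PSum_Qg.1 (hA θ hi)).2 (PSum_Qg.1 (hA θ hj)).2 h)
  · intro θ θ' h
    by_contra hne
    have h2 := hidx θ θ' hne
    have h3 : (A θ).card ≤ ((univ : Finset (Fin (u + d + 1))).filter fun a => idx θ a = idx θ' a).card := by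
      refine card_le_card_of_injOn (fun i => if h : i.1.val < u + d + 1 then ⟨i.1.val, h⟩ else 0) ?_ ?_
      · intro i hi
        obtain ⟨h4, h5⟩ := (PSum_Qg.1 (hA θ hi)).2
        obtain ⟨h6, h7⟩ := (PSum_Qg.1 (hA θ' (h ▸ hi))).2
        simp only [coe_filter, mem_univ, true_and, Set.mem_ofPred_eq, h4, dif_pos]
        rw [h5, h7]
      · intro i hi j hj hij
        obtain ⟨h4, h5⟩ := (PSum_Qg.1 (hA θ hi)).2
        obtain ⟨h6, h7⟩ := (PSum_Qg.1 (hA θ hj)).2
        simp only [h4, h6, dif_pos, Fin.mk.injEq] at hij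
        exact PSum_ext (PSum_Qg.1 (hA θ hi)).2 (PSum_Qg.1 (hA θ hj)).2 (Fin.ext hij)
    rw [hAc θ] at h3
    omega

variable {ι : Type} [Fintype ι] [DecidableEq ι] (J : SimpleGraph ι) [DecidableRel J.Adj]

theorem PG_emb {u d w r m : ℕ} (hu : 2 ≤ u) (hd : d + 1 ≤ u) (v₀ : ι)
    (hv₀ : dg J univ v₀ = d) (hw : u + d + 1 + Fintype.card ι ≤ w)
    {Θ : Type} [Fintype Θ] [DecidableEq Θ] (idx : Θ → Fin (u + d + 1) → ℕ) (hidx : Mds u idx)
    (hm : ∀ θ a, idx θ a < m) :
    Fintype.card (Θ → TT u (u + d + 1)) * (emb (jn J u) (LG w r m) univ).card +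
        u.factorial * (Fintype.card Θ * Fintype.card (TT u (u + d + 1)) ^ (Fintype.card Θ - 1) *
          m ^ (Fintype.card ι - 1 - d)) ≤
      (emb (jn J u) (PG u (u + d + 1) w r m idx) univ).card := by
  rw [emb_join, emb_join, PSum_sum_clq hu (by omega) idx hidx]
  obtain ⟨A, hA1, hA2, hA3⟩ := PSum_pick (w := w) (r := r) (by omega) idx hidx hm
  have h1 : ∑ p ∈ (univ : Finset (Θ → TT u (u + d + 1))) ×ˢ clq (LG w r m) univ u,
      ((emb J (LG w r m) (cn (LG w r m) p.2)).card +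
        (if ∃ θ, p.1 θ = none ∧ p.2 ⊆ Qg w r m idx θ then m ^ (Fintype.card ι - 1 - d) else 0)) ≤
      ∑ p ∈ (univ : Finset (Θ → TT u (u + d + 1))) ×ˢ clq (LG w r m) univ u,
        (emb J (PG u (u + d + 1) w r m idx)
          (cn (PG u (u + d + 1) w r m idx) (p.2.image (blk idx p.1)))).card := by
    refine sum_le_sum fun p hp => ?_
    exact PG_copies J hu hd v₀ hv₀ hw idx hidx hm p.1 p.2 (mem_product.1 hp).2
  have h2 : ∑ p ∈ (univ : Finset (Θ → TT u (u + d + 1))) ×ˢ clq (LG w r m) univ u,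
      (emb J (LG w r m) (cn (LG w r m) p.2)).card =
      Fintype.card (Θ → TT u (u + d + 1)) * ∑ B ∈ clq (LG w r m) univ u, (emb J (LG w r m) (cn (LG w r m) B)).card := by
    rw [sum_product]
    simp only [sum_const, card_univ, smul_eq_mul]
  have h3 : Fintype.card Θ * Fintype.card (TT u (u + d + 1)) ^ (Fintype.card Θ - 1) ≤
      (((univ : Finset (Θ → TT u (u + d + 1))) ×ˢ clq (LG w r m) univ u).filter
        fun p => ∃ θ, p.1 θ = none ∧ p.2 ⊆ Qg w r m idx θ).card := by
    have h4 : ((univ : Finset Θ).sigma fun θ => (univ : Finset (Θ → TT u (u + d + 1))).filter fun t => t θ = none).card =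
        Fintype.card Θ * Fintype.card (TT u (u + d + 1)) ^ (Fintype.card Θ - 1) := by
      rw [card_sigma, sum_congr rfl fun θ _ => PSum_card_fix θ (none : TT u (u + d + 1)), sum_const, card_univ, smul_eq_mul]
    rw [← h4]
    refine card_le_card_of_injOn (fun x => (x.2, A x.1)) ?_ ?_
    · intro x hx
      simp only [coe_sigma, Set.mem_sigma_iff, coe_univ, Set.mem_univ, true_and, coe_filter, mem_univ, Set.mem_ofPred_eq] at hx
      simp only [coe_filter, Set.mem_ofPred_eq, mem_product, mem_univ, true_and]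
      exact ⟨hA1 x.1, x.1, hx, hA2 x.1⟩
    · rintro ⟨θ, t⟩ _ ⟨θ', t'⟩ _ hxy
      simp only [Prod.mk.injEq] at hxy
      obtain ⟨rfl, h5⟩ := hxy
      have h6 := hA3 h5
      subst h6
      rfl
  rw [sum_add_distrib, h2, ← sum_filter, sum_const, smul_eq_mul] at h1
  calc Fintype.card (Θ → TT u (u + d + 1)) * (u.factorial * ∑ U ∈ clq (LG w r m) univ u, (emb J (LG w r m) (cn (LG w r m) U)).card) +
        u.factorial * (Fintype.card Θ * Fintype.card (TT u (u + d + 1)) ^ (Fintype.card Θ - 1) * m ^ (Fintype.card ι - 1 - d))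
      = u.factorial * (Fintype.card (Θ → TT u (u + d + 1)) * ∑ U ∈ clq (LG w r m) univ u, (emb J (LG w r m) (cn (LG w r m) U)).card +
        Fintype.card Θ * Fintype.card (TT u (u + d + 1)) ^ (Fintype.card Θ - 1) * m ^ (Fintype.card ι - 1 - d)) := by ring
    _ ≤ _ := Nat.mul_le_mul_left _ ((Nat.add_le_add_left (Nat.mul_le_mul_right _ h3) _).trans h1)

/-- the number of `u`-cliques -/
theorem PG_kc {u v w r m : ℕ} (hu : 2 ≤ u) (huv : u ≤ v) {Θ : Type} [Fintype Θ] [DecidableEq Θ]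
    (idx : Θ → Fin v → ℕ) (hidx : Mds u idx) :
    (clq (PG u v w r m idx) univ u).card =
      Fintype.card (Θ → TT u v) * (clq (LG w r m) univ u).card := by
  rw [clq_u hu huv idx hidx, card_image_of_injOn (clq_u_inj hu idx), card_product, card_univ]

end H57GH
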