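import Pool.Agent.H57.GH.Greedy
import Pool.Agent.H57.GH.Bal
import Pool.Agent.H57.GH.Seq

/-!
Copies of `J` in a set with a partition into small classes.
-/

namespace H57GH

open Finset H57LC H57LT

set_option linter.unusedSectionVars false

variable {ι : Type*} [Fintype ι] [DecidableEq ι] (J : SimpleGraph ι) [DecidableRel J.Adj]

/-- maps with prescribed values on `A` -/
theorem PartB_pi {V : Type*} [DecidableEq V] (S : Finset V) (A : Finset ι) (c : ι → V) :
    (Fintype.piFinset fun t => if t ∈ A then {c t} else S).card =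
      S.card ^ (Fintype.card ι - A.card) := by
  rw [Fintype.card_piFinset]
  have h : ∀ t : ι, (if t ∈ A then ({c t} : Finset V) else S).card =
      if t ∈ A then 1 else S.card := by
    intro t
    split_ifs
    · simp
    · rfl
  rw [Finset.prod_congr rfl fun t _ => h t, Finset.prod_ite]
  simp only [prod_const_one, one_mul, prod_const]
  congr 1
  have h1 : (univ.filter fun t : ι => t ∉ A) = univ \ A := by
    ext t; simp
  rw [h1, Finset.card_sdiff_of_subset (subset_univ A), Finset.card_univ]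

/-- maps with two values in a set of pairs -/
theorem PartB_two {V : Type*} [DecidableEq V] (S : Finset V) {i j : ι} (hij : i ≠ j)
    (X : Finset (V × V)) (hX : X ⊆ S ×ˢ S) :
    ((Fintype.piFinset fun _ : ι => S).filter fun φ => (φ i, φ j) ∈ X).card =
      X.card * S.card ^ (Fintype.card ι - 2) := by
  rw [Finset.card_eq_sum_card_fiberwise (f := fun φ : ι → V => (φ i, φ j)) (t := X)
    (fun φ hφ => by
      have := (Finset.mem_filter.1 (Finset.mem_coe.1 hφ)).2
      exact Finset.mem_coe.2 this)]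
  rw [Finset.sum_const_nat (m := S.card ^ (Fintype.card ι - 2))]
  rintro ⟨x, y⟩ hxy
  have hxS := Finset.mem_product.1 (hX hxy)
  have h2 : ({i, j} : Finset ι).card = 2 := Finset.card_pair hij
  rw [← h2, ← PartB_pi S {i, j} (fun t => if t = i then x else y)]
  congr 1
  ext φ
  simp only [Finset.mem_filter, Fintype.mem_piFinset, Prod.mk.injEq, Finset.mem_insert,
    Finset.mem_singleton]
  constructor
  · rintro ⟨⟨h1, -⟩, h3, h4⟩ t
    by_cases hi : t = i
    · subst hi; simp [h3]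
    · by_cases hj : t = j
      · subst hj; simp [hi, h4]
      · simp [hi, hj, h1 t]
  · intro h
    have hi : φ i = x := by simpa using h i
    have hj : φ j = y := by simpa [hij.symm] using h j
    refine ⟨⟨fun t => ?_, ?_⟩, hi, hj⟩
    · by_cases h1 : t = i
      · subst h1; rw [hi]; exact hxS.1
      · by_cases h3 : t = j
        · subst h3; rw [hj]; exact hxS.2
        · simpa [h1, h3] using h t
    · rw [hi, hj]; exact hxy

/-- maps with two values in a set of pairs and a third value in a small set -/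
theorem PartB_fib {V : Type*} [DecidableEq V] (S : Finset V) {i j v w : ι} (hij : i ≠ j)
    (hwi : w ≠ i) (hwj : w ≠ j) (hvw : v ≠ w) (X : Finset (V × V)) (hX : X ⊆ S ×ˢ S)
    (D : V → Finset V) (θ : ℝ) (hθ : 0 ≤ θ) (hD : ∀ z ∈ S, ((D z).card : ℝ) ≤ θ * S.card) :
    (((Fintype.piFinset fun _ : ι => S).filter fun φ => (φ i, φ j) ∈ X ∧
      φ w ∈ D (φ v)).card : ℝ) ≤ θ * (X.card * (S.card : ℝ) ^ (Fintype.card ι - 2)) := by
  set F := (Fintype.piFinset fun _ : ι => S).filter fun φ => (φ i, φ j) ∈ X ∧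
      φ w ∈ D (φ v) with hF
  set g : (ι → V) → (ι → V) := fun φ => Function.update φ w (φ i) with hg
  have h3 : ({i, j, w} : Finset ι).card = 3 := by
    rw [Finset.card_eq_three]
    exact ⟨i, j, w, hij, hwi.symm, hwj.symm, rfl⟩
  have hs3 : 3 ≤ Fintype.card ι := by
    rw [← h3]; exact Finset.card_le_univ _
  have hfib : ∀ ψ ∈ F.image g, (F.filter fun φ => g φ = ψ).card ≤ ⌊θ * S.card⌋₊ := by
    intro ψ hψ
    obtain ⟨φ₀, hφ₀, hφ₁⟩ := Finset.mem_image.1 hψ
    have hv : φ₀ v = ψ v := by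
      rw [← hφ₁, hg]; simp [hvw]
    have hvS : ψ v ∈ S := by
      rw [← hv]
      exact (Fintype.mem_piFinset.1 (Finset.mem_filter.1 hφ₀).1) v
    refine le_trans ?_ (Nat.le_floor (hD (ψ v) hvS))
    refine Finset.card_le_card_of_injOn (fun φ => φ w) ?_ ?_
    · intro φ hφ
      have hφ' := Finset.mem_filter.1 (Finset.mem_coe.1 hφ)
      have hφ'' := (Finset.mem_filter.1 hφ'.1).2.2
      have : φ v = ψ v := by rw [← hφ'.2, hg]; simp [hvw]
      rw [this] at hφ''
      exact Finset.mem_coe.2 hφ''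
    · intro φ hφ φ' hφ' h
      have h1 := (Finset.mem_filter.1 (Finset.mem_coe.1 hφ)).2
      have h2 := (Finset.mem_filter.1 (Finset.mem_coe.1 hφ')).2
      funext t
      by_cases ht : t = w
      · rw [ht]; exact h
      · have e1 : g φ t = φ t := by rw [hg]; simp [ht]
        have e2 : g φ' t = φ' t := by rw [hg]; simp [ht]
        rw [← e1, ← e2, h1, h2]
  have himg : (F.image g).card ≤ X.card * S.card ^ (Fintype.card ι - 3) := by
    have hsub : F.image g ⊆ X.biUnion fun p => Fintype.piFinset fun t =>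
        if t ∈ ({i, j, w} : Finset ι) then {if t = j then p.2 else p.1} else S := by
      intro ψ hψ
      obtain ⟨φ, hφ, rfl⟩ := Finset.mem_image.1 hψ
      have hφ' := Finset.mem_filter.1 hφ
      refine Finset.mem_biUnion.2 ⟨(φ i, φ j), hφ'.2.1, ?_⟩
      rw [Fintype.mem_piFinset]
      intro t
      by_cases h1 : t = w
      · subst h1
        simp [hg, hwj]
      · by_cases h2 : t = j
        · subst h2
          simp [hg, h1]
        · by_cases h4 : t = i
          · subst h4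
            simp [hg, h1, h2]
          · have := Fintype.mem_piFinset.1 hφ'.1 t
            simp [hg, h1, h2, h4, this]
    refine le_trans (Finset.card_le_card hsub) (le_trans Finset.card_biUnion_le ?_)
    rw [Finset.sum_const_nat (m := S.card ^ (Fintype.card ι - 3))]
    intro p _
    rw [PartB_pi, h3]
  have h4 := Finset.card_le_mul_card_image F ⌊θ * S.card⌋₊ hfib
  have h5 : (F.card : ℝ) ≤ (⌊θ * S.card⌋₊ : ℝ) * ((F.image g).card : ℝ) := by
    exact_mod_cast h4
  have h6 : ((F.image g).card : ℝ) ≤ X.card * (S.card : ℝ) ^ (Fintype.card ι - 3) := by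
    exact_mod_cast himg
  have h7 : (⌊θ * S.card⌋₊ : ℝ) ≤ θ * S.card := Nat.floor_le (by positivity)
  calc (F.card : ℝ) ≤ (⌊θ * S.card⌋₊ : ℝ) * ((F.image g).card : ℝ) := h5
    _ ≤ (θ * S.card) * (X.card * (S.card : ℝ) ^ (Fintype.card ι - 3)) := by gcongr
    _ = θ * (X.card * (S.card : ℝ) ^ (Fintype.card ι - 2)) := by
      have : Fintype.card ι - 2 = (Fintype.card ι - 3) + 1 := by omega
      rw [this, pow_succ]; ring

/-- second Bonferroni inequality in a form without orientation -/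
theorem PartB_bonf (b o : ℝ) (h : b ^ 2 ≤ 2 * b + o) (z : ℝ) (hz : z = 1 ∨ (z = 0 ∧ b = 0))
    (ho : 0 ≤ o) : b / 2 - o / 4 ≤ z := by
  rcases hz with rfl | ⟨rfl, rfl⟩
  · nlinarith only [sq_nonneg (b - 2), h, ho]
  · linarith

/-- the missing cross pairs -/
theorem PartB_cardM {V : Type*} [DecidableEq V] (G : SimpleGraph V) [DecidableRel G.Adj]
    (S : Finset V) {R : ℕ} (B : Fin R → Finset V)
    (hun : un B = S) (π : V → Fin R) (hπ : ∀ x ∈ S, ∀ a, x ∈ B a ↔ π x = a) :
    ((S ×ˢ S).filter fun p => π p.1 ≠ π p.2 ∧ ¬ G.Adj p.1 p.2).card =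
      ∑ i, ∑ j ∈ univ.erase i, ∑ x ∈ B i, (hs G (B j) x).card := by
  have hBS : ∀ a, B a ⊆ S := by
    intro a x hx
    rw [← hun]
    exact Finset.mem_biUnion.2 ⟨a, Finset.mem_univ _, hx⟩
  have h1 : ∀ i : Fin R, ∑ j ∈ univ.erase i, ∑ x ∈ B i, (hs G (B j) x).card =
      ((S ×ˢ S).filter fun p => π p.1 = i ∧ π p.1 ≠ π p.2 ∧ ¬ G.Adj p.1 p.2).card := by
    intro i
    have h2 : ∀ j ∈ univ.erase i, ∑ x ∈ B i, (hs G (B j) x).card =
        ((S ×ˢ S).filter fun p => π p.1 = i ∧ π p.2 = j ∧ ¬ G.Adj p.1 p.2).card := by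
      intro j hj
      rw [← Finset.card_sigma]
      refine Finset.card_bij (fun a _ => (a.1, a.2)) ?_ ?_ ?_
      · rintro ⟨x, y⟩ ha
        obtain ⟨hx, hy⟩ := Finset.mem_sigma.1 ha
        obtain ⟨hy1, hy2⟩ := Finset.mem_filter.1 hy
        simp only [Finset.mem_filter, Finset.mem_product]
        exact ⟨⟨hBS _ hx, hBS _ hy1⟩, (hπ _ (hBS _ hx) _).1 hx, (hπ _ (hBS _ hy1) _).1 hy1, hy2⟩
      · rintro ⟨x, y⟩ _ ⟨x', y'⟩ _ h
        simp only [Prod.mk.injEq] at h
        obtain ⟨rfl, rfl⟩ := h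
        rfl
      · rintro ⟨x, y⟩ hxy
        simp only [Finset.mem_filter, Finset.mem_product] at hxy
        refine ⟨⟨x, y⟩, ?_, rfl⟩
        refine Finset.mem_sigma.2 ⟨(hπ _ hxy.1.1 _).2 hxy.2.1, ?_⟩
        exact Finset.mem_filter.2 ⟨(hπ _ hxy.1.2 _).2 hxy.2.2.1, hxy.2.2.2⟩
    rw [Finset.sum_congr rfl h2, ← Finset.card_biUnion]
    · congr 1
      ext ⟨x, y⟩
      simp only [Finset.mem_biUnion, Finset.mem_filter, Finset.mem_product, Finset.mem_erase,
        Finset.mem_univ, and_true]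
      constructor
      · rintro ⟨j, hj, h3, h4, h5, h6⟩
        exact ⟨h3, h4, by rw [h4, h5]; exact hj.symm, h6⟩
      · rintro ⟨h3, h4, h5, h6⟩
        exact ⟨π y, by rw [← h4]; exact h5.symm, h3, h4, rfl, h6⟩
    · intro a _ b _ hab
      rw [Function.onFun, Finset.disjoint_left]
      intro p hp hp'
      exact hab ((Finset.mem_filter.1 hp).2.2.1.symm.trans (Finset.mem_filter.1 hp').2.2.1)
  rw [Finset.sum_congr rfl fun i _ => h1 i, ← Finset.card_biUnion]
  · congr 1
    ext ⟨x, y⟩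
    simp only [Finset.mem_biUnion, Finset.mem_filter, Finset.mem_product,
      Finset.mem_univ, true_and]
    constructor
    · rintro ⟨h3, h4⟩
      exact ⟨π x, h3, rfl, h4⟩
    · rintro ⟨a, h3, h4, h5⟩
      exact ⟨h3, h5⟩
  · intro a _ b _ hab
    rw [Function.onFun, Finset.disjoint_left]
    intro p hp hp'
    exact hab ((Finset.mem_filter.1 hp).2.1.symm.trans (Finset.mem_filter.1 hp').2.1)

/-- the edges inside the classes -/
theorem PartB_cardI {V : Type*} [DecidableEq V] (G : SimpleGraph V) [DecidableRel G.Adj]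
    (S : Finset V) {R : ℕ} (B : Fin R → Finset V)
    (hun : un B = S) (π : V → Fin R) (hπ : ∀ x ∈ S, ∀ a, x ∈ B a ↔ π x = a) :
    ((S ×ˢ S).filter fun p => π p.1 = π p.2 ∧ G.Adj p.1 p.2).card =
      ∑ i, ∑ x ∈ B i, dg G (B i) x := by
  have hBS : ∀ a, B a ⊆ S := by
    intro a x hx
    rw [← hun]
    exact Finset.mem_biUnion.2 ⟨a, Finset.mem_univ _, hx⟩
  have h2 : ∀ i ∈ (univ : Finset (Fin R)), ∑ x ∈ B i, dg G (B i) x =
      ((S ×ˢ S).filter fun p => π p.1 = i ∧ π p.2 = i ∧ G.Adj p.1 p.2).card := by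
    intro i _
    unfold dg
    rw [← Finset.card_sigma]
    refine Finset.card_bij (fun a _ => (a.1, a.2)) ?_ ?_ ?_
    · rintro ⟨x, y⟩ ha
      obtain ⟨hx, hy⟩ := Finset.mem_sigma.1 ha
      obtain ⟨hy1, hy2⟩ := Finset.mem_filter.1 hy
      simp only [Finset.mem_filter, Finset.mem_product]
      exact ⟨⟨hBS _ hx, hBS _ hy1⟩, (hπ _ (hBS _ hx) _).1 hx, (hπ _ (hBS _ hy1) _).1 hy1, hy2⟩
    · rintro ⟨x, y⟩ _ ⟨x', y'⟩ _ h
      simp only [Prod.mk.injEq] at h
      obtain ⟨rfl, rfl⟩ := h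
      rfl
    · rintro ⟨x, y⟩ hxy
      simp only [Finset.mem_filter, Finset.mem_product] at hxy
      refine ⟨⟨x, y⟩, ?_, rfl⟩
      refine Finset.mem_sigma.2 ⟨(hπ _ hxy.1.1 _).2 hxy.2.1, ?_⟩
      exact Finset.mem_filter.2 ⟨(hπ _ hxy.1.2 _).2 hxy.2.2.1, hxy.2.2.2⟩
  rw [Finset.sum_congr rfl h2, ← Finset.card_biUnion]
  · congr 1
    ext ⟨x, y⟩
    simp only [Finset.mem_biUnion, Finset.mem_filter, Finset.mem_product,
      Finset.mem_univ, true_and]
    constructor
    · rintro ⟨h3, h4, h5⟩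
      exact ⟨π x, h3, rfl, h4.symm, h5⟩
    · rintro ⟨a, h3, h4, h5, h6⟩
      exact ⟨h3, h4.trans h5.symm, h6⟩
  · intro a _ b _ hab
    rw [Function.onFun, Finset.disjoint_left]
    intro p hp hp'
    exact hab ((Finset.mem_filter.1 hp).2.1.symm.trans (Finset.mem_filter.1 hp').2.1)

/-- double counting -/
theorem PartB_dc {α β : Type*} [DecidableEq α] [DecidableEq β] (A : Finset α) (E : Finset β)
    (r : α → β → Prop) [∀ a b, Decidable (r a b)] :
    ∑ a ∈ A, (E.filter fun b => r a b).card = ∑ b ∈ E, (A.filter fun a => r a b).card := by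
  simp only [Finset.card_filter]
  exact Finset.sum_comm

/-- the number of ordered pairs of vertices of `J` -/
theorem PartB_sq (A : Finset (ι × ι)) : (A.card : ℝ) ≤ (Fintype.card ι : ℝ) ^ 2 := by
  have h := Finset.card_le_univ A
  rw [Fintype.card_prod] at h
  have h2 : (A.card : ℝ) ≤ ((Fintype.card ι * Fintype.card ι : ℕ) : ℝ) := by exact_mod_cast h
  push_cast at h2
  rw [sq]; exact h2

section core

variable {V : Type*} [DecidableEq V] (G : SimpleGraph V) [DecidableRel G.Adj] (S : Finset V)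
  {R : ℕ} (π : V → Fin R)

/-- missing cross pairs -/
def PartB_MC : Finset (V × V) := (S ×ˢ S).filter fun p => π p.1 ≠ π p.2 ∧ ¬ G.Adj p.1 p.2

/-- edges inside classes -/
def PartB_IN : Finset (V × V) := (S ×ˢ S).filter fun p => π p.1 = π p.2 ∧ G.Adj p.1 p.2

/-- ordered edges of `J` -/
def PartB_E : Finset (ι × ι) := (univ : Finset (ι × ι)).filter fun p => J.Adj p.1 p.2

/-- number of missing edges -/
def PartB_b (φ : ι → V) : ℕ := ((PartB_E J).filter fun p => (φ p.1, φ p.2) ∈ PartB_MC G S π).card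

/-- number of inside edges -/
def PartB_c (φ : ι → V) : ℕ := ((PartB_E J).filter fun p => (φ p.1, φ p.2) ∈ PartB_IN G S π).card

/-- pairs of different ordered edges of `J` -/
def PartB_EE : Finset ((ι × ι) × (ι × ι)) :=
  ((PartB_E J) ×ˢ (PartB_E J)).filter fun q => q.2 ≠ q.1 ∧ q.2 ≠ q.1.swap

/-- number of pairs of different missing edges -/
def PartB_o (φ : ι → V) : ℕ := ((PartB_EE J).filter fun q =>
  (φ q.1.1, φ q.1.2) ∈ PartB_MC G S π ∧ (φ q.2.1, φ q.2.2) ∈ PartB_MC G S π).card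

theorem PartB_bo (φ : ι → V) : PartB_b J G S π φ * PartB_b J G S π φ ≤
    2 * PartB_b J G S π φ + PartB_o J G S π φ := by
  set A := (PartB_E J).filter fun p => (φ p.1, φ p.2) ∈ PartB_MC G S π with hA
  have h1 : PartB_b J G S π φ = A.card := rfl
  rw [h1, ← Finset.card_product]
  have hsub : A ×ˢ A ⊆ (A.image fun p => (p, p)) ∪ (A.image fun p => (p, p.swap)) ∪
      ((PartB_EE J).filter fun q =>
        (φ q.1.1, φ q.1.2) ∈ PartB_MC G S π ∧ (φ q.2.1, φ q.2.2) ∈ PartB_MC G S π) := by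
    rintro ⟨p, q⟩ hpq
    obtain ⟨hp, hq⟩ := Finset.mem_product.1 hpq
    simp only at hp hq
    simp only [Finset.mem_union, Finset.mem_image, Prod.mk.injEq]
    by_cases h2 : q = p
    · left; left; exact ⟨p, hp, rfl, h2.symm⟩
    · by_cases h3 : q = p.swap
      · left; right; exact ⟨p, hp, rfl, h3.symm⟩
      · right
        have hp' := Finset.mem_filter.1 hp
        have hq' := Finset.mem_filter.1 hq
        refine Finset.mem_filter.2 ⟨?_, hp'.2, hq'.2⟩
        exact Finset.mem_filter.2 ⟨Finset.mem_product.2 ⟨hp'.1, hq'.1⟩, h2, h3⟩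
  calc (A ×ˢ A).card ≤ _ := Finset.card_le_card hsub
    _ ≤ _ := Finset.card_union_le _ _
    _ ≤ (A.card + A.card) + PartB_o J G S π φ := by
        refine Nat.add_le_add ?_ (le_of_eq rfl)
        refine le_trans (Finset.card_union_le _ _) (Nat.add_le_add ?_ ?_)
        · exact Finset.card_image_le
        · exact Finset.card_image_le
    _ = _ := by ring

/-- copies with an inside edge have two of them (ordered) -/
theorem PartB_c2 (φ : ι → V) (h : PartB_c J G S π φ ≠ 0) : 2 ≤ PartB_c J G S π φ := by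
  set A := (PartB_E J).filter fun p => (φ p.1, φ p.2) ∈ PartB_IN G S π with hA
  have h1 : PartB_c J G S π φ = A.card := rfl
  rw [h1] at h ⊢
  obtain ⟨p, hp⟩ := Finset.card_ne_zero.1 h
  have hp' := Finset.mem_filter.1 hp
  have hpE := (Finset.mem_filter.1 hp'.1).2
  have hpI := Finset.mem_filter.1 hp'.2
  have hne : p ≠ p.swap := by
    intro h2
    have h3 : p.1 = p.2 := by
      have := congrArg Prod.fst h2
      simpa using this
    exact hpE.ne h3
  have hsw : p.swap ∈ A := by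
    refine Finset.mem_filter.2 ⟨Finset.mem_filter.2 ⟨Finset.mem_univ _, hpE.symm⟩, ?_⟩
    refine Finset.mem_filter.2 ⟨?_, hpI.2.1.symm, hpI.2.2.symm⟩
    have := Finset.mem_product.1 hpI.1
    exact Finset.mem_product.2 ⟨this.2, this.1⟩
  have : ({p, p.swap} : Finset (ι × ι)) ⊆ A := by
    intro x hx
    rcases Finset.mem_insert.1 hx with rfl | hx
    · exact hp
    · rw [Finset.mem_singleton.1 hx]; exact hsw
  calc 2 = ({p, p.swap} : Finset (ι × ι)).card := (Finset.card_pair hne).symm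
    _ ≤ A.card := Finset.card_le_card this

theorem PartB_hs (θ : ℝ) (hdg : ∀ x ∈ S, (1 - θ) * S.card ≤ (dg G S x : ℝ)) (x : V)
    (hx : x ∈ S) : ((hs G S x).card : ℝ) ≤ θ * S.card := by
  have h1 : dg G S x + (hs G S x).card = S.card := by
    unfold dg hs
    exact Finset.card_filter_add_card_filter_not (fun y => G.Adj x y)
  have h2 := hdg x hx
  have h3 : (dg G S x : ℝ) + ((hs G S x).card : ℝ) = S.card := by exact_mod_cast h1
  nlinarith only [h2, h3]

/-- an upper bound for the overlaps -/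
theorem PartB_over (θ : ℝ) (hθ : 0 ≤ θ)
    (hdg : ∀ x ∈ S, (1 - θ) * S.card ≤ (dg G S x : ℝ)) (q : (ι × ι) × (ι × ι))
    (hq : q ∈ PartB_EE J) :
    (((Fintype.piFinset fun _ : ι => S).filter fun φ =>
      (φ q.1.1, φ q.1.2) ∈ PartB_MC G S π ∧ (φ q.2.1, φ q.2.2) ∈ PartB_MC G S π).card : ℝ) ≤
      θ * ((PartB_MC G S π).card * (S.card : ℝ) ^ (Fintype.card ι - 2)) := by
  obtain ⟨⟨i, j⟩, ⟨k, l⟩⟩ := q
  obtain ⟨h1, h2, h3⟩ := Finset.mem_filter.1 hq
  obtain ⟨h4, h5⟩ := Finset.mem_product.1 h1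
  have hij : i ≠ j := (Finset.mem_filter.1 h4).2.ne
  have hkl : k ≠ l := (Finset.mem_filter.1 h5).2.ne
  simp only [ne_eq, Prod.mk.injEq, Prod.swap_prod_mk] at h2 h3
  simp only
  have hMS : PartB_MC G S π ⊆ S ×ˢ S := Finset.filter_subset _ _
  by_cases hl : l ≠ i ∧ l ≠ j
  · refine le_trans ?_ (PartB_fib S hij hl.1 hl.2 hkl (PartB_MC G S π) hMS (hs G S) θ hθ
      (PartB_hs G S θ hdg))
    have hsub : ((Fintype.piFinset fun _ : ι => S).filter fun φ =>
      (φ i, φ j) ∈ PartB_MC G S π ∧ (φ k, φ l) ∈ PartB_MC G S π) ⊆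
      ((Fintype.piFinset fun _ : ι => S).filter fun φ =>
      (φ i, φ j) ∈ PartB_MC G S π ∧ φ l ∈ hs G S (φ k)) := by
      intro φ hφ
      obtain ⟨g1, g2, g3⟩ := Finset.mem_filter.1 hφ
      obtain ⟨g4, g5, g6⟩ := Finset.mem_filter.1 g3
      exact Finset.mem_filter.2 ⟨g1, g2, Finset.mem_filter.2
        ⟨(Finset.mem_product.1 g4).2, g6⟩⟩
    exact_mod_cast Finset.card_le_card hsub
  · have hk : k ≠ i ∧ k ≠ j := by
      by_contra hc
      have : l = i ∨ l = j := by
        by_contra h6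
        exact hl ⟨fun h => h6 (Or.inl h), fun h => h6 (Or.inr h)⟩
      have hc' : k = i ∨ k = j := by
        by_contra h6
        exact hc ⟨fun h => h6 (Or.inl h), fun h => h6 (Or.inr h)⟩
      rcases this with rfl | rfl <;> rcases hc' with rfl | rfl
      · exact hkl rfl
      · exact h3 ⟨rfl, rfl⟩
      · exact h2 ⟨rfl, rfl⟩
      · exact hkl rfl
    refine le_trans ?_ (PartB_fib S hij hk.1 hk.2 hkl.symm (PartB_MC G S π) hMS (hs G S) θ hθ
      (PartB_hs G S θ hdg))
    have hsub : ((Fintype.piFinset fun _ : ι => S).filter fun φ =>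
      (φ i, φ j) ∈ PartB_MC G S π ∧ (φ k, φ l) ∈ PartB_MC G S π) ⊆
      ((Fintype.piFinset fun _ : ι => S).filter fun φ =>
      (φ i, φ j) ∈ PartB_MC G S π ∧ φ k ∈ hs G S (φ l)) := by
      intro φ hφ
      obtain ⟨g1, g2, g3⟩ := Finset.mem_filter.1 hφ
      obtain ⟨g4, g5, g6⟩ := Finset.mem_filter.1 g3
      exact Finset.mem_filter.2 ⟨g1, g2, Finset.mem_filter.2
        ⟨(Finset.mem_product.1 g4).1, fun h => g6 h.symm⟩⟩
    exact_mod_cast Finset.card_le_card hsub

/-- a lower bound for the number of maps in `cm` with a given missing edge -/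
theorem PartB_low (θ : ℝ) (hθ : 0 ≤ θ)
    (hB : ∀ i, ((S.filter fun x => π x = i).card : ℝ) ≤ θ * S.card) (p : ι × ι)
    (hp : p ∈ PartB_E J) :
    ((PartB_MC G S π).card * (S.card : ℝ) ^ (Fintype.card ι - 2)) *
      (1 - (Fintype.card ι : ℝ) ^ 2 * θ) ≤
      (((cm J S π).filter fun φ => (φ p.1, φ p.2) ∈ PartB_MC G S π).card : ℝ) := by
  obtain ⟨i, j⟩ := p
  have hij : i ≠ j := (Finset.mem_filter.1 hp).2.ne
  have hMS : PartB_MC G S π ⊆ S ×ˢ S := Finset.filter_subset _ _
  simp only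
  set P := (Fintype.piFinset fun _ : ι => S) with hP
  set N : ℝ := (S.card : ℝ) ^ (Fintype.card ι - 2) with hN
  set M : ℝ := ((PartB_MC G S π).card : ℝ) with hM
  set W : Finset (ι × ι) := univ.filter fun q => q.1 ≠ q.2 ∧ q.2 ≠ i ∧ q.2 ≠ j with hW
  have htwo := PartB_two S hij (PartB_MC G S π) hMS
  have hsub : (P.filter fun φ => (φ i, φ j) ∈ PartB_MC G S π) ⊆
      ((cm J S π).filter fun φ => (φ i, φ j) ∈ PartB_MC G S π) ∪
      W.biUnion fun q => P.filter fun φ => (φ i, φ j) ∈ PartB_MC G S π ∧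
        φ q.2 ∈ S.filter fun x => π x = π (φ q.1) := by
    intro φ hφ
    obtain ⟨g1, g2⟩ := Finset.mem_filter.1 hφ
    have g3 := Fintype.mem_piFinset.1 g1
    have g4 : π (φ i) ≠ π (φ j) := (Finset.mem_filter.1 g2).2.1
    rw [Finset.mem_union]
    by_contra hcon
    have hcon' := not_or.1 hcon
    apply hcon'.1
    refine Finset.mem_filter.2 ⟨?_, g2⟩
    have key : ∀ k l, k ≠ l → π (φ k) ≠ π (φ l) := by
      intro k l hkl h5
      apply hcon'.2
      rw [Finset.mem_biUnion]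
      by_cases hl : l ≠ i ∧ l ≠ j
      · exact ⟨(k, l), Finset.mem_filter.2 ⟨Finset.mem_univ _, hkl, hl⟩,
          Finset.mem_filter.2 ⟨g1, g2, Finset.mem_filter.2 ⟨g3 l, h5.symm⟩⟩⟩
      · have hk : k ≠ i ∧ k ≠ j := by
          by_contra hc
          have : l = i ∨ l = j := by
            by_contra h6
            exact hl ⟨fun h => h6 (Or.inl h), fun h => h6 (Or.inr h)⟩
          have hc' : k = i ∨ k = j := by
            by_contra h6
            exact hc ⟨fun h => h6 (Or.inl h), fun h => h6 (Or.inr h)⟩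
          rcases this with rfl | rfl <;> rcases hc' with rfl | rfl
          · exact hkl rfl
          · exact g4 h5.symm
          · exact g4 h5
          · exact hkl rfl
        exact ⟨(l, k), Finset.mem_filter.2 ⟨Finset.mem_univ _, hkl.symm, hk⟩,
          Finset.mem_filter.2 ⟨g1, g2, Finset.mem_filter.2 ⟨g3 k, h5⟩⟩⟩
    refine Finset.mem_filter.2 ⟨g1, ?_, fun k l hkl => key k l hkl.ne⟩
    intro k l hkl
    by_contra hne
    exact key k l hne (by rw [hkl])
  have h1 : (M * N : ℝ) = ((P.filter fun φ => (φ i, φ j) ∈ PartB_MC G S π).card : ℝ) := by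
    rw [htwo]; push_cast; rfl
  have h2 : ((P.filter fun φ => (φ i, φ j) ∈ PartB_MC G S π).card : ℝ) ≤
      (((cm J S π).filter fun φ => (φ i, φ j) ∈ PartB_MC G S π).card : ℝ) +
      ∑ q ∈ W, ((P.filter fun φ => (φ i, φ j) ∈ PartB_MC G S π ∧
        φ q.2 ∈ S.filter fun x => π x = π (φ q.1)).card : ℝ) := by
    have := le_trans (Finset.card_le_card hsub) (le_trans (Finset.card_union_le _ _)
      (Nat.add_le_add_left Finset.card_biUnion_le _))
    exact_mod_cast this
  have h3 : ∑ q ∈ W, ((P.filter fun φ => (φ i, φ j) ∈ PartB_MC G S π ∧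
        φ q.2 ∈ S.filter fun x => π x = π (φ q.1)).card : ℝ) ≤ W.card * (θ * (M * N)) := by
    rw [← nsmul_eq_mul]
    refine Finset.sum_le_card_nsmul _ _ _ ?_
    intro q hq
    obtain ⟨-, hq1, hq2, hq3⟩ := Finset.mem_filter.1 hq
    exact PartB_fib S hij hq2 hq3 hq1 (PartB_MC G S π) hMS
      (fun z => S.filter fun x => π x = π z) θ hθ (fun z _ => hB _)
  have h4 : (W.card : ℝ) ≤ (Fintype.card ι : ℝ) ^ 2 := PartB_sq W
  have h5 : 0 ≤ θ * (M * N) := by positivity
  have h6 := mul_le_mul_of_nonneg_right h4 h5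
  nlinarith only [h1, h2, h3, h6]

/-- copies without inside edges -/
theorem PartB_split : ((emb J G S).card : ℝ) ≤
    (((cm J S π).filter fun φ => PartB_b J G S π φ = 0).card : ℝ) +
    1 / 2 * (oe J : ℝ) * ((PartB_IN G S π).card * (S.card : ℝ) ^ (Fintype.card ι - 2)) := by
  have hIS : PartB_IN G S π ⊆ S ×ˢ S := Finset.filter_subset _ _
  have h1 : ((emb J G S).filter fun φ => PartB_c J G S π φ = 0) ⊆
      ((cm J S π).filter fun φ => PartB_b J G S π φ = 0) := by
    intro φ hφ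
    obtain ⟨g1, g2⟩ := Finset.mem_filter.1 hφ
    obtain ⟨g3, g4, g5⟩ := Finset.mem_filter.1 g1
    have g6 := Fintype.mem_piFinset.1 g3
    have g7 : ∀ k l, J.Adj k l → π (φ k) ≠ π (φ l) := by
      intro k l hkl h
      have : (k, l) ∈ (PartB_E J).filter fun p => (φ p.1, φ p.2) ∈ PartB_IN G S π := by
        refine Finset.mem_filter.2 ⟨Finset.mem_filter.2 ⟨Finset.mem_univ _, hkl⟩, ?_⟩
        exact Finset.mem_filter.2 ⟨Finset.mem_product.2 ⟨g6 k, g6 l⟩, h, g5 k l hkl⟩
      have h0 := Finset.card_eq_zero.1 g2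
      rw [h0] at this
      exact absurd this (Finset.notMem_empty _)
    refine Finset.mem_filter.2 ⟨Finset.mem_filter.2 ⟨g3, g4, g7⟩, ?_⟩
    refine Finset.card_eq_zero.2 (Finset.filter_eq_empty_iff.2 ?_)
    intro p hp hpM
    exact (Finset.mem_filter.1 hpM).2.2 (g5 _ _ (Finset.mem_filter.1 hp).2)
  have h2 : 2 * ((emb J G S).filter fun φ => ¬ PartB_c J G S π φ = 0).card ≤
      ∑ φ ∈ (Fintype.piFinset fun _ : ι => S), PartB_c J G S π φ := by
    calc 2 * ((emb J G S).filter fun φ => ¬ PartB_c J G S π φ = 0).card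
        = ∑ φ ∈ ((emb J G S).filter fun φ => ¬ PartB_c J G S π φ = 0), 2 := by
          rw [Finset.sum_const, smul_eq_mul, mul_comm]
      _ ≤ ∑ φ ∈ ((emb J G S).filter fun φ => ¬ PartB_c J G S π φ = 0), PartB_c J G S π φ := by
          refine Finset.sum_le_sum ?_
          intro φ hφ
          exact PartB_c2 J G S π φ (Finset.mem_filter.1 hφ).2
      _ ≤ _ := by
          refine Finset.sum_le_sum_of_subset ?_
          intro φ hφ
          exact (Finset.mem_filter.1 (Finset.mem_filter.1 hφ).1).1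
  have h3 : ∑ φ ∈ (Fintype.piFinset fun _ : ι => S), PartB_c J G S π φ =
      oe J * ((PartB_IN G S π).card * S.card ^ (Fintype.card ι - 2)) := by
    unfold PartB_c
    rw [PartB_dc (Fintype.piFinset fun _ : ι => S) (PartB_E J)
      (fun φ p => (φ p.1, φ p.2) ∈ PartB_IN G S π)]
    rw [Finset.sum_const_nat (m := (PartB_IN G S π).card * S.card ^ (Fintype.card ι - 2))]
    · rfl
    · intro p hp
      exact PartB_two S (Finset.mem_filter.1 hp).2.ne _ hIS
  have h4 := Finset.card_filter_add_card_filter_not (s := emb J G S)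
    (fun φ => PartB_c J G S π φ = 0)
  have h5 := Finset.card_le_card h1
  rw [h3] at h2
  have h6 : (2 : ℝ) * (((emb J G S).filter fun φ => ¬ PartB_c J G S π φ = 0).card : ℝ) ≤
      (oe J : ℝ) * ((PartB_IN G S π).card * (S.card : ℝ) ^ (Fintype.card ι - 2)) := by
    exact_mod_cast h2
  have h7 : (((emb J G S).filter fun φ => PartB_c J G S π φ = 0).card : ℝ) +
      (((emb J G S).filter fun φ => ¬ PartB_c J G S π φ = 0).card : ℝ) =
      ((emb J G S).card : ℝ) := by exact_mod_cast h4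
  have h8 : (((emb J G S).filter fun φ => PartB_c J G S π φ = 0).card : ℝ) ≤
      (((cm J S π).filter fun φ => PartB_b J G S π φ = 0).card : ℝ) := by exact_mod_cast h5
  linarith only [h6, h7, h8]

/-- Bonferroni, summed -/
theorem PartB_main (θ : ℝ) (hθ : 0 ≤ θ)
    (hB : ∀ i, ((S.filter fun x => π x = i).card : ℝ) ≤ θ * S.card)
    (hdg : ∀ x ∈ S, (1 - θ) * S.card ≤ (dg G S x : ℝ)) :
    (((cm J S π).filter fun φ => PartB_b J G S π φ = 0).card : ℝ) ≤ ((cm J S π).card : ℝ) -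
      1 / 2 * (oe J : ℝ) * (((PartB_MC G S π).card * (S.card : ℝ) ^ (Fintype.card ι - 2)) *
      (1 - (Fintype.card ι : ℝ) ^ 2 * θ)) +
      1 / 4 * (oe J : ℝ) ^ 2 *
        (θ * ((PartB_MC G S π).card * (S.card : ℝ) ^ (Fintype.card ι - 2))) := by
  set N : ℝ := (S.card : ℝ) ^ (Fintype.card ι - 2) with hN
  set M : ℝ := ((PartB_MC G S π).card : ℝ) with hM
  have h1 := Finset.card_filter_add_card_filter_not (s := cm J S π)
    (fun φ => PartB_b J G S π φ = 0)
  have h2 : (((cm J S π).filter fun φ => PartB_b J G S π φ = 0).card : ℝ) +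
      (((cm J S π).filter fun φ => ¬ PartB_b J G S π φ = 0).card : ℝ) =
      ((cm J S π).card : ℝ) := by exact_mod_cast h1
  have h3 : ∑ φ ∈ cm J S π, ((PartB_b J G S π φ : ℝ) / 2 - (PartB_o J G S π φ : ℝ) / 4) ≤
      (((cm J S π).filter fun φ => ¬ PartB_b J G S π φ = 0).card : ℝ) := by
    rw [Finset.card_filter]
    push_cast
    refine Finset.sum_le_sum ?_
    intro φ _
    refine PartB_bonf _ _ ?_ _ ?_ (Nat.cast_nonneg _)
    · have := PartB_bo J G S π φ
      rw [sq]
      exact_mod_cast this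
    · by_cases hb : PartB_b J G S π φ = 0
      · right
        simp [hb]
      · left
        simp [hb]
  have h4 : ∑ φ ∈ cm J S π, PartB_b J G S π φ =
      ∑ p ∈ PartB_E J, ((cm J S π).filter fun φ => (φ p.1, φ p.2) ∈ PartB_MC G S π).card :=
    PartB_dc (cm J S π) (PartB_E J) (fun φ p => (φ p.1, φ p.2) ∈ PartB_MC G S π)
  have h5 : (oe J : ℝ) * ((M * N) * (1 - (Fintype.card ι : ℝ) ^ 2 * θ)) ≤
      ∑ φ ∈ cm J S π, (PartB_b J G S π φ : ℝ) := by
    have h6 : (∑ φ ∈ cm J S π, (PartB_b J G S π φ : ℝ)) = ∑ p ∈ PartB_E J,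
        (((cm J S π).filter fun φ => (φ p.1, φ p.2) ∈ PartB_MC G S π).card : ℝ) := by
      exact_mod_cast h4
    rw [h6]
    have h7 : (oe J : ℝ) = ((PartB_E J).card : ℝ) := rfl
    rw [h7, ← nsmul_eq_mul]
    refine Finset.card_nsmul_le_sum _ _ _ ?_
    intro p hp
    exact PartB_low J G S π θ hθ hB p hp
  have h8 : ∑ φ ∈ cm J S π, PartB_o J G S π φ =
      ∑ q ∈ PartB_EE J, ((cm J S π).filter fun φ => (φ q.1.1, φ q.1.2) ∈ PartB_MC G S π ∧
        (φ q.2.1, φ q.2.2) ∈ PartB_MC G S π).card :=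
    PartB_dc (cm J S π) (PartB_EE J) (fun φ q => (φ q.1.1, φ q.1.2) ∈ PartB_MC G S π ∧
        (φ q.2.1, φ q.2.2) ∈ PartB_MC G S π)
  have h9 : ∑ φ ∈ cm J S π, (PartB_o J G S π φ : ℝ) ≤ (oe J : ℝ) ^ 2 * (θ * (M * N)) := by
    have h6 : (∑ φ ∈ cm J S π, (PartB_o J G S π φ : ℝ)) = ∑ q ∈ PartB_EE J,
        (((cm J S π).filter fun φ => (φ q.1.1, φ q.1.2) ∈ PartB_MC G S π ∧
        (φ q.2.1, φ q.2.2) ∈ PartB_MC G S π).card : ℝ) := by
      exact_mod_cast h8
    rw [h6]
    have h10 : ((PartB_EE J).card : ℝ) ≤ (oe J : ℝ) ^ 2 := by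
      have h11 : (PartB_EE J).card ≤ oe J * oe J := by
        refine le_trans (Finset.card_filter_le _ _) ?_
        rw [Finset.card_product]
        exact le_of_eq rfl
      rw [sq]
      exact_mod_cast h11
    have h12 : 0 ≤ θ * (M * N) := by positivity
    refine le_trans (Finset.sum_le_card_nsmul _ _ (θ * (M * N)) ?_) ?_
    · intro q hq
      refine le_trans ?_ (PartB_over J G S π θ hθ hdg q hq)
      have hsub : ((cm J S π).filter fun φ => (φ q.1.1, φ q.1.2) ∈ PartB_MC G S π ∧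
        (φ q.2.1, φ q.2.2) ∈ PartB_MC G S π) ⊆ ((Fintype.piFinset fun _ : ι => S).filter
        fun φ => (φ q.1.1, φ q.1.2) ∈ PartB_MC G S π ∧
        (φ q.2.1, φ q.2.2) ∈ PartB_MC G S π) :=
        Finset.filter_subset_filter _ (Finset.filter_subset _ _)
      exact_mod_cast Finset.card_le_card hsub
    · rw [nsmul_eq_mul]
      exact mul_le_mul_of_nonneg_right h10 h12
  have h13 : ∑ φ ∈ cm J S π, ((PartB_b J G S π φ : ℝ) / 2 - (PartB_o J G S π φ : ℝ) / 4) =
      (∑ φ ∈ cm J S π, (PartB_b J G S π φ : ℝ)) / 2 -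
      (∑ φ ∈ cm J S π, (PartB_o J G S π φ : ℝ)) / 4 := by
    rw [Finset.sum_sub_distrib, Finset.sum_div, Finset.sum_div]
  linarith only [h2, h3, h5, h9, h13]

end core

/-- copies of `J` in a set with a partition into small classes -/
theorem part_bound (hcs : 2 ≤ Fintype.card ι) (hJ : 1 ≤ oe J) : ∃ θ₁ : ℝ, 0 < θ₁ ∧
    ∀ (V : Type) [DecidableEq V] (G : SimpleGraph V) [DecidableRel G.Adj] (S : Finset V) (R : ℕ)
      (B : Fin R → Finset V), (∀ i j, i ≠ j → Disjoint (B i) (B j)) → un B = S →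
      (∀ i, ((B i).card : ℝ) ≤ θ₁ * S.card) →
      (∀ x ∈ S, (1 - θ₁) * S.card ≤ (dg G S x : ℝ)) →
      2 * ∑ i, ∑ x ∈ B i, dg G (B i) x ≤
        ∑ i, ∑ j ∈ univ.erase i, ∑ x ∈ B i, (hs G (B j) x).card →
      ((emb J G S).card : ℝ) ≤ fJ J univ (fun i => (B i).card) -
        1 / 4 * (oe J : ℝ) * (S.card : ℝ) ^ (Fintype.card ι - 2) *
          ((∑ i, ∑ j ∈ univ.erase i, ∑ x ∈ B i, (hs G (B j) x).card : ℕ) : ℝ) / 2 := by
  set s := Fintype.card ι with hsd
  set θ : ℝ := 1 / (4 * (s : ℝ) ^ 2 + 2 * (oe J : ℝ)) with hθ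
  have hs0 : (2 : ℝ) ≤ s := by exact_mod_cast hcs
  have he1 : (1 : ℝ) ≤ (oe J : ℝ) := by exact_mod_cast hJ
  have hθ0 : 0 < θ := by rw [hθ]; positivity
  refine ⟨θ, hθ0, ?_⟩
  intro V _ G _ S R B hdisj hun hB hdg hM
  have hBS : ∀ a, B a ⊆ S := by
    intro a x hx
    rw [← hun]
    exact Finset.mem_biUnion.2 ⟨a, Finset.mem_univ _, hx⟩
  rcases Finset.eq_empty_or_nonempty S with hS | ⟨x₀, hx₀⟩
  · have hB0 : ∀ a, B a = ∅ := fun a => Finset.subset_empty.1 (hS ▸ hBS a)
    have h1 : (∑ i, ∑ j ∈ univ.erase i, ∑ x ∈ B i, (hs G (B j) x).card) = 0 := by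
      refine Finset.sum_eq_zero fun i _ => Finset.sum_eq_zero fun j _ => ?_
      rw [hB0 i, Finset.sum_empty]
    have h2 : emb J G S = ∅ := by
      rw [Finset.eq_empty_iff_forall_notMem]
      intro φ hφ
      have h3 := Fintype.mem_piFinset.1 (Finset.mem_filter.1 hφ).1
      have hne : Nonempty ι := Fintype.card_pos_iff.1 (by omega)
      have h4 := h3 (Classical.choice hne)
      rw [hS] at h4
      exact Finset.notMem_empty _ h4
    rw [h1, h2]
    simp
  · obtain ⟨i₀, -, -⟩ := Finset.mem_biUnion.1 (by rw [← hun] at hx₀; exact hx₀ : x₀ ∈ un B)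
    classical
    set π : V → Fin R := fun x => if h : ∃ a, x ∈ B a then h.choose else i₀ with hπd
    have hπ : ∀ x ∈ S, ∀ a, x ∈ B a ↔ π x = a := by
      intro x hx a
      have hex : ∃ a, x ∈ B a := by
        rw [← hun] at hx
        obtain ⟨a, -, ha⟩ := Finset.mem_biUnion.1 hx
        exact ⟨a, ha⟩
      have h1 : π x = hex.choose := by rw [hπd]; simp only [dif_pos hex]
      have h2 : x ∈ B (π x) := by rw [h1]; exact hex.choose_spec
      constructor
      · intro h3
        by_contra h4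
        exact (Finset.disjoint_left.1 (hdisj _ _ h4)) h2 h3
      · intro h3
        rw [← h3]; exact h2
    have hfil : ∀ i, (S.filter fun x => π x = i) = B i := by
      intro i
      ext x
      rw [Finset.mem_filter]
      constructor
      · rintro ⟨h1, h2⟩
        exact (hπ x h1 i).2 h2
      · intro h1
        exact ⟨hBS i h1, (hπ x (hBS i h1) i).1 h1⟩
    have h1 := PartB_split J G S π
    have h2 := PartB_main J G S π θ hθ0.le (fun i => by rw [hfil i]; exact hB i) hdg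
    have h3 : (cm J S π).card = fJ J univ (fun i => (B i).card) := by
      rw [cm_eq_fJ J S π univ (fun _ _ => Finset.mem_univ _)]
      exact fJ_congr J fun k _ => by rw [hfil k]
    have h4 : (PartB_MC G S π).card = ∑ i, ∑ j ∈ univ.erase i, ∑ x ∈ B i, (hs G (B j) x).card :=
      PartB_cardM G S B hun π hπ
    have h5 : (PartB_IN G S π).card = ∑ i, ∑ x ∈ B i, dg G (B i) x :=
      PartB_cardI G S B hun π hπ
    rw [← h4, ← h5] at hM
    rw [← h4]
    rw [h3] at h2
    rw [← hsd] at h1 h2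
    set N : ℝ := (S.card : ℝ) ^ (s - 2) with hN
    set M : ℝ := ((PartB_MC G S π).card : ℝ) with hMd
    set I : ℝ := ((PartB_IN G S π).card : ℝ) with hId
    have hM' : 2 * I ≤ M := by rw [hMd, hId]; exact_mod_cast hM
    have hN0 : 0 ≤ N := by positivity
    have hM0 : 0 ≤ M := Nat.cast_nonneg _
    have hθe : θ * (4 * (s : ℝ) ^ 2 + 2 * (oe J : ℝ)) = 1 := by
      rw [hθ]; field_simp
    have h6 : (oe J : ℝ) * (I * N) ≤ (oe J : ℝ) * (M * N) / 2 := by
      have : I * N ≤ M / 2 * N := by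
        apply mul_le_mul_of_nonneg_right _ hN0
        linarith only [hM']
      nlinarith only [this]
    have h7 : (oe J : ℝ) * (M * N) * (θ * (4 * (s : ℝ) ^ 2 + 2 * (oe J : ℝ))) =
        (oe J : ℝ) * (M * N) := by rw [hθe, mul_one]
    have h8 : ((emb J G S).card : ℝ) ≤ (fJ J univ (fun i => (B i).card) : ℝ) -
        1 / 2 * (oe J : ℝ) * ((M * N) * (1 - (s : ℝ) ^ 2 * θ)) +
        1 / 4 * (oe J : ℝ) ^ 2 * (θ * (M * N)) + 1 / 2 * ((oe J : ℝ) * (I * N)) := by
      linarith only [h2, h1]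
    nlinarith only [h2, h1, h6, h7]

end H57GH
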