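import Pool.Agent.H57.GH.Bal
import Pool.Agent.H57.GH.StrG
import Pool.Agent.H57.GH.KtBet
import Pool.Agent.H57.LT.PointT

/-!
The value of one light clique.
-/

namespace H57GH

open Finset H57LC H57LT

set_option linter.unusedSectionVars false

theorem PointG_un_sub {V : Type*} [DecidableEq V] {G : SimpleGraph V} [DecidableRel G.Adj]
    {R m : ℕ} {S : Finset V} {C η₁ δ : ℝ} {B : Fin R → Finset V} (h : LS G S R m C η₁ δ B) :
    un B ⊆ S := by
  intro z hz
  obtain ⟨i, hi⟩ := mem_un.1 hz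
  exact h.sub i hi

theorem PointG_ktG_nonneg {V : Type*} [DecidableEq V] {G : SimpleGraph V} [DecidableRel G.Adj]
    {R : ℕ} {B : Fin R → Finset V} {f : Fin R → V} (hf : f ∈ tcl G B) {s : ℕ} {θ : ℝ}
    (hR : 2 ≤ R) (z : V) : 0 ≤ ktG R s θ (hs G (im f) z).card := by
  refine ktG_nonneg hR _ ?_
  calc (hs G (im f) z).card ≤ (im f).card := card_le_card (hs_subset _ _)
    _ = R := im_card hf

/-- lower bound for the costs -/
theorem sum_ktG_ge {V : Type*} [DecidableEq V] {G : SimpleGraph V} [DecidableRel G.Adj] {R m : ℕ}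
    {S : Finset V} {C η₁ δ : ℝ} {B : Fin R → Finset V} (h : LS G S R m C η₁ δ B)
    {f : Fin R → V} (hf : f ∈ tcl G B) {s : ℕ} {θ : ℝ} (hR : 2 ≤ R) :
    ktG R s θ 2 * (ss G B f - s2 G B f) + ∑ z ∈ S \ un B, ktG R s θ (hs G (im f) z).card ≤
      ∑ z ∈ S, ktG R s θ (hs G (im f) z).card := by
  have h0 : ∑ z ∈ S \ un B, ktG R s θ (hs G (im f) z).card +
      ∑ z ∈ un B, ktG R s θ (hs G (im f) z).card =
      ∑ z ∈ S, ktG R s θ (hs G (im f) z).card := sum_sdiff (PointG_un_sub h)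
  have h1 : ∑ z ∈ un B, ktG R s θ (hs G (im f) z).card =
      ∑ i, ∑ z ∈ B i, ktG R s θ (hs G (im f) z).card := by
    unfold un
    refine sum_biUnion ?_
    intro i _ j _ hij
    exact h.disj i j hij
  have h2 : ∀ i, ktG R s θ 2 * ((((B i).filter fun z => ∃ j, j ≠ i ∧ ¬ G.Adj z (f j)).card : ℝ) -
      (((B i).filter fun z => ∃ j k, j ≠ i ∧ k ≠ i ∧ j ≠ k ∧ ¬ G.Adj z (f j) ∧
        ¬ G.Adj z (f k)).card : ℝ)) ≤ ∑ z ∈ B i, ktG R s θ (hs G (im f) z).card := by
    intro i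
    rw [card_filter, card_filter]
    push_cast
    rw [← sum_sub_distrib, mul_sum]
    refine sum_le_sum fun z hz => ?_
    by_cases hc : ∃ j k, j ≠ i ∧ k ≠ i ∧ j ≠ k ∧ ¬ G.Adj z (f j) ∧ ¬ G.Adj z (f k)
    · have hc' : ∃ j, j ≠ i ∧ ¬ G.Adj z (f j) := by
        obtain ⟨j, k, hji, -, -, hj, -⟩ := hc
        exact ⟨j, hji, hj⟩
      rw [if_pos hc, if_pos hc', sub_self, mul_zero]
      exact PointG_ktG_nonneg hf hR z
    · by_cases hc' : ∃ j, j ≠ i ∧ ¬ G.Adj z (f j)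
      · rw [if_neg hc, if_pos hc', hs_im_card_two h hf hz hc' hc]
        apply le_of_eq
        ring
      · rw [if_neg hc, if_neg hc', sub_self, mul_zero]
        exact PointG_ktG_nonneg hf hR z
  have h3 : ktG R s θ 2 * (ss G B f - s2 G B f) ≤
      ∑ i, ∑ z ∈ B i, ktG R s θ (hs G (im f) z).card := by
    unfold ss s2
    rw [← sum_sub_distrib, mul_sum]
    exact sum_le_sum fun i _ => h2 i
  linarith only [h3, h1, h0]

/-! ### helper lemmas: real numbers -/

theorem PointG_pow' {δ : ℝ} (hδ1 : δ ≤ 1) (n : ℕ) : 1 - n * δ ≤ (1 - δ) ^ n := by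
  have h := one_add_mul_le_pow (a := -δ) (by linarith only [hδ1]) n
  have e : 1 + (-δ) = 1 - δ := by ring
  rw [e] at h
  linarith only [h]

/-- bounds for the quotient `∏ b / ∏ (b - d + x)` -/
theorem PointG_quot {R : ℕ} {b d x : Fin R → ℝ} {m SS ξ : ℝ} (hm : 0 < m)
    (hd0 : ∀ i, 0 ≤ d i) (hx0 : ∀ i, 0 ≤ x i) (hd : ∑ i, d i = SS) (hx : ∑ i, x i = ξ)
    (ha : ∀ i, m / 2 ≤ b i - d i + x i) (hb : ∀ i, 0 < b i) (h1 : 2 * SS ≤ m) (h2 : 2 * ξ ≤ m) :
    |(∏ i, b i) * (∏ i, (b i - d i + x i)⁻¹) - 1| ≤ 4 * (SS / m + ξ / m) := by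
  have hSS0 : 0 ≤ SS := by rw [← hd]; exact sum_nonneg fun i _ => hd0 i
  have hξ0 : 0 ≤ ξ := by rw [← hx]; exact sum_nonneg fun i _ => hx0 i
  have ha0 : ∀ i, 0 < b i - d i + x i := fun i => lt_of_lt_of_le (by linarith only [hm]) (ha i)
  have hsσ : 0 ≤ SS / m := by positivity
  have hsτ : 0 ≤ ξ / m := by positivity
  rw [← prod_mul_distrib]
  rw [abs_le]
  constructor
  · have h3 : 1 - ∑ i, 2 * x i / m ≤ ∏ i, (1 - 2 * x i / m) := by
      refine one_sub_sum_le_prod univ _ (fun i _ => ?_) fun i _ => ?_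
      · have := hx0 i
        positivity
      · rw [div_le_one hm]
        have : x i ≤ ξ := by
          rw [← hx]
          exact single_le_sum (fun j _ => hx0 j) (mem_univ i)
        linarith only [this, h2]
    have h4 : ∏ i, (1 - 2 * x i / m) ≤ ∏ i, (b i * (b i - d i + x i)⁻¹) := by
      refine prod_le_prod (fun i _ => ?_) fun i _ => ?_
      · rw [sub_nonneg, div_le_one hm]
        have : x i ≤ ξ := by
          rw [← hx]
          exact single_le_sum (fun j _ => hx0 j) (mem_univ i)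
        linarith only [this, h2]
      · rw [← div_eq_mul_inv, le_div_iff₀ (ha0 i)]
        have h5 : x i ≤ 2 * x i / m * (b i - d i + x i) := by
          rw [div_mul_eq_mul_div, le_div_iff₀ hm]
          have := mul_le_mul_of_nonneg_left (ha i) (hx0 i)
          linarith only [this]
        have := hd0 i
        linarith only [this, h5]
    have h5 : ∑ i, 2 * x i / m = 2 * (ξ / m) := by
      rw [← hx, sum_div, mul_sum]
      refine sum_congr rfl fun i _ => by ring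
    rw [h5] at h3
    linarith only [h4, h3, hsτ, hsσ]
  · have h3 : ∏ i, (b i * (b i - d i + x i)⁻¹) ≤ ∏ i, Real.exp (2 * d i / m) := by
      refine prod_le_prod (fun i _ => ?_) fun i _ => ?_
      · exact mul_nonneg (hb i).le (inv_nonneg.2 (ha0 i).le)
      · refine le_trans ?_ (Real.add_one_le_exp _)
        rw [← div_eq_mul_inv, div_le_iff₀ (ha0 i)]
        have h5 : d i ≤ 2 * d i / m * (b i - d i + x i) := by
          rw [div_mul_eq_mul_div, le_div_iff₀ hm]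
          have := mul_le_mul_of_nonneg_left (ha i) (hd0 i)
          linarith only [this]
        have := hx0 i
        linarith only [this, h5]
    rw [← Real.exp_sum] at h3
    have h5 : ∑ i, 2 * d i / m = 2 * (SS / m) := by
      rw [← hd, sum_div, mul_sum]
      refine sum_congr rfl fun i _ => by ring
    rw [h5] at h3
    have h6 : 2 * (SS / m) ≤ 1 := by
      rw [← mul_div_assoc, div_le_one hm]
      exact h1
    have h7 := Real.abs_exp_sub_one_le (x := 2 * (SS / m)) (by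
      rw [abs_of_nonneg (by linarith only [hsσ])]
      exact h6)
    rw [abs_of_nonneg (a := 2 * (SS / m)) (by linarith only [hsσ])] at h7
    have h8 := (abs_le.1 h7).2
    linarith only [h8, h3, hsτ]

/-- the real inequality behind `pointG` -/
theorem PointG_real {R : ℕ} {b d x : Fin R → ℝ} {m N δ ε κ g C A ρ SS ξ α eb ex ea : ℝ}
    (hm : 0 < m) (hN : 0 < N) (hα : 0 < α) (hκ : 0 < κ) (hκ1 : κ ≤ 1) (hδ1 : δ ≤ 1 / 8)
    (hA1 : A ≤ 1 / 8) (hCm : C / m ≤ 1 / 8) (hb1 : ∀ i, (1 - δ) * m ≤ b i)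
    (hd0 : ∀ i, 0 ≤ d i) (hx0 : ∀ i, 0 ≤ x i) (hd : ∑ i, d i = SS) (hx : ∑ i, x i = ξ)
    (hSS : SS ≤ A * m) (hξ : ξ ≤ C)
    (k1 : 9 * κ + 4 * (α + 1) * A + 8 * (α + 1) * (C / m) ≤ g / 32)
    (k2 : 9 * κ + 4 * (α + 1) * (C / m) ≤ ε * α)
    (E1 : ex - ea ≤ N / m * (α + κ) * SS) (E2 : ex - eb ≤ N / m * (α + κ) * ξ)
    (E3 : N / m * (α - κ) * ξ ≤ ex - eb) (E4 : ea ≤ ex) (E4' : eb ≤ ex) (E5 : eb ≤ N * (1 + κ))
    (E6 : N * (1 - κ) ≤ eb) (hρ1 : N ≤ ρ) (hρ2 : ρ ≤ N * (1 + κ)) :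
    (eb - ρ) - N / m * ((α + g / 32) * SS) + (1 - ε) * (N / m) * (α * ξ) ≤
      (ea - ρ) * ((∏ i, b i) * (∏ i, (b i - d i + x i)⁻¹)) := by
  have hSS0 : 0 ≤ SS := by rw [← hd]; exact sum_nonneg fun i _ => hd0 i
  have hξ0 : 0 ≤ ξ := by rw [← hx]; exact sum_nonneg fun i _ => hx0 i
  have hdi : ∀ i, d i ≤ SS := fun i => by
    rw [← hd]
    exact single_le_sum (fun j _ => hd0 j) (mem_univ i)
  have hA2 : SS ≤ 1 / 8 * m := by
    have : A * m ≤ 1 / 8 * m := mul_le_mul_of_nonneg_right hA1 hm.le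
    linarith only [this, hSS]
  have hC1 : C ≤ 1 / 8 * m := by rwa [div_le_iff₀ hm] at hCm
  have hblow : ∀ i, 7 / 8 * m ≤ b i := by
    intro i
    have h1 := hb1 i
    have h2 : (1 - δ) * m = m - δ * m := by ring
    have h3 : δ * m ≤ 1 / 8 * m := mul_le_mul_of_nonneg_right hδ1 hm.le
    linarith only [h3, h1]
  have hb0 : ∀ i, 0 < b i := fun i => lt_of_lt_of_le (by positivity) (hblow i)
  have ha2 : ∀ i, m / 2 ≤ b i - d i + x i := fun i => by
    have := hblow i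
    have := hdi i
    have := hx0 i
    linarith [this, hA2, hm]
  have hq := PointG_quot hm hd0 hx0 hd hx ha2 hb0 (by linarith only [hA2, hm]) (by linarith only [hC1,
                                                                                     hξ, hm])
  set q : ℝ := (∏ i, b i) * (∏ i, (b i - d i + x i)⁻¹) with hqdef
  set σ : ℝ := SS / m with hσ
  set τ : ℝ := ξ / m with hτ
  have hσ0 : 0 ≤ σ := by positivity
  have hτ0 : 0 ≤ τ := by positivity
  have hσA : σ ≤ A := by rw [hσ, div_le_iff₀ hm]; exact hSS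
  have hτC : τ ≤ C / m := div_le_div_of_nonneg_right hξ hm.le
  have hSS' : SS = σ * m := by rw [hσ]; field_simp
  have hξ' : ξ = τ * m := by rw [hτ]; field_simp
  have e1 : ∀ c y : ℝ, N / m * c * (y * m) = N * (c * y) := by
    intro c y
    field_simp
  have E1' : ex - ea ≤ N * ((α + κ) * σ) := by rw [← e1, ← hSS']; exact E1
  have E2' : ex - eb ≤ N * ((α + κ) * τ) := by rw [← e1, ← hξ']; exact E2
  have E3' : N * ((α - κ) * τ) ≤ ex - eb := by rw [← e1, ← hξ']; exact E3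
  have hc0 : 0 ≤ α + κ := by linarith only [hκ, hα]
  have hNσ : 0 ≤ N * ((α + κ) * σ) := mul_nonneg hN.le (mul_nonneg hc0 hσ0)
  have hNτ : 0 ≤ N * ((α + κ) * τ) := mul_nonneg hN.le (mul_nonneg hc0 hτ0)
  have hNκ : 0 ≤ N * κ := mul_nonneg hN.le hκ.le
  have F1 : |ea - ρ| ≤ N * (2 * κ + (α + κ) * (σ + τ)) := by
    have g7 : N * (2 * κ + (α + κ) * (σ + τ)) =
        2 * (N * κ) + N * ((α + κ) * σ) + N * ((α + κ) * τ) := by ring
    have g10 : N * (1 + κ) = N + N * κ := by ring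
    have g11 : N * (1 - κ) = N - N * κ := by ring
    rw [g7, abs_le]
    rw [g10] at E5 hρ2
    rw [g11] at E6
    constructor
    · linarith only [E2', E1', hρ2, E6, E4']
    · linarith only [E2', E1', hρ1, E6, E5, E4]
  have hc1 : 0 ≤ 2 * κ + (α + κ) * (σ + τ) := by positivity
  have F2 : -(N * ((2 * κ + (α + κ) * (σ + τ)) * (4 * (σ + τ)))) ≤ (ea - ρ) * (q - 1) := by
    have h1 : |(ea - ρ) * (q - 1)| ≤ (N * (2 * κ + (α + κ) * (σ + τ))) * (4 * (σ + τ)) := by
      rw [abs_mul]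
      exact mul_le_mul F1 hq (abs_nonneg _) (mul_nonneg hN.le hc1)
    have h2 := (abs_le.1 h1).1
    linarith only [h2]
  have F3 : (ea - ρ) * q = (ea - ρ) + (ea - ρ) * (q - 1) := by ring
  rw [F3]
  have G1 : N / m * ((α + g / 32) * SS) = N * ((α + g / 32) * σ) := by
    rw [← e1, ← hSS']
    ring
  have G2 : (1 - ε) * (N / m) * (α * ξ) = N * ((1 - ε) * (α * τ)) := by
    rw [hξ']
    field_simp
  rw [G1, G2]
  have key : 0 ≤ (α + g / 32) * σ - (1 - ε) * (α * τ) + (α - κ) * τ -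
      (α + κ) * σ - (2 * κ + (α + κ) * (σ + τ)) * (4 * (σ + τ)) := by
    have hc2 : α + κ ≤ α + 1 := by linarith only [hκ1]
    have hcm : 0 ≤ C / m := le_trans hτ0 hτC
    have hA0 : 0 ≤ A := le_trans hσ0 hσA
    have j1 : σ * σ ≤ A * σ := mul_le_mul_of_nonneg_right hσA hσ0
    have j2 : τ * τ ≤ C / m * τ := mul_le_mul_of_nonneg_right hτC hτ0
    have j3 : τ * σ ≤ C / m * σ := mul_le_mul_of_nonneg_right hτC hσ0
    have j4 : (σ + τ) * (σ + τ) ≤ A * σ + 2 * (C / m * σ) + C / m * τ := by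
      have : (σ + τ) * (σ + τ) = σ * σ + 2 * (τ * σ) + τ * τ := by ring
      linarith only [j3, j2, j1]
    have j5 : (α + κ) * ((σ + τ) * (σ + τ)) ≤
        (α + 1) * (A * σ + 2 * (C / m * σ) + C / m * τ) :=
      mul_le_mul hc2 j4 (by positivity) (by linarith only [hα])
    have j6 : 0 ≤ σ * (g / 32 - 9 * κ - 4 * (α + 1) * A - 8 * (α + 1) * (C / m)) :=
      mul_nonneg hσ0 (by linarith only [k1])
    have j7 : 0 ≤ τ * (ε * α - 9 * κ - 4 * (α + 1) * (C / m)) :=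
      mul_nonneg hτ0 (by linarith only [k2])
    have e : (α + g / 32) * σ - (1 - ε) * (α * τ) + (α - κ) * τ -
        (α + κ) * σ - (2 * κ + (α + κ) * (σ + τ)) * (4 * (σ + τ)) =
        σ * (g / 32 - 9 * κ - 4 * (α + 1) * A - 8 * (α + 1) * (C / m)) +
        τ * (ε * α - 9 * κ - 4 * (α + 1) * (C / m)) +
        4 * ((α + 1) * (A * σ + 2 * (C / m * σ) + C / m * τ) -
          (α + κ) * ((σ + τ) * (σ + τ))) := by ring
    rw [e]
    linarith only [j7, j6, j5]
  have key' := mul_nonneg hN.le key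
  have e2 : N * ((α + g / 32) * σ - (1 - ε) * (α * τ) + (α - κ) * τ -
      (α + κ) * σ - (2 * κ + (α + κ) * (σ + τ)) * (4 * (σ + τ))) =
      N * ((α + g / 32) * σ) - N * ((1 - ε) * (α * τ)) + N * ((α - κ) * τ) -
      N * ((α + κ) * σ) - N * ((2 * κ + (α + κ) * (σ + τ)) * (4 * (σ + τ))) := by ring
  rw [e2] at key'
  linarith only [key', F2, E3', E1']

/-- the final assembly, real numbers -/
theorem PointG_fin {P mR m N SS S2 ξ Ks Z Kt α g s ε k2 E0 F0 : ℝ} (hm : 0 < m)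
    (hmR : 0 < mR) (hN : 0 ≤ N) (hP : (1 - ε / 64) * mR ≤ P) (hε : 0 < ε) (hε1 : ε ≤ 1)
    (hεs : ε * s ≤ g) (hg : 0 < g) (hs : 0 ≤ s) (hk : k2 = α - g / 4) (hk0 : 0 ≤ k2) (hk2 : k2 ≤ s)
    (hSS0 : 0 ≤ SS) (hS20 : 0 ≤ S2) (hS2 : S2 ≤ SS) (hKs : 0 ≤ Ks) (hZ : 0 ≤ Z)
    (hKt : k2 * (SS - S2) + Ks ≤ Kt)
    (h1 : E0 - N / m * ((α + g / 32) * SS) + (1 - ε) * (N / m) * (α * ξ) ≤ F0) :
    E0 - N / m * (3 / 8 * g * SS + s * S2) + (1 - ε) * (N / m) * (α * ξ + Ks + Z) ≤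
      F0 + P * (N / mR * (Kt + Z) / m) := by
  have hN' : 0 ≤ N / m := div_nonneg hN hm.le
  have hW0 : 0 ≤ k2 * (SS - S2) + Ks + Z := by
    have : 0 ≤ k2 * (SS - S2) := mul_nonneg hk0 (by linarith only [hS2])
    linarith only [this, hZ, hKs]
  have hP2 : (1 - ε / 64) * (N / m * (k2 * (SS - S2) + Ks + Z)) ≤
      P * (N / mR * (Kt + Z) / m) := by
    have h1 : P * (N / mR * (Kt + Z) / m) = P / mR * (N / m * (Kt + Z)) := by
      field_simp
    rw [h1]
    have h2 : 1 - ε / 64 ≤ P / mR := by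
      rw [le_div_iff₀ hmR]
      exact hP
    have h3 : N / m * (k2 * (SS - S2) + Ks + Z) ≤ N / m * (Kt + Z) :=
      mul_le_mul_of_nonneg_left (by linarith only [hKt]) hN'
    exact mul_le_mul h2 h3 (mul_nonneg hN' hW0) (le_trans (by linarith only [hε1]) h2)
  have hfin : N / m * (-(3 / 8 * g * SS + s * S2) + (1 - ε) * (Ks + Z) +
      (α + g / 32) * SS) ≤ N / m * ((1 - ε / 64) * (k2 * (SS - S2) + Ks + Z)) := by
    refine mul_le_mul_of_nonneg_left ?_ hN'
    have k1 : ε / 64 * k2 ≤ g / 64 := by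
      have : ε * k2 ≤ ε * s := mul_le_mul_of_nonneg_left hk2 hε.le
      linarith only [this, hεs]
    have g1 : 0 ≤ SS * (3 / 32 * g - ε / 64 * k2) := mul_nonneg hSS0 (by linarith only [k1, hg])
    have g2 : 0 ≤ ε / 64 * k2 := mul_nonneg (by linarith only [hε]) hk0
    have g4 : 0 ≤ S2 * (s - (1 - ε / 64) * k2) := mul_nonneg hS20 (by linarith only [g2, hk2])
    have g5 : 0 ≤ (ε - ε / 64) * (Ks + Z) := mul_nonneg (by linarith only [hε]) (by linarith only [hZ,
                                                                                      hKs])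
    have e : (1 - ε / 64) * (k2 * (SS - S2) + Ks + Z) - (-(3 / 8 * g * SS + s * S2) +
        (1 - ε) * (Ks + Z) + (α + g / 32) * SS) = SS * (3 / 32 * g - ε / 64 * k2) +
        S2 * (s - (1 - ε / 64) * k2) + (ε - ε / 64) * (Ks + Z) := by
      rw [hk]
      ring
    linarith only [e, g5, g4, g1]
  have e2 : (1 - ε) * (N / m) * (α * ξ + Ks + Z) =
      (1 - ε) * (N / m) * (α * ξ) + N / m * ((1 - ε) * (Ks + Z)) := by
    ring
  have e3 : N / m * (-(3 / 8 * g * SS + s * S2) + (1 - ε) * (Ks + Z) +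
      (α + g / 32) * SS) = -(N / m * (3 / 8 * g * SS + s * S2)) +
      N / m * ((1 - ε) * (Ks + Z)) + N / m * ((α + g / 32) * SS) := by ring
  have e4 : (1 - ε / 64) * (N / m * (k2 * (SS - S2) + Ks + Z)) =
      N / m * ((1 - ε / 64) * (k2 * (SS - S2) + Ks + Z)) := by ring
  rw [e2]
  rw [e3] at hfin
  rw [e4] at hP2
  linarith only [hfin, hP2, h1]

variable {ι : Type*} [Fintype ι] [DecidableEq ι] (J : SimpleGraph ι) [DecidableRel J.Adj]

/-! ### helper lemmas: differences -/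

theorem PointG_up_same {κ : Type*} [DecidableEq κ] (a : κ → ℕ) (k : κ) : up a k k = a k + 1 := by
  simp [up]

theorem PointG_up_ne {κ : Type*} [DecidableEq κ] (a : κ → ℕ) {k j : κ} (h : j ≠ k) :
    up a k j = a j := by
  simp [up, h]

/-- one step down -/
theorem PointG_down {κ : Type*} [DecidableEq κ] {T : Finset κ} {a b : κ → ℕ}
    (hab : ∀ k ∈ T, a k ≤ b k) {n : ℕ} (hn : n + 1 = ∑ j ∈ T, (b j - a j)) :
    ∃ (l : κ) (b' : κ → ℕ), l ∈ T ∧ up b' l = b ∧ (∀ k ∈ T, a k ≤ b' k) ∧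
      (∀ k ∈ T, b' k ≤ b k) ∧ n = ∑ j ∈ T, (b' j - a j) ∧
      ∑ j ∈ T, (b j : ℝ) = ∑ j ∈ T, (b' j : ℝ) + 1 := by
  obtain ⟨l, hl, hlt⟩ : ∃ l ∈ T, a l < b l := by
    by_contra hcon
    push Not at hcon
    have : ∑ j ∈ T, (b j - a j) = 0 :=
      Finset.sum_eq_zero fun j hj => by have := hcon j hj; omega
    omega
  set b' : κ → ℕ := Function.update b l (b l - 1) with hb'
  have hb'l : b' l = b l - 1 := by simp [hb']
  have hb'j : ∀ j, j ≠ l → b' j = b j := fun j hj => by simp [hb', hj]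
  have hup : up b' l = b := by
    funext j
    by_cases hj : j = l
    · subst hj
      rw [PointG_up_same, hb'l]
      omega
    · rw [PointG_up_ne _ hj, hb'j j hj]
  refine ⟨l, b', hl, hup, ?_, ?_, ?_, ?_⟩
  · intro j hj
    by_cases hjl : j = l
    · subst hjl
      rw [hb'l]
      omega
    · rw [hb'j j hjl]
      exact hab j hj
  · intro j hj
    by_cases hjl : j = l
    · subst hjl
      rw [hb'l]
      omega
    · rw [hb'j j hjl]
  · have e1 : ∑ j ∈ T, (b j - a j) = (b l - a l) + ∑ j ∈ T.erase l, (b j - a j) :=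
      (Finset.add_sum_erase T _ hl).symm
    have e2 : ∑ j ∈ T, (b' j - a j) = (b' l - a l) + ∑ j ∈ T.erase l, (b' j - a j) :=
      (Finset.add_sum_erase T _ hl).symm
    have e3 : ∑ j ∈ T.erase l, (b' j - a j) = ∑ j ∈ T.erase l, (b j - a j) :=
      sum_congr rfl fun j hj => by rw [hb'j j (ne_of_mem_erase hj)]
    rw [e3, hb'l] at e2
    omega
  · rw [← Finset.add_sum_erase T (fun j => (b j : ℝ)) hl,
      ← Finset.add_sum_erase T (fun j => (b' j : ℝ)) hl, hb'l]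
    have : ∑ j ∈ T.erase l, (b' j : ℝ) = ∑ j ∈ T.erase l, (b j : ℝ) :=
      sum_congr rfl fun j hj => by rw [hb'j j (ne_of_mem_erase hj)]
    rw [this]
    have h1 : 1 ≤ b l := by omega
    push_cast [Nat.cast_sub h1]
    ring

/-- the difference is at most the number of steps times the maximal first difference -/
theorem PointG_steps_le {κ : Type*} [DecidableEq κ] {T : Finset κ} {a b : κ → ℕ} {U : ℝ}
    (hab : ∀ k ∈ T, a k ≤ b k)
    (hU : ∀ c : κ → ℕ, (∀ k ∈ T, a k ≤ c k) → (∀ k ∈ T, c k ≤ b k) → ∀ k ∈ T,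
      (fJ J T (up c k) : ℝ) - fJ J T c ≤ U) :
    (fJ J T b : ℝ) - fJ J T a ≤ U * (∑ k ∈ T, (b k : ℝ) - ∑ k ∈ T, (a k : ℝ)) := by
  obtain ⟨n, hn⟩ : ∃ n : ℕ, n = ∑ j ∈ T, (b j - a j) := ⟨_, rfl⟩
  induction n generalizing b with
  | zero =>
    have h0 : ∀ j ∈ T, b j = a j := by
      intro j hj
      have h1 := (Finset.sum_eq_zero_iff.mp hn.symm) j hj
      have h2 := hab j hj
      omega
    have h1 : fJ J T b = fJ J T a := fJ_congr J h0
    have h3 : ∑ j ∈ T, (b j : ℝ) = ∑ j ∈ T, (a j : ℝ) := sum_congr rfl fun j hj => by rw [h0 j hj]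
    rw [h1, h3]
    simp
  | succ n ih =>
    obtain ⟨l, b', hl, hup, h1, h2, h3, h4⟩ := PointG_down hab hn
    have h5 := ih h1 (fun c hc1 hc2 k hk => hU c hc1 (fun j hj => (hc2 j hj).trans (h2 j hj)) k hk) h3
    have h6 := hU b' h1 h2 l hl
    rw [hup] at h6
    rw [h4]
    have e : U * (∑ j ∈ T, (b' j : ℝ) + 1 - ∑ k ∈ T, (a k : ℝ)) =
        U * (∑ j ∈ T, (b' j : ℝ) - ∑ k ∈ T, (a k : ℝ)) + U := by ring
    rw [e]
    linarith only [h6, h5]

/-- the difference is at least the number of steps times the minimal first difference -/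
theorem PointG_le_steps {κ : Type*} [DecidableEq κ] {T : Finset κ} {a b : κ → ℕ} {L : ℝ}
    (hab : ∀ k ∈ T, a k ≤ b k)
    (hL : ∀ c : κ → ℕ, (∀ k ∈ T, a k ≤ c k) → (∀ k ∈ T, c k ≤ b k) → ∀ k ∈ T,
      L ≤ (fJ J T (up c k) : ℝ) - fJ J T c) :
    L * (∑ k ∈ T, (b k : ℝ) - ∑ k ∈ T, (a k : ℝ)) ≤ (fJ J T b : ℝ) - fJ J T a := by
  obtain ⟨n, hn⟩ : ∃ n : ℕ, n = ∑ j ∈ T, (b j - a j) := ⟨_, rfl⟩
  induction n generalizing b with
  | zero =>
    have h0 : ∀ j ∈ T, b j = a j := by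
      intro j hj
      have h1 := (Finset.sum_eq_zero_iff.mp hn.symm) j hj
      have h2 := hab j hj
      omega
    have h1 : fJ J T b = fJ J T a := fJ_congr J h0
    have h3 : ∑ j ∈ T, (b j : ℝ) = ∑ j ∈ T, (a j : ℝ) := sum_congr rfl fun j hj => by rw [h0 j hj]
    rw [h1, h3]
    simp
  | succ n ih =>
    obtain ⟨l, b', hl, hup, h1, h2, h3, h4⟩ := PointG_down hab hn
    have h5 := ih h1 (fun c hc1 hc2 k hk => hL c hc1 (fun j hj => (hc2 j hj).trans (h2 j hj)) k hk) h3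
    have h6 := hL b' h1 h2 l hl
    rw [hup] at h6
    rw [h4]
    have e : L * (∑ j ∈ T, (b' j : ℝ) + 1 - ∑ k ∈ T, (a k : ℝ)) =
        L * (∑ j ∈ T, (b' j : ℝ) - ∑ k ∈ T, (a k : ℝ)) + L := by ring
    rw [e]
    linarith only [h6, h5]

/-- upper bound for the first difference -/
theorem PointG_D_up (hcs : 2 ≤ Fintype.card ι) {R m : ℕ} {δ E : ℝ} (hδ : 0 ≤ δ) (hδ1 : δ ≤ 1 / 2)
    {k : Fin R} (hD : (fJ J univ (up (fun _ : Fin R => m) k) : ℝ) -
      fJ J univ (fun _ : Fin R => m) ≤ E)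
    {c : Fin R → ℕ} (hc : ∀ l, (c l : ℝ) ≤ (1 + 2 * δ) * m) :
    (fJ J univ (up c k) : ℝ) - fJ J univ c ≤
      E + (Fintype.card ι : ℝ) ^ 2 * (2 * R * m) ^ (Fintype.card ι - 2) * (2 * δ * R * m) := by
  set c' : Fin R → ℕ := fun l => max (c l) m with hc'
  have h1 := (D_lip J hcs (T := univ) (a := c) (b := c') (fun l _ => le_max_left _ _)
    (mem_univ k)).1
  have h2 := (D_lip J hcs (T := univ) (a := fun _ => m) (b := c') (fun l _ => le_max_right _ _)
    (mem_univ k)).2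
  have hm0 : (0 : ℝ) ≤ m := Nat.cast_nonneg m
  have h3 : ∀ l, (c' l : ℝ) ≤ (1 + 2 * δ) * m := by
    intro l
    have : (c' l : ℝ) = max (c l : ℝ) m := by simp [hc']
    rw [this]
    refine max_le (hc l) ?_
    have : 0 ≤ 2 * δ * m := by positivity
    linarith only [this]
  have h4 : ∑ j : Fin R, (c' j : ℝ) ≤ R * ((1 + 2 * δ) * m) := by
    refine (sum_le_card_nsmul univ _ _ fun l _ => h3 l).trans (le_of_eq ?_)
    rw [card_univ, Fintype.card_fin, nsmul_eq_mul]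
  have h5 : ∑ _j : Fin R, (m : ℝ) = R * m := by
    rw [sum_const, card_univ, Fintype.card_fin, nsmul_eq_mul]
  have h6 : (∑ j : Fin R, (c' j : ℝ)) ^ (Fintype.card ι - 2) ≤
      (2 * R * m) ^ (Fintype.card ι - 2) := by
    refine pow_le_pow_left₀ (sum_nonneg fun _ _ => Nat.cast_nonneg _) (h4.trans ?_) _
    have : (1 + 2 * δ) * m ≤ 2 * m := mul_le_mul_of_nonneg_right (by linarith only [hδ1]) hm0
    have h7 := mul_le_mul_of_nonneg_left this (Nat.cast_nonneg (α := ℝ) R)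
    linarith only [h7]
  have h7 : ∑ j : Fin R, (c' j : ℝ) - ∑ _j : Fin R, (m : ℝ) ≤ 2 * δ * R * m := by
    rw [h5]
    have : (R : ℝ) * ((1 + 2 * δ) * m) = R * m + 2 * δ * R * m := by ring
    linarith only [h4]
  have h8 : 0 ≤ ∑ j : Fin R, (c' j : ℝ) - ∑ _j : Fin R, (m : ℝ) := by
    rw [← sum_sub_distrib]
    refine sum_nonneg fun j _ => ?_
    have : (m : ℝ) ≤ c' j := by
      have : (c' j : ℝ) = max (c j : ℝ) m := by simp [hc']
      rw [this]
      exact le_max_right _ _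
    linarith only [this]
  have h9 : (Fintype.card ι : ℝ) ^ 2 * (∑ j : Fin R, (c' j : ℝ)) ^ (Fintype.card ι - 2) *
      (∑ j : Fin R, (c' j : ℝ) - ∑ _j : Fin R, (m : ℝ)) ≤
      (Fintype.card ι : ℝ) ^ 2 * (2 * R * m) ^ (Fintype.card ι - 2) * (2 * δ * R * m) := by
    refine mul_le_mul (mul_le_mul_of_nonneg_left h6 (by positivity)) h7 h8 (by positivity)
  linarith only [h9, h2, h1, hD]

/-- lower bound for the first difference -/
theorem PointG_D_low (hcs : 2 ≤ Fintype.card ι) {R m : ℕ} {δ E : ℝ} (hδ : 0 ≤ δ)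
    {k : Fin R} (hD : E ≤ (fJ J univ (up (fun _ : Fin R => m) k) : ℝ) -
      fJ J univ (fun _ : Fin R => m))
    {c : Fin R → ℕ} (hc : ∀ l, (1 - δ) * m ≤ (c l : ℝ)) :
    E - (Fintype.card ι : ℝ) ^ 2 * (2 * R * m) ^ (Fintype.card ι - 2) * (2 * δ * R * m) ≤
      (fJ J univ (up c k) : ℝ) - fJ J univ c := by
  set c' : Fin R → ℕ := fun l => min (c l) m with hc'
  have h1 := (D_lip J hcs (T := univ) (a := c') (b := c) (fun l _ => min_le_left _ _)
    (mem_univ k)).1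
  have h2 := (D_lip J hcs (T := univ) (a := c') (b := fun _ => m) (fun l _ => min_le_right _ _)
    (mem_univ k)).2
  have hm0 : (0 : ℝ) ≤ m := Nat.cast_nonneg m
  have h3 : ∀ l, (1 - δ) * m ≤ (c' l : ℝ) := by
    intro l
    have : (c' l : ℝ) = min (c l : ℝ) m := by simp [hc']
    rw [this]
    refine le_min (hc l) ?_
    have : 0 ≤ δ * m := by positivity
    linarith only [this]
  have h4 : R * ((1 - δ) * m) ≤ ∑ j : Fin R, (c' j : ℝ) := by
    refine le_trans (le_of_eq ?_) (card_nsmul_le_sum univ _ _ fun l _ => h3 l)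
    rw [card_univ, Fintype.card_fin, nsmul_eq_mul]
  have h5 : ∑ _j : Fin R, (m : ℝ) = R * m := by
    rw [sum_const, card_univ, Fintype.card_fin, nsmul_eq_mul]
  have h6 : (∑ _j : Fin R, (m : ℝ)) ^ (Fintype.card ι - 2) ≤
      (2 * R * m) ^ (Fintype.card ι - 2) := by
    refine pow_le_pow_left₀ (sum_nonneg fun _ _ => Nat.cast_nonneg _) ?_ _
    rw [h5]
    have : 0 ≤ (R : ℝ) * m := by positivity
    linarith only [this]
  have h7 : ∑ _j : Fin R, (m : ℝ) - ∑ j : Fin R, (c' j : ℝ) ≤ 2 * δ * R * m := by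
    rw [h5]
    have : (R : ℝ) * ((1 - δ) * m) = R * m - δ * R * m := by ring
    have h8 : 0 ≤ δ * R * m := by positivity
    linarith only [h8, h4]
  have h8 : 0 ≤ ∑ _j : Fin R, (m : ℝ) - ∑ j : Fin R, (c' j : ℝ) := by
    rw [← sum_sub_distrib]
    refine sum_nonneg fun j _ => ?_
    have : (c' j : ℝ) ≤ m := by
      have : (c' j : ℝ) = min (c j : ℝ) m := by simp [hc']
      rw [this]
      exact min_le_right _ _
    linarith only [this]
  have h9 : (Fintype.card ι : ℝ) ^ 2 * (∑ _j : Fin R, (m : ℝ)) ^ (Fintype.card ι - 2) *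
      (∑ _j : Fin R, (m : ℝ) - ∑ j : Fin R, (c' j : ℝ)) ≤
      (Fintype.card ι : ℝ) ^ 2 * (2 * R * m) ^ (Fintype.card ι - 2) * (2 * δ * R * m) := by
    refine mul_le_mul (mul_le_mul_of_nonneg_left h6 (by positivity)) h7 h8 (by positivity)
  linarith only [h9, h2, h1, hD]

/-- the first differences near constant class sizes -/
theorem PointG_D (hcs : 2 ≤ Fintype.card ι) {R m : ℕ} (hR : 1 ≤ R) (hm : 1 ≤ m)
    {α κ δ C₁ K : ℝ} (hδ : 0 ≤ δ) (hδ1 : δ ≤ 1 / 2) (hC₁ : 0 ≤ C₁)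
    (hM : ((R : ℝ) * m) ^ Fintype.card ι ≤ 2 * M0 J R m)
    (hK : K = (Fintype.card ι : ℝ) ^ 2 * (2 * R) ^ (Fintype.card ι - 2) * (2 * R))
    (hKδ : 4 * K * δ ≤ κ) (hCm : 4 * (C₁ / m) ≤ κ)
    (hD : ∀ k : Fin R, |(fJ J univ (up (fun _ : Fin R => m) k) : ℝ) -
      fJ J univ (fun _ : Fin R => m) - α * M0 J R m / m| ≤ C₁ * (m : ℝ) ^ (Fintype.card ι - 2)) :
    (∀ c : Fin R → ℕ, (∀ l, (c l : ℝ) ≤ (1 + 2 * δ) * m) → ∀ k,
      (fJ J univ (up c k) : ℝ) - fJ J univ c ≤ M0 J R m / m * (α + κ)) ∧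
    ∀ c : Fin R → ℕ, (∀ l, (1 - δ) * m ≤ (c l : ℝ)) → ∀ k,
      M0 J R m / m * (α - κ) ≤ (fJ J univ (up c k) : ℝ) - fJ J univ c := by
  obtain ⟨n, hn⟩ : ∃ n, Fintype.card ι = n + 2 := ⟨Fintype.card ι - 2, by omega⟩
  have hn' : Fintype.card ι - 2 = n := by omega
  have hm0 : (0 : ℝ) < m := by exact_mod_cast hm
  have hR0 : (1 : ℝ) ≤ R := by exact_mod_cast hR
  set q : ℝ := M0 J R m / m with hq
  have hq1 : (m : ℝ) ^ (n + 1) ≤ 2 * q := by
    have h1 : (m : ℝ) ^ (n + 2) ≤ ((R : ℝ) * m) ^ (n + 2) :=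
      pow_le_pow_left₀ hm0.le (by nlinarith) _
    rw [hn] at hM
    have h2 : (m : ℝ) ^ (n + 1) * m ≤ 2 * M0 J R m := by
      rw [← pow_succ]
      exact h1.trans hM
    rw [hq, ← mul_div_assoc, le_div_iff₀ hm0]
    exact h2
  have hq0 : 0 < q := by
    have : 0 < (m : ℝ) ^ (n + 1) := by positivity
    linarith only [this, hq1]
  have hK0 : 0 ≤ K := by rw [hK]; positivity
  have hκ : 0 ≤ κ := le_trans (by positivity) hKδ
  have e1 : C₁ * (m : ℝ) ^ n ≤ q * (κ / 2) := by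
    have h1 : C₁ * (m : ℝ) ^ n = C₁ / m * (m : ℝ) ^ (n + 1) := by
      rw [pow_succ]
      field_simp
    rw [h1]
    have h2 : C₁ / m * (m : ℝ) ^ (n + 1) ≤ κ / 4 * (2 * q) :=
      mul_le_mul (by linarith only [hCm]) hq1 (by positivity) (by linarith only [hκ])
    linarith only [h2]
  have e2 : (Fintype.card ι : ℝ) ^ 2 * (2 * R * m) ^ n * (2 * δ * R * m) ≤ q * (κ / 2) := by
    have h1 : (Fintype.card ι : ℝ) ^ 2 * (2 * R * m) ^ n * (2 * δ * R * m) =
        K * δ * (m : ℝ) ^ (n + 1) := by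
      rw [hK, hn', mul_pow, pow_succ]
      ring
    rw [h1]
    have h2 : K * δ * (m : ℝ) ^ (n + 1) ≤ κ / 4 * (2 * q) :=
      mul_le_mul (by linarith only [hKδ]) hq1 (by positivity) (by linarith only [hκ])
    linarith only [h2]
  have e3 : α * M0 J R m / m = q * α := by
    rw [hq]
    ring
  constructor
  · intro c hc k
    have h1 := (abs_le.1 (hD k)).2
    have h2 := PointG_D_up J hcs hδ hδ1 (k := k) (E := q * α + q * (κ / 2)) (by
      rw [hn', e3] at h1
      linarith only [h1, e1]) hc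
    rw [hn'] at h2
    have e4 : q * (α + κ) = q * α + q * (κ / 2) + q * (κ / 2) := by ring
    rw [e4]
    linarith only [h2, e2]
  · intro c hc k
    have h1 := (abs_le.1 (hD k)).1
    have h2 := PointG_D_low J hcs hδ (k := k) (E := q * α - q * (κ / 2)) (by
      rw [hn', e3] at h1
      linarith only [h1, e1]) hc
    rw [hn'] at h2
    have e4 : q * (α - κ) = q * α - q * (κ / 2) - q * (κ / 2) := by ring
    rw [e4]
    linarith only [h2, e2]

/-- the value at sizes close to `m` -/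
theorem PointG_near {R m : ℕ} {α κ δ : ℝ} (hm : 1 ≤ m) (hδ : 0 ≤ δ) (hN : 0 ≤ M0 J R m)
    (hακ : 0 ≤ α + κ) (hs : (α + κ) * R * δ ≤ κ)
    (hU : ∀ c : Fin R → ℕ, (∀ l, (c l : ℝ) ≤ (1 + 2 * δ) * m) → ∀ k,
      (fJ J univ (up c k) : ℝ) - fJ J univ c ≤ M0 J R m / m * (α + κ))
    {b : Fin R → ℕ} (hb1 : ∀ l, (1 - δ) * m ≤ (b l : ℝ)) (hb2 : ∀ l, (b l : ℝ) ≤ (1 + δ) * m) :
    (fJ J univ b : ℝ) ≤ M0 J R m * (1 + κ) ∧ M0 J R m * (1 - κ) ≤ (fJ J univ b : ℝ) := by
  have hm0 : (0 : ℝ) < m := by exact_mod_cast hm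
  have hδm : 0 ≤ δ * m := by positivity
  set q : ℝ := M0 J R m / m with hq
  have hq0 : 0 ≤ q := div_nonneg hN hm0.le
  have hqm : q * m = M0 J R m := by rw [hq]; field_simp
  have hM : M0 J R m = (fJ J (univ : Finset (Fin R)) (fun _ => m) : ℝ) := rfl
  have hcost : q * (α + κ) * (R * (δ * m)) ≤ M0 J R m * κ := by
    have : q * (α + κ) * (R * (δ * m)) = M0 J R m * ((α + κ) * R * δ) := by
      rw [← hqm]
      ring
    rw [this]
    exact mul_le_mul_of_nonneg_left hs hN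
  have h5 : ∑ _j : Fin R, (m : ℝ) = R * m := by
    rw [sum_const, card_univ, Fintype.card_fin, nsmul_eq_mul]
  constructor
  · set c : Fin R → ℕ := fun l => max (b l) m with hc
    have hcl : ∀ l, (c l : ℝ) ≤ (1 + δ) * m := by
      intro l
      have : (c l : ℝ) = max (b l : ℝ) m := by simp [hc]
      rw [this]
      exact max_le (hb2 l) (by linarith only [hδm])
    have h1 : (fJ J univ b : ℝ) ≤ fJ J univ c := by
      exact_mod_cast fJ_mono J (T := (univ : Finset (Fin R))) fun l _ => le_max_left _ _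
    have h2 := PointG_steps_le J (T := (univ : Finset (Fin R))) (a := fun _ => m) (b := c)
      (U := q * (α + κ)) (fun l _ => le_max_right _ _) (fun e _ he k _ => hU e (fun l => by
        have h3 : (e l : ℝ) ≤ c l := by exact_mod_cast he l (mem_univ l)
        have h4 := hcl l
        have : (1 + 2 * δ) * (m : ℝ) = (1 + δ) * m + δ * m := by ring
        linarith only [h4, h3, hδm]) k)
    have h3 : ∑ j : Fin R, (c j : ℝ) ≤ R * ((1 + δ) * m) := by
      refine (sum_le_card_nsmul univ _ _ fun l _ => hcl l).trans (le_of_eq ?_)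
      rw [card_univ, Fintype.card_fin, nsmul_eq_mul]
    have h4 : q * (α + κ) * (∑ j : Fin R, (c j : ℝ) - ∑ _j : Fin R, (m : ℝ)) ≤
        q * (α + κ) * (R * (δ * m)) := by
      refine mul_le_mul_of_nonneg_left ?_ (mul_nonneg hq0 hακ)
      rw [h5]
      have : (R : ℝ) * ((1 + δ) * m) = R * m + R * (δ * m) := by ring
      linarith only [h3]
    rw [← hM] at h2
    have e : M0 J R m * (1 + κ) = M0 J R m + M0 J R m * κ := by ring
    rw [e]
    linarith only [h4, h2, h1, hcost]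
  · set c : Fin R → ℕ := fun l => min (b l) m with hc
    have hcl : ∀ l, (1 - δ) * m ≤ (c l : ℝ) := by
      intro l
      have : (c l : ℝ) = min (b l : ℝ) m := by simp [hc]
      rw [this]
      exact le_min (hb1 l) (by linarith only [hδm])
    have h1 : (fJ J univ c : ℝ) ≤ fJ J univ b := by
      exact_mod_cast fJ_mono J (T := (univ : Finset (Fin R))) fun l _ => min_le_left _ _
    have h2 := PointG_steps_le J (T := (univ : Finset (Fin R))) (a := c) (b := fun _ => m)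
      (U := q * (α + κ)) (fun l _ => min_le_right _ _) (fun e _ he k _ => hU e (fun l => by
        have h3 : (e l : ℝ) ≤ m := by exact_mod_cast he l (mem_univ l)
        have : (1 + 2 * δ) * (m : ℝ) = m + 2 * (δ * m) := by ring
        linarith only [h3, hδm]) k)
    have h3 : R * ((1 - δ) * m) ≤ ∑ j : Fin R, (c j : ℝ) := by
      refine le_trans (le_of_eq ?_) (card_nsmul_le_sum univ _ _ fun l _ => hcl l)
      rw [card_univ, Fintype.card_fin, nsmul_eq_mul]
    have h4 : q * (α + κ) * (∑ _j : Fin R, (m : ℝ) - ∑ j : Fin R, (c j : ℝ)) ≤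
        q * (α + κ) * (R * (δ * m)) := by
      refine mul_le_mul_of_nonneg_left ?_ (mul_nonneg hq0 hακ)
      rw [h5]
      have : (R : ℝ) * ((1 - δ) * m) = R * m - R * (δ * m) := by ring
      linarith only [h3]
    rw [← hM] at h2
    have e : M0 J R m * (1 - κ) = M0 J R m - M0 J R m * κ := by ring
    rw [e]
    linarith only [h4, h2, h1, hcost]

/-- here `γ = s/(R(R-1))` -/
theorem pointG (hcs : 2 ≤ Fintype.card ι) (R r : ℕ) (hR : 3 ≤ R) (CB C η₁ θ ε₇ : ℝ) (hC : 0 < C)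
    (hη₁ : 0 < η₁) (hM : ∀ m : ℕ, 1 ≤ m → ((R : ℝ) * m) ^ Fintype.card ι ≤ 2 * M0 J R m)
    (hη : 4096 * (Fintype.card ι : ℝ) ^ 2 * R ^ 4 * η₁ ≤ 1) (hθ : 0 < θ) (hθ1 : θ ≤ 1 / 4)
    (hε : 0 < ε₇) :
    ∃ δ₀ : ℝ, 0 < δ₀ ∧ ∀ δ : ℝ, 0 < δ → δ ≤ δ₀ → ∃ m₀ : ℕ, ∀ m : ℕ, m₀ ≤ m →
      ∀ (V : Type) [DecidableEq V] (G : SimpleGraph V) [DecidableRel G.Adj] (S : Finset V)
        (B : Fin R → Finset V) (ρ ζ : ℝ) (κ₀ : ℕ), 0 ≤ ζ → S.card ≤ R * m + r →
        LS G S R m C η₁ δ B → M0 J R m ≤ ρ → ρ ≤ M0 J R m * (1 + CB / m) → ∀ f ∈ tcl G B,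
        ((fJ J univ (fun i => (B i).card) : ℝ) - ρ) -
            M0 J R m / m * (3 / 8 * ((Fintype.card ι : ℝ) / (R * (R - 1))) * ss G B f +
              (Fintype.card ι : ℝ) * s2 G B f) +
            (1 - ε₇) * (M0 J R m / m) * (∑ z ∈ S \ un B, xz G R (Fintype.card ι) θ f z +
              ζ * nuG G S κ₀ (im f)) ≤
          (∏ l, ((B l).card : ℝ)) * lzG G J S R m θ ζ ρ κ₀ (im f) := by
  obtain ⟨s, hsc⟩ : ∃ s : ℕ, s = Fintype.card ι := ⟨_, rfl⟩
  obtain ⟨C₁, hC₁, hDest⟩ := D_est J hcs R (by omega)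
  rw [← hsc] at hcs hM hη
  have hs2 : (2 : ℝ) ≤ s := by exact_mod_cast hcs
  have hR3 : (3 : ℝ) ≤ R := by exact_mod_cast hR
  have hR0 : (0 : ℝ) < R := by linarith only [hR3, hθ1, hθ]
  have hR1 : (0 : ℝ) < R - 1 := by linarith only [hR3, hθ1, hθ]
  set α : ℝ := (s : ℝ) / R with hα
  set g : ℝ := (s : ℝ) / (R * (R - 1)) with hg
  have hα0 : 0 < α := by positivity
  have hg0 : 0 < g := by positivity
  have hαR : α * R = s := by rw [hα]; field_simp
  clear_value α g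
  obtain ⟨ε, hεdef⟩ : ∃ ε : ℝ, ε = min ε₇ (g / s) := ⟨_, rfl⟩
  have hε0 : 0 < ε := by rw [hεdef]; exact lt_min hε (by positivity)
  have hε7 : ε ≤ ε₇ := by rw [hεdef]; exact min_le_left _ _
  have hεg : ε ≤ g / s := by rw [hεdef]; exact min_le_right _ _
  have hεs : ε * s ≤ g := by rwa [le_div_iff₀ (by linarith only [hs2, hθ1, hθ])] at hεg
  have hgs : g / s ≤ 1 := by
    rw [hg, div_div, div_le_one (by positivity)]
    have h1 : 1 * (s : ℝ) ≤ R * (R - 1) * s :=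
      mul_le_mul_of_nonneg_right (by nlinarith only [hR3]) (by linarith only [])
    linarith only [h1]
  have hε1 : ε ≤ 1 := hεg.trans hgs
  obtain ⟨κ, hκdef⟩ : ∃ κ : ℝ, κ = min 1 (min (g / 1152) (ε * α / 18)) := ⟨_, rfl⟩
  have hκ0 : 0 < κ := by
    rw [hκdef]
    exact lt_min one_pos (lt_min (by positivity) (by positivity))
  have hκ1 : κ ≤ 1 := by rw [hκdef]; exact min_le_left _ _
  have hκg : κ ≤ g / 1152 := by
    rw [hκdef]; exact (min_le_right _ _).trans (min_le_left _ _)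
  have hκε : κ ≤ ε * α / 18 := by
    rw [hκdef]; exact (min_le_right _ _).trans (min_le_right _ _)
  obtain ⟨K, hK⟩ : ∃ K : ℝ, K = (s : ℝ) ^ 2 * (2 * R) ^ (s - 2) * (2 * R) := ⟨_, rfl⟩
  have hK0 : 0 < K := by rw [hK]; positivity
  refine ⟨min (1 / 8) (min (κ / (4 * K)) (min (κ / (s + R)) (ε / (64 * R)))), ?_, ?_⟩
  · refine lt_min (by norm_num) (lt_min (by positivity) (lt_min (by positivity) (by positivity)))
  intro δ hδ hδ0
  have hδ1 : δ ≤ 1 / 8 := hδ0.trans (min_le_left _ _)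
  have hδ2 : δ ≤ κ / (4 * K) :=
    hδ0.trans ((min_le_right _ _).trans (min_le_left _ _))
  have hδ3 : δ ≤ κ / (s + R) :=
    hδ0.trans ((min_le_right _ _).trans ((min_le_right _ _).trans (min_le_left _ _)))
  have hδ4 : δ ≤ ε / (64 * R) :=
    hδ0.trans ((min_le_right _ _).trans ((min_le_right _ _).trans (min_le_right _ _)))
  rw [le_div_iff₀ (by positivity)] at hδ2 hδ3 hδ4
  obtain ⟨m₁, hm₁⟩ := exists_nat_ge (C / δ + 1024 * (α + 1) * C / g + 8 * (α + 1) * C / (ε * α) +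
    4 * C₁ / κ + |CB| / κ + 1)
  refine ⟨m₁, fun m hm V _ G _ S B ρ ζ κ₀ hζ hS h hρ1 hρ2 f hf => ?_⟩
  rw [← hsc]
  have hm1 : (m₁ : ℝ) ≤ m := by exact_mod_cast hm
  have q1 : 0 ≤ C / δ := by positivity
  have q2 : 0 ≤ 1024 * (α + 1) * C / g := by positivity
  have q3 : 0 ≤ 8 * (α + 1) * C / (ε * α) := by positivity
  have q4 : 0 ≤ 4 * C₁ / κ := by positivity
  have q5 : 0 ≤ |CB| / κ := by positivity
  have hm1' : (1 : ℝ) ≤ m := by linarith only [q5, q4, q3, q2, q1, hm1, hm₁]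
  have hm0 : (0 : ℝ) < m := by linarith only [q5, q4, q3, q2, q1, hm1, hm₁, hδ1, hδ]
  have hmN : 1 ≤ m := by exact_mod_cast hm1'
  have c1 : C / m ≤ δ := by
    have : C / δ ≤ m := by linarith only [q5, q4, q3, q2, hm1, hm₁, hδ1, hδ]
    rw [div_le_iff₀ hδ] at this
    rw [div_le_iff₀ hm0]
    linarith only [this]
  have c2 : 1024 * (α + 1) * (C / m) ≤ g := by
    have : 1024 * (α + 1) * C / g ≤ m := by linarith only [q5, q4, q3, q1, hm1, hm₁, hδ1, hδ]
    rw [div_le_iff₀ hg0] at this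
    rw [← mul_div_assoc, div_le_iff₀ hm0]
    linarith only [this]
  have c3 : 8 * (α + 1) * (C / m) ≤ ε * α := by
    have : 8 * (α + 1) * C / (ε * α) ≤ m := by linarith only [q5, q4, q2, q1, hm1, hm₁, hδ1, hδ]
    rw [div_le_iff₀ (by positivity)] at this
    rw [← mul_div_assoc, div_le_iff₀ hm0]
    linarith only [this]
  have c4 : 4 * (C₁ / m) ≤ κ := by
    have : 4 * C₁ / κ ≤ m := by linarith only [q5, q3, q2, q1, hm1, hm₁, hδ1, hδ]
    rw [div_le_iff₀ hκ0] at this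
    rw [← mul_div_assoc, div_le_iff₀ hm0]
    linarith only [this]
  have c5 : CB / m ≤ κ := by
    have : |CB| / κ ≤ m := by linarith only [q4, q3, q2, q1, hm1, hm₁, hδ1, hδ]
    rw [div_le_iff₀ hκ0] at this
    rw [div_le_iff₀ hm0]
    have := le_abs_self CB
    linarith [this]
  have hMm := hM m hmN
  have hN0 : 0 < M0 J R m := by
    have : 0 < ((R : ℝ) * m) ^ s := by positivity
    linarith only [this, hMm]
  -- the differences
  obtain ⟨hU, hL⟩ := PointG_D J (by rw [← hsc]; exact hcs) (R := R) (m := m) (α := α) (κ := κ)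
    (δ := δ) (C₁ := C₁) (K := K) (by omega) hmN hδ.le (by linarith only [hδ1, hθ1, hθ]) hC₁.le (by rw [← hsc]; exact hMm)
    (by rw [← hsc]; exact hK) (by linarith only [hδ2]) c4 (fun k => by
      have h1 := hDest m hmN (Fin R) univ (by rw [card_univ, Fintype.card_fin]) k (mem_univ k)
        (fun _ => m) 0 le_rfl hm0.le (fun l _ => by simp)
      rw [zero_add, mul_one, ← hsc] at h1
      rw [← hsc, hα]
      exact h1)
  -- the data
  set b : Fin R → ℝ := fun i => ((B i).card : ℝ) with hb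
  set d : Fin R → ℝ := fun i => (((B i).filter fun z => ∃ j, j ≠ i ∧ ¬ G.Adj z (f j)).card : ℝ)
    with hd
  set xN : Fin R → ℕ := fun i => ((S \ un B).filter fun z => hs G (im f) z = {f i}).card with hxN
  set x : Fin R → ℝ := fun i => (xN i : ℝ) with hx
  set ξ : ℝ := (((S \ un B).filter fun z => (hs G (im f) z).card = 1).card : ℝ) with hξd
  have hξ00 : 0 ≤ ξ := Nat.cast_nonneg _
  clear_value ξ
  have hd0 : ∀ i, 0 ≤ d i := fun i => Nat.cast_nonneg _
  have hx0 : ∀ i, 0 ≤ x i := fun i => Nat.cast_nonneg _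
  have hξ : ∑ l, x l = ξ := by
    rw [hx, hξd, hxN, ← Nat.cast_sum, ← card_biUnion]
    · congr 2
      ext z
      simp only [mem_biUnion, mem_univ, true_and, mem_filter]
      constructor
      · rintro ⟨l, hz, hl⟩
        exact ⟨hz, by rw [hl, card_singleton]⟩
      · rintro ⟨hz, hc⟩
        obtain ⟨t, ht⟩ := card_eq_one.1 hc
        have : t ∈ hs G (im f) z := by rw [ht]; exact mem_singleton_self t
        obtain ⟨l, hl⟩ := mem_im.1 (mem_hs.1 this).1
        exact ⟨l, hz, by rw [ht, hl]⟩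
    · intro a _ b _ hab
      refine disjoint_left.2 fun z hz hz' => ?_
      rw [mem_filter] at hz hz'
      rw [hz.2] at hz'
      exact hab (tcl_injective hf (singleton_inj.1 hz'.2))
  have hξC : ξ ≤ C := by
    have h1 : ξ ≤ ((S \ un B).card : ℝ) := by
      rw [hξd]
      exact_mod_cast card_le_card (filter_subset _ _)
    exact h1.trans h.hX
  have hSS : ss G B f ≤ 2 * R ^ 2 * η₁ * m := by
    have h1 : ss G B f ≤ ∑ _i : Fin R, 2 * R * η₁ * m :=
      sum_le_sum fun i _ => delta_le h hη₁.le hf i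
    rw [sum_const, nsmul_eq_mul, card_univ, Fintype.card_fin] at h1
    refine h1.trans (le_of_eq (by ring))
  have hSS0 : 0 ≤ ss G B f := by
    unfold ss
    exact sum_nonneg fun i _ => Nat.cast_nonneg _
  have hS20 : 0 ≤ s2 G B f := by
    unfold s2
    exact sum_nonneg fun i _ => Nat.cast_nonneg _
  have hS2 : s2 G B f ≤ ss G B f := by
    unfold s2 ss
    refine sum_le_sum fun i _ => ?_
    have : ((B i).filter fun z => ∃ j k, j ≠ i ∧ k ≠ i ∧ j ≠ k ∧ ¬ G.Adj z (f j) ∧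
        ¬ G.Adj z (f k)) ⊆ ((B i).filter fun z => ∃ j, j ≠ i ∧ ¬ G.Adj z (f j)) := by
      intro z hz
      rw [mem_filter] at hz ⊢
      obtain ⟨hz, j, k, hji, -, -, hj, -⟩ := hz
      exact ⟨hz, j, hji, hj⟩
    exact_mod_cast card_le_card this
  -- the vectors of natural numbers
  set bN : Fin R → ℕ := fun i => (B i).card with hbN
  set AN : Fin R → ℕ := fun i => bN i + xN i with hAN
  set aN : Fin R → ℕ := fun i => aa G S (im f) (f i) with haN
  have haa : ∀ i, (aN i : ℝ) = b i - d i + x i := fun i => aa_eq h hf i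
  have hAA : ∀ i, (AN i : ℝ) = b i + x i := fun i => by
    rw [hAN, hb, hx]
    push_cast
    rfl
  have haA : ∀ i, aN i ≤ AN i := by
    intro i
    have h1 : (aN i : ℝ) ≤ (AN i : ℝ) := by
      rw [haa, hAA]
      have := hd0 i
      linarith only [this]
    exact_mod_cast h1
  have hxi : ∀ i, x i ≤ ξ := fun i => by
    rw [← hξ]
    exact single_le_sum (fun j _ => hx0 j) (mem_univ i)
  have hCδ : C ≤ δ * m := by rwa [div_le_iff₀ hm0] at c1
  have hANle : ∀ i, (AN i : ℝ) ≤ (1 + 2 * δ) * m := by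
    intro i
    rw [hAA]
    have h1 : b i ≤ (1 + δ) * m := h.size_hi i
    have h2 := hxi i
    have h3 : (1 + 2 * δ) * (m : ℝ) = (1 + δ) * m + δ * m := by ring
    linarith only [h2, h1, hCδ, hξC]
  have hsum1 : ∑ i, (AN i : ℝ) - ∑ i, (aN i : ℝ) = ss G B f := by
    rw [← sum_sub_distrib]
    unfold ss
    refine sum_congr rfl fun i _ => ?_
    rw [haa, hAA]
    ring
  have hsum2 : ∑ i, (AN i : ℝ) - ∑ i, (bN i : ℝ) = ξ := by
    rw [← sum_sub_distrib, ← hξ]
    refine sum_congr rfl fun i _ => ?_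
    rw [hAA]
    ring
  have E1 := PointG_steps_le J (T := (univ : Finset (Fin R))) (a := aN) (b := AN)
    (U := M0 J R m / m * (α + κ)) (fun i _ => haA i) (fun c _ hc k _ => hU c (fun l => by
      have h3 : (c l : ℝ) ≤ AN l := by exact_mod_cast hc l (mem_univ l)
      exact h3.trans (hANle l)) k)
  rw [hsum1] at E1
  have hbA : ∀ i ∈ (univ : Finset (Fin R)), bN i ≤ AN i := fun i _ => Nat.le_add_right _ _
  have E2 := PointG_steps_le J (T := (univ : Finset (Fin R))) (a := bN) (b := AN)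
    (U := M0 J R m / m * (α + κ)) hbA (fun c _ hc k _ => hU c (fun l => by
      have h3 : (c l : ℝ) ≤ AN l := by exact_mod_cast hc l (mem_univ l)
      exact h3.trans (hANle l)) k)
  rw [hsum2] at E2
  have E3 := PointG_le_steps J (T := (univ : Finset (Fin R))) (a := bN) (b := AN)
    (L := M0 J R m / m * (α - κ)) hbA (fun c hc _ k _ => hL c (fun l => by
      have h3 : (bN l : ℝ) ≤ c l := by exact_mod_cast hc l (mem_univ l)
      exact (h.size_lo l).trans h3) k)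
  rw [hsum2] at E3
  have E4 : (fJ J univ aN : ℝ) ≤ fJ J univ AN := by
    exact_mod_cast fJ_mono J (T := (univ : Finset (Fin R))) fun i _ => haA i
  have E4' : (fJ J univ bN : ℝ) ≤ fJ J univ AN := by
    exact_mod_cast fJ_mono J (T := (univ : Finset (Fin R))) hbA
  have hακ : (α + κ) * R * δ ≤ κ := by
    have h1 : (α + κ) * R = s + κ * R := by rw [add_mul, hαR]
    have h2 : κ * R ≤ 1 * R := mul_le_mul_of_nonneg_right hκ1 hR0.le
    have h3 : (s + κ * R) * δ ≤ (s + R) * δ := mul_le_mul_of_nonneg_right (by linarith only [h2]) hδ.le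
    rw [h1]
    linarith only [h3, hδ3]
  obtain ⟨E5, E6⟩ := PointG_near J (R := R) (m := m) (α := α) (κ := κ) (δ := δ) hmN hδ.le hN0.le
    (by linarith only [hκ0, hα0]) hακ hU (b := bN) h.size_lo h.size_hi
  have hρ2' : ρ ≤ M0 J R m * (1 + κ) :=
    hρ2.trans (mul_le_mul_of_nonneg_left (by linarith only [c5]) hN0.le)
  -- the constants
  have hR4 : 4096 * (R ^ 4 * η₁) ≤ 1 := by
    have h1 : 0 ≤ R ^ 4 * η₁ := by positivity
    have h2 : 1 * (R ^ 4 * η₁) ≤ (s : ℝ) ^ 2 * (R ^ 4 * η₁) :=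
      mul_le_mul_of_nonneg_right (by nlinarith only [hs2]) h1
    have h3 : 4096 * (s : ℝ) ^ 2 * R ^ 4 * η₁ = 4096 * ((s : ℝ) ^ 2 * (R ^ 4 * η₁)) := by ring
    linarith only [h2, hη]
  have hA1 : 2 * (R : ℝ) ^ 2 * η₁ ≤ 1 / 8 := by
    have h1 : (R : ℝ) ^ 2 * η₁ * 1 ≤ (R : ℝ) ^ 2 * η₁ * R ^ 2 :=
      mul_le_mul_of_nonneg_left (by nlinarith only [hR3]) (by positivity)
    have h2 : (R : ℝ) ^ 2 * η₁ * R ^ 2 = R ^ 4 * η₁ := by ring
    linarith only [h1, hR4, hδ1, hδ]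
  have hA2 : 4 * (α + 1) * (2 * (R : ℝ) ^ 2 * η₁) ≤ g / 64 := by
    have e1 : (α + 1) * R = s + R := by rw [add_mul, hαR, one_mul]
    have e2 : (s : ℝ) + R ≤ s * R := by nlinarith only [hs2, hR3]
    have t1 : 4 * (α + 1) * (2 * (R : ℝ) ^ 2 * η₁) * (R * (R - 1) * 64) =
        512 * ((s + R) * (R ^ 2 * (R - 1) * η₁)) := by
      rw [← e1]
      ring
    have t2 : (R : ℝ) ^ 2 * (R - 1) * η₁ ≤ R ^ 2 * R * η₁ :=
      mul_le_mul_of_nonneg_right (mul_le_mul_of_nonneg_left (by linarith only []) (by positivity)) hη₁.le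
    have t3 : (s + R) * ((R : ℝ) ^ 2 * (R - 1) * η₁) ≤ (s * R) * (R ^ 2 * R * η₁) :=
      mul_le_mul e2 t2 (by positivity) (by positivity)
    have t4 : (s * R) * ((R : ℝ) ^ 2 * R * η₁) = s * (R ^ 4 * η₁) := by ring
    have t5 : (s : ℝ) * (4096 * (R ^ 4 * η₁)) ≤ s * 1 :=
      mul_le_mul_of_nonneg_left hR4 (by linarith only [])
    have t6 : 0 ≤ (s : ℝ) * (R ^ 4 * η₁) := by positivity
    rw [hg, div_div, le_div_iff₀ (by positivity), t1]
    linarith only [t5, t3, hδ1, hδ, hs2]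
  have hcm0 : 0 ≤ C / m := by positivity
  have k1 : 9 * κ + 4 * (α + 1) * (2 * (R : ℝ) ^ 2 * η₁) + 8 * (α + 1) * (C / m) ≤ g / 32 := by
    linarith only [hA2, c2, hκg]
  have k2 : 9 * κ + 4 * (α + 1) * (C / m) ≤ ε * α := by
    linarith only [c3, hκε]
  have P1 := PointG_real (b := b) (d := d) (x := x) (m := (m : ℝ)) (N := M0 J R m) (δ := δ)
    (ε := ε) (κ := κ) (g := g) (C := C) (A := 2 * (R : ℝ) ^ 2 * η₁) (ρ := ρ) (SS := ss G B f)
    (ξ := ξ) (α := α) (eb := fJ J univ bN) (ex := fJ J univ AN) (ea := fJ J univ aN) hm0 hN0 hα0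
    hκ0 hκ1 hδ1 hA1 (by linarith only [c1, hδ1]) h.size_lo hd0 hx0 rfl hξ hSS hξC k1 k2 E1 E2 E3 E4 E4' E5 E6
    hρ1 hρ2'
  -- the costs
  have hkt2 : ktG R s θ 2 = α - g / 4 := by
    unfold ktG
    rw [if_pos]
    · rw [hg, ← hα]
      push_cast
      rw [hα]
      field_simp
      ring
    · refine ⟨le_rfl, ?_⟩
      have h1 : (⌊θ * R / 32⌋₊ : ℝ) ≤ θ * R / 32 := Nat.floor_le (by positivity)
      have h2 : θ * R ≤ 1 / 4 * R := mul_le_mul_of_nonneg_right hθ1 hR0.le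
      have h3 : ((2 + ⌊θ * R / 32⌋₊ : ℕ) : ℝ) ≤ R := by
        push_cast
        linarith only [h2, h1, hR3]
      exact_mod_cast h3
  have hkt20 : 0 ≤ ktG R s θ 2 := ktG_nonneg (by omega) 2 (by omega)
  have hkt22 : ktG R s θ 2 ≤ s := by
    rw [hkt2]
    have h1 : α ≤ s := by
      rw [hα]
      exact div_le_self (by linarith only []) (by linarith only [hR3])
    linarith only [h1, hκg, hκ0]
  have hsum := sum_ktG_ge (s := s) (θ := θ) h hf (by omega)
  set Ks : ℝ := ∑ z ∈ S \ un B, ktG R s θ (hs G (im f) z).card with hKs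
  have hKs0 : 0 ≤ Ks := sum_nonneg fun z _ => PointG_ktG_nonneg hf (by omega) z
  clear_value Ks
  have hXz : ∑ z ∈ S \ un B, xz G R s θ f z = α * ξ + Ks := by
    rw [hξd, card_filter]
    push_cast
    rw [hKs, mul_sum, ← sum_add_distrib]
    refine sum_congr rfl fun z _ => ?_
    unfold xz
    by_cases h1 : (hs G (im f) z).card = 1
    · rw [if_pos h1, if_pos h1, h1, mul_one]
      have : ktG R s θ 1 = 0 := by
        unfold ktG
        rw [if_neg]
        rintro ⟨h2, -⟩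
        omega
      rw [this, add_zero, hα]
    · rw [if_neg h1, if_neg h1, mul_zero, zero_add]
  have hζν : 0 ≤ ζ * nuG G S κ₀ (im f) := by
    refine mul_nonneg hζ ?_
    unfold nuG
    split_ifs
    · exact zero_le_one
    · exact le_rfl
  have hP : (1 - ε / 64) * (m : ℝ) ^ R ≤ ∏ l, b l := by
    have h1 : ((1 - δ) * m) ^ R ≤ ∏ l, b l := by
      have : ((1 - δ) * (m : ℝ)) ^ R = ∏ _l : Fin R, (1 - δ) * (m : ℝ) := by
        rw [prod_const, card_univ, Fintype.card_fin]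
      rw [this]
      exact prod_le_prod (fun i _ => mul_nonneg (by linarith only [hδ1, hθ1, hθ]) hm0.le) fun i _ => h.size_lo i
    refine le_trans ?_ h1
    rw [mul_pow]
    refine mul_le_mul_of_nonneg_right ?_ (by positivity)
    have := PointG_pow' (δ := δ) (by linarith only [hδ1, hθ1, hθ]) R
    linarith only [this, hδ4]
  -- assembly
  have hmR : (0 : ℝ) < (m : ℝ) ^ R := pow_pos hm0 R
  have hξ0 : 0 ≤ ξ := hξ00
  have Q1 := PointG_fin (P := ∏ l, b l) (mR := (m : ℝ) ^ R) (Z := ζ * nuG G S κ₀ (im f)) (g := g)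
    (s := (s : ℝ)) hm0 hmR hN0.le hP hε0 hε1 hεs hg0 (by linarith only []) hkt2 hkt20 hkt22 hSS0 hS20 hS2
    hKs0 hζν hsum P1
  have hbij : Set.BijOn f (univ : Finset (Fin R)) (im f) := by
    have h1 := ((tcl_injective hf).injOn (s := ((univ : Finset (Fin R)) : Set (Fin R)))).bijOn_image
    unfold im
    rw [coe_image]
    exact h1
  have hmap : fJ J (im f) (aa G S (im f)) = fJ J univ aN := (fJ_map J f hbij _).symm
  have e0 : lzG G J S R m θ ζ ρ κ₀ (im f) =
      ((fJ J univ aN : ℝ) - ρ) *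
        (∏ i, (b i - d i + x i)⁻¹) + M0 J R m / (m : ℝ) ^ R *
          ((∑ z ∈ S, ktG R s θ (hs G (im f) z).card) + ζ * nuG G S κ₀ (im f)) / m := by
    unfold lzG
    rw [hmap, prod_im hf (fun t => ((aa G S (im f) t : ℝ))⁻¹), ← hsc]
    simp only [← haa]
    rfl
  rw [e0, hXz]
  have hW : 0 ≤ α * ξ + Ks + ζ * nuG G S κ₀ (im f) :=
    add_nonneg (add_nonneg (mul_nonneg hα0.le hξ0) hKs0) hζν
  have hfinal : (1 - ε₇) * (M0 J R m / m) * (α * ξ + Ks + ζ * nuG G S κ₀ (im f)) ≤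
      (1 - ε) * (M0 J R m / m) * (α * ξ + Ks + ζ * nuG G S κ₀ (im f)) := by
    refine mul_le_mul_of_nonneg_right (mul_le_mul_of_nonneg_right (by linarith only [hε7]) ?_) hW
    positivity
  have gen : ∀ A q1 q2 Y : ℝ, A * (q1 * q2) + q1 * Y = q1 * (A * q2 + Y) := by
    intro A q1 q2 Y
    ring
  refine le_trans ?_ (le_of_eq (gen _ _ _ _))
  refine le_trans ?_ Q1
  rw [← hg]
  linarith only [hfinal]

end H57GH
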