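import Pool.Agent.H57.GH.SHub
import Pool.Agent.H57.GH.BConv
import Pool.Agent.H57.GH.Thru

/-!
Projects SH, SB: the conditions hold for small `β`.
-/

namespace H57GH

open Finset H57LC H57LT

set_option linter.unusedSectionVars false

/-- a product of numbers in `[0, 1]` is at most each of them -/
theorem SCond_one {α : Type*} [DecidableEq α] (A : Finset α) (F : α → ℝ) (h0 : ∀ C ∈ A, 0 ≤ F C)
    (h1 : ∀ C ∈ A, F C ≤ 1) {a : α} (ha : a ∈ A) : ∏ C ∈ A, F C ≤ F a := by
  rw [← mul_prod_erase A F ha]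
  have h2 : ∏ C ∈ A.erase a, F C ≤ 1 :=
    prod_le_one (fun C hC => h0 C (mem_of_mem_erase hC)) fun C hC => h1 C (mem_of_mem_erase hC)
  calc F a * ∏ C ∈ A.erase a, F C ≤ F a * 1 := mul_le_mul_of_nonneg_left h2 (h0 a ha)
    _ = F a := mul_one _

variable {ι : Type*} [Fintype ι] [DecidableEq ι] (J : SimpleGraph ι) [DecidableRel J.Adj]

theorem cond_small [Nonempty ι] (hd : ∀ v, 1 ≤ dg J univ v) {u : ℕ} (hu : 1 ≤ u) :
    ∃ β₀ : ℝ, 0 < β₀ ∧ ∀ β : ℝ, 0 < β → β ≤ β₀ → PairC J u β ∧ HubC J u β := by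
  have hs1 : (1 : ℝ) ≤ Fintype.card ι := by exact_mod_cast Fintype.card_pos (α := ι)
  have hu1 : (1 : ℝ) ≤ u := by exact_mod_cast hu
  have he1 : (1 : ℝ) ≤ oe J := hs1.trans (by exact_mod_cast card_le_oe J hd)
  set s : ℝ := (Fintype.card ι : ℝ) with hs
  set w : ℝ := (u : ℝ) with hw
  set e : ℝ := (oe J : ℝ) with he
  set t : ℝ := 1 / (4 * (w + s)) with ht
  have ht0 : 0 < t := by positivity
  have ht1 : (w + s) * t = 1 / 4 := by
    rw [ht]; field_simp
  have ht2 : t ≤ 1 / 8 := by
    rw [ht]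
    apply one_div_le_one_div_of_le (by norm_num)
    linarith
  refine ⟨min (t / (2 * s * w)) (1 / (2 * (2 * w * s + e))), by positivity, fun β hβ hβ0 => ?_⟩
  have hsw : 1 ≤ s * w := by nlinarith only [hu1, hs1]
  have h1 : β * (2 * s * w) ≤ t := by
    have := hβ0.trans (min_le_left _ _)
    rwa [le_div_iff₀ (by positivity)] at this
  have h2 : β * (2 * (2 * w * s + e)) ≤ 1 := by
    have := hβ0.trans (min_le_right _ _)
    rwa [le_div_iff₀ (by positivity)] at this
  have hβt : 2 * β ≤ t := by nlinarith only [h1, hβ, hsw]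
  have hβ1 : β < 1 := by linarith
  refine ⟨?_, ?_⟩
  · show (2 * w * s + e) * β < e
    linarith
  · intro y hy hy1
    have hrk := one_le_rk J hd
    have hPsi := Psi_le J hd hy.le hy1.le
    have hyrk : y ^ rk J ≤ y := by
      calc y ^ rk J ≤ y ^ 1 := pow_le_pow_of_le_one hy.le hy1.le hrk
        _ = y := pow_one y
    have h3 : w * y ^ rk J ≤ w * y := mul_le_mul_of_nonneg_left hyrk (by linarith)
    have hf0 : 0 ≤ fP β u y := fP_nonneg hβ1 u hy.le
    rcases le_total y t with h | h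
    · have h4 : (w + s) * y ≤ (w + s) * t := mul_le_mul_of_nonneg_left h (by linarith)
      have h5 : 0 ≤ s * fP β u y := mul_nonneg (by linarith) hf0
      linarith
    · have hyβ : 0 ≤ y - β := by linarith
      set q : ℝ := max (y - β) 0 / (y * (1 - β)) with hq
      have hq0 : 0 ≤ q := SHub_base_nonneg hβ1 hy.le
      have hyb : 0 < y * (1 - β) := mul_pos hy (by linarith)
      have hq1 : 1 - q = β * (1 - y) / (y * (1 - β)) := by
        rw [hq, max_eq_left hyβ, eq_div_iff hyb.ne', sub_mul, one_mul, div_mul_cancel₀ _ hyb.ne']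
        ring
      have h4 : 1 - q ≤ 2 * β * (1 - y) / t := by
        rw [hq1, div_le_div_iff₀ hyb ht0]
        have h5 : 0 ≤ β * (1 - y) := mul_nonneg hβ.le (by linarith)
        have h6 : t ≤ 2 * (y * (1 - β)) := by nlinarith only [hβt, h, h5]
        calc β * (1 - y) * t ≤ β * (1 - y) * (2 * (y * (1 - β))) :=
              mul_le_mul_of_nonneg_left h6 h5
          _ = _ := by ring
      have h7 : 1 + w * (q - 1) ≤ q ^ u := by
        have h8 := one_add_mul_le_pow (show (-2 : ℝ) ≤ q - 1 by linarith) u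
        have h9 : 1 + (q - 1) = q := by ring
        rw [h9] at h8
        exact h8
      have h10 : s * w * (1 - q) ≤ s * w * (2 * β * (1 - y) / t) :=
        mul_le_mul_of_nonneg_left h4 (by positivity)
      have h11 : s * w * (2 * β * (1 - y) / t) ≤ 1 - y := by
        rw [← mul_div_assoc, div_le_iff₀ ht0]
        have h12 : 0 ≤ 1 - y := by linarith only [hy1]
        calc s * w * (2 * β * (1 - y)) = β * (2 * s * w) * (1 - y) := by ring
          _ ≤ t * (1 - y) := mul_le_mul_of_nonneg_right h1 h12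
          _ = _ := by ring
      have h13 : fP β u y = q ^ u := rfl
      have h14 : s * (1 + w * (q - 1)) ≤ s * q ^ u := mul_le_mul_of_nonneg_left h7 (by linarith only [hs1, ht2, hβ, hβt])
      rw [h13]
      have h15 : 0 < 1 - y := by linarith only [hy1]
      have h16 : 1 - y < (w + s) * (1 - y) := by nlinarith only [hy1, hs1, hu1]
      have h17 : s * (1 + w * (q - 1)) = s - s * w * (1 - q) := by ring
      have h18 : w * y + s * y = w + s - (w + s) * (1 - y) := by ring
      linarith only [hPsi, h3, h10, h11, h14, h16]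

theorem Qc_small [Nonempty ι] (hd : ∀ v, 1 ≤ dg J univ v) :
    ∃ β₀ : ℝ, 0 < β₀ ∧ ∀ β : ℝ, 0 < β → β ≤ β₀ → Qc J β < 1 := by
  classical
  have : Fintype J.ConnectedComponent := Fintype.ofFinite _
  have hs1 : (1 : ℝ) ≤ Fintype.card ι := by exact_mod_cast Fintype.card_pos (α := ι)
  set s : ℝ := (Fintype.card ι : ℝ) with hs
  refine ⟨1 / (4 * (1 + s)), by positivity, fun β hβ hβ0 => ?_⟩
  have h1 : β * (4 * (1 + s)) ≤ 1 := by rwa [le_div_iff₀ (by positivity)] at hβ0
  have hβ8 : β ≤ 1 / 8 := by nlinarith only [hs1, h1]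
  set k : ℕ := ⌊1 / β⌋₊ with hk
  have hk1 : (k : ℝ) * β ≤ 1 := by
    have h2 : (k : ℝ) ≤ 1 / β := Nat.floor_le (by positivity)
    rwa [le_div_iff₀ hβ] at h2
  have hk2 : 1 < ((k : ℝ) + 1) * β := by
    have h2 : 1 / β < (k : ℝ) + 1 := Nat.lt_floor_add_one _
    rwa [div_lt_iff₀ hβ] at h2
  set y : ℝ := 1 - k * β with hy
  have hy0 : 0 ≤ y := by linarith
  have hyβ : y ≤ β := by linarith
  have hF : ∀ C : J.ConnectedComponent, k * β ^ Nat.card C.supp + y ^ Nat.card C.supp ≤ 2 * β := by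
    intro C
    have hc := cprod_two J hd C
    have h2 : β ^ Nat.card C.supp = β * β ^ (Nat.card C.supp - 1) := by
      rw [← pow_succ']
      congr 1
      omega
    have h3 : β ^ (Nat.card C.supp - 1) ≤ β := by
      calc β ^ (Nat.card C.supp - 1) ≤ β ^ 1 :=
            pow_le_pow_of_le_one hβ.le (by linarith) (by omega)
        _ = β := pow_one _
    have h4 : y ^ Nat.card C.supp ≤ y := by
      calc y ^ Nat.card C.supp ≤ y ^ 1 := pow_le_pow_of_le_one hy0 (by linarith) (by omega)
        _ = y := pow_one _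
    have h5 : (k : ℝ) * β ^ Nat.card C.supp ≤ 1 * β := by
      rw [h2, ← mul_assoc]
      exact mul_le_mul hk1 h3 (by positivity) zero_le_one
    linarith
  have hF0 : ∀ C : J.ConnectedComponent,
      0 ≤ k * β ^ Nat.card C.supp + y ^ Nat.card C.supp := by
    intro C
    positivity
  obtain ⟨v⟩ := (inferInstance : Nonempty ι)
  have hcp : cprod J (fun c => k * β ^ c + y ^ c) ≤ 2 * β := by
    rw [cprod_eq]
    exact (SCond_one univ (fun C : J.ConnectedComponent =>
      k * β ^ Nat.card C.supp + y ^ Nat.card C.supp) (fun C _ => hF0 C)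
      (fun C _ => (hF C).trans (by linarith)) (mem_univ (J.connectedComponentMk v))).trans (hF _)
  have hP1 := Psi_le J hd hβ.le (by linarith : β ≤ 1)
  have hP2 := Psi_le J hd hy0 (by linarith : y ≤ 1)
  have hP3 : 0 ≤ Psi J β := Psi_nonneg J hβ.le
  have hP4 : 0 ≤ Psi J y := Psi_nonneg J hy0
  have h6 : (k : ℝ) * (β * Psi J β) ≤ s * β := by
    calc (k : ℝ) * (β * Psi J β) = (k * β) * Psi J β := by ring
      _ ≤ 1 * Psi J β := mul_le_mul_of_nonneg_right hk1 hP3
      _ ≤ s * β := by linarith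
  have h7 : y * Psi J y ≤ s * β := by
    calc y * Psi J y ≤ 1 * Psi J y := mul_le_mul_of_nonneg_right (by linarith) hP4
      _ ≤ s * y := by linarith
      _ ≤ s * β := mul_le_mul_of_nonneg_left hyβ (by linarith)
  show cprod J (fun c => k * β ^ c + y ^ c) + k * (β * Psi J β) + y * Psi J y < 1
  linarith

end H57GH
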