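import Pool.Agent.H57.GH.SDefs
import Pool.Agent.H57.GH.Thru

/-!
Project SH: trivial bounds for the number of copies.
-/

namespace H57GH

open Finset H57LC H57LT

set_option linter.unusedSectionVars false

variable {V : Type*} [DecidableEq V] {G : SimpleGraph V} [DecidableRel G.Adj]
  {ι : Type*} [Fintype ι] [DecidableEq ι] (J : SimpleGraph ι) [DecidableRel J.Adj]

/-- copies with `φ v = z` -/
theorem card_at (S : Finset V) (v : ι) (z : V) :
    ((emb J G S).filter fun φ => φ v = z).card ≤
      dg G S z ^ dg J univ v * S.card ^ (Fintype.card ι - 1 - dg J univ v) := by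
  classical
  have hi : v ∉ (univ : Finset ι).filter fun y => J.Adj v y := fun h => by
    rw [Finset.mem_filter] at h
    exact J.loopless.irrefl v h.2
  have hcard := Thru_card_pi v ((univ : Finset ι).filter fun y => J.Adj v y) hi z
    (S.filter fun y => G.Adj z y) S
  unfold dg
  rw [← hcard]
  refine Finset.card_le_card ?_
  intro φ hφ
  rw [Finset.mem_filter, Thru_mem_emb] at hφ
  obtain ⟨⟨hS, -, hadj⟩, hz⟩ := hφ
  rw [Fintype.mem_piFinset]
  intro j
  by_cases hj : j = v
  · rw [if_pos hj, hj, hz]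
    exact Finset.mem_singleton_self z
  · rw [if_neg hj]
    by_cases hjN : j ∈ (univ : Finset ι).filter fun y => J.Adj v y
    · rw [if_pos hjN, Finset.mem_filter]
      rw [Finset.mem_filter] at hjN
      refine ⟨hS j, ?_⟩
      rw [← hz]
      exact hadj v j hjN.2
    · rw [if_neg hjN]
      exact hS j

/-- all copies, by the image of one vertex of `J` -/
theorem emb_le_sum (S : Finset V) (v : ι) :
    (emb J G S).card ≤
      ∑ x ∈ S, dg G S x ^ dg J univ v * S.card ^ (Fintype.card ι - 1 - dg J univ v) := by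
  classical
  have h1 : emb J G S ⊆ S.biUnion fun x => (emb J G S).filter fun φ => φ v = x := by
    intro φ hφ
    have h2 := hφ
    rw [Thru_mem_emb] at h2
    rw [Finset.mem_biUnion]
    exact ⟨φ v, h2.1 v, Finset.mem_filter.2 ⟨hφ, rfl⟩⟩
  refine (Finset.card_le_card h1).trans (Finset.card_biUnion_le.trans ?_)
  exact Finset.sum_le_sum fun x _ => card_at J S v x

/-- a vertex of `J` has less than `card ι` neighbours -/
theorem dg_lt (v : ι) : dg J univ v + 1 ≤ Fintype.card ι := by
  classical
  have h2 : dg J univ v ≤ (univ.erase v : Finset ι).card := by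
    unfold dg
    refine Finset.card_le_card ?_
    intro j hj
    rw [Finset.mem_filter] at hj
    rw [Finset.mem_erase]
    refine ⟨fun h => ?_, Finset.mem_univ j⟩
    rw [h] at hj
    exact J.loopless.irrefl v hj.2
  rw [Finset.card_erase_of_mem (Finset.mem_univ v), Finset.card_univ] at h2
  have h3 : 0 < Fintype.card ι := Fintype.card_pos_iff.2 ⟨v⟩
  omega

/-- copies through `z` -/
theorem thru_psi (S : Finset V) (z : V) {n : ℝ} (hn : 0 < n) (hS : (S.card : ℝ) ≤ n) :
    ((((emb J G S).filter fun φ => ∃ i, φ i = z).card : ℕ) : ℝ) ≤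
      n ^ (Fintype.card ι - 1) * Psi J ((dg G S z : ℝ) / n) := by
  classical
  have h1 : ((((emb J G S).filter fun φ => ∃ i, φ i = z).card : ℕ) : ℝ) ≤
      ((∑ i : ι, ((emb J G S).filter fun φ => φ i = z).card : ℕ) : ℝ) := by
    exact_mod_cast Thru_le_sum J S z
  refine h1.trans ?_
  rw [Nat.cast_sum]
  unfold Psi
  rw [Finset.mul_sum]
  refine Finset.sum_le_sum fun v _ => ?_
  have h2 : ((((emb J G S).filter fun φ => φ v = z).card : ℕ) : ℝ) ≤
      (dg G S z : ℝ) ^ dg J univ v * (S.card : ℝ) ^ (Fintype.card ι - 1 - dg J univ v) := by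
    exact_mod_cast card_at J S v z
  refine h2.trans ?_
  have h3 : (S.card : ℝ) ^ (Fintype.card ι - 1 - dg J univ v) ≤
      n ^ (Fintype.card ι - 1 - dg J univ v) := pow_le_pow_left₀ (Nat.cast_nonneg _) hS _
  have h4 : dg J univ v + (Fintype.card ι - 1 - dg J univ v) = Fintype.card ι - 1 := by
    have := dg_lt J v
    omega
  have h5 : n ^ (Fintype.card ι - 1) =
      n ^ dg J univ v * n ^ (Fintype.card ι - 1 - dg J univ v) := by
    rw [← pow_add, h4]
  rw [h5, div_pow]
  have h6 : n ^ dg J univ v ≠ 0 := (pow_pos hn _).ne'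
  calc (dg G S z : ℝ) ^ dg J univ v * (S.card : ℝ) ^ (Fintype.card ι - 1 - dg J univ v)
      ≤ (dg G S z : ℝ) ^ dg J univ v * n ^ (Fintype.card ι - 1 - dg J univ v) :=
        mul_le_mul_of_nonneg_left h3 (pow_nonneg (Nat.cast_nonneg _) _)
    _ = n ^ dg J univ v * n ^ (Fintype.card ι - 1 - dg J univ v) *
          ((dg G S z : ℝ) ^ dg J univ v / n ^ dg J univ v) := by
        field_simp

end H57GH
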