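import Pool.Agent.H57.GH.SKt
import Pool.Agent.H57.GH.SHub
import Pool.Agent.H57.GH.SThru
import Pool.Agent.H57.GH.HvP
import Pool.Agent.H57.GH.BalF
import Pool.Agent.H57.GH.MedA

/-!
Project SH: heavy vertices in the middle range.
-/

namespace H57GH

open Finset H57LC H57LT

set_option linter.unusedSectionVars false

section
variable {V : Type*} [DecidableEq V] {G : SimpleGraph V} [DecidableRel G.Adj]

private lemma SMid_sum_nonneg {a : ℝ} {α : Type*} (T T' : Finset α) (h : T' ⊆ T) (F : α → ℝ) (h0 : ∀ f ∈ T, 0 ≤ F f) (h1 : ∀ f ∈ T', a ≤ F f) :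
    (T'.card : ℝ) * a ≤ ∑ f ∈ T, F f := by
  calc (T'.card : ℝ) * a = ∑ _f ∈ T', a := by rw [sum_const, nsmul_eq_mul]
    _ ≤ ∑ f ∈ T', F f := sum_le_sum h1
    _ ≤ ∑ f ∈ T, F f := sum_le_sum_of_subset_of_nonneg h fun f hf _ => h0 f hf

/-- the number of non-neighbours of `z` in a clique transversal -/
private lemma SMid_hs {R : ℕ} {B : Fin R → Finset V} {f : Fin R → V} (hf : f ∈ tcl G B) (z : V) :
    (((hs G (im f) z).card : ℕ) : ℝ) = (R : ℝ) - ∑ i, (1 - na G z (f i)) := by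
  have h : (hs G (im f) z).card =
      ((univ : Finset (Fin R)).filter fun i => ¬ G.Adj z (f i)).card := by
    have e : hs G (im f) z =
        ((univ : Finset (Fin R)).filter fun i => ¬ G.Adj z (f i)).image f := by
      ext t
      rw [mem_hs, mem_im, mem_image]
      constructor
      · rintro ⟨⟨i, rfl⟩, hi⟩
        exact ⟨i, mem_filter.2 ⟨mem_univ i, hi⟩, rfl⟩
      · rintro ⟨i, hi, rfl⟩
        exact ⟨⟨i, rfl⟩, (mem_filter.1 hi).2⟩
    rw [e, card_image_of_injective _ (tcl_injective hf)]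
  rw [h, Finset.natCast_card_filter, sum_sub_distrib, sum_const, card_univ, Fintype.card_fin,
    nsmul_eq_mul, mul_one, sub_sub_cancel]
  refine sum_congr rfl fun i _ => ?_
  unfold na
  by_cases h : G.Adj z (f i) <;> simp [h]

/-- the variance of the number of classes seen -/
private lemma SMid_var {R : ℕ} (B : Fin R → Finset V) (hb : ∀ i, (0 : ℝ) < ((B i).card : ℝ)) (z : V)
    (p : Fin R → ℝ) (hp : ∀ i, p i = ((hs G (B i) z).card : ℝ) / ((B i).card : ℝ))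
    (hp0 : ∀ i, 0 ≤ p i) (hp1 : ∀ i, p i ≤ 1) :
    ∑ f ∈ Fintype.piFinset B, ((∑ i, (1 - na G z (f i))) - ∑ i, (1 - p i)) ^ 2 ≤
      R * ∏ l, ((B l).card : ℝ) := by
  have hcard : ∑ _f ∈ Fintype.piFinset B, (1 : ℝ) = ∏ l, ((B l).card : ℝ) := by
    rw [Finset.sum_const, nsmul_eq_mul, Fintype.card_piFinset, mul_one]
    push_cast
    rfl
  have hz : ∀ i, ∑ x ∈ B i, (p i - na G z x) = 0 := by
    intro i
    rw [sum_sub_distrib, sum_na, sum_const, nsmul_eq_mul, hp i]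
    have h3 := (hb i).ne'
    field_simp
    ring
  have hcross : ∀ i j, i ≠ j → ∑ f ∈ Fintype.piFinset B,
      (p i - na G z (f i)) * (p j - na G z (f j)) = 0 := by
    intro i j hij
    have h := pair_sum B hij (fun x y => (p i - na G z x) * (p j - na G z y))
    have e : ∑ x ∈ B i, ∑ y ∈ B j, (p i - na G z x) * (p j - na G z y) = 0 := by
      rw [← sum_mul_sum, hz i, zero_mul]
    rw [e, mul_zero] at h
    exact (mul_eq_zero.1 h).resolve_left (mul_pos (hb i) (hb j)).ne'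
  have hdiag : ∀ i, ∑ f ∈ Fintype.piFinset B,
      (p i - na G z (f i)) * (p i - na G z (f i)) ≤ ∏ l, ((B l).card : ℝ) := by
    intro i
    rw [← hcard]
    refine sum_le_sum fun f _ => ?_
    have h1 := na_nonneg (G := G) z (f i)
    have h2 := na_le_one (G := G) z (f i)
    have h3 : |p i - na G z (f i)| ≤ 1 := by
      rw [abs_le]
      constructor <;> linarith [hp0 i, hp1 i]
    have h4 := abs_mul_abs_self (p i - na G z (f i))
    rw [← h4]
    calc |p i - na G z (f i)| * |p i - na G z (f i)| ≤ 1 * 1 :=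
          mul_le_mul h3 h3 (abs_nonneg _) zero_le_one
      _ = 1 := one_mul 1
  have hexp : ∀ f : Fin R → V, ((∑ i, (1 - na G z (f i))) - ∑ i, (1 - p i)) ^ 2 =
      ∑ i, ∑ j, (p i - na G z (f i)) * (p j - na G z (f j)) := by
    intro f
    rw [← sum_mul_sum, ← sum_sub_distrib, pow_two]
    have e : ∑ i, (1 - na G z (f i) - (1 - p i)) = ∑ i, (p i - na G z (f i)) :=
      sum_congr rfl fun i _ => by ring
    rw [e]
  calc ∑ f ∈ Fintype.piFinset B, ((∑ i, (1 - na G z (f i))) - ∑ i, (1 - p i)) ^ 2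
      = ∑ f ∈ Fintype.piFinset B, ∑ i, ∑ j, (p i - na G z (f i)) * (p j - na G z (f j)) :=
        sum_congr rfl fun f _ => hexp f
    _ = ∑ i, ∑ j, ∑ f ∈ Fintype.piFinset B, (p i - na G z (f i)) * (p j - na G z (f j)) := by
        rw [sum_comm]
        exact sum_congr rfl fun i _ => sum_comm
    _ ≤ ∑ i : Fin R, ∏ l, ((B l).card : ℝ) := by
        refine sum_le_sum fun i _ => ?_
        rw [sum_eq_single i]
        · exact hdiag i
        · intro j _ hj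
          exact hcross i j hj.symm
        · intro h
          exact absurd (mem_univ i) h
    _ = R * ∏ l, ((B l).card : ℝ) := by
        rw [sum_const, card_univ, Fintype.card_fin, nsmul_eq_mul]

/-- Chebyshev -/
private lemma SMid_cheb {R : ℕ} (B : Fin R → Finset V) (hb : ∀ i, (0 : ℝ) < ((B i).card : ℝ)) (z : V)
    (p : Fin R → ℝ) (hp : ∀ i, p i = ((hs G (B i) z).card : ℝ) / ((B i).card : ℝ))
    (hp0 : ∀ i, 0 ≤ p i) (hp1 : ∀ i, p i ≤ 1) {a : ℝ} (ha : 0 < a) :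
    (((Fintype.piFinset B).filter fun f =>
      (∑ i, (1 - na G z (f i))) < (∑ i, (1 - p i)) - a).card : ℝ) * a ^ 2 ≤
      R * ∏ l, ((B l).card : ℝ) := by
  refine le_trans ?_ (SMid_var B hb z p hp hp0 hp1)
  refine SMid_sum_nonneg _ _ (filter_subset _ _) _ (fun f _ => sq_nonneg _) fun f hf => ?_
  have h1 := (mem_filter.1 hf).2
  have h2 : a ≤ (∑ i, (1 - p i)) - ∑ i, (1 - na G z (f i)) := by linarith
  have h3 : ((∑ i, (1 - na G z (f i))) - ∑ i, (1 - p i)) ^ 2 =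
      ((∑ i, (1 - p i)) - ∑ i, (1 - na G z (f i))) ^ 2 := by ring
  rw [h3]
  exact pow_le_pow_left₀ ha.le h2 2

/-- the average of `DD` -/
private lemma SMid_DD {R m : ℕ} {S : Finset V} {C η₁ δ : ℝ} {B : Fin R → Finset V}
    (h : LS G S R m C η₁ δ B) (hC : 0 < C) (hδ : δ ≤ 1 / 2) (hm : (0 : ℝ) < m) :
    ∑ f ∈ Fintype.piFinset B, DD G f ≤ (R : ℝ) ^ 2 * (4 * C * (∏ l, ((B l).card : ℝ)) / m) := by
  set P : ℝ := ∏ l, ((B l).card : ℝ) with hP
  have hb : ∀ i, (m : ℝ) / 2 ≤ ((B i).card : ℝ) := fun i => by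
    have h1 := h.size_lo i
    have h2 : (1 / 2 : ℝ) * m ≤ (1 - δ) * m := mul_le_mul_of_nonneg_right (by linarith only [hδ]) hm.le
    linarith only [h1, h2]
  have hP0 : 0 < P := prod_pos fun i _ => lt_of_lt_of_le (by positivity) (hb i)
  have h1 : ∀ i j, i ≠ j → ∑ f ∈ Fintype.piFinset B, na G (f i) (f j) ≤ 4 * C * P / m := by
    intro i j hij
    have h2 := pair_sum B hij (fun x y => na G x y)
    have h3 : ∑ x ∈ B i, ∑ y ∈ B j, na G x y ≤ C * m := by
      refine le_trans (le_of_eq ?_) (h.tot i j hij)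
      exact sum_congr rfl fun x _ => sum_na _ _
    have h0 : 0 ≤ ∑ f ∈ Fintype.piFinset B, na G (f i) (f j) :=
      sum_nonneg fun f _ => na_nonneg _ _
    have h4 : (m : ℝ) / 2 * (m / 2) ≤ ((B i).card : ℝ) * (B j).card :=
      mul_le_mul (hb i) (hb j) (by positivity) (by positivity)
    have h5 := mul_le_mul_of_nonneg_right h4 h0
    rw [h2] at h5
    have h6 := mul_le_mul_of_nonneg_left h3 hP0.le
    rw [le_div_iff₀ hm]
    have h7 : (m : ℝ) / 2 * (m / 2) * ∑ f ∈ Fintype.piFinset B, na G (f i) (f j) ≤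
        P * (C * m) := h5.trans h6
    have h8 : (m : ℝ) * ((∑ f ∈ Fintype.piFinset B, na G (f i) (f j)) * m) ≤
        m * (4 * C * P) := by
      calc (m : ℝ) * ((∑ f ∈ Fintype.piFinset B, na G (f i) (f j)) * m)
          = 4 * ((m : ℝ) / 2 * (m / 2) * ∑ f ∈ Fintype.piFinset B, na G (f i) (f j)) := by ring
        _ ≤ 4 * (P * (C * m)) := mul_le_mul_of_nonneg_left h7 (by norm_num)
        _ = m * (4 * C * P) := by ring
    exact le_of_mul_le_mul_left h8 hm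
  have e : ∑ f ∈ Fintype.piFinset B, DD G f =
      ∑ i, ∑ j ∈ univ.erase i, ∑ f ∈ Fintype.piFinset B, na G (f i) (f j) := by
    unfold DD
    rw [sum_comm]
    exact sum_congr rfl fun i _ => sum_comm
  rw [e]
  have hq : 0 ≤ 4 * C * P / m :=
    div_nonneg (mul_nonneg (mul_nonneg (by norm_num) hC.le) hP0.le) hm.le
  calc ∑ i, ∑ j ∈ univ.erase i, ∑ f ∈ Fintype.piFinset B, na G (f i) (f j)
      ≤ ∑ i : Fin R, ∑ _j : Fin R, 4 * C * P / m := by
        refine sum_le_sum fun i _ => ?_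
        refine le_trans (sum_le_sum fun j hj => h1 i j (mem_erase.1 hj).1.symm) ?_
        exact sum_le_sum_of_subset_of_nonneg (subset_univ _) fun _ _ _ => hq
    _ = (R : ℝ) ^ 2 * (4 * C * P / m) := by
        rw [sum_const, sum_const, card_univ, Fintype.card_fin, nsmul_eq_mul, nsmul_eq_mul]
        ring

private lemma SMid_mem {S : Finset V} {R m : ℕ} {θ x₀ : ℝ} {z : V} (hz : z ∈ midS G S R m θ x₀) :
    z ∈ S ∧ θ * R * m < (dg G S z : ℝ) ∧ (dg G S z : ℝ) < (1 - x₀) * R * m := by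
  unfold midS at hz
  exact mem_filter.1 hz

end

/-- lower bound for the credit (concentration of the number of classes seen) -/
theorem mid_credit (u : ℕ) (β θ x₀ ε' : ℝ) (hu : 1 ≤ u) (hβ : 0 < β) (hβ1 : β < 1) (hθ : 0 < θ)
    (hx : 0 < x₀) (hε' : 0 < ε') : ∃ R₀ : ℕ, 3 ≤ R₀ ∧ ∀ R : ℕ, R₀ ≤ R → ∀ (s : ℕ) (ε : ℝ),
      0 ≤ ε → ε ≤ 1 → ε ≤ ε' / 4 → ∀ C η₁ : ℝ, 0 < C → 0 < η₁ → η₁ ≤ 1 / 16 →
    ∃ δ₀ : ℝ, 0 < δ₀ ∧ ∀ δ : ℝ, 0 < δ → δ ≤ δ₀ → ∃ m₀ : ℕ, ∀ m : ℕ, m₀ ≤ m →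
      ∀ (V : Type) [DecidableEq V] (G : SimpleGraph V) [DecidableRel G.Adj] (S : Finset V)
        (B : Fin R → Finset V), clq G S (R + 1) = ∅ → LS G S R m C η₁ δ B →
        ∀ z ∈ midS G S R m θ x₀,
        (s : ℝ) / R * (fP β u ((dg G S z : ℝ) / (R * m)) - ε') ≤
          (∑ f ∈ tcl G B, xzK G R s (ktS R s u β ε) f z) / ∏ l, ((B l).card : ℝ) := by
  obtain ⟨t, ht, htθ, hunif⟩ := fP_unif hβ hβ1 u hθ (show 0 < ε' / 4 by linarith only [hε'])
  obtain ⟨R₁, hR₁2, hR₁⟩ := ktS_mid u β (θ / 2) (ε' / 4) hu hβ hβ1 (by linarith only [ht,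
      htθ]) (by linarith)
  obtain ⟨R₂, hR₂⟩ := exists_nat_gt (32 / (t ^ 2 * ε'))
  refine ⟨max 3 (max R₁ R₂), le_max_left _ _, fun R hR s ε hε hε1 hεε C η₁ hC hη hη1 => ?_⟩
  have hR3 : 3 ≤ R := (le_max_left _ _).trans hR
  have hR2 : 2 ≤ R := by omega
  have hRR₁ : R₁ ≤ R := (le_max_left _ _).trans ((le_max_right _ _).trans hR)
  have hRR₂ : (R₂ : ℝ) ≤ R := by
    exact_mod_cast (le_max_right _ _).trans ((le_max_right _ _).trans hR)
  have hR3' : (3 : ℝ) ≤ R := by exact_mod_cast hR3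
  have hR0 : (0 : ℝ) < R := by linarith only [hη, hη1, hR3']
  have hR1 : (0 : ℝ) < (R : ℝ) - 1 := by linarith only [hη, hη1, hR3']
  have hRt : 32 ≤ t ^ 2 * ε' * R := by
    have h1 : 32 / (t ^ 2 * ε') < R := lt_of_lt_of_le hR₂ hRR₂
    rw [div_lt_iff₀ (by positivity)] at h1
    linarith only [h1]
  refine ⟨min (1 / 2) (t / 4), by positivity, fun δ hδ hδ' => ?_⟩
  have hδ2 : δ ≤ 1 / 2 := hδ'.trans (min_le_left _ _)
  have hδt : δ ≤ t / 4 := hδ'.trans (min_le_right _ _)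
  obtain ⟨m₀, hm₀⟩ := exists_nat_gt (1 + 16 * (R : ℝ) ^ 2 * C / ε' + 4 * C / (t * R))
  refine ⟨m₀, fun m hm V _ G _ S B hfree hB z hz => ?_⟩
  obtain ⟨hzS, hz1, hz2⟩ := SMid_mem hz
  have hmm : (m₀ : ℝ) ≤ m := by exact_mod_cast hm
  have q1 : 0 ≤ 16 * (R : ℝ) ^ 2 * C / ε' := by positivity
  have q2 : 0 ≤ 4 * C / (t * R) := by positivity
  have hm1 : (1 : ℝ) < m := by linarith only [hm₀, hmm, q1, q2]
  have hm0 : (0 : ℝ) < m := by linarith only [hη, hη1, hm₀, hmm, q1, q2]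
  have hmD : 16 * (R : ℝ) ^ 2 * C ≤ ε' * m := by
    have h1 : 16 * (R : ℝ) ^ 2 * C / ε' ≤ m := by linarith only [hη, hη1, hm₀, hmm, q2]
    rw [div_le_iff₀ hε'] at h1
    linarith only [h1]
  have hmC : 4 * C ≤ t * R * m := by
    have h1 : 4 * C / (t * R) ≤ m := by linarith only [hη, hη1, hm₀, hmm, q1]
    rw [div_le_iff₀ (by positivity)] at h1
    linarith only [h1]
  have hRm : 0 < (R : ℝ) * m := mul_pos hR0 hm0
  -- the share
  obtain ⟨y, hy⟩ : ∃ y : ℝ, y = (dg G S z : ℝ) / (R * m) := ⟨_, rfl⟩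
  rw [← hy]
  have hyθ : θ ≤ y := by
    rw [hy, le_div_iff₀ hRm]
    linarith only [hz1]
  have hy1 : y ≤ 1 := by
    rw [hy, div_le_iff₀ hRm]
    have : (1 - x₀) * R * m ≤ 1 * (R * m) := by
      rw [mul_assoc]
      exact mul_le_mul_of_nonneg_right (by linarith only [hx]) hRm.le
    linarith only [hz2, this]
  have hydg : (dg G S z : ℝ) = y * (R * m) := by
    rw [hy, div_mul_cancel₀ _ hRm.ne']
  have hy0 : 0 < y := by linarith only [htθ, hδ, hδt, hyθ]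
  have hv0 : 0 ≤ fP β u y := fP_nonneg hβ1 u hy0.le
  have hv1 : fP β u y ≤ 1 := fP_le_one hβ hβ1 u hy0 hy1
  have hα0 : 0 ≤ (s : ℝ) / R := by positivity
  have hfac : ∀ f ∈ tcl G B, 1 ≤ (hs G (im f) z).card ∧ (hs G (im f) z).card ≤ R := by
    intro f hf
    have hT : im f ∈ clq G S R := im_mem_clq hB.sub hf
    refine ⟨card_pos.2 (hs_nonempty hfree hT hzS), ?_⟩
    have h1 : (im f).card = R := (mem_powersetCard.1 (mem_filter.1 hT).1).2
    exact (card_le_card (hs_subset _ _)).trans h1.le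
  have hxz0 : ∀ f ∈ tcl G B, 0 ≤ xzK G R s (ktS R s u β ε) f z := by
    intro f hf
    unfold xzK
    split_ifs
    · exact hα0
    · exact ktS_nonneg hR2 hε hε1 _ (hfac f hf).2
  have hblo : ∀ i, (1 / 2 : ℝ) * m ≤ ((B i).card : ℝ) := fun i => by
    have h1 := hB.size_lo i
    have h2 : (1 / 2 : ℝ) * m ≤ (1 - δ) * m := mul_le_mul_of_nonneg_right (by linarith only [hδ2]) hm0.le
    linarith only [h1, h2]
  have hb : ∀ i, (0 : ℝ) < ((B i).card : ℝ) := fun i =>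
    lt_of_lt_of_le (by positivity) (hblo i)
  obtain ⟨P, hP⟩ : ∃ P : ℝ, P = ∏ l, ((B l).card : ℝ) := ⟨_, rfl⟩
  have hP0 : 0 < P := by rw [hP]; exact prod_pos fun i _ => hb i
  obtain ⟨A, hA⟩ : ∃ A : ℝ, A = (s : ℝ) / R * (fP β u y - 3 * ε' / 4) := ⟨_, rfl⟩
  rw [← hP, le_div_iff₀ hP0]
  by_cases hneg : fP β u y - 3 * ε' / 4 < 0
  · have h1 : (s : ℝ) / R * (fP β u y - ε') * P ≤ 0 := by
      refine mul_nonpos_of_nonpos_of_nonneg ?_ hP0.le
      exact mul_nonpos_of_nonneg_of_nonpos hα0 (by linarith only [hε', hneg])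
    exact h1.trans (sum_nonneg hxz0)
  push Not at hneg
  have hA0 : 0 ≤ A := by rw [hA]; exact mul_nonneg hα0 hneg
  obtain ⟨p, hp⟩ : ∃ p : Fin R → ℝ, ∀ i, p i = ((hs G (B i) z).card : ℝ) / ((B i).card : ℝ) :=
    ⟨_, fun _ => rfl⟩
  have hdg : ∀ i, (dg G (B i) z : ℝ) = (1 - p i) * ((B i).card : ℝ) := by
    intro i
    have h1 : dg G (B i) z + (hs G (B i) z).card = (B i).card := by
      unfold dg hs
      exact card_filter_add_card_filter_not _
    have h2 : (dg G (B i) z : ℝ) + ((hs G (B i) z).card : ℝ) = ((B i).card : ℝ) := by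
      exact_mod_cast h1
    rw [hp i]
    have h3 := (hb i).ne'
    field_simp
    linarith only [h2]
  have hp0 : ∀ i, 0 ≤ p i := by
    intro i
    rw [hp i]
    exact div_nonneg (Nat.cast_nonneg _) (Nat.cast_nonneg _)
  have hp1 : ∀ i, p i ≤ 1 := by
    intro i
    rw [hp i, div_le_one (hb i)]
    exact_mod_cast card_le_card (hs_subset _ _)
  obtain ⟨T, hT⟩ : ∃ T : ℝ, T = ∑ i, (1 - p i) := ⟨_, rfl⟩
  have hTR : T ≤ R := by
    rw [hT]
    calc ∑ i, (1 - p i) ≤ ∑ _i : Fin R, (1 : ℝ) := sum_le_sum fun i _ => by linarith [hp0 i]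
      _ = R := by simp
  have hD : (∑ i, (dg G (B i) z : ℝ)) ≤ T * ((1 + δ) * m) := by
    rw [hT, sum_mul]
    refine sum_le_sum fun i _ => ?_
    rw [hdg i]
    exact mul_le_mul_of_nonneg_left (hB.size_hi i) (by linarith [hp1 i])
  -- the mean
  have hTy : (y - t / 2) * R ≤ T := by
    have h1 := dg_le_sum hB z
    have h2 : y * (R * m) ≤ T * ((1 + δ) * m) + C := by linarith only [hydg, hD, h1]
    have h3 : T * δ ≤ R * (t / 4) := mul_le_mul hTR hδt hδ.le hR0.le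
    have h4 : m * (y * R) ≤ m * (T + T * δ + t * R / 4) := by
      have e1 : T * ((1 + δ) * m) = m * (T + T * δ) := by ring
      rw [e1] at h2
      linarith only [hmC, hydg, hD, h1]
    have h5 := le_of_mul_le_mul_left h4 hm0
    linarith
  -- the good tuples
  obtain ⟨bad, hbad⟩ : ∃ bad : Finset (Fin R → V), bad = (Fintype.piFinset B).filter fun f =>
      (∑ i, (1 - na G z (f i))) < (∑ i, (1 - p i)) - t * R / 2 := ⟨_, rfl⟩
  have hcheb : (bad.card : ℝ) ≤ ε' / 8 * P := by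
    have h1 := SMid_cheb B hb z p hp hp0 hp1 (show 0 < t * R / 2 by positivity)
    rw [← hbad, ← hP] at h1
    have h2 : (bad.card : ℝ) * (t * R / 2) ^ 2 * 8 ≤ (ε' * P) * (t * R / 2) ^ 2 := by
      calc (bad.card : ℝ) * (t * R / 2) ^ 2 * 8 ≤ R * P * 8 :=
            mul_le_mul_of_nonneg_right h1 (by norm_num)
        _ = 32 * (R * P / 4) := by ring
        _ ≤ (t ^ 2 * ε' * R) * (R * P / 4) := mul_le_mul_of_nonneg_right hRt (by positivity)
        _ = (ε' * P) * (t * R / 2) ^ 2 := by ring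
    have h3 : (t * R / 2) ^ 2 * ((bad.card : ℝ) * 8) ≤ (t * R / 2) ^ 2 * (ε' * P) := by linarith only [h2]
    have h4 := le_of_mul_le_mul_left h3 (by positivity)
    linarith only [h4]
  have htcl : P - ε' / 8 * P ≤ ((tcl G B).card : ℝ) := by
    have h1 := card_tcl_ge (G := G) B
    have h2 := SMid_DD hB hC hδ2 hm0
    rw [← hP] at h1 h2
    have h3 : (R : ℝ) ^ 2 * (4 * C * P / m) ≤ ε' / 4 * P := by
      have e : (R : ℝ) ^ 2 * (4 * C * P / m) = (16 * (R : ℝ) ^ 2 * C) * P / (4 * m) := by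
        field_simp
        ring
      rw [e, div_le_iff₀ (by positivity)]
      have h4 := mul_le_mul_of_nonneg_right hmD hP0.le
      linarith only [h4]
    linarith only [h1, h2, h3]
  have hgood : ∀ f ∈ tcl G B \ bad, A ≤ xzK G R s (ktS R s u β ε) f z := by
    intro f hf
    rw [mem_sdiff] at hf
    obtain ⟨hft, hfb⟩ := hf
    obtain ⟨hj1, hjR⟩ := hfac f hft
    have hX := SMid_hs hft z
    have hXT : (∑ i, (1 - p i)) - t * R / 2 ≤ ∑ i, (1 - na G z (f i)) := by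
      by_contra hcon
      push Not at hcon
      apply hfb
      rw [hbad, mem_filter]
      exact ⟨(mem_filter.1 hft).1, hcon⟩
    rw [← hT] at hXT
    have hX2 : (y - t) * R ≤ ∑ i, (1 - na G z (f i)) := by
      have e : (y - t) * R = (y - t / 2) * R - t * R / 2 := by ring
      rw [e]
      linarith only [hTy, hXT]
    unfold xzK
    by_cases hj : (hs G (im f) z).card = 1
    · rw [if_pos hj, hA]
      calc (s : ℝ) / R * (fP β u y - 3 * ε' / 4) ≤ (s : ℝ) / R * 1 :=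
            mul_le_mul_of_nonneg_left (by linarith only [hε', hv1]) hα0
        _ = (s : ℝ) / R := mul_one _
    · rw [if_neg hj]
      have hj2 : 2 ≤ (hs G (im f) z).card := by omega
      have hjR' : (((hs G (im f) z).card : ℕ) : ℝ) ≤ R := by exact_mod_cast hjR
      obtain ⟨Y, hY⟩ : ∃ Y : ℝ, Y = ((R : ℝ) - (((hs G (im f) z).card : ℕ) : ℝ)) / (R - 1) :=
        ⟨_, rfl⟩
      have hYy : y - t ≤ Y := by
        have h1 : (y - t) * R ≤ (R : ℝ) - (((hs G (im f) z).card : ℕ) : ℝ) := by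
          rw [hX]
          linarith only [hTy, hXT]
        rw [hY, le_div_iff₀ hR1]
        have h2 : (y - t) * (R - 1) ≤ (y - t) * R :=
          mul_le_mul_of_nonneg_left (by linarith only [hη, hη1]) (by linarith only [htθ, hδ, hδt,
              hyθ])
        linarith only [htθ, hδ, hδt, hyθ, hTy, hX, hXT]
      have h1 := hR₁ R hRR₁ s ε hε hε1 _ hj2 hjR (by
        rw [← hY]
        linarith only [htθ, hyθ, hYy])
      rw [← hY] at h1
      refine le_trans ?_ h1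
      rw [hA]
      refine mul_le_mul_of_nonneg_left ?_ hα0
      have h2 : fP β u (y - t) ≤ fP β u Y := fP_mono hβ hβ1 u (by linarith only [htθ, hδ, hδt,
          hyθ]) hYy
      have h3 := hunif y hyθ hy1
      linarith only [hεε, h2, h3]
  have hsub : tcl G B \ bad ⊆ tcl G B := sdiff_subset
  have hcnt : P - ε' / 4 * P ≤ ((tcl G B \ bad).card : ℝ) := by
    have h1 : (tcl G B).card ≤ (tcl G B \ bad).card + bad.card := by
      have h2 := card_le_card (show tcl G B ⊆ (tcl G B \ bad) ∪ bad by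
        intro f hf
        rw [mem_union, mem_sdiff]
        by_cases h : f ∈ bad
        · exact Or.inr h
        · exact Or.inl ⟨hf, h⟩)
      exact h2.trans (card_union_le _ _)
    have h2 : ((tcl G B).card : ℝ) ≤ ((tcl G B \ bad).card : ℝ) + (bad.card : ℝ) := by
      exact_mod_cast h1
    linarith only [hcheb, htcl, h2]
  have hfin := SMid_sum_nonneg _ _ hsub _ hxz0 hgood
  refine le_trans ?_ hfin
  have h1 := mul_le_mul_of_nonneg_right hcnt hA0
  refine le_trans ?_ h1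
  have e : (P - ε' / 4 * P) * A = ((s : ℝ) / R * P) *
      ((fP β u y - 3 * ε' / 4) - ε' / 4 * (fP β u y - 3 * ε' / 4)) := by
    rw [hA]
    ring
  have e2 : (s : ℝ) / R * (fP β u y - ε') * P = ((s : ℝ) / R * P) * (fP β u y - ε') := by ring
  rw [e, e2]
  refine mul_le_mul_of_nonneg_left ?_ (mul_nonneg hα0 hP0.le)
  have h2 : ε' / 4 * (fP β u y - 3 * ε' / 4) ≤ ε' / 4 * 1 :=
    mul_le_mul_of_nonneg_left (by linarith only [hε', hv1]) (by linarith only [hε'])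
  linarith only [h2]

variable {ι : Type} [Fintype ι] [DecidableEq ι] (J : SimpleGraph ι) [DecidableRel J.Adj]

theorem mid_margin (hd : ∀ v, 1 ≤ dg J univ v) (hcs : 2 ≤ Fintype.card ι) (u : ℕ)
    (β θ x₀ ε₃ : ℝ) (hu : 1 ≤ u) (hβ : 0 < β) (hβ1 : β < 1) (hθ : 0 < θ) (hx : 0 < x₀) (hε₃ : 0 < ε₃)
    (hε₃1 : ε₃ ≤ 1) :
    ∃ ε₀ : ℝ, 0 < ε₀ ∧ ε₀ ≤ 1 ∧ ∃ R₀ : ℕ, 3 ≤ R₀ ∧ ∀ R r : ℕ, R₀ ≤ R → r ≤ R → ∀ ε : ℝ,
    0 ≤ ε → ε ≤ ε₀ → ∀ C η₁ : ℝ, 0 < C → 0 < η₁ → η₁ ≤ 1 / 16 → ∃ κ₁ : ℝ, 0 < κ₁ ∧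
    ∀ ε₇ : ℝ, 0 ≤ ε₇ → ε₇ ≤ κ₁ → ∃ δ₀ : ℝ, 0 < δ₀ ∧ ∀ δ : ℝ, 0 < δ → δ ≤ δ₀ →
    ∃ m₀ : ℕ, ∀ m : ℕ, m₀ ≤ m →
      ∀ (V : Type) [DecidableEq V] (G : SimpleGraph V) [DecidableRel G.Adj] (S : Finset V)
        (B : Fin R → Finset V), S.card ≤ R * m + r → clq G S (R + 1) = ∅ →
        LS G S R m C η₁ δ B → ∀ z ∈ midS G S R m θ x₀,
        ((((emb J G S).filter fun φ => ∃ i, φ i = z).card : ℕ) : ℝ) + M0 J R m / m * κ₁ ≤
          (1 - ε₇) * (M0 J R m / m) * ((∑ f ∈ tcl G B,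
            xzK G R (Fintype.card ι) (ktS R (Fintype.card ι) u β ε) f z) /
              ∏ l, ((B l).card : ℝ)) + PiM J R m u β ε₃ (dg G S z) := by
  obtain ⟨s, hs⟩ : ∃ s : ℕ, s = Fintype.card ι := ⟨_, rfl⟩
  have hs2 : 2 ≤ s := by rw [hs]; exact hcs
  have hs2' : (2 : ℝ) ≤ s := by exact_mod_cast hs2
  have hs0 : (0 : ℝ) < s := by linarith only [hβ, hβ1, hs2']
  obtain ⟨C₀, hC₀, hM⟩ := M0_bounds J
  obtain ⟨ε', hε'⟩ : ∃ ε' : ℝ, ε' = ε₃ / (8 * s) := ⟨_, rfl⟩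
  have hε'0 : 0 < ε' := by rw [hε']; positivity
  have hsε : (s : ℝ) * ε' = ε₃ / 8 := by
    rw [hε']
    field_simp
  obtain ⟨R₁, hR₁3, hR₁⟩ := mid_credit u β θ x₀ ε' hu hβ hβ1 hθ hx hε'0
  obtain ⟨R₂, hR₂⟩ := exists_nat_gt (C₀ / ε')
  refine ⟨min 1 (ε' / 4), by positivity, min_le_left _ _, max R₁ R₂,
    hR₁3.trans (le_max_left _ _), fun R r hR hr ε hε hε0 C η₁ hC hη hη1 => ?_⟩
  have hRR₁ : R₁ ≤ R := (le_max_left _ _).trans hR
  have hRR₂ : (R₂ : ℝ) ≤ R := by exact_mod_cast (le_max_right _ _).trans hR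
  have hR3 : 3 ≤ R := hR₁3.trans hRR₁
  have hR3' : (3 : ℝ) ≤ R := by exact_mod_cast hR3
  have hR0 : (0 : ℝ) < R := by linarith only [hη, hη1, hR3']
  have hCR : C₀ / R ≤ ε' := by
    have h1 : C₀ / ε' < R := lt_of_lt_of_le hR₂ hRR₂
    rw [div_lt_iff₀ hε'0] at h1
    rw [div_le_iff₀ hR0]
    linarith only [h1]
  obtain ⟨κ₁, hκ₁⟩ : ∃ κ₁ : ℝ, κ₁ = ε₃ / (8 * s * R) := ⟨_, rfl⟩
  have hκ0 : 0 < κ₁ := by rw [hκ₁]; positivity
  have hκR : κ₁ * R = ε' := by
    rw [hκ₁, hε']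
    field_simp
  have hκs : κ₁ ≤ ε' := by
    rw [← hκR]
    have := mul_le_mul_of_nonneg_left (show (1 : ℝ) ≤ R by linarith only [hη, hη1, hR3']) hκ0.le
    linarith only [this]
  have hε'1 : ε' ≤ 1 / 16 := by
    rw [hε', div_le_iff₀ (by positivity)]
    linarith only [hε₃1, hs2']
  refine ⟨κ₁, hκ0, fun ε₇ hε₇ hε₇' => ?_⟩
  obtain ⟨δ₀, hδ₀, hcred⟩ := hR₁ R hRR₁ s ε hε (hε0.trans (min_le_left _ _))
    (hε0.trans (min_le_right _ _)) C η₁ hC hη hη1
  refine ⟨δ₀, hδ₀, fun δ hδ hδ' => ?_⟩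
  obtain ⟨m₁, hm₁⟩ := hcred δ hδ hδ'
  -- the sizes
  obtain ⟨m₂, hm₂⟩ : ∃ m₂ : ℕ, ∀ m : ℕ, m₂ ≤ m → (1 + 1 / (m : ℝ)) ^ (s - 1) ≤ 1 + ε' := by
    have h1 : Filter.Tendsto (fun m : ℕ => (1 + 1 / (m : ℝ)) ^ (s - 1)) Filter.atTop
        (nhds ((1 + 0) ^ (s - 1))) :=
      (tendsto_const_nhds.add tendsto_one_div_atTop_nhds_zero_nat).pow _
    rw [add_zero, one_pow] at h1
    have h2 := h1.eventually_le_const (show (1 : ℝ) < 1 + ε' by linarith only [hε'0])
    rw [Filter.eventually_atTop] at h2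
    exact h2
  refine ⟨max 1 (max m₁ m₂), fun m hm V _ G _ S B hS hfree hB z hz => ?_⟩
  have hm1 : 1 ≤ m := (le_max_left _ _).trans hm
  have hmm₁ : m₁ ≤ m := (le_max_left _ _).trans ((le_max_right _ _).trans hm)
  have hmm₂ : m₂ ≤ m := (le_max_right _ _).trans ((le_max_right _ _).trans hm)
  have hm1' : (1 : ℝ) ≤ m := by exact_mod_cast hm1
  have hm0 : (0 : ℝ) < m := by linarith only [hη, hη1, hm1']
  have hRm : 0 < (R : ℝ) * m := mul_pos hR0 hm0
  obtain ⟨hzS, hz1, hz2⟩ := SMid_mem hz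
  have hcr := hm₁ m hmm₁ V G S B hfree hB z hz
  obtain ⟨y, hy⟩ : ∃ y : ℝ, y = (dg G S z : ℝ) / (R * m) := ⟨_, rfl⟩
  rw [← hs]
  rw [← hy] at hcr
  have hyθ : θ ≤ y := by
    rw [hy, le_div_iff₀ hRm]
    linarith only [hz1]
  have hy1 : y ≤ 1 := by
    rw [hy, div_le_iff₀ hRm]
    have : (1 - x₀) * R * m ≤ 1 * (R * m) := by
      rw [mul_assoc]
      exact mul_le_mul_of_nonneg_right (by linarith only [hx]) hRm.le
    linarith only [hz2, this]
  have hy0 : 0 < y := by linarith only [hθ, hyθ]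
  have hv0 : 0 ≤ fP β u y := fP_nonneg hβ1 u hy0.le
  have hv1 : fP β u y ≤ 1 := fP_le_one hβ hβ1 u hy0 hy1
  obtain ⟨cr, hcrd⟩ : ∃ cr : ℝ, cr = (∑ f ∈ tcl G B, xzK G R s (ktS R s u β ε) f z) /
      ∏ l, ((B l).card : ℝ) := ⟨_, rfl⟩
  rw [← hcrd] at hcr ⊢
  have hcr0 : 0 ≤ cr := by
    rw [hcrd]
    refine div_nonneg (sum_nonneg fun f hf => ?_) (prod_nonneg fun i _ => Nat.cast_nonneg _)
    have hT : im f ∈ clq G S R := im_mem_clq hB.sub hf
    have h1 : (im f).card = R := (mem_powersetCard.1 (mem_filter.1 hT).1).2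
    unfold xzK
    split_ifs
    · positivity
    · refine ktS_nonneg (by omega) hε (hε0.trans (min_le_left _ _)) _ ?_
      exact (card_le_card (hs_subset _ _)).trans h1.le
  -- the bounds
  obtain ⟨N, hN⟩ : ∃ N : ℝ, N = ((R : ℝ) * m) ^ (s - 1) := ⟨_, rfl⟩
  have hN0 : 0 < N := by rw [hN]; positivity
  have hNs : ((R : ℝ) * m) ^ s = N * (R * m) := by
    rw [hN, ← pow_succ]
    congr 1
    omega
  obtain ⟨hMlo, hMhi⟩ := hM R m (by omega) hm1
  rw [← hs, hNs] at hMlo hMhi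
  have hMm_hi : M0 J R m / m ≤ R * N := by
    rw [div_le_iff₀ hm0]
    linarith only [hMhi]
  have hMm_lo : (1 - ε') * (R * N) ≤ M0 J R m / m := by
    rw [le_div_iff₀ hm0]
    refine le_trans ?_ hMlo
    have h1 : (1 - ε') * (N * (R * m)) ≤ (1 - C₀ / R) * (N * (R * m)) :=
      mul_le_mul_of_nonneg_right (by linarith only [hCR]) (by positivity)
    linarith
  -- copies through `z`
  have hn : (0 : ℝ) < (R : ℝ) * m * (1 + 1 / m) := by positivity
  have hSn : (S.card : ℝ) ≤ (R : ℝ) * m * (1 + 1 / m) := by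
    have h1 : (S.card : ℝ) ≤ (R : ℝ) * m + r := by exact_mod_cast hS
    have h2 : (r : ℝ) ≤ R := by exact_mod_cast hr
    have e : (R : ℝ) * m * (1 + 1 / m) = R * m + R := by
      field_simp
    rw [e]
    linarith only [h1, h2]
  have hthru := thru_psi (G := G) J S z hn hSn
  rw [← hs] at hthru
  have hΨ0 : 0 ≤ Psi J y := Psi_nonneg J hy0.le
  have hΨ1 : Psi J y ≤ s := by
    have h1 := Psi_le J hd hy0.le hy1
    rw [← hs] at h1
    have h2 := mul_le_mul_of_nonneg_left hy1 hs0.le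
    linarith only [h1, h2]
  have hcop : ((((emb J G S).filter fun φ => ∃ i, φ i = z).card : ℕ) : ℝ) ≤
      N * (Psi J y + ε₃ / 8) := by
    refine hthru.trans ?_
    have h1 : Psi J ((dg G S z : ℝ) / (R * m * (1 + 1 / m))) ≤ Psi J y := by
      refine Psi_mono J (by positivity) ?_
      rw [hy]
      refine div_le_div_of_nonneg_left (Nat.cast_nonneg _) hRm ?_
      have : 0 ≤ (R : ℝ) * m * (1 / m) := by positivity
      linarith only [this]
    have h2 : ((R : ℝ) * m * (1 + 1 / m)) ^ (s - 1) ≤ N * (1 + ε') := by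
      rw [mul_pow, ← hN]
      exact mul_le_mul_of_nonneg_left (hm₂ m hmm₂) hN0.le
    calc ((R : ℝ) * m * (1 + 1 / m)) ^ (s - 1) * Psi J ((dg G S z : ℝ) / (R * m * (1 + 1 / m)))
        ≤ (N * (1 + ε')) * Psi J y :=
          mul_le_mul h2 h1 (Psi_nonneg J (by positivity)) (by positivity)
      _ = N * (Psi J y + ε' * Psi J y) := by ring
      _ ≤ N * (Psi J y + ε₃ / 8) := by
          refine mul_le_mul_of_nonneg_left ?_ hN0.le
          have h3 : ε' * Psi J y ≤ ε' * s := mul_le_mul_of_nonneg_left hΨ1 hε'0.le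
          linarith only [hsε, h3]
  have hMκ : M0 J R m / m * κ₁ ≤ N * ε' := by
    calc M0 J R m / m * κ₁ ≤ (R * N) * κ₁ := mul_le_mul_of_nonneg_right hMm_hi hκ0.le
      _ = N * (κ₁ * R) := by ring
      _ = N * ε' := by rw [hκR]
  -- the credit
  obtain ⟨X, hX⟩ : ∃ X : ℝ, X = max (fP β u y - ε') 0 := ⟨_, rfl⟩
  have hX0 : 0 ≤ X := by rw [hX]; exact le_max_right _ _
  have hX1 : X ≤ 1 := by rw [hX]; exact max_le (by linarith only [hε'0, hv1]) zero_le_one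
  have hXv : fP β u y - ε' ≤ X := by rw [hX]; exact le_max_left _ _
  have hcrX : (s : ℝ) / R * X ≤ cr := by
    rw [hX]
    rcases le_total (fP β u y - ε') 0 with h | h
    · rw [max_eq_right h, mul_zero]
      exact hcr0
    · rw [max_eq_left h]
      exact hcr
  have hε₇1 : ε₇ ≤ ε' := hε₇'.trans hκs
  have hmain : N * (s * fP β u y - 3 * (ε₃ / 8)) ≤ (1 - ε₇) * (M0 J R m / m) * cr := by
    have h1 : (1 - ε') * ((1 - ε') * (R * N)) * ((s : ℝ) / R * X) ≤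
        (1 - ε₇) * (M0 J R m / m) * cr := by
      have h2 : (1 - ε') * ((1 - ε') * (R * N)) ≤ (1 - ε₇) * (M0 J R m / m) := by
        refine mul_le_mul (by linarith only [hκs, hε₇']) hMm_lo ?_ (by linarith only [hη, hη1,
            hκs, hε'1, hε₇'])
        have : 0 ≤ 1 - ε' := by linarith only [hη, hη1, hε'1]
        positivity
      refine mul_le_mul h2 hcrX (by positivity) ?_
      refine le_trans ?_ h2
      have : 0 ≤ 1 - ε' := by linarith only [hη, hη1, hε'1]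
      positivity
    refine le_trans ?_ h1
    have e : (1 - ε') * ((1 - ε') * (R * N)) * ((s : ℝ) / R * X) = N * (s * ((1 - ε') ^ 2 * X)) := by
      field_simp
    rw [e]
    refine mul_le_mul_of_nonneg_left ?_ hN0.le
    have h3 : fP β u y - 3 * ε' ≤ (1 - ε') ^ 2 * X := by
      have h4 : X - 2 * ε' ≤ (1 - ε') ^ 2 * X := by
        have e2 : (1 - ε') ^ 2 * X = X - 2 * ε' * X + ε' ^ 2 * X := by ring
        rw [e2]
        have h5 : 2 * ε' * X ≤ 2 * ε' * 1 := mul_le_mul_of_nonneg_left hX1 (by linarith only [hε'0])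
        have h6 : 0 ≤ ε' ^ 2 * X := by positivity
        linarith only [h5, h6]
      linarith only [hXv, h4]
    have h7 := mul_le_mul_of_nonneg_left h3 hs0.le
    have e3 : (s : ℝ) * (fP β u y - 3 * ε') = s * fP β u y - 3 * (s * ε') := by ring
    rw [e3, hsε] at h7
    exact h7
  have hPi : N * (Psi J y - s * fP β u y + ε₃) ≤ PiM J R m u β ε₃ (dg G S z) := by
    unfold PiM
    rw [← hs, ← hN, ← hy]
    exact mul_le_mul_of_nonneg_left (le_max_left _ _) hN0.le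
  have hNε : N * ε' ≤ N * (ε₃ / 8) := by
    refine mul_le_mul_of_nonneg_left ?_ hN0.le
    have h1 : 1 * ε' ≤ s * ε' := mul_le_mul_of_nonneg_right (by linarith only [hs2', hη,
        hη1]) hε'0.le
    linarith only [hsε, h1]
  have hNe : 0 ≤ N * ε₃ := by positivity
  have e1 : N * (Psi J y + ε₃ / 8) + N * (ε₃ / 8) + 3 / 8 * (N * ε₃) + 3 / 8 * (N * ε₃) =
      N * (s * fP β u y - 3 * (ε₃ / 8)) + N * (Psi J y - s * fP β u y + ε₃) + 3 / 8 * (N * ε₃) := by
    ring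
  linarith only [hcop, hMκ, hmain, hPi, hNε, hNe]

end H57GH
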