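import Pool.Agent.H57.GH.SDefs
import Pool.Agent.H57.GH.MedB
import Pool.Agent.H57.GH.ClA
import Pool.Agent.H57.GH.BalF

/-!
Project SH: copies of `J` through a heavy vertex, second order (Bonferroni).
-/

namespace H57GH

open Finset H57LC H57LT

set_option linter.unusedSectionVars false

variable {ι : Type} [Fintype ι] [DecidableEq ι] (J : SimpleGraph ι) [DecidableRel J.Adj]

/-- `oe J` is the sum of the degrees -/
theorem SNearB_oe : ∑ v, (dg J univ v : ℝ) = oe J := by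
  classical
  unfold oe dg
  have h : ((univ : Finset (ι × ι)).filter fun p => J.Adj p.1 p.2).card =
      ∑ v : ι, ((univ : Finset ι).filter fun y => J.Adj v y).card := by
    rw [card_filter, ← univ_product_univ, sum_product]
    refine sum_congr rfl fun v _ => ?_
    rw [card_filter]
  rw [h]
  push_cast
  rfl

theorem SNearB_dg_le (v : ι) : dg J univ v ≤ Fintype.card ι :=
  card_le_univ _

/-- lower bound for `M0` -/
theorem SNearB_M0 (R b m : ℕ) (hbm : b ≤ m) :
    M0 J R m - (Fintype.card ι : ℝ) * (R * ((m : ℝ) - b)) *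
      ((R : ℝ) * m) ^ (Fintype.card ι - 1) ≤ M0 J R b := by
  have h := MedB_M0 J R b m hbm
  linarith only [h]

/-- maps with three prescribed values -/
theorem SNearB_pi3 {W : Type*} [DecidableEq W] (P X : Finset W) (z : W) {v w w' : ι}
    (hvw : w ≠ v) (hvw' : w' ≠ v) (hww : w ≠ w') :
    ((Fintype.piFinset fun _ : ι => P).filter fun φ => φ v = z ∧ φ w ∈ X ∧ φ w' ∈ X).card ≤
      X.card ^ 2 * P.card ^ (Fintype.card ι - 3) := by
  classical
  have hsub : ((Fintype.piFinset fun _ : ι => P).filter fun φ => φ v = z ∧ φ w ∈ X ∧ φ w' ∈ X) ⊆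
      Fintype.piFinset (fun i : ι => if i = v then {z} else if i = w then X else
        if i = w' then X else P) := by
    intro φ hφ
    rw [mem_filter, Fintype.mem_piFinset] at hφ
    rw [Fintype.mem_piFinset]
    intro i
    by_cases hi : i = v
    · rw [if_pos hi, mem_singleton, hi]
      exact hφ.2.1
    · rw [if_neg hi]
      by_cases hi' : i = w
      · rw [if_pos hi', hi']
        exact hφ.2.2.1
      · rw [if_neg hi']
        by_cases hi'' : i = w'
        · rw [if_pos hi'', hi'']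
          exact hφ.2.2.2
        · rw [if_neg hi'']
          exact hφ.1 i
  refine (card_le_card hsub).trans ?_
  rw [Fintype.card_piFinset]
  have hw : w ∈ (univ : Finset ι).erase v := mem_erase.2 ⟨hvw, mem_univ w⟩
  have hw' : w' ∈ ((univ : Finset ι).erase v).erase w :=
    mem_erase.2 ⟨hww.symm, mem_erase.2 ⟨hvw', mem_univ w'⟩⟩
  rw [← mul_prod_erase univ _ (mem_univ v), ← mul_prod_erase ((univ : Finset ι).erase v) _ hw,
    ← mul_prod_erase (((univ : Finset ι).erase v).erase w) _ hw']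
  rw [if_pos rfl, card_singleton, one_mul, if_neg hvw, if_pos rfl, if_neg hvw', if_neg hww.symm,
    if_pos rfl]
  have h1 : ∏ x ∈ ((univ.erase v).erase w).erase w',
      (if x = v then ({z} : Finset W) else if x = w then X else if x = w' then X else P).card =
      ∏ _x ∈ (((univ : Finset ι).erase v).erase w).erase w', P.card := by
    refine prod_congr rfl fun x hx => ?_
    rw [mem_erase, mem_erase, mem_erase] at hx
    rw [if_neg hx.2.2.1, if_neg hx.2.1, if_neg hx.1]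
  rw [h1, prod_const, card_erase_of_mem hw', card_erase_of_mem hw, card_erase_of_mem (mem_univ v),
    card_univ, Nat.sub_sub, Nat.sub_sub]
  refine le_of_eq ?_
  ring

section part
variable {V : Type*} [DecidableEq V]

/-- copies in the classes of a partition using a given pair of points -/
theorem SNearB_pair {R b : ℕ} {B : Fin R → Finset V} {π : V → Fin R}
    (hπ : ∀ i, ∀ z ∈ B i, π z = i) (hb : 1 ≤ b) (ha : ∀ k, b ≤ (B k).card) {v v' : ι}
    (hv : J.Adj v v') {x y : V} (hx : x ∈ un B) (hy : y ∈ un B) (hxy : π x ≠ π y) :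
    M0 J R b ≤ ((((cm J (un B) π).filter fun φ => φ v = x ∧ φ v' = y).card : ℕ) : ℝ) *
      ((R : ℝ) * (R - 1) * (b : ℝ) ^ 2) := by
  classical
  have hB : ∀ z ∈ un B, z ∈ B (π z) := by
    intro z hz
    obtain ⟨i, hi⟩ := mem_un.1 hz
    rw [hπ i z hi]; exact hi
  let e : (Σ _ : Fin R, ℕ) → V := fun p =>
    if h : p.2 < (B p.1).card then ((B p.1).equivFin.symm ⟨p.2, h⟩).1 else x
  let ix : ∀ z, z ∈ un B → (Σ _ : Fin R, ℕ) := fun z hz =>
    ⟨π z, ((B (π z)).equivFin ⟨z, hB z hz⟩).1⟩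
  have hix : ∀ z (hz : z ∈ un B), ix z hz ∈ pts (univ : Finset (Fin R)) fun k => (B k).card := by
    intro z hz
    unfold pts
    rw [mem_sigma, mem_range]
    exact ⟨mem_univ _, ((B (π z)).equivFin ⟨z, hB z hz⟩).2⟩
  have heix : ∀ z (hz : z ∈ un B), e (ix z hz) = z := by
    intro z hz
    have h1 : (ix z hz).2 < (B (ix z hz).1).card := ((B (π z)).equivFin ⟨z, hB z hz⟩).2
    show (if h : (ix z hz).2 < (B (ix z hz).1).card then
      ((B (ix z hz).1).equivFin.symm ⟨(ix z hz).2, h⟩).1 else x) = z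
    rw [dif_pos h1]
    have h2 : (⟨(ix z hz).2, h1⟩ : Fin (B (π z)).card) = (B (π z)).equivFin ⟨z, hB z hz⟩ := rfl
    show ((B (π z)).equivFin.symm ⟨(ix z hz).2, h1⟩).1 = z
    rw [h2, Equiv.symm_apply_apply]
  have he1 : ∀ p ∈ pts (univ : Finset (Fin R)) (fun k => (B k).card), e p ∈ B p.1 := by
    intro p hp
    unfold pts at hp
    rw [mem_sigma, mem_range] at hp
    show (if h : p.2 < (B p.1).card then ((B p.1).equivFin.symm ⟨p.2, h⟩).1 else x) ∈ B p.1
    rw [dif_pos hp.2]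
    exact ((B p.1).equivFin.symm ⟨p.2, hp.2⟩).2
  have he2 : ∀ p ∈ pts (univ : Finset (Fin R)) (fun k => (B k).card), π (e p) = p.1 :=
    fun p hp => hπ _ _ (he1 p hp)
  have h1 := pair_ge J (T := (univ : Finset (Fin R))) (R := R) (b := b) (by simp) hb
    (a := fun k => (B k).card) (fun k _ => ha k) hv (hix x hx) (hix y hy) hxy
  refine h1.trans (mul_le_mul_of_nonneg_right ?_ ?_)
  · norm_cast
    refine cm_card_le' J e (fun p hp => subset_un B _ (he1 p hp)) ?_ ?_ _ _ ?_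
    · intro p hp q hq hpq
      have h2 : p.1 = q.1 := by rw [← he2 p hp, ← he2 q hq, hpq]
      obtain ⟨p1, p2⟩ := p
      obtain ⟨q1, q2⟩ := q
      simp only at h2
      subst h2
      have hp' : p2 < (B p1).card := by
        have := hp; unfold pts at this; rw [mem_coe, mem_sigma, mem_range] at this; exact this.2
      have hq' : q2 < (B p1).card := by
        have := hq; unfold pts at this; rw [mem_coe, mem_sigma, mem_range] at this; exact this.2
      have h3 : e ⟨p1, p2⟩ = ((B p1).equivFin.symm ⟨p2, hp'⟩).1 := dif_pos hp'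
      have h4 : e ⟨p1, q2⟩ = ((B p1).equivFin.symm ⟨q2, hq'⟩).1 := dif_pos hq'
      rw [h3, h4] at hpq
      have h5 := (B p1).equivFin.symm.injective (Subtype.ext hpq)
      rw [Fin.mk.injEq] at h5
      rw [h5]
    · intro p hp q hq hpq
      rw [he2 p hp, he2 q hq]; exact hpq
    · intro φ _ hφ
      refine ⟨?_, ?_⟩
      · show e (φ v) = x
        rw [hφ.1]; exact heix x hx
      · show e (φ v') = y
        rw [hφ.2]; exact heix y hy
  · have hR : (1 : ℝ) ≤ R := by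
      have := (π x).2
      exact_mod_cast (show 1 ≤ R by omega)
    have : (0 : ℝ) ≤ (R : ℝ) - 1 := by linarith only [hR]
    positivity

/-- copies in the classes of a partition using a given point -/
theorem SNearB_point {R b : ℕ} {B : Fin R → Finset V} {π : V → Fin R}
    (hπ : ∀ i, ∀ z ∈ B i, π z = i) (hb : ∀ k, (B k).card ≤ b) (v : ι) {x : V} (hx : x ∈ un B) :
    ((((cm J (un B) π).filter fun φ => φ v = x).card : ℕ) : ℝ) * ((R : ℝ) * b) ≤ M0 J R b := by
  classical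
  choose g hg1 hg2 using fun i : Fin R => MedB_idx (B i)
  have hB : ∀ z ∈ un B, z ∈ B (π z) := by
    intro z hz
    obtain ⟨i, hi⟩ := mem_un.1 hz
    rw [hπ i z hi]; exact hi
  let e : V → Σ _ : Fin R, ℕ := fun y => ⟨π y, g (π y) y⟩
  have he : ∀ y ∈ un B, e y ∈ pts (univ : Finset (Fin R)) (fun _ => b) := by
    intro y hy
    unfold pts
    rw [mem_sigma, mem_range]
    exact ⟨mem_univ _, (hg2 _ y (hB y hy)).trans_le (hb _)⟩
  have hinj : Set.InjOn e (un B : Finset V) := by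
    intro y hy y' hy' hyy
    have h1 : π y = π y' := congrArg Sigma.fst hyy
    have h2 : g (π y) y = g (π y') y' := congrArg (fun p : Σ _ : Fin R, ℕ => p.2) hyy
    rw [← h1] at h2
    have h3 := hB y' (mem_coe.1 hy')
    rw [← h1] at h3
    exact hg1 _ y (hB y (mem_coe.1 hy)) y' h3 h2
  have hcard := cm_card_le' J (P := un B) (P' := pts (univ : Finset (Fin R)) (fun _ => b))
    (π := π) (π' := Sigma.fst) e he hinj (fun _ _ _ _ h => h) (fun φ => φ v = x)
    (fun ψ => ψ v = e x) (fun φ _ h => congrArg e h)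
  have hfp := fJ_point J (T := (univ : Finset (Fin R))) (R := R) (b := b)
    (by rw [card_univ, Fintype.card_fin]) v (he x hx)
  unfold M0
  rw [← hfp]
  refine mul_le_mul_of_nonneg_right (by exact_mod_cast hcard) (by positivity)

/-- the elementary inequality: `1 ≤ 1 - k + k (k - 1)` or `0 ≤ 1 - k + k (k - 1)` -/
theorem SNearB_bonf (K : Finset ι) :
    (if K.card = 0 then (1 : ℝ) else 0) ≤ 1 - K.card +
      ((((K ×ˢ K).filter fun q => q.1 ≠ q.2).card : ℕ) : ℝ) := by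
  have h0 : ((K ×ˢ K).filter fun q => q.1 ≠ q.2) = K.offDiag := by
    ext q
    rw [mem_filter, mem_product, mem_offDiag]
    tauto
  rw [h0, offDiag_card]
  have h1 : K.card ≤ K.card * K.card := Nat.le_mul_self _
  rw [Nat.cast_sub h1]
  push_cast
  by_cases hK : K.card = 0
  · rw [if_pos hK, hK]
    norm_num
  · rw [if_neg hK]
    linarith only [sq_nonneg ((K.card : ℝ) - 1)]

/-- Bonferroni at one vertex of `J` -/
theorem SNearB_v {R b b' : ℕ} {B : Fin R → Finset V} {π : V → Fin R} (hR : 2 ≤ R)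
    (hπ : ∀ i, ∀ z ∈ B i, π z = i) (hb : 1 ≤ b) (ha : ∀ k, b ≤ (B k).card)
    (ha' : ∀ k, (B k).card ≤ b') (v : ι) {z : V} (hz : z ∈ un B) {M : Finset V}
    (hM : M ⊆ un B) (hMπ : ∀ y ∈ M, π z ≠ π y) :
    ((((cm J (un B) π).filter fun φ => φ v = z ∧ ∀ w, J.Adj v w → φ w ∉ M).card : ℕ) : ℝ) ≤
      M0 J R b' / (R * b') -
        dg J univ v * (M.card * (M0 J R b / ((R : ℝ) * (R - 1) * (b : ℝ) ^ 2))) +
        (Fintype.card ι : ℝ) ^ 2 * ((M.card : ℝ) ^ 2 *
          if 3 ≤ Fintype.card ι then ((un B).card : ℝ) ^ (Fintype.card ι - 3) else 0) := by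
  classical
  have hR0 : (0 : ℝ) < R := by
    have : 0 < R := by omega
    exact_mod_cast this
  have hR1 : (0 : ℝ) < (R : ℝ) - 1 := by
    have : (2 : ℝ) ≤ R := by exact_mod_cast hR
    linarith only [this]
  have hb0 : (0 : ℝ) < b := by exact_mod_cast hb
  have hbb : b ≤ b' := (ha (π z)).trans (ha' (π z))
  have hb0' : (0 : ℝ) < b' := by
    have : 0 < b' := by omega
    exact_mod_cast this
  obtain ⟨A, hA⟩ : ∃ A : Finset (ι → V), A = (cm J (un B) π).filter fun φ => φ v = z := ⟨_, rfl⟩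
  obtain ⟨N, hN⟩ : ∃ N : Finset ι, N = univ.filter fun w => J.Adj v w := ⟨_, rfl⟩
  obtain ⟨K, hK⟩ : ∃ K : (ι → V) → Finset ι, K = fun φ => N.filter fun w => φ w ∈ M := ⟨_, rfl⟩
  obtain ⟨q, hq⟩ : ∃ q : ℝ, q = M0 J R b / ((R : ℝ) * (R - 1) * (b : ℝ) ^ 2) := ⟨_, rfl⟩
  obtain ⟨T, hT⟩ : ∃ T : ℝ, T =
    if 3 ≤ Fintype.card ι then ((un B).card : ℝ) ^ (Fintype.card ι - 3) else 0 := ⟨_, rfl⟩
  have hT0 : 0 ≤ T := by
    rw [hT]
    split_ifs
    · positivity
    · exact le_rfl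
  have hmemN : ∀ w, w ∈ N ↔ J.Adj v w := by
    intro w
    rw [hN, mem_filter]
    exact ⟨fun h => h.2, fun h => ⟨mem_univ _, h⟩⟩
  have hNc : N.card = dg J univ v := by rw [hN]; rfl
  -- the left side
  have h1 : ((((cm J (un B) π).filter fun φ => φ v = z ∧ ∀ w, J.Adj v w → φ w ∉ M).card : ℕ) : ℝ)
      ≤ ∑ φ ∈ A, (1 - ((K φ).card : ℝ) +
        ((((K φ ×ˢ K φ).filter fun q => q.1 ≠ q.2).card : ℕ) : ℝ)) := by
    have h2 : ((cm J (un B) π).filter fun φ => φ v = z ∧ ∀ w, J.Adj v w → φ w ∉ M) =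
        A.filter fun φ => (K φ).card = 0 := by
      ext φ
      rw [hA, mem_filter, mem_filter, mem_filter, hK, and_assoc]
      refine and_congr_right fun _ => and_congr_right fun _ => ?_
      rw [card_eq_zero, filter_eq_empty_iff]
      refine forall_congr' fun w => ?_
      rw [hmemN]
    rw [h2, card_filter]
    push_cast
    refine sum_le_sum fun φ _ => ?_
    exact SNearB_bonf (K φ)
  -- the first sum
  have h3 : (A.card : ℝ) ≤ M0 J R b' / (R * b') := by
    rw [le_div_iff₀ (by positivity), hA]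
    exact SNearB_point J hπ ha' v hz
  -- the second sum
  have h4 : (dg J univ v : ℝ) * (M.card * q) ≤ ∑ φ ∈ A, ((K φ).card : ℝ) := by
    have h5 : ∑ φ ∈ A, ((K φ).card : ℝ) =
        ∑ w ∈ N, ∑ y ∈ M, (((A.filter fun φ => φ w = y).card : ℕ) : ℝ) := by
      have h6 : ∀ φ ∈ A, ((K φ).card : ℝ) = ∑ w ∈ N, ∑ y ∈ M, if φ w = y then (1 : ℝ) else 0 := by
        intro φ _
        rw [hK]
        simp only
        rw [card_filter]
        push_cast
        refine sum_congr rfl fun w _ => ?_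
        rw [sum_ite_eq]
      rw [sum_congr rfl h6, sum_comm]
      refine sum_congr rfl fun w _ => ?_
      rw [sum_comm]
      refine sum_congr rfl fun y _ => ?_
      rw [card_filter]
      push_cast
      rfl
    rw [h5]
    have h7 : ∀ w ∈ N, ∀ y ∈ M, q ≤ (((A.filter fun φ => φ w = y).card : ℕ) : ℝ) := by
      intro w hw y hy
      rw [hq, div_le_iff₀ (by positivity), hA, filter_filter]
      exact SNearB_pair J hπ hb ha ((hmemN w).1 hw) hz (hM hy) (hMπ y hy)
    calc (dg J univ v : ℝ) * (M.card * q) = ∑ w ∈ N, ∑ y ∈ M, q := by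
          rw [sum_const, sum_const, nsmul_eq_mul, nsmul_eq_mul, hNc]
      _ ≤ _ := sum_le_sum fun w hw => sum_le_sum fun y hy => h7 w hw y hy
  -- the third sum
  have h8 : ∑ φ ∈ A, ((((K φ ×ˢ K φ).filter fun q => q.1 ≠ q.2).card : ℕ) : ℝ) ≤
      (Fintype.card ι : ℝ) ^ 2 * ((M.card : ℝ) ^ 2 * T) := by
    have h9 : ∑ φ ∈ A, ((((K φ ×ˢ K φ).filter fun q => q.1 ≠ q.2).card : ℕ) : ℝ) =
        ∑ p ∈ (N ×ˢ N).filter (fun p => p.1 ≠ p.2),
          (((A.filter fun φ => φ p.1 ∈ M ∧ φ p.2 ∈ M).card : ℕ) : ℝ) := by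
      have h10 : ∀ φ ∈ A, ((((K φ ×ˢ K φ).filter fun q => q.1 ≠ q.2).card : ℕ) : ℝ) =
          ∑ p ∈ (N ×ˢ N).filter (fun p => p.1 ≠ p.2),
            if φ p.1 ∈ M ∧ φ p.2 ∈ M then (1 : ℝ) else 0 := by
        intro φ _
        have h11 : (K φ ×ˢ K φ).filter (fun q => q.1 ≠ q.2) =
            ((N ×ˢ N).filter (fun p => p.1 ≠ p.2)).filter fun p => φ p.1 ∈ M ∧ φ p.2 ∈ M := by
          ext p
          rw [hK]
          simp only [mem_filter, mem_product]
          tauto
        rw [h11, card_filter]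
        push_cast
        rfl
      rw [sum_congr rfl h10, sum_comm]
      refine sum_congr rfl fun p _ => ?_
      rw [card_filter]
      push_cast
      rfl
    rw [h9]
    have h12 : ∀ p ∈ (N ×ˢ N).filter (fun p => p.1 ≠ p.2),
        (((A.filter fun φ => φ p.1 ∈ M ∧ φ p.2 ∈ M).card : ℕ) : ℝ) ≤ (M.card : ℝ) ^ 2 * T := by
      intro p hp
      rw [mem_filter, mem_product, hmemN, hmemN] at hp
      have hv1 : p.1 ≠ v := fun h => by
        have := hp.1.1
        rw [h] at this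
        exact J.loopless.irrefl _ this
      have hv2 : p.2 ≠ v := fun h => by
        have := hp.1.2
        rw [h] at this
        exact J.loopless.irrefl _ this
      have h13 : 3 ≤ Fintype.card ι := by
        have h14 : ({v, p.1, p.2} : Finset ι).card = 3 :=
          card_eq_three.2 ⟨v, p.1, p.2, hv1.symm, hv2.symm, hp.2, rfl⟩
        rw [← h14]
        exact card_le_univ _
      have h15 : (A.filter fun φ => φ p.1 ∈ M ∧ φ p.2 ∈ M) ⊆
          (Fintype.piFinset fun _ : ι => un B).filter fun φ => φ v = z ∧ φ p.1 ∈ M ∧ φ p.2 ∈ M := by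
        intro φ hφ
        rw [hA, mem_filter, mem_filter] at hφ
        rw [mem_filter]
        refine ⟨?_, hφ.1.2, hφ.2⟩
        have := hφ.1.1
        unfold cm at this
        exact (mem_filter.1 this).1
      have h16 := (card_le_card h15).trans (SNearB_pi3 (un B) M z hv1 hv2 hp.2)
      rw [hT, if_pos h13]
      exact_mod_cast h16
    have h17 : (((N ×ˢ N).filter (fun p => p.1 ≠ p.2)).card : ℝ) ≤ (Fintype.card ι : ℝ) ^ 2 := by
      have h18 : ((N ×ˢ N).filter (fun p => p.1 ≠ p.2)).card ≤ Fintype.card ι ^ 2 := by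
        refine (card_filter_le _ _).trans ?_
        rw [card_product, sq]
        exact Nat.mul_le_mul (card_le_univ _) (card_le_univ _)
      exact_mod_cast h18
    refine (sum_le_card_nsmul _ _ _ h12).trans ?_
    rw [nsmul_eq_mul]
    exact mul_le_mul_of_nonneg_right h17 (by positivity)
  have h19 : ∑ φ ∈ A, (1 - ((K φ).card : ℝ) +
        ((((K φ ×ˢ K φ).filter fun q => q.1 ≠ q.2).card : ℕ) : ℝ)) =
      A.card - ∑ φ ∈ A, ((K φ).card : ℝ) +
        ∑ φ ∈ A, ((((K φ ×ˢ K φ).filter fun q => q.1 ≠ q.2).card : ℕ) : ℝ) := by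
    rw [sum_add_distrib, sum_sub_distrib, sum_const, nsmul_eq_mul, mul_one]
  rw [h19] at h1
  rw [← hq, ← hT]
  linarith only [h8, h4, h3, h1]

end part

/-- Bonferroni for the copies through a heavy vertex, one vertex of `J` -/
theorem SNearB_emb {V : Type*} [DecidableEq V] {G : SimpleGraph V} [DecidableRel G.Adj]
    {R m b b' : ℕ} {C η₁ δ : ℝ} {S : Finset V} {B : Fin R → Finset V} (hR : 2 ≤ R)
    (h : LS G S R m C η₁ δ B) (hb : 1 ≤ b) (ha : ∀ k, b ≤ (B k).card)
    (ha' : ∀ k, (B k).card < b') {z : V} (hz : z ∈ S \ un B) (i₀ : Fin R) (v : ι) {M : Finset V}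
    (hM : M = (un B \ B i₀).filter fun y => ¬ G.Adj z y) :
    (((emb J G S).filter fun φ => φ v = z).card : ℝ) ≤
      Fintype.card ι * (((S \ un B).card : ℝ) + dg G (B i₀) z) *
        (S.card : ℝ) ^ (Fintype.card ι - 2) +
      (M0 J R b' / (R * b') -
        dg J univ v * (M.card * (M0 J R b / ((R : ℝ) * (R - 1) * (b : ℝ) ^ 2))) +
        (Fintype.card ι : ℝ) ^ 2 * ((M.card : ℝ) ^ 2 *
          if 3 ≤ Fintype.card ι then (S.card : ℝ) ^ (Fintype.card ι - 3) else 0)) := by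
  classical
  have hzS : z ∈ S := (mem_sdiff.1 hz).1
  have hzB : z ∉ un B := (mem_sdiff.1 hz).2
  obtain ⟨X, hXdef⟩ : ∃ X : Finset V, X = (S \ un B) ∪ (B i₀).filter (fun y => G.Adj z y) :=
    ⟨_, rfl⟩
  have hmemX : ∀ x, x ∈ X ↔ (x ∈ S ∧ x ∉ un B) ∨ (x ∈ B i₀ ∧ G.Adj z x) := by
    intro x
    rw [hXdef, mem_union, mem_sdiff, mem_filter]
  have hXc : X.card ≤ (S \ un B).card + dg G (B i₀) z := by
    rw [hXdef]
    exact card_union_le _ _
  -- the class function
  obtain ⟨π, hcl, hclz⟩ : ∃ cl : V → Fin R, (∀ x i, x ∈ B i → cl x = i) ∧ cl z = i₀ := by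
    refine ⟨fun x => if h : ∃ i, x ∈ B i then h.choose else i₀, ?_, ?_⟩
    · intro x i hx
      have h' : ∃ i, x ∈ B i := ⟨i, hx⟩
      simp only [dif_pos h']
      by_contra hne
      exact (disjoint_left.1 (h.disj _ _ hne)) h'.choose_spec hx
    · have h' : ¬ ∃ i, z ∈ B i := fun h => hzB (mem_un.2 h)
      simp only [dif_neg h']
  -- the classes with `z`
  obtain ⟨B', hB'⟩ : ∃ B' : Fin R → Finset V,
    B' = fun i => if i = i₀ then insert z (B i₀) else B i := ⟨_, rfl⟩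
  have hB'0 : B' i₀ = insert z (B i₀) := by rw [hB']; simp
  have hB'1 : ∀ i, i ≠ i₀ → B' i = B i := fun i hi => by rw [hB']; simp [hi]
  have hBB' : ∀ i, B i ⊆ B' i := by
    intro i
    by_cases hi : i = i₀
    · rw [hi, hB'0]
      exact subset_insert _ _
    · rw [hB'1 i hi]
  have hun : un B' = insert z (un B) := by
    ext x
    rw [mem_un, mem_insert, mem_un]
    constructor
    · rintro ⟨i, hi⟩
      by_cases hii : i = i₀
      · rw [hii, hB'0, mem_insert] at hi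
        rcases hi with hi | hi
        · exact Or.inl hi
        · exact Or.inr ⟨i₀, hi⟩
      · rw [hB'1 i hii] at hi
        exact Or.inr ⟨i, hi⟩
    · rintro (hx | ⟨i, hi⟩)
      · exact ⟨i₀, by rw [hB'0, hx]; exact mem_insert_self _ _⟩
      · exact ⟨i, hBB' i hi⟩
  have hunS : un B' ⊆ S := by
    rw [hun]
    intro x hx
    rcases mem_insert.1 hx with hx | hx
    · rw [hx]; exact hzS
    · obtain ⟨i, hi⟩ := mem_un.1 hx
      exact h.sub i hi
  have hπ' : ∀ i, ∀ x ∈ B' i, π x = i := by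
    intro i x hx
    by_cases hii : i = i₀
    · rw [hii, hB'0, mem_insert] at hx
      rcases hx with hx | hx
      · rw [hx, hclz, hii]
      · rw [hcl x i₀ hx, hii]
    · rw [hB'1 i hii] at hx
      exact hcl x i hx
  have ha1 : ∀ k, b ≤ (B' k).card := fun k => (ha k).trans (card_le_card (hBB' k))
  have ha2 : ∀ k, (B' k).card ≤ b' := by
    intro k
    by_cases hk : k = i₀
    · rw [hk, hB'0]
      exact (card_insert_le _ _).trans (ha' i₀)
    · rw [hB'1 k hk]
      exact (ha' k).le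
  have hzB' : z ∈ un B' := by rw [hun]; exact mem_insert_self _ _
  have hmemM : ∀ y, y ∈ M ↔ (y ∈ un B ∧ y ∉ B i₀) ∧ ¬ G.Adj z y := by
    intro y
    rw [hM, mem_filter, mem_sdiff]
  have hMsub : M ⊆ un B' := by
    intro y hy
    rw [hun]
    exact mem_insert_of_mem ((hmemM y).1 hy).1.1
  have hMπ : ∀ y ∈ M, π z ≠ π y := by
    intro y hy
    have hy' := (hmemM y).1 hy
    obtain ⟨i, hi⟩ := mem_un.1 hy'.1.1
    rw [hclz, hcl y i hi]
    intro hii
    rw [← hii] at hi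
    exact hy'.1.2 hi
  have hsub : ((emb J G S).filter fun φ => φ v = z) ⊆
      (univ.erase v).biUnion (fun w => (Fintype.piFinset fun _ : ι => S).filter fun φ =>
        φ v = z ∧ φ w ∈ X) ∪
      ((cm J (un B') π).filter fun φ => φ v = z ∧ ∀ w, J.Adj v w → φ w ∉ M) := by
    intro φ hφ
    rw [mem_filter] at hφ
    obtain ⟨hφe, hφz⟩ := hφ
    have hφe' := hφe
    unfold emb at hφe'
    rw [mem_filter, Fintype.mem_piFinset] at hφe'
    obtain ⟨hS, hinj, hadj⟩ := hφe'
    rw [mem_union, mem_biUnion]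
    by_cases hX : ∃ w, w ≠ v ∧ φ w ∈ X
    · obtain ⟨w, hw, hwX⟩ := hX
      refine Or.inl ⟨w, mem_erase.2 ⟨hw, mem_univ w⟩, ?_⟩
      rw [mem_filter, Fintype.mem_piFinset]
      exact ⟨hS, hφz, hwX⟩
    · push Not at hX
      have hunw : ∀ w, w ≠ v → φ w ∈ un B := by
        intro w hw
        have h1 := hX w hw
        rw [hmemX] at h1
        push Not at h1
        exact h1.1 (hS w)
      have hB : ∀ x, x ∈ un B → x ∈ B (π x) := by
        intro x hx
        obtain ⟨i, hi⟩ := mem_un.1 hx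
        rw [hcl x i hi]
        exact hi
      have hnb : ∀ w, J.Adj v w → π (φ w) ≠ i₀ := by
        intro w hw hi
        have hwv : w ≠ v := fun h => by
          rw [h] at hw
          exact J.loopless.irrefl _ hw
        have h1 := hX w hwv
        rw [hmemX] at h1
        push Not at h1
        refine h1.2 ?_ ?_
        · rw [← hi]
          exact hB _ (hunw w hwv)
        · rw [← hφz]
          exact hadj v w hw
      refine Or.inr ?_
      rw [mem_filter]
      refine ⟨?_, hφz, ?_⟩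
      · unfold cm
        rw [mem_filter, Fintype.mem_piFinset]
        refine ⟨?_, hinj, ?_⟩
        · intro w
          rw [hun]
          by_cases hw : w = v
          · rw [hw, hφz]; exact mem_insert_self _ _
          · exact mem_insert_of_mem (hunw w hw)
        · intro w w' hww
          by_cases hw : w = v
          · rw [hw] at hww ⊢
            rw [hφz, hclz]
            exact (hnb w' hww).symm
          · by_cases hw' : w' = v
            · rw [hw'] at hww ⊢
              rw [hφz, hclz]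
              exact hnb w hww.symm
            · intro hcc
              have h1 := hB _ (hunw w hw)
              have h2 := hB _ (hunw w' hw')
              rw [hcc] at h1
              exact h.ind _ _ h1 _ h2 (hadj w w' hww)
      · intro w hw hwM
        have h1 := ((hmemM _).1 hwM).2
        refine h1 ?_
        rw [← hφz]
        exact hadj v w hw
  have hF1 : ((univ.erase v).biUnion (fun w => (Fintype.piFinset fun _ : ι => S).filter fun φ =>
        φ v = z ∧ φ w ∈ X)).card ≤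
      Fintype.card ι * (X.card * S.card ^ (Fintype.card ι - 2)) := by
    refine card_biUnion_le.trans ?_
    refine (sum_le_card_nsmul _ _ (X.card * S.card ^ (Fintype.card ι - 2)) ?_).trans ?_
    · intro w hw
      exact MedB_pi S X z (mem_erase.1 hw).1.symm
    · rw [smul_eq_mul]
      refine Nat.mul_le_mul_right _ ?_
      exact card_le_univ _
  have h1 : (((emb J G S).filter fun φ => φ v = z).card : ℝ) ≤
      (((univ.erase v).biUnion (fun w => (Fintype.piFinset fun _ : ι => S).filter fun φ =>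
        φ v = z ∧ φ w ∈ X)).card : ℝ) +
      ((((cm J (un B') π).filter fun φ => φ v = z ∧ ∀ w, J.Adj v w → φ w ∉ M).card : ℕ) : ℝ) := by
    exact_mod_cast (card_le_card hsub).trans (card_union_le _ _)
  refine h1.trans (add_le_add ?_ ?_)
  · have h2 : (((univ.erase v).biUnion (fun w => (Fintype.piFinset fun _ : ι => S).filter fun φ =>
        φ v = z ∧ φ w ∈ X)).card : ℝ) ≤
      Fintype.card ι * ((X.card : ℝ) * (S.card : ℝ) ^ (Fintype.card ι - 2)) := by
      exact_mod_cast hF1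
    refine h2.trans ?_
    rw [← mul_assoc]
    refine mul_le_mul_of_nonneg_right ?_ (pow_nonneg (Nat.cast_nonneg _) _)
    refine mul_le_mul_of_nonneg_left ?_ (Nat.cast_nonneg _)
    exact_mod_cast hXc
  · refine (SNearB_v J hR hπ' hb ha1 ha2 v hzB' hMsub hMπ).trans ?_
    refine add_le_add le_rfl ?_
    refine mul_le_mul_of_nonneg_left ?_ (sq_nonneg _)
    refine mul_le_mul_of_nonneg_left ?_ (sq_nonneg _)
    split_ifs
    · have h3 : ((un B').card : ℝ) ≤ S.card := by exact_mod_cast card_le_card hunS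
      exact pow_le_pow_left₀ (Nat.cast_nonneg _) h3 _
    · exact le_rfl

/-- the number of missing vertices outside the class `i₀` -/
theorem SNearB_card {V : Type*} [DecidableEq V] {G : SimpleGraph V} [DecidableRel G.Adj]
    {R m : ℕ} {C η₁ δ : ℝ} {S : Finset V} {B : Fin R → Finset V} (hR : 2 ≤ R)
    (h : LS G S R m C η₁ δ B) {z : V} (i₀ : Fin R) {M : Finset V}
    (hM : M = (un B \ B i₀).filter fun y => ¬ G.Adj z y) :
    ((R : ℝ) - 1) * ((1 - δ) * m) - ∑ i, (dg G (B i) z : ℝ) ≤ M.card ∧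
    (M.card : ℝ) ≤ ((R : ℝ) - 1) * ((1 + δ) * m) - ∑ i, (dg G (B i) z : ℝ) + dg G (B i₀) z := by
  classical
  have h1 : M = (univ.erase i₀).biUnion fun i => (B i).filter fun y => ¬ G.Adj z y := by
    ext y
    rw [hM, mem_filter, mem_sdiff, mem_un, mem_biUnion]
    constructor
    · rintro ⟨⟨⟨i, hi⟩, h0⟩, hn⟩
      refine ⟨i, mem_erase.2 ⟨?_, mem_univ i⟩, mem_filter.2 ⟨hi, hn⟩⟩
      intro hii
      rw [hii] at hi
      exact h0 hi
    · rintro ⟨i, hi, hy⟩
      rw [mem_filter] at hy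
      refine ⟨⟨⟨i, hy.1⟩, ?_⟩, hy.2⟩
      intro h0
      exact (disjoint_left.1 (h.disj _ _ (mem_erase.1 hi).1)) hy.1 h0
  have h2 : (M.card : ℝ) = ∑ i ∈ univ.erase i₀, (((B i).card : ℝ) - dg G (B i) z) := by
    rw [h1, card_biUnion]
    · push_cast
      refine sum_congr rfl fun i _ => ?_
      have h3 := card_filter_add_card_filter_not (s := B i) (fun y => G.Adj z y)
      have h4 : (dg G (B i) z : ℝ) + (((B i).filter fun y => ¬ G.Adj z y).card : ℝ) =
          (B i).card := by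
        unfold dg
        exact_mod_cast h3
      linarith only [h4]
    · intro i _ j _ hij
      refine disjoint_left.2 fun y hy hy' => ?_
      exact (disjoint_left.1 (h.disj _ _ hij)) (mem_filter.1 hy).1 (mem_filter.1 hy').1
  have h5 : ∑ i, (dg G (B i) z : ℝ) = dg G (B i₀) z + ∑ i ∈ univ.erase i₀, (dg G (B i) z : ℝ) :=
    (add_sum_erase univ (fun i => (dg G (B i) z : ℝ)) (mem_univ i₀)).symm
  have hcard : (((univ : Finset (Fin R)).erase i₀).card : ℝ) = (R : ℝ) - 1 := by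
    rw [card_erase_of_mem (mem_univ _), card_univ, Fintype.card_fin, Nat.cast_sub (by omega)]
    norm_num
  have h6 : ((R : ℝ) - 1) * ((1 - δ) * m) ≤ ∑ i ∈ univ.erase i₀, ((B i).card : ℝ) := by
    rw [← hcard, ← nsmul_eq_mul, ← sum_const]
    exact sum_le_sum fun i _ => h.size_lo i
  have h7 : ∑ i ∈ univ.erase i₀, ((B i).card : ℝ) ≤ ((R : ℝ) - 1) * ((1 + δ) * m) := by
    rw [← hcard, ← nsmul_eq_mul, ← sum_const]
    exact sum_le_sum fun i _ => h.size_hi i
  have h8 : (0 : ℝ) ≤ dg G (B i₀) z := by positivity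
  rw [h2, sum_sub_distrib]
  constructor <;> linarith

/-- the arithmetic of `near_copies` -/
theorem SNearB_arith {s e R M δ x y P : ℝ} (hs : 2 ≤ s) (he : 0 ≤ e) (hes : e ≤ s ^ 2)
    (hR : 3 ≤ R) (hM : 0 ≤ M) (hδ : 0 < δ) (hδ1 : δ ≤ 1 / 2) (hy0 : 0 ≤ y) (hy2 : y ≤ 2)
    (hxy : x - δ ≤ y) (hyx : y ≤ x + 2 * δ) (hP : 1 ≤ P) :
    M * (s ^ 2 * (2 * P) * δ) + (M * (s / R + s ^ 2 * (8 * P) * δ) -
      M * (e / R * y * (1 - 4 * s * δ)) + M * (s / R * (s ^ 2 * P * y ^ 2))) ≤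
    M * (s / R * (1 - e / s * x + s ^ 2 * (2 * P) * x ^ 2) + 22 * s ^ 3 * P * δ) := by
  have hs0 : 0 < s := by linarith only [hs]
  have hR0 : 0 < R := by linarith only [hR]
  have h1 : e / R * y * (1 - 4 * s * δ) ≥ e / R * x - 9 * s ^ 3 * δ := by
    have h2 : e / R ≤ s ^ 2 / 1 := by
      apply div_le_div₀ (by positivity) hes (by norm_num) (by linarith only [hR])
    have h3 : 0 ≤ e / R := by positivity
    have h4 : e / R * y ≥ e / R * (x - δ) := mul_le_mul_of_nonneg_left hxy h3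
    have h5 : e / R * δ ≤ s ^ 2 * δ := by
      have := mul_le_mul_of_nonneg_right h2 hδ.le
      linarith only [this]
    have h6 : e / R * y * (4 * s * δ) ≤ s ^ 2 * 2 * (4 * s * δ) := by
      have h7 : e / R * y ≤ s ^ 2 * 2 := by
        have := mul_le_mul h2 hy2 hy0 (by positivity)
        linarith only [this]
      exact mul_le_mul_of_nonneg_right h7 (by positivity)
    have h8 : s ^ 2 * δ ≤ s ^ 3 * δ := by
      have : s ^ 2 ≤ s ^ 3 := pow_le_pow_right₀ (by linarith only [hs]) (by norm_num)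
      exact mul_le_mul_of_nonneg_right this hδ.le
    have h9 : e / R * y * (1 - 4 * s * δ) = e / R * y - e / R * y * (4 * s * δ) := by ring
    rw [h9]
    have h10 : s ^ 2 * 2 * (4 * s * δ) = 8 * (s ^ 3 * δ) := by ring
    have h11 : e / R * (x - δ) = e / R * x - e / R * δ := by ring
    linarith only [h8, h6, h5, h4]
  have h2 : s / R * (s ^ 2 * P * y ^ 2) ≤
      s / R * (s ^ 2 * (2 * P) * x ^ 2) + 4 * s ^ 3 * P * δ := by
    have h3 : y ^ 2 ≤ 2 * x ^ 2 + 8 * δ ^ 2 := by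
      have h4 : (y - x) ^ 2 ≤ (2 * δ) ^ 2 := by
        apply sq_le_sq' <;> linarith
      linarith only [sq_nonneg (2 * x - y), h4]
    have h5 : s / R * (s ^ 2 * P * y ^ 2) ≤ s / R * (s ^ 2 * P * (2 * x ^ 2 + 8 * δ ^ 2)) := by
      gcongr
    refine h5.trans ?_
    have h6 : s / R * (s ^ 2 * P * (2 * x ^ 2 + 8 * δ ^ 2)) =
      s / R * (s ^ 2 * (2 * P) * x ^ 2) + s / R * (s ^ 2 * P * (8 * δ ^ 2)) := by ring
    rw [h6]
    have h7 : s / R * (s ^ 2 * P * (8 * δ ^ 2)) ≤ s / 1 * (s ^ 2 * P * (8 * (1 / 2 * δ))) := by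
      have h8 : δ ^ 2 ≤ 1 / 2 * δ := by (refine le_of_not_gt fun hng => ?_; linarith only [mul_pos (sub_pos.2 hng) (sub_pos.2 hδ),
                                          mul_nonneg (sq_nonneg (δ)) (sub_nonneg.2 hδ1)])
      gcongr
      linarith only [hR]
    have h9 : s / 1 * (s ^ 2 * P * (8 * (1 / 2 * δ))) = 4 * s ^ 3 * P * δ := by ring
    linarith only [h7]
  have h3 : s ^ 2 * (2 * P) * δ + s ^ 2 * (8 * P) * δ + 9 * s ^ 3 * δ + 4 * s ^ 3 * P * δ ≤
      22 * s ^ 3 * P * δ := by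
    have h4 : s ^ 2 * P * δ ≤ s ^ 3 / 2 * P * δ := by
      have : s ^ 2 ≤ s ^ 3 / 2 := by linarith only [mul_nonneg (sq_nonneg (s)) (sub_nonneg.2 hs)]
      gcongr
    have h5 : s ^ 3 * δ ≤ s ^ 3 * P * δ := by
      have : s ^ 3 * 1 * δ ≤ s ^ 3 * P * δ := by gcongr
      linarith only [this]
    have h6 : s ^ 2 * (2 * P) * δ + s ^ 2 * (8 * P) * δ = 10 * (s ^ 2 * P * δ) := by ring
    have h7 : 0 ≤ s ^ 3 * P * δ := by positivity
    linarith only [h7, h5, h4]
  have h4 : s / R * (1 - e / s * x + s ^ 2 * (2 * P) * x ^ 2) =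
      s / R - e / R * x + s / R * (s ^ 2 * (2 * P) * x ^ 2) := by
    field_simp
  rw [h4]
  have h5 : s ^ 2 * (2 * P) * δ + (s / R + s ^ 2 * (8 * P) * δ -
      e / R * y * (1 - 4 * s * δ) + s / R * (s ^ 2 * P * y ^ 2)) ≤
      s / R - e / R * x + s / R * (s ^ 2 * (2 * P) * x ^ 2) + 22 * s ^ 3 * P * δ := by
    linarith only [h3, h2, h1]
  have h6 := mul_le_mul_of_nonneg_left h5 hM
  refine le_trans (le_of_eq ?_) h6
  ring

theorem near_copies (hd : ∀ v, 1 ≤ dg J univ v) (hcs : 2 ≤ Fintype.card ι) : ∃ Cn : ℝ, 0 < Cn ∧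
    ∃ R₀ : ℕ, 3 ≤ R₀ ∧ ∀ R r : ℕ, R₀ ≤ R → r ≤ R → ∀ C η₁ κ' : ℝ, 0 < C → 0 < η₁ → 0 < κ' →
    ∃ δ₀ : ℝ, 0 < δ₀ ∧ ∀ δ : ℝ, 0 < δ → δ ≤ δ₀ → ∃ m₀ : ℕ, ∀ m : ℕ, m₀ ≤ m →
      ∀ (V : Type) [DecidableEq V] (G : SimpleGraph V) [DecidableRel G.Adj] (S : Finset V)
        (B : Fin R → Finset V), S.card ≤ R * m + r → clq G S (R + 1) = ∅ →
        LS G S R m C η₁ δ B → ∀ z ∈ S \ un B,
        ((((emb J G S).filter fun φ => ∃ i, φ i = z).card : ℕ) : ℝ) ≤
          M0 J R m / m * ((Fintype.card ι : ℝ) / R *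
            (1 - (oe J : ℝ) / Fintype.card ι * (1 - sgm G m B z) +
              Cn * (1 - sgm G m B z) ^ 2) + κ') := by
  classical
  obtain ⟨k, hk⟩ : ∃ k, Fintype.card ι = k + 2 := ⟨Fintype.card ι - 2, by omega⟩
  obtain ⟨s, hs⟩ : ∃ s : ℝ, s = (Fintype.card ι : ℝ) := ⟨_, rfl⟩
  obtain ⟨e, he⟩ : ∃ e : ℝ, e = (oe J : ℝ) := ⟨_, rfl⟩
  obtain ⟨P, hP⟩ : ∃ P : ℝ, P = 2 ^ k := ⟨_, rfl⟩
  have hP1 : 1 ≤ P := by rw [hP]; exact one_le_pow₀ (by norm_num)
  have hP0 : 0 < P := by linarith only [hP1]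
  have hs2 : (2 : ℝ) ≤ s := by rw [hs]; exact_mod_cast hcs
  have hs0 : (0 : ℝ) < s := by linarith only [hs2]
  have he0 : 0 ≤ e := by rw [he]; exact Nat.cast_nonneg _
  have hes : e ≤ s ^ 2 := by
    rw [he, hs, ← SNearB_oe J, sq]
    have h1 : ∀ v ∈ (univ : Finset ι), (dg J univ v : ℝ) ≤ Fintype.card ι := fun v _ => by
      exact_mod_cast SNearB_dg_le J v
    refine (sum_le_card_nsmul _ _ _ h1).trans ?_
    rw [nsmul_eq_mul, card_univ]
  obtain ⟨C₀, hC₀, hM0b⟩ := M0_bounds J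
  refine ⟨s ^ 2 * (2 * P), by positivity, max 3 ⌈2 * C₀⌉₊, le_max_left _ _, ?_⟩
  intro R r hRR hrR C η₁ κ' hC hη₁ hκ
  have hR : 3 ≤ R := (le_max_left _ _).trans hRR
  have hR3 : (3 : ℝ) ≤ R := by exact_mod_cast hR
  have hR0 : (0 : ℝ) < R := by linarith only [hR3]
  have hR1 : (0 : ℝ) < (R : ℝ) - 1 := by linarith only [hR3]
  have hM : ∀ m : ℕ, 1 ≤ m → ((R : ℝ) * m) ^ (k + 2) ≤ 2 * M0 J R m := by
    intro m hm
    have h1 := (hM0b R m (by omega) hm).1
    rw [hk] at h1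
    have h2 : 2 * C₀ ≤ R := (Nat.le_ceil _).trans (by exact_mod_cast (le_max_right _ _).trans hRR)
    have h3 : C₀ / R ≤ 1 / 2 := by
      rw [div_le_div_iff₀ hR0 (by norm_num)]
      linarith only [h2]
    have h4 : (1 / 2 : ℝ) * ((R : ℝ) * m) ^ (k + 2) ≤ (1 - C₀ / R) * ((R : ℝ) * m) ^ (k + 2) :=
      mul_le_mul_of_nonneg_right (by linarith only [h3]) (by positivity)
    linarith only [h4, h1]
  refine ⟨min (1 / 2) (κ' / (22 * s ^ 3 * P)), lt_min (by norm_num) (by positivity), ?_⟩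
  intro δ hδ hδ₀
  have hδ1 : δ ≤ 1 / 2 := hδ₀.trans (min_le_left _ _)
  have hδ2 : 22 * s ^ 3 * P * δ ≤ κ' := by
    have h1 : δ ≤ κ' / (22 * s ^ 3 * P) := hδ₀.trans (min_le_right _ _)
    rw [le_div_iff₀ (by positivity)] at h1
    linarith only [h1]
  obtain ⟨m₁, hm₁⟩ := heavy_part R (by omega) C η₁ δ hC hδ hδ1 δ hδ
  refine ⟨max m₁ (max ⌈C / δ⌉₊ (max ⌈1 / δ⌉₊ 2)), ?_⟩
  intro m hm V _ G _ S B hS hfree hLS z hz
  have hma : m₁ ≤ m := le_trans (le_max_left _ _) hm
  have hmb : ⌈C / δ⌉₊ ≤ m := le_trans (le_trans (le_max_left _ _) (le_max_right _ _)) hm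
  have hmc : ⌈1 / δ⌉₊ ≤ m := le_trans (le_trans (le_trans (le_max_left _ _) (le_max_right _ _))
    (le_max_right _ _)) hm
  have hm2 : 2 ≤ m := le_trans (le_trans (le_trans (le_max_right _ _) (le_max_right _ _))
    (le_max_right _ _)) hm
  have hmd : 1 ≤ m := by omega
  have hm2' : (2 : ℝ) ≤ m := by exact_mod_cast hm2
  have hm1 : (1 : ℝ) ≤ m := by linarith only [hm2', hδ1, hδ]
  have hm0 : (0 : ℝ) < m := by linarith only [hm2', hδ1, hδ]
  have hCm : C ≤ δ * m := by
    have h1 : C / δ ≤ m := (Nat.le_ceil _).trans (by exact_mod_cast hmb)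
    rw [div_le_iff₀ hδ] at h1
    linarith only [h1]
  have hδm : 1 ≤ δ * m := by
    have h1 : 1 / δ ≤ m := (Nat.le_ceil _).trans (by exact_mod_cast hmc)
    rw [div_le_iff₀ hδ] at h1
    linarith only [h1]
  have hδm2 : δ * m ≤ 1 / 2 * m := mul_le_mul_of_nonneg_right hδ1 hm0.le
  obtain ⟨i₀, hi₀⟩ := hm₁ m hma V G S B hfree hLS z (mem_sdiff.1 hz).1
  -- the class sizes `b'` and `b`
  obtain ⟨b', hbdef'⟩ : ∃ b' : ℕ, b' = ⌊(1 + δ) * m⌋₊ + 1 := ⟨_, rfl⟩
  obtain ⟨b, hbdef⟩ : ∃ b : ℕ, b = ⌊(1 - δ) * m⌋₊ := ⟨_, rfl⟩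
  have hbB' : ∀ i, (B i).card < b' := by
    intro i
    rw [hbdef']
    exact Nat.lt_succ_of_le (Nat.le_floor (hLS.size_hi i))
  have hb1' : (b' : ℝ) ≤ (1 + δ) * m + 1 := by
    rw [hbdef']
    push_cast
    have := Nat.floor_le (show (0 : ℝ) ≤ (1 + δ) * m by positivity)
    linarith only [this]
  have hb2' : (b' : ℝ) - m ≤ 2 * δ * m := by linarith only [hb1', hδm]
  have hb3' : (b' : ℝ) ≤ 2 * m := by linarith only [hb1', hδm2, hm2']
  have hmleb : m ≤ b' := by
    rw [hbdef']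
    refine Nat.le_succ_of_le (Nat.le_floor ?_)
    have : 0 ≤ δ * m := by positivity
    linarith only [hCm, hC]
  have hmleb' : (m : ℝ) ≤ b' := by exact_mod_cast hmleb
  have hb'0 : (0 : ℝ) < b' := by linarith only [hmleb', hm2', hδ1, hδ]
  have hδ' : (0 : ℝ) ≤ (1 - δ) * m := mul_nonneg (by linarith only [hδ1]) hm0.le
  have hbB : ∀ i, b ≤ (B i).card := by
    intro i
    rw [hbdef]
    have h1 := Nat.floor_le hδ'
    have h2 := hLS.size_lo i
    exact_mod_cast h1.trans h2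
  have hb1 : 1 ≤ b := by
    rw [hbdef]
    refine Nat.le_floor ?_
    push_cast
    linarith only [hδm2, hm2']
  have hbm : b ≤ m := by
    have h1 : (b : ℝ) ≤ m := by
      rw [hbdef]
      have := Nat.floor_le hδ'
      linarith only [this, hδm, hδ1, hδ]
    exact_mod_cast h1
  have hbm' : (b : ℝ) ≤ m := by exact_mod_cast hbm
  have hb0 : (0 : ℝ) < b := by exact_mod_cast hb1
  have hb2 : (m : ℝ) - b ≤ 2 * δ * m := by
    have h1 : (1 - δ) * m < b + 1 := by
      rw [hbdef]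
      exact Nat.lt_floor_add_one _
    linarith only [h1, hδm]
  have hM0 : 0 ≤ M0 J R m := by unfold M0; exact Nat.cast_nonneg _
  have hMm := hM m hmd
  -- comparison of `M0 b'` and `M0 m`
  have hMb' : M0 J R b' ≤ (1 + s * δ * (8 * P)) * M0 J R m := by
    have h1 := MedB_M0 J R m b' hmleb
    rw [← hs, hk] at h1
    have h2 : s * (R * ((b' : ℝ) - m)) * ((R : ℝ) * b') ^ (k + 2 - 1) ≤
        s * (R * (2 * δ * m)) * ((R : ℝ) * (2 * m)) ^ (k + 1) := by
      rw [show k + 2 - 1 = k + 1 from rfl]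
      have h3 : 0 ≤ (b' : ℝ) - m := by linarith only [hmleb']
      gcongr
    have h4 : s * (R * (2 * δ * m)) * ((R : ℝ) * (2 * m)) ^ (k + 1) =
        s * δ * (4 * P) * ((R : ℝ) * m) ^ (k + 2) := by
      rw [show (R : ℝ) * (2 * m) = 2 * (R * m) by ring, mul_pow, hP]
      ring
    have h5 : s * δ * (4 * P) * ((R : ℝ) * m) ^ (k + 2) ≤
        s * δ * (4 * P) * (2 * M0 J R m) :=
      mul_le_mul_of_nonneg_left hMm (by positivity)
    have h6 : s * δ * (4 * P) * (2 * M0 J R m) = s * δ * (8 * P) * M0 J R m := by ring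
    linarith only [h5, h4, h2, h1]
  -- comparison of `M0 b` and `M0 m`
  have hMb : (1 - 4 * s * δ) * M0 J R m ≤ M0 J R b := by
    have h1 := SNearB_M0 J R b m hbm
    rw [← hs, hk] at h1
    have h2 : s * (R * ((m : ℝ) - b)) * ((R : ℝ) * m) ^ (k + 2 - 1) ≤
        s * (R * (2 * δ * m)) * ((R : ℝ) * m) ^ (k + 1) := by
      rw [show k + 2 - 1 = k + 1 from rfl]
      gcongr
    have h4 : s * (R * (2 * δ * m)) * ((R : ℝ) * m) ^ (k + 1) =
        2 * s * δ * ((R : ℝ) * m) ^ (k + 2) := by ring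
    have h5 : 2 * s * δ * ((R : ℝ) * m) ^ (k + 2) ≤ 2 * s * δ * (2 * M0 J R m) :=
      mul_le_mul_of_nonneg_left hMm (by positivity)
    linarith only [h5, h4, h2, h1]
  -- the number of points
  have hSm : (S.card : ℝ) ≤ 2 * (R * m) := by
    have h1 : (S.card : ℝ) ≤ R * m + r := by exact_mod_cast hS
    have h2 : (r : ℝ) ≤ R := by exact_mod_cast hrR
    have h3 : (R : ℝ) ≤ R * m := le_mul_of_one_le_right hR0.le hm1
    linarith only [h3, h2, h1]
  obtain ⟨D, hD⟩ : ∃ D : ℝ, D = ∑ i, (dg G (B i) z : ℝ) := ⟨_, rfl⟩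
  have hD0 : 0 ≤ D := by rw [hD]; exact sum_nonneg fun i _ => Nat.cast_nonneg _
  obtain ⟨M, hMdef⟩ : ∃ M : Finset V, M = (un B \ B i₀).filter fun y => ¬ G.Adj z y := ⟨_, rfl⟩
  have hMc := SNearB_card (by omega) hLS (z := z) i₀ hMdef
  rw [← hD] at hMc
  obtain ⟨x, hx⟩ : ∃ x : ℝ, x = 1 - sgm G m B z := ⟨_, rfl⟩
  have hxD : x = 1 - D / (((R : ℝ) - 1) * m) := by
    rw [hx, hD]
    rfl
  obtain ⟨y, hy⟩ : ∃ y : ℝ, y = M.card / (((R : ℝ) - 1) * m) := ⟨_, rfl⟩
  have hRm : 0 < ((R : ℝ) - 1) * m := by positivity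
  have hy0 : 0 ≤ y := by rw [hy]; exact div_nonneg (Nat.cast_nonneg _) hRm.le
  have hxy : x - δ ≤ y := by
    rw [hxD, hy, le_div_iff₀ hRm]
    have h1 : (1 - D / (((R : ℝ) - 1) * m) - δ) * (((R : ℝ) - 1) * m) =
        ((R : ℝ) - 1) * ((1 - δ) * m) - D := by
      field_simp
      ring
    rw [h1]
    exact hMc.1
  have hyx : y ≤ x + 2 * δ := by
    rw [hxD, hy, div_le_iff₀ hRm]
    have h1 : (1 - D / (((R : ℝ) - 1) * m) + 2 * δ) * (((R : ℝ) - 1) * m) =
        ((R : ℝ) - 1) * ((1 + δ) * m) - D + ((R : ℝ) - 1) * (δ * m) := by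
      field_simp
      ring
    rw [h1]
    have h2 : δ * m ≤ ((R : ℝ) - 1) * (δ * m) :=
      le_mul_of_one_le_left (by positivity) (by linarith only [hR3])
    linarith only [h2, hMc.2, hi₀]
  have hx1 : x ≤ 1 := by
    rw [hxD]
    have : 0 ≤ D / (((R : ℝ) - 1) * m) := div_nonneg hD0 hRm.le
    linarith only [this]
  have hy2 : y ≤ 2 := by linarith only [hx1, hyx, hδ1]
  have hMy : (M.card : ℝ) = y * (((R : ℝ) - 1) * m) := by
    rw [hy]
    field_simp
  obtain ⟨q, hq⟩ : ∃ q : ℝ, q = M0 J R b / ((R : ℝ) * (R - 1) * (b : ℝ) ^ 2) := ⟨_, rfl⟩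
  obtain ⟨T, hT⟩ : ∃ T : ℝ, T =
    if 3 ≤ Fintype.card ι then ((S.card : ℝ)) ^ (Fintype.card ι - 3) else 0 := ⟨_, rfl⟩
  have hT0 : 0 ≤ T := by
    rw [hT]
    split_ifs
    · exact pow_nonneg (Nat.cast_nonneg _) _
    · exact le_rfl
  -- sum over the vertices of `J`
  have hsum : ((((emb J G S).filter fun φ => ∃ i, φ i = z).card : ℕ) : ℝ) ≤
      s * (s * (2 * δ * m) * (2 * (R * m)) ^ k) + (s * (M0 J R b' / (R * b')) -
        e * (M.card * q) + s * (s ^ 2 * ((M.card : ℝ) ^ 2 * T))) := by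
    have h1 : ((emb J G S).filter fun φ => ∃ i, φ i = z) ⊆
        univ.biUnion fun v => (emb J G S).filter fun φ => φ v = z := by
      intro φ hφ
      rw [mem_filter] at hφ
      obtain ⟨hφe, v, hv⟩ := hφ
      rw [mem_biUnion]
      exact ⟨v, mem_univ v, mem_filter.2 ⟨hφe, hv⟩⟩
    have h2 : ((((emb J G S).filter fun φ => ∃ i, φ i = z).card : ℕ) : ℝ) ≤
        ∑ v, (((emb J G S).filter fun φ => φ v = z).card : ℝ) := by
      exact_mod_cast (card_le_card h1).trans card_biUnion_le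
    refine h2.trans ?_
    have h3 : ∀ v ∈ (univ : Finset ι), (((emb J G S).filter fun φ => φ v = z).card : ℝ) ≤
        s * (2 * δ * m) * (2 * (R * m)) ^ k + (M0 J R b' / (R * b') -
          (dg J univ v : ℝ) * (M.card * q) + s ^ 2 * ((M.card : ℝ) ^ 2 * T)) := by
      intro v _
      have h5 := SNearB_emb J (by omega) hLS hb1 hbB hbB' hz i₀ v hMdef
      rw [← hs, ← hq, ← hT, hk] at h5
      refine h5.trans (add_le_add ?_ le_rfl)
      rw [show k + 2 - 2 = k from rfl]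
      have h6 := hLS.hX
      have h7 : ((S \ un B).card : ℝ) + dg G (B i₀) z ≤ 2 * δ * m := by linarith only [h6, hi₀, hCm]
      have h8 : ((S.card : ℝ)) ^ k ≤ (2 * (R * m)) ^ k :=
        pow_le_pow_left₀ (Nat.cast_nonneg _) hSm k
      refine mul_le_mul (mul_le_mul_of_nonneg_left h7 hs0.le) h8
        (pow_nonneg (Nat.cast_nonneg _) _) (by positivity)
    refine (sum_le_sum h3).trans (le_of_eq ?_)
    have h4 : ∑ v, (dg J univ v : ℝ) * (M.card * q) = e * (M.card * q) := by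
      rw [← sum_mul, SNearB_oe J, he]
    rw [sum_add_distrib, sum_add_distrib, sum_sub_distrib, h4, sum_const,
      sum_const, sum_const, nsmul_eq_mul, nsmul_eq_mul, nsmul_eq_mul, card_univ, ← hs]
  refine hsum.trans ?_
  obtain ⟨N, hN⟩ : ∃ N : ℝ, N = M0 J R m / m := ⟨_, rfl⟩
  have hN0 : 0 ≤ N := by rw [hN]; exact div_nonneg hM0 hm0.le
  have hNm : M0 J R m = N * m := by rw [hN]; field_simp
  -- (a)
  have ha : s * (s * (2 * δ * m) * (2 * (R * m)) ^ k) ≤ N * (s ^ 2 * (2 * P) * δ) := by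
    have h1 : s * (s * (2 * δ * m) * (2 * (R * m)) ^ k) =
        s ^ 2 * (2 * P) * δ * (m * ((R : ℝ) * m) ^ k) := by
      rw [mul_pow 2, hP]
      ring
    rw [h1, mul_comm N]
    refine mul_le_mul_of_nonneg_left ?_ (by positivity)
    have h2 : (m : ℝ) * ((R : ℝ) * m) ^ k * (R ^ 2 * m) ≤ 2 * N * m := by
      have : (m : ℝ) * ((R : ℝ) * m) ^ k * (R ^ 2 * m) = ((R : ℝ) * m) ^ (k + 2) := by ring
      rw [this]
      rw [hNm] at hMm
      linarith only [hMm]
    have h3 : (m : ℝ) * ((R : ℝ) * m) ^ k * (R ^ 2 * m) ≥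
        (m : ℝ) * ((R : ℝ) * m) ^ k * (2 * m) := by
      have : (2 : ℝ) ≤ R ^ 2 := by nlinarith
      gcongr
    have h4 : (m : ℝ) * ((R : ℝ) * m) ^ k * (2 * m) ≤ N * (2 * m) := by linarith only [h3, h2]
    exact le_of_mul_le_mul_right h4 (by positivity)
  -- (b)
  have hb : s * (M0 J R b' / (R * b')) ≤ N * (s / R + s ^ 2 * (8 * P) * δ) := by
    have h1 : M0 J R b' / (R * b') ≤ (1 + s * δ * (8 * P)) * M0 J R m / (R * m) := by
      gcongr
    have h2 : s * (M0 J R b' / (R * b')) ≤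
        s * ((1 + s * δ * (8 * P)) * M0 J R m / (R * m)) := mul_le_mul_of_nonneg_left h1 hs0.le
    refine h2.trans ?_
    have h3 : s * ((1 + s * δ * (8 * P)) * M0 J R m / (R * m)) =
        N * (s / R + s ^ 2 * (8 * P) * δ / R) := by
      rw [hN]
      field_simp
    rw [h3]
    have h4 : s ^ 2 * (8 * P) * δ / R ≤ s ^ 2 * (8 * P) * δ := div_le_self (by positivity) (by linarith only [hR3])
    refine mul_le_mul_of_nonneg_left (by linarith only [h4]) hN0
  -- (c)
  have hc : N * (e / R * y * (1 - 4 * s * δ)) ≤ e * (M.card * q) := by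
    have h1 : (1 - 4 * s * δ) * M0 J R m / ((R : ℝ) * (R - 1) * (m : ℝ) ^ 2) ≤ q := by
      rw [hq]
      have h2 : (1 - 4 * s * δ) * M0 J R m / ((R : ℝ) * (R - 1) * (m : ℝ) ^ 2) ≤
          M0 J R b / ((R : ℝ) * (R - 1) * (m : ℝ) ^ 2) :=
        div_le_div_of_nonneg_right hMb (by positivity)
      refine h2.trans ?_
      have h3 : 0 ≤ M0 J R b := by unfold M0; exact Nat.cast_nonneg _
      gcongr
    have h2 : e * (M.card * ((1 - 4 * s * δ) * M0 J R m / ((R : ℝ) * (R - 1) * (m : ℝ) ^ 2))) ≤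
        e * (M.card * q) :=
      mul_le_mul_of_nonneg_left (mul_le_mul_of_nonneg_left h1 (Nat.cast_nonneg _)) he0
    refine le_trans (le_of_eq ?_) h2
    rw [hMy, hN]
    field_simp
  -- (d)
  have hd' : s * (s ^ 2 * ((M.card : ℝ) ^ 2 * T)) ≤ N * (s / R * (s ^ 2 * P * y ^ 2)) := by
    have h1 : T * (R * m) ^ 3 ≤ P * M0 J R m := by
      rw [hT, hk]
      split_ifs with h3
      · have h2 : ((S.card : ℝ)) ^ (k + 2 - 3) ≤ (2 * (R * m)) ^ (k + 2 - 3) :=
          pow_le_pow_left₀ (Nat.cast_nonneg _) hSm _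
        have h4 : (2 * ((R : ℝ) * m)) ^ (k + 2 - 3) * (8 * (R * m) ^ 3) =
            4 * P * (R * m) ^ (k + 2) := by
          have h5 : k + 2 = (k + 2 - 3) + 3 := by omega
          have h6 : P * 4 = 2 ^ (k + 2 - 3) * 8 := by
            rw [hP]
            have : (2 : ℝ) ^ k * 4 = 2 ^ (k + 2) := by ring
            rw [this, h5]
            simp only [Nat.add_sub_cancel]
            ring
          have h7 : ((R : ℝ) * m) ^ (k + 2) = (R * m) ^ (k + 2 - 3) * (R * m) ^ 3 := by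
            rw [← pow_add, ← h5]
          rw [h7, mul_pow 2, mul_comm 4 P, h6]
          ring
        have h8 : ((S.card : ℝ)) ^ (k + 2 - 3) * (8 * (R * m) ^ 3) ≤
            (2 * ((R : ℝ) * m)) ^ (k + 2 - 3) * (8 * (R * m) ^ 3) :=
          mul_le_mul_of_nonneg_right h2 (by positivity)
        rw [h4] at h8
        have h9 : 4 * P * ((R : ℝ) * m) ^ (k + 2) ≤ 4 * P * (2 * M0 J R m) :=
          mul_le_mul_of_nonneg_left hMm (by positivity)
        linarith only [h9, h8]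
      · rw [zero_mul]
        positivity
    have h2 : (M.card : ℝ) ^ 2 ≤ y ^ 2 * ((R : ℝ) * m) ^ 2 := by
      rw [hMy, mul_pow]
      refine mul_le_mul_of_nonneg_left ?_ (sq_nonneg _)
      refine pow_le_pow_left₀ hRm.le ?_ 2
      refine mul_le_mul_of_nonneg_right (by linarith only []) hm0.le
    have h3 : (M.card : ℝ) ^ 2 * T * (R * m) ≤ y ^ 2 * P * M0 J R m := by
      calc (M.card : ℝ) ^ 2 * T * (R * m) ≤ y ^ 2 * ((R : ℝ) * m) ^ 2 * T * (R * m) := by gcongr
        _ = y ^ 2 * (T * (R * m) ^ 3) := by ring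
        _ ≤ y ^ 2 * (P * M0 J R m) := mul_le_mul_of_nonneg_left h1 (sq_nonneg _)
        _ = _ := by ring
    have h4 : (M.card : ℝ) ^ 2 * T ≤ y ^ 2 * P * N / R := by
      rw [le_div_iff₀ hR0]
      have h5 : (M.card : ℝ) ^ 2 * T * R * m ≤ y ^ 2 * P * N * m := by
        rw [hNm] at h3
        linarith only [h3]
      exact le_of_mul_le_mul_right h5 hm0
    calc s * (s ^ 2 * ((M.card : ℝ) ^ 2 * T)) ≤ s * (s ^ 2 * (y ^ 2 * P * N / R)) := by gcongr
      _ = _ := by ring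
  have har := SNearB_arith (M := N) hs2 he0 hes hR3 hN0 hδ hδ1 hy0 hy2 hxy hyx hP1
  rw [← hs, ← he, ← hx, ← hN]
  have hfin : N * (s / R * (1 - e / s * x + s ^ 2 * (2 * P) * x ^ 2) + 22 * s ^ 3 * P * δ) ≤
      N * (s / R * (1 - e / s * x + s ^ 2 * (2 * P) * x ^ 2) + κ') :=
    mul_le_mul_of_nonneg_left (by linarith only [hδ2]) hN0
  linarith only [hfin, har, hd', hc, hb, ha]

end H57GH
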