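import Pool.Agent.H57.GH.SNearA
import Pool.Agent.H57.GH.SNearB
import Pool.Agent.H57.GH.BalF
import Pool.Agent.H57.GH.Thru

/-!
Project SH: heavy vertices joined to almost all classes have a positive margin.
-/

namespace H57GH

open Finset H57LC H57LT

set_option linter.unusedSectionVars false

variable {ι : Type} [Fintype ι] [DecidableEq ι] (J : SimpleGraph ι) [DecidableRel J.Adj]

/-- the arithmetic of `near_margin` -/
private theorem SNear_arith {s e R A ε C₁ C₂ t η₁ κ κ₁ ε₇ x₀ : ℝ} (hs : 2 ≤ s) (hse : s ≤ e)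
    (hR : 3 ≤ R) (hA : A ≤ e / (2 * s)) (hε : ε ≤ 1 / 16) (hC₁ : 0 < C₁) (hC₂ : 0 < C₂)
    (hRC : C₂ / R ≤ 1 / 16) (hx : x₀ * (C₁ + C₂) ≤ 1 / 16) (ht : η₁ / (4 * R) ≤ t)
    (htx : t ≤ 2 * x₀) (hη : 0 < η₁) (hκ : κ ≤ η₁ / (64 * R ^ 2))
    (hκ₁ : κ₁ = η₁ / (64 * R ^ 2)) (hε₇ : 0 ≤ ε₇) (hε₇' : ε₇ ≤ κ₁)
    (hκ0 : 0 < κ) :
    (s / R * (1 - e / s * t + C₁ * t ^ 2) + κ) + κ₁ ≤
      s / R * (1 - (A + ε + C₂ / R) * t - C₂ * t ^ 2) - κ - ε₇ * (s / R) := by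
  have hs0 : 0 < s := by linarith
  have hR0 : 0 < R := by linarith
  have hes : 1 ≤ e / s := by rw [le_div_iff₀ hs0]; linarith
  have hA' : e / (2 * s) = e / s / 2 := by field_simp
  have ht0 : 0 < t := lt_of_lt_of_le (by positivity) ht
  have hx1 : t * (C₁ + C₂) ≤ 1 / 8 := by
    calc t * (C₁ + C₂) ≤ 2 * x₀ * (C₁ + C₂) := by
          apply mul_le_mul_of_nonneg_right htx (by positivity)
      _ ≤ 1 / 8 := by linarith
  have h1 : 1 / 4 ≤ e / s - (A + ε + C₂ / R) - (C₁ + C₂) * t := by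
    rw [hA'] at hA
    linarith only [hA, hes, hε, hRC, hx1]
  have h2 : s / R * (t / 4) ≤ s / R * ((e / s - (A + ε + C₂ / R) - (C₁ + C₂) * t) * t) := by
    apply mul_le_mul_of_nonneg_left _ (by positivity)
    linarith only [mul_le_mul_of_nonneg_right h1 ht0.le]
  have h3 : s / R * (η₁ / (16 * R)) ≤ s / R * (t / 4) := by
    apply mul_le_mul_of_nonneg_left _ (by positivity)
    have : η₁ / (16 * R) = η₁ / (4 * R) / 4 := by field_simp; norm_num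
    rw [this]; linarith
  have h4 : s / R * (η₁ / (16 * R)) = s * (4 * κ₁) := by rw [hκ₁]; field_simp; norm_num
  have hκ₁0 : 0 < κ₁ := by rw [hκ₁]; positivity
  have h5 : ε₇ * (s / R) ≤ κ₁ * (s / 3) := by
    have : s / R ≤ s / 3 := div_le_div_of_nonneg_left hs0.le (by norm_num) hR
    exact mul_le_mul hε₇' this (by positivity) hκ₁0.le
  have h6 : κ ≤ κ₁ := by rw [hκ₁]; exact hκ
  have h7 : 2 * κ + κ₁ + κ₁ * (s / 3) ≤ s * (4 * κ₁) := by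
    linarith only [h6, mul_nonneg hκ₁0.le (by linarith only [hs] : 0 ≤ s - 2), hκ₁0]
  linarith only [h2, h3, h4, h5, h7]

theorem near_margin (hd : ∀ v, 1 ≤ dg J univ v) (hcs : 2 ≤ Fintype.card ι) {u : ℕ} {β : ℝ}
    (hβ : 0 < β) (hβ1 : β < 1) (hp : PairC J u β) :
    ∃ x₀ ε₀ : ℝ, 0 < x₀ ∧ x₀ ≤ 1 / 4 ∧ 0 < ε₀ ∧ ε₀ ≤ 1 ∧ ∃ R₀ : ℕ, 3 ≤ R₀ ∧ ∀ R r : ℕ,
    R₀ ≤ R → r ≤ R → ∀ ε : ℝ, 0 ≤ ε → ε ≤ ε₀ → ∀ C η₁ : ℝ, 0 < C → 0 < η₁ → η₁ ≤ 1 / 16 →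
    ∃ κ₁ : ℝ, 0 < κ₁ ∧ ∀ ε₇ : ℝ, 0 ≤ ε₇ → ε₇ ≤ κ₁ → ∃ δ₀ : ℝ, 0 < δ₀ ∧ ∀ δ : ℝ, 0 < δ → δ ≤ δ₀ →
    ∃ m₀ : ℕ, ∀ m : ℕ, m₀ ≤ m →
      ∀ (V : Type) [DecidableEq V] (G : SimpleGraph V) [DecidableRel G.Adj] (S : Finset V)
        (B : Fin R → Finset V), S.card ≤ R * m + r → clq G S (R + 1) = ∅ →
        LS G S R m C η₁ δ B → ∀ z ∈ S \ un B, (1 - x₀) * R * m ≤ (dg G S z : ℝ) →
        ((((emb J G S).filter fun φ => ∃ i, φ i = z).card : ℕ) : ℝ) + M0 J R m / m * κ₁ ≤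
          (1 - ε₇) * (M0 J R m / m) * ((∑ f ∈ tcl G B,
            xzK G R (Fintype.card ι) (ktS R (Fintype.card ι) u β ε) f z) /
              ∏ l, ((B l).card : ℝ)) := by
  obtain ⟨C₁, hC₁, R₁, hR₁, H1⟩ := near_copies J hd hcs
  obtain ⟨C₂, hC₂, R₂, hR₂, H2⟩ := near_credit u β hβ hβ1
  have hse : (Fintype.card ι : ℝ) ≤ oe J := by exact_mod_cast card_le_oe J hd
  have hs2 : (2 : ℝ) ≤ Fintype.card ι := by exact_mod_cast hcs
  have hA : u * β / (1 - β) ≤ (oe J : ℝ) / (2 * Fintype.card ι) := by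
    rw [div_le_div_iff₀ (by linarith) (by linarith)]
    have := hp
    simp only [PairC] at this
    nlinarith
  have hx0 : 0 < min (1 / 4 : ℝ) (1 / (16 * (C₁ + C₂))) := by positivity
  refine ⟨min (1 / 4) (1 / (16 * (C₁ + C₂))), 1 / 16, hx0, min_le_left _ _, by norm_num,
    by norm_num, max (max R₁ R₂) ⌈16 * C₂⌉₊, ?_, ?_⟩
  · exact le_trans hR₁ (le_trans (le_max_left _ _) (le_max_left _ _))
  set x₀ : ℝ := min (1 / 4) (1 / (16 * (C₁ + C₂))) with hx₀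
  intro R r hR hr ε hε hε0 C η₁ hC hη hη1
  have hR1 : R₁ ≤ R := le_trans (le_trans (le_max_left _ _) (le_max_left _ _)) hR
  have hR2 : R₂ ≤ R := le_trans (le_trans (le_max_right _ _) (le_max_left _ _)) hR
  have hR3 : ⌈16 * C₂⌉₊ ≤ R := le_trans (le_max_right _ _) hR
  have hR3' : 16 * C₂ ≤ R := le_trans (Nat.le_ceil _) (by exact_mod_cast hR3)
  have h3R : 3 ≤ R := le_trans hR₁ hR1
  have h3R' : (3 : ℝ) ≤ R := by exact_mod_cast h3R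
  have hR0 : (0 : ℝ) < R := by linarith only [h3R']
  have hκ₁0 : 0 < η₁ / (64 * (R : ℝ) ^ 2) := by positivity
  refine ⟨η₁ / (64 * (R : ℝ) ^ 2), hκ₁0, ?_⟩
  intro ε₇ hε₇ hε₇'
  set κ : ℝ := min (η₁ / (64 * (R : ℝ) ^ 2)) x₀ with hκ
  have hκ0 : 0 < κ := lt_min hκ₁0 hx0
  obtain ⟨δ₁, hδ₁, D1⟩ := H1 R r hR1 hr C η₁ κ hC hη hκ0
  obtain ⟨δ₂, hδ₂, D2⟩ := H2 R hR2 (Fintype.card ι) ε hε (by linarith only [hε0]) C η₁ κ hC hη hη1 hκ0
  obtain ⟨δ₃, hδ₃, D3⟩ := sgm_le R h3R C η₁ hC hη hη1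
  obtain ⟨δ₄, hδ₄, D4⟩ := sgm_dg R h3R C η₁ κ hC hη hκ0
  refine ⟨min (min δ₁ δ₂) (min δ₃ δ₄), by positivity, ?_⟩
  intro δ hδ hδ'
  obtain ⟨m₁, E1⟩ := D1 δ hδ (le_trans hδ' (le_trans (min_le_left _ _) (min_le_left _ _)))
  obtain ⟨m₂, E2⟩ := D2 δ hδ (le_trans hδ' (le_trans (min_le_left _ _) (min_le_right _ _)))
  obtain ⟨m₃, E3⟩ := D3 δ hδ (le_trans hδ' (le_trans (min_le_right _ _) (min_le_left _ _)))
  obtain ⟨m₄, E4⟩ := D4 δ hδ (le_trans hδ' (le_trans (min_le_right _ _) (min_le_right _ _)))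
  refine ⟨max (max m₁ m₂) (max (max m₃ m₄) 1), ?_⟩
  intro m hm V _ G _ S B hS hclq hLS z hz hdz
  have hm1 : m₁ ≤ m := le_trans (le_trans (le_max_left _ _) (le_max_left _ _)) hm
  have hm2 : m₂ ≤ m := le_trans (le_trans (le_max_right _ _) (le_max_left _ _)) hm
  have hm3 : m₃ ≤ m :=
    le_trans (le_trans (le_trans (le_max_left _ _) (le_max_left _ _)) (le_max_right _ _)) hm
  have hm4 : m₄ ≤ m :=
    le_trans (le_trans (le_trans (le_max_right _ _) (le_max_left _ _)) (le_max_right _ _)) hm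
  have hm5 : 1 ≤ m := le_trans (le_trans (le_max_right _ _) (le_max_right _ _)) hm
  have hm0 : (0 : ℝ) < m := by exact_mod_cast hm5
  have F1 := E1 m hm1 V G S B hS hclq hLS z hz
  have F2 := E2 m hm2 V G S B hclq hLS z hz
  have F3 := E3 m hm3 V G S B hclq hLS z hz
  have F4 := (E4 m hm4 V G S B hclq hLS z (mem_sdiff.1 hz).1).1
  set σ : ℝ := sgm G m B z with hσ
  set Q : ℝ := (∑ f ∈ tcl G B,
            xzK G R (Fintype.card ι) (ktS R (Fintype.card ι) u β ε) f z) /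
              ∏ l, ((B l).card : ℝ) with hQ
  set M : ℝ := M0 J R m / m with hM
  have hM0 : 0 ≤ M := by rw [hM, M0]; positivity
  have ht1 : 1 - σ ≤ 2 * x₀ := by
    have h1 : 1 - x₀ ≤ (dg G S z : ℝ) / ((R - 1) * m) := by
      rw [le_div_iff₀ (mul_pos (by linarith only [h3R']) hm0)]
      have h2 : (1 - x₀) * ((R - 1) * m) ≤ (1 - x₀) * (R * m) := by
        apply mul_le_mul_of_nonneg_left _
          (by have := min_le_left (1 / 4 : ℝ) (1 / (16 * (C₁ + C₂))); linarith)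
        linarith only [hm0]
      linarith only [h2, hdz]
    have h3 : κ ≤ x₀ := min_le_right _ _
    linarith only [h1, h3, F4]
  have hxC : x₀ * (C₁ + C₂) ≤ 1 / 16 := by
    have h1 : x₀ ≤ 1 / (16 * (C₁ + C₂)) := min_le_right _ _
    have h2 : 0 < C₁ + C₂ := by linarith only [hC₁, hC₂]
    calc x₀ * (C₁ + C₂) ≤ 1 / (16 * (C₁ + C₂)) * (C₁ + C₂) :=
          mul_le_mul_of_nonneg_right h1 h2.le
      _ = 1 / 16 := by field_simp
  have hRC : C₂ / R ≤ 1 / 16 := by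
    rw [div_le_iff₀ hR0]; linarith only [hR3']
  have key := SNear_arith (s := Fintype.card ι) (e := oe J) (R := R) (A := u * β / (1 - β))
    (ε := ε) (C₁ := C₁) (C₂ := C₂) (t := 1 - σ) (η₁ := η₁) (κ := κ)
    (κ₁ := η₁ / (64 * (R : ℝ) ^ 2)) (ε₇ := ε₇) (x₀ := x₀) hs2 hse h3R' hA hε0 hC₁ hC₂ hRC hxC
    (by linarith only [F3]) ht1 hη (min_le_left _ _) rfl hε₇ hε₇' hκ0
  have hone : η₁ / (64 * (R : ℝ) ^ 2) ≤ 1 := by
    rw [div_le_one (by positivity)]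
    linarith only [hη1, one_le_pow₀ (n := 2) (by linarith only [h3R'] : (1 : ℝ) ≤ (R : ℝ))]
  have hQ1 : (1 - ε₇) * ((Fintype.card ι : ℝ) / R * (1 - (u * β / (1 - β) + ε + C₂ / R) *
      (1 - σ) - C₂ * (1 - σ) ^ 2) - κ) ≤ (1 - ε₇) * Q :=
    mul_le_mul_of_nonneg_left F2 (by linarith only [hε₇', hone])
  have hB0 : 0 ≤ u * β / (1 - β) := div_nonneg (by positivity) (by linarith only [hβ1])
  have ht0 : 0 ≤ 1 - σ := by
    have : 0 ≤ η₁ / (4 * R) := by positivity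
    linarith only [this, F3]
  have hQ2 : (Fintype.card ι : ℝ) / R * (1 - (u * β / (1 - β) + ε + C₂ / R) *
      (1 - σ) - C₂ * (1 - σ) ^ 2) - κ ≤ (Fintype.card ι : ℝ) / R := by
    have h1 : 0 ≤ (u * β / (1 - β) + ε + C₂ / R) * (1 - σ) := by positivity
    have h2 : 0 ≤ C₂ * (1 - σ) ^ 2 := by positivity
    have h3 : (Fintype.card ι : ℝ) / R * (1 - (u * β / (1 - β) + ε + C₂ / R) *
      (1 - σ) - C₂ * (1 - σ) ^ 2) ≤ (Fintype.card ι : ℝ) / R * 1 :=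
      mul_le_mul_of_nonneg_left (by linarith only [h1, h2]) (by positivity)
    linarith only [h3, hκ0]
  have hfin : (Fintype.card ι : ℝ) / R *
      (1 - (oe J : ℝ) / Fintype.card ι * (1 - σ) + C₁ * (1 - σ) ^ 2) + κ +
      η₁ / (64 * (R : ℝ) ^ 2) ≤ (1 - ε₇) * Q := by
    linarith only [key, hQ1, mul_le_mul_of_nonneg_left hQ2 hε₇]
  calc ((((emb J G S).filter fun φ => ∃ i, φ i = z).card : ℕ) : ℝ) +
        M * (η₁ / (64 * (R : ℝ) ^ 2)) ≤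
        M * ((Fintype.card ι : ℝ) / R *
          (1 - (oe J : ℝ) / Fintype.card ι * (1 - σ) + C₁ * (1 - σ) ^ 2) + κ) +
        M * (η₁ / (64 * (R : ℝ) ^ 2)) := by linarith only [F1]
    _ = M * ((Fintype.card ι : ℝ) / R *
      (1 - (oe J : ℝ) / Fintype.card ι * (1 - σ) + C₁ * (1 - σ) ^ 2) + κ +
      η₁ / (64 * (R : ℝ) ^ 2)) := by ring
    _ ≤ M * ((1 - ε₇) * Q) := mul_le_mul_of_nonneg_left hfin hM0
    _ = (1 - ε₇) * M * Q := by ring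

end H57GH
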