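import Pool.Agent.H57.GH.SLSum
import Pool.Agent.H57.GH.SNear
import Pool.Agent.H57.GH.SMid
import Pool.Agent.H57.GH.LocalB

/-!
Project SH: the local theorem for sets with many edges, common part (compare LocalB).
-/

namespace H57GH

open Finset H57LC H57LT

set_option linter.unusedSectionVars false

lemma SCore_xz_nonneg {V : Type*} [DecidableEq V] {G : SimpleGraph V} [DecidableRel G.Adj]
    {R s : ℕ} {kt : ℕ → ℝ} (hkt : ∀ j ≤ R, 0 ≤ kt j) {B : Fin R → Finset V} {f : Fin R → V}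
    (hf : f ∈ tcl G B) (z : V) : 0 ≤ xzK G R s kt f z := by
  unfold xzK
  split_ifs
  · positivity
  · exact hkt _ ((card_le_card (hs_subset _ _)).trans (le_of_eq (im_card hf)))

variable {ι : Type} [Fintype ι] [DecidableEq ι] (J : SimpleGraph ι) [DecidableRel J.Adj]

lemma SCore_PiM_nonneg (R m u : ℕ) (β ε₃ x : ℝ) : 0 ≤ PiM J R m u β ε₃ x := by
  unfold PiM
  positivity

theorem coreS [Nonempty ι] (d : ℕ) (hd1 : 1 ≤ d) (hd : ∀ v, d ≤ dg J univ v) {u : ℕ}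
    (hu : 1 ≤ u) {β : ℝ} (hβ : 0 < β) (hβ1 : β < 1) (hp : PairC J u β) :
    ∃ x₀ : ℝ, 0 < x₀ ∧ x₀ ≤ 1 / 4 ∧ ∀ θ ε₃ : ℝ, 0 < θ → θ ≤ 1 / 4 → 0 < ε₃ → ε₃ ≤ 1 →
    ∃ ε₀ : ℝ, 0 < ε₀ ∧ ε₀ ≤ 1 ∧ ∃ R₀ : ℕ, 3 ≤ R₀ ∧ ∀ R r q : ℕ, R₀ ≤ R → r ≤ R → q + 1 ≤ d →
    ∀ C₁ CB ε₈ : ℝ, 0 < C₁ → 0 < CB → 0 < ε₈ → ε₈ < 1 →
    ∃ κ₁ C η₁ : ℝ, 0 < κ₁ ∧ 0 < C ∧ 0 < η₁ ∧ η₁ ≤ 1 / 16 ∧ 16 * (R : ℝ) * η₁ ≤ 1 ∧
    ∃ δ₀ : ℝ, 0 < δ₀ ∧ 8 * (R : ℝ) * δ₀ ≤ 1 ∧ ∀ δ : ℝ, 0 < δ → δ ≤ δ₀ →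
    ∃ m₀ : ℕ, ∀ m : ℕ, m₀ ≤ m →
      ∀ (V : Type) [DecidableEq V] (G : SimpleGraph V) [DecidableRel G.Adj] (S : Finset V)
        (ρ : ℝ), S.card ≤ R * m + r → clq G S (R + 1) = ∅ → TyB G S R m CB →
        M0 J R m ≤ ρ → ρ ≤ M0 J R m * (1 + CB / m) →
        ∃ B : Fin R → Finset V, LS G S R m C η₁ δ B ∧
        vh G S R m θ ⊆ S \ un B ∧
        ∀ X : Finset V → ℝ, (∀ T, 0 ≤ X T) → ∃ z : Finset V → ℝ,
          ((emb J G (S \ vh G S R m θ)).card : ℝ) - ρ +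
            M0 J R m / m * κ₁ * (((S \ un B) \ vh G S R m θ).card : ℝ) +
            7 / 8 * (M0 J R m / m) *
              ((∑ f ∈ tcl G B, X (im f)) / ∏ l, ((B l).card : ℝ)) ≤
            ∑ T ∈ clq G S R, z T +
              ∑ y ∈ (vh G S R m θ).filter (fun y => d ≤ dg G S y),
                (dg G S y : ℝ) ^ (1 + q) * (m : ℝ) ^ (Fintype.card ι - 2 - q) +
              ∑ y ∈ midS G S R m θ x₀, PiM J R m u β ε₃ (dg G S y) ∧
          ∀ T ∈ clq G S R, z T ≤ -(C₁ / m) * (M0 J R m / (m : ℝ) ^ R) ∨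
            ((∀ t ∈ T, (1 - ε₈) * m ≤ (aa G S T t : ℝ)) ∧
              z T ≤ lzK G J S R m (ktS R (Fintype.card ι) u β ε₀) ρ X T) := by
  have hd' : ∀ v, 1 ≤ dg J univ v := fun v => hd1.trans (hd v)
  have hcs : 2 ≤ Fintype.card ι := two_le_card J (q := 0) (fun v => by simpa using hd' v)
  obtain ⟨s, hs⟩ : ∃ s : ℝ, s = (Fintype.card ι : ℝ) := ⟨_, rfl⟩
  have hs2 : (2 : ℝ) ≤ s := by rw [hs]; exact_mod_cast hcs
  obtain ⟨e, he⟩ : ∃ e : ℝ, e = (oe J : ℝ) := ⟨_, rfl⟩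
  have h1β : 0 < 1 - β := by linarith only [hβ1]
  obtain ⟨g, hg⟩ : ∃ g : ℝ, g = e / 2 - s * (u * β / (1 - β)) := ⟨_, rfl⟩
  have hg0 : 0 < g := by
    unfold PairC at hp
    rw [← hs, ← he] at hp
    rw [hg]
    have h1 : s * (u * β / (1 - β)) = s * u * β / (1 - β) := by ring
    rw [h1, sub_pos, div_lt_iff₀ h1β]
    linarith
  obtain ⟨x₀, εn, hx₀, hx₁, hεn, hεn1, Rn, hRn3, hnear⟩ := near_margin J hd' hcs hβ hβ1 hp
  refine ⟨x₀, hx₀, hx₁, fun θ ε₃ hθ hθ1 hε₃ hε₃1 => ?_⟩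
  obtain ⟨εm, hεm, hεm1, Rm, hRm3, hmid⟩ :=
    mid_margin J hd' hcs u β θ x₀ ε₃ hu hβ hβ1 hθ hx₀ hε₃ hε₃1
  obtain ⟨CM, hCM, hMb⟩ := M0_bounds J
  obtain ⟨R₂, hR₂⟩ := exists_nat_ge (2 * CM)
  obtain ⟨R₃, hR₃⟩ := exists_nat_ge (2 / (1 - β))
  obtain ⟨ε₀, hε₀, hε₀1, hε₀n, hε₀m, hε₀g⟩ : ∃ ε₀ : ℝ, 0 < ε₀ ∧ ε₀ ≤ 1 ∧ ε₀ ≤ εn ∧ ε₀ ≤ εm ∧
      s * ε₀ ≤ g / 2 := by
    refine ⟨min (min εn εm) (g / (2 * s)), lt_min (lt_min hεn hεm) (by positivity), ?_, ?_, ?_, ?_⟩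
    · exact (min_le_left _ _).trans ((min_le_left _ _).trans hεn1)
    · exact (min_le_left _ _).trans (min_le_left _ _)
    · exact (min_le_left _ _).trans (min_le_right _ _)
    · calc s * min (min εn εm) (g / (2 * s)) ≤ s * (g / (2 * s)) :=
            mul_le_mul_of_nonneg_left (min_le_right _ _) (by linarith only [hs2, hx₀, hx₁])
        _ = g / 2 := by field_simp
  obtain ⟨ε₉, hε₉, hε₉1, hε₉g⟩ : ∃ ε₉ : ℝ, 0 < ε₉ ∧ ε₉ ≤ 1 ∧ (s + 4) * ε₉ * s ≤ g / 2 := by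
    refine ⟨min 1 (g / (2 * s * (s + 4))), lt_min one_pos (by positivity), min_le_left _ _, ?_⟩
    calc (s + 4) * min 1 (g / (2 * s * (s + 4))) * s ≤ (s + 4) * (g / (2 * s * (s + 4))) * s := by
          refine mul_le_mul_of_nonneg_right ?_ (by linarith only [hs2, hx₀, hx₁])
          exact mul_le_mul_of_nonneg_left (min_le_right _ _) (by linarith)
      _ = g / 2 := by field_simp
  refine ⟨ε₀, hε₀, hε₀1, max (max Rn Rm) (max R₂ (max R₃ (d + 2))),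
    hRn3.trans ((le_max_left _ _).trans (le_max_left _ _)),
    fun R r q hR hr hq C₁ CB ε₈ hC₁ hCB hε₈ hε₈1 => ?_⟩
  simp only [max_le_iff] at hR
  obtain ⟨⟨hRa, hRa'⟩, hRb, hRb', hRc⟩ := hR
  have hR3 : 3 ≤ R := hRn3.trans hRa
  have hR3r : (3 : ℝ) ≤ R := by exact_mod_cast hR3
  have hR0 : (0 : ℝ) < R := by linarith only [hx₀, hx₁, hR3r]
  have hs2q : 2 + q ≤ Fintype.card ι := two_le_card J (q := q) (fun v => by
    have := hd v
    omega)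
  have hM : ∀ m : ℕ, 1 ≤ m → ((R : ℝ) * m) ^ Fintype.card ι ≤ 2 * M0 J R m := by
    intro m hm
    have h1 := (hMb R m (by omega) hm).1
    have h2 : CM / R ≤ 1 / 2 := by
      rw [div_le_iff₀ hR0]
      have h4 : (R₂ : ℝ) ≤ R := by exact_mod_cast hRb
      linarith only [hR₂, h4]
    have h3 : (0 : ℝ) ≤ ((R : ℝ) * m) ^ Fintype.card ι := by positivity
    have h5 := mul_le_mul_of_nonneg_right h2 h3
    linarith only [h1, h5]
  have hMup : ∀ m : ℕ, 1 ≤ m → M0 J R m ≤ ((R : ℝ) * m) ^ Fintype.card ι :=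
    fun m hm => (hMb R m (by omega) hm).2
  -- the costs
  obtain ⟨kt, hkt⟩ : ∃ kt : ℕ → ℝ, kt = ktS R (Fintype.card ι) u β ε₀ := ⟨_, rfl⟩
  have hkt0 : ∀ j ≤ R, 0 ≤ kt j := fun j hj => by
    rw [hkt]
    exact ktS_nonneg (by omega) hε₀.le hε₀1 j hj
  have hkt1 : ∀ j ≤ R, kt j ≤ (Fintype.card ι : ℝ) / R := fun j hj => by
    rw [hkt]
    exact ktS_le (by omega) hβ hβ1 hε₀.le hε₀1 j hj
  have hkt2 : (Fintype.card ι : ℝ) / R - kt 2 + ((Fintype.card ι : ℝ) + 4) * ε₉ *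
        ((Fintype.card ι : ℝ) / (R * (R - 1))) ≤ (oe J : ℝ) / (2 * (R * (R - 1))) := by
    have h1 : (s / R : ℝ) - kt 2 ≤ s / (R * (R - 1)) * (ε₀ + u * β / (1 - β)) := by
      rw [hkt, hs]
      refine ktS_two hu hβ hβ1 hε₀.le hε₀1 ?_
      have h3 : (R₃ : ℝ) ≤ R := by exact_mod_cast hRb'
      have h4 := hR₃.trans h3
      rw [div_le_iff₀ h1β] at h4
      linarith only [h4]
    rw [← hs, ← he]
    have hRR : 0 < (R : ℝ) * (R - 1) := mul_pos hR0 (by linarith only [hx₀, hx₁, hR3r])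
    have h2 : s / (R * (R - 1)) * (ε₀ + u * β / (1 - β)) + (s + 4) * ε₉ * (s / (R * (R - 1))) ≤
        e / (2 * (R * (R - 1))) := by
      have h5 : s / (R * (R - 1)) * (ε₀ + u * β / (1 - β)) + (s + 4) * ε₉ * (s / (R * (R - 1))) =
          (s * ε₀ + s * (u * β / (1 - β)) + (s + 4) * ε₉ * s) / (R * (R - 1)) := by ring
      have h6 : e / (2 * (R * (R - 1))) = (e / 2) / (R * (R - 1)) := by
        rw [div_div]
      rw [h5, h6]
      refine div_le_div_of_nonneg_right ?_ hRR.le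
      linarith only [hg, hε₀g, hε₉g]
    linarith
  -- the parameter `η₁`
  obtain ⟨η₁, hη₁, hηa, hηb⟩ : ∃ η₁ : ℝ, 0 < η₁ ∧ 4096 * s ^ 4 * R ^ 4 * η₁ ≤ ε₉ ∧
      4 * (R : ℝ) * η₁ ≤ ε₈ := by
    refine ⟨min (ε₉ / (4096 * s ^ 4 * R ^ 4)) (ε₈ / (4 * R)), lt_min (by positivity)
      (by positivity), ?_, ?_⟩
    · have h1 := min_le_left (ε₉ / (4096 * s ^ 4 * R ^ 4)) (ε₈ / (4 * R))
      calc 4096 * s ^ 4 * R ^ 4 * min (ε₉ / (4096 * s ^ 4 * R ^ 4)) (ε₈ / (4 * R))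
          ≤ 4096 * s ^ 4 * R ^ 4 * (ε₉ / (4096 * s ^ 4 * R ^ 4)) :=
            mul_le_mul_of_nonneg_left h1 (by positivity)
        _ = ε₉ := by field_simp
    · have h1 := min_le_right (ε₉ / (4096 * s ^ 4 * R ^ 4)) (ε₈ / (4 * R))
      calc 4 * (R : ℝ) * min (ε₉ / (4096 * s ^ 4 * R ^ 4)) (ε₈ / (4 * R))
          ≤ 4 * (R : ℝ) * (ε₈ / (4 * R)) := mul_le_mul_of_nonneg_left h1 (by positivity)
        _ = ε₈ := by field_simp
  have hηc : 16 * (R : ℝ) * η₁ ≤ 1 := by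
    have h1 : (1 : ℝ) ≤ s ^ 4 := one_le_pow₀ (by linarith only [hs2, hx₀, hx₁])
    have h2 : (R : ℝ) ≤ R ^ 4 := by
      calc (R : ℝ) = R ^ 1 := (pow_one _).symm
        _ ≤ R ^ 4 := pow_le_pow_right₀ (by linarith only [hx₀, hx₁, hR3r]) (by norm_num)
    have h3 : (R : ℝ) * η₁ ≤ R ^ 4 * η₁ := mul_le_mul_of_nonneg_right h2 hη₁.le
    have h4 : 1 * ((R : ℝ) ^ 4 * η₁) ≤ s ^ 4 * (R ^ 4 * η₁) :=
      mul_le_mul_of_nonneg_right h1 (by positivity)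
    have h5 : 4096 * s ^ 4 * R ^ 4 * η₁ = 4096 * (s ^ 4 * (R ^ 4 * η₁)) := by ring
    rw [h5] at hηa
    have h6 : 0 ≤ (R : ℝ) * η₁ := by positivity
    linarith only [hε₉1, hηa, h3, h4]
  have hη16 : η₁ ≤ 1 / 16 := by
    have := mul_le_mul_of_nonneg_right (show (1 : ℝ) ≤ R by linarith only [hx₀, hx₁, hR3r]) hη₁.le
    linarith only [this, hηc]
  have hηa' : 4096 * (Fintype.card ι : ℝ) ^ 4 * R ^ 4 * η₁ ≤ ε₉ := by rw [← hs]; exact hηa
  obtain ⟨C, hC, hLS⟩ := exists_LSG R r (by omega) CB η₁ hCB hη₁ hη16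
  obtain ⟨κn, hκn, hnear2⟩ := hnear R r hRa hr ε₀ hε₀.le hε₀n C η₁ hC hη₁ hη16
  obtain ⟨κm, hκm, hmid2⟩ := hmid R r hRa' hr ε₀ hε₀.le hε₀m C η₁ hC hη₁ hη16
  obtain ⟨κ, hκ, hκa, hκb⟩ : ∃ κ : ℝ, 0 < κ ∧ κ ≤ κn ∧ κ ≤ κm :=
    ⟨min κn κm, lt_min hκn hκm, min_le_left _ _, min_le_right _ _⟩
  obtain ⟨ε₇, hε₇, hε₇κ, hε₇h⟩ : ∃ ε₇ : ℝ, 0 < ε₇ ∧ ε₇ ≤ κ ∧ ε₇ ≤ 1 / 8 :=
    ⟨min κ (1 / 8), lt_min hκ (by norm_num), min_le_left _ _, min_le_right _ _⟩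
  obtain ⟨δ₁, hδ₁, hA1⟩ := hnear2 ε₇ hε₇.le (hε₇κ.trans hκa)
  obtain ⟨δ₂, hδ₂, hA2⟩ := hmid2 ε₇ hε₇.le (hε₇κ.trans hκb)
  obtain ⟨δ₃, hδ₃, hA3⟩ := light_sumS J hd' hcs R r hR3 CB C η₁ ε₇ ε₉ hC hη₁ hM hε₉ hε₉1 hηa' hε₇
  obtain ⟨δ₀, hδ₀, hδa, hδb, hδc, hδe, hδf⟩ : ∃ δ : ℝ, 0 < δ ∧ δ ≤ δ₁ ∧ δ ≤ δ₂ ∧ δ ≤ δ₃ ∧
      8 * (R : ℝ) * δ ≤ 1 ∧ 2 * δ ≤ ε₈ := by
    refine ⟨min (min (min δ₁ δ₂) δ₃) (min (1 / (8 * R)) (ε₈ / 2)), ?_, ?_, ?_, ?_, ?_, ?_⟩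
    · exact lt_min (lt_min (lt_min hδ₁ hδ₂) hδ₃) (lt_min (by positivity) (by positivity))
    · exact (min_le_left _ _).trans ((min_le_left _ _).trans (min_le_left _ _))
    · exact (min_le_left _ _).trans ((min_le_left _ _).trans (min_le_right _ _))
    · exact (min_le_left _ _).trans (min_le_right _ _)
    · have h1 : min (min (min δ₁ δ₂) δ₃) (min (1 / (8 * R)) (ε₈ / 2)) ≤ 1 / (8 * (R : ℝ)) :=
        (min_le_right _ _).trans (min_le_left _ _)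
      calc _ ≤ 8 * (R : ℝ) * (1 / (8 * R)) := mul_le_mul_of_nonneg_left h1 (by positivity)
        _ = 1 := by field_simp
    · have h1 : min (min (min δ₁ δ₂) δ₃) (min (1 / (8 * R)) (ε₈ / 2)) ≤ ε₈ / 2 :=
        (min_le_right _ _).trans (min_le_right _ _)
      linarith only [h1]
  refine ⟨κ / 2, C, η₁, by positivity, hC, hη₁, hη16, hηc, δ₀, hδ₀, hδe, fun δ hδ hδδ => ?_⟩
  have hδe' : 8 * (R : ℝ) * δ ≤ 1 := le_trans (mul_le_mul_of_nonneg_left hδδ (by positivity)) hδe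
  obtain ⟨m1, hm1⟩ := hA1 δ hδ (hδδ.trans hδa)
  obtain ⟨m2, hm2⟩ := hA2 δ hδ (hδδ.trans hδb)
  obtain ⟨m3, hm3⟩ := hA3 δ hδ (hδδ.trans hδc)
  obtain ⟨mL, hmL⟩ := hLS δ hδ
  obtain ⟨m5, hm5⟩ := exists_nat_ge (4 * C₁ * (2 * (R : ℝ)) ^ R / (2 * κ))
  obtain ⟨m6, hm6⟩ := exists_nat_ge (C₁ * (R : ℝ) ^ Fintype.card ι * (R : ℝ) ^ R)
  refine ⟨max m1 (max m2 (max m3 (max mL (max m5 (max m6 1))))),
    fun m hm V _ G _ S ρ hS hfree hTy hρ1 hρ2 => ?_⟩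
  simp only [max_le_iff] at hm
  obtain ⟨hma, hmb, hmc, hmLL, hme, hmf, hmone⟩ := hm
  have hm0 : (1 : ℝ) ≤ m := by exact_mod_cast hmone
  have hm00 : (0 : ℝ) < m := by linarith only [hη₁, hη16, hm0]
  obtain ⟨B, hB⟩ := hmL m hmLL V G S hS hfree hTy
  have hδ24 : δ ≤ 1 / 24 := by
    have := mul_le_mul_of_nonneg_right hR3r hδ.le
    linarith only [this, hδe']
  have hWX : vh G S R m θ ⊆ S \ un B := by
    refine vh_subset hB hmone ?_
    have h2 : (1 : ℝ) - δ - 2 * η₁ ≥ 1 / 2 := by linarith only [hη16, hδ, hδ24]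
    have h3 : θ * (R : ℝ) ≤ 1 / 4 * R := mul_le_mul_of_nonneg_right hθ1 hR0.le
    have h4 : ((R : ℝ) - 1) * (1 / 2) ≤ (R - 1) * (1 - δ - 2 * η₁) :=
      mul_le_mul_of_nonneg_left h2 (by linarith only [hR3r, hδ, hδ24])
    linarith only [h3, h4, hR3r]
  refine ⟨B, hB, hWX, fun X hX => ?_⟩
  -- numbers
  obtain ⟨M, hMdef⟩ : ∃ M : ℝ, M = M0 J R m := ⟨_, rfl⟩
  have hMlo := hM m hmone
  have hMhi := hMup m hmone
  rw [← hMdef] at hMlo hMhi hρ1 hρ2 ⊢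
  rw [← hkt]
  have hMpos : 0 < M := by
    have : 0 < ((R : ℝ) * m) ^ Fintype.card ι := by positivity
    linarith only [hMlo, this]
  obtain ⟨W, hW⟩ : ∃ W : Finset V, W = vh G S R m θ := ⟨_, rfl⟩
  rw [← hW] at hWX ⊢
  have hWmem : ∀ y ∈ W, (dg G S y : ℝ) ≤ θ * R * m := by
    intro y hy
    rw [hW] at hy
    unfold vh at hy
    exact (mem_filter.1 hy).2
  have hnW : ∀ y ∈ (S \ un B) \ W, θ * R * m < (dg G S y : ℝ) := by
    intro y hy
    rw [mem_sdiff] at hy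
    by_contra hcon
    push Not at hcon
    apply hy.2
    rw [hW]
    unfold vh
    exact mem_filter.2 ⟨(mem_sdiff.1 hy.1).1, hcon⟩
  have hunS : un B ⊆ S := fun z hz => by
    obtain ⟨i, hi⟩ := mem_un.1 hz
    exact hB.sub i hi
  obtain ⟨P, hP⟩ : ∃ P : ℝ, P = ∏ l, ((B l).card : ℝ) := ⟨_, rfl⟩
  have hPpos : 0 < P := by
    rw [hP]
    refine prod_pos fun l _ => ?_
    have h3 := hB.size_lo l
    have h5 : (1 / 2 : ℝ) * m ≤ (1 - δ) * m := mul_le_mul_of_nonneg_right (by linarith only [hδ,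
        hδ24]) hm00.le
    linarith only [hδ, hm0, hδ24, h3, h5]
  rw [← hP]
  obtain ⟨xs, hxs⟩ : ∃ xs : V → ℝ, ∀ z, xs z = ∑ f ∈ tcl G B, xzK G R (Fintype.card ι) kt f z :=
    ⟨_, fun _ => rfl⟩
  have hxs0 : ∀ z, 0 ≤ xs z := fun z => by
    rw [hxs]
    exact sum_nonneg fun f hf => SCore_xz_nonneg hkt0 hf z
  obtain ⟨N, hN⟩ : ∃ N : ℝ, N = ∑ f ∈ tcl G B, X (im f) := ⟨_, rfl⟩
  have hN0 : 0 ≤ N := by
    rw [hN]
    exact sum_nonneg fun f _ => hX _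
  rw [← hN]
  obtain ⟨K, hK⟩ : ∃ K : ℝ, K = (1 - ε₇) * M / (m * P) := ⟨_, rfl⟩
  have hK0 : 0 ≤ K := by
    rw [hK]
    have : 0 ≤ 1 - ε₇ := by linarith only [hε₇h, hδ, hδ24]
    positivity
  -- the light sum
  have e3 := hm3 m hmc kt hkt0 hkt1 hkt2 V G S B ρ X hX hS hB (by rw [← hMdef]; exact hρ1)
    (by rw [← hMdef]; exact hρ2)
  obtain ⟨L, hL⟩ : ∃ L : ℝ, L = ∑ f ∈ tcl G B, lzK G J S R m kt ρ X (im f) := ⟨_, rfl⟩
  have e3' : ((emb J G (un B)).card : ℝ) - ρ ≤ L - K * (∑ z ∈ S \ un B, xs z + N) := by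
    have h1 : ∑ f ∈ tcl G B, (∑ z ∈ S \ un B, xzK G R (Fintype.card ι) kt f z +
            X (im f)) = ∑ z ∈ S \ un B, xs z + N := by
      rw [sum_add_distrib, sum_comm, hN]
      congr 1
      exact sum_congr rfl fun z _ => (hxs z).symm
    rw [h1, ← hMdef, ← hP, ← hL] at e3
    have h2 : (1 - ε₇) * M * (∑ z ∈ S \ un B, xs z + N) / (m * P) =
        K * (∑ z ∈ S \ un B, xs z + N) := by
      rw [hK]
      ring
    rw [h2] at e3
    exact e3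
  -- the heavy vertices that are not very heavy
  have hKx : ∀ z, (1 - ε₇) * (M / m) * (xs z / P) = K * xs z := by
    intro z
    rw [hK]
    field_simp
  have e4 : ∀ z ∈ (S \ un B) \ W,
      ((((emb J G S).filter fun φ => ∃ i, φ i = z).card : ℕ) : ℝ) + M / m * κ ≤
        K * xs z + if z ∈ midS G S R m θ x₀ then PiM J R m u β ε₃ (dg G S z) else 0 := by
    intro z hz
    have hzX := (mem_sdiff.1 hz).1
    have h3 : 0 ≤ M / m := by positivity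
    by_cases hzm : z ∈ midS G S R m θ x₀
    · rw [if_pos hzm]
      have h1 := hm2 m hmb V G S B hS hfree hB z hzm
      rw [← hMdef, ← hkt, ← hxs, ← hP, hKx] at h1
      have h4 := mul_le_mul_of_nonneg_left hκb h3
      linarith only [h1, h4]
    · rw [if_neg hzm]
      have hdz : (1 - x₀) * R * m ≤ (dg G S z : ℝ) := by
        by_contra hcon
        push Not at hcon
        apply hzm
        unfold midS
        exact mem_filter.2 ⟨(mem_sdiff.1 hzX).1, hnW z hz, hcon⟩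
      have h1 := hm1 m hma V G S B hS hfree hB z hzX hdz
      rw [← hMdef, ← hkt, ← hxs, ← hP, hKx] at h1
      have h4 := mul_le_mul_of_nonneg_left hκa h3
      linarith
  -- the cliques that are not light
  have e5 : C₁ / m * (M / (m : ℝ) ^ R) *
      (((clq G S R).filter fun T => ¬ T ⊆ un B).card : ℝ) ≤
      (((S \ un B) \ W).card : ℝ) * (M / m * (κ / 2)) +
        ∑ y ∈ W.filter (fun y => d ≤ dg G S y),
          (dg G S y : ℝ) ^ (1 + q) * (m : ℝ) ^ (Fintype.card ι - 2 - q) := by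
    obtain ⟨A, hA⟩ : ∃ A : ℝ, A = C₁ / m * (M / (m : ℝ) ^ R) := ⟨_, rfl⟩
    have hA0 : 0 ≤ A := by rw [hA]; positivity
    rw [← hA]
    have h1 : (((clq G S R).filter fun T => ¬ T ⊆ un B).card : ℝ) ≤
        ∑ z ∈ S \ un B, ((dg G S z).choose (R - 1) : ℝ) := by
      exact_mod_cast LocalB_meet S B
    have h2 : ∑ z ∈ S \ un B, ((dg G S z).choose (R - 1) : ℝ) =
        ∑ z ∈ (S \ un B) \ W, ((dg G S z).choose (R - 1) : ℝ) +
          ∑ z ∈ W, ((dg G S z).choose (R - 1) : ℝ) := (sum_sdiff hWX).symm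
    have h3 : A * ∑ z ∈ (S \ un B) \ W, ((dg G S z).choose (R - 1) : ℝ) ≤
        (((S \ un B) \ W).card : ℝ) * (M / m * (κ / 2)) := by
      rw [mul_sum, ← nsmul_eq_mul]
      refine sum_le_card_nsmul _ _ _ fun z _ => ?_
      have h4 : ((dg G S z).choose (R - 1) : ℝ) ≤ (S.card : ℝ) ^ (R - 1) := by
        have h5 : (dg G S z).choose (R - 1) ≤ S.card ^ (R - 1) :=
          (Nat.choose_le_pow _ _).trans (Nat.pow_le_pow_left (card_filter_le _ _) _)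
        exact_mod_cast h5
      refine (mul_le_mul_of_nonneg_left h4 hA0).trans ?_
      rw [hA]
      have h8 := LocalB_cost1 (R := R) (m := m) (r := r) (c := S.card) (C₁ := C₁) (M := M)
        (κ₁ := 2 * κ) (by omega) hmone hr hC₁.le hMpos.le hS (by
          have h6 : (m5 : ℝ) ≤ m := by exact_mod_cast hme
          have h7 := hm5.trans h6
          rw [div_le_iff₀ (by positivity)] at h7
          linarith only [h7])
      have h9 : M / m * (2 * κ / 4) = M / m * (κ / 2) := by ring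
      rw [h9] at h8
      exact h8
    have h4 : A * ∑ z ∈ W, ((dg G S z).choose (R - 1) : ℝ) ≤
        ∑ y ∈ W.filter (fun y => d ≤ dg G S y),
          (dg G S y : ℝ) ^ (1 + q) * (m : ℝ) ^ (Fintype.card ι - 2 - q) := by
      rw [mul_sum, sum_filter]
      refine sum_le_sum fun y hy => ?_
      by_cases hdy : d ≤ dg G S y
      · rw [if_pos hdy]
        have h5 : ((dg G S y).choose (R - 1) : ℝ) ≤ (dg G S y : ℝ) ^ (R - 1) := by
          exact_mod_cast Nat.choose_le_pow (dg G S y) (R - 1)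
        refine (mul_le_mul_of_nonneg_left h5 hA0).trans ?_
        rw [hA]
        refine LocalB_cost2 hs2q (by omega) hmone hC₁.le hMhi ?_ ?_
        · have h6 := hWmem y hy
          have h7 : θ * R * m ≤ 1 * R * m :=
            mul_le_mul_of_nonneg_right (mul_le_mul_of_nonneg_right (by linarith only [hθ1, hδ,
                hδ24]) hR0.le) hm00.le
          linarith only [h6, h7]
        · exact hm6.trans (by exact_mod_cast hmf)
      · rw [if_neg hdy]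
        have h5 : (dg G S y).choose (R - 1) = 0 := Nat.choose_eq_zero_of_lt (by omega)
        rw [h5]
        simp
    calc A * (((clq G S R).filter fun T => ¬ T ⊆ un B).card : ℝ)
        ≤ A * ∑ z ∈ S \ un B, ((dg G S z).choose (R - 1) : ℝ) :=
          mul_le_mul_of_nonneg_left h1 hA0
      _ = A * ∑ z ∈ (S \ un B) \ W, ((dg G S z).choose (R - 1) : ℝ) +
          A * ∑ z ∈ W, ((dg G S z).choose (R - 1) : ℝ) := by rw [h2]; ring
      _ ≤ _ := by linarith only [h3, h4]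
  refine ⟨fun T => if T ∈ clq G S R ∧ T ⊆ un B then lzK G J S R m kt ρ X T else
    -(C₁ / m) * (M / (m : ℝ) ^ R), ?_, fun T hT => ?_⟩
  · rw [← sum_filter_add_sum_filter_not (clq G S R) (fun T => T ⊆ un B)]
    have f1 : ∑ T ∈ (clq G S R).filter (fun T => T ⊆ un B),
        (if T ∈ clq G S R ∧ T ⊆ un B then lzK G J S R m kt ρ X T else
          -(C₁ / m) * (M / (m : ℝ) ^ R)) = L := by
      rw [hL, ← sum_light (G := G) (S := S) hB.sub hB.disj hB.ind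
        (fun T => lzK G J S R m kt ρ X T)]
      refine sum_congr rfl fun T hT => ?_
      rw [if_pos (mem_filter.1 hT)]
    have f2 : ∑ T ∈ (clq G S R).filter (fun T => ¬ T ⊆ un B),
        (if T ∈ clq G S R ∧ T ⊆ un B then lzK G J S R m kt ρ X T else
          -(C₁ / m) * (M / (m : ℝ) ^ R)) = -(C₁ / m * (M / (m : ℝ) ^ R) *
            (((clq G S R).filter fun T => ¬ T ⊆ un B).card : ℝ)) := by
      rw [sum_congr rfl (g := fun _ => -(C₁ / m) * (M / (m : ℝ) ^ R)), sum_const,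
        nsmul_eq_mul]
      · ring
      intro T hT
      rw [if_neg fun h => (mem_filter.1 hT).2 h.2]
    rw [f1, f2]
    -- the copies
    have g1 : ((emb J G (S \ W)).card : ℝ) ≤ ((emb J G (un B)).card : ℝ) +
        ∑ z ∈ (S \ un B) \ W, ((((emb J G S).filter fun φ => ∃ i, φ i = z).card : ℕ) : ℝ) := by
      have h1 := LocalB_split J G (S := S) (X := S \ un B) (W := W) sdiff_subset hWX
      rw [Finset.sdiff_sdiff_eq_self hunS] at h1
      exact_mod_cast h1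
    have g2 : ∑ z ∈ (S \ un B) \ W,
        ((((emb J G S).filter fun φ => ∃ i, φ i = z).card : ℕ) : ℝ) +
          (((S \ un B) \ W).card : ℝ) * (M / m * κ) ≤ K * ∑ z ∈ S \ un B, xs z +
            ∑ y ∈ midS G S R m θ x₀, PiM J R m u β ε₃ (dg G S y) := by
      have h1 := sum_le_sum e4
      rw [sum_add_distrib, sum_const, nsmul_eq_mul, sum_add_distrib, ← mul_sum] at h1
      refine h1.trans (add_le_add (mul_le_mul_of_nonneg_left ?_ hK0) ?_)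
      · exact sum_le_sum_of_subset_of_nonneg sdiff_subset fun z _ _ => hxs0 z
      · rw [← sum_filter]
        refine sum_le_sum_of_subset_of_nonneg ?_ fun z _ _ => SCore_PiM_nonneg J _ _ _ _ _ _
        intro z hz
        exact (mem_filter.1 hz).2
    have g3 : K * (∑ z ∈ S \ un B, xs z + N) = K * ∑ z ∈ S \ un B, xs z + K * N := by ring
    have g4 : 7 / 8 * (M / m) * (N / P) ≤ K * N := by
      have h1 : K * N = (1 - ε₇) * (M / m * (N / P)) := by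
        rw [hK]
        field_simp
      rw [h1, mul_assoc]
      refine mul_le_mul_of_nonneg_right (by linarith only [hε₇h]) ?_
      positivity
    have g5 : M / m * (κ / 2) * (((S \ un B) \ W).card : ℝ) =
        (((S \ un B) \ W).card : ℝ) * (M / m * κ) -
          (((S \ un B) \ W).card : ℝ) * (M / m * (κ / 2)) := by ring
    rw [g3] at e3'
    rw [g5]
    linarith only [e3', e5, g1, g2, g4]
  · dsimp only
    by_cases h : T ⊆ un B
    · right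
      obtain ⟨f, hf, rfl⟩ := LocalB_exists_tuple hB.sub hB.disj hB.ind hT h
      rw [if_pos ⟨hT, h⟩]
      refine ⟨fun t ht => ?_, le_refl _⟩
      refine le_trans ?_ (aa_lower hB hη₁.le hf ht)
      refine mul_le_mul_of_nonneg_right ?_ hm00.le
      linarith only [hηb, hδf, hδδ]
    · left
      rw [if_neg fun h' => h h'.2]

end H57GH
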