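import Pool.Agent.H57.GH.SUp
import Pool.Agent.H57.GH.SUp0
import Pool.Agent.H57.GH.FinalH2
import Pool.Agent.H57.GH.FinalD

/-!
Project SH: final forms.
-/

namespace H57GH

open Finset H57LC H57LT H57E32 Filter Topology

set_option linter.unusedSectionVars false

lemma SFin_dg {ι ι' : Type*} [Fintype ι] [DecidableEq ι] [Fintype ι'] [DecidableEq ι']
    {J : SimpleGraph ι} {J' : SimpleGraph ι'} [DecidableRel J.Adj] [DecidableRel J'.Adj]
    (e : J ≃g J') (v : ι) : dg J univ v = dg J' univ (e v) := by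
  unfold dg
  refine Finset.card_bij (fun y _ => e y) ?_ ?_ ?_
  · intro y hy
    rw [mem_filter] at hy ⊢
    exact ⟨mem_univ _, e.map_rel_iff'.2 hy.2⟩
  · intro a _ b _ hab
    exact e.injective hab
  · intro b hb
    rw [mem_filter] at hb
    refine ⟨e.symm b, ?_, e.apply_symm_apply b⟩
    rw [mem_filter]
    refine ⟨mem_univ _, ?_⟩
    have h := hb.2
    rw [← e.apply_symm_apply b] at h
    exact e.map_rel_iff'.1 h

lemma SFin_oe {ι ι' : Type*} [Fintype ι] [DecidableEq ι] [Fintype ι'] [DecidableEq ι']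
    {J : SimpleGraph ι} {J' : SimpleGraph ι'} [DecidableRel J.Adj] [DecidableRel J'.Adj]
    (e : J ≃g J') : oe J = oe J' := by
  unfold oe
  refine Finset.card_bij (fun p _ => (e p.1, e p.2)) ?_ ?_ ?_
  · intro p hp
    rw [mem_filter] at hp ⊢
    exact ⟨mem_univ _, e.map_rel_iff'.2 hp.2⟩
  · intro a _ b _ hab
    rw [Prod.mk.injEq] at hab
    exact Prod.ext (e.injective hab.1) (e.injective hab.2)
  · intro b hb
    rw [mem_filter] at hb
    refine ⟨(e.symm b.1, e.symm b.2), ?_, ?_⟩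
    · rw [mem_filter]
      refine ⟨mem_univ _, ?_⟩
      have h := hb.2
      rw [← e.apply_symm_apply b.1, ← e.apply_symm_apply b.2] at h
      exact e.map_rel_iff'.1 h
    · exact Prod.ext (e.apply_symm_apply b.1) (e.apply_symm_apply b.2)

lemma SFin_Psi {ι ι' : Type*} [Fintype ι] [DecidableEq ι] [Fintype ι'] [DecidableEq ι']
    {J : SimpleGraph ι} {J' : SimpleGraph ι'} [DecidableRel J.Adj] [DecidableRel J'.Adj]
    (e : J ≃g J') (y : ℝ) : Psi J y = Psi J' y := by
  unfold Psi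
  refine Fintype.sum_equiv e.toEquiv _ _ fun v => ?_
  rw [SFin_dg e v]
  rfl

theorem rk_congr {ι ι' : Type*} [Fintype ι] [DecidableEq ι] [Fintype ι'] [DecidableEq ι']
    {J : SimpleGraph ι} {J' : SimpleGraph ι'} [DecidableRel J.Adj] [DecidableRel J'.Adj]
    (e : J ≃g J') : rk J = rk J' := by
  unfold rk
  rw [Fintype.card_congr e.toEquiv, Nat.card_congr e.connectedComponentEquiv]

theorem PairC_congr {ι ι' : Type*} [Fintype ι] [DecidableEq ι] [Fintype ι'] [DecidableEq ι']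
    {J : SimpleGraph ι} {J' : SimpleGraph ι'} [DecidableRel J.Adj] [DecidableRel J'.Adj]
    (e : J ≃g J') {u : ℕ} {β : ℝ} (h : PairC J u β) : PairC J' u β := by
  unfold PairC at h ⊢
  rw [← SFin_oe e, ← Fintype.card_congr e.toEquiv]
  exact h

theorem HubC_congr {ι ι' : Type*} [Fintype ι] [DecidableEq ι] [Fintype ι'] [DecidableEq ι']
    {J : SimpleGraph ι} {J' : SimpleGraph ι'} [DecidableRel J.Adj] [DecidableRel J'.Adj]
    (e : J ≃g J') {u : ℕ} {β : ℝ} (h : HubC J u β) : HubC J' u β := by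
  unfold HubC at h ⊢
  intro y hy hy1
  rw [← SFin_Psi e, ← rk_congr e, ← Fintype.card_congr e.toEquiv]
  exact h y hy hy1

/-- optimality of `L` -/
theorem main_HS {W : Type} [Fintype W] [DecidableEq W] (H : SimpleGraph W) [DecidableRel H.Adj]
    (u : ℕ) (hu : 1 ≤ u) (U₀ : Finset W) (hU : U₀.card = u)
    (hdom : ∀ x ∈ U₀, ∀ y, y ≠ x → H.Adj x y) (hW : u < Fintype.card W)
    (hδ : 2 * u ≤ H.minDegree) {β : ℝ} (hβ : 0 < β) (hβ1 : β < 1)
    (hp : PairC (H.comap (Subtype.val : {x : W // x ∉ U₀ ∧ u < H.degree x} → W)) u β)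
    (hhub : HubC (H.comap (Subtype.val : {x : W // x ∉ U₀ ∧ u < H.degree x} → W)) u β) :
    ∃ R₀ : ℕ, ∀ R r : ℕ, R₀ ≤ R → 1 ≤ r → (r : ℝ) ≤ β * R →
    ∃ m₀ : ℕ, ∀ m : ℕ, m₀ ≤ m →
      (∀ p : ℕ, exH H u (R * m + r) (R + u) p * kc u (TG (R + u) m r) ≤
        p * (TG (R + u) m r).copyCount H) ∧
      (∀ q : ℕ, exH H u (R * m + r) (R + u) (q * kc u (TG (R + u) m r)) =
        q * (TG (R + u) m r).copyCount H) ∧
      Tendsto (fun p : ℕ => (exH H u (R * m + r) (R + u) p : ℝ) / p) atTop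
        (𝓝 (((TG (R + u) m r).copyCount H : ℝ) / kc u (TG (R + u) m r))) := by
  classical
  have hne := FinalH2_nonempty hU hW
  have hdeg : ∀ x : W, u < H.degree x := fun x => by
    have := H.minDegree_le_degree x
    omega
  have ei : H.comap (Subtype.val : {x : W // x ∉ U₀ ∧ u < H.degree x} → W) ≃g
      H.comap (fun x : {x : W // ¬ x ∈ U₀} => (x : W)) :=
    { toEquiv := Equiv.subtypeEquivRight (fun x => ⟨fun h => h.1, fun h => ⟨h, hdeg x⟩⟩)
      map_rel_iff' := by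
        intro a b
        exact Iff.rfl }
  have hp' := PairC_congr ei hp
  have hh' := HubC_congr ei hhub
  have hd := FinalH2_deg H hU
  have e := FinalH_iso H u U₀ hU hdom
  by_cases hcase : 2 ≤ u ∨ 3 ≤ H.minDegree
  · obtain ⟨R₀, h⟩ := upperS (H.comap (fun x : {x : W // ¬ x ∈ U₀} => (x : W))) u hu
      (H.minDegree - u) (by omega) hd hβ hβ1 hp' hh'
    refine ⟨R₀, fun R r hR hr hrR => ?_⟩
    obtain ⟨hrR2, m₀, hm₀⟩ := h R r hR hr hrR (Or.inr ⟨by omega, by omega⟩)
    refine ⟨max m₀ 1, fun m hm => ?_⟩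
    have hlim := lim_of_upper (H.comap (fun x : {x : W // ¬ x ∈ U₀} => (x : W))) u hu
      (m := m) (le_trans (le_max_right _ _) hm) (by omega : 1 ≤ R) (by omega : r < R)
      (hm₀ m (le_trans (le_max_left _ _) hm))
    simp only [FinalH_copyCount_congr e, FinalH_exH_congr e] at hlim
    exact hlim
  · have hu1 : u = 1 := by omega
    subst hu1
    have hd1 : ∀ v, 1 ≤ dg (H.comap (fun x : {x : W // ¬ x ∈ U₀} => (x : W))) univ v :=
      fun v => by
        have h1 := hd v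
        omega
    obtain ⟨R₀, h⟩ := upperS1 (H.comap (fun x : {x : W // ¬ x ∈ U₀} => (x : W))) hd1 hβ hβ1
      hp' hh'
    refine ⟨R₀, fun R r hR hr hrR => ?_⟩
    obtain ⟨hrR2, m₀, hm₀⟩ := h R r hR hr hrR
    refine ⟨max m₀ 1, fun m hm => ?_⟩
    have hlim := lim_of_upper (H.comap (fun x : {x : W // ¬ x ∈ U₀} => (x : W))) 1 le_rfl
      (m := m) (le_trans (le_max_right _ _) hm) (by omega : 1 ≤ R) (by omega : r < R)
      (hm₀ m (le_trans (le_max_left _ _) hm))
    simp only [FinalH_copyCount_congr e, FinalH_exH_congr e] at hlim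
    exact hlim

/-- the upper bound for allowed graphs -/
lemma SFin_upper {ι : Type} [Fintype ι] [DecidableEq ι] (J : SimpleGraph ι)
    [DecidableRel J.Adj] (I : Finset ι) {R m r : ℕ}
    (hup : ∀ (V : Type) [Fintype V] [DecidableEq V] (G : SimpleGraph V) [DecidableRel G.Adj],
        (∀ U ∈ clq G univ 1, (H57LC.cn G U).card ≤ R * m + r) → clq G univ (R + 1 + 1) = ∅ →
        ((emb (jn J 1) G univ).card : ℝ) ≤
          ((R * m + r - Fintype.card {v // v ∉ I}).descFactorial I.card : ℝ) *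
            rhoG (J.comap (Subtype.val : {v // v ∉ I} → ι)) 1 R r m *
              ((clq G univ 1).card : ℝ))
    (n : ℕ) (G : SimpleGraph (Fin n)) (hG : Allowed 1 (R * m + r) (R + 1) G) :
    ((G.labelledCopyCount (jn J 1) : ℕ) : ℝ) ≤
      ((R * m + r - Fintype.card {v // v ∉ I}).descFactorial I.card : ℝ) *
        rhoG (J.comap (Subtype.val : {v // v ∉ I} → ι)) 1 R r m * (kc 1 G : ℝ) := by
  classical
  rw [allowed_iff] at hG
  rw [kc_eq_clq, ← emb_eq_labelled]
  refine hup (Fin n) G ?_ ?_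
  · intro U hU
    rw [mem_clq] at hU
    have h1 : G.IsNClique 1 U := by
      rw [SimpleGraph.isNClique_iff]
      exact ⟨fun a ha b hb hab => hU.2 a ha b hb hab, hU.1.2⟩
    have h2 := hG.1 U h1
    have h3 : (cns G U).ncard = (H57LC.cn G U).card := by
      rw [← Set.ncard_coe_finset]
      congr 1
      ext v
      simp [cns, H57LC.mem_cn]
    rw [← h3]
    exact h2
  · rw [eq_empty_iff_forall_notMem]
    intro A hA
    rw [mem_clq] at hA
    refine hG.2 A ?_
    rw [SimpleGraph.isNClique_iff]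
    exact ⟨fun a ha b hb hab => hA.2 a ha b hb hab, hA.1.2⟩

/-- a vertex outside `x₀` has a neighbour different from `x₀` iff its degree is at least two -/
lemma SFin_deg {W : Type} [Fintype W] [DecidableEq W] (H : SimpleGraph W) [DecidableRel H.Adj]
    (x₀ : W) (hdom : ∀ y, y ≠ x₀ → H.Adj x₀ y) (v : {x : W // ¬ x ∈ ({x₀} : Finset W)}) :
    (∃ w : {x : W // ¬ x ∈ ({x₀} : Finset W)}, H.Adj (v : W) (w : W)) ↔
      1 < H.degree (v : W) := by
  have hv : (v : W) ≠ x₀ := by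
    have h := v.2
    rw [mem_singleton] at h
    exact h
  have hx : x₀ ∈ H.neighborFinset (v : W) := by
    rw [SimpleGraph.mem_neighborFinset]
    exact (hdom _ hv).symm
  constructor
  · rintro ⟨w, hw⟩
    have hw' : (w : W) ∈ H.neighborFinset (v : W) := by
      rw [SimpleGraph.mem_neighborFinset]
      exact hw
    have hne : (w : W) ≠ x₀ := by
      have h := w.2
      rw [mem_singleton] at h
      exact h
    change 1 < (H.neighborFinset (v : W)).card
    rw [one_lt_card]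
    exact ⟨_, hw', _, hx, hne⟩
  · intro h
    change 1 < (H.neighborFinset (v : W)).card at h
    obtain ⟨w, hw, hne⟩ := exists_mem_ne h x₀
    refine ⟨⟨w, by rw [mem_singleton]; exact hne⟩, ?_⟩
    rw [SimpleGraph.mem_neighborFinset] at hw
    exact hw

/-- optimality of `DL` -/
theorem main_DS {W : Type} [Fintype W] [DecidableEq W] (H : SimpleGraph W) [DecidableRel H.Adj]
    (x₀ : W) (hdom : ∀ y, y ≠ x₀ → H.Adj x₀ y) (hδ : H.minDegree = 1) {β : ℝ} (hβ : 0 < β)
    (hβ1 : β < 1)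
    (hc : Nonempty {x : W // x ∉ ({x₀} : Finset W) ∧ 1 < H.degree x} →
      PairC (H.comap (Subtype.val : {x : W // x ∉ ({x₀} : Finset W) ∧ 1 < H.degree x} → W)) 1 β ∧
      HubC (H.comap (Subtype.val : {x : W // x ∉ ({x₀} : Finset W) ∧ 1 < H.degree x} → W)) 1 β) :
    ∃ R₀ : ℕ, ∀ R r : ℕ, R₀ ≤ R → 1 ≤ r → (r : ℝ) ≤ β * R →
    ∃ m₀ : ℕ, ∀ m : ℕ, m₀ ≤ m →
      (∀ p : ℕ, exH H 1 (R * m + r) (R + 1) p * kc 1 (DL (R + 1) m r) ≤
        p * (DL (R + 1) m r).copyCount H) ∧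
      (∀ q : ℕ, exH H 1 (R * m + r) (R + 1) (q * kc 1 (DL (R + 1) m r)) =
        q * (DL (R + 1) m r).copyCount H) ∧
      Tendsto (fun p : ℕ => (exH H 1 (R * m + r) (R + 1) p : ℝ) / p) atTop
        (𝓝 (((DL (R + 1) m r).copyCount H : ℝ) / kc 1 (DL (R + 1) m r))) := by
  classical
  set J : SimpleGraph {x : W // ¬ x ∈ ({x₀} : Finset W)} := H.comap (fun x => (x : W)) with hJ
  have e : jn J 1 ≃g H := FinalD_iso H 1 {x₀} (card_singleton x₀) (by
    intro x hx y hy
    rw [mem_singleton] at hx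
    subst hx
    exact hdom y hy)
  set I : Finset {x : W // ¬ x ∈ ({x₀} : Finset W)} :=
    univ.filter fun v => ∀ w, ¬ J.Adj v w with hIdef
  have hI : ∀ v ∈ I, ∀ w, ¬ J.Adj v w := fun v hv => (mem_filter.1 hv).2
  have hI' : ∀ v, v ∉ I → ∃ w, J.Adj v w := by
    intro v hv
    by_contra h
    push Not at h
    exact hv (mem_filter.2 ⟨mem_univ v, h⟩)
  have hIdeg : ∀ v : {x : W // ¬ x ∈ ({x₀} : Finset W)}, v ∉ I ↔ 1 < H.degree (v : W) := by
    intro v
    rw [← SFin_deg H x₀ hdom v]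
    constructor
    · intro hv
      exact hI' v hv
    · rintro ⟨w, hw⟩ hv
      exact hI v hv w hw
  have ei : H.comap (Subtype.val : {x : W // x ∉ ({x₀} : Finset W) ∧ 1 < H.degree x} → W) ≃g
      J.comap (Subtype.val : {v // v ∉ I} → {x : W // ¬ x ∈ ({x₀} : Finset W)}) :=
    { toFun := fun x => ⟨⟨x.1, x.2.1⟩, (hIdeg _).2 x.2.2⟩
      invFun := fun v => ⟨v.1.1, v.1.2, (hIdeg _).1 v.2⟩
      left_inv := fun x => rfl
      right_inv := fun v => rfl
      map_rel_iff' := by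
        intro a b
        exact Iff.rfl }
  have hc' : Nonempty {v // v ∉ I} →
      PairC (J.comap (Subtype.val : {v // v ∉ I} → {x : W // ¬ x ∈ ({x₀} : Finset W)})) 1 β ∧
      HubC (J.comap (Subtype.val : {v // v ∉ I} → {x : W // ¬ x ∈ ({x₀} : Finset W)})) 1 β := by
    rintro ⟨v⟩
    obtain ⟨h1, h2⟩ := hc ⟨ei.symm v⟩
    exact ⟨PairC_congr ei h1, HubC_congr ei h2⟩
  obtain ⟨R₀, hup⟩ := upperS0 J I hI hI' hβ hβ1 hc'
  obtain ⟨A, hA, hlab⟩ := labelled_eq_mul (jn J 1)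
  have hA' : (0 : ℝ) < A := by exact_mod_cast hA
  refine ⟨max R₀ 1, fun R r hR hr hcase => ?_⟩
  obtain ⟨hrR, m₀, hm₀⟩ := hup R r (le_trans (le_max_left _ _) hR) hr hcase
  have hR1 : 1 ≤ R := le_trans (le_max_right _ _) hR
  refine ⟨max m₀ 1, fun m hm => ?_⟩
  have hm1 : 1 ≤ m := le_trans (le_max_right _ _) hm
  have hr3 : r < R + 1 := by omega
  have hk : 0 < kc 1 (DL (R + 1) m r) := by
    rw [kc_one_DL]
    have : 0 < (R + 1) * m := Nat.mul_pos (by omega) hm1
    omega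
  have hk' : (0 : ℝ) < (kc 1 (DL (R + 1) m r) : ℝ) := by exact_mod_cast hk
  have hDL := FinalD_DL J I hI hI' hR1 hm1 hr3
  set Λ : ℝ := ((R * m + r - Fintype.card {v // v ∉ I}).descFactorial I.card : ℝ) *
    rhoG (J.comap (Subtype.val : {v // v ∉ I} → _)) 1 R r m with hΛ
  have hmain := lim_gen (jn J 1) (u := 1) (Δ := R * m + r) (ω := R + 1) le_rfl (by omega)
    (by
      rw [Fintype.card_congr e.toEquiv]
      exact Fintype.card_pos_iff.2 ⟨x₀⟩)
    (FinalD_cl (jn J 1)) (DL (R + 1) m r) (DL_allowed hR1 hm1 hr3) hk (by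
      intro n G hG
      have h := SFin_upper J I (hm₀ m (le_trans (le_max_left _ _) hm)) n G hG
      rw [hlab] at h hDL
      have h1 : (A : ℝ) * ((G.copyCount (jn J 1) : ℝ) * (kc 1 (DL (R + 1) m r) : ℝ)) ≤
          A * ((kc 1 G : ℝ) * ((DL (R + 1) m r).copyCount (jn J 1) : ℝ)) := by
        push_cast at h hDL
        calc (A : ℝ) * ((G.copyCount (jn J 1) : ℝ) * (kc 1 (DL (R + 1) m r) : ℝ))
            = (A * (G.copyCount (jn J 1) : ℝ)) * (kc 1 (DL (R + 1) m r) : ℝ) := by ring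
          _ ≤ (Λ * (kc 1 G : ℝ)) * (kc 1 (DL (R + 1) m r) : ℝ) :=
              mul_le_mul_of_nonneg_right h hk'.le
          _ = (kc 1 G : ℝ) * (Λ * (kc 1 (DL (R + 1) m r) : ℝ)) := by ring
          _ = (kc 1 G : ℝ) * (A * ((DL (R + 1) m r).copyCount (jn J 1) : ℝ)) := by rw [hDL]
          _ = _ := by ring
      have h2 := le_of_mul_le_mul_left h1 hA'
      exact_mod_cast h2)
  simp only [FinalD_copyCount_congr e, FinalD_exH_congr e] at hmain
  exact hmain

end H57GH
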