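import Pool.Agent.H57.GH.SPoint
import Pool.Agent.H57.GH.SCl
import Pool.Agent.H57.GH.LSumG

/-!
Project SH: sum of the light values (compare LSumG).
-/

namespace H57GH

open Finset H57LC H57LT

set_option linter.unusedSectionVars false

private lemma SLSum_ss_nonneg {V : Type*} [DecidableEq V] {G : SimpleGraph V} [DecidableRel G.Adj]
    {R : ℕ} (B : Fin R → Finset V) (f : Fin R → V) : 0 ≤ ss G B f := by
  unfold ss
  exact Finset.sum_nonneg fun i _ => Nat.cast_nonneg _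

private lemma SLSum_s2_nonneg {V : Type*} [DecidableEq V] {G : SimpleGraph V} [DecidableRel G.Adj]
    {R : ℕ} (B : Fin R → Finset V) (f : Fin R → V) : 0 ≤ s2 G B f := by
  unfold s2
  exact Finset.sum_nonneg fun i _ => Nat.cast_nonneg _


variable {ι : Type} [Fintype ι] [DecidableEq ι] (J : SimpleGraph ι) [DecidableRel J.Adj]

private lemma SLSum_sum_up {κ : Type*} [DecidableEq κ] {T : Finset κ} (a : κ → ℕ) {k : κ}
    (hk : k ∈ T) : ∑ l ∈ T, up a k l = ∑ l ∈ T, a l + 1 := by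
  have h1 : ∑ l ∈ T, up a k l = (a k + 1) + ∑ l ∈ T \ {k}, a l := by
    unfold up
    rw [Finset.sum_update_of_mem hk]
  have h2 : ∑ l ∈ T, a l = a k + ∑ l ∈ T \ {k}, a l := by
    rw [Finset.sdiff_singleton_eq_erase, Finset.add_sum_erase T a hk]
  omega

/-- growth of `fJ` -/
private lemma SLSum_grow {κ : Type*} [DecidableEq κ] {T : Finset κ} (b : κ → ℕ) (n : ℕ) :
    ∀ a : κ → ℕ, (∀ k ∈ T, a k ≤ b k) → ∑ k ∈ T, b k = ∑ k ∈ T, a k + n →
      (fJ J T b : ℝ) - fJ J T a ≤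
        (Fintype.card ι : ℝ) * (∑ k ∈ T, (b k : ℝ)) ^ (Fintype.card ι - 1) * n := by
  induction n with
  | zero =>
    intro a hab hs
    have h1 : ∀ k ∈ T, a k = b k :=
      (Finset.sum_eq_sum_iff_of_le hab).1 (by omega)
    rw [fJ_congr J h1]
    simp
  | succ n ih =>
    intro a hab hs
    have hlt : ∑ k ∈ T, a k < ∑ k ∈ T, b k := by omega
    obtain ⟨k, hk, hkab⟩ := Finset.exists_lt_of_sum_lt hlt
    have hab' : ∀ l ∈ T, up a k l ≤ b l := by
      intro l hl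
      unfold up
      by_cases hlk : l = k
      · subst hlk
        rw [Function.update_self]
        omega
      · rw [Function.update_of_ne hlk]
        exact hab l hl
    have h1 := ih (up a k) hab' (by rw [SLSum_sum_up a hk]; omega)
    have h2 := fJ_up_le J (a := a) hk
    have h3 : (∑ l ∈ T, (a l : ℝ)) ^ (Fintype.card ι - 1) ≤
        (∑ l ∈ T, (b l : ℝ)) ^ (Fintype.card ι - 1) := by
      refine pow_le_pow_left₀ (Finset.sum_nonneg fun _ _ => Nat.cast_nonneg _) ?_ _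
      exact Finset.sum_le_sum fun l hl => by exact_mod_cast hab l hl
    have h4 := mul_le_mul_of_nonneg_left h3 (Nat.cast_nonneg (Fintype.card ι) : (0 : ℝ) ≤ _)
    push_cast
    linarith

private lemma SLSum_fJ_le (R m : ℕ) (δ : ℝ) (hδ : 0 ≤ δ) (hδ1 : δ ≤ 1) (hcs : 1 ≤ Fintype.card ι)
    (a : Fin R → ℕ) (ha : ∀ i, (a i : ℝ) ≤ (1 + δ) * m) :
    (fJ J univ a : ℝ) ≤ M0 J R m +
      (Fintype.card ι : ℝ) * 2 ^ (Fintype.card ι - 1) * δ * ((R : ℝ) * m) ^ Fintype.card ι := by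
  set b : Fin R → ℕ := fun i => max (a i) m with hb
  have hbm : ∀ i, (b i : ℝ) ≤ (1 + δ) * m := by
    intro i
    rw [hb]
    simp only [Nat.cast_max]
    refine max_le (ha i) ?_
    have : 0 ≤ δ * m := mul_nonneg hδ (Nat.cast_nonneg m)
    linarith
  have hsumb : ∑ i, (b i : ℝ) ≤ R * ((1 + δ) * m) := by
    refine (Finset.sum_le_sum fun i _ => hbm i).trans (le_of_eq ?_)
    rw [Finset.sum_const, card_univ, Fintype.card_fin, nsmul_eq_mul]
  have h1 : (fJ J univ a : ℝ) ≤ fJ J univ b := by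
    exact_mod_cast fJ_mono J (T := univ) (fun k _ => le_max_left (a k) m)
  have hsum : ∑ k : Fin R, b k = ∑ _k : Fin R, m + (∑ k : Fin R, b k - ∑ _k : Fin R, m) := by
    have : ∑ _k : Fin R, m ≤ ∑ k : Fin R, b k :=
      Finset.sum_le_sum fun k _ => le_max_right (a k) m
    omega
  have h2 := SLSum_grow J (T := univ) b _ (fun _ => m) (fun k _ => le_max_right (a k) m) hsum
  have h3 : ((∑ k : Fin R, b k - ∑ _k : Fin R, m : ℕ) : ℝ) ≤ R * (δ * m) := by
    have h4 : (∑ k : Fin R, b k : ℕ) = ((∑ _k : Fin R, m : ℕ)) +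
      (∑ k : Fin R, b k - ∑ _k : Fin R, m) := hsum
    have h5 : ((∑ k : Fin R, b k : ℕ) : ℝ) = ((∑ _k : Fin R, m : ℕ) : ℝ) +
      ((∑ k : Fin R, b k - ∑ _k : Fin R, m : ℕ) : ℝ) := by exact_mod_cast h4
    have h6 : ((∑ _k : Fin R, m : ℕ) : ℝ) = R * m := by
      rw [Finset.sum_const, card_univ, Fintype.card_fin, smul_eq_mul]
      push_cast
      ring
    have h7 : ((∑ k : Fin R, b k : ℕ) : ℝ) = ∑ k : Fin R, (b k : ℝ) := by push_cast; rfl
    rw [h6, h7] at h5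
    linarith only [hsumb, h5]
  have hm0 : (0 : ℝ) ≤ (R : ℝ) * m := by positivity
  have h8 : (∑ k : Fin R, (b k : ℝ)) ^ (Fintype.card ι - 1) ≤
      (2 * ((R : ℝ) * m)) ^ (Fintype.card ι - 1) := by
    refine pow_le_pow_left₀ (Finset.sum_nonneg fun _ _ => Nat.cast_nonneg _) ?_ _
    have h9 : (1 + δ) * ((R : ℝ) * m) ≤ 2 * ((R : ℝ) * m) :=
      mul_le_mul_of_nonneg_right (by linarith) hm0
    linarith
  have h10 : (Fintype.card ι : ℝ) * (∑ k : Fin R, (b k : ℝ)) ^ (Fintype.card ι - 1) *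
      ((∑ k : Fin R, b k - ∑ _k : Fin R, m : ℕ) : ℝ) ≤
      (Fintype.card ι : ℝ) * (2 * ((R : ℝ) * m)) ^ (Fintype.card ι - 1) * (R * (δ * m)) := by
    refine mul_le_mul (mul_le_mul_of_nonneg_left h8 (Nat.cast_nonneg _)) h3 (Nat.cast_nonneg _) ?_
    positivity
  have h11 : (Fintype.card ι : ℝ) * (2 * ((R : ℝ) * m)) ^ (Fintype.card ι - 1) * (R * (δ * m)) =
      (Fintype.card ι : ℝ) * 2 ^ (Fintype.card ι - 1) * δ * ((R : ℝ) * m) ^ Fintype.card ι := by
    obtain ⟨k, hk⟩ : ∃ k, Fintype.card ι = k + 1 := ⟨Fintype.card ι - 1, by omega⟩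
    rw [hk]
    simp only [Nat.add_sub_cancel]
    rw [mul_pow]
    ring
  have h12 : (fJ J (univ : Finset (Fin R)) (fun _ => m) : ℝ) = M0 J R m := rfl
  rw [h12] at h2
  linarith

theorem light_sumS (hd : ∀ v, 1 ≤ dg J univ v) (hcs : 2 ≤ Fintype.card ι) (R r : ℕ) (hR : 3 ≤ R)
    (CB C η₁ ε₇ ε₉ : ℝ) (hC : 0 < C) (hη₁ : 0 < η₁)
    (hM : ∀ m : ℕ, 1 ≤ m → ((R : ℝ) * m) ^ Fintype.card ι ≤ 2 * M0 J R m)
    (hε9 : 0 < ε₉) (hε91 : ε₉ ≤ 1)
    (hη : 4096 * (Fintype.card ι : ℝ) ^ 4 * R ^ 4 * η₁ ≤ ε₉) (hε : 0 < ε₇) :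
    ∃ δ₀ : ℝ, 0 < δ₀ ∧ ∀ δ : ℝ, 0 < δ → δ ≤ δ₀ → ∃ m₀ : ℕ, ∀ m : ℕ, m₀ ≤ m →
      ∀ kt : ℕ → ℝ, (∀ j ≤ R, 0 ≤ kt j) → (∀ j ≤ R, kt j ≤ (Fintype.card ι : ℝ) / R) →
      ((Fintype.card ι : ℝ) / R - kt 2 + ((Fintype.card ι : ℝ) + 4) * ε₉ *
        ((Fintype.card ι : ℝ) / (R * (R - 1))) ≤ (oe J : ℝ) / (2 * (R * (R - 1)))) →
      ∀ (V : Type) [DecidableEq V] (G : SimpleGraph V) [DecidableRel G.Adj] (S : Finset V)
        (B : Fin R → Finset V) (ρ : ℝ) (X : Finset V → ℝ), (∀ T, 0 ≤ X T) →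
        S.card ≤ R * m + r → LS G S R m C η₁ δ B → M0 J R m ≤ ρ →
        ρ ≤ M0 J R m * (1 + CB / m) →
        ((emb J G (un B)).card : ℝ) - ρ ≤ ∑ f ∈ tcl G B, lzK G J S R m kt ρ X (im f) -
          (1 - ε₇) * M0 J R m * (∑ f ∈ tcl G B, (∑ z ∈ S \ un B,
            xzK G R (Fintype.card ι) kt f z + X (im f))) / (m * ∏ l, ((B l).card : ℝ)) := by
  set s : ℝ := (Fintype.card ι : ℝ) with hs
  have hs2 : (2 : ℝ) ≤ s := by rw [hs]; exact_mod_cast hcs
  have hR3 : (3 : ℝ) ≤ R := by exact_mod_cast hR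
  have hRR : (0 : ℝ) < R * (R - 1) := mul_pos (by linarith) (by linarith)
  set γ : ℝ := s / (R * (R - 1)) with hγ
  have hγ0 : 0 < γ := by
    rw [hγ]
    exact div_pos (by linarith) hRR
  have hpw1 : (1 : ℝ) ≤ s ^ 2 := one_le_pow₀ (by linarith only [hs2])
  have hη' : 4096 * s ^ 2 * R ^ 4 * η₁ ≤ ε₉ := by
    have h1 : s ^ 2 * (R ^ 4 * η₁) ≤ s ^ 4 * (R ^ 4 * η₁) := by
      refine mul_le_mul_of_nonneg_right ?_ (by positivity)
      exact pow_le_pow_right₀ (by linarith only [hs2]) (by norm_num)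
    linarith only [hη, h1]
  -- the number of ordered adjacent pairs
  have hoe : (oe J : ℝ) ≤ s ^ 2 := by
    have h1 : oe J ≤ Fintype.card ι * Fintype.card ι := by
      unfold oe
      refine (Finset.card_filter_le _ _).trans ?_
      rw [card_univ, Fintype.card_prod]
    have h2 : (oe J : ℝ) ≤ (Fintype.card ι : ℝ) * Fintype.card ι := by exact_mod_cast h1
    rw [hs, pow_two]
    exact h2
  set w : ℝ := (oe J : ℝ) / (R * (R - 1)) with hw
  have hwγ : w ≤ s * γ := by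
    have h1 : s * γ = s ^ 2 / (R * (R - 1)) := by
      rw [hγ, pow_two, mul_div_assoc]
    rw [h1, hw]
    exact div_le_div_of_nonneg_right hoe hRR.le
  have hw2 : (oe J : ℝ) / (2 * (R * (R - 1))) = w / 2 := by
    rw [hw, div_div, mul_comm (2 : ℝ)]
  obtain ⟨δ₁, hδ₁, hpoint⟩ := pointS J hcs R r hR CB C η₁ ε₇ ε₉ hC hη₁ hM hε9 hε91 hη' hε
  obtain ⟨δ₂, hδ₂, hcl⟩ := card_emb_un_leS J hd hcs R r hR C η₁ ε₉ hC hη₁ hM hε9 hε91 hη
  set K : ℝ := s * 2 ^ (Fintype.card ι - 1) with hK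
  have hK0 : 0 < K := by
    rw [hK]
    positivity
  refine ⟨min (min δ₁ δ₂) (min (ε₉ / (4 * R)) (ε₉ * γ / (64 * K))), ?_, ?_⟩
  · refine lt_min (lt_min hδ₁ hδ₂) (lt_min (by positivity) ?_)
    positivity
  intro δ hδ hδ0
  have hδa : δ ≤ δ₁ := hδ0.trans ((min_le_left _ _).trans (min_le_left _ _))
  have hδb : δ ≤ δ₂ := hδ0.trans ((min_le_left _ _).trans (min_le_right _ _))
  have hδc : δ ≤ ε₉ / (4 * R) := hδ0.trans ((min_le_right _ _).trans (min_le_left _ _))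
  have hδd : δ ≤ ε₉ * γ / (64 * K) := hδ0.trans ((min_le_right _ _).trans (min_le_right _ _))
  have hδR : 4 * R * δ ≤ ε₉ := by
    rw [le_div_iff₀ (by positivity)] at hδc
    linarith
  have hδ12 : δ ≤ 1 / 12 := by
    have h1 : 12 * δ ≤ 4 * R * δ := mul_le_mul_of_nonneg_right (by linarith) hδ.le
    linarith
  have hδK : K * δ ≤ ε₉ * γ / 64 := by
    have h1 := mul_le_mul_of_nonneg_left hδd hK0.le
    have h2 : K * (ε₉ * γ / (64 * K)) = ε₉ * γ / 64 := by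
      field_simp
    linarith only [h1, h2]
  obtain ⟨m₁, hm₁⟩ := hpoint δ hδ hδa
  obtain ⟨m₂, hm₂⟩ := hcl δ hδ hδb
  refine ⟨max (max m₁ m₂) 1, ?_⟩
  intro m hm kt hkt0 hkt1 hkt2 V _ G _ S B ρ X hX0 hS h hρ1 hρ2
  have hpt := hm₁ m ((le_max_left _ _).trans ((le_max_left _ _).trans hm)) kt hkt0 hkt1 V G S B ρ X
    hS h hρ1 hρ2
  have hemb := hm₂ m ((le_max_right _ _).trans ((le_max_left _ _).trans hm)) V G S B hS h
  have hm1 : 0 < m := lt_of_lt_of_le Nat.one_pos ((le_max_right _ _).trans hm)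
  have hm0 : (0 : ℝ) < m := by exact_mod_cast hm1
  have hδ2 : δ ≤ 1 / 2 := by linarith only [hδ, hδ12]
  set P : ℝ := ∏ l, ((B l).card : ℝ) with hP
  have hPpos : 0 < P := by
    rw [hP]
    refine Finset.prod_pos fun l _ => ?_
    have h3 := h.size_lo l
    have h4 : (1 / 2 : ℝ) * m ≤ (1 - δ) * m := mul_le_mul_of_nonneg_right (by linarith only [hδ,
        hδ12]) hm0.le
    linarith only [hm0, h3, h4]
  have hM0 := hM m hm1
  set N : ℝ := M0 J R m with hN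
  have hN0 : 0 ≤ N := by
    rw [hN, M0]
    positivity
  set D : ℝ := ∑ f ∈ Fintype.piFinset B, DD G f with hD
  have hD0 : 0 ≤ D := Finset.sum_nonneg fun f _ => DD_nonneg f
  set Y : ℝ := ∑ f ∈ tcl G B, (∑ z ∈ S \ un B, xzK G R (Fintype.card ι) kt f z + X (im f)) with hY
  set E : ℝ := (fJ J univ (fun i => (B i).card) : ℝ) with hE
  set a2 : ℝ := s / R - kt 2 with ha2
  have ha20 : 0 ≤ a2 := by
    have h1 := hkt1 2 (by omega)
    rw [ha2]
    linarith only [h1]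
  have ha2R : a2 ≤ γ * R := by
    have h1 := hkt0 2 (by omega)
    have h2 : s / R ≤ γ * R := by
      rw [hγ, div_mul_eq_mul_div, div_le_div_iff₀ (by linarith only [hR3, hδ, hδ12]) hRR]
      have h3 : (0 : ℝ) ≤ s * R := by positivity
      linarith only [h3]
    rw [ha2]
    linarith only [h1, h2]
  have hsub : tcl G B ⊆ Fintype.piFinset B := by
    unfold tcl
    exact filter_subset _ _
  have hss : ∑ f ∈ tcl G B, ss G B f ≤ (1 + δ) * m * D :=
    (Finset.sum_le_sum_of_subset_of_nonneg hsub fun f _ _ => SLSum_ss_nonneg B f).trans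
      (sum_ss_le h)
  have hs2' : ∑ f ∈ tcl G B, s2 G B f ≤ 4 * η₁ * R * m * D :=
    (Finset.sum_le_sum_of_subset_of_nonneg hsub fun f _ _ => SLSum_s2_nonneg B f).trans
      (sum_s2_le h hη₁.le hδ2 hδ.le hm1)
  have hcardlo : P - (1 / 2) * D ≤ ((tcl G B).card : ℝ) := card_tcl_ge B
  have hcardhi : ((tcl G B).card : ℝ) ≤ P := by
    have h1 : (tcl G B).card ≤ (Fintype.piFinset B).card := Finset.card_le_card hsub
    rw [Fintype.card_piFinset] at h1
    rw [hP]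
    exact_mod_cast h1
  -- `E - ρ` is small
  have hEρ : E - ρ ≤ N * (ε₉ * γ / 32) := by
    have h1 := SLSum_fJ_le J R m δ hδ.le (by linarith only [hδ,
        hδ12]) (by omega) (fun i => (B i).card)
      (fun i => h.size_hi i)
    rw [← hE, ← hN, ← hs] at h1
    have h2 : s * 2 ^ (Fintype.card ι - 1) * δ * ((R : ℝ) * m) ^ Fintype.card ι ≤
        K * δ * (2 * N) := by
      rw [hK]
      exact mul_le_mul_of_nonneg_left hM0 (by positivity)
    have h3 : K * δ * (2 * N) ≤ ε₉ * γ / 64 * (2 * N) :=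
      mul_le_mul_of_nonneg_right hδK (by linarith only [hN0])
    linarith only [hρ1, h1, h2, h3]
  have hdiff : (P - ((tcl G B).card : ℝ)) * (E - ρ) ≤ (1 / 2 * D) * (N * (ε₉ * γ / 32)) := by
    have h1 : 0 ≤ P - ((tcl G B).card : ℝ) := by linarith only [hcardhi]
    have h2 : P - ((tcl G B).card : ℝ) ≤ 1 / 2 * D := by linarith only [hcardlo]
    have h3 : 0 ≤ N * (ε₉ * γ / 32) := by positivity
    exact (mul_le_mul_of_nonneg_left hEρ h1).trans (mul_le_mul_of_nonneg_right h2 h3)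
  -- the sum of the pointwise bounds
  have hsum : ((tcl G B).card : ℝ) * (E - ρ) -
      N / m * ((a2 + ε₉ * γ) * (∑ f ∈ tcl G B, ss G B f) +
        s * ∑ f ∈ tcl G B, s2 G B f) + (1 - ε₇) * (N / m) * Y ≤
      P * ∑ f ∈ tcl G B, lzK G J S R m kt ρ X (im f) := by
    have h1 := Finset.sum_le_sum fun f hf => hpt f hf (hX0 _)
    rw [← Finset.mul_sum] at h1
    refine (le_of_eq ?_).trans h1
    rw [Finset.sum_add_distrib, Finset.sum_sub_distrib, Finset.sum_const, nsmul_eq_mul,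
      ← Finset.mul_sum, ← Finset.mul_sum, Finset.sum_add_distrib, ← Finset.mul_sum,
      ← Finset.mul_sum]
  have hcost : N / m * ((a2 + ε₉ * γ) * (∑ f ∈ tcl G B, ss G B f) +
        s * ∑ f ∈ tcl G B, s2 G B f) ≤
      N * D * ((a2 + ε₉ * γ) * (1 + δ) + 4 * s * η₁ * R) := by
    have h1 := mul_le_mul_of_nonneg_left hss (by positivity : 0 ≤ a2 + ε₉ * γ)
    have h1' := mul_le_mul_of_nonneg_left hs2' (by linarith only [hs2, hδ, hδ12] : 0 ≤ s)
    have h2 : (a2 + ε₉ * γ) * (∑ f ∈ tcl G B, ss G B f) +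
        s * ∑ f ∈ tcl G B, s2 G B f ≤
        m * (D * ((a2 + ε₉ * γ) * (1 + δ) + 4 * s * η₁ * R)) := by
      calc _ ≤ (a2 + ε₉ * γ) * ((1 + δ) * m * D) + s * (4 * η₁ * R * m * D) := by
            linarith only [h1, h1']
        _ = _ := by ring
    have h3 : 0 ≤ N / m := by positivity
    refine (mul_le_mul_of_nonneg_left h2 h3).trans (le_of_eq ?_)
    field_simp
  have hη4 : 4 * s * η₁ * R ≤ ε₉ * γ / 64 := by
    have h1 : ε₉ * γ / 64 = ε₉ * s / (64 * (R * (R - 1))) := by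
      rw [hγ]
      field_simp
    have hRR' : (0 : ℝ) < 64 * (R * (R - 1)) := mul_pos (by norm_num) hRR
    rw [h1, le_div_iff₀ hRR']
    have h2 : (R : ℝ) * (R * (R - 1)) ≤ R ^ 4 := by
      have h5 : (R : ℝ) * (R * (R - 1)) ≤ R * (R * R) :=
        mul_le_mul_of_nonneg_left (mul_le_mul_of_nonneg_left (by linarith only [hδ,
            hδ12]) (by linarith only [hR3, hδ, hδ12]))
          (by linarith only [hR3, hδ, hδ12])
      have h6 : (R : ℝ) ^ 3 ≤ R ^ 4 := pow_le_pow_right₀ (by linarith only [hR3, hδ,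
          hδ12]) (by norm_num)
      linarith only [h5, h6]
    have h3 : η₁ * ((R : ℝ) * (R * (R - 1))) ≤ η₁ * R ^ 4 := mul_le_mul_of_nonneg_left h2 hη₁.le
    have h4 : 4096 * (R : ℝ) ^ 4 * η₁ ≤ 4096 * s ^ 2 * R ^ 4 * η₁ := by
      have h7 : 1 * ((R : ℝ) ^ 4 * η₁) ≤ s ^ 2 * (R ^ 4 * η₁) :=
        mul_le_mul_of_nonneg_right hpw1 (by positivity)
      linarith only [h7]
    have h8 : 256 * (η₁ * ((R : ℝ) * (R * (R - 1)))) ≤ ε₉ := by
      linarith only [h3, h4, hη', hε9]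
    calc 4 * s * η₁ * R * (64 * (R * (R - 1)))
        = s * (256 * (η₁ * ((R : ℝ) * (R * (R - 1))))) := by ring
      _ ≤ s * ε₉ := mul_le_mul_of_nonneg_left h8 (by linarith only [hs2, hδ, hδ12])
      _ = ε₉ * s := mul_comm _ _
  have hcoef0 : ε₉ * γ / 64 + (a2 + ε₉ * γ) * (1 + δ) + 4 * s * η₁ * R ≤ (1 - ε₉) / 2 * w := by
    have hkt2' : a2 + (s + 4) * ε₉ * γ ≤ w / 2 := by
      rw [← hw2]
      exact hkt2
    have h1 : a2 * δ ≤ ε₉ * γ / 4 := by
      have h2 : a2 * δ ≤ γ * R * δ := mul_le_mul_of_nonneg_right ha2R hδ.le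
      have h3 : γ * (4 * R * δ) ≤ γ * ε₉ := mul_le_mul_of_nonneg_left hδR hγ0.le
      linarith only [h2, h3]
    have h2 : ε₉ * γ * δ ≤ ε₉ * γ := by
      have h3 := mul_le_mul_of_nonneg_left (show δ ≤ 1 by linarith only [hδ,
          hδ12]) (by positivity : 0 ≤ ε₉ * γ)
      linarith only [h3]
    have h3 : ε₉ * w ≤ ε₉ * (s * γ) := mul_le_mul_of_nonneg_left hwγ hε9.le
    have h4 : 0 < ε₉ * γ := by positivity
    have h5 : 2 * (ε₉ * γ) ≤ s * (ε₉ * γ) := mul_le_mul_of_nonneg_right hs2 h4.le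
    linarith only [hη4, hkt2', h1, h2, h3, h4, h5]
  have hcoef := mul_le_mul_of_nonneg_left hcoef0 (mul_nonneg hN0 hD0)
  have htot : P * (((emb J G (un B)).card : ℝ) - ρ) ≤
      P * (∑ f ∈ tcl G B, lzK G J S R m kt ρ X (im f)) - (1 - ε₇) * (N / m) * Y := by
    have h1 : P * (((emb J G (un B)).card : ℝ) - ρ) ≤
        P * (E - ρ) - N * ((1 - ε₉) / 2 * w) * D := by
      have h2 := mul_le_mul_of_nonneg_left hemb hPpos.le
      have h3 : P * (E - N * ((1 - ε₉) / 2 * w) * D / P) =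
          P * E - N * ((1 - ε₉) / 2 * w) * D := by
        field_simp
      rw [h3] at h2
      linarith only [h2]
    have h4 : N * D * (ε₉ * γ / 64 + (a2 + ε₉ * γ) * (1 + δ) + 4 * s * η₁ * R) =
        (1 / 2 * D) * (N * (ε₉ * γ / 32)) +
          N * D * ((a2 + ε₉ * γ) * (1 + δ) + 4 * s * η₁ * R) := by ring
    rw [h4] at hcoef
    have h5 : N * D * ((1 - ε₉) / 2 * w) = N * ((1 - ε₉) / 2 * w) * D := by ring
    rw [h5] at hcoef
    have h6 : (P - ((tcl G B).card : ℝ)) * (E - ρ) =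
        P * (E - ρ) - ((tcl G B).card : ℝ) * (E - ρ) := by ring
    rw [h6] at hdiff
    linarith only [hdiff, hsum, hcost, hcoef, h1]
  have hfin : ∑ f ∈ tcl G B, lzK G J S R m kt ρ X (im f) -
      (1 - ε₇) * N * Y / (m * P) =
      (P * (∑ f ∈ tcl G B, lzK G J S R m kt ρ X (im f)) -
        (1 - ε₇) * (N / m) * Y) / P := by
    field_simp
  rw [hfin, le_div_iff₀ hPpos]
  calc _ = P * (((emb J G (un B)).card : ℝ) - ρ) := by ring
    _ ≤ _ := htot

end H57GH
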