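import Pool.Agent.H57.GH.SNon
import Pool.Agent.H57.GH.UpA

/-!
Project SH: local theorem for the sets with few edges (compare UpA.localA).
-/

namespace H57GH

open Finset H57LC H57LT

set_option linter.unusedSectionVars false

variable {ι : Type} [Fintype ι] [DecidableEq ι] (J : SimpleGraph ι) [DecidableRel J.Adj]

private theorem SLocA_pow {R m : ℕ} (hm : 2 * R ≤ m) (hR : 1 ≤ R) :
    ((m : ℝ) + 1) ^ R ≤ 2 * (m : ℝ) ^ R := by
  have hm0 : (0 : ℝ) < m := by exact_mod_cast (by omega : 0 < m)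
  have h1 : ((m : ℝ) + 1) ^ R = (m : ℝ) ^ R * (1 + 1 / m) ^ R := by
    rw [← mul_pow]
    congr 1
    field_simp
  have h2 : (1 + 1 / (m : ℝ)) ^ R ≤ 2 := by
    have h3 : 1 + 1 / (m : ℝ) ≤ Real.exp (1 / m) := by
      have := Real.add_one_le_exp (1 / (m : ℝ))
      linarith
    have h4 : (1 + 1 / (m : ℝ)) ^ R ≤ Real.exp (1 / m) ^ R :=
      pow_le_pow_left₀ (by positivity) h3 R
    rw [← Real.exp_nat_mul] at h4
    refine h4.trans ?_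
    have h5 : (R : ℝ) * (1 / m) ≤ 1 / 2 := by
      rw [mul_one_div, div_le_div_iff₀ hm0 (by norm_num)]
      have : (2 : ℝ) * R ≤ m := by exact_mod_cast hm
      linarith
    refine (Real.exp_le_exp.2 h5).trans ?_
    have h6 : Real.exp (1 / 2) ^ 2 ≤ 2 ^ 2 := by
      rw [← Real.exp_nat_mul]
      have h7 : ((2 : ℕ) : ℝ) * (1 / 2) = 1 := by norm_num
      rw [h7]
      have := Real.exp_one_lt_d9
      linarith
    exact le_of_sq_le_sq h6 (by norm_num)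
  rw [h1]
  have h3 : 0 ≤ (m : ℝ) ^ R := by positivity
  nlinarith only [h2, h3]

theorem localAS [Nonempty ι] (hd : ∀ v, 1 ≤ dg J univ v) (hcs : 2 ≤ Fintype.card ι) (u : ℕ)
    (x₀ ε₄ : ℝ) (hx : 0 < x₀) (hx1 : x₀ ≤ 1 / 4) (hε₄ : 0 < ε₄) (hε₄1 : ε₄ ≤ 1) :
    ∃ R₀ : ℕ, 2 ≤ R₀ ∧ ∀ R : ℕ, R₀ ≤ R → ∀ r : ℕ, r ≤ R → ∀ q : ℕ,
    (∀ v, 1 + q ≤ dg J univ v) → ∀ C₁ : ℝ, 0 < C₁ →
    ∃ CB₀ : ℝ, 0 < CB₀ ∧ ∀ CB : ℝ, CB₀ ≤ CB → ∃ m₀ : ℕ, ∀ m : ℕ, m₀ ≤ m → ∀ θ : ℝ, 0 ≤ θ →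
    (4 * (u : ℝ) * Fintype.card ι + 4) * θ ≤ 1 → ∀ Φ : ℝ → ℝ,
    (∀ y, θ ≤ y → y ≤ 1 - x₀ → 0 ≤ Φ y ∧ y ^ rk J + Φ y ≤ 1 - ε₄) →
    ∀ (V : Type) [DecidableEq V] (G : SimpleGraph V) [DecidableRel G.Adj] (S : Finset V)
      (ρ g₁ g₂ : ℝ), S.card ≤ R * m + r → clq G S (R + 1) = ∅ → ¬ TyB G S R m CB →
      M0 J R m ≤ ρ →
      g₁ ≤ u * ∑ x ∈ vh G S R m θ, PiW (Fintype.card ι) q ((R : ℝ) * m + r) (dg G S x) →
      g₂ ≤ ((R : ℝ) * m) ^ (Fintype.card ι - 1) *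
        ∑ x ∈ midS G S R m θ x₀, Φ ((dg G S x : ℝ) / (R * m)) →
      ∃ z : Finset V → ℝ, ((emb J G S).card : ℝ) - ρ + g₁ + g₂ ≤ ∑ T ∈ clq G S R, z T ∧
        ∀ T ∈ clq G S R, z T ≤ -(C₁ / m) * (M0 J R m / (m : ℝ) ^ R) := by
  obtain ⟨R₀, hR₀, hnon⟩ := nonS J hd hcs u x₀ ε₄ hx hx1 hε₄ hε₄1
  refine ⟨R₀, hR₀, fun R hR r hr q hq C₁ hC₁ => ?_⟩
  obtain ⟨CB₀, hCB₀, m₁, hm₁⟩ := hnon R hR r hr C₁ hC₁
  refine ⟨CB₀, hCB₀, fun CB hCB => ⟨max m₁ (2 * R), fun m hm θ hθ hθ1 Φ hΦ V _ G _ S ρ g₁ g₂ hS hfree hT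
    hρ hg₁ hg₂ => ?_⟩⟩
  have hm1 : m₁ ≤ m := (le_max_left _ _).trans hm
  have hm2 : 2 * R ≤ m := (le_max_right _ _).trans hm
  have hR2 : 2 ≤ R := hR₀.trans hR
  have hm0 : (0 : ℝ) < m := by exact_mod_cast (by omega : 0 < m)
  have hR0 : (0 : ℝ) < R := by exact_mod_cast (by omega : 0 < R)
  have hT' : ¬ TyB G S R m CB₀ := by
    intro h
    apply hT
    unfold TyB at h ⊢
    refine lt_of_le_of_lt ?_ h
    apply mul_le_mul_of_nonneg_right _ (by positivity)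
    have : CB₀ / m ≤ CB / m := div_le_div_of_nonneg_right hCB hm0.le
    linarith only [this]
  have hmain := hm₁ m hm1 θ hθ hθ1 Φ hΦ V G S hS hfree hT'
  have hM0 : 0 ≤ M0 J R m := by unfold M0; positivity
  refine ⟨fun _ => -(C₁ / m) * (M0 J R m / (m : ℝ) ^ R), ?_, fun T _ => le_rfl⟩
  rw [sum_const, nsmul_eq_mul]
  -- number of cliques
  have hk : ((clq G S R).card : ℝ) ≤ 2 * (m : ℝ) ^ R := by
    have h1 := clq_le (G := G) (S := S) (R := R) (by omega) hfree (j := R) le_rfl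
    rw [Nat.choose_self, Nat.cast_one, one_mul] at h1
    refine h1.trans (le_trans ?_ (SLocA_pow hm2 (by omega)))
    apply pow_le_pow_left₀ (by positivity)
    rw [div_le_iff₀ hR0]
    have h2 : (S.card : ℝ) ≤ R * m + r := by exact_mod_cast hS
    have h3 : (r : ℝ) ≤ R := by exact_mod_cast hr
    linarith only [h2, h3]
  have hcq : 2 + q ≤ Fintype.card ι := two_le_card J hq
  -- the reserve
  have hn0 : (0 : ℝ) ≤ (R : ℝ) * m + r := by positivity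
  have hPi : ∀ x ∈ vh G S R m θ, PiW (Fintype.card ι) q ((R : ℝ) * m + r) (dg G S x) ≤
      2 * Fintype.card ι * ((R : ℝ) * m + r) ^ (Fintype.card ι - 2) * (dg G S x : ℝ) := by
    intro x _
    unfold PiW
    have hdx : (dg G S x : ℝ) ≤ (R : ℝ) * m + r := by
      have h1 : dg G S x ≤ S.card := card_filter_le _ _
      exact_mod_cast h1.trans hS
    have h1 : ((dg G S x : ℝ)) ^ q ≤ ((R : ℝ) * m + r) ^ q :=
      pow_le_pow_left₀ (by positivity) hdx q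
    have h2 : ((R : ℝ) * m + r) ^ (Fintype.card ι - 2) =
        ((R : ℝ) * m + r) ^ q * ((R : ℝ) * m + r) ^ (Fintype.card ι - 2 - q) := by
      rw [← pow_add]
      congr 1
      omega
    rw [h2, pow_add, pow_one]
    have h3 : 0 ≤ 2 * (Fintype.card ι : ℝ) * (dg G S x : ℝ) *
        ((R : ℝ) * m + r) ^ (Fintype.card ι - 2 - q) := by positivity
    nlinarith only [mul_le_mul_of_nonneg_left h1 h3, hx, hx1, h1, h3]
  have hg2 : g₁ ≤ 2 * u * Fintype.card ι * ((R : ℝ) * m + r) ^ (Fintype.card ι - 2) *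
      ∑ z ∈ vh G S R m θ, (dg G S z : ℝ) := by
    refine hg₁.trans ?_
    have h1 := sum_le_sum hPi
    rw [← mul_sum] at h1
    have h2 := mul_le_mul_of_nonneg_left h1 (Nat.cast_nonneg u (α := ℝ))
    refine h2.trans (le_of_eq ?_)
    ring
  have h5 : ((emb J G S).card : ℝ) - ρ + g₁ + g₂ ≤ -(2 * C₁ / m) * M0 J R m := by
    have h6 : (1 - 2 * C₁ / m) * M0 J R m = M0 J R m - (2 * C₁ / m) * M0 J R m := by ring
    rw [h6] at hmain
    unfold lhsN at hmain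
    linarith only [hρ, hg₂, hmain, hg2]
  refine h5.trans ?_
  have h7 : 0 ≤ (C₁ / m) * (M0 J R m / (m : ℝ) ^ R) := by positivity
  have h8 : ((clq G S R).card : ℝ) * ((C₁ / m) * (M0 J R m / (m : ℝ) ^ R)) ≤
      2 * (m : ℝ) ^ R * ((C₁ / m) * (M0 J R m / (m : ℝ) ^ R)) :=
    mul_le_mul_of_nonneg_right hk h7
  have h9 : 2 * (m : ℝ) ^ R * ((C₁ / m) * (M0 J R m / (m : ℝ) ^ R)) =
      (2 * C₁ / m) * M0 J R m := by
    field_simp
  rw [h9] at h8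
  linarith only [h8]

end H57GH
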