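import Pool.Agent.H57.GH.SCore

/-!
Project SH: the local theorem for sets with many edges (compare LocalB.localB).
-/

namespace H57GH

open Finset H57LC H57LT

set_option linter.unusedSectionVars false

variable {ι : Type} [Fintype ι] [DecidableEq ι] (J : SimpleGraph ι) [DecidableRel J.Adj]

theorem localSN [Nonempty ι] (d : ℕ) (hd1 : 1 ≤ d) (hd : ∀ v, d ≤ dg J univ v) {u : ℕ}
    (hu : 1 ≤ u) {β : ℝ} (hβ : 0 < β) (hβ1 : β < 1) (hp : PairC J u β) :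
    ∃ x₀ : ℝ, 0 < x₀ ∧ x₀ ≤ 1 / 4 ∧ ∀ θ ε₃ : ℝ, 0 < θ → θ ≤ 1 / 4 → 0 < ε₃ → ε₃ ≤ 1 →
    ∃ ε₀ : ℝ, 0 < ε₀ ∧ ε₀ ≤ 1 ∧ ∃ R₀ : ℕ, 3 ≤ R₀ ∧ ∀ R r q κ₀ : ℕ, R₀ ≤ R → r ≤ R →
    q + 1 ≤ d → 16 * ((κ₀ : ℝ) + 1) * θ ≤ 1 → ∀ C₁ CB C₆ ζ ε₈ : ℝ, 0 < C₁ → 0 < CB →
    0 < C₆ → 0 < ζ → ζ ≤ 1 → 0 < ε₈ → ε₈ < 1 → ∃ m₀ : ℕ, ∀ m : ℕ, m₀ ≤ m →
      ∀ (V : Type) [DecidableEq V] (G : SimpleGraph V) [DecidableRel G.Adj] (S : Finset V)
        (ρ Γ : ℝ), S.card ≤ R * m + r → clq G S (R + 1) = ∅ → TyB G S R m CB →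
        M0 J R m ≤ ρ → ρ ≤ M0 J R m * (1 + CB / m) → 0 ≤ Γ →
        Γ ≤ C₆ * (m : ℝ) ^ (Fintype.card ι - 2 - q) → (¬ Slack G S R m θ κ₀ → Γ = 0) →
        ∃ z : Finset V → ℝ,
          ((emb J G (S \ vh G S R m θ)).card : ℝ) - ρ + Γ ≤ ∑ T ∈ clq G S R, z T +
            ∑ y ∈ (vh G S R m θ).filter (fun y => d ≤ dg G S y),
              (dg G S y : ℝ) ^ (1 + q) * (m : ℝ) ^ (Fintype.card ι - 2 - q) +
            ∑ y ∈ midS G S R m θ x₀, PiM J R m u β ε₃ (dg G S y) ∧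
          ∀ T ∈ clq G S R, z T ≤ -(C₁ / m) * (M0 J R m / (m : ℝ) ^ R) ∨
            ((∀ t ∈ T, (1 - ε₈) * m ≤ (aa G S T t : ℝ)) ∧
              z T ≤ lzK G J S R m (ktS R (Fintype.card ι) u β ε₀) ρ
                (fun T => ζ * ((m : ℝ)⁻¹) ^ q * nuG G S κ₀ T) T) := by
  have hd' : ∀ v, 1 ≤ dg J univ v := fun v => hd1.trans (hd v)
  have hcs : 2 ≤ Fintype.card ι := two_le_card J (q := 0) (fun v => by simpa using hd' v)
  obtain ⟨CM, hCM, hMb⟩ := M0_bounds J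
  obtain ⟨R₂, hR₂⟩ := exists_nat_ge (2 * CM)
  obtain ⟨x₀, hx₀, hx₀4, hcoreA⟩ := coreS J d hd1 hd hu hβ hβ1 hp
  refine ⟨x₀, hx₀, hx₀4, fun θ ε₃ hθ hθ1 hε₃ hε₃1 => ?_⟩
  obtain ⟨ε₀, hε₀, hε₀1, R₁, hR₁3, hcoreB⟩ := hcoreA θ ε₃ hθ hθ1 hε₃ hε₃1
  refine ⟨ε₀, hε₀, hε₀1, max R₁ R₂, hR₁3.trans (le_max_left _ _),
    fun R r q κ₀ hR hr hq hκ₀ C₁ CB C₆ ζ ε₈ hC₁ hCB hC₆ hζ hζ1 hε₈ hε₈1 => ?_⟩
  rw [max_le_iff] at hR
  obtain ⟨hRa, hRb⟩ := hR
  have hR3 : 3 ≤ R := hR₁3.trans hRa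
  have hR3r : (3 : ℝ) ≤ R := by exact_mod_cast hR3
  have hR0 : (0 : ℝ) < R := by linarith
  have hs2q : 2 + q ≤ Fintype.card ι := two_le_card J (q := q) (fun v => by
    have := hd v
    omega)
  have hM : ∀ m : ℕ, 1 ≤ m → ((R : ℝ) * m) ^ Fintype.card ι ≤ 2 * M0 J R m := by
    intro m hm
    have h1 := (hMb R m (by omega) hm).1
    have h2 : CM / R ≤ 1 / 2 := by
      rw [div_le_iff₀ hR0]
      have h4 : (R₂ : ℝ) ≤ R := by exact_mod_cast hRb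
      linarith
    have h3 : (0 : ℝ) ≤ ((R : ℝ) * m) ^ Fintype.card ι := by positivity
    linarith only [h1, mul_le_mul_of_nonneg_right h2 h3]
  obtain ⟨κ₁, C, η₁, hκ₁, hC, hη₁, hη16, hηc, δ₀, hδ₀, hδ₀R, hcoreC⟩ :=
    hcoreB R r q hRa hr hq C₁ CB ε₈ hC₁ hCB hε₈ hε₈1
  obtain ⟨δ₄, hδ₄, hA4⟩ := nu_sum_ge R hR3 κ₀ C η₁ θ hC hη₁ hη16 hθ hκ₀
  obtain ⟨δ, hδ, hδa, hδd⟩ : ∃ δ : ℝ, 0 < δ ∧ δ ≤ δ₀ ∧ δ ≤ δ₄ :=
    ⟨min δ₀ δ₄, lt_min hδ₀ hδ₄, min_le_left _ _, min_le_right _ _⟩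
  have hδe : 8 * (R : ℝ) * δ ≤ 1 :=
    (mul_le_mul_of_nonneg_left hδa (by positivity)).trans hδ₀R
  obtain ⟨m1, hm1⟩ := hcoreC δ hδ hδa
  obtain ⟨m4, hm4⟩ := hA4 δ hδ hδd
  obtain ⟨m7, hm7⟩ := exists_nat_ge (8 * C₆ / κ₁)
  obtain ⟨m8, hm8⟩ := exists_nat_ge (16 * C₆ / ζ)
  refine ⟨max m1 (max m4 (max m7 (max m8 1))),
    fun m hm V _ G _ S ρ Γ hS hfree hTy hρ1 hρ2 hΓ0 hΓ1 hΓ2 => ?_⟩
  simp only [max_le_iff] at hm
  obtain ⟨hma, hmd, hmg, hmh, hmone⟩ := hm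
  have hm0 : (1 : ℝ) ≤ m := by exact_mod_cast hmone
  have hm00 : (0 : ℝ) < m := by linarith
  obtain ⟨B, hB, hWX, hcore⟩ := hm1 m hma V G S ρ hS hfree hTy hρ1 hρ2
  obtain ⟨M, hMdef⟩ : ∃ M : ℝ, M = M0 J R m := ⟨_, rfl⟩
  have hMlo := hM m hmone
  rw [← hMdef] at hMlo hρ1 hρ2 hcore ⊢
  have hMpos : 0 < M := by
    have : 0 < ((R : ℝ) * m) ^ Fintype.card ι := by positivity
    linarith
  have hMm : (m : ℝ) ^ Fintype.card ι ≤ 2 * M := by
    refine le_trans (pow_le_pow_left₀ hm00.le ?_ _) hMlo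
    exact le_mul_of_one_le_left hm00.le (by linarith only [hR3r])
  obtain ⟨ζ', hζ'⟩ : ∃ ζ' : ℝ, ζ' = ζ * ((m : ℝ)⁻¹) ^ q := ⟨_, rfl⟩
  have hζ'0 : 0 ≤ ζ' := by rw [hζ']; positivity
  rw [← hζ']
  have hnu : ∀ T, 0 ≤ nuG G S κ₀ T := fun T => by
    unfold nuG
    split_ifs <;> norm_num
  obtain ⟨z, hz1, hz2⟩ := hcore (fun T => ζ' * nuG G S κ₀ T)
    (fun T => mul_nonneg hζ'0 (hnu T))
  refine ⟨z, ?_, hz2⟩
  obtain ⟨W, hW⟩ : ∃ W : Finset V, W = vh G S R m θ := ⟨_, rfl⟩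
  rw [← hW] at hWX hz1 ⊢
  have hWmem : ∀ y ∈ W, (dg G S y : ℝ) ≤ θ * R * m := by
    intro y hy
    rw [hW] at hy
    unfold vh at hy
    exact (mem_filter.1 hy).2
  obtain ⟨P, hP⟩ : ∃ P : ℝ, P = ∏ l, ((B l).card : ℝ) := ⟨_, rfl⟩
  have hPpos : 0 < P := by
    rw [hP]
    refine prod_pos fun l _ => ?_
    have h3 := hB.size_lo l
    have h4 : δ ≤ 1 / 24 := by
      linarith only [hδe, mul_le_mul_of_nonneg_right hR3r hδ.le]
    have h5 : (1 / 2 : ℝ) * m ≤ (1 - δ) * m :=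
      mul_le_mul_of_nonneg_right (by linarith only [h4]) hm00.le
    linarith only [h3, h5, hm00]
  obtain ⟨N, hN⟩ : ∃ N : ℝ, N = ∑ f ∈ tcl G B, nuG G S κ₀ (im f) := ⟨_, rfl⟩
  have hN0 : 0 ≤ N := by
    rw [hN]
    exact sum_nonneg fun f _ => hnu _
  rw [← mul_sum, ← hN, ← hP] at hz1
  -- the slack
  have e6 : Γ ≤ M / m * κ₁ * (((S \ un B) \ W).card : ℝ) + 7 / 8 * (M / m) * (ζ' * N / P) := by
    have hc0 : 0 ≤ M / m * κ₁ * (((S \ un B) \ W).card : ℝ) := by positivity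
    have hc1 : 0 ≤ 7 / 8 * (M / m) * (ζ' * N / P) := by positivity
    have hpow : (m : ℝ) * (m : ℝ) ^ (Fintype.card ι - 2 - q) ≤ (m : ℝ) ^ Fintype.card ι / m := by
      rw [le_div_iff₀ hm00]
      calc (m : ℝ) * (m : ℝ) ^ (Fintype.card ι - 2 - q) * m
          = (m : ℝ) ^ (Fintype.card ι - 2 - q + 2) := by ring
        _ ≤ (m : ℝ) ^ Fintype.card ι := pow_le_pow_right₀ hm0 (by omega)
    have hmp : 0 ≤ (m : ℝ) ^ (Fintype.card ι - 2 - q) := by positivity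
    by_cases hsl : Slack G S R m θ κ₀
    · rcases hsl with ⟨x, hxS, hx1, hx2⟩ | hv
      · have hxX : x ∈ (S \ un B) \ W := by
          rw [mem_sdiff, mem_sdiff]
          refine ⟨⟨hxS, fun hxB => ?_⟩, fun hxW => ?_⟩
          · obtain ⟨i, hi⟩ := mem_un.1 hxB
            have h1 := (light_dg hB hi).trans_lt hx2
            have h2 := lt_of_mul_lt_mul_right h1 hm00.le
            have h3 : ((R : ℝ) - 1) * (δ + 2 * η₁) ≤ 1 / 4 := by
              have h4 : ((R : ℝ) - 1) * (δ + 2 * η₁) ≤ R * (δ + 2 * η₁) :=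
                mul_le_mul_of_nonneg_right (by linarith) (by linarith)
              have h5 : (R : ℝ) * (δ + 2 * η₁) = R * δ + 2 * (R * η₁) := by ring
              linarith
            have h6 : ((R : ℝ) - 1) * (1 - δ - 2 * η₁) = (R - 1) - (R - 1) * (δ + 2 * η₁) := by
              ring
            linarith
          · exact absurd (hWmem x hxW) (not_le.2 hx1)
        have h1 : (1 : ℝ) ≤ (((S \ un B) \ W).card : ℝ) := by
          have : 0 < ((S \ un B) \ W).card := card_pos.2 ⟨x, hxX⟩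
          exact_mod_cast this
        have h2 : Γ ≤ M / m * (κ₁ / 4) := by
          have h3 : (m7 : ℝ) ≤ m := by exact_mod_cast hmg
          have h4 := hm7.trans h3
          rw [div_le_iff₀ hκ₁] at h4
          have h5 : C₆ * (m : ℝ) ^ (Fintype.card ι - 2 - q) ≤
              κ₁ / 8 * ((m : ℝ) * (m : ℝ) ^ (Fintype.card ι - 2 - q)) := by
            have h6 := mul_le_mul_of_nonneg_right h4 hmp
            linarith
          have h6 : κ₁ / 8 * ((m : ℝ) * (m : ℝ) ^ (Fintype.card ι - 2 - q)) ≤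
              κ₁ / 8 * ((m : ℝ) ^ Fintype.card ι / m) :=
            mul_le_mul_of_nonneg_left hpow (by positivity)
          have h7 : κ₁ / 8 * ((m : ℝ) ^ Fintype.card ι / m) ≤ κ₁ / 8 * (2 * M / m) := by
            refine mul_le_mul_of_nonneg_left ?_ (by positivity)
            exact div_le_div_of_nonneg_right hMm hm00.le
          have h8 : κ₁ / 8 * (2 * M / m) = M / m * (κ₁ / 4) := by ring
          linarith
        have h3 : 0 ≤ M / m * κ₁ := by positivity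
        have h4 : M / m * κ₁ * 1 ≤ M / m * κ₁ * (((S \ un B) \ W).card : ℝ) :=
          mul_le_mul_of_nonneg_left h1 h3
        have h5 : M / m * (κ₁ / 4) = M / m * κ₁ / 4 := by ring
        linarith
      · have h1 := hm4 m hmd V G S B hfree hB hv
        rw [← hP, ← hN] at h1
        have h2 : Γ ≤ 7 / 8 * (M / m) * (ζ' * N / P) := by
          have h0 : 1 / 4 ≤ N / P := by
            rw [le_div_iff₀ hPpos]
            exact h1
          have h3 : 7 / 8 * (M / m) * (ζ' * (1 / 4)) ≤ 7 / 8 * (M / m) * (ζ' * (N / P)) := by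
            refine mul_le_mul_of_nonneg_left (mul_le_mul_of_nonneg_left h0 hζ'0) (by positivity)
          have h3b : ζ' * N / P = ζ' * (N / P) := mul_div_assoc _ _ _
          rw [h3b]
          refine le_trans ?_ h3
          have h4 : 7 / 8 * (M / m) * (ζ' * (1 / 4)) = 7 * M * ζ' / (32 * m) := by
            field_simp
            ring
          rw [h4, hζ']
          have h5 : (m8 : ℝ) ≤ m := by exact_mod_cast hmh
          have h6 := hm8.trans h5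
          rw [div_le_iff₀ hζ] at h6
          rw [le_div_iff₀ (by positivity)]
          have h7 : Γ * (32 * m) ≤ C₆ * (m : ℝ) ^ (Fintype.card ι - 2 - q) * (32 * m) :=
            mul_le_mul_of_nonneg_right hΓ1 (by positivity)
          have h8 : C₆ * (m : ℝ) ^ (Fintype.card ι - 2 - q) * (32 * m) ≤
              2 * ζ * ((m : ℝ) * (m : ℝ) ^ (Fintype.card ι - 2 - q) * m) := by
            have h9 := mul_le_mul_of_nonneg_right h6
              (mul_nonneg hmp hm00.le : 0 ≤ (m : ℝ) ^ (Fintype.card ι - 2 - q) * m)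
            linarith
          have h9 : (m : ℝ) * (m : ℝ) ^ (Fintype.card ι - 2 - q) * m =
              (m : ℝ) ^ Fintype.card ι * ((m : ℝ)⁻¹) ^ q := by
            rw [inv_pow]
            rw [← div_eq_mul_inv, eq_div_iff (by positivity)]
            calc (m : ℝ) * (m : ℝ) ^ (Fintype.card ι - 2 - q) * m * (m : ℝ) ^ q
                = (m : ℝ) ^ (Fintype.card ι - 2 - q + 2 + q) := by ring
              _ = (m : ℝ) ^ Fintype.card ι := by
                  congr 1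
                  omega
          have h10 : 2 * ζ * ((m : ℝ) ^ Fintype.card ι * ((m : ℝ)⁻¹) ^ q) ≤
              7 * M * (ζ * ((m : ℝ)⁻¹) ^ q) := by
            have h11 : 0 ≤ ζ * ((m : ℝ)⁻¹) ^ q := by positivity
            have h12 : 2 * (m : ℝ) ^ Fintype.card ι ≤ 7 * M := by linarith
            have h13 := mul_le_mul_of_nonneg_right h12 h11
            linarith
          rw [h9] at h8
          linarith
        linarith
    · rw [hΓ2 hsl]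
      positivity
  linarith

end H57GH
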