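import Pool.Agent.H57.GH.SCore
import Pool.Agent.H57.GH.LocalB1

/-!
Project SH: the local theorem for sets with many edges, `u = 1` (compare LocalB1.localB1).
-/

namespace H57GH

open Finset H57LC H57LT

set_option linter.unusedSectionVars false

/-- many very heavy vertices pay for the slack -/
lemma SLocX_many {R m r s c k : ℕ} {M P N Γ : ℝ} (hs : 2 ≤ s) (hR : 1 ≤ R) (hm : 1 ≤ m)
    (hr : r ≤ R) (hms : 6 * s ≤ m) (hM : ((R : ℝ) * m) ^ s ≤ 2 * M)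
    (hP : 0 < P) (hck : c ≤ k)
    (hN : 7 / 10 * (32 * (s : ℝ) / (R : ℝ) ^ 2) * (k : ℝ) ^ 2 * P ≤ N)
    (hΓ : Γ ≤ 8 * s * (c : ℝ) ^ 2 * ((R : ℝ) * m + r) ^ (s - 2)) :
    Γ ≤ 7 / 8 * (M / m) * ((N / m) / P) := by
  have hm0 : (1 : ℝ) ≤ m := by exact_mod_cast hm
  have hm00 : (0 : ℝ) < m := by linarith only [hm0]
  have h1 := LocalB1_many (M := M) (P := 7 / 8 * (m : ℝ) ^ R)
    (N := 7 / 10 * (32 * (s : ℝ) / (R : ℝ) ^ 2) * (k : ℝ) ^ 2 * (7 / 8 * (m : ℝ) ^ R))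
    hs hR hm hr hms hM le_rfl hck le_rfl hΓ
  refine h1.trans ?_
  have hM0 : 0 ≤ M := by
    have : 0 ≤ ((R : ℝ) * m) ^ s := by positivity
    linarith
  have h2 : 7 / 10 * (32 * (s : ℝ) / (R : ℝ) ^ 2) * (k : ℝ) ^ 2 ≤ N / P := by
    rw [le_div_iff₀ hP]
    exact hN
  have h3 : M / (m : ℝ) ^ R * (7 / 10 * (32 * (s : ℝ) / (R : ℝ) ^ 2) * (k : ℝ) ^ 2 *
      (7 / 8 * (m : ℝ) ^ R)) / (m : ℝ) ^ 2 =
      7 / 8 * (M / m) * (7 / 10 * (32 * (s : ℝ) / (R : ℝ) ^ 2) * (k : ℝ) ^ 2 / m) := by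
    have h4 : (m : ℝ) ^ R ≠ 0 := by positivity
    field_simp
  have h5 : (N / m) / P = N / P / m := by rw [div_right_comm]
  rw [h3, h5]
  refine mul_le_mul_of_nonneg_left ?_ (by positivity)
  exact div_le_div_of_nonneg_right h2 hm00.le

variable {ι : Type} [Fintype ι] [DecidableEq ι] (J : SimpleGraph ι) [DecidableRel J.Adj]

theorem localSX [Nonempty ι] (hd : ∀ v, 1 ≤ dg J univ v) {β : ℝ} (hβ : 0 < β) (hβ1 : β < 1)
    (hp : PairC J 1 β) :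
    ∃ x₀ : ℝ, 0 < x₀ ∧ x₀ ≤ 1 / 4 ∧ ∀ θ ε₃ : ℝ, 0 < θ → θ ≤ 1 / 64 → 0 < ε₃ → ε₃ ≤ 1 →
    ∃ ε₀ : ℝ, 0 < ε₀ ∧ ε₀ ≤ 1 ∧ ∃ R₀ : ℕ, 3 ≤ R₀ ∧ ∀ R r : ℕ, R₀ ≤ R → r ≤ R →
    ∀ C₁ CB ε₈ : ℝ, 0 < C₁ → 0 < CB → 0 < ε₈ → ε₈ < 1 → ∃ m₀ : ℕ, ∀ m : ℕ, m₀ ≤ m →
      ∀ (V : Type) [DecidableEq V] (G : SimpleGraph V) [DecidableRel G.Adj] (S : Finset V)
        (ρ Γ : ℝ), S.card ≤ R * m + r → clq G S (R + 1) = ∅ → TyB G S R m CB →
        M0 J R m ≤ ρ → ρ ≤ M0 J R m * (1 + CB / m) → 0 ≤ Γ →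
        Γ ≤ 8 * Fintype.card ι * ((nl G S R m).card : ℝ) ^ 2 *
          ((R : ℝ) * m + r) ^ (Fintype.card ι - 2) → (¬ Slack G S R m θ 1 → Γ = 0) →
        ∃ z : Finset V → ℝ,
          ((emb J G (S \ vh G S R m θ)).card : ℝ) - ρ + Γ ≤ ∑ T ∈ clq G S R, z T +
            ∑ y ∈ (vh G S R m θ).filter (fun y => 1 ≤ dg G S y),
              (dg G S y : ℝ) * (m : ℝ) ^ (Fintype.card ι - 2) +
            ∑ y ∈ midS G S R m θ x₀, PiM J R m 1 β ε₃ (dg G S y) ∧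
          ∀ T ∈ clq G S R, z T ≤ -(C₁ / m) * (M0 J R m / (m : ℝ) ^ R) ∨
            ((∀ t ∈ T, (1 - ε₈) * m ≤ (aa G S T t : ℝ)) ∧
              z T ≤ lzK G J S R m (ktS R (Fintype.card ι) 1 β ε₀) ρ
                (fun T => xi R (Fintype.card ι) (hge G S T) / m) T) := by
  have hcs : 2 ≤ Fintype.card ι := two_le_card J (q := 0) (fun v => by simpa using hd v)
  obtain ⟨x₀, hx₀, hx₀1, hcore⟩ := coreS J 1 le_rfl hd (u := 1) le_rfl hβ hβ1 hp
  refine ⟨x₀, hx₀, hx₀1, fun θ ε₃ hθ hθ1 hε₃ hε₃1 => ?_⟩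
  obtain ⟨ε₀, hε₀, hε₀1, R₁, hR₁3, hc1⟩ := hcore θ ε₃ hθ (by linarith) hε₃ hε₃1
  obtain ⟨CM, hCM, hMb⟩ := M0_bounds J
  obtain ⟨R₂, hR₂⟩ := exists_nat_ge (2 * CM)
  refine ⟨ε₀, hε₀, hε₀1, max R₁ R₂, hR₁3.trans (le_max_left _ _),
    fun R r hR hr C₁ CB ε₈ hC₁ hCB hε₈ hε₈1 => ?_⟩
  simp only [max_le_iff] at hR
  obtain ⟨hRa, hRb⟩ := hR
  have hR3 : 3 ≤ R := hR₁3.trans hRa
  have hR3r : (3 : ℝ) ≤ R := by exact_mod_cast hR3
  have hR0 : (0 : ℝ) < R := by linarith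
  have hM : ∀ m : ℕ, 1 ≤ m → ((R : ℝ) * m) ^ Fintype.card ι ≤ 2 * M0 J R m := by
    intro m hm
    have h1 := (hMb R m (by omega) hm).1
    have h2 : CM / R ≤ 1 / 2 := by
      rw [div_le_iff₀ hR0]
      have h4 : (R₂ : ℝ) ≤ R := by exact_mod_cast hRb
      linarith only [hR₂, h4]
    have h3 : (0 : ℝ) ≤ ((R : ℝ) * m) ^ Fintype.card ι := by positivity
    nlinarith only [h1, hθ, hθ1, h2, h3]
  obtain ⟨κ₁, C, η₁, hκ₁, hC, hη₁, hη16, hηR, δ₀, hδ₀, hδR, hc2⟩ :=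
    hc1 R r 0 hRa hr (by norm_num) C₁ CB ε₈ hC₁ hCB hε₈ hε₈1
  obtain ⟨C', hC', mN, hfew⟩ := few_nonlight R r (by omega) CB hCB
  obtain ⟨δ₄, hδ₄, hA4⟩ := xi_sum_ge R (Fintype.card ι) hR3 C η₁ θ hC hη₁ hη16 hθ hθ1
  obtain ⟨δ, hδ, hδa, hδb⟩ : ∃ δ : ℝ, 0 < δ ∧ δ ≤ δ₀ ∧ δ ≤ δ₄ :=
    ⟨min δ₀ δ₄, lt_min hδ₀ hδ₄, min_le_left _ _, min_le_right _ _⟩
  obtain ⟨m1, hm1⟩ := hc2 δ hδ hδa
  obtain ⟨m4, hm4⟩ := hA4 δ hδ hδb
  obtain ⟨m7, hm7⟩ := exists_nat_ge (64 * (Fintype.card ι : ℝ) * C' ^ 2 * 2 ^ Fintype.card ι / κ₁)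
  refine ⟨max m1 (max m4 (max m7 (max (6 * Fintype.card ι) (max mN 1)))),
    fun m hm V _ G _ S ρ Γ hS hfree hTy hρ1 hρ2 hΓ0 hΓ1 hΓ2 => ?_⟩
  simp only [max_le_iff] at hm
  obtain ⟨hma, hmd, hmg, hmh, hmN, hmone⟩ := hm
  have hm0 : (1 : ℝ) ≤ m := by exact_mod_cast hmone
  have hm00 : (0 : ℝ) < m := by linarith only [hθ, hθ1, hm0]
  obtain ⟨B, hB, hWX, hfin⟩ := hm1 m hma V G S ρ hS hfree hTy hρ1 hρ2
  have hMlo := hM m hmone
  have hMpos : 0 < M0 J R m := by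
    have : 0 < ((R : ℝ) * m) ^ Fintype.card ι := by positivity
    linarith only [hMlo, this]
  have hδR' : 8 * (R : ℝ) * δ ≤ 1 := by
    have h1 : 8 * (R : ℝ) * δ ≤ 8 * (R : ℝ) * δ₀ := mul_le_mul_of_nonneg_left hδa (by positivity)
    linarith only [hδR, h1]
  obtain ⟨P, hP⟩ : ∃ P : ℝ, P = ∏ l, ((B l).card : ℝ) := ⟨_, rfl⟩
  have hPpos : 0 < P := by
    rw [hP]
    refine prod_pos fun l _ => ?_
    have h3 := hB.size_lo l
    have h4 : δ ≤ 1 / 24 := by nlinarith only [hδR, hδa, hθ, hθ1, hR3r, hδ₀]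
    have h5 : (1 / 2 : ℝ) * m ≤ (1 - δ) * m := mul_le_mul_of_nonneg_right (by linarith only [hθ,
        hθ1, h4]) hm00.le
    linarith only [hθ, hθ1, hm0, h3, h5]
  obtain ⟨z, hz1, hz2⟩ := hfin (fun T => xi R (Fintype.card ι) (hge G S T) / m)
    (fun T => div_nonneg (LocalB1_xi_nonneg _ _ _) hm00.le)
  refine ⟨z, ?_, hz2⟩
  obtain ⟨N, hN⟩ : ∃ N : ℝ, N = ∑ f ∈ tcl G B, xi R (Fintype.card ι) (hge G S (im f)) := ⟨_, rfl⟩
  have hN0 : 0 ≤ N := by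
    rw [hN]
    exact sum_nonneg fun f _ => LocalB1_xi_nonneg _ _ _
  have hNm : ∑ f ∈ tcl G B, xi R (Fintype.card ι) (hge G S (im f)) / m = N / m := by
    rw [hN, sum_div]
  rw [hNm, ← hP] at hz1
  simp only [add_zero, pow_one, Nat.sub_zero] at hz1
  obtain ⟨W, hW⟩ : ∃ W : Finset V, W = vh G S R m θ := ⟨_, rfl⟩
  rw [← hW] at hz1 hWX ⊢
  -- the slack
  have e6 : Γ ≤ M0 J R m / m * κ₁ * (((S \ un B) \ W).card : ℝ) +
      7 / 8 * (M0 J R m / m) * ((N / m) / P) := by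
    have hc0 : 0 ≤ M0 J R m / m * κ₁ * (((S \ un B) \ W).card : ℝ) := by positivity
    have hc1 : 0 ≤ 7 / 8 * (M0 J R m / m) * ((N / m) / P) := by positivity
    by_cases hsl : Slack G S R m θ 1
    · by_cases hmed : ∃ z ∈ S, θ * R * m < (dg G S z : ℝ) ∧ (dg G S z : ℝ) < ((R : ℝ) - 5 / 4) * m
      · obtain ⟨z, hzS, hz3, hz4⟩ := hmed
        have hzX : z ∈ (S \ un B) \ W := by
          rw [mem_sdiff, mem_sdiff]
          refine ⟨⟨hzS, fun hzB => ?_⟩, fun hzW => ?_⟩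
          · obtain ⟨i, hi⟩ := mem_un.1 hzB
            have h1 := (light_dg hB hi).trans_lt hz4
            have h2 := lt_of_mul_lt_mul_right h1 hm00.le
            have h3 : ((R : ℝ) - 1) * (δ + 2 * η₁) ≤ 1 / 4 := by
              have h4 : ((R : ℝ) - 1) * (δ + 2 * η₁) ≤ R * (δ + 2 * η₁) :=
                mul_le_mul_of_nonneg_right (by linarith only [hη₁, hηR, hδ, hδR',
                    h2]) (by linarith only [hη₁, hηR, hδ, hδR', h2])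
              have h5 : (R : ℝ) * (δ + 2 * η₁) = R * δ + 2 * (R * η₁) := by ring
              linarith only [hη₁, hηR, hδ, hδR', h2]
            have h6 : ((R : ℝ) - 1) * (1 - δ - 2 * η₁) = (R - 1) - (R - 1) * (δ + 2 * η₁) := by
              ring
            linarith only [hη₁, hηR, hδ, hδR', h2]
          · rw [hW] at hzW
            unfold vh at hzW
            exact absurd (mem_filter.1 hzW).2 (not_le.2 hz3)
        have h1 : (1 : ℝ) ≤ (((S \ un B) \ W).card : ℝ) := by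
          have : 0 < ((S \ un B) \ W).card := card_pos.2 ⟨z, hzX⟩
          exact_mod_cast this
        have h2 : Γ ≤ M0 J R m / m * (κ₁ / 4) := by
          have h3 : (m7 : ℝ) ≤ m := by exact_mod_cast hmg
          have h4 := hm7.trans h3
          have h5 : ((nl G S R m).card : ℝ) ≤ C' := by
            have h6 := hfew m hmN V G S hS hfree hTy
            have h7 : (nl G S R m).card =
                (S.filter fun z => (dg G S z : ℝ) < ((R : ℝ) - 5 / 4) * m).card := by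
              unfold nl
              congr 1
            rw [h7]
            exact h6
          exact LocalB1_medium hcs (by omega) hmone hr hκ₁ h5 hMlo h4 hΓ1
        have h3 : 0 ≤ M0 J R m / m * κ₁ := by positivity
        have h4 : M0 J R m / m * (κ₁ / 4) ≤ M0 J R m / m * κ₁ * 1 := by
          have : M0 J R m / m * (κ₁ / 4) = M0 J R m / m * κ₁ / 4 := by ring
          rw [this]
          linarith only [hΓ0, h2]
        have h5 : M0 J R m / m * κ₁ * 1 ≤ M0 J R m / m * κ₁ * (((S \ un B) \ W).card : ℝ) :=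
          mul_le_mul_of_nonneg_left h1 h3
        linarith only [hc0, hc1, h2, h5]
      · have hv : 2 ≤ W.card := by
          rcases hsl with h1 | h1
          · exact absurd h1 hmed
          · rw [hW]
            exact h1
        have hnl : (nl G S R m).card ≤ W.card := by
          refine card_le_card fun z hz => ?_
          unfold nl at hz
          rw [mem_filter] at hz
          rw [hW]
          unfold vh
          refine mem_filter.2 ⟨hz.1, ?_⟩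
          by_contra hcon
          push Not at hcon
          exact hmed ⟨z, hz.1, hcon, hz.2⟩
        have h1 := hm4 m hmd V G S B hfree hB (by rw [← hW]; exact hv)
        rw [← hP, ← hN, ← hW] at h1
        have h2 : Γ ≤ 7 / 8 * (M0 J R m / m) * ((N / m) / P) :=
          SLocX_many hcs (by omega) hmone hr hmh hMlo hPpos hnl h1 hΓ1
        linarith only [hc0, h2]
    · rw [hΓ2 hsl]
      positivity
  linarith only [hz1, e6]

end H57GH
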