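import Pool.Agent.H57.GH.SKt
import Pool.Agent.H57.GH.HvP
import Pool.Agent.H57.GH.MedA

/-!
Project SH: credit of the heavy vertices joined to almost all classes.
-/

namespace H57GH

open Finset H57LC H57LT

set_option linter.unusedSectionVars false

section
variable {V : Type*} [DecidableEq V] {G : SimpleGraph V} [DecidableRel G.Adj]

/-- the sum of the degrees into the light sets, one set missed -/
private lemma SNearA_sum_le {R m : ℕ} {S : Finset V} {C η₁ δ : ℝ} {B : Fin R → Finset V}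
    (h : LS G S R m C η₁ δ B) {z : V} {i₀ : Fin R} {a : ℝ} (ha : (dg G (B i₀) z : ℝ) ≤ a) :
    ∑ i, (dg G (B i) z : ℝ) ≤ a + ((R : ℝ) - 1) * ((1 + δ) * m) := by
  have hcard : ((univ.erase i₀ : Finset (Fin R)).card : ℝ) = (R : ℝ) - 1 := by
    have h1 := Finset.card_erase_add_one (mem_univ i₀)
    rw [card_univ, Fintype.card_fin] at h1
    have h2 : ((univ.erase i₀ : Finset (Fin R)).card : ℝ) + 1 = R := by exact_mod_cast h1
    linarith only [h2]
  rw [← Finset.add_sum_erase univ (fun i => (dg G (B i) z : ℝ)) (mem_univ i₀)]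
  have h3 : ∑ i ∈ univ.erase i₀, (dg G (B i) z : ℝ) ≤
      ∑ _i ∈ univ.erase i₀, (1 + δ) * (m : ℝ) := by
    refine sum_le_sum fun i _ => ?_
    refine le_trans ?_ (h.size_hi i)
    unfold dg
    exact_mod_cast card_filter_le _ _
  rw [sum_const, nsmul_eq_mul, hcard] at h3
  linarith

end

/-- the share of the classes seen by a heavy vertex is smaller than one -/
theorem sgm_le (R : ℕ) (hR : 3 ≤ R) (C η₁ : ℝ) (hC : 0 < C) (hη : 0 < η₁) (hη1 : η₁ ≤ 1 / 16) :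
    ∃ δ₀ : ℝ, 0 < δ₀ ∧ ∀ δ : ℝ, 0 < δ → δ ≤ δ₀ → ∃ m₀ : ℕ, ∀ m : ℕ, m₀ ≤ m →
      ∀ (V : Type) [DecidableEq V] (G : SimpleGraph V) [DecidableRel G.Adj] (S : Finset V)
        (B : Fin R → Finset V), clq G S (R + 1) = ∅ → LS G S R m C η₁ δ B →
        ∀ z ∈ S \ un B, sgm G m B z ≤ 1 - η₁ / (4 * R) := by
  have hR3 : (3 : ℝ) ≤ R := by exact_mod_cast hR
  have hR0 : (0 : ℝ) < R := by linarith only [hη, hη1, hR3]
  have hR1 : (0 : ℝ) < (R : ℝ) - 1 := by linarith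
  refine ⟨η₁ / (8 * R), by positivity, fun δ hδ hδ' => ?_⟩
  have hδ2 : δ ≤ 1 / 2 := by
    refine hδ'.trans ?_
    rw [div_le_iff₀ (by positivity)]
    linarith only [hη, hη1, hR3]
  obtain ⟨m₁, hm₁⟩ := heavy_part R (by omega) C η₁ δ hC hδ hδ2 (η₁ / 16) (by positivity)
  refine ⟨max m₁ 1, fun m hm V _ G _ S B hfree hB z hz => ?_⟩
  have hzS : z ∈ S := (mem_sdiff.1 hz).1
  have hm1 : (1 : ℝ) ≤ m := by exact_mod_cast (le_max_right _ _).trans hm
  have hm0 : (0 : ℝ) < m := by linarith only [hη, hη1, hm1]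
  obtain ⟨i₀, hi₀⟩ := hm₁ m ((le_max_left _ _).trans hm) V G S B hfree hB z hzS
  obtain ⟨j, hj, hj'⟩ := hB.heavy z hz i₀
  -- the degree into `B j`
  have hdj : (dg G (B j) z : ℝ) ≤ (1 + δ) * m - η₁ / 2 * m := by
    have h1 : dg G (B j) z + (hs G (B j) z).card = (B j).card := by
      unfold dg hs
      exact card_filter_add_card_filter_not _
    have h2 : (dg G (B j) z : ℝ) + ((hs G (B j) z).card : ℝ) = ((B j).card : ℝ) := by
      exact_mod_cast h1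
    have h3 := hB.size_hi j
    linarith only [hj', h2, h3]
  have hcard : (((univ.erase i₀).erase j : Finset (Fin R)).card : ℝ) = (R : ℝ) - 2 := by
    have h1 := Finset.card_erase_add_one (mem_univ i₀)
    have h2 := Finset.card_erase_add_one (mem_erase.2 ⟨hj, mem_univ j⟩)
    rw [card_univ, Fintype.card_fin] at h1
    have h3 : (((univ.erase i₀).erase j : Finset (Fin R)).card : ℝ) + 1 + 1 = R := by
      have : ((univ.erase i₀).erase j : Finset (Fin R)).card + 1 + 1 = R := by omega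
      exact_mod_cast this
    linarith only [h3]
  have hsum : ∑ i, (dg G (B i) z : ℝ) ≤ η₁ / 16 * m + ((1 + δ) * m - η₁ / 2 * m) +
      ((R : ℝ) - 2) * ((1 + δ) * m) := by
    rw [← Finset.add_sum_erase univ (fun i => (dg G (B i) z : ℝ)) (mem_univ i₀),
      ← Finset.add_sum_erase (univ.erase i₀) (fun i => (dg G (B i) z : ℝ))
        (mem_erase.2 ⟨hj, mem_univ j⟩)]
    have h3 : ∑ i ∈ (univ.erase i₀).erase j, (dg G (B i) z : ℝ) ≤
        ∑ _i ∈ (univ.erase i₀).erase j, (1 + δ) * (m : ℝ) := by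
      refine sum_le_sum fun i _ => ?_
      refine le_trans ?_ (hB.size_hi i)
      unfold dg
      exact_mod_cast card_filter_le _ _
    rw [sum_const, nsmul_eq_mul, hcard] at h3
    linarith only [hi₀, hdj, h3]
  unfold sgm
  rw [div_le_iff₀ (by positivity)]
  refine hsum.trans ?_
  -- divide by `m`
  have e1 : η₁ / 16 * m + ((1 + δ) * m - η₁ / 2 * m) + ((R : ℝ) - 2) * ((1 + δ) * m) =
      m * (((R : ℝ) - 1) * (1 + δ) - 7 / 16 * η₁) := by ring
  have e2 : (1 - η₁ / (4 * R)) * (((R : ℝ) - 1) * m) =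
      m * (((R : ℝ) - 1) * (1 - η₁ / (4 * R))) := by ring
  rw [e1, e2]
  refine mul_le_mul_of_nonneg_left ?_ hm0.le
  have h1 : δ * (8 * R) ≤ η₁ := by
    rw [le_div_iff₀ (by positivity)] at hδ'
    exact hδ'
  have h2 : ((R : ℝ) - 1) * δ ≤ η₁ / 8 := by
    have : ((R : ℝ) - 1) * δ ≤ R * δ := mul_le_mul_of_nonneg_right (by linarith only [hη,
        hη1]) hδ.le
    linarith only [hδ, h1]
  have h3 : ((R : ℝ) - 1) * (η₁ / (4 * R)) ≤ η₁ / 4 := by
    have : ((R : ℝ) - 1) * (η₁ / (4 * R)) = η₁ / 4 * (((R : ℝ) - 1) / R) := by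
      field_simp
    rw [this]
    have h4 : ((R : ℝ) - 1) / R ≤ 1 := by
      rw [div_le_one hR0]
      linarith only [hη, hη1]
    have := mul_le_mul_of_nonneg_left h4 (show 0 ≤ η₁ / 4 by positivity)
    linarith only [this]
  linarith only [h2, h3, hη]

/-- the share and the degree -/
theorem sgm_dg (R : ℕ) (hR : 3 ≤ R) (C η₁ κ' : ℝ) (hC : 0 < C) (hη : 0 < η₁) (hκ : 0 < κ') :
    ∃ δ₀ : ℝ, 0 < δ₀ ∧ ∀ δ : ℝ, 0 < δ → δ ≤ δ₀ → ∃ m₀ : ℕ, ∀ m : ℕ, m₀ ≤ m →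
      ∀ (V : Type) [DecidableEq V] (G : SimpleGraph V) [DecidableRel G.Adj] (S : Finset V)
        (B : Fin R → Finset V), clq G S (R + 1) = ∅ → LS G S R m C η₁ δ B →
        ∀ z ∈ S, (dg G S z : ℝ) / ((R - 1) * m) - κ' ≤ sgm G m B z ∧ sgm G m B z ≤ 1 + κ' := by
  have hR3 : (3 : ℝ) ≤ R := by exact_mod_cast hR
  have hR1 : (1 : ℝ) < (R : ℝ) - 1 := by linarith
  have hR1' : (0 : ℝ) < (R : ℝ) - 1 := by linarith only [hR3]
  refine ⟨min (1 / 2) (κ' / 2), by positivity, fun δ hδ hδ' => ?_⟩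
  have hδ2 : δ ≤ 1 / 2 := hδ'.trans (min_le_left _ _)
  have hδκ : δ ≤ κ' / 2 := hδ'.trans (min_le_right _ _)
  obtain ⟨m₁, hm₁⟩ := heavy_part R (by omega) C η₁ δ hC hδ hδ2 (κ' / 2) (by positivity)
  obtain ⟨m₂, hm₂⟩ := exists_nat_gt (C / κ' + 1)
  refine ⟨max m₁ m₂, fun m hm V _ G _ S B hfree hB z hz => ?_⟩
  have hmm : (m₂ : ℝ) ≤ m := by exact_mod_cast (le_max_right _ _).trans hm
  have hq : 0 < C / κ' := by positivity
  have hm1 : (1 : ℝ) ≤ m := by linarith only [hm₂, hmm, hq]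
  have hm0 : (0 : ℝ) < m := by linarith
  have hmC : C ≤ κ' * m := by
    have h1 : C / κ' ≤ m := by linarith
    rw [div_le_iff₀ hκ] at h1
    linarith only [h1]
  obtain ⟨i₀, hi₀⟩ := hm₁ m ((le_max_left _ _).trans hm) V G S B hfree hB z hz
  have hpos : (0 : ℝ) < ((R : ℝ) - 1) * m := by positivity
  unfold sgm
  constructor
  · have h1 := dg_le_sum hB z
    rw [sub_le_iff_le_add, ← sub_le_iff_le_add', ← sub_div, div_le_iff₀ hpos]
    have h2 : κ' * m ≤ κ' * (((R : ℝ) - 1) * m) := by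
      refine mul_le_mul_of_nonneg_left ?_ hκ.le
      exact le_mul_of_one_le_left hm0.le hR1.le
    linarith only [hmC, h1, h2]
  · rw [div_le_iff₀ hpos]
    refine (SNearA_sum_le hB hi₀).trans ?_
    have h2 : κ' / 2 * m ≤ κ' / 2 * (((R : ℝ) - 1) * m) := by
      refine mul_le_mul_of_nonneg_left ?_ (by positivity)
      exact le_mul_of_one_le_left hm0.le hR1.le
    have h3 : δ * (((R : ℝ) - 1) * m) ≤ κ' / 2 * (((R : ℝ) - 1) * m) :=
      mul_le_mul_of_nonneg_right hδκ hpos.le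
    have e : ((R : ℝ) - 1) * ((1 + δ) * m) = ((R : ℝ) - 1) * m + δ * (((R : ℝ) - 1) * m) := by
      ring
    rw [e]
    linarith only [h2, h3]

/-- the credit as a function of the number of non-neighbours -/
private noncomputable def SNearA_w (R s u : ℕ) (β ε : ℝ) (k : ℕ) : ℝ :=
  if k = 1 then (s : ℝ) / R else ktS R s u β ε k

private lemma SNearA_w_nonneg {R s u : ℕ} {β ε : ℝ} (hR : 2 ≤ R) (hε : 0 ≤ ε) (hε1 : ε ≤ 1)
    (k : ℕ) (hk : k ≤ R) : 0 ≤ SNearA_w R s u β ε k := by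
  unfold SNearA_w
  split_ifs
  · positivity
  · exact ktS_nonneg hR hε hε1 k hk

private lemma SNearA_w_le {R s u : ℕ} {β ε : ℝ} (hR : 2 ≤ R) (hβ : 0 < β) (hβ1 : β < 1)
    (hε : 0 ≤ ε) (hε1 : ε ≤ 1) (k : ℕ) (hk : k ≤ R) :
    SNearA_w R s u β ε k ≤ (s : ℝ) / R := by
  unfold SNearA_w
  split_ifs
  · exact le_rfl
  · exact ktS_le hR hβ hβ1 hε hε1 k hk

section
variable {V : Type*} [DecidableEq V] {G : SimpleGraph V} [DecidableRel G.Adj]

private lemma SNearA_na_sq (x y : V) : na G x y * na G x y = na G x y := by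
  unfold na; split_ifs <;> norm_num

/-- the number of non-neighbours as a sum -/
private lemma SNearA_card {R : ℕ} (E : Finset (Fin R)) (f : Fin R → V) (z : V) :
    (((E.filter fun i => ¬ G.Adj z (f i)).card : ℕ) : ℝ) = ∑ i ∈ E, na G z (f i) := by
  rw [Finset.natCast_card_filter]
  refine sum_congr rfl fun i _ => ?_
  unfold na
  by_cases h : G.Adj z (f i) <;> simp [h]

/-- the second moment -/
private lemma SNearA_sq {R : ℕ} (E : Finset (Fin R)) (f : Fin R → V) (z : V) :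
    (∑ i ∈ E, na G z (f i)) ^ 2 = (∑ i ∈ E, na G z (f i)) +
      ∑ i ∈ E, ∑ j ∈ E.erase i, na G z (f i) * na G z (f j) := by
  have h1 : ∀ i ∈ E, ∑ j ∈ E.erase i, na G z (f i) * na G z (f j) =
      na G z (f i) * (∑ j ∈ E, na G z (f j)) - na G z (f i) := by
    intro i hi
    rw [← mul_sum, ← Finset.add_sum_erase E (fun j => na G z (f j)) hi, mul_add, SNearA_na_sq]
    ring
  rw [sum_congr rfl h1, sum_sub_distrib, ← sum_mul]
  ring

/-- the credit of a clique transversal as a function of the number of non-neighbours -/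
private lemma SNearA_xz {R s u : ℕ} {β ε : ℝ} {B : Fin R → Finset V} {f : Fin R → V}
    (hf : f ∈ tcl G B) (z : V) :
    xzK G R s (ktS R s u β ε) f z =
      SNearA_w R s u β ε ((univ : Finset (Fin R)).filter fun i => ¬ G.Adj z (f i)).card := by
  have h : (hs G (im f) z).card =
      ((univ : Finset (Fin R)).filter fun i => ¬ G.Adj z (f i)).card := by
    have e : hs G (im f) z =
        ((univ : Finset (Fin R)).filter fun i => ¬ G.Adj z (f i)).image f := by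
      ext t
      rw [mem_hs, mem_im, mem_image]
      constructor
      · rintro ⟨⟨i, rfl⟩, hi⟩
        exact ⟨i, mem_filter.2 ⟨mem_univ i, hi⟩, rfl⟩
      · rintro ⟨i, hi, rfl⟩
        exact ⟨⟨i, rfl⟩, (mem_filter.1 hi).2⟩
    rw [e, card_image_of_injective _ (tcl_injective hf)]
  unfold xzK SNearA_w
  rw [h]

/-- the pointwise inequality -/
private lemma SNearA_point {R s u : ℕ} {β ε C₀ : ℝ} (hR : 2 ≤ R) (hβ : 0 < β) (hβ1 : β < 1)
    (hε : 0 ≤ ε) (hε1 : ε ≤ 1) (hC₀ : 0 < C₀)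
    (hnear : ∀ j : ℕ, 2 ≤ j → j ≤ R →
      (s : ℝ) / R * (1 - (u * β / (1 - β) + ε + C₀ / R) * (((j : ℝ) - 1) / (R - 1)) -
        C₀ * (((j : ℝ) - 1) / (R - 1)) ^ 2) ≤ ktS R s u β ε j)
    (f : Fin R → V) (z : V) (i₀ : Fin R) :
    (s : ℝ) / R - (s : ℝ) / R * ((u * β / (1 - β) + ε + C₀ / R) / (R - 1)) *
        (∑ i ∈ univ.erase i₀, na G z (f i)) -
      (s : ℝ) / R * (C₀ / ((R : ℝ) - 1) ^ 2) * (∑ i ∈ univ.erase i₀, na G z (f i)) ^ 2 -
      (s : ℝ) / R * (1 - na G z (f i₀)) ≤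
      SNearA_w R s u β ε ((univ : Finset (Fin R)).filter fun i => ¬ G.Adj z (f i)).card := by
  have hR2 : (2 : ℝ) ≤ R := by exact_mod_cast hR
  have hR1 : (0 : ℝ) < (R : ℝ) - 1 := by linarith
  have hb : (0 : ℝ) < 1 - β := by linarith
  set E : Finset (Fin R) := univ.erase i₀ with hE
  set k : ℕ := (E.filter fun i => ¬ G.Adj z (f i)).card with hk
  have hEc : E.card + 1 = R := by
    have := Finset.card_erase_add_one (mem_univ i₀)
    rw [card_univ, Fintype.card_fin] at this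
    exact this
  have hkR : k + 1 ≤ R := by
    have : k ≤ E.card := card_filter_le _ _
    omega
  have hkc : (k : ℝ) = ∑ i ∈ E, na G z (f i) := SNearA_card E f z
  rw [← hkc]
  have hins : (univ : Finset (Fin R)) = insert i₀ E := by
    rw [hE, Finset.insert_erase (mem_univ i₀)]
  have hni : i₀ ∉ E := notMem_erase i₀ _
  have hα : 0 ≤ (s : ℝ) / R := by positivity
  have hA : 0 ≤ u * β / (1 - β) + ε + C₀ / R := by positivity
  have hk0 : (0 : ℝ) ≤ k := Nat.cast_nonneg k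
  by_cases h0 : G.Adj z (f i₀)
  · have hna : na G z (f i₀) = 0 := by unfold na; rw [if_pos h0]
    have hc : ((univ : Finset (Fin R)).filter fun i => ¬ G.Adj z (f i)).card = k := by
      rw [hins, filter_insert, if_neg (not_not.2 h0)]
    rw [hc, hna]
    have h1 := SNearA_w_nonneg (s := s) (u := u) (β := β) hR hε hε1 k (by omega)
    have h2 : 0 ≤ (s : ℝ) / R * ((u * β / (1 - β) + ε + C₀ / R) / (R - 1)) * k :=
      mul_nonneg (mul_nonneg hα (div_nonneg hA hR1.le)) hk0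
    have h3 : 0 ≤ (s : ℝ) / R * (C₀ / ((R : ℝ) - 1) ^ 2) * (k : ℝ) ^ 2 :=
      mul_nonneg (mul_nonneg hα (div_nonneg hC₀.le (pow_nonneg hR1.le 2))) (pow_nonneg hk0 2)
    linarith only [h1, h2, h3]
  · have hna : na G z (f i₀) = 1 := by unfold na; rw [if_neg h0]
    have hc : ((univ : Finset (Fin R)).filter fun i => ¬ G.Adj z (f i)).card = k + 1 := by
      rw [hins, filter_insert, if_pos h0, card_insert_of_notMem]
      intro h
      exact hni (mem_filter.1 h).1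
    rw [hc, hna]
    rcases Nat.eq_zero_or_pos k with hk0' | hkpos
    · rw [hk0']
      unfold SNearA_w
      simp
    · have hw : SNearA_w R s u β ε (k + 1) = ktS R s u β ε (k + 1) := by
        unfold SNearA_w
        rw [if_neg (by omega)]
      rw [hw]
      have h1 := hnear (k + 1) (by omega) hkR
      push_cast at h1
      have e : (k : ℝ) + 1 - 1 = k := by ring
      rw [e] at h1
      refine le_trans (le_of_eq ?_) h1
      field_simp
      ring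

private lemma SNearA_lin {ι : Type*} (T : Finset ι) (a b c d : ℝ) (F1 F2 F3 : ι → ℝ) :
    ∑ f ∈ T, (a - b * F1 f - c * F2 f - d * F3 f) =
      a * ∑ _f ∈ T, (1 : ℝ) - b * ∑ f ∈ T, F1 f - c * ∑ f ∈ T, F2 f - d * ∑ f ∈ T, F3 f := by
  rw [sum_sub_distrib, sum_sub_distrib, sum_sub_distrib, ← mul_sum, ← mul_sum, ← mul_sum,
    sum_const, sum_const, nsmul_eq_mul, nsmul_eq_mul]
  ring

/-- the averages over all tuples -/
private lemma SNearA_avg {R s u : ℕ} {β ε C₀ : ℝ} (hR : 2 ≤ R) (hβ : 0 < β) (hβ1 : β < 1)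
    (hε : 0 ≤ ε) (hε1 : ε ≤ 1) (hC₀ : 0 < C₀)
    (hnear : ∀ j : ℕ, 2 ≤ j → j ≤ R →
      (s : ℝ) / R * (1 - (u * β / (1 - β) + ε + C₀ / R) * (((j : ℝ) - 1) / (R - 1)) -
        C₀ * (((j : ℝ) - 1) / (R - 1)) ^ 2) ≤ ktS R s u β ε j)
    (B : Fin R → Finset V) (hb : ∀ i, (0 : ℝ) < ((B i).card : ℝ)) (z : V) (i₀ : Fin R)
    (p : Fin R → ℝ) (hp : ∀ i, p i = ((hs G (B i) z).card : ℝ) / ((B i).card : ℝ)) :
    (∏ l, ((B l).card : ℝ)) * ((s : ℝ) / R -
        (s : ℝ) / R * ((u * β / (1 - β) + ε + C₀ / R) / (R - 1)) * (∑ i ∈ univ.erase i₀, p i) -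
        (s : ℝ) / R * (C₀ / ((R : ℝ) - 1) ^ 2) * ((∑ i ∈ univ.erase i₀, p i) ^ 2 +
          ∑ i ∈ univ.erase i₀, p i) - (s : ℝ) / R * (1 - p i₀)) ≤
      ∑ f ∈ Fintype.piFinset B,
        SNearA_w R s u β ε ((univ : Finset (Fin R)).filter fun i => ¬ G.Adj z (f i)).card := by
  have hR2 : (2 : ℝ) ≤ R := by exact_mod_cast hR
  have hR1 : (0 : ℝ) < (R : ℝ) - 1 := by linarith
  set P : ℝ := ∏ l, ((B l).card : ℝ) with hP
  have hP0 : 0 < P := prod_pos fun i _ => hb i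
  have hcard : ∑ _f ∈ Fintype.piFinset B, (1 : ℝ) = P := by
    rw [Finset.sum_const, nsmul_eq_mul, Fintype.card_piFinset, mul_one, hP]
    push_cast
    rfl
  have h1 : ∀ i, ∑ f ∈ Fintype.piFinset B, na G z (f i) = P * p i := by
    intro i
    have h := one_sum B i (fun y => na G z y)
    rw [sum_na, ← hP] at h
    rw [hp i]
    have hb' := (hb i).ne'
    field_simp
    linarith
  have h2 : ∀ i j, i ≠ j → ∑ f ∈ Fintype.piFinset B, na G z (f i) * na G z (f j) =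
      P * (p i * p j) := by
    intro i j hij
    have h := pair_sum B hij (fun x y => na G z x * na G z y)
    have e : ∑ x ∈ B i, ∑ y ∈ B j, na G z x * na G z y =
        ((hs G (B i) z).card : ℝ) * ((hs G (B j) z).card : ℝ) := by
      rw [← sum_na, ← sum_na, sum_mul_sum]
    rw [e, ← hP] at h
    rw [hp i, hp j]
    have hb' := (hb i).ne'
    have hb'' := (hb j).ne'
    field_simp
    linarith only [h]
  have hp0 : ∀ i, 0 ≤ p i := fun i => by rw [hp i]; positivity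
  have hE2 : ∑ i ∈ univ.erase i₀, ∑ j ∈ (univ.erase i₀).erase i, p i * p j ≤
      (∑ i ∈ univ.erase i₀, p i) ^ 2 := by
    rw [pow_two, sum_mul_sum]
    refine sum_le_sum fun i _ => ?_
    exact sum_le_sum_of_subset_of_nonneg (erase_subset _ _) fun j _ _ =>
      mul_nonneg (hp0 i) (hp0 j)
  have hc0 : 0 ≤ (s : ℝ) / R * (C₀ / ((R : ℝ) - 1) ^ 2) := by positivity
  calc P * ((s : ℝ) / R -
        (s : ℝ) / R * ((u * β / (1 - β) + ε + C₀ / R) / (R - 1)) * (∑ i ∈ univ.erase i₀, p i) -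
        (s : ℝ) / R * (C₀ / ((R : ℝ) - 1) ^ 2) * ((∑ i ∈ univ.erase i₀, p i) ^ 2 +
          ∑ i ∈ univ.erase i₀, p i) - (s : ℝ) / R * (1 - p i₀))
      ≤ P * ((s : ℝ) / R -
        (s : ℝ) / R * ((u * β / (1 - β) + ε + C₀ / R) / (R - 1)) * (∑ i ∈ univ.erase i₀, p i) -
        (s : ℝ) / R * (C₀ / ((R : ℝ) - 1) ^ 2) * ((∑ i ∈ univ.erase i₀,
          ∑ j ∈ (univ.erase i₀).erase i, p i * p j) +
          ∑ i ∈ univ.erase i₀, p i) - (s : ℝ) / R * (1 - p i₀)) := by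
        refine mul_le_mul_of_nonneg_left ?_ hP0.le
        have := mul_le_mul_of_nonneg_left hE2 hc0
        linarith only [this]
    _ = ∑ f ∈ Fintype.piFinset B, ((s : ℝ) / R -
        (s : ℝ) / R * ((u * β / (1 - β) + ε + C₀ / R) / (R - 1)) *
          (∑ i ∈ univ.erase i₀, na G z (f i)) -
        (s : ℝ) / R * (C₀ / ((R : ℝ) - 1) ^ 2) * (∑ i ∈ univ.erase i₀, na G z (f i)) ^ 2 -
        (s : ℝ) / R * (1 - na G z (f i₀))) := by
        rw [SNearA_lin (Fintype.piFinset B) _ _ _ _ (fun f => ∑ i ∈ univ.erase i₀, na G z (f i))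
          (fun f => (∑ i ∈ univ.erase i₀, na G z (f i)) ^ 2) (fun f => 1 - na G z (f i₀))]
        have e0 : ∑ f ∈ Fintype.piFinset B, (1 - na G z (f i₀)) = P * (1 - p i₀) := by
          rw [sum_sub_distrib, hcard, h1 i₀]
          ring
        have e2 : ∑ f ∈ Fintype.piFinset B, ∑ i ∈ univ.erase i₀, na G z (f i) =
            P * ∑ i ∈ univ.erase i₀, p i := by
          rw [sum_comm, mul_sum]
          exact sum_congr rfl fun i _ => h1 i
        have e3 : ∑ f ∈ Fintype.piFinset B, ∑ i ∈ univ.erase i₀,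
            ∑ j ∈ (univ.erase i₀).erase i, na G z (f i) * na G z (f j) =
            P * ∑ i ∈ univ.erase i₀, ∑ j ∈ (univ.erase i₀).erase i, p i * p j := by
          rw [sum_comm, mul_sum]
          refine sum_congr rfl fun i _ => ?_
          rw [sum_comm, mul_sum]
          refine sum_congr rfl fun j hj => ?_
          exact h2 i j (mem_erase.1 hj).1.symm
        have e4 : ∑ f ∈ Fintype.piFinset B, (∑ i ∈ univ.erase i₀, na G z (f i)) ^ 2 =
            P * ∑ i ∈ univ.erase i₀, p i +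
              P * ∑ i ∈ univ.erase i₀, ∑ j ∈ (univ.erase i₀).erase i, p i * p j := by
          rw [← e2, ← e3, ← sum_add_distrib]
          exact sum_congr rfl fun f _ => SNearA_sq _ f z
        rw [e0, e2, e4, hcard]
        ring
    _ ≤ _ := sum_le_sum fun f _ => SNearA_point hR hβ hβ1 hε hε1 hC₀ hnear f z i₀

/-- the average of `DD` -/
private lemma SNearA_DD {R m : ℕ} {S : Finset V} {C η₁ δ : ℝ} {B : Fin R → Finset V}
    (h : LS G S R m C η₁ δ B) (hC : 0 < C) (hδ : δ ≤ 1 / 2) (hm : (0 : ℝ) < m) :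
    ∑ f ∈ Fintype.piFinset B, DD G f ≤ (R : ℝ) ^ 2 * (4 * C * (∏ l, ((B l).card : ℝ)) / m) := by
  set P : ℝ := ∏ l, ((B l).card : ℝ) with hP
  have hb : ∀ i, (m : ℝ) / 2 ≤ ((B i).card : ℝ) := fun i => by
    have h1 := h.size_lo i
    have h2 : (1 / 2 : ℝ) * m ≤ (1 - δ) * m := mul_le_mul_of_nonneg_right (by linarith only [hδ]) hm.le
    linarith only [h1, h2]
  have hP0 : 0 < P := prod_pos fun i _ => lt_of_lt_of_le (by positivity) (hb i)
  have h1 : ∀ i j, i ≠ j → ∑ f ∈ Fintype.piFinset B, na G (f i) (f j) ≤ 4 * C * P / m := by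
    intro i j hij
    have h2 := pair_sum B hij (fun x y => na G x y)
    have h3 : ∑ x ∈ B i, ∑ y ∈ B j, na G x y ≤ C * m := by
      refine le_trans (le_of_eq ?_) (h.tot i j hij)
      exact sum_congr rfl fun x _ => sum_na _ _
    have h0 : 0 ≤ ∑ f ∈ Fintype.piFinset B, na G (f i) (f j) :=
      sum_nonneg fun f _ => na_nonneg _ _
    have h4 : (m : ℝ) / 2 * (m / 2) ≤ ((B i).card : ℝ) * (B j).card :=
      mul_le_mul (hb i) (hb j) (by positivity) (by positivity)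
    have h5 := mul_le_mul_of_nonneg_right h4 h0
    rw [h2] at h5
    have h6 := mul_le_mul_of_nonneg_left h3 hP0.le
    rw [le_div_iff₀ hm]
    have h7 : (m : ℝ) / 2 * (m / 2) * ∑ f ∈ Fintype.piFinset B, na G (f i) (f j) ≤
        P * (C * m) := h5.trans h6
    have h8 : (m : ℝ) * ((∑ f ∈ Fintype.piFinset B, na G (f i) (f j)) * m) ≤
        m * (4 * C * P) := by
      calc (m : ℝ) * ((∑ f ∈ Fintype.piFinset B, na G (f i) (f j)) * m)
          = 4 * ((m : ℝ) / 2 * (m / 2) * ∑ f ∈ Fintype.piFinset B, na G (f i) (f j)) := by ring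
        _ ≤ 4 * (P * (C * m)) := mul_le_mul_of_nonneg_left h7 (by norm_num)
        _ = m * (4 * C * P) := by ring
    exact le_of_mul_le_mul_left h8 hm
  have e : ∑ f ∈ Fintype.piFinset B, DD G f =
      ∑ i, ∑ j ∈ univ.erase i, ∑ f ∈ Fintype.piFinset B, na G (f i) (f j) := by
    unfold DD
    rw [sum_comm]
    exact sum_congr rfl fun i _ => sum_comm
  rw [e]
  have hq : 0 ≤ 4 * C * P / m :=
    div_nonneg (mul_nonneg (mul_nonneg (by norm_num) hC.le) hP0.le) hm.le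
  calc ∑ i, ∑ j ∈ univ.erase i, ∑ f ∈ Fintype.piFinset B, na G (f i) (f j)
      ≤ ∑ i : Fin R, ∑ _j : Fin R, 4 * C * P / m := by
        refine sum_le_sum fun i _ => ?_
        refine le_trans (sum_le_sum fun j hj => h1 i j (mem_erase.1 hj).1.symm) ?_
        exact sum_le_sum_of_subset_of_nonneg (subset_univ _) fun _ _ _ => hq
    _ = (R : ℝ) ^ 2 * (4 * C * P / m) := by
        rw [sum_const, sum_const, card_univ, Fintype.card_fin, nsmul_eq_mul, nsmul_eq_mul]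
        ring

/-- from all tuples to the clique transversals -/
private lemma SNearA_tcl {R s u : ℕ} {β ε : ℝ} (hR : 2 ≤ R) (hβ : 0 < β) (hβ1 : β < 1)
    (hε : 0 ≤ ε) (hε1 : ε ≤ 1) (B : Fin R → Finset V) (z : V) :
    ∑ f ∈ Fintype.piFinset B,
        SNearA_w R s u β ε ((univ : Finset (Fin R)).filter fun i => ¬ G.Adj z (f i)).card -
      (s : ℝ) / R * ((1 / 2) * ∑ f ∈ Fintype.piFinset B, DD G f) ≤
      ∑ f ∈ tcl G B, xzK G R s (ktS R s u β ε) f z := by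
  have hsub : tcl G B ⊆ Fintype.piFinset B := filter_subset _ _
  have h1 := card_tcl_ge (G := G) B
  have h2 : ∑ f ∈ tcl G B, xzK G R s (ktS R s u β ε) f z = ∑ f ∈ tcl G B,
      SNearA_w R s u β ε ((univ : Finset (Fin R)).filter fun i => ¬ G.Adj z (f i)).card :=
    sum_congr rfl fun f hf => SNearA_xz hf z
  have hcard : ((Fintype.piFinset B).card : ℝ) = ∏ l, ((B l).card : ℝ) := by
    rw [Fintype.card_piFinset]
    push_cast
    rfl
  have hkR : ∀ f : Fin R → V,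
      ((univ : Finset (Fin R)).filter fun i => ¬ G.Adj z (f i)).card ≤ R := by
    intro f
    refine (card_filter_le _ _).trans ?_
    rw [card_univ, Fintype.card_fin]
  have h3 : ∑ f ∈ Fintype.piFinset B \ tcl G B,
      SNearA_w R s u β ε ((univ : Finset (Fin R)).filter fun i => ¬ G.Adj z (f i)).card ≤
      ((Fintype.piFinset B \ tcl G B).card : ℝ) * ((s : ℝ) / R) := by
    rw [← nsmul_eq_mul, ← sum_const]
    exact sum_le_sum fun f _ => SNearA_w_le hR hβ hβ1 hε hε1 _ (hkR f)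
  have h4 : ((Fintype.piFinset B \ tcl G B).card : ℝ) + ((tcl G B).card : ℝ) =
      ∏ l, ((B l).card : ℝ) := by
    rw [← hcard]
    exact_mod_cast card_sdiff_add_card_eq_card hsub
  have h5 := sum_sdiff (f := fun f : Fin R → V =>
    SNearA_w R s u β ε ((univ : Finset (Fin R)).filter fun i => ¬ G.Adj z (f i)).card) hsub
  have h6 : ((Fintype.piFinset B \ tcl G B).card : ℝ) ≤
      (1 / 2) * ∑ f ∈ Fintype.piFinset B, DD G f := by linarith only [h1, h4]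
  have h7 := mul_le_mul_of_nonneg_right h6 (show (0 : ℝ) ≤ (s : ℝ) / R by positivity)
  rw [h2]
  linarith only [h3, h5, h7]

end

/-- the numerical inequality -/
private lemma SNearA_num {α A A₀ C₀ r1 R μ t s₁ q : ℝ} (hα : 0 ≤ α) (hA : 0 ≤ A) (hA₀ : A ≤ A₀)
    (hC₀ : 0 ≤ C₀) (hR : 3 ≤ R) (hr : r1 = R - 1) (hμ0 : 0 ≤ μ) (ht0 : 0 ≤ t) (ht1 : t ≤ 1)
    (hs0 : 0 ≤ s₁) (hs1 : s₁ ≤ 1) (hμ : μ ≤ r1 * (t + s₁)) (hqs : q ≤ s₁) :
    α * (1 - (A + 2 * C₀ / R) * t - C₀ * t ^ 2) - α * (A₀ + 4 * C₀ + 1) * s₁ ≤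
      α - α * (A / r1) * μ - α * (C₀ / r1 ^ 2) * (μ ^ 2 + μ) - α * q := by
  have hr2 : 2 ≤ r1 := by linarith
  have hr0 : 0 < r1 := by linarith
  set x : ℝ := μ / r1 with hx
  have hx0 : 0 ≤ x := by positivity
  have hμx : μ = r1 * x := by
    rw [hx]
    field_simp
  have hxt : x ≤ t + s₁ := by
    rw [hx, div_le_iff₀ hr0]
    linarith
  have e1 : α * (A / r1) * μ = α * (A * x) := by
    rw [hμx]
    field_simp
  have e2 : α * (C₀ / r1 ^ 2) * (μ ^ 2 + μ) = α * (C₀ * x ^ 2 + C₀ * (1 / r1) * x) := by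
    rw [hμx]
    field_simp
  rw [e1, e2]
  have h1 : A * x ≤ A * t + A₀ * s₁ := by
    have h2 := mul_le_mul_of_nonneg_left hxt hA
    have h3 := mul_le_mul_of_nonneg_right hA₀ hs0
    linarith only [h2, h3]
  have h2 : C₀ * x ^ 2 ≤ C₀ * t ^ 2 + C₀ * (3 * s₁) := by
    have h3 : x ^ 2 ≤ t ^ 2 + 3 * s₁ := by
      have h4 : x ^ 2 ≤ (t + s₁) ^ 2 := pow_le_pow_left₀ hx0 hxt 2
      have h5 : t * s₁ ≤ 1 * s₁ := mul_le_mul_of_nonneg_right ht1 hs0
      have h6 : s₁ * s₁ ≤ 1 * s₁ := mul_le_mul_of_nonneg_right hs1 hs0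
      have h7 : (t + s₁) ^ 2 = t ^ 2 + 2 * (t * s₁) + s₁ * s₁ := by ring
      linarith only [h4, h5, h6]
    have h4 := mul_le_mul_of_nonneg_left h3 hC₀
    linarith
  have h3 : C₀ * (1 / r1) * x ≤ 2 * C₀ / R * t + C₀ * s₁ := by
    have h4 : 1 / r1 ≤ 2 / R := by
      rw [div_le_div_iff₀ hr0 (by linarith)]
      linarith only [hR, hr]
    have h5 : 1 / r1 ≤ 1 := by
      rw [div_le_one hr0]
      linarith
    have h6 : C₀ * (1 / r1) * x ≤ C₀ * (1 / r1) * (t + s₁) :=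
      mul_le_mul_of_nonneg_left hxt (by positivity)
    have h7 : C₀ * (1 / r1) * t ≤ C₀ * (2 / R) * t :=
      mul_le_mul_of_nonneg_right (mul_le_mul_of_nonneg_left h4 hC₀) ht0
    have h8 : C₀ * (1 / r1) * s₁ ≤ C₀ * 1 * s₁ :=
      mul_le_mul_of_nonneg_right (mul_le_mul_of_nonneg_left h5 hC₀) hs0
    have e : C₀ * (2 / R) * t = 2 * C₀ / R * t := by ring
    rw [← e]
    linarith only [h6, h7, h8]
  have h4 : 1 - (A + 2 * C₀ / R) * t - C₀ * t ^ 2 - (A₀ + 4 * C₀ + 1) * s₁ ≤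
      1 - A * x - (C₀ * x ^ 2 + C₀ * (1 / r1) * x) - q := by
    have e : (A + 2 * C₀ / R) * t = A * t + 2 * C₀ / R * t := by ring
    rw [e]
    linarith only [hqs, h1, h2, h3]
  have h5 := mul_le_mul_of_nonneg_left h4 hα
  linarith only [h5]

/-- lower bound for the credit -/
theorem near_credit (u : ℕ) (β : ℝ) (hβ : 0 < β) (hβ1 : β < 1) : ∃ Cn : ℝ, 0 < Cn ∧ ∃ R₀ : ℕ,
    3 ≤ R₀ ∧ ∀ R : ℕ, R₀ ≤ R → ∀ (s : ℕ) (ε : ℝ), 0 ≤ ε → ε ≤ 1 → ∀ C η₁ κ' : ℝ, 0 < C →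
      0 < η₁ → η₁ ≤ 1 / 16 → 0 < κ' →
    ∃ δ₀ : ℝ, 0 < δ₀ ∧ ∀ δ : ℝ, 0 < δ → δ ≤ δ₀ → ∃ m₀ : ℕ, ∀ m : ℕ, m₀ ≤ m →
      ∀ (V : Type) [DecidableEq V] (G : SimpleGraph V) [DecidableRel G.Adj] (S : Finset V)
        (B : Fin R → Finset V), clq G S (R + 1) = ∅ → LS G S R m C η₁ δ B →
        ∀ z ∈ S \ un B,
        (s : ℝ) / R * (1 - (u * β / (1 - β) + ε + Cn / R) * (1 - sgm G m B z) -
            Cn * (1 - sgm G m B z) ^ 2) - κ' ≤
          (∑ f ∈ tcl G B, xzK G R s (ktS R s u β ε) f z) / ∏ l, ((B l).card : ℝ) := by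
  obtain ⟨C₀, hC₀, R₁, hR₁, hnear⟩ := ktS_near u β hβ hβ1
  have hb1 : 0 < 1 - β := by linarith
  refine ⟨3 * C₀, by positivity, max 3 R₁, le_max_left _ _,
    fun R hR s ε hε hε1 C η₁ κ' hC hη hη1 hκ => ?_⟩
  have hR3 : 3 ≤ R := (le_max_left _ _).trans hR
  have hR2 : 2 ≤ R := by omega
  have hRR : R₁ ≤ R := (le_max_right _ _).trans hR
  have hR3' : (3 : ℝ) ≤ R := by exact_mod_cast hR3
  have hR0 : (0 : ℝ) < R := by linarith only [hR3']
  have hR1 : (0 : ℝ) < (R : ℝ) - 1 := by linarith only [hR3']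
  obtain ⟨α, hα⟩ : ∃ α : ℝ, α = (s : ℝ) / R := ⟨_, rfl⟩
  have hα0 : 0 ≤ α := by rw [hα]; positivity
  obtain ⟨A, hA⟩ : ∃ A : ℝ, A = u * β / (1 - β) + ε + C₀ / R := ⟨_, rfl⟩
  have hA0 : 0 ≤ A := by rw [hA]; positivity
  obtain ⟨K, hK⟩ : ∃ K : ℝ, K = A + 4 * C₀ + 1 := ⟨_, rfl⟩
  have hK1 : 1 ≤ K := by rw [hK]; linarith only [hA0, hC₀]
  -- the allowed error of the mean
  obtain ⟨s₁, hs₁⟩ : ∃ s₁ : ℝ, s₁ = min 1 (κ' / (2 * (1 + α) * K)) := ⟨_, rfl⟩
  have hs0 : 0 < s₁ := by rw [hs₁]; positivity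
  have hs1 : s₁ ≤ 1 := by rw [hs₁]; exact min_le_left _ _
  have hsκ : s₁ ≤ κ' / (2 * (1 + α) * K) := by rw [hs₁]; exact min_le_right _ _
  obtain ⟨δ₁, hδ₁, hsg⟩ := sgm_le R hR3 C η₁ hC hη hη1
  refine ⟨min (min (1 / 4) δ₁) (s₁ / 4), by positivity, fun δ hδ hδ' => ?_⟩
  have hδ4 : δ ≤ 1 / 4 := hδ'.trans ((min_le_left _ _).trans (min_le_left _ _))
  have hδ1 : δ ≤ δ₁ := hδ'.trans ((min_le_left _ _).trans (min_le_right _ _))
  have hδs : δ ≤ s₁ / 4 := hδ'.trans (min_le_right _ _)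
  obtain ⟨m₀, hm₀⟩ := hsg δ hδ hδ1
  obtain ⟨m₁, hm₁⟩ := heavy_part R hR2 C η₁ δ hC hδ (by linarith only [hδ4]) (s₁ / 4)
    (by linarith only [hs0])
  obtain ⟨m₂, hm₂⟩ := exists_nat_gt (4 * α * (R : ℝ) ^ 2 * C / κ' + 1)
  refine ⟨max m₀ (max m₁ m₂), fun m hm V _ G _ S B hfree hB z hz => ?_⟩
  have hzS : z ∈ S := (mem_sdiff.1 hz).1
  have hmm0 : m₀ ≤ m := (le_max_left _ _).trans hm
  have hmm1 : m₁ ≤ m := (le_max_left _ _).trans ((le_max_right _ _).trans hm)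
  have hmm : (m₂ : ℝ) ≤ m := by
    exact_mod_cast (le_max_right _ _).trans ((le_max_right _ _).trans hm)
  have hq0 : 0 ≤ 4 * α * (R : ℝ) ^ 2 * C / κ' := by positivity
  have hm1 : (1 : ℝ) ≤ m := by linarith only [hmm, hm₂, hq0]
  have hm0 : (0 : ℝ) < m := by linarith only [hm1]
  have hmK : 4 * α * (R : ℝ) ^ 2 * C ≤ κ' * m := by
    have h1 : 4 * α * (R : ℝ) ^ 2 * C / κ' ≤ m := by linarith only [hmm, hm₂]
    rw [div_le_iff₀ hκ] at h1
    linarith only [h1]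
  obtain ⟨i₀, hi₀⟩ := hm₁ m hmm1 V G S B hfree hB z hzS
  have hσ := hm₀ m hmm0 V G S B hfree hB z hz
  obtain ⟨σ, hσd⟩ : ∃ σ : ℝ, σ = sgm G m B z := ⟨_, rfl⟩
  rw [← hσd] at hσ ⊢
  have hσ1 : σ ≤ 1 := by
    have : 0 ≤ η₁ / (4 * R) := by positivity
    linarith only [this, hσ]
  have hσ0 : 0 ≤ σ := by
    rw [hσd]
    unfold sgm
    exact div_nonneg (sum_nonneg fun i _ => Nat.cast_nonneg _) (by positivity)
  have hblo : ∀ i, (3 / 4 : ℝ) * m ≤ ((B i).card : ℝ) := fun i => by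
    have h1 := hB.size_lo i
    have h2 : (3 / 4 : ℝ) * m ≤ (1 - δ) * m :=
      mul_le_mul_of_nonneg_right (by linarith only [hδ4]) hm0.le
    linarith only [h1, h2]
  have hb : ∀ i, (0 : ℝ) < ((B i).card : ℝ) := fun i =>
    lt_of_lt_of_le (by positivity) (hblo i)
  obtain ⟨p, hp⟩ : ∃ p : Fin R → ℝ, ∀ i, p i = ((hs G (B i) z).card : ℝ) / ((B i).card : ℝ) :=
    ⟨_, fun _ => rfl⟩
  have hdg : ∀ i, (dg G (B i) z : ℝ) = (1 - p i) * ((B i).card : ℝ) := by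
    intro i
    have h1 : dg G (B i) z + (hs G (B i) z).card = (B i).card := by
      unfold dg hs
      exact card_filter_add_card_filter_not _
    have h2 : (dg G (B i) z : ℝ) + ((hs G (B i) z).card : ℝ) = ((B i).card : ℝ) := by
      exact_mod_cast h1
    rw [hp i]
    have h3 := (hb i).ne'
    field_simp
    linarith only [h2]
  have hp0 : ∀ i, 0 ≤ p i := fun i => by rw [hp i]; positivity
  have hp1 : ∀ i, p i ≤ 1 := by
    intro i
    rw [hp i, div_le_one (hb i)]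
    exact_mod_cast card_le_card (hs_subset _ _)
  obtain ⟨μ, hμ⟩ : ∃ μ : ℝ, μ = ∑ i ∈ univ.erase i₀, p i := ⟨_, rfl⟩
  obtain ⟨T, hT⟩ : ∃ T : ℝ, T = ∑ i, (1 - p i) := ⟨_, rfl⟩
  have hTμ : T = (1 - p i₀) + ((R : ℝ) - 1) - μ := by
    rw [hT, hμ, sum_sub_distrib, sum_const, card_univ, Fintype.card_fin, nsmul_eq_mul, mul_one,
      ← Finset.add_sum_erase univ p (mem_univ i₀)]
    ring
  have hpi : 1 - p i₀ ≤ s₁ / 2 := by
    have h1 := hdg i₀
    have h2 : (1 - p i₀) * (3 / 4 * m) ≤ (1 - p i₀) * ((B i₀).card : ℝ) :=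
      mul_le_mul_of_nonneg_left (hblo i₀) (by linarith only [hp1 i₀])
    have h3 : (1 - p i₀) * (3 / 4 * m) ≤ s₁ / 4 * m := by linarith only [h1, h2, hi₀]
    have h4 : m * ((1 - p i₀) * (3 / 4)) ≤ m * (s₁ / 4) := by linarith only [h3]
    have h5 := le_of_mul_le_mul_left h4 hm0
    linarith only [h5, hs0]
  have hμ0 : 0 ≤ μ := by rw [hμ]; exact sum_nonneg fun i _ => hp0 i
  -- the mean is at most `(R - 1) (1 - σ + s₁)`
  have hD : (∑ i, (dg G (B i) z : ℝ)) ≤ T * ((1 + δ) * m) := by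
    rw [hT, sum_mul]
    refine sum_le_sum fun i _ => ?_
    rw [hdg i]
    exact mul_le_mul_of_nonneg_left (hB.size_hi i) (by linarith only [hp1 i])
  have hTR : T ≤ R := by
    rw [hT]
    calc ∑ i, (1 - p i) ≤ ∑ _i : Fin R, (1 : ℝ) := sum_le_sum fun i _ => by linarith only [hp0 i]
      _ = R := by simp
  have hσT : σ * ((R : ℝ) - 1) ≤ T + R * δ := by
    have h1 : (∑ i, (dg G (B i) z : ℝ)) = σ * (((R : ℝ) - 1) * m) := by
      rw [hσd]
      unfold sgm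
      rw [div_mul_cancel₀]
      positivity
    rw [h1] at hD
    have h2 : m * (σ * ((R : ℝ) - 1)) ≤ m * (T + T * δ) := by
      calc m * (σ * ((R : ℝ) - 1)) = σ * (((R : ℝ) - 1) * m) := by ring
        _ ≤ T * ((1 + δ) * m) := hD
        _ = m * (T + T * δ) := by ring
    have h3 := le_of_mul_le_mul_left h2 hm0
    have h4 : T * δ ≤ R * δ := mul_le_mul_of_nonneg_right hTR hδ.le
    linarith only [h3, h4]
  have hμ2 : μ ≤ ((R : ℝ) - 1) * ((1 - σ) + s₁) := by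
    have h1 : R * δ ≤ ((R : ℝ) - 1) * (s₁ / 2) := by
      have h2 : (R : ℝ) * δ ≤ R * (s₁ / 4) := mul_le_mul_of_nonneg_left hδs hR0.le
      have h3 : (R : ℝ) * (s₁ / 4) ≤ ((R : ℝ) - 1) * (s₁ / 2) := by
        linarith only [mul_nonneg hs0.le (by linarith only [hR3'] : (0 : ℝ) ≤ (R : ℝ) - 2)]
      linarith only [h2, h3]
    have h2 : s₁ / 2 ≤ ((R : ℝ) - 1) * (s₁ / 2) := by
      linarith only [mul_nonneg hs0.le (by linarith only [hR3'] : (0 : ℝ) ≤ (R : ℝ) - 2)]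
    have e : ((R : ℝ) - 1) * ((1 - σ) + s₁) = ((R : ℝ) - 1) - σ * ((R : ℝ) - 1) +
        ((R : ℝ) - 1) * (s₁ / 2) + ((R : ℝ) - 1) * (s₁ / 2) := by ring
    rw [e]
    linarith only [h1, h2, hσT, hTμ, hpi]
  -- the averages
  have havg := SNearA_avg (s := s) (u := u) (G := G) hR2 hβ hβ1 hε hε1 hC₀
    (hnear R hRR s ε hε hε1) B hb z i₀ p hp
  rw [← hα, ← hA, ← hμ] at havg
  have htcl := SNearA_tcl (G := G) (s := s) (u := u) hR2 hβ hβ1 hε hε1 B z
  have hDD := SNearA_DD hB hC (by linarith only [hδ4]) hm0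
  obtain ⟨P, hP⟩ : ∃ P : ℝ, P = ∏ l, ((B l).card : ℝ) := ⟨_, rfl⟩
  have hP0 : 0 < P := by rw [hP]; exact prod_pos fun i _ => hb i
  rw [← hP] at havg hDD ⊢
  rw [← hα] at htcl
  have hnum := SNearA_num (α := α) (A := A) (A₀ := A) (C₀ := C₀) (r1 := (R : ℝ) - 1) (R := (R : ℝ))
    (μ := μ) (t := 1 - σ) (s₁ := s₁) (q := 1 - p i₀) hα0 hA0 le_rfl hC₀.le hR3' rfl hμ0
    (by linarith only [hσ1]) (by linarith only [hσ0]) hs0.le hs1 hμ2 (by linarith only [hpi, hs0])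
  set Q : ℝ := ∑ f ∈ tcl G B, xzK G R s (ktS R s u β ε) f z with hQ
  have h4 : α * (1 / 2 * ∑ f ∈ Fintype.piFinset B, DD G f) ≤ P * (κ' / 2) := by
    have h5 : α * (1 / 2 * ∑ f ∈ Fintype.piFinset B, DD G f) ≤
        α * (1 / 2 * ((R : ℝ) ^ 2 * (4 * C * P / m))) :=
      mul_le_mul_of_nonneg_left (mul_le_mul_of_nonneg_left hDD (by norm_num)) hα0
    refine h5.trans ?_
    have h7 : α * (1 / 2 * ((R : ℝ) ^ 2 * (4 * C * P / m))) =
        P * (2 * α * (R : ℝ) ^ 2 * C / m) := by ring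
    rw [h7]
    refine mul_le_mul_of_nonneg_left ?_ hP0.le
    rw [div_le_iff₀ hm0]
    linarith only [hmK]
  have h5 : α * (A + 4 * C₀ + 1) * s₁ ≤ κ' / 2 := by
    rw [← hK]
    have h6 : α * K * s₁ ≤ α * K * (κ' / (2 * (1 + α) * K)) :=
      mul_le_mul_of_nonneg_left hsκ (by positivity)
    have h7 : α * K * (κ' / (2 * (1 + α) * K)) = κ' / 2 * (α / (1 + α)) := by
      field_simp
    have h8 : α / (1 + α) ≤ 1 := by
      rw [div_le_one (by positivity)]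
      linarith only []
    have h9 := mul_le_mul_of_nonneg_left h8 (show 0 ≤ κ' / 2 by positivity)
    linarith only [h6, h7, h9]
  have h6 : P * (α * (1 - (A + 2 * C₀ / R) * (1 - σ) - C₀ * (1 - σ) ^ 2) - κ' / 2) ≤
      P * (α - α * (A / ((R : ℝ) - 1)) * μ - α * (C₀ / ((R : ℝ) - 1) ^ 2) * (μ ^ 2 + μ) -
        α * (1 - p i₀)) := mul_le_mul_of_nonneg_left (by linarith only [hnum, h5]) hP0.le
  have h7 : P * (α * (1 - (A + 2 * C₀ / R) * (1 - σ) - C₀ * (1 - σ) ^ 2) - κ') ≤ Q := by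
    have e : P * (α * (1 - (A + 2 * C₀ / R) * (1 - σ) - C₀ * (1 - σ) ^ 2) - κ') =
        P * (α * (1 - (A + 2 * C₀ / R) * (1 - σ) - C₀ * (1 - σ) ^ 2) - κ' / 2) -
          P * (κ' / 2) := by ring
    rw [e]
    linarith only [havg, htcl, h4, h6]
  have h8 : α * (1 - (A + 2 * C₀ / R) * (1 - σ) - C₀ * (1 - σ) ^ 2) - κ' ≤ Q / P := by
    rw [le_div_iff₀ hP0]
    linarith only [havg, htcl, h4, h6]
  refine le_trans ?_ h8
  rw [← hα]
  have h9 : (u * β / (1 - β) + ε + 3 * C₀ / R) = A + 2 * C₀ / R := by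
    rw [hA]
    ring
  rw [h9]
  have h10 : 0 ≤ α * (C₀ * (1 - σ) ^ 2) := by positivity
  have h11 : α * (1 - (A + 2 * C₀ / R) * (1 - σ) - 3 * C₀ * (1 - σ) ^ 2) =
      α * (1 - (A + 2 * C₀ / R) * (1 - σ) - C₀ * (1 - σ) ^ 2) -
        2 * (α * (C₀ * (1 - σ) ^ 2)) := by ring
  rw [h11]
  linarith only [h10]

end H57GH
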