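import Pool.Agent.H57.GH.SNonB

/-!
Project SH: sets with few edges (assembly, compare NonB.nonB).
-/

namespace H57GH

open Finset H57LC H57LT

set_option linter.unusedSectionVars false

/-- powers of `1 + x` -/
theorem SNon_pow {x : ℝ} (hx0 : 0 ≤ x) (hx1 : x ≤ 1) (k : ℕ) : (1 + x) ^ k ≤ 1 + 3 ^ k * x := by
  induction k with
  | zero => simpa using hx0
  | succ k ih =>
    have h3 : (1 : ℝ) ≤ 3 ^ k := one_le_pow₀ (by norm_num)
    have h4 : (0 : ℝ) ≤ 3 ^ k := by linarith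
    calc (1 + x) ^ (k + 1) = (1 + x) ^ k * (1 + x) := pow_succ _ _
      _ ≤ (1 + 3 ^ k * x) * (1 + x) := mul_le_mul_of_nonneg_right ih (by linarith)
      _ ≤ 1 + 3 ^ (k + 1) * x := by
        rw [pow_succ]
        nlinarith [mul_nonneg h4 (mul_nonneg hx0 (by linarith : (0 : ℝ) ≤ 1 - x)),
          mul_nonneg hx0 (by linarith : (0 : ℝ) ≤ 3 ^ k - 1)]

/-- many missing vertices, many vertices of small degree -/
theorem SNon_caseA (t : ℕ) {R m C₁ C₃ X M : ℝ} (hR : 0 < R) (hm : 1 ≤ m) (hC₁ : 0 ≤ C₁)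
    (hC₃ : 0 ≤ C₃) (hRC : C₃ + 1 ≤ R) (hmR : R * (2 * C₁ + 3 ^ (t + 2)) ≤ m)
    (hX : X ≤ R * m - (C₃ + 1) * m) (hM : (1 - C₃ / R) * (R * m) ^ (t + 2) ≤ M) :
    (R * m) ^ (t + 1) * (1 + 1 / m) ^ (t + 2) * X ≤ (1 - 2 * C₁ / m) * M := by
  have hm0 : 0 < m := by linarith
  have hRm : 0 < R * m := by positivity
  have h3 : (0 : ℝ) ≤ 3 ^ (t + 2) := by positivity
  obtain ⟨a, ha⟩ : ∃ a : ℝ, a = 3 ^ (t + 2) / m := ⟨_, rfl⟩
  obtain ⟨b, hb⟩ : ∃ b : ℝ, b = C₃ / R := ⟨_, rfl⟩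
  obtain ⟨c, hc⟩ : ∃ c : ℝ, c = 1 / R := ⟨_, rfl⟩
  obtain ⟨d, hd⟩ : ∃ d : ℝ, d = 2 * C₁ / m := ⟨_, rfl⟩
  have ha0 : 0 ≤ a := by rw [ha]; positivity
  have hb0 : 0 ≤ b := by rw [hb]; positivity
  have hc0 : 0 ≤ c := by rw [hc]; positivity
  have hd0 : 0 ≤ d := by rw [hd]; positivity
  have had : a + d ≤ c := by
    rw [ha, hd, hc, ← add_div, div_le_div_iff₀ hm0 hR]
    linarith
  have hbc : b + c ≤ 1 := by
    rw [hb, hc, ← add_div, div_le_one hR]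
    exact hRC
  have hq : (1 + 1 / m) ^ (t + 2) ≤ 1 + a := by
    have h := SNon_pow (x := 1 / m) (by positivity) (by rw [div_le_one hm0]; exact hm) (t + 2)
    rw [ha]
    calc (1 + 1 / m) ^ (t + 2) ≤ 1 + 3 ^ (t + 2) * (1 / m) := h
      _ = 1 + 3 ^ (t + 2) / m := by ring
  have hXe : R * m - (C₃ + 1) * m = R * m * (1 - b - c) := by
    rw [hb, hc]
    field_simp
    ring
  have hX' : X ≤ R * m * (1 - b - c) := by rw [← hXe]; exact hX
  have h1 : 0 ≤ (R * m) ^ (t + 1) * (1 + 1 / m) ^ (t + 2) := by positivity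
  have h2 : (R * m) ^ (t + 1) * (1 + 1 / m) ^ (t + 2) * X ≤
      (R * m) ^ (t + 1) * (1 + a) * (R * m * (1 - b - c)) := by
    calc (R * m) ^ (t + 1) * (1 + 1 / m) ^ (t + 2) * X
        ≤ (R * m) ^ (t + 1) * (1 + 1 / m) ^ (t + 2) * (R * m * (1 - b - c)) :=
          mul_le_mul_of_nonneg_left hX' h1
      _ ≤ (R * m) ^ (t + 1) * (1 + a) * (R * m * (1 - b - c)) := by
          apply mul_le_mul_of_nonneg_right
          · exact mul_le_mul_of_nonneg_left hq (by positivity)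
          · exact mul_nonneg hRm.le (by linarith)
  have h4 : (R * m) ^ (t + 1) * (1 + a) * (R * m * (1 - b - c)) =
      (R * m) ^ (t + 2) * ((1 + a) * (1 - b - c)) := by
    rw [pow_succ (R * m) (t + 1)]
    ring
  have h5 : (1 + a) * (1 - b - c) ≤ (1 - d) * (1 - b) := by
    have e1 : 0 ≤ a * c := mul_nonneg ha0 hc0
    have e2 : (a + d) * (1 - b) ≤ c := by
      have e3 : (a + d) * (1 - b) ≤ (a + d) * 1 :=
        mul_le_mul_of_nonneg_left (by linarith) (by linarith)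
      linarith
    nlinarith
  have h6 : (R * m) ^ (t + 2) * ((1 + a) * (1 - b - c)) ≤
      (R * m) ^ (t + 2) * ((1 - d) * (1 - b)) :=
    mul_le_mul_of_nonneg_left h5 (by positivity)
  have hd1 : 0 ≤ 1 - d := by linarith
  have h7 : (1 - d) * ((1 - b) * (R * m) ^ (t + 2)) ≤ (1 - d) * M :=
    mul_le_mul_of_nonneg_left (by rw [hb]; exact hM) hd1
  rw [← hd]
  calc (R * m) ^ (t + 1) * (1 + 1 / m) ^ (t + 2) * X
      ≤ (R * m) ^ (t + 2) * ((1 + a) * (1 - b - c)) := by rw [← h4]; exact h2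
    _ ≤ (R * m) ^ (t + 2) * ((1 - d) * (1 - b)) := h6
    _ = (1 - d) * ((1 - b) * (R * m) ^ (t + 2)) := by ring
    _ ≤ (1 - d) * M := h7

/-- the lower bound for the slope -/
theorem SNon_slope (t : ℕ) {R m n C₂ C₄ x₀ : ℝ} (hR : 0 < R) (hm : 0 ≤ m) (hC₂ : 0 ≤ C₂)
    (hC₄ : 0 ≤ C₄) (hx1 : x₀ ≤ 1 / 4) (hRx : 4 * (((t : ℝ) + 2) ^ 2 * C₄ + C₂) ≤ x₀ * R)
    (hRC : C₄ ≤ R) (hn : (R - C₄) * m ≤ n) :
    ((t : ℝ) + 2 - x₀ / 4) * (R * m) ^ (t + 1) ≤ ((t : ℝ) + 2 - C₂ / R) * n ^ (t + 1) := by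
  have ht0 : (0 : ℝ) ≤ (t : ℝ) := Nat.cast_nonneg _
  obtain ⟨a, ha⟩ : ∃ a : ℝ, a = C₄ / R := ⟨_, rfl⟩
  obtain ⟨b, hb⟩ : ∃ b : ℝ, b = C₂ / R := ⟨_, rfl⟩
  have ha0 : 0 ≤ a := by rw [ha]; positivity
  have hb0 : 0 ≤ b := by rw [hb]; positivity
  have ha1 : a ≤ 1 := by rw [ha, div_le_one hR]; exact hRC
  have hab : 4 * (((t : ℝ) + 2) ^ 2 * a + b) ≤ x₀ := by
    have e1 : 4 * (((t : ℝ) + 2) ^ 2 * a + b) = 4 * (((t : ℝ) + 2) ^ 2 * C₄ + C₂) / R := by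
      rw [ha, hb]
      ring
    rw [e1, div_le_iff₀ hR]
    exact hRx
  have hn' : (1 - a) * (R * m) ≤ n := by
    have e1 : (1 - a) * (R * m) = (R - C₄) * m := by
      rw [ha]
      field_simp
    rw [e1]
    exact hn
  have h1 : ((1 - a) * (R * m)) ^ (t + 1) ≤ n ^ (t + 1) :=
    pow_le_pow_left₀ (mul_nonneg (by linarith) (mul_nonneg hR.le hm)) hn' _
  have h2 : 1 - ((t : ℝ) + 1) * a ≤ (1 - a) ^ (t + 1) := by
    have h := one_add_mul_le_pow (a := -a) (by linarith) (t + 1)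
    push_cast at h
    have e1 : 1 + -a = 1 - a := by ring
    rw [e1] at h
    linarith
  have h3 : 0 ≤ (R * m) ^ (t + 1) := by positivity
  have h4 : (1 - ((t : ℝ) + 1) * a) * (R * m) ^ (t + 1) ≤ n ^ (t + 1) := by
    calc (1 - ((t : ℝ) + 1) * a) * (R * m) ^ (t + 1) ≤ (1 - a) ^ (t + 1) * (R * m) ^ (t + 1) :=
          mul_le_mul_of_nonneg_right h2 h3
      _ = ((1 - a) * (R * m)) ^ (t + 1) := (mul_pow _ _ _).symm
      _ ≤ n ^ (t + 1) := h1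
  have hx4 : b ≤ (t : ℝ) + 2 := by nlinarith [mul_nonneg (sq_nonneg ((t : ℝ) + 2)) ha0]
  have h5 : ((t : ℝ) + 2 - x₀ / 4) ≤ ((t : ℝ) + 2 - b) * (1 - ((t : ℝ) + 1) * a) := by
    have e1 : 0 ≤ b * (((t : ℝ) + 1) * a) := by positivity
    have e2 : ((t : ℝ) + 2) * (((t : ℝ) + 1) * a) ≤ ((t : ℝ) + 2) ^ 2 * a := by
      have : 0 ≤ ((t : ℝ) + 2) * a := by positivity
      nlinarith
    nlinarith
  rw [← hb]
  calc ((t : ℝ) + 2 - x₀ / 4) * (R * m) ^ (t + 1)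
      ≤ ((t : ℝ) + 2 - b) * (1 - ((t : ℝ) + 1) * a) * (R * m) ^ (t + 1) :=
        mul_le_mul_of_nonneg_right h5 h3
    _ = ((t : ℝ) + 2 - b) * ((1 - ((t : ℝ) + 1) * a) * (R * m) ^ (t + 1)) := by ring
    _ ≤ ((t : ℝ) + 2 - b) * n ^ (t + 1) := mul_le_mul_of_nonneg_left h4 (by linarith)

/-- the power of `1 + 1 / m` against `x₀` -/
theorem SNon_q (t : ℕ) {m x₀ : ℝ} (hm1 : 1 ≤ m) (hx : 0 < x₀) (hx1 : x₀ ≤ 1 / 4)
    (hmx : 2 * 3 ^ (t + 2) * ((t : ℝ) + 2) ≤ m * x₀) :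
    (1 + 1 / m) ^ (t + 2) * ((t : ℝ) + 2 - x₀) ≤ (t : ℝ) + 2 - x₀ / 2 := by
  have ht0 : (0 : ℝ) ≤ (t : ℝ) := Nat.cast_nonneg _
  have hm0 : 0 < m := by linarith
  have h1 := SNon_pow (x := 1 / m) (by positivity)
    (by rw [div_le_one hm0]; exact hm1) (t + 2)
  have h2 : 0 ≤ (t : ℝ) + 2 - x₀ := by linarith
  have h3 : (1 + 1 / m) ^ (t + 2) * ((t : ℝ) + 2 - x₀) ≤
      (1 + 3 ^ (t + 2) * (1 / m)) * ((t : ℝ) + 2 - x₀) :=
    mul_le_mul_of_nonneg_right h1 h2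
  have e0 : (0 : ℝ) ≤ 3 ^ (t + 2) * (1 / m) := by positivity
  have e1 : 3 ^ (t + 2) * (1 / m) * ((t : ℝ) + 2 - x₀) ≤
      3 ^ (t + 2) * (1 / m) * ((t : ℝ) + 2) :=
    mul_le_mul_of_nonneg_left (by linarith) e0
  have e2 : 3 ^ (t + 2) * (1 / m) * ((t : ℝ) + 2) = 3 ^ (t + 2) * ((t : ℝ) + 2) / m := by ring
  have e3 : 3 ^ (t + 2) * ((t : ℝ) + 2) / m ≤ x₀ / 2 := by
    rw [div_le_iff₀ hm0]
    linarith
  have e4 : (1 + 3 ^ (t + 2) * (1 / m)) * ((t : ℝ) + 2 - x₀) =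
      ((t : ℝ) + 2 - x₀) + 3 ^ (t + 2) * (1 / m) * ((t : ℝ) + 2 - x₀) := by ring
  linarith

theorem SNon_C2 (t : ℕ) {R C₂ C₄ x₀ : ℝ} (hR0 : 0 < R) (hC₄ : 0 ≤ C₄) (hx1 : x₀ ≤ 1 / 4)
    (hRx : 4 * (((t : ℝ) + 2) ^ 2 * C₄ + C₂) ≤ x₀ * R) : C₂ / R ≤ ((t : ℝ) + 2) / 2 := by
  rw [div_le_iff₀ hR0]
  have h0 : 0 ≤ ((t : ℝ) + 2) ^ 2 * C₄ := by positivity
  have h1 : x₀ * R ≤ 1 / 4 * R := mul_le_mul_of_nonneg_right hx1 hR0.le
  have h2 : 0 ≤ (t : ℝ) * R := mul_nonneg (Nat.cast_nonneg _) hR0.le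
  have h3 : ((t : ℝ) + 2) / 2 * R = (t : ℝ) * R / 2 + R := by ring
  linarith

theorem SNon_n1 {R m n k C₃ C₄ e : ℝ} (hC₄ : C₄ = (C₃ + 1) + (C₃ + 2) / e)
    (hkm : k ≤ (C₃ + 2) / e * m) (hPn : R * m - n ≤ (C₃ + 1) * m) :
    (R - C₄) * m ≤ n - k := by
  have h : (R - C₄) * m = R * m - (C₃ + 1) * m - (C₃ + 2) / e * m := by
    rw [hC₄]
    ring
  linarith

theorem SNon_n2 {R m n' C₄ : ℝ} (hm : 0 ≤ m) (hR4 : 2 * C₄ ≤ R) (h : (R - C₄) * m ≤ n') :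
    R * m / 2 ≤ n' := by
  have h1 : C₄ * m ≤ R / 2 * m := mul_le_mul_of_nonneg_right (by linarith) hm
  have h2 : (R - C₄) * m = R * m - C₄ * m := by ring
  linarith

theorem SNon_k {m n k a b R r C₃ ε₄ e : ℝ} (he0 : 0 < e) (he1 : e ≤ ε₄) (he2 : e ≤ 1 / 2)
    (ha0 : 0 ≤ a) (hb0 : 0 ≤ b) (hkab : k = a + b) (hn : n ≤ R * m + r) (hr : r ≤ m)
    (hcase : R * m - n + ε₄ * a + 1 / 2 * b < (C₃ + 1) * m) : k ≤ (C₃ + 2) / e * m := by
  have h1 : e * k ≤ ε₄ * a + 1 / 2 * b := by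
    rw [hkab]
    have e1 : e * a ≤ ε₄ * a := mul_le_mul_of_nonneg_right he1 ha0
    have e2 : e * b ≤ 1 / 2 * b := mul_le_mul_of_nonneg_right he2 hb0
    linarith
  have h2 : e * k ≤ (C₃ + 2) * m := by linarith
  have h3 : (C₃ + 2) / e * m = (C₃ + 2) * m / e := by ring
  rw [h3, le_div_iff₀ he0]
  linarith

/-- combination of the estimates when few vertices are removed -/
theorem SNon_comb (t : ℕ) {P n k x₀ q c C f F F' E L σ : ℝ} (hP : 0 ≤ P) (hk : 0 ≤ k)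
    (hL : L ≤ E + P ^ (t + 1) * q * (((t : ℝ) + 2 - x₀) * k))
    (hE : E ≤ F' - c * n ^ t * f + C) (hF : F' + k * σ ≤ F)
    (hσ : ((t : ℝ) + 2 - x₀ / 4) * P ^ (t + 1) ≤ σ)
    (hq : q * ((t : ℝ) + 2 - x₀) ≤ (t : ℝ) + 2 - x₀ / 2) :
    L ≤ F - x₀ / 4 * k * P ^ (t + 1) - c * n ^ t * f + C := by
  have h1 : P ^ (t + 1) * q * (((t : ℝ) + 2 - x₀) * k) ≤
      k * P ^ (t + 1) * ((t : ℝ) + 2 - x₀ / 2) := by
    have h0 : 0 ≤ k * P ^ (t + 1) := by positivity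
    calc P ^ (t + 1) * q * (((t : ℝ) + 2 - x₀) * k)
        = k * P ^ (t + 1) * (q * ((t : ℝ) + 2 - x₀)) := by ring
      _ ≤ _ := mul_le_mul_of_nonneg_left hq h0
  have h2 : k * (((t : ℝ) + 2 - x₀ / 4) * P ^ (t + 1)) ≤ k * σ :=
    mul_le_mul_of_nonneg_left hσ hk
  nlinarith

/-- many removed vertices -/
theorem SNon_B1b (t : ℕ) {R m k C C₁ CB x₀ F M : ℝ} (hR : 0 < R) (hm : 1 ≤ m)
    (hC : 0 ≤ C) (hC₁ : 0 ≤ C₁) (hx : 0 < x₀)
    (hCB : R * (t + 2) * (2 * R) ^ (t + 1) + C + 2 * C₁ * R ^ (t + 2) ≤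
      CB * (x₀ * R / 64 * R ^ (t + 1)))
    (hk : CB * R / 16 ≤ k) (hM : M ≤ (R * m) ^ (t + 2))
    (hF : F ≤ M + R * (t + 2) * (2 * (R * m)) ^ (t + 1)) :
    F - x₀ / 4 * k * (R * m) ^ (t + 1) + C ≤ (1 - 2 * C₁ / m) * M := by
  have hm0 : 0 < m := by linarith
  have h1 := NonB_M t hm0 hC₁ hM
  have hm1 : 1 ≤ m ^ (t + 1) := one_le_pow₀ hm
  have h2 : CB * (x₀ * R / 64 * R ^ (t + 1)) * m ^ (t + 1) ≤
      x₀ / 4 * k * (R * m) ^ (t + 1) := by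
    calc CB * (x₀ * R / 64 * R ^ (t + 1)) * m ^ (t + 1)
        = x₀ / 4 * (CB * R / 16) * (R * m) ^ (t + 1) := by rw [mul_pow]; ring
      _ ≤ x₀ / 4 * k * (R * m) ^ (t + 1) :=
          mul_le_mul_of_nonneg_right (mul_le_mul_of_nonneg_left hk (by positivity))
            (by positivity)
  have h5 : (R * (t + 2) * (2 * R) ^ (t + 1) + C + 2 * C₁ * R ^ (t + 2)) * m ^ (t + 1) ≤
      CB * (x₀ * R / 64 * R ^ (t + 1)) * m ^ (t + 1) :=
    mul_le_mul_of_nonneg_right hCB (by positivity)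
  have h6 : C ≤ C * m ^ (t + 1) := le_mul_of_one_le_right hC hm1
  have h7 : (2 * (R * m)) ^ (t + 1) = (2 * R) ^ (t + 1) * m ^ (t + 1) := by
    rw [← mul_pow]
    ring
  rw [h7] at hF
  linarith

variable {ι : Type} [Fintype ι] [DecidableEq ι] (J : SimpleGraph ι) [DecidableRel J.Adj]

theorem SNon_lower {R : ℕ} {C : ℝ} (hC : C / R ≤ (Fintype.card ι : ℝ))
    (h : ∀ n : ℕ, R ≤ n → ((Fintype.card ι : ℝ) - C / R) * (n : ℝ) ^ (Fintype.card ι - 1) ≤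
      FT J R (n + 1) - FT J R n) (n : ℕ) (hn : R ≤ n) (d : ℕ) :
    FT J R n + d * (((Fintype.card ι : ℝ) - C / R) * (n : ℝ) ^ (Fintype.card ι - 1)) ≤
      FT J R (n + d) := by
  induction d with
  | zero => simp
  | succ d ih =>
    have h1 := h (n + d) (by omega)
    have h2 : (n : ℝ) ^ (Fintype.card ι - 1) ≤ ((n + d : ℕ) : ℝ) ^ (Fintype.card ι - 1) := by
      apply pow_le_pow_left₀ (by positivity)
      push_cast
      linarith [(Nat.cast_nonneg d : (0 : ℝ) ≤ d)]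
    have h3 : ((Fintype.card ι : ℝ) - C / R) * (n : ℝ) ^ (Fintype.card ι - 1) ≤
        ((Fintype.card ι : ℝ) - C / R) * ((n + d : ℕ) : ℝ) ^ (Fintype.card ι - 1) :=
      mul_le_mul_of_nonneg_left h2 (by linarith)
    rw [← Nat.add_assoc]
    push_cast
    linarith

theorem nonS [Nonempty ι] (hd : ∀ v, 1 ≤ dg J univ v) (hcs : 2 ≤ Fintype.card ι) (u : ℕ)
    (x₀ ε₄ : ℝ) (hx : 0 < x₀) (hx1 : x₀ ≤ 1 / 4) (hε₄ : 0 < ε₄) (hε₄1 : ε₄ ≤ 1) :
    ∃ R₀ : ℕ, 2 ≤ R₀ ∧ ∀ R : ℕ, R₀ ≤ R → ∀ r : ℕ, r ≤ R → ∀ C₁ : ℝ, 0 < C₁ →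
    ∃ CB : ℝ, 0 < CB ∧ ∃ m₀ : ℕ, ∀ m : ℕ, m₀ ≤ m → ∀ θ : ℝ, 0 ≤ θ →
    (4 * (u : ℝ) * Fintype.card ι + 4) * θ ≤ 1 → ∀ Φ : ℝ → ℝ,
    (∀ y, θ ≤ y → y ≤ 1 - x₀ → 0 ≤ Φ y ∧ y ^ rk J + Φ y ≤ 1 - ε₄) →
    ∀ (V : Type) [DecidableEq V] (G : SimpleGraph V) [DecidableRel G.Adj] (S : Finset V),
      S.card ≤ R * m + r → clq G S (R + 1) = ∅ → ¬ TyB G S R m CB →
      lhsN J G S R m r u θ x₀ Φ ≤ (1 - 2 * C₁ / m) * M0 J R m := by
  obtain ⟨t, ht⟩ : ∃ t, Fintype.card ι = t + 2 := ⟨Fintype.card ι - 2, by omega⟩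
  have hs1 : Fintype.card ι - 1 = t + 1 := by omega
  have hs2 : Fintype.card ι - 2 = t := by omega
  have hsR : (Fintype.card ι : ℝ) = t + 2 := by
    rw [ht]
    push_cast
    ring
  have ht0 : (0 : ℝ) ≤ (t : ℝ) := Nat.cast_nonneg _
  obtain ⟨c, hc, R₁, hR₁, hstab⟩ := stabE J hd
  obtain ⟨C₂, hC₂, hsucc⟩ := FT_succ J hcs
  obtain ⟨C₃, hC₃, hM0⟩ := M0_bounds J
  obtain ⟨e, he⟩ : ∃ e : ℝ, e = min ε₄ (1 / 2) := ⟨_, rfl⟩
  have he0 : 0 < e := by rw [he]; exact lt_min hε₄ (by norm_num)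
  have he1 : e ≤ ε₄ := by rw [he]; exact min_le_left _ _
  have he2 : e ≤ 1 / 2 := by rw [he]; exact min_le_right _ _
  obtain ⟨C₄, hC₄⟩ : ∃ C₄ : ℝ, C₄ = (C₃ + 1) + (C₃ + 2) / e := ⟨_, rfl⟩
  have hC₄3 : C₃ + 1 ≤ C₄ := by
    rw [hC₄]
    have : 0 ≤ (C₃ + 2) / e := by positivity
    linarith only [this]
  have hC₄0 : 0 < C₄ := by linarith only [hC₄3, hC₃]
  obtain ⟨R₂, hR₂⟩ := exists_nat_ge (4 * (((t : ℝ) + 2) ^ 2 * C₄ + C₂) / x₀)
  obtain ⟨R₃, hR₃⟩ := exists_nat_ge (2 * C₄)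
  refine ⟨max 2 (max R₁ (max R₂ R₃)), le_max_left _ _, ?_⟩
  intro R hR r hr C₁ hC₁
  have hR2 : 2 ≤ R := le_trans (le_max_left _ _) hR
  have hR1 : R₁ ≤ R := le_trans (le_trans (le_max_left _ _) (le_max_right _ _)) hR
  have hRR2 : R₂ ≤ R :=
    le_trans (le_trans (le_trans (le_max_left _ _) (le_max_right _ _)) (le_max_right _ _)) hR
  have hRR3 : R₃ ≤ R :=
    le_trans (le_trans (le_trans (le_max_right _ _) (le_max_right _ _)) (le_max_right _ _)) hR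
  obtain ⟨C, hC, hst⟩ := hstab R hR1
  have hRr : (2 : ℝ) ≤ (R : ℝ) := by exact_mod_cast hR2
  have hR0 : (0 : ℝ) < (R : ℝ) := by linarith only [hRr]
  have hRx : 4 * (((t : ℝ) + 2) ^ 2 * C₄ + C₂) ≤ x₀ * R := by
    have h1 : (R₂ : ℝ) ≤ (R : ℝ) := by exact_mod_cast hRR2
    rw [div_le_iff₀ hx] at hR₂
    have h2 : (R₂ : ℝ) * x₀ ≤ R * x₀ := mul_le_mul_of_nonneg_right h1 hx.le
    linarith only [hR₂, h2]
  have hR4 : 2 * C₄ ≤ R := by
    have h1 : (R₃ : ℝ) ≤ (R : ℝ) := by exact_mod_cast hRR3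
    linarith only [hR₃, h1]
  have hK2 : ((R.choose 2 : ℕ) : ℝ) = (R : ℝ) * ((R : ℝ) - 1) / 2 := Nat.cast_choose_two ℝ R
  have hKp : 0 < (R : ℝ) * ((R : ℝ) - 1) / 2 := by
    exact div_pos (mul_pos hR0 (by linarith only [hRr])) two_pos
  obtain ⟨K, hK⟩ : ∃ K : ℝ, K = (R : ℝ) * ((R : ℝ) - 1) / 2 := ⟨_, rfl⟩
  have hK0 : 0 < K := by rw [hK]; exact hKp
  -- the constant `CB`
  obtain ⟨A1, hA1⟩ : ∃ A1 : ℝ, A1 = (R : ℝ) * (t + 2) * (2 * R) ^ (t + 1) + C +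
    2 * C₁ * (R : ℝ) ^ (t + 2) := ⟨_, rfl⟩
  obtain ⟨A2, hA2⟩ : ∃ A2 : ℝ, A2 = C + 2 * C₁ * (R : ℝ) ^ (t + 2) := ⟨_, rfl⟩
  obtain ⟨D1, hD1⟩ : ∃ D1 : ℝ, D1 = c / 4 * ((R : ℝ) / 2) ^ t * K := ⟨_, rfl⟩
  obtain ⟨D2, hD2⟩ : ∃ D2 : ℝ, D2 = (R : ℝ) / 8 * ((t + 2) / 2) * ((R : ℝ) / 2) ^ (t + 1) :=
    ⟨_, rfl⟩
  obtain ⟨D3, hD3⟩ : ∃ D3 : ℝ, D3 = x₀ * R / 64 * (R : ℝ) ^ (t + 1) := ⟨_, rfl⟩
  have hD1p : 0 < D1 := by rw [hD1]; positivity
  have hD2p : 0 < D2 := by rw [hD2]; positivity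
  have hD3p : 0 < D3 := by rw [hD3]; positivity
  obtain ⟨CB, hCB⟩ : ∃ CB : ℝ, CB = max 8 (max (A1 / D1) (max (2 * A2 / D2) (A1 / D3))) :=
    ⟨_, rfl⟩
  have hCB8 : 8 ≤ CB := by rw [hCB]; exact le_max_left _ _
  have hCBh : 0 ≤ CB / 2 := by linarith only [hCB8]
  have hCB1 : A1 ≤ CB * D1 := by
    rw [← div_le_iff₀ hD1p, hCB]
    exact le_trans (le_max_left _ _) (le_max_right _ _)
  have hCB2 : A2 ≤ CB / 2 * D2 := by
    have h1 : 2 * A2 / D2 ≤ CB := by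
      rw [hCB]
      exact le_trans (le_trans (le_max_left _ _) (le_max_right _ _)) (le_max_right _ _)
    rw [div_le_iff₀ hD2p] at h1
    linarith only [h1]
  have hCB3 : A1 ≤ CB * D3 := by
    rw [← div_le_iff₀ hD3p, hCB]
    exact le_trans (le_trans (le_max_right _ _) (le_max_right _ _)) (le_max_right _ _)
  refine ⟨CB, by linarith only [hCB8], ?_⟩
  obtain ⟨m₁, hm₁⟩ := exists_nat_ge (max CB (max ((R : ℝ) * (2 * C₁ + 3 ^ (t + 2)))
    (2 * 3 ^ (t + 2) * ((t : ℝ) + 2) / x₀)))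
  refine ⟨max R m₁, ?_⟩
  intro m hm θ hθ0 hθ1 Φ hΦ V _ G _ S hS hfree hTy
  have hmR : R ≤ m := le_trans (le_max_left _ _) hm
  have hmm : (m₁ : ℝ) ≤ (m : ℝ) := by exact_mod_cast le_trans (le_max_right _ _) hm
  have hmR' : (R : ℝ) ≤ (m : ℝ) := by exact_mod_cast hmR
  have hm1 : (1 : ℝ) ≤ (m : ℝ) := by linarith only [hRr, hmR']
  have hm0 : (0 : ℝ) < (m : ℝ) := by linarith only [hm1]
  have hmCB : CB ≤ (m : ℝ) := le_trans (le_max_left _ _) (le_trans hm₁ hmm)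
  have hmC : (R : ℝ) * (2 * C₁ + 3 ^ (t + 2)) ≤ m :=
    le_trans (le_trans (le_max_left _ _) (le_max_right _ _)) (le_trans hm₁ hmm)
  have hmx : 2 * 3 ^ (t + 2) * ((t : ℝ) + 2) ≤ m * x₀ := by
    have h1 : 2 * 3 ^ (t + 2) * ((t : ℝ) + 2) / x₀ ≤ m :=
      le_trans (le_trans (le_max_right _ _) (le_max_right _ _)) (le_trans hm₁ hmm)
    rwa [div_le_iff₀ hx] at h1
  have hmn : 1 ≤ m := by omega
  have hrR : (r : ℝ) ≤ (R : ℝ) := by exact_mod_cast hr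
  have hr0 : (0 : ℝ) ≤ (r : ℝ) := Nat.cast_nonneg _
  have hSr : (S.card : ℝ) ≤ (R : ℝ) * m + r := by exact_mod_cast hS
  have hMb := hM0 R m (by omega) hmn
  rw [ht] at hMb
  have hMup : M0 J R m ≤ ((R : ℝ) * m) ^ (t + 2) := hMb.2
  have hMlo : (1 - C₃ / R) * ((R : ℝ) * m) ^ (t + 2) ≤ M0 J R m := hMb.1
  have hA := nonS_A J hd u hθ0 hθ1 Φ hΦ (R := R) (m := m) (r := r) (by omega) hmn hr G S hS hx
  have hB := nonS_B J hd hcs u hθ0 hθ1 Φ hΦ hε₄ (R := R) (m := m) (r := r) (by omega) hmn hr G S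
    hS hx hx1
  rw [hs1, ht] at hA hB
  have hMs : midS G S R m θ x₀ ⊆ S := fun z hz => (SNonB_mem_mid.1 hz).1
  have hVs : vh G S R m θ ⊆ S := fun z hz => (SNonB_mem_vh.1 hz).1
  have hdis : Disjoint (midS G S R m θ x₀) (vh G S R m θ) := by
    rw [Finset.disjoint_left]
    intro z hz hz'
    exact absurd (SNonB_mem_mid.1 hz).2.1 (not_lt.2 (SNonB_mem_vh.1 hz').2)
  obtain ⟨a, ha⟩ : ∃ a : ℝ, a = ((midS G S R m θ x₀).card : ℝ) := ⟨_, rfl⟩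
  obtain ⟨b, hb⟩ : ∃ b : ℝ, b = ((vh G S R m θ).card : ℝ) := ⟨_, rfl⟩
  obtain ⟨n, hn⟩ : ∃ n : ℝ, n = (S.card : ℝ) := ⟨_, rfl⟩
  have ha0 : 0 ≤ a := by rw [ha]; exact Nat.cast_nonneg _
  have hb0 : 0 ≤ b := by rw [hb]; exact Nat.cast_nonneg _
  rw [← ha, ← hb, ← hn] at hA
  by_cases hcase : (C₃ + 1) * m ≤ (R : ℝ) * m - n + ε₄ * a + 1 / 2 * b
  · refine hA.trans ?_
    exact SNon_caseA t hR0 hm1 hC₁.le hC₃.le (by linarith only [hC₄3, hR4, hC₄0]) hmC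
      (by linarith only [hcase]) hMlo
  · push Not at hcase
    set W : Finset V := midS G S R m θ x₀ ∪ vh G S R m θ with hWdef
    have hWS : W ⊆ S := Finset.union_subset hMs hVs
    obtain ⟨k, hk⟩ : ∃ k : ℝ, k = (W.card : ℝ) := ⟨_, rfl⟩
    have hk0 : 0 ≤ k := by rw [hk]; exact Nat.cast_nonneg _
    have hkab : k = a + b := by
      rw [hk, ha, hb, hWdef, Finset.card_union_of_disjoint hdis]
      push_cast
      ring
    have hkm : k ≤ (C₃ + 2) / e * m :=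
      SNon_k he0 he1 he2 ha0 hb0 hkab (by rw [hn]; exact hSr) (hrR.trans hmR') hcase
    have hPn : (R : ℝ) * m - n ≤ (C₃ + 1) * m := by
      have : 0 ≤ ε₄ * a + 1 / 2 * b := by positivity
      linarith only [this, hcase]
    have hcardW : W.card ≤ S.card := card_le_card hWS
    have hcard' : (((S \ W).card : ℕ) : ℝ) = n - k := by
      rw [card_sdiff_of_subset hWS, Nat.cast_sub hcardW, hn, hk]
    have hn'1 : ((R : ℝ) - C₄) * m ≤ n - k := SNon_n1 hC₄ hkm hPn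
    have hn'2 : (R : ℝ) * m / 2 ≤ n - k := SNon_n2 hm0.le hR4 hn'1
    have hnn : (R : ℝ) * m / 2 ≤ n := by linarith only [hn'2, hk0]
    have hRm2 : (R : ℝ) ≤ (R : ℝ) * m / 2 := by
      have : (R : ℝ) * 2 ≤ (R : ℝ) * m :=
        mul_le_mul_of_nonneg_left (by linarith only [hRr, hmR']) hR0.le
      linarith only [this]
    have hn'R : R ≤ (S \ W).card := by
      have : (R : ℝ) ≤ ((S \ W).card : ℝ) := by
        rw [hcard']
        linarith only [hRm2, hn'2]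
      exact_mod_cast this
    have hnR : R ≤ S.card := le_trans hn'R (card_le_card sdiff_subset)
    have hfree' := NonB_free (sdiff_subset : S \ W ⊆ S) hfree
    have hturan' := NonB_turan (G := G) (by omega : 1 ≤ R) hfree'
    have hge := e2_bal_ge (by omega : 1 ≤ R) (S \ W).card
    rw [hcard'] at hge
    have hclq : ((clq G (S \ W) 2).card : ℝ) ≤ ((clq G S 2).card : ℝ) := by
      have h1 : clq G (S \ W) 2 ⊆ clq G S 2 := by
        intro T hT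
        rw [mem_clq] at hT ⊢
        exact ⟨⟨hT.1.1.trans sdiff_subset, hT.1.2⟩, hT.2⟩
      exact_mod_cast card_le_card h1
    obtain ⟨f, hf⟩ : ∃ f : ℝ, f = e2 univ (bal R (S \ W).card) -
      ((clq G (S \ W) 2).card : ℝ) := ⟨_, rfl⟩
    have hf0 : 0 ≤ f := by rw [hf]; linarith only [hturan']
    have hstS := hst V G (S \ W) hfree'
    rw [hs2, ← hf, hcard'] at hstS
    -- the slope
    have hC2R : C₂ / R ≤ (Fintype.card ι : ℝ) / 2 := by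
      rw [hsR]
      exact SNon_C2 t hR0 hC₄0.le hx1 hRx
    have hC2R' : C₂ / R ≤ (Fintype.card ι : ℝ) := by
      have : (0 : ℝ) ≤ (Fintype.card ι : ℝ) := Nat.cast_nonneg _
      linarith only [hC2R, this]
    have hlow := NonB_lower J hC2R (fun k hk => (hsucc R k (by omega) hk).1)
    have hlow' := SNon_lower J hC2R' (fun k hk => (hsucc R k (by omega) hk).1)
    have hupp := NonB_upper J (R := R) (fun k hk => (hsucc R k (by omega) hk).2)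
    have hstep : FT J R (S \ W).card + k * (((t : ℝ) + 2 - C₂ / R) * (n - k) ^ (t + 1)) ≤
        FT J R S.card := by
      have h1 := hlow' (S \ W).card hn'R W.card
      have h2 : (S \ W).card + W.card = S.card := card_sdiff_add_card_eq_card hWS
      rw [h2, hs1, hsR, hcard', ← hk] at h1
      exact h1
    have hslope := SNon_slope t (n := n - k) hR0 hm0.le hC₂.le hC₄0.le hx1 hRx
      (by linarith only [hR4, hC₄0]) hn'1
    have hq := SNon_q t (m := (m : ℝ)) hm1 hx hx1 hmx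
    rw [← hk] at hB
    have hBe : ((emb J G (S \ W)).card : ℝ) + ((R : ℝ) * m) ^ (t + 1) *
        (1 + 1 / (m : ℝ)) ^ (t + 2) * ((((t + 2 : ℕ) : ℝ) - x₀) * k) =
        ((emb J G (S \ W)).card : ℝ) + ((R : ℝ) * m) ^ (t + 1) *
        (1 + 1 / (m : ℝ)) ^ (t + 2) * (((t : ℝ) + 2 - x₀) * k) := by
      push_cast
      ring
    rw [hBe] at hB
    have hcomb := SNon_comb t (P := (R : ℝ) * m) (n := n - k) (k := k) (x₀ := x₀)
      (c := c) (f := f) (by positivity) hk0 hB hstS hstep hslope hq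
    refine hcomb.trans ?_
    have hP0 : 0 ≤ x₀ / 4 * k * ((R : ℝ) * m) ^ (t + 1) := by positivity
    have hcf : 0 ≤ c * (n - k) ^ t * f := by
      have : 0 ≤ n - k := by
        have : 0 ≤ (R : ℝ) * m / 2 := by positivity
        linarith only [this, hn'2]
      exact mul_nonneg (mul_nonneg hc.le (pow_nonneg this _)) hf0
    by_cases hX : (R : ℝ) * m - n ≤ CB * R / 16
    · have hFup : FT J R S.card ≤ M0 J R m + (R : ℝ) * (t + 2) * (2 * ((R : ℝ) * m)) ^ (t + 1) := by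
        have h1 := hlow S.card hnR (R * m + r - S.card)
        have h2 : S.card + (R * m + r - S.card) = R * m + r := by omega
        rw [h2] at h1
        have h3 : 0 ≤ ((R * m + r - S.card : ℕ) : ℝ) * ((Fintype.card ι : ℝ) / 2 *
            (S.card : ℝ) ^ (Fintype.card ι - 1)) :=
          mul_nonneg (Nat.cast_nonneg _) (mul_nonneg (div_nonneg (Nat.cast_nonneg _) (by norm_num))
            (pow_nonneg (Nat.cast_nonneg _) _))
        have h4 := hupp (R * m) (Nat.le_mul_of_pos_right R (by omega)) r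
        rw [FT_mul J (by omega), hs1, hsR] at h4
        have h5 : ((R * m + r : ℕ) : ℝ) ^ (t + 1) ≤ (2 * ((R : ℝ) * m)) ^ (t + 1) := by
          apply pow_le_pow_left₀ (Nat.cast_nonneg _)
          push_cast
          linarith only [hrR, hRm2, hR0]
        have h6 : (r : ℝ) * (((t : ℝ) + 2) * ((R * m + r : ℕ) : ℝ) ^ (t + 1)) ≤
            (R : ℝ) * (((t : ℝ) + 2) * (2 * ((R : ℝ) * m)) ^ (t + 1)) :=
          mul_le_mul hrR (mul_le_mul_of_nonneg_left h5 (by positivity)) (by positivity) hR0.le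
        linarith only [h1, h3, h4, h6]
      by_cases hkX : k ≤ CB * R / 16
      · have hfl : CB * K * m / 2 ≤ f := by
          rw [hf]
          refine NonB_def hRr hm1 (by linarith only [mul_pos hR0 hm0, hn'2] : 0 ≤ n - k) hCB8 hmCB
            hK hge ?_ (by linarith only [hX, hkX])
          unfold TyB at hTy
          rw [not_lt, hK2, ← hK] at hTy
          exact hclq.trans hTy
        have h1 := NonB_B1 t (n := n - k) (CB := CB) hR0 hm1 hn'2 hC.le hC₁.le hc hK0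
          (by linarith only [hCB8]) (by rw [← hA1, ← hD1]; exact hCB1) hfl hMup hFup
        have h2 : c / 2 * (n - k) ^ t * f ≤ c * (n - k) ^ t * f := by
          have e1 : c * (n - k) ^ t * f = 2 * (c / 2 * (n - k) ^ t * f) := by ring
          have e2 : 0 ≤ c / 2 * (n - k) ^ t * f := by linarith only [e1, hcf]
          linarith only [e1, e2]
        linarith only [h1, h2, hP0]
      · push Not at hkX
        have h1 := SNon_B1b t (k := k) (CB := CB) hR0 hm1 hC.le hC₁.le hx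
          (by rw [← hA1, ← hD3]; exact hCB3) hkX.le hMup hFup
        linarith only [h1, hcf]
    · push Not at hX
      have hlt : (S.card : ℝ) < (R : ℝ) * m := by
        rw [← hn]
        have : 0 < CB * R / 16 :=
          div_pos (mul_pos (by linarith only [hCB8]) hR0) (by norm_num)
        linarith only [this, hX]
      have hlt' : S.card ≤ R * m := by
        have : (S.card : ℝ) ≤ ((R * m : ℕ) : ℝ) := by
          push_cast
          exact hlt.le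
        exact_mod_cast this
      have h1 := hlow S.card hnR (R * m - S.card)
      have h2 : S.card + (R * m - S.card) = R * m := by omega
      rw [h2, FT_mul J (by omega), hs1, hsR, Nat.cast_sub hlt', ← hn] at h1
      push_cast at h1
      have hX' : CB / 2 * R / 8 ≤ (R : ℝ) * m - n := by
        have e : CB / 2 * R / 8 = CB * R / 16 := by ring
        rw [e]
        exact hX.le
      have hCBD : C + 2 * C₁ * (R : ℝ) ^ (t + 2) ≤
          CB / 2 * ((R : ℝ) / 8 * ((t + 2) / 2) * ((R : ℝ) / 2) ^ (t + 1)) := by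
        rw [← hA2, ← hD2]
        exact hCB2
      have h3 := NonB_B2 t (n := n) (CB := CB / 2) (f := 0) (c := c) hR0 hm1 hnn hC.le hC₁.le hc
        hCBh hCBD le_rfl hMup hX' h1
      rw [mul_zero, sub_zero] at h3
      linarith only [h3, hP0, hcf]

end H57GH
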