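import Pool.Agent.H57.GH.SHub
import Pool.Agent.H57.GH.SThru
import Pool.Agent.H57.GH.SStar
import Pool.Agent.H57.GH.NonB

/-!
Project SH: sets with few edges, with a reserve for the very heavy vertices and for the vertices
in the middle range.
-/

namespace H57GH

open Finset H57LC H57LT

set_option linter.unusedSectionVars false

/-! ### real inequalities -/

/-- a factor `Q ^ a * d ^ b` -/
theorem SNonB_pow {P q n d : ℝ} (hP : 0 < P) (hq : 1 ≤ q) (hn0 : 0 ≤ n) (hn : n ≤ P * q)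
    (hd0 : 0 ≤ d) (j k : ℕ) :
    n ^ j * d ^ k ≤ P ^ (j + k) * q ^ (j + k + 1) * (d / P) ^ k := by
  have h1 : n ^ j ≤ (P * q) ^ j := pow_le_pow_left₀ hn0 hn j
  have h2 : d = P * (d / P) := by field_simp
  have hy : 0 ≤ d / P := div_nonneg hd0 hP.le
  calc n ^ j * d ^ k ≤ (P * q) ^ j * d ^ k := by gcongr
    _ = (P * q) ^ j * (P * (d / P)) ^ k := by rw [← h2]
    _ = P ^ (j + k) * q ^ j * (d / P) ^ k := by rw [mul_pow, mul_pow, pow_add]; ring
    _ ≤ P ^ (j + k) * q ^ (j + k + 1) * (d / P) ^ k := by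
        have h3 : q ^ j ≤ q ^ (j + k + 1) := pow_le_pow_right₀ hq (by omega)
        gcongr

/-- the other vertices -/
theorem SNonB_other {P q n d : ℝ} (hP : 0 < P) (hq : 1 ≤ q) (hn0 : 0 ≤ n) (hn : n ≤ P * q)
    (hd0 : 0 ≤ d) (hdn : d ≤ n) (j k : ℕ) :
    n ^ j * d ^ k ≤ P ^ (j + k) * q ^ (j + k + 1) := by
  have h1 : d ^ k ≤ (P * q) ^ k := pow_le_pow_left₀ hd0 (hdn.trans hn) k
  have h2 : n ^ j ≤ (P * q) ^ j := pow_le_pow_left₀ hn0 hn j
  have hPq : 0 ≤ P * q := mul_nonneg hP.le (by linarith)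
  calc n ^ j * d ^ k ≤ (P * q) ^ j * (P * q) ^ k := by
        apply mul_le_mul h2 h1 (pow_nonneg hd0 k) (pow_nonneg hPq j)
    _ = P ^ (j + k) * q ^ (j + k) := by rw [← pow_add, mul_pow]
    _ ≤ P ^ (j + k) * q ^ (j + k + 1) := by
        have h3 : q ^ (j + k) ≤ q ^ (j + k + 1) := pow_le_pow_right₀ hq (by omega)
        gcongr

/-- the reserve for a very heavy vertex -/
theorem SNonB_res {P q d u θ Q : ℝ} (s : ℕ) (hs : 2 ≤ s) (hP : 0 < P) (hq : 1 ≤ q) (hu : 0 ≤ u)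
    (hQ0 : 0 ≤ Q) (hQ : Q ≤ P * q) (hd : d ≤ θ * P) (hθ : 0 ≤ θ) :
    2 * u * s * Q ^ (s - 2) * d ≤ P ^ (s - 1) * q ^ s * (2 * u * s * θ) := by
  obtain ⟨t, rfl⟩ : ∃ t, s = t + 2 := ⟨s - 2, by omega⟩
  have e1 : t + 2 - 2 = t := by omega
  have e2 : t + 2 - 1 = t + 1 := by omega
  rw [e1, e2]
  have h1 : Q ^ t ≤ (P * q) ^ t := pow_le_pow_left₀ hQ0 hQ t
  have h0 : (0 : ℝ) ≤ 2 * u * ((t + 2 : ℕ) : ℝ) := by positivity
  have hPq : 0 ≤ (P * q) ^ t := by positivity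
  have hθP : 0 ≤ θ * P := by positivity
  have h2 : Q ^ t * d ≤ (P * q) ^ t * (θ * P) := by
    calc Q ^ t * d ≤ Q ^ t * (θ * P) := mul_le_mul_of_nonneg_left hd (pow_nonneg hQ0 t)
      _ ≤ (P * q) ^ t * (θ * P) := mul_le_mul_of_nonneg_right h1 hθP
  have h3 : (P * q) ^ t * (θ * P) ≤ P ^ (t + 1) * q ^ (t + 2) * θ := by
    have h4 : q ^ t ≤ q ^ (t + 2) := pow_le_pow_right₀ hq (by omega)
    calc (P * q) ^ t * (θ * P) = P ^ (t + 1) * θ * q ^ t := by rw [mul_pow]; ring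
      _ ≤ P ^ (t + 1) * θ * q ^ (t + 2) := by gcongr
      _ = P ^ (t + 1) * q ^ (t + 2) * θ := by ring
  calc 2 * u * ((t + 2 : ℕ) : ℝ) * Q ^ t * d = 2 * u * ((t + 2 : ℕ) : ℝ) * (Q ^ t * d) := by ring
    _ ≤ 2 * u * ((t + 2 : ℕ) : ℝ) * (P ^ (t + 1) * q ^ (t + 2) * θ) :=
        mul_le_mul_of_nonneg_left (h2.trans h3) h0
    _ = P ^ (t + 1) * q ^ (t + 2) * (2 * u * ((t + 2 : ℕ) : ℝ) * θ) := by ring

variable {ι : Type} [Fintype ι] [DecidableEq ι] (J : SimpleGraph ι) [DecidableRel J.Adj]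

/-- the left side of the estimate -/
noncomputable def lhsN {V : Type*} [DecidableEq V] (G : SimpleGraph V) [DecidableRel G.Adj]
    (S : Finset V) (R m r u : ℕ) (θ x₀ : ℝ) (Φ : ℝ → ℝ) : ℝ :=
  ((emb J G S).card : ℝ) + ((R : ℝ) * m) ^ (Fintype.card ι - 1) *
      ∑ x ∈ midS G S R m θ x₀, Φ ((dg G S x : ℝ) / (R * m)) +
    2 * u * Fintype.card ι * ((R : ℝ) * m + r) ^ (Fintype.card ι - 2) *
      ∑ z ∈ vh G S R m θ, (dg G S z : ℝ)

/-- membership in the middle range -/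
theorem SNonB_mem_mid {V : Type*} [DecidableEq V] {G : SimpleGraph V} [DecidableRel G.Adj]
    {S : Finset V} {R m : ℕ} {θ x₀ : ℝ} {z : V} : z ∈ midS G S R m θ x₀ ↔
      z ∈ S ∧ θ * R * m < (dg G S z : ℝ) ∧ (dg G S z : ℝ) < (1 - x₀) * R * m := by
  classical
  unfold midS
  rw [Finset.mem_filter]

/-- membership in the set of the very heavy vertices -/
theorem SNonB_mem_vh {V : Type*} [DecidableEq V] {G : SimpleGraph V} [DecidableRel G.Adj]
    {S : Finset V} {R m : ℕ} {θ : ℝ} {z : V} : z ∈ vh G S R m θ ↔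
      z ∈ S ∧ (dg G S z : ℝ) ≤ θ * R * m := by
  classical
  unfold vh
  rw [Finset.mem_filter]

/-- splitting a sum -/
theorem SNonB_split {V : Type*} [DecidableEq V] {G : SimpleGraph V} [DecidableRel G.Adj]
    {S : Finset V} {R m : ℕ} {θ x₀ : ℝ} (a b c : V → ℝ) (A ε₄ : ℝ)
    (h1 : ∀ z ∈ midS G S R m θ x₀, a z + b z ≤ A * (1 - ε₄))
    (h2 : ∀ z ∈ vh G S R m θ, a z + c z ≤ A * (1 / 2))
    (h3 : ∀ z ∈ S, a z ≤ A) :
    ∑ z ∈ S, a z + ∑ z ∈ midS G S R m θ x₀, b z + ∑ z ∈ vh G S R m θ, c z ≤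
      A * ((S.card : ℝ) - ε₄ * (midS G S R m θ x₀).card - 1 / 2 * (vh G S R m θ).card) := by
  classical
  have hM : midS G S R m θ x₀ ⊆ S := fun z hz => (SNonB_mem_mid.1 hz).1
  have hV : vh G S R m θ ⊆ S := fun z hz => (SNonB_mem_vh.1 hz).1
  have hdis : Disjoint (midS G S R m θ x₀) (vh G S R m θ) := by
    rw [Finset.disjoint_left]
    intro z hz hz'
    exact absurd (SNonB_mem_mid.1 hz).2.1 (not_lt.2 (SNonB_mem_vh.1 hz').2)
  set M := midS G S R m θ x₀ with hMdef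
  set W := vh G S R m θ with hWdef
  have hMW : M ∪ W ⊆ S := Finset.union_subset hM hV
  have e1 : ∑ z ∈ S, a z = ∑ z ∈ S \ (M ∪ W), a z + (∑ z ∈ M, a z + ∑ z ∈ W, a z) := by
    rw [← Finset.sum_sdiff hMW, Finset.sum_union hdis]
  have e2 : ((S.card : ℕ) : ℝ) = ((S \ (M ∪ W)).card : ℝ) + ((M.card : ℝ) + (W.card : ℝ)) := by
    have h := Finset.card_sdiff_add_card_eq_card hMW
    rw [Finset.card_union_of_disjoint hdis] at h
    exact_mod_cast h.symm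
  have i1 : ∑ z ∈ S \ (M ∪ W), a z ≤ ((S \ (M ∪ W)).card : ℝ) * A := by
    rw [← nsmul_eq_mul]
    exact Finset.sum_le_card_nsmul _ _ _ fun z hz => h3 z (Finset.mem_sdiff.1 hz).1
  have i2 : ∑ z ∈ M, (a z + b z) ≤ (M.card : ℝ) * (A * (1 - ε₄)) := by
    rw [← nsmul_eq_mul]
    exact Finset.sum_le_card_nsmul _ _ _ h1
  have i3 : ∑ z ∈ W, (a z + c z) ≤ (W.card : ℝ) * (A * (1 / 2)) := by
    rw [← nsmul_eq_mul]
    exact Finset.sum_le_card_nsmul _ _ _ h2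
  rw [Finset.sum_add_distrib] at i2 i3
  rw [e1, e2]
  nlinarith only [i1, i2, i3]

/-- first estimate (`emb_star`) -/
theorem nonS_A [Nonempty ι] (hd : ∀ v, 1 ≤ dg J univ v) (u : ℕ) {θ x₀ ε₄ : ℝ} (hθ : 0 ≤ θ)
    (hθ1 : (4 * (u : ℝ) * Fintype.card ι + 4) * θ ≤ 1) (Φ : ℝ → ℝ)
    (hΦ : ∀ y, θ ≤ y → y ≤ 1 - x₀ → 0 ≤ Φ y ∧ y ^ rk J + Φ y ≤ 1 - ε₄)
    {R m r : ℕ} (hR : 1 ≤ R) (hm : 1 ≤ m) (hr : r ≤ R)
    {V : Type} [DecidableEq V] (G : SimpleGraph V) [DecidableRel G.Adj] (S : Finset V)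
    (hS : S.card ≤ R * m + r) (hx : 0 < x₀) :
    lhsN J G S R m r u θ x₀ Φ ≤ ((R : ℝ) * m) ^ (Fintype.card ι - 1) *
      (1 + 1 / (m : ℝ)) ^ Fintype.card ι *
        ((S.card : ℝ) - ε₄ * (midS G S R m θ x₀).card - 1 / 2 * (vh G S R m θ).card) := by
  classical
  have hR' : (1 : ℝ) ≤ R := by exact_mod_cast hR
  have hm' : (1 : ℝ) ≤ m := by exact_mod_cast hm
  have hr' : (r : ℝ) ≤ R := by exact_mod_cast hr
  have hP : (0 : ℝ) < (R : ℝ) * m := by positivity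
  set P : ℝ := (R : ℝ) * m with hPdef
  have hq : (1 : ℝ) ≤ 1 + 1 / (m : ℝ) := by
    have : 0 ≤ 1 / (m : ℝ) := by positivity
    linarith only [this]
  set q : ℝ := 1 + 1 / (m : ℝ) with hqdef
  have hPq : P * q = P + R := by
    rw [hPdef, hqdef]
    field_simp
  have hSr : (S.card : ℝ) ≤ P * q := by
    have h : (S.card : ℝ) ≤ (R : ℝ) * m + r := by exact_mod_cast hS
    rw [hPq]
    linarith only [hr', h]
  have hs2 : 2 + 0 ≤ Fintype.card ι := two_le_card J (fun v => by simpa using hd v)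
  have hk1 := one_le_rk J hd
  have hk2 := rk_lt J
  set s := Fintype.card ι with hsdef
  obtain ⟨j, hj⟩ : ∃ j, s - 1 = j + rk J := ⟨s - 1 - rk J, by omega⟩
  have hj' : s - 1 - rk J = j := by omega
  have hs' : s = j + rk J + 1 := by omega
  have hdn : ∀ z, (dg G S z : ℝ) ≤ (S.card : ℝ) := by
    intro z
    have : dg G S z ≤ S.card := by
      unfold dg
      exact Finset.card_filter_le _ _
    exact_mod_cast this
  have hθ4 : 4 * θ ≤ 1 := by
    have : 0 ≤ 4 * (u : ℝ) * s * θ := by positivity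
    nlinarith only [hθ1, this]
  have hemb : ((emb J G S).card : ℝ) ≤
      ∑ z ∈ S, (S.card : ℝ) ^ j * (dg G S z : ℝ) ^ rk J := by
    have h := emb_star J G S
    rw [← hsdef, hj'] at h
    rw [← Finset.mul_sum]
    exact_mod_cast h
  have key := SNonB_split (G := G) (S := S) (R := R) (m := m) (θ := θ) (x₀ := x₀)
    (fun z => (S.card : ℝ) ^ j * (dg G S z : ℝ) ^ rk J)
    (fun z => P ^ (s - 1) * Φ ((dg G S z : ℝ) / P))
    (fun z => 2 * u * s * (P + r) ^ (s - 2) * (dg G S z : ℝ))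
    (P ^ (s - 1) * q ^ s) ε₄ ?_ ?_ ?_
  · rw [← Finset.mul_sum, ← Finset.mul_sum] at key
    unfold lhsN
    rw [← Finset.mul_sum] at hemb key
    rw [← hsdef, ← hPdef]
    linarith only [hemb, key]
  · intro z hz
    obtain ⟨hzS, hz1, hz2⟩ := SNonB_mem_mid.1 hz
    have hy1 : θ ≤ (dg G S z : ℝ) / P := by
      rw [le_div_iff₀ hP, hPdef]
      nlinarith only [hz1]
    have hy2 : (dg G S z : ℝ) / P ≤ 1 - x₀ := by
      rw [div_le_iff₀ hP, hPdef]
      nlinarith only [hz2]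
    obtain ⟨hf1, hf2⟩ := hΦ _ hy1 hy2
    have h1 := SNonB_pow hP hq (Nat.cast_nonneg _) hSr
      (Nat.cast_nonneg (dg G S z)) j (rk J)
    have h2 : P ^ (s - 1) * q ^ s = P ^ (j + rk J) * q ^ (j + rk J + 1) := by
      rw [hj, ← hs']
    have h3 : (1 : ℝ) ≤ q ^ s := one_le_pow₀ hq
    have h4 : 0 ≤ P ^ (s - 1) := by positivity
    have h5 : P ^ (s - 1) * Φ ((dg G S z : ℝ) / P) ≤
        P ^ (s - 1) * q ^ s * Φ ((dg G S z : ℝ) / P) := by
      have : P ^ (s - 1) * 1 ≤ P ^ (s - 1) * q ^ s := mul_le_mul_of_nonneg_left h3 h4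
      have h6 := mul_le_mul_of_nonneg_right this hf1
      simpa using h6
    have h7 : P ^ (s - 1) * q ^ s * (((dg G S z : ℝ) / P) ^ rk J + Φ ((dg G S z : ℝ) / P)) ≤
        P ^ (s - 1) * q ^ s * (1 - ε₄) :=
      mul_le_mul_of_nonneg_left hf2 (by positivity)
    rw [← h2] at h1
    show (S.card : ℝ) ^ j * (dg G S z : ℝ) ^ rk J + P ^ (s - 1) * Φ ((dg G S z : ℝ) / P) ≤ _
    rw [mul_add] at h7
    linarith only [h1, h5, h7]
  · intro z hz
    obtain ⟨hzS, hz1⟩ := SNonB_mem_vh.1 hz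
    have hz1' : (dg G S z : ℝ) ≤ θ * P := by rw [hPdef]; linarith only [hz1]
    have hy : (dg G S z : ℝ) / P ≤ θ := by rw [div_le_iff₀ hP]; exact hz1'
    have hy0 : 0 ≤ (dg G S z : ℝ) / P := by positivity
    have h1 := SNonB_pow hP hq (Nat.cast_nonneg _) hSr
      (Nat.cast_nonneg (dg G S z)) j (rk J)
    have h2 : P ^ (s - 1) * q ^ s = P ^ (j + rk J) * q ^ (j + rk J + 1) := by
      rw [hj, ← hs']
    rw [← h2] at h1
    have h3 : ((dg G S z : ℝ) / P) ^ rk J ≤ θ := by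
      calc ((dg G S z : ℝ) / P) ^ rk J ≤ ((dg G S z : ℝ) / P) ^ 1 :=
            pow_le_pow_of_le_one hy0 (by linarith only [hθ4, hy]) hk1
        _ ≤ θ := by rw [pow_one]; exact hy
    have h4 : P ^ (s - 1) * q ^ s * ((dg G S z : ℝ) / P) ^ rk J ≤ P ^ (s - 1) * q ^ s * θ :=
      mul_le_mul_of_nonneg_left h3 (by positivity)
    have h5 := SNonB_res (P := P) (q := q) (d := (dg G S z : ℝ)) (u := (u : ℝ)) (θ := θ)
      (Q := P + r) s (by omega) hP hq (Nat.cast_nonneg _) (by positivity)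
      (by rw [hPq]; linarith only [hr']) hz1' hθ
    have h6 : P ^ (s - 1) * q ^ s * (θ + 2 * u * s * θ) ≤ P ^ (s - 1) * q ^ s * (1 / 2) := by
      apply mul_le_mul_of_nonneg_left _ (by positivity)
      nlinarith only [hθ, hθ1]
    show (S.card : ℝ) ^ j * (dg G S z : ℝ) ^ rk J +
      2 * u * s * (P + r) ^ (s - 2) * (dg G S z : ℝ) ≤ _
    rw [mul_add] at h6
    linarith only [h1, h4, h5, h6]
  · intro z hz
    have h1 := SNonB_other hP hq (Nat.cast_nonneg _) hSr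
      (Nat.cast_nonneg (dg G S z)) (hdn z) j (rk J)
    have h2 : P ^ (s - 1) * q ^ s = P ^ (j + rk J) * q ^ (j + rk J + 1) := by
      rw [hj, ← hs']
    rw [← h2] at h1
    exact h1

/-- second estimate (remove the vertices of small degree) -/
theorem nonS_B [Nonempty ι] (hd : ∀ v, 1 ≤ dg J univ v) (hcs : 2 ≤ Fintype.card ι) (u : ℕ)
    {θ x₀ ε₄ : ℝ} (hθ : 0 ≤ θ) (hθ1 : (4 * (u : ℝ) * Fintype.card ι + 4) * θ ≤ 1) (Φ : ℝ → ℝ)
    (hΦ : ∀ y, θ ≤ y → y ≤ 1 - x₀ → 0 ≤ Φ y ∧ y ^ rk J + Φ y ≤ 1 - ε₄) (hε₄ : 0 < ε₄)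
    {R m r : ℕ} (hR : 1 ≤ R) (hm : 1 ≤ m) (hr : r ≤ R)
    {V : Type} [DecidableEq V] (G : SimpleGraph V) [DecidableRel G.Adj] (S : Finset V)
    (hS : S.card ≤ R * m + r) (hx : 0 < x₀) (hx1 : x₀ ≤ 1 / 4) :
    lhsN J G S R m r u θ x₀ Φ ≤
      ((emb J G (S \ (midS G S R m θ x₀ ∪ vh G S R m θ))).card : ℝ) +
        ((R : ℝ) * m) ^ (Fintype.card ι - 1) * (1 + 1 / (m : ℝ)) ^ Fintype.card ι *
          (((Fintype.card ι : ℝ) - x₀) * (midS G S R m θ x₀ ∪ vh G S R m θ).card) := by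
  classical
  have hR' : (1 : ℝ) ≤ R := by exact_mod_cast hR
  have hm' : (1 : ℝ) ≤ m := by exact_mod_cast hm
  have hr' : (r : ℝ) ≤ R := by exact_mod_cast hr
  have hP : (0 : ℝ) < (R : ℝ) * m := by positivity
  set P : ℝ := (R : ℝ) * m with hPdef
  have hq : (1 : ℝ) ≤ 1 + 1 / (m : ℝ) := by
    have : 0 ≤ 1 / (m : ℝ) := by positivity
    linarith only [this]
  set q : ℝ := 1 + 1 / (m : ℝ) with hqdef
  have hPq : P * q = P + R := by
    rw [hPdef, hqdef]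
    field_simp
  have hq0 : 0 < P * q := by positivity
  have hSr : (S.card : ℝ) ≤ P * q := by
    have h : (S.card : ℝ) ≤ (R : ℝ) * m + r := by exact_mod_cast hS
    rw [hPq]
    linarith only [hr', h]
  set s := Fintype.card ι with hsdef
  have hs1 : (2 : ℝ) ≤ s := by exact_mod_cast hcs
  have hus : 0 ≤ (u : ℝ) * s * θ := by positivity
  have hθ4 : 4 * θ ≤ 1 := by nlinarith only [hθ1, hus]
  have hA0 : 0 ≤ P ^ (s - 1) := by positivity
  have hA1 : 0 ≤ P ^ (s - 1) * q ^ s := by positivity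
  -- copies through one vertex
  have hthru : ∀ z, ((((emb J G S).filter fun φ => ∃ i, φ i = z).card : ℕ) : ℝ) ≤
      P ^ (s - 1) * q ^ s * Psi J ((dg G S z : ℝ) / P) := by
    intro z
    have h1 := thru_psi (G := G) J S z hq0 hSr
    have h2 : (dg G S z : ℝ) / (P * q) ≤ (dg G S z : ℝ) / P := by
      apply div_le_div_of_nonneg_left (Nat.cast_nonneg _) hP
      nlinarith only [hx, hx1, hR', hPq]
    have h3 : Psi J ((dg G S z : ℝ) / (P * q)) ≤ Psi J ((dg G S z : ℝ) / P) :=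
      Psi_mono J (by positivity) h2
    have h4 : 0 ≤ Psi J ((dg G S z : ℝ) / P) := Psi_nonneg J (by positivity)
    have h5 : (P * q) ^ (s - 1) ≤ P ^ (s - 1) * q ^ s := by
      rw [mul_pow]
      exact mul_le_mul_of_nonneg_left (pow_le_pow_right₀ hq (by omega)) hA0
    calc ((((emb J G S).filter fun φ => ∃ i, φ i = z).card : ℕ) : ℝ)
        ≤ (P * q) ^ (s - 1) * Psi J ((dg G S z : ℝ) / (P * q)) := h1
      _ ≤ (P * q) ^ (s - 1) * Psi J ((dg G S z : ℝ) / P) :=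
          mul_le_mul_of_nonneg_left h3 (by positivity)
      _ ≤ P ^ (s - 1) * q ^ s * Psi J ((dg G S z : ℝ) / P) :=
          mul_le_mul_of_nonneg_right h5 h4
  have hM : midS G S R m θ x₀ ⊆ S := fun z hz => (SNonB_mem_mid.1 hz).1
  have hV : vh G S R m θ ⊆ S := fun z hz => (SNonB_mem_vh.1 hz).1
  have hdis : Disjoint (midS G S R m θ x₀) (vh G S R m θ) := by
    rw [Finset.disjoint_left]
    intro z hz hz'
    exact absurd (SNonB_mem_mid.1 hz).2.1 (not_lt.2 (SNonB_mem_vh.1 hz').2)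
  have hemb : ((emb J G S).card : ℝ) ≤
      ((emb J G (S \ (midS G S R m θ x₀ ∪ vh G S R m θ))).card : ℝ) +
        (∑ z ∈ midS G S R m θ x₀, P ^ (s - 1) * q ^ s * Psi J ((dg G S z : ℝ) / P) +
          ∑ z ∈ vh G S R m θ, P ^ (s - 1) * q ^ s * Psi J ((dg G S z : ℝ) / P)) := by
    have h := emb_card_le (G := G) J S (midS G S R m θ x₀ ∪ vh G S R m θ)
    rw [Finset.inter_eq_right.2 (Finset.union_subset hM hV)] at h
    have h' : ((emb J G S).card : ℝ) ≤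
      ((emb J G (S \ (midS G S R m θ x₀ ∪ vh G S R m θ))).card : ℝ) +
        ∑ z ∈ midS G S R m θ x₀ ∪ vh G S R m θ,
          ((((emb J G S).filter fun φ => ∃ i, φ i = z).card : ℕ) : ℝ) := by
      exact_mod_cast h
    rw [Finset.sum_union hdis] at h'
    refine h'.trans ?_
    have i1 := Finset.sum_le_sum (s := midS G S R m θ x₀) fun z _ => hthru z
    have i2 := Finset.sum_le_sum (s := vh G S R m θ) fun z _ => hthru z
    linarith only [i1, i2]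
  have i1 : ∑ z ∈ midS G S R m θ x₀, (P ^ (s - 1) * q ^ s * Psi J ((dg G S z : ℝ) / P) +
      P ^ (s - 1) * Φ ((dg G S z : ℝ) / P)) ≤
      ((midS G S R m θ x₀).card : ℝ) * (P ^ (s - 1) * q ^ s * ((s : ℝ) - x₀)) := by
    rw [← nsmul_eq_mul]
    refine Finset.sum_le_card_nsmul _ _ _ fun z hz => ?_
    obtain ⟨hzS, hz1, hz2⟩ := SNonB_mem_mid.1 hz
    have hy1 : θ ≤ (dg G S z : ℝ) / P := by
      rw [le_div_iff₀ hP, hPdef]
      nlinarith only [hz1]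
    have hy2 : (dg G S z : ℝ) / P ≤ 1 - x₀ := by
      rw [div_le_iff₀ hP, hPdef]
      nlinarith only [hz2]
    obtain ⟨hf1, hf2⟩ := hΦ _ hy1 hy2
    have h3 : (1 : ℝ) ≤ q ^ s := one_le_pow₀ hq
    have h5 : P ^ (s - 1) * Φ ((dg G S z : ℝ) / P) ≤
        P ^ (s - 1) * q ^ s * Φ ((dg G S z : ℝ) / P) := by
      have : P ^ (s - 1) * 1 ≤ P ^ (s - 1) * q ^ s := mul_le_mul_of_nonneg_left h3 hA0
      have h6 := mul_le_mul_of_nonneg_right this hf1
      simpa using h6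
    have h6 := Psi_rk_le J hd (y := (dg G S z : ℝ) / P) (hθ.trans hy1) (by linarith only [hx, hy2])
    rw [← hsdef] at h6
    have h7 : P ^ (s - 1) * q ^ s * (Psi J ((dg G S z : ℝ) / P) + Φ ((dg G S z : ℝ) / P)) ≤
        P ^ (s - 1) * q ^ s * ((s : ℝ) - x₀) := by
      apply mul_le_mul_of_nonneg_left _ hA1
      linarith only [hε₄, hy2, hf2, h6]
    rw [mul_add] at h7
    linarith only [h5, h7]
  have i2 : ∑ z ∈ vh G S R m θ, (P ^ (s - 1) * q ^ s * Psi J ((dg G S z : ℝ) / P) +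
      2 * u * s * (P + r) ^ (s - 2) * (dg G S z : ℝ)) ≤
      ((vh G S R m θ).card : ℝ) * (P ^ (s - 1) * q ^ s * ((s : ℝ) - x₀)) := by
    rw [← nsmul_eq_mul]
    refine Finset.sum_le_card_nsmul _ _ _ fun z hz => ?_
    obtain ⟨hzS, hz1⟩ := SNonB_mem_vh.1 hz
    have hz1' : (dg G S z : ℝ) ≤ θ * P := by rw [hPdef]; linarith only [hz1]
    have hy : (dg G S z : ℝ) / P ≤ θ := by rw [div_le_iff₀ hP]; exact hz1'
    have hy0 : 0 ≤ (dg G S z : ℝ) / P := by positivity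
    have h3 := Psi_le J hd hy0 (by linarith only [hx, hx1, hθ1, hus, hy])
    rw [← hsdef] at h3
    have h4 : Psi J ((dg G S z : ℝ) / P) ≤ s * θ :=
      h3.trans (mul_le_mul_of_nonneg_left hy (by linarith only [hx, hx1, hs1]))
    have h5 := SNonB_res (P := P) (q := q) (d := (dg G S z : ℝ)) (u := (u : ℝ)) (θ := θ)
      (Q := P + r) s hcs hP hq (Nat.cast_nonneg _) (by positivity)
      (by rw [hPq]; linarith only [hr']) hz1' hθ
    have h6 : P ^ (s - 1) * q ^ s * (Psi J ((dg G S z : ℝ) / P) + 2 * u * s * θ) ≤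
        P ^ (s - 1) * q ^ s * ((s : ℝ) - x₀) := by
      apply mul_le_mul_of_nonneg_left _ hA1
      nlinarith only [hθ, hx, hx1, hθ1, hs1, h4, hus]
    rw [mul_add] at h6
    linarith only [h5, h6]
  rw [Finset.sum_add_distrib, ← Finset.mul_sum, ← Finset.mul_sum] at i1 i2
  rw [← Finset.mul_sum, ← Finset.mul_sum] at hemb
  have hcard : ((midS G S R m θ x₀ ∪ vh G S R m θ).card : ℝ) =
      ((midS G S R m θ x₀).card : ℝ) + ((vh G S R m θ).card : ℝ) := by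
    rw [Finset.card_union_of_disjoint hdis]
    push_cast
    ring
  have hfin : P ^ (s - 1) * q ^ s * (((s : ℝ) - x₀) * (((midS G S R m θ x₀).card : ℝ) +
      ((vh G S R m θ).card : ℝ))) =
      ((midS G S R m θ x₀).card : ℝ) * (P ^ (s - 1) * q ^ s * ((s : ℝ) - x₀)) +
        ((vh G S R m θ).card : ℝ) * (P ^ (s - 1) * q ^ s * ((s : ℝ) - x₀)) := by ring
  unfold lhsN
  rw [← hsdef, ← hPdef, hcard, hfin]
  linarith only [hemb, i1, i2]

end H57GH
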