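import Pool.Agent.H57.GH.SDefs
import Pool.Agent.H57.GH.PointG

/-!
Project SH: the value of a light clique, general cost function (compare PointG).
-/

namespace H57GH

open Finset H57LC H57LT

set_option linter.unusedSectionVars false

theorem SPoint_sR {s R : ℝ} (hs2 : 2 ≤ s) (hR3 : 3 ≤ R) : s + R ≤ s * R := by
  have := mul_nonneg (by linarith : 0 ≤ s - 2) (by linarith : 0 ≤ R - 2)
  linarith

/-- lower bound for the costs -/
theorem SPoint_sum_ge {V : Type*} [DecidableEq V] {G : SimpleGraph V} [DecidableRel G.Adj]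
    {R m : ℕ} {S : Finset V} {C η₁ δ : ℝ} {B : Fin R → Finset V} (h : LS G S R m C η₁ δ B)
    {f : Fin R → V} (hf : f ∈ tcl G B) {kt : ℕ → ℝ} (hkt : ∀ j ≤ R, 0 ≤ kt j) :
    kt 2 * (ss G B f - s2 G B f) + ∑ z ∈ S \ un B, kt (hs G (im f) z).card ≤
      ∑ z ∈ S, kt (hs G (im f) z).card := by
  have hnn : ∀ z, 0 ≤ kt (hs G (im f) z).card := fun z => hkt _ (by
    calc (hs G (im f) z).card ≤ (im f).card := card_le_card (hs_subset _ _)
      _ = R := im_card hf)
  have h0 : ∑ z ∈ S \ un B, kt (hs G (im f) z).card +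
      ∑ z ∈ un B, kt (hs G (im f) z).card =
      ∑ z ∈ S, kt (hs G (im f) z).card := sum_sdiff (PointG_un_sub h)
  have h1 : ∑ z ∈ un B, kt (hs G (im f) z).card =
      ∑ i, ∑ z ∈ B i, kt (hs G (im f) z).card := by
    unfold un
    refine sum_biUnion ?_
    intro i _ j _ hij
    exact h.disj i j hij
  have h2 : ∀ i, kt 2 * ((((B i).filter fun z => ∃ j, j ≠ i ∧ ¬ G.Adj z (f j)).card : ℝ) -
      (((B i).filter fun z => ∃ j k, j ≠ i ∧ k ≠ i ∧ j ≠ k ∧ ¬ G.Adj z (f j) ∧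
        ¬ G.Adj z (f k)).card : ℝ)) ≤ ∑ z ∈ B i, kt (hs G (im f) z).card := by
    intro i
    rw [card_filter, card_filter]
    push_cast
    rw [← sum_sub_distrib, mul_sum]
    refine sum_le_sum fun z hz => ?_
    by_cases hc : ∃ j k, j ≠ i ∧ k ≠ i ∧ j ≠ k ∧ ¬ G.Adj z (f j) ∧ ¬ G.Adj z (f k)
    · have hc' : ∃ j, j ≠ i ∧ ¬ G.Adj z (f j) := by
        obtain ⟨j, k, hji, -, -, hj, -⟩ := hc
        exact ⟨j, hji, hj⟩
      rw [if_pos hc, if_pos hc', sub_self, mul_zero]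
      exact hnn z
    · by_cases hc' : ∃ j, j ≠ i ∧ ¬ G.Adj z (f j)
      · rw [if_neg hc, if_pos hc', hs_im_card_two h hf hz hc' hc]
        apply le_of_eq
        ring
      · rw [if_neg hc, if_neg hc', sub_self, mul_zero]
        exact hnn z
  have h3 : kt 2 * (ss G B f - s2 G B f) ≤
      ∑ i, ∑ z ∈ B i, kt (hs G (im f) z).card := by
    unfold ss s2
    rw [← sum_sub_distrib, mul_sum]
    exact sum_le_sum fun i _ => h2 i
  linarith

/-- the final assembly, real numbers -/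
theorem SPoint_fin {P mR m N SS S2 ξ Ks Z Kt α g s ε k2 E0 F0 : ℝ} (hm : 0 < m)
    (hmR : 0 < mR) (hN : 0 ≤ N) (hP : (1 - ε / 64) * mR ≤ P) (hε : 0 < ε) (hε1 : ε ≤ 1)
    (hεs : ε * s ≤ g) (hg : 0 < g) (hs : 0 ≤ s) (hk0 : 0 ≤ k2) (hk2 : k2 ≤ s)
    (hSS0 : 0 ≤ SS) (hS20 : 0 ≤ S2) (hS2 : S2 ≤ SS) (hKs : 0 ≤ Ks) (hZ : 0 ≤ Z)
    (hKt : k2 * (SS - S2) + Ks ≤ Kt)
    (h1 : E0 - N / m * ((α + g / 32) * SS) + (1 - ε) * (N / m) * (α * ξ) ≤ F0) :
    E0 - N / m * (((α - k2) + g) * SS + s * S2) + (1 - ε) * (N / m) * (α * ξ + Ks + Z) ≤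
      F0 + P * (N / mR * (Kt + Z) / m) := by
  have hN' : 0 ≤ N / m := div_nonneg hN hm.le
  have hW0 : 0 ≤ k2 * (SS - S2) + Ks + Z := by
    have : 0 ≤ k2 * (SS - S2) := mul_nonneg hk0 (by linarith)
    linarith
  have hP2 : (1 - ε / 64) * (N / m * (k2 * (SS - S2) + Ks + Z)) ≤
      P * (N / mR * (Kt + Z) / m) := by
    have h1 : P * (N / mR * (Kt + Z) / m) = P / mR * (N / m * (Kt + Z)) := by
      field_simp
    rw [h1]
    have h2 : 1 - ε / 64 ≤ P / mR := by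
      rw [le_div_iff₀ hmR]
      exact hP
    have h3 : N / m * (k2 * (SS - S2) + Ks + Z) ≤ N / m * (Kt + Z) :=
      mul_le_mul_of_nonneg_left (by linarith) hN'
    exact mul_le_mul h2 h3 (mul_nonneg hN' hW0) (le_trans (by linarith) h2)
  have hfin : N / m * (-(((α - k2) + g) * SS + s * S2) + (1 - ε) * (Ks + Z) +
      (α + g / 32) * SS) ≤ N / m * ((1 - ε / 64) * (k2 * (SS - S2) + Ks + Z)) := by
    refine mul_le_mul_of_nonneg_left ?_ hN'
    have k1 : ε / 64 * k2 ≤ g / 64 := by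
      have : ε * k2 ≤ ε * s := mul_le_mul_of_nonneg_left hk2 hε.le
      linarith
    have g1 : 0 ≤ SS * (31 / 32 * g - ε / 64 * k2) := mul_nonneg hSS0 (by linarith)
    have g2 : 0 ≤ ε / 64 * k2 := mul_nonneg (by linarith) hk0
    have g4 : 0 ≤ S2 * (s - (1 - ε / 64) * k2) := mul_nonneg hS20 (by linarith only [hk2, g2])
    have g5 : 0 ≤ (ε - ε / 64) * (Ks + Z) := mul_nonneg (by linarith only [hε]) (by linarith only [hKs, hZ])
    have e : (1 - ε / 64) * (k2 * (SS - S2) + Ks + Z) - (-(((α - k2) + g) * SS + s * S2) +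
        (1 - ε) * (Ks + Z) + (α + g / 32) * SS) = SS * (31 / 32 * g - ε / 64 * k2) +
        S2 * (s - (1 - ε / 64) * k2) + (ε - ε / 64) * (Ks + Z) := by
      ring
    linarith only [g1, g4, g5]
  have e2 : (1 - ε) * (N / m) * (α * ξ + Ks + Z) =
      (1 - ε) * (N / m) * (α * ξ) + N / m * ((1 - ε) * (Ks + Z)) := by
    ring
  have e3 : N / m * (-(((α - k2) + g) * SS + s * S2) + (1 - ε) * (Ks + Z) +
      (α + g / 32) * SS) = -(N / m * (((α - k2) + g) * SS + s * S2)) +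
      N / m * ((1 - ε) * (Ks + Z)) + N / m * ((α + g / 32) * SS) := by ring
  have e4 : (1 - ε / 64) * (N / m * (k2 * (SS - S2) + Ks + Z)) =
      N / m * (k2 * (SS - S2) + Ks + Z) * (1 - ε / 64) := by ring
  rw [e2]
  rw [e3] at hfin
  linarith only [h1, hP2, hfin]

variable {ι : Type} [Fintype ι] [DecidableEq ι] (J : SimpleGraph ι) [DecidableRel J.Adj]

theorem pointS (hcs : 2 ≤ Fintype.card ι) (R r : ℕ) (hR : 3 ≤ R) (CB C η₁ ε₇ ε₉ : ℝ)
    (hC : 0 < C) (hη₁ : 0 < η₁)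
    (hM : ∀ m : ℕ, 1 ≤ m → ((R : ℝ) * m) ^ Fintype.card ι ≤ 2 * M0 J R m)
    (hε9 : 0 < ε₉) (hε91 : ε₉ ≤ 1)
    (hη : 4096 * (Fintype.card ι : ℝ) ^ 2 * R ^ 4 * η₁ ≤ ε₉) (hε : 0 < ε₇) :
    ∃ δ₀ : ℝ, 0 < δ₀ ∧ ∀ δ : ℝ, 0 < δ → δ ≤ δ₀ → ∃ m₀ : ℕ, ∀ m : ℕ, m₀ ≤ m →
      ∀ kt : ℕ → ℝ, (∀ j ≤ R, 0 ≤ kt j) → (∀ j ≤ R, kt j ≤ (Fintype.card ι : ℝ) / R) →
      ∀ (V : Type) [DecidableEq V] (G : SimpleGraph V) [DecidableRel G.Adj] (S : Finset V)
        (B : Fin R → Finset V) (ρ : ℝ) (X : Finset V → ℝ), S.card ≤ R * m + r →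
        LS G S R m C η₁ δ B → M0 J R m ≤ ρ → ρ ≤ M0 J R m * (1 + CB / m) → ∀ f ∈ tcl G B,
        0 ≤ X (im f) →
        ((fJ J univ (fun i => (B i).card) : ℝ) - ρ) -
            M0 J R m / m * ((((Fintype.card ι : ℝ) / R - kt 2) +
              ε₉ * ((Fintype.card ι : ℝ) / (R * (R - 1)))) * ss G B f +
              (Fintype.card ι : ℝ) * s2 G B f) +
            (1 - ε₇) * (M0 J R m / m) * (∑ z ∈ S \ un B, xzK G R (Fintype.card ι) kt f z +
              X (im f)) ≤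
          (∏ l, ((B l).card : ℝ)) * lzK G J S R m kt ρ X (im f) := by
  obtain ⟨s, hsc⟩ : ∃ s : ℕ, s = Fintype.card ι := ⟨_, rfl⟩
  obtain ⟨C₁, hC₁, hDest⟩ := D_est J hcs R (by omega)
  rw [← hsc] at hcs hM hη
  have hs2 : (2 : ℝ) ≤ s := by exact_mod_cast hcs
  have hR3 : (3 : ℝ) ≤ R := by exact_mod_cast hR
  have hR0 : (0 : ℝ) < R := by linarith
  have hR1 : (0 : ℝ) < R - 1 := by linarith
  set α : ℝ := (s : ℝ) / R with hα
  set g₀ : ℝ := (s : ℝ) / (R * (R - 1)) with hg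
  obtain ⟨g, hgdef⟩ : ∃ g : ℝ, g = ε₉ * g₀ := ⟨_, rfl⟩
  have hα0 : 0 < α := by positivity
  have hg00 : 0 < g₀ := by positivity
  have hg0 : 0 < g := by rw [hgdef]; positivity
  have hgg : g ≤ g₀ := by
    rw [hgdef]
    have := mul_le_mul_of_nonneg_right hε91 hg00.le
    linarith
  have hαR : α * R = s := by rw [hα]; field_simp
  clear_value α g₀
  obtain ⟨ε, hεdef⟩ : ∃ ε : ℝ, ε = min ε₇ (g / s) := ⟨_, rfl⟩
  have hε0 : 0 < ε := by rw [hεdef]; exact lt_min hε (by positivity)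
  have hε7 : ε ≤ ε₇ := by rw [hεdef]; exact min_le_left _ _
  have hεg : ε ≤ g / s := by rw [hεdef]; exact min_le_right _ _
  have hεs : ε * s ≤ g := by rwa [le_div_iff₀ (by linarith)] at hεg
  have hgs : g / s ≤ 1 := by
    refine (div_le_div_of_nonneg_right hgg (by linarith)).trans ?_
    rw [hg, div_div, div_le_one (by positivity)]
    have h1 : 1 * (s : ℝ) ≤ R * (R - 1) * s :=
      mul_le_mul_of_nonneg_right (one_le_mul_of_one_le_of_one_le (by linarith) (by linarith))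
        (by linarith)
    linarith
  have hε1 : ε ≤ 1 := hεg.trans hgs
  obtain ⟨κ, hκdef⟩ : ∃ κ : ℝ, κ = min 1 (min (g / 1152) (ε * α / 18)) := ⟨_, rfl⟩
  have hκ0 : 0 < κ := by
    rw [hκdef]
    exact lt_min one_pos (lt_min (by positivity) (by positivity))
  have hκ1 : κ ≤ 1 := by rw [hκdef]; exact min_le_left _ _
  have hκg : κ ≤ g / 1152 := by
    rw [hκdef]; exact (min_le_right _ _).trans (min_le_left _ _)
  have hκε : κ ≤ ε * α / 18 := by
    rw [hκdef]; exact (min_le_right _ _).trans (min_le_right _ _)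
  obtain ⟨K, hK⟩ : ∃ K : ℝ, K = (s : ℝ) ^ 2 * (2 * R) ^ (s - 2) * (2 * R) := ⟨_, rfl⟩
  have hK0 : 0 < K := by rw [hK]; positivity
  refine ⟨min (1 / 8) (min (κ / (4 * K)) (min (κ / (s + R)) (ε / (64 * R)))), ?_, ?_⟩
  · refine lt_min (by norm_num) (lt_min (by positivity) (lt_min (by positivity) (by positivity)))
  intro δ hδ hδ0
  have hδ1 : δ ≤ 1 / 8 := hδ0.trans (min_le_left _ _)
  have hδ2 : δ ≤ κ / (4 * K) :=
    hδ0.trans ((min_le_right _ _).trans (min_le_left _ _))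
  have hδ3 : δ ≤ κ / (s + R) :=
    hδ0.trans ((min_le_right _ _).trans ((min_le_right _ _).trans (min_le_left _ _)))
  have hδ4 : δ ≤ ε / (64 * R) :=
    hδ0.trans ((min_le_right _ _).trans ((min_le_right _ _).trans (min_le_right _ _)))
  rw [le_div_iff₀ (by positivity)] at hδ2 hδ3 hδ4
  obtain ⟨m₁, hm₁⟩ := exists_nat_ge (C / δ + 1024 * (α + 1) * C / g + 8 * (α + 1) * C / (ε * α) +
    4 * C₁ / κ + |CB| / κ + 1)
  refine ⟨m₁, fun m hm kt hkt0 hkt1 V _ G _ S B ρ X hS h hρ1 hρ2 f hf hX => ?_⟩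
  rw [← hsc]
  have hm1 : (m₁ : ℝ) ≤ m := by exact_mod_cast hm
  have q1 : 0 ≤ C / δ := by positivity
  have q2 : 0 ≤ 1024 * (α + 1) * C / g := by positivity
  have q3 : 0 ≤ 8 * (α + 1) * C / (ε * α) := by positivity
  have q4 : 0 ≤ 4 * C₁ / κ := by positivity
  have q5 : 0 ≤ |CB| / κ := by positivity
  have hm1' : (1 : ℝ) ≤ m := by linarith only [hm₁, hm1, q1, q2, q3, q4, q5]
  have hm0 : (0 : ℝ) < m := by linarith only [hδ, hδ1, hm₁, hm1, q1, q2, q3, q4, q5]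
  have hmN : 1 ≤ m := by exact_mod_cast hm1'
  have c1 : C / m ≤ δ := by
    have : C / δ ≤ m := by linarith only [hδ, hδ1, hm₁, hm1, q2, q3, q4, q5]
    rw [div_le_iff₀ hδ] at this
    rw [div_le_iff₀ hm0]
    linarith only [this]
  have c2 : 1024 * (α + 1) * (C / m) ≤ g := by
    have : 1024 * (α + 1) * C / g ≤ m := by linarith only [hδ, hδ1, hm₁, hm1, q1, q3, q4, q5]
    rw [div_le_iff₀ hg0] at this
    rw [← mul_div_assoc, div_le_iff₀ hm0]
    linarith only [this]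
  have c3 : 8 * (α + 1) * (C / m) ≤ ε * α := by
    have : 8 * (α + 1) * C / (ε * α) ≤ m := by linarith only [hδ, hδ1, hm₁, hm1, q1, q2, q4, q5]
    rw [div_le_iff₀ (by positivity)] at this
    rw [← mul_div_assoc, div_le_iff₀ hm0]
    linarith only [this]
  have c4 : 4 * (C₁ / m) ≤ κ := by
    have : 4 * C₁ / κ ≤ m := by linarith only [hδ, hδ1, hm₁, hm1, q1, q2, q3, q5]
    rw [div_le_iff₀ hκ0] at this
    rw [← mul_div_assoc, div_le_iff₀ hm0]
    linarith only [this]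
  have c5 : CB / m ≤ κ := by
    have : |CB| / κ ≤ m := by linarith only [hδ, hδ1, hm₁, hm1, q1, q2, q3, q4]
    rw [div_le_iff₀ hκ0] at this
    rw [div_le_iff₀ hm0]
    have := le_abs_self CB
    linarith
  have hMm := hM m hmN
  have hN0 : 0 < M0 J R m := by
    have : 0 < ((R : ℝ) * m) ^ s := by positivity
    linarith
  -- the differences
  obtain ⟨hU, hL⟩ := PointG_D J (by rw [← hsc]; exact hcs) (R := R) (m := m) (α := α) (κ := κ)
    (δ := δ) (C₁ := C₁) (K := K) (by omega) hmN hδ.le (by linarith only [hδ,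
        hδ1]) hC₁.le (by rw [← hsc]; exact hMm)
    (by rw [← hsc]; exact hK) (by linarith only [hδ2]) c4 (fun k => by
      have h1 := hDest m hmN (Fin R) univ (by rw [card_univ, Fintype.card_fin]) k (mem_univ k)
        (fun _ => m) 0 le_rfl hm0.le (fun l _ => by simp)
      rw [zero_add, mul_one, ← hsc] at h1
      rw [← hsc]
      rw [hα]
      exact h1)
  -- the data
  set b : Fin R → ℝ := fun i => ((B i).card : ℝ) with hb
  set d : Fin R → ℝ := fun i => (((B i).filter fun z => ∃ j, j ≠ i ∧ ¬ G.Adj z (f j)).card : ℝ)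
    with hd
  set xN : Fin R → ℕ := fun i => ((S \ un B).filter fun z => hs G (im f) z = {f i}).card with hxN
  set x : Fin R → ℝ := fun i => (xN i : ℝ) with hx
  set ξ : ℝ := (((S \ un B).filter fun z => (hs G (im f) z).card = 1).card : ℝ) with hξd
  have hξ0 : 0 ≤ ξ := Nat.cast_nonneg _
  clear_value ξ
  have hd0 : ∀ i, 0 ≤ d i := fun i => Nat.cast_nonneg _
  have hx0 : ∀ i, 0 ≤ x i := fun i => Nat.cast_nonneg _
  have hξ : ∑ l, x l = ξ := by
    rw [hx, hξd, hxN, ← Nat.cast_sum, ← card_biUnion]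
    · congr 2
      ext z
      simp only [mem_biUnion, mem_univ, true_and, mem_filter]
      constructor
      · rintro ⟨l, hz, hl⟩
        exact ⟨hz, by rw [hl, card_singleton]⟩
      · rintro ⟨hz, hc⟩
        obtain ⟨t, ht⟩ := card_eq_one.1 hc
        have : t ∈ hs G (im f) z := by rw [ht]; exact mem_singleton_self t
        obtain ⟨l, hl⟩ := mem_im.1 (mem_hs.1 this).1
        exact ⟨l, hz, by rw [ht, hl]⟩
    · intro a _ b _ hab
      refine disjoint_left.2 fun z hz hz' => ?_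
      rw [mem_filter] at hz hz'
      rw [hz.2] at hz'
      exact hab (tcl_injective hf (singleton_inj.1 hz'.2))
  have hξC : ξ ≤ C := by
    have h1 : ξ ≤ ((S \ un B).card : ℝ) := by
      rw [hξd]
      exact_mod_cast card_le_card (filter_subset _ _)
    exact h1.trans h.hX
  have hSS : ss G B f ≤ 2 * R ^ 2 * η₁ * m := by
    have h1 : ss G B f ≤ ∑ _i : Fin R, 2 * R * η₁ * m :=
      sum_le_sum fun i _ => delta_le h hη₁.le hf i
    rw [sum_const, nsmul_eq_mul, card_univ, Fintype.card_fin] at h1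
    refine h1.trans (le_of_eq (by ring))
  have hSS0 : 0 ≤ ss G B f := by
    unfold ss
    exact sum_nonneg fun i _ => Nat.cast_nonneg _
  have hS20 : 0 ≤ s2 G B f := by
    unfold s2
    exact sum_nonneg fun i _ => Nat.cast_nonneg _
  have hS2 : s2 G B f ≤ ss G B f := by
    unfold s2 ss
    refine sum_le_sum fun i _ => ?_
    have : ((B i).filter fun z => ∃ j k, j ≠ i ∧ k ≠ i ∧ j ≠ k ∧ ¬ G.Adj z (f j) ∧
        ¬ G.Adj z (f k)) ⊆ ((B i).filter fun z => ∃ j, j ≠ i ∧ ¬ G.Adj z (f j)) := by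
      intro z hz
      rw [mem_filter] at hz ⊢
      obtain ⟨hz, j, k, hji, -, -, hj, -⟩ := hz
      exact ⟨hz, j, hji, hj⟩
    exact_mod_cast card_le_card this
  -- the vectors of natural numbers
  set bN : Fin R → ℕ := fun i => (B i).card with hbN
  set AN : Fin R → ℕ := fun i => bN i + xN i with hAN
  set aN : Fin R → ℕ := fun i => aa G S (im f) (f i) with haN
  have haa : ∀ i, (aN i : ℝ) = b i - d i + x i := fun i => aa_eq h hf i
  have hAA : ∀ i, (AN i : ℝ) = b i + x i := fun i => by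
    rw [hAN, hb, hx]
    push_cast
    rfl
  have haA : ∀ i, aN i ≤ AN i := by
    intro i
    have h1 : (aN i : ℝ) ≤ (AN i : ℝ) := by
      rw [haa, hAA]
      have := hd0 i
      linarith only [this]
    exact_mod_cast h1
  have hxi : ∀ i, x i ≤ ξ := fun i => by
    rw [← hξ]
    exact single_le_sum (fun j _ => hx0 j) (mem_univ i)
  have hCδ : C ≤ δ * m := by rwa [div_le_iff₀ hm0] at c1
  have hANle : ∀ i, (AN i : ℝ) ≤ (1 + 2 * δ) * m := by
    intro i
    rw [hAA]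
    have h1 : b i ≤ (1 + δ) * m := h.size_hi i
    have h2 := hxi i
    have h3 : (1 + 2 * δ) * (m : ℝ) = (1 + δ) * m + δ * m := by ring
    linarith only [hξC, hCδ, h1, h2]
  have hsum1 : ∑ i, (AN i : ℝ) - ∑ i, (aN i : ℝ) = ss G B f := by
    rw [← sum_sub_distrib]
    unfold ss
    refine sum_congr rfl fun i _ => ?_
    rw [haa, hAA]
    ring
  have hsum2 : ∑ i, (AN i : ℝ) - ∑ i, (bN i : ℝ) = ξ := by
    rw [← sum_sub_distrib, ← hξ]
    refine sum_congr rfl fun i _ => ?_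
    rw [hAA]
    ring
  have E1 := PointG_steps_le J (T := (univ : Finset (Fin R))) (a := aN) (b := AN)
    (U := M0 J R m / m * (α + κ)) (fun i _ => haA i) (fun c _ hc k _ => hU c (fun l => by
      have h3 : (c l : ℝ) ≤ AN l := by exact_mod_cast hc l (mem_univ l)
      exact h3.trans (hANle l)) k)
  rw [hsum1] at E1
  have hbA : ∀ i ∈ (univ : Finset (Fin R)), bN i ≤ AN i := fun i _ => Nat.le_add_right _ _
  have E2 := PointG_steps_le J (T := (univ : Finset (Fin R))) (a := bN) (b := AN)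
    (U := M0 J R m / m * (α + κ)) hbA (fun c _ hc k _ => hU c (fun l => by
      have h3 : (c l : ℝ) ≤ AN l := by exact_mod_cast hc l (mem_univ l)
      exact h3.trans (hANle l)) k)
  rw [hsum2] at E2
  have E3 := PointG_le_steps J (T := (univ : Finset (Fin R))) (a := bN) (b := AN)
    (L := M0 J R m / m * (α - κ)) hbA (fun c hc _ k _ => hL c (fun l => by
      have h3 : (bN l : ℝ) ≤ c l := by exact_mod_cast hc l (mem_univ l)
      exact (h.size_lo l).trans h3) k)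
  rw [hsum2] at E3
  have E4 : (fJ J univ aN : ℝ) ≤ fJ J univ AN := by
    exact_mod_cast fJ_mono J (T := (univ : Finset (Fin R))) fun i _ => haA i
  have E4' : (fJ J univ bN : ℝ) ≤ fJ J univ AN := by
    exact_mod_cast fJ_mono J (T := (univ : Finset (Fin R))) hbA
  have hακ : (α + κ) * R * δ ≤ κ := by
    have h1 : (α + κ) * R = s + κ * R := by rw [add_mul, hαR]
    have h2 : κ * R ≤ 1 * R := mul_le_mul_of_nonneg_right hκ1 hR0.le
    have h3 : (s + κ * R) * δ ≤ (s + R) * δ := mul_le_mul_of_nonneg_right (by linarith only [h2]) hδ.le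
    rw [h1]
    linarith only [hδ3, h3]
  obtain ⟨E5, E6⟩ := PointG_near J (R := R) (m := m) (α := α) (κ := κ) (δ := δ) hmN hδ.le hN0.le
    (by linarith only [hα0, hκ0]) hακ hU (b := bN) h.size_lo h.size_hi
  have hρ2' : ρ ≤ M0 J R m * (1 + κ) :=
    hρ2.trans (mul_le_mul_of_nonneg_left (by linarith only [c5]) hN0.le)
  -- the constants
  have hR4 : 4096 * (R ^ 4 * η₁) ≤ ε₉ := by
    have h1 : 0 ≤ R ^ 4 * η₁ := by positivity
    have h2 : 1 * (R ^ 4 * η₁) ≤ (s : ℝ) ^ 2 * (R ^ 4 * η₁) :=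
      mul_le_mul_of_nonneg_right (one_le_pow₀ (by linarith only [hs2])) h1
    have h3 : 4096 * (s : ℝ) ^ 2 * R ^ 4 * η₁ = 4096 * ((s : ℝ) ^ 2 * (R ^ 4 * η₁)) := by ring
    linarith only [hη, h2]
  have hA1 : 2 * (R : ℝ) ^ 2 * η₁ ≤ 1 / 8 := by
    have h1 : (R : ℝ) ^ 2 * η₁ * 1 ≤ (R : ℝ) ^ 2 * η₁ * R ^ 2 :=
      mul_le_mul_of_nonneg_left (one_le_pow₀ (by linarith only [hR3])) (by positivity)
    have h2 : (R : ℝ) ^ 2 * η₁ * R ^ 2 = R ^ 4 * η₁ := by ring
    linarith only [hε91, hδ, hδ1, hR4, h1]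
  have hA2 : 4 * (α + 1) * (2 * (R : ℝ) ^ 2 * η₁) ≤ g / 64 := by
    have e1 : (α + 1) * R = s + R := by rw [add_mul, hαR, one_mul]
    have e2 : (s : ℝ) + R ≤ s * R := SPoint_sR hs2 hR3
    have t1 : 4 * (α + 1) * (2 * (R : ℝ) ^ 2 * η₁) * (R * (R - 1) * 64) =
        512 * ((s + R) * (R ^ 2 * (R - 1) * η₁)) := by
      rw [← e1]
      ring
    have t2 : (R : ℝ) ^ 2 * (R - 1) * η₁ ≤ R ^ 2 * R * η₁ :=
      mul_le_mul_of_nonneg_right (mul_le_mul_of_nonneg_left (by linarith only [hδ,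
          hδ1]) (by positivity)) hη₁.le
    have t3 : (s + R) * ((R : ℝ) ^ 2 * (R - 1) * η₁) ≤ (s * R) * (R ^ 2 * R * η₁) :=
      mul_le_mul e2 t2 (by positivity) (by positivity)
    have t4 : (s * R) * ((R : ℝ) ^ 2 * R * η₁) = s * (R ^ 4 * η₁) := by ring
    have t5 : (s : ℝ) * (4096 * (R ^ 4 * η₁)) ≤ s * ε₉ :=
      mul_le_mul_of_nonneg_left hR4 (by linarith only [hs2, hδ, hδ1])
    have t6 : 0 ≤ (s : ℝ) * (R ^ 4 * η₁) := by positivity
    have t7 : g / 64 = (s * ε₉) / (R * (R - 1) * 64) := by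
      rw [hgdef, hg]
      field_simp
    rw [t7, le_div_iff₀ (by positivity), t1]
    linarith only [t3, t4, t5, t6]
  have hcm0 : 0 ≤ C / m := by positivity
  have k1 : 9 * κ + 4 * (α + 1) * (2 * (R : ℝ) ^ 2 * η₁) + 8 * (α + 1) * (C / m) ≤ g / 32 := by
    linarith only [hκg, c2, hA2]
  have k2 : 9 * κ + 4 * (α + 1) * (C / m) ≤ ε * α := by
    linarith only [hκε, c3]
  have P1 := PointG_real (b := b) (d := d) (x := x) (m := (m : ℝ)) (N := M0 J R m) (δ := δ)
    (ε := ε) (κ := κ) (g := g) (C := C) (A := 2 * (R : ℝ) ^ 2 * η₁) (ρ := ρ) (SS := ss G B f)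
    (ξ := ξ) (α := α) (eb := fJ J univ bN) (ex := fJ J univ AN) (ea := fJ J univ aN) hm0 hN0 hα0
    hκ0 hκ1 hδ1 hA1 (by linarith only [hδ1,
        c1]) h.size_lo hd0 hx0 rfl hξ hSS hξC k1 k2 E1 E2 E3 E4 E4' E5 E6
    hρ1 hρ2'
  -- the costs
  have hkt20 : 0 ≤ kt 2 := hkt0 2 (by omega)
  have hαs : α ≤ s := by
    rw [hα]
    exact div_le_self (by linarith only [hs2, hδ, hδ1]) (by linarith only [hR3, hδ, hδ1])
  have hkt22 : kt 2 ≤ s := by
    have h1 := hkt1 2 (by omega)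
    rw [← hsc] at h1
    exact h1.trans (hα ▸ hαs)
  have hnn : ∀ z, 0 ≤ kt (hs G (im f) z).card := fun z => hkt0 _ (by
    calc (hs G (im f) z).card ≤ (im f).card := card_le_card (hs_subset _ _)
      _ = R := im_card hf)
  have hsum0 := SPoint_sum_ge h hf hkt0
  set Ks : ℝ := ∑ z ∈ S \ un B,
    (if (hs G (im f) z).card = 1 then 0 else kt (hs G (im f) z).card) with hKs
  have hKs0 : 0 ≤ Ks := sum_nonneg fun z _ => by
    split_ifs
    · exact le_rfl
    · exact hnn z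
  have hKs1 : Ks ≤ ∑ z ∈ S \ un B, kt (hs G (im f) z).card := sum_le_sum fun z _ => by
    split_ifs
    · exact hnn z
    · exact le_rfl
  have hsum : kt 2 * (ss G B f - s2 G B f) + Ks ≤ ∑ z ∈ S, kt (hs G (im f) z).card := by
    linarith only [hsum0, hKs1]
  have hXz : ∑ z ∈ S \ un B, xzK G R s kt f z = α * ξ + Ks := by
    rw [hξd, card_filter]
    push_cast
    rw [hKs, mul_sum, ← sum_add_distrib]
    refine sum_congr rfl fun z _ => ?_
    unfold xzK
    by_cases h1 : (hs G (im f) z).card = 1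
    · rw [if_pos h1, if_pos h1, if_pos h1, mul_one, add_zero, hα]
    · rw [if_neg h1, if_neg h1, if_neg h1, mul_zero, zero_add]
  have hP : (1 - ε / 64) * (m : ℝ) ^ R ≤ ∏ l, b l := by
    have h1 : ((1 - δ) * m) ^ R ≤ ∏ l, b l := by
      have : ((1 - δ) * (m : ℝ)) ^ R = ∏ _l : Fin R, (1 - δ) * (m : ℝ) := by
        rw [prod_const, card_univ, Fintype.card_fin]
      rw [this]
      exact prod_le_prod (fun i _ => mul_nonneg (by linarith only [hδ,
          hδ1]) hm0.le) fun i _ => h.size_lo i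
    refine le_trans ?_ h1
    rw [mul_pow]
    refine mul_le_mul_of_nonneg_right ?_ (by positivity)
    have := PointG_pow' (δ := δ) (by linarith only [hδ, hδ1]) R
    linarith
  -- assembly
  have hmR : (0 : ℝ) < (m : ℝ) ^ R := pow_pos hm0 R
  have Q1 := SPoint_fin (P := ∏ l, b l) (mR := (m : ℝ) ^ R) (Z := X (im f)) (g := g)
    (s := (s : ℝ)) hm0 hmR hN0.le hP hε0 hε1 hεs hg0 (by linarith only [hs2, hδ,
        hδ1]) hkt20 hkt22 hSS0 hS20 hS2
    hKs0 hX hsum P1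
  have hbij : Set.BijOn f (univ : Finset (Fin R)) (im f) := by
    have h1 := ((tcl_injective hf).injOn (s := ((univ : Finset (Fin R)) : Set (Fin R)))).bijOn_image
    unfold im
    rw [coe_image]
    exact h1
  have hmap : fJ J (im f) (aa G S (im f)) = fJ J univ aN := (fJ_map J f hbij _).symm
  have e0 : lzK G J S R m kt ρ X (im f) =
      ((fJ J univ aN : ℝ) - ρ) *
        (∏ i, (b i - d i + x i)⁻¹) + M0 J R m / (m : ℝ) ^ R *
          ((∑ z ∈ S, kt (hs G (im f) z).card) + X (im f)) / m := by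
    unfold lzK
    rw [hmap, prod_im hf (fun t => ((aa G S (im f) t : ℝ))⁻¹)]
    simp only [← haa]
    rfl
  rw [e0, hXz]
  have hW : 0 ≤ α * ξ + Ks + X (im f) :=
    add_nonneg (add_nonneg (mul_nonneg hα0.le hξ0) hKs0) hX
  have hfinal : (1 - ε₇) * (M0 J R m / m) * (α * ξ + Ks + X (im f)) ≤
      (1 - ε) * (M0 J R m / m) * (α * ξ + Ks + X (im f)) :=
    mul_le_mul_of_nonneg_right (mul_le_mul_of_nonneg_right (by linarith only [hε7])
      (div_nonneg hN0.le hm0.le)) hW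
  have gen : ∀ A q1 q2 Y : ℝ, A * (q1 * q2) + q1 * Y = q1 * (A * q2 + Y) := by
    intro A q1 q2 Y
    ring
  refine le_trans ?_ (le_of_eq (gen _ _ _ _))
  refine le_trans ?_ Q1
  rw [← hg, ← hα, ← hgdef]
  linarith only [hfinal]

end H57GH
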