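import Pool.Agent.H57.GH.LocalB
import Pool.Agent.H57.GH.UpA
import Pool.Agent.H57.GH.JoinE
import Pool.Agent.H57.GH.KIneqG
import Pool.Agent.H57.GH.KGraphG
import Pool.Agent.H57.LC.Count

/-!
The upper bound for `K_u ∨ J`, assembly.
-/

namespace H57GH

open Finset H57LC H57LT

set_option linter.unusedSectionVars false

variable {ι : Type} [Fintype ι] [DecidableEq ι] (J : SimpleGraph ι) [DecidableRel J.Adj]

/-- the complement of an `R`-subset in a clique with `R + u` elements is a `u`-clique -/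
lemma UpperG_sdiff {V : Type*} [Fintype V] [DecidableEq V] {G : SimpleGraph V}
    [DecidableRel G.Adj] {R u : ℕ} {K T : Finset V} (hK : K ∈ clq G univ (R + u)) (hT : T ⊆ K)
    (hc : T.card = R) : K \ T ∈ clq G univ u := by
  have hK' := mem_clq.1 hK
  rw [mem_clq]
  refine ⟨⟨subset_univ _, ?_⟩, hK'.2.subset sdiff_subset⟩
  have := card_sdiff_add_card_eq_card hT
  have h2 := hK'.1.2
  omega

/-- an `R`-subset of a clique is a clique in the common neighbourhood of the rest -/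
lemma UpperG_mem {V : Type*} [Fintype V] [DecidableEq V] {G : SimpleGraph V}
    [DecidableRel G.Adj] {R u : ℕ} {K T : Finset V} (hK : K ∈ clq G univ (R + u)) (hT : T ⊆ K)
    (hc : T.card = R) : T ∈ clq G (cn G (K \ T)) R := by
  have hK' := mem_clq.1 hK
  rw [mem_clq]
  refine ⟨⟨fun t ht => ?_, hc⟩, hK'.2.subset hT⟩
  rw [mem_cn]
  intro a ha
  have ha' := mem_sdiff.1 ha
  exact hK'.2 a ha'.1 t (hT ht) (fun e => ha'.2 (e ▸ ht))

/-- what the very heavy vertices pay covers the copies through them and the loss -/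
lemma UpperG_pay {V : Type*} [DecidableEq V] (F : Finset V) (x : V → ℕ) {s q : ℕ} (hs : 1 ≤ s)
    {n m : ℝ} (hm : 0 ≤ m) (hn : m ≤ n) :
    ∑ y ∈ F, (s : ℝ) * (x y : ℝ) ^ (1 + q) * n ^ (s - 2 - q) +
      ∑ y ∈ F, (x y : ℝ) ^ (1 + q) * m ^ (s - 2 - q) ≤
        ∑ y ∈ F, PiW s q n (x y) := by
  rw [← sum_add_distrib]
  refine sum_le_sum fun y _ => ?_
  unfold PiW
  have h1 : m ^ (s - 2 - q) ≤ n ^ (s - 2 - q) := pow_le_pow_left₀ hm hn _
  have h2 : (0 : ℝ) ≤ (x y : ℝ) ^ (1 + q) := by positivity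
  have h3 : (x y : ℝ) ^ (1 + q) * m ^ (s - 2 - q) ≤ (x y : ℝ) ^ (1 + q) * n ^ (s - 2 - q) :=
    mul_le_mul_of_nonneg_left h1 h2
  have h4 : (0 : ℝ) ≤ (x y : ℝ) ^ (1 + q) * n ^ (s - 2 - q) :=
    mul_nonneg h2 (pow_nonneg (hm.trans hn) _)
  have h5 : (1 : ℝ) ≤ s := by exact_mod_cast hs
  nlinarith [mul_nonneg (sub_nonneg.2 h5) h4]

/-- the core: fixed `R`, `r` and mode -/
lemma UpperG_core [Nonempty ι] (u : ℕ) (hu : 1 ≤ u) (d : ℕ) (hd1 : 1 ≤ d)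
    (hd : ∀ v, d ≤ dg J univ v) (θ : ℝ) (hθ : 0 < θ) (hθ1 : θ ≤ 1 / 4) (R r q κ₀ : ℕ)
    (hR8 : 8 ≤ R) (hrR : r ≤ R) (hqd : q + 1 ≤ d) (hκu : κ₀ ≤ u) (hκd : κ₀ ≤ d)
    (hM : ∀ m : ℕ, 1 ≤ m → ((R : ℝ) * m) ^ Fintype.card ι ≤ 2 * M0 J R m)
    (HA : ∀ C₁ : ℝ, 0 < C₁ → ∃ CB₀ : ℝ, 0 < CB₀ ∧ ∀ CB : ℝ, CB₀ ≤ CB →
      ∃ m₀ : ℕ, ∀ m : ℕ, m₀ ≤ m →
      ∀ (V : Type) [DecidableEq V] (G : SimpleGraph V) [DecidableRel G.Adj] (S : Finset V)
        (ρ g : ℝ), S.card ≤ R * m + r → clq G S (R + 1) = ∅ → ¬ TyB G S R m CB →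
        M0 J R m ≤ ρ →
        g ≤ u * ∑ x ∈ vh G S R m θ, PiW (Fintype.card ι) q ((R : ℝ) * m + r) (dg G S x) →
        ∃ z : Finset V → ℝ, ((emb J G S).card : ℝ) - ρ + g ≤ ∑ T ∈ clq G S R, z T ∧
          ∀ T ∈ clq G S R, z T ≤ -(C₁ / m) * (M0 J R m / (m : ℝ) ^ R))
    (HB : ∀ C₁ CB C₆ ζ ε : ℝ, 0 < C₁ → 0 < CB → 0 < C₆ → 0 < ζ → ζ ≤ 1 →
      0 < ε → ε < 1 →
      ∃ m₀ : ℕ, ∀ m : ℕ, m₀ ≤ m →
        ∀ (V : Type) [DecidableEq V] (G : SimpleGraph V) [DecidableRel G.Adj] (S : Finset V)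
          (ρ Γ : ℝ), S.card ≤ R * m + r → clq G S (R + 1) = ∅ → TyB G S R m CB →
          M0 J R m ≤ ρ → ρ ≤ M0 J R m * (1 + CB / m) → 0 ≤ Γ →
          Γ ≤ C₆ * (m : ℝ) ^ (Fintype.card ι - 2 - q) → (¬ Slack G S R m θ κ₀ → Γ = 0) →
          ∃ z : Finset V → ℝ,
            ((emb J G (S \ vh G S R m θ)).card : ℝ) - ρ + Γ ≤ ∑ T ∈ clq G S R, z T +
              ∑ y ∈ (vh G S R m θ).filter (fun y => d ≤ dg G S y),
                (dg G S y : ℝ) ^ (1 + q) * (m : ℝ) ^ (Fintype.card ι - 2 - q) ∧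
            ∀ T ∈ clq G S R, z T ≤ -(C₁ / m) * (M0 J R m / (m : ℝ) ^ R) ∨
              ((∀ t ∈ T, (1 - ε) * m ≤ (aa G S T t : ℝ)) ∧
                z T ≤ lzG G J S R m θ (ζ * ((m : ℝ)⁻¹) ^ q) ρ κ₀ T))
    (HK : ∃ C₁ ζ ε : ℝ, 0 < C₁ ∧ 0 < ζ ∧ ζ ≤ 1 ∧ 0 < ε ∧ ε < 1 ∧ ∃ m₀ : ℕ, ∀ m : ℕ, m₀ ≤ m →
      ∀ (α : Type) [DecidableEq α] (β : Type) (K : Finset α) (a : α → ℕ) (Z : Finset β)
        (h : β → Finset α) (z : Finset α → ℝ), K.card = R + u → (∀ t ∈ K, 1 ≤ a t) →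
        (∀ T ⊆ K, T.card = R →
          ∑ i ∈ T, a i + (Z.filter fun y => 2 ≤ (h y).card ∧ h y ⊆ T).card ≤ R * m + r) →
        (∀ T ⊆ K, T.card = R → z T ≤ -(C₁ / m) * (M0 J R m / (m : ℝ) ^ R) ∨
          ((∀ t ∈ T, (1 - ε) * m ≤ (a t : ℝ)) ∧
            z T ≤ ((fJ J T a : ℝ) - rhoG J u R r m) * (∏ t ∈ T, ((a t : ℝ))⁻¹) +
              M0 J R m / (m : ℝ) ^ R *
                ((∑ y ∈ Z.filter (fun y => h y ⊆ T), ktG R (Fintype.card ι) θ (h y).card) +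
                  ζ * ((m : ℝ)⁻¹) ^ q *
                    (if κ₀ + 1 ≤ (Z.filter fun y => 2 ≤ (h y).card ∧ h y ⊆ T).card then 1
                      else 0)) / m)) →
        ∑ T ∈ powersetCard R K, z T ≤ 0) :
    ∃ m₀ : ℕ, ∀ m : ℕ, m₀ ≤ m →
      ∀ (V : Type) [Fintype V] [DecidableEq V] (G : SimpleGraph V) [DecidableRel G.Adj],
        (∀ U ∈ clq G univ u, (cn G U).card ≤ R * m + r) → clq G univ (R + u + 1) = ∅ →
        ((emb (jn J u) G univ).card : ℝ) ≤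
          u.factorial * rhoG J u R r m * ((clq G univ u).card : ℝ) := by
  have hcs : 2 ≤ Fintype.card ι := by
    have := two_le_card J (q := 0) (fun v => (by omega : 1 + 0 ≤ d).trans (hd v))
    omega
  obtain ⟨C₁, ζ, ε, hC₁, hζ, hζ1, hε, hε1, m₁, hK⟩ := HK
  obtain ⟨CB₀, hCB₀, hA'⟩ := HA C₁ hC₁
  obtain ⟨Cρ, hCρ, hρ⟩ := rhoG_bounds J hcs u R r (by omega) (by omega) hM
  have hCB : 0 < max CB₀ Cρ := lt_of_lt_of_le hCB₀ (le_max_left _ _)
  obtain ⟨m₂, hA⟩ := hA' (max CB₀ Cρ) (le_max_left _ _)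
  obtain ⟨C₆, hC₆, m₃, hT⟩ := transfer u R r d q κ₀ (Fintype.card ι) hu hR8 hrR hκu hκd hd1
    (max CB₀ Cρ) θ hCB hθ hθ1
  obtain ⟨m₄, hB⟩ := HB C₁ (max CB₀ Cρ) C₆ ζ ε hC₁ hCB hC₆ hζ hζ1 hε hε1
  refine ⟨max 1 (max (max m₁ m₂) (max m₃ m₄)), fun m hm V _ _ G _ hdeg hfree => ?_⟩
  have hm0 : 1 ≤ m := (le_max_left _ _).trans hm
  have hmr : max (max m₁ m₂) (max m₃ m₄) ≤ m := (le_max_right _ _).trans hm
  have hm1 : m₁ ≤ m := ((le_max_left _ _).trans (le_max_left _ _)).trans hmr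
  have hm2 : m₂ ≤ m := ((le_max_right _ _).trans (le_max_left _ _)).trans hmr
  have hm3 : m₃ ≤ m := ((le_max_left _ _).trans (le_max_right _ _)).trans hmr
  have hm4 : m₄ ≤ m := ((le_max_right _ _).trans (le_max_right _ _)).trans hmr
  have hm0R : (1 : ℝ) ≤ m := by exact_mod_cast hm0
  have hR1R : (1 : ℝ) ≤ R := by exact_mod_cast (by omega : 1 ≤ R)
  obtain ⟨giv, got, hgg, hnB, hTB⟩ := hT m hm3 V G hdeg hfree
  have hMρ : M0 J R m ≤ rhoG J u R r m := M0_le_rhoG J hm0 (by omega) (by omega)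
  have hM0 : 0 ≤ M0 J R m := by unfold M0; positivity
  have hρM : rhoG J u R r m ≤ M0 J R m * (1 + max CB₀ Cρ / m) := by
    refine (hρ m hm0).2.trans (mul_le_mul_of_nonneg_left ?_ hM0)
    have : Cρ / m ≤ max CB₀ Cρ / m := by
      gcongr
      exact le_max_right _ _
    linarith
  have key : ∀ U ∈ clq G univ u, ∃ z : Finset V → ℝ,
      ((emb J G (cn G U)).card : ℝ) - rhoG J u R r m + giv U - got U ≤
        ∑ T ∈ clq G (cn G U) R, z T ∧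
      ∀ T ∈ clq G (cn G U) R, z T ≤ -(C₁ / m) * (M0 J R m / (m : ℝ) ^ R) ∨
        ((∀ t ∈ T, (1 - ε) * m ≤ (aa G (cn G U) T t : ℝ)) ∧
          z T ≤ lzG G J (cn G U) R m θ (ζ * ((m : ℝ)⁻¹) ^ q) (rhoG J u R r m) κ₀ T) := by
    intro U hU
    by_cases hTy : TyB G (cn G U) R m (max CB₀ Cρ)
    · obtain ⟨Γ, hΓ0, hΓ1, hΓ2, hΓ3⟩ := hTB U hU hTy
      obtain ⟨z, hz1, hz2⟩ := hB m hm4 V G (cn G U) (rhoG J u R r m) Γ (hdeg U hU)
        (cn_free hfree hU) hTy hMρ hρM hΓ0 hΓ1 hΓ2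
      refine ⟨z, ?_, hz2⟩
      have h1 := emb_vh_le J (q := q) hd (by omega) G (S := cn G U) (R := R) (m := m) (r := r)
        (θ := θ) hm0 (hdeg U hU)
      have h2 := UpperG_pay ((vh G (cn G U) R m θ).filter (fun y => d ≤ dg G (cn G U) y))
        (fun y => dg G (cn G U) y) (s := Fintype.card ι) (q := q) (by omega)
        (n := (R : ℝ) * m + r) (m := (m : ℝ)) (by positivity) (by
          have h0 : (0 : ℝ) ≤ r := by positivity
          nlinarith)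
      linarith
    · obtain ⟨h0, h1⟩ := hnB U hU hTy
      obtain ⟨z, hz1, hz2⟩ := hA m hm2 V G (cn G U) (rhoG J u R r m) (giv U) (hdeg U hU)
        (cn_free hfree hU) hTy hMρ h1
      refine ⟨z, ?_, fun T hT' => Or.inl (hz2 T hT')⟩
      rw [h0]
      linarith
  choose! z hz1 hz2 using key
  have hneg : ∑ K ∈ clq G univ (R + u), ∑ T ∈ powersetCard R K, z (K \ T) T ≤ 0 := by
    refine sum_nonpos fun K hKm => ?_
    have hK' := mem_clq.1 hKm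
    refine hK m hm1 V V K (aK G K) univ (fun y => hs G K y) (fun T => z (K \ T) T)
      hK'.1.2 (fun t ht => one_le_aK hK'.2 ht) ?_ ?_
    · intro T hT' hc
      exact (sum_aK_hge hT').trans (hdeg (K \ T) (UpperG_sdiff hKm hT' hc))
    · intro T hT' hc
      rcases hz2 (K \ T) (UpperG_sdiff hKm hT' hc) T (UpperG_mem hKm hT' hc) with h | ⟨h1, h3⟩
      · exact Or.inl h
      · right
        refine ⟨fun t ht => ?_, ?_⟩
        · have := h1 t ht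
          rwa [aa_cn hT' ht] at this
        · rw [lzG_cn J hT'] at h3
          exact h3
  have hsum : ∑ U ∈ clq G univ u,
      (((emb J G (cn G U)).card : ℝ) - rhoG J u R r m + giv U - got U) ≤ 0 :=
    calc ∑ U ∈ clq G univ u,
        (((emb J G (cn G U)).card : ℝ) - rhoG J u R r m + giv U - got U)
        ≤ ∑ U ∈ clq G univ u, ∑ T ∈ clq G (cn G U) R, z U T := sum_le_sum hz1
      _ = ∑ K ∈ clq G univ (R + u), ∑ T ∈ powersetCard R K, z (K \ T) T := double_count u R z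
      _ ≤ 0 := hneg
  rw [sum_sub_distrib, sum_add_distrib, sum_sub_distrib, sum_const, nsmul_eq_mul, hgg] at hsum
  have hjoin : ((emb (jn J u) G univ).card : ℝ) =
      u.factorial * ∑ U ∈ clq G univ u, ((emb J G (cn G U)).card : ℝ) := by
    have h := emb_join J G u
    rw [h]
    push_cast
    rfl
  rw [hjoin, mul_assoc]
  refine mul_le_mul_of_nonneg_left ?_ (by positivity)
  linarith

/-- the upper bound -/
theorem upperG [Nonempty ι] (u : ℕ) (hu : 1 ≤ u) (d : ℕ) (hd1 : 1 ≤ d)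
    (hd : ∀ v, d ≤ dg J univ v) : ∃ R₀ : ℕ, ∃ c₀ : ℝ, 0 < c₀ ∧ ∀ R r : ℕ, R₀ ≤ R → 1 ≤ r →
    (r ≤ d ∨ (u ≤ d ∧ 2 ≤ d ∧ (r : ℝ) ≤ c₀ * R)) → r + 2 ≤ R ∧ ∃ m₀ : ℕ, ∀ m : ℕ, m₀ ≤ m →
      ∀ (V : Type) [Fintype V] [DecidableEq V] (G : SimpleGraph V) [DecidableRel G.Adj],
        (∀ U ∈ clq G univ u, (cn G U).card ≤ R * m + r) → clq G univ (R + u + 1) = ∅ →
        ((emb (jn J u) G univ).card : ℝ) ≤
          u.factorial * rhoG J u R r m * ((clq G univ u).card : ℝ) := by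
  have hd1' : ∀ v, 1 ≤ dg J univ v := fun v => hd1.trans (hd v)
  have hcs : 2 ≤ Fintype.card ι := by
    have := two_le_card J (q := 0) (fun v => (by omega : 1 + 0 ≤ d).trans (hd v))
    omega
  have hJ : 1 ≤ oe J := by
    have := card_le_oe J hd1'
    omega
  obtain ⟨θA, hθA, RA, _, HA⟩ := localA J hd1' u
  have huR : (0 : ℝ) < 16 * ((u : ℝ) + 1) := by positivity
  obtain ⟨θ, hθ, hθA', hθ1, hθu⟩ : ∃ θ : ℝ, 0 < θ ∧ θ ≤ θA ∧ θ ≤ 1 / 4 ∧
      16 * ((u : ℝ) + 1) * θ ≤ 1 := by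
    refine ⟨min θA (min (1 / 4) (1 / (16 * ((u : ℝ) + 1)))), ?_, min_le_left _ _,
      (min_le_right _ _).trans (min_le_left _ _), ?_⟩
    · refine lt_min hθA (lt_min (by norm_num) (by positivity))
    · have h : min θA (min (1 / 4) (1 / (16 * ((u : ℝ) + 1)))) ≤ 1 / (16 * ((u : ℝ) + 1)) :=
        (min_le_right _ _).trans (min_le_right _ _)
      calc 16 * ((u : ℝ) + 1) * min θA (min (1 / 4) (1 / (16 * ((u : ℝ) + 1))))
          ≤ 16 * ((u : ℝ) + 1) * (1 / (16 * ((u : ℝ) + 1))) :=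
            mul_le_mul_of_nonneg_left h huR.le
        _ = 1 := by field_simp
  obtain ⟨RB, HB⟩ := localB J d hd1 hd θ hθ hθ1
  obtain ⟨RK, cK, hcK, HK⟩ := K_ineqG J hcs hJ u hu θ hθ hθ1
  obtain ⟨CM, hCM, HM⟩ := M0_bounds J
  refine ⟨max (max (max RA RB) (max RK 8)) (max (max ⌈2 * CM⌉₊ ⌈(d : ℝ) / cK⌉₊) (d + 2)),
    min cK (1 / 2), lt_min hcK (by norm_num), fun R r hR hr hcase => ?_⟩
  have hRA : RA ≤ R := by
    refine le_trans ?_ hR
    exact (le_max_left _ _).trans ((le_max_left _ _).trans (le_max_left _ _))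
  have hRB : RB ≤ R := by
    refine le_trans ?_ hR
    exact (le_max_right _ _).trans ((le_max_left _ _).trans (le_max_left _ _))
  have hRK : RK ≤ R := by
    refine le_trans ?_ hR
    exact (le_max_left _ _).trans ((le_max_right _ _).trans (le_max_left _ _))
  have hR8 : 8 ≤ R := by
    refine le_trans ?_ hR
    exact (le_max_right _ _).trans ((le_max_right _ _).trans (le_max_left _ _))
  have hRM : 2 * CM ≤ R := by
    refine (Nat.le_ceil _).trans ?_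
    have h : ⌈2 * CM⌉₊ ≤ R := by
      refine le_trans ?_ hR
      exact (le_max_left _ _).trans ((le_max_left _ _).trans (le_max_right _ _))
    exact_mod_cast h
  have hRd : (d : ℝ) ≤ cK * R := by
    have h1 : (d : ℝ) / cK ≤ R := by
      refine (Nat.le_ceil _).trans ?_
      have h : ⌈(d : ℝ) / cK⌉₊ ≤ R := by
        refine le_trans ?_ hR
        exact (le_max_right _ _).trans ((le_max_left _ _).trans (le_max_right _ _))
      exact_mod_cast h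
    rw [div_le_iff₀ hcK] at h1
    linarith
  have hRd2 : d + 2 ≤ R := by
    refine le_trans ?_ hR
    exact (le_max_right _ _).trans (le_max_right _ _)
  have hR0 : (0 : ℝ) < R := by exact_mod_cast (by omega : 0 < R)
  have hrc : (r : ℝ) ≤ cK * R := by
    rcases hcase with h | ⟨_, _, h⟩
    · have h' : (r : ℝ) ≤ d := by exact_mod_cast h
      linarith
    · refine h.trans (mul_le_mul_of_nonneg_right (min_le_left _ _) hR0.le)
  have hr2 : r + 2 ≤ R := by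
    rcases hcase with h | ⟨_, _, h⟩
    · omega
    · have h1 : (r : ℝ) ≤ 1 / 2 * R :=
        h.trans (mul_le_mul_of_nonneg_right (min_le_right _ _) hR0.le)
      have h2 : 2 * (r : ℝ) ≤ R := by linarith
      have h3 : 2 * r ≤ R := by exact_mod_cast h2
      omega
  refine ⟨hr2, ?_⟩
  have hM : ∀ m : ℕ, 1 ≤ m → ((R : ℝ) * m) ^ Fintype.card ι ≤ 2 * M0 J R m := by
    intro m hm
    have h1 := (HM R m (by omega) hm).1
    have h2 : CM / R ≤ 1 / 2 := by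
      rw [div_le_iff₀ hR0]
      linarith
    have h3 : (0 : ℝ) ≤ ((R : ℝ) * m) ^ Fintype.card ι := by positivity
    have h4 : 1 / 2 * ((R : ℝ) * m) ^ Fintype.card ι ≤
        (1 - CM / R) * ((R : ℝ) * m) ^ Fintype.card ι :=
      mul_le_mul_of_nonneg_right (by linarith) h3
    linarith
  have hθκ : ∀ κ₀ : ℕ, κ₀ ≤ u → 16 * ((κ₀ : ℝ) + 1) * θ ≤ 1 := by
    intro κ₀ hκ
    have h1 : (κ₀ : ℝ) ≤ u := by exact_mod_cast hκ
    have h2 : 16 * ((κ₀ : ℝ) + 1) * θ ≤ 16 * ((u : ℝ) + 1) * θ := by gcongr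
    linarith
  have main : ∀ q κ₀ : ℕ, q + 1 ≤ d → κ₀ ≤ u → κ₀ ≤ d →
      ((q = 0 ∧ r ≤ κ₀) ∨ (q = 1 ∧ u ≤ κ₀)) →
      ∃ m₀ : ℕ, ∀ m : ℕ, m₀ ≤ m →
      ∀ (V : Type) [Fintype V] [DecidableEq V] (G : SimpleGraph V) [DecidableRel G.Adj],
        (∀ U ∈ clq G univ u, (cn G U).card ≤ R * m + r) → clq G univ (R + u + 1) = ∅ →
        ((emb (jn J u) G univ).card : ℝ) ≤
          u.factorial * rhoG J u R r m * ((clq G univ u).card : ℝ) := by
    intro q κ₀ hqd hκu hκd hmode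
    refine UpperG_core J u hu d hd1 hd θ hθ hθ1 R r q κ₀ hR8 (by omega) hqd hκu hκd hM ?_ ?_ ?_
    · intro C₁ hC₁
      obtain ⟨CB₀, hCB₀, h⟩ := HA R hRA r (by omega) q
        (fun v => (by omega : 1 + q ≤ d).trans (hd v)) C₁ hC₁
      refine ⟨CB₀, hCB₀, fun CB hCB => ?_⟩
      obtain ⟨m₀, h'⟩ := h CB hCB
      exact ⟨m₀, fun m hm V _ G _ S ρ g => h' m hm θ hθ.le hθA' V G S ρ g⟩
    · exact HB R hRB r (by omega) q κ₀ hqd (hθκ κ₀ hκu)
    · exact HK R r hRK hr hrc q κ₀ hmode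
  by_cases h : r ≤ d ∧ r ≤ u
  · exact main 0 r (by omega) h.2 h.1 (Or.inl ⟨rfl, le_rfl⟩)
  · have hud : u ≤ d ∧ 2 ≤ d := by
      rcases hcase with h1 | ⟨h1, h2, _⟩
      · have h3 : ¬ r ≤ u := fun h4 => h ⟨h1, h4⟩
        omega
      · exact ⟨h1, h2⟩
    exact main 1 u (by omega) le_rfl hud.1 (Or.inr ⟨rfl, le_rfl⟩)

end H57GH
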