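import Pool.Agent.H57.GH.SLocN
import Pool.Agent.H57.GH.SLocA
import Pool.Agent.H57.GH.SPay
import Pool.Agent.H57.GH.SKIn
import Pool.Agent.H57.GH.SKGr
import Pool.Agent.H57.GH.UpperG
import Pool.Agent.H57.GH.SKt
import Pool.Agent.H57.GH.SHub

/-!
Project SH: the upper bound for `K_u ∨ J`, assembly (compare UpperG).
-/

namespace H57GH

open Finset H57LC H57LT

set_option linter.unusedSectionVars false

variable {ι : Type} [Fintype ι] [DecidableEq ι] (J : SimpleGraph ι) [DecidableRel J.Adj]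

/-- the core: fixed `R`, `r` and mode -/
lemma SUp_core [Nonempty ι] (u : ℕ) (hu : 1 ≤ u) (d : ℕ) (hd1 : 1 ≤ d)
    (hd : ∀ v, d ≤ dg J univ v) (θ : ℝ) (hθ : 0 < θ) (hθ1 : θ ≤ 1 / 4) (x₀ β ε₃ ε₀ : ℝ)
    (hx : 0 < x₀) (R r q κ₀ : ℕ) (hR8 : 8 ≤ R) (hxR : 3 ≤ x₀ * R) (hrR : r ≤ R)
    (hqd : q + 1 ≤ d) (hκu : κ₀ ≤ u) (hκd : κ₀ ≤ d)
    (hM : ∀ m : ℕ, 1 ≤ m → ((R : ℝ) * m) ^ Fintype.card ι ≤ 2 * M0 J R m)
    (HA : ∀ C₁ : ℝ, 0 < C₁ → ∃ CB₀ : ℝ, 0 < CB₀ ∧ ∀ CB : ℝ, CB₀ ≤ CB →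
      ∃ m₀ : ℕ, ∀ m : ℕ, m₀ ≤ m →
      ∀ (V : Type) [DecidableEq V] (G : SimpleGraph V) [DecidableRel G.Adj] (S : Finset V)
        (ρ g₁ g₂ : ℝ), S.card ≤ R * m + r → clq G S (R + 1) = ∅ → ¬ TyB G S R m CB →
        M0 J R m ≤ ρ →
        g₁ ≤ u * ∑ x ∈ vh G S R m θ, PiW (Fintype.card ι) q ((R : ℝ) * m + r) (dg G S x) →
        g₂ ≤ ((R : ℝ) * m) ^ (Fintype.card ι - 1) * ∑ x ∈ midS G S R m θ x₀,
          1 / u * max (Psi J ((dg G S x : ℝ) / (R * m)) -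
            Fintype.card ι * fP β u ((dg G S x : ℝ) / (R * m)) + ε₃) 0 →
        ∃ z : Finset V → ℝ, ((emb J G S).card : ℝ) - ρ + g₁ + g₂ ≤ ∑ T ∈ clq G S R, z T ∧
          ∀ T ∈ clq G S R, z T ≤ -(C₁ / m) * (M0 J R m / (m : ℝ) ^ R))
    (HB : ∀ C₁ CB C₆ ζ ε₈ : ℝ, 0 < C₁ → 0 < CB →
      0 < C₆ → 0 < ζ → ζ ≤ 1 → 0 < ε₈ → ε₈ < 1 → ∃ m₀ : ℕ, ∀ m : ℕ, m₀ ≤ m →
      ∀ (V : Type) [DecidableEq V] (G : SimpleGraph V) [DecidableRel G.Adj] (S : Finset V)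
        (ρ Γ : ℝ), S.card ≤ R * m + r → clq G S (R + 1) = ∅ → TyB G S R m CB →
        M0 J R m ≤ ρ → ρ ≤ M0 J R m * (1 + CB / m) → 0 ≤ Γ →
        Γ ≤ C₆ * (m : ℝ) ^ (Fintype.card ι - 2 - q) → (¬ Slack G S R m θ κ₀ → Γ = 0) →
        ∃ z : Finset V → ℝ,
          ((emb J G (S \ vh G S R m θ)).card : ℝ) - ρ + Γ ≤ ∑ T ∈ clq G S R, z T +
            ∑ y ∈ (vh G S R m θ).filter (fun y => d ≤ dg G S y),
              (dg G S y : ℝ) ^ (1 + q) * (m : ℝ) ^ (Fintype.card ι - 2 - q) +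
            ∑ y ∈ midS G S R m θ x₀, PiM J R m u β ε₃ (dg G S y) ∧
          ∀ T ∈ clq G S R, z T ≤ -(C₁ / m) * (M0 J R m / (m : ℝ) ^ R) ∨
            ((∀ t ∈ T, (1 - ε₈) * m ≤ (aa G S T t : ℝ)) ∧
              z T ≤ lzK G J S R m (ktS R (Fintype.card ι) u β ε₀) ρ
                (fun T => ζ * ((m : ℝ)⁻¹) ^ q * nuG G S κ₀ T) T))
    (HK : ∃ C₁ ζ ε : ℝ, 0 < C₁ ∧ 0 < ζ ∧ ζ ≤ 1 ∧ 0 < ε ∧ ε < 1 ∧ ∃ m₀ : ℕ, ∀ m : ℕ, m₀ ≤ m →
      ∀ (α : Type) [DecidableEq α] (β' : Type) (K : Finset α) (a : α → ℕ) (Z : Finset β')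
        (h : β' → Finset α) (z : Finset α → ℝ), K.card = R + u → (∀ t ∈ K, 1 ≤ a t) →
        (∀ T ⊆ K, T.card = R →
          ∑ i ∈ T, a i + (Z.filter fun y => 2 ≤ (h y).card ∧ h y ⊆ T).card ≤ R * m + r) →
        (∀ T ⊆ K, T.card = R → z T ≤ -(C₁ / m) * (M0 J R m / (m : ℝ) ^ R) ∨
          ((∀ t ∈ T, (1 - ε) * m ≤ (a t : ℝ)) ∧
            z T ≤ ((fJ J T a : ℝ) - rhoG J u R r m) * (∏ t ∈ T, ((a t : ℝ))⁻¹) +
              M0 J R m / (m : ℝ) ^ R *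
                ((∑ y ∈ Z.filter (fun y => h y ⊆ T),
                    ktS R (Fintype.card ι) u β ε₀ (h y).card) +
                  ζ * ((m : ℝ)⁻¹) ^ q *
                    (if κ₀ + 1 ≤ (Z.filter fun y => 2 ≤ (h y).card ∧ h y ⊆ T).card then 1
                      else 0)) / m)) →
        ∑ T ∈ powersetCard R K, z T ≤ 0) :
    ∃ m₀ : ℕ, ∀ m : ℕ, m₀ ≤ m →
      ∀ (V : Type) [Fintype V] [DecidableEq V] (G : SimpleGraph V) [DecidableRel G.Adj],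
        (∀ U ∈ clq G univ u, (cn G U).card ≤ R * m + r) → clq G univ (R + u + 1) = ∅ →
        ((emb (jn J u) G univ).card : ℝ) ≤
          u.factorial * rhoG J u R r m * ((clq G univ u).card : ℝ) := by
  have hcs : 2 ≤ Fintype.card ι := by
    have := two_le_card J (q := 0) (fun v => (by omega : 1 + 0 ≤ d).trans (hd v))
    omega
  obtain ⟨C₁, ζ, ε, hC₁, hζ, hζ1, hε, hε1, m₁, hK⟩ := HK
  obtain ⟨CB₀, hCB₀, hA'⟩ := HA C₁ hC₁
  obtain ⟨Cρ, hCρ, hρ⟩ := rhoG_bounds J hcs u R r (by omega) (by omega) hM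
  have hCB : 0 < max CB₀ Cρ := lt_of_lt_of_le hCB₀ (le_max_left _ _)
  obtain ⟨m₂, hA⟩ := hA' (max CB₀ Cρ) (le_max_left _ _)
  obtain ⟨C₆, hC₆, m₃, hT⟩ := transfer u R r d q κ₀ (Fintype.card ι) hu hR8 hrR hκu hκd hd1
    (max CB₀ Cρ) θ hCB hθ hθ1
  obtain ⟨m₄, hB⟩ := HB C₁ (max CB₀ Cρ) C₆ ζ ε hC₁ hCB hC₆ hζ hζ1 hε hε1
  obtain ⟨m₅, hTM⟩ := transferM u R r hu hR8 hrR (max CB₀ Cρ) θ x₀ hCB hθ hx hxR
  refine ⟨max 1 (max (max m₁ m₂) (max (max m₃ m₄) m₅)), fun m hm V _ _ G _ hdeg hfree => ?_⟩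
  have hm0 : 1 ≤ m := (le_max_left _ _).trans hm
  have hmr : max (max m₁ m₂) (max (max m₃ m₄) m₅) ≤ m := (le_max_right _ _).trans hm
  have hm1 : m₁ ≤ m := ((le_max_left _ _).trans (le_max_left _ _)).trans hmr
  have hm2 : m₂ ≤ m := ((le_max_right _ _).trans (le_max_left _ _)).trans hmr
  have hmr' : max (max m₃ m₄) m₅ ≤ m := (le_max_right _ _).trans hmr
  have hm3 : m₃ ≤ m := ((le_max_left _ _).trans (le_max_left _ _)).trans hmr'
  have hm4 : m₄ ≤ m := ((le_max_right _ _).trans (le_max_left _ _)).trans hmr'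
  have hm5 : m₅ ≤ m := (le_max_right _ _).trans hmr'
  have hm0R : (1 : ℝ) ≤ m := by exact_mod_cast hm0
  have hR1R : (1 : ℝ) ≤ R := by exact_mod_cast (by omega : 1 ≤ R)
  have hu0 : (0 : ℝ) < u := by exact_mod_cast hu
  obtain ⟨giv, got, hgg, hnB, hTB⟩ := hT m hm3 V G hdeg hfree
  obtain ⟨giv', got', hgg', hnB', hTB'⟩ := hTM m hm5 V G hdeg hfree
    (fun n => PiM J R m u β ε₃ (n : ℝ)) (fun n => by
      unfold PiM
      exact mul_nonneg (by positivity) (le_max_right _ _))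
  have hMρ : M0 J R m ≤ rhoG J u R r m := M0_le_rhoG J hm0 (by omega) (by omega)
  have hM0 : 0 ≤ M0 J R m := by unfold M0; positivity
  have hρM : rhoG J u R r m ≤ M0 J R m * (1 + max CB₀ Cρ / m) := by
    refine (hρ m hm0).2.trans (mul_le_mul_of_nonneg_left ?_ hM0)
    have : Cρ / m ≤ max CB₀ Cρ / m := by
      gcongr
      exact le_max_right _ _
    linarith only [this]
  have key : ∀ U ∈ clq G univ u, ∃ z : Finset V → ℝ,
      ((emb J G (cn G U)).card : ℝ) - rhoG J u R r m + giv U - got U + giv' U - got' U ≤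
        ∑ T ∈ clq G (cn G U) R, z T ∧
      ∀ T ∈ clq G (cn G U) R, z T ≤ -(C₁ / m) * (M0 J R m / (m : ℝ) ^ R) ∨
        ((∀ t ∈ T, (1 - ε) * m ≤ (aa G (cn G U) T t : ℝ)) ∧
          z T ≤ lzK G J (cn G U) R m (ktS R (Fintype.card ι) u β ε₀) (rhoG J u R r m)
            (fun T => ζ * ((m : ℝ)⁻¹) ^ q * nuG G (cn G U) κ₀ T) T) := by
    intro U hU
    by_cases hTy : TyB G (cn G U) R m (max CB₀ Cρ)
    · obtain ⟨Γ, hΓ0, hΓ1, hΓ2, hΓ3⟩ := hTB U hU hTy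
      obtain ⟨hg1, hg2⟩ := hTB' U hU hTy
      obtain ⟨z, hz1, hz2⟩ := hB m hm4 V G (cn G U) (rhoG J u R r m) Γ (hdeg U hU)
        (cn_free hfree hU) hTy hMρ hρM hΓ0 hΓ1 hΓ2
      refine ⟨z, ?_, hz2⟩
      have h1 := emb_vh_le J (q := q) hd (by omega) G (S := cn G U) (R := R) (m := m) (r := r)
        (θ := θ) hm0 (hdeg U hU)
      have h2 := UpperG_pay ((vh G (cn G U) R m θ).filter (fun y => d ≤ dg G (cn G U) y))
        (fun y => dg G (cn G U) y) (s := Fintype.card ι) (q := q) (by omega)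
        (n := (R : ℝ) * m + r) (m := (m : ℝ)) (by positivity) (by
          have h0 : (0 : ℝ) ≤ r := by positivity
          nlinarith only [hR1R])
      rw [hg1, hg2]
      linarith only [hΓ3, hz1, h1, h2]
    · obtain ⟨h0, h1⟩ := hnB U hU hTy
      obtain ⟨h0', h1'⟩ := hnB' U hU hTy
      obtain ⟨z, hz1, hz2⟩ := hA m hm2 V G (cn G U) (rhoG J u R r m) (giv U) (giv' U)
        (hdeg U hU) (cn_free hfree hU) hTy hMρ h1 (by
          refine h1'.trans (le_of_eq ?_)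
          rw [mul_sum, mul_sum]
          refine sum_congr rfl fun x _ => ?_
          unfold PiM
          ring)
      refine ⟨z, ?_, fun T hT' => Or.inl (hz2 T hT')⟩
      rw [h0, h0']
      linarith only [hz1]
  choose! z hz1 hz2 using key
  have hneg : ∑ K ∈ clq G univ (R + u), ∑ T ∈ powersetCard R K, z (K \ T) T ≤ 0 := by
    refine sum_nonpos fun K hKm => ?_
    have hK' := mem_clq.1 hKm
    refine hK m hm1 V V K (aK G K) univ (fun y => hs G K y) (fun T => z (K \ T) T)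
      hK'.1.2 (fun t ht => one_le_aK hK'.2 ht) ?_ ?_
    · intro T hT' hc
      exact (sum_aK_hge hT').trans (hdeg (K \ T) (UpperG_sdiff hKm hT' hc))
    · intro T hT' hc
      rcases hz2 (K \ T) (UpperG_sdiff hKm hT' hc) T (UpperG_mem hKm hT' hc) with h | ⟨h1, h3⟩
      · exact Or.inl h
      · right
        refine ⟨fun t ht => ?_, ?_⟩
        · have := h1 t ht
          rwa [aa_cn hT' ht] at this
        · rw [lzK_cn J hT' R m _ _ _ (by simp [ktS])] at h3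
          simp only [nuG_cn hT'] at h3
          exact h3
  have hsum : ∑ U ∈ clq G univ u,
      (((emb J G (cn G U)).card : ℝ) - rhoG J u R r m + giv U - got U + giv' U - got' U) ≤ 0 :=
    calc ∑ U ∈ clq G univ u,
        (((emb J G (cn G U)).card : ℝ) - rhoG J u R r m + giv U - got U + giv' U - got' U)
        ≤ ∑ U ∈ clq G univ u, ∑ T ∈ clq G (cn G U) R, z U T := sum_le_sum hz1
      _ = ∑ K ∈ clq G univ (R + u), ∑ T ∈ powersetCard R K, z (K \ T) T := double_count u R z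
      _ ≤ 0 := hneg
  rw [sum_sub_distrib, sum_add_distrib, sum_sub_distrib, sum_add_distrib, sum_sub_distrib,
    sum_const, nsmul_eq_mul, hgg, hgg'] at hsum
  have hjoin : ((emb (jn J u) G univ).card : ℝ) =
      u.factorial * ∑ U ∈ clq G univ u, ((emb J G (cn G U)).card : ℝ) := by
    have h := emb_join J G u
    rw [h]
    push_cast
    rfl
  rw [hjoin, mul_assoc]
  refine mul_le_mul_of_nonneg_left ?_ (by positivity)
  linarith only [hsum]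

theorem upperS [Nonempty ι] (u : ℕ) (hu : 1 ≤ u) (d : ℕ) (hd1 : 1 ≤ d)
    (hd : ∀ v, d ≤ dg J univ v) {β : ℝ} (hβ : 0 < β) (hβ1 : β < 1) (hp : PairC J u β)
    (hhub : HubC J u β) : ∃ R₀ : ℕ, ∀ R r : ℕ, R₀ ≤ R → 1 ≤ r → (r : ℝ) ≤ β * R →
    (r ≤ d ∨ (u ≤ d ∧ 2 ≤ d)) → r + 2 ≤ R ∧ ∃ m₀ : ℕ, ∀ m : ℕ, m₀ ≤ m →
      ∀ (V : Type) [Fintype V] [DecidableEq V] (G : SimpleGraph V) [DecidableRel G.Adj],
        (∀ U ∈ clq G univ u, (cn G U).card ≤ R * m + r) → clq G univ (R + u + 1) = ∅ →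
        ((emb (jn J u) G univ).card : ℝ) ≤
          u.factorial * rhoG J u R r m * ((clq G univ u).card : ℝ) := by
  have hd1' : ∀ v, 1 ≤ dg J univ v := fun v => hd1.trans (hd v)
  have hcs : 2 ≤ Fintype.card ι := by
    have := two_le_card J (q := 0) (fun v => (by omega : 1 + 0 ≤ d).trans (hd v))
    omega
  have hJ : 1 ≤ oe J := by
    have := card_le_oe J hd1'
    omega
  have hu0 : (0 : ℝ) < u := by exact_mod_cast hu
  obtain ⟨x₀, hx, hx1, HB⟩ := localSN J d hd1 hd hu hβ hβ1 hp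
  set s : ℝ := (Fintype.card ι : ℝ) with hs
  have hs0 : 0 ≤ s := Nat.cast_nonneg _
  have huR : (0 : ℝ) < 16 * ((u : ℝ) + 1) := by positivity
  have husR : (0 : ℝ) < 4 * (u : ℝ) * s + 4 := by positivity
  obtain ⟨θ, hθ, hθ1, hθu, hθs⟩ : ∃ θ : ℝ, 0 < θ ∧ θ ≤ 1 / 4 ∧
      16 * ((u : ℝ) + 1) * θ ≤ 1 ∧ (4 * (u : ℝ) * s + 4) * θ ≤ 1 := by
    refine ⟨min (1 / 4) (min (1 / (16 * ((u : ℝ) + 1))) (1 / (4 * (u : ℝ) * s + 4))), ?_,
      min_le_left _ _, ?_, ?_⟩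
    · exact lt_min (by norm_num) (lt_min (by positivity) (by positivity))
    · have h : min (1 / 4) (min (1 / (16 * ((u : ℝ) + 1))) (1 / (4 * (u : ℝ) * s + 4))) ≤
          1 / (16 * ((u : ℝ) + 1)) := (min_le_right _ _).trans (min_le_left _ _)
      refine (mul_le_mul_of_nonneg_left h huR.le).trans (le_of_eq ?_)
      field_simp
    · have h : min (1 / 4) (min (1 / (16 * ((u : ℝ) + 1))) (1 / (4 * (u : ℝ) * s + 4))) ≤
          1 / (4 * (u : ℝ) * s + 4) := (min_le_right _ _).trans (min_le_right _ _)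
      refine (mul_le_mul_of_nonneg_left h husR.le).trans (le_of_eq ?_)
      field_simp
  obtain ⟨ε₃, hε₃, hε₃1, hhub'⟩ := hub_eps J hd1' hu hβ hβ1 hhub (θ := θ) (x₀ := x₀) hθ hx
  obtain ⟨ε₀, hε₀, hε₀1, RB, hRB3, HB'⟩ := HB θ ε₃ hθ hθ1 hε₃ hε₃1
  obtain ⟨RA, hRA2, HA⟩ := localAS J hd1' hcs u x₀ ε₃ hx hx1 hε₃ hε₃1
  obtain ⟨RK, HK⟩ := K_ineqS J hcs hJ u hu
  obtain ⟨CM, hCM, HM⟩ := M0_bounds J
  refine ⟨max (max (max RA RB) (max RK 8)) (max (max ⌈2 * CM⌉₊ ⌈3 / x₀⌉₊)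
    ⌈2 / (1 - β)⌉₊), fun R r hR hr hrβ hcase => ?_⟩
  have hRA : RA ≤ R := by
    refine le_trans ?_ hR
    exact (le_max_left _ _).trans ((le_max_left _ _).trans (le_max_left _ _))
  have hRB : RB ≤ R := by
    refine le_trans ?_ hR
    exact (le_max_right _ _).trans ((le_max_left _ _).trans (le_max_left _ _))
  have hRK : RK ≤ R := by
    refine le_trans ?_ hR
    exact (le_max_left _ _).trans ((le_max_right _ _).trans (le_max_left _ _))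
  have hR8 : 8 ≤ R := by
    refine le_trans ?_ hR
    exact (le_max_right _ _).trans ((le_max_right _ _).trans (le_max_left _ _))
  have hRM : 2 * CM ≤ R := by
    refine (Nat.le_ceil _).trans ?_
    have h : ⌈2 * CM⌉₊ ≤ R := by
      refine le_trans ?_ hR
      exact (le_max_left _ _).trans ((le_max_left _ _).trans (le_max_right _ _))
    exact_mod_cast h
  have hxR : 3 ≤ x₀ * R := by
    have h1 : 3 / x₀ ≤ R := by
      refine (Nat.le_ceil _).trans ?_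
      have h : ⌈3 / x₀⌉₊ ≤ R := by
        refine le_trans ?_ hR
        exact (le_max_right _ _).trans ((le_max_left _ _).trans (le_max_right _ _))
      exact_mod_cast h
    rw [div_le_iff₀ hx] at h1
    linarith only [h1]
  have hRβ : 2 ≤ (1 - β) * R := by
    have h1 : 2 / (1 - β) ≤ R := by
      refine (Nat.le_ceil _).trans ?_
      have h : ⌈2 / (1 - β)⌉₊ ≤ R := by
        refine le_trans ?_ hR
        exact (le_max_right _ _).trans (le_max_right _ _)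
      exact_mod_cast h
    rw [div_le_iff₀ (by linarith only [hβ1])] at h1
    linarith
  have hR0 : (0 : ℝ) < R := by exact_mod_cast (by omega : 0 < R)
  have hr2 : r + 2 ≤ R := by
    have h1 : (r : ℝ) + 2 ≤ R := by nlinarith only [hrβ, hRβ]
    exact_mod_cast h1
  refine ⟨hr2, ?_⟩
  have hM : ∀ m : ℕ, 1 ≤ m → ((R : ℝ) * m) ^ Fintype.card ι ≤ 2 * M0 J R m := by
    intro m hm
    have h1 := (HM R m (by omega) hm).1
    have h2 : CM / R ≤ 1 / 2 := by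
      rw [div_le_iff₀ hR0]
      linarith only [hRM]
    have h3 : (0 : ℝ) ≤ ((R : ℝ) * m) ^ Fintype.card ι := by positivity
    have h4 : 1 / 2 * ((R : ℝ) * m) ^ Fintype.card ι ≤
        (1 - CM / R) * ((R : ℝ) * m) ^ Fintype.card ι :=
      mul_le_mul_of_nonneg_right (by linarith only [h2]) h3
    linarith only [h1, h4]
  have hθκ : ∀ κ₀ : ℕ, κ₀ ≤ u → 16 * ((κ₀ : ℝ) + 1) * θ ≤ 1 := by
    intro κ₀ hκ
    have h1 : (κ₀ : ℝ) ≤ u := by exact_mod_cast hκ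
    have h2 : 16 * ((κ₀ : ℝ) + 1) * θ ≤ 16 * ((u : ℝ) + 1) * θ := by gcongr
    linarith only [hθu, h2]
  have hΦ : ∀ y : ℝ, θ ≤ y → y ≤ 1 - x₀ →
      0 ≤ 1 / u * max (Psi J y - Fintype.card ι * fP β u y + ε₃) 0 ∧
      y ^ rk J + 1 / u * max (Psi J y - Fintype.card ι * fP β u y + ε₃) 0 ≤ 1 - ε₃ := by
    intro y h1 h2
    refine ⟨mul_nonneg (by positivity) (le_max_right _ _), ?_⟩
    have h3 := hhub' y h1 h2
    have h4 : (u : ℝ) * (y ^ rk J + 1 / u * max (Psi J y - Fintype.card ι * fP β u y + ε₃) 0) ≤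
        u * (1 - ε₃) := by
      have h5 : (u : ℝ) * (y ^ rk J + 1 / u *
          max (Psi J y - Fintype.card ι * fP β u y + ε₃) 0) =
          u * y ^ rk J + max (Psi J y - Fintype.card ι * fP β u y + ε₃) 0 := by
        field_simp
      rw [h5]
      exact h3
    exact le_of_mul_le_mul_left h4 hu0
  have hc0 : 0 < ε₀ / R := by positivity
  have hc1 : ε₀ / R ≤ 1 := by
    rw [div_le_one hR0]
    have : (1 : ℝ) ≤ R := by exact_mod_cast (by omega : 1 ≤ R)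
    linarith only [hx, hx1, hε₀1, hrβ, hRβ]
  have main : ∀ q κ₀ : ℕ, q + 1 ≤ d → κ₀ ≤ u → κ₀ ≤ d →
      ((q = 0 ∧ r ≤ κ₀) ∨ (q = 1 ∧ u ≤ κ₀)) →
      ∃ m₀ : ℕ, ∀ m : ℕ, m₀ ≤ m →
      ∀ (V : Type) [Fintype V] [DecidableEq V] (G : SimpleGraph V) [DecidableRel G.Adj],
        (∀ U ∈ clq G univ u, (cn G U).card ≤ R * m + r) → clq G univ (R + u + 1) = ∅ →
        ((emb (jn J u) G univ).card : ℝ) ≤
          u.factorial * rhoG J u R r m * ((clq G univ u).card : ℝ) := by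
    intro q κ₀ hqd hκu hκd hmode
    refine SUp_core J u hu d hd1 hd θ hθ hθ1 x₀ β ε₃ ε₀ hx R r q κ₀ hR8 hxR (by omega) hqd hκu
      hκd hM ?_ ?_ ?_
    · intro C₁ hC₁
      obtain ⟨CB₀, hCB₀, h⟩ := HA R hRA r (by omega) q
        (fun v => (by omega : 1 + q ≤ d).trans (hd v)) C₁ hC₁
      refine ⟨CB₀, hCB₀, fun CB hCB => ?_⟩
      obtain ⟨m₀, h'⟩ := h CB hCB
      exact ⟨m₀, fun m hm V _ G _ S ρ g₁ g₂ h1 h2 h3 h4 h5 h6 => h' m hm θ hθ.le hθs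
        (fun y => 1 / u * max (Psi J y - Fintype.card ι * fP β u y + ε₃) 0) hΦ V G S ρ g₁ g₂
        h1 h2 h3 h4 h5 h6⟩
    · exact HB' R r q κ₀ hRB (by omega) hqd (hθκ κ₀ hκu)
    · obtain ⟨C₁, ζ, ε, h1, h2, h3, h4, h5, m₀, h6⟩ := HK R r hRK hr hr2 q κ₀ hmode (ε₀ / R) hc0 hc1
      exact ⟨C₁, ζ, ε, h1, h2, h3, h4, h5, m₀, fun m hm => h6 m hm
        (ktS R (Fintype.card ι) u β ε₀)
        (fun j hj => ktS_nonneg (by omega) hε₀.le hε₀1 j hj) (by simp [ktS]) (by simp [ktS])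
        (fun j hj2 hj => ktS_le' (by omega) hβ hβ1 hε₀.le hε₀1 j hj2 hj)
        (fun j hj2 hj => ktS_bet (by omega) hβ hβ1 hε₀.le hε₀1 hrβ j hj2 hj)⟩
  by_cases h : r ≤ d ∧ r ≤ u
  · exact main 0 r (by omega) h.2 h.1 (Or.inl ⟨rfl, le_rfl⟩)
  · have hud : u ≤ d ∧ 2 ≤ d := by
      rcases hcase with h1 | h1
      · have h3 : ¬ r ≤ u := fun h4 => h ⟨h1, h4⟩
        omega
      · exact h1
    exact main 1 u (by omega) le_rfl hud.1 (Or.inr ⟨rfl, le_rfl⟩)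

end H57GH
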