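import Pool.Agent.H57.GH.SLocX
import Pool.Agent.H57.GH.SLocA
import Pool.Agent.H57.GH.SPay
import Pool.Agent.H57.GH.SKIn1
import Pool.Agent.H57.GH.SKGr
import Pool.Agent.H57.GH.SKt
import Pool.Agent.H57.GH.SHub
import Pool.Agent.H57.GH.Upper1

/-!
Project SH: the upper bound for `K_1 ∨ J`, assembly (compare Upper1).
-/

namespace H57GH

open Finset H57LC H57LT

set_option linter.unusedSectionVars false

variable {ι : Type} [Fintype ι] [DecidableEq ι] (J : SimpleGraph ι) [DecidableRel J.Adj]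

theorem upperS1 [Nonempty ι] (hd : ∀ v, 1 ≤ dg J univ v) {β : ℝ} (hβ : 0 < β) (hβ1 : β < 1)
    (hp : PairC J 1 β) (hhub : HubC J 1 β) :
    ∃ R₀ : ℕ, ∀ R r : ℕ, R₀ ≤ R → 1 ≤ r → (r : ℝ) ≤ β * R → r + 2 ≤ R ∧
    ∃ m₀ : ℕ, ∀ m : ℕ, m₀ ≤ m →
      ∀ (V : Type) [Fintype V] [DecidableEq V] (G : SimpleGraph V) [DecidableRel G.Adj],
        (∀ U ∈ clq G univ 1, (cn G U).card ≤ R * m + r) → clq G univ (R + 1 + 1) = ∅ →
        ((emb (jn J 1) G univ).card : ℝ) ≤
          (Nat.factorial 1) * rhoG J 1 R r m * ((clq G univ 1).card : ℝ) := by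
  have hcs : 2 ≤ Fintype.card ι := by
    have := two_le_card J (q := 0) (fun v => by
      have := hd v
      omega)
    omega
  have hJ : 1 ≤ oe J := by
    have := card_le_oe J hd
    omega
  obtain ⟨x₀, hx0, hx1, HX⟩ := localSX J hd hβ hβ1 hp
  have hsR : (2 : ℝ) ≤ (Fintype.card ι : ℝ) := by exact_mod_cast hcs
  obtain ⟨θ, hθ, hθ1, hθs⟩ : ∃ θ : ℝ, 0 < θ ∧ θ ≤ 1 / 64 ∧
      (4 * ((1 : ℕ) : ℝ) * Fintype.card ι + 4) * θ ≤ 1 := by
    refine ⟨min (1 / 64) (1 / (4 * Fintype.card ι + 4)), ?_, min_le_left _ _, ?_⟩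
    · exact lt_min (by norm_num) (by positivity)
    · have h1 : (0 : ℝ) < 4 * (Fintype.card ι : ℝ) + 4 := by positivity
      have h2 := min_le_right (1 / 64 : ℝ) (1 / (4 * (Fintype.card ι : ℝ) + 4))
      rw [le_div_iff₀ h1] at h2
      have h3 : (4 * ((1 : ℕ) : ℝ) * Fintype.card ι + 4) = 4 * (Fintype.card ι : ℝ) + 4 := by
        push_cast
        ring
      rw [h3, mul_comm]
      exact h2
  have hθ4 : θ ≤ 1 / 4 := hθ1.trans (by norm_num)
  obtain ⟨ε₃, hε3, hε31, Hε⟩ := hub_eps J hd (le_refl 1) hβ hβ1 hhub hθ hx0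
  obtain ⟨ε₀, hε0, hε01, RX, hRX3, HB⟩ := HX θ ε₃ hθ hθ1 hε3 hε31
  obtain ⟨RA, hRA2, HA⟩ := localAS J hd hcs 1 x₀ ε₃ hx0 hx1 hε3 hε31
  obtain ⟨RK, HK⟩ := K_ineqS1 J hcs hJ
  obtain ⟨CM, hCM, HM⟩ := M0_bounds J
  refine ⟨max (max (max RA RX) (max RK 8))
    (max ⌈2 * CM⌉₊ (max ⌈3 / x₀⌉₊ ⌈2 / (1 - β)⌉₊)), fun R r hR hr hcase => ?_⟩
  have hRA : RA ≤ R := by
    refine le_trans ?_ hR
    exact (le_max_left _ _).trans ((le_max_left _ _).trans (le_max_left _ _))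
  have hRX : RX ≤ R := by
    refine le_trans ?_ hR
    exact (le_max_right _ _).trans ((le_max_left _ _).trans (le_max_left _ _))
  have hRK : RK ≤ R := by
    refine le_trans ?_ hR
    exact (le_max_left _ _).trans ((le_max_right _ _).trans (le_max_left _ _))
  have hR8 : 8 ≤ R := by
    refine le_trans ?_ hR
    exact (le_max_right _ _).trans ((le_max_right _ _).trans (le_max_left _ _))
  have hRM : 2 * CM ≤ R := by
    refine (Nat.le_ceil _).trans ?_
    have h : ⌈2 * CM⌉₊ ≤ R := by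
      refine le_trans ?_ hR
      exact (le_max_left _ _).trans (le_max_right _ _)
    exact_mod_cast h
  have hR0 : (0 : ℝ) < R := by exact_mod_cast (by omega : 0 < R)
  have hxR : 3 ≤ x₀ * R := by
    have h : ⌈3 / x₀⌉₊ ≤ R := by
      refine le_trans ?_ hR
      exact (le_max_left _ _).trans ((le_max_right _ _).trans (le_max_right _ _))
    have h2 : 3 / x₀ ≤ (R : ℝ) := (Nat.le_ceil _).trans (by exact_mod_cast h)
    rw [div_le_iff₀ hx0] at h2
    linarith only [h2]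
  have hr2 : r + 2 ≤ R := by
    have h : ⌈2 / (1 - β)⌉₊ ≤ R := by
      refine le_trans ?_ hR
      exact (le_max_right _ _).trans ((le_max_right _ _).trans (le_max_right _ _))
    have h2 : 2 / (1 - β) ≤ (R : ℝ) := (Nat.le_ceil _).trans (by exact_mod_cast h)
    rw [div_le_iff₀ (by linarith only [hβ1])] at h2
    have h3 : (r : ℝ) + 2 ≤ R := by linarith only [hcase, h2]
    exact_mod_cast h3
  refine ⟨hr2, ?_⟩
  have hrR : r ≤ R := by omega
  have hR1R : (1 : ℝ) ≤ R := by exact_mod_cast (by omega : 1 ≤ R)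
  have hM : ∀ m : ℕ, 1 ≤ m → ((R : ℝ) * m) ^ Fintype.card ι ≤ 2 * M0 J R m := by
    intro m hm
    have h1 := (HM R m (by omega) hm).1
    have h2 : CM / R ≤ 1 / 2 := by
      rw [div_le_iff₀ hR0]
      linarith only [hRM]
    have h3 : (0 : ℝ) ≤ ((R : ℝ) * m) ^ Fintype.card ι := by positivity
    have h4 : 1 / 2 * ((R : ℝ) * m) ^ Fintype.card ι ≤
        (1 - CM / R) * ((R : ℝ) * m) ^ Fintype.card ι :=
      mul_le_mul_of_nonneg_right (by linarith only [h2]) h3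
    linarith only [h1, h4]
  have hc0 : 0 < ε₀ / R := by positivity
  have hc1 : ε₀ / R ≤ 1 := by
    rw [div_le_one hR0]
    linarith only [hε01, hR1R]
  obtain ⟨C₁, ε, hC₁, hε, hε1, m₁, hK⟩ := HK R r hRK hr hr2 (ε₀ / R) hc0 hc1
  obtain ⟨CB₀, hCB₀, hA'⟩ := HA R hRA r hrR 0 (fun v => by
    have := hd v
    omega) C₁ hC₁
  obtain ⟨Cρ, hCρ, hρ⟩ := rhoG_bounds J hcs 1 R r (by omega) (by omega) hM
  have hCB : 0 < max CB₀ Cρ := lt_of_lt_of_le hCB₀ (le_max_left _ _)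
  obtain ⟨m₂, hA⟩ := hA' (max CB₀ Cρ) (le_max_left _ _)
  obtain ⟨m₃, hT⟩ := transfer1 R r (Fintype.card ι) hR8 hrR (max CB₀ Cρ) θ hCB hθ hθ4
  obtain ⟨m₄, hB⟩ := HB R r hRX hrR C₁ (max CB₀ Cρ) ε hC₁ hCB hε hε1
  obtain ⟨m₅, hTM⟩ := transferM 1 R r (le_refl 1) hR8 hrR (max CB₀ Cρ) θ x₀ hCB hθ hx0 hxR
  refine ⟨max 1 (max (max m₁ m₂) (max (max m₃ m₅) m₄)), fun m hm V _ _ G _ hdeg hfree => ?_⟩
  have hm0 : 1 ≤ m := (le_max_left _ _).trans hm
  have hmr : max (max m₁ m₂) (max (max m₃ m₅) m₄) ≤ m := (le_max_right _ _).trans hm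
  have hm1 : m₁ ≤ m := ((le_max_left _ _).trans (le_max_left _ _)).trans hmr
  have hm2 : m₂ ≤ m := ((le_max_right _ _).trans (le_max_left _ _)).trans hmr
  have hm3 : m₃ ≤ m :=
    (((le_max_left _ _).trans (le_max_left _ _)).trans (le_max_right _ _)).trans hmr
  have hm5 : m₅ ≤ m :=
    (((le_max_right _ _).trans (le_max_left _ _)).trans (le_max_right _ _)).trans hmr
  have hm4 : m₄ ≤ m := ((le_max_right _ _).trans (le_max_right _ _)).trans hmr
  have hm0R : (1 : ℝ) ≤ m := by exact_mod_cast hm0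
  obtain ⟨giv, got, hgg, hnB, hTB⟩ := hT m hm3 V G hdeg
  obtain ⟨giw, gow, hgw, hnBw, hTBw⟩ := hTM m hm5 V G hdeg hfree
    (fun n => PiM J R m 1 β ε₃ n) (fun n => by
      show 0 ≤ PiM J R m 1 β ε₃ n
      unfold PiM
      exact mul_nonneg (by positivity) (le_max_right _ _))
  have hMρ : M0 J R m ≤ rhoG J 1 R r m := M0_le_rhoG J hm0 (by omega) (by omega)
  have hM0 : 0 ≤ M0 J R m := by unfold M0; positivity
  have hρM : rhoG J 1 R r m ≤ M0 J R m * (1 + max CB₀ Cρ / m) := by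
    refine (hρ m hm0).2.trans (mul_le_mul_of_nonneg_left ?_ hM0)
    have : Cρ / m ≤ max CB₀ Cρ / m := by
      gcongr
      exact le_max_right _ _
    linarith only [this]
  have hΦ : ∀ y : ℝ, θ ≤ y → y ≤ 1 - x₀ →
      0 ≤ max (Psi J y - Fintype.card ι * fP β 1 y + ε₃) 0 ∧
        y ^ rk J + max (Psi J y - Fintype.card ι * fP β 1 y + ε₃) 0 ≤ 1 - ε₃ := by
    intro y hy1 hy2
    refine ⟨le_max_right _ _, ?_⟩
    have h := Hε y hy1 hy2
    simp only [Nat.cast_one, one_mul] at h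
    exact h
  have key : ∀ U ∈ clq G univ 1, ∃ z : Finset V → ℝ,
      ((emb J G (cn G U)).card : ℝ) - rhoG J 1 R r m + (giv U + giw U) - (got U + gow U) ≤
        ∑ T ∈ clq G (cn G U) R, z T ∧
      ∀ T ∈ clq G (cn G U) R, z T ≤ -(C₁ / m) * (M0 J R m / (m : ℝ) ^ R) ∨
        ((∀ t ∈ T, (1 - ε) * m ≤ (aa G (cn G U) T t : ℝ)) ∧
          z T ≤ lzK G J (cn G U) R m (ktS R (Fintype.card ι) 1 β ε₀) (rhoG J 1 R r m)
            (fun T => xi R (Fintype.card ι) (hge G (cn G U) T) / m) T) := by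
    intro U hU
    by_cases hTy : TyB G (cn G U) R m (max CB₀ Cρ)
    · obtain ⟨Γ, hΓ0, hΓ1, hΓ2, hΓ3⟩ := hTB U hU hTy
      obtain ⟨h0w, h1w⟩ := hTBw U hU hTy
      obtain ⟨z, hz1, hz2⟩ := hB m hm4 V G (cn G U) (rhoG J 1 R r m) Γ (hdeg U hU)
        (cn_free hfree hU) hTy hMρ hρM hΓ0 hΓ1 hΓ2
      refine ⟨z, ?_, hz2⟩
      have h1 := emb_vh_le J (d := 1) (q := 0) hd (by omega) G (S := cn G U) (R := R) (m := m)
        (r := r) (θ := θ) hm0 (hdeg U hU)
      have h2 := Upper1_pay ((vh G (cn G U) R m θ).filter (fun y => 1 ≤ dg G (cn G U) y))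
        (fun y => dg G (cn G U) y) (s := Fintype.card ι) (by omega)
        (n := (R : ℝ) * m + r) (m := (m : ℝ)) (by positivity) (by
          have h0 : (0 : ℝ) ≤ r := by positivity
          nlinarith only [hR1R])
      rw [h0w, h1w]
      linarith only [hΓ3, hz1, h1, h2]
    · obtain ⟨h0, h1⟩ := hnB U hU hTy
      obtain ⟨h0w, h1w⟩ := hnBw U hU hTy
      obtain ⟨z, hz1, hz2⟩ := hA m hm2 θ hθ.le hθs
        (fun y => max (Psi J y - Fintype.card ι * fP β 1 y + ε₃) 0) hΦ V G (cn G U)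
        (rhoG J 1 R r m) (giv U) (giw U)
        (hdeg U hU) (cn_free hfree hU) hTy hMρ (by
          rw [Nat.cast_one, one_mul]
          exact h1) (by
          refine h1w.trans (le_of_eq ?_)
          rw [Nat.cast_one, div_one, one_mul, mul_sum]
          rfl)
      refine ⟨z, ?_, fun T hT' => Or.inl (hz2 T hT')⟩
      rw [h0, h0w]
      linarith only [hz1]
  choose! z hz1 hz2 using key
  have hneg : ∑ K ∈ clq G univ (R + 1), ∑ T ∈ powersetCard R K, z (K \ T) T ≤ 0 := by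
    refine sum_nonpos fun K hKm => ?_
    have hK' := mem_clq.1 hKm
    refine hK m hm1 (ktS R (Fintype.card ι) 1 β ε₀)
      (fun j hj => ktS_nonneg (by omega) hε0.le hε01 j hj) ?_ ?_
      (fun j hj2 hj => ktS_le' (by omega) hβ hβ1 hε0.le hε01 j hj2 hj)
      (fun j hj2 hj => ktS_bet (by omega) hβ hβ1 hε0.le hε01 hcase j hj2 hj)
      V V K (aK G K) univ (fun y => hs G K y) (fun T => z (K \ T) T)
      hK'.1.2 (fun t ht => one_le_aK hK'.2 ht) ?_ ?_
    · unfold ktS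
      simp
    · unfold ktS
      simp
    · intro T hT' hc
      exact (sum_aK_hge hT').trans (hdeg (K \ T) (Upper1_sdiff hKm hT' hc))
    · intro T hT' hc
      rcases hz2 (K \ T) (Upper1_sdiff hKm hT' hc) T (Upper1_mem hKm hT' hc) with h | ⟨h1, h3⟩
      · exact Or.inl h
      · right
        refine ⟨fun t ht => ?_, ?_⟩
        · have := h1 t ht
          rwa [aa_cn hT' ht] at this
        · rw [lzK_cn J hT' _ _ _ _ _ (by unfold ktS; simp), hge_cn hT'] at h3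
          exact h3
  have hsum : ∑ U ∈ clq G univ 1,
      (((emb J G (cn G U)).card : ℝ) - rhoG J 1 R r m + (giv U + giw U) -
        (got U + gow U)) ≤ 0 :=
    calc ∑ U ∈ clq G univ 1,
        (((emb J G (cn G U)).card : ℝ) - rhoG J 1 R r m + (giv U + giw U) - (got U + gow U))
        ≤ ∑ U ∈ clq G univ 1, ∑ T ∈ clq G (cn G U) R, z U T := sum_le_sum hz1
      _ = ∑ K ∈ clq G univ (R + 1), ∑ T ∈ powersetCard R K, z (K \ T) T := double_count 1 R z
      _ ≤ 0 := hneg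
  rw [sum_sub_distrib, sum_add_distrib, sum_sub_distrib, sum_const, nsmul_eq_mul,
    sum_add_distrib, sum_add_distrib, hgg, hgw] at hsum
  have hjoin : ((emb (jn J 1) G univ).card : ℝ) =
      (Nat.factorial 1) * ∑ U ∈ clq G univ 1, ((emb J G (cn G U)).card : ℝ) := by
    have h := emb_join J G 1
    rw [h]
    push_cast
    rfl
  rw [hjoin, mul_assoc]
  refine mul_le_mul_of_nonneg_left ?_ (by positivity)
  linarith only [hsum]

end H57GH
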