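import Pool.Agent.H57.GH.MinDeg
import Pool.Agent.H57.GH.Thru

/-!
Edge stability for copies of `J` in sets without `K_{R+1}`, large `R`.
-/

namespace H57GH

open Finset H57LC H57LT

set_option linter.unusedSectionVars false

variable {ι : Type*} [Fintype ι] [DecidableEq ι] (J : SimpleGraph ι) [DecidableRel J.Adj]

lemma StabE_pow (x : ℝ) (hx : 1 ≤ x) (k : ℕ) :
    x ^ (k + 1) - k * x ^ k ≤ x * (x - 1) ^ k := by
  induction k with
  | zero => simp
  | succ k ih =>
    have h0 : (0 : ℝ) ≤ x - 1 := by linarith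
    have h1 := mul_le_mul_of_nonneg_left ih h0
    have h2 : 0 ≤ x ^ k := pow_nonneg (by linarith) k
    have h3 : 0 ≤ (k : ℝ) * x ^ k := mul_nonneg (Nat.cast_nonneg k) h2
    push_cast
    calc x ^ (k + 1 + 1) - ((k : ℝ) + 1) * x ^ (k + 1)
        ≤ (x - 1) * (x ^ (k + 1) - k * x ^ k) := by
          have : (x - 1) * (x ^ (k + 1) - k * x ^ k) -
              (x ^ (k + 1 + 1) - ((k : ℝ) + 1) * x ^ (k + 1)) = k * x ^ k := by ring
          linarith
      _ ≤ (x - 1) * (x * (x - 1) ^ k) := h1
      _ = x * (x - 1) ^ (k + 1) := by ring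

lemma StabE_turan {V : Type*} [DecidableEq V] {G : SimpleGraph V} [DecidableRel G.Adj]
    {S : Finset V} {R : ℕ} (hR : 1 ≤ R) (hfree : clq G S (R + 1) = ∅) :
    ((clq G S 2).card : ℝ) ≤ e2 univ (bal R S.card) := by
  obtain ⟨B, -, hdisj, hun, -, hgr⟩ := greedy R hR S hfree
  have h1 := e2_eq (G := G) hdisj hun
  have h2 : ((2 * ∑ i, ∑ x ∈ B i, dg G (B i) x : ℕ) : ℝ) ≤
      ((∑ i, ∑ j ∈ univ.erase i, ∑ x ∈ B i, (hs G (B j) x).card : ℕ) : ℝ) := by
    exact_mod_cast hgr
  have h3 : (0 : ℝ) ≤ ((∑ i, ∑ x ∈ B i, dg G (B i) x : ℕ) : ℝ) := Nat.cast_nonneg _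
  have h4 := e2_bal_max hR (T := (univ : Finset (Fin R))) (by simp) (fun i => (B i).card)
  have h5 : ∑ j ∈ (univ : Finset (Fin R)), (B j).card = S.card := by
    rw [← hun]
    unfold un
    rw [card_biUnion]
    intro i _ j _ hij
    exact hdisj i j hij
  rw [h5] at h4
  push_cast at h1 h2 h3 ⊢
  linarith

theorem stabE [Nonempty ι] (hd : ∀ v, 1 ≤ dg J univ v) : ∃ c : ℝ, 0 < c ∧ ∃ R₀ : ℕ, 1 ≤ R₀ ∧
    ∀ R : ℕ, R₀ ≤ R → ∃ C : ℝ, 0 < C ∧
    ∀ (V : Type) [DecidableEq V] (G : SimpleGraph V) [DecidableRel G.Adj] (S : Finset V),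
      clq G S (R + 1) = ∅ →
      ((emb J G S).card : ℝ) ≤ FT J R S.card -
        c * (S.card : ℝ) ^ (Fintype.card ι - 2) *
          (e2 univ (bal R S.card) - ((clq G S 2).card : ℝ)) + C := by
  have hd' : ∀ v, 1 + 0 ≤ dg J univ v := fun v => hd v
  have hcs : 2 ≤ Fintype.card ι := two_le_card J hd'
  have hJ : 1 ≤ oe J := le_trans (by omega) (card_le_oe J hd)
  obtain ⟨θ, hθ0, hθ1, c₁, hc₁, n₁, hmd⟩ := minDeg_case J hcs hJ
  obtain ⟨CF, hCF, hFT⟩ := FT_succ J hcs
  obtain ⟨k, hk⟩ : ∃ k, Fintype.card ι = k + 2 := ⟨Fintype.card ι - 2, by omega⟩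
  have hk2 : Fintype.card ι - 2 = k := by omega
  have hk1 : Fintype.card ι - 1 = k + 1 := by omega
  set s : ℝ := (Fintype.card ι : ℝ) with hs
  have hs2 : (2 : ℝ) ≤ s := by rw [hs]; exact_mod_cast hcs
  have hsk : s = k + 2 := by rw [hs, hk]; push_cast; ring
  refine ⟨min c₁ (s * θ / (4 * (2 + s))), lt_min hc₁ (by positivity), ⌈4 * CF / (s * θ)⌉₊ + 1,
    by omega, fun R hR => ?_⟩
  set c : ℝ := min c₁ (s * θ / (4 * (2 + s))) with hc
  have hc0 : 0 < c := lt_min hc₁ (by positivity)
  have hcc1 : c ≤ c₁ := min_le_left _ _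
  have hcc2 : c * (2 + s) ≤ s * θ / 4 := by
    have h1 : c ≤ s * θ / (4 * (2 + s)) := min_le_right _ _
    have h2 : (0 : ℝ) < 2 + s := by linarith
    calc c * (2 + s) ≤ s * θ / (4 * (2 + s)) * (2 + s) := mul_le_mul_of_nonneg_right h1 h2.le
      _ = s * θ / 4 := by field_simp
  have hR1 : 1 ≤ R := by omega
  have hRpos : (0 : ℝ) < R := by exact_mod_cast hR1
  have hRC : CF / R ≤ s * θ / 4 := by
    have h1 : 4 * CF / (s * θ) ≤ R := by
      refine (Nat.le_ceil _).trans ?_
      exact_mod_cast (by omega : ⌈4 * CF / (s * θ)⌉₊ ≤ R)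
    have h2 : 0 < s * θ := by positivity
    rw [div_le_iff₀ h2] at h1
    rw [div_le_iff₀ hRpos]
    linarith only [h1]
  set n₀ : ℕ := max n₁ (max (R + 2) (⌈4 * s / θ⌉₊ + 1)) with hn₀
  have hn01 : n₁ ≤ n₀ := le_max_left _ _
  have hn02 : R + 2 ≤ n₀ := (le_max_left _ _).trans (le_max_right _ _)
  have hn03 : ⌈4 * s / θ⌉₊ + 1 ≤ n₀ := (le_max_right _ _).trans (le_max_right _ _)
  have he2 : ∀ n : ℕ, e2 univ (bal R n) ≤ (n : ℝ) ^ 2 := by
    intro n
    refine (e2_bal_le hR1 n).trans ?_
    have h1 : (0 : ℝ) ≤ 1 / (R : ℝ) := by positivity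
    have h2 : (0 : ℝ) ≤ (n : ℝ) ^ 2 := by positivity
    linarith only [mul_nonneg h1 h2, h2]
  refine ⟨(n₀ : ℝ) ^ (k + 2) + c * (n₀ : ℝ) ^ (k + 2) + 1, by positivity, ?_⟩
  intro V _ G _
  set C : ℝ := (n₀ : ℝ) ^ (k + 2) + c * (n₀ : ℝ) ^ (k + 2) + 1 with hC
  have hC0 : 0 < C := by positivity
  have hFT0 : ∀ n, 0 ≤ FT J R n := fun n => by unfold FT; positivity
  have key : ∀ n : ℕ, ∀ S : Finset V, S.card = n → clq G S (R + 1) = ∅ →
      ((emb J G S).card : ℝ) ≤ FT J R S.card -
        c * (S.card : ℝ) ^ (Fintype.card ι - 2) *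
          (e2 univ (bal R S.card) - ((clq G S 2).card : ℝ)) + C := by
    intro n
    induction n using Nat.strong_induction_on with
    | _ n ih =>
    intro S hSn hfree
    have htur := StabE_turan hR1 hfree
    rw [hk2]
    rw [hSn] at htur ⊢
    by_cases hn : n < n₀
    · have h1 : ((emb J G S).card : ℝ) ≤ (n₀ : ℝ) ^ (k + 2) := by
        have h2 := emb_le_pow (G := G) J S
        rw [hSn, hk] at h2
        have h3 : (n : ℕ) ^ (k + 2) ≤ n₀ ^ (k + 2) := Nat.pow_le_pow_left hn.le _
        exact_mod_cast h2.trans h3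
      have h4 : c * (n : ℝ) ^ k * (e2 univ (bal R n) - ((clq G S 2).card : ℝ)) ≤
          c * (n₀ : ℝ) ^ (k + 2) := by
        have h5 : (n : ℝ) ≤ n₀ := by exact_mod_cast hn.le
        have h6 : (n : ℝ) ^ k ≤ (n₀ : ℝ) ^ k := pow_le_pow_left₀ (Nat.cast_nonneg n) h5 k
        have h7 : e2 univ (bal R n) - ((clq G S 2).card : ℝ) ≤ (n₀ : ℝ) ^ 2 := by
          have h8 := he2 n
          have h9 : (0 : ℝ) ≤ ((clq G S 2).card : ℝ) := Nat.cast_nonneg _
          have h10 : (n : ℝ) ^ 2 ≤ (n₀ : ℝ) ^ 2 := pow_le_pow_left₀ (Nat.cast_nonneg n) h5 2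
          linarith
        have h11 : 0 ≤ e2 univ (bal R n) - ((clq G S 2).card : ℝ) := by linarith
        calc c * (n : ℝ) ^ k * (e2 univ (bal R n) - ((clq G S 2).card : ℝ))
            ≤ c * (n₀ : ℝ) ^ k * (n₀ : ℝ) ^ 2 := by
              refine mul_le_mul (mul_le_mul_of_nonneg_left h6 hc0.le) h7 h11 (by positivity)
          _ = c * (n₀ : ℝ) ^ (k + 2) := by ring
      have := hFT0 n
      rw [hC]
      linarith
    · push Not at hn
      have hn1 : R + 2 ≤ n := hn02.trans hn
      have hnpos : 1 ≤ n := by omega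
      by_cases hdeg : ∀ x ∈ S, (1 - θ) * S.card ≤ (dg G S x : ℝ)
      · have h1 := hmd R hR1 V G S hfree (by omega) hdeg
        rw [hk2, hSn] at h1
        have h2 : 0 ≤ e2 univ (bal R n) - ((clq G S 2).card : ℝ) := by linarith
        have h3 : c * (n : ℝ) ^ k * (e2 univ (bal R n) - ((clq G S 2).card : ℝ)) ≤
            c₁ * (n : ℝ) ^ k * (e2 univ (bal R n) - ((clq G S 2).card : ℝ)) :=
          mul_le_mul_of_nonneg_right (mul_le_mul_of_nonneg_right hcc1 (by positivity)) h2
        linarith
      · push Not at hdeg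
        obtain ⟨x, hx, hdx⟩ := hdeg
        rw [hSn] at hdx
        -- remove `x`
        have hS' : (S \ {x}).card = n - 1 := by
          rw [card_sdiff_of_subset (by simpa using hx), hSn, card_singleton]
        have hsub : S \ {x} ⊆ S := sdiff_subset
        have hclq : ∀ k, clq G (S \ {x}) k ⊆ clq G S k := by
          intro k T hT
          rw [mem_clq] at hT ⊢
          exact ⟨⟨hT.1.1.trans hsub, hT.1.2⟩, hT.2⟩
        have hfree' : clq G (S \ {x}) (R + 1) = ∅ := by
          rw [← subset_empty, ← hfree]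
          exact hclq _
        have hih := ih (n - 1) (by omega) (S \ {x}) hS' hfree'
        have htur' := StabE_turan hR1 hfree'
        rw [hk2, hS'] at hih
        rw [hS'] at htur'
        have hE : ((clq G (S \ {x}) 2).card : ℝ) ≤ ((clq G S 2).card : ℝ) := by
          exact_mod_cast card_le_card (hclq 2)
        have hemb := emb_card_le (G := G) J S {x}
        have hint : S ∩ {x} = {x} := by
          rw [inter_comm]
          exact singleton_inter_of_mem hx
        rw [hint, sum_singleton] at hemb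
        have hthru := card_thru (G := G) J hd' S x
        have hemb2 : ((emb J G S).card : ℝ) ≤ ((emb J G (S \ {x})).card : ℝ) +
            s * (dg G S x : ℝ) * (n : ℝ) ^ k := by
          have h1 := hemb.trans (Nat.add_le_add_left hthru _)
          have h2 : Fintype.card ι - 2 - 0 = k := by omega
          rw [h2, hSn] at h1
          have h3 : (((emb J G S).card : ℕ) : ℝ) ≤ (((emb J G (S \ {x})).card +
            Fintype.card ι * dg G S x ^ (1 + 0) * n ^ k : ℕ) : ℝ) := by exact_mod_cast h1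
          push_cast at h3
          simpa [hs] using h3
        obtain ⟨n', hn'⟩ : ∃ n', n = n' + 1 := ⟨n - 1, by omega⟩
        have hn'1 : n - 1 = n' := by omega
        rw [hn'1] at hih htur'
        have hRn' : R ≤ n' := by omega
        have hft := (hFT R n' hR1 hRn').1
        rw [hk1, ← hn'] at hft
        set X : ℝ := (n : ℝ) with hX
        have hX' : (n' : ℝ) = X - 1 := by rw [hX, hn']; push_cast; ring
        rw [hX'] at hih hft
        have hX1 : 1 ≤ X := by rw [hX]; exact_mod_cast hnpos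
        have hXR : (R : ℝ) ≤ X := by rw [hX]; exact_mod_cast (by omega : R ≤ n)
        have hXθ : 4 * s / θ ≤ X := by
          refine (Nat.le_ceil _).trans ?_
          rw [hX]
          exact_mod_cast (by omega : ⌈4 * s / θ⌉₊ ≤ n)
        have hsX : s ≤ θ / 4 * X := by
          rw [div_le_iff₀ hθ0] at hXθ
          linarith
        have hXk : 0 < X ^ k := by positivity
        have hX1k : 0 ≤ (X - 1) ^ k := pow_nonneg (by linarith) k
        have hp1 := StabE_pow X hX1 (k + 1)
        have hp0 := StabE_pow X hX1 k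
        push_cast at hp1
        -- growth of FT
        have hg1 : (1 - θ / 4) * X ^ (k + 1) ≤ (X - 1) ^ (k + 1) := by
          have h1 : ((k : ℝ) + 1) * X ^ (k + 1) ≤ θ / 4 * X * X ^ (k + 1) := by
            refine mul_le_mul_of_nonneg_right ?_ (by positivity)
            linarith only [hsX, hsk]
          have h2 : X * ((1 - θ / 4) * X ^ (k + 1)) ≤ X * (X - 1) ^ (k + 1) := by
            have h3 : X * ((1 - θ / 4) * X ^ (k + 1)) =
                X ^ (k + 1 + 1) - θ / 4 * X * X ^ (k + 1) := by ring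
            linarith only [h1, h3, hp1]
          exact le_of_mul_le_mul_left h2 (by linarith only [hX1])
        have hg2 : s * (1 - θ / 2) * X ^ (k + 1) ≤ FT J R n - FT J R n' := by
          have h1 : s * (1 - θ / 4) ≤ s - CF / R := by
            have : s * (1 - θ / 4) = s - s * θ / 4 := by ring
            linarith only [this, hRC]
          have h2 : 0 ≤ s * (1 - θ / 4) := by
            have : 0 ≤ 1 - θ / 4 := by linarith
            positivity
          have h3 : s * (1 - θ / 4) * ((1 - θ / 4) * X ^ (k + 1)) ≤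
              (s - CF / R) * (X - 1) ^ (k + 1) :=
            mul_le_mul h1 hg1 (mul_nonneg (by linarith only [hθ1]) (by positivity)) (h2.trans h1)
          have h4 : s * (1 - θ / 2) * X ^ (k + 1) ≤
              s * (1 - θ / 4) * ((1 - θ / 4) * X ^ (k + 1)) := by
            have h5 : s * (1 - θ / 4) * ((1 - θ / 4) * X ^ (k + 1)) -
                s * (1 - θ / 2) * X ^ (k + 1) = s * (θ / 4) ^ 2 * X ^ (k + 1) := by ring
            have h6 : 0 ≤ s * (θ / 4) ^ 2 * X ^ (k + 1) := by positivity
            linarith only [h5, h6]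
          linarith only [h3, h4, hft]
        -- the deficit term
        set d : ℝ := e2 univ (bal R n) - ((clq G S 2).card : ℝ) with hdd
        set d' : ℝ := e2 univ (bal R n') - ((clq G (S \ {x}) 2).card : ℝ) with hdd'
        have hd0 : 0 ≤ d' := by
          rw [hdd']
          linarith
        have hdn : d' ≤ X ^ 2 / 2 := by
          have h1 := e2_bal_le hR1 n'
          have h2 : (0 : ℝ) ≤ 1 / (R : ℝ) := by positivity
          have h3 : (0 : ℝ) ≤ ((clq G (S \ {x}) 2).card : ℝ) := Nat.cast_nonneg _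
          rw [hX'] at h1
          have h4 : (X - 1) ^ 2 ≤ X ^ 2 := pow_le_pow_left₀ (by linarith only [hX1]) (by linarith only [hX1]) 2
          have h5 : 0 ≤ 1 / (R : ℝ) * (X - 1) ^ 2 := by positivity
          rw [hdd']
          linarith only [h1, h3, h4, h5]
        have hdd2 : d ≤ d' + 2 * X := by
          have h1 := e2_bal_le hR1 n
          have h2 := e2_bal_ge hR1 n'
          rw [hX'] at h2
          have h3 : (0 : ℝ) ≤ 1 / (R : ℝ) := by positivity
          have h4 : (1 - 1 / (R : ℝ)) * X ^ 2 / 2 - (1 - 1 / (R : ℝ)) * (X - 1) ^ 2 / 2 ≤ X := by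
            have h5 : (1 - 1 / (R : ℝ)) * X ^ 2 / 2 - (1 - 1 / (R : ℝ)) * (X - 1) ^ 2 / 2 =
                (1 - 1 / (R : ℝ)) * (X - 1 / 2) := by ring
            have h6 : (1 - 1 / (R : ℝ)) * (X - 1 / 2) ≤ 1 * (X - 1 / 2) :=
              mul_le_mul_of_nonneg_right (by linarith only [h3]) (by linarith only [hX1])
            linarith only [h5, h6]
          rw [hdd, hdd']
          linarith only [h1, h2, h4, hE, hX1, hXR]
        clear_value d d' X
        have hkey : X ^ k * d - (X - 1) ^ k * d' ≤ (2 + s) * X ^ (k + 1) := by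
          have h1 : X ^ k * d ≤ X ^ k * d' + 2 * X ^ (k + 1) := by
            have := mul_le_mul_of_nonneg_left hdd2 hXk.le
            have h2 : X ^ k * (d' + 2 * X) = X ^ k * d' + 2 * X ^ (k + 1) := by ring
            linarith only [this, h2]
          have h3 : (X ^ k - (X - 1) ^ k) * d' ≤ k * X ^ (k + 1) / 2 := by
            have h4 : X * (X ^ k - (X - 1) ^ k) ≤ k * X ^ k := by
              have : X * (X ^ k - (X - 1) ^ k) = X ^ (k + 1) - X * (X - 1) ^ k := by ring
              linarith only [this, hp0]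
            have h5 : 0 ≤ X ^ k - (X - 1) ^ k := by
              have := pow_le_pow_left₀ (by linarith only [hX1] : (0 : ℝ) ≤ X - 1)
                (by linarith only [hX1] : X - 1 ≤ X) k
              linarith only [this]
            calc (X ^ k - (X - 1) ^ k) * d' ≤ (X ^ k - (X - 1) ^ k) * (X ^ 2 / 2) :=
                  mul_le_mul_of_nonneg_left hdn h5
              _ = X * (X ^ k - (X - 1) ^ k) * (X / 2) := by ring
              _ ≤ k * X ^ k * (X / 2) := mul_le_mul_of_nonneg_right h4 (by linarith only [hX1])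
              _ = k * X ^ (k + 1) / 2 := by ring
          have h6 : (k : ℝ) * X ^ (k + 1) / 2 ≤ s * X ^ (k + 1) := by
            have h7 : 0 ≤ X ^ (k + 1) := by positivity
            have h8 : (0 : ℝ) ≤ k := Nat.cast_nonneg k
            rw [hsk]
            linarith only [mul_nonneg h8 h7, h7]
          linarith only [h1, h3, h6]
        have hfin1 : c * (X ^ k * d - (X - 1) ^ k * d') ≤ s * θ / 4 * X ^ (k + 1) := by
          have h1 := mul_le_mul_of_nonneg_left hkey hc0.le
          have h2 : c * ((2 + s) * X ^ (k + 1)) ≤ s * θ / 4 * X ^ (k + 1) := by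
            rw [← mul_assoc]
            exact mul_le_mul_of_nonneg_right hcc2 (by positivity)
          linarith only [h1, h2]
        have hfin2 : s * (dg G S x : ℝ) * X ^ k ≤ s * (1 - θ) * X ^ (k + 1) := by
          have h1 : s * (dg G S x : ℝ) ≤ s * ((1 - θ) * X) :=
            mul_le_mul_of_nonneg_left hdx.le (by linarith only [hs2])
          have h2 := mul_le_mul_of_nonneg_right h1 hXk.le
          have h3 : s * ((1 - θ) * X) * X ^ k = s * (1 - θ) * X ^ (k + 1) := by ring
          linarith only [h2, h3]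
        have hfin3 : s * (1 - θ) * X ^ (k + 1) + s * θ / 4 * X ^ (k + 1) ≤
            s * (1 - θ / 2) * X ^ (k + 1) := by
          have h1 : s * (1 - θ / 2) * X ^ (k + 1) - (s * (1 - θ) * X ^ (k + 1) +
            s * θ / 4 * X ^ (k + 1)) = s * θ / 4 * X ^ (k + 1) := by ring
          have h2 : 0 ≤ s * θ / 4 * X ^ (k + 1) := by positivity
          linarith only [h1, h2]
        have e1 : c * X ^ k * d = c * (X ^ k * d) := by ring
        have e2' : c * (X - 1) ^ k * d' = c * ((X - 1) ^ k * d') := by ring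
        rw [e2'] at hih
        rw [e1]
        have e3 : c * (X ^ k * d - (X - 1) ^ k * d') = c * (X ^ k * d) - c * ((X - 1) ^ k * d') := by
          ring
        rw [e3] at hfin1
        linarith only [hih, hemb2, hg2, hfin1, hfin2, hfin3]
  intro S hfree
  exact key S.card S rfl hfree

end H57GH
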