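import Pool.Agent.H57.GH.UpperG
import Pool.Agent.H57.GH.LocalB0
import Pool.Agent.H57.GH.EmbI

/-!
Project GP: an upper bound for the number of copies of `K_u ∨ J` with an error term.
-/

namespace H57GH

open Finset H57LC H57LT

set_option linter.unusedSectionVars false

/-- the core: fixed `R`, `r` -/
private lemma UpperP_core {ι : Type} [Fintype ι] [DecidableEq ι] (J : SimpleGraph ι)
    [DecidableRel J.Adj] [Nonempty ι] (u : ℕ) (hu : 1 ≤ u) (q : ℕ)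
    (hd : ∀ v, q + 1 ≤ dg J univ v) (θ : ℝ) (hθ : 0 < θ) (hθ1 : θ ≤ 1 / 4) (R r : ℕ)
    (hR8 : 8 ≤ R) (hrR : r ≤ R)
    (hM : ∀ m : ℕ, 1 ≤ m → ((R : ℝ) * m) ^ Fintype.card ι ≤ 2 * M0 J R m)
    (HA : ∀ C₁ : ℝ, 0 < C₁ → ∃ CB₀ : ℝ, 0 < CB₀ ∧ ∀ CB : ℝ, CB₀ ≤ CB →
      ∃ m₀ : ℕ, ∀ m : ℕ, m₀ ≤ m →
      ∀ (V : Type) [DecidableEq V] (G : SimpleGraph V) [DecidableRel G.Adj] (S : Finset V)
        (ρ g : ℝ), S.card ≤ R * m + r → clq G S (R + 1) = ∅ → ¬ TyB G S R m CB →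
        M0 J R m ≤ ρ →
        g ≤ u * ∑ x ∈ vh G S R m θ, PiW (Fintype.card ι) q ((R : ℝ) * m + r) (dg G S x) →
        ∃ z : Finset V → ℝ, ((emb J G S).card : ℝ) - ρ + g ≤ ∑ T ∈ clq G S R, z T ∧
          ∀ T ∈ clq G S R, z T ≤ -(C₁ / m) * (M0 J R m / (m : ℝ) ^ R))
    (HB : ∀ C₁ CB ε : ℝ, 0 < C₁ → 0 < CB → 0 < ε → ε < 1 →
      ∃ m₀ : ℕ, ∀ m : ℕ, m₀ ≤ m →
        ∀ (V : Type) [DecidableEq V] (G : SimpleGraph V) [DecidableRel G.Adj] (S : Finset V)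
          (ρ : ℝ), S.card ≤ R * m + r → clq G S (R + 1) = ∅ → TyB G S R m CB →
          M0 J R m ≤ ρ → ρ ≤ M0 J R m * (1 + CB / m) →
          ∃ z : Finset V → ℝ,
            ((emb J G (S \ vh G S R m θ)).card : ℝ) - ρ ≤ ∑ T ∈ clq G S R, z T +
              ∑ y ∈ (vh G S R m θ).filter (fun y => q + 1 ≤ dg G S y),
                (dg G S y : ℝ) ^ (1 + q) * (m : ℝ) ^ (Fintype.card ι - 2 - q) ∧
            ∀ T ∈ clq G S R, z T ≤ -(C₁ / m) * (M0 J R m / (m : ℝ) ^ R) ∨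
              ((∀ t ∈ T, (1 - ε) * m ≤ (aa G S T t : ℝ)) ∧ z T ≤ lzG G J S R m θ 0 ρ 0 T))
    (HK : ∃ C₁ ζ ε : ℝ, 0 < C₁ ∧ 0 < ζ ∧ ζ ≤ 1 ∧ 0 < ε ∧ ε < 1 ∧ ∃ m₀ : ℕ, ∀ m : ℕ, m₀ ≤ m →
      ∀ (α : Type) [DecidableEq α] (β : Type) (K : Finset α) (a : α → ℕ) (Z : Finset β)
        (h : β → Finset α) (z : Finset α → ℝ), K.card = R + u → (∀ t ∈ K, 1 ≤ a t) →
        (∀ T ⊆ K, T.card = R →
          ∑ i ∈ T, a i + (Z.filter fun y => 2 ≤ (h y).card ∧ h y ⊆ T).card ≤ R * m + r) →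
        (∀ T ⊆ K, T.card = R → z T ≤ -(C₁ / m) * (M0 J R m / (m : ℝ) ^ R) ∨
          ((∀ t ∈ T, (1 - ε) * m ≤ (a t : ℝ)) ∧
            z T ≤ ((fJ J T a : ℝ) - rhoG J u R r m) * (∏ t ∈ T, ((a t : ℝ))⁻¹) +
              M0 J R m / (m : ℝ) ^ R *
                ((∑ y ∈ Z.filter (fun y => h y ⊆ T), ktG R (Fintype.card ι) θ (h y).card) +
                  ζ * ((m : ℝ)⁻¹) ^ 1 *
                    (if u + 1 ≤ (Z.filter fun y => 2 ≤ (h y).card ∧ h y ⊆ T).card then 1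
                      else 0)) / m)) →
        ∑ T ∈ powersetCard R K, z T ≤ 0) :
    ∃ C : ℝ, 0 < C ∧ ∃ m₀ : ℕ, ∀ m : ℕ, m₀ ≤ m →
      ∀ (V : Type) [Fintype V] [DecidableEq V] (G : SimpleGraph V) [DecidableRel G.Adj],
        (∀ U ∈ clq G univ u, (cn G U).card ≤ R * m + r) → clq G univ (R + u + 1) = ∅ →
        ((emb (jn J u) G univ).card : ℝ) ≤
          u.factorial * (rhoG J u R r m + C * (m : ℝ) ^ (Fintype.card ι - 2 - q)) *
            ((clq G univ u).card : ℝ) := by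
  have hcs : 2 ≤ Fintype.card ι := by
    have := two_le_card J (q := 0) (fun v => (by omega : 1 + 0 ≤ q + 1).trans (hd v))
    omega
  obtain ⟨C₁, ζ, ε, hC₁, hζ, hζ1, hε, hε1, m₁, hK⟩ := HK
  obtain ⟨CB₀, hCB₀, hA'⟩ := HA C₁ hC₁
  obtain ⟨Cρ, hCρ, hρ⟩ := rhoG_bounds J hcs u R r (by omega) (by omega) hM
  have hCB : 0 < max CB₀ Cρ := lt_of_lt_of_le hCB₀ (le_max_left _ _)
  obtain ⟨m₂, hA⟩ := hA' (max CB₀ Cρ) (le_max_left _ _)
  obtain ⟨C₆, hC₆, m₃, hT⟩ := transfer u R r (q + 1) q 0 (Fintype.card ι) hu hR8 hrR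
    (Nat.zero_le _) (Nat.zero_le _) (by omega) (max CB₀ Cρ) θ hCB hθ hθ1
  obtain ⟨m₄, hB⟩ := HB C₁ (max CB₀ Cρ) ε hC₁ hCB hε hε1
  refine ⟨C₆, hC₆, max 1 (max (max m₁ m₂) (max m₃ m₄)), fun m hm V _ _ G _ hdeg hfree => ?_⟩
  have hm0 : 1 ≤ m := (le_max_left _ _).trans hm
  have hmr : max (max m₁ m₂) (max m₃ m₄) ≤ m := (le_max_right _ _).trans hm
  have hm1 : m₁ ≤ m := ((le_max_left _ _).trans (le_max_left _ _)).trans hmr
  have hm2 : m₂ ≤ m := ((le_max_right _ _).trans (le_max_left _ _)).trans hmr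
  have hm3 : m₃ ≤ m := ((le_max_left _ _).trans (le_max_right _ _)).trans hmr
  have hm4 : m₄ ≤ m := ((le_max_right _ _).trans (le_max_right _ _)).trans hmr
  have hm0R : (1 : ℝ) ≤ m := by exact_mod_cast hm0
  have hR1R : (1 : ℝ) ≤ R := by exact_mod_cast (by omega : 1 ≤ R)
  obtain ⟨giv, got, hgg, hnB, hTB⟩ := hT m hm3 V G hdeg hfree
  have hMρ : M0 J R m ≤ rhoG J u R r m := M0_le_rhoG J hm0 (by omega) (by omega)
  have hM0 : 0 ≤ M0 J R m := by unfold M0; positivity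
  have hρM : rhoG J u R r m ≤ M0 J R m * (1 + max CB₀ Cρ / m) := by
    refine (hρ m hm0).2.trans (mul_le_mul_of_nonneg_left ?_ hM0)
    have : Cρ / m ≤ max CB₀ Cρ / m := by
      gcongr
      exact le_max_right _ _
    linarith only [this]
  obtain ⟨E, hE⟩ : ∃ E : ℝ, E = C₆ * (m : ℝ) ^ (Fintype.card ι - 2 - q) := ⟨_, rfl⟩
  have hE0 : 0 ≤ E := by rw [hE]; positivity
  have key : ∀ U ∈ clq G univ u, ∃ z : Finset V → ℝ,
      ((emb J G (cn G U)).card : ℝ) - (rhoG J u R r m + E) + giv U - got U ≤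
        ∑ T ∈ clq G (cn G U) R, z T ∧
      ∀ T ∈ clq G (cn G U) R, z T ≤ -(C₁ / m) * (M0 J R m / (m : ℝ) ^ R) ∨
        ((∀ t ∈ T, (1 - ε) * m ≤ (aa G (cn G U) T t : ℝ)) ∧
          z T ≤ lzG G J (cn G U) R m θ 0 (rhoG J u R r m) 0 T) := by
    intro U hU
    by_cases hTy : TyB G (cn G U) R m (max CB₀ Cρ)
    · obtain ⟨Γ, hΓ0, hΓ1, hΓ2, hΓ3⟩ := hTB U hU hTy
      obtain ⟨z, hz1, hz2⟩ := hB m hm4 V G (cn G U) (rhoG J u R r m) (hdeg U hU)
        (cn_free hfree hU) hTy hMρ hρM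
      refine ⟨z, ?_, hz2⟩
      have h1 := emb_vh_le J (q := q) hd (by omega) G (S := cn G U) (R := R) (m := m) (r := r)
        (θ := θ) hm0 (hdeg U hU)
      have h2 := UpperG_pay ((vh G (cn G U) R m θ).filter (fun y => q + 1 ≤ dg G (cn G U) y))
        (fun y => dg G (cn G U) y) (s := Fintype.card ι) (q := q) (by omega)
        (n := (R : ℝ) * m + r) (m := (m : ℝ)) (by positivity) (by
          have h0 : (0 : ℝ) ≤ r := by positivity
          nlinarith only [hR1R])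
      rw [← hE] at hΓ1
      linarith only [hΓ1, hΓ3, hz1, h1, h2]
    · obtain ⟨h0, h1⟩ := hnB U hU hTy
      obtain ⟨z, hz1, hz2⟩ := hA m hm2 V G (cn G U) (rhoG J u R r m) (giv U) (hdeg U hU)
        (cn_free hfree hU) hTy hMρ h1
      refine ⟨z, ?_, fun T hT' => Or.inl (hz2 T hT')⟩
      rw [h0]
      linarith
  choose! z hz1 hz2 using key
  have hneg : ∑ K ∈ clq G univ (R + u), ∑ T ∈ powersetCard R K, z (K \ T) T ≤ 0 := by
    refine sum_nonpos fun K hKm => ?_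
    have hK' := mem_clq.1 hKm
    refine hK m hm1 V V K (aK G K) univ (fun y => hs G K y) (fun T => z (K \ T) T)
      hK'.1.2 (fun t ht => one_le_aK hK'.2 ht) ?_ ?_
    · intro T hT' hc
      exact (sum_aK_hge hT').trans (hdeg (K \ T) (UpperG_sdiff hKm hT' hc))
    · intro T hT' hc
      rcases hz2 (K \ T) (UpperG_sdiff hKm hT' hc) T (UpperG_mem hKm hT' hc) with h | ⟨h1, h3⟩
      · exact Or.inl h
      · right
        refine ⟨fun t ht => ?_, ?_⟩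
        · have := h1 t ht
          rwa [aa_cn hT' ht] at this
        · rw [lzG_cn J hT', zero_mul, add_zero] at h3
          refine h3.trans ?_
          refine add_le_add_right ?_ _
          refine div_le_div_of_nonneg_right ?_ (by positivity)
          refine mul_le_mul_of_nonneg_left ?_ (by positivity)
          refine le_add_of_nonneg_right ?_
          refine mul_nonneg (by positivity) ?_
          split_ifs <;> norm_num
  have hsum : ∑ U ∈ clq G univ u,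
      (((emb J G (cn G U)).card : ℝ) - (rhoG J u R r m + E) + giv U - got U) ≤ 0 :=
    calc ∑ U ∈ clq G univ u,
        (((emb J G (cn G U)).card : ℝ) - (rhoG J u R r m + E) + giv U - got U)
        ≤ ∑ U ∈ clq G univ u, ∑ T ∈ clq G (cn G U) R, z U T := sum_le_sum hz1
      _ = ∑ K ∈ clq G univ (R + u), ∑ T ∈ powersetCard R K, z (K \ T) T := double_count u R z
      _ ≤ 0 := hneg
  rw [sum_sub_distrib, sum_add_distrib, sum_sub_distrib, sum_const, nsmul_eq_mul, hgg] at hsum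
  have hjoin : ((emb (jn J u) G univ).card : ℝ) =
      u.factorial * ∑ U ∈ clq G univ u, ((emb J G (cn G U)).card : ℝ) := by
    have h := emb_join J G u
    rw [h]
    push_cast
    rfl
  rw [← hE, hjoin, mul_assoc]
  refine mul_le_mul_of_nonneg_left ?_ (by positivity)
  linarith only [hsum]

/-- all degrees of `J` are at least `q + 1` -/
theorem upperP {ι : Type} [Fintype ι] [DecidableEq ι] (J : SimpleGraph ι) [DecidableRel J.Adj]
    [Nonempty ι] (u : ℕ) (hu : 1 ≤ u) (q : ℕ) (hq : ∀ v, q + 1 ≤ dg J univ v) :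
    ∃ R₀ : ℕ, ∃ c₀ : ℝ, 0 < c₀ ∧ ∀ R r : ℕ, R₀ ≤ R → 1 ≤ r → (r : ℝ) ≤ c₀ * R →
      r + 2 ≤ R ∧ ∃ C : ℝ, 0 < C ∧ ∃ m₀ : ℕ, ∀ m : ℕ, m₀ ≤ m →
      ∀ (V : Type) [Fintype V] [DecidableEq V] (G : SimpleGraph V) [DecidableRel G.Adj],
        (∀ U ∈ clq G univ u, (cn G U).card ≤ R * m + r) → clq G univ (R + u + 1) = ∅ →
        ((emb (jn J u) G univ).card : ℝ) ≤
          u.factorial * (rhoG J u R r m + C * (m : ℝ) ^ (Fintype.card ι - 2 - q)) *
            ((clq G univ u).card : ℝ) := by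
  have hd1' : ∀ v, 1 ≤ dg J univ v := fun v => (by omega : 1 ≤ q + 1).trans (hq v)
  have hcs : 2 ≤ Fintype.card ι := by
    have := two_le_card J (q := 0) (fun v => (by omega : 1 + 0 ≤ q + 1).trans (hq v))
    omega
  have hJ : 1 ≤ oe J := by
    have := card_le_oe J hd1'
    omega
  obtain ⟨θA, hθA, RA, _, HA⟩ := localA J hd1' u
  obtain ⟨θ, hθ, hθA', hθ1⟩ : ∃ θ : ℝ, 0 < θ ∧ θ ≤ θA ∧ θ ≤ 1 / 4 :=
    ⟨min θA (1 / 4), lt_min hθA (by norm_num), min_le_left _ _, min_le_right _ _⟩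
  obtain ⟨RB, HB⟩ := localB0 J (q + 1) (by omega) hq θ hθ hθ1
  obtain ⟨RK, cK, hcK, HK⟩ := K_ineqG J hcs hJ u hu θ hθ hθ1
  obtain ⟨CM, hCM, HM⟩ := M0_bounds J
  refine ⟨max (max (max RA RB) (max RK 8)) ⌈2 * CM⌉₊, min cK (1 / 2),
    lt_min hcK (by norm_num), fun R r hR hr hcase => ?_⟩
  have hRA : RA ≤ R := by
    refine le_trans ?_ hR
    exact (le_max_left _ _).trans ((le_max_left _ _).trans (le_max_left _ _))
  have hRB : RB ≤ R := by
    refine le_trans ?_ hR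
    exact (le_max_right _ _).trans ((le_max_left _ _).trans (le_max_left _ _))
  have hRK : RK ≤ R := by
    refine le_trans ?_ hR
    exact (le_max_left _ _).trans ((le_max_right _ _).trans (le_max_left _ _))
  have hR8 : 8 ≤ R := by
    refine le_trans ?_ hR
    exact (le_max_right _ _).trans ((le_max_right _ _).trans (le_max_left _ _))
  have hRM : 2 * CM ≤ R := by
    refine (Nat.le_ceil _).trans ?_
    have h : ⌈2 * CM⌉₊ ≤ R := (le_max_right _ _).trans hR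
    exact_mod_cast h
  have hR0 : (0 : ℝ) < R := by exact_mod_cast (by omega : 0 < R)
  have hrc : (r : ℝ) ≤ cK * R :=
    hcase.trans (mul_le_mul_of_nonneg_right (min_le_left _ _) hR0.le)
  have hr2 : r + 2 ≤ R := by
    have h1 : (r : ℝ) ≤ 1 / 2 * R :=
      hcase.trans (mul_le_mul_of_nonneg_right (min_le_right _ _) hR0.le)
    have h2 : 2 * (r : ℝ) ≤ R := by linarith only [h1]
    have h3 : 2 * r ≤ R := by exact_mod_cast h2
    omega
  refine ⟨hr2, ?_⟩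
  have hM : ∀ m : ℕ, 1 ≤ m → ((R : ℝ) * m) ^ Fintype.card ι ≤ 2 * M0 J R m := by
    intro m hm
    have h1 := (HM R m (by omega) hm).1
    have h2 : CM / R ≤ 1 / 2 := by
      rw [div_le_iff₀ hR0]
      linarith only [hRM]
    have h3 : (0 : ℝ) ≤ ((R : ℝ) * m) ^ Fintype.card ι := by positivity
    have h4 : 1 / 2 * ((R : ℝ) * m) ^ Fintype.card ι ≤
        (1 - CM / R) * ((R : ℝ) * m) ^ Fintype.card ι :=
      mul_le_mul_of_nonneg_right (by linarith) h3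
    linarith only [h1, h4]
  refine UpperP_core J u hu q hq θ hθ hθ1 R r hR8 (by omega) hM ?_ ?_ ?_
  · intro C₁ hC₁
    obtain ⟨CB₀, hCB₀, h⟩ := HA R hRA r (by omega) q
      (fun v => (by omega : 1 + q ≤ q + 1).trans (hq v)) C₁ hC₁
    refine ⟨CB₀, hCB₀, fun CB hCB => ?_⟩
    obtain ⟨m₀, h'⟩ := h CB hCB
    exact ⟨m₀, fun m hm V _ G _ S ρ g => h' m hm θ hθ.le hθA' V G S ρ g⟩
  · exact HB R hRB r (by omega) q le_rfl
  · exact HK R r hRK hr hrc 1 u (Or.inr ⟨rfl, le_rfl⟩)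

end H57GH
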