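import Pool.Agent.H57.GH.UpperP
import Pool.Agent.H57.GH.CopyE

/-!
Project GP: the same when `J` has isolated vertices.
-/

namespace H57GH

open Finset H57LC H57LT

set_option linter.unusedSectionVars false

/-- `fJ` for a graph with isolated vertices -/
theorem UpperP0_fJ {ι : Type*} [Fintype ι] [DecidableEq ι] (J : SimpleGraph ι)
    [DecidableRel J.Adj] (I : Finset ι) (hI : ∀ v ∈ I, ∀ w, ¬ J.Adj v w)
    {κ : Type*} [DecidableEq κ] (T : Finset κ) (a : κ → ℕ) :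
    fJ J T a = fJ (J.comap (Subtype.val : {v // v ∉ I} → ι)) T a *
      ((∑ k ∈ T, a k) - Fintype.card {v // v ∉ I}).descFactorial I.card := by
  classical
  obtain ⟨G, hG⟩ : ∃ G : SimpleGraph (Σ _ : κ, ℕ), G = (⊤ : SimpleGraph κ).comap Sigma.fst :=
    ⟨_, rfl⟩
  have hadj : ∀ x y, G.Adj x y ↔ x.1 ≠ y.1 := fun x y => by
    rw [hG]
    exact Iff.rfl
  have hc : (pts T a).card = ∑ k ∈ T, a k := by
    unfold pts
    rw [Finset.card_sigma]
    simp only [card_range]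
  have h1 : ∀ {ι' : Type _} [Fintype ι'] [DecidableEq ι'] (J' : SimpleGraph ι')
      [DecidableRel J'.Adj], fJ J' T a = (emb J' G (pts T a)).card := by
    intro ι' _ _ J' _
    unfold fJ emb cm
    congr 1
    refine Finset.filter_congr fun φ _ => ?_
    refine and_congr_right fun _ => ?_
    refine forall_congr' fun i => forall_congr' fun j => ?_
    rw [hadj]
  rw [h1 J, h1 (J.comap (Subtype.val : {v // v ∉ I} → ι)), ← hc]
  exact emb_isolated J G I hI (pts T a)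

theorem UpperP0_sum_ge {w R r m : ℕ} {T : Finset (Fin w)} (hT : T.card = R) :
    R * m ≤ ∑ k ∈ T, xg w r m k := by
  have h1 : ∑ k ∈ T, m ≤ ∑ k ∈ T, xg w r m k := sum_le_sum fun k _ => by
    unfold xg
    omega
  rwa [sum_const, hT, smul_eq_mul] at h1

theorem UpperP0_sum_le {w R r m : ℕ} {T : Finset (Fin w)} (hT : T.card = R) :
    ∑ k ∈ T, xg w r m k ≤ R * (m + 1) := by
  have h1 : ∑ k ∈ T, xg w r m k ≤ ∑ k ∈ T, (m + 1) := sum_le_sum fun k _ => by
    unfold xg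
    split_ifs <;> omega
  rwa [sum_const, hT, smul_eq_mul] at h1

/-- lower bound for `rhoG` with isolated vertices -/
theorem UpperP0_rho_ge {ι : Type*} [Fintype ι] [DecidableEq ι] (J : SimpleGraph ι)
    [DecidableRel J.Adj] (I : Finset ι) (hI : ∀ v ∈ I, ∀ w, ¬ J.Adj v w) {u R r m : ℕ}
    (hm : 1 ≤ m) :
    rhoG (J.comap (Subtype.val : {v // v ∉ I} → ι)) u R r m *
      ((R * m - Fintype.card {v // v ∉ I}).descFactorial I.card : ℕ) ≤ rhoG J u R r m := by
  have hW := sum_wN_pos (u := u) (R := R) (r := r) hm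
  refine le_of_mul_le_mul_right ?_ hW
  have h1 := RhoG_mul (J.comap (Subtype.val : {v // v ∉ I} → ι)) (u := u) (R := R) (r := r) hm
  rw [RhoG_mul J hm, mul_right_comm, h1, sum_mul]
  refine sum_le_sum fun T hT => ?_
  have hw := (wN_pos (w := R + u) (r := r) hm T).le
  rw [UpperP0_fJ J I hI, mul_right_comm]
  refine mul_le_mul_of_nonneg_right ?_ hw
  push_cast
  refine mul_le_mul_of_nonneg_left ?_ (Nat.cast_nonneg _)
  have h2 : R * m - Fintype.card {v // v ∉ I} ≤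
      (∑ k ∈ T, xg (R + u) r m k) - Fintype.card {v // v ∉ I} :=
    Nat.sub_le_sub_right (UpperP0_sum_ge (mem_powersetCard.1 hT).2) _
  exact_mod_cast Nat.descFactorial_le _ h2

theorem UpperP0_rho_le {ι : Type*} [Fintype ι] [DecidableEq ι] (J : SimpleGraph ι)
    [DecidableRel J.Adj] {u R r m : ℕ} (hm : 1 ≤ m) :
    rhoG J u R r m ≤ (2 * (R : ℝ) * m) ^ Fintype.card ι := by
  have hW := sum_wN_pos (u := u) (R := R) (r := r) hm
  refine le_of_mul_le_mul_right ?_ hW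
  rw [RhoG_mul J hm, mul_sum]
  refine sum_le_sum fun T hT => ?_
  refine mul_le_mul_of_nonneg_right ?_ (wN_pos hm T).le
  have h1 := fJ_le_pow J T (xg (R + u) r m)
  have h2 := UpperP0_sum_le (w := R + u) (r := r) (m := m) (mem_powersetCard.1 hT).2
  have h3 : R * (m + 1) ≤ 2 * R * m := by nlinarith only [hm]
  have h4 : fJ J T (xg (R + u) r m) ≤ (2 * R * m) ^ Fintype.card ι :=
    h1.trans (Nat.pow_le_pow_left (h2.trans h3) _)
  exact_mod_cast h4

theorem UpperP0_desc {N r s₀ k : ℕ} (h : s₀ + k ≤ N) :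
    ((N : ℝ) + r) ^ k - (((N - s₀).descFactorial k : ℕ) : ℝ) ≤
      ((r : ℝ) + s₀ + k) * k * ((N : ℝ) + r) ^ (k - 1) := by
  have h1 : (N - s₀ - k) ^ k ≤ (N - s₀).descFactorial k :=
    (Nat.pow_le_pow_left (by omega) k).trans (Nat.pow_sub_le_descFactorial (N - s₀) k)
  have h2 : (((N - s₀ - k : ℕ) : ℝ)) ^ k ≤ (((N - s₀).descFactorial k : ℕ) : ℝ) := by
    exact_mod_cast h1
  have h3 : ((N - s₀ - k : ℕ) : ℝ) = (N : ℝ) - s₀ - k := by
    rw [Nat.cast_sub (by omega), Nat.cast_sub (by omega)]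
  have h4 : (0 : ℝ) ≤ (N : ℝ) - s₀ - k := by
    rw [← h3]
    exact Nat.cast_nonneg _
  have h5 := abs_pow_sub_pow_le ((N : ℝ) + r) ((N : ℝ) - s₀ - k) k
  have hr : (0 : ℝ) ≤ r := Nat.cast_nonneg _
  have hs : (0 : ℝ) ≤ s₀ := Nat.cast_nonneg _
  have hk : (0 : ℝ) ≤ k := Nat.cast_nonneg _
  have hN : (0 : ℝ) ≤ N := Nat.cast_nonneg _
  have h6 : max |(N : ℝ) + r| |(N : ℝ) - s₀ - k| = (N : ℝ) + r := by
    rw [abs_of_nonneg (by linarith only []), abs_of_nonneg h4]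
    exact max_eq_left (by linarith only [])
  have h7 : |(N : ℝ) + r - ((N : ℝ) - s₀ - k)| = (r : ℝ) + s₀ + k := by
    rw [abs_of_nonneg (by linarith only [])]
    ring
  rw [h6, h7] at h5
  have h8 := (le_abs_self _).trans h5
  rw [h3] at h2
  linarith only [h2, h8]

/-- the statement for the graph without the isolated vertices, with an error term `E` -/
theorem UpperP0_core {ι : Type} [Fintype ι] [DecidableEq ι] (J : SimpleGraph ι)
    [DecidableRel J.Adj] (I : Finset ι) (hI : ∀ v ∈ I, ∀ w, ¬ J.Adj v w)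
    (hI' : ∀ v, v ∉ I → ∃ w, J.Adj v w) (u : ℕ) (hu : 1 ≤ u) :
    ∃ R₀ : ℕ, ∃ c₀ : ℝ, 0 < c₀ ∧ ∀ R r : ℕ, R₀ ≤ R → 1 ≤ r → (r : ℝ) ≤ c₀ * R →
      r + 2 ≤ R ∧ ∃ C : ℝ, 0 < C ∧ ∃ m₀ : ℕ, ∀ m : ℕ, m₀ ≤ m → ∃ E : ℝ, 0 ≤ E ∧
      E * m ≤ C * (m : ℝ) ^ Fintype.card {v // v ∉ I} ∧
      ∀ (V : Type) [Fintype V] [DecidableEq V] (G : SimpleGraph V) [DecidableRel G.Adj],
        (∀ U ∈ clq G univ u, (cn G U).card ≤ R * m + r) → clq G univ (R + u + 1) = ∅ →
        ((emb (jn (J.comap (Subtype.val : {v // v ∉ I} → ι)) u) G univ).card : ℝ) ≤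
          u.factorial * (rhoG (J.comap (Subtype.val : {v // v ∉ I} → ι)) u R r m + E) *
            ((clq G univ u).card : ℝ) := by
  rcases isEmpty_or_nonempty {v // v ∉ I} with he | hne
  · refine ⟨0, 1 / 3, by norm_num, fun R r _ hr hc => ⟨?_, 1, one_pos, 1, fun m hm =>
      ⟨0, le_rfl, ?_, ?_⟩⟩⟩
    · have h1 : 3 * (r : ℝ) ≤ R := by linarith
      have h2 : 3 * r ≤ R := by exact_mod_cast h1
      omega
    · rw [zero_mul]
      positivity
    · intro V _ _ G _ _ _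
      have h0 : Fintype.card {v // v ∉ I} = 0 := Fintype.card_eq_zero
      have h1 : ∀ S : Finset V,
          (emb (J.comap (Subtype.val : {v // v ∉ I} → ι)) G S).card = 1 := by
        intro S
        rw [Finset.card_eq_one]
        refine ⟨fun i => (he.false i).elim, ?_⟩
        ext φ
        rw [EmbI_mem, mem_singleton]
        constructor
        · intro _
          funext i
          exact (he.false i).elim
        · rintro rfl
          exact ⟨fun i => (he.false i).elim, fun i => (he.false i).elim,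
            fun i => (he.false i).elim⟩
      have h2 : rhoG (J.comap (Subtype.val : {v // v ∉ I} → ι)) u R r m = 1 := by
        have hW := sum_wN_pos (u := u) (R := R) (r := r) hm
        have h3 := RhoG_mul (J.comap (Subtype.val : {v // v ∉ I} → ι)) (u := u) (R := R)
          (r := r) hm
        have h4 : ∀ T : Finset (Fin (R + u)),
            (fJ (J.comap (Subtype.val : {v // v ∉ I} → ι)) T (xg (R + u) r m) : ℝ) = 1 := by
          intro T
          have h5 : fJ (J.comap (Subtype.val : {v // v ∉ I} → ι)) T (xg (R + u) r m) = 1 := by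
            unfold fJ
            rw [Finset.card_eq_one]
            refine ⟨fun i => (he.false i).elim, ?_⟩
            ext φ
            rw [CM_mem, mem_singleton]
            constructor
            · intro _
              funext i
              exact (he.false i).elim
            · rintro rfl
              exact ⟨fun i => (he.false i).elim, fun i => (he.false i).elim,
                fun i => (he.false i).elim⟩
          rw [h5, Nat.cast_one]
        have h5 : ∑ T ∈ powersetCard R (univ : Finset (Fin (R + u))),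
            (fJ (J.comap (Subtype.val : {v // v ∉ I} → ι)) T (xg (R + u) r m) : ℝ) *
              wN (R + u) r m T =
            ∑ T ∈ powersetCard R (univ : Finset (Fin (R + u))), wN (R + u) r m T :=
          sum_congr rfl fun T _ => by rw [h4 T, one_mul]
        rw [h5] at h3
        exact mul_right_cancel₀ hW.ne' (h3.trans (one_mul _).symm)
      rw [emb_join, h2, sum_congr rfl fun U _ => h1 (cn G U), sum_const, smul_eq_mul, mul_one]
      push_cast
      simp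
  · have hq : ∀ v, 0 + 1 ≤ dg (J.comap (Subtype.val : {v // v ∉ I} → ι)) univ v := by
      rintro ⟨v, hv⟩
      obtain ⟨w, hw⟩ := hI' v hv
      have hwI : w ∉ I := fun h => hI w h v hw.symm
      unfold dg
      rw [zero_add, Nat.one_le_iff_ne_zero, ← Nat.pos_iff_ne_zero, Finset.card_pos]
      exact ⟨⟨w, hwI⟩, mem_filter.2 ⟨mem_univ _, hw⟩⟩
    have hs : 2 ≤ Fintype.card {v // v ∉ I} :=
      two_le_card (J.comap (Subtype.val : {v // v ∉ I} → ι)) (q := 0) fun v => by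
        have := hq v
        omega
    obtain ⟨R₀, c₀, hc₀, H⟩ := upperP (J.comap (Subtype.val : {v // v ∉ I} → ι)) u hu 0 hq
    refine ⟨R₀, c₀, hc₀, fun R r hR hr hc => ?_⟩
    obtain ⟨h2, C, hC, m₀, H'⟩ := H R r hR hr hc
    refine ⟨h2, C, hC, max 1 m₀, fun m hm =>
      ⟨C * (m : ℝ) ^ (Fintype.card {v // v ∉ I} - 2 - 0), by positivity, ?_,
        fun V _ _ G _ => H' m ((le_max_right _ _).trans hm) V G⟩⟩
    have hm1 : (1 : ℝ) ≤ m := by exact_mod_cast (le_max_left _ _).trans hm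
    rw [mul_assoc, ← pow_succ]
    refine mul_le_mul_of_nonneg_left ?_ hC.le
    exact pow_le_pow_right₀ hm1 (by omega)

/-- `I` is the set of isolated vertices of `J`, not empty -/
theorem upperP0 {ι : Type} [Fintype ι] [DecidableEq ι] (J : SimpleGraph ι) [DecidableRel J.Adj]
    (I : Finset ι) (hI : ∀ v ∈ I, ∀ w, ¬ J.Adj v w) (hI' : ∀ v, v ∉ I → ∃ w, J.Adj v w)
    (hne : I.Nonempty) (u : ℕ) (hu : 1 ≤ u) :
    ∃ R₀ : ℕ, ∃ c₀ : ℝ, 0 < c₀ ∧ ∀ R r : ℕ, R₀ ≤ R → 1 ≤ r → (r : ℝ) ≤ c₀ * R →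
      r + 2 ≤ R ∧ ∃ C : ℝ, 0 < C ∧ ∃ m₀ : ℕ, ∀ m : ℕ, m₀ ≤ m →
      ∀ (V : Type) [Fintype V] [DecidableEq V] (G : SimpleGraph V) [DecidableRel G.Adj],
        (∀ U ∈ clq G univ u, (cn G U).card ≤ R * m + r) → clq G univ (R + u + 1) = ∅ →
        ((emb (jn J u) G univ).card : ℝ) ≤
          u.factorial * (rhoG J u R r m + C * (m : ℝ) ^ (Fintype.card ι - 1)) *
            ((clq G univ u).card : ℝ) := by
  classical
  obtain ⟨R₀, c₀, hc₀, H⟩ := UpperP0_core J I hI hI' u hu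
  refine ⟨R₀, c₀, hc₀, fun R r hR hr hc => ?_⟩
  obtain ⟨h2, C, hC, m₀, H'⟩ := H R r hR hr hc
  obtain ⟨s₀, hs₀⟩ : ∃ s₀, s₀ = Fintype.card {v // v ∉ I} := ⟨_, rfl⟩
  obtain ⟨k, hk⟩ : ∃ k, k = I.card := ⟨_, rfl⟩
  have hk1 : 1 ≤ k := by
    rw [hk]
    exact hne.card_pos
  have hs : Fintype.card ι = s₀ + k := by
    have h3 : Fintype.card {v // v ∉ I} = Fintype.card ι - I.card := by
      rw [Fintype.card_subtype_compl, Fintype.card_coe]
    have h4 : I.card ≤ Fintype.card ι := Finset.card_le_univ I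
    omega
  have hR1 : (1 : ℝ) ≤ R := by exact_mod_cast (by omega : 1 ≤ R)
  have hrR : (r : ℝ) ≤ R := by exact_mod_cast (by omega : r ≤ R)
  refine ⟨h2, ((r : ℝ) + s₀ + k) * k * (2 * R) ^ (k - 1) * (2 * R) ^ s₀ + (2 * R) ^ k * C + 1,
    by positivity, max (max 1 m₀) (s₀ + k), fun m hm V _ _ G _ hcn hfree => ?_⟩
  have hm1' : 1 ≤ m := (le_max_left _ _).trans ((le_max_left _ _).trans hm)
  have hm1 : (1 : ℝ) ≤ m := by exact_mod_cast hm1'
  have hm0 : m₀ ≤ m := (le_max_right _ _).trans ((le_max_left _ _).trans hm)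
  have hms : s₀ + k ≤ m := (le_max_right _ _).trans hm
  obtain ⟨E, hE0, hE1, H''⟩ := H' m hm0
  have h3 := H'' V G hcn hfree
  rw [← hs₀] at hE1
  obtain ⟨ρ₀, hρ₀⟩ : ∃ ρ₀, ρ₀ = rhoG (J.comap (Subtype.val : {v // v ∉ I} → ι)) u R r m :=
    ⟨_, rfl⟩
  have h4 : ρ₀ * ((R * m - s₀).descFactorial k : ℕ) ≤ rhoG J u R r m := by
    rw [hρ₀, hs₀, hk]
    exact UpperP0_rho_ge J I hI hm1'
  have h5 : ρ₀ ≤ (2 * (R : ℝ) * m) ^ s₀ := by
    rw [hρ₀, hs₀]
    exact UpperP0_rho_le _ hm1'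
  have h50 : 0 ≤ ρ₀ := by
    rw [hρ₀]
    unfold rhoG
    exact div_nonneg (by positivity) (eN_pos hm1' (by omega)).le
  rw [← hρ₀] at h3
  obtain ⟨A, hA⟩ : ∃ A : ℝ, A = ((R * m : ℕ) : ℝ) + r := ⟨_, rfl⟩
  have hA0 : 0 ≤ A := by
    rw [hA]
    positivity
  have hA1 : A ≤ 2 * R * m := by
    rw [hA]
    push_cast
    nlinarith only [hrR, hm1]
  have h6 : ((emb (jn J u) G univ).card : ℝ) ≤
      A ^ k * ((emb (jn (J.comap (Subtype.val : {v // v ∉ I} → ι)) u) G univ).card : ℝ) := by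
    have h7 : (emb (jn J u) G univ).card ≤
        (R * m + r) ^ k * (emb (jn (J.comap (Subtype.val : {v // v ∉ I} → ι)) u) G univ).card := by
      rw [emb_join, emb_join, mul_left_comm]
      refine Nat.mul_le_mul_left _ ?_
      rw [mul_sum]
      refine sum_le_sum fun U hU => ?_
      rw [emb_isolated J G I hI, mul_comm, ← hk]
      refine Nat.mul_le_mul_right _ ?_
      refine (Nat.descFactorial_le_pow _ _).trans (Nat.pow_le_pow_left ?_ _)
      exact (Nat.sub_le _ _).trans (hcn U hU)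
    rw [hA]
    exact_mod_cast h7
  have h8 := UpperP0_desc (N := R * m) (r := r) (s₀ := s₀) (k := k) (by nlinarith only [hr, h2,
      hm1', hms])
  rw [← hA] at h8
  obtain ⟨D, hD⟩ : ∃ D : ℝ, D = (((R * m - s₀).descFactorial k : ℕ) : ℝ) := ⟨_, rfl⟩
  rw [← hD] at h8 h4
  obtain ⟨Q, hQ⟩ : ∃ Q : ℝ, Q = ((clq G univ u).card : ℝ) := ⟨_, rfl⟩
  have hQ0 : 0 ≤ Q := by
    rw [hQ]
    exact Nat.cast_nonneg _
  rw [← hQ] at h3 ⊢
  obtain ⟨F, hF⟩ : ∃ F : ℝ, F = (u.factorial : ℝ) := ⟨_, rfl⟩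
  have hF0 : 0 ≤ F := by
    rw [hF]
    exact Nat.cast_nonneg _
  rw [← hF] at h3 ⊢
  have hAk : 0 ≤ A ^ k := pow_nonneg hA0 k
  have h9 : A ^ k * (ρ₀ + E) ≤ rhoG J u R r m +
      (((r : ℝ) + s₀ + k) * k * (2 * R) ^ (k - 1) * (2 * R) ^ s₀ + (2 * R) ^ k * C + 1) *
        (m : ℝ) ^ (Fintype.card ι - 1) := by
    have e1 : (A ^ k - D) * ρ₀ ≤ ((r : ℝ) + s₀ + k) * k * (2 * R) ^ (k - 1) * (2 * R) ^ s₀ *
        (m : ℝ) ^ (Fintype.card ι - 1) := by
      have e2 : (A ^ k - D) * ρ₀ ≤ (((r : ℝ) + s₀ + k) * k * A ^ (k - 1)) * ρ₀ :=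
        mul_le_mul_of_nonneg_right h8 h50
      have e3 : A ^ (k - 1) ≤ (2 * R * m) ^ (k - 1) := pow_le_pow_left₀ hA0 hA1 _
      have e4 : (((r : ℝ) + s₀ + k) * k * A ^ (k - 1)) * ρ₀ ≤
          (((r : ℝ) + s₀ + k) * k * (2 * R * m) ^ (k - 1)) * (2 * (R : ℝ) * m) ^ s₀ := by
        refine mul_le_mul ?_ h5 h50 (by positivity)
        exact mul_le_mul_of_nonneg_left e3 (by positivity)
      have e5 : Fintype.card ι - 1 = (k - 1) + s₀ := by omega
      refine e2.trans (e4.trans (le_of_eq ?_))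
      rw [e5, pow_add, mul_pow (2 * (R : ℝ)) (m : ℝ) (k - 1), mul_pow (2 * (R : ℝ)) (m : ℝ) s₀]
      ring
    have e6 : A ^ k * E ≤ (2 * R) ^ k * C * (m : ℝ) ^ (Fintype.card ι - 1) := by
      have e7 : A ^ k ≤ (2 * R * m) ^ k := pow_le_pow_left₀ hA0 hA1 _
      have e8 : A ^ k * E ≤ (2 * R * m) ^ k * E := mul_le_mul_of_nonneg_right e7 hE0
      have e9 : (2 * (R : ℝ) * m) ^ k * E = (2 * R) ^ k * (m : ℝ) ^ (k - 1) * (E * m) := by
        rw [mul_pow]
        obtain ⟨k', rfl⟩ : ∃ k', k = k' + 1 := ⟨k - 1, by omega⟩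
        rw [Nat.add_sub_cancel, pow_succ (m : ℝ) k']
        ring
      have e10 : (2 * (R : ℝ)) ^ k * (m : ℝ) ^ (k - 1) * (E * m) ≤
          (2 * (R : ℝ)) ^ k * (m : ℝ) ^ (k - 1) * (C * (m : ℝ) ^ s₀) :=
        mul_le_mul_of_nonneg_left hE1 (by positivity)
      have e5 : Fintype.card ι - 1 = (k - 1) + s₀ := by omega
      rw [e9] at e8
      refine e8.trans (e10.trans (le_of_eq ?_))
      rw [e5, pow_add]
      ring
    have e11 : (0 : ℝ) ≤ (m : ℝ) ^ (Fintype.card ι - 1) := by positivity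
    nlinarith only [h4, e1, e6, e11]
  calc ((emb (jn J u) G univ).card : ℝ)
      ≤ A ^ k * ((emb (jn (J.comap (Subtype.val : {v // v ∉ I} → ι)) u) G univ).card : ℝ) := h6
    _ ≤ A ^ k * (F * (ρ₀ + E) * Q) := mul_le_mul_of_nonneg_left h3 hAk
    _ = F * (A ^ k * (ρ₀ + E)) * Q := by ring
    _ ≤ F * (rhoG J u R r m +
        (((r : ℝ) + s₀ + k) * k * (2 * R) ^ (k - 1) * (2 * R) ^ s₀ + (2 * R) ^ k * C + 1) *
          (m : ℝ) ^ (Fintype.card ι - 1)) * Q :=
      mul_le_mul_of_nonneg_right (mul_le_mul_of_nonneg_left h9 hF0) hQ0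

end H57GH
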